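import Mathlib
import Pool.Prelude.Def_F_458e953d

section

/-! A small imperative language on stacks of bits, with a cost semantics, and its compilation to
Mathlib's finite multi-stack machines. -/

namespace Pool.Agent.MP_2e8011_lc

open Turing

/-- States: infinitely many registers, each a stack of bits. -/
abbrev St := ℕ → List Bool

/-- Commands. -/
inductive Cmd : Type
  | skip : Cmd
  | push (k : ℕ) (b : Bool) : Cmd
  | pop (k : ℕ) : Cmd
  | seq (c d : Cmd) : Cmd
  | ite (k : ℕ) (cn cf ct : Cmd) : Cmd
  | loop (k : ℕ) (c : Cmd) : Cmd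

/-- `Exec c S S' t`: started in `S`, the command `c` stops in `S'` within `t` steps. -/
inductive Exec : Cmd → St → St → ℕ → Prop
  | skip (S : St) : Exec .skip S S 1
  | push (k : ℕ) (b : Bool) (S : St) : Exec (.push k b) S (Function.update S k (b :: S k)) 1
  | pop (k : ℕ) (S : St) : Exec (.pop k) S (Function.update S k (S k).tail) 1
  | seq {c d : Cmd} {S S' S'' : St} {t u : ℕ} :
      Exec c S S' t → Exec d S' S'' u → Exec (.seq c d) S S'' (t + u)
  | iteN {k : ℕ} {cn cf ct : Cmd} {S S' : St} {t : ℕ} :
      (S k).head? = none → Exec cn S S' t → Exec (.ite k cn cf ct) S S' (t + 1)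
  | iteF {k : ℕ} {cn cf ct : Cmd} {S S' : St} {t : ℕ} :
      (S k).head? = some false → Exec cf S S' t → Exec (.ite k cn cf ct) S S' (t + 1)
  | iteT {k : ℕ} {cn cf ct : Cmd} {S S' : St} {t : ℕ} :
      (S k).head? = some true → Exec ct S S' t → Exec (.ite k cn cf ct) S S' (t + 1)
  | loopN {k : ℕ} {c : Cmd} {S : St} : S k = [] → Exec (.loop k c) S S 1
  | loopS {k : ℕ} {c : Cmd} {S S' S'' : St} {t u : ℕ} :
      S k ≠ [] → Exec c S S' t → Exec (.loop k c) S' S'' u → Exec (.loop k c) S S'' (t + u + 1)
  | weaken {c : Cmd} {S S' : St} {t u : ℕ} : Exec c S S' t → t ≤ u → Exec c S S' u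

/-- All registers used by the command are below `bound`. -/
def Cmd.bound : Cmd → ℕ
  | .skip => 0
  | .push k _ => k + 1
  | .pop k => k + 1
  | .seq c d => max c.bound d.bound
  | .ite k a b c => max (k + 1) (max a.bound (max b.bound c.bound))
  | .loop k c => max (k + 1) c.bound

/-- Program points. -/
def Lab : Cmd → Type
  | .skip => Unit
  | .push _ _ => Unit
  | .pop _ => Unit
  | .seq c d => Lab c ⊕ Lab d
  | .ite _ a b c => Option (Lab a ⊕ Lab b ⊕ Lab c)
  | .loop _ c => Option (Lab c)

/-- There are finitely many program points. -/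
@[instance_reducible]
def labFintype : (c : Cmd) → Fintype (Lab c)
  | .skip => inferInstanceAs (Fintype Unit)
  | .push _ _ => inferInstanceAs (Fintype Unit)
  | .pop _ => inferInstanceAs (Fintype Unit)
  | .seq c d =>
      letI := labFintype c
      letI := labFintype d
      inferInstanceAs (Fintype (Lab c ⊕ Lab d))
  | .ite _ a b c =>
      letI := labFintype a
      letI := labFintype b
      letI := labFintype c
      inferInstanceAs (Fintype (Option (Lab a ⊕ Lab b ⊕ Lab c)))
  | .loop _ c =>
      letI := labFintype c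
      inferInstanceAs (Fintype (Option (Lab c)))

/-- The entry point. -/
def entry : (c : Cmd) → Lab c
  | .skip => ()
  | .push _ _ => ()
  | .pop _ => ()
  | .seq c _ => Sum.inl (entry c)
  | .ite _ _ _ _ => none
  | .loop _ _ => none

section compile

variable {N : ℕ} [NeZero N] {Λ : Type}

/-- Jump to a continuation, resetting the internal state. -/
def jump (cont : Option Λ) : TM2.Stmt (fun _ : Fin N => Bool) Λ (Option Bool) :=
  match cont with
  | none => .load (fun _ => none) .halt
  | some l => .load (fun _ => none) (.goto fun _ => l)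

theorem stepAux_jump (cont : Option Λ) (v : Option Bool) (T : Fin N → List Bool) :
    TM2.stepAux (jump (N := N) cont) v T = ⟨cont, none, T⟩ := by
  cases cont <;> rfl

/-- The code at each program point. -/
def code (N : ℕ) [NeZero N] {Λ : Type} : (c : Cmd) → (Lab c → Λ) → Option Λ → Lab c →
    TM2.Stmt (fun _ : Fin N => Bool) Λ (Option Bool)
  | .skip, _, cont, _ => jump cont
  | .push k b, _, cont, _ => .push (Fin.ofNat N k) (fun _ => b) (jump cont)
  | .pop k, _, cont, _ => .pop (Fin.ofNat N k) (fun _ _ => none) (jump cont)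
  | .seq c d, emb, _, Sum.inl l =>
      code N c (fun x => emb (Sum.inl x)) (some (emb (Sum.inr (entry d)))) l
  | .seq _ d, emb, cont, Sum.inr l => code N d (fun x => emb (Sum.inr x)) cont l
  | .ite k a b c, emb, _, none =>
      .peek (Fin.ofNat N k) (fun _ o => o)
        (.branch (fun v => v.isNone) (jump (some (emb (some (Sum.inl (entry a))))))
          (.branch (fun v => v.getD false) (jump (some (emb (some (Sum.inr (Sum.inr (entry c)))))))
            (jump (some (emb (some (Sum.inr (Sum.inl (entry b)))))))))
  | .ite _ a _ _, emb, cont, some (Sum.inl l) =>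
      code N a (fun x => emb (some (Sum.inl x))) cont l
  | .ite _ _ b _, emb, cont, some (Sum.inr (Sum.inl l)) =>
      code N b (fun x => emb (some (Sum.inr (Sum.inl x)))) cont l
  | .ite _ _ _ c, emb, cont, some (Sum.inr (Sum.inr l)) =>
      code N c (fun x => emb (some (Sum.inr (Sum.inr x)))) cont l
  | .loop k c, emb, cont, none =>
      .peek (Fin.ofNat N k) (fun _ o => o)
        (.branch (fun v => v.isNone) (jump cont) (jump (some (emb (some (entry c))))))
  | .loop _ c, emb, _, some l => code N c (fun x => emb (some x)) (some (emb none)) l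

/-- Restriction of a state to the first `N` registers. -/
def res (N : ℕ) (S : St) : Fin N → List Bool := fun k => S k

theorem res_ofNat {k : ℕ} (hk : k < N) (S : St) : res N S (Fin.ofNat N k) = S k := by
  simp [res, Fin.ofNat, Nat.mod_eq_of_lt hk]

theorem res_update {k : ℕ} (hk : k < N) (S : St) (v : List Bool) :
    res N (Function.update S k v) = Function.update (res N S) (Fin.ofNat N k) v := by
  funext j
  by_cases h : j = Fin.ofNat N k
  · subst h
    simp [res, Fin.ofNat, Nat.mod_eq_of_lt hk]
  · have : (j : ℕ) ≠ k := by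
      intro h'
      apply h
      ext
      simp [Fin.ofNat, Nat.mod_eq_of_lt hk, h']
    rw [Function.update_of_ne h]
    simp only [res]
    rw [Function.update_of_ne this]

/-- `n` steps of the machine `M`. -/
def Steps (M : Λ → TM2.Stmt (fun _ : Fin N => Bool) Λ (Option Bool)) (n : ℕ)
    (a b : TM2.Cfg (fun _ : Fin N => Bool) Λ (Option Bool)) : Prop :=
  (flip bind (TM2.step M))^[n] (some a) = some b

omit [NeZero N] in
theorem Steps.trans {M : Λ → TM2.Stmt (fun _ : Fin N => Bool) Λ (Option Bool)} {n m : ℕ}
    {a b c : TM2.Cfg (fun _ : Fin N => Bool) Λ (Option Bool)} (h₁ : Steps M n a b)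
    (h₂ : Steps M m b c) : Steps M (n + m) a c := by
  unfold Steps at *
  rw [add_comm, Function.iterate_add_apply, h₁, h₂]

omit [NeZero N] in
theorem Steps.one {M : Λ → TM2.Stmt (fun _ : Fin N => Bool) Λ (Option Bool)} {l : Λ}
    {v : Option Bool} {T : Fin N → List Bool}
    {b : TM2.Cfg (fun _ : Fin N => Bool) Λ (Option Bool)} (h : TM2.stepAux (M l) v T = b) :
    Steps M 1 ⟨some l, v, T⟩ b := by
  subst h
  rfl

theorem sim (M : Λ → TM2.Stmt (fun _ : Fin N => Bool) Λ (Option Bool)) {c : Cmd} {S S' : St}
    {t : ℕ} (h : Exec c S S' t) : c.bound ≤ N → ∀ (emb : Lab c → Λ) (cont : Option Λ),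
      (∀ l, M (emb l) = code N c emb cont l) →
      ∃ n ≤ t, Steps M n ⟨some (emb (entry c)), none, res N S⟩ ⟨cont, none, res N S'⟩ := by
  induction h with
  | skip S =>
    intro _ emb cont hM
    refine ⟨1, le_rfl, Steps.one ?_⟩
    rw [hM]
    exact stepAux_jump _ _ _
  | push k b S =>
    intro hb emb cont hM
    have hk : k < N := hb
    refine ⟨1, le_rfl, Steps.one ?_⟩
    rw [hM]
    simp only [code, TM2.stepAux, stepAux_jump, res_update hk, res_ofNat hk]
  | pop k S =>
    intro hb emb cont hM
    have hk : k < N := hb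
    refine ⟨1, le_rfl, Steps.one ?_⟩
    rw [hM]
    simp only [code, TM2.stepAux, stepAux_jump, res_update hk, res_ofNat hk]
  | @seq c d S S' S'' t u _ _ ih₁ ih₂ =>
    intro hb emb cont hM
    simp only [Cmd.bound, max_le_iff] at hb
    obtain ⟨n₁, hn₁, h₁⟩ := ih₁ hb.1 (fun x => emb (Sum.inl x))
      (some (emb (Sum.inr (entry d)))) (fun l => hM (Sum.inl l))
    obtain ⟨n₂, hn₂, h₂⟩ := ih₂ hb.2 (fun x => emb (Sum.inr x)) cont (fun l => hM (Sum.inr l))
    exact ⟨n₁ + n₂, by omega, h₁.trans h₂⟩
  | @iteN k cn cf ct S S' t hS _ ih =>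
    intro hb emb cont hM
    simp only [Cmd.bound, max_le_iff] at hb
    have hk : k < N := hb.1
    obtain ⟨n, hn, h⟩ := ih hb.2.1 (fun x => emb (some (Sum.inl x))) cont
      (fun l => hM (some (Sum.inl l)))
    refine ⟨1 + n, by omega, Steps.trans (Steps.one ?_) h⟩
    rw [show entry (Cmd.ite k cn cf ct) = none from rfl, hM]
    simp only [code, TM2.stepAux, stepAux_jump, res_ofNat hk, hS]
    rfl
  | @iteF k cn cf ct S S' t hS _ ih =>
    intro hb emb cont hM
    simp only [Cmd.bound, max_le_iff] at hb
    have hk : k < N := hb.1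
    obtain ⟨n, hn, h⟩ := ih hb.2.2.1 (fun x => emb (some (Sum.inr (Sum.inl x)))) cont
      (fun l => hM (some (Sum.inr (Sum.inl l))))
    refine ⟨1 + n, by omega, Steps.trans (Steps.one ?_) h⟩
    rw [show entry (Cmd.ite k cn cf ct) = none from rfl, hM]
    simp only [code, TM2.stepAux, stepAux_jump, res_ofNat hk, hS]
    rfl
  | @iteT k cn cf ct S S' t hS _ ih =>
    intro hb emb cont hM
    simp only [Cmd.bound, max_le_iff] at hb
    have hk : k < N := hb.1
    obtain ⟨n, hn, h⟩ := ih hb.2.2.2 (fun x => emb (some (Sum.inr (Sum.inr x)))) cont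
      (fun l => hM (some (Sum.inr (Sum.inr l))))
    refine ⟨1 + n, by omega, Steps.trans (Steps.one ?_) h⟩
    rw [show entry (Cmd.ite k cn cf ct) = none from rfl, hM]
    simp only [code, TM2.stepAux, stepAux_jump, res_ofNat hk, hS]
    rfl
  | @loopN k c S hS =>
    intro hb emb cont hM
    simp only [Cmd.bound, max_le_iff] at hb
    have hk : k < N := hb.1
    refine ⟨1, le_rfl, Steps.one ?_⟩
    rw [show entry (Cmd.loop k c) = none from rfl, hM]
    simp only [code, TM2.stepAux, stepAux_jump, res_ofNat hk, hS]
    rfl
  | @loopS k c S S' S'' t u hS _ _ ih₁ ih₂ =>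
    intro hb emb cont hM
    have hb' := hb
    simp only [Cmd.bound, max_le_iff] at hb
    have hk : k < N := hb.1
    obtain ⟨n₁, hn₁, h₁⟩ := ih₁ hb.2 (fun x => emb (some x)) (some (emb none))
      (fun l => hM (some l))
    obtain ⟨n₂, hn₂, h₂⟩ := ih₂ hb' emb cont hM
    refine ⟨1 + (n₁ + n₂), by omega, Steps.trans (Steps.one ?_) (h₁.trans h₂)⟩
    rw [show entry (Cmd.loop k c) = none from rfl, hM]
    obtain ⟨b, l, hl⟩ := List.exists_cons_of_ne_nil hS
    simp only [code, TM2.stepAux, stepAux_jump, res_ofNat hk, hl]
    rfl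
  | weaken _ htu ih =>
    intro hb emb cont hM
    obtain ⟨n, hn, h⟩ := ih hb emb cont hM
    exact ⟨n, hn.trans htu, h⟩

end compile

/-- The state with `l` in register `0` and all other registers empty. -/
def one (l : List Bool) : St := fun k => if k = 0 then l else []

/-- The machine of a command. -/
def machine (c : Cmd) : FinTM2 where
  K := Fin (c.bound + 1)
  k₀ := 0
  k₁ := 0
  Γ _ := Bool
  Λ := Lab c
  main := entry c
  ΛFin := labFintype c
  σ := Option Bool
  initialState := none
  m := code (c.bound + 1) c id none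

theorem initList_machine (c : Cmd) (l : List Bool) :
    initList (machine c) l = ⟨some (entry c), none, res (c.bound + 1) (one l)⟩ := by
  unfold initList
  congr 1
  funext k
  by_cases h : k = (machine c).k₀
  · subst h
    rw [dif_pos rfl]
    rfl
  · rw [dif_neg h]
    have : ((show Fin (c.bound + 1) from k) : ℕ) ≠ 0 := fun h' => h (Fin.ext h')
    simp only [res, one]
    rw [if_neg this]
    rfl

theorem haltList_machine (c : Cmd) (l : List Bool) :
    haltList (machine c) l = ⟨none, none, res (c.bound + 1) (one l)⟩ := by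
  unfold haltList
  congr 1
  funext k
  by_cases h : k = (machine c).k₁
  · subst h
    rw [dif_pos rfl]
    rfl
  · rw [dif_neg h]
    have : ((show Fin (c.bound + 1) from k) : ℕ) ≠ 0 := fun h' => h (Fin.ext h')
    simp only [res, one]
    rw [if_neg this]
    rfl

/-- A command that computes `f` within polynomially many steps gives a polynomial-time machine. -/
theorem polyTime_of_exec {α β : Type} (ea : α → List Bool) (eb : β → List Bool) (f : α → β)
    (c : Cmd) (p : Polynomial ℕ)
    (h : ∀ a, Exec c (one (ea a)) (one (eb (f a))) (p.eval (ea a).length)) :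
    Nonempty (TM2ComputableInPolyTime ea eb f) := by
  have key : ∀ a, ∃ n ≤ p.eval (ea a).length,
      (flip bind (machine c).step)^[n] (some (initList (machine c) (ea a))) =
        some (haltList (machine c) (eb (f a))) := by
    intro a
    obtain ⟨n, hn, hs⟩ := sim (N := c.bound + 1) (code (c.bound + 1) c id none) (h a)
      (Nat.le_succ _) id none (fun _ => rfl)
    refine ⟨n, hn, ?_⟩
    rw [initList_machine, haltList_machine]
    exact hs
  choose n hn hs using key
  refine ⟨⟨⟨machine c, Equiv.refl Bool, Equiv.refl Bool⟩, p, fun a => ⟨⟨n a, ?_⟩, hn a⟩⟩⟩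
  have e1 : ∀ l : List Bool, List.map (Equiv.refl Bool).invFun l = l := fun l => List.map_id l
  have := hs a
  rw [← e1 (ea a), ← e1 (eb (f a))] at this
  exact this

end Pool.Agent.MP_2e8011_lc

end

section

/-! Basic programs and their specifications. -/

namespace Pool.Agent.MP_2e8011_lc

/-- Prepend a register. -/
def sc (a : List Bool) (S : St) : St
  | 0 => a
  | k + 1 => S k

/-- The empty state. -/
def emp : St := fun _ => []

@[simp] theorem sc_zero (a : List Bool) (S : St) : sc a S 0 = a := rfl
@[simp] theorem sc_succ (a : List Bool) (S : St) (k : ℕ) : sc a S (k + 1) = S k := rfl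
@[simp] theorem sc_one (a : List Bool) (S : St) : sc a S 1 = S 0 := rfl
@[simp] theorem sc_two (a : List Bool) (S : St) : sc a S 2 = S 1 := rfl
@[simp] theorem sc_three (a : List Bool) (S : St) : sc a S 3 = S 2 := rfl
@[simp] theorem emp_apply (k : ℕ) : emp k = [] := rfl

theorem update_sc_zero (a : List Bool) (S : St) (v : List Bool) :
    Function.update (sc a S) 0 v = sc v S := by
  funext k
  cases k with
  | zero => simp
  | succ k => simp

theorem update_sc_succ (a : List Bool) (S : St) (k : ℕ) (v : List Bool) :
    Function.update (sc a S) (k + 1) v = sc a (Function.update S k v) := by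
  funext j
  cases j with
  | zero => simp
  | succ j =>
    by_cases h : j = k
    · subst h; simp
    · simp [h]

theorem sc_emp : sc [] emp = emp := by
  funext k
  cases k <;> rfl

theorem update_emp_zero (v : List Bool) : Function.update emp 0 v = sc v emp := by
  rw [← sc_emp, update_sc_zero, sc_emp]

theorem update_emp_one (v : List Bool) : Function.update emp 1 v = sc [] (sc v emp) := by
  rw [← sc_emp, update_sc_succ, update_emp_zero, sc_emp]

theorem one_eq (l : List Bool) : one l = sc l emp := by
  funext k
  cases k <;> simp [one]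

theorem one_eq2 (l : List Bool) : one l = sc l (sc [] emp) := by rw [sc_emp, one_eq]

theorem one_eq3 (l : List Bool) : one l = sc l (sc [] (sc [] emp)) := by
  rw [sc_emp, sc_emp, one_eq]

theorem one_eq4 (l : List Bool) : one l = sc l (sc [] (sc [] (sc [] emp))) := by
  rw [sc_emp, sc_emp, sc_emp, one_eq]

/-- Shift all registers by one. -/
def Cmd.up : Cmd → Cmd
  | .skip => .skip
  | .push k b => .push (k + 1) b
  | .pop k => .pop (k + 1)
  | .seq c d => .seq c.up d.up
  | .ite k a b c => .ite (k + 1) a.up b.up c.up
  | .loop k c => .loop (k + 1) c.up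

theorem Exec.up {c : Cmd} {S S' : St} {t : ℕ} (h : Exec c S S' t) (a : List Bool) :
    Exec c.up (sc a S) (sc a S') t := by
  induction h with
  | skip S => exact Exec.skip _
  | push k b S => rw [← update_sc_succ]; exact Exec.push (k + 1) b (sc a S)
  | pop k S => rw [← update_sc_succ]; exact Exec.pop (k + 1) (sc a S)
  | seq _ _ ih₁ ih₂ => exact Exec.seq ih₁ ih₂
  | iteN hS _ ih => exact Exec.iteN hS ih
  | iteF hS _ ih => exact Exec.iteF hS ih
  | iteT hS _ ih => exact Exec.iteT hS ih
  | loopN hS => exact Exec.loopN hS
  | loopS hS _ _ ih₁ ih₂ => exact Exec.loopS hS ih₁ ih₂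
  | weaken _ h ih => exact Exec.weaken ih h

theorem Exec.length_le {c : Cmd} {S S' : St} {t : ℕ} (h : Exec c S S' t) (k : ℕ) :
    (S' k).length ≤ (S k).length + t := by
  induction h with
  | skip S => omega
  | push j b S =>
    by_cases h : k = j
    · subst h; simp
    · simp [h]
  | pop j S =>
    by_cases h : k = j
    · subst h; simp; omega
    · simp [h]
  | seq _ _ ih₁ ih₂ => omega
  | iteN hS _ ih => omega
  | iteF hS _ ih => omega
  | iteT hS _ ih => omega
  | loopN hS => omega
  | loopS hS _ _ ih₁ ih₂ => omega
  | weaken _ h ih => omega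

theorem Exec.cast {c : Cmd} {S S' T T' : St} {t u : ℕ} (h : Exec c S S' t) (h₁ : S = T)
    (h₂ : S' = T') (h₃ : t ≤ u) : Exec c T T' u := by
  subst h₁ h₂
  exact h.weaken h₃

theorem Exec.push' (k : ℕ) (b : Bool) {S S' : St} (h : S' = Function.update S k (b :: S k)) :
    Exec (.push k b) S S' 1 := h ▸ Exec.push k b S

theorem Exec.pop' (k : ℕ) {S S' : St} (h : S' = Function.update S k (S k).tail) :
    Exec (.pop k) S S' 1 := h ▸ Exec.pop k S

/-- Consume register `i` bit by bit, running `F b` after popping the bit `b`. -/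
def tr (i : ℕ) (F : Bool → Cmd) : Cmd :=
  .loop i (.ite i .skip (.seq (.pop i) (F false)) (.seq (.pop i) (F true)))

theorem exec_tr (i : ℕ) (F : Bool → Cmd) (c : ℕ) (φ : List Bool → List Bool → St)
    (hi : ∀ p l, φ p l i = l)
    (hF : ∀ p b l, Exec (F b) (Function.update (φ p (b :: l)) i l) (φ (b :: p) l) c) :
    ∀ l p, Exec (tr i F) (φ p l) (φ (l.reverse ++ p) []) ((c + 3) * l.length + 1) := by
  intro l
  induction l with
  | nil => intro p; simpa [tr] using Exec.loopN (hi p [])
  | cons b l ih =>
    intro p
    have h1 : Exec (.seq (.pop i) (F b)) (φ p (b :: l)) (φ (b :: p) l) (1 + c) :=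
      Exec.seq (Exec.pop' i (by rw [hi]; rfl)) (hF p b l)
    have h2 : Exec (.ite i .skip (.seq (.pop i) (F false)) (.seq (.pop i) (F true)))
        (φ p (b :: l)) (φ (b :: p) l) (1 + c + 1) := by
      cases b
      · exact Exec.iteF (by rw [hi]; rfl) h1
      · exact Exec.iteT (by rw [hi]; rfl) h1
    refine (Exec.loopS (by rw [hi]; simp) h2 (ih (b :: p))).cast rfl (by simp) ?_
    simp only [List.length_cons]
    nlinarith

/-- Move register `i` onto register `j`, reversing it. -/
def mv (i j : ℕ) : Cmd := tr i (fun b => .push j b)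

theorem exec_mv {i j : ℕ} (hij : i ≠ j) (S : St) :
    Exec (mv i j) S (Function.update (Function.update S i []) j ((S i).reverse ++ S j))
      (4 * (S i).length + 1) := by
  have := exec_tr i (fun b => .push j b) 1
    (fun p l => Function.update (Function.update S i l) j (p ++ S j))
    (by intro p l; simp [Function.update_of_ne hij])
    (by
      intro p b l
      refine Exec.push' j b ?_
      funext k
      by_cases hk : k = j
      · subst hk; simp [Function.update_of_ne hij.symm]
      · by_cases hk' : k = i
        · subst hk'; simp [hk]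
        · simp [hk, hk'])
    (S i) []
  refine this.cast ?_ (by simp) le_rfl
  simp

/-- Empty register `i`. -/
def clear (i : ℕ) : Cmd := tr i (fun _ => .skip)

theorem exec_clear (i : ℕ) (S : St) :
    Exec (clear i) S (Function.update S i []) (4 * (S i).length + 1) := by
  have := exec_tr i (fun _ => .skip) 1 (fun _ l => Function.update S i l)
    (by intro p l; simp)
    (by intro p b l; simpa using Exec.skip _)
    (S i) []
  refine this.cast ?_ rfl le_rfl
  simp

/-- Self-delimiting code of a bit string. -/
def delim : List Bool → List Bool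
  | [] => [false]
  | b :: l => true :: b :: delim l

/-- Split off the first self-delimited block. -/
def split : List Bool → List Bool × List Bool
  | [] => ([], [])
  | false :: l => ([], l)
  | [true] => ([], [])
  | true :: b :: l => (b :: (split l).1, (split l).2)

@[simp] theorem split_delim (a l : List Bool) : split (delim a ++ l) = (a, l) := by
  induction a with
  | nil => rfl
  | cons b a ih => simp [delim, split, ih]

@[simp] theorem length_delim (a : List Bool) : (delim a).length = 2 * a.length + 1 := by
  induction a with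
  | nil => rfl
  | cons b a ih => simp [delim, ih]; omega

theorem split_length (l : List Bool) : (split l).1.length + (split l).2.length ≤ l.length := by
  induction l using split.induct with
  | case1 => simp [split]
  | case2 l => simp [split]
  | case3 => simp [split]
  | case4 b l ih => simp [split]; omega

/-- The loop of the splitting program: register `0` is read, the block goes (reversed) to
register `1`, register `2` is a flag. -/
def splitLoop : Cmd :=
  .loop 2 (.ite 0 (.pop 2) (.seq (.pop 0) (.pop 2))
    (.seq (.pop 0) (.ite 0 .skip (.seq (.pop 0) (.push 1 false)) (.seq (.pop 0) (.push 1 true)))))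

theorem exec_splitLoop (R : St) (l : List Bool) : ∀ p : List Bool,
    Exec splitLoop (sc l (sc p (sc [true] R)))
      (sc (split l).2 (sc ((split l).1.reverse ++ p) (sc [] R))) (6 * l.length + 5) := by
  induction l using split.induct with
  | case1 =>
    intro p
    refine (Exec.loopS (by simp) (Exec.iteN (by simp) (Exec.pop 2 _)) (Exec.loopN ?_)).cast rfl ?_
      (by simp)
    · simp
    · simp [split, update_sc_succ, update_sc_zero]
  | case2 l =>
    intro p
    refine (Exec.loopS (by simp) (Exec.iteF (by simp) (Exec.seq (Exec.pop 0 _) (Exec.pop 2 _)))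
      (Exec.loopN ?_)).cast rfl ?_ (by simp)
    · simp
    · simp [split, update_sc_succ, update_sc_zero]
  | case3 =>
    intro p
    refine (Exec.loopS (by simp) (Exec.iteT (by simp) (Exec.seq (Exec.pop 0 _)
      (Exec.iteN (by simp) (Exec.skip _))))
      (Exec.loopS (by simp) (Exec.iteN (by simp) (Exec.pop 2 _)) (Exec.loopN ?_))).cast rfl ?_
      (by simp)
    · simp
    · simp [split, update_sc_succ, update_sc_zero]
  | case4 b l ih =>
    intro p
    have h1 : Exec (.ite 0 .skip (.seq (.pop 0) (.push 1 false)) (.seq (.pop 0) (.push 1 true)))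
        (sc (b :: l) (sc p (sc [true] R))) (sc l (sc (b :: p) (sc [true] R))) 3 := by
      cases b
      · refine (Exec.iteF (by simp) (Exec.seq (Exec.pop 0 _) (Exec.push 1 _ _))).cast rfl ?_ le_rfl
        simp [update_sc_succ, update_sc_zero]
      · refine (Exec.iteT (by simp) (Exec.seq (Exec.pop 0 _) (Exec.push 1 _ _))).cast rfl ?_ le_rfl
        simp [update_sc_succ, update_sc_zero]
    refine (Exec.loopS (by simp) (Exec.iteT (by simp) (Exec.seq (Exec.pop' 0 ?_) h1))
      (ih (b :: p))).cast rfl ?_ (by simp; omega)
    · simp [update_sc_zero]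
    · simp [split]

/-- The splitting program. -/
def splitP : Cmd := .seq (.push 2 true) splitLoop

theorem exec_splitP (l : List Bool) :
    Exec splitP (one l) (sc (split l).2 (sc (split l).1.reverse emp)) (6 * l.length + 6) := by
  refine (Exec.seq (Exec.push' 2 true ?_) (exec_splitLoop emp l [])).cast (one_eq3 l).symm ?_
    (by omega)
  · simp [update_sc_succ, update_sc_zero]
  · simp [sc_emp]

theorem exec_fst (l : List Bool) :
    Exec (.seq splitP (.seq (clear 0) (mv 1 0))) (one l) (one (split l).1) (14 * l.length + 8) := by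
  have hl := split_length l
  refine (Exec.seq (exec_splitP l) (Exec.seq (exec_clear 0 _) (exec_mv (by omega) _))).cast rfl ?_ ?_
  · simp [update_sc_succ, update_sc_zero, one_eq2]
  · simp; omega

theorem exec_snd (l : List Bool) :
    Exec (.seq splitP (clear 1)) (one l) (one (split l).2) (10 * l.length + 7) := by
  have hl := split_length l
  refine (Exec.seq (exec_splitP l) (exec_clear 1 _)).cast rfl ?_ ?_
  · simp [update_sc_succ, update_sc_zero, one_eq2]
  · simp; omega

theorem exec_len (l : List Bool) :
    Exec (.seq (tr 0 (fun _ => .push 1 true)) (mv 1 0)) (one l)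
      (one (List.replicate l.length true)) (8 * l.length + 2) := by
  have h1 := exec_tr 0 (fun _ => .push 1 true) 1
    (fun p l => sc l (sc (List.replicate p.length true) emp)) (by simp)
    (by
      intro p b l
      refine Exec.push' 1 true ?_
      simp [update_sc_succ, update_sc_zero, List.replicate_succ]) l []
  refine (Exec.seq h1 (exec_mv (by omega) _)).cast ?_ ?_ ?_
  · simp [one_eq2]
  · simp [update_sc_succ, update_sc_zero, one_eq2]
  · simp; omega

/-- The pairing program. -/
def pairP (c d : Cmd) : Cmd :=
  .seq (tr 0 (fun b => .seq (.push 1 b) (.push 2 b)))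
  (.seq (mv 1 3)
  (.seq c.up.up.up
  (.seq (mv 3 1)
  (.seq (mv 2 3)
  (.seq d.up.up.up
  (.seq (mv 3 2)
  (.seq (mv 2 0)
  (.seq (.push 0 false)
  (tr 1 (fun b => .seq (.push 0 b) (.push 0 true)))))))))))

theorem exec_pairP {c d : Cmd} {x y z : List Bool} {t u : ℕ} (hc : Exec c (one x) (one y) t)
    (hd : Exec d (one x) (one z) u) :
    Exec (pairP c d) (one x) (one (delim y ++ z))
      (13 * x.length + 9 * y.length + 8 * z.length + t + u + 10) := by
  have h1 := exec_tr 0 (fun b => .seq (.push 1 b) (.push 2 b)) 2
    (fun p l => sc l (sc p (sc p emp))) (by simp)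
    (by
      intro p b l
      refine (Exec.seq (Exec.push 1 b _) (Exec.push 2 b _)).cast rfl ?_ le_rfl
      simp [update_sc_succ, update_sc_zero]) x []
  have h2 : Exec (mv 1 3) (sc [] (sc x.reverse (sc x.reverse emp)))
      (sc [] (sc [] (sc x.reverse (one x)))) (4 * x.length + 1) := by
    refine (exec_mv (by omega) _).cast rfl ?_ (by simp)
    rw [← sc_emp]
    simp [update_sc_succ, update_sc_zero, one_eq]
  have h3 := ((hc.up x.reverse).up []).up []
  have h4 : Exec (mv 3 1) (sc [] (sc [] (sc x.reverse (one y))))
      (sc [] (sc y.reverse (sc x.reverse emp))) (4 * y.length + 1) := by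
    refine (exec_mv (by omega) _).cast rfl ?_ (by simp [one_eq])
    simp [update_sc_succ, update_sc_zero, one_eq, sc_emp, update_emp_zero, update_emp_one]
  have h5 : Exec (mv 2 3) (sc [] (sc y.reverse (sc x.reverse emp)))
      (sc [] (sc y.reverse (sc [] (one x)))) (4 * x.length + 1) := by
    refine (exec_mv (by omega) _).cast rfl ?_ (by simp)
    rw [← sc_emp]
    simp [update_sc_succ, update_sc_zero, one_eq]
  have h6 := ((hd.up []).up y.reverse).up []
  have h7 : Exec (mv 3 2) (sc [] (sc y.reverse (sc [] (one z))))
      (sc [] (sc y.reverse (sc z.reverse emp))) (4 * z.length + 1) := by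
    refine (exec_mv (by omega) _).cast rfl ?_ (by simp [one_eq])
    simp [update_sc_succ, update_sc_zero, one_eq, sc_emp, update_emp_zero, update_emp_one]
  have h8 : Exec (mv 2 0) (sc [] (sc y.reverse (sc z.reverse emp)))
      (sc z (sc y.reverse emp)) (4 * z.length + 1) := by
    refine (exec_mv (by omega) _).cast rfl ?_ (by simp)
    simp [update_sc_succ, update_sc_zero, sc_emp]
  have h9 : Exec (.push 0 false) (sc z (sc y.reverse emp))
      (sc (false :: z) (sc y.reverse emp)) 1 := by
    refine Exec.push' 0 false ?_
    simp [update_sc_zero]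
  have h10 := exec_tr 1 (fun b => .seq (.push 0 b) (.push 0 true)) 2
    (fun p l => sc (delim p ++ z) (sc l emp)) (by simp)
    (by
      intro p b l
      refine (Exec.seq (Exec.push 0 b _) (Exec.push 0 true _)).cast rfl ?_ le_rfl
      simp [update_sc_succ, update_sc_zero, delim]) y.reverse []
  refine (Exec.seq h1 (Exec.seq (by simpa using h2) (Exec.seq h3 (Exec.seq h4 (Exec.seq h5
    (Exec.seq h6 (Exec.seq h7 (Exec.seq h8 (Exec.seq h9 h10))))))))).cast ?_ ?_ ?_
  · simp [one_eq3]
  · simp [one_eq2]
  · simp; omega

theorem exec_iterLoop {c : Cmd} (s : ℕ → List Bool) (T : ℕ) (a : List Bool) :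
    ∀ (l : List Bool) (i : ℕ),
      (∀ j, i ≤ j → j < i + l.length → Exec c (one (s j)) (one (s (j + 1))) T) →
      Exec (.loop 1 (.seq (.pop 1) c.up.up)) (sc a (sc l (one (s i))))
        (sc a (sc [] (one (s (i + l.length))))) ((T + 2) * l.length + 1) := by
  intro l
  induction l with
  | nil => intro i _; simpa using Exec.loopN (by simp)
  | cons b l ih =>
    intro i h
    have h1 := ((h i le_rfl (by simp)).up l).up a
    have h2 := ih (i + 1) (fun j hj hj' => h j (by omega) (by simp; omega))
    refine (Exec.loopS (by simp) (Exec.seq (Exec.pop' 1 ?_) h1) h2).cast rfl ?_ ?_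
    · simp [update_sc_succ, update_sc_zero]
    · simp only [List.length_cons]
      congr 4
      omega
    · simp only [List.length_cons]
      nlinarith

/-- The iteration program. -/
def iterP (c : Cmd) : Cmd :=
  .seq splitP (.seq (mv 0 3) (.seq (mv 3 2) (.seq (.loop 1 (.seq (.pop 1) c.up.up))
    (.seq (mv 2 1) (mv 1 0)))))

theorem exec_iterP {c : Cmd} (s : ℕ → List Bool) (T : ℕ) (l : List Bool)
    (h : ∀ j < l.length, Exec c (one (s j)) (one (s (j + 1))) T) :
    Exec (iterP c) (one (delim l ++ s 0)) (one (s l.length))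
      ((T + 14) * l.length + 14 * (s 0).length + 8 * (s l.length).length + 20) := by
  have h1 := exec_splitP (delim l ++ s 0)
  rw [split_delim] at h1
  have h2 : Exec (mv 0 3) (sc (s 0) (sc l.reverse emp))
      (sc [] (sc l.reverse (sc [] (sc (s 0).reverse emp)))) (4 * (s 0).length + 1) := by
    refine (exec_mv (by omega) _).cast rfl ?_ (by simp)
    simp [update_sc_succ, update_sc_zero, update_emp_one]
  have h3 : Exec (mv 3 2) (sc [] (sc l.reverse (sc [] (sc (s 0).reverse emp))))
      (sc [] (sc l.reverse (one (s 0)))) (4 * (s 0).length + 1) := by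
    refine (exec_mv (by omega) _).cast rfl ?_ (by simp)
    simp [update_sc_succ, update_sc_zero, one_eq2]
  have h4 := exec_iterLoop s T [] l.reverse 0 (fun j _ hj => h j (by simpa using hj))
  simp only [List.length_reverse, zero_add] at h4
  have h5 : Exec (mv 2 1) (sc [] (sc [] (one (s l.length))))
      (sc [] (sc (s l.length).reverse emp)) (4 * (s l.length).length + 1) := by
    refine (exec_mv (by omega) _).cast rfl ?_ (by simp [one_eq])
    simp [update_sc_succ, update_sc_zero, one_eq, sc_emp, update_emp_zero, update_emp_one]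
  have h6 : Exec (mv 1 0) (sc [] (sc (s l.length).reverse emp)) (one (s l.length))
      (4 * (s l.length).length + 1) := by
    refine (exec_mv (by omega) _).cast rfl ?_ (by simp)
    simp [update_sc_succ, update_sc_zero, one_eq, sc_emp, update_emp_zero, update_emp_one]
  refine (Exec.seq h1 (Exec.seq h2 (Exec.seq h3 (Exec.seq h4 (Exec.seq h5 h6))))).cast rfl rfl ?_
  simp only [List.length_append, length_delim]
  nlinarith

end Pool.Agent.MP_2e8011_lc

end

section

/-! Polynomial-time computable functions between encoded types: the basic closure properties. -/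

namespace Pool.Agent.MP_2e8011_lc

/-- An injective encoding by bit strings. -/
class Enc (α : Type) where
  enc : α → List Bool
  inj : Function.Injective enc

export Enc (enc)

/-- Size of the code. -/
def sz {α : Type} [Enc α] (a : α) : ℕ := (enc a).length

instance : Enc Bool := ⟨fun b => [b], fun _ _ h => by simpa using h⟩

instance : Enc Unit := ⟨fun _ => [], fun _ _ _ => rfl⟩

/-- Natural numbers are written in unary. -/
instance : Enc ℕ := ⟨fun n => List.replicate n true, fun _ _ h => by simpa using congrArg List.length h⟩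

instance {α β : Type} [Enc α] [Enc β] : Enc (α × β) :=
  ⟨fun p => delim (enc p.1) ++ enc p.2, fun p q h => by
    have := congrArg split h
    simp only [split_delim, Prod.mk.injEq] at this
    exact Prod.ext (Enc.inj this.1) (Enc.inj this.2)⟩

/-- Code of a list. -/
def encList {α : Type} [Enc α] : List α → List Bool
  | [] => []
  | a :: l => delim (enc a) ++ encList l

theorem delim_ne_nil (a : List Bool) : delim a ≠ [] := by cases a <;> simp [delim]

theorem encList_inj {α : Type} [Enc α] : Function.Injective (encList (α := α)) := by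
  intro l
  induction l with
  | nil =>
    intro m h
    cases m with
    | nil => rfl
    | cons b m => simp [encList, delim_ne_nil] at h
  | cons a l ih =>
    intro m h
    cases m with
    | nil => simp [encList, delim_ne_nil] at h
    | cons b m =>
      have := congrArg split h
      simp only [encList, split_delim, Prod.mk.injEq] at this
      rw [Enc.inj this.1, ih this.2]

instance {α : Type} [Enc α] : Enc (List α) := ⟨encList, encList_inj⟩

section enclemmas
variable {α β : Type} [Enc α] [Enc β]

theorem enc_bool (b : Bool) : enc b = [b] := rfl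
theorem enc_nat (n : ℕ) : enc n = List.replicate n true := rfl
theorem enc_prod (a : α) (b : β) : enc (a, b) = delim (enc a) ++ enc b := rfl
theorem enc_nil : enc ([] : List α) = [] := rfl
theorem enc_cons (a : α) (l : List α) : enc (a :: l) = delim (enc a) ++ enc l := rfl

@[simp] theorem sz_bool (b : Bool) : sz b = 1 := rfl
@[simp] theorem sz_unit (b : Unit) : sz b = 0 := rfl
@[simp] theorem sz_nat (n : ℕ) : sz n = n := by simp [sz, enc_nat]
@[simp] theorem sz_prod (a : α) (b : β) : sz (a, b) = 2 * sz a + 1 + sz b := by
  simp [sz, enc_prod]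
@[simp] theorem sz_nil : sz ([] : List α) = 0 := rfl
@[simp] theorem sz_cons (a : α) (l : List α) : sz (a :: l) = 2 * sz a + 1 + sz l := by
  simp [sz, enc_cons]

theorem sz_append (l m : List α) : sz (l ++ m) = sz l + sz m := by
  induction l with
  | nil => simp
  | cons a l ih => simp [ih]; omega

theorem sz_reverse (l : List α) : sz l.reverse = sz l := by
  induction l with
  | nil => simp
  | cons a l ih => simp [sz_append, ih]; omega

theorem length_le_sz (l : List α) : l.length ≤ sz l := by
  induction l with
  | nil => simp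
  | cons a l ih => simp; omega

theorem sz_le_of_mem {l : List α} {a : α} (h : a ∈ l) : sz a ≤ sz l := by
  induction l with
  | nil => simp at h
  | cons b l ih =>
    rcases List.mem_cons.1 h with rfl | h
    · simp; omega
    · have := ih h; simp; omega

theorem sz_tail_le (l : List α) : sz l.tail ≤ sz l := by
  cases l <;> simp

theorem sz_drop_le (l : List α) (n : ℕ) : sz (l.drop n) ≤ sz l := by
  have := sz_append (l.take n) (l.drop n)
  rw [List.take_append_drop] at this
  omega

theorem sz_le_of_forall {l : List α} {B : ℕ} (h : ∀ a ∈ l, sz a ≤ B) :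
    sz l ≤ l.length * (2 * B + 1) := by
  induction l with
  | nil => simp
  | cons b l ih =>
    have h1 := ih (fun a ha => h a (List.mem_cons_of_mem _ ha))
    have h2 := h b List.mem_cons_self
    simp only [sz_cons, List.length_cons]
    nlinarith

end enclemmas

theorem eval_mono (p : Polynomial ℕ) {m n : ℕ} (h : m ≤ n) : p.eval m ≤ p.eval n := by
  induction p using Polynomial.induction_on' with
  | add p q hp hq => simp only [Polynomial.eval_add]; omega
  | monomial k a =>
    simp only [Polynomial.eval_monomial]
    exact Nat.mul_le_mul_left _ (Nat.pow_le_pow_left h _)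

/-- Polynomially bounded in the size of the input. -/
def PB {α : Type} [Enc α] (t : α → ℕ) : Prop :=
  ∃ p : Polynomial ℕ, ∀ a, t a ≤ p.eval (sz a)

section PB
variable {α β : Type} [Enc α] [Enc β]

theorem PB.const (c : ℕ) : PB (fun _ : α => c) := ⟨Polynomial.C c, by simp⟩

theorem PB.sz : PB (fun a : α => sz a) := ⟨Polynomial.X, by simp⟩

theorem PB.add {t u : α → ℕ} (ht : PB t) (hu : PB u) : PB (fun a => t a + u a) := by
  obtain ⟨p, hp⟩ := ht
  obtain ⟨q, hq⟩ := hu
  exact ⟨p + q, fun a => by simpa using Nat.add_le_add (hp a) (hq a)⟩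

theorem PB.mul {t u : α → ℕ} (ht : PB t) (hu : PB u) : PB (fun a => t a * u a) := by
  obtain ⟨p, hp⟩ := ht
  obtain ⟨q, hq⟩ := hu
  exact ⟨p * q, fun a => by simpa using Nat.mul_le_mul (hp a) (hq a)⟩

theorem PB.mono {t u : α → ℕ} (hu : PB u) (h : ∀ a, t a ≤ u a) : PB t := by
  obtain ⟨q, hq⟩ := hu
  exact ⟨q, fun a => (h a).trans (hq a)⟩

theorem PB.eval (p : Polynomial ℕ) {t : α → ℕ} (ht : PB t) : PB (fun a => p.eval (t a)) := by
  obtain ⟨q, hq⟩ := ht
  exact ⟨p.comp q, fun a => by rw [Polynomial.eval_comp]; exact eval_mono p (hq a)⟩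

theorem PB.comp {t : β → ℕ} (ht : PB t) {f : α → β} (hf : PB (fun a => MP_2e8011_lc.sz (f a))) :
    PB (fun a => t (f a)) := by
  obtain ⟨p, hp⟩ := ht
  exact (PB.eval p hf).mono (fun a => hp (f a))

end PB

/-- The bit string `g a` can be computed from the code of `a` in polynomial time. -/
def CP {α : Type} [Enc α] (g : α → List Bool) : Prop :=
  ∃ (c : Cmd) (t : α → ℕ), PB t ∧ ∀ a, Exec c (one (enc a)) (one (g a)) (t a)

/-- Polynomial-time computable functions between encoded types. -/
@[fun_prop]
def PT {α β : Type} [Enc α] [Enc β] (f : α → β) : Prop := CP (fun a => enc (f a))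

section CP
variable {α β γ : Type} [Enc α] [Enc β] [Enc γ]

theorem CP.length {g : α → List Bool} (h : CP g) : PB (fun a => (g a).length) := by
  obtain ⟨c, t, ht, hc⟩ := h
  refine (PB.sz.add ht).mono (fun a => ?_)
  simpa [one, sz] using (hc a).length_le 0

theorem PT.pb_sz {f : α → β} (h : PT f) : PB (fun a => sz (f a)) := CP.length h

theorem PT.pb {f : α → ℕ} (h : PT f) : PB f := h.pb_sz.mono (fun a => by simp)

theorem PT.pb_length {f : α → List β} (h : PT f) : PB (fun a => (f a).length) :=
  h.pb_sz.mono (fun _ => length_le_sz _)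

theorem CP.congr {g h : α → List Bool} (hg : CP g) (e : ∀ a, g a = h a) : CP h := by
  rwa [← funext e]

theorem PT.congr {g h : α → β} (hg : PT g) (e : ∀ a, g a = h a) : PT h := by
  rwa [← funext e]

theorem CP.enc : CP (fun a : α => enc a) :=
  ⟨.skip, fun _ => 1, PB.const 1, fun _ => Exec.skip _⟩

/-- Post-composition with a program on raw strings running in linear time. -/
theorem CP.post {g : α → List Bool} (hg : CP g) (c : Cmd) (h : List Bool → List Bool) (A B : ℕ)
    (hc : ∀ l, Exec c (one l) (one (h l)) (A * l.length + B)) : CP (fun a => h (g a)) := by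
  have hl := hg.length
  obtain ⟨d, t, ht, hd⟩ := hg
  exact ⟨.seq d c, fun a => t a + (A * (g a).length + B),
    ht.add (((PB.const A).mul hl).add (PB.const B)), fun a => (hd a).seq (hc _)⟩

theorem CP.comp {g : β → List Bool} (hg : CP g) {f : α → β} (hf : PT f) :
    CP (fun a => g (f a)) := by
  have hl := hf.pb_sz
  obtain ⟨d, t, ht, hd⟩ := hf
  obtain ⟨c, u, hu, hc⟩ := hg
  exact ⟨.seq d c, fun a => t a + u (f a), ht.add (hu.comp hl), fun a => (hd a).seq (hc _)⟩

theorem CP.pair {g h : α → List Bool} (hg : CP g) (hh : CP h) :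
    CP (fun a => delim (g a) ++ h a) := by
  have h1 := hg.length
  have h2 := hh.length
  obtain ⟨c, t, ht, hc⟩ := hg
  obtain ⟨d, u, hu, hd⟩ := hh
  exact ⟨pairP c d, _, ((((((PB.const 13).mul PB.sz).add ((PB.const 9).mul h1)).add
    ((PB.const 8).mul h2)).add ht).add hu).add (PB.const 10),
    fun a => exec_pairP (hc a) (hd a)⟩

theorem CP.fst {g : α → List Bool} (hg : CP g) : CP (fun a => (split (g a)).1) :=
  hg.post _ (fun l => (split l).1) 14 8 exec_fst

theorem CP.snd {g : α → List Bool} (hg : CP g) : CP (fun a => (split (g a)).2) :=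
  hg.post _ (fun l => (split l).2) 10 7 exec_snd

theorem CP.len {g : α → List Bool} (hg : CP g) : PT (fun a => (g a).length) :=
  hg.post _ (fun l => List.replicate l.length true) 8 2 exec_len

theorem CP.push {g : α → List Bool} (hg : CP g) (b : Bool) : CP (fun a => b :: g a) :=
  hg.post (.push 0 b) (fun l => b :: l) 0 1 (fun l => by
    refine (Exec.push 0 b _).cast rfl ?_ (by simp)
    simp [one_eq, update_sc_zero])

theorem CP.pop {g : α → List Bool} (hg : CP g) : CP (fun a => (g a).tail) :=
  hg.post (.pop 0) (fun l => l.tail) 0 1 (fun l => by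
    refine (Exec.pop 0 _).cast rfl ?_ (by simp)
    simp [one_eq, update_sc_zero])

theorem exec_clear0 (l : List Bool) : Exec (clear 0) (one l) (one []) (4 * l.length + 1) := by
  refine (exec_clear 0 _).cast rfl ?_ (by simp [one_eq])
  simp [one_eq, update_sc_zero]

theorem CP.const (l : List Bool) : CP (fun _ : α => l) := by
  induction l with
  | nil => exact CP.enc.post (clear 0) (fun _ => []) 4 1 exec_clear0
  | cons b l ih => exact ih.push b

theorem CP.isEmpty {g : α → List Bool} (hg : CP g) : PT (fun a => (g a).isEmpty) := by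
  refine hg.post (.ite 0 (.push 0 true) (.seq (clear 0) (.push 0 false))
    (.seq (clear 0) (.push 0 false))) (fun l => [l.isEmpty]) 4 3 (fun l => ?_)
  have hp : ∀ b, Exec (.push 0 b) (one []) (one [b]) 1 := fun b => by
    refine (Exec.push 0 b _).cast rfl ?_ le_rfl
    simp [one_eq, update_sc_zero]
  match l with
  | [] => exact (Exec.iteN (by simp [one]) (hp true)).cast rfl rfl (by simp)
  | false :: l =>
    exact (Exec.iteF (by simp [one]) ((exec_clear0 _).seq (hp false))).cast rfl rfl (by omega)
  | true :: l =>
    exact (Exec.iteT (by simp [one]) ((exec_clear0 _).seq (hp false))).cast rfl rfl (by omega)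

theorem enc_bits_append (l m : List Bool) : enc (l ++ m) = enc l ++ enc m := by
  induction l with
  | nil => rfl
  | cons b l ih => simp [enc_cons, ih]

/-- A raw string can be turned into the code of the corresponding list of bits. -/
theorem CP.toBits {g : α → List Bool} (hg : CP g) : PT g := by
  refine hg.post (.seq (tr 0 (fun b => .seq (.push 1 true) (.seq (.push 1 b) (.push 1 false))))
    (mv 1 0)) (fun l => Enc.enc l) 18 2 (fun l => ?_)
  have h1 := exec_tr 0 (fun b => .seq (.push 1 true) (.seq (.push 1 b) (.push 1 false))) 3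
    (fun p l => sc l (sc (Enc.enc p.reverse).reverse emp)) (by simp)
    (by
      intro p b l
      refine (Exec.seq (Exec.push 1 _ _) (Exec.seq (Exec.push 1 _ _) (Exec.push 1 _ _))).cast
        rfl ?_ le_rfl
      simp [update_sc_succ, update_sc_zero, enc_bits_append, enc_cons, enc_nil, enc_bool, delim])
    l []
  have h2 : sz l ≤ l.length * 3 := sz_le_of_forall (B := 1) (fun a _ => by simp)
  refine (Exec.seq h1 (exec_mv (by omega) _)).cast ?_ ?_ ?_
  · simp [one_eq2, enc_nil]
  · simp [update_sc_succ, update_sc_zero, one_eq2]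
  · simp [sz] at h2 ⊢; omega

theorem CP.cond {p : α → Bool} (hp : PT p) {g h : α → List Bool} (hg : CP g) (hh : CP h) :
    CP (fun a => cond (p a) (g a) (h a)) := by
  obtain ⟨e, v, hv, he⟩ := CP.pair hp CP.enc
  obtain ⟨c, t, ht, hc⟩ := hg
  obtain ⟨d, u, hu, hd⟩ := hh
  have hpop : ∀ (b : Bool) (l : List Bool), Exec (.pop 0) (one (b :: l)) (one l) 1 := fun b l => by
    refine (Exec.pop 0 _).cast rfl ?_ le_rfl
    simp [one_eq, update_sc_zero]
  refine ⟨.seq e (.seq (.pop 0) (.ite 0 .skip (.seq (.pop 0) (.seq (.pop 0) d))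
    (.seq (.pop 0) (.seq (.pop 0) c)))), fun a => v a + (t a + u a + 4),
    hv.add ((ht.add hu).add (PB.const 4)), fun a => (he a).seq ?_⟩
  simp only [enc_bool, delim, List.cons_append, List.nil_append]
  cases hpa : p a
  · exact ((hpop _ _).seq (Exec.iteF (by simp [one])
      ((hpop _ _).seq ((hpop _ _).seq (hd a))))).cast rfl rfl (by omega)
  · exact ((hpop _ _).seq (Exec.iteT (by simp [one])
      ((hpop _ _).seq ((hpop _ _).seq (hc a))))).cast rfl rfl (by omega)

@[fun_prop] theorem PT.id : PT (fun a : α => a) := CP.enc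

@[fun_prop] theorem PT.const (b : β) : PT (fun _ : α => b) := CP.const _

@[fun_prop] theorem PT.comp {g : β → γ} {f : α → β} (hg : PT g) (hf : PT f) :
    PT (fun a => g (f a)) := CP.comp hg hf

@[fun_prop] theorem PT.prodMk {f : α → β} {g : α → γ} (hf : PT f) (hg : PT g) :
    PT (fun a => (f a, g a)) := CP.pair hf hg

@[fun_prop] theorem PT.fst {f : α → β × γ} (hf : PT f) : PT (fun a => (f a).1) :=
  (CP.fst hf).congr (fun a => by rw [← Prod.mk.eta (p := f a), enc_prod, split_delim])

@[fun_prop] theorem PT.snd {f : α → β × γ} (hf : PT f) : PT (fun a => (f a).2) :=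
  (CP.snd hf).congr (fun a => by rw [← Prod.mk.eta (p := f a), enc_prod, split_delim])

@[fun_prop] theorem PT.cond {p : α → Bool} {g h : α → β} (hp : PT p) (hg : PT g) (hh : PT h) :
    PT (fun a => cond (p a) (g a) (h a)) :=
  (CP.cond hp hg hh).congr (fun a => by beta_reduce; cases p a <;> rfl)

@[fun_prop] theorem PT.sz {f : α → β} (hf : PT f) : PT (fun a => sz (f a)) := CP.len hf

@[fun_prop] theorem PT.enc {f : α → β} (hf : PT f) : PT (fun a => enc (f a)) := CP.toBits hf

/-- Bounded iteration. -/
theorem PT.iter {g : β → β} (hg : PT g) {n : α → ℕ} (hn : PT n) {s : α → β} (hs : PT s)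
    {B : α → ℕ} (hB : PB B) (h : ∀ a, ∀ i ≤ n a, MP_2e8011_lc.sz (g^[i] (s a)) ≤ B a) :
    PT (fun a => g^[n a] (s a)) := by
  have hn' := hn.pb
  obtain ⟨e, v, hv, he⟩ := CP.pair hn hs
  obtain ⟨c, t, ⟨p, hp⟩, hc⟩ := hg
  refine ⟨.seq e (iterP c), fun a => v a + ((p.eval (B a) + 14) * n a + 14 * B a + 8 * B a + 20),
    hv.add ((((((PB.eval p hB).add (PB.const 14)).mul hn').add ((PB.const 14).mul hB)).add
      ((PB.const 8).mul hB)).add (PB.const 20)), fun a => (he a).seq ?_⟩
  have := exec_iterP (c := c) (fun i => Enc.enc (g^[i] (s a))) (p.eval (B a)) (Enc.enc (n a)) (by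
    intro j hj
    simp only [enc_nat, List.length_replicate] at hj
    rw [Function.iterate_succ_apply']
    exact (hc _).weaken ((hp _).trans (eval_mono p (h a j hj.le))))
  simp only [enc_nat, List.length_replicate, Function.iterate_zero, _root_.id] at this
  refine this.cast rfl rfl ?_
  have h0 := h a 0 (Nat.zero_le _)
  have h1 := h a (n a) le_rfl
  simp only [MP_2e8011_lc.sz, Function.iterate_zero, _root_.id] at h0 h1
  omega

/-- The bridge to Mathlib's polynomial-time machines. -/
theorem PT.tm2 {f : α → β} (hf : PT f) :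
    Nonempty (Turing.TM2ComputableInPolyTime (Enc.enc : α → List Bool) (Enc.enc : β → List Bool) f) := by
  obtain ⟨c, t, ⟨p, hp⟩, hc⟩ := hf
  exact polyTime_of_exec _ _ f c p (fun a => (hc a).weaken (hp a))

end CP

end Pool.Agent.MP_2e8011_lc

end

section

/-! A library of polynomial-time functions on booleans, unary numbers and lists. -/

namespace Pool.Agent.MP_2e8011_lc

variable {α β γ : Type} [Enc α] [Enc β] [Enc γ]

@[fun_prop] theorem PT.not {p : α → Bool} (hp : PT p) : PT (fun a => !p a) :=
  (PT.cond hp (PT.const false) (PT.const true)).congr (fun a => by cases p a <;> rfl)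

@[fun_prop] theorem PT.and {p q : α → Bool} (hp : PT p) (hq : PT q) : PT (fun a => p a && q a) :=
  (PT.cond hp hq (PT.const false)).congr (fun a => by cases p a <;> rfl)

@[fun_prop] theorem PT.or {p q : α → Bool} (hp : PT p) (hq : PT q) : PT (fun a => p a || q a) :=
  (PT.cond hp (PT.const true) hq).congr (fun a => by cases p a <;> rfl)

@[fun_prop] theorem PT.ite {p : α → Prop} {i : ∀ a, Decidable (p a)} {g h : α → β}
    (hp : PT (fun a => @decide (p a) (i a))) (hg : PT g) (hh : PT h) :
    PT (fun a => @ite _ (p a) (i a) (g a) (h a)) :=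
  (PT.cond hp hg hh).congr (fun a => by by_cases h : p a <;> simp [h])

theorem PT.bool_cases {p : α → Bool} (hp : PT p) {g : Bool → α → β} (hg : ∀ b, PT (g b)) :
    PT (fun a => g (p a) a) :=
  (PT.cond hp (hg true) (hg false)).congr (fun a => by cases p a <;> rfl)

@[fun_prop] theorem PT.cons {f : α → β} {l : α → List β} (hf : PT f) (hl : PT l) :
    PT (fun a => f a :: l a) := CP.pair hf hl

@[fun_prop] theorem PT.tail {l : α → List β} (hl : PT l) : PT (fun a => (l a).tail) :=
  (CP.snd hl).congr (fun a => by
    beta_reduce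
    cases l a with
    | nil => rfl
    | cons b t => rw [enc_cons, split_delim]; rfl)

@[fun_prop] theorem PT.isEmpty {l : α → List β} (hl : PT l) : PT (fun a => (l a).isEmpty) :=
  (CP.isEmpty hl).congr (fun a => by
    cases l a with
    | nil => rfl
    | cons b t => simp [enc_cons, delim_ne_nil])

@[fun_prop] theorem PT.headD {l : α → List β} {d : α → β} (hl : PT l) (hd : PT d) :
    PT (fun a => (l a).headD (d a)) :=
  (CP.cond hl.isEmpty hd (CP.fst hl)).congr (fun a => by
    beta_reduce
    cases l a with
    | nil => rfl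
    | cons b t => rw [enc_cons, split_delim]; rfl)

theorem PT.succ {f : α → ℕ} (hf : PT f) : PT (fun a => f a + 1) :=
  (CP.push hf true).congr (fun _ => rfl)

theorem PT.pred {f : α → ℕ} (hf : PT f) : PT (fun a => f a - 1) :=
  (CP.pop hf).congr (fun a => by
    beta_reduce
    cases f a <;> simp [enc_nat, List.replicate_succ])

theorem PT.eq_zero {f : α → ℕ} (hf : PT f) : PT (fun a => decide (f a = 0)) :=
  (CP.isEmpty hf).congr (fun a => by cases f a <;> simp [enc_nat, List.replicate_succ])

/-- Bounded iteration with a parameter. -/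
theorem PT.iterP {g : α → β → β} (hg : PT (fun p : α × β => g p.1 p.2)) {n : α → ℕ} (hn : PT n)
    {s : α → β} (hs : PT s) {B : α → ℕ} (hB : PB B)
    (h : ∀ a, ∀ i ≤ n a, MP_2e8011_lc.sz ((g a)^[i] (s a)) ≤ B a) :
    PT (fun a => (g a)^[n a] (s a)) := by
  have key : ∀ (a : α) (i : ℕ) (b : β),
      (fun p : α × β => (p.1, g p.1 p.2))^[i] (a, b) = (a, (g a)^[i] b) := by
    intro a i
    induction i with
    | zero => intro b; rfl
    | succ i ih => intro b; simp only [Function.iterate_succ_apply]; exact ih _
  have := PT.iter (g := fun p : α × β => (p.1, g p.1 p.2)) (by fun_prop) hn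
    (s := fun a => (a, s a)) (by fun_prop)
    (B := fun a => 2 * MP_2e8011_lc.sz a + 1 + B a)
    ((((PB.const 2).mul PB.sz).add (PB.const 1)).add hB)
    (fun a i hi => by rw [key, sz_prod]; have := h a i hi; omega)
  exact this.snd.congr (fun a => by rw [key])

@[fun_prop] theorem PT.add {f g : α → ℕ} (hf : PT f) (hg : PT g) : PT (fun a => f a + g a) := by
  have key : ∀ i b : ℕ, (fun n : ℕ => n + 1)^[i] b = b + i := by
    intro i b
    induction i with
    | zero => rfl
    | succ i ih => rw [Function.iterate_succ_apply', ih]; rfl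
  exact (PT.iter (g := fun n : ℕ => n + 1) PT.id.succ hg hf (hf.pb.add hg.pb)
    (fun a i hi => by rw [key, sz_nat]; omega)).congr (fun a => key _ _)

@[fun_prop] theorem PT.sub {f g : α → ℕ} (hf : PT f) (hg : PT g) : PT (fun a => f a - g a) := by
  have key : ∀ i b : ℕ, (fun n : ℕ => n - 1)^[i] b = b - i := by
    intro i b
    induction i with
    | zero => rfl
    | succ i ih => rw [Function.iterate_succ_apply', ih]; rfl
  exact (PT.iter (g := fun n : ℕ => n - 1) PT.id.pred hg hf hf.pb
    (fun a i hi => by rw [key, sz_nat]; omega)).congr (fun a => key _ _)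

@[fun_prop] theorem PT.mul {f g : α → ℕ} (hf : PT f) (hg : PT g) : PT (fun a => f a * g a) := by
  have key : ∀ x i : ℕ, (fun n : ℕ => n + x)^[i] 0 = x * i := by
    intro x i
    induction i with
    | zero => rfl
    | succ i ih => rw [Function.iterate_succ_apply', ih]; rfl
  exact (PT.iterP (g := fun a n => n + f a) (by fun_prop) hg (PT.const 0) (hf.pb.mul hg.pb)
    (fun a i hi => by rw [key, sz_nat]; exact Nat.mul_le_mul_left _ hi)).congr (fun a => key _ _)

@[fun_prop] theorem PT.pow {f : α → ℕ} (hf : PT f) (k : ℕ) : PT (fun a => f a ^ k) := by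
  induction k with
  | zero => exact (PT.const 1).congr (by simp)
  | succ k ih => exact (ih.mul hf).congr (fun a => by rw [pow_succ])

@[fun_prop] theorem PT.eval (p : Polynomial ℕ) {f : α → ℕ} (hf : PT f) :
    PT (fun a => p.eval (f a)) := by
  induction p using Polynomial.induction_on' with
  | add p q hp hq => exact (hp.add hq).congr (by simp)
  | monomial k c => exact ((PT.const c).mul (hf.pow k)).congr (by simp)

@[fun_prop] theorem PT.le {f g : α → ℕ} {i : ∀ a, Decidable (f a ≤ g a)} (hf : PT f) (hg : PT g) :
    PT (fun a => @decide (f a ≤ g a) (i a)) :=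
  (hf.sub hg).eq_zero.congr (fun a => by simp [Nat.sub_eq_zero_iff_le])

@[fun_prop] theorem PT.lt {f g : α → ℕ} {i : ∀ a, Decidable (f a < g a)} (hf : PT f) (hg : PT g) :
    PT (fun a => @decide (f a < g a) (i a)) :=
  (PT.le (i := fun _ => inferInstance) hf.succ hg).congr (fun a => by simp [Nat.succ_le_iff])

theorem PT.eq_nat {f g : α → ℕ} (hf : PT f) (hg : PT g) : PT (fun a => decide (f a = g a)) :=
  ((PT.le (i := fun _ => inferInstance) hf hg).and
    (PT.le (i := fun _ => inferInstance) hg hf)).congr (fun a => by
      simp [← Bool.decide_and, le_antisymm_iff])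

@[fun_prop] theorem PT.decide_eq_true {p : α → Bool} {i : ∀ a, Decidable (p a = true)} (hp : PT p) :
    PT (fun a => @decide (p a = true) (i a)) := hp.congr (fun a => by simp)

@[fun_prop] theorem PT.decide_and {p q : α → Prop} {i : ∀ a, Decidable (p a ∧ q a)}
    [DecidablePred p] [DecidablePred q]
    (hp : PT (fun a => decide (p a))) (hq : PT (fun a => decide (q a))) :
    PT (fun a => @decide (p a ∧ q a) (i a)) := (hp.and hq).congr (fun a => by simp)

@[fun_prop] theorem PT.decide_or {p q : α → Prop} {i : ∀ a, Decidable (p a ∨ q a)}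
    [DecidablePred p] [DecidablePred q]
    (hp : PT (fun a => decide (p a))) (hq : PT (fun a => decide (q a))) :
    PT (fun a => @decide (p a ∨ q a) (i a)) := (hp.or hq).congr (fun a => by simp)

@[fun_prop] theorem PT.decide_not {p : α → Prop} {i : ∀ a, Decidable (¬ p a)}
    [DecidablePred p] (hp : PT (fun a => decide (p a))) :
    PT (fun a => @decide (¬ p a) (i a)) := hp.not.congr (fun a => by simp)

@[fun_prop] theorem PT.decide_imp {p q : α → Prop} {i : ∀ a, Decidable (p a → q a)}
    [DecidablePred p] [DecidablePred q]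
    (hp : PT (fun a => decide (p a))) (hq : PT (fun a => decide (q a))) :
    PT (fun a => @decide (p a → q a) (i a)) :=
  (hp.not.or hq).congr (fun a => by by_cases h : p a <;> simp [h])

@[fun_prop] theorem PT.drop {l : α → List β} {n : α → ℕ} (hn : PT n) (hl : PT l) :
    PT (fun a => (l a).drop (n a)) := by
  have key : ∀ (i : ℕ) (b : List β), (fun l : List β => l.tail)^[i] b = b.drop i := by
    intro i b
    induction i with
    | zero => rfl
    | succ i ih => rw [Function.iterate_succ_apply', ih, List.tail_drop]
  exact (PT.iter (g := fun l : List β => l.tail) PT.id.tail hn hl hl.pb_sz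
    (fun a i hi => by rw [key]; exact sz_drop_le _ _)).congr (fun a => key _ _)

@[fun_prop] theorem PT.getD {l : α → List β} {n : α → ℕ} {d : α → β} (hl : PT l) (hn : PT n)
    (hd : PT d) : PT (fun a => (l a).getD (n a) (d a)) :=
  ((PT.drop hn hl).headD hd).congr (fun a => by simp [List.headD_eq_head?_getD])

/-- Left fold, with a bound on the intermediate values. -/
theorem PT.foldl [Inhabited β] {f : α → γ → β → γ}
    (hf : PT (fun p : α × γ × β => f p.1 p.2.1 p.2.2)) {l : α → List β} (hl : PT l)
    {s : α → γ} (hs : PT s) {B : α → ℕ} (hB : PB B)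
    (h : ∀ a k, MP_2e8011_lc.sz (((l a).take k).foldl (f a) (s a)) ≤ B a) :
    PT (fun a => (l a).foldl (f a) (s a)) := by
  let g : α → γ × List β → γ × List β := fun a p =>
    bif p.2.isEmpty then p else (f a p.1 (p.2.headD default), p.2.tail)
  have key : ∀ (a : α) (i : ℕ) (c : γ) (m : List β),
      (g a)^[i] (c, m) = ((m.take i).foldl (f a) c, m.drop i) := by
    intro a i
    induction i with
    | zero => intro c m; rfl
    | succ i ih =>
      intro c m
      rw [Function.iterate_succ_apply]
      cases m with
      | nil => simpa [g] using ih c []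
      | cons b m => simpa [g] using ih _ _
  have hg : PT (fun p : α × γ × List β => g p.1 p.2) := by
    refine PT.cond (by fun_prop) (by fun_prop) (PT.prodMk ?_ (by fun_prop))
    exact hf.comp (f := fun p : α × γ × List β => (p.1, p.2.1, p.2.2.headD default)) (by fun_prop)
  have := PT.iterP hg hl.sz (s := fun a => (s a, l a)) (by fun_prop)
    (B := fun a => 2 * B a + 1 + MP_2e8011_lc.sz (l a))
    ((((PB.const 2).mul hB).add (PB.const 1)).add hl.pb_sz)
    (fun a i hi => by
      rw [key, sz_prod]
      have := h a i
      have := sz_drop_le (l a) i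
      omega)
  refine this.fst.congr (fun a => ?_)
  rw [key, List.take_of_length_le (length_le_sz _)]

@[fun_prop] theorem PT.length [Inhabited β] {l : α → List β} (hl : PT l) :
    PT (fun a => (l a).length) := by
  have key : ∀ (m : List β) (c : ℕ), m.foldl (fun c _ => c + 1) c = c + m.length := by
    intro m
    induction m with
    | nil => intro c; rfl
    | cons b m ih => intro c; simp [ih]; omega
  exact (PT.foldl (f := fun _ c _ => c + 1) (by fun_prop) hl (PT.const 0) hl.pb_length
    (fun a k => by rw [key]; simp)).congr (fun a => by rw [key]; simp)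

theorem PT.revAppend [Inhabited β] {l m : α → List β} (hl : PT l) (hm : PT m) :
    PT (fun a => (l a).reverse ++ m a) := by
  have key : ∀ (m c : List β), m.foldl (fun c b => b :: c) c = m.reverse ++ c := by
    intro m
    induction m with
    | nil => intro c; rfl
    | cons b m ih => intro c; simp [ih]
  refine (PT.foldl (f := fun _ c b => b :: c) (by fun_prop) hl hm (hl.pb_sz.add hm.pb_sz)
    (fun a k => ?_)).congr (fun a => by rw [key])
  rw [key, sz_append, sz_reverse]
  have := sz_append ((l a).take k) ((l a).drop k)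
  rw [List.take_append_drop] at this
  omega

@[fun_prop] theorem PT.reverse [Inhabited β] {l : α → List β} (hl : PT l) :
    PT (fun a => (l a).reverse) := (hl.revAppend (PT.const [])).congr (by simp)

@[fun_prop] theorem PT.append [Inhabited β] {l m : α → List β} (hl : PT l) (hm : PT m) :
    PT (fun a => l a ++ m a) := (hl.reverse.revAppend hm).congr (by simp)

theorem sz_flatMap_le {l : List β} {f : β → List γ} {B : ℕ} (h : ∀ b ∈ l, sz (f b) ≤ B) :
    sz (l.flatMap f) ≤ l.length * B := by
  induction l with
  | nil => simp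
  | cons b l ih =>
    have h1 := ih (fun a ha => h a (List.mem_cons_of_mem _ ha))
    have h2 := h b List.mem_cons_self
    simp only [List.flatMap_cons, sz_append, List.length_cons]
    nlinarith

@[fun_prop] theorem PT.flatMap [Inhabited β] [Inhabited γ] {f : α → β → List γ} {l : α → List β}
    (hf : PT (fun p : α × β => f p.1 p.2)) (hl : PT l) : PT (fun a => (l a).flatMap (f a)) := by
  have key : ∀ (a : α) (m : List β) (c : List γ),
      m.foldl (fun c b => c ++ f a b) c = c ++ m.flatMap (f a) := by
    intro a m
    induction m with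
    | nil => intro c; simp
    | cons b m ih => intro c; simp [ih]
  obtain ⟨p, hp⟩ := hf.pb_sz
  refine (PT.foldl (f := fun a c b => c ++ f a b) ?_ hl (PT.const [])
    (hl.pb_length.mul (PB.eval p ((((PB.const 2).mul PB.sz).add (PB.const 1)).add hl.pb_sz)))
    (fun a k => ?_)).congr (fun a => by rw [key]; simp)
  · exact PT.append (by fun_prop) (hf.comp (f := fun p : α × List γ × β => (p.1, p.2.2))
      (by fun_prop))
  · rw [key, List.nil_append]
    refine (sz_flatMap_le (B := p.eval (2 * MP_2e8011_lc.sz a + 1 + MP_2e8011_lc.sz (l a)))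
      (fun b hb => ?_)).trans (Nat.mul_le_mul_right _ (by simp))
    refine (hp (a, b)).trans (eval_mono p ?_)
    have := sz_le_of_mem (List.mem_of_mem_take hb)
    simp only [sz_prod]
    omega

@[fun_prop] theorem PT.map [Inhabited β] [Inhabited γ] {f : α → β → γ} {l : α → List β}
    (hf : PT (fun p : α × β => f p.1 p.2)) (hl : PT l) : PT (fun a => (l a).map (f a)) :=
  (PT.flatMap (f := fun a b => [f a b]) (PT.cons hf (PT.const [])) hl).congr (fun a => by
    induction l a with
    | nil => rfl
    | cons b m ih => simp [ih])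

@[fun_prop] theorem PT.filter [Inhabited β] {f : α → β → Bool} {l : α → List β}
    (hf : PT (fun p : α × β => f p.1 p.2)) (hl : PT l) : PT (fun a => (l a).filter (f a)) :=
  (PT.flatMap (f := fun a b => bif f a b then [b] else [])
    (PT.cond hf (by fun_prop) (PT.const [])) hl).congr (fun a => by
    induction l a with
    | nil => rfl
    | cons b m ih => cases h : f a b <;> simp_all)

@[fun_prop] theorem PT.all [Inhabited β] {f : α → β → Bool} {l : α → List β}
    (hl : PT l) (hf : PT (fun p : α × β => f p.1 p.2)) : PT (fun a => (l a).all (f a)) :=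
  (PT.filter (f := fun a b => !f a b) hf.not hl).isEmpty.congr (fun a => by
    rw [Bool.eq_iff_iff]; simp)

@[fun_prop] theorem PT.any [Inhabited β] {f : α → β → Bool} {l : α → List β}
    (hl : PT l) (hf : PT (fun p : α × β => f p.1 p.2)) : PT (fun a => (l a).any (f a)) :=
  (PT.filter hf hl).isEmpty.not.congr (fun a => by
    rw [Bool.eq_iff_iff]; simp)

@[fun_prop] theorem PT.range {n : α → ℕ} (hn : PT n) : PT (fun a => List.range (n a)) := by
  have key : ∀ (n i : ℕ), i ≤ n →
      (fun p : ℕ × List ℕ => (p.1 - 1, (p.1 - 1) :: p.2))^[i] (n, []) =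
        (n - i, List.range' (n - i) i) := by
    intro n i
    induction i with
    | zero => intro _; rfl
    | succ i ih =>
      intro hi
      rw [Function.iterate_succ_apply', ih (by omega), List.range'_succ]
      simp only [Prod.mk.injEq, List.cons.injEq]
      refine ⟨by omega, by omega, ?_⟩
      congr 1
      omega
  have := PT.iter (g := fun p : ℕ × List ℕ => (p.1 - 1, (p.1 - 1) :: p.2)) (by fun_prop) hn
    (s := fun a => (n a, [])) (by fun_prop)
    (B := fun a => 2 * n a + 1 + n a * (2 * n a + 1))
    ((((PB.const 2).mul hn.pb).add (PB.const 1)).add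
      (hn.pb.mul (((PB.const 2).mul hn.pb).add (PB.const 1))))
    (fun a i hi => by
      rw [key _ _ hi, sz_prod, sz_nat]
      have h1 := sz_le_of_forall (l := List.range' (n a - i) i) (B := n a) (fun x hx => by
        rw [List.mem_range'_1] at hx
        simp; omega)
      rw [List.length_range'] at h1
      have h2 : i * (2 * n a + 1) ≤ n a * (2 * n a + 1) := Nat.mul_le_mul_right _ hi
      omega)
  refine this.snd.congr (fun a => ?_)
  rw [key _ _ le_rfl, Nat.sub_self, List.range_eq_range']

@[fun_prop] theorem PT.forall_lt {n : α → ℕ} {p : α → ℕ → Prop}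
    {i : ∀ a, Decidable (∀ x < n a, p a x)} [∀ a x, Decidable (p a x)] (hn : PT n)
    (hp : PT (fun q : α × ℕ => decide (p q.1 q.2))) :
    PT (fun a => @decide (∀ x < n a, p a x) (i a)) :=
  (PT.all (f := fun a x => decide (p a x)) hn.range hp).congr (fun a => by
    rw [Bool.eq_iff_iff]; simp)

@[fun_prop] theorem PT.exists_lt {n : α → ℕ} {p : α → ℕ → Prop}
    {i : ∀ a, Decidable (∃ x < n a, p a x)} [∀ a x, Decidable (p a x)] (hn : PT n)
    (hp : PT (fun q : α × ℕ => decide (p q.1 q.2))) :
    PT (fun a => @decide (∃ x < n a, p a x) (i a)) :=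
  (PT.any (f := fun a x => decide (p a x)) hn.range hp).congr (fun a => by
    rw [Bool.eq_iff_iff]; simp)

theorem PT.eq_bool {f g : α → Bool} (hf : PT f) (hg : PT g) : PT (fun a => decide (f a = g a)) :=
  (PT.cond hf hg hg.not).congr (fun a => by cases f a <;> cases g a <;> rfl)

theorem PT.eq_bits {f g : α → List Bool} (hf : PT f) (hg : PT g) :
    PT (fun a => decide (f a = g a)) := by
  have h1 : PT (fun a => (List.range (f a).length).all
      (fun i => decide ((f a).getD i false = (g a).getD i false))) :=
    PT.all (by fun_prop) (PT.eq_bool (by fun_prop) (by fun_prop))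
  refine ((hf.length.eq_nat hg.length).and h1).congr (fun a => ?_)
  rw [Bool.eq_iff_iff]
  simp only [Bool.and_eq_true, decide_eq_true_eq, List.all_eq_true, List.mem_range]
  constructor
  · rintro ⟨h1, h2⟩
    refine List.ext_getElem h1 (fun i hi hi' => ?_)
    have := h2 i hi
    simpa [List.getD_eq_getElem?_getD, hi, hi'] using this
  · intro h
    simp [h]

@[fun_prop] theorem PT.eq {f g : α → β} {i : ∀ a, Decidable (f a = g a)} (hf : PT f) (hg : PT g) :
    PT (fun a => @decide (f a = g a) (i a)) :=
  (hf.enc.eq_bits hg.enc).congr (fun a => by simp [Enc.inj.eq_iff])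

@[fun_prop] theorem PT.ne {f g : α → β} {i : ∀ a, Decidable (f a ≠ g a)} (hf : PT f) (hg : PT g) :
    PT (fun a => @decide (f a ≠ g a) (i a)) := by
  classical
  exact (PT.eq (i := fun _ => inferInstance) hf hg).not.congr (fun a => by simp)

@[fun_prop] theorem PT.mem [Inhabited β] {f : α → β} {l : α → List β}
    {i : ∀ a, Decidable (f a ∈ l a)} (hf : PT f) (hl : PT l) :
    PT (fun a => @decide (f a ∈ l a) (i a)) := by
  classical
  exact (PT.any (f := fun a b => decide (b = f a)) hl (by fun_prop)).congr (fun a => by
    rw [Bool.eq_iff_iff]; simp)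

@[fun_prop] theorem PT.div {f g : α → ℕ} (hf : PT f) (hg : PT g) : PT (fun a => f a / g a) := by
  have h1 : PT (fun a => ((List.range (f a)).filter
      (fun i => decide ((i + 1) * g a ≤ f a))).length) := by fun_prop
  refine (PT.cond (hg.eq_zero) (PT.const 0) h1).congr (fun a => ?_)
  by_cases h : g a = 0
  · simp [h]
  · simp only [h, decide_false, cond_false]
    have h2 : (List.range (f a)).filter (fun i => decide ((i + 1) * g a ≤ f a)) =
        (List.range (f a)).filter (fun i => decide (i < f a / g a)) := by
      refine List.filter_congr (fun i _ => ?_)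
      simp [Nat.lt_iff_add_one_le, Nat.le_div_iff_mul_le (Nat.pos_of_ne_zero h)]
    rw [h2]
    have h3 : f a / g a ≤ f a := Nat.div_le_self _ _
    generalize f a / g a = q at h3
    obtain ⟨r, hr⟩ := Nat.exists_eq_add_of_le h3
    rw [hr, List.range_add, List.filter_append, List.filter_eq_self.2, List.filter_eq_nil_iff.2]
    · simp
    · simp
    · simp

@[fun_prop] theorem PT.mod {f g : α → ℕ} (hf : PT f) (hg : PT g) : PT (fun a => f a % g a) :=
  (hf.sub (hg.mul (hf.div hg))).congr (fun a => (Nat.mod_def _ _).symm)

@[fun_prop] theorem PT.pair {f g : α → ℕ} (hf : PT f) (hg : PT g) :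
    PT (fun a => Nat.pair (f a) (g a)) := by
  unfold Nat.pair
  fun_prop

/-- Mapping over a fixed list, each member giving a polynomial-time function. -/
theorem PT.map_const {ι : Type} (L : List ι) {g : α → ι → β} (hg : ∀ w, PT (fun a => g a w)) :
    PT (fun a => L.map (g a)) := by
  induction L with
  | nil => exact PT.const []
  | cons w L ih => exact (hg w).cons ih

theorem PT.flatMap_const [Inhabited β] {ι : Type} (L : List ι) {g : α → ι → List β}
    (hg : ∀ w, PT (fun a => g a w)) : PT (fun a => L.flatMap (g a)) := by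
  induction L with
  | nil => exact PT.const []
  | cons w L ih => exact ((hg w).append ih).congr (by simp)

theorem PT.any_const {ι : Type} (L : List ι) {g : α → ι → Bool}
    (hg : ∀ w, PT (fun a => g a w)) : PT (fun a => L.any (g a)) := by
  induction L with
  | nil => exact PT.const false
  | cons w L ih => exact ((hg w).or ih).congr (by simp)

theorem PT.all_const {ι : Type} (L : List ι) {g : α → ι → Bool}
    (hg : ∀ w, PT (fun a => g a w)) : PT (fun a => L.all (g a)) := by
  induction L with
  | nil => exact PT.const true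
  | cons w L ih => exact ((hg w).and ih).congr (by simp)

end Pool.Agent.MP_2e8011_lc

end

section

/-! Bridge from `PT` to the polynomial-time predicate of the prelude. -/

namespace Pool.Agent.MP_2e8011_lc

theorem delim_eq (l : List Bool) : N487b59b3.delimit l = delim l := by
  induction l with
  | nil => rfl
  | cons b l ih => simp [N487b59b3.delimit, delim, ih]

/-- The prelude's encoding agrees with ours. -/
def Agree (α : Type) [N487b59b3 α] [Enc α] : Prop :=
  ∀ a : α, N487b59b3.bitEncode a = enc a

theorem agree_bool : Agree Bool := fun _ => rfl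

theorem agree_list {α : Type} [N487b59b3 α] [Enc α] (h : Agree α) : Agree (List α) := by
  intro l
  change ((l.map N487b59b3.bitEncode).map N487b59b3.delimit).flatten = enc l
  induction l with
  | nil => rfl
  | cons a l ih =>
    simp only [List.map_cons, List.flatten_cons, enc_cons]
    rw [ih, delim_eq, h a]

theorem agree_prod {α β : Type} [N487b59b3 α] [Enc α] [N487b59b3 β] [Enc β] (h : Agree α)
    (h' : Agree β) : Agree (α × β) := by
  rintro ⟨a, b⟩
  change N487b59b3.delimit (N487b59b3.bitEncode a) ++ N487b59b3.bitEncode b = _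
  rw [delim_eq, h a, h' b, enc_prod]

theorem Agree.encode_eq {α : Type} [N487b59b3 α] [Enc α] (h : Agree α) :
    (N487b59b3.toEncoding (α := α)).encode = enc := funext h

theorem PT.isPolyTime {α β : Type} [N487b59b3 α] [Enc α] [N487b59b3 β] [Enc β] (h : Agree α)
    (h' : Agree β) {f : α → β} (hf : PT f) : N68a2faeb.IsPolyTime f := by
  unfold N68a2faeb.IsPolyTime N68a2faeb.IsPolyTimeWithEncoding
  rw [h.encode_eq, h'.encode_eq]
  exact hf.tm2

theorem PT.isPolyTime_bits {f : List Bool → List Bool} (hf : PT f) : N68a2faeb.IsPolyTime f :=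
  hf.isPolyTime (agree_list agree_bool) (agree_list agree_bool)

theorem PT.isPolyTime_rel {f : List Bool × List Bool → Bool} (hf : PT f) :
    N68a2faeb.IsPolyTime f :=
  hf.isPolyTime (agree_prod (agree_list agree_bool) (agree_list agree_bool)) agree_bool

theorem PT.mem_P {f : List Bool → Bool} (hf : PT f) : f ∈ N68a2faeb.P :=
  hf.isPolyTime (agree_list agree_bool) agree_bool

/-- Membership in NP from a `PT` verifier. -/
theorem mem_NP_of_PT {L : List Bool → Bool} (p : Polynomial ℕ) (R : List Bool × List Bool → Bool)
    (hR : PT R) (h : ∀ x, L x ↔ ∃ w : List Bool, w.length ≤ p.eval x.length ∧ R (x, w)) :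
    L ∈ N68a2faeb.NP := ⟨p, R, hR.isPolyTime_rel, h⟩

/-- A verifier of a language in NP as a machine on our encodings. -/
theorem exists_machine_of_mem_NP {L : List Bool → Bool} (hL : L ∈ N68a2faeb.NP) :
    ∃ (p : Polynomial ℕ) (R : List Bool × List Bool → Bool),
      Nonempty (Turing.TM2ComputableInPolyTime (enc : List Bool × List Bool → List Bool)
        (enc : Bool → List Bool) R) ∧
      ∀ x, L x ↔ ∃ w : List Bool, w.length ≤ p.eval x.length ∧ R (x, w) := by
  obtain ⟨p, R, hR, h⟩ := hL
  refine ⟨p, R, ?_, h⟩
  unfold N68a2faeb.IsPolyTime N68a2faeb.IsPolyTimeWithEncoding at hR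
  rwa [(agree_prod (agree_list agree_bool) (agree_list agree_bool)).encode_eq,
    agree_bool.encode_eq] at hR

end Pool.Agent.MP_2e8011_lc

end
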