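import Pool.Agent.MP_2e8011_lc.Local
import Pool.Agent.Mg.F2e8011.G5eb695

section

/-! The tableau formula of a multi-stack machine. -/

namespace Pool.Agent.MP_2e8011_lc

open Turing

/-- Formulas in conjunctive normal form; the literal `(n, b)` says that variable `n` has
value `b`. -/
abbrev CNF := List (List (ℕ × Bool))

/-- The assignment `a` satisfies the formula. -/
def SatBy (a : ℕ → Bool) (φ : CNF) : Prop := ∀ c ∈ φ, ∃ l ∈ c, a l.1 = l.2

/-- Satisfiability. -/
def Sat (φ : CNF) : Prop := ∃ a : ℕ → Bool, SatBy a φ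

variable {K : Type} [DecidableEq K] {Γ : K → Type} {Λ σ : Type}

/-- Atomic facts about a configuration. -/
abbrev Sym (Γ : K → Type) (Λ σ : Type) : Type := (Option Λ × σ) ⊕ (Σ k, Option (Γ k))

/-- The symbols over the alphabet `A`. -/
def Good (A : Set (Σ k, Γ k)) : Sym Γ Λ σ → Prop
  | .inl _ => True
  | .inr s => ∀ γ ∈ s.2, (⟨s.1, γ⟩ : Σ k, Γ k) ∈ A

/-- Meaning of a symbol at position `i`. -/
def Holds (c : TM2.Cfg Γ Λ σ) (i : ℕ) : Sym Γ Λ σ → Prop
  | .inl q => (c.l, c.var) = q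
  | .inr s => (c.stk s.1)[i]? = s.2

/-- The finite data attached to a machine. -/
structure Dat (Γ : K → Type) (Λ σ : Type) where
  m : Λ → TM2.Stmt Γ Λ σ
  k₀ : K
  k₁ : K
  main : Λ
  v₀ : σ
  i₀ : Bool → Γ k₀
  bad : Γ k₁
  d : ℕ
  hd : ∀ l, depth (m l) ≤ d
  A : Set (Σ k, Γ k)
  hA : ∀ l, syms (m l) ⊆ A
  hi : ∀ b, (⟨k₀, i₀ b⟩ : Σ k, Γ k) ∈ A
  hbad : (⟨k₁, bad⟩ : Σ k, Γ k) ∈ A
  KL : List K
  hKL : ∀ k, k ∈ KL
  TL : List (TM2.Cfg Γ Λ σ)
  hTL : ∀ c, c ∈ TL ↔ (∀ k, (c.stk k).length ≤ d) ∧ Over A c.stk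
  OL : List (Σ k, Option (Γ k))
  hOL : ∀ s, s ∈ OL ↔ Good (Λ := Λ) (σ := σ) A (.inr s)
  code : Sym Γ Λ σ → ℕ
  hcode : Set.InjOn code {s | Good A s}

namespace Dat

variable (D : Dat Γ Λ σ)

/-- The variable for time `t`, position `i` and symbol `s`. -/
def var (t i : ℕ) (s : Sym Γ Λ σ) : ℕ := Nat.pair t (Nat.pair i (D.code s))

/-- Symbols of the input stack. -/
def s0 (o : Option Bool) : Sym Γ Λ σ := .inr ⟨D.k₀, o.map D.i₀⟩

/-- Control symbol of a configuration. -/
def ctl (c : TM2.Cfg Γ Λ σ) : Sym Γ Λ σ := .inl (c.l, c.var)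

/-- Cell symbol of a configuration. -/
def cell (c : TM2.Cfg Γ Λ σ) (k : K) (i : ℕ) : Sym Γ Λ σ := .inr ⟨k, (c.stk k)[i]?⟩

/-- The negated description of the window `c` at time `t`. -/
def prem (t : ℕ) (c : TM2.Cfg Γ Λ σ) : List (ℕ × Bool) :=
  (D.var t 0 (ctl c), false) ::
    D.KL.flatMap (fun k => (List.range D.d).map (fun i => (D.var t i (cell c k i), false)))

/-- Clauses describing the witness part of the input. -/
def witC (j : ℕ) : CNF :=
  [[(D.var 0 (j + 1) (D.s0 none), true), (D.var 0 (j + 1) (D.s0 (some false)), true),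
      (D.var 0 (j + 1) (D.s0 (some true)), true)],
    [(D.var 0 (j + 1) (D.s0 (some false)), false), (D.var 0 j (D.s0 (some true)), true)],
    [(D.var 0 (j + 1) (D.s0 (some true)), false), (D.var 0 j (D.s0 (some true)), true)],
    [(D.var 0 (j + 1) (D.s0 (some false)), false), (D.var 0 (j + 2) (D.s0 (some false)), true)],
    [(D.var 0 (j + 1) (D.s0 (some true)), false), (D.var 0 (j + 2) (D.s0 (some false)), true)],
    [(D.var 0 (j + 1) (D.s0 none), false), (D.var 0 j (D.s0 none), true)],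
    [(D.var 0 (j + 1) (D.s0 none), false), (D.var 0 (j + 2) (D.s0 none), true)],
    [(D.var 0 (j + 1) (D.s0 none), false), (D.var 0 (j + 4) (D.s0 none), true)]]

/-- Clauses describing one step. -/
def stepC (B t : ℕ) (c : TM2.Cfg Γ Λ σ) : CNF :=
  [D.prem t c ++ [(D.var (t + 1) 0 (ctl (nxt D.m c)), true)]] ++
  D.KL.flatMap (fun k => (List.range ((nxt D.m c).stk k).length).map
    (fun i => D.prem t c ++ [(D.var (t + 1) i (cell (nxt D.m c) k i), true)])) ++
  D.OL.flatMap (fun s => (List.range B).map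
    (fun i => D.prem t c ++ [(D.var t (D.d + i) (.inr s), false),
      (D.var (t + 1) (((nxt D.m c).stk s.1).length + i) (.inr s), true)]))

/-- The tableau formula. -/
def formula (u : List Bool) (P T B : ℕ) : CNF :=
  [[(D.var 0 0 (.inl (some D.main, D.v₀)), true)], [(D.var T 0 (.inr ⟨D.k₁, some D.bad⟩), false)]] ++
  (D.KL.filter (fun k => decide (k ≠ D.k₀))).flatMap
    (fun k => (List.range B).map (fun i => [(D.var 0 i (.inr ⟨k, none⟩), true)])) ++
  (List.range u.length).map (fun i => [(D.var 0 i (D.s0 (some (u.getD i false))), true)]) ++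
  (List.range P).flatMap (fun r => D.witC (u.length + 3 * r)) ++
  (List.range B).map (fun i => [(D.var 0 (u.length + 3 * P + i) (D.s0 none), true)]) ++
  (List.range T).flatMap (fun t => D.TL.flatMap (fun c => D.stepC B t c))

section PT
variable {α : Type} [Enc α]

omit [DecidableEq K] in
@[fun_prop] theorem pt_var {t i : α → ℕ} (ht : PT t) (hi : PT i) (s : Sym Γ Λ σ) :
    PT (fun a => D.var (t a) (i a) s) := by
  unfold var
  fun_prop

omit [DecidableEq K] in
@[fun_prop] theorem pt_prem {t : α → ℕ} (ht : PT t) (c : TM2.Cfg Γ Λ σ) :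
    PT (fun a => D.prem (t a) c) := by
  unfold prem
  refine PT.cons (by fun_prop) (PT.flatMap_const _ (fun k => PT.map_const _ (fun i => ?_)))
  fun_prop

omit [DecidableEq K] in
@[fun_prop] theorem pt_witC {j : α → ℕ} (hj : PT j) : PT (fun a => D.witC (j a)) := by
  unfold witC
  fun_prop

theorem pt_stepC {B t : α → ℕ} (hB : PT B) (ht : PT t) (c : TM2.Cfg Γ Λ σ) :
    PT (fun a => D.stepC (B a) (t a) c) := by
  unfold stepC
  refine PT.append (PT.append (by fun_prop) (PT.flatMap_const _ (fun k =>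
    PT.map_const _ (fun i => by fun_prop)))) (PT.flatMap_const _ (fun s => by fun_prop))

theorem pt_formula {u : α → List Bool} {P T B : α → ℕ} (hu : PT u) (hP : PT P) (hT : PT T)
    (hB : PT B) : PT (fun a => D.formula (u a) (P a) (T a) (B a)) := by
  unfold formula
  refine PT.append (PT.append (PT.append (PT.append (PT.append (by fun_prop)
    (PT.flatMap_const _ (fun k => by fun_prop))) (PT.map ?_ (by fun_prop))) (by fun_prop))
    (by fun_prop)) (PT.flatMap ?_ (by fun_prop))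
  · exact PT.bool_cases (p := fun p : α × ℕ => (u p.1).getD p.2 false) (by fun_prop)
      (g := fun b p => [(D.var 0 p.2 (D.s0 (some b)), true)]) (fun b => by fun_prop)
  · exact PT.flatMap_const _ (fun c => D.pt_stepC (by fun_prop) (by fun_prop) c)

end PT

/-- The window `c` is asserted at time `t`. -/
def Prem (V : ℕ → ℕ → Sym Γ Λ σ → Prop) (t : ℕ) (c : TM2.Cfg Γ Λ σ) : Prop :=
  V t 0 (ctl c) ∧ ∀ k, ∀ i < D.d, V t i (cell c k i)

/-- The meaning of the tableau formula. -/
structure Cons (u : List Bool) (P T B : ℕ) (V : ℕ → ℕ → Sym Γ Λ σ → Prop) : Prop where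
  hA : V 0 0 (.inl (some D.main, D.v₀))
  hH : ¬ V T 0 (.inr ⟨D.k₁, some D.bad⟩)
  hB : ∀ k, k ≠ D.k₀ → ∀ i < B, V 0 i (.inr ⟨k, none⟩)
  hC : ∀ i < u.length, V 0 i (D.s0 (some (u.getD i false)))
  hD₁ : ∀ r < P, V 0 (u.length + 3 * r + 1) (D.s0 none) ∨
    ∃ b, V 0 (u.length + 3 * r + 1) (D.s0 (some b))
  hD₂ : ∀ r < P, ∀ b, V 0 (u.length + 3 * r + 1) (D.s0 (some b)) →
    V 0 (u.length + 3 * r) (D.s0 (some true)) ∧ V 0 (u.length + 3 * r + 2) (D.s0 (some false))
  hD₃ : ∀ r < P, V 0 (u.length + 3 * r + 1) (D.s0 none) →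
    V 0 (u.length + 3 * r) (D.s0 none) ∧ V 0 (u.length + 3 * r + 2) (D.s0 none) ∧
      V 0 (u.length + 3 * r + 4) (D.s0 none)
  hE : ∀ i < B, V 0 (u.length + 3 * P + i) (D.s0 none)
  hF : ∀ t < T, ∀ c ∈ D.TL, D.Prem V t c → V (t + 1) 0 (ctl (nxt D.m c))
  hG₁ : ∀ t < T, ∀ c ∈ D.TL, D.Prem V t c → ∀ k, ∀ i < ((nxt D.m c).stk k).length,
    V (t + 1) i (cell (nxt D.m c) k i)
  hG₂ : ∀ t < T, ∀ c ∈ D.TL, D.Prem V t c → ∀ s ∈ D.OL, ∀ i < B,
    V t (D.d + i) (.inr s) → V (t + 1) (((nxt D.m c).stk s.1).length + i) (.inr s)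

omit [DecidableEq K] in
theorem prem_iff (a : ℕ → Bool) (t : ℕ) (c : TM2.Cfg Γ Λ σ) (l : List (ℕ × Bool)) :
    (∃ x ∈ D.prem t c ++ l, a x.1 = x.2) ↔
      (D.Prem (fun t i s => a (D.var t i s) = true) t c → ∃ x ∈ l, a x.1 = x.2) := by
  have h : (∃ x ∈ D.prem t c, a x.1 = x.2) ↔
      ¬ D.Prem (fun t i s => a (D.var t i s) = true) t c := by
    simp only [prem, Prem, List.mem_cons, List.mem_flatMap, List.mem_map, List.mem_range,
      exists_eq_or_imp, not_and_or, not_forall, Bool.not_eq_true]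
    refine or_congr Iff.rfl ⟨?_, ?_⟩
    · rintro ⟨x, ⟨k, -, i, hi, rfl⟩, hx⟩
      exact ⟨k, i, hi, hx⟩
    · rintro ⟨k, i, hi, hx⟩
      exact ⟨_, ⟨k, D.hKL k, i, hi, rfl⟩, hx⟩
  simp only [List.mem_append, or_and_right, exists_or, h]
  tauto

theorem satBy_append {a : ℕ → Bool} {φ ψ : CNF} :
    SatBy a (φ ++ ψ) ↔ SatBy a φ ∧ SatBy a ψ := by
  simp only [SatBy, List.mem_append, or_imp, forall_and]

theorem satBy_flatMap {ι : Type} {a : ℕ → Bool} {L : List ι} {f : ι → CNF} :
    SatBy a (L.flatMap f) ↔ ∀ x ∈ L, SatBy a (f x) := by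
  simp only [SatBy, List.mem_flatMap]
  constructor
  · intro h x hx c hc
    exact h c ⟨x, hx, hc⟩
  · rintro h c ⟨x, hx, hc⟩
    exact h x hx c hc

theorem satBy_map {ι : Type} {a : ℕ → Bool} {L : List ι} {f : ι → List (ℕ × Bool)} :
    SatBy a (L.map f) ↔ ∀ x ∈ L, ∃ l ∈ f x, a l.1 = l.2 := by
  simp only [SatBy, List.forall_mem_map]

theorem satBy_cons {a : ℕ → Bool} {c : List (ℕ × Bool)} {φ : CNF} :
    SatBy a (c :: φ) ↔ (∃ l ∈ c, a l.1 = l.2) ∧ SatBy a φ := by
  simp only [SatBy, List.forall_mem_cons]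

theorem satBy_nil {a : ℕ → Bool} : SatBy a [] ↔ True := by simp [SatBy]

theorem satBy_stepC (a : ℕ → Bool) (B t : ℕ) (c : TM2.Cfg Γ Λ σ) :
    SatBy a (D.stepC B t c) ↔ (D.Prem (fun t i s => a (D.var t i s) = true) t c →
      a (D.var (t + 1) 0 (ctl (nxt D.m c))) = true ∧
      (∀ k, ∀ i < ((nxt D.m c).stk k).length, a (D.var (t + 1) i (cell (nxt D.m c) k i)) = true) ∧
      ∀ s ∈ D.OL, ∀ i < B, a (D.var t (D.d + i) (.inr s)) = true →
        a (D.var (t + 1) (((nxt D.m c).stk s.1).length + i) (.inr s)) = true) := by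
  simp only [stepC, satBy_append, satBy_flatMap, satBy_map, satBy_cons, satBy_nil, prem_iff,
    List.mem_range, List.mem_cons, List.not_mem_nil, or_false, exists_eq_left, and_true,
    exists_eq_or_imp]
  constructor
  · rintro ⟨⟨h1, h2⟩, h3⟩ hp
    refine ⟨h1 hp, fun k i hi => h2 k (D.hKL k) i hi hp, fun s hs i hi h => ?_⟩
    rcases h3 s hs i hi hp with h' | h'
    · rw [h] at h'; cases h'
    · exact h'
  · intro h
    refine ⟨⟨fun hp => (h hp).1, fun k _ i hi hp => (h hp).2.1 k i hi⟩, fun s hs i hi hp => ?_⟩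
    cases h' : a (D.var t (D.d + i) (.inr s))
    · exact Or.inl rfl
    · exact Or.inr ((h hp).2.2 s hs i hi h')

theorem satBy_formula (a : ℕ → Bool) (u : List Bool) (P T B : ℕ) :
    SatBy a (D.formula u P T B) ↔ D.Cons u P T B (fun t i s => a (D.var t i s) = true) := by
  simp only [formula, satBy_append, satBy_flatMap, satBy_map, satBy_cons, satBy_nil, witC,
    satBy_stepC, List.mem_range, List.mem_cons, List.not_mem_nil, or_false, exists_eq_left,
    and_true, exists_eq_or_imp, List.mem_filter, D.hKL, true_and, decide_eq_true_eq]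
  constructor
  · rintro ⟨⟨⟨⟨⟨⟨hA, hH⟩, hB⟩, hC⟩, hD⟩, hE⟩, hF⟩
    refine ⟨hA, by simp [hH], hB, hC, fun r hr => ?_, fun r hr b => ?_, fun r hr => ?_, hE,
      fun t ht c hc hp => (hF t ht c hc hp).1, fun t ht c hc hp => (hF t ht c hc hp).2.1,
      fun t ht c hc hp => (hF t ht c hc hp).2.2⟩
    · rcases (hD r hr).1 with h | h | h
      · exact Or.inl h
      · exact Or.inr ⟨_, h⟩
      · exact Or.inr ⟨_, h⟩
    · have := hD r hr
      cases b <;> grind
    · have := hD r hr
      grind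
  · intro h
    refine ⟨⟨⟨⟨⟨⟨h.hA, by simpa using h.hH⟩, h.hB⟩, h.hC⟩, fun r hr => ?_⟩, h.hE⟩,
      fun t ht c hc hp => ⟨h.hF t ht c hc hp, h.hG₁ t ht c hc hp, h.hG₂ t ht c hc hp⟩⟩
    have h1 := h.hD₁ r hr
    have h2 := h.hD₂ r hr false
    have h2' := h.hD₂ r hr true
    have h3 := h.hD₃ r hr
    simp only [Bool.exists_bool] at h1
    grind

end Dat

end Pool.Agent.MP_2e8011_lc

end

section

/-! The Cook–Levin theorem: every language in NP reduces to satisfiability of CNF formulas. -/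

namespace Pool.Agent.MP_2e8011_lc

open Turing

theorem length_enc_bits (w : List Bool) : (enc w).length = 3 * w.length := by
  induction w with
  | nil => rfl
  | cons b w ih => simp [enc_cons, enc_bool, ih]; omega

theorem enc_bits_getElem? (w : List Bool) : ∀ (r e : ℕ), e < 3 →
    (enc w)[3 * r + e]? = (w[r]?).map (fun b => [true, b, false].getD e false) := by
  induction w with
  | nil => intro r e _; simp [enc_nil]
  | cons b w ih =>
    intro r e he
    cases r with
    | zero =>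
      simp only [enc_cons, enc_bool, delim]
      interval_cases e <;> simp
    | succ r =>
      have : 3 * (r + 1) + e = (3 * r + e) + 1 + 1 + 1 := by ring
      rw [this]
      simp only [enc_cons, enc_bool, delim, List.cons_append, List.nil_append,
        List.getElem?_cons_succ]
      exact ih r e he

variable {K : Type} [DecidableEq K] {Γ : K → Type} {Λ σ : Type}

namespace Dat

variable (D : Dat Γ Λ σ)

/-- The initial configuration. -/
def c0 (s : List Bool) : TM2.Cfg Γ Λ σ :=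
  ⟨some D.main, D.v₀, Function.update (fun _ => []) D.k₀ (s.map D.i₀)⟩

theorem over_c0 (s : List Bool) : Over D.A (D.c0 s).stk := by
  intro k γ hγ
  by_cases hk : k = D.k₀
  · subst hk
    simp only [c0, Function.update_self, List.mem_map] at hγ
    obtain ⟨b, -, rfl⟩ := hγ
    exact D.hi b
  · simp [c0, Function.update_of_ne hk] at hγ

theorem over_iter (s : List Bool) (t : ℕ) : Over D.A ((nxt D.m)^[t] (D.c0 s)).stk := by
  induction t with
  | zero => exact D.over_c0 s
  | succ t ih => rw [Function.iterate_succ_apply']; exact over_nxt D.hA ih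

theorem cell_c0 (s : List Bool) (i : ℕ) : cell (D.c0 s) D.k₀ i = D.s0 s[i]? := by
  simp [cell, c0, s0]

theorem cell_c0_ne (s : List Bool) {k : K} (hk : k ≠ D.k₀) (i : ℕ) :
    cell (D.c0 s) k i = .inr ⟨k, none⟩ := by
  simp [cell, c0, Function.update_of_ne hk]

omit [DecidableEq K] in
theorem good_cell {c : TM2.Cfg Γ Λ σ} (hc : Over D.A c.stk) (k : K) (i : ℕ) :
    Good D.A (cell c k i) := fun γ hγ => hc k γ (List.mem_of_getElem? hγ)

omit [DecidableEq K] in
theorem win_mem {c : TM2.Cfg Γ Λ σ} (hc : Over D.A c.stk) : win D.d c ∈ D.TL :=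
  (D.hTL _).2 ⟨fun k => by simp [win], fun k γ hγ => hc k γ (List.mem_of_mem_take hγ)⟩

omit [DecidableEq K] in
theorem cell_win (c : TM2.Cfg Γ Λ σ) (k : K) {i : ℕ} (hi : i < D.d) :
    cell (win D.d c) k i = cell c k i := by
  simp [cell, win, List.getElem?_take, hi]

theorem ctl_nxt (c : TM2.Cfg Γ Λ σ) : ctl (nxt D.m c) = ctl (nxt D.m (win D.d c)) := by
  rw [nxt_local D.hd c]
  rfl

theorem cell_nxt_lt (c : TM2.Cfg Γ Λ σ) (k : K) {i : ℕ}
    (hi : i < ((nxt D.m (win D.d c)).stk k).length) :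
    cell (nxt D.m c) k i = cell (nxt D.m (win D.d c)) k i := by
  rw [nxt_local D.hd c]
  simp only [cell, List.getElem?_append_left hi]

theorem stk_nxt_ge (c : TM2.Cfg Γ Λ σ) (k : K) (i : ℕ) :
    ((nxt D.m c).stk k)[((nxt D.m (win D.d c)).stk k).length + i]? = (c.stk k)[D.d + i]? := by
  conv_lhs => rw [nxt_local D.hd c]
  simp only [List.getElem?_append_right (Nat.le_add_right _ _), Nat.add_sub_cancel_left,
    List.getElem?_drop]

theorem sound_step {u : List Bool} {P T B : ℕ} {V : ℕ → ℕ → Sym Γ Λ σ → Prop}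
    (h : D.Cons u P T B V) (hB : D.d * T < B) {t : ℕ} (ht : t < T) {c : TM2.Cfg Γ Λ σ}
    (hc : Over D.A c.stk) (h1 : V t 0 (ctl c)) (h2 : ∀ k i, i + D.d * t < B → V t i (cell c k i)) :
    V (t + 1) 0 (ctl (nxt D.m c)) ∧
      ∀ k i, i + D.d * (t + 1) < B → V (t + 1) i (cell (nxt D.m c) k i) := by
  have hdt : D.d * (t + 1) ≤ D.d * T := Nat.mul_le_mul_left _ ht
  rw [Nat.mul_succ] at hdt
  have hp : D.Prem V t (win D.d c) :=
    ⟨h1, fun k i hi => by rw [D.cell_win c k hi]; exact h2 k i (by omega)⟩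
  have hw := D.win_mem hc
  refine ⟨by rw [ctl_nxt]; exact h.hF t ht _ hw hp, fun k i hi => ?_⟩
  rw [Nat.mul_succ] at hi
  by_cases hlt : i < ((nxt D.m (win D.d c)).stk k).length
  · rw [D.cell_nxt_lt c k hlt]
    exact h.hG₁ t ht _ hw hp k i hlt
  · obtain ⟨j, rfl⟩ := Nat.exists_eq_add_of_le (not_lt.1 hlt)
    have := h.hG₂ t ht _ hw hp ⟨k, (c.stk k)[D.d + j]?⟩
      ((D.hOL _).2 (D.good_cell hc k _)) j (by omega) (h2 k _ (by omega))
    simpa only [cell, D.stk_nxt_ge] using this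

theorem sound_init {u : List Bool} {P T B : ℕ} {V : ℕ → ℕ → Sym Γ Λ σ → Prop}
    (h : D.Cons u P T B V) : ∃ w : List Bool, w.length ≤ P ∧
      ∀ i < B, V 0 i (D.s0 (u ++ enc w)[i]?) := by
  classical
  have hex : ∃ r, P ≤ r ∨ V 0 (u.length + 3 * r + 1) (D.s0 none) := ⟨P, Or.inl le_rfl⟩
  have hm : Nat.find hex ≤ P := Nat.find_min' hex (Or.inl le_rfl)
  have hb : ∀ r, ∃ b, r < Nat.find hex → V 0 (u.length + 3 * r + 1) (D.s0 (some b)) := by
    intro r
    by_cases hr : r < Nat.find hex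
    · have := Nat.find_min hex hr
      rw [not_or] at this
      obtain ⟨b, hb⟩ := (h.hD₁ r (by omega)).resolve_left this.2
      exact ⟨b, fun _ => hb⟩
    · exact ⟨false, fun h => absurd h hr⟩
  choose b hb using hb
  have hN : ∀ r, Nat.find hex ≤ r → r < P → V 0 (u.length + 3 * r + 1) (D.s0 none) := by
    intro r hr
    induction r, hr using Nat.le_induction with
    | base => intro hr; exact (Nat.find_spec hex).resolve_left (by omega)
    | succ r _ ih => intro hr; exact (h.hD₃ r (by omega) (ih (by omega))).2.2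
  refine ⟨(List.range (Nat.find hex)).map b, by simpa using hm, fun i hi => ?_⟩
  by_cases h1 : i < u.length
  · have := h.hC i h1
    rw [List.getElem?_append_left h1]
    simpa [List.getD_eq_getElem?_getD, h1] using this
  obtain ⟨j, rfl⟩ := Nat.exists_eq_add_of_le (not_lt.1 h1)
  rw [List.getElem?_append_right (Nat.le_add_right _ _), Nat.add_sub_cancel_left]
  by_cases h2 : 3 * P ≤ j
  · obtain ⟨j', rfl⟩ := Nat.exists_eq_add_of_le h2
    rw [List.getElem?_eq_none (by rw [length_enc_bits]; simp; omega), ← add_assoc]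
    exact h.hE j' (by omega)
  have hj : j = 3 * (j / 3) + j % 3 := (Nat.div_add_mod j 3).symm
  have hr : j / 3 < P := by omega
  have he : j % 3 < 3 := Nat.mod_lt _ (by omega)
  generalize j / 3 = r at hj hr
  generalize j % 3 = e at hj he
  subst hj
  rw [enc_bits_getElem? _ _ _ he, ← add_assoc]
  by_cases h3 : r < Nat.find hex
  · have h4 := hb r h3
    have h5 := h.hD₂ r hr _ h4
    simp only [List.getElem?_map, List.getElem?_range h3, Option.map_some]
    interval_cases e
    · exact h5.1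
    · exact h4
    · exact h5.2
  · have h4 := hN r (not_lt.1 h3) hr
    have h5 := h.hD₃ r hr h4
    rw [List.getElem?_eq_none (by rw [List.length_map, List.length_range]; exact not_lt.1 h3)]
    interval_cases e
    · exact h5.1
    · exact h4
    · exact h5.2.1

theorem sound {u : List Bool} {P T B : ℕ} {V : ℕ → ℕ → Sym Γ Λ σ → Prop}
    (h : D.Cons u P T B V) (hB : D.d * T < B) : ∃ w : List Bool, w.length ≤ P ∧
      (((nxt D.m)^[T] (D.c0 (u ++ enc w))).stk D.k₁)[0]? ≠ some D.bad := by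
  obtain ⟨w, hw, h0⟩ := D.sound_init h
  refine ⟨w, hw, fun hbad => ?_⟩
  have key : ∀ t ≤ T, V t 0 (ctl ((nxt D.m)^[t] (D.c0 (u ++ enc w)))) ∧
      ∀ k i, i + D.d * t < B → V t i (cell ((nxt D.m)^[t] (D.c0 (u ++ enc w))) k i) := by
    intro t
    induction t with
    | zero =>
      intro _
      refine ⟨h.hA, fun k i hi => ?_⟩
      simp only [Function.iterate_zero, id]
      by_cases hk : k = D.k₀
      · subst hk
        rw [cell_c0]
        exact h0 i (by omega)
      · rw [D.cell_c0_ne _ hk]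
        exact h.hB k hk i (by omega)
    | succ t ih =>
      intro ht
      rw [Function.iterate_succ_apply']
      exact D.sound_step h hB ht (D.over_iter _ t) (ih (by omega)).1 (ih (by omega)).2
  have := (key T le_rfl).2 D.k₁ 0 (by omega)
  rw [cell, hbad] at this
  exact h.hH this

omit [DecidableEq K] in
theorem good_s0 (o : Option Bool) : Good D.A (D.s0 o) := by
  intro γ hγ
  obtain ⟨b, -, rfl⟩ := Option.mem_map.1 hγ
  exact D.hi b

theorem complete (hinj : Function.Injective D.i₀) {u w : List Bool} {P T B : ℕ} (hw : w.length ≤ P)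
    (hbad : (((nxt D.m)^[T] (D.c0 (u ++ enc w))).stk D.k₁)[0]? ≠ some D.bad)
    {V : ℕ → ℕ → Sym Γ Λ σ → Prop}
    (hV : ∀ t i s, Good D.A s → (V t i s ↔ Holds ((nxt D.m)^[t] (D.c0 (u ++ enc w))) i s)) :
    D.Cons u P T B V := by
  have h0 : ∀ i o, V 0 i (D.s0 o) ↔ (u ++ enc w)[i]? = o := by
    intro i o
    rw [hV _ _ _ (D.good_s0 o)]
    simp only [Holds, s0, c0, Function.iterate_zero, id, Function.update_self, List.getElem?_map]
    exact (Option.map_injective hinj).eq_iff
  have h1 : ∀ r e o, e < 3 → (V 0 (u.length + 3 * r + e) (D.s0 o) ↔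
      (w[r]?).map (fun b => [true, b, false].getD e false) = o) := by
    intro r e o he
    rw [h0, add_assoc, List.getElem?_append_right (Nat.le_add_right _ _), Nat.add_sub_cancel_left,
      enc_bits_getElem? _ _ _ he]
  have hprem : ∀ t, ∀ c ∈ D.TL, D.Prem V t c →
      c = win D.d ((nxt D.m)^[t] (D.c0 (u ++ enc w))) := by
    intro t c hc hp
    obtain ⟨hlen, hover⟩ := (D.hTL c).1 hc
    have e1 := (hV _ _ (ctl _) trivial).1 hp.1
    have e2 := fun k i hi => (hV _ _ _ (D.good_cell hover k i)).1 (hp.2 k i hi)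
    obtain ⟨l, v, S⟩ := c
    simp only [ctl, Holds, Prod.mk.injEq, cell] at e1 e2 hlen
    simp only [win, TM2.Cfg.mk.injEq]
    refine ⟨e1.1.symm, e1.2.symm, funext fun k => List.ext_getElem? fun i => ?_⟩
    by_cases hi : i < D.d
    · rw [List.getElem?_take, if_pos hi, e2 k i hi]
    · rw [List.getElem?_take, if_neg hi, List.getElem?_eq_none ((hlen k).trans (not_lt.1 hi))]
  refine ⟨(hV _ _ (.inl _) trivial).2 rfl, ?_, fun k hk i _ => ?_, fun i hi => ?_, fun r _ => ?_,
    fun r _ b hb => ?_, fun r _ hb => ?_, fun i _ => ?_, fun t _ c hc hp => ?_,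
    fun t _ c hc hp k i hi => ?_, fun t _ c hc hp s hs i _ hs' => ?_⟩
  · rw [hV _ _ _ (by intro γ hγ; cases hγ; exact D.hbad)]
    exact hbad
  · rw [hV _ _ _ (by intro γ hγ; cases hγ)]
    simp [Holds, c0, Function.update_of_ne hk]
  · rw [h0, List.getElem?_append_left hi]
    simp [List.getD_eq_getElem?_getD, hi]
  · simp only [h1 r 1 _ (by omega)]
    cases w[r]? <;> simp
  · have e0 := h1 r 0 (some true) (by omega)
    rw [add_zero] at e0
    rw [h1 r 1 _ (by omega)] at hb
    rw [e0, h1 r 2 _ (by omega)]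
    cases hr : w[r]? <;> simp_all
  · have e0 := h1 r 0 none (by omega)
    have e4 := h1 (r + 1) 1 none (by omega)
    rw [show u.length + 3 * (r + 1) + 1 = u.length + 3 * r + 4 by ring] at e4
    rw [add_zero] at e0
    rw [h1 r 1 _ (by omega)] at hb
    rw [e0, h1 r 2 _ (by omega), e4]
    simp only [Option.map_eq_none_iff, List.getElem?_eq_none_iff] at hb ⊢
    omega
  · rw [h0, List.getElem?_eq_none_iff, List.length_append, length_enc_bits]
    omega
  · rw [hprem t c hc hp, ← ctl_nxt, hV _ _ (ctl _) trivial, Function.iterate_succ_apply']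
    rfl
  · rw [hprem t c hc hp] at hi ⊢
    rw [← D.cell_nxt_lt _ k hi, ← Function.iterate_succ_apply' (nxt D.m),
      hV _ _ _ (D.good_cell (D.over_iter _ _) k i)]
    rfl
  · rw [hV _ _ _ ((D.hOL s).1 hs)] at hs' ⊢
    rw [hprem t c hc hp, Function.iterate_succ_apply']
    simp only [Holds] at hs' ⊢
    rw [D.stk_nxt_ge, hs']

theorem sat_iff (hinj : Function.Injective D.i₀) (u : List Bool) {P T B : ℕ} (hB : D.d * T < B) :
    Sat (D.formula u P T B) ↔ ∃ w : List Bool, w.length ≤ P ∧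
      (((nxt D.m)^[T] (D.c0 (u ++ enc w))).stk D.k₁)[0]? ≠ some D.bad := by
  classical
  constructor
  · rintro ⟨a, ha⟩
    exact D.sound ((D.satBy_formula a u P T B).1 ha) hB
  · rintro ⟨w, hw, hbad⟩
    refine ⟨fun n => decide (∃ s, Good D.A s ∧ D.code s = (Nat.unpair (Nat.unpair n).2).2 ∧
      Holds ((nxt D.m)^[(Nat.unpair n).1] (D.c0 (u ++ enc w))) (Nat.unpair (Nat.unpair n).2).1 s),
      (D.satBy_formula _ u P T B).2 (D.complete hinj hw hbad (fun t i s hs => ?_))⟩
    simp only [var, Nat.unpair_pair, decide_eq_true_eq]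
    constructor
    · rintro ⟨s', hs', he, hh⟩
      rwa [D.hcode hs' hs he] at hh
    · intro hh
      exact ⟨s, hs, rfl, hh⟩

end Dat

theorem exists_dat (tm : FinTM2) (i₀ : Bool → tm.Γ tm.k₀) (bad : tm.Γ tm.k₁) :
    ∃ D : Dat tm.Γ tm.Λ tm.σ, D.m = tm.m ∧ D.k₀ = tm.k₀ ∧ D.k₁ = tm.k₁ ∧ D.main = tm.main ∧
      D.v₀ = tm.initialState ∧ HEq D.i₀ i₀ ∧ HEq D.bad bad := by
  classical
  have := tm.kFin
  have := tm.ΛFin
  have := tm.σFin
  let A : Set (Σ k, tm.Γ k) := (⋃ l, syms (tm.m l)) ∪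
    (Set.range (fun b => ⟨tm.k₀, i₀ b⟩) ∪ {⟨tm.k₁, bad⟩})
  have hA : A.Finite := (Set.finite_iUnion (fun l => syms_finite _)).union
    ((Set.finite_range _).union (Set.finite_singleton _))
  have hO : {s : Σ k, Option (tm.Γ k) | Good (Λ := tm.Λ) (σ := tm.σ) A (.inr s)}.Finite := by
    refine ((Set.finite_range (fun k : tm.K => (⟨k, none⟩ : Σ k, Option (tm.Γ k)))).union
      (hA.image (fun s => (⟨s.1, some s.2⟩ : Σ k, Option (tm.Γ k))))).subset ?_
    rintro ⟨k, o⟩ h
    cases o with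
    | none => exact Or.inl ⟨k, rfl⟩
    | some γ => exact Or.inr ⟨⟨k, γ⟩, h γ rfl, rfl⟩
  have hE : {s : Sym tm.Γ tm.Λ tm.σ | Good A s}.Finite := by
    refine ((Set.finite_range Sum.inl).union (hO.image Sum.inr)).subset ?_
    rintro (q | s) h
    · exact Or.inl ⟨q, rfl⟩
    · exact Or.inr ⟨s, h, rfl⟩
  obtain ⟨code, hcode⟩ := Set.countable_iff_exists_injOn.1 hE.countable
  let d := Finset.univ.sup (fun l => depth (tm.m l))
  have hT := windows_finite (Λ := tm.Λ) (σ := tm.σ) hA d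
  exact ⟨{ m := tm.m, k₀ := tm.k₀, k₁ := tm.k₁, main := tm.main, v₀ := tm.initialState,
            i₀ := i₀, bad := bad, d := d,
            hd := fun l => Finset.le_sup (f := fun l => depth (tm.m l)) (Finset.mem_univ l),
            A := A, hA := fun l x hx => Or.inl (Set.mem_iUnion.2 ⟨l, hx⟩),
            hi := fun b => Or.inr (Or.inl ⟨b, rfl⟩), hbad := Or.inr (Or.inr rfl),
            KL := Finset.univ.toList, hKL := fun k => by simp,
            TL := hT.toFinset.toList, hTL := fun c => by simp,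
            OL := hO.toFinset.toList, hOL := fun s => by simp,
            code := code, hcode := hcode },
    rfl, rfl, rfl, rfl, rfl, HEq.rfl, HEq.rfl⟩

/-- **Cook–Levin.** -/
theorem cookLevin {L : List Bool → Bool} (hL : L ∈ N68a2faeb.NP) :
    ∃ f : List Bool → CNF, PT f ∧ ∀ x, L x ↔ Sat (f x) := by
  obtain ⟨p, R, ⟨M⟩, hR⟩ := exists_machine_of_mem_NP hL
  obtain ⟨D, hm, hk₀, hk₁, hmain, hv, hi, hbad⟩ :=
    exists_dat M.tm M.inputAlphabet.symm (M.outputAlphabet.symm false)
  obtain ⟨m, k₀, k₁, main, v₀, i₀, bad, d, hd, A, hA, hi', hbad', KL, hKL, TL, hTL, OL, hOL, code,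
    hcode⟩ := D
  simp only at hm hk₀ hk₁ hmain hv hi hbad
  subst hm hk₀ hk₁ hmain hv
  obtain rfl := eq_of_heq hi
  obtain rfl := eq_of_heq hbad
  set D : Dat M.tm.Γ M.tm.Λ M.tm.σ := ⟨M.tm.m, M.tm.k₀, M.tm.k₁, M.tm.main, M.tm.initialState,
    M.inputAlphabet.symm, M.outputAlphabet.symm false, d, hd, A, hA, hi', hbad', KL, hKL, TL, hTL,
    OL, hOL, code, hcode⟩ with hD
  let u : List Bool → List Bool := fun x => enc (x, ([] : List Bool))
  let P : List Bool → ℕ := fun x => p.eval x.length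
  let T : List Bool → ℕ := fun x => M.time.eval ((u x).length + 3 * P x)
  have hu : PT u := by fun_prop
  have hP : PT P := by fun_prop
  have hT : PT T := by fun_prop
  refine ⟨fun x => D.formula (u x) (P x) (T x) (d * T x + 1),
    D.pt_formula hu hP hT (by fun_prop), fun x => ?_⟩
  rw [hR, D.sat_iff M.inputAlphabet.symm.injective _ (Nat.lt_succ_self _)]
  refine exists_congr fun w => and_congr_right fun hw => ?_
  have hxw : u x ++ enc w = enc (x, w) := by simp [u, enc_prod, enc_nil]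
  obtain ⟨⟨n, hn⟩, hn'⟩ := M.outputsFun (x, w)
  simp only at hn'
  have h1 := nxt_iter_of_steps M.tm.m n _ _ hn
  have h2 : D.c0 (u x ++ enc w) = initList M.tm (List.map M.inputAlphabet.invFun (enc (x, w))) := by
    rw [hxw]
    simp only [Dat.c0, initList, hD]
    congr 1
    funext k
    by_cases hk : k = M.tm.k₀
    · subst hk
      rw [dif_pos rfl]
      exact Function.update_self (β := fun k => List (M.tm.Γ k)) ..
    · rw [dif_neg hk]
      exact Function.update_of_ne (β := fun k => List (M.tm.Γ k)) hk _ _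
  have h3 : n ≤ T x := by
    refine hn'.trans (eval_mono _ ?_)
    rw [← hxw, List.length_append, length_enc_bits]
    have : w.length ≤ P x := hw
    omega
  obtain ⟨e, he⟩ := Nat.exists_eq_add_of_le h3
  rw [h2, he, add_comm, Function.iterate_add_apply]
  change _ ↔ (((nxt M.tm.m)^[e] ((nxt M.tm.m)^[n] _)).stk M.tm.k₁)[0]? ≠
    some (M.outputAlphabet.symm false)
  rw [h1, nxt_iter_halt _ rfl]
  simp only [haltList, enc_bool]
  cases R (x, w) <;> simp

end Pool.Agent.MP_2e8011_lc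

end
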