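import Pool.Agent.MP_79e5e2_lc.Defs
import Pool.Agent.Mg.F2e8011.G2c7daa
import Pool.Agent.Mg.F2e8011.G5eb695

section

/-! Quantified Boolean formulas in prenex conjunctive normal form (interface). -/

namespace Pool.Agent.MP_79e5e2_lc

open Pool.Agent.MP_2e8011_lc

/-- `QVal φ qs k a`: the variables `k, k+1, …` are quantified in this order by `qs`
(`true` = exists, `false` = for all), the others keep their value in `a`. -/
def QVal (φ : CNF) : List Bool → ℕ → (ℕ → Bool) → Prop
  | [], _, a => SatBy a φ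
  | true :: qs, k, a => ∃ b, QVal φ qs (k + 1) (Function.update a k b)
  | false :: qs, k, a => ∀ b, QVal φ qs (k + 1) (Function.update a k b)

/-- Truth of the formula with quantifier list `F.1` and matrix `F.2`. -/
def QTrue (F : List Bool × CNF) : Prop := QVal F.2 F.1 0 (fun _ => false)

/-- Every variable of the matrix is quantified. -/
def QClosed (F : List Bool × CNF) : Prop := ∀ c ∈ F.2, ∀ l ∈ c, l.1 < F.1.length

/-- Target: quantified Boolean formulas are hard for polynomial space. -/
def QBFHard : Prop :=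
  ∀ L : List Bool → Bool, PSpace id L →
    ∃ g : List Bool → List Bool × CNF, PT g ∧ ∀ x, QClosed (g x) ∧ (L x = true ↔ QTrue (g x))

open Classical in
/-- Target: the outcome of Domineering is decidable in polynomial space. -/
def InPSpace : Prop := PSpace Position.code (fun P => decide P.MoverWins)

end Pool.Agent.MP_79e5e2_lc

end

section

/-! The repeated-squaring formula, abstractly. -/

namespace Pool.Agent.MP_79e5e2_lc.QH

open Pool.Agent.MP_2e8011_lc

theorem qval_rep (φ : CNF) (qs : List Bool) (w : ℕ) : ∀ (k : ℕ) (a : ℕ → Bool),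
    QVal φ (List.replicate w true ++ qs) k a ↔
      ∃ a' : ℕ → Bool, (∀ j, j < k ∨ k + w ≤ j → a' j = a j) ∧ QVal φ qs (k + w) a' := by
  induction w with
  | zero =>
    intro k a
    simp only [List.replicate_zero, List.nil_append, add_zero]
    constructor
    · intro h; exact ⟨a, fun _ _ => rfl, h⟩
    · rintro ⟨a', h1, h2⟩
      have : a' = a := funext fun j => h1 j (by omega)
      rwa [← this]
  | succ w ih =>
    intro k a
    simp only [List.replicate_succ, List.cons_append, QVal, ih]
    constructor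
    · rintro ⟨b, a', h1, h2⟩
      refine ⟨a', fun j hj => ?_, by rwa [show k + (w + 1) = k + 1 + w by ring]⟩
      rw [h1 j (by omega), Function.update_of_ne (by omega)]
    · rintro ⟨a', h1, h2⟩
      refine ⟨a' k, a', fun j hj => ?_, by rwa [show k + 1 + w = k + (w + 1) by ring]⟩
      by_cases hjk : j = k
      · subst hjk; simp
      · rw [Function.update_of_ne hjk, h1 j (by omega)]

/-- The quantifiers of `r` levels. -/
def blocks (W r : ℕ) : List Bool :=
  (List.range r).flatMap (fun _ => (List.range (3 * W)).map (fun _ => true) ++ [false])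

theorem blocks_succ (W r : ℕ) :
    blocks W (r + 1) = List.replicate (3 * W) true ++ (false :: blocks W r) := by
  simp [blocks, List.range_succ_eq_map, List.flatMap_map, List.map_const']

theorem length_blocks (W r : ℕ) : (blocks W r).length = r * (3 * W + 1) := by
  induction r with
  | zero => simp [blocks]
  | succ r ih => rw [blocks_succ]; simp [ih]; ring

theorem qval_succ (φ : CNF) (W r o : ℕ) (a : ℕ → Bool) :
    QVal φ (blocks W (r + 1)) o a ↔
      ∃ a' : ℕ → Bool, (∀ j, j < o ∨ o + 3 * W ≤ j → a' j = a j) ∧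
        ∀ b, QVal φ (blocks W r) (o + (3 * W + 1)) (Function.update a' (o + 3 * W) b) := by
  rw [blocks_succ, qval_rep]
  simp only [QVal, add_assoc]

/-- The clauses linking the level at offset `o` to the next one. -/
def link (W o : ℕ) : CNF :=
  (List.range W).flatMap (fun j =>
    [[(o + 3 * W, false), (o + j, false), (o + (3 * W + 1) + j, true)],
     [(o + 3 * W, false), (o + (3 * W + 1) + W + j, false), (o + 2 * W + j, true)],
     [(o + 3 * W, true), (o + 2 * W + j, false), (o + (3 * W + 1) + j, true)],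
     [(o + 3 * W, true), (o + (3 * W + 1) + W + j, false), (o + W + j, true)]])

theorem satBy_link (a : ℕ → Bool) (W o : ℕ) : SatBy a (link W o) ↔ ∀ j < W,
    (a (o + 3 * W) = true → (a (o + j) = true → a (o + (3 * W + 1) + j) = true) ∧
      (a (o + (3 * W + 1) + W + j) = true → a (o + 2 * W + j) = true)) ∧
    (a (o + 3 * W) = false → (a (o + 2 * W + j) = true → a (o + (3 * W + 1) + j) = true) ∧
      (a (o + (3 * W + 1) + W + j) = true → a (o + W + j) = true)) := by
  simp only [link, Dat.satBy_flatMap, Dat.satBy_cons, Dat.satBy_nil, List.mem_range,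
    List.mem_cons, List.not_mem_nil, or_false, exists_eq_or_imp, exists_eq_left, and_true]
  refine forall_congr' fun j => forall_congr' fun _ => ?_
  grind

/-- The matrix. -/
def matrix (W n j₀ : ℕ) (φI φS : CNF) : CNF :=
  φI ++ [[(W + j₀, false)]] ++ (List.range n).flatMap (fun l => link W (l * (3 * W + 1))) ++ φS

theorem satBy_matrix (a : ℕ → Bool) (W n j₀ : ℕ) (φI φS : CNF) :
    SatBy a (matrix W n j₀ φI φS) ↔ (SatBy a φI ∧ a (W + j₀) = false ∧
      ∀ l < n, SatBy a (link W (l * (3 * W + 1)))) ∧ SatBy a φS := by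
  simp only [matrix, Dat.satBy_append, Dat.satBy_flatMap, Dat.satBy_cons, Dat.satBy_nil,
    List.mem_range, List.mem_cons, List.not_mem_nil, or_false, exists_eq_left, and_true,
    and_assoc]

/-- The slot at offset `p` contains all the bits of the code number `t`. -/
def Cov (W : ℕ) (e : ℕ → ℕ → Bool) (a : ℕ → Bool) (p t : ℕ) : Prop :=
  ∀ j < W, e t j = true → a (p + j) = true

/-- The slot at offset `p` is the code number `t`. -/
def Ex (W : ℕ) (e : ℕ → ℕ → Bool) (a : ℕ → Bool) (p t : ℕ) : Prop :=
  ∀ j < W, a (p + j) = e t j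

theorem sound {W n j₀ : ℕ} {φI φS : CNF} {e : ℕ → ℕ → Bool}
    (hS : ∀ a t, SatBy a φS → Cov W e a (n * (3 * W + 1)) t →
      Cov W e a (n * (3 * W + 1) + W) (t + 1)) (r : ℕ) : ∀ (l : ℕ) (a : ℕ → Bool), l + r = n →
    QVal (matrix W n j₀ φI φS) (blocks W (r + 1)) (l * (3 * W + 1)) a →
    ∃ a' : ℕ → Bool, (∀ j < l * (3 * W + 1), a' j = a j) ∧ SatBy a' (matrix W n j₀ φI φS) ∧
      ∀ t, Cov W e a' (l * (3 * W + 1)) t → Cov W e a' (l * (3 * W + 1) + W) (t + 2 ^ r) := by
  induction r with
  | zero =>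
    intro l a hl h
    obtain rfl : l = n := by omega
    obtain ⟨a₁, h1, h2⟩ := (qval_succ _ _ _ _ _).1 h
    have h3 : SatBy _ _ := h2 false
    refine ⟨_, fun j hj => ?_, h3, fun t ht => hS _ t ((satBy_matrix ..).1 h3).2 ht⟩
    rw [Function.update_of_ne (by omega), h1 j (Or.inl hj)]
  | succ r ih =>
    intro l a hl h
    obtain ⟨a₁, h1, h2⟩ := (qval_succ _ _ _ _ _).1 h
    rw [← Nat.succ_mul] at h2
    obtain ⟨a₂, g1, g2, g3⟩ := ih (l + 1) _ (by omega) (h2 true)
    obtain ⟨a₃, f1, f2, f3⟩ := ih (l + 1) _ (by omega) (h2 false)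
    have g4 := (satBy_link ..).1 (((satBy_matrix ..).1 g2).1.2.2 l (by omega))
    have f4 := (satBy_link ..).1 (((satBy_matrix ..).1 f2).1.2.2 l (by omega))
    rw [Nat.succ_mul] at g1 g3 f1 f3
    generalize l * (3 * W + 1) = o at *
    have g5 : a₂ (o + 3 * W) = true := by rw [g1 _ (by omega)]; simp
    have f5 : a₃ (o + 3 * W) = false := by rw [f1 _ (by omega)]; simp
    have e23 : ∀ j < o + 3 * W, a₂ j = a₃ j := fun j hj => by
      rw [g1 j (by omega), f1 j (by omega), Function.update_of_ne (by omega),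
        Function.update_of_ne (by omega)]
    refine ⟨a₂, fun j hj => ?_, g2, fun t ht => ?_⟩
    · rw [g1 j (by omega), Function.update_of_ne (by omega), h1 j (Or.inl hj)]
    · have k1 := g3 t (fun j hj hb => ((g4 j hj).1 g5).1 (ht j hj hb))
      have k2 := f3 (t + 2 ^ r) (fun j hj hb => ((f4 j hj).2 f5).1 (by
        rw [← e23 _ (by omega)]
        exact ((g4 j hj).1 g5).2 (k1 j hj hb)))
      intro j hj hb
      rw [e23 _ (by omega)]
      refine ((f4 j hj).2 f5).2 (k2 j hj ?_)
      rwa [add_assoc, ← two_mul, ← pow_succ']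

theorem complete {W n j₀ : ℕ} {φI φS : CNF} {e : ℕ → ℕ → Bool}
    (hS : ∀ a t, Ex W e a (n * (3 * W + 1)) t → Ex W e a (n * (3 * W + 1) + W) (t + 1) →
      SatBy a φS) (r : ℕ) : ∀ (l t : ℕ) (a : ℕ → Bool), l + r = n →
    (∀ a' : ℕ → Bool, (∀ j < l * (3 * W + 1), a' j = a j) → Ex W e a' (l * (3 * W + 1)) t →
      Ex W e a' (l * (3 * W + 1) + W) (t + 2 ^ r) → SatBy a' φI ∧ a' (W + j₀) = false ∧
        ∀ l' < l, SatBy a' (link W (l' * (3 * W + 1)))) →
    QVal (matrix W n j₀ φI φS) (blocks W (r + 1)) (l * (3 * W + 1)) a := by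
  have key : ∀ (o t₁ t₂ t₃ : ℕ) (a : ℕ → Bool), ∃ a' : ℕ → Bool,
      (∀ j, j < o ∨ o + 3 * W ≤ j → a' j = a j) ∧ Ex W e a' o t₁ ∧ Ex W e a' (o + W) t₂ ∧
        Ex W e a' (o + 2 * W) t₃ := by
    intro o t₁ t₂ t₃ a
    refine ⟨fun j => if j < o ∨ o + 3 * W ≤ j then a j else if j < o + W then e t₁ (j - o) else
      if j < o + 2 * W then e t₂ (j - (o + W)) else e t₃ (j - (o + 2 * W)),
      fun j hj => if_pos hj, fun j hj => ?_, fun j hj => ?_, fun j hj => ?_⟩
    · beta_reduce
      rw [if_neg (by omega), if_pos (by omega), Nat.add_sub_cancel_left]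
    · beta_reduce
      rw [if_neg (by omega), if_neg (by omega), if_pos (by omega), Nat.add_sub_cancel_left]
    · beta_reduce
      rw [if_neg (by omega), if_neg (by omega), if_neg (by omega), Nat.add_sub_cancel_left]
  induction r with
  | zero =>
    intro l t a hl h
    obtain rfl : l = n := by omega
    obtain ⟨a₁, h1, h2, h3, -⟩ := key (l * (3 * W + 1)) t (t + 1) 0 a
    refine (qval_succ ..).2 ⟨a₁, h1, fun b => ?_⟩
    have e2 : Ex W e (Function.update a₁ (l * (3 * W + 1) + 3 * W) b) (l * (3 * W + 1)) t :=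
      fun j hj => by rw [Function.update_of_ne (by omega), h2 j hj]
    have e3 : Ex W e (Function.update a₁ (l * (3 * W + 1) + 3 * W) b) (l * (3 * W + 1) + W)
        (t + 1) := fun j hj => by rw [Function.update_of_ne (by omega), h3 j hj]
    refine (satBy_matrix ..).2 ⟨h _ (fun j hj => ?_) e2 e3, hS _ t e2 e3⟩
    rw [Function.update_of_ne (by omega), h1 j (Or.inl hj)]
  | succ r ih =>
    intro l t a hl h
    obtain ⟨a₁, h1, h2, h3, h4⟩ := key (l * (3 * W + 1)) t (t + 2 ^ (r + 1)) (t + 2 ^ r) a
    refine (qval_succ ..).2 ⟨a₁, h1, fun b => ?_⟩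
    rw [← Nat.succ_mul]
    refine ih (l + 1) (if b then t else t + 2 ^ r) _ (by omega) (fun a' g1 g2 g3 => ?_)
    rw [Nat.succ_mul] at g1 g2 g3
    have g4 : ∀ j < l * (3 * W + 1) + 3 * W, a' j = a₁ j := fun j hj => by
      rw [g1 j (by omega), Function.update_of_ne (by omega)]
    have g5 : a' (l * (3 * W + 1) + 3 * W) = b := by rw [g1 _ (by omega)]; simp
    obtain ⟨k1, k2, k3⟩ := h a' (fun j hj => by rw [g4 j (by omega), h1 j (Or.inl hj)])
      (fun j hj => by rw [g4 _ (by omega), h2 j hj]) (fun j hj => by rw [g4 _ (by omega), h3 j hj])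
    refine ⟨k1, k2, fun l' hl' => ?_⟩
    rcases Nat.lt_succ_iff_lt_or_eq.1 hl' with hl' | rfl
    · exact k3 l' hl'
    · refine (satBy_link ..).2 (fun j hj => ?_)
      rw [g5, g2 j hj, g3 j hj, g4 (l' * (3 * W + 1) + j) (by omega), h2 j hj,
        g4 (l' * (3 * W + 1) + W + j) (by omega), h3 j hj,
        g4 (l' * (3 * W + 1) + 2 * W + j) (by omega), h4 j hj]
      cases b
      · simp [add_assoc, ← two_mul, ← pow_succ']
      · simp

theorem qtrue_iff {W n j₀ : ℕ} {φI φS : CNF} {e : ℕ → ℕ → Bool} (hj : j₀ < W)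
    (hI₁ : ∀ a, SatBy a φI → Cov W e a 0 0) (hI₂ : ∀ a, Ex W e a 0 0 → SatBy a φI)
    (hS₁ : ∀ a t, SatBy a φS → Cov W e a (n * (3 * W + 1)) t →
      Cov W e a (n * (3 * W + 1) + W) (t + 1))
    (hS₂ : ∀ a t, Ex W e a (n * (3 * W + 1)) t → Ex W e a (n * (3 * W + 1) + W) (t + 1) →
      SatBy a φS) :
    QTrue (blocks W (n + 1), matrix W n j₀ φI φS) ↔ e (2 ^ n) j₀ = false := by
  constructor
  · intro h
    obtain ⟨a, -, h2, h3⟩ := sound hS₁ n 0 (fun _ => false) (by omega) (by simpa [QTrue] using h)
    obtain ⟨⟨g1, g2, -⟩, -⟩ := (satBy_matrix ..).1 h2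
    have := h3 0 (by simpa using hI₁ a g1) j₀ hj
    simp only [zero_mul, zero_add] at this
    cases he : e (2 ^ n) j₀
    · rfl
    · rw [this he] at g2; cases g2
  · intro h
    have := complete (j₀ := j₀) (φI := φI) hS₂ n 0 0 (fun _ => false) (by omega)
      (fun a' _ g2 g3 => ⟨hI₂ a' (by simpa using g2), by
        have := g3 j₀ hj
        simp only [zero_mul, zero_add] at this
        rw [this, h], fun l' hl' => absurd hl' (by omega)⟩)
    simpa [QTrue] using this

/-- All variables are below `N`. -/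
def Bd (N : ℕ) (φ : CNF) : Prop := ∀ c ∈ φ, ∀ l ∈ c, l.1 < N

theorem qclosed {W n j₀ : ℕ} {φI φS : CNF} (hj : j₀ < W) (hI : Bd W φI)
    (hS : Bd (n * (3 * W + 1) + 2 * W) φS) :
    QClosed (blocks W (n + 1), matrix W n j₀ φI φS) := by
  intro c hc l hl
  simp only [length_blocks]
  rw [Nat.succ_mul]
  simp only [matrix, List.mem_append, List.mem_flatMap, List.mem_range, List.mem_singleton] at hc
  rcases hc with ((hc | rfl) | ⟨k, hk, hc⟩) | hc
  · have := hI c hc l hl
    omega
  · obtain rfl := List.mem_singleton.1 hl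
    simp only
    omega
  · have h1 : (k + 1) * (3 * W + 1) ≤ n * (3 * W + 1) := Nat.mul_le_mul_right _ hk
    rw [Nat.succ_mul] at h1
    simp only [link, List.mem_flatMap, List.mem_range, List.mem_cons, List.not_mem_nil,
      or_false] at hc
    obtain ⟨j, hj, rfl | rfl | rfl | rfl⟩ := hc <;>
      simp only [List.mem_cons, List.not_mem_nil, or_false] at hl <;>
      rcases hl with rfl | rfl | rfl <;> simp only <;> omega
  · have := hS c hc l hl
    omega

section PT
variable {α : Type} [Enc α]

theorem pt_blocks {W r : α → ℕ} (hW : PT W) (hr : PT r) : PT (fun a => blocks (W a) (r a)) := by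
  unfold blocks
  fun_prop

@[fun_prop] theorem pt_link {W o : α → ℕ} (hW : PT W) (ho : PT o) :
    PT (fun a => link (W a) (o a)) := by
  unfold link
  fun_prop

theorem pt_matrix {W n j₀ : α → ℕ} {φI φS : α → CNF} (hW : PT W) (hn : PT n) (hj : PT j₀)
    (hI : PT φI) (hS : PT φS) : PT (fun a => matrix (W a) (n a) (j₀ a) (φI a) (φS a)) := by
  unfold matrix
  fun_prop

end PT

/-- An orbit with few values has reached its final fixed point early. -/
theorem iter_eq_of_few {β : Type} (f : β → β) (c : β) {N M : ℕ} (hN : f (f^[N] c) = f^[N] c)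
    (hM : ∃ s t, s < t ∧ t ≤ M ∧ f^[s] c = f^[t] c) : f^[M] c = f^[N] c := by
  classical
  obtain ⟨s, t, hst, htM, he⟩ := hM
  have hex : ∃ m, f^[m] c = f^[N] c := ⟨N, rfl⟩
  have h1 := Nat.find_spec hex
  have h2 : Nat.find hex ≤ M := by
    by_contra hlt
    refine Nat.find_min hex (m := Nat.find hex - t + s) (by omega) ?_
    rw [Function.iterate_add_apply, he, ← Function.iterate_add_apply,
      Nat.sub_add_cancel (by omega), h1]
  obtain ⟨d, rfl⟩ := Nat.exists_eq_add_of_le h2
  rw [add_comm, Function.iterate_add_apply, h1]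
  exact Function.iterate_fixed hN d

theorem exists_rep (W : ℕ) (e : ℕ → ℕ → Bool) :
    ∃ s t, s < t ∧ t ≤ 2 ^ W ∧ ∀ j < W, e s j = e t j := by
  obtain ⟨s, t, hst, he⟩ := Fintype.exists_ne_map_eq_of_card_lt
    (fun (t : Fin (2 ^ W + 1)) (j : Fin W) => e t j) (by simp)
  have h : ∀ j < W, e s j = e t j := fun j hj => congrFun he ⟨j, hj⟩
  rcases lt_or_gt_of_ne hst with h1 | h1
  · exact ⟨s, t, h1, Nat.lt_succ_iff.1 t.2, h⟩
  · exact ⟨t, s, h1, Nat.lt_succ_iff.1 s.2, fun j hj => (h j hj).symm⟩

end Pool.Agent.MP_79e5e2_lc.QH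

end

section

/-! Quantified Boolean formulas are hard for polynomial space. -/

namespace Pool.Agent.MP_79e5e2_lc

open Pool.Agent.MP_2e8011_lc Turing

namespace QH

variable {K : Type} [DecidableEq K] {Γ : K → Type} {Λ σ : Type} (D : Dat Γ Λ σ)

/-- A strict bound on the codes of the symbols in use. -/
def cB : ℕ := ((D.TL.map Dat.ctl ++ D.OL.map Sum.inr).map D.code).sum + 1

omit [DecidableEq K] in
theorem code_lt {s : Sym Γ Λ σ} (hs : Good D.A s) : D.code s < cB D := by
  refine Nat.lt_succ_of_le (List.single_le_sum (by simp) _ (List.mem_map_of_mem ?_))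
  rcases s with q | z
  · refine List.mem_append_left _ (List.mem_map.2 ⟨⟨q.1, q.2, fun _ => []⟩, ?_, rfl⟩)
    exact (D.hTL _).2 ⟨fun k => by simp, fun k γ hγ => by simp at hγ⟩
  · exact List.mem_append_right _ (List.mem_map_of_mem ((D.hOL _).2 hs))

/-- The variable of the slot at offset `p` for position `i` and symbol `s`. -/
def var (B p i : ℕ) (s : Sym Γ Λ σ) : ℕ := p + ((i - (i - B)) * cB D + D.code s % cB D)

omit [DecidableEq K] in
theorem idx_lt (B i : ℕ) (s : Sym Γ Λ σ) :
    (i - (i - B)) * cB D + D.code s % cB D < (B + 1) * cB D := by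
  have h1 : D.code s % cB D < cB D := Nat.mod_lt _ (Nat.succ_pos _)
  have h2 : (i - (i - B)) * cB D ≤ B * cB D := Nat.mul_le_mul_right _ (by omega)
  rw [Nat.succ_mul]
  omega

omit [DecidableEq K] in
theorem var_lt (B p i : ℕ) (s : Sym Γ Λ σ) : var D B p i s < p + (B + 1) * cB D :=
  Nat.add_lt_add_left (idx_lt D B i s) p

/-- The negated description of the window `c`. -/
def prem (B p : ℕ) (c : TM2.Cfg Γ Λ σ) : List (ℕ × Bool) :=
  (var D B p 0 (Dat.ctl c), false) :: D.KL.flatMap
    (fun k => (List.range D.d).map (fun i => (var D B p i (Dat.cell c k i), false)))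

/-- Clauses describing one step from the window `c`. -/
def stepC (B p q : ℕ) (c : TM2.Cfg Γ Λ σ) : CNF :=
  [prem D B p c ++ [(var D B q 0 (Dat.ctl (nxt D.m c)), true)]] ++
  D.KL.flatMap (fun k => (List.range ((nxt D.m c).stk k).length).map
    (fun i => prem D B p c ++ [(var D B q i (Dat.cell (nxt D.m c) k i), true)])) ++
  D.OL.flatMap (fun s => (List.range (B + 1)).map
    (fun i => prem D B p c ++ [(var D B p (D.d + i) (.inr s), false),
      (var D B q (((nxt D.m c).stk s.1).length + i) (.inr s), true)]))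

/-- Clauses describing one step. -/
def stepF (B p q : ℕ) : CNF := D.TL.flatMap (fun c => stepC D B p q c)

/-- Clauses describing the initial configuration. -/
def initF (B : ℕ) (x : List Bool) : CNF :=
  [[(var D B 0 0 (.inl (some D.main, D.v₀)), true)]] ++
  (D.KL.filter (fun k => decide (k ≠ D.k₀))).flatMap
    (fun k => (List.range (B + 1)).map (fun i => [(var D B 0 i (.inr ⟨k, none⟩), true)])) ++
  (List.range x.length).map (fun i => [(var D B 0 i (D.s0 (some (x.getD i false))), true)]) ++
  (List.range (B + 1)).map (fun i => [(var D B 0 (x.length + i) (D.s0 none), true)])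

section PT
variable {α : Type} [Enc α]

omit [DecidableEq K] in
@[fun_prop] theorem pt_var {B p i : α → ℕ} (hB : PT B) (hp : PT p) (hi : PT i) (s : Sym Γ Λ σ) :
    PT (fun a => var D (B a) (p a) (i a) s) := by
  unfold var
  fun_prop

omit [DecidableEq K] in
@[fun_prop] theorem pt_prem {B p : α → ℕ} (hB : PT B) (hp : PT p) (c : TM2.Cfg Γ Λ σ) :
    PT (fun a => prem D (B a) (p a) c) := by
  unfold prem
  refine PT.cons (by fun_prop) (PT.flatMap_const _ (fun k => PT.map_const _ (fun i => ?_)))
  fun_prop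

theorem pt_stepF {B p q : α → ℕ} (hB : PT B) (hp : PT p) (hq : PT q) :
    PT (fun a => stepF D (B a) (p a) (q a)) := by
  unfold stepF stepC
  refine PT.flatMap_const _ (fun c => ?_)
  refine PT.append (PT.append (by fun_prop) (PT.flatMap_const _ (fun k =>
    PT.map_const _ (fun i => by fun_prop)))) (PT.flatMap_const _ (fun s => by fun_prop))

theorem pt_initF {B : α → ℕ} {x : α → List Bool} (hB : PT B) (hx : PT x) :
    PT (fun a => initF D (B a) (x a)) := by
  unfold initF
  refine PT.append (PT.append (PT.append (by fun_prop)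
    (PT.flatMap_const _ (fun k => by fun_prop))) (PT.map ?_ (by fun_prop))) (by fun_prop)
  exact PT.bool_cases (p := fun p : α × ℕ => (x p.1).getD p.2 false) (by fun_prop)
    (g := fun b p => [(var D (B p.1) 0 p.2 (D.s0 (some b)), true)]) (fun b => by fun_prop)

end PT

theorem bd_initF (B : ℕ) (x : List Bool) : Bd ((B + 1) * cB D) (initF D B x) := by
  have h : ∀ i s, var D B 0 i s < (B + 1) * cB D := fun i s => by simpa using var_lt D B 0 i s
  simp only [Bd, initF, List.forall_mem_append, List.forall_mem_flatMap, List.forall_mem_map,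
    List.forall_mem_cons, List.not_mem_nil, h]
  simp

theorem bd_stepF (B p : ℕ) :
    Bd (p + 2 * ((B + 1) * cB D)) (stepF D B p (p + (B + 1) * cB D)) := by
  have h : ∀ i s, var D B p i s < p + 2 * ((B + 1) * cB D) := fun i s => by
    have := var_lt D B p i s
    omega
  have h' : ∀ i s, var D B (p + (B + 1) * cB D) i s < p + 2 * ((B + 1) * cB D) := fun i s => by
    have := var_lt D B (p + (B + 1) * cB D) i s
    omega
  simp only [Bd, stepF, stepC, prem, List.forall_mem_append, List.forall_mem_flatMap,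
    List.forall_mem_map, List.forall_mem_cons, List.not_mem_nil, h, h']
  simp

/-- The window `c` is asserted in the slot at offset `p`. -/
def Prem (a : ℕ → Bool) (B p : ℕ) (c : TM2.Cfg Γ Λ σ) : Prop :=
  a (var D B p 0 (Dat.ctl c)) = true ∧ ∀ k, ∀ i < D.d, a (var D B p i (Dat.cell c k i)) = true

omit [DecidableEq K] in
theorem prem_iff (a : ℕ → Bool) (B p : ℕ) (c : TM2.Cfg Γ Λ σ) (l : List (ℕ × Bool)) :
    (∃ x ∈ prem D B p c ++ l, a x.1 = x.2) ↔ (Prem D a B p c → ∃ x ∈ l, a x.1 = x.2) := by
  have h : (∃ x ∈ prem D B p c, a x.1 = x.2) ↔ ¬ Prem D a B p c := by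
    simp only [prem, Prem, List.mem_cons, List.mem_flatMap, List.mem_map, List.mem_range,
      exists_eq_or_imp, not_and_or, not_forall, Bool.not_eq_true]
    refine or_congr Iff.rfl ⟨?_, ?_⟩
    · rintro ⟨x, ⟨k, -, i, hi, rfl⟩, hx⟩
      exact ⟨k, i, hi, hx⟩
    · rintro ⟨k, i, hi, hx⟩
      exact ⟨_, ⟨k, D.hKL k, i, hi, rfl⟩, hx⟩
  simp only [List.mem_append, or_and_right, exists_or, h]
  tauto

theorem satBy_stepF (a : ℕ → Bool) (B p q : ℕ) :
    SatBy a (stepF D B p q) ↔ ∀ c ∈ D.TL, Prem D a B p c →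
      a (var D B q 0 (Dat.ctl (nxt D.m c))) = true ∧
      (∀ k, ∀ i < ((nxt D.m c).stk k).length,
        a (var D B q i (Dat.cell (nxt D.m c) k i)) = true) ∧
      ∀ s ∈ D.OL, ∀ i < B + 1, a (var D B p (D.d + i) (.inr s)) = true →
        a (var D B q (((nxt D.m c).stk s.1).length + i) (.inr s)) = true := by
  rw [stepF, Dat.satBy_flatMap]
  refine forall_congr' fun c => forall_congr' fun _ => ?_
  simp only [stepC, Dat.satBy_append, Dat.satBy_flatMap, Dat.satBy_map, Dat.satBy_cons,
    Dat.satBy_nil, prem_iff, List.mem_range, List.mem_cons, List.not_mem_nil, or_false,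
    exists_eq_left, and_true, exists_eq_or_imp]
  constructor
  · rintro ⟨⟨h1, h2⟩, h3⟩ hp
    refine ⟨h1 hp, fun k i hi => h2 k (D.hKL k) i hi hp, fun s hs i hi h => ?_⟩
    rcases h3 s hs i hi hp with h' | h'
    · rw [h] at h'; cases h'
    · exact h'
  · intro h
    refine ⟨⟨fun hp => (h hp).1, fun k _ i hi hp => (h hp).2.1 k i hi⟩, fun s hs i hi hp => ?_⟩
    cases h' : a (var D B p (D.d + i) (.inr s))
    · exact Or.inl rfl
    · exact Or.inr ((h hp).2.2 s hs i hi h')

theorem satBy_initF (a : ℕ → Bool) (B : ℕ) (x : List Bool) :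
    SatBy a (initF D B x) ↔ a (var D B 0 0 (.inl (some D.main, D.v₀))) = true ∧
      (∀ k, k ≠ D.k₀ → ∀ i < B + 1, a (var D B 0 i (.inr ⟨k, none⟩)) = true) ∧
      (∀ i < x.length, a (var D B 0 i (D.s0 (some (x.getD i false)))) = true) ∧
      ∀ i < B + 1, a (var D B 0 (x.length + i) (D.s0 none)) = true := by
  simp only [initF, Dat.satBy_append, Dat.satBy_flatMap, Dat.satBy_map, Dat.satBy_cons,
    Dat.satBy_nil, List.mem_range, List.mem_cons, List.not_mem_nil, or_false, exists_eq_left,
    and_true, List.mem_filter, D.hKL, true_and, decide_eq_true_eq, and_assoc]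

/-- Meaning of a symbol at position `i`. -/
def Hd (c : TM2.Cfg Γ Λ σ) (i : ℕ) : Sym Γ Λ σ → Prop
  | .inl q => i = 0 ∧ (c.l, c.var) = q
  | .inr s => (c.stk s.1)[i]? = s.2

open Classical in
/-- The bits of the code of a configuration. -/
noncomputable def bit (c : TM2.Cfg Γ Λ σ) (j : ℕ) : Bool :=
  decide (∃ s, Good D.A s ∧ D.code s = j % cB D ∧ Hd c (j / cB D) s)

omit [DecidableEq K] in
theorem bit_iff (c : TM2.Cfg Γ Λ σ) (i : ℕ) {s : Sym Γ Λ σ} (hs : Good D.A s) :
    bit D c (i * cB D + D.code s % cB D) = true ↔ Hd c i s := by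
  have h0 : 0 < cB D := Nat.succ_pos _
  have h1 := code_lt D hs
  have h2 : (i * cB D + D.code s % cB D) % cB D = D.code s := by
    rw [Nat.mul_add_mod_self_right, Nat.mod_mod, Nat.mod_eq_of_lt h1]
  have h3 : (i * cB D + D.code s % cB D) / cB D = i := by
    rw [Nat.mod_eq_of_lt h1, add_comm, Nat.add_mul_div_right _ _ h0, Nat.div_eq_of_lt h1, zero_add]
  simp only [bit, h2, h3, decide_eq_true_eq]
  constructor
  · rintro ⟨s', hs', he, hh⟩
    rwa [D.hcode hs' hs he] at hh
  · intro hh
    exact ⟨s, hs, rfl, hh⟩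

omit [DecidableEq K] in
theorem hd_sat {c : TM2.Cfg Γ Λ σ} {B : ℕ} (hc : ∀ k, (c.stk k).length ≤ B) (i : ℕ)
    (z : Σ k, Option (Γ k)) : Hd c (i - (i - B)) (.inr z : Sym Γ Λ σ) ↔ Hd c i (.inr z) := by
  by_cases hi : i ≤ B
  · rw [show i - (i - B) = i by omega]
  · have := hc z.1
    simp only [Hd]
    rw [List.getElem?_eq_none (by omega), List.getElem?_eq_none (by omega)]

omit [DecidableEq K] in
theorem cov_iff {c : TM2.Cfg Γ Λ σ} {B : ℕ} (hc : ∀ k, (c.stk k).length ≤ B)
    (ho : Over D.A c.stk) (a : ℕ → Bool) (p : ℕ) :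
    (∀ j < (B + 1) * cB D, bit D c j = true → a (p + j) = true) ↔
      a (var D B p 0 (Dat.ctl c)) = true ∧
        ∀ k, ∀ i < B + 1, a (var D B p i (Dat.cell c k i)) = true := by
  constructor
  · intro h
    refine ⟨h _ (idx_lt D B 0 _) ?_, fun k i _ => h _ (idx_lt D B i _) ?_⟩
    · exact (bit_iff D c _ (s := Dat.ctl c) trivial).2 ⟨by omega, rfl⟩
    · exact (bit_iff D c _ (D.good_cell ho k i)).2 ((hd_sat hc i _).2 rfl)
  · rintro ⟨h1, h2⟩ j hj hb
    simp only [bit, decide_eq_true_eq] at hb
    obtain ⟨s, hs, he, hh⟩ := hb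
    have h3 : j / cB D < B + 1 := Nat.div_lt_of_lt_mul (by rwa [mul_comm])
    have h4 : p + j = var D B p (j / cB D) s := by
      rw [var, Nat.sub_eq_zero_of_le (Nat.lt_succ_iff.1 h3), Nat.sub_zero, he, Nat.mod_mod,
        Nat.div_add_mod']
    rw [h4]
    rcases s with q | ⟨k, o⟩
    · obtain ⟨h5, rfl⟩ := hh
      rw [h5]
      exact h1
    · have := h2 k _ h3
      simp only [Hd] at hh
      rwa [Dat.cell, hh] at this

omit [DecidableEq K] in
theorem ex_inr {c : TM2.Cfg Γ Λ σ} {B : ℕ} (hc : ∀ k, (c.stk k).length ≤ B) {a : ℕ → Bool} {p : ℕ}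
    (h : ∀ j < (B + 1) * cB D, a (p + j) = bit D c j) (i : ℕ) {z : Σ k, Option (Γ k)}
    (hz : Good (Λ := Λ) (σ := σ) D.A (.inr z)) :
    a (var D B p i (.inr z)) = true ↔ (c.stk z.1)[i]? = z.2 := by
  rw [var, h _ (idx_lt D B i _), bit_iff D c _ hz, hd_sat hc]
  rfl

omit [DecidableEq K] in
theorem ex_inl {c : TM2.Cfg Γ Λ σ} {B : ℕ} {a : ℕ → Bool} {p : ℕ}
    (h : ∀ j < (B + 1) * cB D, a (p + j) = bit D c j) (q : Option Λ × σ) :
    a (var D B p 0 (.inl q)) = true ↔ (c.l, c.var) = q := by
  rw [var, h _ (idx_lt D B 0 _), bit_iff D c _ (s := .inl q) trivial]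
  simp [Hd]

theorem step_sound {c : TM2.Cfg Γ Λ σ} {B : ℕ} (hc : ∀ k, (c.stk k).length ≤ B)
    (hc' : ∀ k, ((nxt D.m c).stk k).length ≤ B) (ho : Over D.A c.stk) {a : ℕ → Bool} {p q : ℕ}
    (h : SatBy a (stepF D B p q))
    (hp : ∀ j < (B + 1) * cB D, bit D c j = true → a (p + j) = true) :
    ∀ j < (B + 1) * cB D, bit D (nxt D.m c) j = true → a (q + j) = true := by
  have h1 := ((cov_iff D hc ho a p).1 hp).1
  have h2 : ∀ k i, a (var D B p i (Dat.cell c k i)) = true := fun k i =>
    hp _ (idx_lt D B i _) ((bit_iff D c _ (D.good_cell ho k i)).2 ((hd_sat hc i _).2 rfl))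
  obtain ⟨g1, g2, g3⟩ := (satBy_stepF D a B p q).1 h _ (D.win_mem ho)
    ⟨h1, fun k i hi => by rw [D.cell_win c k hi]; exact h2 k i⟩
  refine (cov_iff D hc' (over_nxt D.hA ho) a q).2 ⟨by rw [D.ctl_nxt]; exact g1, fun k i hi => ?_⟩
  by_cases hlt : i < ((nxt D.m (win D.d c)).stk k).length
  · rw [D.cell_nxt_lt c k hlt]
    exact g2 k i hlt
  · obtain ⟨j, rfl⟩ := Nat.exists_eq_add_of_le (not_lt.1 hlt)
    have := g3 ⟨k, (c.stk k)[D.d + j]?⟩ ((D.hOL _).2 (D.good_cell ho k _)) j (by omega) (h2 k _)
    simpa only [Dat.cell, D.stk_nxt_ge] using this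

theorem step_complete {c : TM2.Cfg Γ Λ σ} {B : ℕ} (hc : ∀ k, (c.stk k).length ≤ B)
    (hc' : ∀ k, ((nxt D.m c).stk k).length ≤ B) (ho : Over D.A c.stk) {a : ℕ → Bool} {p q : ℕ}
    (hp : ∀ j < (B + 1) * cB D, a (p + j) = bit D c j)
    (hq : ∀ j < (B + 1) * cB D, a (q + j) = bit D (nxt D.m c) j) :
    SatBy a (stepF D B p q) := by
  refine (satBy_stepF D a B p q).2 (fun w hw hpr => ?_)
  obtain rfl : w = win D.d c := by
    obtain ⟨hlen, hover⟩ := (D.hTL w).1 hw
    have e1 := (ex_inl D hp _).1 hpr.1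
    have e2 := fun k i hi => (ex_inr D hc hp i (D.good_cell hover k i)).1 (hpr.2 k i hi)
    obtain ⟨l, v, S⟩ := w
    simp only [Prod.mk.injEq] at e1 e2 hlen
    simp only [win, TM2.Cfg.mk.injEq]
    refine ⟨e1.1.symm, e1.2.symm, funext fun k => List.ext_getElem? fun i => ?_⟩
    by_cases hi : i < D.d
    · rw [List.getElem?_take, if_pos hi, e2 k i hi]
    · rw [List.getElem?_take, if_neg hi, List.getElem?_eq_none ((hlen k).trans (not_lt.1 hi))]
  refine ⟨?_, fun k i hi => ?_, fun s hs i _ hs' => ?_⟩
  · rw [← D.ctl_nxt]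
    exact (ex_inl D hq _).2 rfl
  · rw [← D.cell_nxt_lt c k hi]
    exact (ex_inr D hc' hq i (D.good_cell (over_nxt D.hA ho) k i)).2 rfl
  · rw [ex_inr D hc hp _ ((D.hOL s).1 hs)] at hs'
    rw [ex_inr D hc' hq _ ((D.hOL s).1 hs), D.stk_nxt_ge, hs']

theorem init_sound {x : List Bool} {B : ℕ} (hc : ∀ k, ((D.c0 x).stk k).length ≤ B)
    {a : ℕ → Bool} (h : SatBy a (initF D B x)) :
    ∀ j < (B + 1) * cB D, bit D (D.c0 x) j = true → a (0 + j) = true := by
  obtain ⟨h1, h2, h3, h4⟩ := (satBy_initF D a B x).1 h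
  refine (cov_iff D hc (D.over_c0 x) a 0).2 ⟨h1, fun k i hi => ?_⟩
  by_cases hk : k = D.k₀
  · subst hk
    rw [D.cell_c0]
    by_cases hx : i < x.length
    · simpa [List.getD_eq_getElem?_getD, hx] using h3 i hx
    · obtain ⟨j, rfl⟩ := Nat.exists_eq_add_of_le (not_lt.1 hx)
      rw [List.getElem?_eq_none (by omega)]
      exact h4 j (by omega)
  · rw [D.cell_c0_ne x hk]
    exact h2 k hk i hi

theorem init_complete {x : List Bool} {B : ℕ} (hc : ∀ k, ((D.c0 x).stk k).length ≤ B)
    {a : ℕ → Bool} (h : ∀ j < (B + 1) * cB D, a (0 + j) = bit D (D.c0 x) j) :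
    SatBy a (initF D B x) := by
  refine (satBy_initF D a B x).2 ⟨(ex_inl D h _).2 rfl, fun k hk i _ => ?_, fun i hi => ?_,
    fun i _ => ?_⟩
  · refine (ex_inr D hc h i (by intro γ hγ; cases hγ)).2 ?_
    simp [Dat.c0, Function.update_of_ne hk]
  · refine (ex_inr D hc h i (D.good_s0 _)).2 ?_
    simp [Dat.c0, List.getD_eq_getElem?_getD, hi]
  · refine (ex_inr D hc h _ (D.good_s0 _)).2 ?_
    simp [Dat.c0]

omit [DecidableEq K] in
theorem bit_inj {c c' : TM2.Cfg Γ Λ σ} {B : ℕ} (hc : ∀ k, (c.stk k).length ≤ B)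
    (hc' : ∀ k, (c'.stk k).length ≤ B) (ho : Over D.A c.stk)
    (h : ∀ j < (B + 1) * cB D, bit D c j = bit D c' j) : c = c' := by
  have h1 : ∀ j < (B + 1) * cB D, bit D c (0 + j) = bit D c j := fun j _ => by rw [zero_add]
  have h2 : ∀ j < (B + 1) * cB D, bit D c (0 + j) = bit D c' j := fun j hj => by
    rw [zero_add, h j hj]
  have e1 := (ex_inl D h2 _).1 ((ex_inl D h1 _).2 rfl)
  have e2 := fun k i => (ex_inr D hc' h2 i (D.good_cell ho k i)).1
    ((ex_inr D hc h1 i (D.good_cell ho k i)).2 rfl)
  obtain ⟨l, v, S⟩ := c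
  obtain ⟨l', v', S'⟩ := c'
  simp only [Prod.mk.injEq] at e1 e2
  simp only [TM2.Cfg.mk.injEq]
  exact ⟨e1.1.symm, e1.2.symm, funext fun k => List.ext_getElem? fun i => (e2 k i).symm⟩

/-- The formula attached to the input `x` and the space bound `B`. -/
def form (B : ℕ) (x : List Bool) : List Bool × CNF :=
  (blocks ((B + 1) * cB D) ((B + 1) * cB D + 1),
    matrix ((B + 1) * cB D) ((B + 1) * cB D) (var D B 0 0 (.inr ⟨D.k₁, some D.bad⟩)) (initF D B x)
      (stepF D B ((B + 1) * cB D * (3 * ((B + 1) * cB D) + 1))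
        ((B + 1) * cB D * (3 * ((B + 1) * cB D) + 1) + (B + 1) * cB D)))

theorem pt_form {B : List Bool → ℕ} (hB : PT B) : PT (fun x => form D (B x) x) := by
  unfold form
  refine PT.prodMk (pt_blocks (by fun_prop) (by fun_prop)) (pt_matrix (by fun_prop) (by fun_prop)
    (by fun_prop) (pt_initF D hB PT.id) (pt_stepF D hB (by fun_prop) (by fun_prop)))

theorem closed_form (B : ℕ) (x : List Bool) : QClosed (form D B x) :=
  qclosed (by simpa using var_lt D B 0 0 _) (bd_initF D B x) (bd_stepF D B _)

theorem true_form {B N : ℕ} {x : List Bool}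
    (hB : ∀ t k, (((nxt D.m)^[t] (D.c0 x)).stk k).length ≤ B)
    (hN : ((nxt D.m)^[N] (D.c0 x)).l = none) :
    QTrue (form D B x) ↔ (((nxt D.m)^[N] (D.c0 x)).stk D.k₁)[0]? ≠ some D.bad := by
  have hs : ∀ t k, ((nxt D.m ((nxt D.m)^[t] (D.c0 x))).stk k).length ≤ B := fun t => by
    have := hB (t + 1)
    rwa [Function.iterate_succ_apply'] at this
  rw [form, qtrue_iff (e := fun t => bit D ((nxt D.m)^[t] (D.c0 x)))
    (by simpa using var_lt D B 0 0 _) (fun a h => init_sound D (hB 0) h)
    (fun a h => init_complete D (hB 0) h)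
    (fun a t h hp => by
      have := step_sound D (hB t) (hs t) (D.over_iter x t) h hp
      simpa only [Cov, Function.iterate_succ_apply'] using this)
    (fun a t hp hq => step_complete D (hB t) (hs t) (D.over_iter x t) hp
      (by simpa only [Ex, Function.iterate_succ_apply'] using hq))]
  obtain ⟨s, t, h1, h2, h3⟩ :=
    exists_rep ((B + 1) * cB D) (fun t => bit D ((nxt D.m)^[t] (D.c0 x)))
  have h4 := iter_eq_of_few (nxt D.m) (D.c0 x) (nxt_iter_halt D.m hN 1)
    ⟨s, t, h1, h2, bit_inj D (hB s) (hB t) (D.over_iter x s) h3⟩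
  rw [h4, ← Bool.not_eq_true, ex_inr D (p := 0) (hB N) (fun j _ => by rw [zero_add]) 0
    (by intro γ hγ; cases hγ; exact D.hbad)]

theorem steps_eq_nxt (m : Λ → TM2.Stmt Γ Λ σ) {N t : ℕ} (ht : t ≤ N) {c c' : TM2.Cfg Γ Λ σ}
    (h : (flip bind (TM2.step m))^[N] (some c) = some c') :
    (flip bind (TM2.step m))^[t] (some c) = some ((nxt m)^[t] c) := by
  obtain ⟨d, rfl⟩ := Nat.exists_eq_add_of_le ht
  rw [add_comm, Function.iterate_add_apply] at h
  cases h1 : (flip bind (TM2.step m))^[t] (some c) with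
  | none =>
    rw [h1, Function.iterate_fixed rfl] at h
    cases h
  | some c'' => rw [nxt_iter_of_steps m t c c'' h1]

end QH

/-- Quantified Boolean formulas are hard for polynomial space. -/
theorem qbfHard : QBFHard := by
  rintro L ⟨M, p, hp⟩
  obtain ⟨D, hm, hk₀, hk₁, hmain, hv, hi, hbad⟩ :=
    exists_dat M.tm M.inputAlphabet.symm (M.outputAlphabet.symm false)
  obtain ⟨m, k₀, k₁, main, v₀, i₀, bad, d, hd, A, hA, hi', hbad', KL, hKL, TL, hTL, OL, hOL, code,
    hcode⟩ := D
  simp only at hm hk₀ hk₁ hmain hv hi hbad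
  subst hm hk₀ hk₁ hmain hv
  obtain rfl := eq_of_heq hi
  obtain rfl := eq_of_heq hbad
  set D : Dat M.tm.Γ M.tm.Λ M.tm.σ := ⟨M.tm.m, M.tm.k₀, M.tm.k₁, M.tm.main, M.tm.initialState,
    M.inputAlphabet.symm, M.outputAlphabet.symm false, d, hd, A, hA, hi', hbad', KL, hKL, TL, hTL,
    OL, hOL, code, hcode⟩ with hD
  refine ⟨fun x => QH.form D (p.eval x.length) x, QH.pt_form D (by fun_prop),
    fun x => ⟨QH.closed_form D _ x, ?_⟩⟩
  obtain ⟨n, hn⟩ := M.outputsFun x
  have h1 := nxt_iter_of_steps M.tm.m n _ _ hn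
  have h2 : D.c0 x = initList M.tm (List.map M.inputAlphabet.invFun (id x)) := by
    simp only [Dat.c0, initList, hD]
    congr 1
    funext k
    by_cases hk : k = M.tm.k₀
    · subst hk
      rw [dif_pos rfl]
      exact Function.update_self (β := fun k => List (M.tm.Γ k)) ..
    · rw [dif_neg hk]
      exact Function.update_of_ne (β := fun k => List (M.tm.Γ k)) hk _ _
  have h3 : (nxt D.m)^[n] (D.c0 x) = haltList M.tm
      (List.map M.outputAlphabet.invFun (Computability.encodeBool (L x))) := by
    rw [h2]; exact h1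
  have h4 : ((nxt D.m)^[n] (D.c0 x)).l = none := by rw [h3]; rfl
  have h5 : ∀ t ≤ n, ∀ k, (((nxt D.m)^[t] (D.c0 x)).stk k).length ≤ p.eval x.length := by
    intro t ht
    rw [h2]
    exact hp x t _ (QH.steps_eq_nxt M.tm.m ht hn)
  rw [QH.true_form D (N := n) (fun t => ?_) h4, h3]
  · change _ ↔ ((haltList M.tm _).stk M.tm.k₁)[0]? ≠ some (M.outputAlphabet.symm false)
    simp only [haltList, Computability.encodeBool]
    cases L x <;> simp
  · rcases le_total t n with ht | ht
    · exact h5 t ht
    · obtain ⟨e, rfl⟩ := Nat.exists_eq_add_of_le ht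
      rw [add_comm, Function.iterate_add_apply, nxt_iter_halt _ h4]
      exact h5 n le_rfl

end Pool.Agent.MP_79e5e2_lc

end

section

/-! The outcome of Domineering is decidable in polynomial space. -/

namespace Pool.Agent.MP_79e5e2_lc

open Pool.Agent.MP_2e8011_lc Turing

namespace Mem

/-- Execution in which every register stays of length at most `B`. -/
inductive ExecS (B : ℕ) : Cmd → St → St → Prop
  | base {c : Cmd} {S S' : St} {t : ℕ} :
      Exec c S S' t → (∀ k, (S k).length + t ≤ B) → ExecS B c S S'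
  | seq {c d : Cmd} {S S' S'' : St} :
      ExecS B c S S' → ExecS B d S' S'' → ExecS B (.seq c d) S S''
  | loopS {k : ℕ} {c : Cmd} {S S' S'' : St} :
      S k ≠ [] → (∀ j, (S j).length + 1 ≤ B) → ExecS B c S S' → ExecS B (.loop k c) S' S'' →
        ExecS B (.loop k c) S S''

section machine

variable {N : ℕ} {Λ : Type}

/-- Every statement of `M` adds at most one symbol to each stack. -/
def Slow (M : Λ → TM2.Stmt (fun _ : Fin N => Bool) Λ (Option Bool)) : Prop :=
  ∀ l v T k, ((TM2.stepAux (M l) v T).stk k).length ≤ (T k).length + 1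

theorem code_slow [NeZero N] (c : Cmd) : ∀ (emb : Lab c → Λ) (cont : Option Λ) (l : Lab c)
    (v : Option Bool) (T : Fin N → List Bool) (k : Fin N),
    ((TM2.stepAux (code N c emb cont l) v T).stk k).length ≤ (T k).length + 1 := by
  induction c with
  | skip => intro emb cont l v T k; simp [code, stepAux_jump]
  | push j b =>
    intro emb cont l v T k
    simp only [code, TM2.stepAux, stepAux_jump]
    by_cases h : k = Fin.ofNat N j
    · subst h; simp
    · rw [Function.update_of_ne h]; omega
  | pop j =>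
    intro emb cont l v T k
    simp only [code, TM2.stepAux, stepAux_jump]
    by_cases h : k = Fin.ofNat N j
    · subst h; simp; omega
    · rw [Function.update_of_ne h]; omega
  | seq c d ihc ihd =>
    intro emb cont l v T k
    rcases l with l | l
    · exact ihc _ _ l v T k
    · exact ihd _ _ l v T k
  | ite j a b c iha ihb ihc =>
    intro emb cont l v T k
    rcases l with _ | l | l | l
    · simp only [code, TM2.stepAux, stepAux_jump]
      cases (T (Fin.ofNat N j)).head? with
      | none => simp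
      | some b => cases b <;> simp
    · exact iha _ _ l v T k
    · exact ihb _ _ l v T k
    · exact ihc _ _ l v T k
  | loop j c ih =>
    intro emb cont l v T k
    rcases l with _ | l
    · simp only [code, TM2.stepAux, stepAux_jump]
      cases (T (Fin.ofNat N j)).head? with
      | none => simp
      | some b => simp
    · exact ih _ _ l v T k

variable {M : Λ → TM2.Stmt (fun _ : Fin N => Bool) Λ (Option Bool)}

theorem iter_none (n : ℕ) : (flip bind (TM2.step M))^[n] none = none := by
  induction n with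
  | zero => rfl
  | succ n ih => rw [Function.iterate_succ_apply]; exact ih

theorem steps_len (hM : Slow M) : ∀ (n : ℕ) (a b : TM2.Cfg (fun _ : Fin N => Bool) Λ (Option Bool)),
    Steps M n a b → ∀ k, (b.stk k).length ≤ (a.stk k).length + n := by
  intro n
  induction n with
  | zero =>
    intro a b h k
    have : a = b := by simpa [Steps] using h
    subst this
    simp
  | succ n ih =>
    intro a b h k
    unfold Steps at h
    rw [Function.iterate_succ_apply] at h
    obtain ⟨l, v, T⟩ := a
    cases l with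
    | none =>
      have h' : (flip bind (TM2.step M))^[n] none = some b := h
      rw [iter_none] at h'
      exact absurd h' (by simp)
    | some l =>
      have h' : Steps M n (TM2.stepAux (M l) v T) b := h
      have h1 := ih _ _ h' k
      have h2 := hM l v T k
      simp only
      omega

/-- `n` steps during which all stacks have length at most `B`. -/
def StepsB (M : Λ → TM2.Stmt (fun _ : Fin N => Bool) Λ (Option Bool)) (B n : ℕ)
    (a b : TM2.Cfg (fun _ : Fin N => Bool) Λ (Option Bool)) : Prop :=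
  Steps M n a b ∧ ∀ i ≤ n, ∀ c, Steps M i a c → ∀ k, (c.stk k).length ≤ B

theorem StepsB.trans {B n m : ℕ} {a b c : TM2.Cfg (fun _ : Fin N => Bool) Λ (Option Bool)}
    (h₁ : StepsB M B n a b) (h₂ : StepsB M B m b c) : StepsB M B (n + m) a c := by
  refine ⟨h₁.1.trans h₂.1, fun i hi d hd => ?_⟩
  by_cases h : i ≤ n
  · exact h₁.2 i h d hd
  · obtain ⟨j, rfl⟩ := Nat.exists_eq_add_of_le (le_of_lt (not_le.1 h))
    refine h₂.2 j (by omega) d ?_
    have h1 := h₁.1
    unfold Steps at hd h1 ⊢
    rwa [add_comm, Function.iterate_add_apply, h1] at hd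

theorem StepsB.of_steps (hM : Slow M) {B n : ℕ}
    {a b : TM2.Cfg (fun _ : Fin N => Bool) Λ (Option Bool)} (h : Steps M n a b)
    (hB : ∀ k, (a.stk k).length + n ≤ B) : StepsB M B n a b := by
  refine ⟨h, fun i hi d hd k => ?_⟩
  have := steps_len hM i a d hd k
  have := hB k
  omega

theorem simS [NeZero N] (hM : Slow M) {B : ℕ} {c : Cmd} {S S' : St} (h : ExecS B c S S') :
    c.bound ≤ N → ∀ (emb : Lab c → Λ) (cont : Option Λ),
      (∀ l, M (emb l) = code N c emb cont l) →
      ∃ n, StepsB M B n ⟨some (emb (entry c)), none, res N S⟩ ⟨cont, none, res N S'⟩ := by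
  induction h with
  | base h hB =>
    intro hb emb cont hc
    obtain ⟨n, hn, hs⟩ := sim M h hb emb cont hc
    refine ⟨n, StepsB.of_steps hM hs (fun k => ?_)⟩
    have := hB k
    simp only [res]
    omega
  | @seq c d S S' S'' _ _ ih₁ ih₂ =>
    intro hb emb cont hc
    simp only [Cmd.bound, max_le_iff] at hb
    obtain ⟨n₁, h₁⟩ := ih₁ hb.1 (fun x => emb (Sum.inl x))
      (some (emb (Sum.inr (entry d)))) (fun l => hc (Sum.inl l))
    obtain ⟨n₂, h₂⟩ := ih₂ hb.2 (fun x => emb (Sum.inr x)) cont (fun l => hc (Sum.inr l))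
    exact ⟨n₁ + n₂, h₁.trans h₂⟩
  | @loopS k c S S' S'' hS hB _ _ ih₁ ih₂ =>
    intro hb emb cont hc
    have hb' := hb
    simp only [Cmd.bound, max_le_iff] at hb
    have hk : k < N := hb.1
    obtain ⟨n₁, h₁⟩ := ih₁ hb.2 (fun x => emb (some x)) (some (emb none))
      (fun l => hc (some l))
    obtain ⟨n₂, h₂⟩ := ih₂ hb' emb cont hc
    refine ⟨1 + (n₁ + n₂), StepsB.trans (StepsB.of_steps hM (Steps.one ?_) (fun j => hB j))
      (h₁.trans h₂)⟩
    rw [show entry (Cmd.loop k c) = none from rfl, hc]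
    obtain ⟨b, l, hl⟩ := List.exists_cons_of_ne_nil hS
    simp only [code, TM2.stepAux, stepAux_jump, res_ofNat hk, hl]
    rfl

end machine

/-- A command that computes `f` with polynomially bounded registers gives a polynomial-space
machine. -/
theorem pspace_of_execS {A : Type} (ea : A → List Bool) (f : A → Bool) (c : Cmd)
    (p : Polynomial ℕ) (h : ∀ a, ExecS (p.eval (ea a).length) c (one (ea a)) (one [f a])) :
    PSpace ea f := by
  have key : ∀ a, ∃ n, StepsB (code (c.bound + 1) c id none) (p.eval (ea a).length) n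
      ⟨some (entry c), none, res (c.bound + 1) (one (ea a))⟩
      ⟨none, none, res (c.bound + 1) (one [f a])⟩ := fun a =>
    simS (N := c.bound + 1) (M := code (c.bound + 1) c id none) (code_slow c id none) (h a)
      (Nat.le_succ _) id none (fun _ => rfl)
  choose n hn using key
  have e1 : ∀ l : List Bool, List.map (Equiv.refl Bool).invFun l = l := fun l => List.map_id l
  refine ⟨⟨⟨machine c, Equiv.refl Bool, Equiv.refl Bool⟩, fun a => ⟨n a, ?_⟩⟩, p, ?_⟩
  · have h1 : (flip bind (machine c).step)^[n a] (some (initList (machine c) (ea a))) =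
        some (haltList (machine c) [f a]) := by
      rw [initList_machine, haltList_machine]
      exact (hn a).1
    rw [← e1 (ea a)] at h1
    exact h1
  · intro a t d hd k
    have hd' : (flip bind (machine c).step)^[t]
        (some (initList (machine c) (ea a))) = some d := by
      rw [← e1 (ea a)]
      exact hd
    rw [initList_machine] at hd'
    by_cases ht : t ≤ n a
    · exact (hn a).2 t ht d hd' k
    · obtain ⟨j, rfl⟩ := Nat.exists_eq_add_of_lt (not_le.1 ht)
      have h1 := (hn a).1
      unfold Steps at h1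
      have h2 : (flip bind (TM2.step (code (c.bound + 1) c id none)))^[n a + j + 1]
          (some ⟨some (entry c), none, res (c.bound + 1) (one (ea a))⟩) = some d := hd'
      rw [show n a + j + 1 = j + (1 + n a) by omega, Function.iterate_add_apply,
        Function.iterate_add_apply, h1] at h2
      have h3 : (flip bind (TM2.step (code (c.bound + 1) c id none)))^[j] none = some d := h2
      rw [iter_none] at h3
      exact absurd h3 (by simp)

section iter

variable {σ : Type} [Enc σ]

/-- Iterating `step` from `s`, through states of size at most `B` that are not `done`, one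
reaches `s'`. -/
inductive Run (step : σ → σ) (done : σ → Bool) (B : ℕ) : σ → σ → Prop
  | refl {s : σ} : sz s ≤ B → Run step done B s s
  | step {s s' : σ} : done s = false → sz s ≤ B → Run step done B (step s) s' →
      Run step done B s s'

theorem Run.trans {step : σ → σ} {done : σ → Bool} {B : ℕ} {s s' s'' : σ}
    (h₁ : Run step done B s s') (h₂ : Run step done B s' s'') : Run step done B s s'' := by
  induction h₁ with
  | refl _ => exact h₂
  | step hd hs _ ih => exact Run.step hd hs (ih h₂)

theorem Run.sz_last {step : σ → σ} {done : σ → Bool} {B : ℕ} {s s' : σ}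
    (h : Run step done B s s') : sz s' ≤ B := by
  induction h with
  | refl h => exact h
  | step _ _ _ ih => exact ih

/-- The body of the main loop. -/
def body (c : Cmd) : Cmd := .seq c.up (.ite 1 .skip (.pop 1) (.seq (.pop 1) (.pop 0)))

theorem exec_body {c : Cmd} {x y : List Bool} {b : Bool} {t : ℕ}
    (h : Exec c (one x) (one (b :: y)) t) :
    Exec (body c) (sc [true] (one x)) (sc (bif b then [] else [true]) (one y)) (t + 3) := by
  refine Exec.seq (h.up _) ?_
  cases b
  · refine (Exec.iteF (by simp [one]) (Exec.pop 1 _)).cast rfl ?_ (by omega)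
    simp [update_sc_succ, update_sc_zero, one_eq]
  · refine (Exec.iteT (by simp [one]) (Exec.seq (Exec.pop 1 _) (Exec.pop 0 _))).cast rfl ?_
      (by omega)
    simp [update_sc_succ, update_sc_zero, one_eq]

theorem len_sc_one {u x : List Bool} {B : ℕ} (hu : u.length ≤ B) (hx : x.length ≤ B) (k : ℕ) :
    (sc u (one x) k).length ≤ B := by
  rcases k with _ | _ | k
  · exact hu
  · exact hx
  · simp [one]

theorem execS_loop {step : σ → σ} {done : σ → Bool} {B B' : ℕ} {c : Cmd} {q : Polynomial ℕ}
    (hc : ∀ s, Exec c (one (enc s)) (one (done s :: enc (bif done s then s else step s)))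
      (q.eval (sz s))) (hB : B + 1 + (q.eval B + 3) ≤ B') {s s' : σ}
    (h : Run step done B s s') (hd : done s' = true) :
    ExecS B' (.loop 0 (body c)) (sc [true] (one (enc s))) (sc [] (one (enc s'))) := by
  have hl : ∀ (u : List Bool) (s : σ), u.length ≤ 1 → sz s ≤ B →
      ∀ k, (sc u (one (enc s)) k).length ≤ B + 1 := fun u s hu hs k =>
    len_sc_one (by omega) (Nat.le_succ_of_le hs) k
  have hb : ∀ s : σ, sz s ≤ B → ExecS B' (body c) (sc [true] (one (enc s)))
      (sc (bif done s then [] else [true]) (one (enc (bif done s then s else step s)))) := by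
    intro s hs
    refine ExecS.base (exec_body (hc s)) (fun k => ?_)
    have := hl [true] s le_rfl hs k
    have := eval_mono q hs
    omega
  induction h with
  | @refl s hs =>
    refine ExecS.loopS (by simp) (fun j => ?_) (hb s hs) ?_
    · have := hl [true] s le_rfl hs j
      omega
    · rw [hd]
      refine ExecS.base (Exec.loopN rfl) (fun k => ?_)
      have := hl [] s (by simp) hs k
      simp only [cond_true]
      omega
  | @step s s' hd' hs _ ih =>
    refine ExecS.loopS (by simp) (fun j => ?_) (hb s hs) ?_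
    · have := hl [true] s le_rfl hs j
      omega
    · rw [hd']
      exact ih hd

theorem len_one {x : List Bool} (k : ℕ) : (one x k).length ≤ x.length := by
  unfold one
  split_ifs <;> simp

/-- A loop with polynomial-time body through states of polynomial size runs in polynomial
space. -/
theorem pspace_of_iter {A α : Type} [Enc α] (ea : A → List Bool) (ι : A → α)
    (hι : ∀ a, ea a = enc (ι a)) (f : A → Bool) {init : α → σ} {step : σ → σ}
    {done out : σ → Bool} (hi : PT init) (hs : PT step) (hd : PT done) (ho : PT out)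
    {B : α → ℕ} (hB : PB B)
    (h : ∀ a, ∃ s', Run step done (B (ι a)) (init (ι a)) s' ∧ done s' = true ∧ out s' = f a) :
    PSpace ea f := by
  have hg : CP (fun s => done s :: enc (bif done s then s else step s)) := by
    have h1 : PT (fun s => bif done s then s else step s) := by fun_prop
    exact (CP.cond hd (CP.push h1 true) (CP.push h1 false)).congr (fun s => by
      beta_reduce
      cases done s <;> rfl)
  obtain ⟨c₁, t₁, ⟨p₁, hp₁⟩, h₁⟩ := hi
  obtain ⟨c₂, t₂, ⟨p₂, hp₂⟩, h₂⟩ := hg
  obtain ⟨c₃, t₃, ⟨p₃, hp₃⟩, h₃⟩ := ho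
  obtain ⟨p, hp⟩ := hB
  refine pspace_of_execS ea f
    (.seq (.seq c₁ (.seq (mv 0 2) (.seq (mv 2 1) (.push 0 true))))
      (.seq (.loop 0 (body c₂)) (.seq c₃.up (mv 1 0))))
    (Polynomial.X + p₁ + Polynomial.C 9 * p + p₂.comp p + p₃.comp p + Polynomial.C 9)
    (fun a => ?_)
  obtain ⟨s', hr, hd', ho'⟩ := h a
  rw [hι]
  set x := ι a
  have hx : (enc x).length = sz x := rfl
  simp only [Polynomial.eval_add, Polynomial.eval_X, Polynomial.eval_mul, Polynomial.eval_C,
    Polynomial.eval_comp, hx]
  have hB1 := hp x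
  have hs0 : sz (init x) ≤ B x := by
    cases hr with
    | refl h => exact h
    | step _ h _ => exact h
  have hs1 : sz s' ≤ B x := hr.sz_last
  have e1 : Exec (mv 0 2) (one (enc (init x))) (sc [] (sc [] (one (enc (init x)).reverse)))
      (4 * sz (init x) + 1) := by
    refine (exec_mv (by omega) _).cast rfl ?_ (by simp [one, sz])
    rw [one_eq3]
    simp [update_sc_succ, update_sc_zero, one_eq]
  have e2 : Exec (mv 2 1) (sc [] (sc [] (one (enc (init x)).reverse)))
      (sc [] (one (enc (init x)))) (4 * sz (init x) + 1) := by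
    refine (exec_mv (by omega) _).cast rfl ?_ (by simp [one, sz])
    simp [update_sc_succ, update_sc_zero, one_eq, sc_emp, update_emp_one]
  have e3 : Exec (.push 0 true) (sc [] (one (enc (init x)))) (sc [true] (one (enc (init x)))) 1 :=
    Exec.push' 0 true (by simp [update_sc_zero])
  have e4 : Exec (mv 1 0) (sc [] (one [f a])) (one [f a]) 5 := by
    refine (exec_mv (by omega) _).cast rfl ?_ (by simp [one])
    simp [update_sc_succ, update_sc_zero, one_eq, sc_emp, update_emp_zero]
  have e5 : Exec c₃ (one (enc s')) (one [f a]) (t₃ s') := by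
    have := h₃ s'
    beta_reduce at this
    rwa [ho', enc_bool] at this
  refine ExecS.seq (ExecS.base ((h₁ x).seq (e1.seq (e2.seq e3))) (fun k => ?_))
    (ExecS.seq (execS_loop (q := p₂) (fun s => (h₂ s).weaken (hp₂ s)) ?_ hr hd')
      (ExecS.base ((e5.up []).seq e4) (fun k => ?_)))
  · have := len_one (x := enc x) k
    have := hp₁ x
    omega
  · have := eval_mono p₂ hB1
    omega
  · have := len_sc_one (u := []) (x := enc s') (B := B x) (by simp) hs1 k
    have := hp₃ s'
    have := eval_mono p₃ (hs1.trans hB1)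
    omega

end iter

section dfs

variable {σ : Type} [Enc σ] [Inhabited σ]

/-- One step of the depth-first search; each frame lists the children still to be examined. -/
def dStep (succs : σ → List σ) (st : List (List σ)) : List (List σ) :=
  bif (st.headD []).isEmpty then st.tail.tail
  else succs ((st.headD []).headD default) :: (st.headD []).tail :: st.tail

/-- The search is over. -/
def dDone (st : List (List σ)) : Bool :=
  st.isEmpty || (st.tail.isEmpty && (st.headD []).isEmpty)

theorem dfs_run {succs : σ → List σ} {W : σ → Bool} {G : ℕ → σ → Prop} {F B : ℕ}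
    (h0 : ∀ x, ¬ G 0 x) (hG : ∀ n x, G (n + 1) x → ∀ y ∈ succs x, G n y)
    (hF : ∀ n x, G n x → sz (succs x) ≤ F)
    (hW : ∀ x, W x = (succs x).any (fun y => !W y)) (n : ℕ) :
    ∀ (fr : List σ) (rest : List (List σ)), (∀ y ∈ fr, G n y) → sz fr ≤ F →
      sz rest + (n + 1) * (2 * F + 1) ≤ B →
      Run (dStep succs) dDone B (fr :: rest)
        (bif fr.any (fun y => !W y) then rest else [] :: rest) := by
  induction n with
  | zero =>
    intro fr rest hfr _ hB
    cases fr with
    | nil => exact Run.refl (by simp; omega)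
    | cons y ys => exact (h0 y (hfr y List.mem_cons_self)).elim
  | succ n ih =>
    intro fr rest
    induction fr with
    | nil =>
      intro _ _ hB
      refine Run.refl ?_
      simp only [sz_cons, sz_nil]
      nlinarith
    | cons y ys ihl =>
      intro hfr hs hB
      have hy := hfr y List.mem_cons_self
      have hys : sz ys ≤ F := by simp only [sz_cons] at hs; omega
      have hB' : sz rest + (2 * F + 1) + (n + 1) * (2 * F + 1) ≤ B := by nlinarith
      have h1 := ih (succs y) (ys :: rest) (hG n y hy) (hF _ y hy) (by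
        simp only [sz_cons]; omega)
      rw [← hW] at h1
      refine Run.step (by simp [dDone]) (by rw [sz_cons]; omega) (Run.trans h1 ?_)
      cases hy' : W y with
      | true =>
        simpa [hy'] using ihl (fun z hz => hfr z (List.mem_cons_of_mem _ hz)) hys hB
      | false =>
        simp only [cond_false, List.any_cons, hy', Bool.not_false, Bool.true_or, cond_true]
        refine Run.step (by simp [dDone]) ?_ (Run.refl ?_)
        · simp only [sz_cons, sz_nil]
          nlinarith
        · simp only [dStep, List.headD_cons, List.isEmpty_nil, cond_true, List.tail_cons]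
          omega

end dfs

theorem Move.card_lt {p : Bool} {S T : Finset (ℕ × ℕ)} (h : Move p S T) : T.card < S.card := by
  obtain ⟨c, hc, _, rfl⟩ := h
  exact lt_of_le_of_lt (Finset.card_le_card (Finset.erase_subset _ _)) (Finset.card_erase_lt_of_mem hc)

theorem outcome_true_iff (p : Bool) (S : Finset (ℕ × ℕ)) :
    Outcome true p S ↔ ∃ T, Move p S T ∧ Outcome false (!p) T :=
  ⟨fun h => by cases h with | win h1 h2 => exact ⟨_, h1, h2⟩, fun ⟨_, h1, h2⟩ => Outcome.win h1 h2⟩

theorem outcome_false_iff' (p : Bool) (S : Finset (ℕ × ℕ)) :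
    Outcome false p S ↔ ∀ T, Move p S T → Outcome true (!p) T :=
  ⟨fun h => by cases h with | lose h1 => exact h1, Outcome.lose⟩

theorem outcome_false_iff (n : ℕ) : ∀ (p : Bool) (S : Finset (ℕ × ℕ)), S.card < n →
    (Outcome false p S ↔ ¬ Outcome true p S) := by
  induction n with
  | zero => intro p S h; omega
  | succ n ih =>
    intro p S h
    rw [outcome_false_iff', outcome_true_iff]
    push Not
    refine forall_congr' fun T => imp_congr_right fun hT => ?_
    rw [ih _ T (by have := Move.card_lt hT; omega), not_not]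

/-- Positions of the search: the mover and the list of free cells. -/
abbrev Pos : Type := Bool × List (ℕ × ℕ)

/-- The positions after one move. -/
def succs (x : Pos) : List Pos :=
  (x.2.filter fun c => decide (nb x.1 c ∈ x.2)).map fun c =>
    (!x.1, x.2.filter fun d => decide (d ≠ c) && decide (d ≠ nb x.1 c))

open Classical in
/-- The value of a position. -/
noncomputable def W (x : Pos) : Bool := decide (Outcome true x.1 x.2.toFinset)

theorem toFinset_filter_eq (L : List (ℕ × ℕ)) (c e : ℕ × ℕ) :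
    (L.filter fun d => decide (d ≠ c) && decide (d ≠ e)).toFinset = (L.toFinset.erase c).erase e := by
  ext d
  simp only [List.mem_toFinset, List.mem_filter, Bool.and_eq_true, decide_eq_true_eq,
    Finset.mem_erase]
  tauto

theorem W_eq (x : Pos) : W x = (succs x).any (fun y => !W y) := by
  obtain ⟨p, L⟩ := x
  rw [Bool.eq_iff_iff]
  simp only [W, succs, decide_eq_true_eq, List.any_map, List.any_eq_true, List.mem_filter,
    Function.comp, Bool.not_eq_true', decide_eq_false_iff_not, toFinset_filter_eq]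
  rw [outcome_true_iff]
  constructor
  · rintro ⟨T, ⟨c, hc, hc', rfl⟩, h⟩
    exact ⟨c, ⟨List.mem_toFinset.1 hc, List.mem_toFinset.1 hc'⟩,
      (outcome_false_iff _ _ _ (Nat.lt_succ_self _)).1 h⟩
  · rintro ⟨c, ⟨hc, hc'⟩, h⟩
    exact ⟨_, ⟨c, List.mem_toFinset.2 hc, List.mem_toFinset.2 hc', rfl⟩,
      (outcome_false_iff _ _ _ (Nat.lt_succ_self _)).2 h⟩

theorem sz_filter_le {β : Type} [Enc β] (l : List β) (q : β → Bool) : sz (l.filter q) ≤ sz l := by
  induction l with
  | nil => simp
  | cons b l ih =>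
    rw [List.filter_cons]
    split_ifs
    · simp only [sz_cons]; omega
    · simp only [sz_cons]; omega

theorem succs_spec {x y : Pos} (h : y ∈ succs x) : y.2.length < x.2.length ∧ sz y.2 ≤ sz x.2 := by
  simp only [succs, List.mem_map, List.mem_filter] at h
  obtain ⟨c, ⟨hc, _⟩, rfl⟩ := h
  refine ⟨List.length_filter_lt_length_iff_exists.2 ⟨c, hc, by simp⟩, sz_filter_le _ _⟩

theorem sz_succs {x : Pos} {F : ℕ} (h : sz x.2 ≤ F) : sz (succs x) ≤ F * (2 * (3 + F) + 1) := by
  have h1 := sz_le_of_forall (l := succs x) (B := 3 + F) (fun y hy => by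
    have := (succs_spec hy).2
    obtain ⟨b, L⟩ := y
    simp only [sz_prod, sz_bool] at this ⊢
    omega)
  have h2 : (succs x).length ≤ F := by
    simp only [succs, List.length_map]
    exact (List.length_filter_le _ _).trans ((length_le_sz _).trans h)
  exact h1.trans (Nat.mul_le_mul_right _ h2)

@[fun_prop] theorem pt_nb {α : Type} [Enc α] {p : α → Bool} {c : α → ℕ × ℕ} (hp : PT p)
    (hc : PT c) : PT (fun a => nb (p a) (c a)) := by
  unfold nb
  fun_prop

theorem pt_succs : PT succs := by
  unfold succs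
  fun_prop

/-- The free cells of a matrix. -/
def cellsL (rows : List (List Bool)) : List (ℕ × ℕ) :=
  (List.range rows.length).flatMap fun i =>
    ((List.range (rows.getD i []).length).filter fun j => (rows.getD i []).getD j false).map
      fun j => (j, i)

theorem pt_cellsL : PT cellsL := by
  unfold cellsL
  fun_prop

/-- The data of a position. -/
def data (P : Position) : Bool × List (List Bool) :=
  (P.left, List.ofFn fun i => List.ofFn fun j => P.free i j)

theorem code_eq (P : Position) : P.code = enc (data P) :=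
  agree_prod agree_bool (agree_list (agree_list agree_bool)) _

theorem cells_eq (P : Position) : (cellsL (data P).2).toFinset = P.cells := by
  ext ⟨j, i⟩
  simp only [cellsL, data, Position.cells, List.mem_toFinset, List.mem_flatMap, List.mem_range,
    List.length_ofFn, List.mem_map, List.mem_filter, Prod.mk.injEq, Finset.mem_image,
    Finset.mem_filter, Finset.mem_univ, true_and]
  constructor
  · rintro ⟨i', hi, j', ⟨hj, hf⟩, rfl, rfl⟩
    simp only [List.getD_eq_getElem?_getD, List.getElem?_ofFn, hi, dif_pos, Option.getD_some,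
      List.length_ofFn] at hj hf
    simp only [hj, dif_pos, Option.getD_some] at hf
    exact ⟨(⟨i', hi⟩, ⟨j', hj⟩), hf, rfl, rfl⟩
  · rintro ⟨⟨i', j'⟩, hf, rfl, rfl⟩
    refine ⟨i', i'.2, j', ?_, rfl, rfl⟩
    simpa [List.getD_eq_getElem?_getD, List.getElem?_ofFn] using hf

end Mem

open Mem in
theorem inPSpace : InPSpace := by
  have h1 := pt_succs
  have h2 := pt_cellsL
  have h3 : PB (fun d : Bool × List (List Bool) => sz (cellsL d.2)) :=
    (show PT (fun d : Bool × List (List Bool) => cellsL d.2) by fun_prop).pb_sz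
  refine pspace_of_iter (σ := List (List Pos)) Position.code data code_eq _
    (init := fun d => [succs (d.1, cellsL d.2)]) (step := dStep succs) (done := dDone)
    (out := fun st => st.isEmpty) (by fun_prop) (by unfold dStep; fun_prop)
    (by unfold dDone; fun_prop) (by fun_prop)
    (B := fun d => (sz (cellsL d.2) + 1) *
      (2 * (sz (cellsL d.2) * (2 * (3 + sz (cellsL d.2)) + 1)) + 1))
    ((h3.add (PB.const 1)).mul (((PB.const 2).mul (h3.mul (((PB.const 2).mul
      ((PB.const 3).add h3)).add (PB.const 1)))).add (PB.const 1))) (fun P => ?_)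
  set L := cellsL (data P).2 with hL
  have hr := dfs_run (succs := succs) (W := W) (G := fun n x => x.2.length < n ∧ sz x.2 ≤ sz L)
    (F := sz L * (2 * (3 + sz L) + 1))
    (B := (sz L + 1) * (2 * (sz L * (2 * (3 + sz L) + 1)) + 1))
    (fun x h => by omega)
    (fun n x h y hy => by have := succs_spec hy; omega)
    (fun n x h => sz_succs h.2) W_eq (sz L) (succs ((data P).1, L)) []
    (fun y hy => by
      have := succs_spec hy
      have := length_le_sz L
      simp only at *
      omega)
    (sz_succs le_rfl) (by simp)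
  rw [← W_eq] at hr
  refine ⟨_, hr, ?_, ?_⟩
  · cases W ((data P).1, L) <;> rfl
  · have : W ((data P).1, L) = @decide P.MoverWins (Classical.propDecidable _) := by
      have e := cells_eq P
      classical
      rw [Bool.eq_iff_iff]
      unfold W Position.MoverWins
      rw [decide_eq_true_eq, decide_eq_true_eq, ← e]
      exact Iff.rfl
    rw [← this]
    cases W ((data P).1, L) <;> rfl

end Pool.Agent.MP_79e5e2_lc

end
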