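import Pool.Agent.Mg.F2e8011.G1836c3
import Pool.Agent.Mg.F2e8011.Gfec4ad

/-! Domineering is complete for polynomial space. -/

namespace Pool.Agent.MP_79e5e2_lc

open Pool.Agent.MP_2e8011_lc

noncomputable section

theorem pt_of_finite {α β : Type} [Enc α] [Enc β] (L : List α) (d : β) : ∀ (f : α → β),
    (∀ a, a ∉ L → f a = d) → PT f := by
  classical
  induction L with
  | nil => intro f h; exact (PT.const d).congr (fun a => (h a (by simp)).symm)
  | cons a₀ L ih =>
    intro f h
    have h1 := ih (fun a => if a = a₀ then d else f a) (fun a ha => by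
      split_ifs with h2
      · rfl
      · exact h a (by simp [h2, ha]))
    have h2 : PT (fun a => if a = a₀ then f a₀ else (if a = a₀ then d else f a)) :=
      PT.ite (by fun_prop) (PT.const _) h1
    refine h2.congr (fun a => ?_)
    by_cases h3 : a = a₀ <;> simp [h3]

theorem pt_cell : PT (fun p : ℕ × ℕ × ℕ => (tile p.1).cell p.2) := by
  refine pt_of_finite ((List.range 12).product ((List.range 72).product (List.range 72))) false _ ?_
  rintro ⟨k, x, y⟩ h
  simp only [List.pair_mem_product, List.mem_range, not_and_or, not_lt] at h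
  rcases h with h | h | h
  · have : tile k = t_EMPTY := List.getD_eq_default _ _ h
    have h0 : t_EMPTY.cm = 0 := rfl
    simp [this, TL.cell, h0, tb_eq]
  · simp [TL.cell, Nat.not_lt.2 h]
  · simp [TL.cell, Nat.not_lt.2 h]

theorem pt_tyN : PT (fun p : (List Bool × CNF) × ℕ × ℕ => tyN p.1 p.2.1 p.2.2) := by
  unfold tyN
  fun_prop

theorem pt_free : PT (fun p : (List Bool × CNF) × ℕ × ℕ => (lay p.1).free (p.2.2, p.2.1)) := by
  have h1 : PT (fun p : (List Bool × CNF) × ℕ × ℕ => tyN p.1 (p.2.2 / 72) (p.2.1 / 72)) :=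
    pt_tyN.comp (f := fun p : (List Bool × CNF) × ℕ × ℕ => (p.1, p.2.2 / 72, p.2.1 / 72))
      (by fun_prop)
  exact pt_cell.comp (f := fun p : (List Bool × CNF) × ℕ × ℕ =>
    (tyN p.1 (p.2.2 / 72) (p.2.1 / 72), p.2.2 % 72, p.2.1 % 72)) (h1.prodMk (by fun_prop))

/-- The position of a formula. -/
def posOf (F : List Bool × CNF) : Position :=
  ⟨72 * (2 * F.1.length + 2), 72 * (F.2.length + 2), fun r c => (lay F).free (c, r), true⟩

theorem posOf_cells (F : List Bool × CNF) : (posOf F).cells = (lay F).board := by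
  ext ⟨x, y⟩
  simp only [Position.cells, Lay.board, Finset.mem_image, Finset.mem_filter, Finset.mem_univ,
    true_and, Finset.mem_product, Finset.mem_range, Prod.mk.injEq]
  constructor
  · rintro ⟨⟨r, c⟩, h, rfl, rfl⟩
    exact ⟨⟨c.2, r.2⟩, h⟩
  · rintro ⟨⟨h1, h2⟩, h⟩
    exact ⟨(⟨y, h2⟩, ⟨x, h1⟩), h, rfl, rfl⟩

theorem ofFn_range {α : Type} (n : ℕ) (f : ℕ → α) :
    (List.ofFn fun i : Fin n => f i) = (List.range n).map f := by
  apply List.ext_getElem <;> simp

theorem pt_data : PT (fun F : List Bool × CNF => Mem.data (posOf F)) := by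
  have h1 : PT (fun p : (List Bool × CNF) × ℕ =>
      (List.range (72 * (p.1.2.length + 2))).map fun c => (lay p.1).free (c, p.2)) :=
    PT.map (pt_free.comp (f := fun q : ((List Bool × CNF) × ℕ) × ℕ => (q.1.1, q.1.2, q.2))
      (by fun_prop)) (by fun_prop)
  have h2 : PT (fun F : List Bool × CNF => (true, (List.range (72 * (2 * F.1.length + 2))).map
      fun r => (List.range (72 * (F.2.length + 2))).map fun c => (lay F).free (c, r))) :=
    (PT.const true).prodMk (PT.map h1 (by fun_prop))
  refine h2.congr fun F => ?_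
  rw [← ofFn_range]
  simp only [← ofFn_range]
  rfl

/-- Raw bit strings. -/
def Raw : Type := List Bool

/-- The bits of a raw string. -/
def Raw.bits (a : Raw) : List Bool := a

instance : Enc Raw := ⟨fun x => x, fun _ _ h => h⟩

open Classical in
theorem main : PSpace Position.code (fun P => decide P.MoverWins) ∧
    ∀ L : List Bool → Bool, PSpace id L →
      ∃ f : List Bool → Position, Nonempty (Turing.TM2ComputableInPolyTime id Position.code f) ∧
        ∀ x, (L x = true ↔ (f x).MoverWins) := by
  refine ⟨inPSpace, fun L hL => ?_⟩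
  obtain ⟨g, hg, h⟩ := qbfHard L hL
  refine ⟨fun x => posOf (g x), ?_, fun x => ?_⟩
  · have hx : PT Raw.bits := CP.toBits (α := Raw) CP.enc
    obtain ⟨c, t, ⟨q, hq⟩, hc⟩ := pt_data.comp (hg.comp hx)
    refine polyTime_of_exec _ _ _ c q fun x => ?_
    rw [Mem.code_eq]
    exact (hc x).weaken (hq x)
  · rw [(h x).2, lay_wins (h x).1, Position.MoverWins, posOf_cells]
    rfl

end

end Pool.Agent.MP_79e5e2_lc
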