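import Pool.Agent.Mg.F2e8011.G5eb695

/-! Raw bit strings, and a general bridge for encodings that differ from ours (for instance
binary numbers, which are handled as raw strings). -/

namespace Pool.Agent.MP_2e8011_lc

/-- A bit string encoded by itself. -/
structure Raw where
  bits : List Bool

instance : Enc Raw := ⟨Raw.bits, fun a b h => by cases a; cases b; simpa using h⟩

instance : Inhabited Raw := ⟨⟨[]⟩⟩

theorem enc_raw (r : Raw) : enc r = r.bits := rfl

@[simp] theorem sz_raw (r : Raw) : sz r = r.bits.length := rfl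

variable {α β : Type} [Enc α] [Enc β]

@[fun_prop] theorem PT.bits {f : α → Raw} (hf : PT f) : PT (fun a => (f a).bits) := CP.toBits hf

@[fun_prop] theorem PT.mkRaw {g : α → List Bool} (hg : PT g) : PT (fun a => Raw.mk (g a)) := by
  have key : ∀ (m : List Bool) (c : Raw),
      m.foldl (fun c b => Raw.mk (b :: c.bits)) c = Raw.mk (m.reverse ++ c.bits) := by
    intro m
    induction m with
    | nil => intro c; rfl
    | cons b m ih => intro c; simp [ih]
  have h1 : PT (fun p : α × Raw × Bool => Raw.mk (p.2.2 :: p.2.1.bits)) :=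
    PT.bool_cases (p := fun p : α × Raw × Bool => p.2.2) (by fun_prop)
      (g := fun b p => Raw.mk (b :: p.2.1.bits))
      (fun b => CP.push (g := fun p : α × Raw × Bool => Enc.enc p.2.1)
        (show PT (fun p : α × Raw × Bool => p.2.1) by fun_prop) b)
  refine (PT.foldl (f := fun _ c b => Raw.mk (b :: c.bits)) h1 hg.reverse (PT.const ⟨[]⟩)
    hg.pb_length (fun a k => ?_)).congr (fun a => by rw [key]; simp)
  rw [key]
  simp

/-- General bridge: `ι` and `κ` present the prelude's codes as codes of our types. -/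
theorem isPolyTime_of_PT {A B : Type} [N487b59b3 A] [N487b59b3 B] (ι : A → α) (κ : B → β)
    (hι : ∀ a, N487b59b3.bitEncode a = enc (ι a)) (hκ : ∀ b, N487b59b3.bitEncode b = enc (κ b))
    {g : α → β} (hg : PT g) {f : A → B} (hf : ∀ a, g (ι a) = κ (f a)) :
    N68a2faeb.IsPolyTime f := by
  obtain ⟨c, t, ⟨p, hp⟩, hc⟩ := hg
  refine polyTime_of_exec _ _ f c p (fun a => ?_)
  change Exec c (one (N487b59b3.bitEncode a)) (one (N487b59b3.bitEncode (f a)))
    (p.eval (N487b59b3.bitEncode a).length)
  rw [hι, hκ, ← hf]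
  exact (hc (ι a)).weaken (hp _)

/-- A binary number as a raw string. -/
def binRaw (n : ℕ) : Raw := ⟨Computability.encodeNat n⟩

theorem bitEncode_nat (n : ℕ) : N487b59b3.bitEncode n = enc (binRaw n) := rfl

theorem bitEncode_prod {A B : Type} [N487b59b3 A] [N487b59b3 B] {ι : A → α} {κ : B → β}
    (hι : ∀ a, N487b59b3.bitEncode a = enc (ι a)) (hκ : ∀ b, N487b59b3.bitEncode b = enc (κ b))
    (p : A × B) : N487b59b3.bitEncode p = enc (ι p.1, κ p.2) := by
  change N487b59b3.delimit (N487b59b3.bitEncode p.1) ++ N487b59b3.bitEncode p.2 = _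
  rw [delim_eq, hι, hκ, enc_prod]

theorem bitEncode_list {A : Type} [N487b59b3 A] {ι : A → α}
    (hι : ∀ a, N487b59b3.bitEncode a = enc (ι a)) (l : List A) :
    N487b59b3.bitEncode l = enc (l.map ι) := by
  change ((l.map N487b59b3.bitEncode).map N487b59b3.delimit).flatten = _
  induction l with
  | nil => rfl
  | cons a l ih =>
    simp only [List.map_cons, List.flatten_cons, enc_cons]
    rw [ih, delim_eq, hι a]

end Pool.Agent.MP_2e8011_lc
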