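import Mathlib
import Pool.Agent.Mg.F2e8011.G85ba0e

set_option autoImplicit false

/-! Binary integers and rationals for the `PT` library. -/

namespace Pool.Agent.MP_b0ee3d_lc

open Pool.Agent.MP_2e8011_lc Pool.Agent.MP_a6d740_lc

variable {α : Type} [Enc α]

def subStep (p : Bool × Bool) (s : Bin × Bin) : Bin × Bin :=
  bif p.1 then (bif p.2 then (Bin.bit false s.1, Bin.bit true s.2)
    else (Bin.bit true s.1, Bin.bit false s.1))
  else (bif p.2 then (Bin.bit true s.2, Bin.bit false s.2)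
    else (Bin.bit false s.1, Bin.bit true s.2))

theorem foldr_subStep (l : List (Bool × Bool)) :
    ((l.foldr subStep (⟨0⟩, ⟨0⟩)).1.val < 2 ^ l.length ∧
      (l.foldr subStep (⟨0⟩, ⟨0⟩)).2.val < 2 ^ l.length) ∧
    (valL (l.map Prod.snd) ≤ valL (l.map Prod.fst) →
      (l.foldr subStep (⟨0⟩, ⟨0⟩)).1.val + valL (l.map Prod.snd) = valL (l.map Prod.fst) ∧
      (valL (l.map Prod.snd) < valL (l.map Prod.fst) →
      (l.foldr subStep (⟨0⟩, ⟨0⟩)).2.val + valL (l.map Prod.snd) + 1 = valL (l.map Prod.fst))) := by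
  induction l with
  | nil => simp
  | cons p l ih =>
    rw [List.foldr_cons]
    generalize l.foldr subStep (⟨0⟩, ⟨0⟩) = s at ih
    obtain ⟨b, c⟩ := p
    cases b <;> cases c <;>
      simp only [subStep, Bin.bit, Nat.bit_val, valL_cons, List.map_cons, List.length_cons, pow_succ,
        cond_true, cond_false, Bool.toNat_true, Bool.toNat_false] <;> omega

theorem pt_binSub {f g : α → Bin} (hf : PT f) (hg : PT g) :
    PT (fun a => Bin.mk ((f a).val - (g a).val)) := by
  have hz := pt_zipBits hf hg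
  have := pt_foldr (f := fun _ => subStep) (by unfold subStep; fun_prop) hz
    (PT.const ((⟨0⟩, ⟨0⟩) : Bin × Bin))
    (B := fun a => 3 * (zipBits (f a) (g a)).length + 1)
    (((PB.const 3).mul hz.pb_length).add (PB.const 1)) (fun a k => by
      set l := (zipBits (f a) (g a)).drop k
      have h3 : l.length ≤ (zipBits (f a) (g a)).length := by simp [l]
      have h4 := sz_bin_le (foldr_subStep l).1.1
      have h5 := sz_bin_le (foldr_subStep l).1.2
      rw [← Prod.mk.eta (p := l.foldr subStep _), sz_prod]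
      omega)
  refine (PT.cond (pt_binLt (i := fun _ => inferInstance) hf hg) (PT.const ⟨0⟩) this.fst).congr
    (fun a => ?_)
  by_cases h : (f a).val < (g a).val
  · simp [h, Nat.sub_eq_zero_of_le h.le]
  · have := (foldr_subStep (zipBits (f a) (g a))).2
    rw [zipBits_fst, zipBits_snd] at this
    simp only [h, decide_false, cond_false]
    rw [← (this (not_lt.mp h)).1, Nat.add_sub_cancel]

instance : Enc ℤ := ⟨fun z => enc (Bin.mk z.toNat, Bin.mk (-z).toNat), fun a b h => by
  have := Enc.inj h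
  simp only [Prod.mk.injEq, Bin.mk.injEq] at this
  omega⟩

instance : Enc ℚ := ⟨fun q => enc (q.num, Bin.mk q.den), fun a b h => by
  have := Enc.inj h
  simp only [Prod.mk.injEq, Bin.mk.injEq] at this
  exact Rat.ext this.1 this.2⟩

theorem agree_int : Agree ℤ := fun z =>
  bitEncode_prod bitEncode_bin bitEncode_bin (z.toNat, (-z).toNat)

theorem agree_rat : Agree ℚ := fun q =>
  bitEncode_prod (ι := id) agree_int bitEncode_bin (q.num, q.den)

theorem pt_pos {f : α → ℤ} (hf : PT f) : PT (fun a => Bin.mk (f a).toNat) :=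
  PT.fst (f := fun a => (Bin.mk (f a).toNat, Bin.mk (-f a).toNat)) hf

theorem pt_neg {f : α → ℤ} (hf : PT f) : PT (fun a => Bin.mk (-f a).toNat) :=
  PT.snd (f := fun a => (Bin.mk (f a).toNat, Bin.mk (-f a).toNat)) hf

theorem pt_diff {f g : α → Bin} (hf : PT f) (hg : PT g) {h : α → ℤ}
    (e : ∀ a, h a = (f a).val - (g a).val) : PT h :=
  CP.congr (PT.prodMk (pt_binSub hf hg) (pt_binSub hg hf)) (fun a => by
    change _ = enc (Bin.mk (h a).toNat, Bin.mk (-h a).toNat)
    rw [e, show (((f a).val : ℤ) - (g a).val).toNat = (f a).val - (g a).val by omega,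
      show (-(((f a).val : ℤ) - (g a).val)).toNat = (g a).val - (f a).val by omega])

@[fun_prop] theorem pt_intAdd {f g : α → ℤ} (hf : PT f) (hg : PT g) : PT (fun a => f a + g a) :=
  pt_diff (pt_binAdd (pt_pos hf) (pt_pos hg)) (pt_binAdd (pt_neg hf) (pt_neg hg))
    (fun a => by simp only [Bin.add]; omega)

@[fun_prop] theorem pt_intSub {f g : α → ℤ} (hf : PT f) (hg : PT g) : PT (fun a => f a - g a) :=
  pt_diff (pt_binAdd (pt_pos hf) (pt_neg hg)) (pt_binAdd (pt_neg hf) (pt_pos hg))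
    (fun a => by simp only [Bin.add]; omega)

@[fun_prop] theorem pt_intNeg {f : α → ℤ} (hf : PT f) : PT (fun a => -f a) :=
  pt_diff (pt_neg hf) (pt_pos hf) (fun a => by simp only; omega)

@[fun_prop] theorem pt_intMul {f g : α → ℤ} (hf : PT f) (hg : PT g) : PT (fun a => f a * g a) :=
  pt_diff (pt_binAdd (pt_binMul (pt_pos hf) (pt_pos hg)) (pt_binMul (pt_neg hf) (pt_neg hg)))
    (pt_binAdd (pt_binMul (pt_pos hf) (pt_neg hg)) (pt_binMul (pt_neg hf) (pt_pos hg)))
    (fun a => by
      simp only [Bin.add, Bin.mul]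
      push_cast
      conv_lhs => rw [← Int.toNat_sub_toNat_neg (f a), ← Int.toNat_sub_toNat_neg (g a)]
      ring)

@[fun_prop] theorem pt_intLt {f g : α → ℤ} {i : ∀ a, Decidable (f a < g a)} (hf : PT f)
    (hg : PT g) : PT (fun a => @decide (f a < g a) (i a)) :=
  (pt_binLt (i := fun _ => inferInstance) (pt_binAdd (pt_pos hf) (pt_neg hg))
    (pt_binAdd (pt_neg hf) (pt_pos hg))).congr (fun a => by
      simp only [Bin.add, decide_eq_decide]; omega)

@[fun_prop] theorem pt_natCast {f : α → ℕ} (hf : PT f) : PT (fun a => ((f a : ℕ) : ℤ)) :=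
  pt_diff (pt_ofUnary hf) (PT.const ⟨0⟩) (fun a => by simp)

@[fun_prop] theorem pt_two_pow {f : α → ℕ} (hf : PT f) : PT (fun a => (2 : ℤ) ^ f a) := by
  have key : ∀ i : ℕ, (Bin.bit false)^[i] ⟨1⟩ = ⟨2 ^ i⟩ := by
    intro i
    induction i with
    | zero => rfl
    | succ i ih => rw [Function.iterate_succ_apply', ih]; simp [Bin.bit, Nat.bit_val, pow_succ']
  have h1 : PT (Bin.bit false) := pt_bit (PT.const false) PT.id
  have := PT.iter h1 hf (PT.const ⟨1⟩) (hf.pb.add (PB.const 1)) (fun a i hi => by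
    rw [key]
    exact (sz_bin_le (Nat.pow_lt_pow_right (by omega) (Nat.lt_succ_self i))).trans (by omega))
  exact pt_diff this (PT.const ⟨0⟩) (fun a => by rw [key]; simp)

@[fun_prop] theorem pt_num {f : α → ℚ} (hf : PT f) : PT (fun a => (f a).num) :=
  PT.fst (f := fun a => ((f a).num, Bin.mk (f a).den)) hf

theorem pt_denB {f : α → ℚ} (hf : PT f) : PT (fun a => Bin.mk (f a).den) :=
  PT.snd (f := fun a => ((f a).num, Bin.mk (f a).den)) hf

theorem pt_den {f : α → ℚ} (hf : PT f) : PT (fun a => ((f a).den : ℤ)) :=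
  pt_diff (pt_denB hf) (PT.const ⟨0⟩) (fun a => by simp)

@[fun_prop] theorem pt_ratLt {f g : α → ℚ} {i : ∀ a, Decidable (f a < g a)} (hf : PT f)
    (hg : PT g) : PT (fun a => @decide (f a < g a) (i a)) :=
  (pt_intLt (i := fun _ => inferInstance) (pt_intMul (pt_num hf) (pt_den hg))
    (pt_intMul (pt_num hg) (pt_den hf))).congr (fun a => by
      simp only [decide_eq_decide]; exact (Rat.lt_iff _ _).symm)

theorem pt_addInt {f : α → ℚ} {g : α → ℤ} (hf : PT f) (hg : PT g) :
    PT (fun a => f a + (g a : ℚ)) :=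
  CP.congr (PT.prodMk (pt_intAdd (pt_num hf) (pt_intMul hg (pt_den hf))) (pt_denB hf)) (fun a => by
    change _ = enc ((f a + (g a : ℚ)).num, Bin.mk (f a + (g a : ℚ)).den)
    have h1 := Rat.add_intCast_den (f a) (g a)
    have h2 : (f a + (g a : ℚ)).num = (f a).num + g a * (f a).den := by
      have h3 := Rat.mul_den_eq_num (f a + (g a : ℚ))
      rw [h1, add_mul, Rat.mul_den_eq_num] at h3
      exact_mod_cast h3.symm
    rw [h1, h2])

theorem rat_sz (q : ℚ) {k : ℕ} (h : sz q ≤ k) : |(q.num : ℝ)| ≤ 2 ^ k ∧ (q.den : ℝ) ≤ 2 ^ k := by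
  have e : sz q = sz ((Bin.mk q.num.toNat, Bin.mk (-q.num).toNat), Bin.mk q.den) := rfl
  rw [e, sz_prod, sz_prod, sz_bin, sz_bin, sz_bin] at h
  have a1 : q.num.toNat < 2 ^ k := Nat.size_le.mp (by dsimp only at h; omega)
  have a2 : (-q.num).toNat < 2 ^ k := Nat.size_le.mp (by dsimp only at h; omega)
  have a3 : q.den < 2 ^ k := Nat.size_le.mp (by dsimp only at h; omega)
  have a4 : |q.num| ≤ ((2 ^ k : ℕ) : ℤ) := by rw [abs_le]; omega
  exact ⟨by exact_mod_cast a4, by exact_mod_cast a3.le⟩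

end Pool.Agent.MP_b0ee3d_lc
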