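import Mathlib
import Pool.Agent.MP_7d676c_lc.Defs
import Pool.Agent.Mg.F2e8011.G5dc239

section

/-! The arithmetic of the algorithm for PosSLP.  Large numbers are integers (binary), small
parameters are natural numbers (unary). -/

namespace Pool.Agent.MP_7d676c_lc

open Finset

/-- reduction modulo `m` (zero if `m ≤ 0`) -/
def rd (m x : ℤ) : ℤ := if 0 < m then x % m else 0

/-- modular power -/
def powMod (m b e : ℤ) : ℤ := rd m (b ^ e.toNat)

/-- digit `i` of `W` in base `2 ^ L` -/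
def dig (L i : ℕ) (W : ℤ) : ℤ := W / 2 ^ (L * i) % 2 ^ L

/-- the description of a factor -/
abbrev Spec := Bool × ℤ × ℤ

/-- the summand of a factor: `(false, z, j)` sums to `z.choose j` modulo a prime `m`,
`(true, c, _)` sums to `c` minus the number of square roots of one modulo `m` -/
def fac (m : ℤ) (s : Spec) (y : ℤ) : ℤ :=
  if y < m then
    (if s.1 = true then (if y = 0 then s.2.1 else 0) - (if y * y % m = 1 then 1 else 0)
      else -(powMod m (1 + y) s.2.1 * powMod m y (m - 1 - s.2.2)))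
  else 0

/-- the summand of a product of factors -/
def term (L : ℕ) (m : ℤ) (S : List Spec) (W : ℤ) : ℤ :=
  rd m ((List.range S.length).map fun i => fac m (S.getD i default) (dig L i W)).prod

/-- the sum of one factor, modulo `m` -/
def facSum (L m : ℕ) (s : Spec) : ZMod m := ((∑ y ∈ range (2 ^ L), fac m s (y : ℕ) : ℤ) : ZMod m)

/-- exponents `i` of the central binomial coefficients `centralBinom (2 ^ i)` in `UU` -/
def zs (a : ℕ) : List ℕ :=
  List.range (2 * a) ++ (List.range (2 * a + 1)).flatMap fun _ => List.range (a + 1)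

/-- the numerator -/
def UU (a : ℕ) : ℕ := ((zs a).map fun i => Nat.centralBinom (2 ^ i)).prod

/-- factors for `UU` -/
def uS (a : ℕ) : List Spec := (zs a).map fun i => (false, 2 ^ (i + 1), 2 ^ i)

/-- factors for the indicator of primes -/
def indS (a : ℕ) : List Spec :=
  ((List.range (6 * a - 2)).map fun j => (true, 2 ^ (j + 2), 0)) ++
    List.replicate (6 * a) (false, 0, 0)

/-- the value of the indicator at primes -/
def KK (a : ℕ) : ℤ := ((List.range (6 * a - 2)).map fun j => (2 : ℤ) ^ (j + 2) - 2).prod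

/-- all factors for the modulus `m` -/
def aS (a : ℕ) (n m : ℤ) : List Spec := (false, n, 2 * n - m) :: (uS a ++ indS a)

/-- the number of bits of a witness -/
def wl (a : ℕ) : ℕ := 6 * a * ((uS a).length + (indS a).length + 2)

/-- numerators of the fractions; the denominator is `V % 2 ^ (6 * a)` -/
def aa (nm : ℤ → ℤ) (a : ℕ) (n V : ℤ) : ℤ :=
  if V % 2 ^ (6 * a) % 2 = 1 ∧ n < V % 2 ^ (6 * a) ∧ 2 ^ (2 * a) < V % 2 ^ (6 * a) ∧
      V % 2 ^ (6 * a) ≤ 2 * n then
    rd (V % 2 ^ (6 * a)) ((2 * nm (V % 2 ^ (6 * a)) - 1) * n * (if n % 2 = 0 then -1 else 1) *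
      term (6 * a) (V % 2 ^ (6 * a)) (aS a n (V % 2 ^ (6 * a))) (V / 2 ^ (6 * a)))
  else 0

/-- summand of the approximation -/
def vF (nm : ℤ → ℤ) (a : ℕ) (n V : ℤ) : ℤ :=
  2 ^ (wl a + 4) * aa nm a n V / (V % 2 ^ (6 * a))

/-- summand of the sum of fractions modulo `q` -/
def vX (nm : ℤ → ℤ) (a : ℕ) (n q V : ℤ) : ℤ :=
  rd q (aa nm a n V * powMod q (V % 2 ^ (6 * a)) (q - 2))

/-- summand of the number of proper divisors -/
def vP (q d : ℤ) : ℤ := if 1 < d ∧ d < q ∧ q % d = 0 then 1 else 0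

/-- approximation of `2 ^ (wl a + 4)` times the sum of fractions -/
def FF (nm : ℤ → ℤ) (a : ℕ) (n : ℤ) : ℤ := ∑ V ∈ range (2 ^ wl a), vF nm a n (V : ℕ)

/-- the sum of fractions modulo `q` -/
def XX (nm : ℤ → ℤ) (a : ℕ) (n q : ℤ) : ℤ := ∑ V ∈ range (2 ^ wl a), vX nm a n q (V : ℕ)

/-- `UU` modulo `q` -/
def Ub (a : ℕ) (q : ℤ) : ℤ :=
  ∑ W ∈ range (2 ^ (6 * a * (uS a).length)), term (6 * a) q (uS a) (W : ℕ)

/-- the central binomial coefficient modulo `q` -/
def Cb (a : ℕ) (n q : ℤ) : ℤ :=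
  ∑ W ∈ range (2 ^ (6 * a)), term (6 * a) q [(false, 2 * n, n)] (W : ℕ)

/-- the number of proper divisors -/
def Pr (a : ℕ) (q : ℤ) : ℤ := ∑ d ∈ range (2 ^ (6 * a)), vP q (d : ℕ)

/-- rounding -/
def rr (a : ℕ) (F : ℤ) : ℤ := (F + 2 ^ (wl a + 3)) / 2 ^ (wl a + 4)

/-- the check at one candidate `q` -/
def chk (nm : ℤ → ℤ) (a : ℕ) (n q : ℤ) : Bool :=
  decide (Pr a q = 0 ∧ 3 * 2 ^ (2 * a) < q →
    ((2 * nm q - 1) * KK a * Ub a q + Cb a n q * (rr a (FF nm a n) - XX nm a n q)) % q = 0)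

/-- the randomized test -/
def test (nm : ℤ → ℤ) (a : ℕ) (ρ n : ℤ) : Bool :=
  (List.range (24 * a)).all fun i => chk nm a n (dig (6 * a) i ρ)

/-- one step of binary search -/
def bs (nm : ℤ → ℤ) (a : ℕ) (ρ : ℤ) (s : ℤ × ℤ) : ℤ × ℤ :=
  (if test nm a ρ (s.1 + s.2 / 2) = true then s.1 else s.1 + s.2 / 2, s.2 / 2)

/-- the end point of the binary search -/
def endp (nm : ℤ → ℤ) (a : ℕ) (ρ : ℤ) : ℤ :=
  ((bs nm a ρ)^[2 * a] (2 ^ (2 * a - 1), 2 ^ (2 * a))).1 + 1

/-- the output -/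
def out (nm : ℤ → ℤ) (a : ℕ) (ρ : ℤ) : Bool :=
  decide (rr a (FF nm a (endp nm a ρ)) * 2 ^ (wl a + 4) ≤ FF nm a (endp nm a ρ))

/-- the primes of the denominator -/
def PS (a n : ℕ) : Finset ℕ := (Ioc (max n (2 ^ (2 * a))) (2 * n)).filter Nat.Prime

/-- the sum of fractions -/
def xx (nm : ℤ → ℤ) (a : ℕ) (n : ℤ) : ℚ :=
  ∑ V ∈ range (2 ^ wl a), (aa nm a n (V : ℕ) : ℚ) / ((V % 2 ^ (6 * a) : ℕ) : ℚ)

/-- the scaled number -/
def th (N : ℤ) (a n : ℕ) : ℚ := (((2 * N - 1) * KK a * UU a : ℤ) : ℚ) / (Nat.centralBinom n : ℚ)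

/-- the integer that is tested for zero -/
def QQ (N : ℤ) (nm : ℤ → ℤ) (a n : ℕ) : ℚ := th N a n - xx nm a n + (rr a (FF nm a n) : ℚ)

/-- `nm` computes the residues of `N` -/
def Res (N : ℤ) (nm : ℤ → ℤ) : Prop := ∀ m : ℤ, 0 < m → nm m ≡ N [ZMOD m]

/-- evaluation of a program modulo `m` -/
def evalMod (P : List (ℕ × ℕ × ℕ)) (m : ℤ) : ℤ :=
  (P.foldl (fun vs g => vs ++ [rd m (gateVal vs g)]) []).getLastD 0

theorem rd_nonneg (m x : ℤ) : 0 ≤ rd m x := by
  unfold rd
  split_ifs with h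
  · exact Int.emod_nonneg _ h.ne'
  · exact le_rfl

theorem rd_lt {m : ℤ} (h : 0 < m) (x : ℤ) : rd m x < m := by
  rw [rd, if_pos h]; exact Int.emod_lt_of_pos _ h

theorem rd_le_abs (m x : ℤ) : rd m x ≤ |m| := by
  by_cases h : 0 < m
  · exact (rd_lt h x).le.trans (le_abs_self m)
  · rw [rd, if_neg h]; exact abs_nonneg m

theorem rd_modEq {m : ℤ} (h : 0 < m) (x : ℤ) : rd m x ≡ x [ZMOD m] := by
  rw [rd, if_pos h]; exact Int.mod_modEq x m

theorem cast_rd {m : ℕ} (h : 0 < m) (x : ℤ) : ((rd m x : ℤ) : ZMod m) = x :=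
  (ZMod.intCast_eq_intCast_iff _ _ _).2 (rd_modEq (by exact_mod_cast h) x)

theorem cast_powMod {m : ℕ} (h : 0 < m) (b : ℤ) (e : ℕ) :
    ((powMod m b e : ℤ) : ZMod m) = (b : ZMod m) ^ e := by
  rw [powMod, cast_rd h]; simp

theorem length_aS (a : ℕ) (n m : ℤ) :
    (aS a n m).length = (uS a).length + (indS a).length + 1 := by simp [aS]

theorem wl_eq (a : ℕ) (n m : ℤ) : wl a = 6 * a + 6 * a * (aS a n m).length := by
  rw [length_aS, wl]; ring

end Pool.Agent.MP_7d676c_lc

end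

section

/-! Polynomial-time integer arithmetic (integers are binary, natural numbers unary). -/

namespace Pool.Agent.MP_7d676c_lc

open Pool.Agent.MP_2e8011_lc Pool.Agent.MP_a6d740_lc Pool.Agent.MP_b0ee3d_lc

variable {α β : Type} [Enc α] [Enc β]

theorem sz_int_Arith (z : ℤ) : sz z = 2 * z.toNat.size + 1 + (-z).toNat.size := by
  have e : sz z = sz (Bin.mk z.toNat, Bin.mk (-z).toNat) := rfl
  rw [e, sz_prod, sz_bin, sz_bin]

theorem sz_int_le {z : ℤ} {k : ℕ} (h : |z| ≤ 2 ^ k) : sz z ≤ 3 * k + 4 := by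
  have h1 : (2 : ℤ) ^ k = ((2 ^ k : ℕ) : ℤ) := by push_cast; rfl
  have h2 : 0 < 2 ^ k := Nat.two_pow_pos k
  rw [h1, abs_le] at h
  have a1 : z.toNat.size ≤ k + 1 := Nat.size_le.mpr (by rw [pow_succ]; omega)
  have a2 : (-z).toNat.size ≤ k + 1 := Nat.size_le.mpr (by rw [pow_succ]; omega)
  rw [sz_int_Arith]
  omega

theorem abs_lt_sz (z : ℤ) : |z| < 2 ^ sz z := by
  have a1 : z.toNat < 2 ^ sz z := Nat.size_le.mp (by rw [sz_int_Arith]; omega)
  have a2 : (-z).toNat < 2 ^ sz z := Nat.size_le.mp (by rw [sz_int_Arith]; omega)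
  have h1 : (2 : ℤ) ^ sz z = ((2 ^ sz z : ℕ) : ℤ) := by push_cast; rfl
  rw [h1, abs_lt]
  omega

@[fun_prop] theorem pt_take [Inhabited β] {l : α → List β} {n : α → ℕ} (hn : PT n) (hl : PT l) :
    PT (fun a => (l a).take (n a)) := by
  refine (PT.drop (hl.length.sub hn) hl.reverse).reverse.congr fun a => ?_
  rw [List.drop_reverse, List.reverse_reverse, List.take_eq_take_iff]
  omega

@[fun_prop] theorem pt_getLastD [Inhabited β] {l : α → List β} {d : α → β} (hl : PT l)
    (hd : PT d) : PT (fun a => (l a).getLastD (d a)) := by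
  refine (hl.reverse.headD hd).congr fun a => ?_
  rw [List.headD_eq_head?_getD, List.head?_reverse, List.getLastD_eq_getLast?]

@[fun_prop] theorem pt_valZ {l : α → List Bool} (hl : PT l) : PT (fun a => (valL (l a) : ℤ)) := by
  have key : ∀ m : List Bool, m.foldr Bin.bit ⟨0⟩ = ⟨valL m⟩ := by
    intro m
    induction m with
    | nil => rfl
    | cons b m ih => rw [List.foldr_cons, ih]; rfl
  have := pt_foldr (f := fun _ => Bin.bit) (by fun_prop) hl (PT.const (⟨0⟩ : Bin)) hl.pb_length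
    (fun a k => by
      rw [key]
      exact (sz_bin_le (valL_lt _)).trans (by simp))
  exact pt_diff this (PT.const ⟨0⟩) fun a => by rw [key]; simp

@[fun_prop] theorem pt_intLe {f g : α → ℤ} {i : ∀ a, Decidable (f a ≤ g a)} (hf : PT f)
    (hg : PT g) : PT (fun a => @decide (f a ≤ g a) (i a)) := by
  exact (pt_intLt (i := fun _ => inferInstance) hg hf).not.congr fun a => by
    by_cases h : f a ≤ g a
    · simp [h]
    · simp [h, not_le.mp h]

/-- one step of long division -/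
def divStep_Arith (d : ℤ) (b : Bool) (s : ℤ × ℤ) : ℤ × ℤ :=
  if d ≤ 2 * s.2 + (bif b then 1 else 0) then (2 * s.1 + 1, 2 * s.2 + (bif b then 1 else 0) - d)
  else (2 * s.1, 2 * s.2 + (bif b then 1 else 0))

theorem foldr_divStep_Arith {d : ℤ} (hd : 0 < d) (l : List Bool) :
    l.foldr (divStep_Arith d) (0, 0) = ((valL l : ℤ) / d, (valL l : ℤ) % d) := by
  induction l with
  | nil => simp
  | cons b l ih =>
    rw [List.foldr_cons, ih, valL_cons, divStep_Arith]
    have h1 := Int.emod_add_mul_ediv (valL l : ℤ) d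
    have h2 := Int.emod_nonneg (valL l : ℤ) hd.ne'
    have h3 := Int.emod_lt_of_pos (valL l : ℤ) hd
    have h4 : (bif b then 1 else 0 : ℤ) = b.toNat := by cases b <;> rfl
    have h5 : b.toNat ≤ 1 := Bool.toNat_le b
    rw [h4]
    push_cast
    split_ifs with h
    · refine (Prod.ext_iff.mpr ((Int.ediv_emod_unique hd).mpr ⟨?_, ?_, ?_⟩)).symm
      · dsimp only
        linear_combination 2 * h1
      · dsimp only at h ⊢
        omega
      · dsimp only
        omega
    · refine (Prod.ext_iff.mpr ((Int.ediv_emod_unique hd).mpr ⟨?_, ?_, ?_⟩)).symm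
      · dsimp only
        linear_combination 2 * h1
      · dsimp only
        omega
      · dsimp only at h ⊢
        omega

theorem pt_divPos_Arith {x d : α → ℤ} (hx : PT x) (hd : PT d) (h : ∀ a, 0 < d a) :
    PT (fun a => ((x a).toNat : ℤ) / d a) := by
  have hb := pt_binBits (pt_pos hx)
  have := pt_foldr (f := fun a => divStep_Arith (d a)) (by unfold divStep_Arith; fun_prop) hb
    (PT.const ((0, 0) : ℤ × ℤ)) (B := fun a => 9 * (x a).toNat.bits.length + 13)
    (((PB.const 9).mul hb.pb_length).add (PB.const 13)) (fun a k => by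
      rw [foldr_divStep_Arith (h a), sz_prod]
      set l := (x a).toNat.bits.drop k
      have h1 : l.length ≤ (x a).toNat.bits.length := by simp [l]
      have h2 : (valL l : ℤ) ≤ 2 ^ l.length := by exact_mod_cast (valL_lt l).le
      have h3 : (0 : ℤ) ≤ valL l := Int.natCast_nonneg _
      have h4 : sz ((valL l : ℤ) / d a) ≤ 3 * l.length + 4 := sz_int_le (by
        rw [abs_of_nonneg (Int.ediv_nonneg h3 (h a).le)]
        exact (Int.ediv_le_self _ h3).trans h2)
      have h5 : sz ((valL l : ℤ) % d a) ≤ 3 * l.length + 4 := sz_int_le (by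
        rw [abs_of_nonneg (Int.emod_nonneg _ (h a).ne'), Int.emod_def]
        have := mul_nonneg (h a).le (Int.ediv_nonneg h3 (h a).le)
        omega)
      omega)
  exact this.fst.congr fun a => by rw [foldr_divStep_Arith (h a), valL_bits]

@[fun_prop] theorem pt_ediv {f g : α → ℤ} (hf : PT f) (hg : PT g) : PT (fun a => f a / g a) := by
  have hD : PT (fun a => if 0 < g a then g a else if g a < 0 then -g a else 1) := by fun_prop
  have h0 : ∀ a, 0 < (if 0 < g a then g a else if g a < 0 then -g a else 1) := fun a => by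
    split_ifs <;> omega
  have h1 := pt_divPos_Arith hf hD h0
  have h2 := pt_divPos_Arith (x := fun a => -f a - 1) (by fun_prop) hD h0
  have h3 : PT (fun a => f a / (if 0 < g a then g a else if g a < 0 then -g a else 1)) := by
    refine (PT.ite (p := fun a => f a < 0) (i := fun _ => inferInstance) (by fun_prop)
      (pt_intNeg (pt_intAdd h2 (PT.const 1))) h1).congr fun a => ?_
    by_cases h : f a < 0
    · rw [if_pos h, Int.toNat_of_nonneg (by omega)]
      exact (Int.ediv_of_neg_of_pos h (h0 a)).symm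
    · rw [if_neg h, Int.toNat_of_nonneg (by omega)]
  refine (PT.ite (p := fun a => 0 < g a) (i := fun _ => inferInstance) (by fun_prop) h3
    (PT.ite (p := fun a => g a < 0) (i := fun _ => inferInstance) (by fun_prop) (pt_intNeg h3)
      (PT.const 0))).congr fun a => ?_
  by_cases h : 0 < g a
  · simp only [if_pos h]
  · by_cases h' : g a < 0
    · simp only [if_neg h, if_pos h', Int.ediv_neg, neg_neg]
    · rw [if_neg h, if_neg h', show g a = 0 by omega, Int.ediv_zero]

@[fun_prop] theorem pt_emod {f g : α → ℤ} (hf : PT f) (hg : PT g) : PT (fun a => f a % g a) := by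
  exact (pt_intSub hf (pt_intMul hg (pt_ediv hf hg))).congr fun a => (Int.emod_def _ _).symm

@[fun_prop] theorem pt_rd {f g : α → ℤ} (hf : PT f) (hg : PT g) :
    PT (fun a => rd (f a) (g a)) := by
  unfold rd
  fun_prop

/-- one step of modular exponentiation -/
def powStep_Arith (m x : ℤ) (b : Bool) (s : ℤ) : ℤ := rd m (s * s * bif b then x else 1)

theorem foldr_powStep_Arith (m x : ℤ) (l : List Bool) :
    l.foldr (powStep_Arith m x) (rd m 1) = rd m (x ^ valL l) := by
  induction l with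
  | nil => simp
  | cons b l ih =>
    rw [List.foldr_cons, ih, valL_cons, powStep_Arith]
    by_cases h : 0 < m
    · have e : (bif b then x else 1) = x ^ b.toNat := by cases b <;> simp
      have := ((rd_modEq h (x ^ valL l)).mul (rd_modEq h (x ^ valL l))).mul_right (x ^ b.toNat)
      rw [e, pow_add, two_mul, pow_add, rd, if_pos h, rd.eq_def m (_ * _ * _), if_pos h]
      exact this
    · simp only [rd, if_neg h]

@[fun_prop] theorem pt_powMod {m b e : α → ℤ} (hm : PT m) (hb : PT b) (he : PT e) :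
    PT (fun a => powMod (m a) (b a) (e a)) := by
  have := pt_foldr (f := fun a => powStep_Arith (m a) (b a)) (by unfold powStep_Arith; fun_prop)
    (pt_binBits (pt_pos he)) (pt_rd hm (PT.const 1)) (B := fun a => 3 * sz (m a) + 4)
    (((PB.const 3).mul hm.pb_sz).add (PB.const 4)) (fun a k => by
      rw [foldr_powStep_Arith]
      refine sz_int_le ?_
      rw [abs_of_nonneg (rd_nonneg _ _)]
      exact (rd_le_abs _ _).trans (abs_lt_sz _).le)
  exact this.congr fun a => by rw [foldr_powStep_Arith, valL_bits]; rfl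

@[fun_prop] theorem pt_listProd {l : α → List ℤ} (hl : PT l) : PT (fun a => (l a).prod) := by
  have key : ∀ m : List ℤ, |m.prod| ≤ 2 ^ sz m := by
    intro m
    induction m with
    | nil => simp
    | cons z m ih =>
      rw [List.prod_cons, abs_mul, sz_cons, pow_add]
      exact mul_le_mul ((abs_lt_sz z).le.trans (pow_le_pow_right₀ (by norm_num) (by omega))) ih
        (abs_nonneg _) (by positivity)
  exact pt_foldr (f := fun _ (x y : ℤ) => x * y) (by fun_prop) hl (PT.const 1)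
    (B := fun a => 3 * sz (l a) + 4) (((PB.const 3).mul hl.pb_sz).add (PB.const 4)) fun a k =>
      sz_int_le ((key _).trans (pow_le_pow_right₀ (by norm_num) (sz_drop_le _ _)))

@[fun_prop] theorem pt_dig {L i : α → ℕ} {W : α → ℤ} (hL : PT L) (hi : PT i) (hW : PT W) :
    PT (fun a => dig (L a) (i a) (W a)) := by
  unfold dig
  fun_prop

end Pool.Agent.MP_7d676c_lc

end

section

/-! Functions computable in polynomial time with an oracle: closure properties. -/

namespace Pool.Agent.MP_7d676c_lc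

open Pool.Agent.MP_2e8011_lc Pool.Agent.MP_a6d740_lc

section answers

variable {Y Z : Type} {A : List Bool → Bool}

theorem answers_succ (Q : Y × List Bool → List Bool) (y : Y) (n : ℕ) :
    answers A Q y (n + 1) = answers A Q y n ++ [A (Q (y, answers A Q y n))] := rfl

@[simp] theorem length_answers (Q : Y × List Bool → List Bool) (y : Y) (n : ℕ) :
    (answers A Q y n).length = n := by
  induction n with
  | zero => rfl
  | succ n ih => simp [answers_succ, ih]

theorem take_answers (Q : Y × List Bool → List Bool) (y : Y) {m n : ℕ} (h : m ≤ n) :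
    (answers A Q y n).take m = answers A Q y m := by
  induction n, h using Nat.le_induction with
  | base => exact List.take_of_length_le (by simp)
  | succ n h ih => rw [answers_succ, List.take_append_of_le_length (by simpa using h), ih]

theorem answers_pre (Q : Y × List Bool → List Bool) (g : Z → Y) (z : Z) (n : ℕ) :
    answers A (fun p : Z × List Bool => Q (g p.1, p.2)) z n = answers A Q (g z) n := by
  induction n with
  | zero => rfl
  | succ n ih => rw [answers_succ, answers_succ, ih]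

end answers

theorem sz_bits (l : List Bool) : sz l = 3 * l.length := by
  induction l with
  | nil => rfl
  | cons b l ih => simp [ih]; omega

variable {Y Z β δ ε : Type} [Enc Y] [Enc Z] [Enc β] [Enc δ] [Enc ε] {A : List Bool → Bool}

/-- Computable in polynomial time with the oracle `A`. -/
def OC (A : List Bool → Bool) (f : Y → δ) : Prop :=
  ∃ (Q : Y × List Bool → List Bool) (D : Y × List Bool → δ) (p : Polynomial ℕ), PT Q ∧ PT D ∧
    ∀ y n, p.eval (sz y) ≤ n → D (y, answers A Q y n) = f y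

theorem OC.of_pb {f : Y → δ} (Q : Y × List Bool → List Bool) (D : Y × List Bool → δ)
    (t : Y → ℕ) (hQ : PT Q) (hD : PT D) (ht : PB t)
    (h : ∀ y n, t y ≤ n → D (y, answers A Q y n) = f y) : OC A f := by
  obtain ⟨p, hp⟩ := ht
  exact ⟨Q, D, p, hQ, hD, fun y n hn => h y n ((hp y).trans hn)⟩

theorem OC.congr {f g : Y → δ} (hf : OC A f) (e : ∀ y, f y = g y) : OC A g := by
  rwa [← funext e]

theorem OC.pure {f : Y → δ} (hf : PT f) : OC A f :=
  ⟨fun _ => [], fun p => f p.1, 0, by fun_prop, by fun_prop, fun _ _ _ => rfl⟩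

theorem OC.query {q : Y → List Bool} (hq : PT q) : OC A (fun y => A (q y)) := by
  refine ⟨fun p => q p.1, fun p => (p.2.take 1).headD false, 1, by fun_prop, by fun_prop,
    fun y n hn => ?_⟩
  simp only
  rw [take_answers _ _ (by simpa using hn)]
  rfl

theorem OC.pre {f : Y → δ} (hf : OC A f) {g : Z → Y} (hg : PT g) : OC A (fun z => f (g z)) := by
  obtain ⟨Q, D, p, hQ, hD, h⟩ := hf
  refine OC.of_pb (fun p => Q (g p.1, p.2)) (fun p => D (g p.1, p.2)) (fun z => p.eval (sz (g z)))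
    (by fun_prop) (by fun_prop) (PB.eval p hg.pb_sz) (fun z n hn => ?_)
  rw [answers_pre]
  exact h _ _ hn

theorem OC.pb_sz {f : Y → δ} (hf : OC A f) : PB (fun y => sz (f y)) := by
  obtain ⟨Q, D, p, -, hD, h⟩ := hf
  obtain ⟨q, hq⟩ := hD.pb_sz
  refine (PB.eval q ((((PB.const 2).mul PB.sz).add (PB.const 1)).add
    ((PB.const 3).mul (PB.eval p PB.sz)))).mono (fun y => ?_)
  rw [← h y _ le_rfl]
  refine (hq _).trans (le_of_eq ?_)
  rw [sz_prod, sz_bits, length_answers]

theorem OC.bind {u : Y → δ} {v : Y × δ → ε} (hu : OC A u) (hv : OC A v) :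
    OC A (fun y => v (y, u y)) := by
  have hs := hu.pb_sz
  obtain ⟨Q, D, p, hQ, hD, h⟩ := hu
  obtain ⟨Q', D', p', hQ', hD', h'⟩ := hv
  let T : Y → ℕ := fun y => p.eval (sz y)
  have hT : PT T := PT.eval p PT.id.sz
  let R : Y × List Bool → List Bool := fun x =>
    if x.2.length < T x.1 then Q x else Q' ((x.1, D (x.1, x.2.take (T x.1))), x.2.drop (T x.1))
  have h1 : ∀ y k, k ≤ T y → answers A R y k = answers A Q y k := by
    intro y k hk
    induction k with
    | zero => rfl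
    | succ k ih =>
      rw [answers_succ, answers_succ, ih (by omega)]
      simp only [R, length_answers]
      rw [if_pos (by omega)]
  have h2 : ∀ y k, answers A R y (T y + k) =
      answers A Q y (T y) ++ answers A Q' (y, u y) k := by
    intro y k
    induction k with
    | zero => simp [h1 y _ le_rfl, answers]
    | succ k ih =>
      rw [← add_assoc, answers_succ, answers_succ, ih, List.append_assoc]
      simp only [R, List.length_append, length_answers]
      rw [if_neg (by omega), List.take_left' (by simp), List.drop_left' (by simp), h y _ le_rfl]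
  refine OC.of_pb R (fun x => D' ((x.1, D (x.1, x.2.take (T x.1))), x.2.drop (T x.1)))
    (fun y => T y + p'.eval (2 * sz y + 1 + sz (u y))) (by fun_prop) (by fun_prop)
    (hT.pb.add (PB.eval p' ((((PB.const 2).mul PB.sz).add (PB.const 1)).add hs)))
    (fun y n hn => ?_)
  obtain ⟨k, rfl⟩ := Nat.exists_eq_add_of_le ((Nat.le_add_right _ _).trans hn)
  simp only [h2]
  rw [List.take_left' (by simp), List.drop_left' (by simp), h y _ le_rfl]
  exact h' _ _ (by rw [sz_prod]; omega)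

theorem OC.post {u : Y → δ} (hu : OC A u) {v : Y × δ → ε} (hv : PT v) :
    OC A (fun y => v (y, u y)) := hu.bind (OC.pure hv)

theorem OC.comp {g : δ → ε} {f : Y → δ} (hg : OC A g) (hf : OC A f) : OC A (fun y => g (f y)) :=
  hf.bind (v := fun p => g p.2) (hg.pre (by fun_prop))

theorem OC.pair {f : Y → δ} {g : Y → ε} (hf : OC A f) (hg : OC A g) :
    OC A (fun y => (f y, g y)) :=
  hf.bind (v := fun p => (p.2, g p.1))
    ((hg.pre (g := fun p : Y × δ => p.1) (by fun_prop)).post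
      (v := fun q : (Y × δ) × ε => (q.1.2, q.2)) (by fun_prop))

theorem OC.iter {g : Y → δ → δ} (hg : OC A (fun p : Y × δ => g p.1 p.2)) {n : Y → ℕ} (hn : PT n)
    {s : Y → δ} (hs : PT s) {B : Y → ℕ} (hB : PB B)
    (hb : ∀ y, ∀ i ≤ n y, sz ((g y)^[i] (s y)) ≤ B y) :
    OC A (fun y => (g y)^[n y] (s y)) := by
  obtain ⟨Q, D, p, hQ, hD, h⟩ := hg
  obtain ⟨q, hq⟩ := hB
  let C : Y → ℕ := fun y => q.eval (sz y)
  have hC : PT C := PT.eval q PT.id.sz
  let T : Y → ℕ := fun y => p.eval (2 * sz y + 1 + C y) + 1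
  have hT : PT T := by
    have : PT (fun y : Y => sz y) := PT.id.sz
    fun_prop
  have hT0 : ∀ y, 0 < T y := fun y => Nat.succ_pos _
  let st : Y → δ × List Bool → Bool → δ × List Bool := fun y x b =>
    if (x.2 ++ [b]).length < T y then (x.1, x.2 ++ [b])
    else (if sz (D ((y, x.1), x.2 ++ [b])) ≤ C y then D ((y, x.1), x.2 ++ [b]) else s y, [])
  have hst : PT (fun x : Y × (δ × List Bool) × Bool => st x.1 x.2.1 x.2.2) := by
    simp only [st]
    fun_prop
  have hinv : ∀ y (l : List Bool) (x : δ × List Bool), sz x.1 ≤ C y → x.2.length < T y →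
      sz (l.foldl (st y) x).1 ≤ C y ∧ (l.foldl (st y) x).2.length < T y := by
    intro y l
    induction l with
    | nil => intro x h1 h2; exact ⟨h1, h2⟩
    | cons b l ih =>
      intro x h1 h2
      rw [List.foldl_cons]
      have h0 : sz (s y) ≤ C y := (hb y 0 (Nat.zero_le _)).trans (hq y)
      apply ih
      · simp only [st]
        split_ifs <;> assumption
      · simp only [st]
        split_ifs
        · assumption
        · exact hT0 y
        · exact hT0 y
  let run : Y × List Bool → δ × List Bool := fun x => x.2.foldl (st x.1) (s x.1, [])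
  have hrun : PT run := by
    refine PT.foldl (f := fun x : Y × List Bool => st x.1) ?_ (by fun_prop) (by fun_prop)
      (B := fun x => 2 * C x.1 + 1 + 3 * T x.1) (PT.pb (by fun_prop)) (fun x k => ?_)
    · exact hst.comp (f := fun z : (Y × List Bool) × (δ × List Bool) × Bool => (z.1.1, z.2))
        (by fun_prop)
    · have := hinv x.1 (x.2.take k) (s x.1, []) ((hb _ 0 (Nat.zero_le _)).trans (hq _)) (hT0 _)
      rw [← Prod.mk.eta (p := List.foldl _ _ _), sz_prod, sz_bits]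
      omega
  let R : Y × List Bool → List Bool := fun x => Q ((x.1, (run x).1), (run x).2)
  have hstep : ∀ y k, run (y, answers A R y (k + 1)) = st y (run (y, answers A R y k))
      (A (Q ((y, (run (y, answers A R y k)).1), (run (y, answers A R y k)).2))) := by
    intro y k
    simp only [run, answers_succ, List.foldl_append, List.foldl_cons, List.foldl_nil, R]
  have h1 : ∀ y k c, run (y, answers A R y k) = (c, []) → ∀ j < T y,
      run (y, answers A R y (k + j)) = (c, answers A Q (y, c) j) := by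
    intro y k c hc j hj
    induction j with
    | zero => exact hc
    | succ j ih =>
      rw [← add_assoc, hstep, ih (by omega)]
      simp only [st, ← answers_succ, length_answers]
      rw [if_pos hj]
  have h2 : ∀ y, ∀ i ≤ n y, run (y, answers A R y (i * T y)) = ((g y)^[i] (s y), []) := by
    intro y i hi
    induction i with
    | zero => simp [run, answers]
    | succ i ih =>
      have e : (i + 1) * T y = i * T y + (T y - 1) + 1 := by
        have := hT0 y
        rw [add_mul]; omega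
      have hb1 := (hb y i (by omega)).trans (hq y)
      have hb2 := (hb y (i + 1) hi).trans (hq y)
      rw [e, hstep, h1 y _ _ (ih (by omega)) _ (by have := hT0 y; omega)]
      have e2 := h (y, (g y)^[i] (s y)) (T y - 1 + 1) (by
        rw [sz_prod]
        exact (eval_mono p (by simp only [C]; omega)).trans
          (show p.eval (2 * sz y + 1 + C y) ≤ T y - 1 + 1 by simp only [T]; omega))
      rw [Function.iterate_succ_apply'] at hb2 ⊢
      simp only [st, ← answers_succ, length_answers, e2]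
      rw [if_neg (by have := hT0 y; omega), if_pos hb2]
  refine OC.of_pb R (fun x => (run (x.1, x.2.take (n x.1 * T x.1))).1) (fun y => n y * T y)
    (by fun_prop) (by fun_prop) (hn.pb.mul hT.pb) (fun y k hk => ?_)
  simp only
  rw [take_answers _ _ hk, h2 y _ le_rfl]

theorem OC.map [Inhabited β] [Inhabited δ] {f : Y → β → δ}
    (hf : OC A (fun p : Y × β => f p.1 p.2)) {l : Y → List β} (hl : PT l) :
    OC A (fun y => (l y).map (f y)) := by
  obtain ⟨q, hq⟩ := hf.pb_sz
  let g : Y → List β × List δ → List β × List δ := fun y x =>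
    (x.1.tail, x.2 ++ [f y (x.1.headD default)])
  have key : ∀ y, ∀ i ≤ (l y).length,
      (g y)^[i] (l y, []) = ((l y).drop i, ((l y).take i).map (f y)) := by
    intro y i hi
    induction i with
    | zero => rfl
    | succ i ih =>
      rw [Function.iterate_succ_apply', ih (by omega)]
      simp only [g, List.tail_drop]
      rw [List.take_add_one, List.map_append, List.headD_eq_head?_getD, List.head?_drop,
        List.getElem?_eq_getElem (by omega)]
      rfl
  have hg : OC A (fun p : Y × List β × List δ => g p.1 p.2) :=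
    (hf.pre (g := fun p : Y × List β × List δ => (p.1, p.2.1.headD default)) (by fun_prop)).post
      (v := fun z : (Y × List β × List δ) × δ => (z.1.2.1.tail, z.1.2.2 ++ [z.2])) (by fun_prop)
  have := OC.iter hg hl.length (s := fun y => (l y, [])) (by fun_prop)
    (B := fun y => 2 * sz (l y) + 1 + (l y).length * (2 * q.eval (2 * sz y + 1 + sz (l y)) + 1))
    ((((PB.const 2).mul hl.pb_sz).add (PB.const 1)).add (hl.pb_length.mul
      (((PB.const 2).mul (PB.eval q ((((PB.const 2).mul PB.sz).add (PB.const 1)).add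
        hl.pb_sz))).add (PB.const 1))))
    (fun y i hi => by
      rw [key y i hi, sz_prod]
      have h1 := sz_drop_le (l y) i
      have h2 := sz_le_of_forall (l := ((l y).take i).map (f y))
        (B := q.eval (2 * sz y + 1 + sz (l y))) (fun c hc => by
          obtain ⟨b, hb, rfl⟩ := List.mem_map.1 hc
          refine (hq (y, b)).trans (eval_mono q ?_)
          have := sz_le_of_mem (List.mem_of_mem_take hb)
          rw [sz_prod]; omega)
      have h3 : (((l y).take i).map (f y)).length ≤ (l y).length := by simp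
      have h4 := Nat.mul_le_mul_right (2 * q.eval (2 * sz y + 1 + sz (l y)) + 1) h3
      omega)
  refine (this.post (v := fun z => z.2.2) (by fun_prop)).congr (fun y => ?_)
  simp only
  rw [key y _ le_rfl, List.take_length]

theorem OC.all [Inhabited β] {f : Y → β → Bool}
    (hf : OC A (fun p : Y × β => f p.1 p.2)) {l : Y → List β} (hl : PT l) :
    OC A (fun y => (l y).all (f y)) :=
  ((hf.map hl).post (v := fun z => z.2.all (fun b => b)) (by fun_prop)).congr
    (fun y => by simp only [List.all_map]; rfl)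

theorem OC.mem_BPPrel {L : List Bool → Bool} {alg : List Bool × List Bool → Bool} (h : OC A alg)
    (p : Polynomial ℕ) (hp : ∀ x, 2 * 2 ^ p.eval x.length ≤ 3 * (Finset.univ.filter
      fun r : Fin (p.eval x.length) → Bool => alg (x, List.ofFn r) = L x).card) :
    L ∈ BPPrel A := by
  obtain ⟨Q, D, q, hQ, hD, h⟩ := h
  have ab := agree_list agree_bool
  refine ⟨p, q.comp (6 * Polynomial.X + 1 + 3 * p), Q, D,
    hQ.isPolyTime (agree_prod (agree_prod ab ab) ab) ab,
    hD.isPolyTime (agree_prod (agree_prod ab ab) ab) agree_bool, fun x => ?_⟩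
  have e : ∀ r : Fin (p.eval x.length) → Bool,
      D ((x, List.ofFn r), answers A Q (x, List.ofFn r)
        ((q.comp (6 * Polynomial.X + 1 + 3 * p)).eval x.length)) = alg (x, List.ofFn r) := by
    intro r
    apply h
    rw [Polynomial.eval_comp, sz_prod, sz_bits, sz_bits]
    apply eval_mono
    simp
    omega
  simp only [e]
  rw [div_le_div_iff₀ (by norm_num) (by positivity), mul_comm _ (3 : ℚ)]
  exact_mod_cast hp x

theorem card_filter_valL (n : ℕ) (P : ℕ → Prop) [DecidablePred P] :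
    (Finset.univ.filter fun r : Fin n → Bool => P (valL (List.ofFn r))).card =
      ((Finset.range (2 ^ n)).filter P).card := by
  have hinj : ∀ l m : List Bool, l.length = m.length → valL l = valL m → l = m := by
    intro l
    induction l with
    | nil => intro m h _; exact (List.length_eq_zero_iff.1 h.symm).symm
    | cons b l ih =>
      intro m h h'
      cases m with
      | nil => simp at h
      | cons c m =>
        rw [valL_cons, valL_cons] at h'
        have hbc : b = c := by cases b <;> cases c <;> simp at h' ⊢ <;> omega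
        subst hbc
        rw [ih m (by simpa using h) (by omega)]
  have hi : Function.Injective (fun r : Fin n → Bool => valL (List.ofFn r)) := fun r s h =>
    List.ofFn_injective (hinj _ _ (by simp) h)
  have him : Finset.univ.image (fun r : Fin n → Bool => valL (List.ofFn r)) =
      Finset.range (2 ^ n) := by
    apply Finset.eq_of_subset_of_card_le
    · intro k hk
      obtain ⟨r, -, rfl⟩ := Finset.mem_image.1 hk
      simpa using valL_lt (List.ofFn r)
    · rw [Finset.card_image_of_injective _ hi]; simp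
  rw [← him, Finset.filter_image, Finset.card_image_of_injective _ hi]

end Pool.Agent.MP_7d676c_lc

end

section

/-! Decoding of bit strings, parsing and modular evaluation of straight-line programs. -/

namespace Pool.Agent.MP_7d676c_lc

open Pool.Agent.MP_2e8011_lc Pool.Agent.MP_a6d740_lc Pool.Agent.MP_b0ee3d_lc

/-- Codes can be decoded in polynomial time. -/
def Dec (α : Type) [Enc α] : Prop := ∃ d : List Bool → α, PT d ∧ ∀ a, d (enc a) = a

theorem pt_split1_Slp {α : Type} [Enc α] {g : α → List Bool} (hg : PT g) :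
    PT (fun a => (split (g a)).1) :=
  CP.toBits (CP.fst (g := g) (PT.mkRaw hg))

theorem pt_split2_Slp {α : Type} [Enc α] {g : α → List Bool} (hg : PT g) :
    PT (fun a => (split (g a)).2) :=
  CP.toBits (CP.snd (g := g) (PT.mkRaw hg))

theorem sz_bits_Slp (l : List Bool) : sz l = 3 * l.length := by
  induction l with
  | nil => rfl
  | cons b l ih => rw [sz_cons, ih, sz_bool, List.length_cons]; omega

theorem dec_nat : Dec ℕ := by
  exact ⟨fun l => l.length, PT.length PT.id, fun a => by simp [enc_nat]⟩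

theorem dec_bin : Dec Bin := by
  have key : ∀ l : List Bool, l.foldr Bin.bit ⟨0⟩ = ⟨valL l⟩ := by
    intro l
    induction l with
    | nil => rfl
    | cons b l ih => rw [List.foldr_cons, ih]; rfl
  have h := pt_foldr (α := List Bool) (f := fun _ => Bin.bit) (by fun_prop) PT.id
    (PT.const (⟨0⟩ : Bin)) (PT.pb_length PT.id) (fun a k => by
      rw [key]
      exact (sz_bin_le (valL_lt _)).trans (by simp))
  exact ⟨fun l => ⟨valL l⟩, h.congr fun a => key a, fun a => by simp only [enc_bin, valL_bits]⟩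

theorem dec_int : Dec ℤ := by
  obtain ⟨d, hd, e⟩ := dec_bin
  refine ⟨fun l => ((d (split l).1).val : ℤ) - (d (split l).2).val,
    pt_diff (hd.comp (pt_split1_Slp PT.id)) (hd.comp (pt_split2_Slp PT.id)) fun _ => rfl,
    fun z => ?_⟩
  have h : enc z = delim (enc (Bin.mk z.toNat)) ++ enc (Bin.mk (-z).toNat) := rfl
  simp only [h, split_delim, e]
  omega

theorem dec_prod {α β : Type} [Enc α] [Enc β] (ha : Dec α) (hb : Dec β) : Dec (α × β) := by
  obtain ⟨d, hd, e⟩ := ha
  obtain ⟨d', hd', e'⟩ := hb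
  refine ⟨fun l => (d (split l).1, d' (split l).2),
    (hd.comp (pt_split1_Slp PT.id)).prodMk (hd'.comp (pt_split2_Slp PT.id)), fun p => ?_⟩
  obtain ⟨a, b⟩ := p
  simp only [enc_prod, split_delim, e, e']

/-- one step of the decomposition into blocks -/
def step_Slp (s : List Bool × List (List Bool)) : List Bool × List (List Bool) :=
  bif s.1.isEmpty then s else ((split s.1).2, s.2 ++ [(split s.1).1])

theorem step_enc_Slp {α : Type} [Enc α] (L : List α) : ∀ (n : ℕ) (acc : List (List Bool)),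
    L.length ≤ n → step_Slp^[n] (enc L, acc) = ([], acc ++ L.map enc) := by
  induction L with
  | nil =>
    intro n acc _
    rw [Function.iterate_fixed (by rfl)]
    simp [enc_nil]
  | cons a L ih =>
    intro n acc hn
    obtain ⟨n, rfl⟩ : ∃ k, n = k + 1 := ⟨n - 1, by simp at hn; omega⟩
    have h : step_Slp (enc (a :: L), acc) = (enc L, acc ++ [enc a]) := by
      have h0 : (delim (enc a) ++ enc L).isEmpty = false := by simp [delim_ne_nil]
      simp only [step_Slp, enc_cons, h0, split_delim, cond_false]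
    rw [Function.iterate_succ_apply, h, ih n _ (by simpa using hn)]
    simp

theorem step_size_Slp (l : List Bool) (i : ℕ) : (step_Slp^[i] (l, [])).1.length ≤ l.length ∧
    (step_Slp^[i] (l, [])).2.length ≤ i ∧ ∀ b ∈ (step_Slp^[i] (l, [])).2, b.length ≤ l.length := by
  induction i with
  | zero => simp
  | succ i ih =>
    rw [Function.iterate_succ_apply']
    generalize step_Slp^[i] (l, []) = s at ih
    obtain ⟨a1, a2, a3⟩ := ih
    have a4 := split_length s.1
    unfold step_Slp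
    cases s.1.isEmpty
    · refine ⟨by simp only [cond_false]; omega, by simpa using a2, fun b hb => ?_⟩
      simp only [cond_false, List.mem_append, List.mem_singleton] at hb
      rcases hb with hb | rfl
      · exact a3 b hb
      · omega
    · exact ⟨a1, a2.trans (Nat.le_succ i), a3⟩

theorem dec_list {α : Type} [Enc α] [Inhabited α] (ha : Dec α) : Dec (List α) := by
  obtain ⟨d, hd, e⟩ := ha
  have h1 : PT step_Slp :=
    PT.cond (PT.isEmpty PT.id.fst) PT.id ((pt_split2_Slp PT.id.fst).prodMk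
      (PT.append PT.id.snd ((pt_split1_Slp PT.id.fst).cons (PT.const []))))
  have hl : PB (fun l : List Bool => l.length) := PT.pb_length PT.id
  have h2 := PT.iter h1 (PT.length (PT.id (α := List Bool))) (PT.id.prodMk (PT.const []))
    ((((PB.const 6).mul hl).add (PB.const 1)).add
      (hl.mul (((PB.const 6).mul hl).add (PB.const 1)))) (fun l i hi => by
      obtain ⟨a1, a2, a3⟩ := step_size_Slp l i
      have a4 := sz_le_of_forall (l := (step_Slp^[i] (l, [])).2) (B := 3 * l.length)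
        fun b hb => by rw [sz_bits_Slp]; have := a3 b hb; omega
      have a5 := Nat.mul_le_mul_right (2 * (3 * l.length) + 1) (a2.trans hi)
      rw [← Prod.mk.eta (p := step_Slp^[i] (l, [])), sz_prod, sz_bits_Slp]
      rw [show 2 * (3 * l.length) = 6 * l.length by ring] at a4 a5
      omega)
  refine ⟨fun l => (step_Slp^[l.length] (l, [])).2.map d,
    PT.map (f := fun _ => d) (hd.comp PT.id.snd) h2.snd, fun L => ?_⟩
  beta_reduce
  rw [step_enc_Slp L (enc L).length _ (length_le_sz L)]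
  simp [Function.comp_def, e]

theorem res_evalMod (P : List (ℕ × ℕ × ℕ)) : Res (value P) (evalMod P) := by
  intro m hm
  have h0 : rd m 0 = 0 := by simp [rd]
  have h1 : ∀ (vs : List ℤ) (j : ℕ), (vs.map (rd m)).getD j 0 ≡ vs.getD j 0 [ZMOD m] := by
    intro vs j
    rw [← h0, List.getD_map, h0]
    exact rd_modEq hm _
  have h2 : ∀ (vs : List ℤ) g, rd m (gateVal (vs.map (rd m)) g) = rd m (gateVal vs g) := by
    intro vs g
    rw [rd, rd, if_pos hm, if_pos hm]
    unfold gateVal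
    split_ifs
    · rfl
    · rfl
    · exact (h1 _ _).add (h1 _ _)
    · exact (h1 _ _).sub (h1 _ _)
    · exact (h1 _ _).mul (h1 _ _)
  have h3 : ∀ vs : List ℤ, P.foldl (fun vs g => vs ++ [rd m (gateVal vs g)]) (vs.map (rd m)) =
      (P.foldl (fun vs g => vs ++ [gateVal vs g]) vs).map (rd m) := by
    induction P with
    | nil => intro vs; rfl
    | cons g P ih =>
      intro vs
      rw [List.foldl_cons, List.foldl_cons, ← ih, h2, List.map_append]
      rfl
  have h4 := h3 []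
  rw [List.map_nil] at h4
  rw [evalMod, h4, value]
  generalize P.foldl (fun vs g => vs ++ [gateVal vs g]) [] = vs
  induction vs using List.reverseRecOn with
  | nil => rfl
  | append_singleton vs x _ => simpa using rd_modEq hm x

theorem abs_value_le (P : List (ℕ × ℕ × ℕ)) : |value P| ≤ 2 ^ 2 ^ P.length := by
  have h : ∀ x ∈ P.foldl (fun vs g => vs ++ [gateVal vs g]) [], |x| ≤ 2 ^ 2 ^ P.length := by
    induction P using List.reverseRecOn with
    | nil => simp
    | append_singleton P g ih =>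
      rw [List.foldl_append, List.length_append, List.length_singleton, pow_succ 2 P.length,
        pow_mul]
      generalize P.foldl (fun vs g => vs ++ [gateVal vs g]) [] = vs at ih
      have h2 : (2 : ℤ) ≤ 2 ^ 2 ^ P.length := le_self_pow₀ one_le_two (by positivity)
      generalize (2 : ℤ) ^ 2 ^ P.length = B at ih h2
      have h1 : ∀ j, |vs.getD j 0| ≤ B := by
        intro j
        rw [List.getD_eq_getElem?_getD]
        cases hj : vs[j]? with
        | none => simp; omega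
        | some y => exact ih y (List.mem_of_getElem? hj)
      intro x hx
      simp only [List.foldl_cons, List.foldl_nil, List.mem_append, List.mem_singleton] at hx
      rcases hx with hx | rfl
      · nlinarith [ih x hx]
      · have a := h1 g.2.1
        have b := h1 g.2.2
        unfold gateVal
        split_ifs
        · simp; positivity
        · rw [abs_one]; nlinarith
        · nlinarith [abs_add_le (vs.getD g.2.1 0) (vs.getD g.2.2 0)]
        · nlinarith [abs_sub (vs.getD g.2.1 0) (vs.getD g.2.2 0)]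
        · rw [abs_mul, sq]
          exact mul_le_mul a b (abs_nonneg _) (by omega)
  rw [value]
  generalize P.foldl (fun vs g => vs ++ [gateVal vs g]) [] = vs at h
  induction vs using List.reverseRecOn with
  | nil => simp
  | append_singleton vs x _ => simpa using h x (by simp)

@[fun_prop] theorem pt_evalMod {α : Type} [Enc α] {P : α → List (ℕ × ℕ × ℕ)} {m : α → ℤ}
    (hP : PT P) (hm : PT m) : PT (fun a => evalMod (P a) (m a)) := by
  have key : ∀ (z : ℤ) (L : List (ℕ × ℕ × ℕ)),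
      (L.foldl (fun vs g => vs ++ [rd z (gateVal vs g)]) []).length = L.length ∧
      ∀ x ∈ L.foldl (fun vs g => vs ++ [rd z (gateVal vs g)]) [], |x| ≤ |z| := by
    intro z L
    induction L using List.reverseRecOn with
    | nil => simp
    | append_singleton L g ih =>
      rw [List.foldl_append]
      refine ⟨by simp [ih.1], fun x hx => ?_⟩
      simp only [List.foldl_cons, List.foldl_nil, List.mem_append, List.mem_singleton] at hx
      rcases hx with hx | rfl
      · exact ih.2 x hx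
      · rw [abs_of_nonneg (rd_nonneg _ _)]
        exact rd_le_abs _ _
  have h := PT.foldl (f := fun a vs g => vs ++ [rd (m a) (gateVal vs g)])
    (by unfold gateVal; fun_prop) hP (PT.const [])
    (hP.pb_length.mul (((PB.const 2).mul (((PB.const 3).mul hm.pb_sz).add (PB.const 4))).add
      (PB.const 1))) (fun a k => by
      obtain ⟨a1, a2⟩ := key (m a) ((P a).take k)
      refine (sz_le_of_forall (B := 3 * sz (m a) + 4) fun x hx =>
        sz_int_le ((a2 x hx).trans (abs_lt_sz _).le)).trans (Nat.mul_le_mul_right _ ?_)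
      rw [a1]
      simp)
  exact pt_getLastD h (PT.const 0)

/-- a gate in binary -/
def toBin_Slp (g : ℕ × ℕ × ℕ) : Bin × Bin × Bin := (⟨g.1⟩, ⟨g.2.1⟩, ⟨g.2.2⟩)

theorem code_Slp (P : List (ℕ × ℕ × ℕ)) : N487b59b3.bitEncode P = enc (P.map toBin_Slp) :=
  bitEncode_list (ι := toBin_Slp) (fun g => bitEncode_prod (ι := Bin.mk)
    (κ := fun p : ℕ × ℕ => (Bin.mk p.1, Bin.mk p.2)) bitEncode_bin
      (bitEncode_prod bitEncode_bin bitEncode_bin) g) P

/-- the validity test -/
def validB_Slp (P : List (ℕ × ℕ × ℕ)) : Bool :=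
  !P.isEmpty && decide (∀ i < P.length, P.getD i (0, 0, 0) = (0, 0, 0) ∨
    P.getD i (0, 0, 0) = (1, 0, 0) ∨ (2 ≤ (P.getD i (0, 0, 0)).1 ∧ (P.getD i (0, 0, 0)).1 ≤ 4 ∧
      (P.getD i (0, 0, 0)).2.1 < i ∧ (P.getD i (0, 0, 0)).2.2 < i))

theorem pt_validB_Slp : PT validB_Slp := by
  unfold validB_Slp
  fun_prop

theorem validB_iff_Slp (P : List (ℕ × ℕ × ℕ)) : validB_Slp P = true ↔ Valid P := by
  simp only [validB_Slp, Valid, Bool.and_eq_true, Bool.not_eq_true', List.isEmpty_eq_false_iff,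
    decide_eq_true_eq, Fin.getElem_fin]
  refine and_congr_right fun _ => ⟨fun h i => ?_, fun h i hi => ?_⟩
  · have := h i i.2
    rwa [List.getD_eq_getElem _ _ i.2] at this
  · rw [List.getD_eq_getElem _ _ hi]
    exact h ⟨i, hi⟩

theorem exists_parse : ∃ (par : List Bool → List (ℕ × ℕ × ℕ)) (ok : List Bool → Bool),
    PT par ∧ PT ok ∧ ∀ x, (ok x = true → (par x).length ≤ x.length) ∧
      PosSLP x = (ok x && decide (0 < value (par x))) := by
  obtain ⟨d, hd, e⟩ := dec_list (dec_prod dec_bin (dec_prod dec_bin dec_bin))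
  have hpar : PT (fun x : List Bool => (d x).map fun t =>
      (t.1.cap (x.length + 5), t.2.1.cap (x.length + 5), t.2.2.cap (x.length + 5))) := by
    fun_prop
  generalize hp : (fun x : List Bool => (d x).map fun t =>
      (t.1.cap (x.length + 5), t.2.1.cap (x.length + 5), t.2.2.cap (x.length + 5))) = par at hpar
  have hlen : ∀ P : List (ℕ × ℕ × ℕ), P.length ≤ (enc (P.map toBin_Slp)).length := fun P => by
    simpa [sz] using length_le_sz (P.map toBin_Slp)
  refine ⟨par, fun x => decide (enc ((par x).map toBin_Slp) = x) && validB_Slp (par x), hpar,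
    PT.and (PT.eq (PT.enc (PT.map (f := fun _ => toBin_Slp) (by unfold toBin_Slp; fun_prop) hpar))
      PT.id) (pt_validB_Slp.comp hpar), fun x => ⟨fun h => ?_, ?_⟩⟩
  · simp only [Bool.and_eq_true, decide_eq_true_eq] at h
    exact (hlen _).trans_eq (congrArg List.length h.1)
  · rw [Bool.eq_iff_iff]
    simp only [PosSLP, Bool.and_eq_true, decide_eq_true_eq, validB_iff_Slp, code_Slp]
    refine ⟨?_, fun h => ⟨par x, h.1.1, h.1.2, h.2⟩⟩
    rintro ⟨P, rfl, hV, h0⟩
    have h1 : par (enc (P.map toBin_Slp)) = P := by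
      rw [← hp]
      beta_reduce
      rw [e, List.map_map]
      conv_rhs => rw [← List.map_id P]
      refine List.map_congr_left fun g hg => ?_
      obtain ⟨i, hi, rfl⟩ := List.getElem_of_mem hg
      have h2 := hlen P
      have h3 := hV.2 ⟨i, hi⟩
      simp only [Fin.getElem_fin, Prod.ext_iff] at h3
      simp only [Function.comp_apply, toBin_Slp, Bin.cap, id, Prod.ext_iff]
      omega
    rw [h1]
    exact ⟨⟨rfl, hV⟩, h0⟩

end Pool.Agent.MP_7d676c_lc

end

section

/-! Sums over digits and binomial coefficients as sums modulo a prime. -/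

namespace Pool.Agent.MP_7d676c_lc

open Finset

theorem sum_range_mul {M : Type*} [AddCommMonoid M] (B C : ℕ) (h : ℕ → ℕ → M) :
    ∑ W ∈ range (B * C), h (W % B) (W / B) = ∑ y ∈ range B, ∑ w ∈ range C, h y w := by
  induction C with
  | zero => simp
  | succ C ih =>
    rw [Nat.mul_succ, sum_range_add, ih, ← sum_add_distrib]
    refine sum_congr rfl fun y hy => ?_
    have hy' := mem_range.1 hy
    rw [sum_range_succ, Nat.mul_add_mod, Nat.mod_eq_of_lt hy',
      Nat.mul_add_div (Nat.zero_lt_of_lt hy'), Nat.div_eq_of_lt hy', add_zero]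

theorem dig_zero_Sums (L W : ℕ) : dig L 0 (W : ℕ) = ((W % 2 ^ L : ℕ) : ℤ) := by
  simp [dig]

theorem dig_succ_Sums (L i W : ℕ) : dig L (i + 1) (W : ℕ) = dig L i ((W / 2 ^ L : ℕ) : ℤ) := by
  unfold dig
  rw [Nat.mul_succ, add_comm, pow_add, ← Int.ediv_ediv_of_nonneg (by positivity)]
  simp

theorem sum_dig {R : Type*} [CommSemiring R] (L t : ℕ) (g : ℕ → ℤ → R) :
    ∑ W ∈ range (2 ^ (L * t)), ∏ i ∈ range t, g i (dig L i (W : ℕ)) =
      ∏ i ∈ range t, ∑ y ∈ range (2 ^ L), g i (y : ℕ) := by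
  induction t generalizing g with
  | zero => simp
  | succ t ih =>
    rw [Nat.mul_succ, add_comm (L * t), pow_add, prod_range_succ', ← ih fun i => g (i + 1),
      sum_mul_sum, sum_comm, ← sum_range_mul (2 ^ L) (2 ^ (L * t))
        fun y w => (∏ i ∈ range t, g (i + 1) (dig L i (w : ℕ))) * g 0 (y : ℕ)]
    refine sum_congr rfl fun W _ => ?_
    rw [prod_range_succ', dig_zero_Sums]
    simp only [dig_succ_Sums]

theorem list_range_Sums {R : Type*} [CommMonoid R] (n : ℕ) (f : ℕ → R) :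
    ((List.range n).map f).prod = ∏ i ∈ range n, f i := by
  induction n with
  | zero => simp
  | succ n ih => rw [List.prod_range_succ, prod_range_succ, ih]

theorem list_map_Sums {R : Type*} (S : List Spec) (f : Spec → R) :
    S.map f = (List.range S.length).map fun i => f (S.getD i default) := by
  refine List.ext_getElem (by simp) fun i h1 h2 => ?_
  have h3 : i < S.length := by simpa using h1
  simp [h3]

theorem sum_term (L m : ℕ) (hm : 0 < m) (S : List Spec) :
    ((∑ W ∈ range (2 ^ (L * S.length)), term L m S (W : ℕ) : ℤ) : ZMod m) =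
      (S.map (facSum L m)).prod := by
  rw [list_map_Sums, list_range_Sums, Int.cast_sum]
  simp only [term, cast_rd hm, list_range_Sums, Int.cast_prod, facSum, Int.cast_sum]
  exact sum_dig L S.length fun i y => ((fac m (S.getD i default) y : ℤ) : ZMod m)

theorem sum_pow_Sums (p : ℕ) [Fact p.Prime] {e : ℕ} (he : e ≠ 0) :
    ∑ y ∈ range p, (y : ZMod p) ^ e = if p - 1 ∣ e then -1 else 0 := by
  classical
  have h1 : ∑ y ∈ range p, (y : ZMod p) ^ e = ∑ x : ZMod p, x ^ e := by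
    refine sum_nbij' (fun y => (y : ZMod p)) ZMod.val (fun _ _ => mem_univ _)
      (fun x _ => mem_range.2 (ZMod.val_lt x)) (fun y hy => ZMod.val_cast_of_lt (mem_range.1 hy))
      (fun x _ => ZMod.natCast_zmod_val x) fun _ _ => rfl
  have h2 := FiniteField.sum_pow_units (ZMod p) e
  rw [ZMod.card] at h2
  rw [h1, ← h2]
  let φ : (ZMod p)ˣ ↪ ZMod p := ⟨fun x => x, Units.val_injective⟩
  have h3 : univ.map φ = univ \ {0} := by
    ext x
    simpa only [mem_map, mem_univ, Function.Embedding.coeFn_mk, true_and, mem_sdiff,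
      mem_singleton, φ] using! isUnit_iff_ne_zero
  rw [← sum_sdiff ({0} : Finset (ZMod p)).subset_univ, sum_singleton, zero_pow he, add_zero, ← h3,
    sum_map]
  simp [φ]

theorem facSum_choose (L p z j : ℕ) (hp : p.Prime) (hL : p ≤ 2 ^ L) (hj : j + 1 < p)
    (hz : z + 1 < j + p) : facSum L p (false, (z : ℤ), (j : ℤ)) = (z.choose j : ZMod p) := by
  have := Fact.mk hp
  have e : (p : ℤ) - 1 - j = ((p - 1 - j : ℕ) : ℤ) := by omega
  have h1 : facSum L p (false, (z : ℤ), (j : ℤ)) =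
      -∑ y ∈ range p, ((y : ZMod p) + 1) ^ z * (y : ZMod p) ^ (p - 1 - j) := by
    rw [facSum, ← sum_subset (f := fun y : ℕ => fac p (false, (z : ℤ), (j : ℤ)) y)
      (range_subset_range.2 hL) fun y _ hy => if_neg (by simpa using hy), Int.cast_sum,
      ← sum_neg_distrib]
    refine sum_congr rfl fun y hy => ?_
    rw [fac, if_pos (by exact_mod_cast mem_range.1 hy), if_neg (by simp), e, Int.cast_neg,
      Int.cast_mul, cast_powMod hp.pos, cast_powMod hp.pos]
    simp [add_comm]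
  have h2 : ∀ k ∈ range (z + 1), ∑ y ∈ range p,
      (y : ZMod p) ^ k * 1 ^ (z - k) * (z.choose k : ZMod p) * (y : ZMod p) ^ (p - 1 - j) =
        if k = j then -(z.choose j : ZMod p) else 0 := by
    intro k hk
    have hk' := mem_range.1 hk
    have h3 : ∀ y : ZMod p, y ^ k * 1 ^ (z - k) * (z.choose k : ZMod p) * y ^ (p - 1 - j) =
        (z.choose k : ZMod p) * y ^ (k + (p - 1 - j)) := fun y => by ring
    simp only [h3]
    rw [← mul_sum, sum_pow_Sums p (by omega)]
    by_cases h : k = j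
    · subst h
      rw [if_pos rfl, if_pos (by rw [show k + (p - 1 - k) = p - 1 by omega]), mul_neg_one]
    · rw [if_neg h, if_neg, mul_zero]
      rintro ⟨c, hc⟩
      rcases c with _ | _ | c
      · omega
      · omega
      · rw [Nat.mul_succ, Nat.mul_succ] at hc
        omega
  rw [h1]
  simp only [add_pow, sum_mul]
  rw [sum_comm, sum_congr rfl h2, sum_ite_eq']
  split_ifs with h
  · rw [neg_neg]
  · rw [neg_zero, Nat.choose_eq_zero_of_lt (by simpa using h), Nat.cast_zero]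

theorem uS_prod (a p : ℕ) (ha : 1 ≤ a) (hp : p.Prime) (h1 : 2 ^ (2 * a) < p)
    (hL : p ≤ 2 ^ (6 * a)) : ((uS a).map (facSum (6 * a) p)).prod = (UU a : ZMod p) := by
  rw [uS, UU, List.map_map, Nat.cast_list_prod, List.map_map]
  refine congrArg List.prod (List.map_congr_left fun i hi => ?_)
  have h2 : i + 1 ≤ 2 * a := by
    simp only [zs, List.mem_append, List.mem_range, List.mem_flatMap] at hi
    rcases hi with hi | ⟨_, _, hi⟩ <;> omega
  have h3 : 2 ^ (i + 1) ≤ 2 ^ (2 * a) := Nat.pow_le_pow_right two_pos h2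
  have h4 : 1 ≤ 2 ^ i := Nat.one_le_two_pow
  have h5 : 2 ^ (i + 1) = 2 * 2 ^ i := pow_succ' 2 i
  have := facSum_choose (6 * a) p (2 ^ (i + 1)) (2 ^ i) hp hL (by omega) (by omega)
  rw [Function.comp_apply, Function.comp_apply, Nat.centralBinom_eq_two_mul_choose, ← h5, ← this]
  push_cast
  rfl

end Pool.Agent.MP_7d676c_lc

end

section

/-! Exponential sums of polynomial-time functions are computable with an oracle in PP. -/

namespace Pool.Agent.MP_7d676c_lc

open Finset Pool.Agent.MP_2e8011_lc Pool.Agent.MP_a6d740_lc Pool.Agent.MP_b0ee3d_lc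

variable {α β : Type} [Enc α] [Enc β]

/-- Counting functions. -/
def SP (f : α → ℤ) : Prop :=
  ∃ (l : α → ℕ) (v : α → ℤ → ℤ), PT l ∧ PT (fun p : α × ℤ => v p.1 p.2) ∧ (∀ a u, 0 ≤ v a u) ∧
    ∀ a, f a = ∑ u ∈ range (2 ^ l a), v a (u : ℕ)

theorem SP.ite {p : α → Prop} [DecidablePred p] (hp : PT (fun a => decide (p a))) {f g : α → ℤ}
    (hf : SP f) (hg : SP g) : SP (fun a => if p a then f a else g a) := by
  obtain ⟨l, v, hl, hv, h0, h⟩ := hf
  obtain ⟨l', v', hl', hv', h0', h'⟩ := hg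
  refine ⟨fun a => if p a then l a else l' a, fun a u => if p a then v a u else v' a u,
    PT.ite hp hl hl', PT.ite (hp.comp (f := fun q : α × ℤ => q.1) (by fun_prop)) hv hv',
    fun a u => ?_, fun a => ?_⟩
  · beta_reduce
    split_ifs
    · exact h0 a u
    · exact h0' a u
  · by_cases hpa : p a
    · simp only [if_pos hpa, h a]
    · simp only [if_neg hpa, h' a]

theorem sp_bound {l : α → ℕ} {v : α → ℤ → ℤ} (hl : PT l) (hv : PT (fun p : α × ℤ => v p.1 p.2)) :
    ∃ p : Polynomial ℕ, ∀ a, l a ≤ p.eval (sz a) ∧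
      ∀ u < 2 ^ l a, v a (u : ℕ) < 2 ^ (p.eval (sz a) - l a) := by
  obtain ⟨q, hq⟩ := hv.pb_sz
  obtain ⟨p, hp⟩ := hl.pb.add (PB.eval q ((((PB.const 2).mul PB.sz).add (PB.const 1)).add
    (((PB.const 3).mul hl.pb).add (PB.const 4))))
  refine ⟨p, fun a => ⟨(Nat.le_add_right _ _).trans (hp a), fun u hu => ?_⟩⟩
  have h1 : sz ((u : ℕ) : ℤ) ≤ 3 * l a + 4 := sz_int_le (by
    rw [abs_of_nonneg (by positivity)]; exact_mod_cast hu.le)
  have h2 := (hq (a, (u : ℕ))).trans (eval_mono q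
    (show sz (a, ((u : ℕ) : ℤ)) ≤ 2 * sz a + 1 + (3 * l a + 4) by rw [sz_prod]; omega))
  have h3 := hp a
  refine ((le_abs_self _).trans_lt (abs_lt_sz _)).trans_le
    (pow_le_pow_right₀ (by norm_num) ?_)
  simp only at h2 h3
  omega

theorem card_lt_int (C : ℕ) (v : ℤ) (h0 : 0 ≤ v) (h : v ≤ C) :
    ∑ c ∈ range C, (if ((c : ℕ) : ℤ) < v then (1 : ℤ) else 0) = v := by
  obtain ⟨k, rfl⟩ := Int.eq_ofNat_of_zero_le h0
  have hk : k ≤ C := by exact_mod_cast h
  rw [sum_boole]
  have : (range C).filter (fun c : ℕ => (c : ℤ) < k) = range k := by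
    ext c
    simp only [mem_filter, mem_range, Nat.cast_lt]
    omega
  rw [this, card_range]

theorem SP.oracle (hd : Dec α) {f : α → ℤ} (hf : SP f) :
    ∃ A ∈ PP, ∀ (a : α) (k : ℤ), 0 ≤ k → A (enc (a, k)) = decide (k < f a) := by
  obtain ⟨l, v, hl, hv, h0, h⟩ := hf
  obtain ⟨p, hp⟩ := sp_bound hl hv
  obtain ⟨d, hdp, hd⟩ := dec_prod hd dec_int
  let S : List Bool → ℕ → ℤ → Bool := fun y n W =>
    if W % 2 = 1 then decide (W / 2 / 2 ^ l (d y).1 < v (d y).1 (W / 2 % 2 ^ l (d y).1))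
    else decide (W / 2 < 2 ^ n - (d y).2)
  let R : List Bool × List Bool → Bool := fun x => S x.1 (x.2.length - 1) (valL x.2)
  have hR : PT R := by
    have hv' : ∀ {γ : Type} [Enc γ] {g : γ → α} {u : γ → ℤ}, PT g → PT u →
        PT (fun c => v (g c) (u c)) := fun hg hu => hv.comp (hg.prodMk hu)
    simp only [R, S]
    refine PT.ite (by fun_prop) (pt_intLt (by fun_prop) (hv' (by fun_prop) (by fun_prop)))
      (by fun_prop)
  refine ⟨fun y => decide (2 ^ (p + 1).eval y.length < 2 * (univ.filter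
      fun w : Fin ((p + 1).eval y.length) → Bool => R (y, List.ofFn w)).card),
    ⟨p + 1, R, hR.isPolyTime_rel, fun y => by simp only [decide_eq_true_eq]⟩, fun a k hk => ?_⟩
  beta_reduce
  set y := enc (a, k) with hy
  have hn : p.eval (sz a) ≤ p.eval y.length :=
    eval_mono p (show sz a ≤ sz (a, k) by rw [sz_prod]; omega)
  have e1 : (p + 1).eval y.length = p.eval y.length + 1 := by simp
  generalize (p + 1).eval y.length = n1 at e1 ⊢
  generalize p.eval y.length = n at e1 hn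
  subst e1
  have e2 : (univ.filter fun w : Fin (n + 1) → Bool => R (y, List.ofFn w)).card =
      ((range (2 ^ (n + 1))).filter fun W : ℕ => S y n W = true).card := by
    rw [← card_filter_valL]
    simp [R]
  have hln : l a ≤ n := (hp a).1.trans hn
  have e3 : (((range (2 ^ (n + 1))).filter fun W : ℕ => S y n W = true).card : ℤ) =
      (∑ W ∈ range (2 ^ n), if ((W : ℕ) : ℤ) < 2 ^ n - k then (1 : ℤ) else 0) + f a := by
    rw [card_filter, pow_succ']
    push_cast
    have := sum_range_mul 2 (2 ^ n) (fun b W => if b = 1 then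
      (if ((W / 2 ^ l a : ℕ) : ℤ) < v a ((W % 2 ^ l a : ℕ) : ℤ) then (1 : ℤ) else 0)
      else if (W : ℤ) < 2 ^ n - k then 1 else 0)
    rw [sum_range_succ, sum_range_one] at this
    simp only [zero_ne_one, if_false, if_true] at this
    have e4 : ∑ W ∈ range (2 ^ n),
        (if ((W / 2 ^ l a : ℕ) : ℤ) < v a ((W % 2 ^ l a : ℕ) : ℤ) then (1 : ℤ) else 0) = f a := by
      rw [show 2 ^ n = 2 ^ l a * 2 ^ (n - l a) by rw [← pow_add]; congr 1; omega,
        sum_range_mul (2 ^ l a) (2 ^ (n - l a))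
          (fun u c => if ((c : ℕ) : ℤ) < v a (u : ℕ) then (1 : ℤ) else 0), h a]
      refine sum_congr rfl (fun u hu => card_lt_int _ _ (h0 _ _) ?_)
      refine ((hp a).2 u (mem_range.1 hu)).le.trans ?_
      push_cast
      exact pow_le_pow_right₀ (by norm_num) (by omega)
    rw [← e4, ← this]
    refine sum_congr rfl (fun W _ => ?_)
    simp only [S, hy, hd]
    by_cases hW : W % 2 = 1
    · have hW' : (W : ℤ) % 2 = 1 := by exact_mod_cast hW
      simp only [if_pos hW, if_pos hW']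
      simp
    · have hW' : ¬ (W : ℤ) % 2 = 1 := by exact_mod_cast hW
      simp only [if_neg hW, if_neg hW']
      simp
  have hf0 : 0 ≤ f a := by rw [h a]; exact sum_nonneg (fun u _ => h0 _ _)
  have hf1 : f a ≤ 2 ^ n := by
    rw [h a]
    refine (sum_le_card_nsmul _ _ ((2 : ℤ) ^ (n - l a)) (fun u hu => ?_)).trans (le_of_eq ?_)
    · exact ((hp a).2 u (mem_range.1 hu)).le.trans (pow_le_pow_right₀ (by norm_num) (by omega))
    · rw [card_range, nsmul_eq_mul]
      push_cast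
      rw [← pow_add]; congr 1; omega
  simp only [e2, decide_eq_decide]
  rw [← Int.ofNat_lt, Nat.cast_mul, e3]
  push_cast
  rw [pow_succ]
  by_cases hk2 : k ≤ 2 ^ n
  · rw [card_lt_int _ _ (by omega) (by push_cast; omega)]
    omega
  · rw [sum_eq_zero (fun W _ => if_neg (by omega))]
    omega

theorem SP.oc (hd : Dec α) {f : α → ℤ} (hf : SP f) : ∃ A ∈ PP, OC A f := by
  obtain ⟨A, hA, h⟩ := hf.oracle hd
  refine ⟨A, hA, ?_⟩
  obtain ⟨l, v, hl, hv, h0, hs⟩ := hf
  obtain ⟨p, hp⟩ := sp_bound hl hv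
  let H : α → ℕ := fun a => p.eval (sz a) + 1
  have hH : PT H := by
    have : PT (fun y : α => sz y) := PT.id.sz
    fun_prop
  have hf0 : ∀ a, 0 ≤ f a := fun a => by rw [hs a]; exact sum_nonneg (fun u _ => h0 _ _)
  have hf1 : ∀ a, f a < 2 ^ H a := fun a => by
    rw [hs a]
    refine (sum_le_card_nsmul _ _ ((2 : ℤ) ^ (p.eval (sz a) - l a))
      (fun u hu => ((hp a).2 u (mem_range.1 hu)).le)).trans_lt ?_
    rw [card_range, nsmul_eq_mul]
    push_cast
    rw [← pow_add]
    exact pow_lt_pow_right₀ (by norm_num) (by have := (hp a).1; simp only [H]; omega)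
  let g : α → ℤ × ℕ → ℤ × ℕ := fun a s =>
    (if A (enc (a, s.1 + 2 ^ (s.2 - 1) - 1)) = true then s.1 + 2 ^ (s.2 - 1) else s.1, s.2 - 1)
  have key : ∀ a, ∀ i ≤ H a, ((g a)^[i] (0, H a)).2 = H a - i ∧ 0 ≤ ((g a)^[i] (0, H a)).1 ∧
      ((g a)^[i] (0, H a)).1 ≤ f a ∧ f a < ((g a)^[i] (0, H a)).1 + 2 ^ (H a - i) := by
    intro a i hi
    induction i with
    | zero => simpa using ⟨hf0 a, hf1 a⟩
    | succ i ih =>
      obtain ⟨h1, h2, h3, h4⟩ := ih (by omega)
      rw [Function.iterate_succ_apply']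
      generalize (g a)^[i] (0, H a) = s at h1 h2 h3 h4
      have e : H a - i = H a - (i + 1) + 1 := by omega
      have hpos : (0 : ℤ) < 2 ^ (H a - (i + 1)) := by positivity
      rw [e, pow_succ] at h4
      simp only [g, h1, show H a - i - 1 = H a - (i + 1) by omega]
      rw [h a _ (by omega)]
      simp only [decide_eq_true_eq, true_and]
      split_ifs <;> omega
  have hg : OC A (fun x : α × ℤ × ℕ => g x.1 x.2) :=
    (OC.query (q := fun x : α × ℤ × ℕ => enc (x.1, x.2.1 + 2 ^ (x.2.2 - 1) - 1))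
      (by fun_prop)).post (v := fun z : (α × ℤ × ℕ) × Bool =>
        (if z.2 = true then z.1.2.1 + 2 ^ (z.1.2.2 - 1) else z.1.2.1, z.1.2.2 - 1)) (by fun_prop)
  have := OC.iter hg hH (s := fun a => (0, H a)) (by fun_prop)
    (B := fun a => 2 * (3 * H a + 4) + 1 + H a) (PT.pb (by fun_prop)) (fun a i hi => by
      obtain ⟨h1, h2, h3, -⟩ := key a i hi
      rw [← Prod.mk.eta (p := (g a)^[i] _), sz_prod, sz_nat, h1]
      have := sz_int_le (z := ((g a)^[i] (0, H a)).1) (k := H a)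
        (by rw [abs_of_nonneg h2]; exact h3.trans (hf1 a).le)
      omega)
  refine (this.post (v := fun z => z.2.1) (by fun_prop)).congr (fun a => ?_)
  obtain ⟨-, -, h3, h4⟩ := key a _ le_rfl
  simp only [Nat.sub_self, pow_zero] at h4 ⊢
  omega

end Pool.Agent.MP_7d676c_lc

end

section

/-! The algorithm runs in polynomial time with an oracle in PP. -/

namespace Pool.Agent.MP_7d676c_lc

open Finset Pool.Agent.MP_2e8011_lc Pool.Agent.MP_a6d740_lc Pool.Agent.MP_b0ee3d_lc

section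

variable {α : Type} [Enc α]

@[fun_prop] theorem pt_fac {m y : α → ℤ} {s : α → Spec} (hm : PT m) (hs : PT s) (hy : PT y) :
    PT (fun x => fac (m x) (s x) (y x)) := by
  unfold fac
  fun_prop

@[fun_prop] theorem pt_term {L : α → ℕ} {m W : α → ℤ} {S : α → List Spec} (hL : PT L)
    (hm : PT m) (hS : PT S) (hW : PT W) : PT (fun x => term (L x) (m x) (S x) (W x)) := by
  unfold term
  fun_prop

@[fun_prop] theorem pt_zs {a : α → ℕ} (ha : PT a) : PT (fun x => zs (a x)) := by
  unfold zs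
  fun_prop

@[fun_prop] theorem pt_uS {a : α → ℕ} (ha : PT a) : PT (fun x => uS (a x)) := by
  unfold uS
  fun_prop

@[fun_prop] theorem pt_indS {a : α → ℕ} (ha : PT a) : PT (fun x => indS (a x)) := by
  unfold indS
  fun_prop

@[fun_prop] theorem pt_KK {a : α → ℕ} (ha : PT a) : PT (fun x => KK (a x)) := by
  unfold KK
  fun_prop

@[fun_prop] theorem pt_aS {a : α → ℕ} {n m : α → ℤ} (ha : PT a) (hn : PT n) (hm : PT m) :
    PT (fun x => aS (a x) (n x) (m x)) := by
  unfold aS
  fun_prop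

@[fun_prop] theorem pt_wl {a : α → ℕ} (ha : PT a) : PT (fun x => wl (a x)) := by
  unfold wl
  fun_prop

@[fun_prop] theorem pt_aa {P : α → List (ℕ × ℕ × ℕ)} {a : α → ℕ} {n V : α → ℤ} (hP : PT P)
    (ha : PT a) (hn : PT n) (hV : PT V) :
    PT (fun x => aa (evalMod (P x)) (a x) (n x) (V x)) := by
  unfold aa
  fun_prop

@[fun_prop] theorem pt_vF {P : α → List (ℕ × ℕ × ℕ)} {a : α → ℕ} {n V : α → ℤ} (hP : PT P)
    (ha : PT a) (hn : PT n) (hV : PT V) :
    PT (fun x => vF (evalMod (P x)) (a x) (n x) (V x)) := by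
  unfold vF
  have := pt_aa hP ha hn hV
  fun_prop

@[fun_prop] theorem pt_vX {P : α → List (ℕ × ℕ × ℕ)} {a : α → ℕ} {n q V : α → ℤ} (hP : PT P)
    (ha : PT a) (hn : PT n) (hq : PT q) (hV : PT V) :
    PT (fun x => vX (evalMod (P x)) (a x) (n x) (q x) (V x)) := by
  unfold vX
  have := pt_aa hP ha hn hV
  exact pt_rd hq (pt_intMul this (by fun_prop))

@[fun_prop] theorem pt_vP {q d : α → ℤ} (hq : PT q) (hd : PT d) :
    PT (fun x => vP (q x) (d x)) := by
  unfold vP
  fun_prop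

@[fun_prop] theorem pt_rr {a : α → ℕ} {F : α → ℤ} (ha : PT a) (hF : PT F) :
    PT (fun x => rr (a x) (F x)) := by
  unfold rr
  fun_prop

end

theorem aa_nonneg (nm : ℤ → ℤ) (a : ℕ) (n V : ℤ) : 0 ≤ aa nm a n V := by
  unfold aa
  split_ifs
  all_goals first | exact rd_nonneg _ _ | exact le_rfl

theorem vF_nonneg (nm : ℤ → ℤ) (a : ℕ) (n V : ℤ) : 0 ≤ vF nm a n V :=
  Int.ediv_nonneg (mul_nonneg (by positivity) (aa_nonneg _ _ _ _))
    (Int.emod_nonneg _ (by positivity))

theorem vP_nonneg (q d : ℤ) : 0 ≤ vP q d := by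
  unfold vP
  split_ifs <;> norm_num

/-- queries: a tag, the program, the parameter and two numbers -/
abbrev Qu := ℕ × (List (ℕ × ℕ × ℕ) × ℕ) × ℤ × ℤ

/-- the counting function used as an oracle -/
def orc (x : Qu) : ℤ :=
  if x.1 = 0 then FF (evalMod x.2.1.1) x.2.1.2 x.2.2.1
  else if x.1 = 1 then XX (evalMod x.2.1.1) x.2.1.2 x.2.2.1 x.2.2.2
  else if x.1 = 2 then Ub x.2.1.2 x.2.2.2
  else if x.1 = 3 then Cb x.2.1.2 x.2.2.1 x.2.2.2
  else Pr x.2.1.2 x.2.2.2

theorem sp_orc : SP orc := by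
  unfold orc
  refine SP.ite (by fun_prop) ?_ (SP.ite (by fun_prop) ?_ (SP.ite (by fun_prop) ?_
    (SP.ite (by fun_prop) ?_ ?_)))
  · exact ⟨fun x => wl x.2.1.2, fun x V => vF (evalMod x.2.1.1) x.2.1.2 x.2.2.1 V, by fun_prop,
      pt_vF (by fun_prop) (by fun_prop) (by fun_prop) (by fun_prop),
      fun _ _ => vF_nonneg _ _ _ _, fun _ => rfl⟩
  · exact ⟨fun x => wl x.2.1.2, fun x V => vX (evalMod x.2.1.1) x.2.1.2 x.2.2.1 x.2.2.2 V,
      by fun_prop, pt_vX (by fun_prop) (by fun_prop) (by fun_prop) (by fun_prop) (by fun_prop),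
      fun _ _ => rd_nonneg _ _, fun _ => rfl⟩
  · exact ⟨fun x => 6 * x.2.1.2 * (uS x.2.1.2).length,
      fun x V => term (6 * x.2.1.2) x.2.2.2 (uS x.2.1.2) V, by fun_prop, by fun_prop,
      fun _ _ => rd_nonneg _ _, fun _ => rfl⟩
  · exact ⟨fun x => 6 * x.2.1.2,
      fun x V => term (6 * x.2.1.2) x.2.2.2 [(false, 2 * x.2.2.1, x.2.2.1)] V, by fun_prop,
      by fun_prop, fun _ _ => rd_nonneg _ _, fun _ => rfl⟩
  · exact ⟨fun x => 6 * x.2.1.2, fun x V => vP x.2.2.2 V, by fun_prop, by fun_prop,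
      fun _ _ => vP_nonneg _ _, fun _ => rfl⟩

theorem dec_Qu : Dec Qu :=
  dec_prod dec_nat (dec_prod (dec_prod (dec_list (dec_prod dec_nat (dec_prod dec_nat dec_nat)))
    dec_nat) (dec_prod dec_int dec_int))

section

variable {α : Type} [Enc α] {A : List Bool → Bool} (hA : OC A orc)
  {P : α → List (ℕ × ℕ × ℕ)} {a : α → ℕ} (hP : PT P) (ha : PT a)

include hA hP ha

theorem oc_FF {n : α → ℤ} (hn : PT n) : OC A (fun x => FF (evalMod (P x)) (a x) (n x)) :=
  hA.pre (g := fun x => ((0, (P x, a x), n x, 0) : Qu)) (by fun_prop)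

theorem oc_chk {n q : α → ℤ} (hn : PT n) (hq : PT q) :
    OC A (fun x => chk (evalMod (P x)) (a x) (n x) (q x)) := by
  have h0 := oc_FF hA hP ha hn
  have h1 : OC A (fun x => XX (evalMod (P x)) (a x) (n x) (q x)) :=
    hA.pre (g := fun x => ((1, (P x, a x), n x, q x) : Qu)) (by fun_prop)
  have h2 : OC A (fun x => Ub (a x) (q x)) :=
    hA.pre (g := fun x => ((2, (P x, a x), n x, q x) : Qu)) (by fun_prop)
  have h3 : OC A (fun x => Cb (a x) (n x) (q x)) :=
    hA.pre (g := fun x => ((3, (P x, a x), n x, q x) : Qu)) (by fun_prop)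
  have h4 : OC A (fun x => Pr (a x) (q x)) :=
    hA.pre (g := fun x => ((4, (P x, a x), n x, q x) : Qu)) (by fun_prop)
  exact (h0.pair (h1.pair (h2.pair (h3.pair h4)))).post
    (v := fun z : α × ℤ × ℤ × ℤ × ℤ × ℤ => decide (z.2.2.2.2.2 = 0 ∧ 3 * 2 ^ (2 * a z.1) < q z.1 →
      ((2 * evalMod (P z.1) (q z.1) - 1) * KK (a z.1) * z.2.2.2.1 +
        z.2.2.2.2.1 * (rr (a z.1) z.2.1 - z.2.2.1)) % q z.1 = 0)) (by fun_prop)

theorem oc_test {ρ n : α → ℤ} (hρ : PT ρ) (hn : PT n) :
    OC A (fun x => test (evalMod (P x)) (a x) (ρ x) (n x)) :=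
  OC.all (f := fun x i => chk (evalMod (P x)) (a x) (n x) (dig (6 * a x) i (ρ x)))
    (oc_chk hA (P := fun z : α × ℕ => P z.1) (a := fun z : α × ℕ => a z.1) (by fun_prop)
      (by fun_prop) (by fun_prop) (by fun_prop)) (by fun_prop)

theorem oc_endp {ρ : α → ℤ} (hρ : PT ρ) :
    OC A (fun x => endp (evalMod (P x)) (a x) (ρ x)) := by
  have hg : OC A (fun z : α × ℤ × ℤ => bs (evalMod (P z.1)) (a z.1) (ρ z.1) z.2) :=
    (oc_test hA (P := fun z : α × ℤ × ℤ => P z.1) (a := fun z => a z.1) (by fun_prop)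
      (by fun_prop) (ρ := fun z => ρ z.1) (n := fun z => z.2.1 + z.2.2 / 2) (by fun_prop)
      (by fun_prop)).post (v := fun z : (α × ℤ × ℤ) × Bool =>
        (if z.2 = true then z.1.2.1 else z.1.2.1 + z.1.2.2 / 2, z.1.2.2 / 2)) (by fun_prop)
  have key : ∀ (nm : ℤ → ℤ) (b : ℕ) (r C : ℤ) (i : ℕ) (s : ℤ × ℤ), 0 ≤ s.1 → 0 ≤ s.2 →
      s.1 + s.2 ≤ C → 0 ≤ ((bs nm b r)^[i] s).1 ∧ 0 ≤ ((bs nm b r)^[i] s).2 ∧
        ((bs nm b r)^[i] s).1 + ((bs nm b r)^[i] s).2 ≤ C := by
    intro nm b r C i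
    induction i with
    | zero => intro s h1 h2 h3; exact ⟨h1, h2, h3⟩
    | succ i ih =>
      intro s h1 h2 h3
      rw [Function.iterate_succ_apply]
      apply ih <;> simp only [bs] <;> (try split_ifs) <;> omega
  have := OC.iter (g := fun x => bs (evalMod (P x)) (a x) (ρ x)) hg (n := fun x => 2 * a x)
    (by fun_prop) (s := fun x => (2 ^ (2 * a x - 1), 2 ^ (2 * a x))) (by fun_prop)
    (B := fun x => 3 * (3 * (2 * a x + 1) + 4) + 1) (PT.pb (by fun_prop)) (fun x i _ => by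
      obtain ⟨h1, h2, h3⟩ := key (evalMod (P x)) (a x) (ρ x) (2 ^ (2 * a x + 1)) i
        (2 ^ (2 * a x - 1), 2 ^ (2 * a x)) (by positivity) (by positivity) (by
          have : (2 : ℤ) ^ (2 * a x - 1) ≤ 2 ^ (2 * a x) :=
            pow_le_pow_right₀ (by norm_num) (by omega)
          rw [pow_succ]; dsimp only; omega)
      generalize (bs (evalMod (P x)) (a x) (ρ x))^[i] _ = s at h1 h2 h3 ⊢
      have e1 := sz_int_le (z := s.1) (k := 2 * a x + 1) (by rw [abs_of_nonneg h1]; omega)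
      have e2 := sz_int_le (z := s.2) (k := 2 * a x + 1) (by rw [abs_of_nonneg h2]; omega)
      rw [← Prod.mk.eta (p := s), sz_prod]
      omega)
  exact this.post (v := fun z : α × ℤ × ℤ => z.2.1 + 1) (by fun_prop)

theorem oc_out {ρ : α → ℤ} (hρ : PT ρ) :
    OC A (fun x => out (evalMod (P x)) (a x) (ρ x)) :=
  ((oc_endp hA hP ha hρ).bind (v := fun z : α × ℤ => FF (evalMod (P z.1)) (a z.1) z.2)
    (oc_FF hA (by fun_prop) (by fun_prop) (by fun_prop))).post
    (v := fun z : α × ℤ => decide (rr (a z.1) z.2 * 2 ^ (wl (a z.1) + 4) ≤ z.2)) (by fun_prop)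

end

end Pool.Agent.MP_7d676c_lc

end

section

/-! The indicator of primes among odd numbers as a product of sums. -/

namespace Pool.Agent.MP_7d676c_lc

open Finset

theorem sum_fac_Ind {L m : ℕ} (hL : m ≤ 2 ^ L) (s : Spec) :
    ∑ y ∈ range (2 ^ L), fac m s (y : ℕ) = ∑ y ∈ range m, fac m s (y : ℕ) := by
  refine (sum_subset (range_subset_range.2 hL) fun y _ hy => ?_).symm
  rw [fac, if_neg]
  rw [mem_range] at hy
  exact_mod_cast hy

theorem sum_zmod_Ind {M : Type*} [AddCommMonoid M] (m : ℕ) [NeZero m] (f : ZMod m → M) :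
    ∑ y ∈ range m, f (y : ZMod m) = ∑ x : ZMod m, f x := by
  refine sum_nbij' (fun y => (y : ZMod m)) ZMod.val (fun _ _ => mem_univ _)
    (fun x _ => mem_range.2 (ZMod.val_lt x)) (fun y hy => ZMod.val_cast_of_lt (mem_range.1 hy))
    (fun x _ => ZMod.natCast_zmod_val x) fun _ _ => rfl

theorem facSum_true_Ind {L m : ℕ} [NeZero m] (h1 : 1 < m) (hL : m ≤ 2 ^ L) (c : ℤ) :
    facSum L m (true, c, 0) =
      (c : ZMod m) - ((univ.filter fun x : ZMod m => x * x = 1).card : ZMod m) := by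
  have e : ∀ y ∈ range m, fac m (true, c, 0) (y : ℕ) =
      (if y = 0 then c else 0) - (if (y : ZMod m) * y = 1 then 1 else 0) := by
    intro y hy
    have hy' : ((y : ℕ) : ℤ) < m := by exact_mod_cast mem_range.1 hy
    have h2 : (y : ℤ) * y % m = 1 ↔ (y : ZMod m) * y = 1 := by
      have h3 := ZMod.intCast_eq_intCast_iff' ((y : ℤ) * y) 1 m
      rw [Int.emod_eq_of_lt (a := 1) zero_le_one (by exact_mod_cast h1)] at h3
      rw [← h3]
      push_cast
      rfl
    rw [fac, if_pos hy', if_pos rfl]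
    simp only [h2, Nat.cast_eq_zero]
  rw [facSum, sum_fac_Ind hL, sum_congr rfl e, sum_sub_distrib, sum_ite_eq',
    if_pos (mem_range.2 (by omega)),
    sum_zmod_Ind m fun x => if x * x = 1 then (1 : ℤ) else 0, sum_boole]
  push_cast
  rfl

theorem card_pow_Ind (m : ℕ) [NeZero m] :
    ∃ j, (univ.filter fun x : ZMod m => x * x = 1).card = 2 ^ j := by
  let H : Subgroup (ZMod m)ˣ := (powMonoidHom 2 : (ZMod m)ˣ →* (ZMod m)ˣ).ker
  have hH : IsPGroup 2 H := fun u => ⟨1, Subtype.ext (show u.1 ^ 2 = 1 from u.2)⟩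
  obtain ⟨j, hj⟩ := IsPGroup.iff_card.1 hH
  let E : H ≃ {x : ZMod m // x * x = 1} :=
    { toFun := fun u => ⟨u.1.1, by
        have h : u.1 ^ 2 = 1 := u.2
        rw [← Units.val_mul, ← sq, h, Units.val_one]⟩
      invFun := fun x => ⟨⟨x.1, x.1, x.2, x.2⟩, Units.ext (by
        change x.1 ^ 2 = 1
        rw [sq, x.2])⟩
      left_inv := fun u => Subtype.ext (Units.ext rfl)
      right_inv := fun x => rfl }
  refine ⟨j, ?_⟩
  rw [← hj, Nat.card_congr E, Nat.card_eq_fintype_card, Fintype.card_subtype]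

theorem card_big_Ind {b c : ℕ} [NeZero (b * c)] (hb : 2 < b) (hc : 2 < c) (h : b.Coprime c) :
    2 < (univ.filter fun x : ZMod (b * c) => x * x = 1).card := by
  have : Fact (2 < b) := ⟨hb⟩
  have : Fact (2 < c) := ⟨hc⟩
  let E := (ZMod.chineseRemainder h).symm
  have hm : ∀ z : ZMod b × ZMod c, z * z = 1 →
      E z ∈ univ.filter fun x : ZMod (b * c) => x * x = 1 := fun z hz => by
    rw [mem_filter, ← map_mul, hz, map_one]
    exact ⟨mem_univ _, rfl⟩
  refine two_lt_card_iff.2 ⟨E (1, 1), E (1, -1), E (-1, -1), hm _ (by ext <;> simp),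
    hm _ (by ext <;> simp), hm _ (by ext <;> simp), ?_, ?_, ?_⟩
  · exact fun e => ZMod.neg_one_ne_one (congrArg Prod.snd (E.injective e)).symm
  · exact fun e => ZMod.neg_one_ne_one (congrArg Prod.snd (E.injective e)).symm
  · exact fun e => ZMod.neg_one_ne_one (congrArg Prod.fst (E.injective e)).symm

theorem dvd_sum_Ind {p c : ℕ} (hp : 0 < p) (hc : 0 < c) (h : p ∣ c) :
    (p : ℤ) ∣ ∑ y ∈ range (p * c), fac (p * c : ℕ) (false, 0, 0) (y : ℕ) := by
  have hm : (0 : ℤ) < (p * c : ℕ) := by exact_mod_cast Nat.mul_pos hp hc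
  have hr : ∀ x : ℤ, ((rd (p * c : ℕ) x : ℤ) : ZMod p) = x := fun x =>
    (ZMod.intCast_eq_intCast_iff _ _ _).2
      ((rd_modEq hm x).of_dvd (by push_cast; exact dvd_mul_right _ _))
  rw [← ZMod.intCast_zmod_eq_zero_iff_dvd, Int.cast_sum]
  have e : ∀ y ∈ range (p * c), ((fac (p * c : ℕ) (false, 0, 0) (y : ℕ) : ℤ) : ZMod p) =
      -((y % p : ℕ) : ZMod p) ^ (((p * c : ℕ) : ℤ) - 1 - 0).toNat := by
    intro y hy
    have hy' : ((y : ℕ) : ℤ) < (p * c : ℕ) := by exact_mod_cast mem_range.1 hy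
    rw [fac, if_pos hy', if_neg Bool.false_ne_true, Int.cast_neg, Int.cast_mul, powMod, powMod,
      hr, hr, ZMod.natCast_mod]
    simp
  rw [sum_congr rfl e, sum_range_mul p c fun y _ =>
    -((y : ℕ) : ZMod p) ^ (((p * c : ℕ) : ℤ) - 1 - 0).toNat]
  refine sum_eq_zero fun y _ => ?_
  rw [sum_const, card_range, nsmul_eq_mul, (ZMod.natCast_eq_zero_iff c p).2 h, zero_mul]

theorem ind_prime (a p : ℕ) (hp : p.Prime) (h2 : 2 < p) (hL : p ≤ 2 ^ (6 * a)) :
    ((indS a).map (facSum (6 * a) p)).prod = (KK a : ZMod p) := by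
  have : Fact p.Prime := ⟨hp⟩
  have : Fact (2 < p) := ⟨h2⟩
  have hI : (univ.filter fun x : ZMod p => x * x = 1).card = 2 := by
    rw [← card_pair (ZMod.neg_one_ne_one (n := p)).symm]
    congr 1
    ext x
    simp [mul_self_eq_one_iff]
  have h0 : facSum (6 * a) p (false, 0, 0) = 1 := by
    simpa using facSum_choose (6 * a) p 0 0 hp hL (by omega) (by omega)
  rw [indS, List.map_append, List.prod_append, List.map_replicate, h0, List.prod_replicate,
    one_pow, mul_one, KK, Int.cast_list_prod, List.map_map, List.map_map]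
  congr 1
  refine List.map_congr_left fun j _ => ?_
  simp only [Function.comp_apply]
  rw [facSum_true_Ind hp.one_lt hL, hI]
  push_cast
  rfl

theorem ind_comp (a m : ℕ) (hodd : m % 2 = 1) (h1 : 1 < m) (hL : m < 2 ^ (6 * a))
    (hm : ¬ m.Prime) : ((indS a).map (facSum (6 * a) m)).prod = 0 := by
  have : NeZero m := ⟨by omega⟩
  have hp : m.minFac.Prime := Nat.minFac_prime (by omega)
  have hpm : m.minFac ∣ m := Nat.minFac_dvd m
  generalize m.minFac = p at hp hpm
  obtain ⟨k, c, hc, e⟩ := Nat.exists_eq_pow_mul_and_not_dvd (n := m) (by omega) p hp.ne_one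
  have hk : k ≠ 0 := by
    rintro rfl
    rw [pow_zero, one_mul] at e
    exact hc (e ▸ hpm)
  have odd : ∀ d, d ∣ m → d ≠ 1 → 2 < d := by
    intro d hd hd1
    have h0 : d ≠ 0 := by
      rintro rfl
      have := Nat.eq_zero_of_zero_dvd hd
      omega
    have h2 : d ≠ 2 := by
      rintro rfl
      omega
    omega
  rw [indS, List.map_append, List.prod_append]
  by_cases hc1 : c = 1
  · subst hc1
    rw [mul_one] at e
    have hk1 : k ≠ 1 := by
      rintro rfl
      rw [pow_one] at e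
      exact hm (e ▸ hp)
    have hk6 : k < 6 * a := by
      refine (Nat.pow_lt_pow_iff_right one_lt_two).1 (lt_of_le_of_lt ?_ hL)
      rw [e]
      exact Nat.pow_le_pow_left hp.two_le k
    have e' : m = p * p ^ (k - 1) := by
      rw [← pow_succ', Nat.sub_add_cancel (by omega), e]
    have hd := dvd_sum_Ind hp.pos (pow_pos hp.pos (k - 1)) (dvd_pow_self p (by omega))
    rw [← e'] at hd
    rw [List.map_replicate, List.prod_replicate, facSum, sum_fac_Ind hL.le, ← Int.cast_pow,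
      (ZMod.intCast_zmod_eq_zero_iff_dvd _ m).2, mul_zero]
    refine dvd_trans ?_ (pow_dvd_pow_of_dvd hd _)
    rw [e]
    push_cast
    exact pow_dvd_pow _ hk6.le
  · obtain ⟨j, hj⟩ := card_pow_Ind m
    have hbig : 2 < (univ.filter fun x : ZMod m => x * x = 1).card := by
      have hb : 2 < p ^ k := odd _ (e ▸ dvd_mul_right _ _)
        (Nat.one_lt_pow hk hp.one_lt).ne'
      have hc2 : 2 < c := odd _ (e ▸ dvd_mul_left _ _) hc1
      subst e
      exact card_big_Ind hb hc2 (((Nat.Prime.coprime_iff_not_dvd hp).2 hc).pow_left k)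
    have hle : 2 ^ j ≤ m := by
      rw [← hj]
      exact (card_le_univ _).trans (ZMod.card m).le
    have hj6 : j < 6 * a := (Nat.pow_lt_pow_iff_right one_lt_two).1 (hle.trans_lt hL)
    have hj2 : 1 < j := by
      rw [hj] at hbig
      exact (Nat.pow_lt_pow_iff_right one_lt_two).1 (by simpa using hbig)
    rw [List.prod_eq_zero, zero_mul]
    rw [List.map_map, List.mem_map]
    refine ⟨j - 2, List.mem_range.2 (by omega), ?_⟩
    simp only [Function.comp_apply]
    rw [facSum_true_Ind h1 hL.le, hj, Nat.sub_add_cancel hj2]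
    push_cast
    exact sub_self _

end Pool.Agent.MP_7d676c_lc

end

section

/-! Divisibility properties of central binomial coefficients, and size bounds. -/

namespace Pool.Agent.MP_7d676c_lc

open Finset

/-- the product of the first `k` factors -/
def W_Binom (k : ℕ) : ℕ := ((List.range k).map fun i => Nat.centralBinom (2 ^ i)).prod

theorem UU_eq_Binom (a : ℕ) : UU a = W_Binom (2 * a) * W_Binom (a + 1) ^ (2 * a + 1) := by
  have h : ∀ m : ℕ, (((List.range m).flatMap fun _ => List.range (a + 1)).map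
      fun i => Nat.centralBinom (2 ^ i)).prod = W_Binom (a + 1) ^ m := by
    intro m
    induction m with
    | zero => simp
    | succ m ih =>
      rw [List.range_succ (n := m), List.flatMap_append, List.map_append, List.prod_append, ih,
        pow_succ, List.flatMap_singleton]
      rfl
  rw [UU, zs, List.map_append, List.prod_append, h]
  rfl

theorem dvd_W_Binom {p k : ℕ} (hp : p.Prime) (h : p ≤ 2 ^ k) : p ∣ W_Binom k := by
  induction k with
  | zero => exact absurd hp.two_le (by omega)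
  | succ k ih =>
    rw [W_Binom, List.range_succ, List.map_append, List.prod_append]
    by_cases hk : p ≤ 2 ^ k
    · exact (ih hk).mul_right _
    · refine Dvd.dvd.mul_left ?_ _
      rw [List.map_singleton, List.prod_singleton, Nat.centralBinom_eq_two_mul_choose]
      rw [pow_succ] at h
      exact hp.dvd_choose (by omega) (by omega) (by omega)

theorem W_le_Binom (k : ℕ) : W_Binom k ≤ 2 ^ (2 * 2 ^ k) := by
  induction k with
  | zero => simp [W_Binom]
  | succ k ih =>
    rw [W_Binom, List.range_succ, List.map_append, List.prod_append, List.map_singleton,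
      List.prod_singleton, Nat.centralBinom_eq_two_mul_choose, pow_succ, ← mul_assoc, mul_two,
      pow_add]
    exact Nat.mul_le_mul ih (Nat.choose_le_two_pow _ _)

theorem cb_dvd (a n : ℕ) (h1 : 2 ^ (2 * a) ≤ 2 * n) (h2 : 2 * n ≤ 3 * 2 ^ (2 * a)) :
    Nat.centralBinom n ∣ UU a * ∏ p ∈ PS a n, p := by
  refine (Nat.dvd_iff_prime_pow_dvd_dvd _ _).2 fun p k hp hk => ?_
  have hk' := (hp.pow_dvd_iff_le_factorization (Nat.centralBinom_ne_zero n)).1 hk
  have hpos : 0 < 2 ^ (2 * a) := by positivity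
  have h3 : 2 * n < 2 ^ (2 * a + 2) := by rw [pow_add]; omega
  rw [UU_eq_Binom]
  by_cases c1 : p ≤ 2 ^ (a + 1)
  · have h4 : (Nat.centralBinom n).factorization p ≤ Nat.log p (2 * n) :=
      Nat.factorization_choose_le_log
    have h5 : Nat.log p (2 * n) < 2 * a + 2 :=
      Nat.log_lt_of_lt_pow (by omega) (h3.trans_le (Nat.pow_le_pow_left hp.two_le _))
    exact (((pow_dvd_pow p (by omega)).trans
      (pow_dvd_pow_of_dvd (dvd_W_Binom hp c1) (2 * a + 1))).mul_left _).mul_right _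
  have h4 : (Nat.centralBinom n).factorization p ≤ 1 := by
    refine Nat.factorization_choose_le_one (h3.trans_le ?_)
    calc 2 ^ (2 * a + 2) = (2 ^ (a + 1)) ^ 2 := by ring
      _ ≤ p ^ 2 := Nat.pow_le_pow_left (by omega) 2
  rcases Nat.eq_zero_or_pos k with rfl | hk0
  · simp
  obtain rfl : k = 1 := by omega
  rw [pow_one]
  by_cases c2 : p ≤ 2 ^ (2 * a)
  · exact ((dvd_W_Binom hp c2).mul_right _).mul_right _
  have h5 : 2 ≤ 2 ^ (a + 1) := by
    rw [pow_succ]
    have : 0 < 2 ^ a := by positivity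
    omega
  by_cases c3 : p ≤ n
  · have := Nat.factorization_centralBinom_of_two_mul_self_lt_three_mul (n := n) (p := p)
      (by omega) c3 (by omega)
    omega
  have c4 : p ≤ 2 * n := by
    by_contra c4
    have := Nat.factorization_centralBinom_eq_zero_of_two_mul_lt (n := n) (p := p) (by omega)
    omega
  refine Dvd.dvd.mul_left (dvd_prod_of_mem (fun p => p) ?_) _
  rw [PS, mem_filter, mem_Ioc]
  exact ⟨⟨max_lt (by omega) (by omega), c4⟩, hp⟩

theorem asc_Binom (p j : ℕ) : (((p + 1).ascFactorial j : ℕ) : ZMod p) = (j.factorial : ℕ) := by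
  induction j with
  | zero => simp
  | succ j ih =>
    rw [Nat.ascFactorial_succ, Nat.factorial_succ]
    push_cast
    rw [ih, ZMod.natCast_self]
    ring

theorem cb_inv (n p : ℕ) (hp : p.Prime) (h1 : n < p) (h2 : p ≤ 2 * n) :
    ∃ c : ℕ, Nat.centralBinom n = p * c ∧
      (c : ZMod p) * ((-1) ^ (n + 1) * (n : ZMod p) * (n.choose (2 * n - p) : ZMod p)) = 1 := by
  have := Fact.mk hp
  obtain ⟨c, hc⟩ : p ∣ Nat.centralBinom n := by
    rw [Nat.centralBinom_eq_two_mul_choose]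
    exact hp.dvd_choose h1 (by omega) h2
  refine ⟨c, hc, ?_⟩
  obtain ⟨j, hj⟩ : ∃ j, j = 2 * n - p := ⟨_, rfl⟩
  obtain ⟨b, hb⟩ : ∃ b, b = p - 1 - n := ⟨_, rfl⟩
  rw [← hj]
  have e1 : c * n.factorial * n.factorial = (p - 1).factorial * (p + 1).ascFactorial j := by
    have a1 := Nat.choose_mul_factorial_mul_factorial (n := 2 * n) (k := n) (by omega)
    have a2 := Nat.factorial_mul_ascFactorial p j
    rw [← Nat.centralBinom_eq_two_mul_choose, hc, show 2 * n - n = n by omega] at a1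
    rw [show p + j = 2 * n by omega, ← a1, ← Nat.mul_factorial_pred hp.ne_zero] at a2
    apply Nat.eq_of_mul_eq_mul_left hp.pos
    linear_combination a2.symm
  have e2 := Nat.factorial_mul_descFactorial (n := p - 1) (k := n) (by omega)
  have e3 := Nat.choose_mul_factorial_mul_factorial (n := n) (k := j) (by omega)
  rw [show n - j = b + 1 by omega, Nat.factorial_succ] at e3
  rw [← hb] at e2
  have f1 := congrArg (Nat.cast : ℕ → ZMod p) e1
  have f2 := congrArg (Nat.cast : ℕ → ZMod p) e2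
  have f3 := congrArg (Nat.cast : ℕ → ZMod p) e3
  have f4 : (b : ZMod p) + 1 = -n := by
    have := congrArg (Nat.cast : ℕ → ZMod p) (show b + 1 + n = p by omega)
    push_cast at this
    rw [ZMod.natCast_self] at this
    linear_combination this
  push_cast at f1 f2 f3
  rw [ZMod.wilsons_lemma, asc_Binom] at f1
  rw [ZMod.wilsons_lemma, ZMod.cast_descFactorial h1.le] at f2
  rw [f4] at f3
  have hs : ((-1 : ZMod p) ^ n) ^ 2 = 1 := by rw [← pow_mul, mul_comm, pow_mul]; simp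
  rw [pow_succ]
  generalize (-1 : ZMod p) ^ n = s at *
  generalize (n.factorial : ZMod p) = A at *
  generalize (b.factorial : ZMod p) = B at *
  generalize (j.factorial : ZMod p) = J at *
  generalize (n.choose j : ZMod p) = C at *
  have hA : A ≠ 0 := by
    rintro rfl
    simp at f2
  apply mul_right_cancel₀ hA
  linear_combination f3 + C * n * B * f1 - c * n * C * A * s * f2 + c * n * C * A * B * A * hs

theorem KK_pos (a : ℕ) : 0 < KK a := by
  refine List.prod_pos fun x hx => ?_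
  obtain ⟨j, -, rfl⟩ := List.mem_map.1 hx
  have : (0 : ℤ) < 2 ^ j := by positivity
  rw [pow_add]
  omega

theorem UU_pos (a : ℕ) : 0 < UU a := by
  refine List.prod_pos fun x hx => ?_
  obtain ⟨j, -, rfl⟩ := List.mem_map.1 hx
  exact Nat.centralBinom_pos _

theorem KK_le_Binom (k : ℕ) :
    ((List.range k).map fun j => (2 : ℤ) ^ (j + 2) - 2).prod ≤ 2 ^ ((k + 2) * k) := by
  induction k with
  | zero => simp
  | succ k ih =>
    rw [List.range_succ, List.map_append, List.prod_append, List.map_singleton,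
      List.prod_singleton]
    have h0 : (0 : ℤ) < 2 ^ k := by positivity
    calc _ ≤ (2 : ℤ) ^ ((k + 2) * k) * 2 ^ (k + 2) :=
          mul_le_mul ih (by omega) (by rw [pow_add]; omega) (by positivity)
      _ = 2 ^ ((k + 2) * k + (k + 2)) := by rw [← pow_add]
      _ ≤ _ := pow_le_pow_right₀ (by norm_num) (by nlinarith)

theorem size_bound (a : ℕ) (ha : 8 ≤ a) (N : ℤ) (hN : |N| ≤ 2 ^ 2 ^ (a - 8)) :
    8 * 2 ^ (2 * a) * |(2 * N - 1) * KK a * UU a| ≤ 2 ^ (3 * 2 ^ (2 * a)) := by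
  have h1 : |2 * N - 1| ≤ 2 ^ (2 ^ (a - 8) + 2) := by
    have h0 : (0 : ℤ) < 2 ^ 2 ^ (a - 8) := by positivity
    rw [pow_add, abs_le] at *
    omega
  have h2 : KK a ≤ 2 ^ (36 * a ^ 2) :=
    (KK_le_Binom _).trans (pow_le_pow_right₀ (by norm_num) (by
      rw [show 6 * a - 2 + 2 = 6 * a by omega]
      calc 6 * a * (6 * a - 2) ≤ 6 * a * (6 * a) := Nat.mul_le_mul_left _ (Nat.sub_le _ _)
        _ = _ := by ring))
  have h3 : (UU a : ℤ) ≤ 2 ^ (2 * 2 ^ (2 * a) + 2 * 2 ^ (a + 1) * (2 * a + 1)) := by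
    have : UU a ≤ 2 ^ (2 * 2 ^ (2 * a) + 2 * 2 ^ (a + 1) * (2 * a + 1)) := by
      rw [UU_eq_Binom, pow_add 2 (2 * 2 ^ (2 * a)), pow_mul 2 (2 * 2 ^ (a + 1))]
      exact Nat.mul_le_mul (W_le_Binom _) (Nat.pow_le_pow_left (W_le_Binom _) _)
    exact_mod_cast this
  have h4 : ∀ b : ℕ, 32 * (b + 8) ≤ 2 ^ (b + 8) := by
    intro b
    induction b with
    | zero => norm_num
    | succ b ih => rw [show b + 1 + 8 = b + 8 + 1 by ring, pow_succ]; omega
  have h5 := h4 (a - 8)
  rw [show a - 8 + 8 = a by omega] at h5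
  have h6 : 2 ^ (a - 8) ≤ 2 ^ a := Nat.pow_le_pow_right (by norm_num) (by omega)
  have hK := KK_pos a
  rw [abs_mul, abs_mul, abs_of_pos hK, Nat.abs_cast]
  calc _ ≤ (8 : ℤ) * 2 ^ (2 * a) * (2 ^ (2 ^ (a - 8) + 2) * 2 ^ (36 * a ^ 2) *
        2 ^ (2 * 2 ^ (2 * a) + 2 * 2 ^ (a + 1) * (2 * a + 1))) := by gcongr
    _ = 2 ^ (3 + 2 * a + (2 ^ (a - 8) + 2 + 36 * a ^ 2 +
        (2 * 2 ^ (2 * a) + 2 * 2 ^ (a + 1) * (2 * a + 1)))) := by
      rw [pow_add 2 (3 + 2 * a), pow_add 2 3, pow_add 2 (2 ^ (a - 8) + 2 + 36 * a ^ 2),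
        pow_add 2 (2 ^ (a - 8) + 2)]
      norm_num
    _ ≤ _ := by
      refine pow_le_pow_right₀ (by norm_num) ?_
      rw [pow_succ 2 a, mul_comm 2 a, pow_mul, pow_two (2 ^ a)]
      generalize 2 ^ (a - 8) = s at *
      generalize 2 ^ a = t at *
      nlinarith

end Pool.Agent.MP_7d676c_lc

end

section

/-! The decomposition into fractions with prime denominators. -/

namespace Pool.Agent.MP_7d676c_lc

open Finset

/-- Fractions with distinct prime denominators. -/
theorem frac_Frac (P : Finset ℕ) (hP : ∀ p ∈ P, p.Prime) (c : ℕ → ℤ) (T : ℤ)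
    (h : ∀ p ∈ P, (p : ℤ) ∣ T - c p * ∏ q ∈ P.erase p, (q : ℤ)) :
    ∃ z : ℤ, (T : ℚ) / (∏ p ∈ P, (p : ℚ)) - ∑ p ∈ P, (c p : ℚ) / p = z := by
  have hd : (∏ p ∈ P, (p : ℤ)) ∣ T - ∑ p ∈ P, c p * ∏ q ∈ P.erase p, (q : ℤ) := by
    refine Finset.prod_dvd_of_coprime ?_ fun p hp => ?_
    · intro p hp q hq hpq
      exact Nat.isCoprime_iff_coprime.2 ((Nat.coprime_primes (hP p hp) (hP q hq)).2 hpq)
    · rw [← add_sum_erase _ _ hp, ← sub_sub]
      refine dvd_sub (h p hp) (dvd_sum fun q hq => Dvd.dvd.mul_left ?_ _)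
      exact dvd_prod_of_mem _ (mem_erase.2 ⟨(mem_erase.1 hq).1.symm, hp⟩)
  obtain ⟨z, hz⟩ := hd
  refine ⟨z, ?_⟩
  have hA : (∏ p ∈ P, (p : ℚ)) ≠ 0 :=
    prod_ne_zero_iff.2 fun p hp => by exact_mod_cast (hP p hp).ne_zero
  have h2 : ∑ p ∈ P, (c p : ℚ) / p =
      (∑ p ∈ P, (c p : ℚ) * ∏ q ∈ P.erase p, (q : ℚ)) / ∏ p ∈ P, (p : ℚ) := by
    rw [sum_div]
    refine sum_congr rfl fun p hp => ?_
    have hp0 : (p : ℚ) ≠ 0 := by exact_mod_cast (hP p hp).ne_zero
    rw [div_eq_div_iff hp0 hA, ← mul_prod_erase _ _ hp]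
    ring
  have h3 := congrArg (fun x : ℤ => (x : ℚ)) hz
  push_cast at h3
  rw [h2, ← sub_div, h3, mul_div_cancel_left₀ _ hA]

/-- The numerators as a function of the modulus and of the remaining digits. -/
def hh_Frac (nm : ℤ → ℤ) (a n m W : ℕ) : ℤ :=
  if (m : ℤ) % 2 = 1 ∧ (n : ℤ) < m ∧ (2 : ℤ) ^ (2 * a) < m ∧ (m : ℤ) ≤ 2 * n then
    rd m ((2 * nm m - 1) * n * (if (n : ℤ) % 2 = 0 then -1 else 1) *
      term (6 * a) m (aS a n m) W)
  else 0

/-- The total numerator for the modulus `m`. -/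
def cc_Frac (nm : ℤ → ℤ) (a n m : ℕ) : ℤ :=
  ∑ W ∈ range (2 ^ (6 * a * ((uS a).length + (indS a).length + 1))), hh_Frac nm a n m W

theorem aa_Frac (nm : ℤ → ℤ) (a n V : ℕ) :
    aa nm a n V = hh_Frac nm a n (V % 2 ^ (6 * a)) (V / 2 ^ (6 * a)) := by
  unfold aa hh_Frac
  push_cast
  rfl

theorem xx_Frac (nm : ℤ → ℤ) (a n : ℕ) :
    xx nm a n = ∑ m ∈ range (2 ^ (6 * a)), (cc_Frac nm a n m : ℚ) / m := by
  have e : wl a = 6 * a + 6 * a * ((uS a).length + (indS a).length + 1) := by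
    rw [wl]; ring
  rw [xx, e, pow_add]
  simp only [aa_Frac]
  rw [sum_range_mul (2 ^ (6 * a)) _ fun y w => (hh_Frac nm a n y w : ℚ) / (y : ℚ)]
  refine sum_congr rfl fun m _ => ?_
  rw [cc_Frac, Int.cast_sum, sum_div]

theorem cc_cast_Frac {N : ℤ} {nm : ℤ → ℤ} (hN : Res N nm) (a n m : ℕ)
    (h : (m : ℤ) % 2 = 1 ∧ (n : ℤ) < m ∧ (2 : ℤ) ^ (2 * a) < m ∧ (m : ℤ) ≤ 2 * n) :
    (cc_Frac nm a n m : ZMod m) = (2 * (N : ZMod m) - 1) * n * (-1) ^ (n + 1) *
      (facSum (6 * a) m (false, (n : ℤ), 2 * (n : ℤ) - m) *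
        (((uS a).map (facSum (6 * a) m)).prod * ((indS a).map (facSum (6 * a) m)).prod)) := by
  have hm : 0 < m := by omega
  have h1 := sum_term (6 * a) m hm (aS a n m)
  rw [length_aS, Int.cast_sum] at h1
  have h2 : ((nm m : ℤ) : ZMod m) = N :=
    (ZMod.intCast_eq_intCast_iff _ _ _).2 (hN m (by exact_mod_cast hm))
  have h3 : (((if (n : ℤ) % 2 = 0 then -1 else 1 : ℤ)) : ZMod m) = (-1) ^ (n + 1) := by
    split_ifs with h4
    · rw [Odd.neg_one_pow (Nat.odd_iff.2 (by omega))]; simp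
    · rw [Even.neg_one_pow (Nat.even_iff.2 (by omega))]; simp
  rw [aS, List.map_cons, List.prod_cons, List.map_append, List.prod_append] at h1
  rw [← h1, cc_Frac, Int.cast_sum, mul_sum]
  refine sum_congr rfl fun W _ => ?_
  rw [hh_Frac, if_pos h, cast_rd hm, Int.cast_mul, Int.cast_mul, Int.cast_mul, h3, Int.cast_sub,
    Int.cast_mul, h2, aS]
  simp

theorem cc_int_Frac {N : ℤ} {nm : ℤ → ℤ} (hN : Res N nm) (a n m : ℕ) (hm : m < 2 ^ (6 * a))
    (h : m ∉ PS a n) : ∃ z : ℤ, (cc_Frac nm a n m : ℚ) / m = z := by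
  by_cases hc : (m : ℤ) % 2 = 1 ∧ (n : ℤ) < m ∧ (2 : ℤ) ^ (2 * a) < m ∧ (m : ℤ) ≤ 2 * n
  · have h1 := cc_cast_Frac hN a n m hc
    obtain ⟨c1, c2, c3, c4⟩ := hc
    have c5 : 2 ^ (2 * a) < m := by exact_mod_cast c3
    have c6 : 1 ≤ 2 ^ (2 * a) := Nat.one_le_two_pow
    have hp : ¬ m.Prime := fun hp =>
      h (mem_filter.2 ⟨mem_Ioc.2 ⟨max_lt (by omega) c5, by omega⟩, hp⟩)
    rw [ind_comp a m (by omega) (by omega) hm hp, mul_zero, mul_zero, mul_zero,
      ZMod.intCast_zmod_eq_zero_iff_dvd] at h1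
    obtain ⟨z, hz⟩ := h1
    have h0 : (m : ℚ) ≠ 0 := by exact_mod_cast (by omega : m ≠ 0)
    exact ⟨z, by rw [hz]; push_cast; rw [mul_div_cancel_left₀ _ h0]⟩
  · exact ⟨0, by simp only [cc_Frac, hh_Frac, if_neg hc]; simp⟩

theorem QQ_int {N : ℤ} {nm : ℤ → ℤ} (hN : Res N nm) {a n : ℕ} (ha : 8 ≤ a)
    (h1 : 2 ^ (2 * a) ≤ 2 * n) (h2 : 2 * n ≤ 3 * 2 ^ (2 * a)) :
    ∃ z : ℤ, QQ N nm a n = z := by
  have b1 : 2 ^ 2 ≤ 2 ^ (2 * a) := Nat.pow_le_pow_right two_pos (by omega)
  have b2 : 2 ^ (2 * a + 2) ≤ 2 ^ (6 * a) := Nat.pow_le_pow_right two_pos (by omega)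
  rw [pow_add] at b2
  have hPS : ∀ p ∈ PS a n, p.Prime ∧ n < p ∧ 2 ^ (2 * a) < p ∧ p ≤ 2 * n := fun p hp => by
    obtain ⟨h3, h4⟩ := mem_filter.1 hp
    obtain ⟨h5, h6⟩ := mem_Ioc.1 h3
    exact ⟨h4, (max_lt_iff.1 h5).1, (max_lt_iff.1 h5).2, h6⟩
  have hsub : PS a n ⊆ range (2 ^ (6 * a)) := fun p hp => by
    have := hPS p hp
    exact mem_range.2 (by omega)
  obtain ⟨G, hG⟩ := cb_dvd a n h1 h2
  obtain ⟨z1, hz1⟩ := frac_Frac (PS a n) (fun p hp => (hPS p hp).1) (cc_Frac nm a n)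
    ((2 * N - 1) * KK a * G) fun p hp => by
      obtain ⟨hp1, hp2, hp3, hp4⟩ := hPS p hp
      obtain ⟨c, hc1, hc2⟩ := cb_inv n p hp1 hp2 hp4
      have hodd : p % 2 = 1 := hp1.eq_two_or_odd.resolve_left (by omega)
      have e1 := cc_cast_Frac hN a n p ⟨by omega, by omega, by exact_mod_cast hp3, by omega⟩
      have e2 : 2 * (n : ℤ) - p = ((2 * n - p : ℕ) : ℤ) := by omega
      rw [e2, facSum_choose _ p n _ hp1 (by omega) (by omega) (by omega),
        uS_prod a p (by omega) hp1 hp3 (by omega), ind_prime a p hp1 (by omega) (by omega)] at e1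
      have e3 : UU a * ∏ q ∈ (PS a n).erase p, q = c * G := by
        refine Nat.eq_of_mul_eq_mul_left hp1.pos ?_
        rw [← mul_assoc p c, ← hc1, ← hG, ← mul_prod_erase _ _ hp]
        ring
      have e4 := congrArg (fun x : ℕ => (x : ZMod p)) e3
      rw [← ZMod.intCast_zmod_eq_zero_iff_dvd]
      push_cast at e4 ⊢
      rw [e1]
      linear_combination (-(2 * (N : ZMod p) - 1) * (KK a : ZMod p) * G) * hc2 -
        (2 * (N : ZMod p) - 1) * (KK a : ZMod p) *
          ((-1) ^ (n + 1) * (n : ZMod p) * (n.choose (2 * n - p) : ZMod p)) * e4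
  have h3 : ∃ z : ℤ, ∑ m ∈ range (2 ^ (6 * a)) \ PS a n, (cc_Frac nm a n m : ℚ) / m = z := by
    refine sum_induction _ (fun x : ℚ => ∃ z : ℤ, x = z) ?_ ⟨0, by simp⟩ fun m hm => ?_
    · rintro _ _ ⟨x, rfl⟩ ⟨y, rfl⟩
      exact ⟨x + y, by simp⟩
    · exact cc_int_Frac hN a n m (mem_range.1 (mem_sdiff.1 hm).1) (mem_sdiff.1 hm).2
  obtain ⟨z2, hz2⟩ := h3
  have h4 : th N a n = (((2 * N - 1) * KK a * G : ℤ) : ℚ) / ∏ p ∈ PS a n, (p : ℚ) := by
    have c1 : (Nat.centralBinom n : ℚ) ≠ 0 := by exact_mod_cast (Nat.centralBinom_pos n).ne'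
    have c2 : (∏ p ∈ PS a n, (p : ℚ)) ≠ 0 :=
      prod_ne_zero_iff.2 fun p hp => by exact_mod_cast (hPS p hp).1.ne_zero
    have c3 := congrArg (fun x : ℕ => (x : ℚ)) hG
    push_cast at c3
    rw [th, div_eq_div_iff c1 c2]
    push_cast
    linear_combination ((2 * (N : ℚ) - 1) * (KK a : ℚ)) * c3
  refine ⟨z1 - z2 + rr a (FF nm a n), ?_⟩
  rw [QQ, xx_Frac, ← sum_sdiff hsub, hz2, h4]
  push_cast at hz1 ⊢
  linear_combination hz1

end Pool.Agent.MP_7d676c_lc

end

section

/-! The approximation of the sum of fractions and the check modulo a prime. -/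

namespace Pool.Agent.MP_7d676c_lc

open Finset

theorem ediv_bounds_Chk (x : ℤ) {m : ℤ} (hm : 0 < m) :
    0 ≤ (x : ℚ) / m - ((x / m : ℤ) : ℚ) ∧ (x : ℚ) / m - ((x / m : ℤ) : ℚ) < 1 := by
  have h1 := Int.mul_ediv_add_emod x m
  have h2 := Int.emod_nonneg x hm.ne'
  have h3 := Int.emod_lt_of_pos x hm
  have hm' : (0 : ℚ) < m := by exact_mod_cast hm
  have h4 : (x : ℚ) / m - ((x / m : ℤ) : ℚ) = ((x % m : ℤ) : ℚ) / m := by
    have h5 : (x : ℚ) = m * ((x / m : ℤ) : ℚ) + ((x % m : ℤ) : ℚ) := by exact_mod_cast h1.symm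
    field_simp
    linarith
  rw [h4]
  refine ⟨div_nonneg (by exact_mod_cast h2) hm'.le, ?_⟩
  rw [div_lt_one hm']
  exact_mod_cast h3

theorem cast_mod_Chk (a V : ℕ) : ((V : ℤ) % 2 ^ (6 * a)) = ((V % 2 ^ (6 * a) : ℕ) : ℤ) := by
  push_cast
  rfl

theorem term_approx_Chk (nm : ℤ → ℤ) (a : ℕ) (n : ℤ) (V : ℕ) :
    0 ≤ (aa nm a n (V : ℕ) : ℚ) / ((V % 2 ^ (6 * a) : ℕ) : ℚ) -
        (vF nm a n (V : ℕ) : ℚ) / 2 ^ (wl a + 4) ∧
      (aa nm a n (V : ℕ) : ℚ) / ((V % 2 ^ (6 * a) : ℕ) : ℚ) -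
        (vF nm a n (V : ℕ) : ℚ) / 2 ^ (wl a + 4) ≤ 1 / 2 ^ (wl a + 4) := by
  rw [vF, cast_mod_Chk]
  generalize V % 2 ^ (6 * a) = m
  generalize aa nm a n (V : ℕ) = x
  have hs : (0 : ℚ) < 2 ^ (wl a + 4) := by positivity
  rcases Nat.eq_zero_or_pos m with rfl | hm
  · simp
  · obtain ⟨h1, h2⟩ := ediv_bounds_Chk (2 ^ (wl a + 4) * x) (m := (m : ℤ)) (by exact_mod_cast hm)
    have hm' : (0 : ℚ) < m := by exact_mod_cast hm
    generalize (2 ^ (wl a + 4) * x / (m : ℤ) : ℤ) = y at h1 h2 ⊢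
    have h3 : (x : ℚ) / m - (y : ℚ) / 2 ^ (wl a + 4) =
        (((2 ^ (wl a + 4) * x : ℤ) : ℚ) / ((m : ℤ) : ℚ) - y) / 2 ^ (wl a + 4) := by
      push_cast
      field_simp
    rw [h3]
    exact ⟨div_nonneg h1 hs.le, div_le_div_of_nonneg_right h2.le hs.le⟩

theorem xx_approx (nm : ℤ → ℤ) (a : ℕ) (n : ℤ) :
    0 ≤ xx nm a n - (FF nm a n : ℚ) / 2 ^ (wl a + 4) ∧
      xx nm a n - (FF nm a n : ℚ) / 2 ^ (wl a + 4) ≤ 1 / 16 := by
  have h : xx nm a n - (FF nm a n : ℚ) / 2 ^ (wl a + 4) =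
      ∑ V ∈ range (2 ^ wl a), ((aa nm a n (V : ℕ) : ℚ) / ((V % 2 ^ (6 * a) : ℕ) : ℚ) -
        (vF nm a n (V : ℕ) : ℚ) / 2 ^ (wl a + 4)) := by
    rw [xx, FF, sum_sub_distrib, Int.cast_sum, sum_div]
  rw [h]
  refine ⟨sum_nonneg fun V _ => (term_approx_Chk nm a n V).1, ?_⟩
  refine (sum_le_sum fun V _ => (term_approx_Chk nm a n V).2).trans ?_
  rw [sum_const, card_range, nsmul_eq_mul]
  push_cast
  rw [pow_add]
  field_simp
  norm_num

theorem rr_approx (a : ℕ) (F : ℤ) :
    -(1 / 2) ≤ (F : ℚ) / 2 ^ (wl a + 4) - rr a F ∧ (F : ℚ) / 2 ^ (wl a + 4) - rr a F < 1 / 2 := by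
  obtain ⟨h1, h2⟩ := ediv_bounds_Chk (F + 2 ^ (wl a + 3)) (m := 2 ^ (wl a + 4)) (by positivity)
  have h3 : (((F + 2 ^ (wl a + 3) : ℤ) : ℚ)) / ((2 ^ (wl a + 4) : ℤ) : ℚ) =
      (F : ℚ) / 2 ^ (wl a + 4) + 1 / 2 := by
    push_cast
    rw [show wl a + 4 = (wl a + 3) + 1 by ring, pow_succ (2 : ℚ) (wl a + 3)]
    field_simp
  rw [h3] at h1 h2
  rw [rr]
  constructor <;> linarith

theorem vP_nonneg_Chk (q d : ℤ) : 0 ≤ vP q d := by
  unfold vP
  split_ifs <;> norm_num

theorem Pr_eq_zero_Chk (a q : ℕ) (hq : q.Prime) : Pr a q = 0 := by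
  refine sum_eq_zero fun d _ => ?_
  unfold vP
  rw [if_neg]
  rintro ⟨h1, h2, h3⟩
  have h4 : d ∣ q := by exact_mod_cast Int.dvd_of_emod_eq_zero h3
  rcases (Nat.dvd_prime hq).1 h4 with h | h <;> omega

theorem chk_of_not_prime (nm : ℤ → ℤ) (a : ℕ) (n : ℤ) (q : ℕ) (hq : q < 2 ^ (6 * a))
    (h : ¬ (q.Prime ∧ 3 * 2 ^ (2 * a) < q)) : chk nm a n q = true := by
  rw [chk, decide_eq_true_iff]
  rintro ⟨h1, h2⟩
  exfalso
  have h3 : 3 * 2 ^ (2 * a) < q := by exact_mod_cast h2
  have h4 : 1 ≤ 2 ^ (2 * a) := Nat.one_le_two_pow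
  refine h ⟨?_, h3⟩
  by_contra hp
  obtain ⟨d, hd, hd1, hd2⟩ := Nat.exists_dvd_of_not_prime2 (by omega) hp
  have h5 := (sum_eq_zero_iff_of_nonneg fun (d : ℕ) _ => vP_nonneg_Chk q d).1 h1 d
    (mem_range.2 (hd2.trans hq))
  unfold vP at h5
  rw [if_pos] at h5
  · exact one_ne_zero h5
  · refine ⟨by omega, by omega, Int.emod_eq_zero_of_dvd ?_⟩
    exact_mod_cast hd

theorem aa_range_Chk {nm : ℤ → ℤ} {a n V : ℕ} (h : aa nm a n (V : ℕ) ≠ 0) :
    0 < V % 2 ^ (6 * a) ∧ V % 2 ^ (6 * a) ≤ 2 * n := by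
  unfold aa at h
  rw [cast_mod_Chk] at h
  by_contra hc
  apply h
  rw [if_neg]
  rintro ⟨-, h1, -, h2⟩
  apply hc
  omega

theorem chk_iff {N : ℤ} {nm : ℤ → ℤ} (hN : Res N nm) {a n : ℕ} (ha : 8 ≤ a)
    (h2 : 2 * n ≤ 3 * 2 ^ (2 * a)) {q : ℕ} (hq : q.Prime) (hq1 : 3 * 2 ^ (2 * a) < q)
    (hq2 : q < 2 ^ (6 * a)) {z : ℤ} (hz : QQ N nm a n = z) :
    chk nm a n q = true ↔ (q : ℤ) ∣ z := by
  have := Fact.mk hq
  have hq0 : 0 < q := hq.pos
  have hq3 : 2 ≤ q := hq.two_le
  have h4 : 1 ≤ 2 ^ (2 * a) := Nat.one_le_two_pow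
  have hnq : 2 * n < q := by omega
  have hUb : ((Ub a q : ℤ) : ZMod q) = (UU a : ZMod q) := by
    rw [Ub, sum_term _ _ hq0, uS_prod a q (by omega) hq (by omega) hq2.le]
  have hCb : ((Cb a n q : ℤ) : ZMod q) = (Nat.centralBinom n : ZMod q) := by
    have h5 := sum_term (6 * a) q hq0 [(false, 2 * (n : ℤ), (n : ℤ))]
    have h6 := facSum_choose (6 * a) q (2 * n) n hq hq2.le (by omega) (by omega)
    simp only [List.length_singleton, mul_one, List.map_cons, List.map_nil, List.prod_cons,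
      List.prod_nil] at h5
    rw [Cb, h5, Nat.centralBinom_eq_two_mul_choose, ← h6]
    push_cast
    rfl
  have hnm : ((nm q : ℤ) : ZMod q) = (N : ZMod q) :=
    (ZMod.intCast_eq_intCast_iff _ _ _).2 (hN q (by exact_mod_cast hq0))
  have hD : (((2 * n).factorial : ℕ) : ZMod q) ≠ 0 := by
    rw [Ne, ZMod.natCast_eq_zero_iff, hq.dvd_factorial]
    omega
  have hcb : ((Nat.centralBinom n : ℕ) : ZMod q) ≠ 0 := by
    intro h0
    apply hD
    have h5 := Nat.choose_mul_factorial_mul_factorial (show n ≤ 2 * n by omega)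
    rw [← h5, ← Nat.centralBinom_eq_two_mul_choose]
    push_cast
    rw [h0]
    ring
  -- the integer numerators over the common denominator
  set e : ℕ → ℤ := fun V => aa nm a n (V : ℕ) * (((2 * n).factorial / (V % 2 ^ (6 * a)) : ℕ) : ℤ)
    with he
  have he1 : ∀ V : ℕ, (aa nm a n (V : ℕ) : ℚ) / ((V % 2 ^ (6 * a) : ℕ) : ℚ) *
      ((2 * n).factorial : ℕ) = (e V : ℚ) := by
    intro V
    by_cases h0 : aa nm a n (V : ℕ) = 0
    · simp [he, h0]
    · obtain ⟨h5, h6⟩ := aa_range_Chk h0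
      have h7 := Nat.dvd_factorial h5 h6
      have h8 : (((V % 2 ^ (6 * a) : ℕ) : ℚ)) ≠ 0 := by exact_mod_cast h5.ne'
      simp only [he]
      rw [Int.cast_mul, Int.cast_natCast, Nat.cast_div h7 h8]
      ring
  have he2 : ∀ V : ℕ, ((e V : ℤ) : ZMod q) =
      ((2 * n).factorial : ℕ) * ((vX nm a n q (V : ℕ) : ℤ) : ZMod q) := by
    intro V
    have h9 : ((q : ℤ) - 2) = ((q - 2 : ℕ) : ℤ) := by omega
    rw [vX, cast_rd hq0, Int.cast_mul (aa nm a n (V : ℕ)) (powMod _ _ _), h9, cast_powMod hq0,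
      cast_mod_Chk]
    by_cases h0 : aa nm a n (V : ℕ) = 0
    · simp [he, h0]
    · obtain ⟨h5, h6⟩ := aa_range_Chk h0
      have h7 := Nat.dvd_factorial h5 h6
      simp only [he]
      generalize V % 2 ^ (6 * a) = m at h5 h6 h7 ⊢
      have h8 : ((m : ℕ) : ZMod q) ≠ 0 := by
        rw [Ne, ZMod.natCast_eq_zero_iff]
        exact Nat.not_dvd_of_pos_of_lt h5 (by omega)
      have h10 := ZMod.pow_card_sub_one_eq_one h8
      rw [show q - 1 = (q - 2) + 1 by omega, pow_succ] at h10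
      obtain ⟨c, hc⟩ := h7
      rw [hc, Nat.mul_div_cancel_left _ h5]
      push_cast
      linear_combination (-(aa nm a n (V : ℕ) : ZMod q) * c) * h10
  have hxx : xx nm a n * ((2 * n).factorial : ℕ) = ((∑ V ∈ range (2 ^ wl a), e V : ℤ) : ℚ) := by
    rw [xx, sum_mul, Int.cast_sum]
    exact sum_congr rfl fun V _ => he1 V
  have hXX : ((∑ V ∈ range (2 ^ wl a), e V : ℤ) : ZMod q) =
      ((2 * n).factorial : ℕ) * ((XX nm a n q : ℤ) : ZMod q) := by
    rw [XX, Int.cast_sum, Int.cast_sum, mul_sum]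
    exact sum_congr rfl fun V _ => he2 V
  have hcb0 : ((Nat.centralBinom n : ℕ) : ℚ) ≠ 0 := by
    exact_mod_cast (Nat.centralBinom_pos n).ne'
  generalize (∑ V ∈ range (2 ^ wl a), e V : ℤ) = E at hxx hXX
  have hint : z * (Nat.centralBinom n : ℕ) * ((2 * n).factorial : ℕ) =
      (2 * N - 1) * KK a * UU a * ((2 * n).factorial : ℕ) - (Nat.centralBinom n : ℕ) * E +
        rr a (FF nm a n) * (Nat.centralBinom n : ℕ) * ((2 * n).factorial : ℕ) := by
    have h5 : ((z * (Nat.centralBinom n : ℕ) * ((2 * n).factorial : ℕ) : ℤ) : ℚ) =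
        (((2 * N - 1) * KK a * UU a * ((2 * n).factorial : ℕ) - (Nat.centralBinom n : ℕ) * E +
        rr a (FF nm a n) * (Nat.centralBinom n : ℕ) * ((2 * n).factorial : ℕ) : ℤ) : ℚ) := by
      rw [QQ, th] at hz
      push_cast at hz hxx ⊢
      rw [← hz, ← hxx]
      field_simp
    exact_mod_cast h5
  have hmod := congrArg (Int.cast : ℤ → ZMod q) hint
  push_cast at hmod
  rw [hXX] at hmod
  have hkey : (z : ZMod q) * (Nat.centralBinom n : ℕ) =
      (2 * (N : ZMod q) - 1) * (KK a : ℤ) * (UU a : ℕ) +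
        (Nat.centralBinom n : ℕ) * ((rr a (FF nm a n) : ℤ) - (XX nm a n q : ℤ)) := by
    apply mul_right_cancel₀ hD
    linear_combination hmod
  rw [chk, decide_eq_true_iff, ← ZMod.intCast_zmod_eq_zero_iff_dvd]
  have hcond : Pr a q = 0 ∧ 3 * 2 ^ (2 * a) < (q : ℤ) :=
    ⟨Pr_eq_zero_Chk a q hq, by exact_mod_cast hq1⟩
  rw [imp_iff_right hcond, ← Int.dvd_iff_emod_eq_zero, ← ZMod.intCast_zmod_eq_zero_iff_dvd]
  push_cast
  rw [hnm, hUb, hCb, ← hkey, mul_eq_zero, or_iff_left hcb]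

end Pool.Agent.MP_7d676c_lc

end

section

/-! Most random strings contain a prime that divides none of the given nonzero integers. -/

namespace Pool.Agent.MP_7d676c_lc

open Finset

theorem prime_count (L : ℕ) (hL : 2 ≤ L) :
    2 ^ L ≤ L * (((range (2 ^ L)).filter Nat.Prime).card + 1) := by
  obtain ⟨k, rfl⟩ : ∃ k, L = k + 1 := ⟨L - 1, by omega⟩
  have hN : 2 * 2 ^ k = 2 ^ (k + 1) := by ring
  have h1 := Nat.four_pow_le_two_mul_self_mul_centralBinom (2 ^ k) (by positivity)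
  have h2 := Nat.prod_pow_factorization_centralBinom (2 ^ k)
  rw [hN] at h1 h2
  have hnp : ¬ (2 ^ (k + 1)).Prime := fun h => by
    have := Nat.Prime.eq_one_of_pow h
    omega
  have h3 : ∏ p ∈ (range (2 ^ (k + 1))).filter Nat.Prime,
      p ^ (Nat.centralBinom (2 ^ k)).factorization p = Nat.centralBinom (2 ^ k) := by
    refine Eq.trans (Finset.prod_subset (fun p hp => ?_) fun p hp hp' => ?_) h2
    · have := mem_range.1 (mem_filter.1 hp).1
      exact mem_range.2 (by omega)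
    · have hpp : ¬ p.Prime := fun h => by
        refine hp' (mem_filter.2 ⟨mem_range.2 ?_, h⟩)
        have h4 := mem_range.1 hp
        have h5 : p ≠ 2 ^ (k + 1) := fun e => hnp (e ▸ h)
        omega
      rw [Nat.factorization_eq_zero_of_not_prime _ hpp, pow_zero]
  have h4 : Nat.centralBinom (2 ^ k) ≤
      (2 ^ (k + 1)) ^ ((range (2 ^ (k + 1))).filter Nat.Prime).card := by
    rw [← h3]
    refine Finset.prod_le_pow_card _ _ _ fun p _ => ?_
    rw [Nat.centralBinom, hN]
    exact Nat.pow_factorization_choose_le (by positivity)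
  have h5 : (4 : ℕ) ^ 2 ^ k = 2 ^ 2 ^ (k + 1) := by
    rw [← hN, pow_mul]; norm_num
  have h6 : 2 ^ 2 ^ (k + 1) ≤
      2 ^ ((k + 1) * (((range (2 ^ (k + 1))).filter Nat.Prime).card + 1)) := by
    rw [← h5, pow_mul, pow_succ']
    exact h1.trans (Nat.mul_le_mul_left _ h4)
  exact (Nat.pow_le_pow_iff_right (by norm_num)).1 h6

theorem card_pf_Prob (m k : ℕ) (h : m ≤ 2 ^ k) : m.primeFactors.card ≤ k := by
  rcases Nat.eq_zero_or_pos m with rfl | hm
  · simp
  have h1 : 2 ^ m.primeFactors.card ≤ ∏ p ∈ m.primeFactors, p :=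
    Finset.pow_card_le_prod _ _ _ fun p hp => (Nat.prime_of_mem_primeFactors hp).two_le
  have h2 := Nat.le_of_dvd hm (Nat.prod_primeFactors_dvd m)
  exact (Nat.pow_le_pow_iff_right (by norm_num)).1 (h1.trans (h2.trans h))

theorem third_Prob (a B g : ℕ) (ha : 0 < a) (hg : g ≤ B) (h : B ≤ 12 * a * g) :
    3 * (B - g) ^ (24 * a) ≤ B ^ (24 * a) := by
  have ha' : (1 : ℝ) ≤ a := by exact_mod_cast ha
  obtain ⟨d, hd⟩ : ∃ d : ℝ, d = 1 / (12 * a) := ⟨_, rfl⟩
  have hd0 : 0 < d := by rw [hd]; positivity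
  have hda : 12 * a * d = 1 := by rw [hd]; field_simp
  have hd1 : d ≤ 1 := by nlinarith
  have h' : (B : ℝ) ≤ 12 * a * g := by exact_mod_cast h
  have h1 : ((B - g : ℕ) : ℝ) ≤ (1 - d) * B := by
    rw [Nat.cast_sub hg]
    have : d * B ≤ d * (12 * a * g) := mul_le_mul_of_nonneg_left h' hd0.le
    have h2 : d * (12 * a * g) = g := by linear_combination (g : ℝ) * hda
    linarith
  have h2 : (3 : ℝ) ≤ (1 + d) ^ (24 * a) := by
    have := one_add_mul_le_pow (a := d) (by linarith) (24 * a)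
    push_cast at this
    linarith
  have h3 : (1 + d) ^ (24 * a) * (1 - d) ^ (24 * a) ≤ 1 := by
    rw [← mul_pow]
    exact pow_le_one₀ (by nlinarith) (by nlinarith)
  have h4 : ((B - g : ℕ) : ℝ) ^ (24 * a) ≤ (1 - d) ^ (24 * a) * (B : ℝ) ^ (24 * a) := by
    rw [← mul_pow]
    exact pow_le_pow_left₀ (by positivity) h1 _
  have h5 : 0 ≤ (1 - d) ^ (24 * a) := pow_nonneg (by linarith) _
  have h6 : 3 * (1 - d) ^ (24 * a) ≤ 1 := (mul_le_mul_of_nonneg_right h2 h5).trans h3
  have h7 : (0 : ℝ) ≤ (B : ℝ) ^ (24 * a) := by positivity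
  have h8 : 3 * ((B - g : ℕ) : ℝ) ^ (24 * a) ≤ (B : ℝ) ^ (24 * a) := by nlinarith
  exact_mod_cast h8

open Classical in
theorem bad_Prob (L k : ℕ) (G : Finset ℕ) (hG : G ⊆ range (2 ^ L)) :
    ((range (2 ^ (L * k))).filter fun ρ : ℕ => ¬ ∃ i < k, ∃ q ∈ G, dig L i ρ = (q : ℕ)).card ≤
      (2 ^ L - G.card) ^ k := by
  have h := sum_dig (R := ℕ) L k fun _ y => if ∃ q ∈ G, y = (q : ℕ) then 0 else 1
  have h1 : ∑ y ∈ range (2 ^ L), (if ∃ q ∈ G, ((y : ℕ) : ℤ) = (q : ℕ) then 0 else 1 : ℕ)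
      = 2 ^ L - G.card := by
    have h2 : ∀ y : ℕ, (∃ q ∈ G, ((y : ℕ) : ℤ) = (q : ℕ)) ↔ y ∈ G := fun y =>
      ⟨fun ⟨q, hq, e⟩ => by rw [Nat.cast_injective e]; exact hq, fun hy => ⟨y, hy, rfl⟩⟩
    simp only [h2]
    rw [← Finset.sum_sdiff hG, Finset.sum_congr rfl fun y hy => if_neg (mem_sdiff.1 hy).2,
      Finset.sum_congr rfl fun y hy => if_pos hy]
    simp [card_sdiff_of_subset hG]
  rw [h1, prod_const, card_range] at h
  rw [← h, card_eq_sum_ones, sum_filter]
  refine sum_le_sum fun W _ => ?_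
  split_ifs with hW
  · exact Nat.zero_le _
  · refine (Finset.prod_eq_one fun i hi => if_neg fun hq => hW ⟨i, mem_range.1 hi, hq⟩).ge

open Classical in
theorem many_good (a : ℕ) (ha : 8 ≤ a) (z : ℕ → ℤ)
    (hz : ∀ n, |z n| ≤ 2 ^ (3 * 2 ^ (2 * a))) :
    2 * 2 ^ (6 * a * (24 * a)) ≤ 3 * ((range (2 ^ (6 * a * (24 * a)))).filter fun ρ : ℕ =>
      ∃ i < 24 * a, ∃ q : ℕ, dig (6 * a) i ρ = q ∧ q.Prime ∧ 3 * 2 ^ (2 * a) < q ∧
        ∀ n : ℕ, 2 * n ≤ 3 * 2 ^ (2 * a) → z n ≠ 0 → ¬ (q : ℤ) ∣ z n).card := by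
  have hY : 256 * a ≤ 2 ^ (2 * a) := by
    have h1 : 2 ^ 8 ≤ 2 ^ a := Nat.pow_le_pow_right (by norm_num) ha
    have h2 : a ≤ 2 ^ a := Nat.lt_two_pow_self.le
    rw [two_mul, pow_add]
    exact Nat.mul_le_mul h1 h2
  have hB : 2 ^ (6 * a) = (2 ^ (2 * a)) ^ 3 := by rw [← pow_mul]; congr 1; ring
  have hpc := prime_count (6 * a) (by omega)
  obtain ⟨Y, hYe⟩ : ∃ Y : ℕ, Y = 2 ^ (2 * a) := ⟨_, rfl⟩
  rw [← hYe] at hY hB hz ⊢
  obtain ⟨G, hG⟩ : ∃ G : Finset ℕ, G = (range (2 ^ (6 * a))).filter fun q : ℕ =>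
      q.Prime ∧ 3 * Y < q ∧ ∀ n : ℕ, 2 * n ≤ 3 * Y → z n ≠ 0 → ¬ (q : ℤ) ∣ z n := ⟨_, rfl⟩
  have hGs : G ⊆ range (2 ^ (6 * a)) := by rw [hG]; exact filter_subset _ _
  have hsub : (range (2 ^ (6 * a))).filter Nat.Prime ⊆
      (G ∪ range (3 * Y + 1)) ∪ (range (2 * Y)).biUnion fun n => (z n).natAbs.primeFactors := by
    intro q hq
    obtain ⟨hq1, hq2⟩ := mem_filter.1 hq
    by_cases h1 : 3 * Y < q
    · by_cases h2 : ∀ n : ℕ, 2 * n ≤ 3 * Y → z n ≠ 0 → ¬ (q : ℤ) ∣ z n
      · exact mem_union_left _ (mem_union_left _ (by rw [hG]; exact mem_filter.2 ⟨hq1, hq2, h1, h2⟩))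
      · push Not at h2
        obtain ⟨n, hn, hn0, hd⟩ := h2
        refine mem_union_right _ (mem_biUnion.2 ⟨n, mem_range.2 (by omega), ?_⟩)
        exact Nat.mem_primeFactors.2 ⟨hq2, Int.natCast_dvd.1 hd, Int.natAbs_ne_zero.2 hn0⟩
    · exact mem_union_left _ (mem_union_right _ (mem_range.2 (by omega)))
  have hc1 : ((range (2 * Y)).biUnion fun n => (z n).natAbs.primeFactors).card ≤
      2 * Y * (3 * Y) := by
    refine (card_biUnion_le_card_mul _ _ (3 * Y) fun n _ => card_pf_Prob _ _ ?_).trans_eq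
      (by rw [card_range])
    have := hz n
    rw [← Int.natCast_natAbs] at this
    exact_mod_cast this
  have hc2 : ((range (2 ^ (6 * a))).filter Nat.Prime).card ≤
      G.card + (3 * Y + 1) + 2 * Y * (3 * Y) := by
    refine (card_le_card hsub).trans ((card_union_le _ _).trans (Nat.add_le_add ?_ hc1))
    exact (card_union_le _ _).trans_eq (by rw [card_range])
  have hg : 2 ^ (6 * a) ≤ 12 * a * G.card := by
    rw [hB] at hpc hc2 ⊢
    generalize ((range (Y ^ 3)).filter Nat.Prime).card = P at hpc hc2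
    have h1 : P + 1 ≤ G.card + 7 * Y ^ 2 := by nlinarith
    have h2 : 6 * a * (P + 1) ≤ 6 * a * (G.card + 7 * Y ^ 2) := Nat.mul_le_mul_left _ h1
    have h3 : 256 * a * Y ^ 2 ≤ Y * Y ^ 2 := Nat.mul_le_mul_right _ hY
    nlinarith
  have h3 := third_Prob a _ _ (by omega) ((card_le_card hGs).trans_eq (card_range _)) hg
  have h4 := bad_Prob (6 * a) (24 * a) G hGs
  have h5 := card_filter_add_card_filter_not (s := range (2 ^ (6 * a * (24 * a))))
    (fun ρ : ℕ => ∃ i < 24 * a, ∃ q ∈ G, dig (6 * a) i ρ = (q : ℕ))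
  have h6 : ((range (2 ^ (6 * a * (24 * a)))).filter
      fun ρ : ℕ => ∃ i < 24 * a, ∃ q ∈ G, dig (6 * a) i ρ = (q : ℕ)).card ≤
      ((range (2 ^ (6 * a * (24 * a)))).filter fun ρ : ℕ =>
      ∃ i < 24 * a, ∃ q : ℕ, dig (6 * a) i ρ = q ∧ q.Prime ∧ 3 * Y < q ∧
        ∀ n : ℕ, 2 * n ≤ 3 * Y → z n ≠ 0 → ¬ (q : ℤ) ∣ z n).card := by
    refine card_le_card fun ρ hρ => ?_
    obtain ⟨h1, i, hi, q, hq, e⟩ := mem_filter.1 hρ
    rw [hG] at hq
    exact mem_filter.2 ⟨h1, i, hi, q, e, (mem_filter.1 hq).2⟩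
  rw [card_range] at h5
  rw [← pow_mul] at h3
  omega

end Pool.Agent.MP_7d676c_lc

end

section

/-! Correctness of the binary search and of the whole randomized algorithm. -/

namespace Pool.Agent.MP_7d676c_lc

open Finset

theorem w_Search (N : ℤ) (nm : ℤ → ℤ) (a n : ℕ) :
    -(1 / 2) ≤ th N a n - QQ N nm a n ∧ th N a n - QQ N nm a n < 9 / 16 := by
  have h1 := xx_approx nm a n
  have h2 := rr_approx a (FF nm a n)
  rw [QQ]
  constructor <;> linarith [h1.1, h1.2, h2.1, h2.2]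

theorem small_Search {N : ℤ} {nm : ℤ → ℤ} (hN : Res N nm) {a n : ℕ} (ha : 8 ≤ a)
    (h1 : 2 ^ (2 * a) ≤ 2 * n) (h2 : 2 * n ≤ 3 * 2 ^ (2 * a)) (h : |th N a n| < 7 / 16) :
    QQ N nm a n = 0 := by
  obtain ⟨z, hz⟩ := QQ_int hN ha h1 h2
  have hw := w_Search N nm a n
  rw [hz] at hw ⊢
  rw [abs_lt] at h
  have a1 : (-1 : ℚ) < z := by linarith [hw.2, h.1]
  have a2 : (z : ℚ) < 1 := by linarith [hw.1, h.2]
  have a3 : -1 < z := by exact_mod_cast a1
  have a4 : z < 1 := by exact_mod_cast a2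
  obtain rfl : z = 0 := by omega
  simp

theorem sign_Search (N : ℤ) (a : ℕ) : (0 < N → 0 < (2 * N - 1) * KK a * UU a) ∧
    (¬ 0 < N → (2 * N - 1) * KK a * UU a < 0) := by
  have h1 := KK_pos a
  have h2 : (0 : ℤ) < UU a := by exact_mod_cast UU_pos a
  exact ⟨fun h => mul_pos (mul_pos (by omega) h1) h2,
    fun h => mul_neg_of_neg_of_pos (mul_neg_of_neg_of_pos (by omega) h1) h2⟩

theorem ne_Search (N : ℤ) (a : ℕ) : (2 * N - 1) * KK a * UU a ≠ 0 := by
  by_cases h : 0 < N
  · exact ((sign_Search N a).1 h).ne'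
  · exact ((sign_Search N a).2 h).ne

theorem cb_pos_Search (n : ℕ) : (0 : ℚ) < Nat.centralBinom n := by
  exact_mod_cast Nat.centralBinom_pos n

theorem lo_Search (N : ℤ) (nm : ℤ → ℤ) {a n : ℕ} (h : 2 * n = 2 ^ (2 * a)) : QQ N nm a n ≠ 0 := by
  intro hq
  have hw := w_Search N nm a n
  have hP : PS a n = ∅ := by
    rw [PS, Ioc_eq_empty (by omega), filter_empty]
  obtain ⟨c, hc⟩ := cb_dvd a n (by omega) (by omega)
  rw [hP, prod_empty, mul_one] at hc
  have e : th N a n = (((2 * N - 1) * KK a * c : ℤ) : ℚ) := by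
    rw [th, hc, div_eq_iff (cb_pos_Search n).ne']
    push_cast
    ring
  have hne : (2 * N - 1) * KK a * c ≠ 0 := fun z => ne_Search N a (by
    rw [hc, Nat.cast_mul, mul_left_comm, z, mul_zero])
  rw [hq, sub_zero, e] at hw
  have a1 : (-1 : ℚ) < ((2 * N - 1) * KK a * c : ℤ) := by linarith [hw.1]
  have a2 : (((2 * N - 1) * KK a * c : ℤ) : ℚ) < 1 := by linarith [hw.2]
  have a3 : -1 < (2 * N - 1) * KK a * c := by exact_mod_cast a1
  have a4 : (2 * N - 1) * KK a * c < 1 := by exact_mod_cast a2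
  omega

theorem hi_Search {N : ℤ} {nm : ℤ → ℤ} (hN : Res N nm) {a n : ℕ} (ha : 8 ≤ a)
    (hs : |N| ≤ 2 ^ 2 ^ (a - 8)) (h : 2 * n = 3 * 2 ^ (2 * a)) : QQ N nm a n = 0 := by
  have hY : 0 < 2 ^ (2 * a) := by positivity
  refine small_Search hN ha (by omega) h.le ?_
  have h1 := Nat.four_pow_le_two_mul_self_mul_centralBinom n (by omega)
  rw [show 4 ^ n = 2 ^ (2 * n) by rw [pow_mul]; norm_num, h] at h1
  have h2 := size_bound a ha N hs
  have h3 : (2 : ℤ) ^ (3 * 2 ^ (2 * a)) ≤ 3 * 2 ^ (2 * a) * Nat.centralBinom n := by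
    exact_mod_cast h1
  have h4 : 8 * |(2 * N - 1) * KK a * UU a| ≤ 3 * (Nat.centralBinom n : ℤ) := by
    refine le_of_mul_le_mul_left (a := 2 ^ (2 * a)) ?_ (by positivity)
    linarith
  have h5 : 8 * |(((2 * N - 1) * KK a * UU a : ℤ) : ℚ)| ≤ 3 * (Nat.centralBinom n : ℚ) := by
    exact_mod_cast h4
  have := cb_pos_Search n
  rw [th, abs_div, abs_of_pos this, div_lt_iff₀ this]
  linarith

theorem inv_Search {N : ℤ} {nm : ℤ → ℤ} (hN : Res N nm) {a : ℕ} (ha : 8 ≤ a)
    (hs : |N| ≤ 2 ^ 2 ^ (a - 8)) (ρ : ℤ)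
    (hρ : ∀ n : ℕ, 2 ^ (2 * a) ≤ 2 * n → 2 * n ≤ 3 * 2 ^ (2 * a) →
      (test nm a ρ n = true ↔ QQ N nm a n = 0)) (k : ℕ) : ∀ j, k + j = 2 * a → ∃ lo : ℕ,
      (bs nm a ρ)^[k] (2 ^ (2 * a - 1), 2 ^ (2 * a)) = ((lo : ℤ), 2 ^ j) ∧ 2 ^ (2 * a) ≤ 2 * lo ∧
      2 * (lo + 2 ^ j) ≤ 3 * 2 ^ (2 * a) ∧ QQ N nm a lo ≠ 0 ∧ QQ N nm a (lo + 2 ^ j) = 0 := by
  induction k with
  | zero =>
    intro j hj
    obtain rfl : j = 2 * a := by omega
    have e : 2 * 2 ^ (2 * a - 1) = 2 ^ (2 * a) := by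
      rw [← pow_succ']
      congr 1
      omega
    exact ⟨2 ^ (2 * a - 1), by simp, e.ge, by omega, lo_Search N nm e, hi_Search hN ha hs (by omega)⟩
  | succ k ih =>
    intro j hj
    obtain ⟨lo, e, h1, h2, h3, h4⟩ := ih (j + 1) (by omega)
    have hp : 0 < 2 ^ j := by positivity
    rw [pow_succ] at h2 h4
    have hd : (2 : ℤ) ^ (j + 1) / 2 = 2 ^ j := by rw [pow_succ, Int.mul_ediv_cancel _ two_ne_zero]
    have ht := hρ (lo + 2 ^ j) (by omega) (by omega)
    push_cast at ht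
    rw [Function.iterate_succ_apply', e, bs]
    simp only [hd]
    by_cases c : QQ N nm a (lo + 2 ^ j) = 0
    · exact ⟨lo, by rw [if_pos (ht.2 c)], h1, by omega, h3, c⟩
    · refine ⟨lo + 2 ^ j, by rw [if_neg fun t => c (ht.1 t)]; simp, by omega, by omega, c, ?_⟩
      rwa [show lo + 2 ^ j + 2 ^ j = lo + 2 ^ j * 2 by ring]

theorem out_correct {N : ℤ} {nm : ℤ → ℤ} (hN : Res N nm) {a : ℕ} (ha : 8 ≤ a)
    (hs : |N| ≤ 2 ^ 2 ^ (a - 8)) (ρ : ℤ)
    (hρ : ∀ n : ℕ, 2 ^ (2 * a) ≤ 2 * n → 2 * n ≤ 3 * 2 ^ (2 * a) →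
      (test nm a ρ n = true ↔ QQ N nm a n = 0)) :
    out nm a ρ = decide (0 < N) := by
  obtain ⟨lo, e, h1, h2, h3, h4⟩ := inv_Search hN ha hs ρ hρ (2 * a) 0 rfl
  rw [pow_zero] at h2 h4
  have he : endp nm a ρ = ((lo + 1 : ℕ) : ℤ) := by rw [endp, e]; simp
  have t1 : 7 / 16 ≤ |th N a lo| := not_lt.1 fun c => h3 (small_Search hN ha h1 (by omega) c)
  have c1 : (Nat.centralBinom (lo + 1) : ℚ) ≤ 4 * Nat.centralBinom lo := by
    have := Nat.succ_mul_centralBinom_succ lo
    have h : Nat.centralBinom (lo + 1) ≤ 4 * Nat.centralBinom lo := by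
      refine Nat.le_of_mul_le_mul_left (c := lo + 1) ?_ (by omega)
      rw [this]
      nlinarith [Nat.centralBinom_pos lo]
    exact_mod_cast h
  have p0 := cb_pos_Search lo
  have p1 := cb_pos_Search (lo + 1)
  have t2 : 7 / 64 ≤ |th N a (lo + 1)| := by
    rw [th, abs_div, abs_of_pos p0, le_div_iff₀ p0] at t1
    rw [th, abs_div, abs_of_pos p1, le_div_iff₀ p1]
    linarith
  have x1 := xx_approx nm a ((lo + 1 : ℕ) : ℤ)
  rw [QQ] at h4
  have hp : (0 : ℚ) < 2 ^ (wl a + 4) := by positivity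
  rw [out, he, decide_eq_decide]
  have key : rr a (FF nm a ((lo + 1 : ℕ) : ℤ)) * 2 ^ (wl a + 4) ≤ FF nm a ((lo + 1 : ℕ) : ℤ) ↔
      (rr a (FF nm a ((lo + 1 : ℕ) : ℤ)) : ℚ) ≤ (FF nm a ((lo + 1 : ℕ) : ℤ) : ℚ) / 2 ^ (wl a + 4) := by
    rw [le_div_iff₀ hp]
    norm_cast
  rw [key]
  by_cases c : 0 < N
  · have : 0 < th N a (lo + 1) := div_pos (by exact_mod_cast (sign_Search N a).1 c) p1
    rw [abs_of_pos this] at t2
    exact iff_of_true (by linarith [x1.2]) c
  · have : th N a (lo + 1) < 0 := div_neg_of_neg_of_pos (by exact_mod_cast (sign_Search N a).2 c) p1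
    exact iff_of_false (not_le.2 (by linarith [x1.1])) c

theorem dig_Search (L i : ℕ) (W : ℤ) : ∃ q : ℕ, dig L i W = q ∧ q < 2 ^ L := by
  have h1 : 0 ≤ dig L i W := Int.emod_nonneg _ (by positivity)
  have h2 : dig L i W < 2 ^ L := Int.emod_lt_of_pos _ (by positivity)
  obtain ⟨q, hq⟩ := Int.eq_ofNat_of_zero_le h1
  exact ⟨q, hq, by rw [hq] at h2; exact_mod_cast h2⟩

theorem out_prob {N : ℤ} {nm : ℤ → ℤ} (hN : Res N nm) {a : ℕ} (ha : 8 ≤ a)
    (hs : |N| ≤ 2 ^ 2 ^ (a - 8)) :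
    2 * 2 ^ (6 * a * (24 * a)) ≤ 3 * ((range (2 ^ (6 * a * (24 * a)))).filter fun ρ : ℕ =>
      out nm a ρ = decide (0 < N)).card := by
  classical
  have hz : ∀ n : ℕ, ∃ z : ℤ, |z| ≤ 2 ^ (3 * 2 ^ (2 * a)) ∧
      (2 ^ (2 * a) ≤ 2 * n → 2 * n ≤ 3 * 2 ^ (2 * a) → QQ N nm a n = z) := by
    intro n
    by_cases c : 2 ^ (2 * a) ≤ 2 * n ∧ 2 * n ≤ 3 * 2 ^ (2 * a)
    · obtain ⟨z, hz⟩ := QQ_int hN ha c.1 c.2
      refine ⟨z, ?_, fun _ _ => hz⟩
      have hw := w_Search N nm a n
      have h1 : |th N a n| ≤ |(((2 * N - 1) * KK a * UU a : ℤ) : ℚ)| := by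
        rw [th, abs_div, abs_of_pos (cb_pos_Search n)]
        exact div_le_self (abs_nonneg _) (by exact_mod_cast Nat.centralBinom_pos n)
      have h2 : |(z : ℚ)| ≤ |(((2 * N - 1) * KK a * UU a : ℤ) : ℚ)| + 1 := by
        rw [abs_le] at h1 ⊢
        rw [hz] at hw
        constructor <;> linarith [h1.1, h1.2, hw.1, hw.2]
      have h3 : |z| ≤ |(2 * N - 1) * KK a * UU a| + 1 := by exact_mod_cast h2
      have h4 := size_bound a ha N hs
      have h5 : 1 ≤ |(2 * N - 1) * KK a * UU a| := Int.one_le_abs (ne_Search N a)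
      have h6 : (1 : ℤ) ≤ 2 ^ (2 * a) := one_le_pow₀ (by norm_num)
      nlinarith
    · exact ⟨0, by simp, fun a b => absurd ⟨a, b⟩ c⟩
  choose z z1 z2 using hz
  refine (many_good a ha z z1).trans (Nat.mul_le_mul_left 3 (card_le_card fun ρ hρ => ?_))
  rw [mem_filter] at hρ ⊢
  obtain ⟨h0, i, hi, q, q1, q2, q3, q4⟩ := hρ
  refine ⟨h0, out_correct hN ha hs ρ fun n n1 n2 => ?_⟩
  have hq := z2 n n1 n2
  rw [test, List.all_eq_true]
  constructor
  · intro t
    have t1 := t i (List.mem_range.2 hi)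
    obtain ⟨q', e1, e2⟩ := dig_Search (6 * a) i ρ
    obtain rfl : q' = q := by exact_mod_cast e1.symm.trans q1
    rw [q1, chk_iff hN ha n2 q2 q3 e2 hq] at t1
    by_contra c
    exact q4 n n2 (fun e => c (by rw [hq, e, Int.cast_zero])) t1
  · intro c j _
    obtain ⟨p, e1, e2⟩ := dig_Search (6 * a) j ρ
    rw [e1]
    by_cases hp : p.Prime ∧ 3 * 2 ^ (2 * a) < p
    · exact (chk_iff hN ha n2 hp.1 hp.2 e2 (z := 0) (by simpa using c)).2 (dvd_zero _)
    · exact chk_of_not_prime nm a n p e2 hp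

end Pool.Agent.MP_7d676c_lc

end

section

/-! PosSLP is in BPP relative to an oracle in PP. -/

namespace Pool.Agent.MP_7d676c_lc

open Finset Pool.Agent.MP_2e8011_lc Pool.Agent.MP_a6d740_lc Pool.Agent.MP_b0ee3d_lc

attribute [local irreducible] out evalMod value

theorem posSLP_mem : ∃ A ∈ PP, PosSLP ∈ BPPrel A := by
  obtain ⟨A, hA, ho⟩ := sp_orc.oc dec_Qu
  obtain ⟨par, ok, hpar, hok, h⟩ := exists_parse
  refine ⟨A, hA, ?_⟩
  have h1 : OC A (fun y : List Bool × List Bool =>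
      out (evalMod (par y.1)) (y.1.length + 8) (valL y.2)) :=
    oc_out ho (by fun_prop) (by fun_prop) (by fun_prop)
  have h2 := h1.post (v := fun z : (List Bool × List Bool) × Bool => ok z.1.1 && z.2)
    (by fun_prop)
  refine h2.mem_BPPrel (6 * (Polynomial.X + 8) * (24 * (Polynomial.X + 8))) (fun x => ?_)
  have e : (6 * (Polynomial.X + 8) * (24 * (Polynomial.X + 8)) : Polynomial ℕ).eval x.length =
      6 * (x.length + 8) * (24 * (x.length + 8)) := by simp
  generalize (6 * (Polynomial.X + 8) * (24 * (Polynomial.X + 8)) : Polynomial ℕ).eval x.length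
    = k at e ⊢
  simp only [(h x).2]
  rw [card_filter_valL k (fun ρ => (ok x && out (evalMod (par x)) (x.length + 8) (ρ : ℕ)) =
    (ok x && decide (0 < value (par x))))]
  subst e
  cases hx : ok x
  · simp only [Bool.false_and, filter_true, card_range]
    omega
  · simp only [Bool.true_and]
    refine out_prob (res_evalMod _) (by omega) ((abs_value_le _).trans ?_)
    exact pow_le_pow_right₀ (by norm_num)
      (Nat.pow_le_pow_right (by norm_num) (by have := (h x).1 hx; omega))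

end Pool.Agent.MP_7d676c_lc

end
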