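import Pool.Agent.Mg.F2e8011.G9be6f2
import Pool.Agent.Mg.F2e8011.G5eb695
import Pool.Agent.Mg.F2e8011.G2c7daa

section

/-! The alternating program that checks a tableau given by local rules. -/

namespace Pool.Agent.MP_8c4891_lc

open Pool.Agent.MP_2e8011_lc

variable {ν : Type} {A : AP ν}

theorem Res.det {r : Bool} {a a' : ν} {mem mem' : ℕ → Bool} (h1 : A.Tr a mem a' mem')
    (h2 : ∀ a'' mem'', A.Tr a mem a'' mem'' → a'' = a' ∧ mem'' = mem') (h : Res A r a' mem') :
    Res A r a mem := by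
  by_cases ho : A.own a = r
  · exact Res.pick ho h1 h
  · refine Res.all (by cases r <;> simpa using ho) ?_
    intro a'' mem'' ht
    obtain ⟨rfl, rfl⟩ := h2 a'' mem'' ht
    exact h

theorem Res.plain {r : Bool} {a a' : ν} {mem : ℕ → Bool} (h1 : A.pl a = [a']) (h2 : A.fl a = [])
    (h : Res A r a' mem) : Res A r a mem := by
  refine Res.det (a' := a') (mem' := mem) (Or.inl ⟨by simp [h1], rfl⟩) ?_ h
  rintro a'' mem'' (⟨h3, rfl⟩ | ⟨c, h3, rfl⟩)
  · simpa [h1] using h3
  · simp [h2] at h3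

theorem Res.flip {r : Bool} {a a₁ a₂ : ν} {c : ℕ} {b : Bool} {mem : ℕ → Bool} (h1 : A.pl a = [])
    (h2 : A.fl a = [(c, b, a₁), (c, !b, a₂)])
    (h : Res A r (if mem c = b then a₁ else a₂) (Function.update mem c (!mem c))) :
    Res A r a mem := by
  refine Res.det (Or.inr ⟨c, ?_, rfl⟩) ?_ h
  · rw [h2]
    cases b <;> cases mem c <;> simp
  · rintro a'' mem'' (⟨h3, rfl⟩ | ⟨c', h3, rfl⟩)
    · simp [h1] at h3
    · simp only [h2, List.mem_cons, Prod.mk.injEq, List.not_mem_nil, or_false] at h3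
      rcases h3 with ⟨rfl, h3, rfl⟩ | ⟨rfl, h3, rfl⟩
      · simp [h3]
      · cases b <;> simp_all

/-- A node whose moves do not change the memory, the owner picking a good one. -/
theorem Res.pick' {r : Bool} {a a' : ν} {mem : ℕ → Bool} (ho : A.own a = r) (h1 : a' ∈ A.pl a)
    (h : Res A r a' mem) : Res A r a mem := Res.pick ho (Or.inl ⟨h1, rfl⟩) h

theorem Res.all' {r : Bool} {a : ν} {mem : ℕ → Bool} (ho : A.own a = !r) (h2 : A.fl a = [])
    (h : ∀ a' ∈ A.pl a, Res A r a' mem) : Res A r a mem := by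
  refine Res.all ho ?_
  rintro a'' mem'' (⟨h3, rfl⟩ | ⟨c, h3, rfl⟩)
  · exact h _ h3
  · simp [h2] at h3

/-- The number written in the `k` cells from `o` on, the digit one being written `b`. -/
def valB (b : Bool) (mem : ℕ → Bool) : ℕ → ℕ → ℕ
  | _, 0 => 0
  | o, k + 1 => (if mem o = b then 1 else 0) + 2 * valB b mem (o + 1) k

theorem valB_congr (b : Bool) {mem mem' : ℕ → Bool} (k : ℕ) : ∀ o,
    (∀ c, o ≤ c → c < o + k → mem' c = mem c) → valB b mem' o k = valB b mem o k := by
  induction k with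
  | zero => intro o _; rfl
  | succ k ih =>
    intro o h
    rw [valB, valB, h o le_rfl (by omega), ih (o + 1) (fun c h1 h2 => h c (by omega) (by omega))]

theorem valB_compl (mem : ℕ → Bool) (k : ℕ) : ∀ o,
    valB true mem o k + valB false mem o k + 1 = 2 ^ k := by
  induction k with
  | zero => intro o; rfl
  | succ k ih =>
    intro o
    have := ih (o + 1)
    rw [valB, valB, pow_succ]
    cases mem o <;> simp <;> omega

theorem counter (b : Bool) (ok carry : ν) (k : ℕ) : ∀ (o : ℕ) (nd : ℕ → ν) (mem : ℕ → Bool),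
    (∀ j < k, A.pl (nd j) = [] ∧ A.fl (nd j) = [(o + j, b, ok), (o + j, !b, nd (j + 1))]) →
    A.pl (nd k) = [carry] → A.fl (nd k) = [] →
    ∃ mem', (∀ c, c < o ∨ o + k ≤ c → mem' c = mem c) ∧
      ((valB b mem o k = 0 ∧ valB b mem' o k + 1 = 2 ^ k ∧
          ∀ r, Res A r carry mem' → Res A r (nd 0) mem) ∨
        (valB b mem' o k + 1 = valB b mem o k ∧ ∀ r, Res A r ok mem' → Res A r (nd 0) mem)) := by
  induction k with
  | zero =>
    intro o nd mem _ h1 h2
    exact ⟨mem, fun _ _ => rfl, Or.inl ⟨rfl, rfl, fun r h => Res.plain h1 h2 h⟩⟩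
  | succ k ih =>
    intro o nd mem h0 h1 h2
    obtain ⟨h3, h4⟩ := h0 0 (by omega)
    rw [add_zero, zero_add] at h4
    have hv : valB b (Function.update mem o (!mem o)) (o + 1) k = valB b mem (o + 1) k :=
      valB_congr b k _ (fun c hc _ => Function.update_of_ne (by omega) _ _)
    by_cases hb : mem o = b
    · refine ⟨Function.update mem o (!mem o), fun c hc => Function.update_of_ne (by omega) _ _,
        Or.inr ⟨?_, fun r h => Res.flip h3 h4 (by rwa [if_pos hb])⟩⟩
      rw [valB, valB, hv, Function.update_self, if_pos hb, if_neg (by rw [hb]; simp)]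
      omega
    · obtain ⟨mem', h5, h6⟩ := ih (o + 1) (fun j => nd (j + 1)) (Function.update mem o (!mem o))
        (fun j hj => by
          have := h0 (j + 1) (by omega)
          rwa [show o + (j + 1) = o + 1 + j by omega] at this) h1 h2
      have h7 : mem' o = b := by
        rw [h5 o (by omega), Function.update_self]
        cases b <;> simpa using hb
      refine ⟨mem', fun c hc => ?_, ?_⟩
      · rw [h5 c (by omega), Function.update_of_ne (by omega)]
      · rw [hv] at h6
        rcases h6 with ⟨h6, h8, h9⟩ | ⟨h6, h9⟩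
        · refine Or.inl ⟨?_, ?_, fun r h => Res.flip h3 h4 (by rw [if_neg hb]; exact h9 r h)⟩
          · rw [valB, if_neg hb, h6]
          · rw [valB, if_pos h7, pow_succ]; omega
        · refine Or.inr ⟨?_, fun r h => Res.flip h3 h4 (by rw [if_neg hb]; exact h9 r h)⟩
          rw [valB, valB, if_pos h7, if_neg hb]; omega

/-- The player `r` wins from `a` whenever the two registers hold `t` and `i`. -/
def RV (A : AP ν) (m₁ m₂ : ℕ) (r : Bool) (a : ν) (t i : ℕ) : Prop :=
  ∀ mem, valB true mem 0 m₁ = t → valB true mem m₁ m₂ = i → Res A r a mem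

variable {m₁ m₂ : ℕ} {q : Bool}

theorem RV.decT {ok carry : ν} {nd : ℕ → ν}
    (h0 : ∀ j < m₁, A.pl (nd j) = [] ∧ A.fl (nd j) = [(j, true, ok), (j, false, nd (j + 1))])
    (h1 : A.pl (nd m₁) = [carry]) (h2 : A.fl (nd m₁) = []) {t i : ℕ}
    (hc : t = 0 → ∀ t', RV A m₁ m₂ q carry t' i) (hk : ∀ t', t = t' + 1 → RV A m₁ m₂ q ok t' i) :
    RV A m₁ m₂ q (nd 0) t i := by
  intro mem ht hi
  obtain ⟨mem', h3, h4⟩ := counter true ok carry m₁ 0 nd mem (by simpa using h0) h1 h2
  have h5 : valB true mem' m₁ m₂ = i :=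
    (valB_congr true m₂ m₁ (fun c hc _ => h3 c (by omega))).trans hi
  rcases h4 with ⟨h6, -, h7⟩ | ⟨h6, h7⟩
  · exact h7 q (hc (by omega) _ mem' rfl h5)
  · exact h7 q (hk _ (by omega) mem' rfl h5)

theorem RV.decI {ok carry : ν} {nd : ℕ → ν}
    (h0 : ∀ j < m₂, A.pl (nd j) = [] ∧
      A.fl (nd j) = [(m₁ + j, true, ok), (m₁ + j, false, nd (j + 1))])
    (h1 : A.pl (nd m₂) = [carry]) (h2 : A.fl (nd m₂) = []) {t i : ℕ}
    (hc : i = 0 → RV A m₁ m₂ q carry t (2 ^ m₂ - 1))
    (hk : ∀ i', i = i' + 1 → RV A m₁ m₂ q ok t i') : RV A m₁ m₂ q (nd 0) t i := by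
  intro mem ht hi
  obtain ⟨mem', h3, h4⟩ := counter true ok carry m₂ m₁ nd mem (by simpa using h0) h1 h2
  have h5 : valB true mem' 0 m₁ = t :=
    (valB_congr true m₁ 0 (fun c _ hc => h3 c (by omega))).trans ht
  rcases h4 with ⟨h6, h8, h7⟩ | ⟨h6, h7⟩
  · exact h7 q (hc (by omega) mem' h5 (by omega))
  · exact h7 q (hk _ (by omega) mem' h5 rfl)

theorem RV.incI {ok : ν} {nd : ℕ → ν}
    (h0 : ∀ j < m₂, A.pl (nd j) = [] ∧
      A.fl (nd j) = [(m₁ + j, false, ok), (m₁ + j, true, nd (j + 1))])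
    (h1 : A.pl (nd m₂) = [ok]) (h2 : A.fl (nd m₂) = []) {t i : ℕ}
    (hk : RV A m₁ m₂ q ok t ((i + 1) % 2 ^ m₂)) : RV A m₁ m₂ q (nd 0) t i := by
  intro mem ht hi
  obtain ⟨mem', h3, h4⟩ := counter false ok ok m₂ m₁ nd mem (by simpa using h0) h1 h2
  have h5 : valB true mem' 0 m₁ = t :=
    (valB_congr true m₁ 0 (fun c _ hc => h3 c (by omega))).trans ht
  have e1 := valB_compl mem m₂ m₁
  have e2 := valB_compl mem' m₂ m₁
  rcases h4 with ⟨h6, h8, h7⟩ | ⟨h6, h7⟩
  · refine h7 q (hk mem' h5 ?_)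
    rw [show i + 1 = 2 ^ m₂ by omega, Nat.mod_self]
    omega
  · refine h7 q (hk mem' h5 ?_)
    rw [Nat.mod_eq_of_lt (by omega)]
    omega

theorem RV.plain {a a' : ν} (h1 : A.pl a = [a']) (h2 : A.fl a = []) {t i : ℕ}
    (h : RV A m₁ m₂ q a' t i) : RV A m₁ m₂ q a t i :=
  fun mem ht hi => Res.plain h1 h2 (h mem ht hi)

theorem RV.compare {nd : ℕ → ℕ → ν} {low : ℕ → ν} {high : ν} {L : ℕ}
    (h0 : ∀ r < L, ∀ j < m₂, A.pl (nd r j) = [] ∧
      A.fl (nd r j) = [(m₁ + j, true, nd (r + 1) 0), (m₁ + j, false, nd r (j + 1))])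
    (h1 : ∀ r < L, A.pl (nd r m₂) = [low r] ∧ A.fl (nd r m₂) = [])
    (h2 : A.pl (nd L 0) = [high] ∧ A.fl (nd L 0) = []) {t : ℕ} (e : ℕ) : ∀ r i, r + e = L →
    (i < e → ∀ i', RV A m₁ m₂ q (low (r + i)) t i') → (e ≤ i → RV A m₁ m₂ q high t (i - e)) →
    RV A m₁ m₂ q (nd r 0) t i := by
  induction e with
  | zero =>
    intro r i hr _ h
    obtain rfl : r = L := hr
    exact RV.plain h2.1 h2.2 (h (Nat.zero_le _))
  | succ e ih =>
    intro r i hr hl hh
    refine RV.decI (nd := nd r) (h0 r (by omega)) (h1 r (by omega)).1 (h1 r (by omega)).2 ?_ ?_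
    · rintro rfl
      exact hl (by omega) _
    · rintro i' rfl
      refine ih (r + 1) i' (by omega) (fun h => ?_) (fun h => ?_)
      · rw [show r + 1 + i' = r + (i' + 1) by omega]
        exact hl (by omega)
      · rw [show i' - e = i' + 1 - (e + 1) by omega]
        exact hh (by omega)

/-- A finite system of local rules. -/
structure Sys where
  S : ℕ
  W : ℕ
  D : ℕ
  prem : ℕ → List (ℕ × ℕ)
  len : ℕ → ℕ → ℕ
  ok : ℕ → ℕ → ℕ → Bool
  sh : ℕ → ℕ
  tab : ℕ → Bool → Bool → Bool → Bool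
  prem_bd : ∀ w, ∀ e ∈ prem w, e.1 < D ∧ e.2 < S
  len_bd : ∀ w s, len w s ≤ D
  sh_bd : ∀ s, sh s ≤ D
  pt_prem : PT prem
  pt_len : PT (fun p : ℕ × ℕ => len p.1 p.2)
  pt_ok : PT (fun p : ℕ × ℕ × ℕ => ok p.1 p.2.1 p.2.2)
  pt_sh : PT sh
  pt_tab : PT (fun p : ℕ × Bool × Bool × Bool => tab p.1 p.2.1 p.2.2.1 p.2.2.2)

/-- The tableau `H` obeys the rules on the input `x`. -/
structure Sys.Valid (Y : Sys) (x : List Bool) (H : ℕ → ℕ → ℕ → Prop) : Prop where
  init : ∀ s < Y.S, ∀ i, H 0 i s ↔
    Y.tab s (decide (i = 0)) (decide (i < x.length)) (x.getD i false) = true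
  sound : ∀ t, ∀ w < Y.W, (∀ e ∈ Y.prem w, H t e.1 e.2) → ∀ s < Y.S, ∀ i,
    (H (t + 1) i s ↔ if i < Y.len w s then Y.ok w s i = true else H t (i - Y.len w s + Y.sh s) s)
  complete : ∀ t, ∃ w < Y.W, ∀ e ∈ Y.prem w, H t e.1 e.2

/-- Nodes of the program. -/
abbrev Nd : Type := ℕ × ℕ × ℕ × ℕ × ℕ

/-- Final nodes. -/
def fin (b : Bool) : Nd := if b then (8, 0, 0, 0, 0) else (9, 0, 0, 0, 0)

/-- Plain transitions. -/
def Sys.pl (Y : Sys) (x : List Bool) (m₁ m₂ : ℕ) (a : Nd) : List Nd :=
  if a.1 = 0 then (if a.2.2.2.2 < m₁ then [] else [(7, a.2.1, 0, 0, 0)])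
  else if a.1 = 1 then (List.range Y.W).map (fun w => (2, a.2.1, w, 0, 0))
  else if a.1 = 2 then
    (if a.2.2.2.1 < Y.len a.2.2.1 a.2.1 then
      (if a.2.2.2.2 < m₂ then [] else
        [if Y.ok a.2.2.1 a.2.1 a.2.2.2.1 then (3, 0, a.2.2.1, 0, 0) else (9, 0, 0, 0, 0)])
    else [(4, a.2.1, a.2.2.1, 0, 0)])
  else if a.1 = 3 then (Y.prem a.2.2.1).map (fun e => (6, e.2, 0, e.1 + 1, 0))
  else if a.1 = 4 then [(3, 0, a.2.2.1, 0, 0), (5, a.2.1, 0, Y.sh a.2.1, 0)]
  else if a.1 = 5 then
    (if a.2.2.2.1 = 0 then [(0, a.2.1, 0, 0, 0)] else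
      if a.2.2.2.2 < m₂ then [] else [(5, a.2.1, 0, a.2.2.2.1 - 1, 0)])
  else if a.1 = 6 then (if a.2.2.2.2 < m₂ then [] else [(5, a.2.1, 0, a.2.2.2.1, 0)])
  else if a.1 = 7 then
    (if a.2.2.2.1 < x.length + 1 then
      (if a.2.2.2.2 < m₂ then [] else
        [fin (Y.tab a.2.1 (decide (a.2.2.2.1 = 0)) (decide (a.2.2.2.1 < x.length))
          (x.getD a.2.2.2.1 false))])
    else [fin (Y.tab a.2.1 false false false)])
  else []

/-- Transitions that flip a bit. -/
def Sys.fl (Y : Sys) (x : List Bool) (m₁ m₂ : ℕ) (a : Nd) : List (ℕ × Bool × Nd) :=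
  if a.1 = 0 ∧ a.2.2.2.2 < m₁ then
    [(a.2.2.2.2, true, (1, a.2.1, 0, 0, 0)), (a.2.2.2.2, false, (0, a.2.1, 0, 0, a.2.2.2.2 + 1))]
  else if a.1 = 2 ∧ a.2.2.2.1 < Y.len a.2.2.1 a.2.1 ∧ a.2.2.2.2 < m₂ then
    [(m₁ + a.2.2.2.2, true, (2, a.2.1, a.2.2.1, a.2.2.2.1 + 1, 0)),
      (m₁ + a.2.2.2.2, false, (2, a.2.1, a.2.2.1, a.2.2.2.1, a.2.2.2.2 + 1))]
  else if a.1 = 5 ∧ 0 < a.2.2.2.1 ∧ a.2.2.2.2 < m₂ then
    [(m₁ + a.2.2.2.2, false, (5, a.2.1, 0, a.2.2.2.1 - 1, 0)),
      (m₁ + a.2.2.2.2, true, (5, a.2.1, 0, a.2.2.2.1, a.2.2.2.2 + 1))]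
  else if a.1 = 6 ∧ a.2.2.2.2 < m₂ then
    [(m₁ + a.2.2.2.2, true, (6, a.2.1, 0, a.2.2.2.1, 0)),
      (m₁ + a.2.2.2.2, false, (6, a.2.1, 0, a.2.2.2.1, a.2.2.2.2 + 1))]
  else if a.1 = 7 ∧ a.2.2.2.1 < x.length + 1 ∧ a.2.2.2.2 < m₂ then
    [(m₁ + a.2.2.2.2, true, (7, a.2.1, 0, a.2.2.2.1 + 1, 0)),
      (m₁ + a.2.2.2.2, false, (7, a.2.1, 0, a.2.2.2.1, a.2.2.2.2 + 1))]
  else []

/-- The program. -/
def Sys.ap (Y : Sys) (x : List Bool) (m₁ m₂ : ℕ) : AP Nd where
  m := m₁ + m₂
  own a := decide (a.1 ≠ 3 ∧ a.1 ≠ 4 ∧ a.1 ≠ 8)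
  pl := Y.pl x m₁ m₂
  fl := Y.fl x m₁ m₂

namespace Sys

variable {Y : Sys} {x : List Bool}

theorem fl_lt (a : Nd) : ∀ f ∈ (Y.ap x m₁ m₂).fl a, f.1 < (Y.ap x m₁ m₂).m := by
  intro f hf
  simp only [ap, fl] at hf ⊢
  split_ifs at hf <;> simp only [List.mem_cons, List.not_mem_nil, or_false] at hf <;>
    rcases hf with rfl | rfl <;> simp only <;> omega

theorem rv_fin (b : Bool) (t i : ℕ) : RV (Y.ap x m₁ m₂) m₁ m₂ b (fin b) t i := by
  intro mem _ _
  cases b
  · exact Res.all' (by simp [ap, fin]) (by simp [ap, fin, fl]) (by simp [ap, fin, pl])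
  · exact Res.all' (by simp [ap, fin]) (by simp [ap, fin, fl]) (by simp [ap, fin, pl])

theorem rv_add (s t : ℕ) (r : ℕ) : ∀ i, RV (Y.ap x m₁ m₂) m₁ m₂ q (0, s, 0, 0, 0) t
    ((i + r) % 2 ^ m₂) → RV (Y.ap x m₁ m₂) m₁ m₂ q (5, s, 0, r, 0) t (i % 2 ^ m₂) := by
  induction r with
  | zero => intro i h; exact RV.plain (by simp [ap, pl]) (by simp [ap, fl]) h
  | succ r ih =>
    intro i h
    refine RV.incI (nd := fun j => (5, s, 0, r + 1, j)) (ok := (5, s, 0, r, 0))
      (fun j hj => ⟨by simp [ap, pl, hj], by simp [ap, fl, hj]⟩) (by simp [ap, pl])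
      (by simp [ap, fl]) ?_
    rw [Nat.mod_add_mod]
    refine ih (i + 1) ?_
    rwa [show i + 1 + r = i + (r + 1) by omega]

theorem rv_clr (s t r : ℕ) (h : RV (Y.ap x m₁ m₂) m₁ m₂ q (5, s, 0, r, 0) t (2 ^ m₂ - 1)) (i : ℕ) :
    RV (Y.ap x m₁ m₂) m₁ m₂ q (6, s, 0, r, 0) t i := by
  induction i with
  | zero =>
    exact RV.decI (nd := fun j => (6, s, 0, r, j)) (ok := (6, s, 0, r, 0))
      (carry := (5, s, 0, r, 0))
      (fun j hj => ⟨by simp [ap, pl, hj], by simp [ap, fl, hj]⟩) (by simp [ap, pl])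
      (by simp [ap, fl]) (fun _ => h) (fun i' h => by omega)
  | succ i ih =>
    exact RV.decI (nd := fun j => (6, s, 0, r, j)) (ok := (6, s, 0, r, 0))
      (carry := (5, s, 0, r, 0))
      (fun j hj => ⟨by simp [ap, pl, hj], by simp [ap, fl, hj]⟩) (by simp [ap, pl])
      (by simp [ap, fl]) (fun h => by omega) (fun i' h => by
        obtain rfl : i = i' := by omega
        exact ih)

theorem rv_set (s t j : ℕ) (hj : j < 2 ^ m₂) (h : RV (Y.ap x m₁ m₂) m₁ m₂ q (0, s, 0, 0, 0) t j)
    (i : ℕ) : RV (Y.ap x m₁ m₂) m₁ m₂ q (6, s, 0, j + 1, 0) t i := by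
  refine rv_clr s t _ ?_ i
  have h1 : 0 < 2 ^ m₂ := by positivity
  have := rv_add (Y := Y) (x := x) (m₁ := m₁) (m₂ := m₂) (q := q) s t (j + 1) (2 ^ m₂ - 1) (by
    rwa [show 2 ^ m₂ - 1 + (j + 1) = j + 2 ^ m₂ by omega, Nat.add_mod_right, Nat.mod_eq_of_lt hj])
  rwa [Nat.mod_eq_of_lt (by omega)] at this

theorem rv_init {H : ℕ → ℕ → ℕ → Prop} (hV : Y.Valid x H) {s : ℕ} (hs : s < Y.S) {i : ℕ}
    (hq : H 0 i s ↔ q = true) (t : ℕ) : RV (Y.ap x m₁ m₂) m₁ m₂ q (7, s, 0, 0, 0) t i := by
  rw [hV.init s hs] at hq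
  have hq' : Y.tab s (decide (i = 0)) (decide (i < x.length)) (x.getD i false) = q := by
    cases q <;> simpa using hq
  refine RV.compare (nd := fun r j => (7, s, 0, r, j))
    (low := fun r => fin (Y.tab s (decide (r = 0)) (decide (r < x.length)) (x.getD r false)))
    (high := fin (Y.tab s false false false)) (L := x.length + 1)
    (fun r hr j hj => ⟨by simp [ap, pl, hj, hr], by simp [ap, fl, hj, hr]⟩)
    (fun r hr => ⟨by simp [ap, pl, hr], by simp [ap, fl]⟩)
    ⟨by simp [ap, pl], by simp [ap, fl]⟩ (x.length + 1) 0 i (by simp) ?_ ?_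
  · intro _ i'
    rw [zero_add, hq']
    exact rv_fin _ _ _
  · intro hi
    have h1 : decide (i = 0) = false := by simp; omega
    have h2 : decide (i < x.length) = false := by simp; omega
    have h3 : x.getD i false = false := List.getD_eq_default _ _ (by omega)
    rw [h1, h2, h3] at hq'
    rw [hq']
    exact rv_fin _ _ _

theorem rv_claim {H : ℕ → ℕ → ℕ → Prop} (hV : Y.Valid x H) (t : ℕ) : ∀ (q : Bool) (s i : ℕ),
    s < Y.S → i + Y.D * t < 2 ^ m₂ → (H t i s ↔ q = true) →
    RV (Y.ap x m₁ m₂) m₁ m₂ q (0, s, 0, 0, 0) t i := by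
  induction t with
  | zero =>
    intro q s i hs _ hq
    exact RV.decT (nd := fun j => (0, s, 0, 0, j)) (ok := (1, s, 0, 0, 0))
      (carry := (7, s, 0, 0, 0))
      (fun j hj => ⟨by simp [ap, pl, hj], by simp [ap, fl, hj]⟩) (by simp [ap, pl])
      (by simp [ap, fl]) (fun _ t' => rv_init hV hs hq t') (fun t' h => by omega)
  | succ t ih =>
    intro q s i hs hb hq
    rw [Nat.mul_succ] at hb
    refine RV.decT (nd := fun j => (0, s, 0, 0, j)) (ok := (1, s, 0, 0, 0))
      (carry := (7, s, 0, 0, 0))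
      (fun j hj => ⟨by simp [ap, pl, hj], by simp [ap, fl, hj]⟩) (by simp [ap, pl])
      (by simp [ap, fl]) (fun h => by omega) (fun t' h => ?_)
    obtain rfl : t = t' := by omega
    have hprem : ∀ w, ∀ e ∈ Y.prem w, ∀ q', (H t e.1 e.2 ↔ q' = true) → ∀ i',
        RV (Y.ap x m₁ m₂) m₁ m₂ q' (6, e.2, 0, e.1 + 1, 0) t i' := by
      intro w e he q' h i'
      obtain ⟨h1, h2⟩ := Y.prem_bd w e he
      exact rv_set _ _ _ (by omega) (ih q' _ _ h2 (by omega) h) i'
    have hch1 : ∀ w, (∀ e ∈ Y.prem w, H t e.1 e.2) → ∀ i',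
        RV (Y.ap x m₁ m₂) m₁ m₂ true (3, 0, w, 0, 0) t i' := by
      intro w hw i' mem h1 h2
      refine Res.all' (by simp [ap]) (by simp [ap, fl]) ?_
      intro a' ha'
      simp only [ap, pl] at ha'
      simp only [OfNat.ofNat_ne_zero, OfNat.ofNat_ne_one, Nat.reduceEqDiff, if_false, if_true,
        List.mem_map] at ha'
      obtain ⟨e, he, rfl⟩ := ha'
      exact hprem w e he true (by simp [hw e he]) i' mem h1 h2
    have hch0 : ∀ w, ¬ (∀ e ∈ Y.prem w, H t e.1 e.2) → ∀ i',
        RV (Y.ap x m₁ m₂) m₁ m₂ false (3, 0, w, 0, 0) t i' := by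
      intro w hw i' mem h1 h2
      simp only [not_forall] at hw
      obtain ⟨e, he, hw⟩ := hw
      refine Res.pick' (by simp [ap]) ?_ (hprem w e he false (by simp [hw]) i' mem h1 h2)
      simp only [ap, pl]
      simp only [OfNat.ofNat_ne_zero, OfNat.ofNat_ne_one, Nat.reduceEqDiff, if_false, if_true,
        List.mem_map]
      exact ⟨e, he, rfl⟩
    have hsub : ∀ w, (i < Y.len w s → ∀ i', RV (Y.ap x m₁ m₂) m₁ m₂ q
          (if Y.ok w s i then (3, 0, w, 0, 0) else (9, 0, 0, 0, 0)) t i') →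
        (Y.len w s ≤ i → RV (Y.ap x m₁ m₂) m₁ m₂ q (4, s, w, 0, 0) t (i - Y.len w s)) →
        RV (Y.ap x m₁ m₂) m₁ m₂ q (2, s, w, 0, 0) t i := by
      intro w h1 h2
      refine RV.compare (nd := fun r j => (2, s, w, r, j))
        (low := fun r => if Y.ok w s r then (3, 0, w, 0, 0) else (9, 0, 0, 0, 0))
        (high := (4, s, w, 0, 0)) (L := Y.len w s)
        (fun r hr j hj => ⟨by simp [ap, pl, hj, hr], by simp [ap, fl, hj, hr]⟩)
        (fun r hr => ⟨by simp [ap, pl, hr], by simp [ap, fl]⟩)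
        ⟨by simp [ap, pl], by simp [ap, fl]⟩ (Y.len w s) 0 i (by simp) ?_ h2
      simpa using h1
    have hadd : ∀ w, (H t (i - Y.len w s + Y.sh s) s ↔ q = true) →
        RV (Y.ap x m₁ m₂) m₁ m₂ q (5, s, 0, Y.sh s, 0) t (i - Y.len w s) := by
      intro w h
      have h1 := Y.sh_bd s
      have := rv_add (Y := Y) (x := x) (m₁ := m₁) (m₂ := m₂) (q := q) s t (Y.sh s)
        (i - Y.len w s) (by
          rw [Nat.mod_eq_of_lt (by omega)]
          exact ih q s _ hs (by omega) h)
      rwa [Nat.mod_eq_of_lt (by omega)] at this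
    cases q with
    | true =>
      obtain ⟨w, hw, hp⟩ := hV.complete t
      have h1 := (hV.sound t w hw hp s hs i).1 (hq.2 rfl)
      intro mem e1 e2
      refine Res.pick' (a' := (2, s, w, 0, 0)) (by simp [ap]) (by simpa [ap, pl] using hw)
        (hsub w (fun h i' => ?_) (fun h => ?_) mem e1 e2)
      · rw [if_pos h] at h1
        rw [if_pos h1]
        exact hch1 w hp i'
      · rw [if_neg (by omega)] at h1
        intro mem' e1' e2'
        refine Res.all' (by simp [ap]) (by simp [ap, fl]) ?_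
        intro a' ha'
        have : a' = (3, 0, w, 0, 0) ∨ a' = (5, s, 0, Y.sh s, 0) := by simpa [ap, pl] using ha'
        rcases this with rfl | rfl
        · exact hch1 w hp _ mem' e1' e2'
        · exact hadd w (by simp [h1]) mem' e1' e2'
    | false =>
      have hq' : ¬ H (t + 1) i s := by simpa using hq
      intro mem e1 e2
      refine Res.all' (by simp [ap]) (by simp [ap, fl]) ?_
      intro a' ha'
      have : ∃ w < Y.W, (2, s, w, 0, 0) = a' := by simpa [ap, pl] using ha'
      obtain ⟨w, hw, rfl⟩ := this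
      refine hsub w (fun h i' => ?_) (fun h => ?_) mem e1 e2
      · by_cases hp : ∀ e ∈ Y.prem w, H t e.1 e.2
        · rw [hV.sound t w hw hp s hs i, if_pos h] at hq'
          rw [if_neg hq']
          exact rv_fin false _ _
        · split_ifs
          · exact hch0 w hp i'
          · exact rv_fin false _ _
      · intro mem' e1' e2'
        by_cases hp : ∀ e ∈ Y.prem w, H t e.1 e.2
        · rw [hV.sound t w hw hp s hs i, if_neg (by omega)] at hq'
          exact Res.pick' (a' := (5, s, 0, Y.sh s, 0)) (by simp [ap]) (by simp [ap, pl])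
            (hadd w (by simp [hq']) mem' e1' e2')
        · exact Res.pick' (a' := (3, 0, w, 0, 0)) (by simp [ap]) (by simp [ap, pl])
            (hch0 w hp _ mem' e1' e2')

end Sys

end Pool.Agent.MP_8c4891_lc

end

section

/-! The local rules of the tableau of a multi-stack machine. -/

namespace Pool.Agent.MP_8c4891_lc

open Pool.Agent.MP_2e8011_lc Turing

theorem pt_of_finite {α β : Type} [Enc α] [Enc β] (L : List α) (d : β) : ∀ (f : α → β),
    (∀ a, a ∉ L → f a = d) → PT f := by
  classical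
  induction L with
  | nil => intro f h; exact (PT.const d).congr (fun a => (h a (by simp)).symm)
  | cons a₀ L ih =>
    intro f h
    have h1 := ih (fun a => if a = a₀ then d else f a) (fun a ha => by
      split_ifs with h2
      · rfl
      · exact h a (by simp [h2, ha]))
    have h2 : PT (fun a => if a = a₀ then f a₀ else (if a = a₀ then d else f a)) :=
      PT.ite (by fun_prop) (PT.const _) h1
    refine h2.congr (fun a => ?_)
    by_cases h3 : a = a₀ <;> simp [h3]

variable {K : Type} [DecidableEq K] {Γ : K → Type} {Λ σ : Type}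

/-- Meaning of a symbol at position `i`. -/
def Hd (c : TM2.Cfg Γ Λ σ) (i : ℕ) : Sym Γ Λ σ → Prop
  | .inl q => i = 0 ∧ (c.l, c.var) = q
  | .inr s => (c.stk s.1)[i]? = s.2

omit [DecidableEq K] in
theorem hd_inr (c : TM2.Cfg Γ Λ σ) (i : ℕ) (z : Σ k, Option (Γ k)) :
    Hd c i (.inr z : Sym Γ Λ σ) ↔ Dat.cell c z.1 i = .inr z := by
  obtain ⟨k, o⟩ := z
  simp [Hd, Dat.cell]

theorem exists_sys (D : Dat Γ Λ σ) (hinj : Function.Injective D.i₀) :
    ∃ (Y : Sys) (s₀ : ℕ), s₀ < Y.S ∧ ∀ x : List Bool, ∃ H, Y.Valid x H ∧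
      ∀ T, H T 0 s₀ ↔ (((nxt D.m)^[T] (D.c0 x)).stk D.k₁)[0]? = some D.bad := by
  classical
  let SL : List (Sym Γ Λ σ) := D.TL.map Dat.ctl ++ D.OL.map Sum.inr
  let sym : ℕ → Sym Γ Λ σ := fun n => SL.getD n (.inl (none, D.v₀))
  have hex : ∀ s, ∃ n, s ∈ SL → n < SL.length ∧ sym n = s := by
    intro s
    by_cases hs : s ∈ SL
    · obtain ⟨n, hn, hn'⟩ := List.getElem_of_mem hs
      refine ⟨n, fun _ => ⟨hn, ?_⟩⟩
      simp only [sym]
      rw [List.getD_eq_getElem _ _ hn, hn']
    · exact ⟨0, fun h => absurd h hs⟩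
  choose idx hidx using hex
  have hctl : ∀ c ∈ D.TL, Dat.ctl c ∈ SL := fun c hc =>
    List.mem_append_left _ (List.mem_map_of_mem hc)
  have hcell : ∀ c ∈ D.TL, ∀ k j, Dat.cell c k j ∈ SL := fun c hc k j =>
    List.mem_append_right _ (List.mem_map_of_mem
      ((D.hOL _).2 (D.good_cell ((D.hTL c).1 hc).2 k j)))
  let wn : ℕ → TM2.Cfg Γ Λ σ := fun w => D.TL.getD w (D.c0 [])
  have hwn : ∀ w < D.TL.length, wn w ∈ D.TL := by
    intro w hw
    simp only [wn]
    rw [List.getD_eq_getElem _ _ hw]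
    exact List.getElem_mem _
  let prem : ℕ → List (ℕ × ℕ) := fun w => if w < D.TL.length then
    (0, idx (Dat.ctl (wn w))) ::
      D.KL.flatMap (fun k => (List.range D.d).map (fun j => (j, idx (Dat.cell (wn w) k j))))
    else []
  let len0 : ℕ → Sym Γ Λ σ → ℕ := fun w s =>
    match s with
    | .inl _ => 1
    | .inr z => ((nxt D.m (wn w)).stk z.1).length
  let len : ℕ → ℕ → ℕ := fun w s =>
    if w < D.TL.length ∧ s < SL.length then len0 w (sym s) else 0
  let ok : ℕ → ℕ → ℕ → Bool := fun w s r =>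
    if w < D.TL.length ∧ s < SL.length ∧ r < len w s then decide (Hd (nxt D.m (wn w)) r (sym s))
    else false
  let sh0 : Sym Γ Λ σ → ℕ := fun s =>
    match s with
    | .inl _ => 1
    | .inr _ => D.d
  let sh : ℕ → ℕ := fun s => if s < SL.length then sh0 (sym s) else 0
  let tab0 : Sym Γ Λ σ → Bool → Bool → Bool → Prop := fun s b1 b2 b3 =>
    match s with
    | .inl q => b1 = true ∧ (some D.main, D.v₀) = q
    | .inr z => if z.1 = D.k₀ then D.s0 (if b2 then some b3 else none) = .inr z else z.2 = none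
  let tab : ℕ → Bool → Bool → Bool → Bool := fun s b1 b2 b3 =>
    if s < SL.length then decide (tab0 (sym s) b1 b2 b3) else false
  let PL : List (ℕ × ℕ) :=
    (List.range D.TL.length).flatMap (fun w => (List.range SL.length).map (fun s => (w, s)))
  have hPL : ∀ w s, (w, s) ∈ PL ↔ w < D.TL.length ∧ s < SL.length := by
    intro w s; simp [PL]
  let B : ℕ := D.d + 1 + (PL.map (fun p => len p.1 p.2)).sum
  have hB : ∀ w s, len w s ≤ B := by
    intro w s
    by_cases h : w < D.TL.length ∧ s < SL.length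
    · have : len w s ≤ (PL.map (fun p => len p.1 p.2)).sum :=
        List.single_le_sum (by simp) _ (List.mem_map.2 ⟨(w, s), (hPL w s).2 h, rfl⟩)
      omega
    · simp [len, h]
  have hprem : ∀ w < D.TL.length, ∀ e, e ∈ prem w ↔ e = (0, idx (Dat.ctl (wn w))) ∨
      ∃ k, ∃ j < D.d, e = (j, idx (Dat.cell (wn w) k j)) := by
    intro w hw e
    simp only [prem, if_pos hw, List.mem_cons, List.mem_flatMap, List.mem_map, List.mem_range,
      D.hKL, true_and, eq_comm]
  let Y : Sys :=
    { S := SL.length, W := D.TL.length, D := B, prem := prem, len := len, ok := ok, sh := sh,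
      tab := tab
      prem_bd := by
        intro w e he
        by_cases hw : w < D.TL.length
        · rcases (hprem w hw e).1 he with rfl | ⟨k, j, hj, rfl⟩
          · exact ⟨by simp only [B]; omega, (hidx _ (hctl _ (hwn w hw))).1⟩
          · exact ⟨by simp only [B]; omega, (hidx _ (hcell _ (hwn w hw) k j)).1⟩
        · simp [prem, hw] at he
      len_bd := hB
      sh_bd := by
        intro s
        simp only [sh, sh0, B]
        split_ifs
        · split <;> omega
        · omega
      pt_prem := pt_of_finite (List.range D.TL.length) [] _ (fun w hw => by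
        simp only [List.mem_range] at hw
        simp only [prem, if_neg hw])
      pt_len := pt_of_finite PL 0 _ (fun p hp => by
        rw [hPL] at hp
        simp only [len, if_neg hp])
      pt_ok := pt_of_finite (PL.flatMap (fun p => (List.range B).map (fun r => (p.1, p.2, r))))
        false _ (fun p hp => by
          simp only [ok]
          rw [if_neg]
          rintro ⟨h1, h2, h3⟩
          apply hp
          simp only [List.mem_flatMap, List.mem_map, List.mem_range]
          exact ⟨(p.1, p.2.1), (hPL _ _).2 ⟨h1, h2⟩, p.2.2, h3.trans_le (hB _ _), rfl⟩)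
      pt_sh := pt_of_finite (List.range SL.length) 0 _ (fun s hs => by
        simp only [List.mem_range] at hs
        simp only [sh, if_neg hs])
      pt_tab := pt_of_finite ((List.range SL.length).flatMap (fun s => [false, true].flatMap
        (fun b1 => [false, true].flatMap (fun b2 => [false, true].map (fun b3 => (s, b1, b2, b3))))))
        false _ (fun p hp => by
          simp only [tab]
          rw [if_neg]
          intro h1
          apply hp
          obtain ⟨s, b1, b2, b3⟩ := p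
          simp only [List.mem_flatMap, List.mem_map, List.mem_range]
          exact ⟨s, h1, b1, by cases b1 <;> simp, b2, by cases b2 <;> simp, b3,
            by cases b3 <;> simp, rfl⟩) }
  have hgood : (.inr ⟨D.k₁, some D.bad⟩ : Sym Γ Λ σ) ∈ SL :=
    List.mem_append_right _ (List.mem_map_of_mem ((D.hOL _).2
      (by intro γ hγ; cases hγ; exact D.hbad)))
  refine ⟨Y, idx (.inr ⟨D.k₁, some D.bad⟩), (hidx _ hgood).1, fun x =>
    ⟨fun t i s => Hd ((nxt D.m)^[t] (D.c0 x)) i (sym s), ⟨?_, ?_, ?_⟩, fun T => ?_⟩⟩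
  · intro s hs i
    change s < SL.length at hs
    simp only [Y, tab, if_pos hs, decide_eq_true_eq, Function.iterate_zero, id]
    cases sym s with
    | inl q => simp [Hd, tab0, Dat.c0]
    | inr z =>
      obtain ⟨k, o⟩ := z
      rw [hd_inr]
      simp only [tab0]
      by_cases hk : k = D.k₀
      · subst hk
        rw [if_pos rfl, D.cell_c0]
        by_cases hi : i < x.length
        · simp [hi]
        · simp [hi]
      · rw [if_neg hk, D.cell_c0_ne x hk]
        simp [eq_comm]
  · intro t w hw hp s hs i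
    change w < D.TL.length at hw
    change s < SL.length at hs
    set c := (nxt D.m)^[t] (D.c0 x) with hc
    have hwin : wn w = win D.d c := by
      obtain ⟨hlen, -⟩ := (D.hTL _).1 (hwn w hw)
      have e1 := hp _ ((hprem w hw _).2 (Or.inl rfl))
      have e2 := fun k j hj => hp _ ((hprem w hw _).2 (Or.inr ⟨k, j, hj, rfl⟩))
      simp only [(hidx _ (hctl _ (hwn w hw))).2, (hidx _ (hcell _ (hwn w hw) _ _)).2] at e1 e2
      generalize wn w = c' at hlen e1 e2
      obtain ⟨l, v, S⟩ := c'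
      simp only [Dat.ctl, Hd, Prod.mk.injEq, Dat.cell, true_and] at e1 e2 hlen
      simp only [win, TM2.Cfg.mk.injEq]
      refine ⟨e1.1.symm, e1.2.symm, funext fun k => List.ext_getElem? fun i => ?_⟩
      by_cases hi : i < D.d
      · rw [List.getElem?_take, if_pos hi, e2 k i hi]
      · rw [List.getElem?_take, if_neg hi, List.getElem?_eq_none ((hlen k).trans (not_lt.1 hi))]
    rw [Function.iterate_succ_apply', ← hc]
    simp only [Y, ok, sh, len, hw, hs, true_and, if_true, len0, sh0, hwin]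
    cases sym s with
    | inl q =>
      have h1 := D.ctl_nxt c
      simp only [Dat.ctl, Sum.inl.injEq] at h1
      simp only [Hd, h1]
      by_cases hi : i < 1
      · simp [hi]
      · simp only [hi, if_false]
        constructor
        · rintro ⟨h, -⟩; omega
        · rintro ⟨h, -⟩; omega
    | inr z =>
      simp only
      by_cases hi : i < ((nxt D.m (win D.d c)).stk z.1).length
      · simp only [hi, if_true, decide_eq_true_eq, hd_inr, D.cell_nxt_lt c z.1 hi]
      · simp only [hi, if_false]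
        obtain ⟨j, rfl⟩ := Nat.exists_eq_add_of_le (not_lt.1 hi)
        simp only [Hd, D.stk_nxt_ge, Nat.add_sub_cancel_left, add_comm j]
  · intro t
    set c := (nxt D.m)^[t] (D.c0 x) with hc
    have hw := D.win_mem (D.over_iter x t)
    rw [← hc] at hw
    obtain ⟨w, hw', hw''⟩ := List.getElem_of_mem hw
    have hwin : wn w = win D.d c := by
      simp only [wn]
      rw [List.getD_eq_getElem _ _ hw', hw'']
    refine ⟨w, hw', fun e he => ?_⟩
    rcases (hprem w hw' e).1 he with rfl | ⟨k, j, hj, rfl⟩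
    · simp only [(hidx _ (hctl _ (hwn w hw'))).2]
      rw [hwin]
      exact ⟨rfl, rfl⟩
    · simp only [(hidx _ (hcell _ (hwn w hw') _ _)).2]
      rw [hwin, D.cell_win c k hj]
      rfl
  · simp only [(hidx _ hgood).2]
    rfl

theorem exists_sys_of_machine {L : List Bool → Bool}
    (M : TM2ComputableInTime (id : List Bool → List Bool) Computability.encodeBool L) :
    ∃ (Y : Sys) (s₀ : ℕ), s₀ < Y.S ∧ ∀ x : List Bool, ∃ H, Y.Valid x H ∧
      ∀ T, M.time x.length ≤ T → (H T 0 s₀ ↔ L x = true) := by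
  obtain ⟨D, hm, hk₀, hk₁, hmain, hv, hi, hbad⟩ :=
    exists_dat M.tm M.inputAlphabet.symm (M.outputAlphabet.symm true)
  obtain ⟨m, k₀, k₁, main, v₀, i₀, bad, d, hd, A, hA, hi', hbad', KL, hKL, TL, hTL, OL, hOL, code,
    hcode⟩ := D
  simp only at hm hk₀ hk₁ hmain hv hi hbad
  subst hm hk₀ hk₁ hmain hv
  obtain rfl := eq_of_heq hi
  obtain rfl := eq_of_heq hbad
  set D : Dat M.tm.Γ M.tm.Λ M.tm.σ := ⟨M.tm.m, M.tm.k₀, M.tm.k₁, M.tm.main, M.tm.initialState,
    M.inputAlphabet.symm, M.outputAlphabet.symm true, d, hd, A, hA, hi', hbad', KL, hKL, TL, hTL,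
    OL, hOL, code, hcode⟩ with hD
  obtain ⟨Y, s₀, hs₀, hY⟩ := exists_sys D M.inputAlphabet.symm.injective
  refine ⟨Y, s₀, hs₀, fun x => ?_⟩
  obtain ⟨H, hH, hT⟩ := hY x
  refine ⟨H, hH, fun T h3 => ?_⟩
  rw [hT]
  obtain ⟨⟨n, hn⟩, hn'⟩ := M.outputsFun x
  simp only [id] at hn'
  have h1 := nxt_iter_of_steps M.tm.m n _ _ hn
  have h2 : D.c0 x = initList M.tm (List.map M.inputAlphabet.invFun (id x)) := by
    simp only [Dat.c0, initList, hD]
    congr 1
    funext k
    by_cases hk : k = M.tm.k₀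
    · subst hk
      rw [dif_pos rfl]
      exact Function.update_self (β := fun k => List (M.tm.Γ k)) ..
    · rw [dif_neg hk]
      exact Function.update_of_ne (β := fun k => List (M.tm.Γ k)) hk _ _
  obtain ⟨e, he⟩ := Nat.exists_eq_add_of_le (hn'.trans h3)
  rw [h2, he, add_comm, Function.iterate_add_apply]
  change (((nxt M.tm.m)^[e] ((nxt M.tm.m)^[n] _)).stk M.tm.k₁)[0]? =
    some (M.outputAlphabet.symm true) ↔ _
  rw [h1, nxt_iter_halt _ rfl]
  simp only [haltList, Computability.encodeBool]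
  cases L x <;> simp

end Pool.Agent.MP_8c4891_lc

end

section

/-! Annihilation is hard for exponential time. -/

namespace Pool.Agent.MP_8c4891_lc

open Pool.Agent.MP_2e8011_lc Cq Vx

/-- The data describing a position. -/
abbrev Dt : Type := List (List Bool) × List (List (List Bool)) × List (List Bool)

theorem agree_dt : Agree Dt :=
  agree_prod (agree_list (agree_list agree_bool))
    (agree_prod (agree_list (agree_list (agree_list agree_bool)))
      (agree_list (agree_list agree_bool)))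

/-- The data of a position. -/
def Position.data (P : Position) : Dt :=
  (List.ofFn fun u => List.ofFn fun v => P.G u v,
    List.ofFn fun i => List.ofFn fun u => List.ofFn fun v => P.E i u v,
    List.ofFn fun i => List.ofFn fun u => decide (P.place u = some i))

theorem Position.code_eq (P : Position) : P.code = enc P.data := agree_dt _

/-- Number of a node. -/
def numN (a : Nd) : ℕ := Nat.pair a.1 (Nat.pair a.2.1 (Nat.pair a.2.2.1 (Nat.pair a.2.2.2.1 a.2.2.2.2)))

theorem numN_injective : Function.Injective numN := by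
  rintro ⟨a1, a2, a3, a4, a5⟩ ⟨b1, b2, b3, b4, b5⟩ h
  simpa [numN] using h

/-- Number of a bit. -/
def bn (b : Bool) : ℕ := bif b then 1 else 0

theorem bn_inj {a b : Bool} : bn a = bn b ↔ a = b := by
  cases a <;> cases b <;> simp [bn]

/-- Number of a cell vertex. -/
def numQ : Cq → ℕ
  | R b => Nat.pair 0 (bn b)
  | T b => Nat.pair 1 (bn b)
  | H j => Nat.pair 2 j

theorem numQ_injective : Function.Injective numQ := by
  intro a b h
  cases a <;> cases b <;> simp_all [numQ, bn_inj]

/-- Number of a vertex. -/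
def numV : Vx Nd → ℕ
  | N a p => Nat.pair 0 (Nat.pair (numN a) (bn p))
  | W1 c b a p => Nat.pair 1 (Nat.pair c (Nat.pair (bn b) (Nat.pair (numN a) (bn p))))
  | W2 c b a p => Nat.pair 2 (Nat.pair c (Nat.pair (bn b) (Nat.pair (numN a) (bn p))))
  | K j => Nat.pair 3 j
  | X c q => Nat.pair 4 (Nat.pair c (numQ q))

theorem numV_injective : Function.Injective numV := by
  intro a b h
  cases a <;> cases b <;>
    simp_all [numV, bn_inj, numN_injective.eq_iff, numQ_injective.eq_iff]

instance : Enc Cq := ⟨fun q => enc (numQ q), fun _ _ h => numQ_injective (Enc.inj h)⟩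

instance : Enc (Vx Nd) := ⟨fun v => enc (numV v), fun _ _ h => numV_injective (Enc.inj h)⟩

instance : Inhabited Cq := ⟨H 0⟩

instance : Inhabited (Vx Nd) := ⟨K 0⟩

section PT

variable {α : Type} [Enc α]

@[fun_prop] theorem pt_bn {f : α → Bool} (hf : PT f) : PT (fun a => bn (f a)) := by
  unfold bn; fun_prop

@[fun_prop] theorem pt_numN {f : α → Nd} (hf : PT f) : PT (fun a => numN (f a)) := by
  unfold numN; fun_prop

@[fun_prop] theorem pt_numQ {f : α → Cq} (hf : PT f) : PT (fun a => numQ (f a)) := hf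

@[fun_prop] theorem pt_numV {f : α → Vx Nd} (hf : PT f) : PT (fun a => numV (f a)) := hf

@[fun_prop] theorem pt_R {f : α → Bool} (hf : PT f) : PT (fun a => R (f a)) :=
  (by fun_prop : PT (fun a => Nat.pair 0 (bn (f a))))

@[fun_prop] theorem pt_T {f : α → Bool} (hf : PT f) : PT (fun a => T (f a)) :=
  (by fun_prop : PT (fun a => Nat.pair 1 (bn (f a))))

@[fun_prop] theorem pt_H {f : α → ℕ} (hf : PT f) : PT (fun a => H (f a)) :=
  (by fun_prop : PT (fun a => Nat.pair 2 (f a)))

@[fun_prop] theorem pt_N {f : α → Nd} {p : α → Bool} (hf : PT f) (hp : PT p) :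
    PT (fun a => (N (f a) (p a) : Vx Nd)) :=
  (by fun_prop : PT (fun a => Nat.pair 0 (Nat.pair (numN (f a)) (bn (p a)))))

@[fun_prop] theorem pt_W1 {c : α → ℕ} {b : α → Bool} {f : α → Nd} {p : α → Bool} (hc : PT c)
    (hb : PT b) (hf : PT f) (hp : PT p) : PT (fun a => (W1 (c a) (b a) (f a) (p a) : Vx Nd)) :=
  (by fun_prop : PT (fun a => Nat.pair 1 (Nat.pair (c a) (Nat.pair (bn (b a))
    (Nat.pair (numN (f a)) (bn (p a)))))))

@[fun_prop] theorem pt_W2 {c : α → ℕ} {b : α → Bool} {f : α → Nd} {p : α → Bool} (hc : PT c)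
    (hb : PT b) (hf : PT f) (hp : PT p) : PT (fun a => (W2 (c a) (b a) (f a) (p a) : Vx Nd)) :=
  (by fun_prop : PT (fun a => Nat.pair 2 (Nat.pair (c a) (Nat.pair (bn (b a))
    (Nat.pair (numN (f a)) (bn (p a)))))))

@[fun_prop] theorem pt_K {f : α → ℕ} (hf : PT f) : PT (fun a => (K (f a) : Vx Nd)) :=
  (by fun_prop : PT (fun a => Nat.pair 3 (f a)))

@[fun_prop] theorem pt_X {c : α → ℕ} {q : α → Cq} (hc : PT c) (hq : PT q) :
    PT (fun a => (X (c a) (q a) : Vx Nd)) :=
  (by fun_prop : PT (fun a => Nat.pair 4 (Nat.pair (c a) (numQ (q a)))))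

@[fun_prop] theorem pt_ks {m e : α → ℕ} (hm : PT m) (he : PT e) :
    PT (fun a => (ks (m a) (e a) : List (Vx Nd))) := by
  unfold ks; fun_prop

@[fun_prop] theorem pt_fin {f : α → Bool} (hf : PT f) : PT (fun a => fin (f a)) := by
  unfold fin; fun_prop

variable (Y : Sys)

@[fun_prop] theorem pt_prem {f : α → ℕ} (hf : PT f) : PT (fun a => Y.prem (f a)) :=
  Y.pt_prem.comp hf

@[fun_prop] theorem pt_sh {f : α → ℕ} (hf : PT f) : PT (fun a => Y.sh (f a)) :=
  Y.pt_sh.comp hf

@[fun_prop] theorem pt_len {f g : α → ℕ} (hf : PT f) (hg : PT g) :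
    PT (fun a => Y.len (f a) (g a)) := Y.pt_len.comp (hf.prodMk hg)

@[fun_prop] theorem pt_ok {f g h : α → ℕ} (hf : PT f) (hg : PT g) (hh : PT h) :
    PT (fun a => Y.ok (f a) (g a) (h a)) := Y.pt_ok.comp (hf.prodMk (hg.prodMk hh))

@[fun_prop] theorem pt_tab {f : α → ℕ} {g h k : α → Bool} (hf : PT f) (hg : PT g) (hh : PT h)
    (hk : PT k) : PT (fun a => Y.tab (f a) (g a) (h a) (k a)) :=
  Y.pt_tab.comp (hf.prodMk (hg.prodMk (hh.prodMk hk)))

@[fun_prop] theorem pt_pl {x : α → List Bool} {m₁ m₂ : α → ℕ} {f : α → Nd} (hx : PT x)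
    (h₁ : PT m₁) (h₂ : PT m₂) (hf : PT f) : PT (fun a => Y.pl (x a) (m₁ a) (m₂ a) (f a)) := by
  unfold Sys.pl; fun_prop

@[fun_prop] theorem pt_fl {x : α → List Bool} {m₁ m₂ : α → ℕ} {f : α → Nd} (hx : PT x)
    (h₁ : PT m₁) (h₂ : PT m₂) (hf : PT f) : PT (fun a => Y.fl (x a) (m₁ a) (m₂ a) (f a)) := by
  unfold Sys.fl; fun_prop

end PT

/-- The nodes that matter. -/
def Sys.nodes (Y : Sys) (x : List Bool) (m₁ m₂ : ℕ) : List Nd :=
  (List.range 10).flatMap fun a => (List.range (Y.S + 1)).flatMap fun s =>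
    (List.range (Y.W + 1)).flatMap fun w => (List.range (x.length + Y.D + 2)).flatMap fun r =>
      (List.range (m₁ + m₂ + 1)).map fun j => (a, s, w, r, j)

theorem Sys.mem_nodes {Y : Sys} {x : List Bool} {m₁ m₂ : ℕ} {a : Nd} :
    a ∈ Y.nodes x m₁ m₂ ↔ a.1 < 10 ∧ a.2.1 ≤ Y.S ∧ a.2.2.1 ≤ Y.W ∧
      a.2.2.2.1 ≤ x.length + Y.D + 1 ∧ a.2.2.2.2 ≤ m₁ + m₂ := by
  obtain ⟨a, s, w, r, j⟩ := a
  simp only [Sys.nodes, List.mem_flatMap, List.mem_map, List.mem_range, Prod.mk.injEq]
  constructor
  · rintro ⟨a, h1, s, h2, w, h3, r, h4, j, h5, rfl, rfl, rfl, rfl, rfl⟩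
    omega
  · rintro ⟨h1, h2, h3, h4, h5⟩
    exact ⟨a, h1, s, by omega, w, by omega, r, by omega, j, by omega, rfl, rfl, rfl, rfl, rfl⟩

theorem Sys.pl_closed {Y : Sys} {x : List Bool} {m₁ m₂ : ℕ} : ∀ a ∈ Y.nodes x m₁ m₂,
    ∀ a' ∈ (Y.ap x m₁ m₂).pl a, a' ∈ Y.nodes x m₁ m₂ := by
  intro a ha a' ha'
  rw [Sys.mem_nodes] at ha ⊢
  obtain ⟨t, s, w, r, j⟩ := a
  have h1 := Y.sh_bd s
  have h2 := Y.prem_bd w
  have hf : ∀ b, fin b = (8, 0, 0, 0, 0) ∨ fin b = (9, 0, 0, 0, 0) := by
    intro b; cases b <;> simp [fin]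
  simp only at ha
  obtain ⟨ht, ha⟩ := ha
  simp only [Sys.ap, Sys.pl] at ha'
  interval_cases t <;>
    simp only [OfNat.ofNat_ne_zero, OfNat.ofNat_ne_one, Nat.reduceEqDiff, if_false, if_true,
      List.mem_map, List.mem_range, List.not_mem_nil, zero_ne_one, one_ne_zero,
      OfNat.zero_ne_ofNat, OfNat.one_ne_ofNat] at ha'
  · split_ifs at ha' <;> simp only [List.mem_singleton, List.not_mem_nil] at ha'
    subst ha'; simp only; omega
  · obtain ⟨e, he, rfl⟩ := ha'; simp only; omega
  · split_ifs at ha' <;> simp only [List.mem_singleton, List.not_mem_nil] at ha' <;>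
      subst ha' <;> simp only <;> omega
  · obtain ⟨e, he, rfl⟩ := ha'; have := h2 e he; simp only; omega
  · simp only [List.mem_cons, List.not_mem_nil, or_false] at ha'
    rcases ha' with rfl | rfl <;> simp only <;> omega
  · split_ifs at ha' <;> simp only [List.mem_singleton, List.not_mem_nil] at ha' <;>
      subst ha' <;> simp only <;> omega
  · split_ifs at ha' <;> simp only [List.mem_singleton, List.not_mem_nil] at ha'
    subst ha'; simp only; omega
  · split_ifs at ha' <;> simp only [List.mem_singleton, List.not_mem_nil] at ha' <;>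
      subst ha' <;> rcases hf _ with h | h <;> rw [h] <;> simp

theorem Sys.fl_closed {Y : Sys} {x : List Bool} {m₁ m₂ : ℕ} : ∀ a ∈ Y.nodes x m₁ m₂,
    ∀ f ∈ (Y.ap x m₁ m₂).fl a, f.2.2 ∈ Y.nodes x m₁ m₂ := by
  intro a ha f hf
  rw [Sys.mem_nodes] at ha ⊢
  have h1 := Y.len_bd a.2.2.1 a.2.1
  simp only [Sys.ap, Sys.fl] at hf
  split_ifs at hf <;> simp only [List.mem_cons, List.not_mem_nil, or_false] at hf <;>
    rcases hf with rfl | rfl <;> simp only <;> omega

section build

variable (A : AP Nd) (nodes : List Nd) (a₀ : Nd) (m₁ : ℕ)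

/-- The numbered edges. -/
def edges (i : Bool) : List (ℕ × ℕ) :=
  (verts A nodes).flatMap fun u => (if i then out1 u else out0 A u).map fun v => (numV u, numV v)

/-- The number of vertices. -/
def size : ℕ := ((verts A nodes).flatMap fun u => List.range (numV u)).length + 1

/-- The numbered tokens. -/
def toks (i : Bool) : List ℕ :=
  if i then (List.range A.m).map fun c => numV (X c (R (decide (c < m₁)))) else [numV (N a₀ true)]

theorem lt_size {u : Vx Nd} (hu : u ∈ verts A nodes) : numV u < size A nodes := by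
  rw [size, List.length_flatMap]
  have : numV u ≤ ((verts A nodes).map fun u => (List.range (numV u)).length).sum :=
    List.single_le_sum (by simp) _ (List.mem_map.2 ⟨u, hu, by simp⟩)
  omega

theorem mem_edges {i : Bool} {u v : ℕ} : (u, v) ∈ edges A nodes i ↔
    ∃ a b, a ∈ verts A nodes ∧ Edge A i a b ∧ numV a = u ∧ numV b = v := by
  simp only [edges, List.mem_flatMap, List.mem_map, Prod.mk.injEq, Edge]
  constructor
  · rintro ⟨a, h1, b, h2, h3⟩
    exact ⟨a, b, h1, h2, h3⟩
  · rintro ⟨a, b, h1, h2, h3⟩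
    exact ⟨a, h1, b, h2, h3⟩

theorem not_mem_edges (i : Bool) (u : ℕ) : (u, u) ∉ edges A nodes i := by
  rw [mem_edges]
  rintro ⟨a, b, -, h, h1, h2⟩
  obtain rfl := numV_injective (h1.trans h2.symm)
  exact edge_irrefl i a h

/-- The initial placement. -/
def p0 : Vx Nd → Option Bool := place (some (N a₀ true)) (rest A.m fun c => decide (c < m₁))

/-- The position. -/
noncomputable def mkPos : Position where
  n := size A nodes
  t := 2
  two_le := le_rfl
  G u v := decide ((u.1, v.1) ∈ edges A nodes false) || decide ((u.1, v.1) ∈ edges A nodes true)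
  loopless u := by simp [not_mem_edges]
  E i u v := decide ((u.1, v.1) ∈ edges A nodes (decide (i = 1)))
  sub i u v h := by
    fin_cases i <;> simp_all
  place := push numV (· ∈ verts A nodes) _ (p0 A a₀ m₁)

variable {A nodes a₀ m₁}

theorem p0_eq_some {v : Vx Nd} {i : Bool} : p0 A a₀ m₁ v = some i ↔
    (i = false ∧ v = N a₀ true) ∨ (i = true ∧ ∃ c < A.m, v = X c (R (decide (c < m₁)))) := by
  cases v with
  | X c q =>
    simp only [p0, place, rest]
    by_cases hc : c < A.m
    · cases i <;> simp [hc, eq_comm]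
    · cases i <;> simp [hc]
  | N a p => cases i <;> simp [p0, place, eq_comm]
  | _ => simp [p0, place]

theorem p0_mem (ha : a₀ ∈ nodes) {v : Vx Nd} {i : Bool} (h : p0 A a₀ m₁ v = some i) :
    v ∈ verts A nodes := by
  rcases p0_eq_some.1 h with ⟨-, rfl⟩ | ⟨-, c, hc, rfl⟩
  · exact N_mem.2 ha
  · exact R_mem.2 hc

theorem mkPos_won (h1 : ∀ a, ∀ f ∈ A.fl a, f.1 < A.m)
    (h2 : ∀ a ∈ nodes, ∀ a' ∈ A.pl a, a' ∈ nodes) (h3 : ∀ a ∈ nodes, ∀ f ∈ A.fl a, f.2.2 ∈ nodes)
    (ha : a₀ ∈ nodes) {r : Bool} (h : Res A r a₀ fun c => decide (c < m₁)) :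
    (mkPos A nodes a₀ m₁).Won r := by
  refine transfer numV_injective (E := Edge A) (verts_closed h1 h2 h3)
    (fun a ha => lt_size A nodes ha) (fun i u v => ?_) (simulate' h1 h) (fun a i => p0_mem ha)
  rw [← mem_edges]
  cases i <;> simp [mkPos, ty]

theorem ofFn_val {β : Type} (n : ℕ) (g : ℕ → β) :
    (List.ofFn fun u : Fin n => g u.1) = (List.range n).map g := by
  rw [List.ofFn_eq_map, ← List.map_coe_finRange_eq_range, List.map_map]
  rfl

/-- The data of the position as an explicit function. -/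
def mkDt (n : ℕ) (e0 e1 : List (ℕ × ℕ)) (t0 t1 : List ℕ) : Dt :=
  ((List.range n).map fun u => (List.range n).map fun v =>
      decide ((u, v) ∈ e0) || decide ((u, v) ∈ e1),
    [(List.range n).map fun u => (List.range n).map fun v => decide ((u, v) ∈ e0),
      (List.range n).map fun u => (List.range n).map fun v => decide ((u, v) ∈ e1)],
    [(List.range n).map fun u => decide (u ∈ t0), (List.range n).map fun u => decide (u ∈ t1)])

theorem mkPos_data (ha : a₀ ∈ nodes) : (mkPos A nodes a₀ m₁).data =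
    mkDt (size A nodes) (edges A nodes false) (edges A nodes true) (toks A a₀ m₁ false)
      (toks A a₀ m₁ true) := by
  have key : ∀ (i : Bool) (u : Fin (size A nodes)),
      push numV (· ∈ verts A nodes) _ (p0 A a₀ m₁) u = some (ty i) ↔ u.1 ∈ toks A a₀ m₁ i := by
    intro i u
    rw [push_eq_some numV_injective]
    constructor
    · rintro ⟨a, -, h1, h2⟩
      rcases p0_eq_some.1 h2 with ⟨rfl, rfl⟩ | ⟨rfl, c, hc, rfl⟩
      · simp [toks, h1]
      · simp only [toks, if_true, List.mem_map, List.mem_range]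
        exact ⟨c, hc, h1⟩
    · intro h
      cases i with
      | false =>
        simp only [toks, Bool.false_eq_true, if_false, List.mem_singleton] at h
        exact ⟨_, N_mem.2 ha, h.symm, p0_eq_some.2 (Or.inl ⟨rfl, rfl⟩)⟩
      | true =>
        simp only [toks, if_true, List.mem_map, List.mem_range] at h
        obtain ⟨c, hc, h⟩ := h
        exact ⟨_, R_mem.2 hc, h, p0_eq_some.2 (Or.inr ⟨rfl, c, hc, rfl⟩)⟩
  have k0 := key false
  have k1 := key true
  simp only [ty, Bool.false_eq_true, if_false, if_true] at k0 k1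
  simp only [Position.data, mkPos, mkDt, ← ofFn_val, List.ofFn_succ, List.ofFn_zero,
    Fin.succ_zero_eq_one, k0, k1]
  rfl

end build

section PT2

variable {α : Type} [Enc α] (Y : Sys) {x : α → List Bool} {m₁ m₂ : α → ℕ}

theorem pt_tbl (hx : PT x) (h₁ : PT m₁) (h₂ : PT m₂) :
    PT (fun a => (verts (Y.ap (x a) (m₁ a) (m₂ a)) (Y.nodes (x a) (m₁ a) (m₂ a))).map
      (fun u => (u, out0 (Y.ap (x a) (m₁ a) (m₂ a)) u, out1 u))) := by
  have hn : PT (fun a => Y.nodes (x a) (m₁ a) (m₂ a)) := by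
    unfold Sys.nodes; fun_prop
  simp only [verts, List.map_append, List.map_flatMap, List.map_map, List.map_cons, List.map_nil,
    Function.comp_def, out0, out1, outc, Sys.ap]
  fun_prop

theorem pt_mkDt {n : α → ℕ} {e0 e1 : α → List (ℕ × ℕ)} {t0 t1 : α → List ℕ} (hn : PT n)
    (h0 : PT e0) (h1 : PT e1) (k0 : PT t0) (k1 : PT t1) :
    PT (fun a => mkDt (n a) (e0 a) (e1 a) (t0 a) (t1 a)) := by
  unfold mkDt
  fun_prop

theorem pt_of_tbl {tb : α → List (Vx Nd × List (Vx Nd) × List (Vx Nd))} (ht : PT tb) :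
    PT (fun a => ((tb a).flatMap fun e => List.range (numV e.1)).length + 1) ∧
    PT (fun a => (tb a).flatMap fun e => e.2.1.map fun v => (numV e.1, numV v)) ∧
    PT (fun a => (tb a).flatMap fun e => e.2.2.map fun v => (numV e.1, numV v)) :=
  ⟨by fun_prop, by fun_prop, by fun_prop⟩

theorem pt_data (hx : PT x) (h₁ : PT m₁) (h₂ : PT m₂) (a₀ : Nd) :
    PT (fun a => mkDt (size (Y.ap (x a) (m₁ a) (m₂ a)) (Y.nodes (x a) (m₁ a) (m₂ a)))
      (edges (Y.ap (x a) (m₁ a) (m₂ a)) (Y.nodes (x a) (m₁ a) (m₂ a)) false)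
      (edges (Y.ap (x a) (m₁ a) (m₂ a)) (Y.nodes (x a) (m₁ a) (m₂ a)) true)
      (toks (Y.ap (x a) (m₁ a) (m₂ a)) a₀ (m₁ a) false)
      (toks (Y.ap (x a) (m₁ a) (m₂ a)) a₀ (m₁ a) true)) := by
  obtain ⟨hs, h0, h1⟩ := pt_of_tbl (pt_tbl Y hx h₁ h₂)
  refine pt_mkDt (hs.congr fun a => ?_) (h0.congr fun a => ?_) (h1.congr fun a => ?_) ?_ ?_
  · simp only [size, List.flatMap_map]
  · simp only [edges, List.flatMap_map, Bool.false_eq_true, if_false]
  · simp only [edges, List.flatMap_map, if_true]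
  · simp only [toks, Bool.false_eq_true, if_false]; fun_prop
  · simp only [toks, if_true, Sys.ap]; fun_prop

end PT2

theorem valB_ones (m₁ : ℕ) (k : ℕ) : ∀ o, o + k ≤ m₁ →
    valB false (fun c => decide (c < m₁)) o k = 0 := by
  induction k with
  | zero => intro o _; rfl
  | succ k ih =>
    intro o h
    rw [valB, ih (o + 1) (by omega), if_neg (by simp; omega)]

theorem valB_zeros (m₁ : ℕ) (k : ℕ) : ∀ o, m₁ ≤ o →
    valB true (fun c => decide (c < m₁)) o k = 0 := by
  induction k with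
  | zero => intro o _; rfl
  | succ k ih =>
    intro o h
    rw [valB, ih (o + 1) (by omega), if_neg (by simp; omega)]

/-- Raw bit strings. -/
def Raw : Type := List Bool

/-- The bits of a raw string. -/
def Raw.bits (a : Raw) : List Bool := a

instance : Enc Raw := ⟨fun x => x, fun _ _ h => h⟩

theorem hard {L : List Bool → Bool} (hL : ExpTime id L) :
    ∃ f : List Bool → Position, Nonempty (Turing.TM2ComputableInPolyTime id Position.code f) ∧
      ∀ x, (f x).t = 2 ∧ (f x).Won (L x) := by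
  obtain ⟨M, p, hp⟩ := hL
  obtain ⟨Y, s₀, hs₀, hY⟩ := exists_sys_of_machine M
  let m₁ : List Bool → ℕ := fun x => p.eval x.length + 1
  let m₂ : List Bool → ℕ := fun x => m₁ x + Y.D
  have ha : ∀ x, ((0, s₀, 0, 0, 0) : Nd) ∈ Y.nodes x (m₁ x) (m₂ x) := by
    intro x
    rw [Sys.mem_nodes]
    simp only
    omega
  refine ⟨fun x => mkPos (Y.ap x (m₁ x) (m₂ x)) (Y.nodes x (m₁ x) (m₂ x)) (0, s₀, 0, 0, 0) (m₁ x),
    ?_, fun x => ⟨rfl, ?_⟩⟩
  · have hx : PT Raw.bits := CP.toBits (α := Raw) CP.enc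
    have h1 : PT (fun a : Raw => m₁ a.bits) := by simp only [m₁]; fun_prop
    have h2 : PT (fun a : Raw => m₂ a.bits) := by simp only [m₂]; fun_prop
    obtain ⟨c, t, ⟨q, hq⟩, hc⟩ := pt_data Y hx h1 h2 (0, s₀, 0, 0, 0)
    refine polyTime_of_exec _ _ _ c q fun x => ?_
    rw [Position.code_eq, mkPos_data (ha x)]
    exact (hc x).weaken (hq x)
  · obtain ⟨H, hH, hT⟩ := hY x
    refine mkPos_won Sys.fl_lt Sys.pl_closed Sys.fl_closed (ha x) ?_
    have e1 := valB_compl (fun c => decide (c < m₁ x)) (m₁ x) 0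
    rw [valB_ones _ _ _ (by omega)] at e1
    have e2 : 2 ^ m₁ x = 2 * 2 ^ p.eval x.length := by simp only [m₁]; ring
    have e3 : 0 < 2 ^ p.eval x.length := by positivity
    have e4 : Y.D < 2 ^ Y.D := Nat.lt_two_pow_self
    refine Sys.rv_claim hH (2 ^ m₁ x - 1) (L x) s₀ 0 hs₀ ?_ (hT _ ?_) _ (by omega)
      (valB_zeros _ _ _ le_rfl)
    · simp only [m₂]
      rw [pow_add 2 (m₁ x), zero_add, mul_comm]
      exact Nat.mul_lt_mul_of_lt_of_le (by omega) e4.le (by omega)
    · have := hp x.length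
      omega

end Pool.Agent.MP_8c4891_lc

end

section

/-! The outcome of Annihilation can be computed in exponential time. -/

namespace Pool.Agent.MP_8c4891_lc

open Pool.Agent.MP_2e8011_lc Turing

/-- Winning within `k` moves. -/
def ForcesIn {S : Type} (Mv : S → S → Prop) : ℕ → Bool → S → Prop
  | 0, _, _ => False
  | k + 1, true, p => ∃ q, Mv p q ∧ ForcesIn Mv k false q
  | k + 1, false, p => ∀ q, Mv p q → ForcesIn Mv k true q

section
variable {S : Type} {Mv : S → S → Prop}

theorem ForcesIn.forces (k : ℕ) : ∀ b p, ForcesIn Mv k b p → Forces Mv b p := by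
  induction k with
  | zero => intro b p h; exact h.elim
  | succ k ih =>
    intro b p h
    cases b with
    | true => obtain ⟨q, h1, h2⟩ := h; exact Forces.win h1 (ih _ _ h2)
    | false => exact Forces.lose fun q hq => ih _ _ (h q hq)

theorem ForcesIn.step {k l : ℕ} (h : ∀ b p, ForcesIn Mv k b p → ForcesIn Mv l b p) :
    ∀ b p, ForcesIn Mv (k + 1) b p → ForcesIn Mv (l + 1) b p := by
  intro b p h'
  cases b with
  | true => obtain ⟨q, h1, h2⟩ := h'; exact ⟨q, h1, h _ _ h2⟩
  | false => exact fun q hq => h _ _ (h' q hq)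

theorem ForcesIn.succ (k : ℕ) : ∀ b p, ForcesIn Mv k b p → ForcesIn Mv (k + 1) b p := by
  induction k with
  | zero => intro b p h; exact h.elim
  | succ k ih => exact ForcesIn.step ih

theorem ForcesIn.mono {k l : ℕ} (h : k ≤ l) : ∀ b p, ForcesIn Mv k b p → ForcesIn Mv l b p := by
  induction h with
  | refl => exact fun _ _ h => h
  | step _ ih => exact fun b p h => ForcesIn.succ _ b p (ih b p h)

theorem exists_stable [Fintype S] : ∃ k ≤ 2 * Fintype.card S,
    ∀ b p, ForcesIn Mv (k + 1) b p → ForcesIn Mv k b p := by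
  classical
  by_contra hcon
  push Not at hcon
  let A : ℕ → Finset (Bool × S) := fun k => Finset.univ.filter fun x => ForcesIn Mv k x.1 x.2
  have key : ∀ k ≤ 2 * Fintype.card S + 1, k ≤ (A k).card := by
    intro k
    induction k with
    | zero => intro _; exact Nat.zero_le _
    | succ k ih =>
      intro hk
      obtain ⟨b, p, h1, h2⟩ := hcon k (by omega)
      have : A k ⊂ A (k + 1) := by
        refine ⟨fun x hx => ?_, fun h => h2 ?_⟩
        · simp only [A, Finset.mem_filter, Finset.mem_univ, true_and] at hx ⊢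
          exact ForcesIn.succ k _ _ hx
        · have := @h (b, p) (by simpa [A] using h1)
          simpa [A] using this
      have := Finset.card_lt_card this
      have := ih (by omega)
      omega
  have h1 := key _ le_rfl
  have h2 := Finset.card_le_univ (A (2 * Fintype.card S + 1))
  simp only [Fintype.card_prod, Fintype.card_bool] at h2
  omega

theorem forces_iff [Fintype S] {K : ℕ} (hK : 2 * Fintype.card S ≤ K) (b : Bool) (p : S) :
    Forces Mv b p ↔ ForcesIn Mv K b p := by
  refine ⟨fun h => ?_, ForcesIn.forces K b p⟩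
  obtain ⟨k, hk, hs⟩ := exists_stable (Mv := Mv)
  refine ForcesIn.mono (hk.trans hK) b p ?_
  induction h with
  | win h1 _ ih => exact hs _ _ ⟨_, h1, ih⟩
  | lose _ ih => exact hs _ _ ih

end

/-- A placement as a list of numbers. -/
def rep {n t : ℕ} (p : Fin n → Option (Fin t)) : List ℕ :=
  List.ofFn fun u => (p u).elim 0 fun i => i.1 + 1

/-- All lists of length `n` with entries at most `t`. -/
def allL (t n : ℕ) : List (List ℕ) :=
  (fun L : List (List ℕ) => L.flatMap fun l => (List.range (t + 1)).map fun a => a :: l)^[n] [[]]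

theorem mem_allL (t n : ℕ) : ∀ l : List ℕ, l ∈ allL t n ↔ l.length = n ∧ ∀ a ∈ l, a ≤ t := by
  induction n with
  | zero => intro l; cases l <;> simp [allL]
  | succ n ih =>
    intro l
    rw [allL, Function.iterate_succ_apply', ← allL]
    simp only [List.mem_flatMap, List.mem_map, List.mem_range, ih]
    constructor
    · rintro ⟨l', ⟨h1, h2⟩, a, ha, rfl⟩
      refine ⟨by simp [h1], ?_⟩
      simp only [List.mem_cons, forall_eq_or_imp]
      exact ⟨by omega, h2⟩
    · rintro ⟨h1, h2⟩
      cases l with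
      | nil => simp at h1
      | cons a l =>
        simp only [List.mem_cons, forall_eq_or_imp] at h2
        exact ⟨l, ⟨by simpa using h1, h2.2⟩, a, by omega, rfl⟩

theorem length_allL (t n : ℕ) : (allL t n).length = (t + 1) ^ n := by
  induction n with
  | zero => rfl
  | succ n ih =>
    rw [allL, Function.iterate_succ_apply', ← allL, List.length_flatMap]
    simp [ih, pow_succ]

theorem rep_mem {n t : ℕ} (p : Fin n → Option (Fin t)) : rep p ∈ allL t n := by
  rw [mem_allL]
  refine ⟨by simp [rep], ?_⟩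
  intro a ha
  simp only [rep, List.mem_ofFn] at ha
  obtain ⟨u, rfl⟩ := ha
  cases p u with
  | none => simp
  | some i => exact i.2

theorem rep_getD {n t : ℕ} (p : Fin n → Option (Fin t)) (u : Fin n) :
    (rep p).getD u 0 = (p u).elim 0 fun i => i.1 + 1 := by
  simp [rep, List.getD_eq_getElem?_getD]

/-- The result of moving the token at `u` to `v`. -/
def mvL (n : ℕ) (l : List ℕ) (u v : ℕ) : List ℕ :=
  (List.range n).map fun w => if w = v then (if l.getD v 0 = 0 then l.getD u 0 else 0)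
    else if w = u then 0 else l.getD w 0

/-- The successors of a placement. -/
def succs (n : ℕ) (Es : List (List (List Bool))) (l : List ℕ) : List (List ℕ) :=
  (List.range n).flatMap fun u => ((List.range n).filter fun v => decide (0 < l.getD u 0) &&
    ((Es.getD (l.getD u 0 - 1) []).getD u []).getD v false).map fun v => mvL n l u v

theorem rep_move {n t : ℕ} (p : Fin n → Option (Fin t)) {u v : Fin n} {i : Fin t}
    (h : p u = some i) : mvL n (rep p) u v =
      rep (Function.update (Function.update p u none) v (if (p v).isSome then none else some i)) := by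
  rw [mvL, ← ofFn_val, rep, rep]
  congr 1
  funext w
  rw [← rep]
  simp only [rep_getD, Fin.val_inj, h]
  by_cases hv : w = v
  · subst hv
    rw [if_pos rfl, Function.update_self]
    cases p w <;> simp
  · rw [if_neg hv, Function.update_of_ne hv]
    by_cases hu : w = u
    · subst hu; simp
    · rw [if_neg hu, Function.update_of_ne hu]

theorem mem_succs (P : Position) (p : Fin P.n → Option (Fin P.t)) (l : List ℕ) :
    l ∈ succs P.n P.data.2.1 (rep p) ↔
      ∃ q, Move (fun i u v => P.E i u v = true) p q ∧ l = rep q := by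
  have key : ∀ (i : Fin P.t) (u v : Fin P.n),
      ((P.data.2.1.getD i []).getD u []).getD v false = P.E i u v := by
    intro i u v
    simp [Position.data, List.getD_eq_getElem?_getD]
  simp only [succs, List.mem_flatMap, List.mem_map, List.mem_filter, List.mem_range,
    Bool.and_eq_true, decide_eq_true_eq]
  constructor
  · rintro ⟨u, hu, v, ⟨hv, h1, h2⟩, rfl⟩
    lift u to Fin P.n using hu
    lift v to Fin P.n using hv
    rw [rep_getD] at h1 h2
    rcases hp : p u with _ | i
    · rw [hp] at h1; simp at h1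
    · rw [hp] at h2
      simp only [Option.elim_some, Nat.add_sub_cancel, key] at h2
      exact ⟨_, ⟨i, u, v, hp, h2, rfl⟩, rep_move p hp⟩
  · rintro ⟨q, ⟨i, u, v, hp, he, rfl⟩, rfl⟩
    refine ⟨u, u.2, v, ⟨v.2, ?_, ?_⟩, rep_move p hp⟩
    · rw [rep_getD, hp]; simp
    · rw [rep_getD, hp]
      simpa only [Option.elim_some, Nat.add_sub_cancel, key] using he

/-- One round of backward induction. -/
def round (n : ℕ) (Es : List (List (List Bool))) (al : List (List ℕ))
    (s : List (List ℕ) × List (List ℕ)) : List (List ℕ) × List (List ℕ) :=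
  (al.filter fun l => (succs n Es l).any fun l' => decide (l' ∈ s.2),
    al.filter fun l => (succs n Es l).all fun l' => decide (l' ∈ s.1))

theorem round_iter (P : Position) (k : ℕ) : ∀ p : Fin P.n → Option (Fin P.t),
    (rep p ∈ ((round P.n P.data.2.1 (allL P.t P.n))^[k] ([], [])).1 ↔
      ForcesIn (Move fun i u v => P.E i u v = true) k true p) ∧
    (rep p ∈ ((round P.n P.data.2.1 (allL P.t P.n))^[k] ([], [])).2 ↔
      ForcesIn (Move fun i u v => P.E i u v = true) k false p) := by
  induction k with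
  | zero => intro p; simp [ForcesIn]
  | succ k ih =>
    intro p
    rw [Function.iterate_succ_apply']
    generalize (round P.n P.data.2.1 (allL P.t P.n))^[k] ([], []) = s at ih
    simp only [round, List.mem_filter, rep_mem, true_and, List.any_eq_true, List.all_eq_true,
      decide_eq_true_eq, mem_succs, ForcesIn]
    constructor
    · constructor
      · rintro ⟨_, ⟨q, h1, rfl⟩, h2⟩
        exact ⟨q, h1, (ih q).2.1 h2⟩
      · rintro ⟨q, h1, h2⟩
        exact ⟨_, ⟨q, h1, rfl⟩, (ih q).2.2 h2⟩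
    · constructor
      · intro h q h1
        exact (ih q).1.1 (h _ ⟨q, h1, rfl⟩)
      · rintro h _ ⟨q, h1, rfl⟩
        exact (ih q).1.2 (h q h1)

/-- The initial placement read off the data. -/
def initL (n t : ℕ) (tk : List (List Bool)) : List ℕ :=
  (List.range n).map fun u =>
    (((List.range t).filter fun i => (tk.getD i []).getD u false).map fun i => i + 1).headD 0

theorem initL_eq (P : Position) : initL P.n P.t P.data.2.2 = rep P.place := by
  rw [initL, ← ofFn_val, rep]
  congr 1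
  funext u
  have key : ∀ i < P.t, (P.data.2.2.getD i []).getD u false
      = decide ((P.place u).map Fin.val = some i) := by
    intro i hi
    lift i to Fin P.t using hi
    simp only [Position.data, List.getD_eq_getElem?_getD]
    rcases h : P.place u with _ | j <;> simp [Fin.val_inj, h]
  rw [List.filter_congr (q := fun i => decide ((P.place u).map Fin.val = some i))
    (fun i hi => key i (List.mem_range.1 hi))]
  cases P.place u with
  | none => simp
  | some j =>
    have h1 : (List.range P.t).filter (fun i => decide ((some j).map Fin.val = some i))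
        = [j.1] := by
      have h2 : (fun i => decide ((some j).map Fin.val = some i)) = fun i => i == j.1 := by
        funext i
        simp [eq_comm, beq_eq_decide]
      rw [h2, List.filter_beq, List.count_eq_one_of_mem List.nodup_range (by simp)]
      rfl
    rw [h1]
    rfl

/-- The algorithm, `N` being a bound for the number of placements. -/
def alg (b : Bool) (d : Dt) (N : ℕ) : Bool :=
  decide (initL d.1.length d.2.1.length d.2.2 ∈
    (bif b then ((round d.1.length d.2.1 (allL d.2.1.length d.1.length))^[2 * N] ([], [])).1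
      else ((round d.1.length d.2.1 (allL d.2.1.length d.1.length))^[2 * N] ([], [])).2))

theorem alg_iff (b : Bool) (P : Position) {N : ℕ} (hN : (P.t + 1) ^ P.n ≤ N) :
    alg b P.data N = true ↔ P.Won b := by
  have h1 : P.data.1.length = P.n := by simp [Position.data]
  have h2 : P.data.2.1.length = P.t := by simp [Position.data]
  rw [alg, h1, h2, initL_eq, decide_eq_true_eq, Position.Won,
    forces_iff (K := 2 * N) (by simpa using hN)]
  cases b
  · exact (round_iter P _ _).2
  · exact (round_iter P _ _).1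

theorem count_le (d : Dt) : (d.2.1.length + 1) ^ d.1.length ≤ 2 ^ (sz d * sz d) := by
  obtain ⟨G, Es, tk⟩ := d
  have h1 := length_le_sz G
  have h2 := length_le_sz Es
  have h3 : Es.length + 1 ≤ 2 ^ Es.length := Nat.lt_two_pow_self
  refine (Nat.pow_le_pow_left h3 _).trans ?_
  rw [← pow_mul]
  refine Nat.pow_le_pow_right (by norm_num) (Nat.mul_le_mul ?_ ?_) <;> simp only [sz_prod] <;> omega

/-- Padded data. -/
structure Pad where
  d : Dt

instance : Enc Pad := ⟨fun a => enc (a.d, 2 ^ (sz a.d * sz a.d)), fun a b h => by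
  have := Enc.inj h
  cases a; cases b
  simp only [Prod.mk.injEq] at this
  rw [this.1]⟩

theorem sz_filter_le {α : Type} [Enc α] (l : List α) (p : α → Bool) : sz (l.filter p) ≤ sz l := by
  induction l with
  | nil => simp
  | cons a l ih =>
    rw [List.filter_cons]
    split_ifs <;> simp <;> omega

theorem pt_alg (b : Bool) : PT (fun a : Pad => alg b a.d (2 ^ (sz a.d * sz a.d))) := by
  have h0 : PT (fun a : Pad => (a.d, 2 ^ (sz a.d * sz a.d))) := CP.enc (α := Pad)
  have hd : PT (fun a : Pad => a.d) := h0.fst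
  have hN : PT (fun a : Pad => 2 ^ (sz a.d * sz a.d)) := h0.snd
  have hn : PT (fun a : Pad => a.d.1.length) := by fun_prop
  have ht : PT (fun a : Pad => a.d.2.1.length) := by fun_prop
  have hall : PT (fun a : Pad => allL a.d.2.1.length a.d.1.length) := by
    refine PT.iterP (g := fun (a : Pad) (L : List (List ℕ)) =>
      L.flatMap fun l => (List.range (a.d.2.1.length + 1)).map fun c => c :: l) (by fun_prop) hn
      (PT.const _) (B := fun a => 2 ^ (sz a.d * sz a.d) *
        (2 * (a.d.1.length * (2 * a.d.2.1.length + 1)) + 1)) (PT.pb (by fun_prop)) ?_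
    intro a i hi
    rw [← allL]
    refine (sz_le_of_forall (B := a.d.1.length * (2 * a.d.2.1.length + 1)) fun l hl => ?_).trans ?_
    · rw [mem_allL] at hl
      refine (sz_le_of_forall (B := a.d.2.1.length) fun c hc => by simpa using hl.2 c hc).trans ?_
      exact Nat.mul_le_mul_right _ (by omega)
    · refine Nat.mul_le_mul_right _ ?_
      rw [length_allL]
      exact (Nat.pow_le_pow_right (by omega) hi).trans (count_le a.d)
  have hr : PT (fun p : (ℕ × List (List (List Bool)) × List (List ℕ)) ×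
      List (List ℕ) × List (List ℕ) => round p.1.1 p.1.2.1 p.1.2.2 p.2) := by
    unfold round succs mvL
    fun_prop
  have hit : PT (fun a : Pad => (round a.d.1.length a.d.2.1
      (allL a.d.2.1.length a.d.1.length))^[2 * 2 ^ (sz a.d * sz a.d)] ([], [])) := by
    refine PT.iterP (g := fun a : Pad => round a.d.1.length a.d.2.1
      (allL a.d.2.1.length a.d.1.length)) ?_ ((PT.const 2).mul hN) (PT.const _)
      (B := fun a => 3 * sz (allL a.d.2.1.length a.d.1.length) + 1)
      (((PB.const 3).mul hall.pb_sz).add (PB.const 1)) ?_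
    · have h1 : PT (fun p : Pad × List (List ℕ) × List (List ℕ) =>
          allL p.1.d.2.1.length p.1.d.1.length) := hall.comp PT.id.fst
      have h2 : PT (fun p : Pad × List (List ℕ) × List (List ℕ) => p.1.d) := hd.comp PT.id.fst
      exact hr.comp (f := fun p : Pad × List (List ℕ) × List (List ℕ) =>
        ((p.1.d.1.length, p.1.d.2.1, allL p.1.d.2.1.length p.1.d.1.length), p.2))
        (((h2.fst.length).prodMk (h2.snd.fst.prodMk h1)).prodMk PT.id.snd)
    · intro a i _
      cases i with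
      | zero => simp
      | succ i =>
        rw [Function.iterate_succ_apply', round, sz_prod]
        have h1 := sz_filter_le (allL a.d.2.1.length a.d.1.length)
        refine le_trans (Nat.add_le_add (Nat.add_le_add_right (Nat.mul_le_mul_left 2 (h1 _)) 1)
          (h1 _)) (by omega)
  have hi : PT (fun a : Pad => initL a.d.1.length a.d.2.1.length a.d.2.2) := by
    unfold initL
    fun_prop
  exact PT.mem hi (PT.cond (PT.const b) hit.fst hit.snd)

/-- Exponentially bounded functions. -/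
def EB (t : ℕ → ℕ) : Prop := ∃ q : Polynomial ℕ, ∀ n, t n ≤ 2 ^ q.eval n

theorem EB.const (c : ℕ) : EB (fun _ => c) :=
  ⟨Polynomial.C c, fun _ => by simpa using Nat.lt_two_pow_self.le⟩

theorem EB.id : EB (fun n => n) := ⟨Polynomial.X, fun _ => by simpa using Nat.lt_two_pow_self.le⟩

theorem EB.pow2 : EB (fun n => 2 ^ (n * n)) := ⟨Polynomial.X * Polynomial.X, fun _ => by simp⟩

theorem EB.mul {t u : ℕ → ℕ} (ht : EB t) (hu : EB u) : EB (fun n => t n * u n) := by
  obtain ⟨p, hp⟩ := ht
  obtain ⟨q, hq⟩ := hu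
  exact ⟨p + q, fun n => by
    rw [Polynomial.eval_add, pow_add]; exact Nat.mul_le_mul (hp n) (hq n)⟩

theorem EB.add {t u : ℕ → ℕ} (ht : EB t) (hu : EB u) : EB (fun n => t n + u n) := by
  obtain ⟨p, hp⟩ := ht
  obtain ⟨q, hq⟩ := hu
  refine ⟨p + q + 1, fun n => ?_⟩
  have h1 : 2 ^ p.eval n ≤ 2 ^ (p.eval n + q.eval n) := Nat.pow_le_pow_right (by omega) (by omega)
  have h2 : 2 ^ q.eval n ≤ 2 ^ (p.eval n + q.eval n) := Nat.pow_le_pow_right (by omega) (by omega)
  have h3 := hp n
  have h4 := hq n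
  simp only [Polynomial.eval_add, Polynomial.eval_one, pow_succ]
  omega

theorem EB.eval (p : Polynomial ℕ) {t : ℕ → ℕ} (ht : EB t) : EB (fun n => p.eval (t n)) := by
  induction p using Polynomial.induction_on' with
  | add p q hp hq => simpa using hp.add hq
  | monomial k c =>
    have : EB (fun n => t n ^ k) := by
      induction k with
      | zero => simpa using EB.const 1
      | succ k ih => simpa [pow_succ] using ih.mul ht
    simpa using (EB.const c).mul this

theorem expTime_of_exec {α : Type} (ea : α → List Bool) (f : α → Bool) (c : Cmd) (T : ℕ → ℕ)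
    (hT : EB T) (h : ∀ a, Exec c (one (ea a)) (one [f a]) (T (ea a).length)) : ExpTime ea f := by
  have key : ∀ a, ∃ n ≤ T (ea a).length,
      (flip bind (machine c).step)^[n] (some (initList (machine c) (ea a))) =
        some (haltList (machine c) [f a]) := by
    intro a
    obtain ⟨n, hn, hs⟩ := sim (N := c.bound + 1) (code (c.bound + 1) c id none) (h a)
      (Nat.le_succ _) id none (fun _ => rfl)
    refine ⟨n, hn, ?_⟩
    rw [initList_machine, haltList_machine]
    exact hs
  choose n hn hs using key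
  obtain ⟨q, hq⟩ := hT
  refine ⟨⟨⟨machine c, Equiv.refl Bool, Equiv.refl Bool⟩, T, fun a => ⟨⟨n a, ?_⟩, hn a⟩⟩, q, hq⟩
  have e1 : ∀ l : List Bool, List.map (Equiv.refl Bool).invFun l = l := fun l => List.map_id l
  have := hs a
  rw [← e1 (ea a)] at this
  exact this

open Classical in
theorem member (b : Bool) : ExpTime Position.code (fun P => decide (P.Won b)) := by
  obtain ⟨c₁, t₁, ⟨p₁, hp₁⟩, h₁⟩ : PT (fun d : Dt => (sz d * sz d, (1 : ℕ))) := by fun_prop
  obtain ⟨c₂, t₂, ⟨p₂, hp₂⟩, h₂⟩ : PT (fun n : ℕ => n + n) := by fun_prop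
  obtain ⟨c₃, t₃, ⟨p₃, hp₃⟩, h₃⟩ := pt_alg b
  refine expTime_of_exec _ _ (.seq (pairP .skip (.seq c₁ (iterP c₂))) c₃)
    (fun s => 13 * s + 9 * s + 8 * 2 ^ (s * s) + 1 + (p₁.eval s +
      ((p₂.eval (2 ^ (s * s)) + 14) * (s * s) + 14 * 1 + 8 * 2 ^ (s * s) + 20)) + 10 +
      p₃.eval (2 * s + 1 + 2 ^ (s * s))) ?_ fun P => ?_
  · refine EB.add (EB.add (EB.add (EB.add (EB.add (EB.add ((EB.const _).mul EB.id)
      ((EB.const _).mul EB.id)) ((EB.const _).mul EB.pow2)) (EB.const _)) (EB.add (EB.eval _ EB.id)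
      (EB.add (EB.add (EB.add (((EB.eval _ EB.pow2).add (EB.const _)).mul (EB.id.mul EB.id))
      (EB.const _)) ((EB.const _).mul EB.pow2)) (EB.const _)))) (EB.const _)) (EB.eval _ ?_)
    exact (((EB.const _).mul EB.id).add (EB.const _)).add EB.pow2
  · rw [Position.code_eq]
    set d := P.data with hd
    have e1 := exec_iterP (c := c₂) (fun i => enc (2 ^ i)) (p₂.eval (2 ^ (sz d * sz d)))
      (enc (sz d * sz d)) (by
        intro j hj
        simp only [enc_nat, List.length_replicate] at hj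
        have := h₂ (2 ^ j)
        beta_reduce at this
        rw [show 2 ^ j + 2 ^ j = 2 ^ (j + 1) by ring] at this
        refine this.weaken ((hp₂ _).trans (eval_mono _ ?_))
        rw [sz_nat]
        exact Nat.pow_le_pow_right (by omega) hj.le)
    simp only [enc_nat, List.length_replicate, pow_zero] at e1
    have e2 := exec_pairP (Exec.skip (one (enc d))) (((h₁ d).weaken (hp₁ d)).seq e1)
    have e3 := (h₃ ⟨d⟩).weaken (hp₃ ⟨d⟩)
    have e4 : alg b d (2 ^ (sz d * sz d)) = decide (P.Won b) := by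
      have h1 : d.1.length = P.n := by simp [hd, Position.data]
      have h2 : d.2.1.length = P.t := by simp [hd, Position.data]
      have := count_le d
      rw [h1, h2] at this
      rw [Bool.eq_iff_iff, decide_eq_true_eq]
      exact alg_iff b P this
    have e5 : sz (⟨d⟩ : Pad) = 2 * sz d + 1 + 2 ^ (sz d * sz d) := by
      have := sz_prod d (2 ^ (sz d * sz d))
      rw [sz_nat] at this
      exact this
    simp only [e4, e5, enc_bool] at e3
    refine (e2.seq e3).cast rfl rfl ?_
    simp only [List.length_replicate, sz]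
    exact le_rfl

end Pool.Agent.MP_8c4891_lc

end

section

namespace Pool.Agent.MP_8c4891_lc

theorem Forces.excl {S : Type} {Mv : S → S → Prop} {b : Bool} {p : S} (h : Forces Mv b p) :
    ¬ Forces Mv (!b) p := by
  induction h with
  | win h1 _ ih =>
    intro h2
    cases h2 with
    | lose h3 => exact ih (h3 _ h1)
  | lose _ ih =>
    intro h2
    cases h2 with
    | win h3 h4 => exact ih _ h3 h4

open Classical in
theorem main :
    (∀ b : Bool, ExpTime Position.code (fun P => decide (P.Won b))) ∧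
    ∀ L : List Bool → Bool, ExpTime id L →
      ∃ f : List Bool → Position, Nonempty (Turing.TM2ComputableInPolyTime id Position.code f) ∧
        ∀ x, (f x).t = 2 ∧ ∀ b : Bool, (L x = b ↔ (f x).Won b) := by
  refine ⟨member, fun L hL => ?_⟩
  obtain ⟨f, hf, h⟩ := hard hL
  refine ⟨f, hf, fun x => ⟨(h x).1, fun b => ⟨fun hb => hb ▸ (h x).2, fun hb => ?_⟩⟩⟩
  by_contra hne
  have : b = !L x := by cases b <;> simpa using hne
  subst this
  exact Forces.excl (h x).2 hb

end Pool.Agent.MP_8c4891_lc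

end
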