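import Mathlib
import Pool.Agent.MP_b0ee3d_lc.Defs

section

set_option autoImplicit false

/-! Winding sums of polygonal cycles. -/

namespace Pool.Agent.MP_b0ee3d_lc

open Set Complex Real

/-- the angle under which the segment from `s` to `t` is seen from `x` -/
noncomputable def ang (s t x : ℂ) : ℝ := ((t - x) / (s - x)).arg

/-- determinant -/
def det (a b : ℂ) : ℝ := a.re * b.im - a.im * b.re

theorem div_mem_slit {s t x : ℂ} (h : x ∉ segment ℝ s t) : (t - x) / (s - x) ∈ slitPlane := by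
  have hs : s - x ≠ 0 := fun e => h (sub_eq_zero.mp e ▸ left_mem_segment _ _ _)
  by_contra hc
  rw [mem_slitPlane_iff, not_or, not_not, not_lt] at hc
  set r := -((t - x) / (s - x)).re with hr
  have h1 : (t - x) / (s - x) = -(r : ℂ) := Complex.ext (by simp [hr]) (by simpa using hc.2)
  rw [div_eq_iff hs] at h1
  have h2 : 0 < 1 + r := by linarith [hc.1]
  apply h
  refine ⟨r / (1 + r), 1 / (1 + r), div_nonneg (by linarith [hc.1]) h2.le, by positivity,
    by field_simp; ring, ?_⟩
  have h3 : (1 + r : ℂ) ≠ 0 := by exact_mod_cast h2.ne'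
  simp only [real_smul]
  push_cast
  field_simp
  linear_combination h1

theorem ang_contAt {s t x : ℂ} (h : x ∉ segment ℝ s t) : ContinuousAt (ang s t) x := by
  have hs : s - x ≠ 0 := fun e => h (sub_eq_zero.mp e ▸ left_mem_segment _ _ _)
  exact (continuousAt_arg (div_mem_slit h)).comp (f := fun x => (t - x) / (s - x))
    (by fun_prop (disch := assumption))

theorem arg_div_int {a b : ℂ} (ha : a ≠ 0) (hb : b ≠ 0) :
    ∃ k : ℤ, (b / a).arg = b.arg - a.arg + 2 * π * k := by
  have := arg_div_coe_angle hb ha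
  rw [← Real.Angle.coe_sub, Real.Angle.angle_eq_iff_two_pi_dvd_sub] at this
  obtain ⟨k, hk⟩ := this
  exact ⟨k, by linarith⟩

theorem ang_int {s t x : ℂ} (h : x ∉ segment ℝ s t) :
    ∃ k : ℤ, ang s t x = (t - x).arg - (s - x).arg + 2 * π * k :=
  arg_div_int (fun e => h (sub_eq_zero.mp e ▸ left_mem_segment _ _ _))
    (fun e => h (sub_eq_zero.mp e ▸ right_mem_segment _ _ _))

/-- the sign of `r` is given by `b` -/
def Sg (b : Bool) (r : ℝ) : Prop := if b then 0 < r else r < 0

/-- signed crossing with a ray -/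
def kk (u v o : Bool) : ℤ := if u && !v && o then 1 else if !u && v && !o then -1 else 0

theorem arg_of_pos {z : ℂ} (h : 0 < z.im) : 0 < z.arg ∧ z.arg < π :=
  ⟨lt_of_le_of_ne (arg_nonneg_iff.mpr h.le) (fun e => h.ne' (arg_eq_zero_iff.mp e.symm).2),
    arg_lt_pi_iff.mpr (Or.inr h.ne')⟩

theorem arg_of_neg {z : ℂ} (h : z.im < 0) : -π < z.arg ∧ z.arg < 0 :=
  ⟨neg_pi_lt_arg z, arg_neg_iff.mpr h⟩

theorem im_div_sg {a b : ℂ} {o : Bool} (ho : Sg o (det a b)) : Sg o (b / a).im := by
  have ha : a ≠ 0 := by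
    rintro rfl
    cases o <;> simp [Sg, det] at ho
  have h1 : (b / a).im = det a b / normSq a := by
    rw [div_im, det]; ring
  have h2 := normSq_pos.mpr ha
  rw [h1]
  cases o
  · exact div_neg_of_neg_of_pos ho h2
  · exact div_pos ho h2

theorem int_eq_of {k m : ℤ} (h1 : 2 * π * k < 2 * π * (m + 1)) (h2 : 2 * π * (m - 1) < 2 * π * k) :
    k = m := by
  have hp : 0 < 2 * π := by positivity
  have a1 : (k : ℝ) < m + 1 := lt_of_mul_lt_mul_left h1 hp.le
  have a2 : (m - 1 : ℝ) < k := lt_of_mul_lt_mul_left h2 hp.le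
  have b1 : k < m + 1 := by exact_mod_cast a1
  have b2 : m - 1 < k := by exact_mod_cast a2
  omega

theorem ang_same {s t x ρ : ℂ} {u : Bool} (hu : Sg u (ρ * (s - x)).im)
    (hv : Sg u (ρ * (t - x)).im) : ang s t x = (ρ * (t - x)).arg - (ρ * (s - x)).arg := by
  have hs : ρ * (s - x) ≠ 0 := by
    intro e; rw [e] at hu; cases u <;> simp [Sg] at hu
  have ht : ρ * (t - x) ≠ 0 := by
    intro e; rw [e] at hv; cases u <;> simp [Sg] at hv
  obtain ⟨k, hk⟩ := arg_div_int hs ht
  rw [mul_div_mul_left _ _ (left_ne_zero_of_mul hs)] at hk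
  have h1 := neg_pi_lt_arg ((t - x) / (s - x))
  have h2 := arg_le_pi ((t - x) / (s - x))
  have : k = 0 := by
    cases u
    · have := arg_of_neg hu
      have := arg_of_neg hv
      apply int_eq_of <;> push_cast <;> linarith [this.1, this.2]
    · have := arg_of_pos hu
      have := arg_of_pos hv
      apply int_eq_of <;> push_cast <;> linarith [this.1, this.2]
  rw [ang, hk, this]; simp

theorem ang_kk {s t x ρ : ℂ} {u v o : Bool} (hu : Sg u (ρ * (s - x)).im)
    (hv : Sg v (ρ * (t - x)).im) (ho : Sg o (det (s - x) (t - x))) :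
    ang s t x = (ρ * (t - x)).arg - (ρ * (s - x)).arg + 2 * π * kk u v o := by
  by_cases huv : u = v
  · subst huv
    rw [ang_same hu hv]
    cases u <;> simp [kk]
  have hs : ρ * (s - x) ≠ 0 := by
    intro e; rw [e] at hu; cases u <;> simp [Sg] at hu
  have ht : ρ * (t - x) ≠ 0 := by
    intro e; rw [e] at hv; cases v <;> simp [Sg] at hv
  obtain ⟨k, hk⟩ := arg_div_int hs ht
  rw [mul_div_mul_left _ _ (left_ne_zero_of_mul hs)] at hk
  have h3 := im_div_sg ho
  have : k = kk u v o := by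
    cases u <;> cases v
    · exact absurd rfl huv
    · obtain ⟨a1, a2⟩ := arg_of_neg hu
      obtain ⟨a3, a4⟩ := arg_of_pos hv
      cases o
      · obtain ⟨a5, a6⟩ := arg_of_neg h3
        rw [show kk false true false = -1 from rfl]
        apply int_eq_of <;> push_cast <;> linarith
      · obtain ⟨a5, a6⟩ := arg_of_pos h3
        rw [show kk false true true = 0 from rfl]
        apply int_eq_of <;> push_cast <;> linarith
    · obtain ⟨a1, a2⟩ := arg_of_pos hu
      obtain ⟨a3, a4⟩ := arg_of_neg hv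
      cases o
      · obtain ⟨a5, a6⟩ := arg_of_neg h3
        rw [show kk true false false = 0 from rfl]
        apply int_eq_of <;> push_cast <;> linarith
      · obtain ⟨a5, a6⟩ := arg_of_pos h3
        rw [show kk true false true = 1 from rfl]
        apply int_eq_of <;> push_cast <;> linarith
    · exact absurd rfl huv
  rw [ang, hk, this]

variable {ι : Type} (Z : Finset ι) (s t : ι → ℂ)

/-- The oriented segments from `s k` to `t k`, `k ∈ Z`, form a cycle. -/
def Cyc : Prop := ∀ f : ℂ → ℝ, ∑ k ∈ Z, f (t k) = ∑ k ∈ Z, f (s k)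

/-- winding sum -/
noncomputable def om (x : ℂ) : ℝ := ∑ k ∈ Z, ang (s k) (t k) x

variable {Z s t}

theorem om_int (hc : Cyc Z s t) {x : ℂ} (hx : ∀ k ∈ Z, x ∉ segment ℝ (s k) (t k)) :
    ∃ z : ℤ, om Z s t x = 2 * π * z := by
  choose! f hf using fun k hk => ang_int (hx k hk)
  refine ⟨∑ k ∈ Z, f k, ?_⟩
  rw [om, Finset.sum_congr rfl hf, Finset.sum_add_distrib, Finset.sum_sub_distrib,
    hc (fun p => (p - x).arg), sub_self, zero_add, ← Finset.mul_sum]
  push_cast; rfl

theorem om_const (hc : Cyc Z s t) {W : Set ℂ} (hW : IsPreconnected W)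
    (hx : ∀ x ∈ W, ∀ k ∈ Z, x ∉ segment ℝ (s k) (t k)) {x y : ℂ} (h1 : x ∈ W) (h2 : y ∈ W) :
    om Z s t x = om Z s t y := by
  have hcont : ContinuousOn (om Z s t) W := fun x hx' =>
    (tendsto_finsetSum Z fun k hk => ang_contAt (hx x hx' k hk)).mono_left nhdsWithin_le_nhds
  have key : ∀ x ∈ W, ∀ y ∈ W, ¬ om Z s t x < om Z s t y := by
    intro x h1 y h2 h
    obtain ⟨a, ha⟩ := om_int hc (hx x h1)
    obtain ⟨b, hb⟩ := om_int hc (hx y h2)
    have hp := Real.pi_pos
    have hab : a + 1 ≤ b := by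
      rw [ha, hb] at h
      have : (a : ℝ) < b := lt_of_mul_lt_mul_left h (by positivity)
      exact_mod_cast this
    have hab' : (a : ℝ) + 1 ≤ b := by exact_mod_cast hab
    obtain ⟨z, hz, hz'⟩ := hW.intermediate_value h1 h2 hcont
      (show 2 * π * a + π ∈ Icc (om Z s t x) (om Z s t y) by
        rw [ha, hb]; constructor <;> nlinarith)
    obtain ⟨c, hc'⟩ := om_int hc (hx z hz)
    rw [hc'] at hz'
    have : (2 * c : ℝ) = 2 * a + 1 := mul_left_cancel₀ hp.ne' (by linarith)
    have : 2 * c = 2 * a + 1 := by exact_mod_cast this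
    omega
  exact le_antisymm (not_lt.mp (key y h2 x h1)) (not_lt.mp (key x h1 y h2))

theorem om_kk (hc : Cyc Z s t) {x ρ : ℂ} {u v o : ι → Bool}
    (hu : ∀ k ∈ Z, Sg (u k) (ρ * (s k - x)).im) (hv : ∀ k ∈ Z, Sg (v k) (ρ * (t k - x)).im)
    (ho : ∀ k ∈ Z, Sg (o k) (det (s k - x) (t k - x))) :
    om Z s t x = 2 * π * (∑ k ∈ Z, kk (u k) (v k) (o k) : ℤ) := by
  rw [om, Finset.sum_congr rfl (fun k hk => ang_kk (hu k hk) (hv k hk) (ho k hk)),
    Finset.sum_add_distrib, Finset.sum_sub_distrib,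
    hc (fun p => (ρ * (p - x)).arg), sub_self, zero_add, ← Finset.mul_sum]
  push_cast; rfl

/-- The winding sum vanishes on unbounded connected sets. -/
theorem om_unbounded (hc : Cyc Z s t) {W : Set ℂ} (hW : IsPreconnected W)
    (hx : ∀ x ∈ W, ∀ k ∈ Z, x ∉ segment ℝ (s k) (t k)) (hb : ¬ Bornology.IsBounded W)
    {x : ℂ} (h1 : x ∈ W) : om Z s t x = 0 := by
  obtain ⟨R, hR⟩ : ∃ R : ℝ, ∀ k ∈ Z, ‖s k‖ ≤ R ∧ ‖t k‖ ≤ R :=
    ⟨∑ k ∈ Z, (‖s k‖ + ‖t k‖), fun k hk => by
      have := Finset.single_le_sum (f := fun k => ‖s k‖ + ‖t k‖) (fun _ _ => by positivity) hk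
      constructor <;> linarith [norm_nonneg (s k), norm_nonneg (t k)]⟩
  obtain ⟨y, hy, hy'⟩ : ∃ y ∈ W, R < ‖y‖ := by
    by_contra h
    push Not at h
    exact hb (isBounded_iff_forall_norm_le.mpr ⟨R, h⟩)
  have key : ∀ p : ℂ, ‖p‖ ≤ R → Sg true (-I * (starRingEnd ℂ) y * (p - y)).im := by
    intro p hp
    have h2 : ((starRingEnd ℂ) y * p).re ≤ ‖y‖ * ‖p‖ := by
      refine (re_le_norm _).trans ?_
      rw [norm_mul, Complex.norm_conj]
    have h3 : ‖y‖ * ‖y‖ = y.re * y.re + y.im * y.im := by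
      rw [← normSq_apply, normSq_eq_norm_sq]; ring
    have h4 : 0 < ‖y‖ := lt_of_le_of_lt ((norm_nonneg p).trans hp) hy'
    have h5 : ‖y‖ * ‖p‖ < ‖y‖ * ‖y‖ := mul_lt_mul_of_pos_left (lt_of_le_of_lt hp hy') h4
    simp [Sg] at h2 ⊢
    linarith
  rw [om_const hc hW hx h1 hy, om,
    Finset.sum_congr rfl (fun k hk => ang_same (key _ (hR k hk).1) (key _ (hR k hk).2)),
    Finset.sum_sub_distrib, hc (fun p => (-I * (starRingEnd ℂ) y * (p - y)).arg), sub_self]

theorem arg_neg_div {a b : ℂ} (ha : a ≠ 0) (hb : b ≠ 0) :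
    (-b / a).arg = b.arg - a.arg + (if b.arg ≤ a.arg then π else -π) := by
  have h1 : ((-b / a).arg : Real.Angle) = ((b.arg - a.arg + π : ℝ) : Real.Angle) := by
    rw [neg_div, arg_neg_coe_angle (div_ne_zero hb ha), arg_div_coe_angle hb ha]
    simp
  rw [Real.Angle.angle_eq_iff_two_pi_dvd_sub] at h1
  obtain ⟨k, hk⟩ := h1
  have a1 := neg_pi_lt_arg (-b / a)
  have a2 := arg_le_pi (-b / a)
  have a3 := neg_pi_lt_arg a
  have a4 := arg_le_pi a
  have a5 := neg_pi_lt_arg b
  have a6 := arg_le_pi b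
  split_ifs with h
  · have : k = 0 := by
      apply int_eq_of <;> push_cast <;> linarith
    rw [this] at hk; simp at hk; linarith
  · have : k = -1 := by
      apply int_eq_of <;> push_cast <;> linarith [not_le.mp h]
    rw [this] at hk; push_cast at hk; linarith

/-- the limit of the angle when approaching `y` in direction `u` -/
noncomputable def lim (s t y u : ℂ) : ℝ :=
  if s = y then (-(t - y) / u).arg else if t = y then (-u / (s - y)).arg else ang s t y

theorem arg_ne_of {y u a : ℂ} (hu : u ≠ 0) (ha : a ≠ y)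
    (h : ∀ e : ℝ, 0 < e → e < 1 → y + e * u ∉ segment ℝ y a) : u.arg ≠ (a - y).arg := by
  intro e
  have ha' : a - y ≠ 0 := sub_ne_zero.mpr ha
  rw [arg_eq_arg_iff hu ha'] at e
  have h1 : 0 < ‖u‖ := norm_pos_iff.mpr hu
  have h2 : 0 < ‖a - y‖ := norm_pos_iff.mpr ha'
  set c := ‖a - y‖ / ‖u‖ with hc
  have hc0 : 0 < c := div_pos h2 h1
  have e' : (c : ℂ) * u = a - y := by rw [← e, hc]; push_cast; rfl
  have h3 : 0 < 1 + c := by linarith
  apply h (c / (1 + c)) (div_pos hc0 h3) ((div_lt_one h3).mpr (by linarith))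
  refine ⟨c / (1 + c), 1 / (1 + c), by positivity, by positivity, by field_simp; ring, ?_⟩
  have h4 : (1 + c : ℂ) ≠ 0 := by exact_mod_cast h3.ne'
  simp only [real_smul]
  push_cast
  field_simp
  linear_combination -e'

theorem neg_div_slit {a b : ℂ} (ha : a ≠ 0) (hb : b ≠ 0) (h : a.arg ≠ b.arg) :
    -b / a ∈ slitPlane := by
  rw [mem_slitPlane_iff_arg, arg_neg_div ha hb]
  refine ⟨fun e => ?_, div_ne_zero (neg_ne_zero.mpr hb) ha⟩
  have a3 := neg_pi_lt_arg a
  have a6 := arg_le_pi b
  split_ifs at e with h'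
  · exact h (by linarith)
  · linarith

theorem tendsto_lim {s t y u : ℂ} (hst : s ≠ t) (hu : u ≠ 0)
    (h : ∀ e : ℝ, 0 < e → e < 1 → y + e * u ∉ segment ℝ s t)
    (hy : y ∈ segment ℝ s t → y = s ∨ y = t) :
    Filter.Tendsto (fun e : ℝ => ang s t (y + e * u)) (nhdsWithin 0 (Ioi 0)) (nhds (lim s t y u)) := by
  unfold lim
  split_ifs with h1 h2
  · subst h1
    have hne := arg_ne_of hu hst.symm h
    have hs := neg_div_slit hu (sub_ne_zero.mpr hst.symm) hne
    have hc : ContinuousAt (fun e : ℝ => (-(t - s - e * u) / u).arg) 0 :=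
      ContinuousAt.comp (g := arg) (f := fun e : ℝ => -(t - s - e * u) / u)
        (by simpa using continuousAt_arg (by simpa using hs)) (by fun_prop)
    have := hc.tendsto.mono_left (nhdsWithin_le_nhds (s := Ioi 0))
    simp only [ofReal_zero, zero_mul, sub_zero] at this
    refine this.congr' ?_
    filter_upwards [self_mem_nhdsWithin] with e he
    have he' : (e : ℂ) ≠ 0 := by exact_mod_cast (ne_of_gt he)
    rw [ang, ← arg_real_mul ((t - (s + e * u)) / (s - (s + e * u))) he]
    congr 1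
    rw [show s - (s + e * u) = -(e * u) by ring]
    field_simp
    ring
  · subst h2
    have hne := arg_ne_of hu hst (fun e h1 h2 => segment_symm ℝ s t ▸ h e h1 h2)
    have hs := neg_div_slit (sub_ne_zero.mpr hst) hu hne.symm
    have hst' : s - t ≠ 0 := sub_ne_zero.mpr hst
    have hc : ContinuousAt (fun e : ℝ => (-u / (s - t - e * u)).arg) 0 :=
      ContinuousAt.comp (g := arg) (f := fun e : ℝ => -u / (s - t - e * u))
        (by simpa using continuousAt_arg hs)
        (ContinuousAt.div (by fun_prop) (by fun_prop) (by simpa using hst'))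
    have := hc.tendsto.mono_left (nhdsWithin_le_nhds (s := Ioi 0))
    simp only [ofReal_zero, zero_mul, sub_zero] at this
    refine this.congr' ?_
    filter_upwards [self_mem_nhdsWithin] with e he
    rw [ang, ← arg_real_mul (-u / (s - t - e * u)) he]
    congr 1
    rw [show s - (t + e * u) = s - t - e * u by ring]
    ring
  · have hy' : y ∉ segment ℝ s t := fun h' => (hy h').elim (fun e => h1 e.symm) (fun e => h2 e.symm)
    have hc : ContinuousAt (fun e : ℝ => ang s t (y + e * u)) 0 :=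
      ContinuousAt.comp (g := ang s t) (f := fun e : ℝ => y + e * u)
        (by simpa using ang_contAt hy') (by fun_prop)
    have := hc.tendsto.mono_left (nhdsWithin_le_nhds (s := Ioi 0))
    simpa using this

/-- The winding sum along a free segment starting at `y`. -/
theorem om_eq_lim (hc : Cyc Z s t) {y u : ℂ} (hst : ∀ k ∈ Z, s k ≠ t k) (hu : u ≠ 0)
    (h : ∀ k ∈ Z, ∀ e : ℝ, 0 < e → e < 1 → y + e * u ∉ segment ℝ (s k) (t k))
    (hy : ∀ k ∈ Z, y ∈ segment ℝ (s k) (t k) → y = s k ∨ y = t k) :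
    om Z s t (y + (1 / 2 : ℝ) * u) = ∑ k ∈ Z, lim (s k) (t k) y u := by
  have h1 := tendsto_finsetSum Z fun k hk => tendsto_lim (hst k hk) hu (h k hk) (hy k hk)
  have hW : IsPreconnected ((fun e : ℝ => y + e * u) '' Ioo 0 1) :=
    isPreconnected_Ioo.image _ (by fun_prop)
  refine tendsto_nhds_unique (tendsto_const_nhds.congr' ?_) h1
  filter_upwards [Ioo_mem_nhdsGT (show (0 : ℝ) < 1 by norm_num)] with e he
  refine om_const hc hW ?_ ⟨1 / 2, ⟨by norm_num, by norm_num⟩, rfl⟩ ⟨e, he, rfl⟩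
  rintro _ ⟨e, he, rfl⟩ k hk
  exact h k hk e he.1 he.2

end Pool.Agent.MP_b0ee3d_lc

end

section

set_option autoImplicit false

/-! Parity conditions on the Gauss word of a polygonal curve. -/

namespace Pool.Agent.MP_b0ee3d_lc

open Set Complex Real

/-- The conditions on the curve, for a periodic sequence of points. -/
structure Good (q : ℕ → ℂ) (L : ℕ) : Prop where
  pos : 0 < L
  per : ∀ i, q (i + L) = q i
  ne : ∀ i, q i ≠ q (i + 1)
  meet : ∀ i j, i % L ≠ j % L → segment ℝ (q i) (q (i + 1)) ∩ segment ℝ (q j) (q (j + 1)) ⊆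
    {q i, q (i + 1)} ∩ {q j, q (j + 1)}
  tri : ∀ i j k, i % L ≠ j % L → i % L ≠ k % L → j % L ≠ k % L → q i = q j → q i ≠ q k
  cross : ∀ i j, i % L ≠ j % L → q (i + 1) = q (j + 1) →
    Xor (Btw (q i - q (i + 1)).arg (q (i + 2) - q (i + 1)).arg (q j - q (j + 1)).arg)
      (Btw (q i - q (i + 1)).arg (q (i + 2) - q (i + 1)).arg (q (j + 2) - q (j + 1)).arg)

theorem mod_ne {L i j : ℕ} (h1 : i < j) (h2 : j < i + L) : i % L ≠ j % L := by
  intro h
  have := (Nat.modEq_iff_dvd' h1.le).mp h
  have := Nat.le_of_dvd (by omega) this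
  omega

theorem lim_diff {ι : Type} {Z : Finset ι} {s t : ι → ℂ} {y : ℂ} (u v : ℂ) {a b : ι}
    (ha : a ∈ Z) (hb : b ∈ Z) (e1 : s a = y) (e2 : t b = y) (hne : s b ≠ y)
    (u1 : ∀ r ∈ Z, s r = y → r = a) (u2 : ∀ r ∈ Z, t r = y → r = b) :
    ∑ k ∈ Z, lim (s k) (t k) y u - ∑ k ∈ Z, lim (s k) (t k) y v =
      ((-(t a - y) / u).arg + (-u / (s b - y)).arg) -
        ((-(t a - y) / v).arg + (-v / (s b - y)).arg) := by
  rw [← Finset.sum_sub_distrib, Finset.sum_eq_add_of_mem a b ha hb (fun e => hne (e ▸ e1))]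
  · simp only [lim, e1, e2, hne, if_true, if_false]
    ring
  · intro c hc ⟨h1, h2⟩
    simp only [lim, if_neg (fun e => h1 (u1 c hc e)), if_neg (fun e => h2 (u2 c hc e)), sub_self]

theorem lim_diff0 {ι : Type} {Z : Finset ι} {s t : ι → ℂ} {y : ℂ} (u v : ℂ)
    (u1 : ∀ r ∈ Z, s r ≠ y) (u2 : ∀ r ∈ Z, t r ≠ y) :
    ∑ k ∈ Z, lim (s k) (t k) y u = ∑ k ∈ Z, lim (s k) (t k) y v :=
  Finset.sum_congr rfl fun c hc => by simp only [lim, if_neg (u1 c hc), if_neg (u2 c hc)]

open Classical in
theorem phi_eq {a b u : ℂ} (ha : a ≠ 0) (hb : b ≠ 0) (hu : u ≠ 0) (h1 : u.arg ≠ a.arg)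
    (h2 : u.arg ≠ b.arg) : (-b / u).arg + (-u / a).arg = b.arg - a.arg +
      if Btw a.arg b.arg u.arg then (if a.arg < b.arg then -(2 * π) else 2 * π) else 0 := by
  rw [arg_neg_div hu hb, arg_neg_div ha hu]
  unfold Btw
  rcases lt_or_gt_of_ne h1 with h1 | h1 <;> rcases lt_or_gt_of_ne h2 with h2 | h2
  · rw [if_neg (not_le.mpr h2), if_pos h1.le, if_neg (by rintro (h | h) <;> linarith [h.1])]
    ring
  · rw [if_pos h2.le, if_pos h1.le, if_pos (Or.inr ⟨h2, h1⟩), if_neg (by linarith)]
    ring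
  · rw [if_neg (not_le.mpr h2), if_neg (not_le.mpr h1), if_pos (Or.inl ⟨h1, h2⟩),
      if_pos (by linarith)]
    ring
  · rw [if_pos h2.le, if_neg (not_le.mpr h1), if_neg (by rintro (h | h) <;> linarith [h.2])]
    ring

theorem btw_swap {a b u v : ℝ} (_ : u ≠ a) (h2 : u ≠ b) (h3 : v ≠ a) (h4 : v ≠ b)
    (h : Xor (Btw a u v) (Btw a u b)) : Btw a b u ↔ Btw a b v := by
  unfold Btw Xor at *
  grind

namespace Good

variable {q : ℕ → ℂ} {L : ℕ} (h : Good q L)
include h

theorem out_off {p r : ℕ} (hne : p % L ≠ r % L) (e : ℝ) (h0 : 0 < e) (h1 : e < 1) :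
    q p + e * (q (p + 1) - q p) ∉ segment ℝ (q r) (q (r + 1)) := by
  intro hx
  have hm : q p + e * (q (p + 1) - q p) ∈ segment ℝ (q p) (q (p + 1)) :=
    ⟨1 - e, e, by linarith, h0.le, by ring, by simp only [real_smul]; push_cast; ring⟩
  have hu := sub_ne_zero.mpr (h.ne p).symm
  rcases (h.meet p r hne ⟨hm, hx⟩).1 with h2 | h2
  · have : (e : ℂ) * (q (p + 1) - q p) = 0 := by linear_combination h2
    rcases mul_eq_zero.mp this with h3 | h3
    · exact h0.ne' (by exact_mod_cast h3)
    · exact hu h3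
  · have : ((e : ℂ) - 1) * (q (p + 1) - q p) = 0 := by
      rw [mem_singleton_iff] at h2
      linear_combination h2
    rcases mul_eq_zero.mp this with h3 | h3
    · exact h1.ne (by exact_mod_cast sub_eq_zero.mp h3)
    · exact hu h3

theorem in_off {p r : ℕ} (hne : p % L ≠ r % L) (e : ℝ) (h0 : 0 < e) (h1 : e < 1) :
    q (p + 1) + e * (q p - q (p + 1)) ∉ segment ℝ (q r) (q (r + 1)) := by
  have := h.out_off hne (1 - e) (by linarith) (by linarith)
  rwa [show q p + ((1 - e : ℝ) : ℂ) * (q (p + 1) - q p) = q (p + 1) + e * (q p - q (p + 1)) by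
    push_cast; ring] at this

theorem no_par {i j : ℕ} (hne : i % L ≠ j % L) :
    ¬ (q i = q j ∧ q (i + 1) = q (j + 1)) ∧ ¬ (q i = q (j + 1) ∧ q (i + 1) = q j) := by
  have h1 := h.out_off hne (1 / 2) (by norm_num) (by norm_num)
  have hm : q i + ((1 / 2 : ℝ) : ℂ) * (q (i + 1) - q i) ∈ segment ℝ (q i) (q (i + 1)) :=
    ⟨1 / 2, 1 / 2, by norm_num, by norm_num, by norm_num, by simp only [real_smul]; push_cast; ring⟩
  constructor
  · rintro ⟨e1, e2⟩
    exact h1 (by rwa [← e1, ← e2])
  · rintro ⟨e1, e2⟩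
    exact h1 (by rwa [← e1, ← e2, segment_symm])

theorem even_cross {k l i j : ℕ} (hkl : k < l) (hli : l ≤ i) (hij : i < j) (hjk : j ≤ k + L)
    (h1 : q k = q l) (h2 : q i = q j) (h3 : (i = l ∧ j = k + L) ∨ (l < i ∧ j < k + L))
    (S : ℕ → Prop) [DecidablePred S]
    (hS : ∀ p, k < p → p < l → (S p ↔ ∃ r, i < r ∧ r < j ∧ q r = q p)) :
    Even ((Finset.Ioo k l).filter S).card := by
  classical
  have hc : Cyc (Finset.Ico i j) q (fun r => q (r + 1)) := fun f => by
    rw [← sub_eq_zero, ← Finset.sum_sub_distrib, Finset.sum_Ico_sub (fun r => f (q r)) hij.le, h2,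
      sub_self]
  have hfree : ∀ p, k ≤ p → p < l → ∀ r ∈ Finset.Ico i j, p % L ≠ r % L := fun p a b r hr => by
    rw [Finset.mem_Ico] at hr
    exact mod_ne (by omega) (by omega)
  let w : ℕ → ℝ := fun p => om (Finset.Ico i j) q (fun r => q (r + 1))
    (q p + (1 / 2 : ℝ) * (q (p + 1) - q p))
  have wout : ∀ p, k ≤ p → p < l → w p = ∑ r ∈ Finset.Ico i j,
      lim (q r) (q (r + 1)) (q p) (q (p + 1) - q p) := fun p a b =>
    om_eq_lim hc (fun r _ => h.ne r) (sub_ne_zero.mpr (h.ne p).symm)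
      (fun r hr => h.out_off (hfree p a b r hr))
      (fun r hr hy => (h.meet p r (hfree p a b r hr) ⟨left_mem_segment _ _ _, hy⟩).2)
  have win : ∀ p, k ≤ p → p < l → w p = ∑ r ∈ Finset.Ico i j,
      lim (q r) (q (r + 1)) (q (p + 1)) (q p - q (p + 1)) := fun p a b => by
    rw [← om_eq_lim hc (fun r _ => h.ne r) (sub_ne_zero.mpr (h.ne p))
      (fun r hr => h.in_off (hfree p a b r hr))
      (fun r hr hy => (h.meet p r (hfree p a b r hr) ⟨right_mem_segment _ _ _, hy⟩).2)]
    simp only [w]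
    congr 1
    push_cast; ring
  have oo : ∀ p r, p % L ≠ r % L → q r = q p →
      (q (p + 1) - q p).arg ≠ (q (r + 1) - q p).arg := fun p r hne e =>
    arg_ne_of (sub_ne_zero.mpr (h.ne p).symm) (e ▸ (h.ne r).symm)
      (fun x a b => e ▸ h.out_off hne x a b |> fun h' => by simpa [e] using h.out_off hne x a b)
  have oi : ∀ p r, p % L ≠ r % L → q (r + 1) = q p →
      (q (p + 1) - q p).arg ≠ (q r - q p).arg := fun p r hne e =>
    arg_ne_of (sub_ne_zero.mpr (h.ne p).symm) (e ▸ h.ne r)
      (fun x a b => by simpa [e, segment_symm] using h.out_off hne x a b)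
  have io : ∀ p r, p % L ≠ r % L → q r = q (p + 1) →
      (q p - q (p + 1)).arg ≠ (q (r + 1) - q (p + 1)).arg := fun p r hne e =>
    arg_ne_of (sub_ne_zero.mpr (h.ne p)) (e ▸ (h.ne r).symm)
      (fun x a b => by simpa [e] using h.in_off hne x a b)
  have ii : ∀ p r, p % L ≠ r % L → q (r + 1) = q (p + 1) →
      (q p - q (p + 1)).arg ≠ (q r - q (p + 1)).arg := fun p r hne e =>
    arg_ne_of (sub_ne_zero.mpr (h.ne p)) (e ▸ h.ne r)
      (fun x a b => by simpa [e, segment_symm] using h.in_off hne x a b)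
  have hij' : i % L ≠ j % L := mod_ne hij (by omega)
  have step : ∀ p, k ≤ p → p + 1 < l → ∃ z : ℤ, w (p + 1) - w p = 2 * π * z ∧
      (Even z ↔ ¬ S (p + 1)) := by
    intro p a b
    rw [wout (p + 1) (by omega) b, win p a (by omega), hS (p + 1) (by omega) b]
    have hend : q i ≠ q (p + 1) := h.tri i j (p + 1) hij' (mod_ne (by omega) (by omega)).symm
      (mod_ne (by omega) (by omega)).symm h2
    by_cases hr : ∃ r, i < r ∧ r < j ∧ q r = q (p + 1)
    · obtain ⟨r, r1, r2, r3⟩ := hr
      obtain ⟨r, rfl⟩ : ∃ r', r = r' + 1 := ⟨r - 1, by omega⟩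
      have uq : ∀ r', i ≤ r' → r' ≤ j → q r' = q (p + 1) → r' = r + 1 := by
        intro r' a1 a2 a3
        by_contra hne
        refine h.tri (p + 1) (r + 1) r' (mod_ne (by omega) (by omega))
          (mod_ne (by omega) (by omega)) ?_ r3.symm a3.symm
        rcases lt_or_gt_of_ne hne with h' | h'
        · exact (mod_ne h' (by omega)).symm
        · exact mod_ne h' (by omega)
      have m1 : r + 1 ∈ Finset.Ico i j := Finset.mem_Ico.mpr ⟨by omega, r2⟩
      have m2 : r ∈ Finset.Ico i j := Finset.mem_Ico.mpr ⟨by omega, by omega⟩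
      have n1 : q r - q (p + 1) ≠ 0 := sub_ne_zero.mpr (r3 ▸ h.ne r)
      have n2 : q (r + 1 + 1) - q (p + 1) ≠ 0 := sub_ne_zero.mpr (r3 ▸ (h.ne (r + 1)).symm)
      rw [lim_diff (t := fun r => q (r + 1)) _ _ m1 m2 r3 r3 (r3 ▸ h.ne r)
        (fun x hx e => uq x (Finset.mem_Ico.mp hx).1 (Finset.mem_Ico.mp hx).2.le e)
        (fun x hx e => by
          have := uq (x + 1) (by have := (Finset.mem_Ico.mp hx).1; omega)
            (Finset.mem_Ico.mp hx).2 e
          omega),
        phi_eq n1 n2 (sub_ne_zero.mpr (h.ne _).symm)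
          (oi _ _ (hfree _ (by omega) b _ m2) r3) (oo _ _ (hfree _ (by omega) b _ m1) r3),
        phi_eq n1 n2 (sub_ne_zero.mpr (h.ne _))
          (ii _ _ (hfree _ a (by omega) _ m2) r3) (io _ _ (hfree _ a (by omega) _ m1) r3)]
      have hx := h.cross r p (hfree _ a (by omega) _ m2).symm r3
      rw [r3] at hx
      have hex : ¬ ¬ ∃ r, i < r ∧ r < j ∧ q r = q (p + 1) := not_not.mpr ⟨r + 1, r1, r2, r3⟩
      rcases hx with ⟨x1, x2⟩ | ⟨x1, x2⟩
      · rw [if_pos x1, if_neg x2]
        split_ifs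
        · exact ⟨1, by push_cast; ring, iff_of_false (by decide) hex⟩
        · exact ⟨-1, by push_cast; ring, iff_of_false (by decide) hex⟩
      · rw [if_pos x1, if_neg x2]
        split_ifs
        · exact ⟨-1, by push_cast; ring, iff_of_false (by decide) hex⟩
        · exact ⟨1, by push_cast; ring, iff_of_false (by decide) hex⟩
    · refine ⟨0, ?_, iff_of_true (by decide) hr⟩
      rw [lim_diff0 (t := fun r => q (r + 1)) _ (q p - q (p + 1)), sub_self]
      · simp
      · intro r hr' e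
        rw [Finset.mem_Ico] at hr'
        rcases hr'.1.eq_or_lt with rfl | h'
        · exact hend e
        · exact hr ⟨r, h', hr'.2, e⟩
      · intro r hr' e
        rw [Finset.mem_Ico] at hr'
        rcases (show r + 1 ≤ j from hr'.2).eq_or_lt with rfl | h'
        · exact hend (h2.trans e)
        · exact hr ⟨r + 1, by omega, h', e⟩
  have ind : ∀ p, k ≤ p → p < l → ∃ z : ℤ, w p - w k = 2 * π * z ∧
      (Even z ↔ Even ((Finset.Ioc k p).filter S).card) := by
    intro p a
    induction p, a using Nat.le_induction with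
    | base => exact fun _ => ⟨0, by simp, by simp⟩
    | succ p a ih =>
      intro b
      obtain ⟨z, z1, z2⟩ := ih (by omega)
      obtain ⟨y, y1, y2⟩ := step p a b
      refine ⟨z + y, by push_cast; linarith, ?_⟩
      rw [← Finset.insert_Ioc_right_eq_Ioc_add_one a, Finset.filter_insert, Int.even_add, z2, y2]
      split_ifs with hs
      · rw [Finset.card_insert_of_notMem (by simp), Nat.even_add_one]
        simp [hs]
      · simp [hs]
  obtain ⟨l, rfl⟩ : ∃ l', l = l' + 1 := ⟨l - 1, by omega⟩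
  obtain ⟨z, z1, z2⟩ := ind l (by omega) (by omega)
  have hz : w l - w k = 0 := by
    rw [win l (by omega) (by omega), wout k le_rfl hkl, ← h1]
    have hkl' : k % L ≠ (l + 1) % L := mod_ne hkl (by omega)
    rcases h3 with ⟨rfl, rfl⟩ | ⟨a, b⟩
    · obtain ⟨m, hm⟩ : ∃ m, k + L = m + 1 := ⟨k + L - 1, by omega⟩
      have e1 : q (m + 1) = q k := by rw [← hm, h.per]
      have e2 : q (m + 2) = q (k + 1) := by rw [← h.per (k + 1)]; congr 1; omega
      have m1 : l + 1 ∈ Finset.Ico (l + 1) (k + L) := Finset.mem_Ico.mpr ⟨le_rfl, hij⟩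
      have m2 : m ∈ Finset.Ico (l + 1) (k + L) := Finset.mem_Ico.mpr ⟨by omega, by omega⟩
      have uq : ∀ r, l + 1 < r → r < k + L → q r ≠ q k := fun r a b e =>
        h.tri k (l + 1) r hkl' (mod_ne (by omega) b) (mod_ne a (by omega)) h1 e.symm
      have n1 : q m - q k ≠ 0 := sub_ne_zero.mpr (e1 ▸ h.ne m)
      have n2 : q (l + 1 + 1) - q k ≠ 0 := sub_ne_zero.mpr (h1 ▸ (h.ne (l + 1)).symm)
      have d1 := oi _ _ (hfree k le_rfl hkl _ m2) e1
      have d2 := oo _ _ (hfree k le_rfl hkl _ m1) h1.symm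
      have d3 := ii _ _ (hfree l (by omega) (by omega) _ m2) (e1.trans h1)
      have d4 := io _ _ (hfree l (by omega) (by omega) _ m1) rfl
      rw [← h1] at d3 d4
      rw [lim_diff (t := fun r => q (r + 1)) _ _ m1 m2 h1.symm e1 (e1 ▸ h.ne m)
        (fun x hx e => by
          rw [Finset.mem_Ico] at hx
          by_contra hne
          exact uq x (by omega) hx.2 e)
        (fun x hx e => by
          rw [Finset.mem_Ico] at hx
          by_contra hne
          exact uq (x + 1) (by omega) (by omega) e),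
        phi_eq n1 n2 (sub_ne_zero.mpr (h1 ▸ h.ne l)) d3 d4,
        phi_eq n1 n2 (sub_ne_zero.mpr (h.ne _).symm) d1 d2]
      have hx := h.cross m l (hfree l (by omega) (by omega) _ m2).symm (e1.trans h1)
      rw [e1, e2, ← h1] at hx
      have := btw_swap d1 d2 d3 d4 hx
      simp only [this, sub_self]
    · have uq : ∀ r, l + 1 < r → r < k + L → q r ≠ q k := fun r a b e =>
        h.tri k (l + 1) r hkl' (mod_ne (by omega) b) (mod_ne a (by omega)) h1 e.symm
      rw [lim_diff0 (t := fun r => q (r + 1)) _ (q (k + 1) - q k), sub_self]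
      · intro r hr
        rw [Finset.mem_Ico] at hr
        exact uq r (by omega) (by omega)
      · intro r hr
        rw [Finset.mem_Ico] at hr
        exact uq (r + 1) (by omega) (by omega)
  rw [hz] at z1
  have : z = 0 := by
    have := (mul_eq_zero.mp z1.symm).resolve_left (by positivity)
    exact_mod_cast this
  rw [Finset.Ioo_add_one_right_eq_Ioc, ← z2, this]
  decide

end Good

end Pool.Agent.MP_b0ee3d_lc

end

section

set_option autoImplicit false

/-! Exhaustive search through short Gauss words. -/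

namespace Pool.Agent.MP_b0ee3d_lc

/-- first position of the point at position `x` -/
def lab (u : ℕ → ℕ) (x : ℕ) : ℕ := cond (Nat.ble 2 (u x)) (Nat.sub (u x) 2) x

/-- bounded universal quantifier -/
noncomputable def allN (n : ℕ) (f : ℕ → Bool) : Bool := Nat.rec true (fun k ih => f k && ih) n

/-- bounded existential quantifier -/
noncomputable def anyN (n : ℕ) (f : ℕ → Bool) : Bool := Nat.rec false (fun k ih => f k || ih) n

/-- counting -/
noncomputable def cnt (P : ℕ → Bool) (a b : ℕ) : ℕ :=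
  Nat.rec 0 (fun k ih => cond (Nat.ble a k && P k) (Nat.succ ih) ih) b

theorem allN_iff {n : ℕ} {f : ℕ → Bool} : allN n f = true ↔ ∀ k < n, f k = true := by
  induction n with
  | zero => simp [allN]
  | succ n ih =>
    change (f n && allN n f) = true ↔ _
    rw [Bool.and_eq_true, ih, Nat.forall_lt_succ_right, and_comm]

theorem anyN_iff {n : ℕ} {f : ℕ → Bool} : anyN n f = true ↔ ∃ k < n, f k = true := by
  induction n with
  | zero => simp [anyN]
  | succ n ih =>
    change (f n || anyN n f) = true ↔ _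
    rw [Bool.or_eq_true, ih, Nat.exists_lt_succ_right, or_comm]

theorem cnt_eq (P : ℕ → Bool) (a b : ℕ) :
    cnt P a b = ((Finset.Ico a b).filter fun x => P x = true).card := by
  induction b with
  | zero => simp [cnt]
  | succ b ih =>
    change cond (Nat.ble a b && P b) (Nat.succ (cnt P a b)) (cnt P a b) = _
    by_cases h : a ≤ b
    · rw [← Finset.insert_Ico_right_eq_Ico_add_one h, Finset.filter_insert, ih,
        Nat.ble_eq_true_of_le h]
      cases P b
      · simp
      · simp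
    · have : Nat.ble a b = false := Bool.eq_false_iff.mpr (fun e => h (Nat.le_of_ble_eq_true e))
      rw [this, ih, Finset.Ico_eq_empty_of_le (by omega), Finset.Ico_eq_empty_of_le (by omega)]
      simp

/-- conditions at position `p` -/
noncomputable def okB (L V p : ℕ) (u : ℕ → ℕ) : Bool :=
  cond (Nat.ble 2 (u p)) (Nat.blt (Nat.sub (u p) 2) p && Nat.beq (u (Nat.sub (u p) 2)) 1 &&
    allN p (fun r => !Nat.beq (u r) (u p)) && !Nat.beq (lab u (Nat.sub p 1)) (Nat.sub (u p) 2) &&
    Nat.beq (Nat.mod (cnt (fun x => (Nat.beq (u x) 1 &&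
      allN p (fun r => !Nat.beq (u r) (Nat.add x 2))) ||
      (Nat.ble 2 (u x) && Nat.blt (u x) (u p))) (Nat.sub (u p) 1) p) 2) 0 &&
    allN (Nat.sub p 1) (fun k => !(Nat.beq (lab u k) (lab u (Nat.sub p 1)) &&
      Nat.beq (lab u (Nat.succ k)) (Nat.sub (u p) 2)) &&
      !(Nat.beq (lab u k) (Nat.sub (u p) 2) && Nat.beq (lab u (Nat.succ k)) (lab u (Nat.sub p 1)))))
  (Nat.ble (Nat.add (cnt (fun x => Nat.beq (u x) 0) 0 (Nat.succ p)) (Nat.mul 2 V)) L &&
  Nat.ble (Nat.add V (Nat.succ p)) (Nat.add (cnt (fun x => Nat.ble 2 (u x)) 0 (Nat.succ p)) L))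

/-- conditions on the whole word -/
noncomputable def finB (L : ℕ) (u : ℕ → ℕ) : Bool :=
  allN L (fun x => !Nat.beq (u x) 1 || anyN L (fun r => Nat.beq (u r) (Nat.add x 2))) &&
  !Nat.beq (lab u (Nat.sub L 1)) 0 &&
  allN (Nat.sub L 1) (fun k => !(Nat.beq (lab u k) (lab u (Nat.sub L 1)) &&
    Nat.beq (lab u (Nat.succ k)) 0) &&
    !(Nat.beq (lab u k) 0 && Nat.beq (lab u (Nat.succ k)) (lab u (Nat.sub L 1)))) &&
  allN L (fun l => Nat.blt (u l) 2 || allN L (fun b => Nat.ble b l || Nat.blt (u b) 2 ||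
    ((Nat.ble (Nat.sub (u b) 2) l || Nat.beq (Nat.mod (cnt (fun x => anyN b
      (fun r => Nat.blt (Nat.sub (u b) 2) r && Nat.beq (u r) (Nat.add x 2))) (Nat.sub (u l) 1) l) 2) 0) &&
    (Nat.ble (u l) (u b) || Nat.beq (Nat.mod (cnt (fun x => anyN L
      (fun r => Nat.blt b r && Nat.beq (u r) (Nat.add x 2)) ||
      (Nat.ble 2 (u x) && Nat.blt (u x) (u b))) (Nat.sub (u l) 1) l) 2) 0))))

/-- digits -/
def dig (s i : ℕ) : ℕ := Nat.mod (Nat.shiftRight s (Nat.mul 5 i)) 32

theorem dig_eq (s i : ℕ) : dig s i = s / 32 ^ i % 32 := by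
  change (s >>> (5 * i)) % 32 = _
  rw [Nat.shiftRight_eq_div_pow, pow_mul]
  norm_num

/-- forces evaluation -/
noncomputable def force (n : ℕ) (f : ℕ → Bool) : Bool := Nat.rec (f 0) (fun m _ => f (Nat.succ m)) n

theorem force_eq (n : ℕ) (f : ℕ → Bool) : force n f = f n := by cases n <;> rfl

/-- depth first search -/
noncomputable def search (L V k : ℕ) : ℕ → ℕ → Bool :=
  Nat.rec (fun _ s => !finB L (dig s)) (fun _ ih p s => allN (Nat.add p 2) fun c =>
    force (Nat.add s (Nat.mul c (Nat.pow 32 p))) fun s' =>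
      !okB L V p (dig s') || force (Nat.succ p) fun p' => ih p' s') k

theorem search_succ (L V k p s : ℕ) : search L V (k + 1) p s = allN (p + 2) fun c =>
    force (s + c * 32 ^ p) fun s' => !okB L V p (dig s') || force (p + 1) fun p' =>
      search L V k p' s' := rfl

/-- a word as a number -/
def num (u : ℕ → ℕ) : ℕ → ℕ
  | 0 => 0
  | p + 1 => num u p + u p * 32 ^ p

theorem num_lt {u : ℕ → ℕ} (h : ∀ i, u i < 32) (p : ℕ) : num u p < 32 ^ p := by
  induction p with
  | zero => simp [num]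
  | succ p ih =>
    have := Nat.mul_le_mul_right (32 ^ p) (Nat.le_sub_one_of_lt (h p))
    rw [num, pow_succ]
    omega

theorem dig_num {u : ℕ → ℕ} (h : ∀ i, u i < 32) (p : ℕ) :
    dig (num u p) = fun i => if i < p then u i else 0 := by
  funext i
  induction p with
  | zero => simp [num, dig_eq]
  | succ p ih =>
    rw [num]
    rcases lt_trichotomy i p with h1 | rfl | h1
    · rw [if_pos h1] at ih
      rw [if_pos (by omega), ← ih, dig_eq, dig_eq]
      obtain ⟨d, rfl⟩ : ∃ d, p = i + 1 + d := ⟨p - (i + 1), by omega⟩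
      rw [show u (i + 1 + d) * 32 ^ (i + 1 + d) = (u (i + 1 + d) * 32 ^ d * 32) * 32 ^ i by ring,
        Nat.add_mul_div_right _ _ (by positivity), Nat.add_mul_mod_self_right]
    · rw [if_pos (by omega), dig_eq, Nat.add_mul_div_right _ _ (by positivity),
        Nat.div_eq_of_lt (num_lt h i), zero_add, Nat.mod_eq_of_lt (h i)]
    · rw [if_neg (by omega), dig_eq, Nat.div_eq_of_lt]
      exact (num_lt h (p + 1)).trans_le (Nat.pow_le_pow_right (by omega) h1)

theorem search_sound {L V : ℕ} {u : ℕ → ℕ} (h : ∀ i, u i < 32) (h1 : ∀ p < L, u p < p + 2)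
    (h2 : ∀ p < L, okB L V p (fun i => if i < p + 1 then u i else 0) = true)
    (h3 : finB L (fun i => if i < L then u i else 0) = true) (k p : ℕ) (hp : p + k = L) :
    search L V k p (num u p) = false := by
  induction k generalizing p with
  | zero =>
    subst hp
    change (!finB p (dig (num u p))) = false
    rw [dig_num h]
    simpa using h3
  | succ k ih =>
    rw [search_succ, ← Bool.not_eq_true, allN_iff]
    intro h4
    have := h4 (u p) (h1 p (by omega))
    rw [force_eq, force_eq, ← num, dig_num h, h2 p (by omega), ih (p + 1) (by omega)] at this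
    simp at this

theorem search_0 : ∀ V ≤ 5, search (2 * V + 2) (V + 1) (2 * V + 2) 0 0 = true := by decide +kernel

theorem search_14 : search 14 7 14 0 0 = true := by decide +kernel

theorem search_1 : ∀ L ≤ 10, ∀ V ≤ 7, 2 * V < L + 1 → L + 1 < best (V + 1) →
    search (L + 1) V L 1 0 = true := by decide +kernel

theorem search_12 : search 12 5 11 1 0 = true := by decide +kernel

theorem search_13 : search 13 6 12 1 0 = true := by decide +kernel

theorem search_15 : search 15 7 14 1 0 = true := by decide +kernel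

theorem search_even {V : ℕ} (h0 : 0 < V) (h2 : V ≤ 7) : search (2 * V) V (2 * V) 0 0 = true := by
  by_cases h : V = 7
  · subst h; exact search_14
  · obtain ⟨V, rfl⟩ : ∃ W, V = W + 1 := ⟨V - 1, by omega⟩
    exact search_0 V (by omega)

theorem search_odd {L V : ℕ} (h1 : 2 * V < L + 1) (h2 : V ≤ 7) (h3 : L + 1 < best (V + 1)) :
    search (L + 1) V L 1 0 = true := by
  by_cases h : L ≤ 10
  · exact search_1 L h V h2 h1 h3
  · interval_cases V <;> simp only [best] at h3 <;> norm_num at h3 <;> (try omega)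
    · obtain rfl : L = 11 := by omega
      exact search_12
    · obtain rfl : L = 12 := by omega
      exact search_13
    · obtain rfl : L = 14 := by omega
      exact search_15

end Pool.Agent.MP_b0ee3d_lc

end

section

set_option autoImplicit false

/-! Removing a segment from an open set creates at most one new component. -/

namespace Pool.Agent.MP_b0ee3d_lc

open Set Metric

/-- `U` has at most `m` components. -/
def Cov (U : Set ℂ) (m : ℕ) : Prop :=
  ∃ T : Finset ℂ, T.card ≤ m ∧ ∀ x ∈ U, ∃ t ∈ T, x ∈ connectedComponentIn U t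

/-- signed distance from the line through `s` and `t` -/
noncomputable def sd (s t x : ℂ) : ℝ := ((x - s) / (t - s)).im

/-- position along the line through `s` and `t` -/
noncomputable def ps (s t x : ℂ) : ℝ := ((x - s) / (t - s)).re

theorem mem_segment_iff_ps {s t x : ℂ} (h : s ≠ t) :
    x ∈ segment ℝ s t ↔ sd s t x = 0 ∧ 0 ≤ ps s t x ∧ ps s t x ≤ 1 := by
  have h' : t - s ≠ 0 := sub_ne_zero.mpr h.symm
  rw [segment_eq_image_lineMap]
  constructor
  · rintro ⟨c, hc, rfl⟩
    have : (AffineMap.lineMap s t c - s) / (t - s) = (c : ℂ) := by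
      rw [AffineMap.lineMap_apply, div_eq_iff h']
      simp
    simp only [sd, ps, this, Complex.ofReal_im, Complex.ofReal_re]
    exact ⟨trivial, hc.1, hc.2⟩
  · rintro ⟨h1, h2, h3⟩
    refine ⟨ps s t x, ⟨h2, h3⟩, ?_⟩
    have : (x - s) / (t - s) = (ps s t x : ℂ) := Complex.ext (by simp [ps]) (by simpa [sd] using h1)
    rw [div_eq_iff h'] at this
    rw [AffineMap.lineMap_apply]
    simp only [vsub_eq_sub, Complex.real_smul, vadd_eq_add]
    linear_combination -this

theorem sd_add (s t x : ℂ) (z : ℂ) (h : s ≠ t) : sd s t (x + z * (t - s)) = sd s t x + z.im := by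
  have h' : t - s ≠ 0 := sub_ne_zero.mpr h.symm
  have : (x + z * (t - s) - s) / (t - s) = (x - s) / (t - s) + z := by field_simp; ring
  simp only [sd, this, Complex.add_im]

theorem ps_add (s t x : ℂ) (z : ℂ) (h : s ≠ t) : ps s t (x + z * (t - s)) = ps s t x + z.re := by
  have h' : t - s ≠ 0 := sub_ne_zero.mpr h.symm
  have : (x + z * (t - s) - s) / (t - s) = (x - s) / (t - s) + z := by field_simp; ring
  simp only [ps, this, Complex.add_re]

theorem convex_sd (s t : ℂ) (e : ℝ) : Convex ℝ {x | 0 < e * sd s t x} := by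
  intro x hx y hy a b ha hb hab
  have : (a • x + b • y - s) / (t - s) = a * ((x - s) / (t - s)) + b * ((y - s) / (t - s)) := by
    have : (a : ℂ) + b = 1 := by exact_mod_cast hab
    simp only [Complex.real_smul]
    rw [← mul_div_assoc, ← mul_div_assoc, ← add_div]
    congr 1
    linear_combination s * this
  simp only [mem_ofPred_eq, sd, this, Complex.add_im, Complex.im_ofReal_mul] at hx hy ⊢
  rcases ha.eq_or_lt with rfl | ha'
  · have : b = 1 := by linarith
    subst this; simpa using hy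
  · nlinarith [mul_pos ha' hx, mul_nonneg hb hy.le]

theorem convex_ps (s t : ℂ) : Convex ℝ {x | 1 < ps s t x} := by
  intro x hx y hy a b ha hb hab
  have : (a • x + b • y - s) / (t - s) = a * ((x - s) / (t - s)) + b * ((y - s) / (t - s)) := by
    have : (a : ℂ) + b = 1 := by exact_mod_cast hab
    simp only [Complex.real_smul]
    rw [← mul_div_assoc, ← mul_div_assoc, ← add_div]
    congr 1
    linear_combination s * this
  simp only [mem_ofPred_eq, ps, this, Complex.add_re, Complex.re_ofReal_mul] at hx hy ⊢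
  rcases ha.eq_or_lt with rfl | ha'
  · have : b = 1 := by linarith
    subst this; simpa using hy
  · nlinarith [mul_pos ha' (sub_pos.mpr hx), mul_nonneg hb (sub_pos.mpr hy).le]

/-- a point close to `x` in direction `z * (t - s)` -/
theorem exists_near (x w : ℂ) {V : Set ℂ} (hV : V ∈ nhds x) :
    ∃ c : ℝ, 0 < c ∧ x + c * w ∈ V := by
  have : Filter.Tendsto (fun c : ℝ => x + c * w) (nhdsWithin 0 (Ioi 0)) (nhds x) := by
    have h : ContinuousAt (fun c : ℝ => x + c * w) 0 := by fun_prop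
    have := h.tendsto
    simp only [Complex.ofReal_zero, zero_mul, add_zero] at this
    exact this.mono_left nhdsWithin_le_nhds
  obtain ⟨c, hc1, hc2⟩ := ((this.eventually hV).and self_mem_nhdsWithin).exists
  exact ⟨c, hc2, hc1⟩

/-- All half discs on one side of the segment lie in one component. -/
theorem side_comp {U : Set ℂ} (hU : IsOpen U) {s t : ℂ} (h : s ≠ t)
    (ho : openSegment ℝ s t ⊆ U) (e : ℝ) (he : e = 1 ∨ e = -1) :
    ∃ n : ℂ, ∀ o ∈ segment ℝ s t ∩ U, ∀ r, ball o r ⊆ U → ∀ x ∈ ball o r, 0 < e * sd s t x →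
      x ∈ connectedComponentIn (U \ segment ℝ s t) n := by
  set F := U \ segment ℝ s t
  have hsub : ∀ o r, ball o r ⊆ U → ball o r ∩ {x | 0 < e * sd s t x} ⊆ F := by
    rintro o r hr x ⟨h1, h2⟩
    refine ⟨hr h1, fun h3 => ?_⟩
    have := ((mem_segment_iff_ps h).mp h3).1
    simp [this] at h2
  have hpre : ∀ o r, IsPreconnected (ball o r ∩ {x | 0 < e * sd s t x}) := fun o r =>
    ((convex_ball o r).inter (convex_sd s t e)).isPreconnected
  have hnear : ∀ o ∈ segment ℝ s t, ∀ V ∈ nhds o, ∃ y ∈ V, 0 < e * sd s t y := by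
    intro o ho' V hV
    obtain ⟨c, hc, hc'⟩ := exists_near o (e * Complex.I * (t - s)) hV
    refine ⟨_, hc', ?_⟩
    rw [← mul_assoc, sd_add _ _ _ _ h, ((mem_segment_iff_ps h).mp ho').1]
    rcases he with rfl | rfl <;> simpa using hc
  -- the half discs at `o` lie in the component `C`
  let P : ℂ → Set ℂ → Prop := fun o C => ∀ r, ball o r ⊆ U → ∀ x ∈ ball o r,
    0 < e * sd s t x → connectedComponentIn F x = C
  have hP : ∀ o ∈ segment ℝ s t, ∀ r, ball o r ⊆ U → ∀ y ∈ ball o r, 0 < e * sd s t y →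
      ∀ o' ∈ segment ℝ s t, o' ∈ ball o r → P o' (connectedComponentIn F y) := by
    intro o _ r hr y hy hy' o' ho' ho'' r' hr' x hx hx'
    obtain ⟨z, hz, hz'⟩ := hnear o' ho' (ball o r ∩ ball o' r')
      (Filter.inter_mem (isOpen_ball.mem_nhds ho'')
        (ball_mem_nhds _ (lt_of_le_of_lt dist_nonneg hx)))
    have e1 := (hpre o r).subset_connectedComponentIn (x := z) ⟨hz.1, hz'⟩ (hsub o r hr) ⟨hy, hy'⟩
    have e2 := (hpre o' r').subset_connectedComponentIn (x := z) ⟨hz.2, hz'⟩ (hsub o' r' hr')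
      ⟨hx, hx'⟩
    rw [← connectedComponentIn_eq e1, ← connectedComponentIn_eq e2]
  have hconn : IsPreconnected (segment ℝ s t ∩ U) := by
    refine (convex_openSegment s t).isPreconnected.subset_closure
      (subset_inter (openSegment_subset_segment ℝ s t) ho) ?_
    rw [closure_openSegment]
    exact inter_subset_left
  have hm : midpoint ℝ s t ∈ segment ℝ s t ∩ U :=
    ⟨midpoint_mem_segment s t, ho (midpoint_mem_openSegment s t)⟩
  have hloc : ∀ o ∈ segment ℝ s t ∩ U, ∃ y, ∀ᶠ o' in nhdsWithin o (segment ℝ s t ∩ U),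
      P o' (connectedComponentIn F y) := by
    intro o ho'
    obtain ⟨r, hr, hr'⟩ := Metric.isOpen_iff.mp hU o ho'.2
    obtain ⟨y, hy, hy'⟩ := hnear o ho'.1 _ (ball_mem_nhds o hr)
    refine ⟨y, ?_⟩
    filter_upwards [self_mem_nhdsWithin, nhdsWithin_le_nhds (ball_mem_nhds o hr)] with o' h1 h2
    exact hP o ho'.1 r hr' y hy hy' o' h1.1 h2
  have huniq : ∀ o ∈ segment ℝ s t ∩ U, ∀ C C', P o C → P o C' → C = C' := by
    intro o ho' C C' h1 h2
    obtain ⟨r, hr, hr'⟩ := Metric.isOpen_iff.mp hU o ho'.2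
    obtain ⟨y, hy, hy'⟩ := hnear o ho'.1 _ (ball_mem_nhds o hr)
    rw [← h1 r hr' y hy hy', ← h2 r hr' y hy hy']
  obtain ⟨n, hn⟩ := hloc _ hm
  have hn' := hn.self_of_nhdsWithin hm
  refine ⟨n, fun o ho' r hr x hx hx' => ?_⟩
  have key : ∀ C, P (midpoint ℝ s t) C → P o C := by
    refine hconn.induction₂' (fun a b => ∀ C, P a C → P b C) (fun a ha => ?_)
      (fun a b c _ _ _ h1 h2 C h3 => h2 C (h1 C h3)) hm ho'
    obtain ⟨y, hy⟩ := hloc a ha
    have hy' := hy.self_of_nhdsWithin ha
    filter_upwards [hy, self_mem_nhdsWithin] with b hb hb'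
    exact ⟨fun C hC => by rwa [huniq a ha C _ hC hy'], fun C hC => by rwa [huniq b hb' C _ hC hb]⟩
  rw [← key _ hn' r hr x hx hx']
  exact mem_connectedComponentIn (hsub o r hr ⟨hx, hx'⟩)

/-- Points of the component of `U` that meets the segment are joined to a side of it. -/
theorem side_cover {U : Set ℂ} (hU : IsOpen U) {s t : ℂ} (h : s ≠ t) (hs : s ∉ U)
    (ho : openSegment ℝ s t ⊆ U) :
    ∃ n n' : ℂ, (t ∈ U → n = n') ∧ ∀ x ∈ connectedComponentIn U (midpoint ℝ s t),
      x ∉ segment ℝ s t → x ∈ connectedComponentIn (U \ segment ℝ s t) n ∨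
        x ∈ connectedComponentIn (U \ segment ℝ s t) n' := by
  classical
  obtain ⟨n, hn⟩ := side_comp hU h ho 1 (Or.inl rfl)
  obtain ⟨n0, hn0⟩ := side_comp hU h ho (-1) (Or.inr rfl)
  set S := segment ℝ s t with hS
  set F := U \ S
  have hSc : IsClosed S := by
    rw [hS, segment_eq_image_lineMap]
    exact (isCompact_Icc.image (by fun_prop)).isClosed
  have hF : IsOpen F := hU.sdiff hSc
  have pss : ps s t t = 1 := by simp [ps, div_self (sub_ne_zero.mpr h.symm)]
  have sdt : sd s t t = 0 := by simp [sd, div_self (sub_ne_zero.mpr h.symm)]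
  have hfw : t ∈ U → ∀ r, ball t r ⊆ U → ∀ x ∈ ball t r, 1 < ps s t x →
      ∀ m e, (e = 1 ∨ e = -1) → (∀ o ∈ S ∩ U, ∀ r, ball o r ⊆ U → ∀ x ∈ ball o r,
        0 < e * sd s t x → x ∈ connectedComponentIn F m) → x ∈ connectedComponentIn F m := by
    intro ht r hr x hx hx' m e he hm
    obtain ⟨c, hc, hc'⟩ := exists_near t ((1 + e * Complex.I) * (t - s))
      (ball_mem_nhds t (lt_of_le_of_lt dist_nonneg hx))
    rw [← mul_assoc] at hc'
    have h1 := hm t ⟨right_mem_segment _ _ _, ht⟩ r hr _ hc' (by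
      rw [sd_add _ _ _ _ h, sdt]
      rcases he with rfl | rfl <;> simpa using hc)
    have h2 := ((convex_ball t r).inter (convex_ps s t)).isPreconnected.subset_connectedComponentIn
      (F := F) (x := t + c * (1 + e * Complex.I) * (t - s)) ⟨hc', by
        simp only [mem_ofPred_eq]
        rw [ps_add _ _ _ _ h, pss]
        simpa using hc⟩ (fun y hy => ⟨hr hy.1, fun h3 => by
          have := ((mem_segment_iff_ps h).mp h3).2.2
          have := hy.2
          simp only [mem_ofPred_eq] at this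
          linarith⟩) ⟨hx, hx'⟩
    rwa [← connectedComponentIn_eq h1] at h2
  obtain ⟨n', hnn, hn'⟩ : ∃ n', (t ∈ U → n = n') ∧ ∀ o ∈ S ∩ U, ∀ r, ball o r ⊆ U →
      ∀ x ∈ ball o r, 0 < -1 * sd s t x → x ∈ connectedComponentIn F n' := by
    by_cases ht : t ∈ U
    · refine ⟨n, fun _ => rfl, fun o ho' r hr x hx hx' => ?_⟩
      obtain ⟨r', hr', hr''⟩ := Metric.isOpen_iff.mp hU t ht
      obtain ⟨c, hc, hc'⟩ := exists_near t (t - s) (ball_mem_nhds t hr')
      have h0 : 1 < ps s t (t + c * (t - s)) := by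
        rw [ps_add _ _ _ _ h, pss]; simpa using hc
      have h1 := hfw ht r' hr'' _ hc' h0 n 1 (Or.inl rfl) hn
      have h2 := hfw ht r' hr'' _ hc' h0 n0 (-1) (Or.inr rfl) hn0
      rw [connectedComponentIn_eq h1, ← connectedComponentIn_eq h2]
      exact hn0 o ho' r hr x hx hx'
    · exact ⟨n0, fun h' => absurd h' ht, hn0⟩
  refine ⟨n, n', hnn, fun x hx hxS => ?_⟩
  set G := connectedComponentIn F n ∪ connectedComponentIn F n'
  have hm : midpoint ℝ s t ∈ S ∩ U :=
    ⟨midpoint_mem_segment s t, ho (midpoint_mem_openSegment s t)⟩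
  have hA : IsOpen (G ∪ S ∩ U) := by
    rw [isOpen_iff_mem_nhds]
    rintro o (ho' | ho')
    · exact Filter.mem_of_superset
        ((hF.connectedComponentIn.union hF.connectedComponentIn).mem_nhds ho') subset_union_left
    obtain ⟨r, hr, hr'⟩ := Metric.isOpen_iff.mp hU o ho'.2
    have hside : ∀ r, ball o r ⊆ U → ∀ y ∈ ball o r, sd s t y ≠ 0 → y ∈ G := by
      intro r hr y hy hy'
      rcases lt_or_gt_of_ne hy' with h1 | h1
      · exact Or.inr (hn' o ho' r hr y hy (by linarith))
      · exact Or.inl (hn o ho' r hr y hy (by linarith))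
    have hcont : Continuous (ps s t) := by unfold ps; fun_prop
    have h0 : 0 < ps s t o := by
      rcases ((mem_segment_iff_ps h).mp ho'.1).2.1.eq_or_lt with h1 | h1
      · exfalso
        apply hs
        have h2 := ((mem_segment_iff_ps h).mp ho'.1).1
        have : (o - s) / (t - s) = 0 := Complex.ext h1.symm h2
        rw [div_eq_zero_iff, sub_eq_zero, sub_eq_zero] at this
        rcases this with rfl | rfl
        · exact ho'.2
        · exact absurd rfl h
      · exact h1
    have e0 : ∀ᶠ y in nhds o, 0 < ps s t y := hcont.continuousAt.eventually (lt_mem_nhds h0)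
    rcases ((mem_segment_iff_ps h).mp ho'.1).2.2.eq_or_lt with h1 | h1
    · have : o = t := by
        have h2 := ((mem_segment_iff_ps h).mp ho'.1).1
        have : (o - s) / (t - s) = 1 := Complex.ext h1 h2
        rw [div_eq_one_iff_eq (sub_ne_zero.mpr h.symm)] at this
        exact sub_left_injective this
      subst this
      filter_upwards [e0, ball_mem_nhds o hr] with y hy1 hy2
      by_cases h3 : sd s o y = 0
      · by_cases h4 : ps s o y ≤ 1
        · exact Or.inr ⟨(mem_segment_iff_ps h).mpr ⟨h3, hy1.le, h4⟩, hr' hy2⟩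
        · exact Or.inl (Or.inl (hfw ho'.2 r hr' y hy2 (not_le.mp h4) n 1 (Or.inl rfl) hn))
      · exact Or.inl (hside r hr' y hy2 h3)
    · filter_upwards [e0, ball_mem_nhds o hr,
        hcont.continuousAt.eventually (gt_mem_nhds h1)] with y hy1 hy2 hy3
      by_cases h3 : sd s t y = 0
      · exact Or.inr ⟨(mem_segment_iff_ps h).mpr ⟨h3, hy1.le, hy3.le⟩, hr' hy2⟩
      · exact Or.inl (hside r hr' y hy2 h3)
  have hB : IsOpen (F \ G) := by
    rw [isOpen_iff_mem_nhds]
    rintro y ⟨hy, hy'⟩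
    refine Filter.mem_of_superset (hF.connectedComponentIn.mem_nhds (mem_connectedComponentIn hy))
      (fun z hz => ⟨connectedComponentIn_subset _ _ hz, ?_⟩)
    rintro (h1 | h1)
    · apply hy'; left
      rw [connectedComponentIn_eq h1, ← connectedComponentIn_eq hz]
      exact mem_connectedComponentIn hy
    · apply hy'; right
      rw [connectedComponentIn_eq h1, ← connectedComponentIn_eq hz]
      exact mem_connectedComponentIn hy
  have hW := (isPreconnected_connectedComponentIn (F := U) (x := midpoint ℝ s t)).subset_left_of_subset_union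
    hA hB (by
      rw [Set.disjoint_left]
      rintro y (hy | hy) hy'
      · exact hy'.2 hy
      · exact hy'.1.2 hy.1) (fun y hy => by
      have hyU := connectedComponentIn_subset _ _ hy
      by_cases h1 : y ∈ S
      · exact Or.inl (Or.inr ⟨h1, hyU⟩)
      · by_cases h2 : y ∈ G
        · exact Or.inl (Or.inl h2)
        · exact Or.inr ⟨⟨hyU, h1⟩, h2⟩)
    ⟨_, mem_connectedComponentIn hm.2, Or.inr hm⟩
  rcases hW hx with h1 | h1
  · exact h1
  · exact absurd h1.1 hxS

theorem Cov.step {U : Set ℂ} (hU : IsOpen U) {s t : ℂ} (h : s ≠ t) (hs : s ∉ U)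
    (ho : openSegment ℝ s t ⊆ U) {m : ℕ} (hm : Cov U m) {k : ℕ} (hk : t ∈ U ∨ k = 1) :
    Cov (U \ segment ℝ s t) (m + k) := by
  classical
  obtain ⟨T, hT, hc⟩ := hm
  obtain ⟨n, n', hn, hx⟩ := side_cover hU h hs ho
  have hmU : midpoint ℝ s t ∈ U := ho (midpoint_mem_openSegment s t)
  obtain ⟨t0, ht0, ht0'⟩ := hc _ hmU
  refine ⟨T.erase t0 ∪ {n, n'}, ?_, fun x hx' => ?_⟩
  · have h1 := Finset.card_union_le (T.erase t0) {n, n'}
    have h2 := Finset.card_erase_of_mem ht0
    have h3 := Finset.card_pos.mpr ⟨t0, ht0⟩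
    rcases hk with hk | hk
    · rw [← hn hk] at h1 ⊢
      simp only [Finset.mem_singleton, Finset.insert_eq_of_mem, Finset.card_singleton] at h1 ⊢
      omega
    · have := Finset.card_le_two (a := n) (b := n')
      omega
  obtain ⟨t1, ht1, ht1'⟩ := hc x hx'.1
  by_cases hW : x ∈ connectedComponentIn U (midpoint ℝ s t)
  · rcases hx x hW hx'.2 with h1 | h1
    · exact ⟨n, by simp, h1⟩
    · exact ⟨n', by simp, h1⟩
  refine ⟨t1, ?_, ?_⟩
  · refine Finset.mem_union_left _ (Finset.mem_erase.mpr ⟨?_, ht1⟩)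
    rintro rfl
    exact hW (connectedComponentIn_eq ht0' ▸ ht1')
  have ht1U : t1 ∈ U := connectedComponentIn_nonempty_iff.mp ⟨x, ht1'⟩
  refine isPreconnected_connectedComponentIn.subset_connectedComponentIn
    (F := U \ segment ℝ s t) (mem_connectedComponentIn ht1U) (fun y hy => ?_) ht1'
  refine ⟨connectedComponentIn_subset _ _ hy, fun hy' => ?_⟩
  apply hW
  have hconn : IsPreconnected (segment ℝ s t ∩ U) := by
    refine (convex_openSegment s t).isPreconnected.subset_closure
      (subset_inter (openSegment_subset_segment ℝ s t) ho) ?_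
    rw [closure_openSegment]
    exact inter_subset_left
  have h1 := hconn.subset_connectedComponentIn (F := U) (x := midpoint ℝ s t)
    ⟨midpoint_mem_segment s t, hmU⟩ inter_subset_right ⟨hy', connectedComponentIn_subset _ _ hy⟩
  rw [connectedComponentIn_eq h1, ← connectedComponentIn_eq hy]
  exact ht1'

theorem isClosed_seg (s t : ℂ) : IsClosed (segment ℝ s t) := by
  rw [segment_eq_image_lineMap]
  exact (isCompact_Icc.image (by fun_prop)).isClosed

open Classical in
/-- The number of components of the complement of a polygonal path. -/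
theorem cov_path (q : ℕ → ℂ) (L : ℕ) (h1 : ∀ i < L, q i ≠ q (i + 1))
    (h2 : ∀ i < L, ∀ j < i, segment ℝ (q i) (q (i + 1)) ∩ segment ℝ (q j) (q (j + 1)) ⊆
      {q i, q (i + 1)} ∩ {q j, q (j + 1)}) :
    Cov {x | x ≠ q 0 ∧ ∀ i < L, x ∉ segment ℝ (q i) (q (i + 1))}
      (1 + ((Finset.range L).filter fun i => ∃ j ≤ i, q (i + 1) = q j).card) := by
  induction L with
  | zero =>
    refine ⟨{q 0 + 1}, by simp, fun x hx => ⟨q 0 + 1, by simp, ?_⟩⟩
    have : {x | x ≠ q 0 ∧ ∀ i < 0, x ∉ segment ℝ (q i) (q (i + 1))} = ({q 0} : Set ℂ)ᶜ := by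
      ext x; simp
    rw [this] at hx ⊢
    exact (isConnected_compl_singleton_of_one_lt_rank (by simp) (q 0)).isPreconnected.subset_connectedComponentIn
      (by simp) subset_rfl hx
  | succ L ih =>
    have ih' := ih (fun i hi => h1 i (by omega)) (fun i hi => h2 i (by omega))
    set U := {x | x ≠ q 0 ∧ ∀ i < L, x ∉ segment ℝ (q i) (q (i + 1))} with hU
    have hUo : IsOpen U := by
      have : U = ({q 0} : Set ℂ)ᶜ ∩ ⋂ i ∈ Finset.range L, (segment ℝ (q i) (q (i + 1)))ᶜ := by
        ext x; simp [hU]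
      rw [this]
      exact isOpen_compl_singleton.inter
        (isOpen_biInter_finset fun i _ => (isClosed_seg _ _).isOpen_compl)
    have e : {x | x ≠ q 0 ∧ ∀ i < L + 1, x ∉ segment ℝ (q i) (q (i + 1))} =
        U \ segment ℝ (q L) (q (L + 1)) := by
      ext x
      simp only [hU, mem_ofPred_eq, mem_sdiff, Nat.lt_succ_iff_lt_or_eq]
      constructor
      · exact fun h => ⟨⟨h.1, fun i hi => h.2 i (Or.inl hi)⟩, h.2 L (Or.inr rfl)⟩
      · rintro ⟨h, h'⟩
        exact ⟨h.1, fun i hi => hi.elim (h.2 i) (fun e => e ▸ h')⟩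
    have hne := h1 L (by omega)
    have hop : ∀ x ∈ openSegment ℝ (q L) (q (L + 1)), x ≠ q L ∧ x ≠ q (L + 1) := by
      intro x hx
      constructor
      · rintro rfl; exact hne (left_mem_openSegment_iff.mp hx)
      · rintro rfl; exact hne (right_mem_openSegment_iff.mp hx)
    have := ih'.step hUo hne (fun h => by
        rcases L with _ | L
        · exact h.1 rfl
        · exact h.2 L (by omega) (right_mem_segment _ _ _)) (fun x hx => by
        have key : ∀ i < L, x ∉ segment ℝ (q i) (q (i + 1)) := fun i hi hx' => by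
          rcases (h2 L (by omega) i hi ⟨openSegment_subset_segment _ _ _ hx, hx'⟩).1 with h | h
          · exact (hop x hx).1 h
          · exact (hop x hx).2 h
        refine ⟨fun h => ?_, key⟩
        rcases L with _ | L
        · exact (hop x hx).1 h
        · exact key 0 (by omega) (h ▸ left_mem_segment _ _ _))
      (k := if ∃ j ≤ L, q (L + 1) = q j then 1 else 0) (by
        by_cases h : ∃ j ≤ L, q (L + 1) = q j
        · right; rw [if_pos h]
        · left
          push Not at h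
          refine ⟨h 0 (by omega), fun i hi hx => ?_⟩
          rcases (h2 L (by omega) i hi ⟨right_mem_segment _ _ _, hx⟩).2 with h' | h'
          · exact h i (by omega) h'
          · exact h (i + 1) (by omega) h')
    rw [e, Finset.range_add_one, Finset.filter_insert]
    split_ifs at this ⊢ with h
    · rwa [Finset.card_insert_of_notMem (by simp), ← add_assoc]
    · exact this

/-- Points in different components are few. -/
theorem Cov.card_le {U : Set ℂ} {m : ℕ} (h : Cov U m) (D : Finset ℂ) (hD : ∀ x ∈ D, x ∈ U)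
    (hD' : ∀ x ∈ D, ∀ y ∈ D, y ∈ connectedComponentIn U x → x = y) : D.card ≤ m := by
  classical
  obtain ⟨T, hT, hc⟩ := h
  choose! f hf hf' using hc
  refine (Finset.card_le_card_of_injOn f (fun x hx => hf x (hD x hx)) (fun x hx y hy e => ?_)).trans hT
  refine hD' x hx y hy ?_
  rw [← connectedComponentIn_eq (hf' x (hD x hx)), e]
  exact hf' y (hD y hy)

end Pool.Agent.MP_b0ee3d_lc

end

section

set_option autoImplicit false

/-! The lower bound. -/

namespace Pool.Agent.MP_b0ee3d_lc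

open Set

open Classical in
/-- the Gauss word: `0` for a bend, `1` for a first visit, `r + 2` for a return to position `r` -/
noncomputable def code (q : ℕ → ℂ) (L p : ℕ) : ℕ :=
  if p < L then (if h : ∃ r < p, q r = q p then Nat.find h + 2
    else if ∃ r, p < r ∧ r < L ∧ q r = q p then 1 else 0) else 0

theorem code_two {q : ℕ → ℂ} {L p : ℕ} (h : 2 ≤ code q L p) :
    p < L ∧ code q L p - 2 < p ∧ q (code q L p - 2) = q p := by
  classical
  unfold code at h ⊢
  split_ifs at h ⊢ with h1 h2 h3 <;> try omega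
  exact ⟨h1, Nat.find_spec h2⟩

theorem code_lt (q : ℕ → ℂ) (L p : ℕ) : code q L p < p + 2 := by
  by_cases h : 2 ≤ code q L p
  · have := code_two h; omega
  · omega

theorem two_le_code {q : ℕ → ℂ} {L p r : ℕ} (h1 : r < p) (h2 : p < L) (e : q r = q p) :
    2 ≤ code q L p := by
  rw [code, if_pos h2, dif_pos ⟨r, h1, e⟩]
  omega

theorem code_one {q : ℕ → ℂ} {L p : ℕ} (h : code q L p = 1) : ∃ r, p < r ∧ r < L ∧ q r = q p := by
  unfold code at h
  split_ifs at h with h1 h2 h3
  all_goals first | assumption | omega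

theorem code_zero {q : ℕ → ℂ} {L p r : ℕ} (hp : p < L) (h : code q L p = 0) (hr : r < L)
    (e : q r = q p) : r = p := by
  unfold code at h
  rw [if_pos hp] at h
  by_cases h2 : ∃ r < p, q r = q p
  · rw [dif_pos h2] at h; omega
  rw [dif_neg h2] at h
  rcases lt_trichotomy r p with h' | h' | h'
  · exact absurd ⟨r, h', e⟩ h2
  · exact h'
  · rw [if_pos ⟨r, h', hr, e⟩] at h; omega

theorem q_lab (q : ℕ → ℂ) (L x : ℕ) : q (lab (code q L) x) = q x := by
  unfold lab
  cases h : Nat.ble 2 (code q L x)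
  · rfl
  · exact (code_two (Nat.le_of_ble_eq_true h)).2.2

theorem lab_tr (u : ℕ → ℕ) {p x : ℕ} (h : x < p) :
    lab (fun i => if i < p then u i else 0) x = lab u x := by
  simp only [lab, if_pos h]

theorem mod_two (n : ℕ) : Nat.mod n 2 = 0 ↔ Even n := Nat.even_iff.symm

/-- number of returns -/
noncomputable def ret (q : ℕ → ℂ) (L : ℕ) : ℕ :=
  ((Finset.range L).filter fun p => 2 ≤ code q L p).card

namespace Good

variable {q : ℕ → ℂ} {L : ℕ} (h : Good q L)
include h

theorem tri' {i j k : ℕ} (h1 : i < j) (h2 : j < k) (h3 : k < i + L) (e : q i = q j) : q i ≠ q k :=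
  h.tri i j k (mod_ne h1 (by omega)) (mod_ne (by omega) h3) (mod_ne h2 (by omega)) e

theorem code_eq {x r : ℕ} (h1 : x < r) (h2 : r < L) : code q L r = x + 2 ↔ q r = q x := by
  constructor
  · intro e
    have := (code_two (q := q) (L := L) (p := r) (by omega)).2.2
    rw [e] at this
    exact this.symm
  · intro e
    have h3 := two_le_code h1 h2 e.symm
    obtain ⟨-, h4, h5⟩ := code_two h3
    by_contra hne
    rcases lt_or_gt_of_ne (show code q L r - 2 ≠ x by omega) with h' | h'
    · exact h.tri' h' h1 (by omega) (h5.trans e) h5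
    · exact h.tri' h' h4 (by omega) (h5.trans e).symm e.symm

theorem code_eq_one {x r : ℕ} (h1 : x < r) (h2 : r < L) (e : q r = q x) : code q L x = 1 := by
  have : ¬ ∃ r' < x, q r' = q x := by
    rintro ⟨r', a, b⟩
    exact h.tri' a h1 (by omega) b (b.trans e.symm)
  rw [code, if_pos (by omega), dif_neg this, if_pos ⟨r, h1, h2, e⟩]

theorem count_eq : ((Finset.range L).filter fun p => code q L p = 0).card + 2 * ret q L = L := by
  have h1 : ((Finset.range L).filter fun p => code q L p = 1).card = ret q L := by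
    symm
    refine Finset.card_bij (fun r _ => code q L r - 2) (fun r hr => ?_) (fun r hr r' hr' e => ?_)
      (fun x hx => ?_)
    · simp only [Finset.mem_filter, Finset.mem_range] at hr ⊢
      obtain ⟨a, b, c⟩ := code_two hr.2
      exact ⟨by omega, h.code_eq_one b a c.symm⟩
    · simp only [Finset.mem_filter, Finset.mem_range] at hr hr'
      obtain ⟨a, b, c⟩ := code_two hr.2
      obtain ⟨a', b', c'⟩ := code_two hr'.2
      by_contra hne
      rcases lt_or_gt_of_ne hne with h' | h'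
      · exact h.tri' b h' (by omega) c (e ▸ c')
      · exact h.tri' b' h' (by omega) c' (e ▸ c)
    · simp only [Finset.mem_filter, Finset.mem_range] at hx
      obtain ⟨r, a, b, c⟩ := code_one hx.2
      have := (h.code_eq a b).mpr c
      exact ⟨r, by simp [b, this], by omega⟩
  have h2 := Finset.card_filter_add_card_filter_not (s := Finset.range L) (fun p => code q L p = 0)
  have h3 := Finset.card_filter_add_card_filter_not
    (s := (Finset.range L).filter fun p => ¬ code q L p = 0) (fun p => code q L p = 1)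
  rw [Finset.filter_filter, Finset.filter_filter,
    Finset.filter_congr (q := fun p => code q L p = 1) (fun x _ => by omega),
    Finset.filter_congr (p := fun p => ¬ code q L p = 0 ∧ ¬ code q L p = 1)
      (q := fun p => 2 ≤ code q L p) (fun x _ => by omega), h1] at h3
  rw [Finset.card_range] at h2
  unfold ret at *
  omega

theorem outside {x a b : ℕ} (h1 : a < x) (h2 : x < b) (h3 : b < L) :
    (∃ r, b < r ∧ r < a + L ∧ q r = q x) ↔ (∃ r, b < r ∧ r < L ∧ code q L r = x + 2) ∨
      (2 ≤ code q L x ∧ code q L x < a + 2) := by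
  constructor
  · rintro ⟨r, r1, r2, r3⟩
    by_cases hr : r < L
    · exact Or.inl ⟨r, r1, hr, (h.code_eq (by omega) hr).mpr r3⟩
    · obtain ⟨r, rfl⟩ : ∃ r', r = r' + L := ⟨r - L, by omega⟩
      rw [h.per] at r3
      have := (h.code_eq (x := r) (r := x) (by omega) (by omega)).mpr r3.symm
      omega
  · rintro (⟨r, r1, r2, r3⟩ | ⟨r1, r2⟩)
    · exact ⟨r, r1, by omega, (h.code_eq (by omega) r2).mp r3⟩
    · obtain ⟨-, a1, a2⟩ := code_two r1
      exact ⟨code q L x - 2 + L, by omega, by omega, by rw [h.per, a2]⟩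

theorem ok {p : ℕ} (hp : p < L) :
    okB L (ret q L) p (fun i => if i < p + 1 then code q L i else 0) = true := by
  unfold okB
  simp only [Nat.lt_add_one, if_true]
  cases hc : Nat.ble 2 (code q L p)
  · simp only [cond_false, Bool.and_eq_true, Nat.ble_eq, cnt_eq, Nat.add_eq, Nat.mul_eq,
      Nat.succ_eq_add_one, Nat.beq_eq]
    constructor
    · refine le_trans (Nat.add_le_add_right (Finset.card_le_card (fun x hx => ?_)) _) h.count_eq.le
      simp only [Finset.mem_filter, Finset.mem_range, Finset.mem_Ico] at hx ⊢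
      rw [if_pos hx.1.2] at hx
      exact ⟨by omega, hx.2⟩
    · have : ret q L ≤ (((Finset.Ico 0 (p + 1)).filter fun x =>
          2 ≤ if x < p + 1 then code q L x else 0) ∪ Finset.Ico (p + 1) L).card := by
        refine Finset.card_le_card (fun x hx => ?_)
        simp only [Finset.mem_filter, Finset.mem_range, Finset.mem_Ico, Finset.mem_union] at hx ⊢
        by_cases h' : x < p + 1
        · left; rw [if_pos h']; omega
        · right; omega
      have := this.trans (Finset.card_union_le _ _)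
      rw [Nat.card_Ico] at this
      omega
  have hc' := Nat.le_of_ble_eq_true hc
  obtain ⟨-, a1, a2⟩ := code_two hc'
  set i := code q L p - 2 with hi
  have hi' : code q L p = i + 2 := by omega
  obtain ⟨p, rfl⟩ : ∃ p', p = p' + 1 := ⟨p - 1, by omega⟩
  simp only [cond_true, Bool.and_eq_true, Nat.blt_eq, cnt_eq, Nat.sub_eq, ← hi,
    Nat.succ_eq_add_one, Nat.beq_eq, allN_iff, Bool.not_eq_true', Nat.add_eq, Nat.add_sub_cancel,
    mod_two, Bool.or_eq_true, Nat.ble_eq, ← Bool.not_eq_true]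
  refine ⟨⟨⟨⟨⟨a1, ?_⟩, fun r hr => ?_⟩, ?_⟩, ?_⟩, fun k hk => ?_⟩
  · rw [if_pos (by omega)]
    exact h.code_eq_one a1 hp a2.symm
  · rw [if_pos (by omega), hi']
    intro e
    obtain ⟨-, b1, b2⟩ := code_two (q := q) (L := L) (p := r) (by omega)
    rw [e] at b1 b2
    exact h.tri' b1 hr (by omega) b2 a2
  · rw [lab_tr _ (by omega)]
    intro e
    apply h.ne p
    rw [← q_lab q L p, e, a2]
  · rw [hi', show i + 2 - 1 = i + 1 by omega, Finset.Ico_add_one_left_eq_Ioo]
    refine h.even_cross a1 le_rfl (show p + 1 < i + L by omega) le_rfl a2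
      (by rw [h.per, a2]) (Or.inl ⟨rfl, rfl⟩) _ (fun x x1 x2 => ?_)
    rw [h.outside x1 x2 hp, if_pos (by omega)]
    refine or_congr_left ⟨fun ⟨b1, b2⟩ => ?_, fun ⟨r, r1, r2, r3⟩ => ?_⟩
    · obtain ⟨r, r1, r2, r3⟩ := code_one b1
      have r4 := (h.code_eq r1 r2).mpr r3
      refine ⟨r, ?_, r2, r4⟩
      by_contra hr
      rcases (not_lt.mp hr).eq_or_lt with rfl | hr
      · omega
      · exact b2 r hr (by rw [if_pos (by omega), r4])
    · have r4 := (h.code_eq (by omega) r2).mp r3
      refine ⟨h.code_eq_one (by omega) r2 r4, fun r' hr' => ?_⟩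
      rw [if_pos (by omega)]
      intro e
      obtain ⟨-, b1, b2⟩ := code_two (q := q) (L := L) (p := r') (by omega)
      rw [e] at b1 b2
      exact h.tri' b1 (show r' < r by omega) (by omega) b2 r4.symm
  · rw [lab_tr _ (by omega), lab_tr _ (by omega), lab_tr _ (by omega)]
    have := h.no_par (i := k) (j := p) (mod_ne hk (by omega))
    rw [← q_lab q L k, ← q_lab q L (k + 1), ← q_lab q L p, ← a2] at this
    constructor
    · intro hh
      exact this.1 ⟨by rw [hh.1], by rw [hh.2]⟩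
    · intro hh
      exact this.2 ⟨by rw [hh.1], by rw [hh.2]⟩

theorem fin : finB L (fun i => if i < L then code q L i else 0) = true := by
  have e : (fun i => if i < L then code q L i else 0) = code q L := by
    funext i
    split_ifs with h'
    · rfl
    · rw [code, if_neg h']
  rw [e]
  obtain ⟨M, rfl⟩ : ∃ M, L = M + 1 := ⟨L - 1, by have := h.pos; omega⟩
  have hM : q (M + 1) = q 0 := by simpa using h.per 0
  unfold finB
  simp only [Bool.and_eq_true, Nat.blt_eq, cnt_eq, Nat.sub_eq, anyN_iff,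
    Nat.succ_eq_add_one, Nat.beq_eq, allN_iff, Bool.not_eq_true', Nat.add_eq, Nat.add_sub_cancel,
    mod_two, Bool.or_eq_true, Nat.ble_eq, ← Bool.not_eq_true]
  refine ⟨⟨⟨fun x hx => ?_, ?_⟩, fun k hk => ?_⟩, fun l hl => ?_⟩
  · by_cases h1 : code q (M + 1) x = 1
    · obtain ⟨r, r1, r2, r3⟩ := code_one h1
      exact Or.inr ⟨r, r2, (h.code_eq r1 r2).mpr r3⟩
    · exact Or.inl h1
  · intro e
    apply h.ne M
    rw [← q_lab q (M + 1) M, e, hM]
  · have := h.no_par (i := k) (j := M) (mod_ne hk (by omega))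
    rw [← q_lab q (M + 1) k, ← q_lab q (M + 1) (k + 1), ← q_lab q (M + 1) M, hM] at this
    constructor
    · intro hh
      exact this.1 ⟨by rw [hh.1], by rw [hh.2]⟩
    · intro hh
      exact this.2 ⟨by rw [hh.1], by rw [hh.2]⟩
  by_cases h1 : code q (M + 1) l < 2
  · exact Or.inl h1
  refine Or.inr (fun b hb => ?_)
  by_cases h2 : b ≤ l
  · exact Or.inl (Or.inl h2)
  by_cases h3 : code q (M + 1) b < 2
  · exact Or.inl (Or.inr h3)
  obtain ⟨-, a1, a2⟩ := code_two (not_lt.mp h1)
  obtain ⟨-, b1, b2⟩ := code_two (not_lt.mp h3)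
  obtain ⟨k, hk⟩ : ∃ k, code q (M + 1) l = k + 2 := ⟨code q (M + 1) l - 2, by omega⟩
  obtain ⟨a, ha⟩ : ∃ k, code q (M + 1) b = k + 2 := ⟨code q (M + 1) b - 2, by omega⟩
  simp only [hk, ha, Nat.add_sub_cancel] at a1 a2 b1 b2 ⊢
  rw [show k + 2 - 1 = k + 1 by omega, Finset.Ico_add_one_left_eq_Ioo]
  refine Or.inr ⟨?_, ?_⟩
  · by_cases h4 : a ≤ l
    · exact Or.inl h4
    right
    refine h.even_cross a1 (not_le.mp h4).le b1 (by omega) a2 b2 (Or.inr ⟨by omega, by omega⟩) _
      (fun x x1 x2 => ⟨fun ⟨r, r1, r2, r3⟩ => ⟨r, r2, r1, (h.code_eq (by omega) (by omega)).mp r3⟩,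
        fun ⟨r, r1, r2, r3⟩ => ⟨r, r2, r1, (h.code_eq (by omega) (by omega)).mpr r3⟩⟩)
  · by_cases h4 : k + 2 ≤ a + 2
    · exact Or.inl h4
    right
    refine h.even_cross a1 (not_le.mp h2).le (show b < a + (M + 1) by omega) (by omega) a2
      (by rw [h.per, b2]) (Or.inr ⟨by omega, by omega⟩) _ (fun x x1 x2 => ?_)
    rw [h.outside (by omega) (by omega) hb]
    exact or_congr_left ⟨fun ⟨r, r1, r2, r3⟩ => ⟨r, r2, r1, r3⟩, fun ⟨r, r1, r2, r3⟩ => ⟨r, r2, r1, r3⟩⟩

theorem shift (c : ℕ) : Good (fun i => q (i + c)) L where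
  pos := h.pos
  per i := by rw [Nat.add_right_comm, h.per]
  ne i := by rw [Nat.add_right_comm]; exact h.ne _
  meet i j hij := by
    rw [Nat.add_right_comm i, Nat.add_right_comm j]
    exact h.meet _ _ (fun e => hij (Nat.ModEq.add_right_cancel' c e))
  tri i j k a b d := h.tri _ _ _ (fun e => a (Nat.ModEq.add_right_cancel' c e))
    (fun e => b (Nat.ModEq.add_right_cancel' c e)) (fun e => d (Nat.ModEq.add_right_cancel' c e))
  cross i j hij := by
    simp only [Nat.add_right_comm _ _ c]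
    exact h.cross _ _ (fun e => hij (Nat.ModEq.add_right_cancel' c e))

theorem per_mul (i m : ℕ) : q (i + L * m) = q i := by
  induction m with
  | zero => rfl
  | succ m ih => rw [Nat.mul_succ, ← add_assoc, h.per, ih]

theorem per_mod (i : ℕ) : q (i % L) = q i := by
  conv_rhs => rw [← Nat.mod_add_div i L, h.per_mul]

theorem per_mod' (i : ℕ) : q (i % L + 1) = q (i + 1) := by
  conv_rhs => rw [← Nat.mod_add_div i L, Nat.add_right_comm, h.per_mul]

theorem off_eq (c : ℕ) : {x | ∀ i < L, x ∉ segment ℝ (q (i + c)) (q (i + 1 + c))} =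
    {x | ∀ i < L, x ∉ segment ℝ (q i) (q (i + 1))} := by
  have hs := h.shift c
  ext x
  constructor
  · intro hx i hi
    have := hx ((i + (L - 1) * c) % L) (Nat.mod_lt _ h.pos)
    have e1 := hs.per_mod (i + (L - 1) * c)
    have e2 := hs.per_mod' (i + (L - 1) * c)
    obtain ⟨M, rfl⟩ : ∃ M, L = M + 1 := ⟨L - 1, by have := h.pos; omega⟩
    rw [e1, e2, Nat.add_sub_cancel, show i + M * c + c = i + (M + 1) * c by ring,
      show i + M * c + 1 + c = i + 1 + (M + 1) * c by ring, h.per_mul, h.per_mul] at this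
    exact this
  · intro hx i _
    have := hx ((i + c) % L) (Nat.mod_lt _ h.pos)
    rwa [h.per_mod, h.per_mod', Nat.add_right_comm] at this

theorem cov : Cov {x | ∀ i < L, x ∉ segment ℝ (q i) (q (i + 1))} (ret q L + 2) := by
  classical
  obtain ⟨T, h1, h2⟩ := cov_path q L (fun i _ => h.ne i)
    (fun i hi j hj => h.meet i j (mod_ne hj (by omega)).symm)
  have e : {x | x ≠ q 0 ∧ ∀ i < L, x ∉ segment ℝ (q i) (q (i + 1))} =
      {x | ∀ i < L, x ∉ segment ℝ (q i) (q (i + 1))} := by
    ext x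
    refine ⟨fun hx => hx.2, fun hx => ⟨?_, hx⟩⟩
    rintro rfl
    exact hx 0 h.pos (left_mem_segment _ _ _)
  rw [e] at h2
  refine ⟨T, h1.trans ?_, h2⟩
  have : ((Finset.range L).filter fun i => ∃ j ≤ i, q (i + 1) = q j) ⊆
      insert (L - 1) (((Finset.range L).filter fun p => 2 ≤ code q L p).image (· - 1)) := by
    intro i hi
    simp only [Finset.mem_filter, Finset.mem_range, Finset.mem_insert, Finset.mem_image] at hi ⊢
    obtain ⟨a, j, b, c⟩ := hi
    by_cases h' : i = L - 1
    · exact Or.inl h'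
    · exact Or.inr ⟨i + 1, ⟨by omega, two_le_code (r := j) (by omega) (by omega) c.symm⟩, rfl⟩
  have := (Finset.card_le_card this).trans ((Finset.card_insert_le _ _).trans
    (Nat.add_le_add_right Finset.card_image_le 1))
  unfold ret
  omega

theorem best_le_ret (hV : ret q L ≤ 7) (h0 : L = 2 * ret q L ∨ code q L 0 = 0) :
    best (ret q L + 1) ≤ L := by
  by_contra hc
  rw [not_le] at hc
  have h16 : best (ret q L + 1) ≤ 16 := by
    generalize ret q L = V at hV
    interval_cases V <;> decide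
  have h32 : ∀ i, code q L i < 32 := fun i => by
    by_cases h' : 2 ≤ code q L i
    · have := code_two h'; omega
    · omega
  have key := search_sound h32 (fun p _ => code_lt q L p) (fun p hp => h.ok hp) h.fin
  have h2 := h.count_eq
  have h3 := h.pos
  by_cases h1 : L = 2 * ret q L
  · have := key L 0 (by omega)
    have h4 := search_even (V := ret q L) (by omega) hV
    rw [← h1] at h4
    exact absurd (h4.symm.trans this) (by decide)
  · have h5 := h0.resolve_left h1
    obtain ⟨M, rfl⟩ : ∃ M, L = M + 1 := ⟨L - 1, by omega⟩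
    have := key M 1 (by omega)
    rw [num, num, h5] at this
    have h4 := search_odd (L := M) (V := ret q (M + 1)) (by omega) hV hc
    exact absurd (h4.symm.trans this) (by decide)

theorem best_le {n : ℕ} (hn : ∀ m, Cov {x | ∀ i < L, x ∉ segment ℝ (q i) (q (i + 1))} m →
    n + 1 ≤ m) : best n ≤ L := by
  have key : ∀ q' : ℕ → ℂ, Good q' L → (L = 2 * ret q' L ∨ code q' L 0 = 0) →
      n ≤ ret q' L + 1 → best n ≤ L := by
    intro q' h' h0 h1
    have h2 := h'.count_eq
    by_cases h3 : ret q' L ≤ 7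
    · refine le_trans ?_ (h'.best_le_ret h3 h0)
      generalize ret q' L = V at h1 h3
      interval_cases V <;> interval_cases n <;> decide
    · unfold best
      split_ifs with h4
      · interval_cases n <;> simp <;> omega
      · omega
  by_cases h1 : L = 2 * ret q L
  · exact key q h (Or.inl h1) (by have := hn _ h.cov; omega)
  · have h2 := h.count_eq
    obtain ⟨c, hc⟩ := Finset.card_pos.mp
      (show 0 < ((Finset.range L).filter fun p => code q L p = 0).card by omega)
    simp only [Finset.mem_filter, Finset.mem_range] at hc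
    have hs := h.shift c
    refine key _ hs (Or.inr ?_) (by have := hn _ (h.off_eq c ▸ hs.cov); omega)
    rw [code, if_pos h.pos, dif_neg (by simp), if_neg]
    rintro ⟨r, r1, r2, r3⟩
    simp only [zero_add] at r3
    have := code_zero hc.1 hc.2 (Nat.mod_lt (r + c) h.pos) ((h.per_mod _).trans r3)
    have h4 := mod_ne (L := L) (i := c) (j := r + c) (by omega) (by omega)
    rw [this, Nat.mod_eq_of_lt hc.1] at h4
    exact h4 rfl

end Good

theorem vtx_mod (q : List ℂ) (i : ℕ) : vtx q (i % q.length) = vtx q i := by simp [vtx]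

theorem vtx_mod_add (q : List ℂ) (i k : ℕ) : vtx q (i % q.length + k) = vtx q (i + k) := by
  simp [vtx]

theorem good_of {q : List ℂ} {A : Prop} (h : (∀ i < q.length, vtx q i ≠ vtx q (i + 1)) ∧
  (∀ i < q.length, ∀ j < q.length, i ≠ j →
    link q i ∩ link q j ⊆ {vtx q i, vtx q (i + 1)} ∩ {vtx q j, vtx q (j + 1)}) ∧
  (∀ k < q.length, ∀ j < k, ∀ i < j, ¬ (vtx q i = vtx q j ∧ vtx q j = vtx q k)) ∧
  (∀ i < q.length, ∀ j < q.length, i ≠ j → vtx q i = vtx q j →
    Xor (Btw (angIn q i) (angOut q i) (angIn q j)) (Btw (angIn q i) (angOut q i) (angOut q j))) ∧ A)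
    (hq : 0 < q.length) : Good (vtx q) q.length where
  pos := hq
  per i := by simp [vtx]
  ne i := by
    have := h.1 _ (Nat.mod_lt i hq)
    rwa [vtx_mod, vtx_mod_add] at this
  meet i j hij := by
    have := h.2.1 _ (Nat.mod_lt i hq) _ (Nat.mod_lt j hq) hij
    simpa only [link, vtx_mod, vtx_mod_add] using this
  tri i j k a b c e1 e2 := by
    have h3 := h.2.2.1
    rw [← vtx_mod q i, ← vtx_mod q j] at e1
    rw [← vtx_mod q i, ← vtx_mod q k] at e2
    have := Nat.mod_lt i hq
    have := Nat.mod_lt j hq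
    have := Nat.mod_lt k hq
    generalize i % q.length = i at *
    generalize j % q.length = j at *
    generalize k % q.length = k at *
    rcases lt_or_gt_of_ne a with a | a <;> rcases lt_or_gt_of_ne b with b | b <;>
      rcases lt_or_gt_of_ne c with c | c
    · exact h3 k ‹_› j c i a ⟨e1, e1.symm.trans e2⟩
    · exact h3 j ‹_› k c i b ⟨e2, e2.symm.trans e1⟩
    · omega
    · exact h3 j ‹_› i a k b ⟨e2.symm, e1⟩
    · exact h3 k ‹_› i b j a ⟨e1.symm, e2⟩
    · omega
    · exact h3 i ‹_› k b j c ⟨e1.symm.trans e2, e2.symm⟩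
    · exact h3 i ‹_› j a k c ⟨e2.symm.trans e1, e1.symm⟩
  cross i j hij e := by
    have hin : ∀ i, angIn q ((i + 1) % q.length) = (vtx q i - vtx q (i + 1)).arg := fun i => by
      rw [angIn, vtx_mod, Nat.add_sub_assoc hq, vtx_mod_add,
        show i + 1 + (q.length - 1) = i + q.length by omega]
      simp [vtx]
    have hout : ∀ i, angOut q ((i + 1) % q.length) = (vtx q (i + 2) - vtx q (i + 1)).arg :=
      fun i => by rw [angOut, vtx_mod, vtx_mod_add]
    have := h.2.2.2.1 _ (Nat.mod_lt (i + 1) hq) _ (Nat.mod_lt (j + 1) hq)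
      (fun e => hij (Nat.ModEq.add_right_cancel' 1 e)) (by rwa [vtx_mod, vtx_mod])
    rwa [hin, hin, hout, hout] at this

/-- There is an unbounded component. -/
theorem exists_unbounded (q : List ℂ) :
    ∃ x ∈ off q, ¬ Bornology.IsBounded (connectedComponentIn (off q) x) := by
  obtain ⟨R, hR⟩ : ∃ R : ℝ, ∀ i < q.length + 1, (vtx q i).re ≤ R :=
    ⟨∑ i ∈ Finset.range (q.length + 1), |(vtx q i).re|, fun i hi => (le_abs_self _).trans
      (Finset.single_le_sum (f := fun i => |(vtx q i).re|) (fun _ _ => abs_nonneg _)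
        (Finset.mem_range.mpr hi))⟩
  have hsub : {z : ℂ | R < z.re} ⊆ off q := fun z hz i hi hz' =>
    not_le.mpr (show R < z.re from hz) (show z.re ≤ R from
      (convex_halfSpace_re_le R).segment_subset (hR i (by omega)) (hR (i + 1) (by omega)) hz')
  have hx : ((R + 1 : ℝ) : ℂ) ∈ {z : ℂ | R < z.re} := by simp
  refine ⟨_, hsub hx, fun hb => ?_⟩
  obtain ⟨C, hC⟩ := isBounded_iff_forall_norm_le.mp (hb.subset
    ((convex_halfSpace_re_gt R).isPreconnected.subset_connectedComponentIn hx hsub))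
  have := hC ((|R| + |C| + 1 : ℝ) : ℂ) (by
    simp only [mem_ofPred_eq, Complex.ofReal_re]
    linarith [le_abs_self R, abs_nonneg C])
  rw [Complex.norm_real, Real.norm_eq_abs, abs_of_pos (by positivity)] at this
  linarith [le_abs_self C, abs_nonneg R]

theorem IsSona.best_le {P q : List ℂ} (h : IsSona P q) (hP : P.Nodup) (hne : P ≠ []) :
    best P.length ≤ q.length := by
  classical
  obtain ⟨x, hx, hx'⟩ := exists_unbounded q
  have hq : 0 < q.length := by
    by_contra h0
    obtain ⟨p, hp⟩ := List.exists_mem_of_ne_nil P hne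
    have e : off q = univ := eq_univ_of_forall (fun y i hi => by omega)
    have := (h.2.2.2.2.1 p hp).2
    rw [e, connectedComponentIn_univ, PreconnectedSpace.connectedComponent_eq_univ] at this hx'
    exact hx' this
  refine (good_of h hq).best_le (fun m hm => ?_)
  have hxP : x ∉ P.toFinset := fun hp => hx' (h.2.2.2.2.1 x (List.mem_toFinset.mp hp)).2
  have := hm.card_le (insert x P.toFinset) (fun y hy => by
      rcases Finset.mem_insert.mp hy with rfl | hy
      · exact hx
      · exact (h.2.2.2.2.1 y (List.mem_toFinset.mp hy)).1) (fun y hy z hz hyz => by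
      change z ∈ connectedComponentIn (off q) y at hyz
      rw [Finset.mem_insert] at hy hz
      rcases hy with rfl | hy <;> rcases hz with rfl | hz
      · rfl
      · exact absurd (connectedComponentIn_eq hyz ▸ (h.2.2.2.2.1 z (List.mem_toFinset.mp hz)).2) hx'
      · exact absurd (connectedComponentIn_eq hyz ▸ (h.2.2.2.2.1 y (List.mem_toFinset.mp hy)).2) hx'
      · have hy' := h.2.2.2.2.1 y (List.mem_toFinset.mp hy)
        exact (h.2.2.2.2.2 y hy'.1 hy'.2).unique
          ⟨List.mem_toFinset.mp hy, mem_connectedComponentIn hy'.1⟩ ⟨List.mem_toFinset.mp hz, hyz⟩)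
  rwa [Finset.card_insert_of_notMem hxP, List.toFinset_card_of_nodup hP] at this

end Pool.Agent.MP_b0ee3d_lc

end

section

set_option autoImplicit false

/-! Combinatorial layouts and their geometric realisation. -/

namespace Pool.Agent.MP_b0ee3d_lc

open Set Complex Real

/-- slot, level, above or below -/
abbrev R := ℕ × ℕ × Bool

/-- previous, current, next, colour -/
abbrev Q := R × R × R × Bool

def ls (a b : R) : Bool := Nat.blt a.1 b.1
def ll (a b : R) : Bool := Nat.blt a.2.1 b.2.1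
def same (a b : R) : Bool := !(ll a b || ll b a)
def eqb (a b : Bool) : Bool := cond a b (!b)
def ori1 (a b c : R) : Bool :=
  cond (ls b c) a.2.2 (cond (ls c b) (!a.2.2) (cond (ll c b) (eqb b.2.2 (ls b a)) (eqb c.2.2 (ls a c))))
def ori (a b c : R) : Bool :=
  cond (ll b a && ll c a) (ori1 a b c) (cond (ll c b) (ori1 b c a) (ori1 c a b))
def maj (a b c : Bool) : Bool := (a && b) || (b && c) || (a && c)
def cyc (p x y z : R) : Bool := maj (ori p x y) (ori p y z) (ori p z x)
def sepB (a b c d : R) : Bool :=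
  cond (same a c) (!same b d) (cond (same a d) (!same b c) (same b c || same b d ||
    eqb (ori a b c) (ori a b d) || eqb (ori c d a) (ori c d b)))
def crossB (p a b c d : R) : Bool :=
  !same a b && !same a c && !same a d && !same b c && !same b d && !same c d &&
    !eqb (cyc p a c b) (cyc p a d b)
def twoB (x y : Q) : Bool :=
  cond (same x.2.1 y.2.1) (!ls x.2.1 y.2.1 && !ls y.2.1 x.2.1 && eqb x.2.1.2.2 y.2.1.2.2 &&
    !eqb x.2.2.2 y.2.2.2 && crossB x.2.1 x.1 x.2.2.1 y.1 y.2.2.1)
    (ls x.2.1 y.2.1 || ls y.2.1 x.2.1) && sepB x.2.1 x.2.2.1 y.2.1 y.2.2.1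
def dot (j : ℕ) : R := (8 * j + 4, 0, false)
def kw (a b d : R) : ℤ := kk a.2.2 b.2.2 (ori a b d)
def prs {α : Type} (l : List α) : List (α × α) := l.zip (l.tail ++ l.take 1)
def windL (l : List R) (d : R) : ℤ := ((prs l).map fun e => kw e.1 e.2 d).sum

theorem eqb_iff {a b : Bool} : eqb a b = true ↔ a = b := by cases a <;> cases b <;> simp [eqb]

theorem same_iff {a b : R} : same a b = true ↔ a.2.1 = b.2.1 := by
  simp only [same, ll, Bool.not_eq_true', ← Bool.not_eq_true, Bool.or_eq_true, Nat.blt_eq]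
  omega

theorem same_false {a b : R} : same a b = false ↔ a.2.1 ≠ b.2.1 := by
  rw [← Bool.not_eq_true, same_iff]

theorem prs_fst {α : Type} (l : List α) : (prs l).map Prod.fst = l :=
  List.map_fst_zip (by cases l <;> simp)

theorem prs_snd {α : Type} (l : List α) : ((prs l).map Prod.snd).Perm l := by
  rw [prs, List.map_snd_zip (by cases l <;> simp)]
  cases l with
  | nil => simp
  | cons a l => simp

theorem prs_map {α β : Type} (f : α → β) (l : List α) :
    prs (l.map f) = (prs l).map (Prod.map f f) := by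
  simp [prs, ← List.zip_map, List.map_take]

/-- A correct layout for `n` dots with `L` links. -/
structure Valid (n L : ℕ) (τ : ℕ → Q) : Prop where
  pos : 0 < L
  chain : ∀ p < L, (τ p).2.2.1 = (τ ((p + 1) % L)).2.1 ∧ (τ p).2.1 = (τ ((p + 1) % L)).1
  one : ∀ p < L, (τ p).2.1.1 < 8 * n ∧ 0 < (τ p).2.1.2.1 ∧ same (τ p).2.1 (τ p).2.2.1 = false
  two : ∀ p < L, ∀ p' < L, p ≠ p' → twoB (τ p) (τ p') = true ∨ twoB (τ p') (τ p) = true
  cnt : ∃ B : Finset ℕ, (∀ p ∈ B, p < L ∧ ∀ p' < L, p' ≠ p → same (τ p).2.1 (τ p').2.1 = false) ∧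
    L + 2 ≤ 2 * n + B.card
  dots : ∃ (js : ℕ) (cy : ℕ → List R),
    ∑ p ∈ Finset.range L, kw (τ p).2.1 (τ p).2.2.1 (dot js) ≠ 0 ∧ ∀ j < n, j ≠ js →
      (∀ e ∈ prs (cy j), ∃ p < L, e = ((τ p).2.1, (τ p).2.2.1) ∨ e = ((τ p).2.2.1, (τ p).2.1)) ∧
      windL (cy j) (dot j) ≠ 0 ∧ ∀ j' < n, j' ≠ j → windL (cy j) (dot j') = 0

/-- A placement of the records in the plane. -/
structure Model (n : ℕ) (pt : R → ℂ) (ρ : ℂ) : Prop where
  ori : ∀ a b c : R, a.1 < 8 * n → b.1 < 8 * n → c.1 < 8 * n → a.2.1 ≠ b.2.1 → a.2.1 ≠ c.2.1 →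
    b.2.1 ≠ c.2.1 → a.1 ≠ b.1 → Sg (ori a b c) (det (pt b - pt a) (pt c - pt a))
  up : ∀ (a : R) (j : ℕ), a.1 < 8 * n → 0 < a.2.1 → j < n →
    Sg a.2.2 (ρ * (pt a - pt (dot j))).im
  inj : ∀ a b : R, a.1 < 8 * n → b.1 < 8 * n → a.2.1 ≠ b.2.1 → pt a ≠ pt b

theorem Sg.ne {o : Bool} {r : ℝ} (h : Sg o r) : r ≠ 0 := by
  cases o
  · exact ne_of_lt h
  · exact ne_of_gt h

theorem det_of_mem {a b x : ℂ} (h : x ∈ segment ℝ a b) : det (b - a) (x - a) = 0 := by
  obtain ⟨u, v, -, -, h, rfl⟩ := h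
  obtain rfl : u = 1 - v := by linarith
  simp [det]; ring

theorem seg_symm {a b x : ℂ} (h : x ∈ segment ℝ a b) : x ∈ segment ℝ b a := segment_symm ℝ a b ▸ h

theorem seg_share {a b d x : ℂ} (h : det (b - a) (d - a) ≠ 0) (h1 : x ∈ segment ℝ a b)
    (h2 : x ∈ segment ℝ a d) : x = a := by
  have h3 := det_of_mem h1
  obtain ⟨u, v, -, -, h4, rfl⟩ := h2
  obtain rfl : u = 1 - v := by linarith
  have : v * det (b - a) (d - a) = 0 := by
    rw [← h3]; simp [det]; ring
  rw [(mul_eq_zero.mp this).resolve_right h]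
  simp

theorem seg_disj {a b c d x : ℂ} {o : Bool} (h : Sg o (det (b - a) (c - a)))
    (h' : Sg o (det (b - a) (d - a))) (h1 : x ∈ segment ℝ a b) (h2 : x ∈ segment ℝ c d) : False := by
  have h3 := det_of_mem h1
  obtain ⟨u, v, hu, hv, h4, rfl⟩ := h2
  obtain rfl : u = 1 - v := by linarith
  have : (1 - v) * det (b - a) (c - a) + v * det (b - a) (d - a) = 0 := by
    rw [← h3]; simp [det]; ring
  cases o <;> simp only [Sg, if_true, Bool.false_eq_true, if_false] at h h'
  · rcases hv.eq_or_lt with rfl | hv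
    · simp at this; linarith
    · nlinarith [mul_nonneg hu (neg_pos.mpr h).le, mul_pos hv (neg_pos.mpr h')]
  · rcases hv.eq_or_lt with rfl | hv
    · simp at this; linarith
    · nlinarith [mul_nonneg hu h.le, mul_pos hv h']

theorem det_arg {x y : ℂ} {o : Bool} (h : Sg o (det x y)) :
    if o then (x.arg < y.arg ∧ y.arg < x.arg + π) ∨ y.arg + π < x.arg
    else (y.arg < x.arg ∧ x.arg < y.arg + π) ∨ x.arg + π < y.arg := by
  have hx : x ≠ 0 := by rintro rfl; exact h.ne (by simp [det])
  have hy : y ≠ 0 := by rintro rfl; exact h.ne (by simp [det])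
  obtain ⟨k, hk⟩ := arg_div_int hx hy
  have h1 := im_div_sg h
  have a3 := neg_pi_lt_arg x
  have a4 := arg_le_pi x
  have a5 := neg_pi_lt_arg y
  have a6 := arg_le_pi y
  cases o
  · obtain ⟨b1, b2⟩ := arg_of_neg h1
    simp only [Bool.false_eq_true, if_false]
    by_cases hc : y.arg < x.arg
    · have : k = 0 := by apply int_eq_of <;> push_cast <;> linarith
      rw [this] at hk
      left; constructor <;> simp at hk <;> linarith
    · have : k = -1 := by apply int_eq_of <;> push_cast <;> linarith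
      rw [this] at hk
      right; push_cast at hk; linarith
  · obtain ⟨b1, b2⟩ := arg_of_pos h1
    simp only [if_true]
    by_cases hc : x.arg < y.arg
    · have : k = 0 := by apply int_eq_of <;> push_cast <;> linarith
      rw [this] at hk
      left; constructor <;> simp at hk <;> linarith
    · have : k = 1 := by apply int_eq_of <;> push_cast <;> linarith
      rw [this] at hk
      right; push_cast at hk; linarith

theorem btw_maj {a c b : ℂ} {o1 o2 o3 : Bool} (h1 : Sg o1 (det a c)) (h2 : Sg o2 (det c b))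
    (h3 : Sg o3 (det b a)) : Btw a.arg b.arg c.arg ↔ (maj o1 o2 o3 = true ↔ a.arg < b.arg) := by
  have e1 := det_arg h1
  have e2 := det_arg h2
  have e3 := det_arg h3
  have a1 := neg_pi_lt_arg a
  have a2 := arg_le_pi a
  have a3 := neg_pi_lt_arg b
  have a4 := arg_le_pi b
  have a5 := neg_pi_lt_arg c
  have a6 := arg_le_pi c
  unfold Btw
  generalize a.arg = α at *
  generalize b.arg = β at *
  generalize c.arg = γ at *
  generalize π = P at *
  cases o1 <;> cases o2 <;> cases o3 <;> simp only [maj] at * <;> grind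

theorem arg_ne_det {x y : ℂ} {o : Bool} (h : Sg o (det x y)) : x.arg ≠ y.arg := by
  have := det_arg h
  have := Real.pi_pos
  cases o <;> grind

theorem xor_swap {a b c d : ℝ} (h1 : a ≠ c) (h2 : a ≠ d) (h3 : b ≠ c) (h4 : b ≠ d)
    (h : Xor (Btw a b c) (Btw a b d)) : Xor (Btw c d a) (Btw c d b) := by
  unfold Btw Xor at *
  grind

theorem sum_succ_mod {L : ℕ} (f : ℕ → ℝ) :
    ∑ p ∈ Finset.range L, f ((p + 1) % L) = ∑ p ∈ Finset.range L, f p := by
  rcases L with _ | L
  · simp
  · rw [Finset.sum_range_succ, Finset.sum_range_succ', Nat.mod_self]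
    congr 1
    exact Finset.sum_congr rfl fun p hp => by
      rw [Nat.mod_eq_of_lt (by simpa using hp)]

theorem det_cyc (a b x : ℂ) : det (a - x) (b - x) = det (b - a) (x - a) := by
  simp [det]; ring

namespace Valid

variable {n L : ℕ} {τ : ℕ → Q} (h : Valid n L τ) {pt : R → ℂ} {ρ : ℂ} (M : Model n pt ρ)

/-- records of vertices -/
def V (L : ℕ) (τ : ℕ → Q) (a : R) : Prop := ∃ p < L, (τ p).2.1 = a

include h

theorem V_next {p : ℕ} (hp : p < L) : V L τ (τ p).2.2.1 :=
  ⟨_, Nat.mod_lt _ h.pos, (h.chain p hp).1.symm⟩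

theorem prev_eq {p : ℕ} (hp : p < L) : (τ p).1 = (τ ((p + L - 1) % L)).2.1 ∧
    (τ p).2.1 = (τ ((p + L - 1) % L)).2.2.1 := by
  have := h.chain _ (Nat.mod_lt (p + L - 1) h.pos)
  rw [Nat.mod_add_mod, show p + L - 1 + 1 = p + L by omega, Nat.add_mod_right,
    Nat.mod_eq_of_lt hp] at this
  exact ⟨this.2.symm, this.1.symm⟩

theorem V_prev {p : ℕ} (hp : p < L) : V L τ (τ p).1 :=
  ⟨_, Nat.mod_lt _ h.pos, (h.prev_eq hp).1.symm⟩

theorem V_lt {a : R} (ha : V L τ a) : a.1 < 8 * n ∧ 0 < a.2.1 := by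
  obtain ⟨p, hp, rfl⟩ := ha
  exact ⟨(h.one p hp).1, (h.one p hp).2.1⟩

theorem gp {a b : R} (ha : V L τ a) (hb : V L τ b) :
    (same a b = true → a = b) ∧ (same a b = false → a.1 ≠ b.1) := by
  have key : ∀ x y : Q, twoB x y = true → (same x.2.1 y.2.1 = true → x.2.1 = y.2.1) ∧
      (same x.2.1 y.2.1 = false → x.2.1.1 ≠ y.2.1.1) := by
    intro x y hxy
    rw [twoB, Bool.and_eq_true] at hxy
    refine ⟨fun hs => ?_, fun hs => ?_⟩
    · have := hxy.1
      simp only [hs, cond_true, Bool.and_eq_true, eqb_iff, ls, Bool.not_eq_true',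
        ← Bool.not_eq_true, Nat.blt_eq] at this
      exact Prod.ext (by omega) (Prod.ext (same_iff.mp hs) this.1.1.2)
    · have := hxy.1
      simp only [hs, cond_false, Bool.or_eq_true, ls, Nat.blt_eq] at this
      omega
  obtain ⟨p, hp, rfl⟩ := ha
  obtain ⟨p', hp', rfl⟩ := hb
  by_cases e : p = p'
  · subst e
    exact ⟨fun _ => rfl, fun h' => absurd rfl (same_false.mp h')⟩
  rcases h.two p hp p' hp' e with h1 | h1
  · exact key _ _ h1
  · exact ⟨fun hs => ((key _ _ h1).1 (same_iff.mpr (same_iff.mp hs).symm)).symm,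
      fun hs => ((key _ _ h1).2 (same_false.mpr (same_false.mp hs).symm)).symm⟩

include M

theorem det_sg {a b c : R} (ha : V L τ a) (hb : V L τ b) (hc : V L τ c) (h1 : same a b = false)
    (h2 : same a c = false) (h3 : same b c = false) :
    Sg (ori a b c) (det (pt b - pt a) (pt c - pt a)) :=
  M.ori a b c (h.V_lt ha).1 (h.V_lt hb).1 (h.V_lt hc).1 (same_false.mp h1) (same_false.mp h2)
    (same_false.mp h3) ((h.gp ha hb).2 h1)

theorem det_dot {a b : R} (ha : V L τ a) (hb : V L τ b) (h1 : same a b = false) {j : ℕ}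
    (hj : j < n) : Sg (ori a b (dot j)) (det (pt b - pt a) (pt (dot j) - pt a)) :=
  M.ori a b _ (h.V_lt ha).1 (h.V_lt hb).1 (by simp only [dot]; omega) (same_false.mp h1)
    (h.V_lt ha).2.ne' (h.V_lt hb).2.ne' ((h.gp ha hb).2 h1)

theorem det_dot' {a b : R} (ha : V L τ a) (hb : V L τ b) (h1 : same a b = false) {j : ℕ}
    (hj : j < n) : Sg (ori a b (dot j)) (det (pt a - pt (dot j)) (pt b - pt (dot j))) := by
  rw [det_cyc]
  exact h.det_dot M ha hb h1 hj

theorem same_of_eq {a b : R} (ha : V L τ a) (hb : V L τ b) (e : pt a = pt b) : same a b = true := by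
  by_contra hs
  exact M.inj a b (h.V_lt ha).1 (h.V_lt hb).1 (fun e' => hs (same_iff.mpr e')) e

theorem sep {a b c d : R} (ha : V L τ a) (hb : V L τ b) (hc : V L τ c) (hd : V L τ d)
    (hab : same a b = false) (hcd : same c d = false) (hs : sepB a b c d = true) :
    segment ℝ (pt a) (pt b) ∩ segment ℝ (pt c) (pt d) ⊆ {pt a, pt b} ∩ {pt c, pt d} := by
  have sy : ∀ {a b : R}, same a b = false → same b a = false := fun h =>
    same_false.mpr (same_false.mp h).symm
  rintro x ⟨h1, h2⟩
  unfold sepB at hs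
  cases h3 : same a c
  swap
  · obtain rfl := (h.gp ha hc).1 h3
    simp only [h3, cond_true, Bool.not_eq_true'] at hs
    rw [seg_share (h.det_sg M ha hb hd hab hcd hs).ne h1 h2]
    simp
  cases h4 : same a d
  swap
  · obtain rfl := (h.gp ha hd).1 h4
    simp only [h3, h4, cond_true, cond_false, Bool.not_eq_true'] at hs
    rw [seg_share (h.det_sg M ha hb hc hab h3 hs).ne h1 (seg_symm h2)]
    simp
  cases h5 : same b c
  swap
  · obtain rfl := (h.gp hb hc).1 h5
    rw [seg_share (h.det_sg M hb ha hd (sy hab) hcd h4).ne (seg_symm h1) h2]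
    simp
  cases h6 : same b d
  swap
  · obtain rfl := (h.gp hb hd).1 h6
    rw [seg_share (h.det_sg M hb ha hc (sy hab) h5 h3).ne (seg_symm h1)
      (seg_symm h2)]
    simp
  simp only [h3, h4, h5, h6, cond_false, Bool.false_or, Bool.or_eq_true, eqb_iff] at hs
  exfalso
  rcases hs with hs | hs
  · exact seg_disj (h.det_sg M ha hb hc hab h3 h5) (hs ▸ h.det_sg M ha hb hd hab h4 h6) h1 h2
  · exact seg_disj (h.det_sg M hc hd ha hcd (sy h3) (sy h4))
      (hs ▸ h.det_sg M hc hd hb hcd (sy h5) (sy h6)) h2 h1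

theorem cross {p a b c d : R} (hp : V L τ p) (ha : V L τ a) (hb : V L τ b) (hc : V L τ c)
    (hd : V L τ d) (h1 : same p a = false) (h2 : same p b = false) (h3 : same p c = false)
    (h4 : same p d = false) (hs : crossB p a b c d = true) :
    Xor (Btw (pt a - pt p).arg (pt b - pt p).arg (pt c - pt p).arg)
      (Btw (pt a - pt p).arg (pt b - pt p).arg (pt d - pt p).arg) ∧
    Xor (Btw (pt c - pt p).arg (pt d - pt p).arg (pt a - pt p).arg)
      (Btw (pt c - pt p).arg (pt d - pt p).arg (pt b - pt p).arg) := by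
  have sy : ∀ {a b : R}, same a b = false → same b a = false := fun h =>
    same_false.mpr (same_false.mp h).symm
  simp only [crossB, Bool.and_eq_true, Bool.not_eq_true'] at hs
  obtain ⟨⟨⟨⟨⟨⟨ab, ac⟩, ad⟩, bc⟩, bd⟩, -⟩, hs⟩ := hs
  have e1 := h.det_sg M hp ha hc h1 h3 ac
  have e2 := h.det_sg M hp hc hb h3 h2 (sy bc)
  have e3 := h.det_sg M hp hb ha h2 h1 (sy ab)
  have e4 := h.det_sg M hp ha hd h1 h4 ad
  have e5 := h.det_sg M hp hd hb h4 h2 (sy bd)
  have key : Xor (Btw (pt a - pt p).arg (pt b - pt p).arg (pt c - pt p).arg)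
      (Btw (pt a - pt p).arg (pt b - pt p).arg (pt d - pt p).arg) := by
    rw [btw_maj e1 e2 e3, btw_maj e4 e5 e3]
    rw [← Bool.not_eq_true, eqb_iff] at hs
    unfold cyc at hs
    revert hs
    cases maj (ori p a c) (ori p c b) (ori p b a) <;> cases maj (ori p a d) (ori p d b) (ori p b a) <;>
      simp [Xor] <;> exact le_or_gt _ _ |>.symm.imp id id |> fun h => by tauto
  exact ⟨key, xor_swap (arg_ne_det e1) (arg_ne_det e4) (arg_ne_det e2).symm (arg_ne_det e5).symm key⟩

theorem isSona : IsSona ((List.range n).map fun j => pt (dot j))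
    ((List.range L).map fun p => pt (τ p).2.1) := by
  classical
  set q := (List.range L).map fun p => pt (τ p).2.1 with hq
  have hL : q.length = L := by simp [hq]
  have hv : ∀ i, vtx q i = pt (τ (i % L)).2.1 := fun i => by
    have := Nat.mod_lt i h.pos
    rw [vtx, hL, List.getD_eq_getElem _ _ (by rwa [hL])]
    simp [hq]
  have hv0 : ∀ i < L, vtx q i = pt (τ i).2.1 := fun i hi => by rw [hv, Nat.mod_eq_of_lt hi]
  have hv1 : ∀ i < L, vtx q (i + 1) = pt (τ i).2.2.1 := fun i hi => by rw [hv, (h.chain i hi).1]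
  have hv2 : ∀ i < L, vtx q (i + L - 1) = pt (τ i).1 := fun i hi => by rw [hv, (h.prev_eq hi).1]
  have hV : ∀ i < L, V L τ (τ i).2.1 := fun i hi => ⟨i, hi, rfl⟩
  have sy : ∀ {a b : R}, same a b = false → same b a = false := fun h =>
    same_false.mpr (same_false.mp h).symm
  have hprev : ∀ i < L, same (τ i).2.1 (τ i).1 = false := fun i hi => by
    rw [(h.prev_eq hi).1, (h.prev_eq hi).2]
    exact sy (h.one _ (Nat.mod_lt _ h.pos)).2.2
  have hcol : ∀ i < L, ∀ j < L, i ≠ j → vtx q i = vtx q j → (τ i).2.2.2 ≠ (τ j).2.2.2 := by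
    intro i hi j hj hij e
    rw [hv0 i hi, hv0 j hj] at e
    have e1 := h.same_of_eq M (hV i hi) (hV j hj) e
    have e2 := h.same_of_eq M (hV j hj) (hV i hi) e.symm
    rcases h.two i hi j hj hij with h1 | h1 <;>
      simp only [twoB, e1, e2, cond_true, Bool.and_eq_true, Bool.not_eq_true', ← Bool.not_eq_true,
        eqb_iff] at h1
    · exact h1.1.1.2
    · exact fun e => h1.1.1.2 e.symm
  have hcurve : (∀ i < q.length, vtx q i ≠ vtx q (i + 1)) ∧
      (∀ i < q.length, ∀ j < q.length, i ≠ j →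
        link q i ∩ link q j ⊆ {vtx q i, vtx q (i + 1)} ∩ {vtx q j, vtx q (j + 1)}) ∧
      (∀ k < q.length, ∀ j < k, ∀ i < j, ¬ (vtx q i = vtx q j ∧ vtx q j = vtx q k)) ∧
      (∀ i < q.length, ∀ j < q.length, i ≠ j → vtx q i = vtx q j →
        Xor (Btw (angIn q i) (angOut q i) (angIn q j)) (Btw (angIn q i) (angOut q i) (angOut q j))) ∧
      True := by
    rw [hL]
    refine ⟨fun i hi e => ?_, fun i hi j hj hij => ?_, fun k hk j hj i hi e => ?_,
      fun i hi j hj hij e => ?_, trivial⟩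
    · rw [hv0 i hi, hv1 i hi] at e
      have := h.same_of_eq M (hV i hi) (h.V_next hi) e
      rw [(h.one i hi).2.2] at this
      exact absurd this (by decide)
    · simp only [link, hv0 i hi, hv1 i hi, hv0 j hj, hv1 j hj]
      rcases h.two i hi j hj hij with h1 | h1 <;> rw [twoB, Bool.and_eq_true] at h1
      · exact h.sep M (hV i hi) (h.V_next hi) (hV j hj) (h.V_next hj) (h.one i hi).2.2
          (h.one j hj).2.2 h1.2
      · rw [inter_comm, inter_comm ({_, _} : Set ℂ)]
        exact h.sep M (hV j hj) (h.V_next hj) (hV i hi) (h.V_next hi) (h.one j hj).2.2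
          (h.one i hi).2.2 h1.2
    · have a1 := hcol i (by omega) j (by omega) (by omega) e.1
      have a2 := hcol j (by omega) k hk (by omega) e.2
      have a3 := hcol i (by omega) k hk (by omega) (e.1.trans e.2)
      revert a1 a2 a3
      cases (τ i).2.2.2 <;> cases (τ j).2.2.2 <;> cases (τ k).2.2.2 <;> simp
    · simp only [angIn, angOut, hL, hv0 i hi, hv1 i hi, hv0 j hj, hv1 j hj, hv2 i hi, hv2 j hj]
      rw [hv0 i hi, hv0 j hj] at e
      have e1 := h.same_of_eq M (hV i hi) (hV j hj) e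
      have e2 := h.same_of_eq M (hV j hj) (hV i hi) e.symm
      have e3 := (h.gp (hV i hi) (hV j hj)).1 e1
      rcases h.two i hi j hj hij with h1 | h1 <;>
        simp only [twoB, e1, e2, cond_true, Bool.and_eq_true] at h1
      · rw [← e3]
        exact (h.cross M (hV i hi) (h.V_prev hi) (h.V_next hi) (h.V_prev hj) (h.V_next hj)
          (hprev i hi) (h.one i hi).2.2 (e3 ▸ hprev j hj) (e3 ▸ (h.one j hj).2.2) h1.1.2).1
      · rw [e3]
        exact (h.cross M (hV j hj) (h.V_prev hj) (h.V_next hj) (h.V_prev hi) (h.V_next hi)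
          (hprev j hj) (h.one j hj).2.2 (e3 ▸ hprev i hi) (e3 ▸ (h.one i hi).2.2) h1.1.2).2
  have hg := good_of hcurve (by rw [hL]; exact h.pos)
  have hoff : ∀ x, x ∈ off q ↔ ∀ p < L, x ∉ segment ℝ (pt (τ p).2.1) (pt (τ p).2.2.1) := by
    intro x
    simp only [off, mem_ofPred_eq, hL, link]
    exact forall₂_congr fun i hi => by rw [hv0 i hi, hv1 i hi]
  have hdot : ∀ j < n, pt (dot j) ∈ off q := fun j hj => (hoff _).mpr fun p hp hx =>
    (h.det_dot M (hV p hp) (h.V_next hp) (h.one p hp).2.2 hj).ne (det_of_mem hx)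
  obtain ⟨js, cy, d1, d2⟩ := h.dots
  -- short cycles
  have short : ∀ j < n, j ≠ js → ∃ f : ℂ → ℝ, (∀ x ∈ off q, ∀ y ∈ connectedComponentIn (off q) x,
      f y = f x) ∧ (∀ x ∈ off q, ¬ Bornology.IsBounded (connectedComponentIn (off q) x) → f x = 0) ∧
      ∀ j' < n, f (pt (dot j')) = 2 * π * windL (cy j) (dot j') := by
    intro j hj hjs
    have hE : ∀ k : Fin (prs (cy j)).length, V L τ (prs (cy j))[k.1].1 ∧ V L τ (prs (cy j))[k.1].2 ∧
        same (prs (cy j))[k.1].1 (prs (cy j))[k.1].2 = false ∧ ∀ x ∈ off q,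
        x ∉ segment ℝ (pt (prs (cy j))[k.1].1) (pt (prs (cy j))[k.1].2) := by
      intro k
      obtain ⟨p, hp, e | e⟩ := (d2 j hj hjs).1 _ (List.getElem_mem k.2) <;> rw [e]
      · exact ⟨hV p hp, h.V_next hp, (h.one p hp).2.2, fun x hx => (hoff x).mp hx p hp⟩
      · exact ⟨h.V_next hp, hV p hp, sy (h.one p hp).2.2,
          fun x hx hx' => (hoff x).mp hx p hp (seg_symm hx')⟩
    have hc : Cyc Finset.univ (fun k : Fin (prs (cy j)).length => pt (prs (cy j))[k.1].1)
        (fun k => pt (prs (cy j))[k.1].2) := fun f => by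
      rw [Fin.sum_univ_fun_getElem (prs (cy j)) (fun e => f (pt e.2)),
        Fin.sum_univ_fun_getElem (prs (cy j)) (fun e => f (pt e.1))]
      have := ((prs_snd (cy j)).map (fun a => f (pt a))).sum_eq
      conv_rhs at this => rw [← prs_fst (cy j)]
      simpa only [List.map_map, Function.comp_def] using this
    refine ⟨om Finset.univ _ _, fun x hx y hy => om_const hc isPreconnected_connectedComponentIn
      (fun z hz k _ => (hE k).2.2.2 z (connectedComponentIn_subset _ _ hz)) hy
      (mem_connectedComponentIn hx), fun x hx hb => om_unbounded hc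
      isPreconnected_connectedComponentIn
      (fun z hz k _ => (hE k).2.2.2 z (connectedComponentIn_subset _ _ hz)) hb
      (mem_connectedComponentIn hx), fun j' hj' => ?_⟩
    rw [om_kk hc (fun k _ => M.up _ j' (h.V_lt (hE k).1).1 (h.V_lt (hE k).1).2 hj')
      (fun k _ => M.up _ j' (h.V_lt (hE k).2.1).1 (h.V_lt (hE k).2.1).2 hj')
      (fun k _ => h.det_dot' M (hE k).1 (hE k).2.1 (hE k).2.2.1 hj'), windL,
      ← Fin.sum_univ_fun_getElem]
    rfl
  have hp2 : (2 * π : ℝ) ≠ 0 := by positivity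
  have hbd : ∀ j < n, Bornology.IsBounded (connectedComponentIn (off q) (pt (dot j))) := by
    intro j hj
    by_contra hb
    by_cases hjs : j = js
    · subst hjs
      have hc : Cyc (Finset.range L) (fun p => pt (τ p).2.1) (fun p => pt (τ p).2.2.1) := fun f => by
        rw [← sum_succ_mod (fun p => f (pt (τ p).2.1))]
        exact Finset.sum_congr rfl fun p hp => by rw [← (h.chain p (Finset.mem_range.mp hp)).1]
      have h1 := om_unbounded hc isPreconnected_connectedComponentIn (fun z hz k hk =>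
        (hoff z).mp (connectedComponentIn_subset _ _ hz) k (Finset.mem_range.mp hk)) hb
        (mem_connectedComponentIn (hdot j hj))
      rw [om_kk hc (fun k hk => M.up _ j (h.one k (Finset.mem_range.mp hk)).1
          (h.one k (Finset.mem_range.mp hk)).2.1 hj)
        (fun k hk => M.up _ j (h.V_lt (h.V_next (Finset.mem_range.mp hk))).1
          (h.V_lt (h.V_next (Finset.mem_range.mp hk))).2 hj)
        (fun k hk => h.det_dot' M (hV k (Finset.mem_range.mp hk))
          (h.V_next (Finset.mem_range.mp hk)) (h.one k (Finset.mem_range.mp hk)).2.2 hj)] at h1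
      exact d1 (by exact_mod_cast (mul_eq_zero.mp h1).resolve_left hp2)
    · obtain ⟨f, -, f2, f3⟩ := short j hj hjs
      have h1 := f2 _ (hdot j hj) hb
      rw [f3 j hj] at h1
      exact (d2 j hj hjs).2.1 (by exact_mod_cast (mul_eq_zero.mp h1).resolve_left hp2)
  have hsep : ∀ j < n, ∀ j' < n, pt (dot j') ∈ connectedComponentIn (off q) (pt (dot j)) →
      j = j' := by
    have key : ∀ j < n, ∀ j' < n, j ≠ js →
        pt (dot j') ∈ connectedComponentIn (off q) (pt (dot j)) → j = j' := by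
      intro j hj j' hj' hjs hm
      by_contra hne
      obtain ⟨f, f1, -, f3⟩ := short j hj hjs
      have h1 := f1 _ (hdot j hj) _ hm
      rw [f3 j hj, f3 j' hj', (d2 j hj hjs).2.2 j' hj' (Ne.symm hne)] at h1
      apply (d2 j hj hjs).2.1
      exact_mod_cast (mul_left_cancel₀ hp2 h1).symm
    intro j hj j' hj' hm
    by_cases hjs : j = js
    · by_contra hne
      refine hne (key j' hj' j hj (fun e => hne (hjs.trans e.symm)) ?_).symm
      rw [← connectedComponentIn_eq hm]
      exact mem_connectedComponentIn (hdot j hj)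
    · exact key j hj j' hj' hjs hm
  refine ⟨hcurve.1, hcurve.2.1, hcurve.2.2.1, hcurve.2.2.2.1, fun p hp => ?_, fun x hx hb => ?_⟩
  · simp only [List.mem_map, List.mem_range] at hp
    obtain ⟨j, hj, rfl⟩ := hp
    exact ⟨hdot j hj, hbd j hj⟩
  have hex : ∃ j < n, pt (dot j) ∈ connectedComponentIn (off q) x := by
    by_contra hno
    push Not at hno
    obtain ⟨y, hy, hy'⟩ := exists_unbounded q
    obtain ⟨B, b1, b2⟩ := h.cnt
    have c1 := hg.count_eq
    have c2 : B.card ≤ ((Finset.range q.length).filter fun p => code (vtx q) q.length p = 0).card := by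
      refine Finset.card_le_card fun p hp => ?_
      obtain ⟨a1, a2⟩ := b1 p hp
      have a3 : ∀ r < L, r ≠ p → vtx q r ≠ vtx q p := fun r hr hne e => by
        rw [hv0 r hr, hv0 p a1] at e
        have := h.same_of_eq M (hV p a1) (hV r hr) e.symm
        rw [a2 r hr hne] at this
        exact absurd this (by decide)
      rw [Finset.mem_filter, Finset.mem_range, hL, code, if_pos a1, dif_neg, if_neg]
      · exact ⟨a1, rfl⟩
      · rintro ⟨r, r1, r2, r3⟩
        exact a3 r r2 r1.ne' r3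
      · rintro ⟨r, r1, r3⟩
        exact a3 r (by omega) r1.ne r3
    set D := (Finset.range n).image fun j => pt (dot j) with hD
    have hDm : ∀ z ∈ D, ∃ j < n, pt (dot j) = z := fun z hz => by simpa [hD] using hz
    have hxy : x ≠ y := fun e => hy' (e ▸ hb)
    have hxD : x ∉ D := fun hz => by
      obtain ⟨j, hj, rfl⟩ := hDm _ hz
      exact hno j hj (mem_connectedComponentIn hx)
    have hyD : y ∉ D := fun hz => by
      obtain ⟨j, hj, rfl⟩ := hDm _ hz
      exact hy' (hbd j hj)
    have c3 := hg.cov.card_le (insert x (insert y D)) (fun z hz => by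
      simp only [Finset.mem_insert] at hz
      rcases hz with rfl | rfl | hz
      · exact hx
      · exact hy
      · obtain ⟨j, hj, rfl⟩ := hDm _ hz
        exact hdot j hj) (fun z hz z' hz' hm => by
      change z' ∈ connectedComponentIn (off q) z at hm
      have e := connectedComponentIn_eq hm
      simp only [Finset.mem_insert] at hz hz'
      rcases hz with rfl | rfl | hz <;> rcases hz' with rfl | rfl | hz'
      · rfl
      · exact absurd (e ▸ hb) hy'
      · obtain ⟨j, hj, rfl⟩ := hDm _ hz'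
        exact absurd hm (hno j hj)
      · exact absurd (e ▸ hb) hy'
      · rfl
      · obtain ⟨j, hj, rfl⟩ := hDm _ hz'
        exact absurd (e ▸ hbd j hj) hy'
      · obtain ⟨j, hj, rfl⟩ := hDm _ hz
        exact absurd (e ▸ mem_connectedComponentIn (hdot j hj)) (hno j hj)
      · obtain ⟨j, hj, rfl⟩ := hDm _ hz
        exact absurd (e ▸ hbd j hj) hy'
      · obtain ⟨j, hj, rfl⟩ := hDm _ hz
        obtain ⟨j', hj', rfl⟩ := hDm _ hz'
        rw [hsep j hj j' hj' hm])
    rw [Finset.card_insert_of_notMem (by simp [hxy, hxD]), Finset.card_insert_of_notMem hyD, hD,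
      Finset.card_image_of_injOn (fun j hj j' hj' e => hsep j (by simpa using hj) j'
        (by simpa using hj') (by
          rw [← show pt (dot j) = pt (dot j') from e]
          exact mem_connectedComponentIn (hdot j (by simpa using hj)))), Finset.card_range] at c3
    rw [hL] at c1 c2 c3
    omega
  obtain ⟨j, hj, hm⟩ := hex
  refine ⟨pt (dot j), ⟨by simpa using ⟨j, hj, rfl⟩, hm⟩, fun y hy => ?_⟩
  obtain ⟨h1, h2⟩ := hy
  simp only [List.mem_map, List.mem_range] at h1
  obtain ⟨j', hj', rfl⟩ := h1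
  rw [hsep j hj j' hj' (connectedComponentIn_eq hm ▸ h2)]

end Valid

end Pool.Agent.MP_b0ee3d_lc

end

section

set_option autoImplicit false

/-! Placing the records of a layout relative to given dots. -/

namespace Pool.Agent.MP_b0ee3d_lc

open Complex

theorem sg_ori1 {a b c : R} {Sa Sb Sc Ha Hb Hc D : ℝ}
    (bc : b.1 < c.1 → Sb + 1 ≤ Sc) (cb : c.1 < b.1 → Sc + 1 ≤ Sb) (e : b.1 = c.1 → Sb = Sc)
    (ab : a.1 < b.1 → Sa + 1 ≤ Sb) (ba : b.1 < a.1 → Sb + 1 ≤ Sa)
    (d1 : |Sa - Sc| ≤ D) (d2 : |Sb - Sa| ≤ D) (h1 : 2 * D * |Hb| < |Ha|) (h2 : 2 * D * |Hc| < |Ha|)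
    (h3 : c.2.1 < b.2.1 → |Hc| < |Hb| ∧ Sg b.2.2 Hb) (h4 : b.2.1 < c.2.1 → |Hb| < |Hc| ∧ Sg c.2.2 Hc)
    (h5 : Sg a.2.2 Ha) (n1 : b.2.1 ≠ c.2.1) (n2 : b.1 = c.1 → a.1 ≠ b.1) :
    Sg (ori1 a b c) (Ha * (Sc - Sb) + Hb * (Sa - Sc) + Hc * (Sb - Sa)) := by
  have k1 : |Hb * (Sa - Sc) + Hc * (Sb - Sa)| < |Ha| := by
    refine (abs_add_le _ _).trans_lt ?_
    rw [abs_mul, abs_mul]
    nlinarith [mul_le_mul_of_nonneg_left d1 (abs_nonneg Hb),
      mul_le_mul_of_nonneg_left d2 (abs_nonneg Hc)]
  have k2 := abs_lt.mp k1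
  have lsf : ∀ {x y : R}, ¬ x.1 < y.1 → ls x y = false := fun h =>
    Bool.eq_false_iff.mpr (fun e => h (Nat.blt_eq.mp e))
  have lst : ∀ {x y : R}, x.1 < y.1 → ls x y = true := fun h => Nat.blt_eq.mpr h
  unfold ori1
  rcases lt_trichotomy b.1 c.1 with h | h | h
  · have := bc h
    rw [lst h, cond_true]
    revert h5
    cases a.2.2 <;> simp only [Sg, if_true, Bool.false_eq_true, if_false] <;> intro h5
    · rw [abs_of_neg h5] at k2; nlinarith [k2.2]
    · rw [abs_of_pos h5] at k2; nlinarith [k2.1]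
  · have e' := e h
    subst e'
    rw [lsf h.not_lt, lsf h.not_gt, cond_false, cond_false,
      show Ha * (Sb - Sb) + Hb * (Sa - Sb) + Hc * (Sb - Sa) = (Hb - Hc) * (Sa - Sb) by ring]
    rcases lt_or_gt_of_ne n1 with h' | h'
    · have t : ll c b = false := Bool.eq_false_iff.mpr (fun e => h'.not_gt (Nat.blt_eq.mp e))
      obtain ⟨k3, k4⟩ := h4 h'
      have k5 := abs_lt.mp k3
      rw [t, cond_false]
      rcases lt_or_gt_of_ne (n2 h) with h'' | h''
      · have := ab h''
        rw [lst (h ▸ h'')]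
        revert k4
        cases c.2.2 <;> simp only [Sg, eqb, if_true, Bool.false_eq_true, if_false, cond_true,
          cond_false, Bool.not_true] <;> intro k4
        · rw [abs_of_neg k4] at k5; nlinarith [k5.1]
        · rw [abs_of_pos k4] at k5; nlinarith [k5.2]
      · have := ba h''
        rw [lsf (h ▸ h''.not_gt)]
        revert k4
        cases c.2.2 <;> simp only [Sg, eqb, if_true, Bool.false_eq_true, if_false, cond_true,
          cond_false, Bool.not_false] <;> intro k4
        · rw [abs_of_neg k4] at k5; nlinarith [k5.1]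
        · rw [abs_of_pos k4] at k5; nlinarith [k5.2]
    · have t : ll c b = true := Nat.blt_eq.mpr h'
      obtain ⟨k3, k4⟩ := h3 h'
      have k5 := abs_lt.mp k3
      rw [t, cond_true]
      rcases lt_or_gt_of_ne (n2 h) with h'' | h''
      · have := ab h''
        rw [lsf h''.not_gt]
        revert k4
        cases b.2.2 <;> simp only [Sg, eqb, if_true, Bool.false_eq_true, if_false, cond_true,
          cond_false, Bool.not_false] <;> intro k4
        · rw [abs_of_neg k4] at k5; nlinarith [k5.1]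
        · rw [abs_of_pos k4] at k5; nlinarith [k5.2]
      · have := ba h''
        rw [lst h'']
        revert k4
        cases b.2.2 <;> simp only [Sg, eqb, if_true, Bool.false_eq_true, if_false, cond_true,
          cond_false, Bool.not_true] <;> intro k4
        · rw [abs_of_neg k4] at k5; nlinarith [k5.1]
        · rw [abs_of_pos k4] at k5; nlinarith [k5.2]
  · have := cb h
    rw [lsf h.not_gt, lst h, cond_false, cond_true]
    revert h5
    cases a.2.2 <;> simp only [Sg, if_true, Bool.false_eq_true, if_false, Bool.not_true,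
      Bool.not_false] <;> intro h5
    · rw [abs_of_neg h5] at k2; nlinarith [k2.1]
    · rw [abs_of_pos h5] at k2; nlinarith [k2.2]

theorem model_of {n : ℕ} {pt : R → ℂ} {ρ : ℂ} {S H : R → ℝ} {D : ℝ} (hD : 1 ≤ D)
    (hdet : ∀ a b c, det (pt b - pt a) (pt c - pt a) =
      H a * (S c - S b) + H b * (S a - S c) + H c * (S b - S a))
    (him : ∀ a b, (ρ * (pt a - pt b)).im = H a - H b)
    (s1 : ∀ a b : R, b.1 < 8 * n → a.1 < b.1 → S a + 1 ≤ S b)
    (s2 : ∀ a b : R, a.1 = b.1 → S a = S b)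
    (s3 : ∀ a b : R, a.1 < 8 * n → b.1 < 8 * n → |S a - S b| ≤ D)
    (h1 : ∀ a b : R, a.1 < 8 * n → b.1 < 8 * n → a.2.1 < b.2.1 →
      2 * D * |H a| < |H b| ∧ Sg b.2.2 (H b)) : Model n pt ρ := by
  have h2 : ∀ a b : R, a.1 < 8 * n → b.1 < 8 * n → a.2.1 < b.2.1 →
      |H a| < |H b| ∧ Sg b.2.2 (H b) := fun a b ha hb h =>
    ⟨by nlinarith [(h1 a b ha hb h).1, abs_nonneg (H a)], (h1 a b ha hb h).2⟩
  have key : ∀ a b c : R, a.1 < 8 * n → b.1 < 8 * n → c.1 < 8 * n → b.2.1 < a.2.1 → c.2.1 < a.2.1 →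
      b.2.1 ≠ c.2.1 → (b.1 = c.1 → a.1 ≠ b.1) →
      Sg (ori1 a b c) (H a * (S c - S b) + H b * (S a - S c) + H c * (S b - S a)) :=
    fun a b c ha hb hc l1 l2 l3 l4 => sg_ori1 (s1 b c hc) (s1 c b hb) (s2 b c) (s1 a b hb)
      (s1 b a ha) (s3 a c ha hc) (s3 b a hb ha) (h1 b a hb ha l1).1 (h1 c a hc ha l2).1
      (h2 c b hc hb) (h2 b c hb hc) (h1 b a hb ha l1).2 l3 l4
  refine ⟨fun a b c ha hb hc ab ac bc hs => ?_, fun a j ha hl hj => ?_, fun a b ha hb hne e => ?_⟩
  · rw [hdet, ori]
    cases e1 : (ll b a && ll c a)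
    · rw [cond_false]
      rw [← Bool.not_eq_true, Bool.and_eq_true, ll, ll, Nat.blt_eq, Nat.blt_eq] at e1
      cases e2 : ll c b
      · rw [← Bool.not_eq_true, ll, Nat.blt_eq] at e2
        have := key c a b hc ha hb (by omega) (by omega) ab (fun e => absurd e hs)
        rw [cond_false]
        convert this using 1; ring
      · rw [ll, Nat.blt_eq] at e2
        have := key b c a hb hc ha e2 (by omega) ac.symm (fun e => e ▸ hs.symm)
        rw [cond_true]
        convert this using 1; ring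
    · rw [Bool.and_eq_true, ll, ll, Nat.blt_eq, Nat.blt_eq] at e1
      exact key a b c ha hb hc e1.1 e1.2 bc (fun _ => hs)
  · obtain ⟨k1, k2⟩ := h2 (dot j) a (by simp only [dot]; omega) ha hl
    have k3 := abs_lt.mp k1
    rw [him]
    revert k2
    cases a.2.2 <;> simp only [Sg, if_true, Bool.false_eq_true, if_false] <;> intro k2
    · rw [abs_of_neg k2] at k3; linarith [k3.1]
    · rw [abs_of_pos k2] at k3; linarith [k3.2]
  · have := him a b
    rw [e, sub_self, mul_zero, zero_im, eq_comm, sub_eq_zero] at this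
    rcases lt_or_gt_of_ne hne with h | h
    · exact (h2 a b ha hb h).1.ne (by rw [this])
    · exact (h2 b a hb ha h).1.ne (by rw [this])

/-- signed height -/
def hgt (β : ℕ) (a : R) : ℤ :=
  if a.2.1 = 0 then 0 else if a.2.2 then 2 ^ ((12 * β + 13) * a.2.1) else -2 ^ ((12 * β + 13) * a.2.1)

/-- horizontal offset -/
def ofs (a : R) : ℤ := (a.1 % 8 : ℕ) - 4

/-- the point of a record, relative to the dots `d` -/
def place (β : ℕ) (d : ℕ → ℚ × ℚ) (a : R) : ℚ × ℚ :=
  ((d (a.1 / 8)).1 + ((ofs a - hgt β a * (8 * 2 ^ (2 * β)) : ℤ) : ℚ),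
    (d (a.1 / 8)).2 + ((hgt β a * (24 * 2 ^ (5 * β) + 1) - ofs a * (3 * 2 ^ (3 * β)) : ℤ) : ℚ))

theorem place_dot (β : ℕ) (d : ℕ → ℚ × ℚ) (j : ℕ) : place β d (dot j) = d j := by
  have h1 : (8 * j + 4) / 8 = j := by omega
  have h2 : (8 * j + 4) % 8 = 4 := by omega
  simp [place, dot, hgt, ofs, h1, h2]

theorem rat_gap {x y : ℚ} {B : ℝ} (hx : (x.den : ℝ) ≤ B) (hy : (y.den : ℝ) ≤ B) (h : x < y) :
    1 ≤ B ^ 2 * ((y : ℝ) - x) := by
  have h1 : (x.num : ℝ) = x * x.den := by exact_mod_cast (Rat.mul_den_eq_num x).symm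
  have h2 : (y.num : ℝ) = y * y.den := by exact_mod_cast (Rat.mul_den_eq_num y).symm
  have h3 : (0 : ℝ) < x.den := by exact_mod_cast x.den_pos
  have h4 : (0 : ℝ) < y.den := by exact_mod_cast y.den_pos
  have h5 : (0 : ℝ) < (y : ℝ) - x := by exact_mod_cast sub_pos.mpr h
  have h6 : (0 : ℝ) < ((y.num * x.den - x.num * y.den : ℤ) : ℝ) := by
    push_cast; rw [h1, h2]
    nlinarith [mul_pos (mul_pos h3 h4) h5]
  have h7 : (1 : ℝ) ≤ ((y.num * x.den - x.num * y.den : ℤ) : ℝ) := by
    exact_mod_cast (show 0 < y.num * x.den - x.num * y.den by exact_mod_cast h6)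
  push_cast at h7
  rw [h1, h2] at h7
  have h8 : (x.den : ℝ) * y.den ≤ B ^ 2 := by nlinarith
  nlinarith [mul_le_mul_of_nonneg_right h8 h5.le]

theorem rat_abs {x : ℚ} {B : ℝ} (hx : |(x.num : ℝ)| ≤ B) : |(x : ℝ)| ≤ B := by
  have h1 : (x.num : ℝ) = x * x.den := by exact_mod_cast (Rat.mul_den_eq_num x).symm
  have h3 : (1 : ℝ) ≤ x.den := by exact_mod_cast x.den_pos
  rw [h1, abs_mul, abs_of_pos (show (0 : ℝ) < x.den by linarith)] at hx
  nlinarith [abs_nonneg (x : ℝ)]

theorem model_place {n β : ℕ} {d : ℕ → ℚ × ℚ}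
    (hb : ∀ j < n, |((d j).1.num : ℝ)| ≤ 2 ^ β ∧ ((d j).1.den : ℝ) ≤ 2 ^ β ∧
      |((d j).2.num : ℝ)| ≤ 2 ^ β ∧ ((d j).2.den : ℝ) ≤ 2 ^ β)
    (hs : ∀ j' < n, ∀ j < j', (d j).1 < (d j').1 ∨ ((d j).1 = (d j').1 ∧ (d j).2 < (d j').2)) :
    Model n (fun a => ⟨(place β d a).1, (place β d a).2⟩) (1 + (3 * 2 ^ (3 * β) : ℝ) * I) := by
  set B : ℝ := 2 ^ β with hB
  have hB1 : 1 ≤ B := one_le_pow₀ (by norm_num)
  have p2 : (2 : ℝ) ^ (2 * β) = B ^ 2 := by rw [hB, ← pow_mul, mul_comm]
  have p3 : (2 : ℝ) ^ (3 * β) = B ^ 3 := by rw [hB, ← pow_mul, mul_comm]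
  have p5 : (2 : ℝ) ^ (5 * β) = B ^ 5 := by rw [hB, ← pow_mul, mul_comm]
  have p12 : (2 : ℝ) ^ (12 * β + 13) = 8192 * B ^ 12 := by
    rw [hB, ← pow_mul, pow_add, mul_comm β]; norm_num [mul_comm]
  let s : ℕ → ℝ := fun j => (24 * B ^ 5 + 1) * (d j).1 + 8 * B ^ 2 * (d j).2
  let h : ℕ → ℝ := fun j => 3 * B ^ 3 * (d j).1 + (d j).2
  have b2 : B ≤ B ^ 2 := le_self_pow₀ hB1 (by norm_num)
  have pw : ∀ i j : ℕ, i ≤ j → B ^ i ≤ B ^ j := fun i j h => pow_le_pow_right₀ hB1 h
  have hs1 : ∀ j < n, |s j| ≤ 33 * B ^ 6 ∧ |h j| ≤ 33 * B ^ 6 := by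
    intro j hj
    have a1 := rat_abs (hb j hj).1
    have a2 := rat_abs (hb j hj).2.2.1
    have := pw 1 6 (by norm_num)
    have := pw 3 6 (by norm_num)
    have := pw 4 6 (by norm_num)
    constructor
    · refine (abs_add_le _ _).trans ?_
      rw [abs_mul, abs_mul, abs_of_pos (by positivity : 0 < 24 * B ^ 5 + 1),
        abs_of_pos (by positivity : 0 < 8 * B ^ 2)]
      nlinarith [mul_le_mul_of_nonneg_left a1 (by positivity : 0 ≤ 24 * B ^ 5 + 1),
        mul_le_mul_of_nonneg_left a2 (by positivity : 0 ≤ 8 * B ^ 2)]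
    · refine (abs_add_le _ _).trans ?_
      rw [abs_mul, abs_of_pos (by positivity : 0 < 3 * B ^ 3)]
      nlinarith [mul_le_mul_of_nonneg_left a1 (by positivity : 0 ≤ 3 * B ^ 3)]
  have hs2 : ∀ j' < n, ∀ j < j', s j + 8 ≤ s j' := by
    intro j' hj' j hj
    have a1 := abs_le.mp (rat_abs (hb j (by omega)).2.2.1)
    have a2 := abs_le.mp (rat_abs (hb j' hj').2.2.1)
    simp only [s]
    rcases hs j' hj' j hj with h1 | ⟨h1, h2⟩
    · have a3 := rat_gap (hb j (by omega)).2.1 (hb j' hj').2.1 h1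
      have a4 : ((d j).1 : ℝ) < (d j').1 := by exact_mod_cast h1
      have := pw 0 3 (by norm_num)
      nlinarith [mul_le_mul_of_nonneg_left a3 (by positivity : 0 ≤ 24 * B ^ 3),
        mul_le_mul_of_nonneg_left a1.2 (by positivity : 0 ≤ 8 * B ^ 2),
        mul_le_mul_of_nonneg_left a2.1 (by positivity : 0 ≤ 8 * B ^ 2)]
    · have a3 := rat_gap (hb j (by omega)).2.2.2 (hb j' hj').2.2.2 h2
      rw [h1]
      nlinarith
  have ho : ∀ a : R, -4 ≤ (ofs a : ℝ) ∧ (ofs a : ℝ) ≤ 3 := fun a => by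
    have : -4 ≤ ofs a ∧ ofs a ≤ 3 := by unfold ofs; omega
    exact_mod_cast this
  have b6 := pw 0 6 (by norm_num)
  refine model_of (S := fun a => s (a.1 / 8) + ofs a) (H := fun a => h (a.1 / 8) + hgt β a)
    (D := 74 * B ^ 6) (by linarith) (fun a b c => ?_) (fun a b => ?_) (fun a b hb' hab => ?_)
    (fun a b e => by simp only [ofs, e]) (fun a b ha hb' => ?_) (fun a b ha hb' hab => ?_)
  · simp only [det, place, s, h, sub_re, sub_im]
    push_cast
    rw [p2, p3, p5]
    ring
  · simp only [place, h, mul_im, add_re, one_re, mul_re, ofReal_re, I_re, ofReal_im, I_im, sub_im,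
      add_im, one_im, sub_re]
    push_cast
    rw [p2, p3, p5]
    ring
  · by_cases e : a.1 / 8 = b.1 / 8
    · rw [e]
      have : ofs a + 1 ≤ ofs b := by unfold ofs; omega
      have : (ofs a : ℝ) + 1 ≤ ofs b := by exact_mod_cast this
      linarith
    · have := hs2 (b.1 / 8) (by omega) (a.1 / 8) (by omega)
      linarith [(ho a).2, (ho b).1]
  · have a1 := abs_le.mp (hs1 (a.1 / 8) (by omega)).1
    have a2 := abs_le.mp (hs1 (b.1 / 8) (by omega)).1
    rw [abs_le]
    constructor <;> linarith [a1.1, a1.2, a2.1, a2.2, (ho a).1, (ho a).2, (ho b).1, (ho b).2]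
  · have a1 := (hs1 (a.1 / 8) (by omega)).2
    have a2 := abs_le.mp (hs1 (b.1 / 8) (by omega)).2
    set m : ℝ := (8192 * B ^ 12) ^ a.2.1 with hm
    have hM : (1 : ℝ) ≤ 8192 * B ^ 12 := by linarith [pw 0 12 (by norm_num)]
    have m1 : 1 ≤ m := one_le_pow₀ hM
    have a3 : |(hgt β a : ℝ)| ≤ m := by
      unfold hgt
      split_ifs <;> push_cast
      · simpa using by linarith
      · rw [pow_mul, p12, abs_of_pos (by positivity)]
      · rw [abs_neg, pow_mul, p12, abs_of_pos (by positivity)]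
    have a4 : 8192 * B ^ 12 * m ≤ (8192 * B ^ 12) ^ b.2.1 := by
      rw [hm, ← pow_succ']
      exact pow_le_pow_right₀ hM hab
    have a5 : |h (a.1 / 8) + hgt β a| ≤ 33 * B ^ 6 + m := (abs_add_le _ _).trans (by linarith)
    have a6 : 2 * (74 * B ^ 6) * (33 * B ^ 6 + m) + 33 * B ^ 6 < 8192 * B ^ 12 * m := by
      have c1 : B ^ 12 = B ^ 6 * B ^ 6 := by ring
      rw [c1]
      rw [pow_zero] at b6
      generalize B ^ 6 = C at *
      have hC : 0 < C := by linarith
      nlinarith [mul_le_mul_of_nonneg_left m1 (by positivity : 0 ≤ C * C),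
        mul_le_mul_of_nonneg_left b6 (by positivity : 0 ≤ C * m),
        mul_le_mul_of_nonneg_left b6 hC.le, mul_le_mul_of_nonneg_left m1 hC.le]
    have a7 := mul_le_mul_of_nonneg_left a5 (by positivity : 0 ≤ 2 * (74 * B ^ 6))
    have a8 : 0 ≤ 2 * (74 * B ^ 6) * (33 * B ^ 6 + m) := by positivity
    have a9 : (hgt β b : ℝ) = if b.2.2 then (8192 * B ^ 12) ^ b.2.1 else -(8192 * B ^ 12) ^ b.2.1 := by
      rw [hgt, if_neg (show b.2.1 ≠ 0 by omega)]
      split_ifs <;> push_cast <;> rw [pow_mul, p12]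
    rw [a9]
    cases b.2.2 <;> simp only [Sg, if_true, Bool.false_eq_true, if_false]
    · rw [abs_of_neg (a := h (b.1 / 8) + -_) (by linarith [a2.2])]
      constructor <;> linarith [a2.2]
    · rw [abs_of_pos (a := h (b.1 / 8) + _ ^ b.2.1) (by linarith [a2.1])]
      constructor <;> linarith [a2.1]

end Pool.Agent.MP_b0ee3d_lc

end
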