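import Pool.Agent.Mg.F2e8011.G9c9089
import Pool.Agent.MP_e16607_lc.Defs
import Pool.Agent.Mg.F2e8011.G2c7daa

section

set_option autoImplicit false

open Pool.Agent.MP_2e8011_lc Computability

namespace Pool.Agent.MP_e16607_lc

/-- Value of a little-endian bit string. -/
def val : List Bool → ℕ
  | [] => 0
  | b :: l => 2 * val l + cond b 1 0

/-- No leading zero. -/
def Canon (l : List Bool) : Prop := l.reverse.headD true = true

lemma canon_cons {b : Bool} {l : List Bool} : Canon (b :: l) ↔ (l = [] ∧ b = true) ∨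
    (l ≠ [] ∧ Canon l) := by
  rcases l.eq_nil_or_concat with rfl | ⟨m, c, rfl⟩ <;> simp [Canon]

lemma val_pos : ∀ {l : List Bool}, Canon l → l ≠ [] → 0 < val l
  | [], _, h => absurd rfl h
  | b :: l, h, _ => by
    rcases canon_cons.1 h with ⟨rfl, rfl⟩ | ⟨h1, h2⟩
    · simp [val]
    · have := val_pos h2 h1
      simp only [val]; omega

lemma canon_tail {b : Bool} {l : List Bool} (h : Canon (b :: l)) : Canon l := by
  rcases canon_cons.1 h with ⟨rfl, -⟩ | ⟨-, h2⟩
  · simp [Canon]
  · exact h2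

lemma val_inj : ∀ {l m : List Bool}, Canon l → Canon m → val l = val m → l = m
  | [], [], _, _, _ => rfl
  | [], c :: m, _, h, e => absurd (val_pos h (by simp)) (by rw [← e]; simp [val])
  | b :: l, [], h, _, e => absurd (val_pos h (by simp)) (by rw [e]; simp [val])
  | b :: l, c :: m, h, h', e => by
    have h1 : val l = val m ∧ b = c := by
      simp only [val] at e
      cases b <;> cases c <;> simp at e ⊢ <;> omega
    rw [val_inj (canon_tail h) (canon_tail h') h1.1, h1.2]

lemma canon_encodePosNum (p : PosNum) : Canon (encodePosNum p) ∧ val (encodePosNum p) = p := by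
  induction p with
  | one => simp [encodePosNum, Canon, val]
  | bit1 p ih =>
    refine ⟨canon_cons.2 (Or.inr ⟨encodePosNum_nonempty p, ih.1⟩), ?_⟩
    simp only [encodePosNum, val, ih.2, PosNum.cast_bit1, cond_true]
    ring
  | bit0 p ih =>
    refine ⟨canon_cons.2 (Or.inr ⟨encodePosNum_nonempty p, ih.1⟩), ?_⟩
    simp only [encodePosNum, val, ih.2, PosNum.cast_bit0, cond_false]
    ring

lemma canon_encodeNum (p : Num) : Canon (encodeNum p) ∧ val (encodeNum p) = p := by
  cases p with
  | zero => simp [encodeNum, Canon, val]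
  | pos p => simpa [encodeNum] using canon_encodePosNum p

lemma canon_encodeNat (k : ℕ) : Canon (encodeNat k) := (canon_encodeNum k).1

lemma val_encodeNat (k : ℕ) : val (encodeNat k) = k :=
  (canon_encodeNum k).2.trans (Num.to_of_nat k)

lemma encodeNat_val {l : List Bool} (h : Canon l) : encodeNat (val l) = l :=
  val_inj (canon_encodeNat _) h (val_encodeNat _)

lemma encodeNat_zero : encodeNat 0 = [] := encodeNat_val (l := []) (by simp [Canon])

lemma encodeNat_step {m : ℕ} (hm : m ≠ 0) :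
    encodeNat m = decide (m % 2 = 1) :: encodeNat (m / 2) := by
  refine val_inj (canon_encodeNat _) (canon_cons.2 ?_) ?_
  · by_cases h : m / 2 = 0
    · left
      rw [h, encodeNat_zero]
      exact ⟨rfl, by simp; omega⟩
    · right
      refine ⟨fun h' => h ?_, canon_encodeNat _⟩
      rw [← val_encodeNat (m / 2), h', val]
  · rw [val, val_encodeNat, val_encodeNat]
    rcases Nat.mod_two_eq_zero_or_one m with h | h <;> simp [h] <;> omega

variable {α : Type} [Enc α]

theorem pt_encodeNat {f : α → ℕ} (hf : PT f) : PT (fun a => encodeNat (f a)) := by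
  let g : ℕ × List Bool → ℕ × List Bool := fun p =>
    if p.1 = 0 then p else (p.1 / 2, p.2 ++ [decide (p.1 % 2 = 1)])
  have hg : PT g := by fun_prop
  have key : ∀ k i : ℕ, (g^[i] (k, [])).2 ++ encodeNat (g^[i] (k, [])).1 = encodeNat k ∧
      (g^[i] (k, [])).1 ≤ k - i ∧ (g^[i] (k, [])).2.length ≤ i := by
    intro k i
    induction i with
    | zero => simp
    | succ i ih =>
      rw [Function.iterate_succ_apply']
      obtain ⟨h1, h2, h3⟩ := ih
      generalize g^[i] (k, []) = p at h1 h2 h3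
      simp only [g]
      split_ifs with h
      · exact ⟨h1, by omega, by omega⟩
      · refine ⟨?_, by dsimp only; omega, by simp; omega⟩
        rw [← h1, encodeNat_step h]
        simp
  have := PT.iter hg hf (s := fun a => (f a, ([] : List Bool))) (by fun_prop)
    (B := fun a => 2 * f a + 1 + f a * 3)
    ((((PB.const 2).mul hf.pb).add (PB.const 1)).add (hf.pb.mul (PB.const 3)))
    (fun a i hi => by
      obtain ⟨-, h2, h3⟩ := key (f a) i
      rw [← Prod.mk.eta (p := g^[i] (f a, [])), sz_prod, sz_nat]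
      have := sz_le_of_forall (l := (g^[i] (f a, [])).2) (B := 1) (fun b _ => by simp)
      omega)
  refine this.snd.congr fun a => ?_
  obtain ⟨h1, h2, -⟩ := key (f a) (f a)
  rw [← h1, show (g^[f a] (f a, [])).1 = 0 by omega, encodeNat_zero, List.append_nil]

theorem pt_min_val {l : α → List Bool} {n : α → ℕ} (hl : PT l) (hn : PT n) :
    PT (fun a => min (val (l a)) (n a)) := by
  let f : α → ℕ → Bool → ℕ := fun a c b =>
    if 2 * c + cond b 1 0 ≤ n a then 2 * c + cond b 1 0 else n a
  have key : ∀ a (m : List Bool), m.reverse.foldl (f a) 0 = min (val m) (n a) := by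
    intro a m
    induction m with
    | nil => simp [val]
    | cons b m ih =>
      rw [List.reverse_cons, List.foldl_append, ih]
      simp only [List.foldl, f, val]
      split_ifs <;> omega
  have := PT.foldl (f := f) (by fun_prop) hl.reverse (PT.const 0) hn.pb (fun a k => by
    have := key a ((l a).reverse.take k).reverse
    rw [List.reverse_reverse] at this
    rw [this, sz_nat]
    exact min_le_right _ _)
  exact this.congr fun a => key a _

theorem pt_split_fst {g : α → List Bool} (hg : PT g) : PT (fun a => (split (g a)).1) :=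
  (CP.fst (g := g) (PT.mkRaw hg)).toBits

theorem pt_split_snd {g : α → List Bool} (hg : PT g) : PT (fun a => (split (g a)).2) :=
  (CP.snd (g := g) (PT.mkRaw hg)).toBits

theorem pt_delim_append {g h : α → List Bool} (hg : PT g) (hh : PT h) :
    PT (fun a => delim (g a) ++ h a) :=
  (CP.pair (g := g) (h := h) (PT.mkRaw hg) (PT.mkRaw hh)).toBits

/-- Reads a number in unary from a table of width `W`. -/
def rd (w : List Bool) (W t i j : ℕ) : ℕ :=
  ((List.range W).filter fun p => w.getD (((t * W + i) * W + j) * W + p) false).length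

@[fun_prop] theorem pt_rd {w : α → List Bool} {W t i j : α → ℕ} (hw : PT w) (hW : PT W)
    (ht : PT t) (hi : PT i) (hj : PT j) : PT (fun a => rd (w a) (W a) (t a) (i a) (j a)) := by
  unfold rd
  fun_prop

lemma rd_le (w : List Bool) (W t i j : ℕ) : rd w W t i j ≤ W :=
  (List.length_filter_le _ _).trans (by simp)

lemma length_filter_lt {W d : ℕ} (h : d ≤ W) :
    ((List.range W).filter fun p => decide (p < d)).length = d := by
  induction W with
  | zero => simp; omega
  | succ W ih =>
    rw [List.range_succ, List.filter_append, List.length_append]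
    by_cases h' : d ≤ W
    · rw [ih h']; simp; omega
    · have : (List.range W).filter (fun p => decide (p < d)) = List.range W :=
        List.filter_eq_self.2 fun p hp => by simp at hp ⊢; omega
      rw [this]
      have h2 : W < d := by omega
      simp [h2]; omega

lemma lin_lt {W t T i : ℕ} (ht : t < T) (hi : i < W) : t * W + i < T * W := by
  have := Nat.mul_le_mul_right W (Nat.succ_le_of_lt ht)
  rw [Nat.succ_mul] at this
  omega

lemma lin_div {W t i : ℕ} (hi : i < W) : (t * W + i) / W = t := by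
  rw [add_comm, Nat.add_mul_div_right _ _ (by omega), Nat.div_eq_of_lt hi, zero_add]

lemma lin_mod {W t i : ℕ} (hi : i < W) : (t * W + i) % W = i := by
  rw [add_comm, Nat.add_mul_mod_self_right, Nat.mod_eq_of_lt hi]

lemma exists_table (W : ℕ) (D : ℕ → ℕ → ℕ → ℕ) :
    ∃ w : List Bool, w.length = 4 * W * W * W ∧
      ∀ t < 4, ∀ i < W, ∀ j < W, D t i j ≤ W → rd w W t i j = D t i j := by
  refine ⟨(List.range (4 * W * W * W)).map fun q =>
    decide (q % W < D (q / W / W / W) (q / W / W % W) (q / W % W)), by simp, ?_⟩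
  intro t ht i hi j hj hD
  rw [rd, ← length_filter_lt hD]
  congr 1
  refine List.filter_congr fun p hp => ?_
  have hp := List.mem_range.1 hp
  have h := lin_lt (lin_lt (lin_lt ht hi) hj) hp
  rw [List.getD_eq_getElem _ _ (by simpa using h)]
  simp only [List.getElem_map, List.getElem_range, lin_div hp, lin_mod hp, lin_div hj, lin_mod hj,
    lin_div hi, lin_mod hi]

end Pool.Agent.MP_e16607_lc

end

section

set_option autoImplicit false

open Finset

namespace Pool.Agent.MP_e16607_lc

/-- `c` is proper on `S` for the adjacency relation `A`. -/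
def Prp (A : ℕ → ℕ → Prop) (S : Finset ℕ) (c : ℕ → ℕ) : Prop :=
  ∀ a ∈ S, ∀ b ∈ S, A a b → c a ≠ c b

/-- `S` can be properly coloured with `j` colours. -/
def Col (A : ℕ → ℕ → Prop) (S : Finset ℕ) (j : ℕ) : Prop :=
  ∃ c : ℕ → ℕ, (∀ a ∈ S, c a < j) ∧ Prp A S c

/-- A certificate for connectedness. -/
def Conn (A : ℕ → ℕ → Prop) (S : Finset ℕ) : Prop :=
  ∃ r ∈ S, ∃ rk : ℕ → ℕ, ∀ v ∈ S, v ≠ r → ∃ u ∈ S, A u v ∧ rk u < rk v

/-- Numeric form of the statement that the discrepancy is at most `k`. -/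
def Low (cn : Bool) (A : ℕ → ℕ → Prop) (n k : ℕ) : Prop :=
  ∃ c : ℕ → ℕ, Prp A (range n) c ∧ ∀ S ⊆ range n, (cn = true → Conn A S) → ∀ j, Col A S j →
    (S.image c).card ≤ j + k

section

variable {n : ℕ} {G : SimpleGraph (Fin n)} {A : ℕ → ℕ → Prop}
  (hA : ∀ i j : Fin n, G.Adj i j ↔ A i j) {S : Set (Fin n)} {S' : Finset ℕ}
  (hS : ∀ i : Fin n, i ∈ S ↔ (i : ℕ) ∈ S') (hS' : S' ⊆ range n)
include hA hS hS'

lemma colorable_iff_col (j : ℕ) : (G.induce S).Colorable j ↔ Col A S' j := by
  classical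
  rw [SimpleGraph.colorable_iff_exists_bdd_nat_coloring]
  constructor
  · rintro ⟨C, hC⟩
    refine ⟨fun a => if h : a ∈ S' then C ⟨⟨a, mem_range.1 (hS' h)⟩, (hS _).2 h⟩ else 0,
      fun a ha => ?_, fun a ha b hb hab => ?_⟩
    · simp only [dif_pos ha]; exact hC _
    · simp only [dif_pos ha, dif_pos hb]
      exact C.valid (by simpa using (hA _ _).2 hab)
  · rintro ⟨c, h1, h2⟩
    refine ⟨SimpleGraph.Coloring.mk (fun v => c v.1) fun {v w} h => ?_, fun v => ?_⟩
    · exact h2 _ ((hS _).1 v.2) _ ((hS _).1 w.2) ((hA _ _).1 (by simpa using h))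
    · exact h1 _ ((hS _).1 v.2)

lemma connected_iff_conn : (G.induce S).Connected ↔ Conn A S' := by
  classical
  constructor
  · intro hc
    obtain ⟨r⟩ := hc.nonempty
    refine ⟨r.1, (hS _).1 r.2, fun a => if h : a ∈ S' then
      (G.induce S).dist ⟨⟨a, mem_range.1 (hS' h)⟩, (hS _).2 h⟩ r else 0, fun v hv hne => ?_⟩
    set v' : S := ⟨⟨v, mem_range.1 (hS' hv)⟩, (hS _).2 hv⟩ with hv'
    obtain ⟨p, hp⟩ := hc.exists_walk_length_eq_dist v' r
    have hne' : v' ≠ r := fun h => hne (by rw [← h])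
    obtain ⟨u, hadj, q, rfl⟩ := SimpleGraph.Walk.exists_eq_cons_of_ne hne' p
    have hu : (u.1 : ℕ) ∈ S' := (hS _).1 u.2
    refine ⟨u.1, hu, (hA u.1 v'.1).1 (by simpa using hadj.symm), ?_⟩
    simp only [dif_pos hu, dif_pos hv]
    have := SimpleGraph.dist_le q
    rw [SimpleGraph.Walk.length_cons] at hp
    change (G.induce S).dist u r < (G.induce S).dist v' r
    omega
  · rintro ⟨r, hr, rk, h⟩
    let r' : S := ⟨⟨r, mem_range.1 (hS' hr)⟩, (hS _).2 hr⟩
    have key : ∀ (m : ℕ) (v : S), rk v.1 = m → (G.induce S).Reachable r' v := by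
      intro m
      induction m using Nat.strong_induction_on with
      | _ m ih =>
        intro v hv
        by_cases hvr : (v.1 : ℕ) = r
        · have : v = r' := Subtype.ext (Fin.ext hvr)
          rw [this]
        · obtain ⟨u, hu, hadj, hlt⟩ := h _ ((hS _).1 v.2) hvr
          let u' : S := ⟨⟨u, mem_range.1 (hS' hu)⟩, (hS _).2 hu⟩
          have h1 := ih (rk u) (hv ▸ hlt) u' rfl
          have h2 : (G.induce S).Adj u' v := by simpa using (hA u'.1 v.1).2 hadj
          exact h1.trans h2.reachable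
    have : Nonempty S := ⟨r'⟩
    exact ⟨fun u v => (key _ u rfl).symm.trans (key _ v rfl)⟩

omit hA in
lemma encard_image_eq {c : Fin n → ℕ} {c' : ℕ → ℕ} (hc : ∀ i : Fin n, c i = c' i) :
    (c '' S).encard = (S'.image c').card := by
  rw [← Set.encard_coe_eq_coe_finsetCard]
  congr 1
  ext x
  simp only [Set.mem_image, coe_image, mem_coe]
  constructor
  · rintro ⟨i, hi, rfl⟩
    exact ⟨i, (hS i).1 hi, (hc i).symm⟩
  · rintro ⟨a, ha, rfl⟩
    exact ⟨⟨a, mem_range.1 (hS' ha)⟩, (hS _).2 ha, hc _⟩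

end

lemma sub_chrom_le_iff {V : Type} [Finite V] (H : SimpleGraph V) (m k : ℕ) :
    (m : ℕ∞) - H.chromaticNumber ≤ k ↔ ∀ j, H.Colorable j → m ≤ j + k := by
  rw [tsub_le_iff_left]
  have h1 := H.colorable_chromaticNumber_of_fintype
  have h2 : H.chromaticNumber ≠ ⊤ := SimpleGraph.chromaticNumber_ne_top_iff_exists.2 ⟨_, h1⟩
  constructor
  · intro h j hj
    have := h.trans (add_le_add_left hj.chromaticNumber_le _)
    exact_mod_cast this
  · intro h
    have := h _ h1
    rw [← ENat.natCast_toNat h2]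
    exact_mod_cast this

lemma discP_le_iff {n : ℕ} {G : SimpleGraph (Fin n)} {A : ℕ → ℕ → Prop}
    (hA : ∀ i j : Fin n, G.Adj i j ↔ A i j) (cn : Bool) (k : ℕ) :
    (⨅ c : G.Coloring ℕ, ⨆ (S : Set (Fin n)) (_ : cn = true → (G.induce S).Connected),
      (c '' S).encard - (G.induce S).chromaticNumber) ≤ k ↔ Low cn A n k := by
  classical
  rw [← ENat.lt_add_one_iff (ENat.natCast_ne_top k), iInf_lt_iff]
  simp only [ENat.lt_add_one_iff (ENat.natCast_ne_top k), iSup_le_iff]
  constructor
  · rintro ⟨c, hc⟩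
    let c' : ℕ → ℕ := fun a => if h : a < n then c ⟨a, h⟩ else 0
    have hcc : ∀ i : Fin n, c i = c' i := fun i => by simp [c']
    refine ⟨c', fun a ha b hb hab => ?_, fun S' hS' hcn j hj => ?_⟩
    · simp only [c', dif_pos (mem_range.1 ha), dif_pos (mem_range.1 hb)]
      exact c.valid ((hA _ _).2 hab)
    · have hS : ∀ i : Fin n, i ∈ {i : Fin n | (i : ℕ) ∈ S'} ↔ (i : ℕ) ∈ S' := fun _ => Iff.rfl
      have := hc _ fun h => (connected_iff_conn hA hS hS').2 (hcn h)
      rw [encard_image_eq hS hS' hcc, sub_chrom_le_iff] at this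
      exact this j ((colorable_iff_col hA hS hS' j).2 hj)
  · rintro ⟨c', h1, h2⟩
    refine ⟨SimpleGraph.Coloring.mk (fun v => c' v) fun {v w} h => ?_, fun S hcn => ?_⟩
    · exact h1 _ (mem_range.2 v.2) _ (mem_range.2 w.2) ((hA _ _).1 h)
    · let S' : Finset ℕ := (univ.filter (· ∈ S)).image Fin.val
      have hS : ∀ i : Fin n, i ∈ S ↔ (i : ℕ) ∈ S' := fun i => by
        simp [S', Fin.val_inj]
      have hS' : S' ⊆ range n := fun a ha => by
        obtain ⟨i, -, rfl⟩ := mem_image.1 ha
        exact mem_range.2 i.2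
      change ((fun v : Fin n => c' v) '' S).encard - _ ≤ _
      rw [encard_image_eq hS hS' (c' := c') (fun _ => rfl), sub_chrom_le_iff]
      exact fun j hj => h2 S' hS' (fun h => (connected_iff_conn hA hS hS').1 (hcn h)) j
        ((colorable_iff_col hA hS hS' j).1 hj)

lemma disc_le_iff {n : ℕ} {G : SimpleGraph (Fin n)} {A : ℕ → ℕ → Prop}
    (hA : ∀ i j : Fin n, G.Adj i j ↔ A i j) (k : ℕ) : disc G ≤ k ↔ Low false A n k := by
  rw [← discP_le_iff hA]
  simp [disc]

lemma cdisc_le_iff {n : ℕ} {G : SimpleGraph (Fin n)} {A : ℕ → ℕ → Prop}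
    (hA : ∀ i j : Fin n, G.Adj i j ↔ A i j) (k : ℕ) : cdisc G ≤ k ↔ Low true A n k := by
  rw [← discP_le_iff hA]
  simp [cdisc]

/-- Rank of a value among a finite set of values. -/
def rank (U : Finset ℕ) (x : ℕ) : ℕ := (U.filter (· < x)).card

lemma rank_lt_card {U : Finset ℕ} {x : ℕ} (hx : x ∈ U) : rank U x < U.card :=
  card_lt_card ⟨filter_subset _ _, fun h => by simpa using h hx⟩

lemma rank_lt_rank {U : Finset ℕ} {x y : ℕ} (hx : x ∈ U) (h : x < y) : rank U x < rank U y := by
  refine card_lt_card ⟨fun z hz => ?_, fun hh => ?_⟩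
  · simp only [mem_filter] at hz ⊢
    exact ⟨hz.1, hz.2.trans h⟩
  · have := hh (mem_filter.2 ⟨hx, h⟩)
    simp at this

lemma rank_injOn (U : Finset ℕ) : Set.InjOn (rank U) U := by
  intro x hx y hy h
  rcases lt_trichotomy x y with h1 | h1 | h1
  · exact absurd h (rank_lt_rank hx h1).ne
  · exact h1
  · exact absurd h (rank_lt_rank hy h1).ne'

lemma col_of_card {A : ℕ → ℕ → Prop} {S : Finset ℕ} {c : ℕ → ℕ} (hc : Prp A S c) {m : ℕ}
    (h : (S.image c).card ≤ m) : Col A S m :=
  ⟨fun a => rank (S.image c) (c a),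
    fun _ ha => (rank_lt_card (mem_image_of_mem c ha)).trans_le h,
    fun a ha b hb hab h => hc a ha b hb hab
      (rank_injOn _ (mem_image_of_mem c ha) (mem_image_of_mem c hb) h)⟩

end Pool.Agent.MP_e16607_lc

end

section

set_option autoImplicit false

open Finset

namespace Pool.Agent.MP_e16607_lc

/-- Adjacency in the layered graph: `2 N + 1` layers of `N` vertices and a universal vertex. -/
def AG (AF : ℕ → ℕ → Prop) (N a b : ℕ) : Prop :=
  a ≠ b ∧ (a = (2 * N + 1) * N ∨ b = (2 * N + 1) * N ∨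
    (a % N ≠ b % N ∧ (a / N ≠ b / N ∨ AF (a % N) (b % N))))

lemma layer_lt {N T t i : ℕ} (ht : t < T) (hi : i < N) : t * N + i < T * N := by
  have := Nat.mul_le_mul_right N (Nat.succ_le_of_lt ht)
  rw [Nat.succ_mul] at this
  omega

lemma layer_div {N t i : ℕ} (hi : i < N) : (t * N + i) / N = t := by
  rw [add_comm, Nat.add_mul_div_right _ _ (by omega), Nat.div_eq_of_lt hi, zero_add]

lemma layer_mod {N t i : ℕ} (hi : i < N) : (t * N + i) % N = i := by
  rw [add_comm, Nat.add_mul_mod_self_right, Nat.mod_eq_of_lt hi]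

/-- The canonical colouring of the layered graph. -/
def canon (N a : ℕ) : ℕ := if a = (2 * N + 1) * N then N else a % N

lemma prp_canon (AF : ℕ → ℕ → Prop) {N : ℕ} (hN : 0 < N) (S : Finset ℕ) :
    Prp (AG AF N) S (canon N) := by
  rintro a - b - ⟨hab, h⟩
  have h1 := Nat.mod_lt a hN
  have h2 := Nat.mod_lt b hN
  simp only [canon]
  split_ifs <;> omega

lemma low_of_not_col {AF : ℕ → ℕ → Prop} (hirr : ∀ a, ¬ AF a a) {N m k : ℕ} (hN : 0 < N)
    (hk : k + m + 1 = N) (h : ¬ Col AF (range N) m) (cn : Bool) :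
    Low cn (AG AF N) ((2 * N + 1) * N + 1) k := by
  classical
  refine ⟨canon N, prp_canon AF hN _, fun S _ _ j ⟨c, hc1, hc2⟩ => ?_⟩
  by_contra hlt
  push Not at hlt
  apply h
  set u := (2 * N + 1) * N with hu
  set R := (S.erase u).image (· % N) with hR
  have hrep : ∀ i, ∃ a, i ∈ R → a ∈ S ∧ a ≠ u ∧ a % N = i := by
    intro i
    by_cases hi : i ∈ R
    · obtain ⟨a, ha, rfl⟩ := mem_image.1 hi
      exact ⟨a, fun _ => ⟨mem_of_mem_erase ha, ne_of_mem_erase ha, rfl⟩⟩
    · exact ⟨0, fun h => absurd h hi⟩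
  choose rep hrep using hrep
  set U : Finset ℕ := if u ∈ S then (range j).erase (c u) else range j with hU
  have hRN : R ⊆ range N := fun i hi => by
    obtain ⟨a, -, rfl⟩ := mem_image.1 hi
    exact mem_range.2 (Nat.mod_lt a hN)
  have hcard : U.card + (S.image (canon N)).card ≤ j + R.card := by
    by_cases hus : u ∈ S
    · have h1 : S.image (canon N) ⊆ insert N R := by
        intro x hx
        obtain ⟨a, ha, rfl⟩ := mem_image.1 hx
        by_cases hau : a = u
        · simp [canon, hau, hu]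
        · refine mem_insert_of_mem (mem_image.2 ⟨a, mem_erase.2 ⟨hau, ha⟩, ?_⟩)
          simp only [canon]
          rw [if_neg hau]
      have h2 := (card_le_card h1).trans (card_insert_le _ _)
      have h3 := hc1 u hus
      rw [hU, if_pos hus, card_erase_of_mem (mem_range.2 h3), card_range]
      omega
    · have h1 : S.image (canon N) ⊆ R := by
        intro x hx
        obtain ⟨a, ha, rfl⟩ := mem_image.1 hx
        have hau : a ≠ u := fun h => hus (h ▸ ha)
        refine mem_image.2 ⟨a, mem_erase.2 ⟨hau, ha⟩, ?_⟩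
        simp only [canon]
        rw [if_neg hau]
      have h2 := card_le_card h1
      rw [hU, if_neg hus, card_range]
      omega
  let d : ℕ → ℕ := fun i => if i ∈ R then 2 * c (rep i) else 2 * i + 1
  refine col_of_card (c := d) (fun a _ b _ hab => ?_) ?_
  · have hne : a ≠ b := fun h => hirr a (h ▸ hab)
    simp only [d]
    split_ifs with ha hb hb
    · obtain ⟨a1, a2, a3⟩ := hrep a ha
      obtain ⟨b1, b2, b3⟩ := hrep b hb
      have := hc2 _ a1 _ b1 ⟨fun h => hne (by rw [← a3, ← b3, h]),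
        Or.inr (Or.inr ⟨by rw [a3, b3]; exact hne, Or.inr (by rw [a3, b3]; exact hab)⟩)⟩
      omega
    all_goals omega
  · have h1 : (range N).image d ⊆ U.image (2 * ·) ∪ (range N \ R).image (2 * · + 1) := by
      intro x hx
      obtain ⟨i, hi, rfl⟩ := mem_image.1 hx
      by_cases hiR : i ∈ R
      · refine mem_union_left _ (mem_image.2 ⟨c (rep i), ?_, by simp [d, hiR]⟩)
        obtain ⟨a1, a2, -⟩ := hrep i hiR
        have h3 := mem_range.2 (hc1 _ a1)
        rw [hU]
        split_ifs with hus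
        · exact mem_erase.2 ⟨hc2 _ a1 _ hus ⟨a2, Or.inr (Or.inl hu)⟩, h3⟩
        · exact h3
      · exact mem_union_right _ (mem_image.2 ⟨i, mem_sdiff.2 ⟨hi, hiR⟩, by simp [d, hiR]⟩)
    have h2 := (card_le_card h1).trans (card_union_le _ _)
    have h3 := card_image_le (s := U) (f := (2 * ·))
    have h4 := card_image_le (s := range N \ R) (f := (2 * · + 1))
    have h5 := card_sdiff_add_card_eq_card hRN
    rw [card_range] at h5
    omega

lemma conn_of_mem {AF : ℕ → ℕ → Prop} {N : ℕ} {S : Finset ℕ} (h : (2 * N + 1) * N ∈ S) :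
    Conn (AG AF N) S := by
  refine ⟨_, h, fun a => if a = (2 * N + 1) * N then 0 else 1, fun v _ hv => ⟨_, h, ?_, ?_⟩⟩
  · exact ⟨hv.symm, Or.inl rfl⟩
  · simp [hv]

lemma not_low_of_col {AF : ℕ → ℕ → Prop} {N m k : ℕ} (hN : 0 < N)
    (hk : k + m + 1 = N) (h : Col AF (range N) m) (cn : Bool) :
    ¬ Low cn (AG AF N) ((2 * N + 1) * N + 1) k := by
  classical
  rintro ⟨c, hc, hlow⟩
  obtain ⟨cF, hF1, hF2⟩ := h
  set u := (2 * N + 1) * N with hu
  have hmem : ∀ {t i : ℕ}, t < 2 * N + 1 → i < N → t * N + i ∈ range (u + 1) := fun ht hi =>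
    mem_range.2 ((layer_lt ht hi).trans (Nat.lt_succ_self _))
  have humem : u ∈ range (u + 1) := self_mem_range_succ u
  by_cases h1 : ∃ t < 2 * N + 1, Set.InjOn (fun i => c (t * N + i)) (range N)
  · obtain ⟨t, ht, hinj⟩ := h1
    set S := insert u ((range N).image (t * N + ·)) with hS
    have hSsub : S ⊆ range (u + 1) := by
      intro a ha
      rcases mem_insert.1 ha with rfl | ha
      · exact humem
      · obtain ⟨i, hi, rfl⟩ := mem_image.1 ha
        exact hmem ht (mem_range.1 hi)
    have hcol : Col (AG AF N) S (m + 1) := by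
      refine ⟨fun a => if a = u then m else cF (a % N), fun a _ => ?_, fun a ha b hb hab => ?_⟩
      · have := hF1 _ (mem_range.2 (Nat.mod_lt a hN))
        dsimp only
        split_ifs <;> omega
      · have a1 := hF1 _ (mem_range.2 (Nat.mod_lt a hN))
        have b1 := hF1 _ (mem_range.2 (Nat.mod_lt b hN))
        obtain ⟨hne, hab⟩ := hab
        dsimp only
        split_ifs with h2 h3 h3
        · omega
        · omega
        · omega
        · obtain ⟨i, hi, rfl⟩ := mem_image.1 ((mem_insert.1 ha).resolve_left h2)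
          obtain ⟨l, hl, rfl⟩ := mem_image.1 ((mem_insert.1 hb).resolve_left h3)
          rcases hab with hab | hab | ⟨-, hab | hab⟩
          · exact absurd hab h2
          · exact absurd hab h3
          · rw [layer_div (mem_range.1 hi), layer_div (mem_range.1 hl)] at hab
            exact absurd rfl hab
          · exact hF2 _ (mem_range.2 (Nat.mod_lt _ hN)) _ (mem_range.2 (Nat.mod_lt _ hN)) hab
    have h2 := hlow S hSsub (fun _ => conn_of_mem (mem_insert_self _ _)) _ hcol
    have h3 : c u ∉ ((range N).image (t * N + ·)).image c := by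
      intro hh
      obtain ⟨a, ha, hca⟩ := mem_image.1 hh
      obtain ⟨i, hi, rfl⟩ := mem_image.1 ha
      have := layer_lt ht (mem_range.1 hi)
      exact hc _ (hmem ht (mem_range.1 hi)) _ humem ⟨this.ne, Or.inr (Or.inl hu)⟩ hca
    rw [hS, image_insert, card_insert_of_notMem h3, image_image,
      card_image_of_injOn (f := c ∘ fun x => t * N + x) hinj, card_range] at h2
    omega
  · push Not at h1
    have h2 : ∀ t, ∃ i, t < 2 * N + 1 → i < N ∧ ∃ i' < N, i ≠ i' ∧
        c (t * N + i) = c (t * N + i') := by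
      intro t
      by_cases ht : t < 2 * N + 1
      · have := h1 t ht
        simp only [Set.InjOn, coe_range, Set.mem_Iio, not_forall] at this
        obtain ⟨i, hi, i', hi', h3, h4⟩ := this
        exact ⟨i, fun _ => ⟨hi, i', hi', h4, h3⟩⟩
      · exact ⟨0, fun h => absurd h ht⟩
    choose ι hι using h2
    have hinj : Set.InjOn (fun t => c (t * N + ι t)) (range (2 * N + 1)) := by
      intro t ht t' ht' h3
      by_contra hne
      have ht := mem_range.1 ht
      have ht' := mem_range.1 ht'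
      obtain ⟨a1, i', a2, a3, a4⟩ := hι t ht
      obtain ⟨b1, -⟩ := hι t' ht'
      have key : ∀ i < N, i ≠ ι t' → c (t * N + i) ≠ c (t' * N + ι t') := by
        intro i hi hii
        refine hc _ (hmem ht hi) _ (hmem ht' b1) ⟨fun h => hne ?_, Or.inr (Or.inr ⟨?_, Or.inl ?_⟩)⟩
        · rw [← layer_div (t := t) hi, h, layer_div b1]
        · rwa [layer_mod hi, layer_mod b1]
        · rwa [layer_div hi, layer_div b1]
      by_cases h4 : ι t = ι t'
      · exact key i' a2 (h4 ▸ a3.symm) (a4 ▸ h3)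
      · exact key _ a1 h4 h3
    have h3 : (range (2 * N + 1)).image (fun t => c (t * N + ι t)) ⊆ (range (u + 1)).image c := by
      intro x hx
      obtain ⟨t, ht, rfl⟩ := mem_image.1 hx
      exact mem_image_of_mem c (hmem (mem_range.1 ht) (hι t (mem_range.1 ht)).1)
    have h4 := card_le_card h3
    rw [card_image_of_injOn hinj, card_range] at h4
    have hcol : Col (AG AF N) (range (u + 1)) (N + 1) := by
      refine ⟨canon N, fun a _ => ?_, prp_canon AF hN _⟩
      have := Nat.mod_lt a hN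
      simp only [canon]
      split_ifs <;> omega
    have h5 := hlow _ Subset.rfl (fun _ => conn_of_mem humem) _ hcol
    omega

/-- One direction of the adjacency relation of the graph attached to a formula. -/
def BF (φ : List (List (ℕ × Bool))) (n a b : ℕ) : Prop :=
  (a ≤ n ∧ b ≤ n ∧ a ≠ b) ∨
  (1 ≤ a ∧ a ≤ n ∧ n < b ∧ b ≤ 3 * n ∧ a ≠ (b - n - 1) / 2 + 1) ∨
  (n < a ∧ a ≤ 3 * n ∧ n < b ∧ b ≤ 3 * n ∧ a ≠ b ∧ (a - n - 1) / 2 = (b - n - 1) / 2) ∨
  (a = 0 ∧ 3 * n < b) ∨
  (n < a ∧ a ≤ 3 * n ∧ 3 * n < b ∧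
    ((a - n - 1) / 2, decide ((a - n - 1) % 2 = 1)) ∉ φ.getD (b - 3 * n - 1) [])

/-- Adjacency relation of the graph attached to a formula. -/
def AF (φ : List (List (ℕ × Bool))) (n a b : ℕ) : Prop := BF φ n a b ∨ BF φ n b a

lemma AF_irrefl (φ : List (List (ℕ × Bool))) (n a : ℕ) : ¬ AF φ n a a := by
  simp only [AF, BF, or_self]
  omega

lemma AF_symm (φ : List (List (ℕ × Bool))) (n a b : ℕ) : AF φ n a b ↔ AF φ n b a := or_comm

/-- Satisfiability. -/
def Sat (φ : List (List (ℕ × Bool))) : Prop := ∃ s : ℕ → Bool, ∀ C ∈ φ, ∃ l ∈ C, s l.1 = l.2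

lemma col_of_sat {φ : List (List (ℕ × Bool))} {n : ℕ} (hn : ∀ C ∈ φ, ∀ l ∈ C, l.1 < n)
    (h : Sat φ) : Col (AF φ n) (range (3 * n + 1 + φ.length)) (n + 1) := by
  obtain ⟨s, hs⟩ := h
  have h1 : ∀ j, ∃ i, j < φ.length → i < n ∧ (i, s i) ∈ φ.getD j [] := by
    intro j
    by_cases hj : j < φ.length
    · obtain ⟨l, hl, h⟩ := hs _ (List.getElem_mem hj)
      refine ⟨l.1, fun _ => ⟨hn _ (List.getElem_mem hj) l hl, ?_⟩⟩
      rw [List.getD_eq_getElem _ _ hj, h]
      exact hl
    · exact ⟨0, fun h => absurd h hj⟩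
  choose ι hι using h1
  let c : ℕ → ℕ := fun a => if a ≤ n then a else if a ≤ 3 * n then
    (if s ((a - n - 1) / 2) = decide ((a - n - 1) % 2 = 1) then (a - n - 1) / 2 + 1 else 0)
    else ι (a - 3 * n - 1) + 1
  have key : ∀ a ∈ range (3 * n + 1 + φ.length), ∀ b ∈ range (3 * n + 1 + φ.length),
      BF φ n a b → c a ≠ c b := by
    intro a ha b hb hab
    rw [mem_range] at ha hb
    rcases hab with ⟨h1, h2, h3⟩ | ⟨h1, h2, h3, h4, h5⟩ | ⟨h1, h2, h3, h4, h5, h6⟩ | ⟨h1, h2⟩ |
      ⟨h1, h2, h3, h4⟩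
    · simp only [c, if_pos h1, if_pos h2]; exact h3
    · simp only [c, if_pos h2, if_neg (not_le.2 h3), if_pos h4]
      split_ifs <;> omega
    · simp only [c, if_neg (not_le.2 h1), if_pos h2, if_neg (not_le.2 h3), if_pos h4, ← h6]
      have : decide ((b - n - 1) % 2 = 1) = !decide ((a - n - 1) % 2 = 1) := by
        rcases Nat.mod_two_eq_zero_or_one (a - n - 1) with h | h <;>
        rcases Nat.mod_two_eq_zero_or_one (b - n - 1) with h' | h' <;>
        first | omega | simp [h, h']
      rw [this]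
      cases s ((a - n - 1) / 2) <;> cases decide ((a - n - 1) % 2 = 1) <;> simp
    · subst h1
      simp only [c, if_pos (Nat.zero_le n), if_neg (show ¬ b ≤ n by omega), if_neg (not_le.2 h2)]
      omega
    · simp only [c, if_neg (not_le.2 h1), if_pos h2, if_neg (show ¬ b ≤ n by omega),
        if_neg (not_le.2 h3)]
      split_ifs with h5
      · intro h6
        apply h4
        have := (hι (b - 3 * n - 1) (by omega)).2
        rw [← h5, show (a - n - 1) / 2 = ι (b - 3 * n - 1) by omega]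
        exact this
      · omega
  refine ⟨c, fun a ha => ?_, fun a ha b hb hab => ?_⟩
  · rw [mem_range] at ha
    simp only [c]
    split_ifs with h1 h2 h3
    · omega
    · omega
    · omega
    · have := (hι (a - 3 * n - 1) (by omega)).1
      omega
  · rcases hab with hab | hab
    · exact key a ha b hb hab
    · exact (key b hb a ha hab).symm

lemma sat_of_col {φ : List (List (ℕ × Bool))} {n : ℕ}
    (h : Col (AF φ n) (range (3 * n + 1 + φ.length)) (n + 1)) : Sat φ := by
  classical
  obtain ⟨c, h1, h2⟩ := h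
  have hB : ∀ a b, a < 3 * n + 1 + φ.length → b < 3 * n + 1 + φ.length → BF φ n a b →
      c a ≠ c b := fun a b ha hb hab => h2 a (mem_range.2 ha) b (mem_range.2 hb) (Or.inl hab)
  have hsurj : ∀ v, v < 3 * n + 1 + φ.length → ∃ a ≤ n, c a = c v := by
    intro v hv
    have := surjOn_of_injOn_of_card_le (s := range (n + 1)) (t := range (n + 1)) c
      (fun a ha => by
        have := mem_range.1 ha
        exact mem_range.2 (h1 a (mem_range.2 (by omega))))
      (fun a ha b hb hab => by
        have ha := mem_range.1 ha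
        have hb := mem_range.1 hb
        by_contra hne
        exact hB a b (by omega) (by omega) (Or.inl ⟨by omega, by omega, hne⟩) hab) le_rfl
      (mem_range.2 (h1 v (mem_range.2 hv)))
    obtain ⟨a, ha, hca⟩ := this
    exact ⟨a, Nat.lt_succ_iff.1 (mem_range.1 ha), hca⟩
  have hlit : ∀ i < n, ∀ e < 2, c (n + 1 + 2 * i + e) = c 0 ∨ c (n + 1 + 2 * i + e) = c (i + 1) := by
    intro i hi e he
    obtain ⟨a, ha, hca⟩ := hsurj (n + 1 + 2 * i + e) (by omega)
    by_cases h0 : a = 0
    · left; rw [← hca, h0]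
    · by_cases h3 : a = i + 1
      · right; rw [← hca, h3]
      · exact absurd hca (hB _ _ (by omega) (by omega)
          (Or.inr (Or.inl ⟨by omega, ha, by omega, by omega, by omega⟩)))
  refine ⟨fun i => decide (c (n + 1 + 2 * i + 1) = c (i + 1)), fun C hC => ?_⟩
  obtain ⟨j, hj, rfl⟩ := List.getElem_of_mem hC
  obtain ⟨a, ha, hca⟩ := hsurj (3 * n + 1 + j) (by omega)
  have h0 : a ≠ 0 := by
    rintro rfl
    exact hB _ _ (by omega) (by omega) (Or.inr (Or.inr (Or.inr (Or.inl ⟨rfl, by omega⟩)))) hca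
  obtain ⟨i, rfl⟩ : ∃ i, a = i + 1 := ⟨a - 1, by omega⟩
  have hin : ∀ e < 2, c (n + 1 + 2 * i + e) = c (i + 1) → (i, decide (e = 1)) ∈ φ[j] := by
    intro e he hce
    by_contra hnot
    refine hB (n + 1 + 2 * i + e) (3 * n + 1 + j) (by omega) (by omega)
      (Or.inr (Or.inr (Or.inr (Or.inr ⟨by omega, by omega, by omega, ?_⟩)))) (hce.trans hca)
    rw [show (n + 1 + 2 * i + e - n - 1) / 2 = i by omega,
      show (n + 1 + 2 * i + e - n - 1) % 2 = e by omega,
      show 3 * n + 1 + j - 3 * n - 1 = j by omega, List.getD_eq_getElem _ _ hj]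
    exact hnot
  by_cases h3 : c (n + 1 + 2 * i + 1) = c (i + 1)
  · exact ⟨_, hin 1 (by omega) h3, by simp [h3]⟩
  · have h4 := (hlit i (by omega) 1 (by omega)).resolve_right h3
    have h5 := hB (n + 1 + 2 * i + 0) (n + 1 + 2 * i + 1) (by omega) (by omega)
      (Or.inr (Or.inr (Or.inl ⟨by omega, by omega, by omega, by omega, by omega, by omega⟩)))
    have h6 := (hlit i (by omega) 0 (by omega)).resolve_left (fun h => h5 (h.trans h4.symm))
    exact ⟨_, hin 0 (by omega) h6, by simp [h3]⟩

theorem low_iff_not_sat {φ : List (List (ℕ × Bool))} {n : ℕ} (h0 : 0 < n)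
    (hn : ∀ C ∈ φ, ∀ l ∈ C, l.1 < n) (cn : Bool) :
    Low cn (AG (AF φ n) (3 * n + 1 + φ.length))
      ((2 * (3 * n + 1 + φ.length) + 1) * (3 * n + 1 + φ.length) + 1) (2 * n - 1 + φ.length) ↔
      ¬ Sat φ :=
  ⟨fun h hs => not_low_of_col (by omega) (by omega) (col_of_sat hn hs) cn h,
    fun h => low_of_not_col (m := n + 1) (AF_irrefl φ n) (by omega) (by omega)
      (fun hc => h (sat_of_col hc)) cn⟩

end Pool.Agent.MP_e16607_lc

end

section

set_option autoImplicit false

open Pool.Agent.MP_2e8011_lc Computability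

namespace Pool.Agent.MP_e16607_lc

/-- The matrix of a Boolean relation. -/
def mat (n : ℕ) (A : ℕ → ℕ → Bool) : List (List Bool) :=
  (List.range n).map fun i => (List.range n).map fun j => A i j

/-- Numeric description of the two languages. -/
def Lang (cn : Bool) (x : List Bool) : Prop :=
  ∃ (n k : ℕ) (A : ℕ → ℕ → Bool), (∀ i < n, ∀ j < n, A i j = A j i) ∧ (∀ i < n, A i i = false) ∧
    x = delim (enc (mat n A)) ++ encodeNat k ∧ Low cn (fun i j => A i j = true) n k

open Classical in
lemma code_eq {n : ℕ} (G : SimpleGraph (Fin n)) (k : ℕ) {A : ℕ → ℕ → Bool}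
    (hA : ∀ i j : Fin n, G.Adj i j ↔ A i j = true) :
    code G k = delim (enc (mat n A)) ++ encodeNat k := by
  have h : (List.ofFn fun i => List.ofFn fun j => decide (G.Adj i j)) = mat n A := by
    refine List.ext_getElem (by simp [mat]) fun i h1 h2 => ?_
    refine List.ext_getElem (by simp [mat]) fun j h3 h4 => ?_
    simp [mat, hA]
  rw [code, h]
  change N487b59b3.delimit (N487b59b3.bitEncode (mat n A)) ++ encodeNat k = _
  rw [delim_eq, agree_list (agree_list agree_bool)]

lemma exists_graph_iff (cn : Bool) (φ : ∀ {n : ℕ}, SimpleGraph (Fin n) → ℕ∞)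
    (hφ : ∀ {n : ℕ} {G : SimpleGraph (Fin n)} {A : ℕ → ℕ → Prop},
      (∀ i j : Fin n, G.Adj i j ↔ A i j) → ∀ k : ℕ, φ G ≤ k ↔ Low cn A n k) (x : List Bool) :
    (∃ (n : ℕ) (G : SimpleGraph (Fin n)) (k : ℕ), x = code G k ∧ φ G ≤ k) ↔ Lang cn x := by
  classical
  constructor
  · rintro ⟨n, G, k, hx, h⟩
    let A : ℕ → ℕ → Bool := fun i j =>
      if h : i < n ∧ j < n then decide (G.Adj ⟨i, h.1⟩ ⟨j, h.2⟩) else false
    have hA : ∀ i j : Fin n, G.Adj i j ↔ A i j = true := fun i j => by simp [A]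
    refine ⟨n, k, A, fun i hi j hj => ?_, fun i hi => ?_, hx.trans (code_eq G k hA),
      (hφ hA k).1 h⟩
    · simp [A, hi, hj, G.adj_comm]
    · simp [A, hi]
  · rintro ⟨n, k, A, h1, h2, hx, h⟩
    let G : SimpleGraph (Fin n) :=
      { Adj := fun i j => A i j = true
        symm := ⟨fun i j h => by rw [← h1 _ i.2 _ j.2]; exact h⟩
        loopless := ⟨fun i h => by rw [h2 _ i.2] at h; exact Bool.noConfusion h⟩ }
    have hA : ∀ i j : Fin n, G.Adj i j ↔ A i j = true := fun _ _ => Iff.rfl
    exact ⟨n, G, k, hx.trans (code_eq G k hA).symm, (hφ hA k).2 h⟩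

lemma langDisc_iff (x : List Bool) : langDisc x = true ↔ Lang false x := by
  classical
  exact decide_eq_true_iff.trans (exists_graph_iff false (fun G => disc G) disc_le_iff x)

lemma langCdisc_iff (x : List Bool) : langCdisc x = true ↔ Lang true x := by
  classical
  exact decide_eq_true_iff.trans (exists_graph_iff true (fun G => cdisc G) cdisc_le_iff x)

/-- The inner, universally quantified part of `Low`. -/
def Inner (cn : Bool) (A : ℕ → ℕ → Prop) (n k : ℕ) (c : ℕ → ℕ) : Prop :=
  ∀ S ⊆ Finset.range n, (cn = true → Conn A S) → ∀ j, Col A S j → (S.image c).card ≤ j + k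

lemma Inner.congr {cn : Bool} {A A' : ℕ → ℕ → Prop} {n k : ℕ} {c c' h : ℕ → ℕ}
    (hA : ∀ i < n, ∀ j < n, A i j ↔ A' i j) (hc : ∀ i < n, c' i = h (c i))
    (H : Inner cn A n k c) : Inner cn A' n k c' := by
  intro S hS h1 j ⟨d, hd1, hd2⟩
  have hlt : ∀ a ∈ S, a < n := fun a ha => Finset.mem_range.1 (hS ha)
  refine le_trans ?_ (H S hS (fun hcn => ?_) j ⟨d, hd1, fun a ha b hb hab =>
    hd2 a ha b hb ((hA a (hlt a ha) b (hlt b hb)).1 hab)⟩)
  · rw [Finset.image_congr (g := h ∘ c) (fun a ha => hc a (hlt a ha)), ← Finset.image_image]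
    exact Finset.card_image_le
  · obtain ⟨r, hr, rk, h2⟩ := h1 hcn
    refine ⟨r, hr, rk, fun v hv hne => ?_⟩
    obtain ⟨u, hu, h3, h4⟩ := h2 v hv hne
    exact ⟨u, hu, (hA u (hlt u hu) v (hlt v hv)).2 h3, h4⟩

lemma Low.congr {cn : Bool} {A A' : ℕ → ℕ → Prop} {n k : ℕ}
    (hA : ∀ i < n, ∀ j < n, A i j ↔ A' i j) (H : Low cn A n k) : Low cn A' n k := by
  obtain ⟨c, h1, h2⟩ := H
  exact ⟨c, fun a ha b hb hab => h1 a ha b hb
    ((hA a (Finset.mem_range.1 ha) b (Finset.mem_range.1 hb)).2 hab),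
    Inner.congr (h := id) hA (fun _ _ => rfl) h2⟩

lemma lang_code_iff {cn : Bool} {n k : ℕ} {A : ℕ → ℕ → Bool}
    (h1 : ∀ i < n, ∀ j < n, A i j = A j i) (h2 : ∀ i < n, A i i = false) :
    Lang cn (delim (enc (mat n A)) ++ encodeNat k) ↔ Low cn (fun i j => A i j = true) n k := by
  refine ⟨?_, fun h => ⟨n, k, A, h1, h2, rfl, h⟩⟩
  rintro ⟨n', k', A', -, -, hx, h⟩
  have := congrArg split hx
  simp only [split_delim, Prod.mk.injEq] at this
  have hm := Enc.inj this.1
  have hk : k = k' := by rw [← val_encodeNat k, this.2, val_encodeNat]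
  have hn : n = n' := by simpa [mat] using congrArg List.length hm
  subst hk hn
  refine h.congr fun i hi j hj => ?_
  have e1 := List.map_inj_left.1 hm i (List.mem_range.2 hi)
  have e2 := List.map_inj_left.1 e1 j (List.mem_range.2 hj)
  rw [e2]

/-- Evaluation of a formula under an assignment given by a bit string. -/
def evalCNF (φ : CNF) (a : List Bool) : Bool :=
  φ.all fun C => C.any fun l => decide (a.getD l.1 false = l.2)

lemma pt_evalCNF {α : Type} [Enc α] {φ : α → CNF} {a : α → List Bool} (hφ : PT φ) (ha : PT a) :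
    PT (fun x => evalCNF (φ x) (a x)) := by
  unfold evalCNF
  fun_prop

lemma var_lt_sz {φ : CNF} {C : List (ℕ × Bool)} (hC : C ∈ φ) {l : ℕ × Bool} (hl : l ∈ C) :
    l.1 < sz φ := by
  have h1 := sz_le_of_mem hC
  have h2 := sz_le_of_mem hl
  rw [← Prod.mk.eta (p := l), sz_prod, sz_nat] at h2
  omega

lemma sat_iff_eval (φ : CNF) : MP_2e8011_lc.Sat φ ↔
    ∃ a : List Bool, a.length ≤ sz φ ∧ evalCNF φ a = true := by
  simp only [evalCNF, List.all_eq_true, List.any_eq_true, decide_eq_true_eq]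
  constructor
  · rintro ⟨s, hs⟩
    refine ⟨(List.range (sz φ)).map s, by simp, fun C hC => ?_⟩
    obtain ⟨l, hl, h⟩ := hs C hC
    refine ⟨l, hl, ?_⟩
    rw [List.getD_eq_getElem _ _ (by simpa using var_lt_sz hC hl)]
    simpa using h
  · rintro ⟨a, -, h⟩
    exact ⟨fun i => a.getD i false, h⟩

lemma sz_bits (l : List Bool) : sz l = 3 * l.length := by
  induction l with
  | nil => rfl
  | cons b l ih => simp [ih]; omega

theorem np_of_exists {A B : List Bool → Bool} (hB : B ∈ N68a2faeb.NP)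
    {f : List Bool × List Bool → List Bool} (hf : PT f) (q : Polynomial ℕ)
    (h : ∀ x, A x = true ↔ ∃ w : List Bool, w.length ≤ q.eval x.length ∧ B (f (x, w)) = true) :
    A ∈ N68a2faeb.NP := by
  obtain ⟨g, hg, hgB⟩ := cookLevin hB
  have hgf : PT (fun p => g (f p)) := hg.comp hf
  obtain ⟨p, hp⟩ := hgf.pb_sz
  have h1 : PT (fun v : List Bool × List Bool => (split v.2).1) := pt_split_fst (by fun_prop)
  have h2 : PT (fun v : List Bool × List Bool => (split v.2).2) := pt_split_snd (by fun_prop)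
  have h3 : PT (fun v : List Bool × List Bool => g (f (v.1, (split v.2).1))) :=
    hgf.comp (f := fun v : List Bool × List Bool => (v.1, (split v.2).1)) (by fun_prop)
  refine mem_NP_of_PT (2 * q + 1 + p.comp (6 * Polynomial.X + 1 + 3 * q))
    (fun v => decide ((split v.2).1.length ≤ q.eval v.1.length) &&
      evalCNF (g (f (v.1, (split v.2).1))) (split v.2).2) ?_ fun x => ?_
  · exact PT.and (PT.le h1.length (by fun_prop)) (pt_evalCNF h3 h2)
  · rw [h]
    simp only [Bool.and_eq_true, decide_eq_true_eq]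
    constructor
    · rintro ⟨w, hw, hB⟩
      obtain ⟨a, ha, hev⟩ := (sat_iff_eval _).1 ((hgB _).1 hB)
      refine ⟨delim w ++ a, ?_, by simpa using hw, by simpa using hev⟩
      have h4 : sz (g (f (x, w))) ≤ p.eval (sz (x, w)) := hp (x, w)
      rw [sz_prod, sz_bits, sz_bits] at h4
      have h5 := eval_mono p (show 2 * (3 * x.length) + 1 + 3 * w.length ≤
        6 * x.length + 1 + 3 * q.eval x.length by omega)
      simp [Polynomial.eval_comp]
      omega
    · rintro ⟨v, -, h4, h5⟩
      exact ⟨_, h4, (hgB _).2 ⟨fun i => (split v).2.getD i false, by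
        simpa [evalCNF, SatBy] using h5⟩⟩

theorem np_of_red {A B : List Bool → Bool} (hB : B ∈ N68a2faeb.NP)
    {f : List Bool → List Bool} (hf : PT f) (h : ∀ x, A x = true ↔ B (f x) = true) :
    A ∈ N68a2faeb.NP :=
  np_of_exists hB (f := fun p => f p.1) (by fun_prop) 0 fun x => by
    rw [h]
    exact ⟨fun h => ⟨[], by simp, h⟩, fun ⟨_, _, h⟩ => h⟩

end Pool.Agent.MP_e16607_lc

end

section

set_option autoImplicit false

open Pool.Agent.MP_2e8011_lc Computability

namespace Pool.Agent.MP_e16607_lc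

instance (φ : CNF) (n a b : ℕ) : Decidable (BF φ n a b) := by unfold BF; infer_instance

instance (φ : CNF) (n a b : ℕ) : Decidable (AF φ n a b) := by unfold AF; infer_instance

instance (φ : CNF) (n N a b : ℕ) : Decidable (AG (AF φ n) N a b) := by unfold AG; infer_instance

/-- The reduction from unsatisfiability. -/
def red (φ : CNF) : List Bool :=
  delim (enc (mat ((2 * (3 * (sz φ + 1) + 1 + φ.length) + 1) * (3 * (sz φ + 1) + 1 + φ.length) + 1)
    fun a b => decide (AG (AF φ (sz φ + 1)) (3 * (sz φ + 1) + 1 + φ.length) a b))) ++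
  encodeNat (2 * (sz φ + 1) - 1 + φ.length)

section
variable {α : Type} [Enc α]

@[fun_prop] theorem pt_BF {φ : α → CNF} {n a b : α → ℕ}
    {i : ∀ x, Decidable (BF (φ x) (n x) (a x) (b x))} (hφ : PT φ) (hn : PT n) (ha : PT a)
    (hb : PT b) : PT (fun x => @decide (BF (φ x) (n x) (a x) (b x)) (i x)) := by
  unfold BF
  fun_prop

@[fun_prop] theorem pt_AF {φ : α → CNF} {n a b : α → ℕ}
    {i : ∀ x, Decidable (AF (φ x) (n x) (a x) (b x))} (hφ : PT φ) (hn : PT n) (ha : PT a)
    (hb : PT b) : PT (fun x => @decide (AF (φ x) (n x) (a x) (b x)) (i x)) := by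
  unfold AF
  fun_prop

@[fun_prop] theorem pt_AG {φ : α → CNF} {n N a b : α → ℕ}
    {i : ∀ x, Decidable (AG (AF (φ x) (n x)) (N x) (a x) (b x))} (hφ : PT φ) (hn : PT n)
    (hN : PT N) (ha : PT a) (hb : PT b) :
    PT (fun x => @decide (AG (AF (φ x) (n x)) (N x) (a x) (b x)) (i x)) := by
  unfold AG
  fun_prop

end

theorem pt_red : PT red := by
  refine pt_delim_append (PT.enc ?_) (pt_encodeNat (by fun_prop))
  unfold mat
  fun_prop

lemma AG_symm {A : ℕ → ℕ → Prop} (hA : ∀ a b, A a b ↔ A b a) {N a b : ℕ} (h : AG A N a b) :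
    AG A N b a := by
  obtain ⟨h1, h2 | h2 | ⟨h2, h3 | h3⟩⟩ := h
  · exact ⟨h1.symm, Or.inr (Or.inl h2)⟩
  · exact ⟨h1.symm, Or.inl h2⟩
  · exact ⟨h1.symm, Or.inr (Or.inr ⟨h2.symm, Or.inl h3.symm⟩)⟩
  · exact ⟨h1.symm, Or.inr (Or.inr ⟨h2.symm, Or.inr ((hA _ _).1 h3)⟩)⟩

theorem lang_red (cn : Bool) (φ : CNF) : Lang cn (red φ) ↔ ¬ MP_2e8011_lc.Sat φ := by
  rw [red, lang_code_iff]
  · simp only [decide_eq_true_eq]
    exact low_iff_not_sat (Nat.succ_pos _)
      (fun C hC l hl => (var_lt_sz hC hl).trans (Nat.lt_succ_self _)) cn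
  · intro i _ j _
    exact decide_eq_decide.2 ⟨AG_symm (AF_symm φ _), AG_symm (AF_symm φ _)⟩
  · intro i _
    simp [AG]

theorem coNP_hard {cn : Bool} {L : List Bool → Bool} (hL : ∀ x, L x = true ↔ Lang cn x)
    {A : List Bool → Bool} (hA : A ∈ N68a2faeb.coNP) :
    ∃ f : List Bool → List Bool, PT f ∧ ∀ x, A x = true ↔ L (f x) = true := by
  obtain ⟨g, hg, h⟩ := cookLevin hA
  refine ⟨fun x => red (g x), pt_red.comp hg, fun x => ?_⟩
  rw [hL, lang_red, ← h]
  simp

theorem np_eq_conp_of_mem {cn : Bool} {L : List Bool → Bool} (hL : ∀ x, L x = true ↔ Lang cn x)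
    (h : L ∈ N68a2faeb.NP) : N68a2faeb.NP = N68a2faeb.coNP := by
  have key : ∀ A ∈ N68a2faeb.coNP, A ∈ N68a2faeb.NP := fun A hA => by
    obtain ⟨f, hf, hA⟩ := coNP_hard hL hA
    exact np_of_red h hf hA
  refine Set.Subset.antisymm (fun A hA => key Aᶜ ?_) key
  change Aᶜᶜ ∈ N68a2faeb.NP
  rwa [compl_compl]

end Pool.Agent.MP_e16607_lc

end

section

set_option autoImplicit false
set_option synthInstance.maxSize 2048

open Pool.Agent.MP_2e8011_lc Computability

namespace Pool.Agent.MP_e16607_lc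

/-- The outer certificate describes a graph, a proper colouring, and matches the input. -/
def Outer (x w : List Bool) (W : ℕ) : Prop :=
  (∀ i < rd w W 0 0 0, ∀ j < rd w W 0 0 0,
    (rd w W 1 i j = 1 → rd w W 1 j i = 1 ∧ rd w W 2 i 0 ≠ rd w W 2 j 0)) ∧
  (split x).1 = enc (mat (rd w W 0 0 0) fun i j => decide (rd w W 1 i j = 1)) ∧
  x = delim (split x).1 ++ (split x).2 ∧ (split x).2.reverse.headD true = true

instance (x w : List Bool) (W : ℕ) : Decidable (Outer x w W) := by unfold Outer; infer_instance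

/-- The inner certificate describes a violating induced subgraph. -/
def Viol (cn : Bool) (w z : List Bool) (W k : ℕ) : Prop :=
  (cn = true → ∃ r < rd w W 0 0 0, rd z W 0 r 0 = 1 ∧ ∀ v < rd w W 0 0 0, rd z W 0 v 0 = 1 →
    v ≠ r → ∃ u < rd w W 0 0 0, rd z W 0 u 0 = 1 ∧ rd w W 1 u v = 1 ∧
      rd z W 3 u 0 < rd z W 3 v 0) ∧
  (∀ a < rd w W 0 0 0, rd z W 0 a 0 = 1 → rd z W 2 a 0 < rd z W 1 0 0) ∧
  (∀ a < rd w W 0 0 0, ∀ b < rd w W 0 0 0, rd z W 0 a 0 = 1 → rd z W 0 b 0 = 1 →
    rd w W 1 a b = 1 → rd z W 2 a 0 ≠ rd z W 2 b 0) ∧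
  rd z W 1 0 0 + k < ((List.range (W + 1)).filter fun col =>
    decide (∃ i < rd w W 0 0 0, rd z W 0 i 0 = 1 ∧ rd w W 2 i 0 = col)).length

instance (cn : Bool) (w z : List Bool) (W k : ℕ) : Decidable (Viol cn w z W k) := by
  unfold Viol; infer_instance

section
variable {α : Type} [Enc α]

theorem pt_Outer {x w : α → List Bool} {W : α → ℕ} (hx : PT x) (hw : PT w) (hW : PT W) :
    PT (fun a => decide (Outer (x a) (w a) (W a))) := by
  have h1 := pt_split_fst hx
  have h2 := pt_split_snd hx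
  have h3 := pt_delim_append h1 h2
  have h4 : PT (fun a => mat (rd (w a) (W a) 0 0 0) fun i j =>
      decide (rd (w a) (W a) 1 i j = 1)) := by
    unfold mat
    fun_prop
  unfold Outer
  refine PT.decide_and (by fun_prop) (PT.decide_and (PT.eq h1 h4.enc)
    (PT.decide_and (PT.eq hx h3) (PT.eq (h2.reverse.headD (PT.const _)) (PT.const _))))

theorem pt_Viol (cn : Bool) {w z : α → List Bool} {W k : α → ℕ} (hw : PT w) (hz : PT z)
    (hW : PT W) (hk : PT k) : PT (fun a => decide (Viol cn (w a) (z a) (W a) (k a))) := by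
  unfold Viol
  fun_prop

end

lemma card_image_eq_length {n W : ℕ} {c : ℕ → ℕ} (hc : ∀ i, c i ≤ W) (p : ℕ → Prop)
    [DecidablePred p] : (((Finset.range n).filter p).image c).card =
      ((List.range (W + 1)).filter fun col => decide (∃ i < n, p i ∧ c i = col)).length := by
  rw [← List.toFinset_card_of_nodup (List.nodup_range.filter _)]
  congr 1
  ext col
  simp only [Finset.mem_image, Finset.mem_filter, Finset.mem_range, List.mem_toFinset,
    List.mem_filter, List.mem_range, decide_eq_true_eq]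
  constructor
  · rintro ⟨i, ⟨h1, h2⟩, rfl⟩
    exact ⟨Nat.lt_succ_of_le (hc i), i, h1, h2, rfl⟩
  · rintro ⟨-, i, h1, h2, h3⟩
    exact ⟨i, ⟨h1, h2⟩, h3⟩

lemma not_inner_of_viol {cn : Bool} {w z : List Bool} {W k : ℕ}
    (h : Viol cn w z W (min k (rd w W 0 0 0))) :
    ¬ Inner cn (fun i j => rd w W 1 i j = 1) (rd w W 0 0 0) k (fun i => rd w W 2 i 0) := by
  obtain ⟨h1, h2, h3, h4⟩ := h
  intro H
  rw [← card_image_eq_length (fun i => rd_le w W 2 i 0) (fun i => rd z W 0 i 0 = 1)] at h4
  have h5 := H ((Finset.range (rd w W 0 0 0)).filter fun i => rd z W 0 i 0 = 1)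
    (Finset.filter_subset _ _) (fun hcn => ?_) (rd z W 1 0 0) ⟨fun a => rd z W 2 a 0, ?_, ?_⟩
  · have h6 := (Finset.card_image_le (f := fun i => rd w W 2 i 0)).trans
      (Finset.card_filter_le (Finset.range (rd w W 0 0 0)) fun i => rd z W 0 i 0 = 1)
    rw [Finset.card_range] at h6
    omega
  · obtain ⟨r, hr, hr', h⟩ := h1 hcn
    refine ⟨r, by simp [hr, hr'], fun v => rd z W 3 v 0, fun v hv hne => ?_⟩
    simp only [Finset.mem_filter, Finset.mem_range] at hv
    obtain ⟨u, hu, hu', h⟩ := h v hv.1 hv.2 hne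
    exact ⟨u, by simp [hu, hu'], h⟩
  · intro a ha
    simp only [Finset.mem_filter, Finset.mem_range] at ha
    exact h2 a ha.1 ha.2
  · intro a ha b hb
    simp only [Finset.mem_filter, Finset.mem_range] at ha hb
    exact h3 a ha.1 b hb.1 ha.2 hb.2

lemma viol_of_not_inner {cn : Bool} {w : List Bool} {W k : ℕ} (hW : rd w W 0 0 0 < W)
    (h : ¬ Inner cn (fun i j => rd w W 1 i j = 1) (rd w W 0 0 0) k (fun i => rd w W 2 i 0)) :
    ∃ z : List Bool, z.length = 4 * W * W * W ∧ Viol cn w z W (min k (rd w W 0 0 0)) := by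
  simp only [Inner, not_forall, not_le] at h
  obtain ⟨S, hS, hcn, j, ⟨d, hd1, hd2⟩, hlt⟩ := h
  set n := rd w W 0 0 0 with hn
  have hSn : S.card ≤ n := by simpa using Finset.card_le_card hS
  have hmem : ∀ a ∈ S, a < n := fun a ha => Finset.mem_range.1 (hS ha)
  have hj : j < n := by
    have := Finset.card_image_le (s := S) (f := fun i => rd w W 2 i 0)
    omega
  obtain ⟨rk, hrk1, hrk2⟩ : ∃ rk : ℕ → ℕ, (∀ v ∈ S, rk v ≤ W) ∧ (cn = true → ∃ r ∈ S, ∀ v ∈ S,
      v ≠ r → ∃ u ∈ S, rd w W 1 u v = 1 ∧ rk u < rk v) := by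
    by_cases hc : cn = true
    · obtain ⟨r, hr, rk, h⟩ := hcn hc
      refine ⟨fun v => rank (S.image rk) (rk v), fun v hv => ?_, fun _ => ⟨r, hr, fun v hv hne => ?_⟩⟩
      · have := rank_lt_card (Finset.mem_image_of_mem rk hv)
        have := Finset.card_image_le (s := S) (f := rk)
        dsimp only
        omega
      · obtain ⟨u, hu, h1, h2⟩ := h v hv hne
        exact ⟨u, hu, h1, rank_lt_rank (Finset.mem_image_of_mem rk hu) h2⟩
    · exact ⟨fun _ => 0, fun _ _ => Nat.zero_le _, fun h => absurd h hc⟩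
  obtain ⟨z, hz, hD⟩ := exists_table W fun t i _ =>
    if t = 0 then (if i ∈ S then 1 else 0) else if t = 1 then j else if t = 2 then d i else rk i
  have e0 : ∀ i < n, rd z W 0 i 0 = 1 ↔ i ∈ S := fun i hi => by
    rw [hD 0 (by omega) i (by omega) 0 (by omega) (by simp only [if_pos]; split_ifs <;> omega)]
    simp
  have e1 : rd z W 1 0 0 = j := by
    rw [hD 1 (by omega) 0 (by omega) 0 (by omega) (by simp; omega)]
    simp
  have e2 : ∀ i ∈ S, rd z W 2 i 0 = d i := fun i hi => by
    have := hd1 i hi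
    have := hmem i hi
    rw [hD 2 (by omega) i (by omega) 0 (by omega) (by simp; omega)]
    simp
  have e3 : ∀ i ∈ S, rd z W 3 i 0 = rk i := fun i hi => by
    have := hmem i hi
    rw [hD 3 (by omega) i (by omega) 0 (by omega) (by simpa using hrk1 i hi)]
    simp
  refine ⟨z, hz, fun hc => ?_, fun a ha h => ?_, fun a ha b hb h1 h2 h3 => ?_, ?_⟩
  · obtain ⟨r, hr, h⟩ := hrk2 hc
    refine ⟨r, hmem r hr, (e0 r (hmem r hr)).2 hr, fun v hv hv' hne => ?_⟩
    have hvS := (e0 v hv).1 hv'
    obtain ⟨u, hu, h1, h2⟩ := h v hvS hne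
    exact ⟨u, hmem u hu, (e0 u (hmem u hu)).2 hu, h1, by rwa [e3 u hu, e3 v hvS]⟩
  · have := (e0 a ha).1 h
    rw [e1, e2 a this]
    exact hd1 a this
  · have a1 := (e0 a ha).1 h1
    have a2 := (e0 b hb).1 h2
    rw [e2 a a1, e2 b a2]
    exact hd2 a a1 b a2 h3
  · rw [← card_image_eq_length (fun i => rd_le w W 2 i 0) (fun i => rd z W 0 i 0 = 1), e1]
    have : (Finset.range n).filter (fun i => rd z W 0 i 0 = 1) = S := by
      ext i
      simp only [Finset.mem_filter, Finset.mem_range]
      exact ⟨fun h => (e0 i h.1).1 h.2, fun h => ⟨hmem i h, (e0 i (hmem i h)).2 h⟩⟩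
    rw [this]
    omega

lemma le_length_code (n : ℕ) (A : ℕ → ℕ → Bool) (r : List Bool) :
    n < (delim (enc (mat n A)) ++ r).length + 1 := by
  have h1 := length_le_sz (mat n A)
  simp only [mat, List.length_map, List.length_range, sz] at h1
  simp only [List.length_append, length_delim, mat]
  omega

lemma Outer.lt {x w : List Bool} {W : ℕ} (h : Outer x w W) : rd w W 0 0 0 < x.length + 1 := by
  obtain ⟨-, h1, h2, -⟩ := h
  rw [h1] at h2
  conv_rhs => rw [h2]
  exact le_length_code _ _ _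

lemma mat_congr {n : ℕ} {A A' : ℕ → ℕ → Bool} (h : ∀ i < n, ∀ j < n, A i j = A' i j) :
    mat n A = mat n A' :=
  List.map_congr_left fun i hi => List.map_congr_left fun j hj =>
    h i (List.mem_range.1 hi) j (List.mem_range.1 hj)

lemma lang_iff_outer (cn : Bool) (x : List Bool) : Lang cn x ↔ ∃ w : List Bool,
    w.length ≤ 4 * (x.length + 1) * (x.length + 1) * (x.length + 1) ∧ Outer x w (x.length + 1) ∧
      Inner cn (fun i j => rd w (x.length + 1) 1 i j = 1) (rd w (x.length + 1) 0 0 0)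
        (val (split x).2) (fun i => rd w (x.length + 1) 2 i 0) := by
  constructor
  · rintro ⟨n, k, A, h1, -, hx, c, hc, hin⟩
    have hn : n < x.length + 1 := hx ▸ le_length_code n A _
    generalize x.length + 1 = W at hn
    obtain ⟨w, hw, hD⟩ := exists_table W fun t i j =>
      if t = 0 then n else if t = 1 then (if A i j = true then 1 else 0)
        else rank ((Finset.range n).image c) (c i)
    have e0 : rd w W 0 0 0 = n := by
      rw [hD 0 (by omega) 0 (by omega) 0 (by omega) (by simp; omega)]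
      simp
    have e1 : ∀ i < n, ∀ j < n, A i j = true ↔ rd w W 1 i j = 1 := fun i hi j hj => by
      rw [hD 1 (by omega) i (by omega) j (by omega) (by simp only [if_pos]; split_ifs <;> omega)]
      simp
    have e2 : ∀ i < n, rd w W 2 i 0 = rank ((Finset.range n).image c) (c i) := fun i hi => by
      have := rank_lt_card (Finset.mem_image_of_mem c (Finset.mem_range.2 hi))
      have := Finset.card_image_le (s := Finset.range n) (f := c)
      rw [Finset.card_range] at this
      rw [hD 2 (by omega) i (by omega) 0 (by omega) (by simp; omega)]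
      simp
    have hs : split x = (enc (mat n A), encodeNat k) := by rw [hx, split_delim]
    refine ⟨w, hw.le, ⟨?_, ?_, ?_, ?_⟩, ?_⟩
    · rw [e0]
      intro i hi j hj h
      have h2 := (e1 i hi j hj).2 h
      refine ⟨(e1 j hj i hi).1 (h1 i hi j hj ▸ h2), ?_⟩
      rw [e2 i hi, e2 j hj]
      exact fun h3 => hc i (Finset.mem_range.2 hi) j (Finset.mem_range.2 hj) h2
        (rank_injOn _ (Finset.mem_image_of_mem c (Finset.mem_range.2 hi))
          (Finset.mem_image_of_mem c (Finset.mem_range.2 hj)) h3)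
    · rw [hs, e0]
      refine congrArg enc (mat_congr fun i hi j hj => ?_)
      rw [Bool.eq_iff_iff, decide_eq_true_iff]
      exact e1 i hi j hj
    · rw [hs]; exact hx
    · rw [hs]; exact canon_encodeNat k
    · rw [hs, e0, val_encodeNat]
      exact Inner.congr e1 e2 hin
  · rintro ⟨w, -, ⟨h1, h2, h3, h4⟩, hin⟩
    generalize x.length + 1 = W at *
    refine ⟨rd w W 0 0 0, val (split x).2, fun i j => decide (rd w W 1 i j = 1),
      fun i hi j hj => ?_, fun i hi => ?_, ?_, fun i => rd w W 2 i 0, fun i hi j hj h => ?_, ?_⟩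
    · exact decide_eq_decide.2 ⟨fun h => (h1 i hi j hj h).1, fun h => (h1 j hj i hi h).1⟩
    · exact decide_eq_false fun h => (h1 i hi i hi h).2 rfl
    · rw [encodeNat_val h4, ← h2]; exact h3
    · exact (h1 i (Finset.mem_range.1 hi) j (Finset.mem_range.1 hj) (of_decide_eq_true h)).2
    · exact Inner.congr (h := id) (fun i _ j _ => by simp) (fun _ _ => rfl) hin

/-- The verifier of the complement of the inner language. -/
def badR (cn : Bool) (p : List Bool × List Bool) : Bool :=
  !decide (Outer (split p.1).1 (split p.1).2 ((split p.1).1.length + 1)) ||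
    decide (Viol cn (split p.1).2 p.2 ((split p.1).1.length + 1)
      (min (val (split (split p.1).1).2) (rd (split p.1).2 ((split p.1).1.length + 1) 0 0 0)))

theorem pt_badR (cn : Bool) : PT (badR cn) := by
  have h1 : PT (fun p : List Bool × List Bool => (split p.1).1) := pt_split_fst (by fun_prop)
  have h2 : PT (fun p : List Bool × List Bool => (split p.1).2) := pt_split_snd (by fun_prop)
  have h3 : PT (fun p : List Bool × List Bool => (split p.1).1.length + 1) := h1.length.succ
  exact PT.or (pt_Outer h1 h2 h3).not (pt_Viol cn h2 (by fun_prop) h3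
    (pt_min_val (pt_split_snd h1) (pt_rd h2 h3 (PT.const _) (PT.const _) (PT.const _))))

theorem mem_np_of_eq {cn : Bool} {L : List Bool → Bool} (hL : ∀ x, L x = true ↔ Lang cn x)
    (h : N68a2faeb.NP = N68a2faeb.coNP) : L ∈ N68a2faeb.NP := by
  classical
  let q : Polynomial ℕ := 4 * (Polynomial.X + 1) * (Polynomial.X + 1) * (Polynomial.X + 1)
  have hq : ∀ m, q.eval m = 4 * (m + 1) * (m + 1) * (m + 1) := fun m => by simp [q]
  let Bad : List Bool → Bool := fun y =>
    decide (∃ z : List Bool, z.length ≤ q.eval y.length ∧ badR cn (y, z) = true)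
  have h1 : Bad ∈ N68a2faeb.NP := mem_NP_of_PT q (badR cn) (pt_badR cn) fun y => by simp [Bad]
  have h2 : Badᶜ ∈ N68a2faeb.NP := by
    have : Bad ∈ N68a2faeb.coNP := h ▸ h1
    exact this
  refine np_of_exists h2 (f := fun p => delim p.1 ++ p.2)
    (pt_delim_append (by fun_prop) (by fun_prop)) q fun x => ?_
  rw [hL, lang_iff_outer, hq]
  refine exists_congr fun w => and_congr_right fun _ => ?_
  simp only [Bad, badR, Pi.compl_apply, Bool.compl_eq_bnot, Bool.not_eq_true', split_delim,
    decide_eq_false_iff_not, not_exists, not_and, Bool.or_eq_true, decide_eq_true_eq, not_or,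
    not_not]
  constructor
  · rintro ⟨h3, h4⟩ z _
    exact ⟨h3, fun h5 => not_inner_of_viol h5 h4⟩
  · intro h3
    have h4 := (h3 [] (by simp)).1
    refine ⟨h4, ?_⟩
    by_contra h5
    obtain ⟨z, hz, h6⟩ := viol_of_not_inner h4.lt h5
    refine (h3 z ?_).2 h6
    rw [hz, ← hq]
    exact eval_mono q (by simp; omega)

theorem langDisc_mem_iff : langDisc ∈ N68a2faeb.NP ↔ N68a2faeb.NP = N68a2faeb.coNP :=
  ⟨np_eq_conp_of_mem langDisc_iff, mem_np_of_eq langDisc_iff⟩

theorem langCdisc_mem_iff : langCdisc ∈ N68a2faeb.NP ↔ N68a2faeb.NP = N68a2faeb.coNP :=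
  ⟨np_eq_conp_of_mem langCdisc_iff, mem_np_of_eq langCdisc_iff⟩

end Pool.Agent.MP_e16607_lc

end
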