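import Pool.Agent.Mg.F2e8011.G3af061
import Pool.Agent.Mg.F2e8011.G2c7daa

section

/-! The regular expanding constraint graph of a formula with clauses of width four. -/

namespace Pool.Agent.MP_9e68e9_lc.PCP

open Finset Pool.Agent.MP_2e8011_lc
open scoped BigOperators

theorem sum_le_of_inj {α β : Type} [DecidableEq β] (s : Finset α) (t : Finset β) (e : α → β)
    (hi : ∀ a ∈ s, ∀ b ∈ s, e a = e b → a = b) (hm : ∀ a ∈ s, e a ∈ t) (f : α → ℝ) (g : β → ℝ)
    (hg : ∀ b, 0 ≤ g b) (h : ∀ a ∈ s, f a ≤ g (e a)) : ∑ a ∈ s, f a ≤ ∑ b ∈ t, g b := by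
  refine (Finset.sum_le_sum h).trans ?_
  rw [← Finset.sum_image (g := e) (f := g) hi]
  refine Finset.sum_le_sum_of_subset_of_nonneg ?_ (fun b _ _ => hg b)
  intro b hb
  obtain ⟨a, ha, rfl⟩ := Finset.mem_image.1 hb
  exact hm a ha

/-- Number of `i < n` with `p i`. -/
def cntP (p : ℕ → Bool) (n : ℕ) : ℕ := ((List.range n).filter p).length

theorem cntP_add (p : ℕ → Bool) (a b : ℕ) :
    cntP p (a + b) = cntP p a + cntP (fun k => p (a + k)) b := by
  simp [cntP, List.range_add, List.filter_map, Function.comp_def]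

theorem getD_cntP {p : ℕ → Bool} {v B : ℕ} (hv : v < B) (hp : p v = true) :
    ((List.range B).filter p).getD (cntP p v) 0 = v ∧ cntP p v < cntP p B := by
  obtain ⟨k, rfl⟩ : ∃ k, B = v + 1 + k := ⟨B - v - 1, by omega⟩
  unfold cntP
  rw [List.range_add, List.range_succ, List.filter_append, List.filter_append]
  simp [hp]

theorem cntP_getD {p : ℕ → Bool} {i B : ℕ} (hi : i < cntP p B) :
    ((List.range B).filter p).getD i 0 < B ∧ p (((List.range B).filter p).getD i 0) = true ∧
      cntP p (((List.range B).filter p).getD i 0) = i := by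
  have hm : ((List.range B).filter p).getD i 0 ∈ (List.range B).filter p := by
    rw [List.getD_eq_getElem _ _ hi]; exact List.getElem_mem _
  have h1 := List.mem_range.1 (List.mem_filter.1 hm).1
  have h2 := (List.mem_filter.1 hm).2
  refine ⟨h1, h2, ?_⟩
  obtain ⟨e, hl⟩ := getD_cntP h1 h2
  have nd : ((List.range B).filter p).Nodup := List.nodup_range.filter _
  exact nd.getElem_inj_iff.1
    ((List.getD_eq_getElem _ _ hl).symm.trans (e.trans (List.getD_eq_getElem _ _ hi)))

/-- One plus the integer square root. -/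
def sq1 (x : ℕ) : ℕ := cntP (fun i => decide (i * i ≤ x)) (x + 1)

theorem sq1_eq (x : ℕ) : sq1 x = Nat.sqrt x + 1 := by
  unfold sq1
  obtain ⟨k, hk⟩ : ∃ k, x + 1 = (Nat.sqrt x + 1) + k :=
    ⟨x - Nat.sqrt x, by have := Nat.sqrt_le_self x; omega⟩
  rw [hk, cntP_add]
  have h1 : cntP (fun i => decide (i * i ≤ x)) (Nat.sqrt x + 1) = Nat.sqrt x + 1 := by
    unfold cntP
    rw [List.filter_eq_self.2, List.length_range]
    intro a ha
    have := List.mem_range.1 ha
    exact decide_eq_true (Nat.le_sqrt.1 (by omega))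
  have h2 : cntP (fun k => decide ((Nat.sqrt x + 1 + k) * (Nat.sqrt x + 1 + k) ≤ x)) k = 0 := by
    unfold cntP
    rw [List.filter_eq_nil_iff.2, List.length_nil]
    intro a _
    simp only [decide_eq_true_eq, ← Nat.le_sqrt]
    omega
  rw [h1, h2]

theorem lt_sq1 (x : ℕ) : x < sq1 x * sq1 x := by
  rw [sq1_eq]; exact Nat.lt_succ_sqrt x

theorem sq1_le {x : ℕ} (h : 0 < x) : sq1 x * sq1 x ≤ 4 * x := by
  rw [sq1_eq]
  have h1 : 0 < Nat.sqrt x := Nat.sqrt_pos.2 h
  have h2 := Nat.sqrt_le x
  nlinarith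

/-- The alphabet of the graph. -/
abbrev Sg : Type := Fin 4 → Bool

/-- Edge labels. -/
abbrev Lb : Type := Option (Option (Bool × (Bool × Bool))) × Bool

/-- Reverse label. -/
def flp (j : Lb) : Lb := (j.1, !j.2)

theorem flp_inv : Function.Involutive flp := fun j => by simp [flp]

/-- The literal with occurrence number `o`. -/
def lit (φ : CNF) (o : ℕ) : ℕ × Bool := (φ.getD (o / 4) []).getD (o % 4) (0, false)

/-- Number of occurrences. -/
def MM (φ : CNF) : ℕ := 4 * φ.length

/-- The variable of a vertex. -/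
def vr (φ : CNF) (v : ℕ) : ℕ := (lit φ (v % MM φ)).1

/-- Membership in a cloud. -/
def inC (φ : CNF) (x w : ℕ) : Bool := decide (vr φ w = x)

/-- The cloud of a variable. -/
def cloud (φ : CNF) (x : ℕ) : List ℕ := (List.range (4 * MM φ)).filter (inC φ x)

/-- Position of a vertex in its cloud. -/
def rank (φ : CNF) (v : ℕ) : ℕ := cntP (inC φ (vr φ v)) v

/-- Side of the expander on a cloud. -/
def cs (φ : CNF) (x : ℕ) : ℕ := sq1 (cntP (inC φ x) (MM φ))

/-- Side of the global expander. -/
def gs (φ : CNF) : ℕ := sq1 (4 * MM φ)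

/-- Number of vertices. -/
def NN (φ : CNF) : ℕ := gs φ * gs φ

/-- Neighbour in the clause cycle. -/
def nxR (φ : CNF) (b : Bool) (v : ℕ) : ℕ :=
  if v < MM φ then 4 * (v / 4) + (v % 4 + (bif b then 1 else 3)) % 4 else v

/-- Neighbour in the cloud. -/
def nxC (φ : CNF) (i : Bool × Bool) (b : Bool) (v : ℕ) : ℕ :=
  if v < 4 * MM φ ∧ rank φ v < cs φ (vr φ v) * cs φ (vr φ v) then
    (cloud φ (vr φ v)).getD (marg i b (cs φ (vr φ v)) (rank φ v)) 0 else v

/-- Neighbour along a label. -/
def nx (φ : CNF) : Lb → ℕ → ℕ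
  | (none, _), v => v
  | (some none, b), v => nxR φ b v
  | (some (some (true, i)), b), v => nxC φ i b v
  | (some (some (false, i)), b), v => marg i b (gs φ) v

/-- Position of a vertex in its clause. -/
def pos (v : ℕ) : Fin 4 := ⟨v % 4, Nat.mod_lt _ (by norm_num)⟩

/-- Constraint on the clause cycle. -/
def conR (φ : CNF) (v : ℕ) (x y : Sg) : Bool :=
  if v < MM φ then decide (x = y) && decide (∃ p : Fin 4, x p = (lit φ (4 * (v / 4) + p)).2)
  else true

/-- Constraint along a label. -/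
def con (φ : CNF) : Lb → ℕ → Sg → Sg → Bool
  | (some none, true), v, x, y => conR φ v x y
  | (some (some (true, i)), true), v, x, y => decide (x (pos v) = y (pos (nxC φ i true v)))
  | _, _, _, _ => true

theorem cntP_cloud (φ : CNF) (x t : ℕ) :
    cntP (inC φ x) (t * MM φ) = t * cntP (inC φ x) (MM φ) := by
  induction t with
  | zero => simp [cntP]
  | succ t ih =>
    rw [Nat.succ_mul, cntP_add, ih, Nat.succ_mul]
    congr 2
    funext k
    simp [inC, vr]

theorem cs_le (φ : CNF) {v : ℕ} (hv : v < 4 * MM φ) :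
    cs φ (vr φ v) * cs φ (vr φ v) ≤ cntP (inC φ (vr φ v)) (4 * MM φ) := by
  have h1 := (getD_cntP (p := inC φ (vr φ v)) hv (by simp [inC])).2
  rw [cntP_cloud] at h1 ⊢
  exact sq1_le (by omega)

theorem cloud_getD (φ : CNF) {x r : ℕ} (hr : r < cntP (inC φ x) (4 * MM φ)) :
    (cloud φ x).getD r 0 < 4 * MM φ ∧ vr φ ((cloud φ x).getD r 0) = x ∧
      rank φ ((cloud φ x).getD r 0) = r := by
  obtain ⟨h1, h2, h3⟩ := cntP_getD hr
  have h4 : vr φ ((cloud φ x).getD r 0) = x := by simpa [inC, cloud] using h2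
  refine ⟨h1, h4, ?_⟩
  unfold rank
  rw [h4]; exact h3

theorem getD_rank (φ : CNF) {v : ℕ} (hv : v < 4 * MM φ) :
    (cloud φ (vr φ v)).getD (rank φ v) 0 = v :=
  (getD_cntP (p := inC φ (vr φ v)) hv (by simp [inC])).1

theorem lt_NN (φ : CNF) : 4 * MM φ < NN φ := lt_sq1 _

theorem nxC_spec (φ : CNF) (i : Bool × Bool) (b : Bool) {v : ℕ}
    (h : v < 4 * MM φ ∧ rank φ v < cs φ (vr φ v) * cs φ (vr φ v)) :
    nxC φ i b v < 4 * MM φ ∧ vr φ (nxC φ i b v) = vr φ v ∧
      rank φ (nxC φ i b v) = marg i b (cs φ (vr φ v)) (rank φ v) := by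
  unfold nxC
  rw [if_pos h]
  exact cloud_getD φ ((marg_lt i b h.2).trans_le (cs_le φ h.1))

theorem nx_lt (φ : CNF) (j : Lb) {v : ℕ} (hv : v < NN φ) : nx φ j v < NN φ := by
  have := lt_NN φ
  rcases j with ⟨_ | _ | ⟨_ | _, i⟩, b⟩
  · exact hv
  · simp only [nx, nxR]
    split_ifs with h
    · unfold MM at *; omega
    · exact hv
  · exact marg_lt _ _ hv
  · simp only [nx]
    by_cases h : v < 4 * MM φ ∧ rank φ v < cs φ (vr φ v) * cs φ (vr φ v)
    · have := (nxC_spec φ i b h).1; omega
    · rw [nxC, if_neg h]; exact hv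

theorem nx_inv (φ : CNF) (j : Lb) {v : ℕ} (hv : v < NN φ) : nx φ (flp j) (nx φ j v) = v := by
  rcases j with ⟨_ | _ | ⟨_ | _, i⟩, b⟩
  · rfl
  · simp only [nx, nxR, flp]
    by_cases h : v < MM φ
    · cases b <;> simp only [h, if_true, cond_true, cond_false, Bool.not_true, Bool.not_false] <;>
        (rw [if_pos (by unfold MM at *; omega)]; omega)
    · simp [h]
  · exact marg_inv _ _ hv
  · simp only [nx, flp]
    by_cases h : v < 4 * MM φ ∧ rank φ v < cs φ (vr φ v) * cs φ (vr φ v)
    · obtain ⟨h1, h2, h3⟩ := nxC_spec φ i b h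
      rw [nxC, if_pos ⟨h1, by rw [h2, h3]; exact marg_lt _ _ h.2⟩, h2, h3, marg_inv _ _ h.2]
      exact getD_rank φ h.1
    · have : nxC φ i b v = v := by rw [nxC, if_neg h]
      rw [this, nxC, if_neg h]

/-- The neighbour maps on the vertex type. -/
def sg (φ : CNF) (j : Lb) (v : Fin (NN φ)) : Fin (NN φ) := ⟨nx φ j v, nx_lt φ j v.2⟩

theorem sg_inv (φ : CNF) (j : Lb) (v : Fin (NN φ)) : sg φ (flp j) (sg φ j v) = v :=
  Fin.ext (nx_inv φ j v.2)

theorem wk_sg (φ : CNF) (v : Fin (NN φ)) (p : List Lb) :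
    (wk (sg φ) v p).val = wk (nx φ) v.val p := by
  induction p generalizing v with
  | nil => rfl
  | cons j p ih => rw [wk_cons, wk_cons, ih]; rfl

instance (φ : CNF) : Nonempty (Fin (NN φ)) := ⟨⟨0, (Nat.zero_le _).trans_lt (lt_NN φ)⟩⟩

theorem card_Lb : Fintype.card Lb = 20 := by simp [Lb]

theorem var_ineq {J : Type} [Fintype J] (x : J → ℝ) (j0 : J) :
    (𝔼 j, x j) ^ 2 ≤ 𝔼 j, x j ^ 2 -
      1 / (2 * (Fintype.card J : ℝ) ^ 2) * ∑ k, (x j0 - x k) ^ 2 := by
  haveI : Nonempty J := ⟨j0⟩
  have hD : (0 : ℝ) < Fintype.card J := by exact_mod_cast Fintype.card_pos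
  have h1 : ∑ k, (x j0 - x k) ^ 2 ≤ ∑ j, ∑ k, (x j - x k) ^ 2 :=
    Finset.single_le_sum (f := fun j => ∑ k, (x j - x k) ^ 2)
      (fun j _ => Finset.sum_nonneg fun _ _ => sq_nonneg _) (mem_univ j0)
  have h2 : ∑ j, ∑ k, (x j - x k) ^ 2 =
      2 * Fintype.card J * ∑ j, x j ^ 2 - 2 * (∑ j, x j) ^ 2 := by
    simp only [sub_sq, Finset.sum_add_distrib, Finset.sum_sub_distrib, Finset.sum_const,
      Finset.card_univ, nsmul_eq_mul, mul_assoc, ← Finset.mul_sum, ← Finset.sum_mul]
    ring
  rw [Fintype.expect_eq_sum_div_card, Fintype.expect_eq_sum_div_card]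
  have h3 := mul_le_mul_of_nonneg_left h1
    (show 0 ≤ 1 / (2 * (Fintype.card J : ℝ) ^ 2) by positivity)
  have h4 : 1 / (2 * (Fintype.card J : ℝ) ^ 2) * ∑ j, ∑ k, (x j - x k) ^ 2 =
      (∑ j, x j ^ 2) / Fintype.card J - ((∑ j, x j) / Fintype.card J) ^ 2 := by
    rw [h2]; field_simp
  linarith

theorem sg_gap (φ : CNF) (f : Fin (NN φ) → ℝ) (h0 : 𝔼 v, f v = 0) :
    𝔼 v, (𝔼 j, f (sg φ j v)) ^ 2 ≤ (1 - 1 / 1600) * 𝔼 v, f v ^ 2 := by
  have hN : (0 : ℝ) < NN φ := by exact_mod_cast (Nat.zero_le _).trans_lt (lt_NN φ)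
  let g : ℕ → ℝ := fun r => if h : r < NN φ then f ⟨r, h⟩ else 0
  have hg : ∀ v : Fin (NN φ), g v = f v := fun v => by simp [g]
  have s0 : ∑ r ∈ range (gs φ * gs φ), g r = 0 := by
    rw [show gs φ * gs φ = NN φ from rfl, Finset.sum_range]
    simp only [hg]
    rw [Fintype.expect_eq_sum_div_card, Fintype.card_fin, div_eq_zero_iff] at h0
    exact h0.resolve_right hN.ne'
  have m := marg_gap (gs φ) g s0
  rw [show gs φ * gs φ = NN φ from rfl] at m
  simp only [Finset.sum_range, hg] at m
  have h1 : ∀ v, (𝔼 j, f (sg φ j v)) ^ 2 ≤ 𝔼 j, f (sg φ j v) ^ 2 -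
      1 / 800 * ∑ i : Bool × Bool, (f v - g (marg i true (gs φ) v)) ^ 2 := by
    intro v
    have a := var_ineq (fun j => f (sg φ j v)) (none, true)
    rw [card_Lb] at a
    have b : ∑ i : Bool × Bool, (f v - g (marg i true (gs φ) v)) ^ 2 ≤
        ∑ k, (f (sg φ (none, true) v) - f (sg φ k v)) ^ 2 := by
      refine sum_le_of_inj _ _ (fun i => ((some (some (false, i)), true) : Lb)) ?_
        (fun _ _ => mem_univ _) _ _ (fun _ => sq_nonneg _) (fun i _ => le_of_eq ?_)
      · intro a _ b _ e; simpa using e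
      · rw [← hg (sg φ (some (some (false, i)), true) v)]; rfl
    norm_num at a ⊢
    linarith
  refine (Finset.expect_le_expect fun v _ => h1 v).trans ?_
  rw [Finset.expect_sub_distrib, Finset.expect_comm, ← Finset.mul_expect]
  simp only [expect_step (sg_inv φ) _ (fun v => f v ^ 2), Finset.expect_const univ_nonempty]
  rw [Fintype.expect_eq_sum_div_card (fun v : Fin (NN φ) =>
    ∑ i : Bool × Bool, (f v - g (marg i true (gs φ) v)) ^ 2), Finset.sum_comm,
    Fintype.expect_eq_sum_div_card, Fintype.card_fin]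
  have := div_le_div_of_nonneg_right m hN.le
  rw [mul_div_assoc] at this
  linarith

/-- All clauses have width four. -/
def W4 (φ : CNF) : Prop := ∀ c ∈ φ, c.length = 4

/-- Number of violated clauses. -/
def viol (a : ℕ → Bool) (φ : CNF) : ℕ := φ.countP (fun c => c.all (fun l => a l.1 != l.2))

theorem countP_eq_sum {α : Type} (P : α → Bool) (d : α) (l : List α) :
    (l.countP P : ℝ) = ∑ i ∈ range l.length, ind (P (l.getD i d) = true) := by
  induction l with
  | nil => simp
  | cons a l ih =>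
    rw [List.length_cons, Finset.sum_range_succ', List.countP_cons]
    push_cast
    rw [ih]
    simp [ind]

theorem sum_range_four (g : ℕ → ℝ) (m : ℕ) :
    ∑ o ∈ range (4 * m), g o =
      ∑ i ∈ range m, (g (4 * i) + g (4 * i + 1) + g (4 * i + 2) + g (4 * i + 3)) := by
  induction m with
  | zero => simp
  | succ m ih =>
    rw [Finset.sum_range_succ, ← ih, show 4 * (m + 1) = 4 * m + 1 + 1 + 1 + 1 by ring]
    simp only [Finset.sum_range_succ]
    ring

theorem lit_eq (φ : CNF) (i : ℕ) (p : Fin 4) :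
    lit φ (4 * i + p) = (φ.getD i []).getD p (0, false) := by
  have := p.2
  unfold lit
  rw [show (4 * i + p) / 4 = i by omega, show (4 * i + p) % 4 = p by omega]

theorem graph_complete {φ : CNF} (hw : W4 φ) {a : ℕ → Bool} (ha : SatBy a φ) :
    ∃ A0 : ℕ → Sg, ∀ v j, con φ j v (A0 v) (A0 (nx φ j v)) = true := by
  refine ⟨fun v p => a (lit φ (4 * (v % MM φ / 4) + p)).1, fun v j => ?_⟩
  rcases j with ⟨_ | _ | ⟨_ | _, i⟩, _ | _⟩ <;> try rfl
  · simp only [con, nx, conR, nxR]
    split_ifs with h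
    · have h1 : (4 * (v / 4) + (v % 4 + bif true then 1 else 3) % 4) % MM φ / 4 = v / 4 := by
        rw [Nat.mod_eq_of_lt (by unfold MM at *; simp only [cond_true]; omega)]
        simp only [cond_true]; omega
      simp only [h1, Nat.mod_eq_of_lt h, decide_true, Bool.true_and, decide_eq_true_eq]
      have hi : v / 4 < φ.length := by unfold MM at h; omega
      have hm : φ.getD (v / 4) [] ∈ φ := by
        rw [List.getD_eq_getElem _ _ hi]; exact List.getElem_mem _
      obtain ⟨l, hl, e⟩ := ha _ hm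
      obtain ⟨p, hp, rfl⟩ := List.getElem_of_mem hl
      refine ⟨⟨p, hw _ hm ▸ hp⟩, ?_⟩
      rw [lit_eq, List.getD_eq_getElem _ _ hp]
      exact e
    · rfl
  · simp only [con, nx, decide_eq_true_eq]
    have key : ∀ w, 4 * (w % MM φ / 4) + (pos w : ℕ) = w % MM φ := by
      intro w
      have : w % MM φ % 4 = w % 4 := Nat.mod_mod_of_dvd _ ⟨_, rfl⟩
      simp only [pos]; omega
    rw [key, key]
    by_cases h : v < 4 * MM φ ∧ rank φ v < cs φ (vr φ v) * cs φ (vr φ v)
    · exact congrArg a (nxC_spec φ i true h).2.1.symm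
    · rw [nxC, if_neg h]

theorem graph_sound {φ : CNF} (hw : W4 φ) (A0 : ℕ → Sg) : ∃ a : ℕ → Bool,
    (viol a φ : ℝ) ≤ 5 * ∑ v ∈ range (NN φ), ∑ j,
      ind (con φ j v (A0 v) (A0 (nx φ j v)) = false) := by
  let β : ℕ → ℕ → Bool := fun x r => A0 ((cloud φ x).getD r 0) (pos ((cloud φ x).getD r 0))
  choose a ha using fun x => marg_cut (cs φ x) (β x)
  refine ⟨a, ?_⟩
  let E : ℕ → ℝ := fun v => ∑ j, ind (con φ j v (A0 v) (A0 (nx φ j v)) = false)
  have hE : ∀ v, 0 ≤ E v := fun v => Finset.sum_nonneg fun _ _ => ind_nonneg _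
  let ρ : ℕ → Prop := fun v => conR φ v (A0 v) (A0 (nxR φ true v)) = false
  let μ : ℕ → Prop := fun v => A0 v (pos v) ≠ a (vr φ v)
  have h1 : (viol a φ : ℝ) ≤ ∑ o ∈ range (MM φ), (ind (ρ o) + ind (μ o)) := by
    unfold viol MM
    rw [countP_eq_sum _ [], sum_range_four]
    refine Finset.sum_le_sum fun i hi => ?_
    have hi' := mem_range.1 hi
    by_cases hv : ((φ.getD i []).all fun l => a l.1 != l.2) = true
    · rw [ind_pos hv]
      by_contra hc
      push Not at hc
      have n0 := ind_nonneg (ρ (4 * i))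
      have n1 := ind_nonneg (ρ (4 * i + 1))
      have n2 := ind_nonneg (ρ (4 * i + 2))
      have n3 := ind_nonneg (ρ (4 * i + 3))
      have m0 := ind_nonneg (μ (4 * i))
      have m1 := ind_nonneg (μ (4 * i + 1))
      have m2 := ind_nonneg (μ (4 * i + 2))
      have m3 := ind_nonneg (μ (4 * i + 3))
      have nz : ∀ p : Prop, ind p < 1 → ¬ p := fun p h hp => by
        rw [ind_pos hp] at h; exact lt_irrefl _ h
      have hr : ∀ p : Fin 4, ¬ ρ (4 * i + p) := by
        intro p
        fin_cases p <;> exact nz _ (by simp only [Nat.add_zero]; linarith)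
      have hμ : ∀ p : Fin 4, ¬ μ (4 * i + p) := by
        intro p
        fin_cases p <;> exact nz _ (by simp only [Nat.add_zero]; linarith)
      have hr' : ∀ p : Fin 4, A0 (4 * i + p) = A0 (4 * i + (p + 1) % 4) ∧
          ∃ q : Fin 4, A0 (4 * i + p) q = (lit φ (4 * i + q)).2 := by
        intro p
        have h := hr p
        have hp := p.2
        have lt : 4 * i + p < MM φ := by unfold MM; omega
        simp only [ρ, conR, nxR, lt, if_true, cond_true, Bool.not_eq_false, Bool.and_eq_true,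
          decide_eq_true_eq] at h
        rw [show (4 * i + p) / 4 = i by omega, show (4 * i + p) % 4 = p by omega] at h
        exact h
      have e1 := (hr' 0).1
      have e2 := (hr' 1).1
      have e3 := (hr' 2).1
      have eq : ∀ p : Fin 4, A0 (4 * i + p) = A0 (4 * i + (0 : Fin 4)) := by
        intro p
        fin_cases p
        · rfl
        · exact e1.symm
        · exact (e1.trans e2).symm
        · exact ((e1.trans e2).trans e3).symm
      obtain ⟨q, hq⟩ := (hr' 0).2
      have hq4 := q.2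
      have h2 := not_not.1 (hμ q)
      have pq : pos (4 * i + q) = q := Fin.ext (by simp only [pos]; omega)
      have vq : vr φ (4 * i + q) = (lit φ (4 * i + q)).1 := by
        unfold vr; rw [Nat.mod_eq_of_lt (by unfold MM; omega)]
      rw [pq, eq, hq, vq, lit_eq] at h2
      have hm : φ.getD i [] ∈ φ := by
        rw [List.getD_eq_getElem _ _ hi']; exact List.getElem_mem _
      have hl : (q : ℕ) < (φ.getD i []).length := by rw [hw _ hm]; exact hq4
      rw [List.getD_eq_getElem _ _ hl] at h2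
      have := List.all_eq_true.1 hv _ (List.getElem_mem hl)
      rw [← h2] at this
      simp at this
    · rw [ind_neg hv]
      have := fun o => add_nonneg (ind_nonneg (ρ o)) (ind_nonneg (μ o))
      linarith [this (4 * i), this (4 * i + 1), this (4 * i + 2), this (4 * i + 3)]
  have hsub : ∀ B, B ≤ NN φ → ∑ v ∈ range B, E v ≤ ∑ v ∈ range (NN φ), E v := fun B hB =>
    Finset.sum_le_sum_of_subset_of_nonneg (Finset.range_subset_range.2 hB) (fun v _ _ => hE v)
  have hN := lt_NN φ
  have h2 : ∑ o ∈ range (MM φ), ind (ρ o) ≤ ∑ v ∈ range (NN φ), E v := by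
    refine le_trans (Finset.sum_le_sum fun o _ => ?_) (hsub (MM φ) (by omega))
    exact Finset.single_le_sum (f := fun j => ind (con φ j o (A0 o) (A0 (nx φ j o)) = false))
      (fun _ _ => ind_nonneg _) (mem_univ ((some none, true) : Lb))
  have h3 : ∑ o ∈ range (MM φ), ind (μ o) ≤ 4 * ∑ v ∈ range (4 * MM φ), E v := by
    have mp1 : ∀ o ∈ range (MM φ), vr φ o ∈ (range (4 * MM φ)).image (vr φ) := fun o ho =>
      mem_image_of_mem _ (mem_range.2 (by have := mem_range.1 ho; omega))
    have mp2 : ∀ o ∈ range (4 * MM φ), vr φ o ∈ (range (4 * MM φ)).image (vr φ) := fun o ho =>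
      mem_image_of_mem _ ho
    rw [← Finset.sum_fiberwise_of_maps_to mp1, ← Finset.sum_fiberwise_of_maps_to mp2,
      Finset.mul_sum]
    refine Finset.sum_le_sum fun x hx => ?_
    obtain ⟨v0, hv0, rfl⟩ := mem_image.1 hx
    have hcs := cs_le φ (mem_range.1 hv0)
    generalize vr φ v0 = x at hcs
    refine le_trans ?_ ((ha x).trans (mul_le_mul_of_nonneg_left ?_ (by norm_num)))
    · refine sum_le_of_inj _ _ (rank φ) ?_ ?_ _ _ (fun _ => ind_nonneg _) ?_
      · intro o ho o' ho' e
        rw [mem_filter, mem_range] at ho ho'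
        rw [← getD_rank φ (v := o) (by omega), ← getD_rank φ (v := o') (by omega), e, ho.2, ho'.2]
      · intro o ho
        rw [mem_filter, mem_range] at ho
        have := (getD_cntP (p := inC φ x) ho.1 (by simp [inC, ho.2])).2
        rw [mem_range, rank, ho.2]
        exact this.trans (lt_sq1 _)
      · intro o ho
        rw [mem_filter, mem_range] at ho
        have := getD_rank φ (v := o) (by omega)
        rw [ho.2] at this
        simp only [μ, β, this, ho.2, le_refl]
    · rw [Finset.sum_comm]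
      refine sum_le_of_inj _ _ (fun r => (cloud φ x).getD r 0) ?_ ?_ _ _ hE ?_
      · intro r hr r' hr' e
        rw [← (cloud_getD φ ((mem_range.1 hr).trans_le hcs)).2.2,
          ← (cloud_getD φ ((mem_range.1 hr').trans_le hcs)).2.2, e]
      · intro r hr
        have := cloud_getD φ ((mem_range.1 hr).trans_le hcs)
        exact mem_filter.2 ⟨mem_range.2 this.1, this.2.1⟩
      · intro r hr
        obtain ⟨c1, c2, c3⟩ := cloud_getD φ ((mem_range.1 hr).trans_le hcs)
        refine sum_le_of_inj _ _ (fun i => ((some (some (true, i)), true) : Lb)) ?_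
          (fun _ _ => mem_univ _) _ _ (fun _ => ind_nonneg _) (fun i _ => le_of_eq ?_)
        · intro a _ b _ e; simpa using e
        · have : nxC φ i true ((cloud φ x).getD r 0) =
              (cloud φ x).getD (marg i true (cs φ x) r) 0 := by
            rw [nxC, if_pos ⟨c1, by rw [c2, c3]; exact mem_range.1 hr⟩, c2, c3]
          simp only [con, nx, this, β, decide_eq_false_iff_not]
  rw [Finset.sum_add_distrib] at h1
  have := hsub (4 * MM φ) hN.le
  linarith

end Pool.Agent.MP_9e68e9_lc.PCP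

end

section

/-! Composition of a constraint graph over a large alphabet with the long code tests. -/

namespace Pool.Agent.MP_9e68e9_lc.PCP

open Finset Pool.Agent.MP_2e8011_lc
open scoped BigOperators

section FPT
variable {α γ T T' : Type} [Enc α] [Enc γ]

/-- A function with values in a finite type whose fibres are decidable in polynomial time. -/
def FPT (F : α → T) : Prop := ∀ u, ∃ b : α → Bool, PT b ∧ ∀ a, b a = true ↔ F a = u

theorem FPT.cases [Fintype T] [Inhabited γ] {F : α → T} (hF : FPT F) (G : T → α → γ)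
    (hG : ∀ u, PT (G u)) : PT (fun a => G (F a) a) := by
  have key : ∀ l : List T, ∃ g : α → γ, PT g ∧ ∀ a, F a ∈ l → g a = G (F a) a := by
    intro l
    induction l with
    | nil => exact ⟨fun _ => default, PT.const _, fun a h => by simp at h⟩
    | cons u l ih =>
      obtain ⟨g, hg, e⟩ := ih
      obtain ⟨b, hb, eb⟩ := hF u
      refine ⟨fun a => bif b a then G u a else g a, PT.cond hb (hG u) hg, fun a h => ?_⟩
      cases hba : b a
      · have : F a ≠ u := fun h => by rw [← eb, hba] at h; simp at h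
        simp only [hba, cond_false]
        exact e a ((List.mem_cons.1 h).resolve_left this)
      · simp only [hba, cond_true]
        rw [(eb a).1 hba]
  obtain ⟨g, hg, e⟩ := key (univ : Finset T).toList
  exact hg.congr (fun a => e a (by simp))

theorem FPT.of_bool {F : α → Bool} (h : PT F) : FPT F := by
  intro u
  cases u
  · exact ⟨fun a => !F a, h.not, fun a => by simp⟩
  · exact ⟨F, h, fun a => Iff.rfl⟩

theorem FPT.map [Fintype T] {F : α → T} (hF : FPT F) (g : T → T') : FPT (fun a => g (F a)) := by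
  classical
  intro u
  exact ⟨fun a => decide (g (F a) = u),
    hF.cases (fun t _ => decide (g t = u)) (fun _ => PT.const _), fun a => by simp⟩

theorem FPT.pi {ι : Type} [Fintype ι] {F : α → ι → T} (h : ∀ i, FPT (fun a => F a i)) :
    FPT F := by
  intro u
  choose b hb e using fun i => h i (u i)
  refine ⟨fun a => (univ : Finset ι).toList.all (fun i => b i a), PT.all_const _ hb, fun a => ?_⟩
  simp only [List.all_eq_true, Finset.mem_toList, mem_univ, forall_true_left, e, funext_iff]

theorem FPT.prod {F : α → T} {G : α → T'} (hF : FPT F) (hG : FPT G) :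
    FPT (fun a => (F a, G a)) := by
  intro u
  obtain ⟨b, hb, e⟩ := hF u.1
  obtain ⟨c, hc, e'⟩ := hG u.2
  exact ⟨fun a => b a && c a, hb.and hc, fun a => by simp [e, e', Prod.ext_iff]⟩

theorem FPT.congr {F G : α → T} (hF : FPT F) (e : ∀ a, F a = G a) : FPT G := by
  rwa [← funext e]

end FPT

/-- A bit as an element of the field with two elements. -/
def b2z (b : Bool) : ZMod 2 := bif b then 1 else 0

theorem b2z_decide (x : ZMod 2) : b2z (decide (x = 1)) = x := by revert x; decide

/-- The clause excluding the pattern `u` on the variables `xs`. -/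
def clause (xs : Fin 4 → ℕ) (u : Fin 4 → Bool) : List (ℕ × Bool) :=
  List.ofFn (fun i => (xs i, !u i))

theorem clause_viol (a : ℕ → Bool) (xs : Fin 4 → ℕ) (u : Fin 4 → Bool) :
    (clause xs u).all (fun l => a l.1 != l.2) = true ↔ (fun i => a (xs i)) = u := by
  simp only [clause, List.all_eq_true, List.forall_mem_ofFn_iff, funext_iff]
  refine forall_congr' fun i => ?_
  cases a (xs i) <;> cases u i <;> simp

theorem satBy_iff (a : ℕ → Bool) (φ : CNF) :
    SatBy a φ ↔ ∀ c ∈ φ, ¬ c.all (fun l => a l.1 != l.2) = true := by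
  unfold SatBy
  refine forall_congr' fun c => forall_congr' fun _ => ?_
  rw [List.all_eq_true]
  push Not
  simp only [bne_iff_ne, ne_eq, not_not]

theorem satBy_iff_viol (a : ℕ → Bool) (φ : CNF) : SatBy a φ ↔ viol a φ = 0 := by
  rw [satBy_iff, viol, List.countP_eq_zero]

theorem viol_flatMap {ι : Type} (a : ℕ → Bool) (l : List ι) (f : ι → CNF) :
    viol a (l.flatMap f) = (l.map (fun i => viol a (f i))).sum := by
  induction l with
  | nil => rfl
  | cons i l ih =>
    simp only [List.flatMap_cons, List.map_cons, List.sum_cons, ← ih]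
    exact List.countP_append

theorem sum_map_range (f : ℕ → ℕ) (n : ℕ) :
    ((List.range n).map f).sum = ∑ i ∈ range n, f i := by
  induction n with
  | zero => rfl
  | succ n ih => rw [List.range_succ, List.map_append, List.sum_append, ih, Finset.sum_range_succ]; simp

/-- Rejected patterns of a test. -/
noncomputable def bad (k : Fin 5) : List (Fin 4 → Bool) := by
  classical exact (univ.filter (fun u : Fin 4 → Bool => ¬ tp k (fun i => b2z (u i)))).toList

theorem mem_bad {k : Fin 5} {u : Fin 4 → Bool} : u ∈ bad k ↔ ¬ tp k (fun i => b2z (u i)) := by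
  simp [bad]

theorem length_bad (k : Fin 5) : (bad k).length ≤ 16 := by
  unfold bad
  rw [Finset.length_toList]
  exact (Finset.card_le_univ _).trans (by simp)

section Comp
variable (W Ω : Type) [Fintype W] [DecidableEq W] [Fintype Ω]

/-- Local names of the new variables. -/
abbrev Loc : Type := Fn W ⊕ (Ω × Fn (W × W))

/-- Tests attached to a vertex. -/
abbrev Tst : Type := Ω × Fin 5 × Rnd W

variable {W Ω}

/-- Global names of the new variables. -/
noncomputable def nm (v : ℕ) (c : Loc W Ω) : ℕ :=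
  v * Fintype.card (Loc W Ω) + Fintype.equivFin (Loc W Ω) c

theorem nm_lt {v N : ℕ} (hv : v < N) (c : Loc W Ω) : nm v c < N * Fintype.card (Loc W Ω) := by
  unfold nm
  have := (Fintype.equivFin (Loc W Ω) c).2
  nlinarith

theorem exists_asg (F : ℕ → Loc W Ω → Bool) : ∃ a : ℕ → Bool, ∀ v c, a (nm v c) = F v c := by
  have hK : 0 < Fintype.card (Loc W Ω) := Fintype.card_pos
  refine ⟨fun n => F (n / Fintype.card (Loc W Ω))
    ((Fintype.equivFin (Loc W Ω)).symm ⟨n % Fintype.card (Loc W Ω), Nat.mod_lt _ hK⟩),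
    fun v c => ?_⟩
  have h := (Fintype.equivFin (Loc W Ω) c).2
  have h1 : nm v c / Fintype.card (Loc W Ω) = v := by
    unfold nm
    rw [add_comm, Nat.add_mul_div_right _ _ hK, Nat.div_eq_of_lt h, zero_add]
  have h2 : nm v c % Fintype.card (Loc W Ω) = Fintype.equivFin (Loc W Ω) c := by
    unfold nm
    rw [add_comm, Nat.add_mul_mod_self_right, Nat.mod_eq_of_lt h]
  simp only [h1, h2, Fin.eta, Equiv.symm_apply_apply]

/-- The variable behind a table position. -/
noncomputable def varOf (v e : ℕ) (ω : Ω) : Ref W → ℕ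
  | .inl (false, f) => nm v (.inl f : Loc W Ω)
  | .inl (true, f) => nm e (.inl f : Loc W Ω)
  | .inr g => nm v (.inr (ω, g) : Loc W Ω)

/-- The clauses of one test. -/
noncomputable def tcl (v e : ℕ) (S : Fn (W × W)) (τ : Tst W Ω) : CNF :=
  (bad τ.2.1).map (clause (fun i => varOf v e τ.1 (tq S τ.2.1 τ.2.2 i)))

/-- The composed formula. -/
noncomputable def comp (N : ℕ) (ep : ℕ → Ω → ℕ) (S : ℕ → Ω → Fn (W × W)) : CNF :=
  (List.range N).flatMap fun v =>
    (univ : Finset (Tst W Ω)).toList.flatMap fun τ => tcl v (ep v τ.1) (S v τ.1) τ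

theorem mem_comp {N : ℕ} {ep : ℕ → Ω → ℕ} {S : ℕ → Ω → Fn (W × W)} {c : List (ℕ × Bool)}
    (h : c ∈ comp N ep S) : ∃ v < N, ∃ τ : Tst W Ω, ∃ u, ¬ tp τ.2.1 (fun i => b2z (u i)) ∧
      c = clause (fun i => varOf v (ep v τ.1) τ.1 (tq (S v τ.1) τ.2.1 τ.2.2 i)) u := by
  unfold comp at h
  obtain ⟨v, hv, h⟩ := List.mem_flatMap.1 h
  obtain ⟨τ, _, h⟩ := List.mem_flatMap.1 h
  obtain ⟨u, hu, rfl⟩ := List.mem_map.1 h
  exact ⟨v, List.mem_range.1 hv, τ, u, mem_bad.1 hu, rfl⟩

theorem comp_w4 (N : ℕ) (ep : ℕ → Ω → ℕ) (S : ℕ → Ω → Fn (W × W)) : W4 (comp N ep S) := by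
  intro c h
  obtain ⟨v, _, τ, u, _, rfl⟩ := mem_comp h
  simp [clause]

theorem length_flatMap_le {ι β : Type} (l : List ι) (f : ι → List β) (B : ℕ)
    (h : ∀ i, (f i).length ≤ B) : (l.flatMap f).length ≤ l.length * B := by
  induction l with
  | nil => simp
  | cons i l ih =>
    simp only [List.flatMap_cons, List.length_append, List.length_cons]
    have := h i
    nlinarith

theorem comp_len (N : ℕ) (ep : ℕ → Ω → ℕ) (S : ℕ → Ω → Fn (W × W)) :
    (comp N ep S).length ≤ N * (Fintype.card (Tst W Ω) * 16) := by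
  unfold comp
  refine (length_flatMap_le _ _ (Fintype.card (Tst W Ω) * 16) fun v => ?_).trans (by simp)
  refine (length_flatMap_le _ _ 16 fun τ => ?_).trans (by rw [Finset.length_toList]; rfl)
  simpa [tcl] using length_bad _

theorem comp_sz (N : ℕ) (ep : ℕ → Ω → ℕ) (S : ℕ → Ω → Fn (W × W))
    (hep : ∀ v < N, ∀ ω, ep v ω < N) (c : List (ℕ × Bool)) (h : c ∈ comp N ep S) :
    sz c ≤ 4 * (2 * (2 * (N * Fintype.card (Loc W Ω)) + 2) + 1) := by
  have h4 := comp_w4 N ep S c h
  obtain ⟨v, hv, τ, u, _, e⟩ := mem_comp h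
  rw [← h4]
  refine sz_le_of_forall fun l hl => ?_
  rw [e, clause] at hl
  obtain ⟨i, rfl⟩ := List.mem_ofFn.1 hl
  rw [sz_prod, sz_nat, sz_bool]
  have : ∀ r : Ref W, varOf v (ep v τ.1) τ.1 r < N * Fintype.card (Loc W Ω) := by
    rintro (⟨_ | _, f⟩ | g)
    · exact nm_lt hv _
    · exact nm_lt (hep v hv _) _
    · exact nm_lt hv _
  have := this (tq (S v τ.1) τ.2.1 τ.2.2 i)
  omega

theorem comp_complete (N : ℕ) (ep : ℕ → Ω → ℕ) (S : ℕ → Ω → Fn (W × W)) (A : ℕ → W)
    (h : ∀ v < N, ∀ ω, S v ω (A v, A (ep v ω)) = 1) : Sat (comp N ep S) := by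
  obtain ⟨a, ha⟩ := exists_asg (W := W) (Ω := Ω) (fun v c => match c with
    | .inl f => decide (f (A v) = 1)
    | .inr (ω, g) => decide (g (A v, A (ep v ω)) = 1))
  refine ⟨a, (satBy_iff _ _).2 fun c hc hv => ?_⟩
  obtain ⟨v, hvN, τ, u, hu, rfl⟩ := mem_comp hc
  rw [clause_viol] at hv
  subst hv
  exact hu (test_complete (S v τ.1) (A v) (A (ep v τ.1)) (h v hvN τ.1)
    (fun r => b2z (a (varOf v (ep v τ.1) τ.1 r)))
    (fun f => by simp only [varOf, ha, b2z_decide])
    (fun f => by simp only [varOf, ha, b2z_decide])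
    (fun f => by simp only [varOf, ha, b2z_decide]) τ.2.1 τ.2.2)

theorem comp_sound [Inhabited W] (N : ℕ) (ep : ℕ → Ω → ℕ) (S : ℕ → Ω → Fn (W × W))
    (a : ℕ → Bool) : ∃ A : ℕ → W,
      (Fintype.card (Rnd W) : ℝ) / 100 *
        ∑ v ∈ range N, ∑ ω, ind (S v ω (A v, A (ep v ω)) ≠ 1) ≤ viol a (comp N ep S) := by
  refine ⟨fun v => dec (fun f => b2z (a (nm v (.inl f : Loc W Ω)))), ?_⟩
  unfold comp
  rw [viol_flatMap, sum_map_range, Finset.mul_sum]
  push_cast
  refine Finset.sum_le_sum fun v _ => ?_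
  rw [viol_flatMap, Finset.sum_map_toList, Finset.mul_sum, Fintype.sum_prod_type]
  push_cast
  refine Finset.sum_le_sum fun ω _ => ?_
  by_cases hS : S v ω (dec (fun f => b2z (a (nm v (.inl f : Loc W Ω)))),
      dec (fun f => b2z (a (nm (ep v ω) (.inl f : Loc W Ω))))) ≠ 1
  · rw [ind_pos hS, mul_one]
    have h := test_sound (S v ω) (fun r => b2z (a (varOf v (ep v ω) ω r))) hS
    have hR : (0 : ℝ) < Fintype.card (Rnd W) := by exact_mod_cast Fintype.card_pos
    simp only [Fintype.expect_eq_sum_div_card, ← Finset.sum_div] at h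
    rw [le_div_iff₀ hR] at h
    rw [Fintype.sum_prod_type]
    refine le_trans (by linarith) (h.trans (Finset.sum_le_sum fun k _ =>
      Finset.sum_le_sum fun ξ _ => ?_))
    by_cases ht : tp k (fun i => b2z (a (varOf v (ep v ω) ω (tq (S v ω) k ξ i))))
    · rw [ind_neg (not_not.2 ht)]; positivity
    · rw [ind_pos ht]
      have : 0 < viol a (tcl v (ep v ω) (S v ω) ((ω, k, ξ) : Tst W Ω)) := by
        unfold viol
        rw [List.countP_pos_iff]
        exact ⟨_, List.mem_map.2 ⟨_, mem_bad.2 ht, rfl⟩, (clause_viol _ _ _).2 rfl⟩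
      exact_mod_cast this
  · rw [ind_neg hS, mul_zero]; positivity

theorem comp_pt {α : Type} [Enc α] {N : α → ℕ} {ep : α → ℕ → Ω → ℕ}
    {S : α → ℕ → Ω → Fn (W × W)} (hN : PT N) (hep : ∀ ω, PT (fun p : α × ℕ => ep p.1 p.2 ω))
    (hS : ∀ ω, FPT (fun p : α × ℕ => S p.1 p.2 ω)) : PT (fun a => comp (N a) (ep a) (S a)) := by
  unfold comp
  refine PT.flatMap (PT.flatMap_const _ fun τ => ?_) hN.range
  refine (hS τ.1).cases (fun s p => tcl p.2 (ep p.1 p.2 τ.1) s τ) fun s => ?_
  unfold tcl
  refine PT.map_const _ fun u => ?_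
  have hv : ∀ r : Ref W, PT (fun p : α × ℕ => varOf p.2 (ep p.1 p.2 τ.1) τ.1 r) := by
    have := hep τ.1
    rintro (⟨_ | _, f⟩ | g) <;> simp only [varOf, nm] <;> fun_prop
  simp only [clause, List.ofFn_eq_map]
  exact PT.map_const _ fun i => (hv _).prodMk (PT.const _)

end Comp

end Pool.Agent.MP_9e68e9_lc.PCP

end

section

/-! One round of gap amplification. -/

namespace Pool.Agent.MP_9e68e9_lc.PCP

open Finset Pool.Agent.MP_2e8011_lc
open scoped BigOperators

section PTs
variable {α : Type} [Enc α] {f : α → CNF} {g h : α → ℕ}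

theorem pt_cntP {p : α → ℕ → Bool} (hp : PT (fun q : α × ℕ => p q.1 q.2)) (hg : PT g) :
    PT (fun a => cntP (p a) (g a)) := (PT.filter hp hg.range).length

theorem pt_sq1 (hg : PT g) : PT (fun a => sq1 (g a)) :=
  pt_cntP (p := fun a i => decide (i * i ≤ g a)) (by fun_prop) (by fun_prop)

theorem pt_lit (hf : PT f) (hg : PT g) : PT (fun a => lit (f a) (g a)) := by
  unfold lit; fun_prop

theorem pt_MM (hf : PT f) : PT (fun a => MM (f a)) := by
  unfold MM; fun_prop

theorem pt_vr (hf : PT f) (hg : PT g) : PT (fun a => vr (f a) (g a)) :=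
  (pt_lit hf (hg.mod (pt_MM hf))).fst

theorem pt_inC (hf : PT f) (hg : PT g) (hh : PT h) : PT (fun a => inC (f a) (g a) (h a)) :=
  PT.eq (pt_vr hf hh) hg

theorem pt_inC' (hf : PT f) (hg : PT g) : PT (fun q : α × ℕ => inC (f q.1) (g q.1) q.2) :=
  pt_inC (hf.comp PT.id.fst) (hg.comp PT.id.fst) PT.id.snd

theorem pt_cloud (hf : PT f) (hg : PT g) : PT (fun a => cloud (f a) (g a)) :=
  PT.filter (pt_inC' hf hg) ((PT.const 4).mul (pt_MM hf)).range

theorem pt_rank (hf : PT f) (hg : PT g) : PT (fun a => rank (f a) (g a)) :=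
  pt_cntP (pt_inC' hf (pt_vr hf hg)) hg

theorem pt_cs (hf : PT f) (hg : PT g) : PT (fun a => cs (f a) (g a)) :=
  pt_sq1 (pt_cntP (pt_inC' hf hg) (pt_MM hf))

theorem pt_gs (hf : PT f) : PT (fun a => gs (f a)) := pt_sq1 ((PT.const 4).mul (pt_MM hf))

theorem pt_NN (hf : PT f) : PT (fun a => NN (f a)) := (pt_gs hf).mul (pt_gs hf)

theorem pt_marg (i : Bool × Bool) (b : Bool) (hg : PT g) (hh : PT h) :
    PT (fun a => marg i b (g a) (h a)) := by
  unfold marg; fun_prop

theorem pt_nxC (i : Bool × Bool) (b : Bool) (hf : PT f) (hg : PT g) :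
    PT (fun a => nxC (f a) i b (g a)) := by
  have h1 := pt_MM hf
  have h2 := pt_rank hf hg
  have h3 := pt_cs hf (pt_vr hf hg)
  have h4 := pt_cloud hf (pt_vr hf hg)
  have h5 := pt_marg i b h3 h2
  exact PT.ite (PT.decide_and (PT.lt hg ((PT.const 4).mul h1)) (PT.lt h2 (h3.mul h3)))
    (h4.getD h5 (PT.const 0)) hg

theorem pt_nx (j : Lb) (hf : PT f) (hg : PT g) : PT (fun a => nx (f a) j (g a)) := by
  rcases j with ⟨_ | _ | ⟨_ | _, i⟩, b⟩
  · exact hg
  · have := pt_MM hf
    simp only [nx, nxR]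
    fun_prop
  · exact pt_marg i b (pt_gs hf) hg
  · exact pt_nxC i b hf hg

theorem pt_wk (p : List Lb) (hf : PT f) (hg : PT g) : PT (fun a => wk (nx (f a)) (g a) p) := by
  induction p generalizing g with
  | nil => exact hg
  | cons j p ih => exact ih (pt_nx j hf hg)

theorem fpt_pos (hg : PT g) : FPT (fun a => pos (g a)) := fun u =>
  ⟨fun a => decide (g a % 4 = u.val), by fun_prop, fun a => by simp [pos, Fin.ext_iff]⟩

theorem fpt_const {T : Type} (t : T) : FPT (fun _ : α => t) := by
  classical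
  exact fun u => ⟨fun _ => decide (t = u), PT.const _, fun a => by simp⟩

theorem fpt_con (j : Lb) (hf : PT f) (hg : PT g) : FPT (fun a => con (f a) j (g a)) := by
  rcases j with ⟨_ | _ | ⟨_ | _, i⟩, _ | _⟩ <;> try exact fpt_const (fun _ _ => true)
  · have h1 : FPT (fun a => decide (g a < MM (f a))) := FPT.of_bool (PT.lt hg (pt_MM hf))
    have h2 : FPT (fun a (p : Fin 4) => (lit (f a) (4 * (g a / 4) + p)).2) :=
      FPT.pi fun p => FPT.of_bool (pt_lit hf (by fun_prop)).snd
    refine ((h1.prod h2).map (fun t (x y : Sg) =>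
      bif t.1 then decide (x = y) && decide (∃ p : Fin 4, x p = t.2 p) else true)).congr
      fun a => ?_
    funext x y
    by_cases hh : g a < MM (f a) <;> simp [con, conR, hh]
  · exact ((fpt_pos hg).prod (fpt_pos (pt_nxC i true hf hg))).map
      (fun t (x y : Sg) => decide (x t.1 = y t.2))

end PTs

/-- The alphabet of the powered graph. -/
def WW (R : ℕ) : Type := Pth Lb R → Sg

instance (R : ℕ) : Finite (WW R) := inferInstanceAs (Finite (Pth Lb R → Sg))
noncomputable instance (R : ℕ) : Fintype (WW R) := Fintype.ofFinite _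
noncomputable instance (R : ℕ) : DecidableEq (WW R) := Classical.decEq _
instance (R : ℕ) : Inhabited (WW R) := ⟨fun _ => default⟩

/-- Edges of the powered graph at a vertex. -/
abbrev Om (R : ℕ) : Type := Fin (2 * R) × (Fin (2 * R) → Lb)

/-- End point of an edge of the powered graph. -/
def ep (R : ℕ) (φ : CNF) (v : ℕ) (ω : Om R) : ℕ := wk (nx φ) v ((List.ofFn ω.2).take ω.1)

open Classical in
/-- Constraint of an edge of the powered graph. -/
noncomputable def SS (R : ℕ) (φ : CNF) (v : ℕ) (ω : Om R) : Fn (WW R × WW R) := fun p =>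
  if PS (nx φ) flp (con φ) (none, true) R v ω.1 (List.ofFn ω.2) p.1 p.2 then 1 else 0

/-- One round. -/
noncomputable def round (R : ℕ) (φ : CNF) : CNF := comp (NN φ) (ep R φ) (SS R φ)

theorem round_pt (R : ℕ) : PT (round R) := by
  classical
  refine comp_pt (pt_NN PT.id) (fun ω => pt_wk _ PT.id.fst PT.id.snd) fun ω => ?_
  have h : FPT (fun (p : CNF × ℕ) (r : Fin R) => con p.1 ((List.ofFn ω.2).getD r (none, true))
      (wk (nx p.1) p.2 ((List.ofFn ω.2).take r))) :=
    FPT.pi fun r => fpt_con _ PT.id.fst (pt_wk _ PT.id.fst PT.id.snd)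
  refine (h.map (fun t => (fun p : WW R × WW R => if (∀ r : Fin R, ∀ s < R, r + s + 1 = ω.1 →
    t r (op p.1 ((List.ofFn ω.2).take r))
      (op p.2 (rv flp (((List.ofFn ω.2).drop (r + 1)).take s))) = true) then 1 else 0 :
        Fn (WW R × WW R)))).congr fun a => ?_
  funext p
  unfold SS
  by_cases hP : PS (nx a.1) flp (con a.1) (none, true) R a.2 ω.1 (List.ofFn ω.2) p.1 p.2
  · rw [if_pos hP]
    exact if_pos fun (r : Fin R) => hP r r.2
  · rw [if_neg hP]
    exact if_neg fun (H : ∀ r : Fin R, _) => hP fun r hr => H ⟨r, hr⟩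

theorem wk_lt (φ : CNF) {v : ℕ} (hv : v < NN φ) (p : List Lb) : wk (nx φ) v p < NN φ := by
  have := wk_sg φ ⟨v, hv⟩ p
  simp only at this
  rw [← this]; exact Fin.isLt _

theorem PS_sg (R : ℕ) (φ : CNF) (v : Fin (NN φ)) (l : ℕ) (w : List Lb) (x y : Pth Lb R → Sg) :
    PS (sg φ) flp (fun j v => con φ j v.val) (none, true) R v l w x y ↔
      PS (nx φ) flp (con φ) (none, true) R v.val l w x y := by
  simp only [PS, wk_sg]

theorem round_w4 (R : ℕ) (φ : CNF) : W4 (round R φ) := comp_w4 _ _ _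

theorem NN_le {φ : CNF} (h : 0 < φ.length) : NN φ ≤ 64 * φ.length := by
  have := sq1_le (x := 4 * MM φ) (by unfold MM; omega)
  unfold NN gs
  unfold MM at *
  omega

theorem NN_le' (φ : CNF) : NN φ ≤ 64 * φ.length + 1 := by
  rcases Nat.eq_zero_or_pos φ.length with h | h
  · simp [NN, gs, MM, h, sq1_eq]
  · have := NN_le h; omega

theorem round_complete (R : ℕ) {φ : CNF} (hw : W4 φ) (h : Sat φ) : Sat (round R φ) := by
  obtain ⟨a, ha⟩ := h
  obtain ⟨A0, hA⟩ := graph_complete hw ha
  refine comp_complete _ _ _ (fun v => (fun p => A0 (wk (nx φ) v p.1) : Pth Lb R → Sg))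
    fun v hv ω => ?_
  have := power_complete (sg_inv φ) (fun j v => con φ j v.val) (none, true) R
    (fun v => A0 v.val) (fun v j => hA v.val j) ⟨v, hv⟩ ω.1 (List.ofFn ω.2) (by simp; omega)
  rw [PS_sg] at this
  simp only [wk_sg] at this
  exact if_pos this

/-- The constant lost in one round. -/
noncomputable def c0 : ℝ := (1 / (2 * (16 : ℝ) ^ 2)) ^ 2 / (4 + 2 / (1 / 1600) ^ 3) / 8000

theorem c0_pos : 0 < c0 := by unfold c0; positivity

theorem c0_le : c0 ≤ 1 := by unfold c0; norm_num

theorem round_sound {R : ℕ} (hR : 0 < R) {φ : CNF} (hw : W4 φ) (h0 : 0 < φ.length) {ε : ℝ}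
    (hε : 0 ≤ ε) (h : ∀ a, ε * φ.length ≤ viol a φ) (a : ℕ → Bool) :
    c0 * min (R * (ε / 6400)) 1 * (NN φ * (Fintype.card (Tst (WW R) (Om R)) * 16) : ℕ) ≤
      viol a (round R φ) := by
  obtain ⟨A, hA⟩ := comp_sound (NN φ) (ep R φ) (SS R φ) a
  refine le_trans ?_ hA
  have hN : (0 : ℝ) < NN φ := by exact_mod_cast (Nat.zero_le _).trans_lt (lt_NN φ)
  have hN' : (NN φ : ℝ) ≤ 64 * φ.length := by exact_mod_cast NN_le h0
  have key := power_sound (S := Sg) flp_inv (sg_inv φ) (θ := 1 / 1600) (by norm_num) (by norm_num)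
    (sg_gap φ) (fun j v => con φ j v.val) (none, true) hR (ε0 := ε / 6400) (fun A0 => by
      obtain ⟨b, hb⟩ := graph_sound hw (fun v => if h : v < NN φ then A0 ⟨v, h⟩ else default)
      rw [Finset.sum_range] at hb
      have e : ∀ (v : Fin (NN φ)) (j : Lb), (if h : nx φ j v < NN φ then A0 ⟨nx φ j v, h⟩
          else default) = A0 (sg φ j v) := fun v j => dif_pos (nx_lt φ j v.2)
      simp only [e, Fin.is_lt, dif_pos, Fin.eta] at hb
      simp only [Fintype.expect_eq_sum_div_card, card_Lb, Fintype.card_fin, ← Finset.sum_div]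
      rw [le_div_iff₀ hN, le_div_iff₀ (by norm_num)]
      have := h b
      have := mul_le_mul_of_nonneg_left hN' hε
      push_cast
      linarith) (fun v => A v.val)
  have e1 : ∑ v ∈ range (NN φ), ∑ ω : Om R, ind (SS R φ v ω (A v, A (ep R φ v ω)) ≠ 1) =
      NN φ * Fintype.card (Om R) * 𝔼 v : Fin (NN φ), 𝔼 l : Fin (2 * R), avgW (2 * R)
        (fun w => ind (¬ PS (sg φ) flp (fun j v => con φ j v.val) (none, true) R v l w (A v.val)
          (A (wk (sg φ) v (w.take l)).val))) := by
    rw [Finset.sum_range, Fintype.expect_eq_sum_div_card, Fintype.card_fin, mul_right_comm,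
      mul_div_cancel₀ _ hN.ne', Finset.sum_mul]
    refine Finset.sum_congr rfl fun v _ => ?_
    unfold avgW
    rw [← Finset.expect_product', Finset.univ_product_univ, Fintype.expect_eq_sum_div_card,
      div_mul_cancel₀ _ (by
        haveI : Nonempty (Fin (2 * R)) := ⟨⟨0, by omega⟩⟩
        exact_mod_cast Fintype.card_ne_zero)]
    refine Finset.sum_congr rfl fun ω _ => ind_congr ?_
    rw [PS_sg, wk_sg]
    unfold SS ep
    split_ifs with hh
    · simp [hh]
    · simp [hh]
  rw [e1]
  have e2 : (Fintype.card (Tst (WW R) (Om R)) : ℝ) =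
      Fintype.card (Om R) * (5 * Fintype.card (Rnd (WW R))) := by
    rw [Fintype.card_prod, Fintype.card_prod (Fin 5), Fintype.card_fin]
    push_cast
    rfl
  have e3 : (Fintype.card Sg : ℝ) = 16 := by simp [Sg]
  rw [e3] at key
  push_cast
  rw [e2]
  have := mul_le_mul_of_nonneg_left key (show (0 : ℝ) ≤
    (Fintype.card (Rnd (WW R)) : ℝ) / 100 * (NN φ * Fintype.card (Om R)) by positivity)
  refine le_trans (le_of_eq ?_) (this.trans (le_of_eq ?_))
  · unfold c0; ring
  · ring

theorem exists_round : ∃ (r : CNF → CNF) (C : ℕ), PT r ∧ (∀ φ, W4 (r φ)) ∧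
    (∀ φ, (r φ).length ≤ C * (φ.length + 1)) ∧
    (∀ φ, sz (r φ) ≤ C * (φ.length + 1) ^ 2) ∧
    (∀ φ, W4 φ → Sat φ → Sat (r φ)) ∧
    ∀ φ, W4 φ → 0 < φ.length → ∀ ε : ℝ, 0 < ε → (∀ a, ε * φ.length ≤ viol a φ) →
      ∀ a, 0 < viol a (r φ) ∧ min (3 * ε) c0 * (r φ).length ≤ viol a (r φ) := by
  obtain ⟨R, hR⟩ := exists_nat_gt (3 * 6400 / c0)
  have c := c0_pos
  have hR0 : 0 < R := by
    have : (0 : ℝ) < R := lt_trans (by positivity) hR
    exact_mod_cast this
  obtain ⟨T, hT⟩ : ∃ T, T = Fintype.card (Tst (WW R) (Om R)) * 16 := ⟨_, rfl⟩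
  obtain ⟨K, hK⟩ : ∃ K, K = Fintype.card (Loc (WW R) (Om R)) := ⟨_, rfl⟩
  have hT0 : 0 < T := by
    haveI : Nonempty (Fin (2 * R)) := ⟨⟨0, by omega⟩⟩
    have : 0 < Fintype.card (Tst (WW R) (Om R)) := Fintype.card_pos
    omega
  have hlen : ∀ φ, (round R φ).length ≤ NN φ * T := fun φ => hT ▸ comp_len _ _ _
  refine ⟨round R, 64 * T * (2048 * K + 41), round_pt R, round_w4 R, fun φ => ?_, fun φ => ?_,
    fun φ => round_complete R, fun φ hw h0 ε hε h a => ?_⟩
  · have h1 := hlen φ
    have h2 := NN_le' φ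
    calc _ ≤ NN φ * T := h1
      _ ≤ (64 * (φ.length + 1)) * T := Nat.mul_le_mul_right _ (by omega)
      _ = 64 * T * 1 * (φ.length + 1) := by ring
      _ ≤ _ := Nat.mul_le_mul_right _ (Nat.mul_le_mul_left _ (by omega))
  · have h1 := hlen φ
    have h2 : NN φ ≤ 64 * (φ.length + 1) := by have := NN_le' φ; omega
    have h3 := sz_le_of_forall (comp_sz (NN φ) (ep R φ) (SS R φ) (fun v hv ω => wk_lt φ hv _))
    rw [← hK] at h3
    have h4 : NN φ * K ≤ 64 * (φ.length + 1) * K := Nat.mul_le_mul_right _ h2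
    calc _ ≤ _ := h3
      _ ≤ (64 * (φ.length + 1) * T) * ((2048 * K + 41) * (φ.length + 1)) :=
        Nat.mul_le_mul (h1.trans (Nat.mul_le_mul_right _ h2)) (by nlinarith)
      _ = _ := by ring
  · have h1 := round_sound hR0 hw h0 hε.le h a
    rw [← hT] at h1
    have hm : min (3 * ε) c0 ≤ c0 * min (R * (ε / 6400)) 1 := by
      rw [mul_min_of_nonneg _ _ c.le, mul_one]
      refine min_le_min_right _ ?_
      rw [div_lt_iff₀ c] at hR
      nlinarith
    have hm0 : 0 < min (3 * ε) c0 := lt_min (by positivity) c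
    have hN : 0 < NN φ * T := Nat.mul_pos ((Nat.zero_le _).trans_lt (lt_NN φ)) hT0
    have hN' : (0 : ℝ) < (NN φ * T : ℕ) := by exact_mod_cast hN
    have h2 : min (3 * ε) c0 * (NN φ * T : ℕ) ≤ viol a (round R φ) :=
      (mul_le_mul_of_nonneg_right hm hN'.le).trans h1
    refine ⟨?_, le_trans (mul_le_mul_of_nonneg_left ?_ hm0.le) h2⟩
    · have : (0 : ℝ) < viol a (round R φ) := lt_of_lt_of_le (by positivity) h2
      exact_mod_cast this
    · exact_mod_cast hlen φ

end Pool.Agent.MP_9e68e9_lc.PCP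

end

section

/-! The PCP theorem in the form of a gap reduction to 3-SAT (Dinur's proof). -/

namespace Pool.Agent.MP_9e68e9_lc.PCP

open Finset Pool.Agent.MP_2e8011_lc
open scoped BigOperators

/-- Renamed literal. -/
def ev (l : ℕ × Bool) : ℕ × Bool := (2 * l.1, l.2)

/-- Fresh variable. -/
def fr (i j : ℕ) : ℕ := 2 * Nat.pair i j + 1

/-- Chain of width four clauses for one clause. -/
def chain (i : ℕ) (c : List (ℕ × Bool)) : CNF :=
  [(fr i 0, false), (fr i 0, false), (fr i 0, false), (fr i 0, false)] ::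
  [(fr i c.length, true), (fr i c.length, true), (fr i c.length, true), (fr i c.length, true)] ::
  (List.range c.length).map fun j =>
    [(fr i (j + 1), false), (fr i j, true), ev (c.getD j (0, true)), ev (c.getD j (0, true))]

/-- Conversion to width four. -/
def conv (φ : CNF) : CNF := (List.range φ.length).flatMap fun i => chain i (φ.getD i [])

theorem conv_pt : PT conv := by
  unfold conv chain fr ev
  fun_prop

theorem conv_w4 (φ : CNF) : W4 (conv φ) := by
  intro c hc
  simp only [conv, chain, List.mem_flatMap, List.mem_cons, List.mem_map] at hc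
  obtain ⟨i, -, rfl | rfl | ⟨j, -, rfl⟩⟩ := hc <;> rfl

theorem getD_mem' {α : Type} {l : List α} {i : ℕ} (h : i < l.length) (d : α) : l.getD i d ∈ l := by
  rw [List.getD_eq_getElem _ _ h]; exact List.getElem_mem h

theorem exists_getD {α : Type} {l : List α} {x : α} (h : x ∈ l) (d : α) :
    ∃ i < l.length, l.getD i d = x := by
  obtain ⟨i, hi, rfl⟩ := List.getElem_of_mem h
  exact ⟨i, hi, List.getD_eq_getElem _ _ hi⟩

theorem conv_complete {φ : CNF} (h : Sat φ) : Sat (conv φ) := by
  classical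
  obtain ⟨a, ha⟩ := h
  let P : ℕ → ℕ → Prop := fun i j => ∃ k < j,
    a ((φ.getD i []).getD k (0, true)).1 = ((φ.getD i []).getD k (0, true)).2
  let b : ℕ → Bool := fun x => if x % 2 = 0 then a (x / 2) else
    decide (P (x / 2).unpair.1 (x / 2).unpair.2)
  have b1 : ∀ i j, b (fr i j) = decide (P i j) := fun i j => by
    have e1 : fr i j % 2 ≠ 0 := by unfold fr; omega
    have e2 : fr i j / 2 = Nat.pair i j := by unfold fr; omega
    simp only [b, if_neg e1, e2, Nat.unpair_pair]
  have b2 : ∀ l : ℕ × Bool, b (ev l).1 = a l.1 := fun l => by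
    have e1 : (ev l).1 % 2 = 0 := by unfold ev; simp only; omega
    have e2 : (ev l).1 / 2 = l.1 := by unfold ev; simp only; omega
    simp only [b, if_pos e1, e2]
  refine ⟨b, Dat.satBy_flatMap.2 fun i hi c hc => ?_⟩
  rw [List.mem_range] at hi
  simp only [chain, List.mem_cons, List.mem_map, List.mem_range] at hc
  obtain rfl | rfl | ⟨j, hj, rfl⟩ := hc
  · refine ⟨_, List.mem_cons_self, ?_⟩
    simp only [b1, decide_eq_false_iff_not]
    rintro ⟨k, hk, -⟩
    omega
  · refine ⟨_, List.mem_cons_self, ?_⟩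
    simp only [b1, decide_eq_true_eq]
    obtain ⟨l, hl, e⟩ := ha _ (getD_mem' hi [])
    obtain ⟨k, hk, rfl⟩ := exists_getD hl (0, true)
    exact ⟨k, hk, e⟩
  · by_cases h1 : P i (j + 1)
    · by_cases h2 : P i j
      · exact ⟨(fr i j, true), by simp, by simp only [b1, decide_eq_true_eq]; exact h2⟩
      · obtain ⟨k, hk, e⟩ := h1
        obtain rfl : k = j := by
          by_contra hne
          exact h2 ⟨k, by omega, e⟩
        exact ⟨ev ((φ.getD i []).getD k (0, true)), by simp, by rw [b2]; exact e⟩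
    · exact ⟨_, List.mem_cons_self, by simp only [b1, decide_eq_false_iff_not]; exact h1⟩

theorem conv_sound {φ : CNF} (h : Sat (conv φ)) : Sat φ := by
  obtain ⟨b, hb⟩ := h
  refine ⟨fun x => b (2 * x), fun c hc => ?_⟩
  obtain ⟨i, hi, rfl⟩ := exists_getD hc []
  have H := Dat.satBy_flatMap.1 hb i (List.mem_range.2 hi)
  by_contra hn
  have key : ∀ j ≤ (φ.getD i []).length, b (fr i j) = false := by
    intro j
    induction j with
    | zero =>
      intro _
      obtain ⟨l, hl, e⟩ := H _ List.mem_cons_self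
      simp only [List.mem_cons, List.not_mem_nil, or_false, or_self] at hl
      subst hl
      exact e
    | succ j ih =>
      intro hj
      obtain ⟨l, hl, e⟩ := H _ (List.mem_cons_of_mem _ (List.mem_cons_of_mem _
        (List.mem_map.2 ⟨j, List.mem_range.2 hj, rfl⟩)))
      simp only [List.mem_cons, List.not_mem_nil, or_false, or_self] at hl
      rcases hl with rfl | rfl | rfl
      · exact e
      · have := ih (by omega)
        simp only at e
        rw [this] at e
        cases e
      · exact absurd ⟨_, getD_mem' hj (0, true), e⟩ hn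
  obtain ⟨l, hl, e⟩ := H _ (List.mem_cons_of_mem _ List.mem_cons_self)
  simp only [List.mem_cons, List.not_mem_nil, or_false, or_self] at hl
  subst hl
  have := key _ le_rfl
  simp only at e
  rw [this] at e
  cases e

/-- Splitting a clause of width four. -/
def two (i : ℕ) (c : List (ℕ × Bool)) : CNF :=
  [[ev (c.getD 0 (0, true)), ev (c.getD 1 (0, true)), (2 * i + 1, true)],
    [(2 * i + 1, false), ev (c.getD 2 (0, true)), ev (c.getD 3 (0, true))]]

/-- Conversion from width four to width three. -/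
def spl (φ : CNF) : CNF := (List.range φ.length).flatMap fun i => two i (φ.getD i [])

theorem spl_pt : PT spl := by
  unfold spl two ev
  fun_prop

theorem spl_w3 (φ : CNF) : ∀ c ∈ spl φ, c.length = 3 := by
  intro c hc
  simp only [spl, two, List.mem_flatMap, List.mem_cons, List.not_mem_nil, or_false] at hc
  obtain ⟨i, -, rfl | rfl⟩ := hc <;> rfl

theorem spl_len (φ : CNF) : (spl φ).length ≤ φ.length * 2 := by
  have := length_flatMap_le (List.range φ.length) (fun i => two i (φ.getD i [])) 2 fun _ => le_rfl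
  rwa [List.length_range] at this

theorem four_eq {α : Type} {c : List α} (h : c.length = 4) : ∃ x y z w, c = [x, y, z, w] := by
  match c, h with
  | [x, y, z, w], _ => exact ⟨x, y, z, w, rfl⟩

theorem spl_complete {φ : CNF} (hw : W4 φ) (h : Sat φ) : Sat (spl φ) := by
  obtain ⟨a, ha⟩ := h
  let b : ℕ → Bool := fun x => if x % 2 = 0 then a (x / 2) else
    (a ((φ.getD (x / 2) []).getD 0 (0, true)).1 != ((φ.getD (x / 2) []).getD 0 (0, true)).2 &&
      a ((φ.getD (x / 2) []).getD 1 (0, true)).1 != ((φ.getD (x / 2) []).getD 1 (0, true)).2)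
  have b1 : ∀ i, b (2 * i + 1) =
      (a ((φ.getD i []).getD 0 (0, true)).1 != ((φ.getD i []).getD 0 (0, true)).2 &&
        a ((φ.getD i []).getD 1 (0, true)).1 != ((φ.getD i []).getD 1 (0, true)).2) := fun i => by
    have e1 : (2 * i + 1) % 2 ≠ 0 := by omega
    have e2 : (2 * i + 1) / 2 = i := by omega
    simp only [b, if_neg e1, e2]
  have b2 : ∀ x, b (2 * x) = a x := fun x => by
    have e1 : (2 * x) % 2 = 0 := by omega
    have e2 : (2 * x) / 2 = x := by omega
    simp only [b, if_pos e1, e2]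
  refine ⟨b, Dat.satBy_flatMap.2 fun i hi => ?_⟩
  rw [List.mem_range] at hi
  have h1 := ha _ (getD_mem' hi [])
  have h2 := b1 i
  obtain ⟨x, y, z, w, e⟩ := four_eq (hw _ (getD_mem' hi []))
  rw [e] at h1 h2 ⊢
  simp only [SatBy, two, ev, List.mem_cons, List.not_mem_nil, or_false, forall_eq_or_imp,
    forall_eq, exists_eq_or_imp, exists_eq_left, List.getD_cons_zero, List.getD_cons_succ, b2,
    h2] at h1 ⊢
  by_cases hx : a x.1 = x.2 <;> by_cases hy : a y.1 = y.2 <;> simp_all

theorem spl_sound {φ : CNF} (hw : W4 φ) (a : ℕ → Bool) :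
    viol (fun x => a (2 * x)) φ ≤ viol a (spl φ) := by
  have : (viol (fun x => a (2 * x)) φ : ℝ) ≤ viol a (spl φ) := by
    rw [spl, viol_flatMap, sum_map_range, viol, countP_eq_sum _ []]
    push_cast
    refine Finset.sum_le_sum fun i hi => ?_
    obtain ⟨x, y, z, w, e⟩ := four_eq (hw _ (getD_mem' (Finset.mem_range.1 hi) []))
    rw [e]
    unfold ind
    split_ifs with h
    · have : 0 < viol a (two i [x, y, z, w]) := by
        simp only [List.all_cons, List.all_nil, Bool.and_true, Bool.and_eq_true] at h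
        simp only [viol, List.countP_pos_iff, two, ev, List.mem_cons, List.not_mem_nil, or_false,
          exists_eq_or_imp, exists_eq_left, List.getD_cons_zero, List.getD_cons_succ,
          List.all_cons, List.all_nil, Bool.and_true, Bool.and_eq_true, h, true_and, and_true]
        cases a (2 * i + 1) <;> simp
      exact_mod_cast this
    · positivity
  exact_mod_cast this

/-- One step of the iteration. -/
def step (r : CNF → CNF) (p : ℕ × CNF) : ℕ × CNF := if p.1 = 0 then p else (p.1 / 2, r p.2)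

theorem iter_inv {r : CNF → CNF} (I : ℕ × CNF → Prop)
    (h : ∀ c φ, 0 < c → I (c, φ) → I (c / 2, r φ)) (p : ℕ × CNF) (hp : I p) (i : ℕ) :
    I ((step r)^[i] p) := by
  induction i with
  | zero => exact hp
  | succ i ih =>
    rw [Function.iterate_succ_apply']
    unfold step
    split_ifs with h0
    · exact ih
    · exact h _ _ (Nat.pos_of_ne_zero h0) ih

theorem iter_fst (r : CNF → CNF) (p : ℕ × CNF) (i : ℕ) : ((step r)^[i] p).1 ≤ p.1 - i := by
  induction i with
  | zero => exact le_rfl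
  | succ i ih =>
    rw [Function.iterate_succ_apply']
    generalize (step r)^[i] p = q at ih
    unfold step
    split_ifs with h0
    · omega
    · simp only
      omega

theorem exists_amp : ∃ g : CNF → CNF, PT g ∧ (∀ φ, W4 φ → W4 (g φ)) ∧
    (∀ φ, W4 φ → Sat φ → Sat (g φ)) ∧
    ∀ φ, W4 φ → ¬ Sat φ → ∀ a, 0 < viol a (g φ) ∧ c0 * (g φ).length ≤ viol a (g φ) := by
  obtain ⟨r, C, hpt, hw, hlen, hsz, hc, hs⟩ := exists_round
  refine ⟨fun φ => ((step r)^[φ.length] (φ.length, φ)).2, ?_, fun φ h => ?_, fun φ h1 h2 => ?_,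
    fun φ h1 h2 => ?_⟩
  · refine (PT.iter (B := fun φ : CNF => 2 * φ.length + 1 +
      (sz φ + C * ((φ.length + 1) * (2 * φ.length + 1) ^ C) ^ 2)) ?_ (by fun_prop) (by fun_prop)
      (PT.pb (by fun_prop)) fun φ i _ => ?_).snd
    · unfold step
      have := hpt.comp (PT.id (α := ℕ × CNF)).snd
      fun_prop
    · have := iter_inv (r := r) (fun p => (p.2.length + 1) * (max (2 * p.1) 1) ^ C ≤
        (φ.length + 1) * (2 * φ.length + 1) ^ C ∧ p.1 ≤ φ.length ∧
        sz p.2 ≤ sz φ + C * ((φ.length + 1) * (2 * φ.length + 1) ^ C) ^ 2) (fun c ψ h0 H => by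
          obtain ⟨H1, H2, H3⟩ := H
          simp only at H1 H2 H3 ⊢
          refine ⟨le_trans ?_ H1, by omega, ?_⟩
          · have h1 := hlen ψ
            have h2 : C + 1 ≤ 2 ^ C := Nat.lt_two_pow_self
            calc _ ≤ (2 ^ C * (ψ.length + 1)) * c ^ C :=
                Nat.mul_le_mul (by nlinarith) (Nat.pow_le_pow_left (by omega) _)
              _ = (ψ.length + 1) * (2 * c) ^ C := by rw [mul_pow]; ring
              _ ≤ _ := Nat.mul_le_mul_left _ (Nat.pow_le_pow_left (by omega) _)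
          · have h1 : ψ.length + 1 ≤ (φ.length + 1) * (2 * φ.length + 1) ^ C :=
              le_trans (Nat.le_mul_of_pos_right _ (pow_pos (by omega) _)) H1
            exact (hsz ψ).trans ((Nat.mul_le_mul_left _ (Nat.pow_le_pow_left h1 _)).trans
              (Nat.le_add_left _ _))) (φ.length, φ)
        ⟨Nat.mul_le_mul_left _ (Nat.pow_le_pow_left (by simp only; omega) _), le_rfl,
          Nat.le_add_right _ _⟩ i
      obtain ⟨-, h1, h2⟩ := this
      rw [← Prod.mk.eta (p := (step r)^[i] (φ.length, φ)), sz_prod, sz_nat]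
      omega
  · exact iter_inv (fun p => W4 p.2) (fun c ψ _ _ => hw ψ) _ h _
  · exact (iter_inv (fun p => W4 p.2 ∧ Sat p.2) (fun c ψ _ H => ⟨hw ψ, hc ψ H.1 H.2⟩) _
      ⟨h1, h2⟩ _).2
  · have c := c0_pos
    have hle : ∀ (a : ℕ → Bool) (ψ : CNF), viol a ψ ≤ ψ.length := fun a ψ => List.countP_le_length
    have := iter_inv (r := r) (fun p => W4 p.2 ∧ ∀ a, 0 < viol a p.2 ∧
      (c0 * p.2.length ≤ viol a p.2 ∨ p.2.length ≤ p.1 * viol a p.2)) (fun k ψ h0 H => by
        obtain ⟨H1, H2⟩ := H
        simp only at H1 H2 ⊢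
        have k0 : (0 : ℝ) < k := by exact_mod_cast h0
        have hp : 0 < ψ.length := (H2 fun _ => true).1.trans_le (hle _ _)
        refine ⟨hw ψ, fun a => ?_⟩
        obtain ⟨h3, h4⟩ := hs ψ H1 hp (min c0 (1 / k)) (lt_min c (by positivity)) (fun b => by
          rcases (H2 b).2 with h | h
          · exact le_trans (mul_le_mul_of_nonneg_right (min_le_left _ _) (by positivity)) h
          · refine le_trans (mul_le_mul_of_nonneg_right (min_le_right _ _) (by positivity)) ?_
            rw [one_div, inv_mul_le_iff₀ k0]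
            exact_mod_cast h) a
        refine ⟨h3, ?_⟩
        rcases le_or_gt c0 (3 * min c0 (1 / k)) with h5 | h5
        · rw [min_eq_right h5] at h4
          exact Or.inl h4
        · right
          rw [min_eq_left h5.le] at h4
          have h6 : 1 / (k : ℝ) ≤ c0 := by
            by_contra h6
            rw [min_eq_left (not_le.1 h6).le] at h5
            linarith
          rw [min_eq_right h6] at h4 h5
          have h7 : k ≠ 1 := by
            rintro rfl
            have := c0_le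
            norm_num at h5
            linarith
          rw [mul_one_div, div_mul_eq_mul_div, div_le_iff₀ k0] at h4
          have h8 : 3 * (r ψ).length ≤ viol a (r ψ) * k := by exact_mod_cast h4
          have h9 : viol a (r ψ) * k ≤ viol a (r ψ) * (3 * (k / 2)) :=
            Nat.mul_le_mul_left _ (by omega)
          nlinarith) (φ.length, φ) ⟨h1, fun a => by
        have : 0 < viol a φ := Nat.pos_of_ne_zero fun h => h2 ⟨a, (satBy_iff_viol a φ).2 h⟩
        exact ⟨this, Or.inr (Nat.le_mul_of_pos_right _ this)⟩⟩ φ.length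
    intro a
    obtain ⟨h3, h4⟩ := this.2 a
    refine ⟨h3, h4.resolve_right fun h5 => ?_⟩
    have h6 := iter_fst r (φ.length, φ) φ.length
    simp only [Nat.sub_self, Nat.le_zero] at h6
    rw [h6] at h5
    have := hle a ((step r)^[φ.length] (φ.length, φ)).2
    omega

/-- The PCP theorem: a polynomial time gap reduction from satisfiability to 3-SAT. -/
theorem gap3sat : ∃ (K : ℕ) (f : CNF → CNF), 0 < K ∧ PT f ∧ (∀ φ, ∀ c ∈ f φ, c.length = 3) ∧
    (∀ φ, Sat φ → Sat (f φ)) ∧
    (∀ φ, ¬ Sat φ → f φ ≠ [] ∧ ∀ a : ℕ → Bool,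
      (f φ).length ≤ K * ((f φ).countP (fun c => c.all (fun l => a l.1 != l.2)))) := by
  obtain ⟨g, hpt, hw, hc, hs⟩ := exists_amp
  obtain ⟨K, hK⟩ := exists_nat_gt (1 / c0)
  have c := c0_pos
  refine ⟨2 * (K + 1), fun φ => spl (g (conv φ)), by omega, spl_pt.comp (hpt.comp conv_pt),
    fun φ => spl_w3 _, fun φ h => spl_complete (hw _ (conv_w4 φ)) (hc _ (conv_w4 φ)
      (conv_complete h)), fun φ h => ?_⟩
  have H := hs _ (conv_w4 φ) fun h' => h (conv_sound h')
  have H2 := spl_sound (hw _ (conv_w4 φ))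
  refine ⟨fun e => ?_, fun a => ?_⟩
  · have h1 := (H fun x => true).1
    have h2 := H2 fun _ => true
    simp only at e
    rw [e] at h2
    exact absurd (h1.trans_le h2) (lt_irrefl 0)
  · have h1 := (H fun x => a (2 * x)).2
    have h2 := H2 a
    have h3 := spl_len (g (conv φ))
    rw [div_lt_iff₀ c] at hK
    have h4 : ((g (conv φ)).length : ℝ) ≤ K * viol (fun x => a (2 * x)) (g (conv φ)) := by
      have := mul_le_mul_of_nonneg_left h1 (Nat.cast_nonneg (α := ℝ) K)
      have h0 : (0 : ℝ) ≤ (g (conv φ)).length := by positivity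
      nlinarith
    have h5 : (g (conv φ)).length ≤ K * viol (fun x => a (2 * x)) (g (conv φ)) := by
      exact_mod_cast h4
    have h6 := Nat.mul_le_mul_left K h2
    change (spl (g (conv φ))).length ≤ 2 * (K + 1) * viol a (spl (g (conv φ)))
    nlinarith

end Pool.Agent.MP_9e68e9_lc.PCP

end
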