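import Mathlib
import Pool.Agent.MP_79e5e2_lc.Defs

section

/-! Sums of finite partisan games: boards on the natural numbers and dyadic numbers. -/

namespace Pool.Agent.MP_79e5e2_lc

/-- `W mv b true a`: player `b`, to move at `a`, wins. `W mv b false a`: player `b` wins when
the opponent is to move. -/
inductive W {α : Type} (mv : Bool → α → α → Prop) (b : Bool) : Bool → α → Prop
  | first {a c : α} : mv b a c → W mv b false c → W mv b true a
  | second {a : α} : (∀ c, mv (!b) a c → W mv b true c) → W mv b false a

section generic
variable {α β : Type} {mv : Bool → α → α → Prop} {mw : Bool → β → β → Prop} {b : Bool}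

theorem W.excl {t : Bool} {a : α} (h : W mv b t a) : ¬ W mv (!b) (!t) a := by
  induction h with
  | first h1 _ ih =>
    intro h2
    cases h2 with
    | second h3 => exact ih (h3 _ (by simpa using h1))
  | second _ ih =>
    intro h2
    cases h2 with
    | first h3 h4 => exact ih _ h3 h4

theorem W.det (rk : α → ℕ) (hrk : ∀ p a c, mv p a c → rk c < rk a) :
    ∀ (a : α) (b : Bool), W mv b true a ∨ W mv (!b) false a := by
  intro a
  induction' h : rk a using Nat.strong_induction_on with n ih generalizing a
  intro b
  by_cases h1 : ∃ c, mv b a c ∧ W mv b false c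
  · obtain ⟨c, h2, h3⟩ := h1
    exact Or.inl (W.first h2 h3)
  · refine Or.inr (W.second fun c hc => ?_)
    rw [Bool.not_not] at hc
    rcases ih _ (h ▸ hrk _ _ _ hc) c rfl (!b) with h2 | h2
    · exact h2
    · rw [Bool.not_not] at h2
      exact absurd ⟨c, hc, h2⟩ h1

theorem W.sim (R : α → β → Prop)
    (h1 : ∀ a c, R a c → ∀ a', mv b a a' → ∃ c', mw b c c' ∧ R a' c')
    (h2 : ∀ a c, R a c → ∀ c', mw (!b) c c' → ∃ a', mv (!b) a a' ∧ R a' c')
    {t : Bool} {a : α} (h : W mv b t a) : ∀ c, R a c → W mw b t c := by
  induction h with
  | first h3 _ ih =>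
    intro c hc
    obtain ⟨c', h4, h5⟩ := h1 _ _ hc _ h3
    exact W.first h4 (ih _ h5)
  | second _ ih =>
    intro c hc
    refine W.second fun c' h3 => ?_
    obtain ⟨a', h4, h5⟩ := h2 _ _ hc _ h3
    exact ih _ h4 _ h5

end generic

/-- Components of a sum. -/
inductive At : Type
  | brd (s : Finset ℕ) : At
  | num (q : ℤ) : At

/-- Distance between the two cells of a domino: `16` for player `true`, `1` for `false`. -/
def st (p : Bool) : ℕ := if p then 16 else 1

/-- A move on a board. -/
def BMv (p : Bool) (s t : Finset ℕ) : Prop :=
  ∃ i, i ∈ s ∧ i + st p ∈ s ∧ t = (s.erase i).erase (i + st p)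

/-- The largest power of two (at most 8) dividing `q`. -/
def low (q : ℤ) : ℤ := if q % 2 ≠ 0 then 1 else if q % 4 ≠ 0 then 2 else if q % 8 ≠ 0 then 4 else 8

/-- A move on the number `q / 8`; player `false` is the positive player. -/
def NMv (p : Bool) (q r : ℤ) : Prop :=
  if p then (q % 8 = 0 → q < 0) ∧ r = q + low q else (q % 8 = 0 → 0 < q) ∧ r = q - low q

/-- A move on a component. -/
def AMv (p : Bool) : At → At → Prop
  | .brd s, .brd t => BMv p s t
  | .num q, .num r => NMv p q r
  | _, _ => False

/-- A move on a sum. -/
def Mv (p : Bool) (M N : Multiset At) : Prop :=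
  ∃ a c R, AMv p a c ∧ M = a ::ₘ R ∧ N = c ::ₘ R

/-- Rank of a component. -/
def rkA : At → ℕ
  | .brd s => s.card
  | .num q => (q.natAbs / 8 + (if q % 2 ≠ 0 then 4 else if q % 4 ≠ 0 then 3
      else if q % 8 ≠ 0 then 2 else 0))

theorem BMv.card_lt {p : Bool} {s t : Finset ℕ} (h : BMv p s t) : t.card < s.card := by
  obtain ⟨i, h1, -, rfl⟩ := h
  exact lt_of_le_of_lt Finset.card_erase_le (Finset.card_erase_lt_of_mem h1)

theorem AMv.rk_lt {p : Bool} {a c : At} (h : AMv p a c) : rkA c < rkA a := by
  cases a <;> cases c <;> simp only [AMv] at h
  · exact h.card_lt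
  · rename_i q r
    simp only [rkA]
    cases p <;> simp only [NMv, low, Bool.false_eq_true, if_false, if_true] at h <;>
      obtain ⟨h1, h2⟩ := h <;> split_ifs at h2 ⊢ <;> omega

/-- Rank of a sum. -/
def rkM (M : Multiset At) : ℕ := (M.map rkA).sum

theorem rkM_add (M N : Multiset At) : rkM (M + N) = rkM M + rkM N := by simp [rkM]

theorem Mv.rk_lt {p : Bool} {M N : Multiset At} (h : Mv p M N) : rkM N < rkM M := by
  obtain ⟨a, c, R, h1, rfl, rfl⟩ := h
  have := h1.rk_lt
  simp only [rkM, Multiset.map_cons, Multiset.sum_cons]
  omega

theorem Mv.add_right {p : Bool} {M M' : Multiset At} (h : Mv p M M') (N : Multiset At) :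
    Mv p (M + N) (M' + N) := by
  obtain ⟨a, c, R, h1, rfl, rfl⟩ := h
  exact ⟨a, c, R + N, h1, by simp, by simp⟩

theorem Mv.of_add {p : Bool} {M N K : Multiset At} (h : Mv p (M + N) K) :
    (∃ M', Mv p M M' ∧ K = M' + N) ∨ (∃ N', Mv p N N' ∧ K = M + N') := by
  classical
  obtain ⟨a, c, R, h1, h2, rfl⟩ := h
  have : a ∈ M + N := h2 ▸ Multiset.mem_cons_self a R
  rcases Multiset.mem_add.1 this with h3 | h3
  · obtain ⟨M', rfl⟩ := Multiset.exists_cons_of_mem h3
    rw [Multiset.cons_add, Multiset.cons_inj_right] at h2
    subst h2
    exact Or.inl ⟨c ::ₘ M', ⟨a, c, M', h1, rfl, rfl⟩, by simp⟩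
  · obtain ⟨N', rfl⟩ := Multiset.exists_cons_of_mem h3
    rw [Multiset.add_cons, Multiset.cons_inj_right] at h2
    subst h2
    exact Or.inr ⟨c ::ₘ N', ⟨a, c, N', h1, rfl, rfl⟩, by simp⟩

theorem Mv.of_single {p : Bool} {a : At} {K : Multiset At} (h : Mv p {a} K) :
    ∃ c, AMv p a c ∧ K = {c} := by
  obtain ⟨a', c, R, h1, h2, rfl⟩ := h
  have h3 := congrArg Multiset.card h2
  simp only [Multiset.card_singleton, Multiset.card_cons] at h3
  have h4 : R = 0 := Multiset.card_eq_zero.1 (by omega)
  subst h4
  have h5 : a = a' := by simpa using h2
  subst h5
  exact ⟨c, h1, rfl⟩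

theorem Mv.single {p : Bool} {a c : At} (h : AMv p a c) : Mv p {a} {c} := ⟨a, c, 0, h, rfl, rfl⟩

theorem W_add (b : Bool) : ∀ (n : ℕ) (M N : Multiset At), rkM M + rkM N = n → ∀ t,
    W Mv b t M → W Mv b false N → W Mv b t (M + N) := by
  intro n
  induction n using Nat.strong_induction_on with
  | _ n ih =>
    intro M N hn t h1 h2
    cases h1 with
    | first h3 h4 =>
      have := h3.rk_lt
      exact W.first (h3.add_right N) (ih _ (by omega) _ _ rfl _ h4 h2)
    | second h3 =>
      refine W.second fun K hK => ?_
      rcases hK.of_add with ⟨M', h4, rfl⟩ | ⟨N', h4, rfl⟩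
      · have := h4.rk_lt
        exact ih _ (by omega) _ _ rfl _ (h3 _ h4) h2
      · have := h4.rk_lt
        cases h2 with
        | second h5 =>
          rw [add_comm]
          exact ih _ (by omega) _ _ rfl _ (h5 _ h4) (W.second h3)

theorem W.add {b t : Bool} {M N : Multiset At} (h1 : W Mv b t M) (h2 : W Mv b false N) :
    W Mv b t (M + N) := W_add b _ M N rfl t h1 h2

theorem W.cancel {b t : Bool} {M Z : Multiset At} (h1 : W Mv b t (M + Z))
    (h2 : W Mv (!b) false Z) : W Mv b t M := by
  have hd := W.det (mv := Mv) rkM (fun _ _ _ h => Mv.rk_lt h) M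
  cases t with
  | true =>
    rcases hd b with h | h
    · exact h
    · exact absurd (h.add h2) h1.excl
  | false =>
    rcases hd (!b) with h | h
    · exact absurd (h.add h2) h1.excl
    · simpa using h

/-- Sign seen by player `b`. -/
def sg (b : Bool) (q : ℤ) : ℤ := if b then -q else q

theorem low_pos (q : ℤ) : 0 < low q := by unfold low; split_ifs <;> omega

theorem dvd_sum_of_low (d : ℤ) (hd : d = 1 ∨ d = 2 ∨ d = 4 ∨ d = 8) (L : Multiset ℤ)
    (h : ∀ q ∈ L, d ≤ low q) : d ∣ L.sum := by
  refine Multiset.dvd_sum fun q hq => ?_
  have := h q hq
  unfold low at this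
  split_ifs at this <;> rcases hd with rfl | rfl | rfl | rfl <;> omega

theorem sg_sum_cons (b : Bool) (q : ℤ) (L : Multiset ℤ) :
    sg b (q ::ₘ L).sum = sg b q + sg b L.sum := by
  cases b <;> simp [sg]; ring

theorem W_nums (b : Bool) : ∀ (n : ℕ) (L : Multiset ℤ), rkM (L.map At.num) = n →
    (0 ≤ sg b L.sum → W Mv b false (L.map At.num)) ∧
    (0 < sg b L.sum → W Mv b true (L.map At.num)) := by
  classical
  intro n
  induction n using Nat.strong_induction_on with
  | _ n ih =>
    intro L hn
    constructor
    · intro h
      refine W.second fun K hK => ?_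
      have hlt := hK.rk_lt
      obtain ⟨a, c, R, h1, h2, rfl⟩ := hK
      have : a ∈ L.map At.num := h2 ▸ Multiset.mem_cons_self a R
      obtain ⟨q, hq, rfl⟩ := Multiset.mem_map.1 this
      obtain ⟨L', rfl⟩ := Multiset.exists_cons_of_mem hq
      rw [Multiset.map_cons, Multiset.cons_inj_right] at h2
      subst h2
      cases c with
      | brd s => exact h1.elim
      | num r =>
        rw [← Multiset.map_cons] at hlt ⊢
        refine (ih _ (hn ▸ hlt) _ rfl).2 ?_
        rw [sg_sum_cons] at h ⊢
        have := low_pos q
        cases b <;> simp only [AMv, NMv, sg, Bool.not_false, Bool.not_true, if_true,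
          Bool.false_eq_true, if_false] at h1 h ⊢ <;> omega
    · intro h
      have key : ∃ q ∈ L, (q % 8 = 0 → 0 < sg b q) ∧ low q ≤ sg b L.sum := by
        by_cases h8 : ∀ q ∈ L, 8 ≤ low q
        · have h1 := dvd_sum_of_low 8 (by simp) L h8
          have h2 : ∃ q ∈ L, 0 < sg b q := by
            by_contra hc
            push Not at hc
            have : sg b L.sum ≤ 0 := by
              clear h hn h8 h1
              induction L using Multiset.induction_on with
              | empty => cases b <;> simp [sg]
              | cons a L ihL =>
                rw [sg_sum_cons]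
                have h3 := hc a (Multiset.mem_cons_self _ _)
                have h4 := ihL fun q hq => hc q (Multiset.mem_cons_of_mem hq)
                omega
            omega
          obtain ⟨q, hq, h3⟩ := h2
          refine ⟨q, hq, fun _ => h3, ?_⟩
          have : low q ≤ 8 := by unfold low; split_ifs <;> omega
          cases b <;> simp only [sg, if_true, Bool.false_eq_true, if_false] at h ⊢ <;> omega
        · push Not at h8
          obtain ⟨q0, hq0, h0⟩ := h8
          obtain ⟨q, hq, hmin⟩ := Multiset.exists_min_image (fun q => low q)
            (s := L) (fun h => by simp [h] at hq0)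
          have h1 := dvd_sum_of_low (low q) (by unfold low; split_ifs <;> simp) L hmin
          have h2 := hmin q0 hq0
          refine ⟨q, hq, fun h3 => ?_, ?_⟩
          · exfalso
            have : low q = 8 := by unfold low; split_ifs <;> omega
            omega
          · refine Int.le_of_dvd h ?_
            cases b <;> simp [sg, h1]
      obtain ⟨q, hq, h1, h2⟩ := key
      obtain ⟨L', rfl⟩ := Multiset.exists_cons_of_mem hq
      have hm : Mv b ((q ::ₘ L').map At.num) (((q - sg b (low q)) ::ₘ L').map At.num) := by
        refine ⟨.num q, .num (q - sg b (low q)), L'.map At.num, ?_, by simp, by simp⟩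
        cases b <;> simp only [AMv, NMv, sg, if_true, Bool.false_eq_true, if_false] at h1 ⊢
        · exact ⟨h1, trivial⟩
        · exact ⟨by omega, by omega⟩
      refine W.first hm ((ih _ (hn ▸ hm.rk_lt) _ rfl).1 ?_)
      rw [sg_sum_cons] at h2 ⊢
      cases b <;> simp only [sg, if_true, Bool.false_eq_true, if_false] at h2 ⊢ <;> omega

/-- `Bd false M u`: the sum `M` is at most `u / 8`. `Bd true M u`: it is not at least `u / 8`. -/
def Bd (t : Bool) (M : Multiset At) (u : ℤ) : Prop := W Mv true t (M + {At.num (-u)})

theorem zero_pair (u : ℤ) : W Mv (!true) false {At.num u, At.num (-u)} := by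
  have := (W_nums false _ {u, -u} rfl).1 (by simp [sg])
  simpa using this

theorem Bd.add {t : Bool} {M N : Multiset At} {u v w : ℤ} (h1 : Bd t M u) (h2 : Bd false N v)
    (h : u + v ≤ w) : Bd t (M + N) w := by
  have h3 := (W_nums true _ {u, v, -w} rfl).1 (by simp [sg]; omega)
  have h4 := (W.add (W.add h1 h2) h3)
  refine W.cancel (W.cancel ?_ (zero_pair u)) (zero_pair v)
  convert h4 using 1
  simp only [Multiset.insert_eq_cons, Multiset.map_cons, Multiset.map_singleton]
  simp only [← Multiset.singleton_add]
  ac_rfl

theorem Bd.zero : Bd false 0 0 := by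
  have := (W_nums true _ {0} rfl).1 (by simp [sg])
  simpa [Bd] using this

theorem Bd.one : Bd true 0 1 := by
  have := (W_nums true _ {-1} rfl).2 (by simp [sg])
  simpa [Bd] using this

theorem Bd.mono {t : Bool} {M : Multiset At} {u w : ℤ} (h1 : Bd t M u) (h : u ≤ w) : Bd t M w := by
  simpa using h1.add Bd.zero (by omega : u + 0 ≤ w)

theorem Bd.strict {M : Multiset At} {u w : ℤ} (h1 : Bd false M u) (h : u < w) : Bd true M w := by
  simpa using Bd.one.add h1 (by omega : 1 + u ≤ w)

theorem Bd.add' {t : Bool} {M N : Multiset At} {u v w : ℤ} (h1 : Bd false M u) (h2 : Bd t N v)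
    (h : u + v ≤ w) : Bd t (M + N) w := by
  rw [add_comm]
  exact h2.add h1 (by omega)

theorem Bd.win {t : Bool} {M : Multiset At} (h : Bd t M 0) : W Mv true t M := by
  refine W.cancel h ?_
  have := (W_nums false _ {0} rfl).1 (by simp [sg])
  simpa using this

theorem Bd.of_move {s t : Finset ℕ} {u : ℤ} (h1 : BMv true s t) (h2 : Bd false {At.brd t} u) :
    Bd true {At.brd s} u :=
  W.first ((Mv.single (a := .brd s) (c := .brd t) h1).add_right _) h2

theorem Bd.of_moves {s : Finset ℕ} {u : ℤ} (h1 : ∀ t, BMv false s t → Bd true {At.brd t} u)
    (h2 : (u % 8 = 0 → u < 0) → Bd true {At.brd s} (u + low u)) : Bd false {At.brd s} u := by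
  refine W.second fun K hK => ?_
  rcases hK.of_add with ⟨M', h3, rfl⟩ | ⟨N', h3, rfl⟩
  · obtain ⟨c, h4, rfl⟩ := h3.of_single
    cases c with
    | brd t => exact h1 t h4
    | num q => exact h4.elim
  · obtain ⟨c, h4, rfl⟩ := h3.of_single
    cases c with
    | brd t => exact h4.elim
    | num q =>
      simp only [AMv, NMv, Bool.not_true, Bool.false_eq_true, if_false] at h4
      have h5 : low (-u) = low u := by unfold low; split_ifs <;> omega
      have h6 : q = -(u + low u) := by omega
      subst h6
      exact h2 (by omega)

/-- Splitting a board into a translated part and a rest. -/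
def Split (k : ℕ) (a c m : Finset ℕ) : Prop :=
  (∀ i ∈ a, i + 16 ∈ a → (i + k ∈ m ∧ i + k ∉ c) ∧ i + 16 + k ∈ m ∧ i + 16 + k ∉ c) ∧
  (∀ i ∈ c, i + 16 ∈ c → i ∈ m ∧ i + 16 ∈ m ∧ ∀ j ∈ a, j + k ≠ i ∧ j + k ≠ i + 16) ∧
    ∀ i, i ∈ m → i + 1 ∈ m → (∃ j, i = j + k ∧ j ∈ a ∧ j + 1 ∈ a) ∨ (i ∈ c ∧ i + 1 ∈ c)

theorem Split.of_disj {k : ℕ} {a c m : Finset ℕ} (h1 : ∀ i ∈ a, i + k ∈ m ∧ i + k ∉ c)
    (h2 : c ⊆ m) (h3 : ∀ i, i ∈ m → i + 1 ∈ m →
      (∃ j, i = j + k ∧ j ∈ a ∧ j + 1 ∈ a) ∨ (i ∈ c ∧ i + 1 ∈ c)) : Split k a c m :=
  ⟨fun i hi hi' => ⟨h1 i hi, h1 _ hi'⟩, fun _ hi hi' => ⟨h2 hi, h2 hi', fun j hj =>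
    ⟨fun e => (h1 j hj).2 (e ▸ hi), fun e => (h1 j hj).2 (e ▸ hi')⟩⟩, h3⟩

theorem Split.left {k : ℕ} {a c m : Finset ℕ} (h : Split k a c m) (i d : ℕ) (h1 : i ∈ a)
    (h2 : i + d ∈ a) :
    Split k ((a.erase i).erase (i + d)) c ((m.erase (i + k)).erase (i + k + d)) := by
  obtain ⟨h3, h4, h5⟩ := h
  refine ⟨fun j hj hj' => ?_, fun j hj hj' => ?_, fun j hj hj' => ?_⟩
  · simp only [Finset.mem_erase] at hj hj' ⊢
    have := h3 j hj.2.2 hj'.2.2
    exact ⟨⟨⟨by omega, by omega, this.1.1⟩, this.1.2⟩, ⟨by omega, by omega, this.2.1⟩, this.2.2⟩
  · simp only [Finset.mem_erase]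
    have := h4 j hj hj'
    have b1 := this.2.2 _ h1
    have b2 := this.2.2 _ h2
    exact ⟨⟨by omega, by omega, this.1⟩, ⟨by omega, by omega, this.2.1⟩,
      fun l hl => this.2.2 l hl.2.2⟩
  · simp only [Finset.mem_erase] at hj hj' ⊢
    rcases h5 j hj.2.2 hj'.2.2 with ⟨l, rfl, h6, h7⟩ | h6
    · exact Or.inl ⟨l, rfl, ⟨by omega, by omega, h6⟩, by omega, by omega, h7⟩
    · exact Or.inr h6

theorem Split.right {k : ℕ} {a c m : Finset ℕ} (h : Split k a c m) (i j : ℕ) (h1 : i ∈ c)
    (h2 : j ∈ c) : Split k a ((c.erase i).erase j) ((m.erase i).erase j) := by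
  obtain ⟨h3, h4, h5⟩ := h
  refine ⟨fun l hl hl' => ?_, fun l hl hl' => ?_, fun l hl hl' => ?_⟩
  · simp only [Finset.mem_erase]
    have := h3 l hl hl'
    refine ⟨⟨⟨?_, ?_, this.1.1⟩, fun h => this.1.2 h.2.2⟩, ⟨?_, ?_, this.2.1⟩,
      fun h => this.2.2 h.2.2⟩
    · rintro rfl; exact this.1.2 h2
    · rintro rfl; exact this.1.2 h1
    · rintro rfl; exact this.2.2 h2
    · rintro rfl; exact this.2.2 h1
  · simp only [Finset.mem_erase] at hl hl' ⊢
    have := h4 l hl.2.2 hl'.2.2
    exact ⟨⟨hl.1, hl.2.1, this.1⟩, ⟨hl'.1, hl'.2.1, this.2.1⟩, this.2.2⟩
  · simp only [Finset.mem_erase] at hl hl' ⊢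
    rcases h5 l hl.2.2 hl'.2.2 with h6 | h6
    · exact Or.inl h6
    · exact Or.inr ⟨⟨hl.1, hl.2.1, h6.1⟩, hl'.1, hl'.2.1, h6.2⟩

theorem Bd.split {t : Bool} {k : ℕ} {a c m : Finset ℕ} {u : ℤ} (h : Split k a c m)
    (h1 : Bd t ({At.brd a} + {At.brd c}) u) : Bd t {At.brd m} u := by
  refine W.sim (fun M N => ∃ a c m R, Split k a c m ∧ M = {At.brd a} + {At.brd c} + R ∧
    N = {At.brd m} + R) ?_ ?_ h1 _ ⟨a, c, m, _, h, rfl, rfl⟩
  · rintro _ _ ⟨a, c, m, R, hs, rfl, rfl⟩ K hK
    rcases hK.of_add with ⟨M', h3, rfl⟩ | ⟨R', h3, rfl⟩
    · rcases h3.of_add with ⟨M', h4, rfl⟩ | ⟨M', h4, rfl⟩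
      · obtain ⟨e, h5, rfl⟩ := h4.of_single
        cases e with
        | num q => exact h5.elim
        | brd e =>
          obtain ⟨i, h6, h7, rfl⟩ := h5
          refine ⟨_, (Mv.single (a := .brd m) (c := .brd _)
            ⟨i + k, (hs.1 _ h6 h7).1.1, ?_, rfl⟩).add_right _,
            _, _, _, _, hs.left i _ h6 h7, rfl, rfl⟩
          rw [show i + k + st true = i + st true + k by ring]
          exact (hs.1 _ h6 h7).2.1
      · obtain ⟨e, h5, rfl⟩ := h4.of_single
        cases e with
        | num q => exact h5.elim
        | brd e =>
          obtain ⟨i, h6, h7, rfl⟩ := h5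
          exact ⟨_, (Mv.single (p := true) (a := .brd m) (c := .brd _)
            ⟨i, (hs.2.1 _ h6 h7).1, (hs.2.1 _ h6 h7).2.1, rfl⟩).add_right _,
            _, _, _, _, hs.right i _ h6 h7, rfl, rfl⟩
    · refine ⟨{At.brd m} + R', ?_, a, c, m, R', hs, rfl, rfl⟩
      rw [add_comm _ R, add_comm _ R']
      exact h3.add_right _
  · rintro _ _ ⟨a, c, m, R, hs, rfl, rfl⟩ K hK
    rcases hK.of_add with ⟨M', h3, rfl⟩ | ⟨R', h3, rfl⟩
    · obtain ⟨e, h5, rfl⟩ := h3.of_single
      cases e with
      | num q => exact h5.elim
      | brd e =>
        obtain ⟨i, h6, h7, rfl⟩ := h5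
        rcases hs.2.2 i h6 h7 with ⟨j, rfl, h8, h9⟩ | ⟨h8, h9⟩
        · exact ⟨_, ((Mv.single (p := false) (a := .brd a) (c := .brd _) ⟨j, h8, h9, rfl⟩).add_right _).add_right _,
            _, _, _, _, hs.left j _ h8 h9, rfl, rfl⟩
        · refine ⟨{At.brd a} + {At.brd ((c.erase i).erase (i + 1))} + R, ?_,
            _, _, _, _, hs.right i _ h8 h9, rfl, rfl⟩
          rw [add_comm {At.brd a}, add_comm {At.brd a}]
          exact ((Mv.single (p := false) (a := .brd c) (c := .brd _) ⟨i, h8, h9, rfl⟩).add_right _).add_right _
    · refine ⟨{At.brd a} + {At.brd c} + R', ?_, a, c, m, R', hs, rfl, rfl⟩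
      rw [add_comm _ R, add_comm _ R']
      exact h3.add_right _

theorem Bd.card (s : Finset ℕ) : Bd false {At.brd s} (8 * s.card) := by
  induction' h : s.card using Nat.strong_induction_on with n ih generalizing s
  refine Bd.of_moves (fun t ht => ?_) (fun h1 => by omega)
  have := ht.card_lt
  exact (ih _ (h ▸ this) t rfl).strict (by omega)

theorem Bd.empty : Bd false {At.brd ∅} 0 := by simpa using Bd.card ∅

end Pool.Agent.MP_79e5e2_lc

end

section

/-! Networks of pieces: a token game on the pieces determines the winner of the board. -/

namespace Pool.Agent.MP_79e5e2_lc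

/-- Entering by `port`, the token leaves by one of the `good` exits and the label becomes
`next`. -/
structure Req where
  port : ℕ
  good : List ℕ
  next : ℕ
deriving DecidableEq

/-- States of a piece. -/
inductive Tag : Type
  | rest (L : ℕ) : Tag
  | wy (q : Req) : Tag
  | wx (q : Req) : Tag
deriving DecidableEq

/-- A kind of piece. -/
structure Kind where
  cells : Finset ℕ
  stub : List ℕ
  n : ℤ
  inp : List (ℕ × ℕ)
  out : List (ℕ × ℕ × ℕ)
  reqs : ℕ → List Req

namespace Kind
variable (K : Kind)

/-- End cell of an entering stub. -/
def iz (p : ℕ) : ℕ := (K.inp.getD p (0, 0)).1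
/-- Middle cell of an entering stub. -/
def im (p : ℕ) : ℕ := (K.inp.getD p (0, 0)).2
/-- Inner cell of a leaving stub. -/
def oc (o : ℕ) : ℕ := (K.out.getD o (0, 0, 0)).1
/-- Middle cell of a leaving stub. -/
def om (o : ℕ) : ℕ := (K.out.getD o (0, 0, 0)).2.1
/-- End cell of a leaving stub. -/
def oz (o : ℕ) : ℕ := (K.out.getD o (0, 0, 0)).2.2

/-- Shape of the ports. -/
structure OK : Prop where
  hx : ∀ u ∈ K.cells, u + 16 ∈ K.cells → u ∉ K.stub ∧ u + 16 ∉ K.stub
  hi : ∀ p < K.inp.length, K.iz p ∈ K.cells ∧ K.im p ∈ K.cells ∧ K.iz p ∈ K.stub ∧
    K.im p ∈ K.stub ∧ ((K.im p = K.iz p + 1 ∧ K.iz p - 1 ∉ K.cells) ∨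
      (K.iz p = K.im p + 1 ∧ K.iz p + 1 ∉ K.cells))
  ho : ∀ o < K.out.length, K.oc o ∈ K.cells ∧ K.oc o ∉ K.stub ∧ K.om o ∈ K.stub ∧
    K.oz o ∈ K.stub ∧ ((K.om o = K.oc o + 1 ∧ K.oz o = K.om o + 1 ∧ K.oz o + 1 ∉ K.cells) ∨
      (K.oc o = K.om o + 1 ∧ K.om o = K.oz o + 1 ∧ K.oz o - 1 ∉ K.cells))
  hio : ∀ p < K.inp.length, ∀ o < K.out.length, K.iz p ≠ K.om o ∧ K.iz p ≠ K.oz o

/-- A family of states closed under the rules. -/
structure Closed (R : Tag → Finset ℕ → Prop) : Prop where
  rest : ∀ L s, R (.rest L) s → Bd false {At.brd s} K.n ∧
    (∀ t, BMv false s t → Bd true {At.brd t} (K.n - 3) ∨ ∃ t', BMv true t t' ∧ R (.rest L) t') ∧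
    ∀ q ∈ K.reqs L, R (.wy q) (s.erase (K.iz q.port))
  wy : ∀ q s, R (.wy q) s → Bd false {At.brd s} (K.n - 4) ∨
    (∃ o ∈ q.good, K.om o ∈ s ∧ K.oz o ∈ s ∧ K.oc o ∉ s ∧ R (.rest q.next) s) ∨
    (Bd false {At.brd s} (K.n - 1) ∧ ∀ t, BMv false s t → R (.wx q) t)
  wx : ∀ q s, R (.wx q) s → Bd true {At.brd s} (K.n - 4) ∨ ∃ t, BMv true s t ∧ R (.wy q) t

end Kind

/-- Equality of unordered pairs. -/
def Pr {α : Type} (a b p q : α) : Prop := (a = p ∧ b = q) ∨ (a = q ∧ b = p)

/-- The real game seen from player `X`. -/
def RMv (X : Bool) (p : Bool) : Finset (ℕ × ℕ) → Finset (ℕ × ℕ) → Prop :=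
  Move (if p then X else !X)

theorem outcome_of_W {X t : Bool} {S : Finset (ℕ × ℕ)} (h : W (RMv X) true t S) :
    Outcome t (if t then X else !X) S := by
  induction h with
  | first h1 _ ih => exact Outcome.win h1 ih
  | second _ ih => exact Outcome.lose fun T hT => by simpa using ih T hT

theorem Outcome.excl {t p : Bool} {S : Finset (ℕ × ℕ)} (h : Outcome t p S) :
    ¬ Outcome (!t) p S := by
  induction h with
  | win h1 _ ih =>
    intro h2
    cases h2 with
    | lose h3 => exact ih (h3 _ h1)
  | lose _ ih =>
    intro h2
    cases h2 with
    | win h3 h4 => exact ih _ h3 h4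

theorem Move.card_lt {p : Bool} {S T : Finset (ℕ × ℕ)} (h : Move p S T) : T.card < S.card := by
  obtain ⟨i, h1, -, rfl⟩ := h
  exact lt_of_le_of_lt Finset.card_erase_le (Finset.card_erase_lt_of_mem h1)

/-- A network of placed pieces. -/
structure Net (ι : Type) where
  X : Bool
  I : Finset ι
  kind : ι → Kind
  φ : ι → ℕ → ℕ × ℕ
  R : ι → Tag → Finset ℕ → Prop

namespace Net
variable {ι : Type} [DecidableEq ι] (N : Net ι)

/-- Static conditions. -/
structure Geo : Prop where
  ok : ∀ i ∈ N.I, (N.kind i).OK
  cl : ∀ i ∈ N.I, (N.kind i).Closed (N.R i)
  inj : ∀ i ∈ N.I, ∀ u ∈ (N.kind i).cells, ∀ w ∈ (N.kind i).cells, N.φ i u = N.φ i w → u = w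
  adj : ∀ i ∈ N.I, ∀ u ∈ (N.kind i).cells, u + 16 ∈ (N.kind i).cells →
    N.φ i (u + 16) = nb N.X (N.φ i u) ∨ N.φ i u = nb N.X (N.φ i (u + 16))
  uniq : ∀ i ∈ N.I, ∀ k ∈ N.I, ∀ u ∈ (N.kind i).cells, u ∉ (N.kind i).stub →
    ∀ w ∈ (N.kind k).cells, N.φ i u = N.φ k w → i = k
  sum : ∑ i ∈ N.I, (N.kind i).n ≤ 4

/-- Exit `o` of `k` is glued to entry `p` of `j`. -/
def Lk (k : ι) (o : ℕ) (j : ι) (p : ℕ) : Prop :=
  k ∈ N.I ∧ j ∈ N.I ∧ o < (N.kind k).out.length ∧ p < (N.kind j).inp.length ∧
    N.φ k ((N.kind k).oz o) = N.φ j ((N.kind j).iz p)

/-- The pieces in state `s` dominate the board `S`. -/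
structure Inv (S : Finset (ℕ × ℕ)) (s : ι → Finset ℕ) : Prop where
  sub : ∀ i ∈ N.I, s i ⊆ (N.kind i).cells
  ex : ∀ i ∈ N.I, ∀ u ∈ (N.kind i).cells, u ∉ (N.kind i).stub → (u ∈ s i ↔ N.φ i u ∈ S)
  cov : ∀ p ∈ S, nb (!N.X) p ∈ S →
    (∃ i ∈ N.I, ∃ u, u ∈ s i ∧ u + 1 ∈ s i ∧ Pr (N.φ i u) (N.φ i (u + 1)) p (nb (!N.X) p)) ∨
    (∃ k o j e, N.Lk k o j e ∧ (N.kind k).om o ∈ s k ∧ (N.kind k).oz o ∈ s k ∧
      N.φ k ((N.kind k).oc o) ∉ S ∧
      Pr (N.φ j ((N.kind j).iz e)) (N.φ j ((N.kind j).im e)) p (nb (!N.X) p))

variable {N}

theorem erase_pr {α : Type} [DecidableEq α] {S : Finset α} {a b p q : α} (h : Pr a b p q) (x : α) :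
    x ∈ (S.erase p).erase q ↔ x ∈ S ∧ x ≠ a ∧ x ≠ b := by
  simp only [Finset.mem_erase]
  rcases h with ⟨rfl, rfl⟩ | ⟨rfl, rfl⟩ <;> tauto

theorem Pr.mem {α : Type} {S : Finset α} {a b p q : α} (h : Pr a b p q) (hp : p ∈ S) (hq : q ∈ S) :
    a ∈ S ∧ b ∈ S := by
  rcases h with ⟨rfl, rfl⟩ | ⟨rfl, rfl⟩ <;> tauto

/-- Removing the same two cells on the board and in a piece. -/
theorem Inv.direct (g : N.Geo) {S S' : Finset (ℕ × ℕ)} {s : ι → Finset ℕ} (h : N.Inv S s) {i : ι}
    (hi : i ∈ N.I) {u v : ℕ} (hu : u ∈ s i) (hv : v ∈ s i)
    (hS : ∀ x, x ∈ S' ↔ x ∈ S ∧ x ≠ N.φ i u ∧ x ≠ N.φ i v)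
    (halt : ∀ o < (N.kind i).out.length, N.φ i ((N.kind i).oc o) ∉ S →
      N.φ i ((N.kind i).oz o) ∈ S' → (N.kind i).om o ≠ u ∧ (N.kind i).om o ≠ v) :
    N.Inv S' (Function.update s i (((s i).erase u).erase v)) := by
  have hu' := h.sub i hi hu
  have hv' := h.sub i hi hv
  have keep : ∀ k ∈ N.I, ∀ w, w ∈ s k → N.φ k w ∈ S' →
      w ∈ Function.update s i (((s i).erase u).erase v) k := by
    intro k _ w hw hw'
    rw [hS] at hw'
    by_cases e : k = i
    · subst e
      simp only [Function.update_self, Finset.mem_erase]
      exact ⟨fun e => hw'.2.2 (e ▸ rfl), fun e => hw'.2.1 (e ▸ rfl), hw⟩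
    · rwa [Function.update_of_ne e]
  refine ⟨fun k hk w hw => ?_, fun k hk w hw hw' => ?_, fun p hp hq => ?_⟩
  · by_cases e : k = i
    · subst e
      simp only [Function.update_self, Finset.mem_erase] at hw
      exact h.sub k hk hw.2.2
    · rw [Function.update_of_ne e] at hw
      exact h.sub k hk hw
  · refine ⟨fun h1 => ?_, fun h1 => keep k hk w ((h.ex k hk w hw hw').2 ((hS _).1 h1).1) h1⟩
    rw [hS]
    by_cases e : k = i
    · subst e
      simp only [Function.update_self, Finset.mem_erase] at h1
      exact ⟨(h.ex k hk w hw hw').1 h1.2.2, fun e => h1.2.1 (g.inj k hk _ hw _ hu' e),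
        fun e => h1.1 (g.inj k hk _ hw _ hv' e)⟩
    · rw [Function.update_of_ne e] at h1
      exact ⟨(h.ex k hk w hw hw').1 h1, fun e' => e (g.uniq k hk i hi w hw hw' _ hu' e'),
        fun e' => e (g.uniq k hk i hi w hw hw' _ hv' e')⟩
  · rcases h.cov p ((hS _).1 hp).1 ((hS _).1 hq).1 with ⟨k, hk, w, h1, h2, h3⟩ |
      ⟨k, o, j, e, h1, h2, h3, h4, h5⟩
    · have := Pr.mem h3 hp hq
      exact Or.inl ⟨k, hk, w, keep k hk _ h1 this.1, keep k hk _ h2 this.2, h3⟩
    · have h6 := (Pr.mem h5 hp hq).1
      rw [← h1.2.2.2.2] at h6
      refine Or.inr ⟨k, o, j, e, h1, ?_, keep k h1.1 _ h3 h6, fun h7 => h4 ((hS _).1 h7).1, h5⟩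
      by_cases e : k = i
      · subst e
        have := halt o h1.2.2.1 h4 h6
        simp only [Function.update_self, Finset.mem_erase]
        exact ⟨this.2, this.1, h2⟩
      · rwa [Function.update_of_ne e]

theorem Inv.xmove (g : N.Geo) {S : Finset (ℕ × ℕ)} {s : ι → Finset ℕ} (h : N.Inv S s) {i : ι}
    (hi : i ∈ N.I) {t : Finset ℕ} (ht : BMv true (s i) t) :
    ∃ S', RMv N.X true S S' ∧ N.Inv S' (Function.update s i t) := by
  obtain ⟨u, h1, h2, rfl⟩ := ht
  change u + 16 ∈ s i at h2
  have h3 := h.sub i hi h1
  have h4 := h.sub i hi h2
  have h5 := (g.ok i hi).hx u h3 h4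
  have h6 := (h.ex i hi _ h3 h5.1).1 h1
  have h7 := (h.ex i hi _ h4 h5.2).1 h2
  have halt : ∀ o < (N.kind i).out.length,
      (N.kind i).om o ≠ u ∧ (N.kind i).om o ≠ u + 16 := by
    intro o ho
    have := ((g.ok i hi).ho o ho).2.2.1
    exact ⟨fun e => h5.1 (e ▸ this), fun e => h5.2 (e ▸ this)⟩
  rcases g.adj i hi u h3 h4 with e | e
  · refine ⟨_, ⟨N.φ i u, h6, e ▸ h7, rfl⟩, h.direct g hi h1 h2 ?_ fun o ho _ _ => halt o ho⟩
    exact erase_pr (Or.inl ⟨rfl, e⟩)
  · refine ⟨_, ⟨N.φ i (u + 16), h7, e ▸ h6, rfl⟩, h.direct g hi h1 h2 ?_ fun o ho _ _ => halt o ho⟩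
    exact erase_pr (Or.inr ⟨e, rfl⟩)

theorem Inv.ymove (g : N.Geo) {S S' : Finset (ℕ × ℕ)} {s : ι → Finset ℕ} (h : N.Inv S s)
    (hm : RMv N.X false S S') :
    ∃ i ∈ N.I, ∃ t, BMv false (s i) t ∧ N.Inv S' (Function.update s i t) := by
  obtain ⟨p, hp, hq, rfl⟩ := hm
  change nb (!N.X) p ∈ S at hq
  rcases h.cov p hp hq with ⟨i, hi, u, h1, h2, h3⟩ | ⟨k, o, j, e, h1, h2, h3, h4, h5⟩
  · refine ⟨i, hi, _, ⟨u, h1, h2, rfl⟩, h.direct g hi h1 h2 (erase_pr h3) fun o ho h4 h5 => ?_⟩
    have h6 := Pr.mem h3 hp hq
    have h7 := (erase_pr h3 _).1 h5
    have h8 : (N.kind i).oc o ≠ u ∧ (N.kind i).oc o ≠ u + 1 :=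
      ⟨fun e => h4 (e ▸ h6.1), fun e => h4 (e ▸ h6.2)⟩
    have h9 : (N.kind i).oz o ≠ u ∧ (N.kind i).oz o ≠ u + 1 :=
      ⟨fun e => h7.2.1 (e ▸ rfl), fun e => h7.2.2 (e ▸ rfl)⟩
    have := ((g.ok i hi).ho o ho).2.2.2.2
    change _ ∧ _ ≠ u + 1
    omega
  · obtain ⟨hk, hj, ho, he, hz⟩ := h1
    have hS := erase_pr (S := S) h5
    have a1 := (g.ok k hk).ho o ho
    have a2 := (g.ok j hj).hi e he
    have hb : BMv false (s k) (((s k).erase ((N.kind k).om o)).erase ((N.kind k).oz o)) := by
      rcases a1.2.2.2.2 with a | a
      · exact ⟨_, h2, by rw [show st false = 1 from rfl, ← a.2.1]; exact h3,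
          by rw [show st false = 1 from rfl, ← a.2.1]⟩
      · exact ⟨_, h3, by rw [show st false = 1 from rfl, ← a.2.1]; exact h2,
          by rw [show st false = 1 from rfl, ← a.2.1, Finset.erase_right_comm]⟩
    refine ⟨k, hk, _, hb, fun i hi w hw => ?_, fun i hi w hw hw' => ?_, fun p' hp' hq' => ?_⟩
    · by_cases e : i = k
      · subst e
        simp only [Function.update_self, Finset.mem_erase] at hw
        exact h.sub i hi hw.2.2
      · rw [Function.update_of_ne e] at hw
        exact h.sub i hi hw
    · have b1 : N.φ i w ≠ N.φ j ((N.kind j).iz e) := fun b => by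
        obtain rfl := g.uniq i hi j hj w hw hw' _ a2.1 b
        exact hw' (g.inj i hi _ hw _ a2.1 b ▸ a2.2.2.1)
      have b2 : N.φ i w ≠ N.φ j ((N.kind j).im e) := fun b => by
        obtain rfl := g.uniq i hi j hj w hw hw' _ a2.2.1 b
        exact hw' (g.inj i hi _ hw _ a2.2.1 b ▸ a2.2.2.2.1)
      change _ ↔ _ ∈ (S.erase p).erase (nb (!N.X) p)
      rw [hS, ← h.ex i hi w hw hw']
      by_cases e : i = k
      · subst e
        have b3 : w ≠ (N.kind i).om o := fun b => hw' (b ▸ a1.2.2.1)
        have b4 : w ≠ (N.kind i).oz o := fun b => hw' (b ▸ a1.2.2.2.1)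
        simp [b1, b2, b3, b4]
      · simp [b1, b2, Function.update_of_ne e]
    · change p' ∈ (S.erase p).erase (nb (!N.X) p) at hp'
      change nb (!N.X) p' ∈ (S.erase p).erase (nb (!N.X) p) at hq'
      have c1 : ∀ w, N.φ k w ∈ (S.erase p).erase (nb (!N.X) p) →
          w ≠ (N.kind k).oz o ∧ w ≠ (N.kind k).oc o := fun w hw => by
        rw [hS] at hw
        exact ⟨fun b => hw.2.1 (b ▸ hz), fun b => h4 (b ▸ hw.1)⟩
      rcases h.cov p' ((hS _).1 hp').1 ((hS _).1 hq').1 with ⟨i, hi, w, b1, b2, b3⟩ |
        ⟨k', o', j', e', b1, b2, b3, b4, b5⟩
      · refine Or.inl ⟨i, hi, w, ?_⟩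
        by_cases e : i = k
        · subst e
          have b4 := Pr.mem b3 hp' hq'
          have b5 := c1 _ b4.1
          have b6 := c1 _ b4.2
          have := a1.2.2.2.2
          simp only [Function.update_self, Finset.mem_erase]
          exact ⟨⟨by omega, by omega, b1⟩, ⟨by omega, by omega, b2⟩, b3⟩
        · rw [Function.update_of_ne e]
          exact ⟨b1, b2, b3⟩
      · have b6 := (Pr.mem b5 hp' hq').1
        rw [← b1.2.2.2.2] at b6
        refine Or.inr ⟨k', o', j', e', b1, ?_, ?_, fun b => b4 ((hS _).1 b).1, b5⟩ <;>
          by_cases e : k' = k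
        all_goals first
          | rwa [Function.update_of_ne e]
          | skip
        all_goals
          subst e
          have b7 := c1 _ b6
          have b8 := (g.ok k' hk).ho o' b1.2.2.1
          have b9 : (N.kind k').oc o' ∈ (N.kind k').cells := b8.1
          have d1 := h.sub k' hk h3
          have d2 := h.sub k' hk b3
          have d3 := h.sub k' hk b2
          have d4 := a1.1
          simp only [Function.update_self, Finset.mem_erase]
        · refine ⟨fun b => ?_, fun b => ?_, b2⟩
          · rcases a1.2.2.2.2 with a | a <;> rcases b8.2.2.2.2 with a' | a'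
            · exact a.2.2 (by rw [← b, ← a'.2.1]; exact d2)
            · exact a.2.2 (by rw [← b, ← a'.1]; exact b9)
            · exact a.2.2 (by rw [← b, a'.1]; exact b9)
            · exact a.2.2 (by rw [← b, a'.2.1]; exact d2)
          · have := a1.2.2.2.2
            have := b8.2.2.2.2
            omega
        · refine ⟨b7.1, fun b => ?_, b3⟩
          rcases a1.2.2.2.2 with a | a <;> rcases b8.2.2.2.2 with a' | a'
          · exact a'.2.2 (by rw [b, ← a.2.1]; exact d1)
          · exact a'.2.2 (by rw [b, a.1]; exact d4)
          · exact a'.2.2 (by rw [b, ← a.1]; exact d4)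
          · exact a'.2.2 (by rw [b, a.2.1]; exact d1)

theorem Inv.entry (g : N.Geo) {S : Finset (ℕ × ℕ)} {s : ι → Finset ℕ} (h : N.Inv S s)
    {k j : ι} {o e : ℕ} (hl : N.Lk k o j e) (h1 : (N.kind k).om o ∈ s k)
    (h2 : (N.kind k).oz o ∈ s k) (h3 : (N.kind k).oc o ∉ s k) :
    N.Inv S (Function.update s j ((s j).erase ((N.kind j).iz e))) := by
  obtain ⟨hk, hj, ho, he, hz⟩ := id hl
  have a1 := (g.ok k hk).ho o ho
  have a2 := (g.ok j hj).hi e he
  have keep : ∀ k' o', o' < (N.kind k').out.length → ∀ w ∈ s k',
      w = (N.kind k').om o' ∨ w = (N.kind k').oz o' →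
      w ∈ Function.update s j ((s j).erase ((N.kind j).iz e)) k' := by
    intro k' o' ho' w hw hw'
    by_cases e' : k' = j
    · subst e'
      have := (g.ok k' hj).hio e he o' ho'
      simp only [Function.update_self, Finset.mem_erase]
      exact ⟨by omega, hw⟩
    · rwa [Function.update_of_ne e']
  refine ⟨fun i hi w hw => ?_, fun i hi w hw hw' => ?_, fun p hp hq => ?_⟩
  · by_cases e' : i = j
    · subst e'
      simp only [Function.update_self, Finset.mem_erase] at hw
      exact h.sub i hi hw.2
    · rw [Function.update_of_ne e'] at hw
      exact h.sub i hi hw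
  · rw [← h.ex i hi w hw hw']
    by_cases e' : i = j
    · subst e'
      have : w ≠ (N.kind i).iz e := fun b => hw' (b ▸ a2.2.2.1)
      simp [this]
    · rw [Function.update_of_ne e']
  · rcases h.cov p hp hq with ⟨i, hi, w, b1, b2, b3⟩ | ⟨k', o', j', e', b1, b2, b3, b4, b5⟩
    · by_cases e' : i = j ∧ (w = (N.kind j).iz e ∨ w + 1 = (N.kind j).iz e)
      · obtain ⟨rfl, e'⟩ := e'
        refine Or.inr ⟨k, o, i, e, hl, keep k o ho _ h1 (Or.inl rfl), keep k o ho _ h2 (Or.inr rfl),
          fun b => h3 ((h.ex k hk _ a1.1 a1.2.1).2 b), ?_⟩
        have d1 := h.sub i hi b1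
        have d2 := h.sub i hi b2
        rcases e' with e' | e' <;> rcases a2.2.2.2.2 with a | a
        · rw [a.1, ← e']; exact b3
        · exact absurd (e' ▸ d2) a.2
        · exact absurd (by rw [← e']; exact d1) a.2
        · have : (N.kind i).im e = w := by omega
          rw [this, ← e']
          unfold Pr at b3 ⊢
          tauto
      · refine Or.inl ⟨i, hi, w, ?_⟩
        by_cases e'' : i = j
        · subst e''
          simp only [Function.update_self, Finset.mem_erase]
          exact ⟨⟨by tauto, b1⟩, ⟨by tauto, b2⟩, b3⟩
        · rw [Function.update_of_ne e'']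
          exact ⟨b1, b2, b3⟩
    · exact Or.inr ⟨k', o', j', e', b1, keep k' o' b1.2.2.1 _ b2 (Or.inl rfl),
        keep k' o' b1.2.2.1 _ b3 (Or.inr rfl), b4, b5⟩

omit [DecidableEq ι] in
theorem bd_sum (I : Finset ι) (s : ι → Finset ℕ) (u : ι → ℤ)
    (h : ∀ i ∈ I, Bd false {At.brd (s i)} (u i)) :
    Bd false (∑ i ∈ I, {At.brd (s i)}) (∑ i ∈ I, u i) := by
  classical
  induction I using Finset.induction_on with
  | empty => simpa using Bd.zero
  | insert a I ha ih =>
    rw [Finset.sum_insert ha, Finset.sum_insert ha]
    exact (h a (Finset.mem_insert_self _ _)).add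
      (ih fun i hi => h i (Finset.mem_insert_of_mem hi)) le_rfl

theorem sum_update (I : Finset ι) (s : ι → Finset ℕ) {i : ι} (hi : i ∈ I) (t : Finset ℕ) :
    (∑ k ∈ I, {At.brd (Function.update s i t k)} : Multiset At) =
      {At.brd t} + ∑ k ∈ I.erase i, {At.brd (s k)} := by
  rw [← Finset.add_sum_erase _ _ hi, Function.update_self]
  congr 1
  exact Finset.sum_congr rfl fun k hk => by rw [Function.update_of_ne (Finset.mem_erase.1 hk).1]

theorem mv_sum (I : Finset ι) (s : ι → Finset ℕ) {p : Bool} {K : Multiset At}
    (h : Mv p (∑ k ∈ I, {At.brd (s k)}) K) :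
    ∃ i ∈ I, ∃ t, BMv p (s i) t ∧ K = ∑ k ∈ I, {At.brd (Function.update s i t k)} := by
  obtain ⟨a, c, R, h1, h2, rfl⟩ := h
  have : a ∈ (∑ k ∈ I, {At.brd (s k)} : Multiset At) := h2 ▸ Multiset.mem_cons_self a R
  simp only [Multiset.mem_sum, Multiset.mem_singleton] at this
  obtain ⟨i, hi, rfl⟩ := this
  cases c with
  | num q => exact h1.elim
  | brd t =>
    refine ⟨i, hi, t, h1, ?_⟩
    rw [sum_update I s hi]
    rw [← Finset.add_sum_erase _ _ hi, Multiset.singleton_add, Multiset.cons_inj_right] at h2
    rw [h2, Multiset.singleton_add]

theorem Inv.crude (g : N.Geo) {S : Finset (ℕ × ℕ)} {s : ι → Finset ℕ} (h : N.Inv S s) {t : Bool}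
    {j : ι} (hj : j ∈ N.I) (u : ι → ℤ) (h1 : Bd t {At.brd (s j)} (u j))
    (h2 : ∀ i ∈ N.I, i ≠ j → Bd false {At.brd (s i)} (u i)) (h3 : ∑ i ∈ N.I, u i ≤ 0) :
    W (RMv N.X) true t S := by
  have h4 : Bd t (∑ k ∈ N.I, {At.brd (s k)}) 0 := by
    rw [← Finset.add_sum_erase _ _ hj] at h3 ⊢
    exact h1.add (bd_sum _ s u fun i hi =>
      h2 i (Finset.mem_erase.1 hi).2 (Finset.mem_erase.1 hi).1) h3
  refine W.sim (fun M S => ∃ s, M = ∑ k ∈ N.I, {At.brd (s k)} ∧ N.Inv S s) ?_ ?_ h4.win S
    ⟨s, rfl, h⟩
  · rintro _ S ⟨s, rfl, h⟩ K hK
    obtain ⟨i, hi, t, h5, rfl⟩ := mv_sum _ _ hK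
    obtain ⟨S', h6, h7⟩ := h.xmove g hi h5
    exact ⟨S', h6, _, rfl, h7⟩
  · rintro _ S ⟨s, rfl, h⟩ S' hS
    obtain ⟨i, hi, t, h5, h6⟩ := h.ymove g hS
    refine ⟨_, ?_, _, rfl, h6⟩
    rw [sum_update _ s hi, ← Finset.add_sum_erase _ _ hi]
    exact (Mv.single (a := .brd _) (c := .brd _) h5).add_right _

variable (N) in
/-- The token game. -/
inductive TR : (ι → ℕ) → ι → Req → Prop
  | mk (lab : ι → ℕ) (j : ι) (q : Req) (nx : ℕ → ι × Req) :
      (∀ o ∈ q.good, N.Lk j o (nx o).1 (nx o).2.port ∧
        (nx o).2 ∈ (N.kind (nx o).1).reqs (Function.update lab j q.next (nx o).1)) →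
      (∀ o ∈ q.good, TR (Function.update lab j q.next) (nx o).1 (nx o).2) → TR lab j q

theorem main (g : N.Geo) {lab : ι → ℕ} {j : ι} {q : Req} (h : N.TR lab j q) :
    j ∈ N.I → ∀ (S : Finset (ℕ × ℕ)) (s : ι → Finset ℕ), N.Inv S s →
      (∀ i ∈ N.I, i ≠ j → N.R i (.rest (lab i)) (s i)) →
      (N.R j (.wy q) (s j) → W (RMv N.X) true false S) ∧
      (N.R j (.wx q) (s j) → W (RMv N.X) true true S) := by
  induction h with
  | mk lab j q nx hl _ ih =>
    intro hj S
    induction' hn : S.card using Nat.strong_induction_on with n ihn generalizing S
    intro s hI hr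
    have crude : ∀ t, Bd t {At.brd (s j)} ((N.kind j).n - 4) → W (RMv N.X) true t S := by
      intro t ht
      refine hI.crude g hj (fun i => (N.kind i).n - if i = j then 4 else 0) (by simpa using ht)
        (fun i hi hij => by simpa [hij] using ((g.cl i hi).rest _ _ (hr i hi hij)).1) ?_
      have := g.sum
      simp only [Finset.sum_sub_distrib, Finset.sum_ite_eq', hj, if_true]
      omega
    have upd : ∀ t, ∀ i ∈ N.I, i ≠ j → N.R i (.rest (lab i)) (Function.update s j t i) :=
      fun t i hi hij => by rw [Function.update_of_ne hij]; exact hr i hi hij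
    constructor
    · intro hw
      rcases (g.cl j hj).wy _ _ hw with h1 | ⟨o, ho, h1, h2, h3, h4⟩ | ⟨h1, h2⟩
      · exact crude _ h1
      · obtain ⟨h5, h6⟩ := hl o ho
        have h7 : ∀ i ∈ N.I, N.R i (.rest (Function.update lab j q.next i)) (s i) := by
          intro i hi
          by_cases e : i = j
          · subst e
            rwa [Function.update_self]
          · rw [Function.update_of_ne e]
            exact hr i hi e
        refine (ih o ho h5.2.1 S _ (hI.entry g h5 h1 h2 h3) fun i hi e => ?_).1 ?_
        · rw [Function.update_of_ne e]
          exact h7 i hi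
        · rw [Function.update_self]
          exact ((g.cl _ h5.2.1).rest _ _ (h7 _ h5.2.1)).2.2 _ h6
      · refine W.second fun S' hS' => ?_
        have hlt := Move.card_lt hS'
        obtain ⟨i, hi, t, h3, h4⟩ := hI.ymove g hS'
        by_cases e : i = j
        · subst e
          refine (ihn _ (hn ▸ hlt) S' rfl _ h4 (upd t)).2 ?_
          rw [Function.update_self]
          exact h2 t h3
        · rcases ((g.cl i hi).rest _ _ (hr i hi e)).2.1 t h3 with h5 | ⟨t', h5, h6⟩
          · refine h4.crude g hi
              (fun k => (N.kind k).n - (if k = j then 1 else 0) - if k = i then 3 else 0)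
              (by simpa [e] using h5) (fun k hk hki => ?_) ?_
            · rw [Function.update_of_ne hki]
              by_cases e' : k = j
              · subst e'
                simpa [hki] using h1
              · simpa [hki, e'] using ((g.cl k hk).rest _ _ (hr k hk e')).1
            · have := g.sum
              simp only [Finset.sum_sub_distrib, Finset.sum_ite_eq', hj, hi, if_true]
              omega
          · obtain ⟨S'', h7, h8⟩ := h4.xmove g hi (t := t') (by rwa [Function.update_self])
            have hlt' := Move.card_lt h7
            refine W.first h7 ((ihn _ (by omega) S'' rfl _ h8 fun k hk hkj => ?_).1 ?_)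
            · by_cases e' : k = i
              · subst e'
                rwa [Function.update_self]
              · rw [Function.update_of_ne e', Function.update_of_ne e']
                exact hr k hk hkj
            · rwa [Function.update_of_ne (Ne.symm e), Function.update_of_ne (Ne.symm e)]
    · intro hw
      rcases (g.cl j hj).wx _ _ hw with h1 | ⟨t, h1, h2⟩
      · exact crude _ h1
      · obtain ⟨S', h3, h4⟩ := hI.xmove g hj h1
        have hlt := Move.card_lt h3
        refine W.first h3 ((ihn _ (hn ▸ hlt) S' rfl _ h4 (upd t)).1 ?_)
        rwa [Function.update_self]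

end Net

end Pool.Agent.MP_79e5e2_lc

end

section

/-! A checker for bounds on boards given as bit masks. -/

namespace Pool.Agent.MP_79e5e2_lc

noncomputable section

/-- The set of bits of a number. -/
def bits (m : ℕ) : Finset ℕ := (Finset.range m).filter fun i => m.testBit i = true

theorem mem_bits {m i : ℕ} : i ∈ bits m ↔ m.testBit i = true := by
  simp only [bits, Finset.mem_filter, Finset.mem_range, and_iff_right_iff_imp]
  intro h
  exact lt_of_lt_of_le Nat.lt_two_pow_self (Nat.ge_two_pow_of_testBit h)

/-- Evaluate `x` before passing it on. -/
def force {α : Type} (x : ℕ) (k : ℕ → α) : α := Nat.rec (k 0) (fun n _ => k (Nat.succ n)) x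

theorem force_eq {α : Type} (x : ℕ) (k : ℕ → α) : force x k = k x := by cases x <;> rfl

/-- One step of the binary search for the top bit. -/
def lgs (s : ℕ) (k : ℕ → ℕ → ℕ) (x a : ℕ) : ℕ :=
  Nat.rec (k x a) (fun n _ => k (Nat.succ n) (Nat.add a s)) (Nat.shiftRight x s)

/-- Position of the top bit (no property is needed). -/
def lg (x : ℕ) : ℕ :=
  lgs 4096 (lgs 2048 (lgs 1024 (lgs 512 (lgs 256 (lgs 128 (lgs 64 (lgs 32 (lgs 16 (lgs 8
    (lgs 4 (lgs 2 (lgs 1 fun _ a => a)))))))))))) x 0

/-- Flood fill (no property is needed). -/
def ff (m fuel : ℕ) : ℕ → ℕ :=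
  Nat.rec (fun c => c) (fun _ ih c =>
    force (Nat.land (Nat.lor (Nat.lor (Nat.lor c (Nat.shiftLeft c 1)) (Nat.shiftRight c 1))
      (Nat.lor (Nat.shiftLeft c 16) (Nat.shiftRight c 16))) m)
      fun c' => cond (Nat.beq c' c) c (ih c')) fuel

/-- Cells with a neighbour. -/
def nbr (m : ℕ) : ℕ :=
  Nat.lor (Nat.lor (Nat.shiftLeft m 1) (Nat.shiftRight m 1))
    (Nat.lor (Nat.shiftLeft m 16) (Nat.shiftRight m 16))

/-- First cells of the dominoes with step `d`. -/
def dom (d m : ℕ) : ℕ := Nat.land m (Nat.shiftRight m d)

theorem testBit_dom (d m i : ℕ) : (dom d m).testBit i = (m.testBit i && m.testBit (i + d)) := by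
  change (m &&& m >>> d).testBit i = _
  rw [Nat.testBit_and, Nat.testBit_shiftRight, add_comm]

/-- Search trees of numbers. -/
inductive Tr : Type
  | leaf : Tr
  | node (l : Tr) (e p : ℕ) (r : Tr) : Tr

/-- Look up the entry with a given key; `0` if there is none. -/
def Tr.find (T : Tr) (k : ℕ) : ℕ :=
  T.rec 0 fun _ e _ _ il ir =>
    cond (Nat.ble k (Nat.shiftRight e 34)) (cond (Nat.beq k (Nat.shiftRight e 34)) e il) ir

/-- All entries pass a test. -/
def Tr.all (T : Tr) (f : ℕ → ℕ → Bool) : Bool :=
  T.rec true fun _ e p _ il ir => f e p && (il && ir)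

theorem Tr.all_node (l r : Tr) (e p : ℕ) (f : ℕ → ℕ → Bool) (h1 : f e p = true)
    (h2 : l.all f = true) (h3 : r.all f = true) : (Tr.node l e p r).all f = true := by
  change (f e p && (l.all f && r.all f)) = true
  simp [h1, h2, h3]

theorem Tr.find_spec {f : ℕ → ℕ → Bool} {k : ℕ} : ∀ T : Tr, T.all f = true → T.find k ≠ 0 →
    (∃ p, f (T.find k) p = true) ∧ (T.find k) >>> 34 = k := by
  intro T
  induction T with
  | leaf => intro _ h; exact absurd rfl h
  | node l e p r ihl ihr =>
    intro h
    change (f e p && (l.all f && r.all f)) = true at h
    simp only [Bool.and_eq_true] at h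
    have : (Tr.node l e p r).find k = cond (Nat.ble k (e >>> 34))
      (cond (Nat.beq k (e >>> 34)) e (l.find k)) (r.find k) := rfl
    rw [this]
    cases h1 : Nat.ble k (e >>> 34)
    · exact ihr h.2.2
    · cases h2 : Nat.beq k (e >>> 34)
      · exact ihl h.2.1
      · exact fun _ => ⟨⟨p, h.1⟩, (Nat.eq_of_beq_eq_true h2).symm⟩

/-- Upper bound stored in an entry. -/
def eU (e : ℕ) : ℤ := Int.subNatNat (Nat.land (Nat.shiftRight e 17) 255) 128
/-- Strict bound stored in an entry. -/
def eR (e : ℕ) : ℤ := Int.subNatNat (Nat.land (Nat.shiftRight e 9) 255) 128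

/-- Both bounds hold. -/
def Both (m : ℕ) (u r : ℤ) : Prop := Bd false {At.brd (bits m)} u ∧ Bd true {At.brd (bits m)} r

/-- Bounds by splitting into components. -/
def bnd0 (T : Tr) (lim fuel : ℕ) : ℕ → (ℤ → ℤ → Bool) → Bool :=
  Nat.rec (fun _ _ => false) (fun _ ih m K =>
    cond (Nat.beq m 0) (K 0 1)
      (force (Nat.xor m (Nat.land m (Nat.pred m))) fun lo =>
        force (Nat.land m (ff m 60 lo)) fun c =>
          force (lg lo) fun k =>
            force (Nat.shiftRight c k) fun a =>
              force (Nat.xor m c) fun rest =>
                force (T.find a) fun e =>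
                  (Nat.beq (Nat.shiftLeft a k) c && (Nat.blt a lim && (!Nat.beq e 0 &&
                    Nat.beq (dom 1 m) (Nat.lor (dom 1 c) (dom 1 rest))))) &&
                  ih rest fun U R => K (eU e + U) (min (eR e + U) (eU e + R)))) fuel

theorem bnd0_succ (T : Tr) (lim n m : ℕ) (K : ℤ → ℤ → Bool) : bnd0 T lim (n + 1) m K =
    cond (Nat.beq m 0) (K 0 1)
      (force (Nat.xor m (Nat.land m (Nat.pred m))) fun lo =>
        force (Nat.land m (ff m 60 lo)) fun c =>
          force (lg lo) fun k =>
            force (Nat.shiftRight c k) fun a =>
              force (Nat.xor m c) fun rest =>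
                force (T.find a) fun e =>
                  (Nat.beq (Nat.shiftLeft a k) c && (Nat.blt a lim && (!Nat.beq e 0 &&
                    Nat.beq (dom 1 m) (Nat.lor (dom 1 c) (dom 1 rest))))) &&
                  bnd0 T lim n rest fun U R =>
                    K (eU e + U) (min (eR e + U) (eU e + R))) := rfl

/-- Bounds, isolated cells being dropped first. -/
def bnd (T : Tr) (lim m : ℕ) (K : ℤ → ℤ → Bool) : Bool :=
  force (Nat.land m (nbr m)) fun m' => bnd0 T lim 40 m' K

theorem bits_zero : bits 0 = ∅ := by simp [bits]

theorem bnd0_sound {T : Tr} {lim : ℕ}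
    (hT : ∀ a < lim, T.find a ≠ 0 → Both a (eU (T.find a)) (eR (T.find a))) (fuel : ℕ) :
    ∀ m K, bnd0 T lim fuel m K = true → ∃ U R, K U R = true ∧ Both m U R := by
  induction fuel with
  | zero => intro m K h; cases h
  | succ n ih =>
    intro m K h
    simp only [bnd0_succ, force_eq] at h
    cases h0 : Nat.beq m 0
    · rw [h0, cond_false] at h
      generalize Nat.xor m (Nat.land m (Nat.pred m)) = lo at h
      generalize ff m 60 lo = f at h
      generalize lg lo = k at h
      set c := Nat.land m f with hc
      set a := Nat.shiftRight c k
      simp only [Bool.and_eq_true, Nat.beq_eq, Nat.blt_eq, Bool.not_eq_true'] at h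
      obtain ⟨⟨h1, h2, h3, h4⟩, h5⟩ := h
      obtain ⟨U, R, h6, h7⟩ := ih _ _ h5
      have h8 := hT a h2 (fun e => by rw [e] at h3; cases h3)
      have hs : Split k (bits a) (bits (Nat.xor m c)) (bits m) := by
        have e1 : ∀ i, c.testBit (i + k) = a.testBit i := fun i => by
          rw [← h1]
          change (a <<< k).testBit _ = _
          simp [Nat.testBit_shiftLeft]
        have e2 : ∀ i, c.testBit i = (m.testBit i && f.testBit i) := fun i => Nat.testBit_and ..
        have e3 : ∀ i, (Nat.xor m c).testBit i = (m.testBit i ^^ c.testBit i) :=
          fun i => Nat.testBit_xor ..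
        refine Split.of_disj (fun i hi => ?_) (fun i hi => ?_) (fun i hi hi' => ?_)
        · simp only [mem_bits, e3] at hi ⊢
          have b1 := e1 i
          have b2 := e2 (i + k)
          rw [hi] at b1
          rw [b1] at b2 ⊢
          revert b2
          cases m.testBit (i + k) <;> simp
        · simp only [mem_bits, e3, e2] at hi ⊢
          cases b3 : m.testBit i <;> simp_all
        · simp only [mem_bits] at hi hi' ⊢
          have b1 := congrArg (fun x => Nat.testBit x i) h4
          change _ = (dom 1 c ||| dom 1 (Nat.xor m c)).testBit i at b1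
          simp only [Nat.testBit_or, testBit_dom, hi, hi', Bool.and_self] at b1
          rcases Bool.or_eq_true_iff.1 b1.symm with b2 | b2
          · left
            simp only [Bool.and_eq_true] at b2
            have b3 : k ≤ i := by
              have := b2.1
              rw [← h1] at this
              change (a <<< k).testBit _ = _ at this
              simp only [Nat.testBit_shiftLeft, Bool.and_eq_true, decide_eq_true_eq] at this
              exact this.1
            obtain ⟨j, rfl⟩ := Nat.exists_eq_add_of_le' b3
            exact ⟨j, rfl, e1 j ▸ b2.1, by rw [← e1, show j + 1 + k = j + k + 1 by ring]; exact b2.2⟩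
          · exact Or.inr (by simpa using b2)
      refine ⟨_, _, h6, Bd.split hs (h8.1.add h7.1 le_rfl), Bd.split hs ?_⟩
      rcases le_total (eR (T.find a) + U) (eU (T.find a) + R) with b | b
      · exact h8.2.add h7.1 (by omega)
      · exact h8.1.add' h7.2 (by omega)
    · rw [h0, cond_true] at h
      obtain rfl := Nat.eq_of_beq_eq_true h0
      refine ⟨0, 1, h, ?_⟩
      rw [Both, bits_zero]
      exact ⟨Bd.empty, Bd.empty.strict (by omega)⟩

theorem bnd_sound {T : Tr} {lim : ℕ}
    (hT : ∀ a < lim, T.find a ≠ 0 → Both a (eU (T.find a)) (eR (T.find a))) {m : ℕ}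
    {K : ℤ → ℤ → Bool} (h : bnd T lim m K = true) : ∃ U R, K U R = true ∧ Both m U R := by
  rw [bnd, force_eq] at h
  obtain ⟨U, R, h1, h2⟩ := bnd0_sound hT _ _ _ h
  have hs : Split 0 ∅ (bits (Nat.land m (nbr m))) (bits m) := by
    have e : ∀ i, (Nat.land m (nbr m)).testBit i = (m.testBit i && (nbr m).testBit i) :=
      fun i => Nat.testBit_and ..
    refine Split.of_disj (by simp) (fun i hi => ?_) (fun i hi hi' => Or.inr ?_)
    · simp only [mem_bits, e, Bool.and_eq_true] at hi ⊢
      exact hi.1
    · simp only [mem_bits, e, Bool.and_eq_true] at hi hi' ⊢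
      refine ⟨⟨hi, ?_⟩, hi', ?_⟩
      · change ((m <<< 1 ||| m >>> 1) ||| (m <<< 16 ||| m >>> 16)).testBit i = true
        simp [Nat.testBit_shiftRight, add_comm 1 i, hi']
      · change ((m <<< 1 ||| m >>> 1) ||| (m <<< 16 ||| m >>> 16)).testBit (i + 1) = true
        simp [Nat.testBit_shiftLeft, hi]
  exact ⟨U, R, h1, Bd.split hs (Bd.empty.add' h2.1 (by omega)),
    Bd.split hs (Bd.empty.add' h2.2 (by omega))⟩

/-- A test holds for all bits. -/
def allBits (f : ℕ → Bool) (fuel : ℕ) : ℕ → Bool :=
  Nat.rec (fun _ => false) (fun _ ih d =>
    cond (Nat.beq d 0) true (force (lg d) fun i =>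
      f i && force (Nat.xor d (Nat.shiftLeft 1 i)) ih)) fuel

theorem allBits_sound {f : ℕ → Bool} (fuel : ℕ) : ∀ d, allBits f fuel d = true →
    ∀ i, d.testBit i = true → f i = true := by
  induction fuel with
  | zero => intro d h; cases h
  | succ n ih =>
    intro d h i hi
    change cond (Nat.beq d 0) true (force (lg d) fun i =>
      f i && force (Nat.xor d (Nat.shiftLeft 1 i)) (allBits f n)) = true at h
    simp only [force_eq] at h
    cases h0 : Nat.beq d 0
    · rw [h0, cond_false, Bool.and_eq_true] at h
      by_cases e : i = lg d
      · exact e ▸ h.1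
      · refine ih _ h.2 i ?_
        change (d ^^^ 1 <<< (lg d)).testBit i = true
        simp [Nat.testBit_xor, hi, Nat.one_shiftLeft, Ne.symm e]
    · obtain rfl := Nat.eq_of_beq_eq_true h0
      simp at hi

/-- A test holds for some number (a bit of `d`). -/
def anyBits (f : ℕ → Bool) (fuel : ℕ) : ℕ → Bool :=
  Nat.rec (fun _ => false) (fun _ ih d =>
    cond (Nat.beq d 0) false (force (lg d) fun i =>
      f i || force (Nat.xor d (Nat.shiftLeft 1 i)) ih)) fuel

theorem anyBits_sound {f : ℕ → Bool} (fuel : ℕ) : ∀ d, anyBits f fuel d = true →
    ∃ i, f i = true := by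
  induction fuel with
  | zero => intro d h; cases h
  | succ n ih =>
    intro d h
    change cond (Nat.beq d 0) false (force (lg d) fun i =>
      f i || force (Nat.xor d (Nat.shiftLeft 1 i)) (anyBits f n)) = true at h
    simp only [force_eq] at h
    cases h0 : Nat.beq d 0
    · rw [h0, cond_false, Bool.or_eq_true] at h
      rcases h with h | h
      · exact ⟨_, h⟩
      · exact ih _ h
    · rw [h0] at h
      cases h

/-- Remove bit `i`. -/
def rm (m i : ℕ) : ℕ := Nat.xor m (Nat.land m (Nat.shiftLeft 1 i))

theorem bits_rm (m i : ℕ) : bits (rm m i) = (bits m).erase i := by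
  ext j
  rw [Finset.mem_erase, mem_bits, mem_bits]
  change (m ^^^ (m &&& 1 <<< i)).testBit j = true ↔ _
  rw [Nat.testBit_xor, Nat.testBit_and, Nat.one_shiftLeft, Nat.testBit_two_pow]
  by_cases e : i = j
  · simp [e]
  · simp [e, Ne.symm e]

/-- The result of a move. -/
def mvm (d m i : ℕ) : ℕ := rm (rm m i) (i + d)

theorem bits_mvm (d m i : ℕ) : bits (mvm d m i) = ((bits m).erase i).erase (i + d) := by
  rw [mvm, bits_rm, bits_rm]

/-- Bit test. -/
def tb (m i : ℕ) : Bool := Nat.beq (Nat.land (Nat.shiftRight m i) 1) 1

theorem tb_eq (m i : ℕ) : tb m i = m.testBit i := by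
  rw [Bool.eq_iff_iff, tb, Nat.beq_eq, Nat.testBit_eq_decide_div_mod_eq, decide_eq_true_eq]
  change (m >>> i) &&& 1 = 1 ↔ _
  rw [Nat.and_one_is_mod, Nat.shiftRight_eq_div_pow]

/-- All moves of the second player pass a test. -/
def allY (m : ℕ) (f : ℕ → Bool) : Bool := allBits (fun i => force (mvm 1 m i) f) 99 (dom 1 m)

theorem allY_sound {m : ℕ} {f : ℕ → Bool} (h : allY m f = true) {t : Finset ℕ}
    (ht : BMv false (bits m) t) : ∃ m', t = bits m' ∧ f m' = true := by
  obtain ⟨i, h1, h2, rfl⟩ := ht
  have := allBits_sound _ _ h i (by
    rw [testBit_dom, mem_bits.1 h1]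
    exact mem_bits.1 h2)
  rw [force_eq] at this
  exact ⟨_, (bits_mvm 1 m i).symm, this⟩

/-- The move at `i` of the first player is legal and passes a test. -/
def xAt (m : ℕ) (f : ℕ → Bool) (i : ℕ) : Bool := tb (dom 16 m) i && force (mvm 16 m i) f

theorem xAt_sound {m i : ℕ} {f : ℕ → Bool} (h : xAt m f i = true) :
    ∃ m', BMv true (bits m) (bits m') ∧ f m' = true := by
  rw [xAt, Bool.and_eq_true, tb_eq, testBit_dom, Bool.and_eq_true, force_eq] at h
  exact ⟨_, ⟨i, mem_bits.2 h.1.1, mem_bits.2 h.1.2, bits_mvm 16 m i⟩, h.2⟩

/-- Some move of the first player passes a test. -/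
def anyX (m : ℕ) (f : ℕ → Bool) : Bool := anyBits (xAt m f) 99 (dom 16 m)

theorem anyX_sound {m : ℕ} {f : ℕ → Bool} (h : anyX m f = true) :
    ∃ m', BMv true (bits m) (bits m') ∧ f m' = true := by
  obtain ⟨i, hi⟩ := anyBits_sound _ _ h
  exact xAt_sound hi

/-- Cells in a domino of the first player. -/
def xact (p : ℕ) : ℕ := Nat.lor (dom 16 p) (Nat.shiftLeft (dom 16 p) 16)

theorem xact_spec {p i : ℕ} (h1 : p.testBit i = true) (h2 : p.testBit (i + 16) = true) :
    (xact p).testBit i = true ∧ (xact p).testBit (i + 16) = true := by
  change (dom 16 p ||| dom 16 p <<< 16).testBit i = true ∧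
    (dom 16 p ||| dom 16 p <<< 16).testBit (i + 16) = true
  simp [Nat.testBit_shiftLeft, testBit_dom, h1, h2]

theorem sub_of_land {a b i : ℕ} (h : Nat.beq (Nat.land a b) a = true) (hi : a.testBit i = true) :
    b.testBit i = true := by
  have := congrArg (fun x => Nat.testBit x i) (Nat.eq_of_beq_eq_true h)
  change (a &&& b).testBit i = _ at this
  simpa [hi] using this

theorem disj_of_land {a b i : ℕ} (h : Nat.beq (Nat.land a b) 0 = true) (hi : a.testBit i = true) :
    b.testBit i = false := by
  have := congrArg (fun x => Nat.testBit x i) (Nat.eq_of_beq_eq_true h)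
  change (a &&& b).testBit i = _ at this
  simpa [hi] using this

/-- Bounds by a given splitting. -/
def spl (T : Tr) (m p q : ℕ) (K : ℤ → ℤ → Bool) : Bool :=
  (Nat.beq (Nat.land (xact p) m) (xact p) && (Nat.beq (Nat.land (xact p) q) 0 &&
    (Nat.beq (Nat.land (xact q) m) (xact q) && (Nat.beq (Nat.land (xact q) p) 0 &&
      Nat.beq (Nat.land (dom 1 m) (Nat.lor (dom 1 p) (dom 1 q))) (dom 1 m))))) &&
  bnd T m p fun U R => bnd T m q fun U' R' => K (U + U') (min (R + U') (U + R'))

theorem spl_sound {T : Tr} {m p q : ℕ}
    (hT : ∀ a < m, T.find a ≠ 0 → Both a (eU (T.find a)) (eR (T.find a)))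
    {K : ℤ → ℤ → Bool} (h : spl T m p q K = true) : ∃ U R, K U R = true ∧ Both m U R := by
  simp only [spl, Bool.and_eq_true] at h
  obtain ⟨⟨h1, h2, h3, h4, h5⟩, h6⟩ := h
  obtain ⟨U, R, h7, h8⟩ := bnd_sound hT h6
  obtain ⟨U', R', h9, h10⟩ := bnd_sound hT h7
  have hs : Split 0 (bits p) (bits q) (bits m) := by
    refine ⟨fun i hi hi' => ?_, fun i hi hi' => ?_, fun i hi hi' => ?_⟩
    · simp only [mem_bits, add_zero] at hi hi' ⊢
      have := xact_spec hi hi'
      simp [sub_of_land h1 this.1, sub_of_land h1 this.2, disj_of_land h2 this.1,
        disj_of_land h2 this.2]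
    · simp only [mem_bits, add_zero] at hi hi' ⊢
      have := xact_spec hi hi'
      refine ⟨sub_of_land h3 this.1, sub_of_land h3 this.2, fun j hj => ⟨?_, ?_⟩⟩
      · rintro rfl
        rw [disj_of_land h4 this.1] at hj
        cases hj
      · rintro rfl
        rw [disj_of_land h4 this.2] at hj
        cases hj
    · simp only [mem_bits, add_zero] at hi hi' ⊢
      have := sub_of_land (i := i) h5 (by rw [testBit_dom, hi, hi']; rfl)
      change (dom 1 p ||| dom 1 q).testBit i = true at this
      simpa [testBit_dom] using this
  refine ⟨_, _, h9, Bd.split hs (h8.1.add h10.1 le_rfl), Bd.split hs ?_⟩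
  rcases le_total (R + U') (U + R') with b | b
  · exact h8.2.add h10.1 (by omega)
  · exact h8.1.add' h10.2 (by omega)

/-- The test for one entry of the table. -/
def chk (T : Tr) (e p : ℕ) : Bool :=
  force (Nat.shiftRight e 34) fun m =>
    force (Nat.lor (Nat.xor m p)
      (Nat.shiftRight (Nat.shiftLeft 1 (Nat.land (Nat.shiftRight e 25) 511)) 1)) fun q =>
    cond (Nat.beq p 0)
      (allY m (fun t => bnd T m t fun _ R => decide (R ≤ eU e)) &&
        ((decide (eU e % 8 = 0) && decide (0 ≤ eU e)) ||
          xAt m (fun t => bnd T m t fun U _ => decide (U ≤ eU e + low (eU e))) (Nat.land e 511)))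
      (spl T m p q fun U _ => decide (U ≤ eU e)) &&
    (decide (eU e < eR e) ||
      (xAt m (fun t => bnd T m t fun U _ => decide (U ≤ eR e)) (Nat.land e 511) ||
        spl T m p q fun _ R => decide (R ≤ eR e)))

theorem table_sound {T : Tr} (h : T.all (chk T) = true) :
    ∀ a, T.find a ≠ 0 → Both a (eU (T.find a)) (eR (T.find a)) := by
  intro a
  induction a using Nat.strong_induction_on with
  | _ a ih =>
    intro ha
    obtain ⟨⟨p, h1⟩, h2⟩ := Tr.find_spec T h ha
    generalize T.find a = e at h1 h2
    rw [chk, force_eq, force_eq] at h1
    rw [show Nat.shiftRight e 34 = a from h2, Bool.and_eq_true] at h1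
    have hx : ∀ x i, xAt a (fun t => bnd T a t fun U _ => decide (U ≤ x)) i = true →
        Bd true {At.brd (bits a)} x := by
      intro x i h3
      obtain ⟨m', h4, h5⟩ := xAt_sound h3
      obtain ⟨U, R, h6, h7⟩ := bnd_sound ih h5
      exact (Bd.of_move h4 h7.1).mono (of_decide_eq_true h6)
    have hu : Bd false {At.brd (bits a)} (eU e) := by
      have h3 := h1.1
      cases h0 : Nat.beq p 0
      · rw [h0, cond_false] at h3
        obtain ⟨U, R, h4, h5⟩ := spl_sound ih h3
        exact h5.1.mono (of_decide_eq_true h4)
      · rw [h0, cond_true, Bool.and_eq_true] at h3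
        refine Bd.of_moves (fun t ht => ?_) fun h4 => ?_
        · obtain ⟨m', rfl, h4⟩ := allY_sound h3.1 ht
          obtain ⟨U, R, h5, h6⟩ := bnd_sound ih h4
          exact h6.2.mono (of_decide_eq_true h5)
        · rcases Bool.or_eq_true_iff.1 h3.2 with h5 | h5
          · simp only [Bool.and_eq_true, decide_eq_true_eq] at h5
            omega
          · exact hx _ _ h5
    refine ⟨hu, ?_⟩
    rcases Bool.or_eq_true_iff.1 h1.2 with h3 | h3
    · exact hu.strict (of_decide_eq_true h3)
    · rcases Bool.or_eq_true_iff.1 h3 with h4 | h4
      · exact hx _ _ h4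
      · obtain ⟨U, R, h5, h6⟩ := spl_sound ih h4
        exact h6.2.mono (of_decide_eq_true h5)

/-- Computable description of a kind of piece. -/
structure KD where
  mask : ℕ
  stub : List ℕ
  n : ℤ
  inp : List (ℕ × ℕ)
  out : List (ℕ × ℕ × ℕ)
  rq : List Req
  lab : List (List ℕ)
  cert : List ℕ

namespace KD
variable (D : KD)

/-- The requirement number `i`. -/
def req (i : ℕ) : Req := D.rq.getD i ⟨0, [], 0⟩

/-- The kind. -/
def kind : Kind :=
  ⟨bits D.mask, D.stub, D.n, D.inp, D.out, fun L => (D.lab.getD L []).map D.req⟩

/-- Membership in the certificate. -/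
def has (c m : ℕ) : Bool := force (m * 64 + c) fun x => D.cert.rec false fun a _ ih => Nat.beq a x || ih

theorem has_iff (c m : ℕ) : D.has c m = true ↔ m * 64 + c ∈ D.cert := by
  rw [has, force_eq]
  induction D.cert with
  | nil => simp
  | cons a l ih =>
    rw [List.mem_cons, ← ih]
    change (Nat.beq a _ || _) = true ↔ _
    rw [Bool.or_eq_true, Nat.beq_eq, eq_comm]

/-- Decoding of tags. -/
def tag (c : ℕ) : Tag :=
  if c % 3 = 0 then .rest (c / 3) else if c % 3 = 1 then .wy (D.req (c / 3)) else .wx (D.req (c / 3))

/-- The states listed in the certificate. -/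
def R (t : Tag) (s : Finset ℕ) : Prop := ∃ c < 64, ∃ m, D.has c m = true ∧ t = D.tag c ∧ s = bits m

/-- The test for one state. -/
def chk1 (T : Tr) (x : ℕ) : Bool :=
  force (x / 64) fun m => force (x % 64) fun c =>
    if c % 3 = 0 then
      bnd T (2 ^ 400) m (fun U _ => decide (U ≤ D.n)) &&
      (allY m (fun t => bnd T (2 ^ 400) t (fun _ R => decide (R ≤ D.n - 3)) ||
        anyX t (D.has c)) &&
      (D.lab.getD (c / 3) []).all fun i =>
        decide (i < 21) && D.has (3 * i + 1) (rm m (D.kind.iz (D.req i).port)))
    else if c % 3 = 1 then
      bnd T (2 ^ 400) m (fun U _ => decide (U ≤ D.n - 4)) ||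
      (((D.req (c / 3)).good.any fun o => tb m (D.kind.om o) && (tb m (D.kind.oz o) &&
        (!tb m (D.kind.oc o) && (decide ((D.req (c / 3)).next < 21) &&
          D.has (3 * (D.req (c / 3)).next) m)))) ||
      (bnd T (2 ^ 400) m (fun U _ => decide (U ≤ D.n - 1)) &&
        (decide (c < 63) && allY m (D.has (c + 1)))))
    else
      bnd T (2 ^ 400) m (fun _ R => decide (R ≤ D.n - 4)) || anyX m (D.has (c - 1))

theorem closed {T : Tr} (hT : T.all (chk T) = true) (h : D.cert.all (D.chk1 T) = true) :
    D.kind.Closed D.R := by
  have hT' : ∀ a < 2 ^ 400, T.find a ≠ 0 → Both a (eU (T.find a)) (eR (T.find a)) :=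
    fun a _ => table_sound hT a
  have hU : ∀ m x, bnd T (2 ^ 400) m (fun U _ => decide (U ≤ x)) = true →
      Bd false {At.brd (bits m)} x := fun m x h => by
    obtain ⟨U, R, h1, h2⟩ := bnd_sound hT' h
    exact h2.1.mono (of_decide_eq_true h1)
  have hR : ∀ m x, bnd T (2 ^ 400) m (fun _ R => decide (R ≤ x)) = true →
      Bd true {At.brd (bits m)} x := fun m x h => by
    obtain ⟨U, R, h1, h2⟩ := bnd_sound hT' h
    exact h2.2.mono (of_decide_eq_true h1)
  have key : ∀ c < 64, ∀ m, D.has c m = true → D.chk1 T (m * 64 + c) = true :=
    fun c _ m hm => List.all_eq_true.1 h _ ((D.has_iff c m).1 hm)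
  have e1 : ∀ c < 64, ∀ m, (m * 64 + c) / 64 = m := fun c hc m => by omega
  have e2 : ∀ c < 64, ∀ m, (m * 64 + c) % 64 = c := fun c hc m => by omega
  refine ⟨?_, ?_, ?_⟩
  · rintro L _ ⟨c, hc, m, h1, h2, rfl⟩
    have h3 := key c hc m h1
    simp only [chk1, force_eq, e1 c hc, e2 c hc] at h3
    have h4 : c % 3 = 0 ∧ L = c / 3 := by
      unfold tag at h2
      split_ifs at h2 with a b
      exact ⟨a, by injection h2⟩
    rw [if_pos h4.1] at h3
    simp only [Bool.and_eq_true] at h3
    refine ⟨hU _ _ h3.1, fun t ht => ?_, fun q hq => ?_⟩
    · obtain ⟨m', rfl, h5⟩ := allY_sound h3.2.1 ht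
      rcases Bool.or_eq_true_iff.1 h5 with h6 | h6
      · exact Or.inl (hR _ _ h6)
      · obtain ⟨m'', h7, h8⟩ := anyX_sound h6
        exact Or.inr ⟨_, h7, c, hc, m'', h8, h2, rfl⟩
    · obtain ⟨i, hi, rfl⟩ := List.mem_map.1 hq
      have h5 := List.all_eq_true.1 h3.2.2 i (h4.2 ▸ hi)
      simp only [Bool.and_eq_true, decide_eq_true_eq] at h5
      refine ⟨3 * i + 1, by omega, _, h5.2, ?_, (bits_rm _ _).symm⟩
      rw [tag, if_neg (by omega), if_pos (by omega), show (3 * i + 1) / 3 = i by omega]
  · rintro q _ ⟨c, hc, m, h1, h2, rfl⟩
    have h3 := key c hc m h1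
    simp only [chk1, force_eq, e1 c hc, e2 c hc] at h3
    have h4 : ¬ c % 3 = 0 ∧ c % 3 = 1 ∧ q = D.req (c / 3) := by
      unfold tag at h2
      split_ifs at h2 with a b
      exact ⟨a, b, by injection h2⟩
    rw [if_neg h4.1, if_pos h4.2.1, ← h4.2.2] at h3
    simp only [Bool.or_eq_true, Bool.and_eq_true, List.any_eq_true, tb_eq, decide_eq_true_eq,
      Bool.not_eq_true'] at h3
    rcases h3 with h3 | ⟨o, ho, h5, h6, h7, h8, h9⟩ | ⟨h5, h6, h7⟩
    · exact Or.inl (hU _ _ h3)
    · refine Or.inr (Or.inl ⟨o, ho, mem_bits.2 h5, mem_bits.2 h6, by simp [mem_bits, h7],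
        3 * q.next, by omega, m, h9, ?_, rfl⟩)
      rw [tag, if_pos (by omega), show 3 * q.next / 3 = q.next by omega]
    · refine Or.inr (Or.inr ⟨hU _ _ h5, fun t ht => ?_⟩)
      obtain ⟨m', rfl, h8⟩ := allY_sound h7 ht
      refine ⟨c + 1, by omega, m', h8, ?_, rfl⟩
      rw [tag, if_neg (by omega), if_neg (by omega), show (c + 1) / 3 = c / 3 by omega, h4.2.2]
  · rintro q _ ⟨c, hc, m, h1, h2, rfl⟩
    have h3 := key c hc m h1
    simp only [chk1, force_eq, e1 c hc, e2 c hc] at h3
    have h4 : ¬ c % 3 = 0 ∧ ¬ c % 3 = 1 ∧ q = D.req (c / 3) := by
      unfold tag at h2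
      split_ifs at h2 with a b
      exact ⟨a, b, by injection h2⟩
    rw [if_neg h4.1, if_neg h4.2.1] at h3
    rcases Bool.or_eq_true_iff.1 h3 with h5 | h5
    · exact Or.inl (hR _ _ h5)
    · obtain ⟨m', h6, h7⟩ := anyX_sound h5
      refine Or.inr ⟨_, h6, c - 1, by omega, m', h7, ?_, rfl⟩
      rw [tag, if_neg (by omega), if_pos (by omega), show (c - 1) / 3 = c / 3 by omega, h4.2.2]

end KD

end

end Pool.Agent.MP_79e5e2_lc

end

section

/-! Boards made of square tiles, each carrying a list of placed pieces. -/

namespace Pool.Agent.MP_79e5e2_lc

noncomputable section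

/-- End cells of the stubs. -/
def KD.zs (D : KD) : List ℕ := D.inp.map (·.1) ++ D.out.map (·.2.2)

/-- The test for the shape of the ports. -/
def KD.okb (D : KD) : Bool :=
  allBits (fun u => !tb D.mask (u + 16) || (decide (u ∉ D.stub) && decide (u + 16 ∉ D.stub)))
    99 D.mask &&
  ((List.range D.inp.length).all (fun p => tb D.mask (D.kind.iz p) && (tb D.mask (D.kind.im p) &&
    (decide (D.kind.iz p ∈ D.stub) && (decide (D.kind.im p ∈ D.stub) &&
    ((decide (D.kind.im p = D.kind.iz p + 1) && !tb D.mask (D.kind.iz p - 1)) ||
      (decide (D.kind.iz p = D.kind.im p + 1) && !tb D.mask (D.kind.iz p + 1))))))) &&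
  ((List.range D.out.length).all (fun o => tb D.mask (D.kind.oc o) &&
    (decide (D.kind.oc o ∉ D.stub) && (decide (D.kind.om o ∈ D.stub) &&
    (decide (D.kind.oz o ∈ D.stub) &&
    ((decide (D.kind.om o = D.kind.oc o + 1) && (decide (D.kind.oz o = D.kind.om o + 1) &&
        !tb D.mask (D.kind.oz o + 1))) ||
      (decide (D.kind.oc o = D.kind.om o + 1) && (decide (D.kind.om o = D.kind.oz o + 1) &&
        !tb D.mask (D.kind.oz o - 1)))))))) &&
  ((List.range D.inp.length).all (fun p => (List.range D.out.length).all fun o =>
    decide (D.kind.iz p ≠ D.kind.om o) && decide (D.kind.iz p ≠ D.kind.oz o)) &&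
  D.zs.all fun z => decide (z ∈ D.stub))))

theorem KD.ok_of {D : KD} (h : D.okb = true) : D.kind.OK ∧ ∀ z ∈ D.zs, z ∈ D.stub := by
  simp only [KD.okb, Bool.and_eq_true, List.all_eq_true, List.mem_range, decide_eq_true_eq,
    Bool.or_eq_true, Bool.not_eq_true', tb_eq] at h
  obtain ⟨h1, h2, h3, h4, h5⟩ := h
  have e : ∀ u, u ∈ D.kind.cells ↔ D.mask.testBit u = true := fun u => mem_bits
  refine ⟨⟨fun u hu hu' => ?_, fun p hp => ?_, fun o ho => ?_, fun p hp o ho => h4 p hp o ho⟩, h5⟩
  · have := allBits_sound _ _ h1 u ((e u).1 hu)
    rw [(e _).1 hu'] at this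
    exact (by simpa using this : u ∉ D.stub ∧ u + 16 ∉ D.stub)
  · simp only [e, Bool.not_eq_true]
    exact h2 p hp
  · simp only [e, Bool.not_eq_true]
    exact h3 o ho

/-- A placed piece. -/
structure PP where
  k : ℕ
  ox : ℕ
  oy : ℕ
  fx : Bool
  fy : Bool

/-- Position of a cell of a placed piece. -/
def PP.pos (X : Bool) (p : PP) (u : ℕ) : ℕ × ℕ :=
  (cond p.fx (p.ox - cond X (u % 16) (u / 16)) (p.ox + cond X (u % 16) (u / 16) - 20),
    cond p.fy (p.oy - cond X (u / 16) (u % 16)) (p.oy + cond X (u / 16) (u % 16) - 20))

/-- A tile. -/
structure TL where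
  cm : ℕ
  pP : List PP
  pQ : List PP
  sN : ℕ
  sE : ℕ
  sS : ℕ
  sW : ℕ
  st : Bool

/-- The empty kind. -/
def kd0 : KD := ⟨0, [], 0, [], [], [], [], []⟩

/-- Cells of a connector through a vertical border, in the eastern tile. -/
def stdE (s : ℕ) : List (ℕ × ℕ) :=
  if s = 0 then [] else [(0, 34), (1, 34), (2, 34), (2, 35), (2, 36)]

/-- Cells of the connectors through a horizontal border, in the southern tile. -/
def stdS (s : ℕ) : List (ℕ × ℕ) :=
  if s = 0 then [] else [(30, 0), (30, 1), (30, 2), (31, 2), (32, 2)] ++
    if s = 1 then [] else [(46, 0), (46, 1), (46, 2), (47, 2), (48, 2)]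

/-- Dominoes of the eastern tile covered by the western one. -/
def covE (X : Bool) (s : ℕ) : List (ℕ × ℕ) :=
  if s = 0 ∨ X = true then [] else [(2, 34), (2, 35)]

/-- Dominoes of the southern tile covered by the northern one. -/
def covS (X : Bool) (s : ℕ) : List (ℕ × ℕ) :=
  if s = 0 ∨ X = false then [] else [(30, 2), (31, 2)] ++ if s = 1 then [] else [(46, 2), (47, 2)]

/-- The tile owning a cell, shifted by `(1, 1)`. -/
def key (X : Bool) (p : ℕ × ℕ) : ℕ × ℕ :=
  if X = true ∧ (p.1 % 72, p.2 % 72) ∈
      [(30, 0), (30, 1), (30, 2), (31, 2), (46, 0), (46, 1), (46, 2), (47, 2)] then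
    (p.1 / 72 + 1, p.2 / 72)
  else if X = false ∧ (p.1 % 72, p.2 % 72) ∈ [(0, 34), (1, 34), (2, 34), (2, 35)] then
    (p.1 / 72, p.2 / 72 + 1)
  else (p.1 / 72 + 1, p.2 / 72 + 1)

/-- Cells that may be shared by two tiles. -/
def shared (X : Bool) (p : ℕ × ℕ) : Bool :=
  decide ((p.1 % 72, p.2 % 72) ∈
    if X = true then [(0, 34), (32, 2), (48, 2)] else [(2, 36), (30, 0), (46, 0)])

/-- Translation to the tile `t`. -/
def off (t c : ℕ × ℕ) : ℕ × ℕ := (c.1 + 72 * t.1, c.2 + 72 * t.2)

theorem key_off (X : Bool) (t c : ℕ × ℕ) : key X (off t c) = key X c + t := by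
  simp only [key, off, Nat.add_mul_mod_self_left, Nat.add_mul_div_left _ _ (by norm_num : 0 < 72)]
  split_ifs <;> ext <;> simp <;> omega

theorem shared_off (X : Bool) (t c : ℕ × ℕ) : shared X (off t c) = shared X c := by
  simp only [shared, off, Nat.add_mul_mod_self_left]

theorem nb_off (X : Bool) (t c : ℕ × ℕ) : nb X (off t c) = off t (nb X c) := by
  cases X <;> simp [nb, off] <;> omega

theorem off_eq {a b a' b' x y x' y' : ℕ} (h1 : x + 72 * a = x' + 72 * a')
    (h2 : y + 72 * b = y' + 72 * b') : off (a, b) (x, y) = off (a', b') (x', y') :=
  Prod.ext h1 h2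

theorem off_inj {t c d : ℕ × ℕ} (h : off t c = off t d) : c = d := by
  simp only [off, Prod.mk.injEq] at h
  ext <;> omega

/-- Lookup in a packed table. -/
def lk (O : ℕ) (c : ℕ × ℕ) : ℕ := Nat.land (Nat.shiftRight O (20 * (c.2 * 80 + c.1))) 1048575

/-- Fold over the bits (no property is needed). -/
def foldBits (f : ℕ → ℕ → ℕ) (fuel : ℕ) : ℕ → ℕ → ℕ :=
  Nat.rec (fun _ a => a) (fun _ ih d a =>
    cond (Nat.beq d 0) a (force (lg d) fun i =>
      force (f i a) fun a' => force (Nat.xor d (Nat.shiftLeft 1 i)) fun d' => ih d' a')) fuel

/-- Insert into a packed table. -/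
def ins (O : ℕ) (c : ℕ × ℕ) (v : ℕ) : ℕ := Nat.lor O (Nat.shiftLeft v (20 * (c.2 * 80 + c.1)))

/-- Labels given by a list of updates. -/
def look (l : List (ℕ × ℕ)) (j : ℕ) : ℕ := l.rec 0 fun a _ ih => cond (Nat.beq a.1 j) a.2 ih

namespace TL
variable (ks : List KD) (T : TL) (X : Bool)

/-- The pieces seen by player `X`. -/
def ps : List PP := cond X T.pP T.pQ
/-- Piece number `j`. -/
def pp (j : ℕ) : PP := (T.ps X).getD j ⟨0, 0, 0, false, false⟩
/-- Its kind. -/
def kd (j : ℕ) : KD := ks.getD (T.pp X j).k kd0
/-- Position of its cells. -/
def pos (j u : ℕ) : ℕ × ℕ := (T.pp X j).pos X u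
/-- Free cells of the tile. -/
def cell (c : ℕ × ℕ) : Bool := decide (c.1 < 72) && (decide (c.2 < 72) && tb T.cm (c.2 * 72 + c.1))
/-- Free cells of the tile and of the connectors to the east and to the south. -/
def ext (c : ℕ × ℕ) : Bool :=
  T.cell c || ((decide (72 ≤ c.1) && decide ((c.1 - 72, c.2) ∈ stdE T.sE)) ||
    (decide (72 ≤ c.2) && decide ((c.1, c.2 - 72) ∈ stdS T.sS)))

/-- Table of owners. -/
def own : ℕ :=
  (List.range (T.ps X).length).foldl (fun O j => force O fun O =>
    foldBits (fun u O => if u ∈ (T.kd ks X j).zs then O else ins O (T.pos X j u) (j * 512 + u + 1))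
      99 (T.kd ks X j).mask O) 0

/-- The domino at `u` of piece `j` is the domino at `c`. -/
def covAt (c : ℕ × ℕ) (j u : ℕ) : Bool :=
  decide (j < (T.ps X).length) && (tb (T.kd ks X j).mask u && (tb (T.kd ks X j).mask (u + 1) &&
    ((decide (T.pos X j u = c) && decide (T.pos X j (u + 1) = nb (!X) c)) ||
      (decide (T.pos X j u = nb (!X) c) && decide (T.pos X j (u + 1) = c)))))

/-- The domino at `c` lies in a piece. -/
def covered (O : ℕ) (c : ℕ × ℕ) : Bool :=
  force (lk O c - 1) (fun v => T.covAt ks X c (v / 512) (v % 512) ||
    T.covAt ks X c (v / 512) (v % 512 - 1)) ||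
  force (lk O (nb (!X) c) - 1) (fun v => T.covAt ks X c (v / 512) (v % 512) ||
    T.covAt ks X c (v / 512) (v % 512 - 1))

/-- The test for one cell of a piece. -/
def chkCell (O j u : ℕ) : Bool :=
  force (T.pos X j u).1 fun x => force (T.pos X j u).2 fun y =>
    decide (u < 512) &&
    (decide (lk O (x, y) = if u ∈ (T.kd ks X j).zs then 0 else j * 512 + u + 1) &&
    ((!tb (T.kd ks X j).mask (u + 16) || (decide (T.pos X j (u + 16) = nb X (x, y)) ||
      decide ((x, y) = nb X (T.pos X j (u + 16))))) &&
    (if u ∈ (T.kd ks X j).stub then decide (key X (x, y) = (1, 1)) || shared X (x, y)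
      else decide (key X (x, y) = (1, 1)) && (!shared X (x, y) && T.ext (x, y)))))

/-- The test for one piece. -/
def chkPiece (O j : ℕ) : Bool :=
  allBits (T.chkCell ks X O j) 99 (T.kd ks X j).mask &&
  (((T.kd ks X j).zs.all fun u => (T.kd ks X j).zs.all fun w =>
    decide (T.pos X j u = T.pos X j w → u = w)) &&
  ((T.st && decide (j = 0)) || (T.kd ks X j).has 0 (T.kd ks X j).mask))

/-- The test for one tile. -/
def chk : Bool :=
  force (T.own ks X) fun O =>
    (List.range (T.ps X).length).all (T.chkPiece ks X O) &&
    (allBits (fun i => force (i % 72) fun x => force (i / 72) fun y =>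
      ((!decide (x = 0) || decide ((x, y) ∈ stdE T.sW)) &&
        (!decide (y = 0) || decide ((x, y) ∈ stdS T.sN))) &&
      (!T.ext (nb (!X) (x, y)) || (T.covered ks X O (x, y) ||
        (decide ((x, y) ∈ covE X T.sW) || decide ((x, y) ∈ covS X T.sN))))) 999 T.cm &&
    ((covE X T.sE).all (fun c => T.covered ks X O (c.1 + 72, c.2)) &&
    ((covS X T.sS).all (fun c => T.covered ks X O (c.1, c.2 + 72)) &&
    ((stdE T.sW).all T.cell && ((stdS T.sN).all T.cell &&
    (decide ((T.ps X).length ≤ 64) &&
    decide (∑ j ∈ Finset.range 64, (if j < (T.ps X).length then (T.kd ks X j).n else 0) =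
      if T.st = true then 4 else 0)))))))

/-- The domino at `c` lies in a piece. -/
def Cov (c : ℕ × ℕ) : Prop :=
  ∃ j < (T.ps X).length, ∃ u, u ∈ bits (T.kd ks X j).mask ∧ u + 1 ∈ bits (T.kd ks X j).mask ∧
    Pr (T.pos X j u) (T.pos X j (u + 1)) c (nb (!X) c)

/-- What the test establishes. -/
structure Good : Prop where
  uniq : ∀ j < (T.ps X).length, ∀ k < (T.ps X).length, ∀ u ∈ bits (T.kd ks X j).mask,
    u ∉ (T.kd ks X j).zs → ∀ w ∈ bits (T.kd ks X k).mask, T.pos X j u = T.pos X k w → j = k ∧ u = w
  inj : ∀ j < (T.ps X).length, ∀ u ∈ (T.kd ks X j).zs, ∀ w ∈ (T.kd ks X j).zs,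
    T.pos X j u = T.pos X j w → u = w
  adj : ∀ j < (T.ps X).length, ∀ u ∈ bits (T.kd ks X j).mask, u + 16 ∈ bits (T.kd ks X j).mask →
    T.pos X j (u + 16) = nb X (T.pos X j u) ∨ T.pos X j u = nb X (T.pos X j (u + 16))
  key1 : ∀ j < (T.ps X).length, ∀ u ∈ bits (T.kd ks X j).mask, u ∉ (T.kd ks X j).stub →
    key X (T.pos X j u) = (1, 1) ∧ shared X (T.pos X j u) = false ∧ T.ext (T.pos X j u) = true
  key2 : ∀ j < (T.ps X).length, ∀ u ∈ bits (T.kd ks X j).mask,
    key X (T.pos X j u) = (1, 1) ∨ shared X (T.pos X j u) = true
  rest : ∀ j < (T.ps X).length, (T.st = true ∧ j = 0) ∨ (T.kd ks X j).has 0 (T.kd ks X j).mask = true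
  west : ∀ y, T.cell (0, y) = true → (0, y) ∈ stdE T.sW
  north : ∀ x, T.cell (x, 0) = true → (x, 0) ∈ stdS T.sN
  cov : ∀ c, T.cell c = true → T.ext (nb (!X) c) = true →
    T.Cov ks X c ∨ c ∈ covE X T.sW ∨ c ∈ covS X T.sN
  covE : ∀ c ∈ covE X T.sE, T.Cov ks X (c.1 + 72, c.2)
  covS : ∀ c ∈ covS X T.sS, T.Cov ks X (c.1, c.2 + 72)
  stdE : ∀ c ∈ stdE T.sW, T.cell c = true
  stdS : ∀ c ∈ stdS T.sN, T.cell c = true
  len : (T.ps X).length ≤ 64
  sum : ∑ j ∈ Finset.range 64, (if j < (T.ps X).length then (T.kd ks X j).n else 0) =
    if T.st = true then 4 else 0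

variable {ks T X}

theorem covAt_sound {c : ℕ × ℕ} {j u : ℕ} (h : T.covAt ks X c j u = true) : T.Cov ks X c := by
  simp only [covAt, Bool.and_eq_true, decide_eq_true_eq, Bool.or_eq_true, tb_eq] at h
  exact ⟨j, h.1, u, mem_bits.2 h.2.1, mem_bits.2 h.2.2.1, h.2.2.2⟩

theorem covered_sound {O : ℕ} {c : ℕ × ℕ} (h : T.covered ks X O c = true) : T.Cov ks X c := by
  simp only [covered, force_eq, Bool.or_eq_true] at h
  rcases h with (h | h) | h | h <;> exact covAt_sound h

theorem good_of_chk (h : T.chk ks X = true) : T.Good ks X := by
  rw [chk, force_eq] at h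
  generalize T.own ks X = O at h
  simp only [Bool.and_eq_true, List.all_eq_true, List.mem_range, decide_eq_true_eq] at h
  obtain ⟨h1, h2, h3, h4, h5, h6, h7, h8⟩ := h
  have hc : ∀ j < (T.ps X).length, ∀ u ∈ bits (T.kd ks X j).mask, T.chkCell ks X O j u = true := by
    intro j hj u hu
    have := h1 j hj
    simp only [chkPiece, Bool.and_eq_true] at this
    exact allBits_sound _ _ this.1 u (mem_bits.1 hu)
  simp only [chkCell, force_eq, Prod.mk.eta, Bool.and_eq_true, decide_eq_true_eq, Bool.or_eq_true,
    Bool.not_eq_true', tb_eq] at hc
  have hb : ∀ c, T.cell c = true → ((c.1 = 0 → c ∈ MP_79e5e2_lc.stdE T.sW) ∧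
      (c.2 = 0 → c ∈ MP_79e5e2_lc.stdS T.sN)) ∧ (T.ext (nb (!X) c) = true →
        T.Cov ks X c ∨ c ∈ MP_79e5e2_lc.covE X T.sW ∨ c ∈ MP_79e5e2_lc.covS X T.sN) := by
    rintro ⟨x, y⟩ hc
    simp only [cell, Bool.and_eq_true, decide_eq_true_eq, tb_eq] at hc
    have := allBits_sound _ _ h2 _ hc.2.2
    rw [force_eq, force_eq, show (y * 72 + x) % 72 = x by omega,
      show (y * 72 + x) / 72 = y by omega] at this
    simp only [Bool.and_eq_true, Bool.or_eq_true, Bool.not_eq_true', decide_eq_true_eq,
      decide_eq_false_iff_not] at this
    refine ⟨⟨fun e => this.1.1.resolve_left (not_not.2 e),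
      fun e => this.1.2.resolve_left (not_not.2 e)⟩, fun e => ?_⟩
    rcases this.2 with b | b | b
    · rw [e] at b; cases b
    · exact Or.inl (covered_sound b)
    · exact Or.inr b
  refine ⟨fun j hj k hk u hu hu' w hw e => ?_, fun j hj u hu w hw => ?_, fun j hj u hu hu' => ?_,
    fun j hj u hu hu' => ?_, fun j hj u hu => ?_, fun j hj => ?_, fun y hy => (hb _ hy).1.1 rfl,
    fun x hx => (hb _ hx).1.2 rfl, fun c hc => (hb c hc).2, fun c hc => covered_sound (h3 c hc),
    fun c hc => covered_sound (h4 c hc), h5, h6, h7, h8⟩
  · have b1 := hc j hj u hu
    have b2 := hc k hk w hw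
    have b3 := b1.2.1
    rw [if_neg hu', e, b2.2.1] at b3
    have := b1.1
    have := b2.1
    split_ifs at b3
    omega
  · have := h1 j hj
    simp only [chkPiece, Bool.and_eq_true, List.all_eq_true, decide_eq_true_eq] at this
    exact this.2.1 u hu w hw
  · have := (hc j hj u hu).2.2.1
    rw [mem_bits.1 hu'] at this
    simpa using this
  · have := (hc j hj u hu).2.2.2
    rw [if_neg hu'] at this
    simpa using this
  · have := (hc j hj u hu).2.2.2
    split_ifs at this
    · simpa using this
    · simp only [Bool.and_eq_true, decide_eq_true_eq] at this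
      exact Or.inl this.1
  · have := h1 j hj
    simp only [chkPiece, Bool.and_eq_true, Bool.or_eq_true, decide_eq_true_eq] at this
    exact this.2.2

variable (ks T X)

/-- Table of the entries. -/
def ent : ℕ :=
  (List.range (T.ps X).length).foldl (fun O j => force O fun O =>
    (T.kd ks X j).inp.foldl (fun O p => ins O (T.pos X j p.1) j) O) 0

/-- The token game inside a tile: player `X` wins or reaches a state accepted by `K`. -/
def loc0 (O : ℕ) (K : ℕ × ℕ → List (ℕ × ℕ) → Bool) (fuel : ℕ) : List (ℕ × ℕ) → ℕ × ℕ → Bool :=
  Nat.rec (fun _ _ => false) (fun _ ih l c => K c l || force (lk O c) fun j =>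
    decide (j < (T.ps X).length) &&
    ((T.kd ks X j).lab.getD (look l j) []).any fun i =>
      decide (((T.kd ks X j).req i).port < (T.kd ks X j).inp.length) &&
      (decide (T.pos X j ((T.kd ks X j).kind.iz ((T.kd ks X j).req i).port) = c) &&
      ((T.kd ks X j).req i).good.all fun o => decide (o < (T.kd ks X j).out.length) &&
        force (T.pos X j ((T.kd ks X j).kind.oz o)).1 fun x =>
          force (T.pos X j ((T.kd ks X j).kind.oz o)).2 fun y =>
            ih ((j, ((T.kd ks X j).req i).next) :: l) (x, y))) fuel

/-- The token game inside a tile. -/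
def loc (K : ℕ × ℕ → List (ℕ × ℕ) → Bool) (l : List (ℕ × ℕ)) (c : ℕ × ℕ) : Bool :=
  T.loc0 ks X (T.ent ks X) K 200 l c

end TL

/-- A rectangular array of tiles. -/
structure Lay where
  A : ℕ
  B : ℕ
  ty : ℕ × ℕ → TL

namespace Lay
variable (ks : List KD) (L : Lay) (X : Bool)

/-- Free cells of the board. -/
def free (p : ℕ × ℕ) : Bool := (L.ty (p.1 / 72, p.2 / 72)).cell (p.1 % 72, p.2 % 72)

/-- The board. -/
def board : Finset (ℕ × ℕ) :=
  (Finset.range (72 * L.A) ×ˢ Finset.range (72 * L.B)).filter fun p => L.free p = true

/-- The network of pieces. -/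
def net : Net ((ℕ × ℕ) × ℕ) where
  X := X
  I := ((Finset.range L.A ×ˢ Finset.range L.B) ×ˢ Finset.range 64).filter
    fun i => i.2 < ((L.ty i.1).ps X).length
  kind i := ((L.ty i.1).kd ks X i.2).kind
  φ i u := off i.1 ((L.ty i.1).pos X i.2 u)
  R i := ((L.ty i.1).kd ks X i.2).R

/-- Consistency of the array. -/
structure OK : Prop where
  kinds : ∀ k, (ks.getD k kd0).okb = true ∧ (ks.getD k kd0).kind.Closed (ks.getD k kd0).R
  good : ∀ t, (L.ty t).Good ks X
  out : ∀ a b, L.A ≤ a ∨ L.B ≤ b → (L.ty (a, b)).cm = 0
  hor : ∀ a b, (L.ty (a, b)).sE = (L.ty (a + 1, b)).sW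
  ver : ∀ a b, (L.ty (a, b)).sS = (L.ty (a, b + 1)).sN
  west : ∀ b, (L.ty (0, b)).sW = 0
  north : ∀ a, (L.ty (a, 0)).sN = 0
  st : ∀ t, (L.ty t).st = true → t = (0, 0)

variable {ks L X}

theorem mem_I (h : L.OK ks X) {t : ℕ × ℕ} {j : ℕ} : (t, j) ∈ (L.net ks X).I ↔
    t.1 < L.A ∧ t.2 < L.B ∧ j < ((L.ty t).ps X).length := by
  have := (h.good t).len
  simp only [net, Finset.mem_filter, Finset.mem_product, Finset.mem_range]
  omega

theorem lt_of_cell (h : L.OK ks X) {t c : ℕ × ℕ} (hc : (L.ty t).cell c = true) :
    t.1 < L.A ∧ t.2 < L.B := by
  by_contra hn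
  have := h.out t.1 t.2 (by omega)
  simp [TL.cell, this, tb_eq] at hc

theorem mem_board (h : L.OK ks X) {p : ℕ × ℕ} : p ∈ L.board ↔ L.free p = true := by
  simp only [board, Finset.mem_filter, Finset.mem_product, Finset.mem_range,
    and_iff_right_iff_imp]
  intro hp
  have := lt_of_cell h hp
  simp only at this
  omega

theorem cell_lt {T : TL} {c : ℕ × ℕ} (h : T.cell c = true) : c.1 < 72 ∧ c.2 < 72 := by
  simp only [TL.cell, Bool.and_eq_true, decide_eq_true_eq] at h
  exact ⟨h.1, h.2.1⟩

theorem free_off {t c : ℕ × ℕ} (h1 : c.1 < 72) (h2 : c.2 < 72) :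
    L.free (off t c) = (L.ty t).cell c := by
  simp only [free, off, Nat.add_mul_mod_self_left, Nat.add_mul_div_left _ _ (by norm_num : 0 < 72),
    Nat.mod_eq_of_lt h1, Nat.mod_eq_of_lt h2, Nat.div_eq_of_lt h1, Nat.div_eq_of_lt h2, zero_add]

theorem free_of_cell {t c : ℕ × ℕ} (h : (L.ty t).cell c = true) : L.free (off t c) = true := by
  rw [free_off (cell_lt h).1 (cell_lt h).2, h]

theorem free_of_ext (h : L.OK ks X) {t c : ℕ × ℕ} (hc : (L.ty t).ext c = true) :
    L.free (off t c) = true := by
  obtain ⟨a, b⟩ := t
  obtain ⟨x, y⟩ := c
  simp only [TL.ext, Bool.or_eq_true, Bool.and_eq_true, decide_eq_true_eq] at hc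
  rcases hc with hc | ⟨h1, h2⟩ | ⟨h1, h2⟩
  · exact free_of_cell hc
  · rw [h.hor] at h2
    rw [off_eq (a' := a + 1) (b' := b) (x' := x - 72) (y' := y) (by omega) rfl]
    exact free_of_cell ((h.good _).stdE _ h2)
  · rw [h.ver] at h2
    rw [off_eq (a' := a) (b' := b + 1) (x' := x) (y' := y - 72) rfl (by omega)]
    exact free_of_cell ((h.good _).stdS _ h2)

theorem ext_of_free (h : L.OK ks X) {t c : ℕ × ℕ} (Y : Bool) (h1 : c.1 < 72) (h2 : c.2 < 72)
    (hc : L.free (off t (nb Y c)) = true) : (L.ty t).ext (nb Y c) = true := by
  obtain ⟨a, b⟩ := t
  obtain ⟨x, y⟩ := c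
  change x < 72 at h1
  change y < 72 at h2
  simp only [TL.ext, Bool.or_eq_true, Bool.and_eq_true, decide_eq_true_eq]
  by_cases e : (nb Y (x, y)).1 < 72 ∧ (nb Y (x, y)).2 < 72
  · rw [free_off e.1 e.2] at hc
    exact Or.inl hc
  · cases Y
    · simp only [nb, Bool.false_eq_true, if_false] at e hc ⊢
      have e1 : off (a, b) (x + 1, y) = off (a + 1, b) (0, y) := off_eq (by omega) rfl
      rw [e1, free_off (c := (0, y)) (by norm_num) h2] at hc
      have := (h.good _).west y hc
      rw [← h.hor] at this
      exact Or.inr (Or.inl ⟨by omega, by rwa [show x + 1 - 72 = 0 by omega]⟩)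
    · simp only [nb, if_true] at e hc ⊢
      have e1 : off (a, b) (x, y + 1) = off (a, b + 1) (x, 0) := off_eq rfl (by omega)
      rw [e1, free_off (c := (x, 0)) h1 (by norm_num)] at hc
      have := (h.good _).north x hc
      rw [← h.ver] at this
      exact Or.inr (Or.inr ⟨by omega, by rwa [show y + 1 - 72 = 0 by omega]⟩)

theorem geo (h : L.OK ks X) : (L.net ks X).Geo := by
  refine ⟨fun i _ => (KD.ok_of (h.kinds _).1).1, fun i _ => (h.kinds _).2, ?_, ?_, ?_, ?_⟩
  · rintro ⟨t, j⟩ hi u hu w hw e
    have hj := ((mem_I h).1 hi).2.2
    have e' := off_inj e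
    by_cases h1 : u ∈ ((L.ty t).kd ks X j).zs
    · by_cases h2 : w ∈ ((L.ty t).kd ks X j).zs
      · exact (h.good t).inj j hj u h1 w h2 e'
      · exact ((h.good t).uniq j hj j hj w hw h2 u hu e'.symm).2.symm
    · exact ((h.good t).uniq j hj j hj u hu h1 w hw e').2
  · rintro ⟨t, j⟩ hi u hu hu'
    have hj := ((mem_I h).1 hi).2.2
    change off t _ = nb X (off t _) ∨ off t _ = nb X (off t _)
    rw [nb_off, nb_off]
    exact ((h.good t).adj j hj u hu hu').imp (congrArg _) (congrArg _)
  · rintro ⟨t, j⟩ hi ⟨t', k⟩ hk u hu hu' w hw e
    have hj := ((mem_I h).1 hi).2.2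
    have hk' := ((mem_I h).1 hk).2.2
    change off t _ = off t' _ at e
    have b1 := (h.good t).key1 j hj u hu hu'
    have b2 := congrArg (key X) e
    have b3 := congrArg (shared X) e
    rw [key_off, key_off, b1.1] at b2
    rw [shared_off, shared_off, b1.2.1] at b3
    rcases (h.good t').key2 k hk' w hw with b4 | b4
    · rw [b4] at b2
      obtain rfl := add_left_cancel b2
      have := (h.good t).uniq j hj k hk' u hu
        (fun b => hu' ((KD.ok_of (h.kinds _).1).2 u b)) w hw (off_inj e)
      rw [this.1]
    · rw [b4] at b3
      cases b3
  · simp only [net]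
    rw [Finset.sum_filter, Finset.sum_product]
    have : ∀ t ∈ Finset.range L.A ×ˢ Finset.range L.B, (∑ j ∈ Finset.range 64,
        if j < ((L.ty t).ps X).length then ((L.ty t).kd ks X j).kind.n else 0) ≤
        if t = (0, 0) then 4 else 0 := by
      intro t _
      refine ((h.good t).sum).le.trans ?_
      have := h.st t
      split_ifs <;> simp_all
    refine (Finset.sum_le_sum this).trans ?_
    rw [Finset.sum_ite_eq']
    split_ifs <;> norm_num

theorem inv (h : L.OK ks X) :
    (L.net ks X).Inv L.board fun i => ((L.net ks X).kind i).cells := by
  refine ⟨fun i _ => Finset.Subset.refl _, ?_, fun p hp hq => Or.inl ?_⟩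
  · rintro ⟨t, j⟩ hi u hu hu'
    have hj := ((mem_I h).1 hi).2.2
    exact iff_of_true hu ((mem_board h).2 (free_of_ext h ((h.good t).key1 j hj u hu hu').2.2))
  · rw [mem_board h] at hp hq
    have key : ∀ t c, t.1 < L.A → t.2 < L.B → off t c = p → (L.ty t).Cov ks X c →
        ∃ i ∈ (L.net ks X).I, ∃ u, u ∈ ((L.net ks X).kind i).cells ∧
          u + 1 ∈ ((L.net ks X).kind i).cells ∧
          Pr ((L.net ks X).φ i u) ((L.net ks X).φ i (u + 1)) p (nb (!(L.net ks X).X) p) := by
      rintro t c h1 h2 rfl ⟨j, hj, u, h3, h4, h5⟩
      refine ⟨(t, j), (mem_I h).2 ⟨h1, h2, hj⟩, u, h3, h4, ?_⟩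
      change Pr (off t _) (off t _) _ (nb (!X) _)
      rw [nb_off]
      rcases h5 with ⟨e1, e2⟩ | ⟨e1, e2⟩
      · exact Or.inl ⟨congrArg _ e1, congrArg _ e2⟩
      · exact Or.inr ⟨congrArg _ e1, congrArg _ e2⟩
    obtain ⟨a, b, x, y, hx, hy, rfl⟩ : ∃ a b x y, x < 72 ∧ y < 72 ∧ p = off (a, b) (x, y) :=
      ⟨p.1 / 72, p.2 / 72, p.1 % 72, p.2 % 72, by omega, by omega, by
        simp only [off, Nat.mod_add_div]⟩
    change L.free (nb (!X) _) = true at hq
    rw [nb_off] at hq
    rw [free_off hx hy] at hp
    have hl := lt_of_cell h hp
    rcases (h.good _).cov _ hp (ext_of_free h _ hx hy hq) with b1 | b1 | b1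
    · exact key _ _ hl.1 hl.2 rfl b1
    · cases a with
      | zero => simp [h.west, covE] at b1
      | succ a =>
        rw [← h.hor] at b1
        exact key (a, b) _ (Nat.lt_of_succ_lt hl.1) hl.2 (off_eq (by omega) rfl)
          ((h.good _).covE _ b1)
    · cases b with
      | zero => simp [h.north, covS] at b1
      | succ b =>
        rw [← h.ver] at b1
        exact key (a, b) _ hl.1 (Nat.lt_of_succ_lt hl.2) (off_eq rfl (by omega))
          ((h.good _).covS _ b1)

variable (ks L X) in
/-- Player `X` wins the token game when the token arrives at the cell `p`. -/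
def Ent (l : ℕ × ℕ → List (ℕ × ℕ)) (p : ℕ × ℕ) : Prop :=
  ∃ i ∈ (L.net ks X).I, ∃ q : Req, q.port < ((L.net ks X).kind i).inp.length ∧
    (L.net ks X).φ i (((L.net ks X).kind i).iz q.port) = p ∧
    q ∈ ((L.net ks X).kind i).reqs (look (l i.1) i.2) ∧
    (L.net ks X).TR (fun i => look (l i.1) i.2) i q

theorem look_update (l : ℕ × ℕ → List (ℕ × ℕ)) (t : ℕ × ℕ) (j v : ℕ) :
    Function.update (fun i : (ℕ × ℕ) × ℕ => look (l i.1) i.2) (t, j) v =
      fun i => look (Function.update l t ((j, v) :: l t) i.1) i.2 := by
  funext ⟨t', k⟩
  by_cases e : t' = t
  · subst e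
    rw [Function.update_self]
    change _ = cond (Nat.beq j k) v (look (l t') k)
    by_cases e' : k = j
    · subst e'
      simp
    · rw [Function.update_of_ne (by simpa using e')]
      have : Nat.beq j k = false := by
        rw [← Bool.not_eq_true, Nat.beq_eq]
        exact Ne.symm e'
      rw [this, cond_false]
  · rw [Function.update_of_ne (by simp [e]), Function.update_of_ne e]

theorem tr_of_ent {l : ℕ × ℕ → List (ℕ × ℕ)} {t : ℕ × ℕ} {j : ℕ} {q : Req}
    (hj : (t, j) ∈ (L.net ks X).I)
    (h : ∀ o ∈ q.good, o < ((L.net ks X).kind (t, j)).out.length ∧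
      L.Ent ks X (Function.update l t ((j, q.next) :: l t))
        ((L.net ks X).φ (t, j) (((L.net ks X).kind (t, j)).oz o))) :
    (L.net ks X).TR (fun i => look (l i.1) i.2) (t, j) q := by
  have : ∀ o, ∃ n : ((ℕ × ℕ) × ℕ) × Req, o ∈ q.good →
      ((L.net ks X).Lk (t, j) o n.1 n.2.port ∧ n.2 ∈ ((L.net ks X).kind n.1).reqs
        (Function.update (fun i : (ℕ × ℕ) × ℕ => look (l i.1) i.2) (t, j) q.next n.1)) ∧
      (L.net ks X).TR (Function.update (fun i : (ℕ × ℕ) × ℕ => look (l i.1) i.2) (t, j) q.next)
        n.1 n.2 := by
    intro o
    by_cases ho : o ∈ q.good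
    · obtain ⟨h1, i, hi, q', h2, h3, h4, h5⟩ := h o ho
      rw [look_update]
      exact ⟨(i, q'), fun _ => ⟨⟨⟨hj, hi, h1, h2, h3.symm⟩, h4⟩, h5⟩⟩
    · exact ⟨((t, j), q), fun h => absurd h ho⟩
  choose nx hnx using this
  exact Net.TR.mk _ _ _ nx (fun o ho => (hnx o ho).1) fun o ho => (hnx o ho).2

theorem loc0_sound (h : L.OK ks X) {t : ℕ × ℕ} (h1 : t.1 < L.A) (h2 : t.2 < L.B) {O : ℕ}
    {K : ℕ × ℕ → List (ℕ × ℕ) → Bool} {l : ℕ × ℕ → List (ℕ × ℕ)}
    (hK : ∀ c m, K c m = true → L.Ent ks X (Function.update l t m) (off t c)) (fuel : ℕ) :
    ∀ m c, (L.ty t).loc0 ks X O K fuel m c = true →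
      L.Ent ks X (Function.update l t m) (off t c) := by
  induction fuel with
  | zero => intro m c h; cases h
  | succ n ih =>
    intro m c hc
    set T := L.ty t with hT
    change (K c m || force (lk O c) fun j =>
      decide (j < (T.ps X).length) &&
      ((T.kd ks X j).lab.getD (look m j) []).any fun i =>
        decide (((T.kd ks X j).req i).port < (T.kd ks X j).inp.length) &&
        (decide (T.pos X j ((T.kd ks X j).kind.iz ((T.kd ks X j).req i).port) = c) &&
        ((T.kd ks X j).req i).good.all fun o => decide (o < (T.kd ks X j).out.length) &&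
          force (T.pos X j ((T.kd ks X j).kind.oz o)).1 fun x =>
            force (T.pos X j ((T.kd ks X j).kind.oz o)).2 fun y =>
              T.loc0 ks X O K n ((j, ((T.kd ks X j).req i).next) :: m) (x, y))) = true at hc
    simp only [force_eq, Prod.mk.eta, Bool.or_eq_true, Bool.and_eq_true, decide_eq_true_eq,
      List.any_eq_true, List.all_eq_true] at hc
    rcases hc with hc | ⟨hj, i, hi, h3, h4, h5⟩
    · exact hK c m hc
    · generalize lk O c = j at hj hi h3 h4 h5
      have hI := (mem_I h).2 ⟨h1, h2, hj⟩
      refine ⟨(t, j), hI, (T.kd ks X j).req i, h3, congrArg (off t) h4, ?_, tr_of_ent hI fun o ho => ?_⟩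
      · rw [Function.update_self]
        exact List.mem_map_of_mem hi
      · refine ⟨(h5 o ho).1, ?_⟩
        rw [Function.update_idem, Function.update_self]
        exact ih _ _ (h5 o ho).2

theorem loc_sound (h : L.OK ks X) {t : ℕ × ℕ} (h1 : t.1 < L.A) (h2 : t.2 < L.B)
    {K : ℕ × ℕ → List (ℕ × ℕ) → Bool} {l : ℕ × ℕ → List (ℕ × ℕ)} {c : ℕ × ℕ}
    (hc : (L.ty t).loc ks X K (l t) c = true)
    (hK : ∀ c m, K c m = true → L.Ent ks X (Function.update l t m) (off t c)) :
    L.Ent ks X l (off t c) := by
  have := loc0_sound h h1 h2 hK _ _ _ hc
  rwa [Function.update_eq_self] at this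

/-- The winner of the token game wins the board, Left moving first. -/
theorem outcome (h : L.OK ks X) (hA : 0 < L.A) (hB : 0 < L.B)
    (h0 : 0 < ((L.ty (0, 0)).ps X).length) (h1 : 0 < ((L.ty (0, 0)).kd ks X 0).out.length)
    (h2 : ((L.ty (0, 0)).kd ks X 0).req 0 = ⟨0, [0], 1⟩)
    (h3 : ((L.ty (0, 0)).kd ks X 0).has (if X then 2 else 1) ((L.ty (0, 0)).kd ks X 0).mask = true)
    (h4 : L.Ent ks X (Function.update (fun _ => []) (0, 0) [(0, 1)])
      (off (0, 0) ((L.ty (0, 0)).pos X 0 (((L.ty (0, 0)).kd ks X 0).kind.oz 0)))) :
    Outcome X true L.board := by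
  have hI : ((0, 0), 0) ∈ (L.net ks X).I := (mem_I h).2 ⟨hA, hB, h0⟩
  have hT : (L.net ks X).TR (fun i => look ((fun _ => []) i.1) i.2) ((0, 0), 0) ⟨0, [0], 1⟩ :=
    tr_of_ent (l := fun _ => []) (q := ⟨0, [0], 1⟩) hI fun o ho => by
      obtain rfl : o = 0 := by simpa using ho
      exact ⟨h1, h4⟩
  have := Net.main (geo h) hT hI _ _ (inv h) (by
    rintro ⟨t, j⟩ hi hne
    rcases (h.good t).rest j ((mem_I h).1 hi).2.2 with ⟨b1, b2⟩ | b1
    · exact absurd (by rw [h.st t b1, b2]) hne
    · exact ⟨0, by norm_num, _, b1, rfl, rfl⟩)
  cases X
  · exact outcome_of_W (this.1 ⟨1, by norm_num, _, h3, by rw [← h2]; rfl, rfl⟩)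
  · exact outcome_of_W (this.2 ⟨2, by norm_num, _, h3, by rw [← h2]; rfl, rfl⟩)

end Lay

end

end Pool.Agent.MP_79e5e2_lc

end

section

/-! Generated kinds of pieces and tiles. -/

namespace Pool.Agent.MP_79e5e2_lc

/-- A kind of piece. -/
def k_cX : KD where
  mask := 20461201331316695745459570448479387304437649768686
  stub := [7, 6, 2, 1, 162, 161]
  n := -20
  inp := [(7, 6)]
  out := [(3, 2, 1), (163, 162, 161)]
  rq := [⟨0, [0], 1⟩, ⟨0, [1], 1⟩]
  lab := [[0, 1], []]
  cert := [nat_lit 1309516885204268527709412508702680787484009585195904, nat_lit 1309516885204268527222634059235576321653398780772737,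
    nat_lit 1309516885204268527709408175903098555687308114264449, nat_lit 1309516885204268527709411889723216411828132845192065,
    nat_lit 1309516885204268527709412508702680787484009585187713, nat_lit 187083627734135086528981938197111052732376652186498,
    nat_lit 187083627734135086528982557176575428388253392182146, nat_lit 748300256469201807119196913960163732280254748689282,
    nat_lit 748300256469201807119197532939628107936131488684930, nat_lit 1309516885204268526735856228747936231478664783463298,
    nat_lit 1309516885204268526735856847727400607134541523458946, nat_lit 1309516885204268527222634059235576321653398814327682,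
    nat_lit 1309516885204268527222634678215040697309275554323330, nat_lit 1309516885204268527709408175903098555687308147819394,
    nat_lit 1309516885204268527709408794882562931343184887815042, nat_lit 1309516885204268527709410651792621859413597236501378,
    nat_lit 1309516885204268527709411889723216411828132845191298, nat_lit 1309516885204268527709411889723216411828132845191682,
    nat_lit 1309516885204268527709412508702680787484009585181570, nat_lit 1309516885204268527709412508702680787484009585186946,
    nat_lit 1309516885204268527709412508702680787484009585187330, nat_lit 561216628909304585382734139399225211746315078206339,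
    nat_lit 561216628909304585869508256066747445780224411698051, nat_lit 1309516885204268527222634059235576321653398780772739,
    nat_lit 1309516885204268527709408175903098555687308114264451, nat_lit 561216628909304585382734139399225211746315078206340,
    nat_lit 561216628909304585869508256066747445780224411698052, nat_lit 1309516885204268527668847070525357803945977633047428,
    nat_lit 1309516885204268527709412508702680787484009585187716, nat_lit 187083627734135086488417118999252444850221440041861,
    nat_lit 187083627734135086528982557176575428388253392182149, nat_lit 748300256469201807078632094762305124398099536544645,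
    nat_lit 748300256469201807119197532939628107936131488684933, nat_lit 1309516885204268526695291409550077623596509571318661,
    nat_lit 1309516885204268526735856847727400607134541523458949, nat_lit 1309516885204268527182069240037717713771243602183045,
    nat_lit 1309516885204268527222634678215040697309275554323333, nat_lit 1309516885204268527668843356705239947805152935674757,
    nat_lit 1309516885204268527668847070525357803945977633046661, nat_lit 1309516885204268527668847070525357803945977633047045,
    nat_lit 1309516885204268527709408794882562931343184887815045, nat_lit 1309516885204268527709410651792621859413597236501381,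
    nat_lit 1309516885204268527709412508702680787484009585181573, nat_lit 1309516885204268527709412508702680787484009585186949,
    nat_lit 1309516885204268527709412508702680787484009585187333]

/-- A kind of piece. -/
def k_cY : KD where
  mask := 590304818099127320830
  stub := [33, 34, 2, 1, 6, 7]
  n := 20
  inp := [(33, 34)]
  out := [(3, 2, 1), (5, 6, 7)]
  rq := [⟨0, [0, 1], 1⟩]
  lab := [[0], []]
  cert := [nat_lit 37779508351747011656576, nat_lit 37779508353946034910080, nat_lit 37779508353946034911616, nat_lit 37779508358344148533120,
    nat_lit 37779508351197255842689, nat_lit 37779508353396279096193, nat_lit 37779508353396279097729, nat_lit 37779508357794392719233,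
    nat_lit 37779508331406113652610, nat_lit 37779508344600253185922, nat_lit 37779508351197322952578, nat_lit 37779508354495857835906,
    nat_lit 37779508357794392706946, nat_lit 37779508357794392713090, nat_lit 37779508357794392716162, nat_lit 37779508357794392717698,
    nat_lit 37779508357794392718466, nat_lit 37779508357794392718850, nat_lit 37779508353396279096195, nat_lit 37779508353396279097731]

/-- A kind of piece. -/
def k_dX : KD where
  mask := 36894051105962590222
  stub := [3, 2]
  n := -8
  inp := [(3, 2)]
  out := []
  rq := [⟨0, [], 1⟩]
  lab := [[0], []]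
  cert := [nat_lit 2361219270781605774208, nat_lit 2361219270781605773697]

/-- A kind of piece. -/
def k_hX : KD where
  mask := 8590065670
  stub := []
  n := -4
  inp := []
  out := []
  rq := []
  lab := [[]]
  cert := [nat_lit 549764202880]

/-- A kind of piece. -/
def k_hY : KD where
  mask := 131086
  stub := []
  n := 4
  inp := []
  out := []
  rq := []
  lab := [[]]
  cert := [nat_lit 8389504]

/-- A kind of piece. -/
def k_jX : KD where
  mask := 25937484529505074685164039383570148909279489039318775542071312320447486497915104
  stub := [7, 6, 263, 262, 130, 129]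
  n := -16
  inp := [(7, 6), (263, 262)]
  out := [(131, 130, 129)]
  rq := [⟨0, [0], 1⟩, ⟨1, [0], 1⟩]
  lab := [[0, 1], []]
  cert := [nat_lit 1659999009888324779850498520548489530193887298516401634692563988508639135866566656,
    nat_lit 1659999009888324779850498520548489530193713071285554779360774031828307183998599169,
    nat_lit 1659999009888324779850498520548489530193713071286041553477441554062341093332090881,
    nat_lit 1659999009888324779850498520548489530193887298516361069254386665525101103914418177,
    nat_lit 1659999009888324779850498520548489530193887298516401634692563988508639135866558465,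
    nat_lit 237145817340183370485658256761732518492905726944969818337531873235864566898884610,
    nat_lit 237145817340183370485658256761732518492905726945010383775709196219402598851024898,
    nat_lit 948572413614254075168078388655111024343396512730665443795959269380482835406651394,
    nat_lit 948572413614254075168078388655111024343396512730706009234136592364020867358791682,
    nat_lit 1659999009867619540810126829186185262607056222159007742337875505859613531243020290,
    nat_lit 1659999009867619540810126829186185262607056222159048307776052828843151563195160578,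
    nat_lit 1659999009877972160330312674867337396400471760337684405796131085692357317578719234,
    nat_lit 1659999009877972160330312674867337396400471760337724971234308408675895349530859522,
    nat_lit 1659999009888324779850498226309345683943226493713731856395023410727189644662800386,
    nat_lit 1659999009888324779850498226309345683943226493713772421833200733710727676614940674,
    nat_lit 1659999009888324779850498373428917607068556896115046462824705038126145374288609282,
    nat_lit 1659999009888324779850498373428917607068556896115087028262882361109683406240749570,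
    nat_lit 1659999009888324779850498520530530598074365163457474190029968979779569004826329090,
    nat_lit 1659999009888324779850498520530530598074365163457514755468146302763107036778469378,
    nat_lit 1659999009888324779850498520539510064134126230986917629642177822652335054370373634,
    nat_lit 1659999009888324779850498520539510064134126230986958195080355145635873086322513922,
    nat_lit 1659999009888324779850498520548489530193625961658565788514446793826593505928019970,
    nat_lit 1659999009888324779850498520548489530193625961658606353952624116810131537880160258,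
    nat_lit 1659999009888324779850498520548489530193756630087463428884416729675847304921219074,
    nat_lit 1659999009888324779850498520548489530193756630087503994322594052659385336873359362,
    nat_lit 1659999009888324779850498520548489530193887298515387513593411385344751635852689410,
    nat_lit 1659999009888324779850498520548489530193887298515428079031588708328289667804829698,
    nat_lit 1659999009888324779850498520548489530193887298515874291423899025434926369883553794,
    nat_lit 1659999009888324779850498520548489530193887298515914856862076348418464401835694082,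
    nat_lit 1659999009888324779850498520548489530193887298516361065540566547668960279217045506,
    nat_lit 1659999009888324779850498520548489530193887298516361069254386665525097805379534850,
    nat_lit 1659999009888324779850498520548489530193887298516361069254386665525099454646976514,
    nat_lit 1659999009888324779850498520548489530193887298516401630978743870652498311169185794,
    nat_lit 1659999009888324779850498520548489530193887298516401632835653929580568723517872130,
    nat_lit 1659999009888324779850498520548489530193887298516401634692563988508635837331675138,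
    nat_lit 1659999009888324779850498520548489530193887298516401634692563988508637486599116802,
    nat_lit 1659999009888324779850498520548489530193887298516401634692563988508639135866552322,
    nat_lit 3618582159802258184536184190228993835337566381571359711193272603146373314563,
    nat_lit 3618582159802258184830414354609184735074839567344606865605197748556080887811,
    nat_lit 1659999009888324779850498520548489530193713071285554779360774031828307183998599171,
    nat_lit 1659999009888324779850498520548489530193713071286041553477441554062341093332090883,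
    nat_lit 3618582159802258184536184190228993835337566381571359711193272603146373314564,
    nat_lit 3618582159802258184830414354609184735074839567344606865605197748556080887812,
    nat_lit 3618582159802258184830423334086662651908588553353178655451465480762011170820,
    nat_lit 711430214856230506940605011357318189059899584135474134081327460315814777856210948,
    nat_lit 3618561454563217813139061029819075820832231200026262144291799993189339772933,
    nat_lit 3618571807182737998984742181952869236370409876689720399871632736975675471877,
    nat_lit 3618582159802258184536184190240411991103785924140319292196667569302759553029,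
    nat_lit 3618582159802258184830405375154543129773529666473954237765719948662923081733,
    nat_lit 3618582159802258184830414354620602890841059109913566446608592714712467126277,
    nat_lit 3618582159802258184830423334086662390571730758072438715579766973164024772613,
    nat_lit 3618582159802258184830423334086662521240159655712808685515616226963017971717,
    nat_lit 3618582159802258184830423334086662651908587579797517680171285131293949442053,
    nat_lit 3618582159802258184830423334086662651908588066575348167811375306027980306437,
    nat_lit 3618582159802258184830423334086662651908588553349464835333609339937313798149,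
    nat_lit 3618582159802258184830423334086662651908588553351321745392537410349662484485,
    nat_lit 3618582159802258184830423334086662651908588553353178655451465477463476287493,
    nat_lit 3618582159802258184830423334086662651908588553353178655451465479112743729157,
    nat_lit 3618582159802258184830423334086662651908588553353178655451465480762011158533,
    nat_lit 3618582159802258184830423334086662651908588553353178655451465480762011164677,
    nat_lit 3618582159802258184879463939683209408798349778508622900064171196509348444165,
    nat_lit 711430214835525267900233319995013921473068507778120807164816300650327205184813061,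
    nat_lit 711430214845877887420419165676166055266484045956797470623071880483070991520512005,
    nat_lit 711430214856230506940604717118174342809238779332844921221964205517903318604593157,
    nat_lit 711430214856230506940604864237746265934569181734159527651645832916859048230402053,
    nat_lit 711430214856230506940605011339359256940377449076587254856909774570282678768121861,
    nat_lit 711430214856230506940605011348338723000138516606030694469118617443048728312166405,
    nat_lit 711430214856230506940605011357318189059638247277678853341387588617307179869812741,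
    nat_lit 711430214856230506940605011357318189059768915706576493711357524466560978863011845,
    nat_lit 711430214856230506940605011357318189059899584134500578420352180135465309794482181,
    nat_lit 711430214856230506940605011357318189059899584134987356250839820225640043825346565,
    nat_lit 711430214856230506940605011357318189059899584135474130367507342459673953158838277,
    nat_lit 711430214856230506940605011357318189059899584135474132224417401387744365507524613,
    nat_lit 711430214856230506940605011357318189059899584135474134081327460315811479321327621,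
    nat_lit 711430214856230506940605011357318189059899584135474134081327460315813128588769285,
    nat_lit 711430214856230506940605011357318189059899584135474134081327460315814777856198661,
    nat_lit 711430214856230506940605011357318189059899584135474134081327460315814777856204805]

/-- A kind of piece. -/
def k_jY : KD where
  mask := 185116433502257378162207553378698852828032
  stub := [97, 98, 109, 108, 8, 9]
  n := 16
  inp := [(97, 98), (109, 108)]
  out := [(7, 8, 9)]
  rq := [⟨0, [0], 1⟩, ⟨1, [0], 2⟩, ⟨1, [], 3⟩, ⟨0, [], 3⟩]
  lab := [[0, 1], [2], [3], []]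
  cert := [nat_lit 11847451728445806701824521672837577886982144, nat_lit 11847451728486371520994046081822515227844608,
    nat_lit 11847451728567502397405360446693014874677248, nat_lit 11847451738830400418289714020091255958069248,
    nat_lit 11847451738952096113870552793946692945764352, nat_lit 11847451744022776506800444642381289593298944,
    nat_lit 11847451744063341325969969051366226934161408, nat_lit 11847451744144472202381283416236726580994048,
    nat_lit 11847451728435665497022695837625604261339137, nat_lit 11847451728476230315965546655432798095065089,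
    nat_lit 11847451728476230316192220246610541602201601, nat_lit 11847451728557361192603534611481041249034241,
    nat_lit 11847451738820259213487888184879282332426241, nat_lit 11847451738941954909068726958734719320121345,
    nat_lit 11847451744012635301998618807169315967655937, nat_lit 11847451744053200120941469624976509801381889,
    nat_lit 11847451744053200121168143216154253308518401, nat_lit 11847451744134330997579457581024752955351041,
    nat_lit 11847451666168668013774288704244585651560450, nat_lit 11847451666249798890185603069115085298393090,
    nat_lit 11847451681745637818750211673788297357877250, nat_lit 11847451681826768695161526038658797004709890,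
    nat_lit 11847451712899418969959177444971275333197826, nat_lit 11847451712980549846370491809841774980030466,
    nat_lit 11847451724582007672291099525212669355286530, nat_lit 11847451724663138548702413890083169002119170,
    nat_lit 11847451727989452485704580156435807571337218, nat_lit 11847451728070583362115894521306307218169858,
    nat_lit 11847451728313972277359714566393674233602050, nat_lit 11847451728415383087381265235338699848343554,
    nat_lit 11847451728435666734981624588937357741318146, nat_lit 11847451728476230301685110411234991505727490,
    nat_lit 11847451728476230308938665328922766553964546, nat_lit 11847451728476230315285525881899569721171970,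
    nat_lit 11847451728476230315738873064255055661686786, nat_lit 11847451728476230315965546655432798631944194,
    nat_lit 11847451728476230316178053147161932666560514, nat_lit 11847451728476230316185136696886237134381058,
    nat_lit 11847451728476230316192220246610541602152450, nat_lit 11847451728476230316192220246610541602177026,
    nat_lit 11847451728476309545563660330562764320858114, nat_lit 11847451728496513963792579600209199495176194,
    nat_lit 11847451728557361178096424776105491152560130, nat_lit 11847451728557361185349979693793266200797186,
    nat_lit 11847451728557361191696840246770069368004610, nat_lit 11847451728557361192150187429125555308519426,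
    nat_lit 11847451728557361192376861020303298278776834, nat_lit 11847451728557361192490197815892169763905538,
    nat_lit 11847451728557361192546866213686605506469890, nat_lit 11847451728557361192575200412583823377752066,
    nat_lit 11847451728557361192589367512032432313393154, nat_lit 11847451728557361192596451061756736781213698,
    nat_lit 11847451728557361192603534611481041248985090, nat_lit 11847451728557361192603534611481041249009666,
    nat_lit 11847451728557440421974974695433263967690754, nat_lit 11847451736264754833365901773358508814688258,
    nat_lit 11847451736345885709777216138229008461520898, nat_lit 11847451740158977477267022494756381061603330,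
    nat_lit 11847451740240108353678336859626880708435970, nat_lit 11847451743566422290680503125979519277654018,
    nat_lit 11847451743647553167091817490850018924486658, nat_lit 11847451743890942082335637535937385939918850,
    nat_lit 11847451743992352892357188204882411554660354, nat_lit 11847451744012636539957547558481069447634946,
    nat_lit 11847451744053200106661033380778703212044290, nat_lit 11847451744053200113914588298466478260281346,
    nat_lit 11847451744053200117541365757310365784399874, nat_lit 11847451744053200119354754486732309546459138,
    nat_lit 11847451744053200120261448851443281427488770, nat_lit 11847451744053200120714796033798767368003586,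
    nat_lit 11847451744053200120941469624976510338260994, nat_lit 11847451744053200121153976116705644372877314,
    nat_lit 11847451744053200121161059666429948840697858, nat_lit 11847451744053200121168143216154253308469250,
    nat_lit 11847451744053200121168143216154253308493826, nat_lit 11847451744073483768768502569752911201492994,
    nat_lit 11847451744134330983072347745649202858876930, nat_lit 11847451744134330990325902663336977907113986,
    nat_lit 11847451744134330993952680122180865431232514, nat_lit 11847451744134330995766068851602809193291778,
    nat_lit 11847451744134330996672763216313781074321410, nat_lit 11847451744134330997126110398669267014836226,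
    nat_lit 11847451744134330997352783989847009985093634, nat_lit 11847451744134330997466120785435881470222338,
    nat_lit 11847451744134330997522789183230317212786690, nat_lit 11847451744134330997551123382127535084068866,
    nat_lit 11847451744134330997565290481576144019709954, nat_lit 11847451744134330997572374031300448487530498,
    nat_lit 11847451744134330997579457581024752955301890, nat_lit 11847451744134330997579457581024752955326466,
    nat_lit 11847451728476230315965546655432798095065091, nat_lit 11847451744053200120941469624976509801381891,
    nat_lit 11847451686907431833545900644593607253221380, nat_lit 11847451686947996652715425053578544594083844,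
    nat_lit 11847451687029127529126739418449044240916484, nat_lit 11847451697292025549557745809491798846914564,
    nat_lit 11847451697292025550011092991847285324308484, nat_lit 11847451697413721245138584583347235834609668,
    nat_lit 11847451697413721245591931765702722312003588, nat_lit 11847451702484401638521823614137318959538180,
    nat_lit 11847451702524966457691348023122256300400644, nat_lit 11847451702606097334102662387992755947233284,
    nat_lit 11847451666138244398802127220664307348987909, nat_lit 11847451666259940094382965994519744336683013,
    nat_lit 11847451671330620487312857842954340984217605, nat_lit 11847451671452316182893696616809777971912709,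
    nat_lit 11847451686907511062917340728545829971877893, nat_lit 11847451687029206758498179502401266959572997,
    nat_lit 11847451693397802906109972270449413077393413, nat_lit 11847451693519498601690811044304850065088517,
    nat_lit 11847451694695956350719582171341574465708037, nat_lit 11847451694817652046300420945197011453403141,
    nat_lit 11847451696805247719523452901672551293444101, nat_lit 11847451696926943415104291675527988281139205,
    nat_lit 11847451697170332330348111720615355296571397, nat_lit 11847451697261601935605615486211364447379461,
    nat_lit 11847451697292025535503983156471735227834373, nat_lit 11847451697292025542757538074159510276071429,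
    nat_lit 11847451697292025549557745809491799383793669, nat_lit 11847451697292025549784419400669542354051077,
    nat_lit 11847451697292025549897756196258413839179781, nat_lit 11847451697292025549996925892398676388667397,
    nat_lit 11847451697292025550004009442122980856487941, nat_lit 11847451697292025550011092991847285324259333,
    nat_lit 11847451697292025550011092991847285324283909, nat_lit 11847451697292026787970021743159038804287493,
    nat_lit 11847451697352874016780976754430880558145541, nat_lit 11847451697383297631186454260066801435074565,
    nat_lit 11847451697413721231084821930327172215529477, nat_lit 11847451697413721238338376848014947263766533,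
    nat_lit 11847451697413721245138584583347236371488773, nat_lit 11847451697413721245365258174524979341746181,
    nat_lit 11847451697413721245478594970113850826874885, nat_lit 11847451697413721245535263367908286569439237,
    nat_lit 11847451697413721245563597566805504440721413, nat_lit 11847451697413721245577764666254113376362501,
    nat_lit 11847451697413721245584848215978417844183045, nat_lit 11847451697413721245591931765702722311954437,
    nat_lit 11847451697413721245591931765702722311979013, nat_lit 11847451698590178994620702892739446712623109,
    nat_lit 11847451698711874690201541666594883700318213, nat_lit 11847451701997623808034183523962584928673797,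
    nat_lit 11847451702119319503615022297818021916368901, nat_lit 11847451702362708418858842342905388931801093,
    nat_lit 11847451702453978024116346108501398082609157, nat_lit 11847451702484401624014713778761768863064069,
    nat_lit 11847451702484401631268268696449543911301125, nat_lit 11847451702484401634895046155293431435419653,
    nat_lit 11847451702484401636708434884715375197478917, nat_lit 11847451702484401637615129249426347078508549,
    nat_lit 11847451702484401638068476431781833019023365, nat_lit 11847451702484401638295150022959575989280773,
    nat_lit 11847451702484401638408486818548447474409477, nat_lit 11847451702484401638507656514688710023897093,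
    nat_lit 11847451702484401638514740064413014491717637, nat_lit 11847451702484401638521823614137318959489029,
    nat_lit 11847451702484401638521823614137318959513605, nat_lit 11847451702484402876480752365449072439517189,
    nat_lit 11847451702545250105291707376720914193375237, nat_lit 11847451702575673719697184882356835070304261,
    nat_lit 11847451702606097319595552552617205850759173, nat_lit 11847451702606097326849107470304980898996229,
    nat_lit 11847451702606097330475884929148868423114757, nat_lit 11847451702606097332289273658570812185174021,
    nat_lit 11847451702606097333195968023281784066203653, nat_lit 11847451702606097333649315205637270006718469,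
    nat_lit 11847451702606097333875988796815012976975877, nat_lit 11847451702606097333989325592403884462104581,
    nat_lit 11847451702606097334045993990198320204668933, nat_lit 11847451702606097334074328189095538075951109,
    nat_lit 11847451702606097334088495288544147011592197, nat_lit 11847451702606097334095578838268451479412741,
    nat_lit 11847451702606097334102662387992755947184133, nat_lit 11847451702606097334102662387992755947208709,
    nat_lit 11847451697292025549557745809491798846914566, nat_lit 11847451697413721245138584583347235834609670,
    nat_lit 11847451686937855447686925627188827461304327, nat_lit 11847451702514825252662848596732539167621127,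
    nat_lit 11847451697281884344755919974279825221271562, nat_lit 11847451697403580040336758748135262208966666]

/-- A kind of piece. -/
def k_sX : KD where
  mask := 917506
  stub := [18, 19]
  n := 8
  inp := []
  out := [(17, 18, 19)]
  rq := [⟨0, [0], 1⟩]
  lab := [[], []]
  cert := [nat_lit 50331649, nat_lit 58720386, nat_lit 50331651]

/-- A kind of piece. -/
def k_sYU : KD where
  mask := 1033019919961908838424
  stub := [68, 69]
  n := 0
  inp := []
  out := [(67, 68, 69)]
  rq := [⟨0, [0], 1⟩]
  lab := [[], []]
  cert := [nat_lit 56668397796634799374337, nat_lit 66113274877562165659137, nat_lit 9444877083126423094786, nat_lit 37779075980344294376962,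
    nat_lit 66113274877562165657602, nat_lit 56668397796634799374339]

/-- A kind of piece. -/
def k_w10_10_U : KD where
  mask := 81844270099214452138767693875854303213254649331704
  stub := [13, 12, 164, 165]
  n := 8
  inp := [(13, 12)]
  out := [(163, 164, 165)]
  rq := [⟨0, [0], 1⟩]
  lab := [[0], []]
  cert := [nat_lit 5238033286349724936881132408054675405648297557229056, nat_lit 4489733030054760995081797307416182903623369032726529,
    nat_lit 5238033286349724936881132408054675405648297556704769, nat_lit 748300256469191172159412601950253969265272784682498,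
    nat_lit 2993166771409458054520272505002464687456785170693634, nat_lit 5238033286349724936881132408054675405648297556311554,
    nat_lit 5238033286349724936881132408054675405648297556508162, nat_lit 5238033286349724936881132408054675405648297556606466,
    nat_lit 5238033286349724936881132408054675405648297556655618, nat_lit 5238033286349724936881132408054675405648297556680194,
    nat_lit 5238033286349724936881132408054675405648297556692482, nat_lit 5238033286349724936881132408054675405648297556698626,
    nat_lit 5238033286349724936881132408054675405648297556701698, nat_lit 5238033286349724936881132408054675405648297556703234,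
    nat_lit 4489733030054760995081797307416182903623369032726531]

/-- A kind of piece. -/
def k_w10_10_Z : KD where
  mask := 20461201331316529574212930901770416387705482526712
  stub := [13, 12, 162, 161]
  n := 8
  inp := [(13, 12)]
  out := [(163, 162, 161)]
  rq := [⟨0, [0], 1⟩]
  lab := [[0], []]
  cert := [nat_lit 1309516885204257892749627577713306648813150881709568, nat_lit 561216628909293950950292477074814146788222357207041,
    nat_lit 1309516885204257892749627577713306648813150881185281, nat_lit 187083627734124451569197626187201289717394688179714,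
    nat_lit 748300256469191172159412601950253969265272784682498, nat_lit 1309516885204257892749627577713306648813150880792066,
    nat_lit 1309516885204257892749627577713306648813150880988674, nat_lit 1309516885204257892749627577713306648813150881086978,
    nat_lit 1309516885204257892749627577713306648813150881136130, nat_lit 1309516885204257892749627577713306648813150881160706,
    nat_lit 1309516885204257892749627577713306648813150881172994, nat_lit 1309516885204257892749627577713306648813150881179138,
    nat_lit 1309516885204257892749627577713306648813150881182210, nat_lit 1309516885204257892749627577713306648813150881183746,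
    nat_lit 561216628909293950950292477074814146788222357207043]

/-- A kind of piece. -/
def k_w10_12_Z : KD where
  mask := 87880190554876155145461343163411726885497503861827462250488
  stub := [13, 12, 194, 193]
  n := 0
  inp := [(13, 12)]
  out := [(195, 194, 193)]
  rq := [⟨0, [0], 1⟩]
  lab := [[0], []]
  cert := [nat_lit 5624332195512073929309525962458350520671840247156957584031232, nat_lit 2410407067136785669782134310671156505733558459939462037633025,
    nat_lit 5624332195512073929309525962458350520671840247156957583506945, nat_lit 803518062735103102683639685434862713105231265808579077602818,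
    nat_lit 3213925129123588515996582823946606616888535756482768330554882, nat_lit 5624332195512073929309525962458350520671840247156957583113730,
    nat_lit 5624332195512073929309525962458350520671840247156957583310338, nat_lit 5624332195512073929309525962458350520671840247156957583408642,
    nat_lit 5624332195512073929309525962458350520671840247156957583457794, nat_lit 5624332195512073929309525962458350520671840247156957583482370,
    nat_lit 5624332195512073929309525962458350520671840247156957583494658, nat_lit 5624332195512073929309525962458350520671840247156957583500802,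
    nat_lit 5624332195512073929309525962458350520671840247156957583503874, nat_lit 5624332195512073929309525962458350520671840247156957583505410,
    nat_lit 2410407067136785669782134310671156505733558459939462037633027]

/-- A kind of piece. -/
def k_w10_4_U : KD where
  mask := 1033019919961908854776
  stub := [13, 12, 68, 69]
  n := 32
  inp := [(13, 12)]
  out := [(67, 68, 69)]
  rq := [⟨0, [0], 1⟩]
  lab := [[0], []]
  cert := [nat_lit 66113274877562166705664, nat_lit 56668397796634799896577, nat_lit 66113274877562166181377, nat_lit 9444877083126423617026,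
    nat_lit 37779075980344294899202, nat_lit 66113274877562165788162, nat_lit 66113274877562165984770, nat_lit 66113274877562166083074,
    nat_lit 66113274877562166132226, nat_lit 66113274877562166156802, nat_lit 66113274877562166169090, nat_lit 66113274877562166175234,
    nat_lit 66113274877562166178306, nat_lit 66113274877562166179842, nat_lit 56668397796634799896579]

/-- A kind of piece. -/
def k_w10_4_Z : KD where
  mask := 258256668866107686904
  stub := [13, 12, 66, 65]
  n := 32
  inp := [(13, 12)]
  out := [(67, 66, 65)]
  rq := [⟨0, [0], 1⟩]
  lab := [[0], []]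
  cert := [nat_lit 16528426807430891961856, nat_lit 7083549726503525152769, nat_lit 16528426807430891437569, nat_lit 2361327358821955796482,
    nat_lit 9444877083126423617026, nat_lit 16528426807430891044354, nat_lit 16528426807430891240962, nat_lit 16528426807430891339266,
    nat_lit 16528426807430891388418, nat_lit 16528426807430891412994, nat_lit 16528426807430891425282, nat_lit 16528426807430891431426,
    nat_lit 16528426807430891434498, nat_lit 16528426807430891436034, nat_lit 7083549726503525152771]

/-- A kind of piece. -/
def k_w10_6_Z : KD where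
  mask := 1109203946753833847766863331320
  stub := [13, 12, 98, 97]
  n := 24
  inp := [(13, 12)]
  out := [(99, 98, 97)]
  rq := [⟨0, [0], 1⟩]
  lab := [[0], []]
  cert := [nat_lit 70989052592245366257079253204480, nat_lit 30423614414922382719047300544513, nat_lit 70989052592245366257079252680193,
    nat_lit 10141823781290354985237498822146, nat_lit 40565438186767860621158375751170, nat_lit 70989052592245366257079252286978,
    nat_lit 70989052592245366257079252483586, nat_lit 70989052592245366257079252581890, nat_lit 70989052592245366257079252631042,
    nat_lit 70989052592245366257079252655618, nat_lit 70989052592245366257079252667906, nat_lit 70989052592245366257079252674050,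
    nat_lit 70989052592245366257079252677122, nat_lit 70989052592245366257079252678658, nat_lit 30423614414922382719047300544515]

/-- A kind of piece. -/
def k_w10_8_Z : KD where
  mask := 4763994675901841738776520570220988350456
  stub := [13, 12, 130, 129]
  n := 16
  inp := [(13, 12)]
  out := [(131, 130, 129)]
  rq := [⟨0, [0], 1⟩]
  lab := [[0], []]
  cert := [nat_lit 304895659257717871281697316494143254429184, nat_lit 130668428938205808156703709874957368948737,
    nat_lit 304895659257717871281697316494143253904897, nat_lit 43558801462437131341825617986545267506690,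
    nat_lit 174227230360077501311761467240344260705794, nat_lit 304895659257717871281697316494143253511682,
    nat_lit 304895659257717871281697316494143253708290, nat_lit 304895659257717871281697316494143253806594,
    nat_lit 304895659257717871281697316494143253855746, nat_lit 304895659257717871281697316494143253880322,
    nat_lit 304895659257717871281697316494143253892610, nat_lit 304895659257717871281697316494143253898754,
    nat_lit 304895659257717871281697316494143253901826, nat_lit 304895659257717871281697316494143253903362,
    nat_lit 130668428938205808156703709874957368948739]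

/-- A kind of piece. -/
def k_w2_10_U : KD where
  mask := 81844270099214452138767693875854303213254649315384
  stub := [5, 4, 164, 165]
  n := -24
  inp := [(5, 4)]
  out := [(163, 164, 165)]
  rq := [⟨0, [0], 1⟩]
  lab := [[0], []]
  cert := [nat_lit 5238033286349724936881132408054675405648297556184576, nat_lit 4489733030054760995081797307416182903623369032204289,
    nat_lit 5238033286349724936881132408054675405648297556182529, nat_lit 748300256469191172159412601950253969265272784160258,
    nat_lit 2993166771409458054520272505002464687456785170171394, nat_lit 5238033286349724936881132408054675405648297556180994,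
    nat_lit 4489733030054760995081797307416182903623369032204291]

/-- A kind of piece. -/
def k_w2_10_Z : KD where
  mask := 20461201331316529574212930901770416387705482510392
  stub := [5, 4, 162, 161]
  n := -24
  inp := [(5, 4)]
  out := [(163, 162, 161)]
  rq := [⟨0, [0], 1⟩]
  lab := [[0], []]
  cert := [nat_lit 1309516885204257892749627577713306648813150880665088, nat_lit 561216628909293950950292477074814146788222356684801,
    nat_lit 1309516885204257892749627577713306648813150880663041, nat_lit 187083627734124451569197626187201289717394687657474,
    nat_lit 748300256469191172159412601950253969265272784160258, nat_lit 1309516885204257892749627577713306648813150880661506,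
    nat_lit 561216628909293950950292477074814146788222356684803]

/-- A kind of piece. -/
def k_w2_12_U : KD where
  mask := 351518463441116747226564498938133716361796432529316911775800
  stub := [5, 4, 196, 197]
  n := -32
  inp := [(5, 4)]
  out := [(195, 196, 197)]
  rq := [⟨0, [0], 1⟩]
  lab := [[0], []]
  cert := [nat_lit 22497181660231471822500127932040557847154971681876282353651200, nat_lit 19283256531856183562972736280253363832216689894658786807775233,
    nat_lit 22497181660231471822500127932040557847154971681876282353649153, nat_lit 3213925129123588515996582823946606616888535756482768330032642,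
    nat_lit 12855553394677530169248355377993582232021753719179525341840898, nat_lit 22497181660231471822500127932040557847154971681876282353647618,
    nat_lit 19283256531856183562972736280253363832216689894658786807775235]

/-- A kind of piece. -/
def k_w2_12_Z : KD where
  mask := 87880190554876155145461343163411726885497503861827462234168
  stub := [5, 4, 194, 193]
  n := -32
  inp := [(5, 4)]
  out := [(195, 194, 193)]
  rq := [⟨0, [0], 1⟩]
  lab := [[0], []]
  cert := [nat_lit 5624332195512073929309525962458350520671840247156957582986752, nat_lit 2410407067136785669782134310671156505733558459939462037110785,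
    nat_lit 5624332195512073929309525962458350520671840247156957582984705, nat_lit 803518062735103102683639685434862713105231265808579077080578,
    nat_lit 3213925129123588515996582823946606616888535756482768330032642, nat_lit 5624332195512073929309525962458350520671840247156957582983170,
    nat_lit 2410407067136785669782134310671156505733558459939462037110787]

/-- A kind of piece. -/
def k_w2_4_U : KD where
  mask := 1033019919961908838456
  stub := [5, 4, 68, 69]
  n := 0
  inp := [(5, 4)]
  out := [(67, 68, 69)]
  rq := [⟨0, [0], 1⟩]
  lab := [[0], []]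
  cert := [nat_lit 66113274877562165661184, nat_lit 56668397796634799374337, nat_lit 66113274877562165659137, nat_lit 9444877083126423094786,
    nat_lit 37779075980344294376962, nat_lit 66113274877562165657602, nat_lit 56668397796634799374339]

/-- A kind of piece. -/
def k_w2_4_Z : KD where
  mask := 258256668866107670584
  stub := [5, 4, 66, 65]
  n := 0
  inp := [(5, 4)]
  out := [(67, 66, 65)]
  rq := [⟨0, [0], 1⟩]
  lab := [[0], []]
  cert := [nat_lit 16528426807430890917376, nat_lit 7083549726503524630529, nat_lit 16528426807430890915329, nat_lit 2361327358821955274242,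
    nat_lit 9444877083126423094786, nat_lit 16528426807430890913794, nat_lit 7083549726503524630531]

/-- A kind of piece. -/
def k_w2_6_U : KD where
  mask := 4436786772352936026695709229112
  stub := [5, 4, 100, 101]
  n := -8
  inp := [(5, 4)]
  out := [(99, 100, 101)]
  rq := [⟨0, [0], 1⟩]
  lab := [[0], []]
  cert := [nat_lit 283954353430587905708525390663168, nat_lit 243388915253264922170493438525441, nat_lit 283954353430587905708525390661121,
    nat_lit 40565438186767860621158375228930, nat_lit 162259895808677883164841882945026, nat_lit 283954353430587905708525390659586,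
    nat_lit 243388915253264922170493438525443]

/-- A kind of piece. -/
def k_w2_6_Z : KD where
  mask := 1109203946753833847766863315000
  stub := [5, 4, 98, 97]
  n := -8
  inp := [(5, 4)]
  out := [(99, 98, 97)]
  rq := [⟨0, [0], 1⟩]
  lab := [[0], []]
  cert := [nat_lit 70989052592245366257079252160000, nat_lit 30423614414922382719047300022273, nat_lit 70989052592245366257079252157953,
    nat_lit 10141823781290354985237498299906, nat_lit 40565438186767860621158375228930, nat_lit 70989052592245366257079252156418,
    nat_lit 30423614414922382719047300022275]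

/-- A kind of piece. -/
def k_w2_8_U : KD where
  mask := 19055854086581257204238254082355253215288
  stub := [5, 4, 132, 133]
  n := -16
  inp := [(5, 4)]
  out := [(131, 132, 133)]
  rq := [⟨0, [0], 1⟩]
  lab := [[0], []]
  cert := [nat_lit 1219574661541200461071248261270736205778432, nat_lit 1045347431221688397946254654651550320820225,
    nat_lit 1219574661541200461071248261270736205776385, nat_lit 174227230360077501311761467240344260183554,
    nat_lit 696900945950638981191504864255540232979970, nat_lit 1219574661541200461071248261270736205774850,
    nat_lit 1045347431221688397946254654651550320820227]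

/-- A kind of piece. -/
def k_w2_8_Z : KD where
  mask := 4763994675901841738776520570220988334136
  stub := [5, 4, 130, 129]
  n := -16
  inp := [(5, 4)]
  out := [(131, 130, 129)]
  rq := [⟨0, [0], 1⟩]
  lab := [[0], []]
  cert := [nat_lit 304895659257717871281697316494143253384704, nat_lit 130668428938205808156703709874957368426497,
    nat_lit 304895659257717871281697316494143253382657, nat_lit 43558801462437131341825617986545266984450,
    nat_lit 174227230360077501311761467240344260183554, nat_lit 304895659257717871281697316494143253381122,
    nat_lit 130668428938205808156703709874957368426499]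

/-- A kind of piece. -/
def k_w4_10_U : KD where
  mask := 81844270099214452138767693875854303213254649315576
  stub := [7, 6, 164, 165]
  n := -16
  inp := [(7, 6)]
  out := [(163, 164, 165)]
  rq := [⟨0, [0], 1⟩]
  lab := [[0], []]
  cert := [nat_lit 5238033286349724936881132408054675405648297556196864, nat_lit 4489733030054760995081797307416182903623369032210433,
    nat_lit 5238033286349724936881132408054675405648297556188673, nat_lit 748300256469191172159412601950253969265272784166402,
    nat_lit 2993166771409458054520272505002464687456785170177538, nat_lit 5238033286349724936881132408054675405648297556182530,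
    nat_lit 5238033286349724936881132408054675405648297556185602, nat_lit 5238033286349724936881132408054675405648297556187138,
    nat_lit 4489733030054760995081797307416182903623369032210435]

/-- A kind of piece. -/
def k_w4_10_Z : KD where
  mask := 20461201331316529574212930901770416387705482510584
  stub := [7, 6, 162, 161]
  n := -16
  inp := [(7, 6)]
  out := [(163, 162, 161)]
  rq := [⟨0, [0], 1⟩]
  lab := [[0], []]
  cert := [nat_lit 1309516885204257892749627577713306648813150880677376, nat_lit 561216628909293950950292477074814146788222356690945,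
    nat_lit 1309516885204257892749627577713306648813150880669185, nat_lit 187083627734124451569197626187201289717394687663618,
    nat_lit 748300256469191172159412601950253969265272784166402, nat_lit 1309516885204257892749627577713306648813150880663042,
    nat_lit 1309516885204257892749627577713306648813150880666114, nat_lit 1309516885204257892749627577713306648813150880667650,
    nat_lit 561216628909293950950292477074814146788222356690947]

/-- A kind of piece. -/
def k_w4_12_Z : KD where
  mask := 87880190554876155145461343163411726885497503861827462234360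
  stub := [7, 6, 194, 193]
  n := -24
  inp := [(7, 6)]
  out := [(195, 194, 193)]
  rq := [⟨0, [0], 1⟩]
  lab := [[0], []]
  cert := [nat_lit 5624332195512073929309525962458350520671840247156957582999040, nat_lit 2410407067136785669782134310671156505733558459939462037116929,
    nat_lit 5624332195512073929309525962458350520671840247156957582990849, nat_lit 803518062735103102683639685434862713105231265808579077086722,
    nat_lit 3213925129123588515996582823946606616888535756482768330038786, nat_lit 5624332195512073929309525962458350520671840247156957582984706,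
    nat_lit 5624332195512073929309525962458350520671840247156957582987778, nat_lit 5624332195512073929309525962458350520671840247156957582989314,
    nat_lit 2410407067136785669782134310671156505733558459939462037116931]

/-- A kind of piece. -/
def k_w4_4_U : KD where
  mask := 1033019919961908838648
  stub := [7, 6, 68, 69]
  n := 8
  inp := [(7, 6)]
  out := [(67, 68, 69)]
  rq := [⟨0, [0], 1⟩]
  lab := [[0], []]
  cert := [nat_lit 66113274877562165673472, nat_lit 56668397796634799380481, nat_lit 66113274877562165665281, nat_lit 9444877083126423100930,
    nat_lit 37779075980344294383106, nat_lit 66113274877562165659138, nat_lit 66113274877562165662210, nat_lit 66113274877562165663746,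
    nat_lit 56668397796634799380483]

/-- A kind of piece. -/
def k_w4_4_Z : KD where
  mask := 258256668866107670776
  stub := [7, 6, 66, 65]
  n := 8
  inp := [(7, 6)]
  out := [(67, 66, 65)]
  rq := [⟨0, [0], 1⟩]
  lab := [[0], []]
  cert := [nat_lit 16528426807430890929664, nat_lit 7083549726503524636673, nat_lit 16528426807430890921473, nat_lit 2361327358821955280386,
    nat_lit 9444877083126423100930, nat_lit 16528426807430890915330, nat_lit 16528426807430890918402, nat_lit 16528426807430890919938,
    nat_lit 7083549726503524636675]

/-- A kind of piece. -/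
def k_w4_6_Z : KD where
  mask := 1109203946753833847766863315192
  stub := [7, 6, 98, 97]
  n := 0
  inp := [(7, 6)]
  out := [(99, 98, 97)]
  rq := [⟨0, [0], 1⟩]
  lab := [[0], []]
  cert := [nat_lit 70989052592245366257079252172288, nat_lit 30423614414922382719047300028417, nat_lit 70989052592245366257079252164097,
    nat_lit 10141823781290354985237498306050, nat_lit 40565438186767860621158375235074, nat_lit 70989052592245366257079252157954,
    nat_lit 70989052592245366257079252161026, nat_lit 70989052592245366257079252162562, nat_lit 30423614414922382719047300028419]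

/-- A kind of piece. -/
def k_w4_8_U : KD where
  mask := 19055854086581257204238254082355253215480
  stub := [7, 6, 132, 133]
  n := -8
  inp := [(7, 6)]
  out := [(131, 132, 133)]
  rq := [⟨0, [0], 1⟩]
  lab := [[0], []]
  cert := [nat_lit 1219574661541200461071248261270736205790720, nat_lit 1045347431221688397946254654651550320826369,
    nat_lit 1219574661541200461071248261270736205782529, nat_lit 174227230360077501311761467240344260189698,
    nat_lit 696900945950638981191504864255540232986114, nat_lit 1219574661541200461071248261270736205776386,
    nat_lit 1219574661541200461071248261270736205779458, nat_lit 1219574661541200461071248261270736205780994,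
    nat_lit 1045347431221688397946254654651550320826371]

/-- A kind of piece. -/
def k_w4_8_Z : KD where
  mask := 4763994675901841738776520570220988334328
  stub := [7, 6, 130, 129]
  n := -8
  inp := [(7, 6)]
  out := [(131, 130, 129)]
  rq := [⟨0, [0], 1⟩]
  lab := [[0], []]
  cert := [nat_lit 304895659257717871281697316494143253396992, nat_lit 130668428938205808156703709874957368432641,
    nat_lit 304895659257717871281697316494143253388801, nat_lit 43558801462437131341825617986545266990594,
    nat_lit 174227230360077501311761467240344260189698, nat_lit 304895659257717871281697316494143253382658,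
    nat_lit 304895659257717871281697316494143253385730, nat_lit 304895659257717871281697316494143253387266,
    nat_lit 130668428938205808156703709874957368432643]

/-- A kind of piece. -/
def k_w6_10_U : KD where
  mask := 81844270099214452138767693875854303213254649316344
  stub := [9, 8, 164, 165]
  n := -8
  inp := [(9, 8)]
  out := [(163, 164, 165)]
  rq := [⟨0, [0], 1⟩]
  lab := [[0], []]
  cert := [nat_lit 5238033286349724936881132408054675405648297556246016, nat_lit 4489733030054760995081797307416182903623369032235009,
    nat_lit 5238033286349724936881132408054675405648297556213249, nat_lit 748300256469191172159412601950253969265272784190978,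
    nat_lit 2993166771409458054520272505002464687456785170202114, nat_lit 5238033286349724936881132408054675405648297556188674,
    nat_lit 5238033286349724936881132408054675405648297556200962, nat_lit 5238033286349724936881132408054675405648297556207106,
    nat_lit 5238033286349724936881132408054675405648297556210178, nat_lit 5238033286349724936881132408054675405648297556211714,
    nat_lit 4489733030054760995081797307416182903623369032235011]

/-- A kind of piece. -/
def k_w6_10_Z : KD where
  mask := 20461201331316529574212930901770416387705482511352
  stub := [9, 8, 162, 161]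
  n := -8
  inp := [(9, 8)]
  out := [(163, 162, 161)]
  rq := [⟨0, [0], 1⟩]
  lab := [[0], []]
  cert := [nat_lit 1309516885204257892749627577713306648813150880726528, nat_lit 561216628909293950950292477074814146788222356715521,
    nat_lit 1309516885204257892749627577713306648813150880693761, nat_lit 187083627734124451569197626187201289717394687688194,
    nat_lit 748300256469191172159412601950253969265272784190978, nat_lit 1309516885204257892749627577713306648813150880669186,
    nat_lit 1309516885204257892749627577713306648813150880681474, nat_lit 1309516885204257892749627577713306648813150880687618,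
    nat_lit 1309516885204257892749627577713306648813150880690690, nat_lit 1309516885204257892749627577713306648813150880692226,
    nat_lit 561216628909293950950292477074814146788222356715523]

/-- A kind of piece. -/
def k_w6_12_U : KD where
  mask := 351518463441116747226564498938133716361796432529316911776760
  stub := [9, 8, 196, 197]
  n := -16
  inp := [(9, 8)]
  out := [(195, 196, 197)]
  rq := [⟨0, [0], 1⟩]
  lab := [[0], []]
  cert := [nat_lit 22497181660231471822500127932040557847154971681876282353712640, nat_lit 19283256531856183562972736280253363832216689894658786807805953,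
    nat_lit 22497181660231471822500127932040557847154971681876282353679873, nat_lit 3213925129123588515996582823946606616888535756482768330063362,
    nat_lit 12855553394677530169248355377993582232021753719179525341871618, nat_lit 22497181660231471822500127932040557847154971681876282353655298,
    nat_lit 22497181660231471822500127932040557847154971681876282353667586, nat_lit 22497181660231471822500127932040557847154971681876282353673730,
    nat_lit 22497181660231471822500127932040557847154971681876282353676802, nat_lit 22497181660231471822500127932040557847154971681876282353678338,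
    nat_lit 19283256531856183562972736280253363832216689894658786807805955]

/-- A kind of piece. -/
def k_w6_12_Z : KD where
  mask := 87880190554876155145461343163411726885497503861827462235128
  stub := [9, 8, 194, 193]
  n := -16
  inp := [(9, 8)]
  out := [(195, 194, 193)]
  rq := [⟨0, [0], 1⟩]
  lab := [[0], []]
  cert := [nat_lit 5624332195512073929309525962458350520671840247156957583048192, nat_lit 2410407067136785669782134310671156505733558459939462037141505,
    nat_lit 5624332195512073929309525962458350520671840247156957583015425, nat_lit 803518062735103102683639685434862713105231265808579077111298,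
    nat_lit 3213925129123588515996582823946606616888535756482768330063362, nat_lit 5624332195512073929309525962458350520671840247156957582990850,
    nat_lit 5624332195512073929309525962458350520671840247156957583003138, nat_lit 5624332195512073929309525962458350520671840247156957583009282,
    nat_lit 5624332195512073929309525962458350520671840247156957583012354, nat_lit 5624332195512073929309525962458350520671840247156957583013890,
    nat_lit 2410407067136785669782134310671156505733558459939462037141507]

/-- A kind of piece. -/
def k_w6_4_U : KD where
  mask := 1033019919961908839416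
  stub := [9, 8, 68, 69]
  n := 16
  inp := [(9, 8)]
  out := [(67, 68, 69)]
  rq := [⟨0, [0], 1⟩]
  lab := [[0], []]
  cert := [nat_lit 66113274877562165722624, nat_lit 56668397796634799405057, nat_lit 66113274877562165689857, nat_lit 9444877083126423125506,
    nat_lit 37779075980344294407682, nat_lit 66113274877562165665282, nat_lit 66113274877562165677570, nat_lit 66113274877562165683714,
    nat_lit 66113274877562165686786, nat_lit 66113274877562165688322, nat_lit 56668397796634799405059]

/-- A kind of piece. -/
def k_w6_4_Z : KD where
  mask := 258256668866107671544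
  stub := [9, 8, 66, 65]
  n := 16
  inp := [(9, 8)]
  out := [(67, 66, 65)]
  rq := [⟨0, [0], 1⟩]
  lab := [[0], []]
  cert := [nat_lit 16528426807430890978816, nat_lit 7083549726503524661249, nat_lit 16528426807430890946049, nat_lit 2361327358821955304962,
    nat_lit 9444877083126423125506, nat_lit 16528426807430890921474, nat_lit 16528426807430890933762, nat_lit 16528426807430890939906,
    nat_lit 16528426807430890942978, nat_lit 16528426807430890944514, nat_lit 7083549726503524661251]

/-- A kind of piece. -/
def k_w6_6_U : KD where
  mask := 4436786772352936026695709230072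
  stub := [9, 8, 100, 101]
  n := 8
  inp := [(9, 8)]
  out := [(99, 100, 101)]
  rq := [⟨0, [0], 1⟩]
  lab := [[0], []]
  cert := [nat_lit 283954353430587905708525390724608, nat_lit 243388915253264922170493438556161, nat_lit 283954353430587905708525390691841,
    nat_lit 40565438186767860621158375259650, nat_lit 162259895808677883164841882975746, nat_lit 283954353430587905708525390667266,
    nat_lit 283954353430587905708525390679554, nat_lit 283954353430587905708525390685698, nat_lit 283954353430587905708525390688770,
    nat_lit 283954353430587905708525390690306, nat_lit 243388915253264922170493438556163]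

/-- A kind of piece. -/
def k_w6_6_Z : KD where
  mask := 1109203946753833847766863315960
  stub := [9, 8, 98, 97]
  n := 8
  inp := [(9, 8)]
  out := [(99, 98, 97)]
  rq := [⟨0, [0], 1⟩]
  lab := [[0], []]
  cert := [nat_lit 70989052592245366257079252221440, nat_lit 30423614414922382719047300052993, nat_lit 70989052592245366257079252188673,
    nat_lit 10141823781290354985237498330626, nat_lit 40565438186767860621158375259650, nat_lit 70989052592245366257079252164098,
    nat_lit 70989052592245366257079252176386, nat_lit 70989052592245366257079252182530, nat_lit 70989052592245366257079252185602,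
    nat_lit 70989052592245366257079252187138, nat_lit 30423614414922382719047300052995]

/-- A kind of piece. -/
def k_w6_8_Z : KD where
  mask := 4763994675901841738776520570220988335096
  stub := [9, 8, 130, 129]
  n := 0
  inp := [(9, 8)]
  out := [(131, 130, 129)]
  rq := [⟨0, [0], 1⟩]
  lab := [[0], []]
  cert := [nat_lit 304895659257717871281697316494143253446144, nat_lit 130668428938205808156703709874957368457217,
    nat_lit 304895659257717871281697316494143253413377, nat_lit 43558801462437131341825617986545267015170,
    nat_lit 174227230360077501311761467240344260214274, nat_lit 304895659257717871281697316494143253388802,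
    nat_lit 304895659257717871281697316494143253401090, nat_lit 304895659257717871281697316494143253407234,
    nat_lit 304895659257717871281697316494143253410306, nat_lit 304895659257717871281697316494143253411842,
    nat_lit 130668428938205808156703709874957368457219]

/-- A kind of piece. -/
def k_w8_10_U : KD where
  mask := 81844270099214452138767693875854303213254649319416
  stub := [11, 10, 164, 165]
  n := 0
  inp := [(11, 10)]
  out := [(163, 164, 165)]
  rq := [⟨0, [0], 1⟩]
  lab := [[0], []]
  cert := [nat_lit 5238033286349724936881132408054675405648297556442624, nat_lit 4489733030054760995081797307416182903623369032333313,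
    nat_lit 5238033286349724936881132408054675405648297556311553, nat_lit 748300256469191172159412601950253969265272784289282,
    nat_lit 2993166771409458054520272505002464687456785170300418, nat_lit 5238033286349724936881132408054675405648297556213250,
    nat_lit 5238033286349724936881132408054675405648297556262402, nat_lit 5238033286349724936881132408054675405648297556286978,
    nat_lit 5238033286349724936881132408054675405648297556299266, nat_lit 5238033286349724936881132408054675405648297556305410,
    nat_lit 5238033286349724936881132408054675405648297556308482, nat_lit 5238033286349724936881132408054675405648297556310018,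
    nat_lit 4489733030054760995081797307416182903623369032333315]

/-- A kind of piece. -/
def k_w8_10_Z : KD where
  mask := 20461201331316529574212930901770416387705482514424
  stub := [11, 10, 162, 161]
  n := 0
  inp := [(11, 10)]
  out := [(163, 162, 161)]
  rq := [⟨0, [0], 1⟩]
  lab := [[0], []]
  cert := [nat_lit 1309516885204257892749627577713306648813150880923136, nat_lit 561216628909293950950292477074814146788222356813825,
    nat_lit 1309516885204257892749627577713306648813150880792065, nat_lit 187083627734124451569197626187201289717394687786498,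
    nat_lit 748300256469191172159412601950253969265272784289282, nat_lit 1309516885204257892749627577713306648813150880693762,
    nat_lit 1309516885204257892749627577713306648813150880742914, nat_lit 1309516885204257892749627577713306648813150880767490,
    nat_lit 1309516885204257892749627577713306648813150880779778, nat_lit 1309516885204257892749627577713306648813150880785922,
    nat_lit 1309516885204257892749627577713306648813150880788994, nat_lit 1309516885204257892749627577713306648813150880790530,
    nat_lit 561216628909293950950292477074814146788222356813827]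

/-- A kind of piece. -/
def k_w8_12_U : KD where
  mask := 351518463441116747226564498938133716361796432529316911779832
  stub := [11, 10, 196, 197]
  n := -8
  inp := [(11, 10)]
  out := [(195, 196, 197)]
  rq := [⟨0, [0], 1⟩]
  lab := [[0], []]
  cert := [nat_lit 22497181660231471822500127932040557847154971681876282353909248, nat_lit 19283256531856183562972736280253363832216689894658786807904257,
    nat_lit 22497181660231471822500127932040557847154971681876282353778177, nat_lit 3213925129123588515996582823946606616888535756482768330161666,
    nat_lit 12855553394677530169248355377993582232021753719179525341969922, nat_lit 22497181660231471822500127932040557847154971681876282353679874,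
    nat_lit 22497181660231471822500127932040557847154971681876282353729026, nat_lit 22497181660231471822500127932040557847154971681876282353753602,
    nat_lit 22497181660231471822500127932040557847154971681876282353765890, nat_lit 22497181660231471822500127932040557847154971681876282353772034,
    nat_lit 22497181660231471822500127932040557847154971681876282353775106, nat_lit 22497181660231471822500127932040557847154971681876282353776642,
    nat_lit 19283256531856183562972736280253363832216689894658786807904259]

/-- A kind of piece. -/
def k_w8_12_Z : KD where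
  mask := 87880190554876155145461343163411726885497503861827462238200
  stub := [11, 10, 194, 193]
  n := -8
  inp := [(11, 10)]
  out := [(195, 194, 193)]
  rq := [⟨0, [0], 1⟩]
  lab := [[0], []]
  cert := [nat_lit 5624332195512073929309525962458350520671840247156957583244800, nat_lit 2410407067136785669782134310671156505733558459939462037239809,
    nat_lit 5624332195512073929309525962458350520671840247156957583113729, nat_lit 803518062735103102683639685434862713105231265808579077209602,
    nat_lit 3213925129123588515996582823946606616888535756482768330161666, nat_lit 5624332195512073929309525962458350520671840247156957583015426,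
    nat_lit 5624332195512073929309525962458350520671840247156957583064578, nat_lit 5624332195512073929309525962458350520671840247156957583089154,
    nat_lit 5624332195512073929309525962458350520671840247156957583101442, nat_lit 5624332195512073929309525962458350520671840247156957583107586,
    nat_lit 5624332195512073929309525962458350520671840247156957583110658, nat_lit 5624332195512073929309525962458350520671840247156957583112194,
    nat_lit 2410407067136785669782134310671156505733558459939462037239811]

/-- A kind of piece. -/
def k_w8_4_U : KD where
  mask := 1033019919961908842488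
  stub := [11, 10, 68, 69]
  n := 24
  inp := [(11, 10)]
  out := [(67, 68, 69)]
  rq := [⟨0, [0], 1⟩]
  lab := [[0], []]
  cert := [nat_lit 66113274877562165919232, nat_lit 56668397796634799503361, nat_lit 66113274877562165788161, nat_lit 9444877083126423223810,
    nat_lit 37779075980344294505986, nat_lit 66113274877562165689858, nat_lit 66113274877562165739010, nat_lit 66113274877562165763586,
    nat_lit 66113274877562165775874, nat_lit 66113274877562165782018, nat_lit 66113274877562165785090, nat_lit 66113274877562165786626,
    nat_lit 56668397796634799503363]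

/-- A kind of piece. -/
def k_w8_4_Z : KD where
  mask := 258256668866107674616
  stub := [11, 10, 66, 65]
  n := 24
  inp := [(11, 10)]
  out := [(67, 66, 65)]
  rq := [⟨0, [0], 1⟩]
  lab := [[0], []]
  cert := [nat_lit 16528426807430891175424, nat_lit 7083549726503524759553, nat_lit 16528426807430891044353, nat_lit 2361327358821955403266,
    nat_lit 9444877083126423223810, nat_lit 16528426807430890946050, nat_lit 16528426807430890995202, nat_lit 16528426807430891019778,
    nat_lit 16528426807430891032066, nat_lit 16528426807430891038210, nat_lit 16528426807430891041282, nat_lit 16528426807430891042818,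
    nat_lit 7083549726503524759555]

/-- A kind of piece. -/
def k_w8_6_U : KD where
  mask := 4436786772352936026695709233144
  stub := [11, 10, 100, 101]
  n := 16
  inp := [(11, 10)]
  out := [(99, 100, 101)]
  rq := [⟨0, [0], 1⟩]
  lab := [[0], []]
  cert := [nat_lit 283954353430587905708525390921216, nat_lit 243388915253264922170493438654465, nat_lit 283954353430587905708525390790145,
    nat_lit 40565438186767860621158375357954, nat_lit 162259895808677883164841883074050, nat_lit 283954353430587905708525390691842,
    nat_lit 283954353430587905708525390740994, nat_lit 283954353430587905708525390765570, nat_lit 283954353430587905708525390777858,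
    nat_lit 283954353430587905708525390784002, nat_lit 283954353430587905708525390787074, nat_lit 283954353430587905708525390788610,
    nat_lit 243388915253264922170493438654467]

/-- A kind of piece. -/
def k_w8_6_Z : KD where
  mask := 1109203946753833847766863319032
  stub := [11, 10, 98, 97]
  n := 16
  inp := [(11, 10)]
  out := [(99, 98, 97)]
  rq := [⟨0, [0], 1⟩]
  lab := [[0], []]
  cert := [nat_lit 70989052592245366257079252418048, nat_lit 30423614414922382719047300151297, nat_lit 70989052592245366257079252286977,
    nat_lit 10141823781290354985237498428930, nat_lit 40565438186767860621158375357954, nat_lit 70989052592245366257079252188674,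
    nat_lit 70989052592245366257079252237826, nat_lit 70989052592245366257079252262402, nat_lit 70989052592245366257079252274690,
    nat_lit 70989052592245366257079252280834, nat_lit 70989052592245366257079252283906, nat_lit 70989052592245366257079252285442,
    nat_lit 30423614414922382719047300151299]

/-- A kind of piece. -/
def k_w8_8_Z : KD where
  mask := 4763994675901841738776520570220988338168
  stub := [11, 10, 130, 129]
  n := 8
  inp := [(11, 10)]
  out := [(131, 130, 129)]
  rq := [⟨0, [0], 1⟩]
  lab := [[0], []]
  cert := [nat_lit 304895659257717871281697316494143253642752, nat_lit 130668428938205808156703709874957368555521,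
    nat_lit 304895659257717871281697316494143253511681, nat_lit 43558801462437131341825617986545267113474,
    nat_lit 174227230360077501311761467240344260312578, nat_lit 304895659257717871281697316494143253413378,
    nat_lit 304895659257717871281697316494143253462530, nat_lit 304895659257717871281697316494143253487106,
    nat_lit 304895659257717871281697316494143253499394, nat_lit 304895659257717871281697316494143253505538,
    nat_lit 304895659257717871281697316494143253508610, nat_lit 304895659257717871281697316494143253510146,
    nat_lit 130668428938205808156703709874957368555523]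

/-- A kind of piece. -/
def k_xd : KD where
  mask := 131074
  stub := []
  n := -8
  inp := []
  out := []
  rq := []
  lab := [[]]
  cert := [nat_lit 8388736]

/-- A kind of piece. -/
def k_y3 : KD where
  mask := 14
  stub := [3, 2]
  n := 8
  inp := [(3, 2)]
  out := []
  rq := []
  lab := [[]]
  cert := [nat_lit 896]

/-- A kind of piece. -/
def k_yd : KD where
  mask := 6
  stub := []
  n := 8
  inp := []
  out := []
  rq := []
  lab := [[]]
  cert := [nat_lit 384]

/-- All kinds. -/
def kinds : List KD :=
  [k_cX, k_cY, k_dX, k_hX, k_hY, k_jX, k_jY, k_sX, k_sYU, k_w10_10_U, k_w10_10_Z, k_w10_12_Z, k_w10_4_U, k_w10_4_Z, k_w10_6_Z, k_w10_8_Z, k_w2_10_U,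
    k_w2_10_Z, k_w2_12_U, k_w2_12_Z, k_w2_4_U, k_w2_4_Z, k_w2_6_U, k_w2_6_Z, k_w2_8_U, k_w2_8_Z, k_w4_10_U, k_w4_10_Z, k_w4_12_Z, k_w4_4_U, k_w4_4_Z,
    k_w4_6_Z, k_w4_8_U, k_w4_8_Z, k_w6_10_U, k_w6_10_Z, k_w6_12_U, k_w6_12_Z, k_w6_4_U, k_w6_4_Z, k_w6_6_U, k_w6_6_Z, k_w6_8_Z, k_w8_10_U, k_w8_10_Z,
    k_w8_12_U, k_w8_12_Z, k_w8_4_U, k_w8_4_Z, k_w8_6_U, k_w8_6_Z, k_w8_8_Z, k_xd, k_y3, k_yd]

/-- A tile. -/
def t_EMPTY : TL where
  cm := nat_lit 0x0
  pP := []
  pQ := []
  sN := 0
  sE := 0
  sS := 0
  sW := 0
  st := false

/-- A tile. -/
def t_START : TL where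
  cm := nat_lit 0x40000000000000001fc0000000000000001000000000000000001000000000000000001000000000000000001000000000000000001000000000000000001000000000000000001100000000000000001f000000000000000000000000000000000000000000000000000000000000000000000000000000000000000000000000000000000000000000000000000000000000000000000000000000000000000000000000000000000000000000000000000000000000000000000000000000000000000000000000000000000000000000000000000000000000000000000000000000000000000000000000000000000000000000000000000000000000000000000000000000000000000000000000000000000000000000000000000000000000000000000000000000000000000000000000000000000000000000000000000000000000000000000000000000000000000000000000000000000000000000000000000000000000000000000000000000000000000000000000000000000000000000000000000000000000000000000000000000000000000000000000000000000000000000000000000000000000000000000000000000000000000000000000000000000000000000000000000000000000000000000000000000000000000000000000000000000000000000000000000000000000000000000000000000000000000000000000000000000000000000000000000000000000000000000000000000000000000000000000000000000000000000000000000000000000000000000000000000100000000000000000100000000000000001b0000000000000000000000000000000000000000000000000000000000000000000000000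
  pP := [⟨7, 51, 63, false, true⟩, ⟨24, 39, 82, true, false⟩, ⟨29, 47, 90, false, false⟩, ⟨3, 23, 24, false, false⟩, ⟨54, 26, 24, false, false⟩]
  pQ := [⟨8, 52, 79, false, false⟩, ⟨41, 36, 73, true, true⟩, ⟨4, 24, 23, false, false⟩, ⟨52, 27, 23, false, false⟩]
  sN := 0
  sE := 0
  sS := 1
  sW := 0
  st := true

/-- A tile. -/
def t_VUP : TL where
  cm := nat_lit 0x40004000000000007fc007c00000000000400004000000000000400004000000000000400004000000000000400004000000000000400004000000000007c000040000000000040000040000000001041000040000000001041000040000000001fff000040000000000208000040000000007fbfc01fc0000000004110401000000000004110401000000000004000401000000000007c007c1000000000000400041000000000000400041000000000000400041000000000000400041000000000000400041000000000000400041f0000000000040004010000000000040004010000000000040004010000000007fc0007f1000000000400000011000000000400000011000000000400000011000000000400000011000000000400000011000000000400000011f00000000400000010100000000400000010100000000400000010140000000c0000001f1700000000000000011c0000000000000001140000000000000001140000000000000001140000000000000001140000000000000001f7c00000000000000000400000000000000000400000000000000000400000000000000000400000000000000000400000000000000007c0000000000000000400000000000000000400000000000000000400000000000000000400000000000000000400000000000000000400000000000000000400000000000000000400000000000000000400000000000000000400000000000000000400000000000000007c00000000000000004000000000000000004000000000000000004000000000000000004006db6d006000000040000001001b6db6db5b6db6db00000000004000000000000000007c0000000000000000040000000000000000040000000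
  pP := [⟨0, 35, 48, true, false⟩, ⟨6, 65, 64, true, true⟩, ⟨24, 37, 22, true, false⟩, ⟨19, 47, 30, false, false⟩, ⟨22, 43, 42, false, false⟩,
    ⟨17, 39, 58, true, false⟩, ⟨16, 43, 68, true, false⟩, ⟨28, 51, 78, false, false⟩, ⟨20, 47, 90, false, false⟩, ⟨23, 39, 48, true, false⟩,
    ⟨17, 43, 54, true, false⟩, ⟨27, 49, 64, true, false⟩, ⟨21, 53, 74, true, false⟩, ⟨17, 87, 54, false, false⟩, ⟨34, 79, 64, false, false⟩,
    ⟨20, 69, 74, true, false⟩, ⟨23, 71, 84, false, false⟩, ⟨38, 63, 90, false, false⟩, ⟨3, 23, 24, false, false⟩, ⟨54, 26, 24, false, false⟩,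
    ⟨54, 29, 24, false, false⟩, ⟨54, 32, 24, false, false⟩, ⟨54, 35, 24, false, false⟩, ⟨54, 38, 24, false, false⟩, ⟨54, 41, 24, false, false⟩,
    ⟨54, 44, 24, false, false⟩, ⟨54, 47, 24, false, false⟩, ⟨54, 50, 24, false, false⟩, ⟨54, 55, 24, false, false⟩, ⟨54, 58, 24, false, false⟩,
    ⟨54, 61, 24, false, false⟩, ⟨54, 64, 24, false, false⟩, ⟨54, 67, 24, false, false⟩, ⟨54, 70, 24, false, false⟩, ⟨54, 73, 24, false, false⟩,
    ⟨54, 76, 24, false, false⟩, ⟨54, 79, 24, false, false⟩, ⟨54, 82, 24, false, false⟩, ⟨54, 84, 25, false, false⟩, ⟨54, 25, 26, false, false⟩,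
    ⟨54, 28, 26, false, false⟩, ⟨54, 31, 26, false, false⟩, ⟨54, 34, 26, false, false⟩, ⟨54, 37, 26, false, false⟩, ⟨54, 40, 26, false, false⟩]
  pQ := [⟨1, 32, 49, true, false⟩, ⟨5, 70, 63, false, true⟩, ⟨21, 50, 5, false, true⟩, ⟨39, 34, 13, true, true⟩, ⟨13, 30, 25, true, true⟩,
    ⟨30, 46, 31, false, true⟩, ⟨21, 52, 41, false, true⟩, ⟨48, 56, 51, false, true⟩, ⟨50, 40, 61, true, true⟩, ⟨13, 34, 73, true, true⟩,
    ⟨20, 52, 45, false, false⟩, ⟨30, 56, 37, false, true⟩, ⟨50, 60, 47, false, true⟩, ⟨48, 66, 57, false, true⟩, ⟨20, 74, 51, true, false⟩,
    ⟨51, 70, 47, true, true⟩, ⟨48, 82, 57, false, true⟩, ⟨21, 58, 67, true, true⟩, ⟨33, 54, 73, true, true⟩, ⟨4, 24, 23, false, false⟩,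
    ⟨52, 27, 23, false, false⟩, ⟨52, 30, 23, false, false⟩, ⟨52, 33, 23, false, false⟩, ⟨52, 36, 23, false, false⟩, ⟨52, 39, 23, false, false⟩,
    ⟨52, 42, 23, false, false⟩, ⟨52, 45, 23, false, false⟩, ⟨52, 48, 23, false, false⟩, ⟨52, 51, 23, false, false⟩, ⟨52, 56, 23, false, false⟩,
    ⟨52, 59, 23, false, false⟩, ⟨52, 62, 23, false, false⟩, ⟨52, 65, 23, false, false⟩, ⟨52, 68, 23, false, false⟩, ⟨52, 71, 23, false, false⟩,
    ⟨52, 74, 23, false, false⟩, ⟨52, 77, 23, false, false⟩, ⟨52, 80, 23, false, false⟩, ⟨52, 83, 23, false, false⟩, ⟨52, 85, 24, false, false⟩,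
    ⟨52, 26, 25, false, false⟩, ⟨52, 29, 25, false, false⟩, ⟨52, 32, 25, false, false⟩, ⟨52, 35, 25, false, false⟩, ⟨52, 38, 25, false, false⟩,
    ⟨52, 41, 25, false, false⟩]
  sN := 1
  sE := 1
  sS := 2
  sW := 0
  st := false

/-- A tile. -/
def t_VUQ : TL where
  cm := nat_lit 0x400040000000000007c0007fc0000000000400000040000000000400000040000000000400000040000000000400000040000000000400000040000000000400000040000000000400000040000000000400000040000000000400000040000000000400000040000000000400000040000000007c0000007ffc0000004000000000040000004000000000040000004000000000040000004000000000040000004000000000040000004000000000040000004000000000040000004000000000040000004000000000040000007c0000000004000000040000000004000001041000000007f00001041000000000100001fff000000000100000208000000000100007fbfc7ffc0000100004110440040000100004110440040000100004000440040000107ffc0007c007ffc010400000000000004010400000000000004010400000000000004010c00000000000007ff0000000000000000200000000000000007f8000000000000000410000000000000000410000000000000000400000000000000007c000000000000000040000000000000000040000000000000000040000000000000000040000000000000000040000000000000007fc00000000000000040000000000000000040000000000000000040000000000000000040000000000000000040000000000000000040000000000000000040000000000000000040000000000000000040000000000000000040000000000000000040000000000000007fc0000000000000004000000000000000004000000000000000004000000000000000004000000100000000004000000900000000004000000b00000000004000000000000000007c0000000000000000040000000000000000040000000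
  pP := [⟨1, 13, 34, true, true⟩, ⟨6, 63, 48, false, true⟩, ⟨24, 37, 22, true, false⟩, ⟨37, 43, 30, false, false⟩, ⟨41, 35, 42, false, false⟩,
    ⟨21, 31, 48, false, false⟩, ⟨18, 21, 54, false, false⟩, ⟨28, 13, 66, true, false⟩, ⟨11, 25, 78, true, false⟩, ⟨39, 33, 90, true, false⟩,
    ⟨21, 17, 54, true, false⟩, ⟨13, 29, 58, true, false⟩, ⟨13, 41, 42, true, true⟩, ⟨21, 45, 58, true, false⟩, ⟨21, 87, 54, false, false⟩,
    ⟨13, 75, 58, false, false⟩, ⟨16, 57, 68, true, false⟩, ⟨19, 67, 78, false, false⟩, ⟨20, 63, 90, false, false⟩, ⟨3, 23, 24, false, false⟩,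
    ⟨52, 26, 24, false, false⟩]
  pQ := [⟨0, 14, 37, true, true⟩, ⟨5, 62, 47, false, true⟩, ⟨21, 50, 5, false, true⟩, ⟨42, 34, 13, true, true⟩, ⟨15, 26, 25, true, true⟩,
    ⟨30, 18, 31, true, true⟩, ⟨14, 24, 49, false, true⟩, ⟨11, 30, 61, false, true⟩, ⟨15, 42, 73, false, true⟩, ⟨19, 34, 41, false, true⟩,
    ⟨18, 46, 45, false, true⟩, ⟨20, 58, 55, false, false⟩, ⟨20, 74, 51, true, false⟩, ⟨19, 70, 41, true, true⟩, ⟨21, 70, 51, false, true⟩,
    ⟨48, 54, 61, true, true⟩, ⟨13, 50, 73, true, true⟩, ⟨4, 24, 23, false, false⟩, ⟨54, 27, 23, false, false⟩]
  sN := 1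
  sE := 1
  sS := 2
  sW := 0
  st := false

/-- A tile. -/
def t_VL : TL where
  cm := nat_lit 0x4000000000000000007f00000000000000000100000000000000000100000000000000000100000000000000000100000000000000000100000000000000000100000000000000000100000000000000000100000000000000000100000000000000001f000000000000000010000000000000007fd00000000000000040500000000000000040507c00000000000040504400000000000047d744000000000000441144000007c0007fc411440000044000401411c40000044110407411740000044110401c11440000047fbfc0141f0400000402080014014400007c1fff00140177c000401041001401c0400040104101f7c14040004000400100414040004007c00100474040004004000100404040004004000100407c400040040001004004400040040001004004400040040001004004400040040001007ffc4000400400010000004000c0040001000007c000000400010000040000000401ff00000400000004010000000400000007c100000004000000004100000004000000005d0000000400000000510000000400000000510000007c00000000710000004000000001d100000040000000005100000040000000001f0000004000000000500000004000000001d000000040000000007000000040000000005000000040000000005000000040000000005c0000004000000000400000004000000007c00007ffc000000004000004000000000004000004000000000004000004000000000004000004000000000004000004000000000007fc0004000000000000040004000000000000346db4db6db6d0000005800400000010036db46db5b6db6db0000004000400000000000007c007c0000000000000400040000000000000400040000000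
  pP := [⟨5, 69, 34, false, false⟩, ⟨0, 51, 64, false, false⟩, ⟨6, 67, 62, false, false⟩, ⟨5, 27, 60, true, false⟩, ⟨23, 53, 22, true, false⟩,
    ⟨40, 61, 28, true, false⟩, ⟨17, 65, 42, false, false⟩, ⟨37, 57, 52, false, false⟩, ⟨20, 47, 74, false, false⟩, ⟨41, 41, 58, true, true⟩,
    ⟨39, 49, 52, true, true⟩, ⟨19, 87, 54, false, false⟩, ⟨23, 83, 66, false, false⟩, ⟨21, 79, 52, false, true⟩, ⟨18, 61, 42, true, true⟩,
    ⟨25, 47, 44, false, true⟩, ⟨12, 35, 56, false, false⟩, ⟨18, 37, 22, true, false⟩, ⟨11, 39, 34, false, false⟩, ⟨25, 35, 46, false, false⟩,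
    ⟨18, 31, 54, false, false⟩, ⟨17, 21, 66, true, false⟩, ⟨18, 31, 68, true, false⟩, ⟨16, 41, 80, false, false⟩, ⟨30, 33, 90, true, false⟩,
    ⟨3, 23, 24, false, false⟩, ⟨54, 26, 24, false, false⟩, ⟨54, 29, 24, false, false⟩, ⟨54, 32, 24, false, false⟩, ⟨54, 35, 24, false, false⟩,
    ⟨54, 38, 24, false, false⟩, ⟨54, 41, 24, false, false⟩, ⟨54, 44, 24, false, false⟩, ⟨54, 47, 24, false, false⟩, ⟨54, 50, 24, false, false⟩,
    ⟨54, 55, 24, false, false⟩, ⟨54, 58, 24, false, false⟩, ⟨54, 61, 24, false, false⟩, ⟨54, 64, 24, false, false⟩, ⟨54, 71, 24, false, false⟩,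
    ⟨54, 74, 24, false, false⟩, ⟨54, 77, 24, false, false⟩, ⟨54, 80, 24, false, false⟩, ⟨54, 83, 24, false, false⟩, ⟨54, 66, 25, false, false⟩,
    ⟨54, 25, 26, false, false⟩, ⟨54, 28, 26, false, false⟩, ⟨54, 31, 26, false, false⟩, ⟨54, 34, 26, false, false⟩, ⟨54, 37, 26, false, false⟩,
    ⟨54, 40, 26, false, false⟩, ⟨54, 43, 26, false, false⟩, ⟨54, 46, 26, false, false⟩, ⟨54, 49, 26, false, false⟩, ⟨54, 55, 26, false, false⟩,
    ⟨54, 58, 26, false, false⟩, ⟨54, 61, 26, false, false⟩, ⟨54, 64, 26, false, false⟩, ⟨54, 71, 26, false, false⟩]
  pQ := [⟨6, 68, 35, false, false⟩, ⟨1, 54, 65, false, false⟩, ⟨5, 66, 63, false, false⟩, ⟨6, 28, 61, true, false⟩, ⟨21, 66, 5, false, true⟩,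
    ⟨33, 70, 11, false, true⟩, ⟨30, 58, 17, true, true⟩, ⟨51, 48, 35, true, true⟩, ⟨13, 40, 47, true, true⟩, ⟨21, 34, 57, true, true⟩,
    ⟨24, 50, 61, false, true⟩, ⟨33, 58, 69, false, false⟩, ⟨20, 74, 51, true, false⟩, ⟨13, 70, 49, true, true⟩, ⟨29, 66, 55, true, true⟩,
    ⟨21, 74, 59, false, false⟩, ⟨13, 58, 47, true, false⟩, ⟨21, 34, 61, true, false⟩, ⟨36, 30, 53, true, false⟩, ⟨21, 38, 43, false, true⟩,
    ⟨21, 50, 5, false, true⟩, ⟨11, 34, 17, true, true⟩, ⟨13, 22, 29, true, true⟩, ⟨39, 18, 37, true, true⟩, ⟨13, 34, 49, false, true⟩,
    ⟨47, 38, 59, false, true⟩, ⟨13, 28, 63, true, true⟩, ⟨50, 44, 73, false, true⟩, ⟨4, 24, 23, false, false⟩, ⟨52, 27, 23, false, false⟩,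
    ⟨52, 30, 23, false, false⟩, ⟨52, 33, 23, false, false⟩, ⟨52, 36, 23, false, false⟩, ⟨52, 39, 23, false, false⟩, ⟨52, 42, 23, false, false⟩,
    ⟨52, 45, 23, false, false⟩, ⟨52, 48, 23, false, false⟩, ⟨52, 51, 23, false, false⟩, ⟨52, 56, 23, false, false⟩, ⟨52, 59, 23, false, false⟩,
    ⟨52, 62, 23, false, false⟩, ⟨52, 65, 23, false, false⟩, ⟨52, 72, 23, false, false⟩, ⟨52, 75, 23, false, false⟩, ⟨52, 78, 23, false, false⟩,
    ⟨52, 81, 23, false, false⟩, ⟨52, 84, 23, false, false⟩, ⟨52, 67, 24, false, false⟩, ⟨52, 26, 25, false, false⟩, ⟨52, 29, 25, false, false⟩,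
    ⟨52, 32, 25, false, false⟩, ⟨52, 35, 25, false, false⟩, ⟨52, 38, 25, false, false⟩, ⟨52, 41, 25, false, false⟩, ⟨52, 44, 25, false, false⟩,
    ⟨52, 47, 25, false, false⟩, ⟨52, 50, 25, false, false⟩, ⟨52, 56, 25, false, false⟩, ⟨52, 59, 25, false, false⟩, ⟨52, 62, 25, false, false⟩,
    ⟨52, 65, 25, false, false⟩, ⟨52, 72, 25, false, false⟩]
  sN := 2
  sE := 1
  sS := 1
  sW := 0
  st := false

/-- A tile. -/
def t_TURN : TL where
  cm := nat_lit 0xc000000000000000004000000000000000004000000000000000004000000000000000004000000000000000004000000000000000004000000000000000004000000000000000004000000000000000004000000000000000004000000000000000004000000000000000007ffc000000000000000004000000000000000004000000000000000004000000000000000004000000000000000004000000000000000004000000000000000004000000000000000004000000000000000004000000000000000004000000000000000004000000000000000007ffc000000000000000004000000000000000004000000000000000004000000000000000007ffc000000000000000004000005500000000004000005500000000004000000000000000007c0000000000000000040000000000000000040000000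
  pP := [⟨21, 37, 22, true, false⟩, ⟨13, 49, 26, true, false⟩, ⟨11, 61, 30, true, false⟩, ⟨11, 73, 42, true, false⟩, ⟨52, 23, 24, false, false⟩,
    ⟨52, 25, 24, false, false⟩, ⟨52, 27, 24, false, false⟩, ⟨52, 29, 24, false, false⟩]
  pQ := [⟨21, 50, 5, false, true⟩, ⟨19, 54, 9, false, true⟩, ⟨19, 66, 13, false, true⟩, ⟨11, 78, 25, false, true⟩, ⟨13, 90, 37, false, true⟩,
    ⟨54, 24, 23, false, false⟩, ⟨54, 26, 23, false, false⟩, ⟨54, 28, 23, false, false⟩, ⟨54, 30, 23, false, false⟩]
  sN := 1
  sE := 1
  sS := 0
  sW := 0
  st := false

/-- A tile. -/
def t_SELECT : TL where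
  cm := nat_lit 0x7fc00000000000000040400000000000001040401ffc000000001040401004000000003fc0401004000000000800401004c007ffc1ffc07ff0074004004100400000004004004100400000004004004100400000007ffc007f0040000000000000000040000000000000000040000000000000000040000000000000007fc0000000000000004000000000000000004000000000000000004000000000000000004000000000000000004000000000000000004000000000000000004000000000000000004000000000000000004000000000000000004000000000000000004000000000000000007c00000000000000000400000000000000000400000000000000000400000000000000000400000000000000000400000000000000000400000000000000000400000000000000000400000010000000000402aaaa90000000000402aaaab00000000004000000000000000007c0000000000000000040000000000000000040000000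
  pP := [⟨1, 51, 54, false, false⟩, ⟨21, 5, 54, true, false⟩, ⟨48, 15, 38, true, true⟩, ⟨50, 25, 54, true, false⟩, ⟨39, 33, 40, true, true⟩,
    ⟨24, 47, 34, false, true⟩, ⟨36, 41, 26, true, true⟩, ⟨19, 51, 14, false, true⟩, ⟨21, 43, 34, true, true⟩, ⟨30, 49, 50, true, false⟩,
    ⟨13, 61, 34, true, true⟩, ⟨13, 73, 50, true, false⟩, ⟨3, 23, 24, false, false⟩, ⟨52, 26, 24, false, false⟩, ⟨52, 28, 24, false, false⟩,
    ⟨52, 30, 24, false, false⟩, ⟨52, 32, 24, false, false⟩, ⟨52, 34, 24, false, false⟩, ⟨52, 36, 24, false, false⟩, ⟨52, 38, 24, false, false⟩,
    ⟨52, 40, 24, false, false⟩, ⟨52, 42, 24, false, false⟩, ⟨52, 44, 24, false, false⟩]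
  pQ := [⟨0, 50, 51, false, false⟩, ⟨16, 22, 41, false, true⟩, ⟨16, 32, 51, false, false⟩, ⟨32, 42, 43, false, true⟩, ⟨42, 50, 43, false, false⟩,
    ⟨13, 38, 31, true, false⟩, ⟨13, 34, 19, true, false⟩, ⟨22, 60, 47, false, false⟩, ⟨18, 66, 37, false, true⟩, ⟨18, 78, 47, false, false⟩,
    ⟨21, 90, 37, false, true⟩, ⟨4, 24, 23, false, false⟩, ⟨54, 27, 23, false, false⟩, ⟨54, 29, 23, false, false⟩, ⟨54, 31, 23, false, false⟩,
    ⟨54, 33, 23, false, false⟩, ⟨54, 35, 23, false, false⟩, ⟨54, 37, 23, false, false⟩, ⟨54, 39, 23, false, false⟩, ⟨54, 41, 23, false, false⟩,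
    ⟨54, 43, 23, false, false⟩, ⟨54, 45, 23, false, false⟩]
  sN := 1
  sE := 1
  sS := 0
  sW := 1
  st := false

/-- A tile. -/
def t_ENDE : TL where
  cm := nat_lit 0x7c00000000000000004400000000000000004400000000000000004400000000000000004400000000000000004000000000000000007fc000000000000000004000000000000000004000000000000000004000000000000000007000000000000000000000000000000000000000000000000000000000000000000000000000000000000000000000000000000000000000000000000000000000000000000000000000000000000000000000000000000000000000000000000000000000000000000000000000000000000000000000000000000000000000000000000000000000000000000000000000000000000000000000000000000000000000000000000000000000000000000000000000000000000000000000000000000000000000000000000000000000000000000000000000000000000000000000000000000000000000000000000000000000000000000000000000000000000000000000000000000000000000000000000000000000000000000000000000000000000000000000000000000000000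
  pP := [⟨2, 25, 44, false, true⟩, ⟨21, 5, 54, true, false⟩, ⟨40, 13, 58, true, false⟩]
  pQ := [⟨53, 26, 59, false, false⟩, ⟨25, 22, 41, false, true⟩, ⟨29, 10, 47, true, true⟩]
  sN := 0
  sE := 0
  sS := 0
  sW := 1
  st := false

/-- A tile. -/
def t_CROSS : TL where
  cm := nat_lit 0x4000000000000000007fc0000000000000000040000000000000007c400000000000000044400000000000000744400000000000000144400000000000000147c000000000000001c0000000000000000170000000000000000140000000000000001f000000000000000011400000000000000011700000000000000011c000000000000000114000000000000000114000000000000000174000000000000000104000000000000001f07c0000000000000100040000000000000100040000000000000100040000000000000100040000000000000100040000007ff0001f0007fc01fc401000100000040104401044100000040104401044100000040104401feff0000007ff7c4000820000000020404007ffc0000000ff404004104000000041407c041040000000417c04001000000000010404001fc00000001f04040000400000001004c41f0040000000100744110040000000100045d1004000000010004451004000000010004451004007ffc01f00447100400400400100445d0040040040010044510040040040010047c1007ffc007ff1004051000000000011007c5dfff00000001100047000100000001100045000100001fdf10004500010000105010005d000100041050100041000100041050100041f001000ff051f000401001000200710000401001007ff05d00004010010040105100007ff001004010410000000001004010410000000001ffc017c10000000000000014010000000000000014010000000000000014010000000000007ff7ff0000000000004000000000000000004000000100000000004000000100000000004000001b00000000004000000000000000007c0000000000000000040000000000000000040000000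
  pP := [⟨5, 35, 72, true, false⟩, ⟨5, 65, 38, true, false⟩, ⟨6, 59, 56, true, false⟩, ⟨0, 21, 22, true, true⟩, ⟨1, 45, 36, false, false⟩,
    ⟨1, 29, 42, false, true⟩, ⟨21, 47, 74, false, true⟩, ⟨40, 39, 70, false, true⟩, ⟨21, 29, 84, true, false⟩, ⟨17, 87, 34, false, true⟩,
    ⟨17, 83, 24, false, true⟩, ⟨47, 73, 34, false, false⟩, ⟨25, 39, 60, true, true⟩, ⟨23, 43, 52, true, true⟩, ⟨21, 47, 46, true, true⟩,
    ⟨19, 69, 46, true, false⟩, ⟨24, 73, 58, true, false⟩, ⟨48, 77, 46, false, true⟩, ⟨27, 63, 36, false, true⟩, ⟨13, 51, 46, false, false⟩,
    ⟨13, 39, 30, false, true⟩, ⟨47, 29, 26, false, true⟩, ⟨30, 27, 22, true, true⟩, ⟨20, 25, 12, true, true⟩, ⟨44, 29, 28, false, false⟩,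
    ⟨18, 25, 38, false, false⟩, ⟨22, 15, 50, true, false⟩, ⟨20, 25, 56, false, false⟩, ⟨24, 41, 16, false, true⟩, ⟨49, 37, 8, true, true⟩,
    ⟨21, 37, 16, true, true⟩, ⟨46, 47, 32, true, false⟩, ⟨10, 59, 44, true, false⟩, ⟨21, 25, 62, false, false⟩, ⟨29, 19, 46, false, true⟩,
    ⟨20, 9, 42, true, true⟩, ⟨21, 19, 38, false, true⟩, ⟨21, 21, 62, true, false⟩, ⟨41, 29, 66, true, false⟩, ⟨3, 23, 24, false, false⟩,
    ⟨54, 26, 24, false, false⟩]
  pQ := [⟨6, 36, 67, true, true⟩, ⟨6, 66, 39, true, false⟩, ⟨5, 64, 57, false, false⟩, ⟨1, 18, 21, true, true⟩, ⟨0, 44, 33, false, false⟩,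
    ⟨0, 28, 45, false, true⟩, ⟨25, 30, 87, true, false⟩, ⟨29, 42, 81, false, false⟩, ⟨20, 46, 71, false, true⟩, ⟨21, 74, 51, true, false⟩,
    ⟨48, 70, 41, true, false⟩, ⟨43, 66, 31, true, false⟩, ⟨21, 76, 21, false, true⟩, ⟨39, 56, 69, false, false⟩, ⟨30, 60, 63, false, false⟩,
    ⟨13, 86, 41, false, true⟩, ⟨34, 70, 49, true, true⟩, ⟨23, 52, 53, true, false⟩, ⟨45, 46, 43, true, false⟩, ⟨18, 34, 33, true, true⟩,
    ⟨17, 22, 43, true, false⟩, ⟨21, 32, 39, false, false⟩, ⟨22, 38, 25, false, true⟩, ⟨21, 38, 29, false, false⟩, ⟨16, 22, 25, true, false⟩,
    ⟨48, 12, 21, true, true⟩, ⟨13, 28, 33, false, true⟩, ⟨30, 12, 39, true, true⟩, ⟨35, 44, 25, false, false⟩, ⟨30, 34, 19, true, false⟩,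
    ⟨16, 54, 29, false, false⟩, ⟨11, 64, 27, false, true⟩, ⟨47, 76, 37, false, true⟩, ⟨22, 8, 49, true, true⟩, ⟨21, 22, 59, false, false⟩,
    ⟨21, 6, 55, true, false⟩, ⟨25, 38, 49, false, true⟩, ⟨30, 46, 55, false, true⟩, ⟨4, 24, 23, false, false⟩, ⟨52, 27, 23, false, false⟩]
  sN := 1
  sE := 1
  sS := 1
  sW := 1
  st := false

/-- A tile. -/
def t_BRANCH : TL where
  cm := nat_lit 0x4000000000000000007c0000000000000000040000000000000000040000000000000000040000000000000000040000000000000000040000000000000000040000000000000000040000000000000000040000000000000000040000000000000007fc0000000000000004000000000000000004000000000000000004000000000000000004000000000000000004000000000000000004000000000000000004000000000000000004000000000000000004000000000000000004000000000000000004000000000001ffc007c00000000001004000400000000001004110400000000001004110400000000001007fbfc00000000001000208000000000001001fff00000000000100104100000000000100104100000000000100004000000000000100007ff0001ffc0001000000100010040001f00000107f1004000010000010411004c07c100000104110074044100000114110004045d000001741f000404510000011c000007fc510001fd1400000000710001051400000001d100410514000000005100410514000000001f00ff05f7c0000000500020040040000001d007ff04004000000070040104004000000050040107ffc00000005004010000000000005c0401000000000000400401000000000007dffc01000000000004100001000000000004100001000000000004100001000000000007f0000100000000000000000100000000000000001f00000000000000001000000000000000001000000000000000001000000000000000001000000000000000001000000000000000001fc00000000000000000400000000000000000400000db00000000004000000000000000007c0000000000000000040000000000000000040000000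
  pP := [⟨5, 73, 38, false, false⟩, ⟨6, 45, 58, true, false⟩, ⟨0, 39, 46, false, false⟩, ⟨1, 57, 44, false, false⟩, ⟨21, 47, 74, false, true⟩,
    ⟨16, 43, 70, false, true⟩, ⟨36, 37, 60, true, true⟩, ⟨20, 47, 48, false, true⟩, ⟨21, 87, 34, false, true⟩, ⟨39, 79, 50, false, false⟩,
    ⟨16, 69, 46, false, false⟩, ⟨18, 59, 56, true, false⟩, ⟨48, 63, 48, false, true⟩, ⟨46, 45, 38, false, true⟩, ⟨20, 35, 26, false, true⟩,
    ⟨15, 33, 42, true, false⟩, ⟨30, 39, 30, true, true⟩, ⟨30, 33, 36, false, true⟩, ⟨23, 29, 52, false, false⟩, ⟨48, 19, 38, false, true⟩,
    ⟨18, 53, 24, false, true⟩, ⟨22, 43, 12, true, true⟩, ⟨30, 51, 6, false, true⟩, ⟨23, 49, 24, true, true⟩, ⟨48, 59, 18, true, true⟩,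
    ⟨29, 65, 34, true, false⟩, ⟨54, 23, 24, false, false⟩, ⟨54, 26, 24, false, false⟩, ⟨54, 29, 24, false, false⟩]
  pQ := [⟨6, 72, 39, false, false⟩, ⟨5, 50, 59, false, false⟩, ⟨1, 42, 47, false, false⟩, ⟨0, 56, 41, false, false⟩, ⟨21, 30, 87, true, false⟩,
    ⟨51, 46, 77, false, false⟩, ⟨13, 34, 65, true, false⟩, ⟨21, 74, 51, true, false⟩, ⟨24, 70, 47, true, false⟩, ⟨20, 62, 37, true, true⟩,
    ⟨48, 72, 39, false, true⟩, ⟨9, 56, 51, true, true⟩, ⟨17, 38, 55, true, false⟩, ⟨12, 28, 43, true, false⟩, ⟨21, 22, 43, true, false⟩,
    ⟨18, 38, 39, false, false⟩, ⟨40, 50, 33, false, true⟩, ⟨22, 22, 39, true, true⟩, ⟨20, 16, 49, true, false⟩, ⟨26, 12, 41, true, true⟩,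
    ⟨13, 56, 29, false, false⟩, ⟨31, 40, 23, true, false⟩, ⟨21, 34, 19, true, false⟩, ⟨27, 66, 35, false, false⟩, ⟨22, 76, 31, false, false⟩,
    ⟨21, 62, 21, true, true⟩, ⟨52, 24, 23, false, false⟩, ⟨52, 27, 23, false, false⟩, ⟨52, 30, 23, false, false⟩]
  sN := 1
  sE := 1
  sS := 1
  sW := 1
  st := false

/-- A tile. -/
def t_TOP : TL where
  cm := nat_lit 0x4000000000000000007c000000000000000004000000000000000004000000000000000004000000000000000004000000000000000004000000000000000004000000000000000004000000000000000004000000000000000004000000000000000007c000000000000000004000000000000000004000000000000000004000000000000000007c00000000000000000000000000000000000000000000000000000000000000000000000000000000000000000000000000000000000000000000000000000000000000000000000000000000000000000000000000000000000000000000000000000000000000000000000000000000000000000000000000000000000000000000000000000000000000000000000000000000000000000000000000000000000000000000000000000000000000000000000000000000000000000000000000000000000000000000000000000000000000000000000000000000000000000000000000000000000000000000000000000000000000000000000000000000000000000000000000000000000000000000000000000000000000000000000000000000000000000000000000000000000000000000000000000000000000000000000000000000000000000000000000000000000000000000000000000000000000000000000000000000000000000000000000000000000000000000000000000000000000000000000000000000000000000000000000000000000000000000000000000000000000000000000000000000000000000000000000000000000000000000000000000000000000000000000001b0000000000000000000000000000000000000000000000000000000000000000000000000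
  pP := [⟨53, 37, 76, false, false⟩, ⟨21, 47, 74, false, true⟩, ⟨17, 43, 70, false, true⟩, ⟨21, 39, 60, false, true⟩, ⟨54, 23, 24, false, false⟩,
    ⟨54, 26, 24, false, false⟩]
  pQ := [⟨2, 22, 75, true, false⟩, ⟨21, 30, 87, true, false⟩, ⟨48, 26, 77, true, false⟩, ⟨52, 24, 23, false, false⟩, ⟨52, 27, 23, false, false⟩]
  sN := 0
  sE := 0
  sS := 1
  sW := 0
  st := false

/-- A tile. -/
def t_ROWEND : TL where
  cm := nat_lit 0x1fc000000000000000104000000000000000104000000000000000104000000000000001f07000000000000001000000000000000001000000000000000001000000000000000001000000000000000000000000000000000000000000000000000000000000000000000000000000000000000000000000000000000000000000000000000000000000000000000000000000000000000000000000000000000000000000000000000000000000000000000000000000000000000000000000000000000000000000000000000000000000000000000000000000000000000000000000000000000000000000000000000000000000000000000000000000000000000000000000000000000000000000000000000000000000000000000000000000000000000000000000000000000000000000000000000000000000000000000000000000000000000000000000000000000000000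
  pP := [⟨2, 13, 34, true, true⟩, ⟨21, 25, 54, false, false⟩, ⟨30, 19, 38, false, true⟩]
  pQ := [⟨53, 32, 49, false, false⟩, ⟨21, 12, 37, true, true⟩, ⟨22, 8, 41, true, true⟩]
  sN := 0
  sE := 0
  sS := 0
  sW := 1
  st := false

/-- All tiles. -/
def tiles : List TL :=
  [t_EMPTY, t_START, t_VUP, t_VUQ, t_VL, t_TURN, t_SELECT, t_ENDE, t_CROSS, t_BRANCH, t_TOP, t_ROWEND]

end Pool.Agent.MP_79e5e2_lc

end

section

/-! The token game inside each tile. Player `true` is the prover, `false` the refuter. -/

namespace Pool.Agent.MP_79e5e2_lc

noncomputable section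

/-- Link cell on the eastern side. -/
def zE (X : Bool) : ℕ × ℕ := cond X (72, 34) (74, 36)
/-- Link cell on the western side. -/
def zW (X : Bool) : ℕ × ℕ := cond X (0, 34) (2, 36)
/-- Link cells on the southern side. -/
def zS (X s : Bool) : ℕ × ℕ := cond X (cond s (48, 74) (32, 74)) (cond s (46, 72) (30, 72))
/-- Link cells on the northern side. -/
def zN (X s : Bool) : ℕ × ℕ := cond X (cond s (48, 2) (32, 2)) (cond s (46, 0) (30, 0))

theorem off_zE (X : Bool) (a b : ℕ) : off (a, b) (zE X) = off (a + 1, b) (zW X) := by
  cases X <;> exact off_eq (by omega) rfl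

theorem off_zS (X s : Bool) (a b : ℕ) : off (a, b) (zS X s) = off (a, b + 1) (zN X s) := by
  cases X <;> cases s <;> exact off_eq rfl (by omega)

/-- No exit is accepted. -/
def no : ℕ × ℕ → List (ℕ × ℕ) → Bool := fun _ _ => false
/-- One exit is accepted. -/
def at1 (e : ℕ × ℕ) : ℕ × ℕ → List (ℕ × ℕ) → Bool := fun c _ => decide (c = e)
/-- Two exits are accepted. -/
def at2 (e e' : ℕ × ℕ) : ℕ × ℕ → List (ℕ × ℕ) → Bool :=
  fun c _ => decide (c = e) || decide (c = e')

/-- The upper tile of a variable. -/
def vu (o : Bool) : TL := cond o t_VUP t_VUQ

/-- State of the upper tile of a variable with value `b`. -/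
def PU (X o b : Bool) (m : List (ℕ × ℕ)) : Bool :=
  cond X (!b || (vu o).loc kinds X no m (zE X)) (b || (vu o).loc kinds X (at1 (zS X true)) m (zE X))

/-- State of the lower tile of a variable with value `b`. -/
def PL (X b : Bool) (m : List (ℕ × ℕ)) : Bool :=
  cond X (b || t_VL.loc kinds X no m (zE X))
    (cond b (t_VL.loc kinds X no m (zE X)) (t_VL.loc kinds X no m (zN X true)))

theorem f_start : ∀ X : Bool, (decide (0 < (t_START.ps X).length) &&
    (decide (0 < (t_START.kd kinds X 0).out.length) &&
    (decide ((t_START.kd kinds X 0).req 0 = ⟨0, [0], 1⟩) &&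
    ((t_START.kd kinds X 0).has (if X then 2 else 1) (t_START.kd kinds X 0).mask &&
    t_START.loc kinds X (at1 (zS X false)) [(0, 1)]
      (t_START.pos X 0 ((t_START.kd kinds X 0).kind.oz 0)))))) = true := by decide +kernel

theorem f_turn : ∀ X : Bool, t_TURN.loc kinds X (at1 (zE X)) [] (zN X false) = true := by
  decide +kernel

theorem f_own : ∀ X b : Bool, (vu X).loc kinds X
    (fun c m => decide (c = zS X b) && PU X X b m) [] (zN X false) = true := by decide +kernel

theorem f_opp : ∀ X : Bool, (vu (!X)).loc kinds X
    (fun c m => (decide (c = zS X false) && PU X (!X) false m) ||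
      (decide (c = zS X true) && PU X (!X) true m)) [] (zN X false) = true := by decide +kernel

theorem f_vl : ∀ X b : Bool, t_VL.loc kinds X
    (fun c m => decide (c = zS X false) && PL X b m) [] (zN X b) = true := by decide +kernel

theorem f_sel1 : t_SELECT.loc kinds true (at2 (zN true false) (zE true)) [] (zW true) = true := by
  decide +kernel

theorem f_sel2 : t_SELECT.loc kinds false (at1 (zN false false)) [] (zW false) = true := by
  decide +kernel

theorem f_sel3 : t_SELECT.loc kinds false (at1 (zE false)) [] (zW false) = true := by
  decide +kernel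

theorem f_ende : t_ENDE.loc kinds true no [] (zW true) = true := by decide +kernel

theorem f_top : t_TOP.loc kinds false no [] (zS false false) = true := by decide +kernel

theorem f_cross1 : ∀ X : Bool, t_CROSS.loc kinds X (at1 (zN X false)) [] (zS X false) = true := by
  decide +kernel

theorem f_cross2 : ∀ X : Bool, t_CROSS.loc kinds X (at1 (zW X)) [] (zE X) = true := by
  decide +kernel

theorem f_br1 : t_BRANCH.loc kinds true (at1 (zN true false)) [] (zS true false) = true := by
  decide +kernel

theorem f_br2 : t_BRANCH.loc kinds true (at1 (zW true)) [] (zS true false) = true := by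
  decide +kernel

theorem f_br3 :
    t_BRANCH.loc kinds false (at2 (zN false false) (zW false)) [] (zS false false) = true := by
  decide +kernel

theorem f_br4 : ∀ X : Bool, t_BRANCH.loc kinds X (at1 (zW X)) [] (zE X) = true := by
  decide +kernel

end

end Pool.Agent.MP_79e5e2_lc

end

section

/-! Generated table of bounds and its verification. -/

namespace Pool.Agent.MP_79e5e2_lc

/-- Part of the table. -/
def tab0 : Tr :=
  (Tr.node (Tr.node (Tr.node (Tr.node (Tr.node (Tr.node (Tr.node Tr.leaf (nat_lit 51557503488) (nat_lit 0) Tr.leaf) (nat_lit 120276980224) (nat_lit 0) Tr.leaf) (nat_lit 257784095232) (nat_lit 3) 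
  (Tr.node (Tr.node Tr.leaf (nat_lit 532695556608) (nat_lit 7) Tr.leaf) (nat_lit 1082452423168) (nat_lit 7) Tr.leaf)) (nat_lit 2181964050944) (nat_lit 7) (Tr.node (Tr.node (Tr.node Tr.leaf (nat_lit 
  4381021913600) (nat_lit 15) Tr.leaf) (nat_lit 8779101979136) (nat_lit 31) Tr.leaf) (nat_lit 35167382098432) (nat_lit 31) (Tr.node Tr.leaf (nat_lit 1125917102502400) (nat_lit 0) Tr.leaf))) (nat_lit 
  1125951463424000) (nat_lit 0) (Tr.node (Tr.node (Tr.node (Tr.node Tr.leaf (nat_lit 1126020183296512) (nat_lit 0) Tr.leaf) (nat_lit 1126157690016768) (nat_lit 65539) Tr.leaf) (nat_lit 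
  1126432601872896) (nat_lit 65543) (Tr.node (Tr.node Tr.leaf (nat_lit 1126982324790272) (nat_lit 65539) Tr.leaf) (nat_lit 1128081870367232) (nat_lit 65543) Tr.leaf)) (nat_lit 1130280927835136) 
  (nat_lit 65551) (Tr.node (Tr.node (Tr.node Tr.leaf (nat_lit 1134679008295424) (nat_lit 65567) Tr.leaf) (nat_lit 1143475068421120) (nat_lit 65551) Tr.leaf) (nat_lit 1161067288414720) (nat_lit 65567) 
  (Tr.node Tr.leaf (nat_lit 1688867057106944) (nat_lit 0) Tr.leaf)))) (nat_lit 1970342034213376) (nat_lit 0) (Tr.node (Tr.node (Tr.node (Tr.node (Tr.node Tr.leaf (nat_lit 2251851370266625) (nat_lit 0) 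
  Tr.leaf) (nat_lit 2251920089743361) (nat_lit 0) Tr.leaf) (nat_lit 2252057630412800) (nat_lit 131079) (Tr.node (Tr.node Tr.leaf (nat_lit 2252332508319744) (nat_lit 131079) Tr.leaf) (nat_lit 
  2252882265186304) (nat_lit 131079) Tr.leaf)) (nat_lit 2253981776814080) (nat_lit 131079) (Tr.node (Tr.node (Tr.node Tr.leaf (nat_lit 3377716917370880) (nat_lit 0) Tr.leaf) (nat_lit 3940666870792192) 
  (nat_lit 0) Tr.leaf) (nat_lit 4222142385426432) (nat_lit 49152) (Tr.node Tr.leaf (nat_lit 4503719903824386) (nat_lit 0) Tr.leaf))) (nat_lit 4503857410543616) (nat_lit 3) (Tr.node (Tr.node (Tr.node 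
  (Tr.node Tr.leaf (nat_lit 4504132221737474) (nat_lit 0) Tr.leaf) (nat_lit 5629619810140672) (nat_lit 0) Tr.leaf) (nat_lit 7881316545137152) (nat_lit 0) (Tr.node Tr.leaf (nat_lit 7881385264087552) 
  (nat_lit 0) Tr.leaf)) (nat_lit 8444267103195136) (nat_lit 229377) (Tr.node (Tr.node (Tr.node Tr.leaf (nat_lit 8725741476321792) (nat_lit 0) Tr.leaf) (nat_lit 9007731949376512) (nat_lit 7) Tr.leaf) 
  (nat_lit 9009381217869824) (nat_lit 7) (Tr.node Tr.leaf (nat_lit 18015480994537472) (nat_lit 15) Tr.leaf))))) (nat_lit 36030979049201664) (nat_lit 31) (Tr.node (Tr.node (Tr.node (Tr.node (Tr.node 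
  (Tr.node Tr.leaf (nat_lit 146375766821642752) (nat_lit 0) Tr.leaf) (nat_lit 9225483116376818176) (nat_lit 0) Tr.leaf) (nat_lit 9225553485624970240) (nat_lit 536899584) (Tr.node (Tr.node Tr.leaf 
  (nat_lit 9227734916728031232) (nat_lit 536928256) Tr.leaf) (nat_lit 9227805284935733760) (nat_lit 0) Tr.leaf)) (nat_lit 9232238515818926592) (nat_lit 0) (Tr.node (Tr.node (Tr.node Tr.leaf (nat_lit 
  9232308885067077632) (nat_lit 536899584) Tr.leaf) (nat_lit 18448714415743238656) (nat_lit 0) Tr.leaf) (nat_lit 73788102211940708864) (nat_lit 1) (Tr.node Tr.leaf (nat_lit 73788102246300973568) 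
  (nat_lit 0) Tr.leaf))) (nat_lit 73788102315020976640) (nat_lit 7) (Tr.node (Tr.node (Tr.node (Tr.node Tr.leaf (nat_lit 73788102452527565312) (nat_lit 4295032835) Tr.leaf) (nat_lit 
  73788102727338889728) (nat_lit 31) Tr.leaf) (nat_lit 73788103277162338816) (nat_lit 4295032835) (Tr.node Tr.leaf (nat_lit 73788104376708047360) (nat_lit 4295032839) Tr.leaf)) (nat_lit 
  73788106575765383680) (nat_lit 4295032847) (Tr.node (Tr.node (Tr.node Tr.leaf (nat_lit 73788110973778866688) (nat_lit 4295032839) Tr.leaf) (nat_lit 73788119769905969664) (nat_lit 4295032847) 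
  Tr.leaf) (nat_lit 73792605914647557634) (nat_lit 0) (Tr.node Tr.leaf (nat_lit 110681590359360338448) (nat_lit 0) Tr.leaf)))) (nat_lit 110681590393720603136) (nat_lit 0) (Tr.node (Tr.node (Tr.node 
  (Tr.node (Tr.node Tr.leaf (nat_lit 110681590462440869392) (nat_lit 0) Tr.leaf) (nat_lit 129128334433070416384) (nat_lit 65537) Tr.leaf) (nat_lit 129128334467430944256) (nat_lit 0) (Tr.node (Tr.node 
  Tr.leaf (nat_lit 129128334536150684160) (nat_lit 0) Tr.leaf) (nat_lit 129128615908046337550) (nat_lit 0) Tr.leaf)) (nat_lit 147576204441046022657) (nat_lit 0) (Tr.node (Tr.node (Tr.node Tr.leaf 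
  (nat_lit 147576204509765499393) (nat_lit 0) Tr.leaf) (nat_lit 147576204647306168832) (nat_lit 8590065671) Tr.leaf) (nat_lit 147576204922184075776) (nat_lit 8590065671) (Tr.node Tr.leaf (nat_lit 
  221362054801617648144) (nat_lit 0) Tr.leaf))) (nat_lit 221362054835977912832) (nat_lit 0) (Tr.node (Tr.node (Tr.node (Tr.node Tr.leaf (nat_lit 221363180735884755456) (nat_lit 0) Tr.leaf) (nat_lit 
  221363180804604232192) (nat_lit 0) Tr.leaf) (nat_lit 221363180942144901632) (nat_lit 12885032967) (Tr.node Tr.leaf (nat_lit 258255542949036751376) (nat_lit 0) Tr.leaf)) (nat_lit 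
  258256668883304648193) (nat_lit 0) (Tr.node (Tr.node (Tr.node Tr.leaf (nat_lit 258256668952024124929) (nat_lit 0) Tr.leaf) (nat_lit 258256669364442701312) (nat_lit 15032516615) Tr.leaf) (nat_lit 
  276702287023821097472) (nat_lit 3221225472) (Tr.node Tr.leaf (nat_lit 276703413026841235968) (nat_lit 7516192768) Tr.leaf)))))) 

/-- Part of the table. -/
def tab1 : Tr :=
  (Tr.node (Tr.node (Tr.node (Tr.node (Tr.node (Tr.node (Tr.node Tr.leaf (nat_lit 276703413438152516096) (nat_lit 16106258439) Tr.leaf) (nat_lit 295152408899256123904) (nat_lit 7) Tr.leaf) (nat_lit 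
  295152409036762712576) (nat_lit 3) (Tr.node (Tr.node Tr.leaf (nat_lit 295152409311574036992) (nat_lit 31) Tr.leaf) (nat_lit 295153534799162177024) (nat_lit 0) Tr.leaf)) (nat_lit 
  295155786495897436672) (nat_lit 0) (Tr.node (Tr.node (Tr.node Tr.leaf (nat_lit 368940511094067229184) (nat_lit 4295032835) Tr.leaf) (nat_lit 442724109620399374848) (nat_lit 0) Tr.leaf) (nat_lit 
  442724109689118851584) (nat_lit 0) (Tr.node Tr.leaf (nat_lit 516509959980971000320) (nat_lit 65537) Tr.leaf))) (nat_lit 516509960015331528192) (nat_lit 0) (Tr.node (Tr.node (Tr.node (Tr.node Tr.leaf 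
  (nat_lit 516509960084051268096) (nat_lit 0) Tr.leaf) (nat_lit 516513337783771795968) (nat_lit 0) Tr.leaf) (nat_lit 516513338196089709056) (nat_lit 0) (Tr.node (Tr.node Tr.leaf (nat_lit 
  516514463580597581330) (nat_lit 0) Tr.leaf) (nat_lit 516514463650457645568) (nat_lit 12884967425) Tr.leaf)) (nat_lit 553403448129531480576) (nat_lit 15032451073) (Tr.node (Tr.node (Tr.node Tr.leaf 
  (nat_lit 571850192202100707840) (nat_lit 65537) Tr.leaf) (nat_lit 590304818090654370304) (nat_lit 7) Tr.leaf) (nat_lit 590312698874505003520) (nat_lit 0) (Tr.node Tr.leaf (nat_lit 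
  590313261825063061504) (nat_lit 229377) Tr.leaf)))) (nat_lit 590313543299436188160) (nat_lit 0) (Tr.node (Tr.node (Tr.node (Tr.node (Tr.node Tr.leaf (nat_lit 590330713273652677632) (nat_lit 458753) 
  Tr.leaf) (nat_lit 590331276222968959488) (nat_lit 0) Tr.leaf) (nat_lit 590331557698583861248) (nat_lit 507905) (Tr.node (Tr.node Tr.leaf (nat_lit 599537056073778792960) (nat_lit 0) Tr.leaf) (nat_lit 
  599537126443026945024) (nat_lit 536899584) Tr.leaf)) (nat_lit 599555070472926467072) (nat_lit 537387009) (Tr.node (Tr.node (Tr.node Tr.leaf (nat_lit 599555140841033505293) (nat_lit 0) Tr.leaf) 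
  (nat_lit 885448219257962565138) (nat_lit 0) Tr.leaf) (nat_lit 885448219395468890624) (nat_lit 3) (Tr.node Tr.leaf (nat_lit 1033019919979105816065) (nat_lit 0) Tr.leaf))) (nat_lit 
  1033019920047825292801) (nat_lit 0) (Tr.node (Tr.node (Tr.node (Tr.node Tr.leaf (nat_lit 1033026677508953419264) (nat_lit 7) Tr.leaf) (nat_lit 1106813653803791888896) (nat_lit 7) Tr.leaf) (nat_lit 
  2066039839975374131712) (nat_lit 0) (Tr.node Tr.leaf (nat_lit 2066039840387692044800) (nat_lit 0) Tr.leaf)) (nat_lit 2213611540766411264512) (nat_lit 25769934855) (Tr.node (Tr.node (Tr.node Tr.leaf 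
  (nat_lit 4427223081548844704256) (nat_lit 51539869711) Tr.leaf) (nat_lit 604472135290430963908096) (nat_lit 0) Tr.leaf) (nat_lit 604472135360800211665408) (nat_lit 35184908988416) (Tr.node Tr.leaf 
  (nat_lit 604472137542231314859008) (nat_lit 35184909017088) Tr.leaf))))) (nat_lit 604472142045830406016512) (nat_lit 0) (Tr.node (Tr.node (Tr.node (Tr.node (Tr.node (Tr.node Tr.leaf (nat_lit 
  604472142116199653773824) (nat_lit 35184908988416) Tr.leaf) (nat_lit 604601261513784512282141) (nat_lit 0) Tr.leaf) (nat_lit 604605873199803980252160) (nat_lit 35186251137024) (Tr.node (Tr.node 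
  Tr.leaf (nat_lit 604608179042812154416669) (nat_lit 0) Tr.leaf) (nat_lit 604609331981908946781725) (nat_lit 0) Tr.leaf)) (nat_lit 604609908442662190386176) (nat_lit 234882048) (Tr.node (Tr.node 
  (Tr.node Tr.leaf (nat_lit 604610196673037402969629) (nat_lit 0) Tr.leaf) (nat_lit 604748835466375262700032) (nat_lit 35188130185216) Tr.leaf) (nat_lit 605043983371553542573597) (nat_lit 0) (Tr.node 
  Tr.leaf (nat_lit 605048595057573010543616) (nat_lit 35186251137024) Tr.leaf))) (nat_lit 605062446863388365882880) (nat_lit 0) (Tr.node (Tr.node (Tr.node (Tr.node Tr.leaf (nat_lit 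
  605062446933757613640192) (nat_lit 35184908988416) Tr.leaf) (nat_lit 605062464877787513556992) (nat_lit 35184909475841) Tr.leaf) (nat_lit 614055073753964768726557) (nat_lit 0) (Tr.node Tr.leaf 
  (nat_lit 614055145811559646173184) (nat_lit 549785174016) Tr.leaf)) (nat_lit 1057819317645916905607168) (nat_lit 0) (Tr.node (Tr.node (Tr.node Tr.leaf (nat_lit 1057819317716286153496064) (nat_lit 
  61573188055040) Tr.leaf) (nat_lit 1057819319897717256426496) (nat_lit 61573188083712) Tr.leaf) (nat_lit 1057819320003270373744640) (nat_lit 61573188089856) (Tr.node Tr.leaf (nat_lit 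
  1057819324401316347715584) (nat_lit 0) Tr.leaf)))) (nat_lit 1057819324471685595604480) (nat_lit 61573188055040) (Tr.node (Tr.node (Tr.node (Tr.node (Tr.node Tr.leaf (nat_lit 
  1058409629218874307581952) (nat_lit 0) Tr.leaf) (nat_lit 1058409629289243555470848) (nat_lit 61573188055040) Tr.leaf) (nat_lit 1058409647233273354592768) (nat_lit 61573188083712) (Tr.node (Tr.node 
  Tr.leaf (nat_lit 1208944268329044917155328) (nat_lit 0) Tr.leaf) (nat_lit 1209054947949062244333086) (nat_lit 0) Tr.leaf)) (nat_lit 2417888534687747801280527) (nat_lit 0) (Tr.node (Tr.node (Tr.node 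
  Tr.leaf (nat_lit 2417888536939547615492096) (nat_lit 0) Tr.leaf) (nat_lit 2417888541443147243521536) (nat_lit 0) Tr.leaf) (nat_lit 2417888550450347102636032) (nat_lit 140739636084737) (Tr.node 
  Tr.leaf (nat_lit 4835777066560728638480896) (nat_lit 65537) Tr.leaf))) (nat_lit 4835777066560762999403520) (nat_lit 65539) (Tr.node (Tr.node (Tr.node (Tr.node Tr.leaf (nat_lit 
  4835777066560831719275008) (nat_lit 65543) Tr.leaf) (nat_lit 4835777066560969158886400) (nat_lit 65551) Tr.leaf) (nat_lit 4835777066561244037188096) (nat_lit 65567) (Tr.node Tr.leaf (nat_lit 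
  4835777066561793860768768) (nat_lit 281479271743491) Tr.leaf)) (nat_lit 4835777066562893406345728) (nat_lit 281479271743495) (Tr.node (Tr.node (Tr.node Tr.leaf (nat_lit 4835777066565092396704768) 
  (nat_lit 281479271743491) Tr.leaf) (nat_lit 4835777066569490477165056) (nat_lit 281479271743495) Tr.leaf) (nat_lit 4835777066578286604399616) (nat_lit 281479271743503) (Tr.node Tr.leaf (nat_lit 
  4835777066595878824393216) (nat_lit 281479271743519) Tr.leaf)))))) 

/-- Part of the table. -/
def tab2 : Tr :=
  (Tr.node (Tr.node (Tr.node (Tr.node (Tr.node (Tr.node (Tr.node Tr.leaf (nat_lit 4835777071064431346119168) (nat_lit 327687) Tr.leaf) (nat_lit 4835777073316128081115648) (nat_lit 458753) Tr.leaf) 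
  (nat_lit 4835832406792949768714752) (nat_lit 65537) (Tr.node (Tr.node Tr.leaf (nat_lit 4836072218969610698155520) (nat_lit 17180196871) Tr.leaf) (nat_lit 4836219788418497669298688) (nat_lit 65537) 
  Tr.leaf)) (nat_lit 7253628705789986989077504) (nat_lit 65537) (Tr.node (Tr.node (Tr.node Tr.leaf (nat_lit 8462554525404616164178432) (nat_lit 65537) Tr.leaf) (nat_lit 8462554525404650524706304) 
  (nat_lit 0) Tr.leaf) (nat_lit 8462554529908318871290368) (nat_lit 0) (Tr.node Tr.leaf (nat_lit 8462572972148689873203712) (nat_lit 65537) Tr.leaf))) (nat_lit 8462572972430164849124864) (nat_lit 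
  65537) (Tr.node (Tr.node (Tr.node (Tr.node Tr.leaf (nat_lit 8462849677813498223589888) (nat_lit 0) Tr.leaf) (nat_lit 9671554138750939617751057) (nat_lit 0) Tr.leaf) (nat_lit 
  9671554139313889571698688) (nat_lit 0) (Tr.node (Tr.node Tr.leaf (nat_lit 9671554139595364549068288) (nat_lit 0) Tr.leaf) (nat_lit 9671554139736102574688256) (nat_lit 57344) Tr.leaf)) (nat_lit 
  14507183623477762037314560) (nat_lit 65537) (Tr.node (Tr.node (Tr.node Tr.leaf (nat_lit 16925035262707020386726912) (nat_lit 65537) Tr.leaf) (nat_lit 18133961082321649562485760) (nat_lit 65537) 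
  Tr.leaf) (nat_lit 19343108266242966050896384) (nat_lit 262151) (Tr.node Tr.leaf (nat_lit 19343108267368865957212672) (nat_lit 327687) Tr.leaf)))) (nat_lit 19343108269620562691945984) (nat_lit 0) 
  (Tr.node (Tr.node (Tr.node (Tr.node (Tr.node Tr.leaf (nat_lit 19343182054345160794629632) (nat_lit 4295294983) Tr.leaf) (nat_lit 19343329623794047765509666) (nat_lit 0) Tr.leaf) (nat_lit 
  27805662791647565018362368) (nat_lit 492585504538631) (Tr.node (Tr.node Tr.leaf (nat_lit 33849996737311828833008128) (nat_lit 65537) Tr.leaf) (nat_lit 33850291885217008185307648) (nat_lit 65537) 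
  Tr.leaf)) (nat_lit 33850291889720607811888640) (nat_lit 65537) (Tr.node (Tr.node (Tr.node Tr.leaf (nat_lit 36267848376541087183078400) (nat_lit 65537) Tr.leaf) (nat_lit 37476774196155716358179328) 
  (nat_lit 65537) Tr.leaf) (nat_lit 38686216540367008095337984) (nat_lit 0) (Tr.node Tr.leaf (nat_lit 38686216540929958653133824) (nat_lit 229377) Tr.leaf))) (nat_lit 38686216541211433026522624) 
  (nat_lit 0) (Tr.node (Tr.node (Tr.node (Tr.node Tr.leaf (nat_lit 38686216558381407242617344) (nat_lit 458753) Tr.leaf) (nat_lit 38686216559225832173801984) (nat_lit 507905) Tr.leaf) (nat_lit 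
  38686225764724207369127424) (nat_lit 0) (Tr.node Tr.leaf (nat_lit 38686225764794576617279488) (nat_lit 536899584) Tr.leaf)) (nat_lit 38686225782738606516406784) (nat_lit 537387009) (Tr.node (Tr.node 
  (Tr.node Tr.leaf (nat_lit 38686733033438473266986531) (nat_lit 0) Tr.leaf) (nat_lit 38686769926926621827203584) (nat_lit 15032451073) Tr.leaf) (nat_lit 38686788373670694396694051) (nat_lit 0) 
  (Tr.node Tr.leaf (nat_lit 38687913625059191853089792) (nat_lit 30064836609) Tr.leaf))))) (nat_lit 38687968965291412982797312) (nat_lit 33286062081) (Tr.node (Tr.node (Tr.node (Tr.node (Tr.node 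
  (Tr.node Tr.leaf (nat_lit 38690274808300625501949475) (nat_lit 0) Tr.leaf) (nat_lit 38694997246841089184564771) (nat_lit 0) Tr.leaf) (nat_lit 38694997246842188695666211) (nat_lit 0) (Tr.node 
  (Tr.node Tr.leaf (nat_lit 38695034140330337256146432) (nat_lit 15032451073) Tr.leaf) (nat_lit 38695052587074409825373731) (nat_lit 0) Tr.leaf)) (nat_lit 38704441979806829750717440) (nat_lit 
  2252070396690433) (Tr.node (Tr.node (Tr.node Tr.leaf (nat_lit 38704441979807929261688320) (nat_lit 2252070396690433) Tr.leaf) (nat_lit 38723331445738307056899619) (nat_lit 0) Tr.leaf) (nat_lit 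
  38723331445739406568001059) (nat_lit 0) (Tr.node Tr.leaf (nat_lit 39291260506850046912301568) (nat_lit 35188130185216) Tr.leaf))) (nat_lit 39291265118536065306529792) (nat_lit 35186251137024) 
  (Tr.node (Tr.node (Tr.node (Tr.node Tr.leaf (nat_lit 39292441098470764424663040) (nat_lit 35218195021825) Tr.leaf) (nat_lit 39299524720253761267239453) (nat_lit 0) Tr.leaf) (nat_lit 
  39299529331939780735209472) (nat_lit 35186251137024) (Tr.node Tr.leaf (nat_lit 58028734493911099642283554) (nat_lit 0) Tr.leaf)) (nat_lit 135401167540868084234519040) (nat_lit 0) (Tr.node (Tr.node 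
  (Tr.node Tr.leaf (nat_lit 135401167558882482743474722) (nat_lit 0) Tr.leaf) (nat_lit 135401167558882757620855296) (nat_lit 1048592) Tr.leaf) (nat_lit 270799973906375809640108032) (nat_lit 0) 
  (Tr.node Tr.leaf (nat_lit 270799973906938760197772288) (nat_lit 229377) Tr.leaf)))) (nat_lit 270799973907220234571292672) (nat_lit 0) (Tr.node (Tr.node (Tr.node (Tr.node (Tr.node Tr.leaf (nat_lit 
  270799973924390208787518976) (nat_lit 458753) Tr.leaf) (nat_lit 270799973925234633718703616) (nat_lit 507905) Tr.leaf) (nat_lit 270799983130733008913897472) (nat_lit 0) (Tr.node (Tr.node Tr.leaf 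
  (nat_lit 270799983130803378262712832) (nat_lit 537128961) Tr.leaf) (nat_lit 270799983148747408061308416) (nat_lit 537387009) Tr.leaf)) (nat_lit 619584074716444102218025482) (nat_lit 0) (Tr.node 
  (Tr.node (Tr.node Tr.leaf (nat_lit 619584074788501697095077376) (nat_lit 36029346804137984) Tr.leaf) (nat_lit 1083811589448461705306381322) (nat_lit 0) Tr.leaf) (nat_lit 
  1083811589520519300183564800) (nat_lit 63050944568360960) (Tr.node Tr.leaf (nat_lit 2514641188948361814016331299) (nat_lit 0) Tr.leaf))) (nat_lit 2514641188948362913527695907) (nat_lit 0) (Tr.node 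
  (Tr.node (Tr.node (Tr.node Tr.leaf (nat_lit 2514716746812087729716140032) (nat_lit 2253994546233345) Tr.leaf) (nat_lit 2514716746812088829227241472) (nat_lit 2253994546233409) Tr.leaf) (nat_lit 
  2515170098606199601452093952) (nat_lit 0) (Tr.node Tr.leaf (nat_lit 2515170098606200700963195427) (nat_lit 0) Tr.leaf)) (nat_lit 39614685858393682581283467792) (nat_lit 0) (Tr.node (Tr.node (Tr.node 
  Tr.leaf (nat_lit 39614685863005368600751569408) (nat_lit 2305878195464830976) Tr.leaf) (nat_lit 39614685865311211608925602304) (nat_lit 0) Tr.leaf) (nat_lit 39614685866464150705718230538) (nat_lit 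
  0) (Tr.node Tr.leaf (nat_lit 39614685867040611458961572864) (nat_lit 234882048) Tr.leaf)))))) 

/-- Part of the table. -/
def tab3 : Tr :=
  (Tr.node (Tr.node (Tr.node (Tr.node (Tr.node (Tr.node (Tr.node Tr.leaf (nat_lit 39614686005967635172034148864) (nat_lit 2305878197343879168) Tr.leaf) (nat_lit 39614686301115540350313759232) (nat_lit 
  0) Tr.leaf) (nat_lit 39614686305727226369781860864) (nat_lit 2305878195464830976) (Tr.node (Tr.node Tr.leaf (nat_lit 39614695312205922761540175370) (nat_lit 0) Tr.leaf) (nat_lit 
  39614695312277980356417622016) (nat_lit 549785174016) Tr.leaf)) (nat_lit 39623148274567380727522980352) (nat_lit 65537) (Tr.node (Tr.node (Tr.node Tr.leaf (nat_lit 39623677180766401224580068864) 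
  (nat_lit 65537) Tr.leaf) (nat_lit 39652162494238131827716981248) (nat_lit 65537) Tr.leaf) (nat_lit 39652691400437152324774069760) (nat_lit 65537) (Tr.node Tr.leaf (nat_lit 
  39653372517639018842609745443) (nat_lit 0) Tr.leaf))) (nat_lit 39653372522250704862077847040) (nat_lit 2305878195464830976) (Tr.node (Tr.node (Tr.node (Tr.node Tr.leaf (nat_lit 
  39653373698230639561195848704) (nat_lit 2305878227408715777) Tr.leaf) (nat_lit 39653380781852422558038425123) (nat_lit 0) Tr.leaf) (nat_lit 39653380786464108577506526720) (nat_lit 
  2305878195464830976) (Tr.node Tr.leaf (nat_lit 69325246801242809179937769984) (nat_lit 4035260454254149632) Tr.leaf)) (nat_lit 69325246805854495198331866624) (nat_lit 4035260452375101440) (Tr.node 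
  (Tr.node (Tr.node Tr.leaf (nat_lit 69325246948816761769614182912) (nat_lit 4035260454254149632) Tr.leaf) (nat_lit 69325247243964666948968061440) (nat_lit 4035260454254149632) Tr.leaf) (nat_lit 
  69325247248576352967362158080) (nat_lit 4035260452375101440) (Tr.node Tr.leaf (nat_lit 69363933460488145441263784448) (nat_lit 4035260454254149632) Tr.leaf)))) (nat_lit 
  69363933465099831459658144256) (nat_lit 4035260452375101440) (Tr.node (Tr.node (Tr.node (Tr.node (Tr.node Tr.leaf (nat_lit 69363941724701549156759836160) (nat_lit 4035260467139117057) Tr.leaf) 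
  (nat_lit 69363941729313235175086823936) (nat_lit 4035260452375101440) Tr.leaf) (nat_lit 79229371458532666638460842496) (nat_lit 1073856513) (Tr.node (Tr.node Tr.leaf (nat_lit 
  79229371569212286656861762048) (nat_lit 4611756390392791040) Tr.leaf) (nat_lit 79236625068789742209707602432) (nat_lit 65537) Tr.leaf)) (nat_lit 138650493344230919833619857920) (nat_lit 0) (Tr.node 
  (Tr.node (Tr.node Tr.leaf (nat_lit 138655329564018212414186654208) (nat_lit 8070520902065963009) Tr.leaf) (nat_lit 158458743009296238878506150400) (nat_lit 65537) Tr.leaf) (nat_lit 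
  158458743009296238912866415104) (nat_lit 0) (Tr.node Tr.leaf (nat_lit 158458743156870191468183089680) (nat_lit 0) Tr.leaf))) (nat_lit 158458743156870191502543354399) (nat_lit 0) (Tr.node (Tr.node 
  (Tr.node (Tr.node Tr.leaf (nat_lit 158458743452018096647536441856) (nat_lit 65537) Tr.leaf) (nat_lit 158458743452018096681897101312) (nat_lit 0) Tr.leaf) (nat_lit 158458744042313907041743735296) 
  (nat_lit 9223512790449324035) (Tr.node Tr.leaf (nat_lit 277299173401186695362990639616) (nat_lit 16140936252626042880) Tr.leaf)) (nat_lit 277299173405798381381384736256) (nat_lit 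
  16140936250746994688) (Tr.node (Tr.node (Tr.node Tr.leaf (nat_lit 277299173408104224390632774144) (nat_lit 16140936253028696064) Tr.leaf) (nat_lit 277299173409257163486351397376) (nat_lit 0) 
  Tr.leaf) (nat_lit 277299173409833624239595001856) (nat_lit 234882048) (Tr.node Tr.leaf (nat_lit 277299173410121854614807585280) (nat_lit 0) Tr.leaf))))) (nat_lit 277299182854998935542173342218) 
  (nat_lit 0) (Tr.node (Tr.node (Tr.node (Tr.node (Tr.node (Tr.node Tr.leaf (nat_lit 277299182855070993137050788864) (nat_lit 549785174016) Tr.leaf) (nat_lit 316917485834123911102814282240) (nat_lit 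
  65537) Tr.leaf) (nat_lit 316917485834123911137174546944) (nat_lit 4295032835) (Tr.node (Tr.node Tr.leaf (nat_lit 316917485834123911205894550016) (nat_lit 7) Tr.leaf) (nat_lit 
  316917485834123911343334029824) (nat_lit 4295032847) Tr.leaf)) (nat_lit 316917485834123911618212463104) (nat_lit 31) (Tr.node (Tr.node (Tr.node Tr.leaf (nat_lit 316917485834123912168035912192) 
  (nat_lit 18447025552981295107) Tr.leaf) (nat_lit 316917485834123913267480957440) (nat_lit 127) Tr.leaf) (nat_lit 316917485834123915466571848192) (nat_lit 18447025552981295107) (Tr.node Tr.leaf 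
  (nat_lit 316917485834123919864652440064) (nat_lit 18447025552981295111) Tr.leaf))) (nat_lit 316917485834123928660779543040) (nat_lit 18447025552981295119) (Tr.node (Tr.node (Tr.node (Tr.node Tr.leaf 
  (nat_lit 316917485834123946252932559360) (nat_lit 18447025552981295111) Tr.leaf) (nat_lit 316917485871017399250233911808) (nat_lit 65537) Tr.leaf) (nat_lit 316917485871024154649676283408) (nat_lit 
  0) (Tr.node Tr.leaf (nat_lit 316917485889464143323943989760) (nat_lit 65537) Tr.leaf)) (nat_lit 316917486018592477774177432065) (nat_lit 0) (Tr.node (Tr.node (Tr.node Tr.leaf (nat_lit 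
  316917486018592477842896908801) (nat_lit 0) Tr.leaf) (nat_lit 316917486313740382953530784288) (nat_lit 0) Tr.leaf) (nat_lit 316917486313740383022250261024) (nat_lit 0) (Tr.node Tr.leaf (nat_lit 
  316917486904036193312237357057) (nat_lit 0) Tr.leaf)))) (nat_lit 316917486904036193380956833793) (nat_lit 0) (Tr.node (Tr.node (Tr.node (Tr.node (Tr.node Tr.leaf (nat_lit 
  316917488084627814030823197184) (nat_lit 18447025580898648067) Tr.leaf) (nat_lit 316917488084627814099542673920) (nat_lit 18447025580898648071) Tr.leaf) (nat_lit 316946500090688150350428175904) 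
  (nat_lit 0) (Tr.node (Tr.node Tr.leaf (nat_lit 475373810862652586289902709248) (nat_lit 65537) Tr.leaf) (nat_lit 475373810862652586392983240240) (nat_lit 0) Tr.leaf)) (nat_lit 
  554601973376916923883447185920) (nat_lit 281479271743489) (Tr.node (Tr.node (Tr.node Tr.leaf (nat_lit 554601973376916923917807713792) (nat_lit 0) Tr.leaf) (nat_lit 554601973376916923986527453696) 
  (nat_lit 0) Tr.leaf) (nat_lit 554601973376916924124034305536) (nat_lit 32282083608263458819) (Tr.node Tr.leaf (nat_lit 554601973376916924398946030080) (nat_lit 32282083608263458823) Tr.leaf))) 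
  (nat_lit 554601973376916924948669079040) (nat_lit 32282083608263458819) (Tr.node (Tr.node (Tr.node (Tr.node Tr.leaf (nat_lit 554601973376916926048214524416) (nat_lit 32282083608263458823) Tr.leaf) 
  (nat_lit 554601973376916928247205015040) (nat_lit 32282083608263458819) Tr.leaf) (nat_lit 554601973376916932645285343744) (nat_lit 32282083608263458823) (Tr.node Tr.leaf (nat_lit 
  554601973376916941441345601024) (nat_lit 32282083608263458819) Tr.leaf)) (nat_lit 554601973376916959033565463040) (nat_lit 32282083608263458823) (Tr.node (Tr.node (Tr.node Tr.leaf (nat_lit 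
  554603182302736538512621102592) (nat_lit 65537) Tr.leaf) (nat_lit 554603182321183282586330391040) (nat_lit 281479271743489) Tr.leaf) (nat_lit 554603182321183775167540161024) (nat_lit 65537) (Tr.node 
  Tr.leaf (nat_lit 594211823462855731755560800768) (nat_lit 34587680324456546304) Tr.leaf)))))) 

/-- Part of the table. -/
def tab4 : Tr :=
  (Tr.node (Tr.node (Tr.node (Tr.node (Tr.node (Tr.node (Tr.node Tr.leaf (nat_lit 633834971668247822222794222080) (nat_lit 8590065667) Tr.leaf) (nat_lit 633834972037181577762718673408) (nat_lit 65537) 
  Tr.leaf) (nat_lit 633834972037181577797078938112) (nat_lit 0) (Tr.node (Tr.node Tr.leaf (nat_lit 633834972037181577865799204385) (nat_lit 0) Tr.leaf) (nat_lit 633834972037184955565519732257) 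
  (nat_lit 0) Tr.leaf)) (nat_lit 633834972037184955703026057728) (nat_lit 3) (Tr.node (Tr.node (Tr.node Tr.leaf (nat_lit 633834972074075065910138302992) (nat_lit 0) Tr.leaf) (nat_lit 
  633834972074075065944498567713) (nat_lit 0) Tr.leaf) (nat_lit 633834972074075066013218833936) (nat_lit 0) (Tr.node Tr.leaf (nat_lit 633834972092521809983848380928) (nat_lit 65537) Tr.leaf))) 
  (nat_lit 633834972092521810018209040384) (nat_lit 0) (Tr.node (Tr.node (Tr.node (Tr.node Tr.leaf (nat_lit 633834972092521810086928911905) (nat_lit 0) Tr.leaf) (nat_lit 
  633834972092521810224435632128) (nat_lit 36894051130658586627) Tr.leaf) (nat_lit 633834972101745182056137689600) (nat_lit 3758096384) (Tr.node (Tr.node Tr.leaf (nat_lit 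
  633834972101745182124857955840) (nat_lit 3758096384) Tr.leaf) (nat_lit 633834972101745182261290539520) (nat_lit 36894051131195457539) Tr.leaf)) (nat_lit 633834972627480765924225910290) (nat_lit 0) 
  (Tr.node (Tr.node (Tr.node Tr.leaf (nat_lit 633834972627480766061732235776) (nat_lit 3) Tr.leaf) (nat_lit 633834973808072386641637740065) (nat_lit 0) Tr.leaf) (nat_lit 
  633834973808072386779144460288) (nat_lit 3) (Tr.node Tr.leaf (nat_lit 633834976169255628077668832768) (nat_lit 36894051161797296135) Tr.leaf)))) (nat_lit 633834976169255628215108049408) (nat_lit 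
  36894051161797296143) (Tr.node (Tr.node (Tr.node (Tr.node (Tr.node Tr.leaf (nat_lit 950742785948238611851166411264) (nat_lit 65537) Tr.leaf) (nat_lit 950742785948238611954246942256) (nat_lit 0) 
  Tr.leaf) (nat_lit 1109199110976767287038254311936) (nat_lit 65537) (Tr.node (Tr.node Tr.leaf (nat_lit 1109199110976767287141334842928) (nat_lit 0) Tr.leaf) (nat_lit 1188427273491031624631799314944) 
  (nat_lit 65537) Tr.leaf)) (nat_lit 1188427273491031624737027329536) (nat_lit 13835058055282163712) (Tr.node (Tr.node (Tr.node Tr.leaf (nat_lit 1267669943336495644462753575424) (nat_lit 7) Tr.leaf) 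
  (nat_lit 1267669943336496770362659628544) (nat_lit 17180196871) Tr.leaf) (nat_lit 1267669943336499022059394888192) (nat_lit 17180327937) (Tr.node Tr.leaf (nat_lit 1267669943410283746657497571840) 
  (nat_lit 4295032839) Tr.leaf))) (nat_lit 1267669943557853195545609302528) (nat_lit 12884967425) (Tr.node (Tr.node (Tr.node (Tr.node Tr.leaf (nat_lit 1267669944074363155542602478081) (nat_lit 0) 
  Tr.leaf) (nat_lit 1267669944074363155611321954817) (nat_lit 0) Tr.leaf) (nat_lit 1267669944074363155748862624256) (nat_lit 73788102254874722311) (Tr.node Tr.leaf (nat_lit 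
  1267669944074363156023740531200) (nat_lit 73788102254874722311) Tr.leaf)) (nat_lit 1267669944148150131837441210914) (nat_lit 0) (Tr.node (Tr.node (Tr.node Tr.leaf (nat_lit 
  1267669944148150131906160687650) (nat_lit 0) Tr.leaf) (nat_lit 1267669944148150132043701357056) (nat_lit 73788102259169689607) Tr.leaf) (nat_lit 1267669944148150132318579264000) (nat_lit 
  73788102259169689607) (Tr.node Tr.leaf (nat_lit 1267669944185043619984861235201) (nat_lit 0) Tr.leaf))))) (nat_lit 1267669944185043620053580711937) (nat_lit 0) (Tr.node (Tr.node (Tr.node (Tr.node 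
  (Tr.node (Tr.node Tr.leaf (nat_lit 1267669944185043620191121381376) (nat_lit 73788102261317173255) Tr.leaf) (nat_lit 1267669944185043620465999288320) (nat_lit 73788102261317173255) Tr.leaf) (nat_lit 
  1267669944203490364059678214656) (nat_lit 7516192768) (Tr.node (Tr.node Tr.leaf (nat_lit 1267669944203490364128397691392) (nat_lit 7516192768) Tr.leaf) (nat_lit 1267669944203490364265837697536) 
  (nat_lit 7516192768) Tr.leaf)) (nat_lit 1267669944203490364539708971520) (nat_lit 73788102262390915079) (Tr.node (Tr.node (Tr.node Tr.leaf (nat_lit 1267678405891021049061721041408) (nat_lit 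
  492602684407815) Tr.leaf) (nat_lit 1267684450224966713325535687168) (nat_lit 65537) Tr.leaf) (nat_lit 2218393386176468013347870142976) (nat_lit 281479271743489) (Tr.node Tr.leaf (nat_lit 
  2218393386176468013382230670848) (nat_lit 0) Tr.leaf))) (nat_lit 2218393386176468013450950410752) (nat_lit 0) (Tr.node (Tr.node (Tr.node (Tr.node Tr.leaf (nat_lit 2218393386176468013588457262592) 
  (nat_lit 129127489995238604803) Tr.leaf) (nat_lit 2218393386176468013863368987136) (nat_lit 129127489995238604807) Tr.leaf) (nat_lit 2218393386176468014413092036096) (nat_lit 129127489995238604803) 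
  (Tr.node Tr.leaf (nat_lit 2218393386176468015512637481472) (nat_lit 129127489995238604807) Tr.leaf)) (nat_lit 2218393386176468017711627972096) (nat_lit 129127489995238604803) (Tr.node (Tr.node 
  (Tr.node Tr.leaf (nat_lit 2218393386176468022109708300800) (nat_lit 129127489995238604807) Tr.leaf) (nat_lit 2218393386176468030905768558080) (nat_lit 129127489995238604803) Tr.leaf) (nat_lit 
  2218393386176468048497988420096) (nat_lit 129127489995238604807) (Tr.node Tr.leaf (nat_lit 2218412728989581847414664652288) (nat_lit 65537) Tr.leaf)))) (nat_lit 2218412729284729752594017214976) 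
  (nat_lit 281479271743489) (Tr.node (Tr.node (Tr.node (Tr.node (Tr.node Tr.leaf (nat_lit 2376849711204996688534958569984) (nat_lit 65537) Tr.leaf) (nat_lit 2376849711204996688640253693440) (nat_lit 
  64563885737255174151) Tr.leaf) (nat_lit 2456077873719261026128503046656) (nat_lit 281479271743489) (Tr.node (Tr.node Tr.leaf (nat_lit 2456077873719261026231583314432) (nat_lit 0) Tr.leaf) (nat_lit 
  2535339887189492241466672607760) (nat_lit 0) Tr.leaf)) (nat_lit 2535339887226385729615233088000) (nat_lit 15032451073) (Tr.node (Tr.node (Tr.node Tr.leaf (nat_lit 2535339887244832473687802315264) 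
  (nat_lit 0) Tr.leaf) (nat_lit 2535339888370083862185258842624) (nat_lit 30064836609) Tr.leaf) (nat_lit 2535339888425424094406388550144) (nat_lit 33286062081) (Tr.node Tr.leaf (nat_lit 
  2535339890731267103618907570688) (nat_lit 0) Tr.leaf))) (nat_lit 2535339895453705644082590449174) (nat_lit 0) (Tr.node (Tr.node (Tr.node (Tr.node Tr.leaf (nat_lit 2535339895453705645182101287440) 
  (nat_lit 0) Tr.leaf) (nat_lit 2535339895490599133330661767680) (nat_lit 15032451073) Tr.leaf) (nat_lit 2535339895509045877403230994944) (nat_lit 0) (Tr.node Tr.leaf (nat_lit 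
  2535339904898438609823156339712) (nat_lit 147576204660073103361) Tr.leaf)) (nat_lit 2535339904898438610922667309568) (nat_lit 147576204660073103361) (Tr.node (Tr.node (Tr.node Tr.leaf (nat_lit 
  2535339923787904541300462784022) (nat_lit 0) Tr.leaf) (nat_lit 2535339923787904542399973622272) (nat_lit 0) Tr.leaf) (nat_lit 2535340491716965653039244181021) (nat_lit 0) (Tr.node Tr.leaf (nat_lit 
  2535340491721577339058712151040) (nat_lit 35186251137024) Tr.leaf)))))) 

/-- Part of the table. -/
def tab5 : Tr :=
  (Tr.node (Tr.node (Tr.node (Tr.node (Tr.node (Tr.node (Tr.node Tr.leaf (nat_lit 2535340499981179056754672860701) (nat_lit 0) Tr.leaf) (nat_lit 2535340499985790742774140830720) (nat_lit 35186251137024) 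
  Tr.leaf) (nat_lit 2535373736079423782955829490176) (nat_lit 65537) (Tr.node (Tr.node Tr.leaf (nat_lit 2535377362856882626843354661376) (nat_lit 65537) Tr.leaf) (nat_lit 
  2535915339569049677289781261824) (nat_lit 65537) Tr.leaf)) (nat_lit 2535918966346508521177306433024) (nat_lit 65537) (Tr.node (Tr.node (Tr.node Tr.leaf (nat_lit 2537815841645407164807422215702) 
  (nat_lit 0) Tr.leaf) (nat_lit 2537815841645407165906933317161) (nat_lit 0) Tr.leaf) (nat_lit 2537815917203270890723122024448) (nat_lit 147576206584222646273) (Tr.node Tr.leaf (nat_lit 
  2537815917203270891822632862720) (nat_lit 147576206584222646337) Tr.leaf))) (nat_lit 2537816370555065002594857978390) (nat_lit 0) (Tr.node (Tr.node (Tr.node (Tr.node Tr.leaf (nat_lit 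
  2537816370555065003694368816681) (nat_lit 0) Tr.leaf) (nat_lit 2574992048576924602954713463296) (nat_lit 65537) Tr.leaf) (nat_lit 2574992577483123623451770551808) (nat_lit 65537) (Tr.node (Tr.node 
  Tr.leaf (nat_lit 2575069722060834842879189387776) (nat_lit 65537) Tr.leaf) (nat_lit 2575533652066550497288665234944) (nat_lit 65537) Tr.leaf)) (nat_lit 2575534180972749517785722323456) (nat_lit 
  65537) (Tr.node (Tr.node (Tr.node Tr.leaf (nat_lit 4436815787531836343712869845504) (nat_lit 12884967425) Tr.leaf) (nat_lit 4436815788712427964430314966528) (nat_lit 30064836609) Tr.leaf) (nat_lit 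
  4436815791073611205865104808448) (nat_lit 12884967425) (Tr.node Tr.leaf (nat_lit 4436815795796049746327646573056) (nat_lit 0) Tr.leaf)))) (nat_lit 4436815795796049747427157674531) (nat_lit 0) 
  (Tr.node (Tr.node (Tr.node (Tr.node (Tr.node Tr.leaf (nat_lit 4436815805240782712068078508032) (nat_lit 12884967425) Tr.leaf) (nat_lit 4436815805240782713167723696640) (nat_lit 
  258256669102330413057) Tr.leaf) (nat_lit 4436815824130248643545518907904) (nat_lit 0) (Tr.node (Tr.node Tr.leaf (nat_lit 4436815824130248644645030009379) (nat_lit 0) Tr.leaf) (nat_lit 
  4439291741987751267052478339606) (nat_lit 0) Tr.leaf)) (nat_lit 4439291741987751268151989704233) (nat_lit 0) (Tr.node (Tr.node (Tr.node Tr.leaf (nat_lit 4439291817545614992968178148352) (nat_lit 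
  258256671026479955969) Tr.leaf) (nat_lit 4439291817545614994067689249792) (nat_lit 258256671026479956033) Tr.leaf) (nat_lit 4439292270897409104839914102313) (nat_lit 0) (Tr.node Tr.leaf (nat_lit 
  4439292270897409105939425203753) (nat_lit 0) Tr.leaf))) (nat_lit 4753728438769485314804491031040) (nat_lit 30064836609) (Tr.node (Tr.node (Tr.node (Tr.node Tr.leaf (nat_lit 
  4753728441130668556239314690560) (nat_lit 30064836609) Tr.leaf) (nat_lit 5070679776297452624146150265344) (nat_lit 7) Tr.leaf) (nat_lit 5070679776592600529325503617536) (nat_lit 7) (Tr.node Tr.leaf 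
  (nat_lit 5070679776740174479991034550272) (nat_lit 7) Tr.leaf)) (nat_lit 5070679776740174480265912457216) (nat_lit 7) (Tr.node (Tr.node (Tr.node Tr.leaf (nat_lit 5070679776740174481915180951552) 
  (nat_lit 7) Tr.leaf) (nat_lit 5070679776813961456285872888320) (nat_lit 7) Tr.leaf) (nat_lit 5070679776813961456560750795264) (nat_lit 7) (Tr.node Tr.leaf (nat_lit 5070679776813961458210019289600) 
  (nat_lit 7) Tr.leaf))))) (nat_lit 5070737800899866853353636037120) (nat_lit 0) (Tr.node (Tr.node (Tr.node (Tr.node (Tr.node (Tr.node Tr.leaf (nat_lit 17747147089928245059428253501952) (nat_lit 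
  12884967425) Tr.leaf) (nat_lit 17747147089965138547575672605184) (nat_lit 15032451073) Tr.leaf) (nat_lit 17747147089983585291649383209472) (nat_lit 16106192897) (Tr.node (Tr.node Tr.leaf (nat_lit 
  17747147091108836680145698622976) (nat_lit 30064836609) Tr.leaf) (nat_lit 17747147091164176912366828330496) (nat_lit 33286062081) Tr.leaf)) (nat_lit 17747147098192458463142541330979) (nat_lit 0) 
  (Tr.node (Tr.node (Tr.node Tr.leaf (nat_lit 17747147098229351951291101811200) (nat_lit 15032451073) Tr.leaf) (nat_lit 17747147098247798695363671038499) (nat_lit 0) Tr.leaf) (nat_lit 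
  17747147694455718471000824812032) (nat_lit 35201015152641) (Tr.node Tr.leaf (nat_lit 17747147695636310091718270196224) (nat_lit 35218195021825) Tr.leaf))) (nat_lit 17747147702719931874715112904221) 
  (nat_lit 0) (Tr.node (Tr.node (Tr.node (Tr.node Tr.leaf (nat_lit 17747147702724543560734580874240) (nat_lit 35186251137024) Tr.leaf) (nat_lit 162261791470402311753392026356246) (nat_lit 0) Tr.leaf) 
  (nat_lit 162261791470402311754491537194531) (nat_lit 0) (Tr.node Tr.leaf (nat_lit 162261791545960175479307725770240) (nat_lit 2253994546233345) Tr.leaf)) (nat_lit 162261791545960175480407236871680) 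
  (nat_lit 2253994546233409) (Tr.node (Tr.node (Tr.node Tr.leaf (nat_lit 162261791999311969591179461855766) (nat_lit 0) Tr.leaf) (nat_lit 162261791999311969592278972694051) (nat_lit 0) Tr.leaf) 
  (nat_lit 1135817452445682492102860089269270) (nat_lit 0) (Tr.node Tr.leaf (nat_lit 1135817452445682492103960875570688) (nat_lit 2252070396690433) Tr.leaf)))) (nat_lit 
  1135817452521240355828775788814848) (nat_lit 2253994546233345) (Tr.node (Tr.node (Tr.node (Tr.node (Tr.node Tr.leaf (nat_lit 1135817452521240355829875299916288) (nat_lit 2253994546233409) Tr.leaf) 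
  (nat_lit 1135817452974592149940647524900387) (nat_lit 0) Tr.leaf) (nat_lit 1135817452974592149941747036001827) (nat_lit 0) (Tr.node (Tr.node Tr.leaf (nat_lit 2596742645322047863357928383507968) 
  (nat_lit 65537) Tr.leaf) (nat_lit 2596742645322047863358031463907389) (nat_lit 0) Tr.leaf)) (nat_lit 2596762452362676429442431964087296) (nat_lit 151123797902360894767104) (Tr.node (Tr.node (Tr.node 
  Tr.leaf (nat_lit 2596777307718706870653044489252352) (nat_lit 65537) Tr.leaf) (nat_lit 2596777307718706870653147569651773) (nat_lit 0) Tr.leaf) (nat_lit 2597376470622161978058678882857472) (nat_lit 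
  151131868352893142695936) (Tr.node Tr.leaf (nat_lit 2597376470622161978058781963388416) (nat_lit 151131868352893142695936) Tr.leaf))) (nat_lit 2597396277662790544143180350033920) (nat_lit 
  151133021274397749542912) (Tr.node (Tr.node (Tr.node (Tr.node Tr.leaf (nat_lit 2597411133018820985353898069395968) (nat_lit 151133885969924318298112) Tr.leaf) (nat_lit 
  2598644121222390207460173439368704) (nat_lit 65537) Tr.leaf) (nat_lit 2598644121222390207460276519768125) (nat_lit 0) (Tr.node Tr.leaf (nat_lit 2598663928263018773544677019947008) (nat_lit 
  151123797902360894767104) Tr.leaf)) (nat_lit 2598678783619049214755289545113088) (nat_lit 65537) (Tr.node (Tr.node (Tr.node Tr.leaf (nat_lit 2598678783619049214755392625512509) (nat_lit 0) Tr.leaf) 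
  (nat_lit 2598723421315990738868202877810176) (nat_lit 65537) Tr.leaf) (nat_lit 2598723421844896937888699934635520) (nat_lit 65537) (Tr.node Tr.leaf (nat_lit 4543299374366248742344911811969024) 
  (nat_lit 65537) Tr.leaf)))))) 

/-- Part of the table. -/
def tab6 : Tr :=
  (Tr.node (Tr.node (Tr.node (Tr.node (Tr.node (Tr.node (Tr.node Tr.leaf (nat_lit 4543299403380468413096012005969920) (nat_lit 65537) Tr.leaf) (nat_lit 4543299403909374612116509062926848) (nat_lit 
  65537) Tr.leaf) (nat_lit 4545834743266551099567139002451968) (nat_lit 65537) (Tr.node (Tr.node Tr.leaf (nat_lit 4545834743795457298587636059408896) (nat_lit 65537) Tr.leaf) (nat_lit 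
  4545835284870040725461472954223616) (nat_lit 65537) Tr.leaf)) (nat_lit 4545835285398946924481970011180544) (nat_lit 65537) (Tr.node (Tr.node (Tr.node Tr.leaf (nat_lit 
  5192376087906286161197134789273088) (nat_lit 70369818034177) Tr.leaf) (nat_lit 5192376087906396840817152116450816) (nat_lit 70376260435969) Tr.leaf) (nat_lit 5192376090928591487072777608428032) 
  (nat_lit 302236066835966862585856) (Tr.node Tr.leaf (nat_lit 5192376091381938669357894302501376) (nat_lit 536993793) Tr.leaf))) (nat_lit 5192376091381938669428263550390272) (nat_lit 
  302236066862355141652480) (Tr.node (Tr.node (Tr.node (Tr.node Tr.leaf (nat_lit 5192376091381938676113293744609792) (nat_lit 537387009) Tr.leaf) (nat_lit 5192376091381938676183662992498688) (nat_lit 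
  302236066862355141652480) Tr.leaf) (nat_lit 5192376091382528980930851704476160) (nat_lit 34897649665) (Tr.node (Tr.node Tr.leaf (nat_lit 5192376091382528981001220952365056) (nat_lit 
  302236066862355141652480) Tr.leaf) (nat_lit 5192376095159896418272706036033024) (nat_lit 65537) Tr.leaf)) (nat_lit 5192851460508204545454379775616512) (nat_lit 65537) (Tr.node (Tr.node (Tr.node 
  Tr.leaf (nat_lit 9086598731807517562215024364681758) (nat_lit 0) Tr.leaf) (nat_lit 20769504351625144638033088130109952) (nat_lit 65537) Tr.leaf) (nat_lit 20769504351625144638033122491032576) 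
  (nat_lit 65539) (Tr.node Tr.leaf (nat_lit 20769504351625144638033191210904064) (nat_lit 65543) Tr.leaf)))) (nat_lit 20769504351625144638033328650515456) (nat_lit 65551) (Tr.node (Tr.node (Tr.node 
  (Tr.node (Tr.node Tr.leaf (nat_lit 20769504351625144638033603528817152) (nat_lit 65567) Tr.leaf) (nat_lit 20769504351625144638034153285288960) (nat_lit 65599) Tr.leaf) (nat_lit 
  20769504351625144638035252797311488) (nat_lit 65663) (Tr.node (Tr.node Tr.leaf (nat_lit 20769504351625144638037451888333824) (nat_lit 1208944266640182156001283) Tr.leaf) (nat_lit 
  20769504351625144638041849968794112) (nat_lit 1208944266640182156001287) Tr.leaf)) (nat_lit 20769504351625144638050646028919808) (nat_lit 1208944266640182156001283) (Tr.node (Tr.node (Tr.node 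
  Tr.leaf (nat_lit 20769504351625144638068238248913408) (nat_lit 1208944266640182156001287) Tr.leaf) (nat_lit 31154098068694799895094080789734400) (nat_lit 281479271743489) Tr.leaf) (nat_lit 
  31154098068694799895094183870133824) (nat_lit 0) (Tr.node Tr.leaf (nat_lit 36346394927229627523624577119349248) (nat_lit 281479271743489) Tr.leaf))) (nat_lit 36346394927229627523624611479877120) 
  (nat_lit 0) (Tr.node (Tr.node (Tr.node (Tr.node Tr.leaf (nat_lit 36346394927229775097577166796551680) (nat_lit 65537) Tr.leaf) (nat_lit 36346394946572883359316412944413184) (nat_lit 65537) Tr.leaf) 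
  (nat_lit 36346474155392141787962170662773248) (nat_lit 281479271743489) (Tr.node Tr.leaf (nat_lit 36346474155392141787962205023037952) (nat_lit 0) Tr.leaf)) (nat_lit 
  36346474155392141787962273743041086) (nat_lit 0) (Tr.node (Tr.node (Tr.node Tr.leaf (nat_lit 36346474156601067607576799836689920) (nat_lit 281479271743489) Tr.leaf) (nat_lit 
  36346474156601067607576834197349376) (nat_lit 0) Tr.leaf) (nat_lit 36346474156601067607576902917220928) (nat_lit 0) (Tr.node Tr.leaf (nat_lit 36346474156601086054320907906243072) (nat_lit 
  70369817919488) Tr.leaf))))) (nat_lit 36346474156601086054320976626246144) (nat_lit 70369817919488) (Tr.node (Tr.node (Tr.node (Tr.node (Tr.node (Tr.node Tr.leaf (nat_lit 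
  36346474156601086054602382882558976) (nat_lit 1073758208) Tr.leaf) (nat_lit 36346474156601086054602451602430464) (nat_lit 1073758208) Tr.leaf) (nat_lit 36346474156601099889378928829194752) (nat_lit 
  281479271743489) (Tr.node (Tr.node Tr.leaf (nat_lit 36346474156601099889378963189722624) (nat_lit 0) Tr.leaf) (nat_lit 36346474156601099889379031909462590) (nat_lit 0) Tr.leaf)) (nat_lit 
  41539008703250289276066193427588096) (nat_lit 131075) (Tr.node (Tr.node (Tr.node Tr.leaf (nat_lit 62307879219903765666277058765054976) (nat_lit 281479271743489) Tr.leaf) (nat_lit 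
  83078017406500578552132404020570624) (nat_lit 262151) Tr.leaf) (nat_lit 83078017406500578553258303926886912) (nat_lit 327687) (Tr.node Tr.leaf (nat_lit 83078017406500578555510000661620224) (nat_lit 
  1125917087170561) Tr.leaf))) (nat_lit 83078017406500652340234598764303872) (nat_lit 4295294983) (Tr.node (Tr.node (Tr.node (Tr.node Tr.leaf (nat_lit 83078017406500799909683485735183872) (nat_lit 
  1125929971679233) Tr.leaf) (nat_lit 83078017414963133077537002988036608) (nat_lit 492585504538631) Tr.leaf) (nat_lit 83078017421007467023201266802419200) (nat_lit 65537) (Tr.node Tr.leaf (nat_lit 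
  83078017445186204779800537611957760) (nat_lit 3377716900659207) Tr.leaf)) (nat_lit 83078017454857906515021945405766144) (nat_lit 458753) (Tr.node (Tr.node (Tr.node Tr.leaf (nat_lit 
  83078017522558637826757522204193280) (nat_lit 7881385247506439) Tr.leaf) (nat_lit 83078017686971663863016347803388416) (nat_lit 34360721409) Tr.leaf) (nat_lit 83078017686971663863860772734573056) 
  (nat_lit 34360770561) (Tr.node Tr.leaf (nat_lit 83078017686971663881030746950799360) (nat_lit 458753) Tr.leaf)))) (nat_lit 83078017686971663881875171881984000) (nat_lit 507905) (Tr.node (Tr.node 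
  (Tr.node (Tr.node (Tr.node Tr.leaf (nat_lit 83078017686971673087373547077177856) (nat_lit 34897649665) Tr.leaf) (nat_lit 83078017686971673105387946224588800) (nat_lit 537387009) Tr.leaf) (nat_lit 
  145384628956461007722765000032971264) (nat_lit 281479271743489) (Tr.node (Tr.node Tr.leaf (nat_lit 145385896607061235952166496735650304) (nat_lit 281479271743489) Tr.leaf) (nat_lit 
  145385896626404049066000563530159616) (nat_lit 281479271743489) Tr.leaf)) (nat_lit 145385896626404344218409548667996672) (nat_lit 281479271743489) (Tr.node (Tr.node (Tr.node Tr.leaf (nat_lit 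
  145385896626404344218409823546429952) (nat_lit 281479271743489) Tr.leaf) (nat_lit 166156074465163061037578837248243200) (nat_lit 65537) Tr.leaf) (nat_lit 166156075006766550663473171199751680) 
  (nat_lit 65537) (Tr.node Tr.leaf (nat_lit 166158253167701117039792223811333632) (nat_lit 65537) Tr.leaf))) (nat_lit 166158253167701117039792326891733059) (nat_lit 0) (Tr.node (Tr.node (Tr.node 
  (Tr.node Tr.leaf (nat_lit 166158411624026145568467413114089984) (nat_lit 64563885737255174145) Tr.leaf) (nat_lit 166158411624026145568467516194620928) (nat_lit 64563885737255174151) Tr.leaf) 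
  (nat_lit 166158490852188659832805004444237312) (nat_lit 65537) (Tr.node Tr.leaf (nat_lit 166158490852188659832805107524636739) (nat_lit 0) Tr.leaf)) (nat_lit 166163323770102029957398315952964608) 
  (nat_lit 129127489995238604807) (Tr.node (Tr.node (Tr.node Tr.leaf (nat_lit 166163482226427058486073503008100352) (nat_lit 64563885737255174151) Tr.leaf) (nat_lit 
  166163561454589572750411096585867264) (nat_lit 142962548050520768519) Tr.leaf) (nat_lit 166193747693997239650862069871078912) (nat_lit 65537) (Tr.node Tr.leaf (nat_lit 
  166193747693997239650862172951478339) (nat_lit 0) Tr.leaf)))))) 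

/-- Part of the table. -/
def tab7 : Tr :=
  (Tr.node (Tr.node (Tr.node (Tr.node (Tr.node (Tr.node (Tr.node Tr.leaf (nat_lit 166193985378484782443874850503982592) (nat_lit 65537) Tr.leaf) (nat_lit 166193985378484782443874953584382019) (nat_lit 
  0) Tr.leaf) (nat_lit 168754678895537330779239152460827136) (nat_lit 4295032839) (Tr.node (Tr.node Tr.leaf (nat_lit 168754713557933989786534268566834688) (nat_lit 4295032839) Tr.leaf) (nat_lit 
  168759769304978872262929434579894784) (nat_lit 281479271743489) Tr.leaf)) (nat_lit 168759769304978872262929537660162560) (nat_lit 0) (Tr.node (Tr.node (Tr.node Tr.leaf (nat_lit 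
  168759784160334902704140257426739712) (nat_lit 2017617031175602176) Tr.leaf) (nat_lit 168790173421833453390308998520835584) (nat_lit 4295032839) Tr.leaf) (nat_lit 
  168790193228874081956393399222342144) (nat_lit 9823111427539195415035911) (Tr.node Tr.leaf (nat_lit 168790208084230112397604011546049024) (nat_lit 65537) Tr.leaf))) (nat_lit 
  168790208084230112397604114626580029) (nat_lit 0) (Tr.node (Tr.node (Tr.node (Tr.node Tr.leaf (nat_lit 249231516879615062665108286556403266) (nat_lit 0) Tr.leaf) (nat_lit 
  249231516879615062666234186462456386) (nat_lit 0) Tr.leaf) (nat_lit 249231516879615136453210481300268098) (nat_lit 0) (Tr.node Tr.leaf (nat_lit 249231516884450839731668997998434816) (nat_lit 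
  14507183623477762021720071) Tr.leaf)) (nat_lit 249231516888077617190512885523869250) (nat_lit 0) (Tr.node (Tr.node (Tr.node Tr.leaf (nat_lit 290769257912922015445530017231336961) (nat_lit 0) 
  Tr.leaf) (nat_lit 332312069684029868092805118705596962) (nat_lit 0) Tr.leaf) (nat_lit 332342493298436526190061756994882048) (nat_lit 7881385247506439) (Tr.node Tr.leaf (nat_lit 
  415420510685593996475951194964556288) (nat_lit 4835777073316196784537607) Tr.leaf)))) (nat_lit 581538515825844030892185951533068800) (nat_lit 0) (Tr.node (Tr.node (Tr.node (Tr.node (Tr.node Tr.leaf 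
  (nat_lit 581538515825844104679162246370748930) (nat_lit 0) Tr.leaf) (nat_lit 581538515830679807957620763069047296) (nat_lit 33849996737311828817018887) Tr.leaf) (nat_lit 
  581538515834306585416464650594218496) (nat_lit 0) (Tr.node (Tr.node Tr.leaf (nat_lit 581543586428244943808666038439047748) (nat_lit 0) Tr.leaf) (nat_lit 581543586505616196264002305619716674) 
  (nat_lit 0) Tr.leaf)) (nat_lit 581543586505617376855623023030493696) (nat_lit 4503668346847232) (Tr.node (Tr.node (Tr.node Tr.leaf (nat_lit 581543586505617376873637421539449344) (nat_lit 
  68720525312) Tr.leaf) (nat_lit 581543586505617376873637696416829952) (nat_lit 4503668347895824) Tr.leaf) (nat_lit 581543586505617376873638246173433348) (nat_lit 0) (Tr.node Tr.leaf (nat_lit 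
  581543586505617376873639345685324354) (nat_lit 0) Tr.leaf))) (nat_lit 1163077031685537468214614133575712768) (nat_lit 65537) (Tr.node (Tr.node (Tr.node (Tr.node Tr.leaf (nat_lit 
  1163077031689164245673458021100883968) (nat_lit 65537) Tr.leaf) (nat_lit 1163077032227140957840508467527352832) (nat_lit 65537) Tr.leaf) (nat_lit 1163077032230767735299352355052524032) (nat_lit 
  65537) (Tr.node Tr.leaf (nat_lit 1163077071303849965715434132459685888) (nat_lit 65537) Tr.leaf)) (nat_lit 1163077071304378871914454629516774400) (nat_lit 65537) (Tr.node (Tr.node (Tr.node Tr.leaf 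
  (nat_lit 1163077071845453455341328466411325952) (nat_lit 65537) Tr.leaf) (nat_lit 1163077071845982361540348963468414464) (nat_lit 65537) Tr.leaf) (nat_lit 5316993117575709805601526560129881600) 
  (nat_lit 35742709515265) (Tr.node Tr.leaf (nat_lit 5316993117575709805673584155007065088) (nat_lit 309489732467051665052139520) Tr.leaf))))) (nat_lit 85071889873774496373993593660886675516) (nat_lit 
  0) (Tr.node (Tr.node (Tr.node (Tr.node (Tr.node (Tr.node Tr.leaf (nat_lit 85071889873774496378605279680354382336) (nat_lit 4951835719040507466295017472) Tr.leaf) (nat_lit 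
  85071889873774496380911122688528810044) (nat_lit 0) Tr.leaf) (nat_lit 85071889873774496382064061786361494016) (nat_lit 4951835719040507466496345088) (Tr.node (Tr.node Tr.leaf (nat_lit 
  85071889873774496382928752914750573056) (nat_lit 520094720) Tr.leaf) (nat_lit 85071889873774505827805833842116329984) (nat_lit 550284297216) Tr.leaf)) (nat_lit 
  85071889953002658892869617273898859008) (nat_lit 4951835723652193484722405376) (Tr.node (Tr.node (Tr.node Tr.leaf (nat_lit 85071889953002658895175460283113605632) (nat_lit 
  4951835723652193484856623104) Tr.leaf) (nat_lit 85071890111458983916786606441519710720) (nat_lit 0) Tr.leaf) (nat_lit 85071890111458983921398292460987680768) (nat_lit 4951835732875565521577181184) 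
  (Tr.node Tr.leaf (nat_lit 85071890111458983923704135469161845248) (nat_lit 0) Tr.leaf))) (nat_lit 85071890111458983924857074565954210314) (nat_lit 0) (Tr.node (Tr.node (Tr.node (Tr.node Tr.leaf 
  (nat_lit 85071890111458983925433535319197814784) (nat_lit 234882048) Tr.leaf) (nat_lit 85071890111458983925721765694410398218) (nat_lit 0) Tr.leaf) (nat_lit 85071890111458993370598846621776155136) 
  (nat_lit 0) (Tr.node Tr.leaf (nat_lit 85071890111458993370670904216653601792) (nat_lit 549785174016) Tr.leaf)) (nat_lit 85071890428371633973843956816736225792) (nat_lit 4951835751322309595018297344) 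
  (Tr.node (Tr.node (Tr.node Tr.leaf (nat_lit 85071890428371633978455642835163613696) (nat_lit 4951835751322309595286732800) Tr.leaf) (nat_lit 85071890428371633980761485844378360320) (nat_lit 
  4951835751322309595420950528) Tr.leaf) (nat_lit 170143780203114553779550661747347618304) (nat_lit 65543) (Tr.node Tr.leaf (nat_lit 170143780237776950438557956865567291904) (nat_lit 
  9903671438945640086656516096) Tr.leaf)))) (nat_lit 170143780836939853893665362497846967808) (nat_lit 9903671446151395092335689728) (Tr.node (Tr.node (Tr.node (Tr.node (Tr.node Tr.leaf (nat_lit 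
  170143780871602250552672657613952712192) (nat_lit 9903671448169012123511291904) Tr.leaf) (nat_lit 170143782104590454121894763992403479040) (nat_lit 65543) Tr.leaf) (nat_lit 
  170143782139252850780902059110623152640) (nat_lit 9903671438945640086656516096) (Tr.node (Tr.node Tr.leaf (nat_lit 170309938139364769062466542765263875584) (nat_lit 65537) Tr.leaf) (nat_lit 
  170309938139364769062466542868344406528) (nat_lit 0) Tr.leaf)) (nat_lit 170309938159171809691032627268844718080) (nat_lit 9903671438080944560087760896) (Tr.node (Tr.node (Tr.node Tr.leaf (nat_lit 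
  170309938174027165721473837881369619968) (nat_lit 65537) Tr.leaf) (nat_lit 170309938174027165721473837984450150912) (nat_lit 0) Tr.leaf) (nat_lit 170309973633891065185077612714404414976) (nat_lit 
  65543) (Tr.node Tr.leaf (nat_lit 170309973668553461844084907830510159360) (nat_lit 65543) Tr.leaf))) (nat_lit 297749667798466477578316139433328966144) (nat_lit 17331311681863676741730435072) 
  (Tr.node (Tr.node (Tr.node (Tr.node Tr.leaf (nat_lit 297749667798466477578316139534261750320) (nat_lit 0) Tr.leaf) (nat_lit 297749667818273518206882223934761930240) (nat_lit 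
  17331311673793226209482506240) Tr.leaf) (nat_lit 297749667833128874237323434547287226880) (nat_lit 65537) (Tr.node Tr.leaf (nat_lit 297749667833128874237323434650367494717) (nat_lit 0) Tr.leaf)) 
  (nat_lit 297749668432291777692430840181680568832) (nat_lit 17331311681863676741730435072) (Tr.node (Tr.node (Tr.node Tr.leaf (nat_lit 297749668432291777692430840284761099776) (nat_lit 
  17331311681863676741730435072) Tr.leaf) (nat_lit 297749668466954174351438135400867370496) (nat_lit 17331311683881293772906037248) Tr.leaf) (nat_lit 297749669699942377920660241678384826880) (nat_lit 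
  17331311681863676741730435072) (Tr.node Tr.leaf (nat_lit 297749669699942377920660241779317611056) (nat_lit 0) Tr.leaf)))))) 

/-- Part of the table. -/
def tab8 : Tr :=
  (Tr.node (Tr.node (Tr.node (Tr.node (Tr.node (Tr.node (Tr.node Tr.leaf (nat_lit 297749669734604774579667536792343087616) (nat_lit 65537) Tr.leaf) (nat_lit 297749669734604774579667536895423355453) 
  (nat_lit 0) Tr.leaf) (nat_lit 297915825734716692861232020554325754368) (nat_lit 17331311681863676741730435072) (Tr.node (Tr.node Tr.leaf (nat_lit 297915825734716692861232020655258538496) (nat_lit 0) 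
  Tr.leaf) (nat_lit 297915825754523733489798105055759113216) (nat_lit 17331311673793226209482506240) Tr.leaf)) (nat_lit 297915825769379089520239315668284278272) (nat_lit 65537) (Tr.node (Tr.node 
  (Tr.node Tr.leaf (nat_lit 297915825769379089520239315771364677699) (nat_lit 0) Tr.leaf) (nat_lit 297915830805319093774149626644320164864) (nat_lit 17331311810991166736969039879) Tr.leaf) (nat_lit 
  297915830839981490433156921760425909248) (nat_lit 17331311813008783768144642055) (Tr.node Tr.leaf (nat_lit 297915861229242988983843090400452871680) (nat_lit 17331311737204190442130833409) Tr.leaf))) 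
  (nat_lit 297915861229242988983843090501318547011) (nat_lit 0) (Tr.node (Tr.node (Tr.node (Tr.node Tr.leaf (nat_lit 297915861249050029612409174901818858496) (nat_lit 17331311673793226209482506240) 
  Tr.leaf) (nat_lit 297915861263905385642850385514344023552) (nat_lit 65537) Tr.leaf) (nat_lit 297915861263905385642850385617424422979) (nat_lit 0) (Tr.node (Tr.node Tr.leaf (nat_lit 
  319017316399512828317899048365319855616) (nat_lit 18569251713943302010950385664) Tr.leaf) (nat_lit 319017317667163428546128449862023324160) (nat_lit 18569251713943302010950385664) Tr.leaf)) (nat_lit 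
  340287559297026369749535804566557221376) (nat_lit 1073856513) (Tr.node (Tr.node (Tr.node Tr.leaf (nat_lit 340287559297026369860215424583884399104) (nat_lit 7516258305) Tr.leaf) (nat_lit 
  340287559495096171692189833290012618814) (nat_lit 0) Tr.leaf) (nat_lit 340287559495096171696801519309480325632) (nat_lit 19807342876161924306426658816) (Tr.node Tr.leaf (nat_lit 
  340287559495096171839763785880763168256) (nat_lit 19807342876161924308305707008) Tr.leaf)))) (nat_lit 340287559495096172134911691059042910270) (nat_lit 0) (Tr.node (Tr.node (Tr.node (Tr.node 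
  (Tr.node Tr.leaf (nat_lit 340287559495096172139523377078510617088) (nat_lit 19807342876161924306426658816) Tr.leaf) (nat_lit 340287559495134858351435169551338896446) (nat_lit 0) Tr.leaf) (nat_lit 
  340287559495134858356046855570806603264) (nat_lit 19807342876161924306426658816) (Tr.node (Tr.node Tr.leaf (nat_lit 340287559495134859532026790269924999680) (nat_lit 19807342876161924338370543617) 
  Tr.leaf) (nat_lit 340287559495134866615648573266767576126) (nat_lit 0) Tr.leaf)) (nat_lit 340287559495134866620260259286235282944) (nat_lit 19807342876161924306426658816) (Tr.node (Tr.node (Tr.node 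
  Tr.leaf (nat_lit 340287559524806732635038959887592784384) (nat_lit 0) Tr.leaf) (nat_lit 340287559524806732639650645907060754432) (nat_lit 19807342877891306563336929280) Tr.leaf) (nat_lit 
  340287559524806732782612912478343202304) (nat_lit 19807342877891306565215977472) (Tr.node Tr.leaf (nat_lit 340287559524806733077760817656623075840) (nat_lit 0) Tr.leaf))) (nat_lit 
  340287559524806733082372503676091045888) (nat_lit 19807342877891306563336929280) (Tr.node (Tr.node (Tr.node (Tr.node Tr.leaf (nat_lit 340287559524845419294284296149992803840) (nat_lit 
  19807342877891306565215977472) Tr.leaf) (nat_lit 340287559524845419298895982168387032064) (nat_lit 19807342877891306563336929280) Tr.leaf) (nat_lit 340287559524845420474875916867505165312) (nat_lit 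
  19807342877891306595280814081) (Tr.node Tr.leaf (nat_lit 340287559524845427558497699864347741731) (nat_lit 0) Tr.leaf)) (nat_lit 340287559524845427563109385883815711744) (nat_lit 
  19807342877891306563336929280) (Tr.node (Tr.node (Tr.node Tr.leaf (nat_lit 340287559772398971667920061811543564800) (nat_lit 281479271743489) Tr.leaf) (nat_lit 
  340318713315865693090898232008887034368) (nat_lit 281479271743489) Tr.leaf) (nat_lit 340318713315865693090898232043247299072) (nat_lit 0) (Tr.node Tr.leaf (nat_lit 
  340318713315865693090898232111967302222) (nat_lit 0) Tr.leaf))))) (nat_lit 595499334487730217347066760140384432640) (nat_lit 0) (Tr.node (Tr.node (Tr.node (Tr.node (Tr.node (Tr.node Tr.leaf (nat_lit 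
  595499334487735053566854052720951228928) (nat_lit 34662623336057307742714576897) Tr.leaf) (nat_lit 595499334487737470957323835711631192576) (nat_lit 65537) Tr.leaf) (nat_lit 
  1361150237188105478998136462849563220480) (nat_lit 4295032835) (Tr.node (Tr.node Tr.leaf (nat_lit 1361150237188105478998136462918283223552) (nat_lit 4295032839) Tr.leaf) (nat_lit 
  1361150237188105478998136463055722703360) (nat_lit 4295032847) Tr.leaf)) (nat_lit 1361150237188105478998136463330601136640) (nat_lit 31) (Tr.node (Tr.node (Tr.node Tr.leaf (nat_lit 
  1361150237188105478998136463880357476864) (nat_lit 4295032895) Tr.leaf) (nat_lit 1361150237188105478998136464979869630976) (nat_lit 127) Tr.leaf) (nat_lit 1361150237188105478998136467178960521728) 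
  (nat_lit 79229371458530977775699951619) (Tr.node Tr.leaf (nat_lit 1361150237188105478998136471576940450304) (nat_lit 511) Tr.leaf))) (nat_lit 1361150237188105478998136480373101107712) (nat_lit 
  79229371458530977775699951619) (Tr.node (Tr.node (Tr.node (Tr.node Tr.leaf (nat_lit 1361150237188105478998136497965321232896) (nat_lit 79229371458530977775699951623) Tr.leaf) (nat_lit 
  1361150237188105479035029950962622585344) (nat_lit 6442516481) Tr.leaf) (nat_lit 1361150237188105479035036706362064956928) (nat_lit 18447025555129171969) (Tr.node Tr.leaf (nat_lit 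
  1361150237346561804026665138002291382784) (nat_lit 281479271743489) Tr.leaf)) (nat_lit 1361274852471166639889749869914193980928) (nat_lit 65537) (Tr.node (Tr.node (Tr.node Tr.leaf (nat_lit 
  1701562411768193009639284196722075558400) (nat_lit 19807342873856116480779776000) Tr.leaf) (nat_lit 2381997337950920869388260285110508642816) (nat_lit 281479271743489) Tr.leaf) (nat_lit 
  2381997337950920869388260285144869170688) (nat_lit 0) (Tr.node Tr.leaf (nat_lit 2381997337950920869388260285213588910592) (nat_lit 0) Tr.leaf)))) (nat_lit 2381997337950920869388260285351095762432) 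
  (nat_lit 138650493344229230970857914371) (Tr.node (Tr.node (Tr.node (Tr.node (Tr.node Tr.leaf (nat_lit 2381997337950920869388260285626007486976) (nat_lit 138650493344229230970857914375) Tr.leaf) 
  (nat_lit 2381997337950920869388260286175730535936) (nat_lit 138650493344229230970857914371) Tr.leaf) (nat_lit 2381997337950920869388260287275275981312) (nat_lit 138650493344229230970857914375) 
  (Tr.node (Tr.node Tr.leaf (nat_lit 2381997337950920869388260289474266471936) (nat_lit 138650493344229230970857914371) Tr.leaf) (nat_lit 2381997337950920869388260293872346800640) (nat_lit 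
  138650493344229230970857914375) Tr.leaf)) (nat_lit 2381997337950920869388260302668407057920) (nat_lit 138650493344229230970857914371) (Tr.node (Tr.node (Tr.node Tr.leaf (nat_lit 
  2381997337950920869388260320260626919936) (nat_lit 138650493344229230970857914375) Tr.leaf) (nat_lit 5444600948752421915992545851312311427584) (nat_lit 17180131335) Tr.leaf) (nat_lit 
  5444600948752421915992549228908952740352) (nat_lit 17180327937) (Tr.node Tr.leaf (nat_lit 5444600948752421916213903402394026304000) (nat_lit 30064836609) Tr.leaf))) (nat_lit 
  5444600951921567760187886550561286189122) (nat_lit 0) (Tr.node (Tr.node (Tr.node (Tr.node Tr.leaf (nat_lit 5444600951921567760224780038709846537728) (nat_lit 15032451073) Tr.leaf) (nat_lit 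
  5444600951921567760243226782782415896642) (nat_lit 0) Tr.leaf) (nat_lit 5444600951921567761368478171279872029184) (nat_lit 30064836609) (Tr.node Tr.leaf (nat_lit 
  5444600951921567761423818403501001736704) (nat_lit 33286062081) Tr.leaf)) (nat_lit 5444600951921567768452099954276714868802) (nat_lit 0) (Tr.node (Tr.node (Tr.node Tr.leaf (nat_lit 
  5444600951921567768488993442425275348992) (nat_lit 15032451073) Tr.leaf) (nat_lit 5444600951921567768507440186497844576322) (nat_lit 0) Tr.leaf) (nat_lit 5444600951921568364715359962133857762370) 
  (nat_lit 0) (Tr.node Tr.leaf (nat_lit 5444600951921568364719971648153325732352) (nat_lit 35186251137024) Tr.leaf)))))) 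

/-- Part of the table. -/
def tab9 : Tr :=
  (Tr.node (Tr.node (Tr.node (Tr.node (Tr.node (Tr.node (Tr.node Tr.leaf (nat_lit 5444600951921568372979573365849286442050) (nat_lit 0) Tr.leaf) (nat_lit 5444600951921568372984185051868754412032) 
  (nat_lit 35186251137024) Tr.leaf) (nat_lit 5444600967133374962926639368521725837824) (nat_lit 0) (Tr.node (Tr.node Tr.leaf (nat_lit 5444600967133374962963532856670286054912) (nat_lit 15032451073) 
  Tr.leaf) (nat_lit 5444600967133374962981979600742855545344) (nat_lit 0) Tr.leaf)) (nat_lit 5444600967133374964107230989240311941120) (nat_lit 30064836609) (Tr.node (Tr.node (Tr.node Tr.leaf (nat_lit 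
  5444600967133374964162571221461441648640) (nat_lit 33286062081) Tr.leaf) (nat_lit 5444600967133374971190852772237154517504) (nat_lit 0) Tr.leaf) (nat_lit 5444600967133374971227746260385714997760) 
  (nat_lit 15032451073) (Tr.node Tr.leaf (nat_lit 5444600967133374971246193004458284225024) (nat_lit 0) Tr.leaf))) (nat_lit 5444600967133375567454112780095438261760) (nat_lit 35201015152641) (Tr.node 
  (Tr.node (Tr.node (Tr.node Tr.leaf (nat_lit 5444600967133375567458724466113765381120) (nat_lit 35186251137024) Tr.leaf) (nat_lit 5444600967133375568634704400812883514368) (nat_lit 35218195021825) 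
  Tr.leaf) (nat_lit 5444600967133375575718326183809726090781) (nat_lit 0) (Tr.node (Tr.node Tr.leaf (nat_lit 5444600967133375575722937869829194060800) (nat_lit 35186251137024) Tr.leaf) (nat_lit 
  5444637295147349145767670450026457391616) (nat_lit 2115638631351162626965505) Tr.leaf)) (nat_lit 9527927043290628602119127041177641083392) (nat_lit 281479271743489) (Tr.node (Tr.node (Tr.node 
  Tr.leaf (nat_lit 9527927043290628602119127041212001611264) (nat_lit 0) Tr.leaf) (nat_lit 9527927043290628602119127041280721351168) (nat_lit 0) Tr.leaf) (nat_lit 
  9527927043290628602119127041418228203008) (nat_lit 554598346544117003336963653635) (Tr.node Tr.leaf (nat_lit 9527927043290628602119127041693139927552) (nat_lit 554598346544117003336963653639) 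
  Tr.leaf)))) (nat_lit 9527927043290628602119127042242862976512) (nat_lit 554598346544117003336963653635) (Tr.node (Tr.node (Tr.node (Tr.node (Tr.node Tr.leaf (nat_lit 
  9527927043290628602119127043342408421888) (nat_lit 554598346544117003336963653639) Tr.leaf) (nat_lit 9527927043290628602119127045541398912512) (nat_lit 554598346544117003336963653635) Tr.leaf) 
  (nat_lit 9527927043290628602119127049939479241216) (nat_lit 554598346544117003336963653639) (Tr.node (Tr.node Tr.leaf (nat_lit 9527989351803683477553041140493531017730) (nat_lit 0) Tr.leaf) (nat_lit 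
  9527989351803722163179268808627122931200) (nat_lit 17180131335) Tr.leaf)) (nat_lit 10889201899723198531945027230143474104832) (nat_lit 65543) (Tr.node (Tr.node (Tr.node Tr.leaf (nat_lit 
  10889201899881654856973555905332776861184) (nat_lit 64563885737255174151) Tr.leaf) (nat_lit 10889201899960883019487820242924107008512) (nat_lit 65543) Tr.leaf) (nat_lit 
  10889201935217724828067638299991781997056) (nat_lit 129127489995238604807) (Tr.node Tr.leaf (nat_lit 10889201935376181153096166975178836606464) (nat_lit 64563885737255174151) Tr.leaf))) (nat_lit 
  10889201935455409315610431312772414900736) (nat_lit 142962548050520768519) (Tr.node (Tr.node (Tr.node (Tr.node Tr.leaf (nat_lit 10889204496148926368158766676865962536448) (nat_lit 65537) Tr.leaf) 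
  (nat_lit 10889204496148926368158766676969043067392) (nat_lit 0) Tr.leaf) (nat_lit 10889204496183588764817773972085149074944) (nat_lit 65543) (Tr.node Tr.leaf (nat_lit 
  10889204501219528769071684282958104430592) (nat_lit 151260995842888381300743) Tr.leaf)) (nat_lit 10889204531643452664281377746712022281728) (nat_lit 65537) (Tr.node (Tr.node (Tr.node Tr.leaf 
  (nat_lit 10889204531643452664281377746815102812672) (nat_lit 0) Tr.leaf) (nat_lit 10889204531678115060940385041931208820224) (nat_lit 65543) Tr.leaf) (nat_lit 
  16333636690222452746820536666725536033362) (nat_lit 0) (Tr.node Tr.leaf (nat_lit 21778403795009745691524067680751870603776) (nat_lit 295155786495880855559) Tr.leaf))))) (nat_lit 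
  21778403807686154980552445886825346560068) (nat_lit 0) (Tr.node (Tr.node (Tr.node (Tr.node (Tr.node (Tr.node Tr.leaf (nat_lit 21778403807686154981733037507543932400128) (nat_lit 30064836609) 
  Tr.leaf) (nat_lit 21778403807686154984094220748977581523012) (nat_lit 0) Tr.leaf) (nat_lit 21778403807686154988816659289442438674944) (nat_lit 30064836609) (Tr.node (Tr.node Tr.leaf (nat_lit 
  21778403807686154988816659290540775239748) (nat_lit 0) Tr.leaf) (nat_lit 21778403807686154998261392256281341261824) (nat_lit 1267669944074363155761630085121) Tr.leaf)) (nat_lit 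
  21778403807686155017150858186660378118656) (nat_lit 1267669944074363155624191131649) (Tr.node (Tr.node (Tr.node Tr.leaf (nat_lit 21778403807686155017150858187758647574596) (nat_lit 0) Tr.leaf) 
  (nat_lit 21778403807688630935008360810167337550336) (nat_lit 1267669944074363155624191131649) Tr.leaf) (nat_lit 21778403807688630935008360811265607269444) (nat_lit 0) (Tr.node Tr.leaf (nat_lit 
  21778403807688631010566224537181306814976) (nat_lit 1267669944074363157685779628097) Tr.leaf))) (nat_lit 21778403807688631463918018647954773313024) (nat_lit 1267669944074363155624191131649) (Tr.node 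
  (Tr.node (Tr.node (Tr.node Tr.leaf (nat_lit 21778403807688631463918018649053042768964) (nat_lit 0) Tr.leaf) (nat_lit 21778403808953805581961266909040636131840) (nat_lit 30064836609) Tr.leaf) 
  (nat_lit 21778403808953805584322450150475459791360) (nat_lit 30064836609) (Tr.node Tr.leaf (nat_lit 21778403809587630880894789989070402552320) (nat_lit 0) Tr.leaf)) (nat_lit 
  21778403809587630882075381609788988655616) (nat_lit 30064836609) (Tr.node (Tr.node (Tr.node Tr.leaf (nat_lit 21778403809587630884436564851222637515264) (nat_lit 0) Tr.leaf) (nat_lit 
  21778403809587630889159003391686320130582) (nat_lit 0) Tr.leaf) (nat_lit 21778403809587630889159003392785831232000) (nat_lit 0) (Tr.node Tr.leaf (nat_lit 21778403809587630898603736357426886283264) 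
  (nat_lit 1267669944185043620203887394817) Tr.leaf)))) (nat_lit 21778403809587630898603736358526397254144) (nat_lit 1267669944185043620203887394817) (Tr.node (Tr.node (Tr.node (Tr.node (Tr.node 
  Tr.leaf (nat_lit 21778403809587630917493202288904192465430) (nat_lit 0) Tr.leaf) (nat_lit 21778403809587630917493202290003703566848) (nat_lit 0) Tr.leaf) (nat_lit 
  21778403809590106835350704912411151897088) (nat_lit 0) (Tr.node (Tr.node Tr.leaf (nat_lit 21778403809590106835350704913510663261737) (nat_lit 0) Tr.leaf) (nat_lit 
  21778403809590106910908568638326851705856) (nat_lit 1267669944185043622128036937729) Tr.leaf)) (nat_lit 21778403809590106910908568639426362807296) (nat_lit 1267669944185043622128036937793) (Tr.node 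
  (Tr.node (Tr.node Tr.leaf (nat_lit 21778403809590107364260362750198587659817) (nat_lit 0) Tr.leaf) (nat_lit 21778403809590107364260362751298098761257) (nat_lit 0) Tr.leaf) (nat_lit 
  21778403809904543530951847339445753285120) (nat_lit 30064836609) (Tr.node Tr.leaf (nat_lit 21778403809904543532132438960163164588544) (nat_lit 30064836609) Tr.leaf))) (nat_lit 
  21778403809904543534493622201597988248064) (nat_lit 30064836609) (Tr.node (Tr.node (Tr.node (Tr.node Tr.leaf (nat_lit 38111708173162514408476511542358702092800) (nat_lit 0) Tr.leaf) (nat_lit 
  76223416348543383516912951856942106081792) (nat_lit 55340513700400398337) Tr.leaf) (nat_lit 76223416348543383516912951857042971757104) (nat_lit 0) (Tr.node Tr.leaf (nat_lit 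
  76223416348701839841941480532129193982464) (nat_lit 64563885737255174145) Tr.leaf)) (nat_lit 76223416348701839841941480532232274513408) (nat_lit 64563885737255174151) (Tr.node (Tr.node (Tr.node 
  Tr.leaf (nat_lit 76223416348781068004455744869722738985472) (nat_lit 69175571755682562049) Tr.leaf) (nat_lit 76223416348781068004455744869823604660784) (nat_lit 0) Tr.leaf) (nat_lit 
  76223416353613985917825869463032032988672) (nat_lit 129127489995238604807) (Tr.node Tr.leaf (nat_lit 76223416353851670405368662475812665892352) (nat_lit 142962548050520768519) Tr.leaf)))))) 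

/-- Part of the table. -/
def tab10 : Tr :=
  (Tr.node (Tr.node (Tr.node (Tr.node (Tr.node (Tr.node (Tr.node Tr.leaf (nat_lit 76223416384037909813035562926889031502403) (nat_lit 0) Tr.leaf) (nat_lit 76223416384196366138064091602078334785024) 
  (nat_lit 64563885737255174151) Tr.leaf) (nat_lit 76223416384275594300578355939566584138240) (nat_lit 65537) (Tr.node (Tr.node Tr.leaf (nat_lit 76223416384275594300578355939669664406083) (nat_lit 0) 
  Tr.leaf) (nat_lit 76223418944969111353126691303767675044352) (nat_lit 151187208866593543094273) Tr.leaf)) (nat_lit 76223418944969111353126691303868540719616) (nat_lit 0) (Tr.node (Tr.node (Tr.node 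
  Tr.leaf (nat_lit 76223418944988918393755257388269041294336) (nat_lit 151123797902360894767104) Tr.leaf) (nat_lit 76223418945003773749785698598883713943040) (nat_lit 151133885969924318298112) 
  Tr.leaf) (nat_lit 76223418945003773749785698598984646727229) (nat_lit 0) (Tr.node Tr.leaf (nat_lit 76223418950039713754039608909857602345984) (nat_lit 151260995842888381300743) Tr.leaf))) (nat_lit 
  76223418950074376150698616204973708090368) (nat_lit 151263013459919556902919) (Tr.node (Tr.node (Tr.node (Tr.node Tr.leaf (nat_lit 76223418980463637649249302373611520460288) (nat_lit 65537) Tr.leaf) 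
  (nat_lit 76223418980463637649249302373714600859709) (nat_lit 0) Tr.leaf) (nat_lit 76223418980483444689877868458115101039616) (nat_lit 151123797902360894767104) (Tr.node (Tr.node Tr.leaf (nat_lit 
  76223418980498300045908309668727626204672) (nat_lit 65537) Tr.leaf) (nat_lit 76223418980498300045908309668830706604093) (nat_lit 0) Tr.leaf)) (nat_lit 163335702315956612784687991104611030998528) 
  (nat_lit 138350862032093380615) (Tr.node (Tr.node (Tr.node Tr.leaf (nat_lit 163335702316035840947202255442204575212032) (nat_lit 142962548050520768519) Tr.leaf) (nat_lit 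
  348454460922980375342299547536546814688328) (nat_lit 0) Tr.leaf) (nat_lit 348454460922980375417857411262462513970688) (nat_lit 2253994546233409) (Tr.node Tr.leaf (nat_lit 
  348454460922980375871209205373236114949632) (nat_lit 2253994546233345) Tr.leaf)))) (nat_lit 348454460922980375871209205374334250187848) (nat_lit 0) (Tr.node (Tr.node (Tr.node (Tr.node (Tr.node 
  Tr.leaf (nat_lit 348454461896536036317579727884915366499840) (nat_lit 146371381645344769) Tr.leaf) (nat_lit 348454461896536036317579727886014877601315) (nat_lit 0) Tr.leaf) (nat_lit 
  348454461896536036393137591610831066045440) (nat_lit 2253994546233345) (Tr.node (Tr.node Tr.leaf (nat_lit 348454461896536036393137591611930577146880) (nat_lit 2253994546233409) Tr.leaf) (nat_lit 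
  348454461896536036846489385722702801999395) (nat_lit 0) Tr.leaf)) (nat_lit 348454461896536036846489385723802313100835) (nat_lit 0) (Tr.node (Tr.node (Tr.node Tr.leaf (nat_lit 
  22301085486089920167905578488072945389590016) (nat_lit 70376260435969) Tr.leaf) (nat_lit 22301085499073158076919655271715486716457472) (nat_lit 1298094022732147871328385326120960) Tr.leaf) (nat_lit 
  22301085501017734029969913275192194073426432) (nat_lit 2306370779090059265) (Tr.node Tr.leaf (nat_lit 22301085501017734030498819474212691130251776) (nat_lit 65537) Tr.leaf))) (nat_lit 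
  22301085501017734058984132945943294267427328) (nat_lit 2308059628950323201) (Tr.node (Tr.node (Tr.node (Tr.node Tr.leaf (nat_lit 22301085501017734059513039144963791324252672) (nat_lit 65537) 
  Tr.leaf) (nat_lit 22301085501020269398870215632414421263909376) (nat_lit 149884264018440421377) Tr.leaf) (nat_lit 22301085501020269940473705258308755215681024) (nat_lit 149915789490714116097) 
  (Tr.node Tr.leaf (nat_lit 22301085501020269941002611457329252272506368) (nat_lit 65537) Tr.leaf)) (nat_lit 22301085501342252593828652757912882126720000) (nat_lit 1298094022864374132879521784792064) 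
  (Tr.node (Tr.node (Tr.node Tr.leaf (nat_lit 22301085501342252613171465871746948922413568) (nat_lit 1298094022864374132879521784792064) Tr.leaf) (nat_lit 22301085517243939007228809170880370392225280) 
  (nat_lit 281479271743489) Tr.leaf) (nat_lit 22301085517243939007228809170880404752884736) (nat_lit 0) (Tr.node Tr.leaf (nat_lit 22301085517243939007228809170880473472756288) (nat_lit 0) Tr.leaf))))) 
  (nat_lit 22301085517244018235391323435218067016180224) (nat_lit 2115643243037172464418823) (Tr.node (Tr.node (Tr.node (Tr.node (Tr.node (Tr.node Tr.leaf (nat_lit 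
  22301085517244018236600249254832696190360064) (nat_lit 4611756387171565568) Tr.leaf) (nat_lit 22301085517244018236600267701576769899385344) (nat_lit 70369817919488) Tr.leaf) (nat_lit 
  22301085517244018236600281536634756462861824) (nat_lit 2115643243107543087644675) (Tr.node (Tr.node Tr.leaf (nat_lit 22301085517244018236600281536634825182601728) (nat_lit 2115643243107543087644679) 
  Tr.leaf) (nat_lit 39026644384987887524057367192559216520391198) (nat_lit 0) Tr.leaf)) (nat_lit 39026644384988362896659174897196444179556864) (nat_lit 65537) (Tr.node (Tr.node (Tr.node Tr.leaf 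
  (nat_lit 39028005659840358690697146261331354712076800) (nat_lit 2271649682951860943598572923809792) Tr.leaf) (nat_lit 89204341944359680671621871227056261225824768) (nat_lit 281479271743489) Tr.leaf) 
  (nat_lit 89204341944359680671621871227056295586747392) (nat_lit 281479271743491) (Tr.node Tr.leaf (nat_lit 89204341944359680671621871227056364306618880) (nat_lit 65543) Tr.leaf))) (nat_lit 
  89204341944359680671621871227056501746230272) (nat_lit 65551) (Tr.node (Tr.node (Tr.node (Tr.node Tr.leaf (nat_lit 89204341944359680671621871227056776624531968) (nat_lit 65567) Tr.leaf) (nat_lit 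
  89204341944359680671621871227057326381003776) (nat_lit 65599) Tr.leaf) (nat_lit 89204341944359680671621871227058425893026304) (nat_lit 65663) (Tr.node Tr.leaf (nat_lit 
  89204341944359680671621871227060624916939776) (nat_lit 65791) Tr.leaf)) (nat_lit 89204341944359680671621871227065022963845632) (nat_lit 66047) (Tr.node (Tr.node (Tr.node Tr.leaf (nat_lit 
  89204341944359680671621871227073819124634624) (nat_lit 5192376087906286159508272029171715) Tr.leaf) (nat_lit 89204341944359680671621871227091411344628224) (nat_lit 
  5192376087906286159508272029171719) Tr.leaf) (nat_lit 89204341953446279403429315007924473092958720) (nat_lit 458753) (Tr.node Tr.leaf (nat_lit 89204341959936650476597826478402205005177344) (nat_lit 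
  2115643243107543087644679) Tr.leaf)))) (nat_lit 89212508721165783194744992217634658025401344) (nat_lit 281479271743491) (Tr.node (Tr.node (Tr.node (Tr.node (Tr.node Tr.leaf (nat_lit 
  89212508721165783194744992217634726745272832) (nat_lit 281479271743495) Tr.leaf) (nat_lit 89212508736742752998511989367563740557406720) (nat_lit 2115643243037172464418819) Tr.leaf) (nat_lit 
  89212508736742752998511989367563809277409792) (nat_lit 2115643243037172464418823) (Tr.node (Tr.node Tr.leaf (nat_lit 89212508736742752999720915187178438451589632) (nat_lit 2115643243107541208596487) 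
  Tr.leaf) (nat_lit 89212508736742752999720933633922443440611840) (nat_lit 2115643243107542282338307) Tr.leaf)) (nat_lit 89212508736742752999720933633922512160614912) (nat_lit 
  2115643243107542282338311) (Tr.node (Tr.node (Tr.node Tr.leaf (nat_lit 89212508736742752999720947468980464363563520) (nat_lit 281479271743489) Tr.leaf) (nat_lit 
  89212508736742752999720947468980498724091392) (nat_lit 2115643243107543087644675) Tr.leaf) (nat_lit 89212508736742752999720947468980567443831296) (nat_lit 2115643243107543087644679) (Tr.node Tr.leaf 
  (nat_lit 111505427440834194556597008125657998278316544) (nat_lit 5192376088812985135975632960815111) Tr.leaf))) (nat_lit 111513594217640297079720096834434231724728832) (nat_lit 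
  1298094023789978716324563676889095) (Tr.node (Tr.node (Tr.node (Tr.node Tr.leaf (nat_lit 111513594217640297079720115281178305433754112) (nat_lit 1298094023789978716324564750630919) Tr.leaf) (nat_lit 
  111513594217640297079720129116236257636702720) (nat_lit 281479271743489) Tr.leaf) (nat_lit 111513594217640297079720129116236291997230592) (nat_lit 1298094023789978716324565555937283) (Tr.node 
  Tr.leaf (nat_lit 111513594217640297079720129116236360716970496) (nat_lit 1298094023789978716324565555937287) Tr.leaf)) (nat_lit 156106577539951550096229026045001345745345024) (nat_lit 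
  281479271743489) (Tr.node (Tr.node (Tr.node Tr.leaf (nat_lit 156106577539951550096229026045845770677056000) (nat_lit 281479271792641) Tr.leaf) (nat_lit 156106577539952183921529140160546519029448192) 
  (nat_lit 281479271792641) Tr.leaf) (nat_lit 267610303532604665803907617414998552717487104) (nat_lit 281479272136705) (Tr.node Tr.leaf (nat_lit 267610303537797041891813940467713492893360640) (nat_lit 
  458753) Tr.leaf)))))) 

/-- Part of the table. -/
def tab11 : Tr :=
  (Tr.node (Tr.node (Tr.node (Tr.node (Tr.node (Tr.node (Tr.node Tr.leaf (nat_lit 267610303541691264535715061189111365141591552) (nat_lit 458753) Tr.leaf) (nat_lit 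
  356817367777438722686487706265776178121201152) (nat_lit 1125929971679233) Tr.leaf) (nat_lit 356817367813785117613717260001298543300104704) (nat_lit 2115638632477079713677313) (Tr.node (Tr.node 
  Tr.leaf (nat_lit 356817367813785117613717260032823809411701248) (nat_lit 1835012) Tr.leaf) (nat_lit 356817367985131904349985830478403443247608320) (nat_lit 2308059628950323201) Tr.leaf)) (nat_lit 
  356817368982052861570360237655438737863670272) (nat_lit 147578174718622105601) (Tr.node (Tr.node (Tr.node Tr.leaf (nat_lit 356817368982052861573987015114282625388841472) (nat_lit 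
  147578385824854638593) Tr.leaf) (nat_lit 356817368982052862111963727281333071815178752) (nat_lit 65537) Tr.leaf) (nat_lit 356817368982052862115590504740176959340349952) (nat_lit 65537) (Tr.node 
  Tr.leaf (nat_lit 356817368982052901188672735156258736747643392) (nat_lit 149884264018440421377) Tr.leaf))) (nat_lit 356817368982052901189201641355279233804731904) (nat_lit 149884294804833108993) 
  (Tr.node (Tr.node (Tr.node (Tr.node Tr.leaf (nat_lit 356817368982052901730805130981173567756240384) (nat_lit 65537) Tr.leaf) (nat_lit 356817370311280857899297451824369392157395968) (nat_lit 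
  2111066620362753) Tr.leaf) (nat_lit 356817370311280857900506377643984021332496896) (nat_lit 2181435364540417) (Tr.node Tr.leaf (nat_lit 356821451165841773948049045403514277626704384) (nat_lit 
  1125917086973959) Tr.leaf)) (nat_lit 356821451165841773986734671631182411218091520) (nat_lit 3377716900659207) (Tr.node (Tr.node (Tr.node Tr.leaf (nat_lit 
  356850034946971011998883734536815690803892736) (nat_lit 281479271743489) Tr.leaf) (nat_lit 356850034946971011998883734536815965682326016) (nat_lit 281479271743489) Tr.leaf) (nat_lit 
  379118454483395114691285196415768191904584192) (nat_lit 1298094022864374132879521784792064) (Tr.node Tr.leaf (nat_lit 379118455812298591922542642592792096298570240) (nat_lit 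
  1298094022845484669059109824300033) Tr.leaf)))) (nat_lit 379118455812623110476201069319575252185455104) (nat_lit 1298094022864374132879521784792064) (Tr.node (Tr.node (Tr.node (Tr.node (Tr.node 
  Tr.leaf (nat_lit 624422226709094636068479109770616937370933760) (nat_lit 281479271743489) Tr.leaf) (nat_lit 624422226709094636068479109777372336813568512) (nat_lit 281479272136705) Tr.leaf) (nat_lit 
  624422226709094715297850605201556780660879872) (nat_lit 458753) (Tr.node (Tr.node Tr.leaf (nat_lit 624422226714287012156385432830087276989573632) (nat_lit 458753) Tr.leaf) (nat_lit 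
  624422226718181234800286553544729749794906624) (nat_lit 65537) Tr.leaf)) (nat_lit 624422226718181234800286553551485149237541376) (nat_lit 458753) (Tr.node (Tr.node (Tr.node Tr.leaf (nat_lit 
  1070441214130418663215630690990523746313495650) (nat_lit 0) Tr.leaf) (nat_lit 1070441214166765058142860244726046111492267520) (nat_lit 65537) Tr.leaf) (nat_lit 
  1070441214166765058142860244757571377603864064) (nat_lit 1835012) (Tr.node Tr.leaf (nat_lit 1427269471109754890803977493517175888252824064) (nat_lit 19343108269620562676154375) Tr.leaf))) (nat_lit 
  1427278999099106694468120202451432837867434496) (nat_lit 554601973376919175683245342727) (Tr.node (Tr.node (Tr.node (Tr.node Tr.leaf (nat_lit 1427400139787884047995534938147262814715438592) (nat_lit 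
  33850291889720676517675063) Tr.leaf) (nat_lit 1427400139787884047995534938147263914227329536) (nat_lit 33850291889720676517675127) Tr.leaf) (nat_lit 2497688906836378544273916660440018882696636962) 
  (nat_lit 0) (Tr.node Tr.leaf (nat_lit 2497688906836378861191402420775827773570210304) (nat_lit 65537) Tr.leaf)) (nat_lit 2497688906836378861191402420807353039681806848) (nat_lit 1835012) (Tr.node 
  (Tr.node (Tr.node Tr.leaf (nat_lit 2497688906857148048625541731289949758886564352) (nat_lit 65537) Tr.leaf) (nat_lit 2497688906857148048625541731321475024998160896) (nat_lit 1835012) Tr.leaf) 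
  (nat_lit 2497688906872724939201146214175541247875277312) (nat_lit 65537) (Tr.node Tr.leaf (nat_lit 2497688906872724939201146214180044916221071872) (nat_lit 65537) Tr.leaf))))) (nat_lit 
  2497688906872724939201146214207066513986873856) (nat_lit 1835012) (Tr.node (Tr.node (Tr.node (Tr.node (Tr.node (Tr.node Tr.leaf (nat_lit 1461523938416420162142692061525453900060684769792) (nat_lit 
  19809156267197435552423018499) Tr.leaf) (nat_lit 1461523938416420162142692061525453900129404772864) (nat_lit 19809156267197435552423018503) Tr.leaf) (nat_lit 
  1461523939267092329792756312604230152062204178944) (nat_lit 85071889873774042895377060732663234560) (Tr.node (Tr.node Tr.leaf (nat_lit 1461523939267092329827418709263237447178309923328) (nat_lit 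
  85071889873774042897394677763838836736) Tr.leaf) (nat_lit 1461523939267092330426581612718344852810589862400) (nat_lit 85071889873774042904600432769518010368) Tr.leaf)) (nat_lit 
  1461523939267092330461244009377352147926695738368) (nat_lit 85071889873774042906618049800693612544) (Tr.node (Tr.node (Tr.node Tr.leaf (nat_lit 1461523939267092331694232212946574254307260039680) 
  (nat_lit 85071889873774042895377060732663234560) Tr.leaf) (nat_lit 1461523939267092331728894609605581549423365784064) (nat_lit 85071889873774042897394677763838836736) Tr.leaf) (nat_lit 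
  1461523939267258487729006527887146033078006901760) (nat_lit 65537) (Tr.node Tr.leaf (nat_lit 1461523939267258487729006527887146033181087301187) (nat_lit 0) Tr.leaf))) (nat_lit 
  1461523939267258523223532824009757103029261107200) (nat_lit 85071889873774042895377060732663234560) (Tr.node (Tr.node (Tr.node (Tr.node Tr.leaf (nat_lit 
  1461523939267258523258195220668764398145366851584) (nat_lit 85071889873774042897394677763838836736) Tr.leaf) (nat_lit 1461523939352162922191478625243195799784604894720) (nat_lit 
  85071889878725803054536198863435333632) Tr.leaf) (nat_lit 1461523939352162923459129225471425201281308363264) (nat_lit 85071889878725803054536198863435333632) (Tr.node Tr.leaf (nat_lit 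
  1461523939394698217388108236402995629743924113920) (nat_lit 65537) Tr.leaf)) (nat_lit 1461523939394698217388108236402995629847004644925) (nat_lit 0) (Tr.node (Tr.node (Tr.node Tr.leaf (nat_lit 
  1461523939394698217407915277031561714247504693248) (nat_lit 85071889881201683132242263886664826880) Tr.leaf) (nat_lit 1461523939394698217422770633062002924860029858304) (nat_lit 65537) Tr.leaf) 
  (nat_lit 1461523939394698217422770633062002924963110389309) (nat_lit 0) (Tr.node Tr.leaf (nat_lit 1461523939394698218021933536517110330597503994368) (nat_lit 85071889881201683140312714418912755712) 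
  Tr.leaf)))) (nat_lit 1461523939394698218056595933176117625713610001920) (nat_lit 85071889881201683142330331450088357888) (Tr.node (Tr.node (Tr.node (Tr.node (Tr.node Tr.leaf (nat_lit 
  1461523939394698219289584136745339731988979974656) (nat_lit 65537) Tr.leaf) (nat_lit 1461523939394698219289584136745339732092060505661) (nat_lit 0) Tr.leaf) (nat_lit 
  1461523939394698219309391177373905816492560553984) (nat_lit 85071889881201683132242263886664826880) (Tr.node (Tr.node Tr.leaf (nat_lit 1461523939394698219324246533404347027105085719040) (nat_lit 
  65537) Tr.leaf) (nat_lit 1461523939394698219324246533404347027208166250045) (nat_lit 0) Tr.leaf)) (nat_lit 1461523939394864375324358451685911510867068648960) (nat_lit 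
  85071889881201683140312714418912755712) (Tr.node (Tr.node (Tr.node Tr.leaf (nat_lit 1461523939394864375324358451685911510968001433182) (nat_lit 0) Tr.leaf) (nat_lit 
  1461523939394864375359020848344918806084107440640) (nat_lit 4295032839) Tr.leaf) (nat_lit 1461523939394864380394960852598829116957063059456) (nat_lit 85071889881201683269440204414151360519) (Tr.node 
  Tr.leaf (nat_lit 1461523939394864380429623249257836412073168803840) (nat_lit 85071889881201683271457821445326962695) Tr.leaf))) (nat_lit 1461523939394864410818884747808522580710980910592) (nat_lit 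
  65537) (Tr.node (Tr.node (Tr.node (Tr.node Tr.leaf (nat_lit 1461523939394864410818884747808522580814061441536) (nat_lit 0) Tr.leaf) (nat_lit 1461523939394864410838691788437088665214561621504) 
  (nat_lit 85071889881201683132242263886664826880) Tr.leaf) (nat_lit 1461523939394864410853547144467529875827086654976) (nat_lit 65537) (Tr.node Tr.leaf (nat_lit 
  1461523939394864410853547144467529875930167185920) (nat_lit 0) Tr.leaf)) (nat_lit 1461523939415965865355329287028463837929710094848) (nat_lit 85071889882439623172392339688132706304) (Tr.node 
  (Tr.node (Tr.node Tr.leaf (nat_lit 1461523939415965865954492190483571243561990033920) (nat_lit 85071889882439623179598094693811879936) Tr.leaf) (nat_lit 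
  1461523939415965865974299231112137327960342730240) (nat_lit 85071889882439623171527644161563951104) Tr.leaf) (nat_lit 1461523939415965865989154587142578538574981956096) (nat_lit 
  85071889882439623172392339688132706304) (Tr.node Tr.leaf (nat_lit 1461523939415965865989154587142578538678062487040) (nat_lit 85071889882439623172392339688132706304) Tr.leaf)))))) 

/-- Part of the table. -/
def tab12 : Tr :=
  (Tr.node (Tr.node (Tr.node (Tr.node (Tr.node (Tr.node (Tr.node Tr.leaf (nat_lit 1461523939415965867241949831340366729457046198784) (nat_lit 85071889882439623171527644161563951104) Tr.leaf) (nat_lit 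
  1461523939415965867256805187370807940071685687808) (nat_lit 85071889882439623172392339688132706304) Tr.leaf) (nat_lit 1461523939415965867256805187370807940174765955584) (nat_lit 
  85071889882439623172392339688132706304) (Tr.node (Tr.node Tr.leaf (nat_lit 1461523939416132058786105798433990788896767023104) (nat_lit 85071889882439623172392339688132706304) Tr.leaf) (nat_lit 
  1461524015639382249076321614229902853612847047168) (nat_lit 85071889882439623172392339688132706304) Tr.leaf)) (nat_lit 1461524102730400532904009606887341443181158147584) (nat_lit 
  85071889881201683271457821445326962695) (Tr.node (Tr.node (Tr.node Tr.leaf (nat_lit 1461524102751668180836568260853802356145509706240) (nat_lit 85071889882439623172392339688132706304) Tr.leaf) 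
  (nat_lit 1461540665336562758562375529862544351010644093440) (nat_lit 85072863379917567726787250430865862656) Tr.leaf) (nat_lit 1461613150925120558421535181373033501596219138560) (nat_lit 
  85071889824258405839948220034447376387) (Tr.node Tr.leaf (nat_lit 1461613150925120558500764552845399255947929510400) (nat_lit 4611756389050613760) Tr.leaf))) (nat_lit 
  2557650166414566196776623616331560812897191911936) (nat_lit 65537) (Tr.node (Tr.node (Tr.node (Tr.node Tr.leaf (nat_lit 2557650166414597350795455686062666164768274964992) (nat_lit 281479271743489) 
  Tr.leaf) (nat_lit 2557650166414597350795455686062666164802635492864) (nat_lit 0) Tr.leaf) (nat_lit 2557650166414597350795455686062666164871355232832) (nat_lit 0) (Tr.node (Tr.node Tr.leaf (nat_lit 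
  2557650166414597350874685057502750117025353096704) (nat_lit 4611756387171565568) Tr.leaf) (nat_lit 2557650166414597350874685057502750117094072836608) (nat_lit 4611756387171565568) Tr.leaf)) (nat_lit 
  2557650166414597350874685057535031919154345864704) (nat_lit 4611756389050613760) (Tr.node (Tr.node (Tr.node Tr.leaf (nat_lit 2557650166414597350874685057535031919223065604608) (nat_lit 
  4611756389050613760) Tr.leaf) (nat_lit 2557739370756520940971775682789255187975731207680) (nat_lit 148874833621934367739330958927903916035) Tr.leaf) (nat_lit 
  2557739370756520940971775682789255188044450947584) (nat_lit 148874833621934367739330958927903916039) (Tr.node Tr.leaf (nat_lit 2557739370756520941051005054261620942327441579520) (nat_lit 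
  4611756389050613760) Tr.leaf)))) (nat_lit 2557739370756520941051005054261620942396161319424) (nat_lit 4611756389050613760) (Tr.node (Tr.node (Tr.node (Tr.node (Tr.node Tr.leaf (nat_lit 
  2557739378923297747074298805910245766303809333760) (nat_lit 281479271743489) Tr.leaf) (nat_lit 2557739378923297747074298805910245766338169861632) (nat_lit 148874833621934367739330958927903916035) 
  Tr.leaf) (nat_lit 2557739378923297747153528177350329718560887465472) (nat_lit 148874833621934367743942715315075481603) (Tr.node (Tr.node Tr.leaf (nat_lit 
  2557739378923297747153528177350329718629607205376) (nat_lit 148874833621934367743942715315075481607) Tr.leaf) (nat_lit 2557739378923297747153528177368776462634596753920) (nat_lit 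
  5192851457788070722001193419210755) Tr.leaf)) (nat_lit 2557739378923297747153528177368776462703316756992) (nat_lit 5192851457788070722001193419210759) (Tr.node (Tr.node (Tr.node Tr.leaf (nat_lit 
  2557739378923297747153528177382611520655519705600) (nat_lit 4611756389050613760) Tr.leaf) (nat_lit 2557739378923297747153528177382611520689880233472) (nat_lit 4611756389050613760) Tr.leaf) (nat_lit 
  5846095753665556032495410952736359134919316261376) (nat_lit 4295032835) (Tr.node Tr.leaf (nat_lit 5846095753665556032495410952736359134988036264448) (nat_lit 4295032839) Tr.leaf))) (nat_lit 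
  5846095753665556032495410952736359135125475744256) (nat_lit 4295032847) (Tr.node (Tr.node (Tr.node (Tr.node Tr.leaf (nat_lit 5846095753665556032495410952736359135400354177536) (nat_lit 4295032863) 
  Tr.leaf) (nat_lit 5846095753665556032495410952736359135950110517760) (nat_lit 4295032895) Tr.leaf) (nat_lit 5846095753665556032495410952736359137049622671872) (nat_lit 127) (Tr.node Tr.leaf (nat_lit 
  5846095753665556032495410952736359139248646453760) (nat_lit 4295033087) Tr.leaf)) (nat_lit 5846095753665556032495410952736359143646693491200) (nat_lit 511) (Tr.node (Tr.node (Tr.node Tr.leaf 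
  (nat_lit 5846095753665556032495410952736359152442854148608) (nat_lit 340287559297026369749534115703797383171) Tr.leaf) (nat_lit 5846095753665556032495410952736359170034973610496) (nat_lit 2047) 
  Tr.leaf) (nat_lit 10230600665658264787106465450885208193852754678272) (nat_lit 1208944266640182156001281) (Tr.node Tr.leaf (nat_lit 10230600665658264787106465450885208193887115206144) (nat_lit 0) 
  Tr.leaf))))) (nat_lit 10230600665658264787106465450885208193955834946048) (nat_lit 0) (Tr.node (Tr.node (Tr.node (Tr.node (Tr.node (Tr.node Tr.leaf (nat_lit 
  10230600665658264787106465450885208194093341797888) (nat_lit 595499334487730217347065071277623541763) Tr.leaf) (nat_lit 10230600665658264787106465450885208194368253522432) (nat_lit 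
  595499334487730217347065071277623541767) Tr.leaf) (nat_lit 10230600665658264787106465450885208194917976571392) (nat_lit 595499334487730217347065071277623541763) (Tr.node (Tr.node Tr.leaf (nat_lit 
  10230600665658264787106465450885208196017522016768) (nat_lit 595499334487730217347065071277623541767) Tr.leaf) (nat_lit 10230600665658264787106465450885208198216512507392) (nat_lit 
  595499334487730217347065071277623541763) Tr.leaf)) (nat_lit 10230600665658264787106465450885208202614592836096) (nat_lit 595499334487730217347065071277623541767) (Tr.node (Tr.node (Tr.node Tr.leaf 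
  (nat_lit 10230600665658264787106465450885208211410653093376) (nat_lit 595499334487730217347065071277623541763) Tr.leaf) (nat_lit 10230600665658264787106465450885208229002872955392) (nat_lit 
  595499334487730217347065071277623541767) Tr.leaf) (nat_lit 10230600665658264787106465450940548426073884385792) (nat_lit 65537) (Tr.node Tr.leaf (nat_lit 
  23384383018745612533032905372505931828772546339328) (nat_lit 554601973376916923883431657479) Tr.leaf))) (nat_lit 23384383028273601887054943550018908496787175174656) (nat_lit 129127489995238604807) 
  (Tr.node (Tr.node (Tr.node (Tr.node Tr.leaf (nat_lit 23384383028273601887213399875047437171974230047232) (nat_lit 64563885737255174151) Tr.leaf) (nat_lit 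
  23384383028273601887292628037561701509567808078336) (nat_lit 142962548050520768519) Tr.leaf) (nat_lit 23384383028273601922549469846141519566633234919936) (nat_lit 129127489995238604807) (Tr.node 
  Tr.leaf (nat_lit 23384383028273601922707926171170048241820289924096) (nat_lit 64563885737255174151) Tr.leaf)) (nat_lit 23384383028273601922787154333684312579413867823616) (nat_lit 
  142962548050520768519) (Tr.node (Tr.node (Tr.node Tr.leaf (nat_lit 23384383028273604483480671386232647943507415854080) (nat_lit 65537) Tr.leaf) (nat_lit 
  23384383028273604483480671386232647943610496253501) (nat_lit 0) Tr.leaf) (nat_lit 23384383028273604483515333782891655238728850276352) (nat_lit 151263013459919556902919) (Tr.node Tr.leaf (nat_lit 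
  23384383028273604519009860079014266308574910021632) (nat_lit 151263013459919556902919) Tr.leaf)))) (nat_lit 23384383050051673405647987832826023117453489669632) (nat_lit 138350862032093380615) 
  (Tr.node (Tr.node (Tr.node (Tr.node (Tr.node Tr.leaf (nat_lit 23384383050051673405727215995340287455047033883136) (nat_lit 142962548050520768519) Tr.leaf) (nat_lit 
  23384383093607816335875128534986833123581344412160) (nat_lit 65537) Tr.leaf) (nat_lit 23384383093607816335875128534986833123684424943171) (nat_lit 0) (Tr.node (Tr.node Tr.leaf (nat_lit 
  23384383093607816336033584860015361798873727699456) (nat_lit 64563885737255174151) Tr.leaf) (nat_lit 23384383093607816336112813022529626136361977315840) (nat_lit 65537) Tr.leaf)) (nat_lit 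
  23384383093607816336112813022529626136465057846851) (nat_lit 0) (Tr.node (Tr.node (Tr.node Tr.leaf (nat_lit 23384383093607816340945730935899750729673486043136) (nat_lit 129127489995238604807) 
  Tr.leaf) (nat_lit 23384383093607816341183415423442543742454118946816) (nat_lit 142962548050520768519) Tr.leaf) (nat_lit 23384383093607816371369654831109444193427404157440) (nat_lit 65537) (Tr.node 
  Tr.leaf (nat_lit 23384383093607816371369654831109444193530484688451) (nat_lit 0) Tr.leaf))) (nat_lit 23384383093607816371528111156137972868719787707904) (nat_lit 64563885737255174151) (Tr.node 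
  (Tr.node (Tr.node (Tr.node Tr.leaf (nat_lit 23384383093607816371607339318652237206208037061120) (nat_lit 65537) Tr.leaf) (nat_lit 23384383093607816371607339318652237206311117592131) (nat_lit 0) 
  Tr.leaf) (nat_lit 23384383093607818932300856371200572570409128230400) (nat_lit 151187208866593543094273) (Tr.node Tr.leaf (nat_lit 23384383093607818932300856371200572570509993905762) (nat_lit 0) 
  Tr.leaf)) (nat_lit 23384383093607818932320663411829138654910494480384) (nat_lit 151123797902360894767104) (Tr.node (Tr.node (Tr.node Tr.leaf (nat_lit 
  23384383093607818932335518767859579865523019382272) (nat_lit 65537) Tr.leaf) (nat_lit 23384383093607818932335518767859579865626099913216) (nat_lit 0) Tr.leaf) (nat_lit 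
  23384383093607818937406121168772497471615161144832) (nat_lit 151263013459919556902919) (Tr.node Tr.leaf (nat_lit 23384383093607818967795382667323183640356053914112) (nat_lit 4295032839) 
  Tr.leaf)))))) 

/-- Part of the table. -/
def tab13 : Tr :=
  (Tr.node (Tr.node (Tr.node (Tr.node (Tr.node (Tr.node (Tr.node Tr.leaf (nat_lit 23384383093607818967830045063982190935369079127552) (nat_lit 65537) Tr.leaf) (nat_lit 
  23384383093607818967830045063982190935472159658496) (nat_lit 0) Tr.leaf) (nat_lit 23384383093926833686818424873479104629941557601792) (nat_lit 18569251713943302010950385664) (Tr.node (Tr.node 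
  Tr.leaf (nat_lit 23384383180720102267793831506639261301406390358528) (nat_lit 64563885737255174151) Tr.leaf) (nat_lit 23384383180720102267873059669153525638999968389632) (nat_lit 
  142962548050520768519) Tr.leaf)) (nat_lit 23384383180720102272864433907552178907393236997632) (nat_lit 138350862032093380615) (Tr.node (Tr.node (Tr.node Tr.leaf (nat_lit 
  23384383180720102272943662070066443244986781211136) (nat_lit 142962548050520768519) Tr.leaf) (nat_lit 23384383180720102303129901477733343696065395231232) (nat_lit 129127489995238604807) Tr.leaf) 
  (nat_lit 23384383180720102303288357802761872371149403390464) (nat_lit 138350862032093380609) (Tr.node Tr.leaf (nat_lit 23384383180720102303288357802761872371252483921408) (nat_lit 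
  138350862032093380615) Tr.leaf))) (nat_lit 23384383180720102303367585965276136708742947867136) (nat_lit 142962548050520768513) (Tr.node (Tr.node (Tr.node (Tr.node Tr.leaf (nat_lit 
  23384383180720102303367585965276136708846028134912) (nat_lit 142962548050520768519) Tr.leaf) (nat_lit 23384383180720104899590291710606090438007070332928) (nat_lit 151263013459919556902919) Tr.leaf) 
  (nat_lit 23384383181017851970646112866136543219509868175872) (nat_lit 17331311813008783768144642055) (Tr.node Tr.leaf (nat_lit 23384383181039119618578671520103004132474354215424) (nat_lit 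
  18569251852294164043043766279) Tr.leaf)) (nat_lit 23384539121239764082165681396964275586793441126912) (nat_lit 9086598731807443774394291695239169) (Tr.node (Tr.node (Tr.node Tr.leaf (nat_lit 
  24845906967668300139655322993369398580390450759168) (nat_lit 85071889881201683271457821445326962695) Tr.leaf) (nat_lit 24845906967689567787587881647335859493354802317824) (nat_lit 
  85071889882439623172392339688132706304) Tr.leaf) (nat_lit 24845906989446371622595384655025373456023616818688) (nat_lit 85071889881201683271457821445326962695) (Tr.node Tr.leaf (nat_lit 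
  24845906989467639270527943308991834368987968377344) (nat_lit 85071889882439623172392339688132706304) Tr.leaf)))) (nat_lit 24845907032874908700880156054538557729502900061696) (nat_lit 
  85071889873774042897394677763838836736) (Tr.node (Tr.node (Tr.node (Tr.node (Tr.node Tr.leaf (nat_lit 24845907032959979292610390670404401381360842640896) (nat_lit 
  85071889878725803054536198863435333632) Tr.leaf) (nat_lit 24845907033023782200913540336181173050408240487936) (nat_lit 85071889882439623172392339688132706304) Tr.leaf) (nat_lit 
  24845907033023782205984142737094090656395053441024) (nat_lit 85071889882439623172392339688132706304) (Tr.node (Tr.node Tr.leaf (nat_lit 24845907033023782236373404235644776825138194488832) (nat_lit 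
  85071889882439623170374722656957104128) Tr.leaf) (nat_lit 24845907033023782236393211276273342909536580476416) (nat_lit 85071889882439623171527644161563951104) Tr.leaf)) (nat_lit 
  24845907033023782236408066632303784120151219702272) (nat_lit 85071889882439623172392339688132706304) (Tr.node (Tr.node (Tr.node Tr.leaf (nat_lit 24845907033023782236408066632303784120254300233216) 
  (nat_lit 85071889882439623172392339688132706304) Tr.leaf) (nat_lit 24845907119987194632640402701162457232035696675328) (nat_lit 85071889873774043035745539795932217351) Tr.leaf) (nat_lit 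
  24845907120072265224370637317028300883893639254528) (nat_lit 85071889878725803192887060895528714247) (Tr.node Tr.leaf (nat_lit 24845907120114800484741228328838611639976551325184) (nat_lit 
  85071889881201683271457821445326962695) Tr.leaf))) (nat_lit 24845907120114800489811830729751529245963364146688) (nat_lit 85071889881201683271457821445326962695) (Tr.node (Tr.node (Tr.node (Tr.node 
  Tr.leaf (nat_lit 24845907120114800520201092228302215414706505326080) (nat_lit 85071889881201683269440204414151360519) Tr.leaf) (nat_lit 24845907120114800520220899268930781499104891445248) (nat_lit 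
  85071889881201683270593125918758207495) Tr.leaf) (nat_lit 24845907120114800520235754624961222709719530539520) (nat_lit 85071889881201683271457821445326962689) (Tr.node Tr.leaf (nat_lit 
  24845907120114800520235754624961222709822611070464) (nat_lit 85071889881201683271457821445326962695) Tr.leaf)) (nat_lit 24845907120136068132673786982805072552940902883840) (nat_lit 
  85071889882439623172392339688132706304) (Tr.node (Tr.node (Tr.node Tr.leaf (nat_lit 24845907120136068137744389383717990158927715705344) (nat_lit 85071889882439623172392339688132706304) Tr.leaf) 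
  (nat_lit 24845907120136068168133650882268676327670991102464) (nat_lit 85071889882439623308725584689050484743) Tr.leaf) (nat_lit 24845907120136068168153457922897242412069377090048) (nat_lit 
  85071889882439623309878506193657331719) (Tr.node Tr.leaf (nat_lit 24845907120136068168168313278927683622683882361344) (nat_lit 85071889882439623172392339688132706304) Tr.leaf))))) (nat_lit 
  24845907120136068168168313278927683622786962629120) (nat_lit 85071889882439623172392339688132706304) (Tr.node (Tr.node (Tr.node (Tr.node (Tr.node (Tr.node Tr.leaf (nat_lit 
  40922135049607226069383846937927151606627338080768) (nat_lit 1208944266640182156001281) Tr.leaf) (nat_lit 40922135049607226069383846937927151606661698608640) (nat_lit 0) Tr.leaf) (nat_lit 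
  40922135049607226069383846937927151606730418348544) (nat_lit 0) (Tr.node (Tr.node Tr.leaf (nat_lit 40922135049607226069383846937927151606867925200384) (nat_lit 
  2381981760822657150529781760294406651907) Tr.leaf) (nat_lit 40922135049607226069383846937927151607142836924928) (nat_lit 2381981760822657150529781760294406651911) Tr.leaf)) (nat_lit 
  70152435409251117512499572964754964237443950762496) (nat_lit 65537) (Tr.node (Tr.node (Tr.node Tr.leaf (nat_lit 70152435409251117512499572966821004077299048440320) (nat_lit 120259346432) Tr.leaf) 
  (nat_lit 70152435411633114850450489000432197801680918602240) (nat_lit 4083409172555613186705134166801639604225) Tr.leaf) (nat_lit 93537532058648896519926633271335630433867935048192) (nat_lit 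
  295155786495880855559) (Tr.node Tr.leaf (nat_lit 93537532068176885871730297414044564690815804828160) (nat_lit 17180131335) Tr.leaf))) (nat_lit 163688540198428904277535402258597077495423634039296) 
  (nat_lit 65537) (Tr.node (Tr.node (Tr.node (Tr.node Tr.leaf (nat_lit 163688540198428904277535402260663117335278731717120) (nat_lit 120259346432) Tr.leaf) (nat_lit 
  163688540200810901615486318294274311059660601879040) (nat_lit 9527927043290628602119127885709930987521) Tr.leaf) (nat_lit 280609741637004470049998291859019856949827301338740) (nat_lit 0) (Tr.node 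
  Tr.leaf (nat_lit 280609741637004553128015679016490142839265271012864) (nat_lit 16333636690222452746820536666725521031175) Tr.leaf)) (nat_lit 280609741637004553128015679024754302198685660145152) 
  (nat_lit 481037385728) (Tr.node (Tr.node (Tr.node Tr.leaf (nat_lit 280609741642449070998750694440168295917593951265280) (nat_lit 17180131335) Tr.leaf) (nat_lit 
  280609741646532459401801955994645241482470701719040) (nat_lit 17180131335) Tr.leaf) (nat_lit 280609741646532459401801956001728791206775171118592) (nat_lit 17180131335) (Tr.node Tr.leaf (nat_lit 
  654754160793715617110141609034388309981746032603682) (nat_lit 0) Tr.leaf)))) (nat_lit 654754160793715700188158996191858595871184002277888) (nat_lit 38111708173162514408476511542358686564359) 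
  (Tr.node (Tr.node (Tr.node (Tr.node (Tr.node Tr.leaf (nat_lit 654754160793715700188158996200122755230604391410176) (nat_lit 481037385728) Tr.leaf) (nat_lit 
  654754160799160218058894011615536748949512682793472) (nat_lit 17180131335) Tr.leaf) (nat_lit 654754160803243606461945273168833084879273513251328) (nat_lit 17180131335) (Tr.node (Tr.node Tr.leaf 
  (nat_lit 654754160803243606461945273170013694514389432984064) (nat_lit 17180131335) Tr.leaf) (nat_lit 654754160803243606461945273177097244238693902383616) (nat_lit 17180131335) Tr.leaf)) (nat_lit 
  95782432828056470067558831888955849430071255820850176) (nat_lit 1298094023789974104568176505323523) (Tr.node (Tr.node (Tr.node Tr.leaf (nat_lit 95782432828056470067558831888955849430071324540721664) 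
  (nat_lit 1298094023789974104568176505323527) Tr.leaf) (nat_lit 95782432917268978767955189961447169375427211784935936) (nat_lit 5192851457788070722001194224517127) Tr.leaf) (nat_lit 
  95783528954284468244747563881951859008090418201553408) (nat_lit 2115643243107543087644679) (Tr.node Tr.leaf (nat_lit 95783529043488810168337740201948585597113591297268224) (nat_lit 
  5192376088812985135975632960815111) Tr.leaf))) (nat_lit 95783529043496976945143842725071674305889824743680512) (nat_lit 5192851457788070722001192345468935) (Tr.node (Tr.node (Tr.node (Tr.node 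
  Tr.leaf (nat_lit 95783529043496976945143842725071692752633898452705792) (nat_lit 5192851457788070722001193419210759) Tr.leaf) (nat_lit 95783529043496976945143842725071706587691850655654400) (nat_lit 
  5192851457788070722001194224517121) Tr.leaf) (nat_lit 95783529043496976945143842725071706587691953735922176) (nat_lit 5192851457788070722001194224517127) (Tr.node Tr.leaf (nat_lit 
  167618161306145010271952805319905169434029420470393344) (nat_lit 65537) Tr.leaf)) (nat_lit 383129731312225880145619252198530032263819665500844544) (nat_lit 281479271743489) (Tr.node (Tr.node 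
  (Tr.node Tr.leaf (nat_lit 383129731312225880145619252198530032263819699861767168) (nat_lit 281479271743491) Tr.leaf) (nat_lit 383129731312225880145619252198530032263819768581638656) (nat_lit 
  281479271743495) Tr.leaf) (nat_lit 383129731312225880145619252198530032263819906021250048) (nat_lit 281479271743503) (Tr.node Tr.leaf (nat_lit 383129731312225880145619252198530032263820180899551744) 
  (nat_lit 65567) Tr.leaf)))))) 

/-- Part of the table. -/
def tab14 : Tr :=
  (Tr.node (Tr.node (Tr.node (Tr.node (Tr.node (Tr.node (Tr.node Tr.leaf (nat_lit 383129731312225880145619252198530032263821830168046080) (nat_lit 65663) Tr.leaf) (nat_lit 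
  383129731312225880145619252198530032263824029191959552) (nat_lit 65791) Tr.leaf) (nat_lit 383129731312225880145619252198530032263828427238865408) (nat_lit 66047) (Tr.node (Tr.node Tr.leaf (nat_lit 
  383129731312225880145619252198530032263837223332545536) (nat_lit 66559) Tr.leaf) (nat_lit 383129731312225880145619252198530032263854815518984704) (nat_lit 67583) Tr.leaf)) (nat_lit 
  670472645224580041087809319789213004192333250911848960) (nat_lit 1208944266640182156001281) (Tr.node (Tr.node (Tr.node Tr.leaf (nat_lit 1532518925248903520582477008794120129055278713509825024) 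
  (nat_lit 1125917086973959) Tr.leaf) (nat_lit 1532518925405010098122429192831706147894325913409610240) (nat_lit 281479271792641) Tr.leaf) (nat_lit 
  1532518926676303660287283039383154488650409124204692992) (nat_lit 83085623324609131552019094707634231) (Tr.node Tr.leaf (nat_lit 1532518926676303660287283039383154488650410223716583936) (nat_lit 
  83085623324609131552019094707634295) Tr.leaf))) (nat_lit 2681873042611059167683139792923993807691928348777826816) (nat_lit 1208944266640182156001281) (Tr.node (Tr.node (Tr.node (Tr.node Tr.leaf 
  (nat_lit 10727492170444238031882796993742811221698222115969886720) (nat_lit 281479271792641) Tr.leaf) (nat_lit 10727492170533441012676919486308954094788815561993282048) (nat_lit 281479271792641) 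
  Tr.leaf) (nat_lit 10727492170600343248272511355598161262662016999591832064) (nat_lit 281479271792641) (Tr.node (Tr.node Tr.leaf (nat_lit 10727492170600343248272511355617504370923756245738904064) 
  (nat_lit 281479271792641) Tr.leaf) (nat_lit 10727492170600343248272511355733561249605916221580564992) (nat_lit 281479271743489) Tr.leaf)) (nat_lit 
  10727492170600343248272511355733561249606760646512275968) (nat_lit 281479271792641) (Tr.node (Tr.node (Tr.node Tr.leaf (nat_lit 6277197517819508820305856982039555371951785515719854705152) (nat_lit 
  19809156267197435552423018499) Tr.leaf) (nat_lit 6277197517819508820305856982039555371951785515788574708224) (nat_lit 19809156267197435552423018503) Tr.leaf) (nat_lit 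
  6277197517819598032814557378318398491799365117255389073920) (nat_lit 365380984604097252030964997948587137038807007235) (Tr.node Tr.leaf (nat_lit 
  6277197517819598032814557378318398491799365117324109076992) (nat_lit 365380984604097252030964997948587137038807007239) Tr.leaf)))) (nat_lit 
  6277197518915724260812734567050391487808943136349050168832) (nat_lit 5192851457788070722001194224517123) (Tr.node (Tr.node (Tr.node (Tr.node (Tr.node Tr.leaf (nat_lit 
  6277197518915724260812734567050391487808943136417769908736) (nat_lit 5192851457788070722001194224517127) Tr.leaf) (nat_lit 10985023819359519393182699049445305184028552099033521377792) (nat_lit 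
  281479271743489) Tr.leaf) (nat_lit 10985023819359519393182699049445305184028552099067881905664) (nat_lit 0) (Tr.node (Tr.node Tr.leaf (nat_lit 
  10985023819359519393182699049445305184028552099136601645632) (nat_lit 0) Tr.leaf) (nat_lit 10985023819359608597524622639621625180755141122240977620480) (nat_lit 
  639412541603641549194155904082890203224294359043) Tr.leaf)) (nat_lit 10985023819359608597524622639621625180755141122309697360384) (nat_lit 639412541603641549194155904082890203224294359047) (Tr.node 
  (Tr.node (Tr.node Tr.leaf (nat_lit 10985023819359608605691399445724148303876131700569055746560) (nat_lit 281479271743489) Tr.leaf) (nat_lit 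
  10985023819359608605691399445724148303876131700603416274432) (nat_lit 639412541603641549194155904082890203224294359043) Tr.leaf) (nat_lit 10985023819359608605691399445724148303876131700672136014336) 
  (nat_lit 639412541603641549194155904082890203224294359047) (Tr.node Tr.leaf (nat_lit 10985023819359608605691399445803377675334662678374819087872) (nat_lit 4611756388245323776) Tr.leaf))) (nat_lit 
  10985023819359608605691399445803377675334662678443538827776) (nat_lit 4611756388245323776) (Tr.node (Tr.node (Tr.node (Tr.node Tr.leaf (nat_lit 
  25108790071278035281223303312082864194441685597555999160832) (nat_lit 18447025552981295107) Tr.leaf) (nat_lit 25108790071278035281223303312082864194441685597624719163904) (nat_lit 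
  18447025552981295111) Tr.leaf) (nat_lit 25108790071278035281223303312082864194441685597762158643712) (nat_lit 4295032847) (Tr.node Tr.leaf (nat_lit 
  25108790071278035281223303312082864194441685598037037076992) (nat_lit 4295032863) Tr.leaf)) (nat_lit 25108790071278035281223303312082864194441685598586793417216) (nat_lit 4295032895) (Tr.node 
  (Tr.node (Tr.node Tr.leaf (nat_lit 25108790071278035281223303312082864194441685599686305571328) (nat_lit 4295032959) Tr.leaf) (nat_lit 25108790071278035281223303312082864194441685601885329353216) 
  (nat_lit 4295033087) Tr.leaf) (nat_lit 25108790071278035281223303312082864194441685606283376390656) (nat_lit 511) (Tr.node Tr.leaf (nat_lit 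
  25108790071278035281223303312082864194441685615079469939200) (nat_lit 4295033855) Tr.leaf))))) (nat_lit 25108790071278035281223303312082864194441685632671656509952) (nat_lit 2047) (Tr.node (Tr.node 
  (Tr.node (Tr.node (Tr.node (Tr.node Tr.leaf (nat_lit 43940095277438077572730671581705863442748751930913743487488) (nat_lit 1208944266640182156001281) Tr.leaf) (nat_lit 
  43940095277438077572730671581705863442748751930948104015360) (nat_lit 0) Tr.leaf) (nat_lit 43940095277438077572730671581705863442748751931016823755264) (nat_lit 0) (Tr.node (Tr.node Tr.leaf (nat_lit 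
  43940095277438077572730671581705863442748751931154330607104) (nat_lit 2557650166414566196776616362721302048463185313795) Tr.leaf) (nat_lit 
  43940095277438077572730671581705863442748751931429242331648) (nat_lit 2557650166414566196776616362721302048463185313799) Tr.leaf)) (nat_lit 
  43940095277438077572730671581705863442748751931978965380608) (nat_lit 2557650166414566196776616362721302048463185313795) (Tr.node (Tr.node (Tr.node Tr.leaf (nat_lit 
  43940095277438077572730671581705863442748751933078510825984) (nat_lit 2557650166414566196776616362721302048463185313799) Tr.leaf) (nat_lit 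
  43940095277438077572730671581705863442748751935277501316608) (nat_lit 2557650166414566196776616362721302048463185313795) Tr.leaf) (nat_lit 
  43940095277438077572730671581705863442748751939675581645312) (nat_lit 2557650166414566196776616362721302048463185313799) (Tr.node Tr.leaf (nat_lit 
  43940095277438077572730671581705863442748751948471641902592) (nat_lit 2557650166414566196776616362721302048463185313795) Tr.leaf))) (nat_lit 
  43940095277438077572730671581705863442748751966063861764608) (nat_lit 2557650166414566196776616362721302048463185313799) (Tr.node (Tr.node (Tr.node (Tr.node Tr.leaf (nat_lit 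
  43940095277438434422765597783213510701338650713516417270272) (nat_lit 20771405831152282888004773676908557) Tr.leaf) (nat_lit 43940095277438434422765597783213510701338650713791295703552) (nat_lit 
  20771405831152282888004773676908573) Tr.leaf) (nat_lit 100435160285112141124893213248331456777766742390138061505024) (nat_lit 73788102211925180423) (Tr.node Tr.leaf (nat_lit 
  100435160285113568525032918054362045812126337520548756636160) (nat_lit 73788102211925180423) Tr.leaf)) (nat_lit 100435160285113568525032918054362045812126337521648268790272) (nat_lit 
  73788102211925180423) (Tr.node (Tr.node (Tr.node Tr.leaf (nat_lit 175759231720558373613282249469066858180898216264658468258304) (nat_lit 1208944266640182156001281) Tr.leaf) (nat_lit 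
  175759231720558373613282249469066858180898216264692828786176) (nat_lit 0) Tr.leaf) (nat_lit 175759231720558373613282249469066858180898216264761548526080) (nat_lit 0) (Tr.node Tr.leaf (nat_lit 
  175759231720558373613282249469066858180898216264899055377920) (nat_lit 10230533762401806517345961734481787901656831164419) Tr.leaf)))) (nat_lit 
  175759231720558373613282249469066858180898216265173967102464) (nat_lit 10230533762401806517345961734481787901656831164423) (Tr.node (Tr.node (Tr.node (Tr.node (Tr.node Tr.leaf (nat_lit 
  175759231720558373613282249469066858180898216265723690151424) (nat_lit 10230533762401806517345961734481787901656831164419) Tr.leaf) (nat_lit 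
  175759231720558373613282249469066858180898216266823235596800) (nat_lit 10230533762401806517345961734481787901656831164423) Tr.leaf) (nat_lit 
  175759231720558373613282249469066858180898216269022226087424) (nat_lit 10230533762401806517345961734481787901656831164419) (Tr.node (Tr.node Tr.leaf (nat_lit 
  175759231720558373613282249469066858180898216273420306416128) (nat_lit 10230533762401806517345961734481787901656831164423) Tr.leaf) (nat_lit 
  175759231720558373613282249469066858180898216282216366673408) (nat_lit 10230533762401806517345961734481787901656831164419) Tr.leaf)) (nat_lit 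
  175759231720558373613282249469066858180898216299808586535424) (nat_lit 10230533762401806517345961734481787901656831164423) (Tr.node (Tr.node (Tr.node Tr.leaf (nat_lit 
  175760381109752310290922686326823453770995007723706476712450) (nat_lit 0) Tr.leaf) (nat_lit 175760381109752310290922852480322926885479120699589013071360) (nat_lit 73788102211925180423) Tr.leaf) 
  (nat_lit 175760381109752310290923184792392552887793329229548630101504) (nat_lit 73788102211925180423) (Tr.node Tr.leaf (nat_lit 175760381109752310290923184792392552887793329230648141992448) (nat_lit 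
  73788102211925180423) Tr.leaf))) (nat_lit 175760381109753737560393962235213672835418753600318177328640) (nat_lit 73788102211925180423) (Tr.node (Tr.node (Tr.node (Tr.node Tr.leaf (nat_lit 
  175760381109753737560393962235213672835418753601417689219584) (nat_lit 73788102211925180423) Tr.leaf) (nat_lit 175760381109753737691062391132854042805354602853295356695040) (nat_lit 
  10230600665658264787106475122291765110886138904583) Tr.leaf) (nat_lit 175760381109753737691062391132854042805354602853567415503360) (nat_lit 73788102211925180423) (Tr.node Tr.leaf (nat_lit 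
  175760381109753737691062391132854042805354602854117172106752) (nat_lit 73788102211925180423) Tr.leaf)) (nat_lit 175760381109753737691062391132854042805354602855216683997696) (nat_lit 
  73788102211925180423) (Tr.node (Tr.node (Tr.node Tr.leaf (nat_lit 301302415827716526233296781115190445879267197638568933383680) (nat_lit 18447025556202520577) Tr.leaf) (nat_lit 
  301302415827716526233296781124064019423677917283112651646464) (nat_lit 18447025556202520577) Tr.leaf) (nat_lit 703036926892464095118787304209354670054228665728810860734976) (nat_lit 
  18447025556202520577) (Tr.node Tr.leaf (nat_lit 1645529666111277320190250405860662587846930307319177384986452480) (nat_lit 1208944266640182156001281) Tr.leaf)))))) 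

/-- Part of the table. -/
def tab15 : Tr :=
  (Tr.node (Tr.node (Tr.node (Tr.node (Tr.node (Tr.node (Tr.node Tr.leaf (nat_lit 1645529666111277320190250405860662587846930307319177488067246592) (nat_lit 281479271743495) Tr.leaf) (nat_lit 
  1645529666111277320190250405860662587846930307319177625506857984) (nat_lit 281479271743503) Tr.leaf) (nat_lit 1645529666111277320190250405860662587846930307319177900385159680) (nat_lit 
  281479271743519) (Tr.node (Tr.node Tr.leaf (nat_lit 1645529666111277320190250405860662587846930307319178450141631488) (nat_lit 281479271743551) Tr.leaf) (nat_lit 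
  1645529666111277320190250405860662587846930307319179549653654016) (nat_lit 65663) Tr.leaf)) (nat_lit 1645529666111277320190250405860662587846930307319181748677567488) (nat_lit 65791) (Tr.node 
  (Tr.node (Tr.node Tr.leaf (nat_lit 1645529666111277320190250405860662587846930307319186146724473344) (nat_lit 66047) Tr.leaf) (nat_lit 
  1645529666111277320190250405860662587846930307319194942818153472) (nat_lit 66559) Tr.leaf) (nat_lit 1645529666111277320190250405860662587846930307319212535004592640) (nat_lit 67583) (Tr.node Tr.leaf 
  (nat_lit 2879658084102181851806477292778675466583982206544362282499488256) (nat_lit 1208944266640182156001281) Tr.leaf))) (nat_lit 11518557010038513573120065501204765617743345501120656565079685632) 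
  (nat_lit 1208944266640182156001281) (Tr.node (Tr.node (Tr.node (Tr.node Tr.leaf (nat_lit 107841432198268670455988250598484383357136424620469609101833787714048) (nat_lit 18447025552981295107) 
  Tr.leaf) (nat_lit 107841432198268670455988250598484383357136424620469609101902507717120) (nat_lit 18447025552981295111) Tr.leaf) (nat_lit 
  107841432198268670455988250598484383357136424620469609102039947196928) (nat_lit 18447025552981295119) (Tr.node Tr.leaf (nat_lit 107841432198268670455988250598484383357136424620469609102314825630208) 
  (nat_lit 18447025552981295135) Tr.leaf)) (nat_lit 107841432198268670455988250598484383357136424620469609102864581970432) (nat_lit 4295032895) (Tr.node (Tr.node (Tr.node Tr.leaf (nat_lit 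
  107841432198268670455988250598484383357136424620469609103964094124544) (nat_lit 4295032959) Tr.leaf) (nat_lit 107841432198268670455988250598484383357136424620469609106163117906432) (nat_lit 
  4295033087) Tr.leaf) (nat_lit 107841432198268670455988250598484383357136424620469609110561164943872) (nat_lit 4295033343) (Tr.node Tr.leaf (nat_lit 
  107841432198268670455988250598484383357136424620469609119357258492416) (nat_lit 4295033855) Tr.leaf)))) (nat_lit 107841432198268670455988250598484383357136424620469609136949445063168) (nat_lit 2047) 
  (Tr.node (Tr.node (Tr.node (Tr.node (Tr.node Tr.leaf (nat_lit 188721272199720589839989295859543275378047857888091326545110259249664) (nat_lit 5192376087906286159508272029171713) Tr.leaf) (nat_lit 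
  188721272199720589839989295859543275378047857888091326545144619777536) (nat_lit 0) Tr.leaf) (nat_lit 188721272199720589839989295859543275378047857888091326545213339517440) (nat_lit 0) (Tr.node 
  (Tr.node Tr.leaf (nat_lit 188721272199720589839989295859543275378047857888091326545350846369280) (nat_lit 10985023819359519393182667895426465860687187982728432779267) Tr.leaf) (nat_lit 
  188721272199720589839989295859543275378047857888091326545625758093824) (nat_lit 10985023819359519393182667895426465860687187982728432779271) Tr.leaf)) (nat_lit 
  188721272199720589839989295859543275378047857888091326546175481142784) (nat_lit 10985023819359519393182667895426465860687187982728432779267) (Tr.node (Tr.node (Tr.node Tr.leaf (nat_lit 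
  188721272199720589839989295859543275378047857888091326547275026588160) (nat_lit 10985023819359519393182667895426465860687187982728432779271) Tr.leaf) (nat_lit 
  188721272199720589839989295859543275378047857888091326549474017078784) (nat_lit 10985023819359519393182667895426465860687187982728432779267) Tr.leaf) (nat_lit 
  188721272199720589839989295859543275378047857888091326553872097407488) (nat_lit 10985023819359519393182667895426465860687187982728432779271) (Tr.node Tr.leaf (nat_lit 
  188721272199720589839989295859543275378047857888091326562668157664768) (nat_lit 10985023819359519393182667895426465860687187982728432779267) Tr.leaf))) (nat_lit 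
  188721272199720589839989295859543275378047857888091326580260377526784) (nat_lit 10985023819359519393182667895426465860687187982728432779271) (Tr.node (Tr.node (Tr.node (Tr.node Tr.leaf (nat_lit 
  754880152209884025527996612686955519524427890761443348648286074483200) (nat_lit 5192376087906286159508272029171713) Tr.leaf) (nat_lit 
  754880152209884025527996612686955519524427890761443348648320435011072) (nat_lit 0) Tr.leaf) (nat_lit 754880152209884025527996612686955519524427890761443348648389154750976) (nat_lit 0) (Tr.node 
  Tr.leaf (nat_lit 754880152209884025527996612686955519524427890761443348648526661602816) (nat_lit 43939807930139593403320562367266714545224554066164613971971) Tr.leaf)) (nat_lit 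
  754880152209884025527996612686955519524427890761443348648801573327360) (nat_lit 43939807930139593403320562367266714545224554066164613971975) (Tr.node (Tr.node (Tr.node Tr.leaf (nat_lit 
  754880152209884025527996612686955519524427890761443348649351296376320) (nat_lit 43939807930139593403320562367266714545224554066164613971971) Tr.leaf) (nat_lit 
  754880152209884025527996612686955519524427890761443348650450841821696) (nat_lit 43939807930139593403320562367266714545224554066164613971975) Tr.leaf) (nat_lit 
  754880152209884025527996612686955519524427890761443348652649832312320) (nat_lit 43939807930139593403320562367266714545224554066164613971971) (Tr.node Tr.leaf (nat_lit 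
  754880152209884025527996612686955519524427890761443348657047912641024) (nat_lit 43939807930139593403320562367266714545224554066164613971975) Tr.leaf))))) (nat_lit 
  202637923039328478425145974677797859751866305227081644282324817632467766007296) (nat_lit 5192851457788070722001194224517123) (Tr.node (Tr.node (Tr.node (Tr.node (Tr.node (Tr.node Tr.leaf (nat_lit 
  202637923039328478425145974677797859751866305227081644282324817632536485747200) (nat_lit 5192851457788070722001194224517127) Tr.leaf) (nat_lit 
  22232194214257203341893906604916193408121861671891073410948065193035747487438336) (nat_lit 1361150237425789966540929475595821383687) Tr.leaf) (nat_lit 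
  51874969059010149370328078767140297818558977746295057805049206699061508675525120) (nat_lit 1361150237425789966540929475595821383687) (Tr.node (Tr.node Tr.leaf (nat_lit 
  30354867254374501427745350240138087912321107338795662128461507012407892364762600960) (nat_lit 6490945479462406195218216692809731) Tr.leaf) (nat_lit 
  30354867254374501427745350240138087912321107338795662128461507012407892433482340864) (nat_lit 6490945479462406195218216692809735) Tr.leaf)) (nat_lit 
  91063067501597504888397441453736728199667146769340689162409914920424291565607114240) (nat_lit 2271728919576874392264123671998465) (Tr.node (Tr.node (Tr.node Tr.leaf (nat_lit 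
  212479873265705571820863810630206659864817574210099409240648190529105809390932908544) (nat_lit 2271728919576874392264123671998465) Tr.leaf) (nat_lit 
  1989323300506400943122956737937523498489736924296729665423984369079650395942498264206848) (nat_lit 6490945479462406195218216692809731) Tr.leaf) (nat_lit 
  1989323300506400943122956737937523498489736924296729665423984369079650395942566983946752) (nat_lit 6490945479462406195218216692809735) (Tr.node Tr.leaf (nat_lit 
  5967909191582057924200711381120840995528182291932288931782825197155875600028986011078144) (nat_lit 6490945479462406195218216692809735) Tr.leaf))) (nat_lit 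
  5967909191697850013438027576544411980536870199785558916448465761195333184036899140454912) (nat_lit 6490945479462406195218216692809735) (Tr.node (Tr.node (Tr.node (Tr.node Tr.leaf (nat_lit 
  5967909191784694080366014722936330987578673852815894711511124736996764514913060476212736) (nat_lit 5192851457788070722001194224517127) Tr.leaf) (nat_lit 
  5967909191784694080366014722961439777644105792343452458790712190238469841375697159112192) (nat_lit 6490945479462406195218216692809735) Tr.leaf) (nat_lit 
  5967909191784694080366014723112090219292290004447513227759043420600389159778092038277632) (nat_lit 6490945479462406195218216692809735) (Tr.node Tr.leaf (nat_lit 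
  5967909191784694080366014723112090219293386041463002704551417341105078792441298454631936) (nat_lit 148874833621934367743942715316954529799) Tr.leaf)) (nat_lit 
  5967909191784694080366014723112090219293386130667344628141593661101805381464471550346752) (nat_lit 148880025998021065085835583406827700231) (Tr.node (Tr.node (Tr.node Tr.leaf (nat_lit 
  5967909191784694080366014723112090219293386130675511404947696184224894090240704996232704) (nat_lit 148880026473390040171421608966212354055) Tr.leaf) (nat_lit 
  5967909191784694080366014723112090219293386130675511404947696184224912536984778705784320) (nat_lit 148880026473390040171421608967286095879) Tr.leaf) (nat_lit 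
  5967909191784694080366014723112090219293386130675511404947696184224926372042730908732928) (nat_lit 148880026473390040171421608968091402241) (Tr.node Tr.leaf (nat_lit 
  5967909191784694080366014723112090219293386130675511404947696184224926372042833989000704) (nat_lit 6490945479462406195218216692809735) Tr.leaf)))) (nat_lit 
  13925080974138644198686827351469974437135480704689852410830248827446427552229451300130304) (nat_lit 6490945479462406195218216692809731) (Tr.node (Tr.node (Tr.node (Tr.node (Tr.node Tr.leaf (nat_lit 
  13925080974138644198686827351469974437135480704689852410830248827446427552229520019870208) (nat_lit 6490945479462406195218216692809735) Tr.leaf) (nat_lit 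
  13925080974254436287924143546893545422144168612543122395495889391485885136237364429770240) (nat_lit 6490945479462406195218216692809731) Tr.leaf) (nat_lit 
  13925080974254436287924143546893545422144168612543122395495889391485885136237433149510144) (nat_lit 6490945479462406195218216692809735) (Tr.node (Tr.node Tr.leaf (nat_lit 
  13925080974341280354852130693285464429185972265573458190558548367287316467113525765264896) (nat_lit 6490945479462406195218216692809731) Tr.leaf) (nat_lit 
  13925080974341280354852130693285464429185972265573458190558548367287316467113594485004800) (nat_lit 6490945479462406195218216692809735) Tr.leaf)) (nat_lit 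
  13925080974341280354852130693310573219251404205101015937838135820529021793576162448164352) (nat_lit 6490945479462406195218216692809731) (Tr.node (Tr.node (Tr.node Tr.leaf (nat_lit 
  13925080974341280354852130693310573219251404205101015937838135820529021793576231167904256) (nat_lit 6490945479462406195218216692809735) Tr.leaf) (nat_lit 
  13925080974341280354852130693461223660899588417205076706806467050890941111978557327329792) (nat_lit 85077082675714078272038870074634862595) Tr.leaf) (nat_lit 
  13925080974341280354852130693461223660899588417205076706806467050890941111978626047332864) (nat_lit 6490945479462406195218216692809735) (Tr.node Tr.leaf (nat_lit 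
  13925080974341280354852130693461223660900684454220566183598840971395630744641763743684096) (nat_lit 148874833621934367743942715316954529795) Tr.leaf))) (nat_lit 
  13925080974341280354852130693461223660900684454220566183598840971395630744641832463424000) (nat_lit 148874833621934367743942715316954529799) (Tr.node (Tr.node (Tr.node (Tr.node Tr.leaf (nat_lit 
  13925080974341280354852130693461223660900684543424908107189017291392357333664936839398912) (nat_lit 148880025998021065085835583406827700227) Tr.leaf) (nat_lit 
  13925080974341280354852130693461223660900684543424908107189017291392357333665005559138816) (nat_lit 148880025998021065085835583406827700231) Tr.leaf) (nat_lit 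
  13925080974341280354852130693461223660900684543433074883995119814515446042441170285284864) (nat_lit 148880026473390040171421608966212354051) (Tr.node Tr.leaf (nat_lit 
  13925080974341280354852130693461223660900684543433074883995119814515446042441239005024768) (nat_lit 148880026473390040171421608966212354055) Tr.leaf)) (nat_lit 
  13925080974341280354852130693461223660900684543433074883995119814515464489185243994573312) (nat_lit 148880026473390040171421608967286095875) (Tr.node (Tr.node (Tr.node Tr.leaf (nat_lit 
  13925080974341280354852130693461223660900684543433074883995119814515464489185312714576384) (nat_lit 148880026473390040171421608967286095879) Tr.leaf) (nat_lit 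
  13925080974341280354852130693461223660900684543433074883995119814515478324243264917524992) (nat_lit 148880026473390040171421608968091402241) Tr.leaf) (nat_lit 
  13925080974341280354852130693461223660900684543433074883995119814515478324243299278052864) (nat_lit 148880026473390040171421608968091402243) (Tr.node Tr.leaf (nat_lit 
  13925080974341280354852130693461223660900684543433074883995119814515478324243367997792768) (nat_lit 6490945479462406195218216692809735) Tr.leaf)))))) 

/-- The table. -/
def tab : Tr :=
  (Tr.node (Tr.node (Tr.node (Tr.node tab0 (nat_lit 276703413164281242112) (nat_lit 7516192768) tab1) (nat_lit 4835777067405153570191872) (nat_lit 114689) (Tr.node tab2 (nat_lit 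
  39614685867328841834174418442) (nat_lit 0) tab3)) (nat_lit 594211823465161574764775547392) (nat_lit 34587680324590764032) (Tr.node (Tr.node tab4 (nat_lit 2535340492897557273757830415872) (nat_lit 
  35218195021825) tab5) (nat_lit 4543299374895154941365408868925952) (nat_lit 65537) (Tr.node tab6 (nat_lit 166193906150322268179537362254629376) (nat_lit 64563885737255174151) tab7))) (nat_lit 
  297749669719749418549226326179817790976) (nat_lit 17331311673793226209482506240) (Tr.node (Tr.node (Tr.node tab8 (nat_lit 5444600951921568365895951582852443602432) (nat_lit 35218195021825) tab9) 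
  (nat_lit 76223416384037909813035562926785951234560) (nat_lit 65537) (Tr.node tab10 (nat_lit 267610303541691264535715061182355965698956800) (nat_lit 65537) tab11)) (nat_lit 
  1461523939415965867222142790711800645058660211200) (nat_lit 85071889882439623170374722656957104128) (Tr.node (Tr.node tab12 (nat_lit 23384383093607818967815189707951749724756554225664) (nat_lit 
  151123797902360894767104) tab13) (nat_lit 383129731312225880145619252198530032263820730656023552) (nat_lit 65599) (Tr.node tab14 (nat_lit 
  1645529666111277320190250405860662587846930307319177419347375104) (nat_lit 1208944266640182156001283) tab15)))) 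

theorem tab0_ok : tab0.all (chk tab) = true := by decide +kernel

theorem tab1_ok : tab1.all (chk tab) = true := by decide +kernel

theorem tab2_ok : tab2.all (chk tab) = true := by decide +kernel

theorem tab3_ok : tab3.all (chk tab) = true := by decide +kernel

theorem tab4_ok : tab4.all (chk tab) = true := by decide +kernel

theorem tab5_ok : tab5.all (chk tab) = true := by decide +kernel

theorem tab6_ok : tab6.all (chk tab) = true := by decide +kernel

theorem tab7_ok : tab7.all (chk tab) = true := by decide +kernel

theorem tab8_ok : tab8.all (chk tab) = true := by decide +kernel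

theorem tab9_ok : tab9.all (chk tab) = true := by decide +kernel

theorem tab10_ok : tab10.all (chk tab) = true := by decide +kernel

theorem tab11_ok : tab11.all (chk tab) = true := by decide +kernel

theorem tab12_ok : tab12.all (chk tab) = true := by decide +kernel

theorem tab13_ok : tab13.all (chk tab) = true := by decide +kernel

theorem tab14_ok : tab14.all (chk tab) = true := by decide +kernel

theorem tab15_ok : tab15.all (chk tab) = true := by decide +kernel

theorem tab_ok : tab.all (chk tab) = true :=
  (Tr.all_node _ _ _ _ _ (by decide +kernel) (Tr.all_node _ _ _ _ _ (by decide +kernel) (Tr.all_node _ _ _ _ _ (by decide +kernel) (Tr.all_node _ _ _ _ _ (by decide +kernel) tab0_ok tab1_ok) 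
  (Tr.all_node _ _ _ _ _ (by decide +kernel) tab2_ok tab3_ok)) (Tr.all_node _ _ _ _ _ (by decide +kernel) (Tr.all_node _ _ _ _ _ (by decide +kernel) tab4_ok tab5_ok) (Tr.all_node _ _ _ _ _ 
  (by decide +kernel) tab6_ok tab7_ok))) (Tr.all_node _ _ _ _ _ (by decide +kernel) (Tr.all_node _ _ _ _ _ (by decide +kernel) (Tr.all_node _ _ _ _ _ (by decide +kernel) tab8_ok tab9_ok) (Tr.all_node 
  _ _ _ _ _ (by decide +kernel) tab10_ok tab11_ok)) (Tr.all_node _ _ _ _ _ (by decide +kernel) (Tr.all_node _ _ _ _ _ (by decide +kernel) tab12_ok tab13_ok) (Tr.all_node _ _ _ _ _ (by decide +kernel) 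
  tab14_ok tab15_ok)))) 

end Pool.Agent.MP_79e5e2_lc

end

section

/-! Verification of the geometry of the tiles. -/

namespace Pool.Agent.MP_79e5e2_lc

theorem t_EMPTY_false : t_EMPTY.chk kinds false = true := by decide +kernel

theorem t_START_false : t_START.chk kinds false = true := by decide +kernel

theorem t_VUP_false : t_VUP.chk kinds false = true := by decide +kernel

theorem t_VUQ_false : t_VUQ.chk kinds false = true := by decide +kernel

theorem t_VL_false : t_VL.chk kinds false = true := by decide +kernel

theorem t_TURN_false : t_TURN.chk kinds false = true := by decide +kernel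

theorem t_SELECT_false : t_SELECT.chk kinds false = true := by decide +kernel

theorem t_ENDE_false : t_ENDE.chk kinds false = true := by decide +kernel

theorem t_CROSS_false : t_CROSS.chk kinds false = true := by decide +kernel

theorem t_BRANCH_false : t_BRANCH.chk kinds false = true := by decide +kernel

theorem t_TOP_false : t_TOP.chk kinds false = true := by decide +kernel

theorem t_ROWEND_false : t_ROWEND.chk kinds false = true := by decide +kernel

theorem tiles_false : ∀ T ∈ tiles, T.chk kinds false = true := by
  simp only [tiles, List.forall_mem_cons]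
  exact ⟨t_EMPTY_false, t_START_false, t_VUP_false, t_VUQ_false, t_VL_false, t_TURN_false, t_SELECT_false, t_ENDE_false, t_CROSS_false, t_BRANCH_false,
    t_TOP_false, t_ROWEND_false, by simp⟩

end Pool.Agent.MP_79e5e2_lc

end
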