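import Mathlib

section

/-! The l1 norm of integer polynomials and a root-free region. -/

namespace Pool.Agent.MP_485bb6_lc

open MvPolynomial

section L1
variable {σ : Type}

/-- Sum of the absolute values of the coefficients. -/
noncomputable def l1 (p : MvPolynomial σ ℤ) : ℕ := ∑ m ∈ p.support, (p.coeff m).natAbs

lemma l1_eq_of_subset {p : MvPolynomial σ ℤ} {S : Finset (σ →₀ ℕ)} (h : p.support ⊆ S) :
    l1 p = ∑ m ∈ S, (p.coeff m).natAbs := by
  unfold l1
  refine Finset.sum_subset h fun m _ hm => ?_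
  rw [notMem_support_iff.1 hm]; rfl

lemma l1_zero : l1 (0 : MvPolynomial σ ℤ) = 0 := by simp [l1]

lemma l1_add_le (p q : MvPolynomial σ ℤ) : l1 (p + q) ≤ l1 p + l1 q := by
  classical
  rw [l1_eq_of_subset (support_add (p := p) (q := q)),
    l1_eq_of_subset (p := p) (S := p.support ∪ q.support) Finset.subset_union_left,
    l1_eq_of_subset (p := q) (S := p.support ∪ q.support) Finset.subset_union_right,
    ← Finset.sum_add_distrib]
  refine Finset.sum_le_sum fun m _ => ?_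
  rw [coeff_add]
  exact Int.natAbs_add_le _ _

lemma l1_neg (p : MvPolynomial σ ℤ) : l1 (-p) = l1 p := by
  simp [l1]

lemma l1_sub_le (p q : MvPolynomial σ ℤ) : l1 (p - q) ≤ l1 p + l1 q := by
  rw [sub_eq_add_neg]
  exact (l1_add_le _ _).trans (by rw [l1_neg])

lemma l1_monomial_le (m : σ →₀ ℕ) (a : ℤ) : l1 (monomial m a) ≤ a.natAbs := by
  classical
  rw [l1_eq_of_subset (S := {m}) support_monomial_subset]
  simp

lemma l1_sum_le {ι : Type} (s : Finset ι) (f : ι → MvPolynomial σ ℤ) :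
    l1 (∑ i ∈ s, f i) ≤ ∑ i ∈ s, l1 (f i) := by
  classical
  induction s using Finset.induction_on with
  | empty => simp [l1_zero]
  | insert a s ha ih =>
    rw [Finset.sum_insert ha, Finset.sum_insert ha]
    exact (l1_add_le _ _).trans (by omega)

lemma l1_mul_le (p q : MvPolynomial σ ℤ) : l1 (p * q) ≤ l1 p * l1 q := by
  classical
  conv_lhs => rw [p.as_sum, q.as_sum, Finset.sum_mul_sum]
  refine (l1_sum_le _ _).trans ?_
  unfold l1
  rw [Finset.sum_mul_sum]
  refine Finset.sum_le_sum fun m _ => ?_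
  refine (l1_sum_le _ _).trans (Finset.sum_le_sum fun m' _ => ?_)
  rw [monomial_mul]
  exact (l1_monomial_le _ _).trans (by rw [Int.natAbs_mul])

lemma l1_C_le (a : ℤ) : l1 (C a : MvPolynomial σ ℤ) ≤ a.natAbs := l1_monomial_le 0 a

lemma l1_one_le : l1 (1 : MvPolynomial σ ℤ) ≤ 1 := by simpa using l1_C_le (σ := σ) 1

lemma l1_X_le (i : σ) : l1 (X i : MvPolynomial σ ℤ) ≤ 1 := l1_monomial_le _ 1

lemma l1_prod_le {ι : Type} (s : Finset ι) (f : ι → MvPolynomial σ ℤ) :
    l1 (∏ i ∈ s, f i) ≤ ∏ i ∈ s, l1 (f i) := by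
  classical
  induction s using Finset.induction_on with
  | empty => simpa using l1_one_le
  | insert a s ha ih =>
    rw [Finset.prod_insert ha, Finset.prod_insert ha]
    exact (l1_mul_le _ _).trans (Nat.mul_le_mul_left _ ih)

lemma l1_pow_le (p : MvPolynomial σ ℤ) (k : ℕ) : l1 (p ^ k) ≤ l1 p ^ k := by
  induction k with
  | zero => simpa using l1_one_le
  | succ k ih => rw [pow_succ, pow_succ]; exact (l1_mul_le _ _).trans (Nat.mul_le_mul_right _ ih)

lemma l1_pderiv_le (i : σ) (p : MvPolynomial σ ℤ) : l1 (pderiv i p) ≤ p.totalDegree * l1 p := by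
  classical
  conv_lhs => rw [p.as_sum, map_sum]
  refine (l1_sum_le _ _).trans ?_
  unfold l1
  rw [Finset.mul_sum]
  refine Finset.sum_le_sum fun m hm => ?_
  rw [pderiv_monomial]
  refine (l1_monomial_le _ _).trans ?_
  rw [Int.natAbs_mul, Int.natAbs_natCast, mul_comm]
  refine Nat.mul_le_mul_right _ ?_
  exact (monomial_le_degreeOf i hm).trans (degreeOf_le_totalDegree p i)

lemma totalDegree_pderiv_le (i : σ) (p : MvPolynomial σ ℤ) :
    (pderiv i p).totalDegree ≤ p.totalDegree - 1 := by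
  classical
  conv_lhs => rw [p.as_sum, map_sum]
  refine totalDegree_finsetSum_le fun m hm => ?_
  rw [pderiv_monomial]
  by_cases h : m i = 0
  · simp [h]
  · refine (totalDegree_monomial_le _ _).trans ?_
    have h1 := le_totalDegree hm
    have h2 : m = (m - Finsupp.single i 1) + Finsupp.single i 1 := by
      ext j
      by_cases hj : j = i
      · subst hj; simp; omega
      · simp [Finsupp.single_apply, Ne.symm hj]
    have h3 : (m.sum fun _ e => e) = ((m - Finsupp.single i 1).sum fun _ e => e) + 1 := by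
      conv_lhs => rw [h2]
      rw [Finsupp.sum_add_index' (by simp) (by simp)]
      simp
    simp only [Function.id_def]
    omega

end L1

lemma aeval_two (p : MvPolynomial (Fin 2) ℤ) (T v : ℝ) :
    aeval ![T, v] p = ∑ m ∈ p.support, ((p.coeff m : ℤ) : ℝ) * (T ^ m 0 * v ^ m 1) := by
  rw [aeval_def, eval₂_eq']
  simp [Fin.prod_univ_two]

lemma aeval_indep {p : MvPolynomial (Fin 2) ℤ} (h : p.degreeOf 0 = 0) (T T' v : ℝ) :
    aeval ![T, v] p = aeval ![T', v] p := by
  rw [aeval_two, aeval_two]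
  refine Finset.sum_congr rfl fun m hm => ?_
  have := monomial_le_degreeOf 0 hm
  have h0 : m 0 = 0 := by omega
  simp [h0]

lemma root_free {p : MvPolynomial (Fin 2) ℤ} (hp : p ≠ 0) {H D : ℕ} (hH : l1 p ≤ H)
    (hD : p.degreeOf 0 ≤ D) {T v : ℝ} (hT : (H : ℝ) ≤ T) (hv : H * T ^ D ≤ v) :
    aeval ![T, v] p ≠ 0 := by
  classical
  have hne : p.support.Nonempty := support_nonempty.2 hp
  obtain ⟨m1, hm1, hmax1⟩ := Finset.exists_max_image p.support (fun m => m 1) hne
  obtain ⟨m0, hm0, hmax0⟩ := Finset.exists_max_image (p.support.filter fun m => m 1 = m1 1)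
    (fun m => m 0) ⟨m1, by simp [mem_support_iff.1 hm1]⟩
  rw [Finset.mem_filter] at hm0
  have hc0 : 1 ≤ (p.coeff m0).natAbs := Int.natAbs_pos.2 (mem_support_iff.1 hm0.1)
  have hl : l1 p = (p.coeff m0).natAbs + ∑ m ∈ p.support.erase m0, (p.coeff m).natAbs := by
    unfold l1
    rw [Finset.add_sum_erase _ (fun m => (p.coeff m).natAbs) hm0.1]
  have hH1 : 1 ≤ H := by omega
  have hH1' : (1 : ℝ) ≤ H := by exact_mod_cast hH1
  have hT1 : 1 ≤ T := hH1'.trans hT
  have hTD : 1 ≤ T ^ D := one_le_pow₀ hT1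
  have hv1 : 1 ≤ v := by nlinarith
  set w : (Fin 2 →₀ ℕ) → ℝ := fun m => T ^ m 0 * v ^ m 1 with hw
  have hwpos : ∀ m, 0 < w m := fun m => by positivity
  have hdom : ∀ m ∈ p.support.erase m0, H * w m ≤ w m0 := by
    intro m hm
    obtain ⟨hne', hm⟩ := Finset.mem_erase.1 hm
    have h1 := hmax1 m hm
    rcases h1.eq_or_lt with h1 | h1
    · have h2 := hmax0 m (Finset.mem_filter.2 ⟨hm, h1⟩)
      have h3 : m 0 ≠ m0 0 := by
        intro h
        apply hne'
        ext i
        fin_cases i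
        · exact h
        · exact h1.trans hm0.2.symm
      have h4 : m 0 + 1 ≤ m0 0 := by omega
      have h5 : T ^ (m 0 + 1) ≤ T ^ m0 0 := pow_le_pow_right₀ hT1 h4
      simp only [hw]
      rw [h1, hm0.2, ← mul_assoc]
      refine mul_le_mul_of_nonneg_right ?_ (by positivity)
      rw [pow_succ] at h5
      have : 0 < T ^ m 0 := by positivity
      nlinarith
    · have h2 : m 0 ≤ D := (monomial_le_degreeOf 0 hm).trans hD
      have h3 : T ^ m 0 ≤ T ^ D := pow_le_pow_right₀ hT1 h2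
      have h4 : v ^ (m 1 + 1) ≤ v ^ m0 1 := pow_le_pow_right₀ hv1 (by rw [hm0.2]; omega)
      have h5 : 1 ≤ T ^ m0 0 := one_le_pow₀ hT1
      simp only [hw]
      have h6 : 0 < v ^ m 1 := by positivity
      rw [pow_succ] at h4
      calc (H : ℝ) * (T ^ m 0 * v ^ m 1) = (H * T ^ m 0) * v ^ m 1 := by ring
        _ ≤ v * v ^ m 1 := by
          refine mul_le_mul_of_nonneg_right ?_ h6.le
          exact le_trans (by gcongr) hv
        _ ≤ v ^ m0 1 := by linarith
        _ ≤ T ^ m0 0 * v ^ m0 1 := by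
          have : 0 < v ^ m0 1 := by positivity
          nlinarith
  intro h0
  rw [aeval_two, ← Finset.add_sum_erase _ _ hm0.1] at h0
  have h1 : |((p.coeff m0 : ℤ) : ℝ)| * w m0 ≤ ∑ m ∈ p.support.erase m0, |((p.coeff m : ℤ) : ℝ)| * w m := by
    have e : ((p.coeff m0 : ℤ) : ℝ) * w m0 = -∑ m ∈ p.support.erase m0, ((p.coeff m : ℤ) : ℝ) * w m := by
      simp only [hw]; linarith
    rw [← abs_of_pos (hwpos m0), ← abs_mul, e, abs_neg]
    refine (Finset.abs_sum_le_sum_abs _ _).trans (Finset.sum_le_sum fun m _ => ?_)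
    rw [abs_mul, abs_of_pos (hwpos m)]
  have h2 : H * ∑ m ∈ p.support.erase m0, |((p.coeff m : ℤ) : ℝ)| * w m
      ≤ (∑ m ∈ p.support.erase m0, |((p.coeff m : ℤ) : ℝ)|) * w m0 := by
    rw [Finset.mul_sum, Finset.sum_mul]
    refine Finset.sum_le_sum fun m hm => ?_
    have := hdom m hm
    have h3 : 0 ≤ |((p.coeff m : ℤ) : ℝ)| := abs_nonneg _
    nlinarith
  have h3 : (∑ m ∈ p.support.erase m0, |((p.coeff m : ℤ) : ℝ)|) + 1 ≤ H := by
    have e : (∑ m ∈ p.support.erase m0, |((p.coeff m : ℤ) : ℝ)|)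
        = ((∑ m ∈ p.support.erase m0, (p.coeff m).natAbs : ℕ) : ℝ) := by
      push_cast
      refine Finset.sum_congr rfl fun m _ => ?_
      rw [Nat.cast_natAbs, Int.cast_abs]
    rw [e]
    have : ∑ m ∈ p.support.erase m0, (p.coeff m).natAbs + 1 ≤ H := by omega
    exact_mod_cast this
  have h4 : (1 : ℝ) ≤ |((p.coeff m0 : ℤ) : ℝ)| := by
    rw [← Int.cast_abs, ← Nat.cast_natAbs]
    exact_mod_cast hc0
  have h5 := hwpos m0
  have h6 : H * w m0 ≤ H * (|((p.coeff m0 : ℤ) : ℝ)| * w m0) := by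
    have : w m0 ≤ |((p.coeff m0 : ℤ) : ℝ)| * w m0 := by nlinarith
    gcongr
  have h7 : H * (|((p.coeff m0 : ℤ) : ℝ)| * w m0)
      ≤ H * ∑ m ∈ p.support.erase m0, |((p.coeff m : ℤ) : ℝ)| * w m := by gcongr
  nlinarith

end Pool.Agent.MP_485bb6_lc

end

section

/-! Elimination for the system x_i^5 = v r_i(x): an integer polynomial vanishing on values. -/

namespace Pool.Agent.MP_485bb6_lc

open MvPolynomial

variable {n : ℕ}

/-- Reduced monomials. -/
def mon (x : Fin n → ℝ) (b : Fin n → Fin 5) : ℝ := ∏ i, x i ^ (b i : ℕ)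

/-- The critical point equations. -/
def Crit (r : Fin n → MvPolynomial (Fin n) ℤ) (x : Fin n → ℝ) (v : ℝ) : Prop :=
  ∀ i, x i ^ 5 = v * aeval x (r i)

/-- Expansion in the reduced monomials with coefficients of bounded norm. -/
def Exp (r : Fin n → MvPolynomial (Fin n) ℤ) (g : (Fin n → ℝ) → ℝ → ℝ) (N : ℕ) : Prop :=
  ∃ a : (Fin n → Fin 5) → MvPolynomial (Fin 2) ℤ, (∑ b, l1 (a b)) ≤ N ∧
    (∀ b, (a b).degreeOf 0 = 0) ∧
    ∀ x v T, Crit r x v → g x v = ∑ b, aeval ![T, v] (a b) * mon x b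

variable {r : Fin n → MvPolynomial (Fin n) ℤ}

lemma Exp.mono {g : (Fin n → ℝ) → ℝ → ℝ} {N N' : ℕ} (h : Exp r g N) (hN : N ≤ N') : Exp r g N' := by
  obtain ⟨a, h1, h2, h3⟩ := h
  exact ⟨a, h1.trans hN, h2, h3⟩

lemma Exp.congr {g g' : (Fin n → ℝ) → ℝ → ℝ} {N : ℕ} (h : Exp r g N)
    (e : ∀ x v, Crit r x v → g' x v = g x v) : Exp r g' N := by
  obtain ⟨a, h1, h2, h3⟩ := h
  exact ⟨a, h1, h2, fun x v T hc => (e x v hc).trans (h3 x v T hc)⟩

lemma Exp.zero : Exp r (fun _ _ => 0) 0 :=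
  ⟨fun _ => 0, by simp [l1_zero], by simp, by simp⟩

lemma Exp.add {g g' : (Fin n → ℝ) → ℝ → ℝ} {N N' : ℕ} (h : Exp r g N) (h' : Exp r g' N') :
    Exp r (fun x v => g x v + g' x v) (N + N') := by
  obtain ⟨a, h1, h2, h3⟩ := h
  obtain ⟨a', h1', h2', h3'⟩ := h'
  refine ⟨fun b => a b + a' b, ?_, fun b => ?_, fun x v T hc => ?_⟩
  · refine le_trans (Finset.sum_le_sum fun b _ => l1_add_le _ _) ?_
    rw [Finset.sum_add_distrib]
    omega
  · have := degreeOf_add_le 0 (a b) (a' b)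
    rw [h2, h2'] at this
    simpa using this
  · beta_reduce
    rw [h3 x v T hc, h3' x v T hc, ← Finset.sum_add_distrib]
    refine Finset.sum_congr rfl fun b _ => ?_
    rw [map_add]; ring

lemma Exp.mul {g : (Fin n → ℝ) → ℝ → ℝ} {N : ℕ} (h : Exp r g N) (q : MvPolynomial (Fin 2) ℤ)
    (hq : q.degreeOf 0 = 0) :
    Exp r (fun x v => aeval ![0, v] q * g x v) (l1 q * N) := by
  obtain ⟨a, h1, h2, h3⟩ := h
  refine ⟨fun b => q * a b, ?_, fun b => ?_, fun x v T hc => ?_⟩
  · refine le_trans (Finset.sum_le_sum fun b _ => l1_mul_le _ _) ?_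
    rw [← Finset.mul_sum]
    exact Nat.mul_le_mul_left _ h1
  · have := degreeOf_mul_le 0 q (a b)
    rw [h2, hq] at this
    simpa using this
  · beta_reduce
    rw [h3 x v T hc, Finset.mul_sum, aeval_indep hq 0 T]
    refine Finset.sum_congr rfl fun b _ => ?_
    rw [map_mul]; ring

lemma Exp.smul {g : (Fin n → ℝ) → ℝ → ℝ} {N : ℕ} (h : Exp r g N) (c : ℤ) :
    Exp r (fun x v => c * g x v) (c.natAbs * N) :=
  ((h.mul (C c) (degreeOf_C _ _)).mono (Nat.mul_le_mul_right _ (l1_C_le c))).congr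
    (fun x v _ => by simp)

lemma Exp.mulv {g : (Fin n → ℝ) → ℝ → ℝ} {N : ℕ} (h : Exp r g N) :
    Exp r (fun x v => v * g x v) N :=
  ((h.mul (X 1) (degreeOf_X_of_ne (by decide))).mono
    ((Nat.mul_le_mul_right _ (l1_X_le 1)).trans (by simp))).congr (fun x v _ => by simp)

lemma Exp.sum {ι : Type} (s : Finset ι) {g : ι → (Fin n → ℝ) → ℝ → ℝ} {N : ι → ℕ}
    (h : ∀ i ∈ s, Exp r (g i) (N i)) :
    Exp r (fun x v => ∑ i ∈ s, g i x v) (∑ i ∈ s, N i) := by
  classical
  induction s using Finset.induction_on with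
  | empty => simpa using Exp.zero
  | insert a s ha ih =>
    simp only [Finset.sum_insert ha]
    exact (h a (Finset.mem_insert_self _ _)).add
      (ih fun i hi => h i (Finset.mem_insert_of_mem hi))

lemma Exp.basis (b : Fin n → Fin 5) : Exp r (fun x _ => mon x b) 1 := by
  classical
  refine ⟨fun b' => if b' = b then 1 else 0, ?_, fun b' => ?_, fun x v T _ => ?_⟩
  · rw [Finset.sum_eq_single b]
    · simpa using l1_one_le
    · intro b' _ hb; simp [hb, l1_zero]
    · simp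
  · beta_reduce
    split_ifs <;> simp
  · rw [Finset.sum_eq_single b]
    · simp
    · intro b' _ hb; simp [hb]
    · simp

lemma exp_poly {d N : ℕ}
    (h : ∀ α : Fin n →₀ ℕ, (α.sum fun _ e => e) ≤ d → Exp r (fun x _ => ∏ i, x i ^ α i) N)
    (p : MvPolynomial (Fin n) ℤ) (hp : p.totalDegree ≤ d) :
    Exp r (fun x _ => aeval x p) (l1 p * N) := by
  have h1 := Exp.sum (r := r) p.support
    (g := fun m x _ => ((p.coeff m : ℤ) : ℝ) * ∏ i, x i ^ m i)
    (N := fun m => (p.coeff m).natAbs * N)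
    (fun m hm => (h m ((le_totalDegree hm).trans hp)).smul _)
  refine (h1.mono ?_).congr fun x v _ => ?_
  · rw [← Finset.sum_mul]; rfl
  · rw [aeval_def, eval₂_eq']
    simp

lemma exp_mon {c : ℕ} (hc : 1 ≤ c) (hr : ∀ i, (r i).totalDegree ≤ 3) (hl : ∀ i, l1 (r i) ≤ c)
    (d : ℕ) : ∀ α : Fin n →₀ ℕ, (α.sum fun _ e => e) ≤ d →
      Exp r (fun x _ => ∏ i, x i ^ α i) (c ^ d) := by
  induction d using Nat.strong_induction_on with
  | _ d ih =>
    intro α hα
    by_cases h : ∀ i, α i < 5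
    · exact ((Exp.basis (r := r) (fun i => ⟨α i, h i⟩)).mono (Nat.one_le_pow _ _ hc)).congr
        (fun x v _ => rfl)
    · push Not at h
      obtain ⟨i, hi⟩ := h
      set β := α - Finsupp.single i 5 with hβ
      have h2 : α = β + Finsupp.single i 5 := by
        ext j
        by_cases hj : j = i
        · subst hj; simp [hβ]; omega
        · simp [hβ, Finsupp.single_apply, Ne.symm hj]
      have h3 : (α.sum fun _ e => e) = (β.sum fun _ e => e) + 5 := by
        conv_lhs => rw [h2]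
        rw [Finsupp.sum_add_index' (by simp) (by simp)]
        simp
      have h4 := exp_poly (ih (d - 2) (by omega)) (monomial β 1 * r i) (by
        refine (totalDegree_mul _ _).trans ?_
        have h5 := totalDegree_monomial_le β (1 : ℤ)
        have h6 := hr i
        simp only [Function.id_def] at h5
        omega)
      refine (h4.mulv.mono ?_).congr fun x v hcr => ?_
      · have h5 : l1 (monomial β 1 * r i) ≤ c := by
          refine (l1_mul_le _ _).trans ?_
          have := Nat.mul_le_mul (l1_monomial_le β 1) (hl i)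
          simpa using this
        calc l1 (monomial β 1 * r i) * c ^ (d - 2) ≤ c * c ^ (d - 2) := Nat.mul_le_mul_right _ h5
          _ = c ^ (d - 2 + 1) := by ring
          _ ≤ c ^ d := Nat.pow_le_pow_right hc (by omega)
      · have h5 : ∏ j, x j ^ α j = (∏ j, x j ^ β j) * x i ^ 5 := by
          conv_lhs => rw [h2]
          simp only [Finsupp.add_apply, pow_add, Finset.prod_mul_distrib]
          congr 1
          rw [Finset.prod_eq_single i]
          · simp
          · intro j _ hj; simp [Finsupp.single_apply, Ne.symm hj]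
          · simp
        rw [h5, hcr i, map_mul, aeval_monomial, Finsupp.prod_fintype _ _ (by simp)]
        simp only [map_one]
        ring

lemma exists_elim {g : (Fin n → ℝ) → ℝ → ℝ} {N : ℕ}
    (h : ∀ b, Exp r (fun x v => g x v * mon x b) N) :
    ∃ χ : MvPolynomial (Fin 2) ℤ, χ ≠ 0 ∧ l1 χ ≤ (5 ^ n * (N + 1)) ^ 5 ^ n ∧
      χ.degreeOf 0 ≤ 5 ^ n ∧ ∀ x v, Crit r x v → aeval ![g x v, v] χ = 0 := by
  classical
  choose a h1 h2 h3 using h
  have hcard : Fintype.card (Fin n → Fin 5) = 5 ^ n := by simp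
  let M : Matrix (Fin n → Fin 5) (Fin n → Fin 5) (MvPolynomial (Fin 2) ℤ) :=
    fun b b' => (if b = b' then X 0 else 0) - a b b'
  have hMl : ∀ b b', l1 (M b b') ≤ N + 1 := by
    intro b b'
    refine (l1_sub_le _ _).trans ?_
    have h4 : l1 (a b b') ≤ N :=
      (Finset.single_le_sum (f := fun b' => l1 (a b b')) (fun _ _ => Nat.zero_le _)
        (Finset.mem_univ b')).trans (h1 b)
    have h5 : l1 (if b = b' then X 0 else 0 : MvPolynomial (Fin 2) ℤ) ≤ 1 := by
      split_ifs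
      · exact l1_X_le _
      · simp [l1_zero]
    omega
  have hMd : ∀ b b', (M b b').degreeOf 0 ≤ 1 := by
    intro b b'
    refine (degreeOf_sub_le _ _ _).trans ?_
    rw [h2]
    split_ifs <;> simp
  have hev : ∀ T v : ℝ, aeval ![T, v] M.det = (M.map (aeval ![T, v])).det := by
    intro T v
    exact AlgHom.map_det (aeval ![T, v]) M
  refine ⟨M.det, ?_, ?_, ?_, ?_⟩
  · intro h0
    let A : Matrix (Fin n → Fin 5) (Fin n → Fin 5) ℝ := fun b b' => aeval ![0, 0] (a b b')
    have h4 : ∀ T : ℝ, A.charpoly.eval T = 0 := by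
      intro T
      rw [Matrix.eval_charpoly]
      have h5 := hev T 0
      rw [h0, map_zero] at h5
      rw [h5]
      congr 1
      ext b b'
      by_cases hb : b = b'
      · subst hb
        simp [M, A, aeval_indep (h2 b b) T 0]
      · simp [M, A, hb, aeval_indep (h2 b b') T 0]
    exact A.charpoly_monic.ne_zero (Polynomial.funext (by simpa using h4))
  · rw [Matrix.det_apply]
    refine (l1_sum_le _ _).trans ?_
    have h4 : ∀ s : Equiv.Perm (Fin n → Fin 5),
        l1 (Equiv.Perm.sign s • ∏ i, M (s i) i) ≤ (N + 1) ^ 5 ^ n := by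
      intro s
      have h5 : l1 (∏ i, M (s i) i) ≤ (N + 1) ^ 5 ^ n := by
        refine (l1_prod_le _ _).trans ?_
        refine (Finset.prod_le_pow_card _ _ (N + 1) fun i _ => hMl _ _).trans ?_
        rw [Finset.card_univ, hcard]
      rcases Int.units_eq_one_or (Equiv.Perm.sign s) with h | h
      · simpa [h] using h5
      · simpa [h, l1_neg] using h5
    refine (Finset.sum_le_card_nsmul _ _ _ fun s _ => h4 s).trans ?_
    rw [Finset.card_univ, Fintype.card_perm, hcard, smul_eq_mul, mul_pow]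
    exact Nat.mul_le_mul_right _ (Nat.factorial_le_pow _)
  · rw [Matrix.det_apply]
    refine (degreeOf_sum_le _ _ _).trans (Finset.sup_le fun s _ => ?_)
    have h5 : (∏ i, M (s i) i).degreeOf 0 ≤ 5 ^ n := by
      refine (degreeOf_prod_le _ _ _).trans ?_
      refine (Finset.sum_le_card_nsmul _ _ 1 fun i _ => hMd _ _).trans ?_
      rw [Finset.card_univ, hcard]; simp
    rcases Int.units_eq_one_or (Equiv.Perm.sign s) with h | h
    · simpa [h] using h5
    · simpa [h, degreeOf_neg] using h5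
  · intro x v hc
    rw [hev, ← Matrix.exists_mulVec_eq_zero_iff]
    refine ⟨mon x, ?_, ?_⟩
    · intro h0
      have := congrFun h0 0
      simp [mon] at this
    · ext b
      have h4 := h3 b x v (g x v) hc
      simp only [Matrix.mulVec, dotProduct, Matrix.map_apply, M, map_sub, sub_mul,
        Finset.sum_sub_distrib, Pi.zero_apply]
      rw [← h4, Finset.sum_eq_single b]
      · simp
      · intro b' _ hb; simp [Ne.symm hb]
      · simp

end Pool.Agent.MP_485bb6_lc

end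

section

/-! Doubly exponential bounds for real zeros of nonnegative quartic integer polynomials. -/

namespace Pool.Agent.MP_485bb6_lc

open MvPolynomial

variable {n : ℕ}

lemma continuous_aeval' (F : MvPolynomial (Fin n) ℤ) :
    Continuous fun x : Fin n → ℝ => aeval x F := by
  induction F using MvPolynomial.induction_on with
  | C a => simpa using continuous_const
  | add p q hp hq => simp only [map_add]; exact hp.add hq
  | mul_X p i hp => simp only [map_mul, aeval_X]; exact hp.mul (continuous_apply i)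

lemma hasDerivAt_aeval (F : MvPolynomial (Fin n) ℤ) (x : Fin n → ℝ) (i : Fin n) :
    HasDerivAt (fun t => aeval (Function.update x i t) F) (aeval x (pderiv i F)) (x i) := by
  induction F using MvPolynomial.induction_on with
  | C a => simpa using hasDerivAt_const (x i) (a : ℝ)
  | add p q hp hq => simp only [map_add]; exact hp.add hq
  | mul_X p j hp =>
    by_cases hj : j = i
    · subst hj
      have h1 := hp.mul (hasDerivAt_id (x j))
      simp only [map_mul, aeval_X, Function.update_self, Derivation.leibniz, pderiv_X_self,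
        smul_eq_mul, mul_one, map_add]
      simp only [id, Function.update_eq_self, mul_one] at h1
      refine h1.congr_deriv ?_
      ring
    · have h1 := hp.mul_const (x j)
      simp only [map_mul, aeval_X, Function.update_of_ne hj, Derivation.leibniz,
        pderiv_X_of_ne hj, smul_eq_mul, mul_zero, zero_add]
      refine h1.congr_deriv ?_
      ring

/-- The perturbed function. -/
noncomputable def Gv (F : MvPolynomial (Fin n) ℤ) (v : ℝ) (x : Fin n → ℝ) : ℝ :=
  6 * v * aeval x F + ∑ i, x i ^ 6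

lemma continuous_Gv (F : MvPolynomial (Fin n) ℤ) (v : ℝ) : Continuous (Gv F v) := by
  unfold Gv
  have := continuous_aeval' F
  fun_prop

lemma bounded_six (K : ℝ) : Bornology.IsBounded {x : Fin n → ℝ | ∑ i, x i ^ 6 ≤ K} := by
  refine (Metric.isBounded_closedBall (x := (0 : Fin n → ℝ)) (r := max 1 K)).subset fun x hx => ?_
  rw [mem_closedBall_zero_iff, pi_norm_le_iff_of_nonneg (by positivity)]
  intro i
  have h1 : x i ^ 6 ≤ K :=
    (Finset.single_le_sum (f := fun i => x i ^ 6) (fun j _ => by positivity)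
      (Finset.mem_univ i)).trans hx
  by_cases h : |x i| ≤ 1
  · exact h.trans (le_max_left _ _)
  · push Not at h
    refine le_trans ?_ (le_max_right _ _)
    have h2 : |x i| ^ 1 ≤ |x i| ^ 6 := pow_le_pow_right₀ h.le (by norm_num)
    have h3 : |x i| ^ 6 = x i ^ 6 := Even.pow_abs (by decide) _
    rw [pow_one, h3] at h2
    exact h2.trans h1

lemma exists_min {F : MvPolynomial (Fin n) ℤ} (hF : ∀ x : Fin n → ℝ, 0 ≤ aeval x F) {v : ℝ}
    (hv : 0 ≤ v) : ∃ x, ∀ y, Gv F v x ≤ Gv F v y := by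
  refine (continuous_Gv F v).exists_forall_le_of_isBounded 0 ?_
  refine (bounded_six (Gv F v 0)).subset fun x hx => ?_
  have h1 : Gv F v x ≤ Gv F v 0 := hx
  have h2 : 0 ≤ 6 * v * aeval x F := by have := hF x; positivity
  show ∑ i, x i ^ 6 ≤ Gv F v 0
  unfold Gv at h1 ⊢
  linarith

lemma crit_of_min {F : MvPolynomial (Fin n) ℤ} {v : ℝ} {x : Fin n → ℝ}
    (h : ∀ y, Gv F v x ≤ Gv F v y) : Crit (fun i => -pderiv i F) x v := by
  intro i
  have h1 : HasDerivAt (fun t => Gv F v (Function.update x i t))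
      (6 * v * aeval x (pderiv i F) + 6 * x i ^ 5) (x i) := by
    unfold Gv
    refine ((hasDerivAt_aeval F x i).const_mul (6 * v)).add ?_
    have h2 := hasDerivAt_aeval (∑ j, X j ^ 6 : MvPolynomial (Fin n) ℤ) x i
    simp only [map_sum, map_pow, aeval_X] at h2
    refine h2.congr_deriv ?_
    rw [Finset.sum_eq_single i]
    · simp
    · intro j _ hj; simp [pderiv_X_of_ne hj]
    · simp
  have h2 : IsLocalMin (fun t => Gv F v (Function.update x i t)) (x i) :=
    Filter.Eventually.of_forall fun t => by simpa using h _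
  have h3 := h2.hasDerivAt_eq_zero h1
  simp only [map_neg]
  linarith

/-- The height bound. -/
def hb (n L : ℕ) : ℕ := (5 ^ n * ((6 * L + n) * (4 * L + 1) ^ (4 * n + 6) + 1)) ^ 5 ^ n

lemma exists_chi {F : MvPolynomial (Fin n) ℤ} (hd : F.totalDegree ≤ 4) {L : ℕ} (hL : l1 F ≤ L) :
    ∃ χ : MvPolynomial (Fin 2) ℤ, χ ≠ 0 ∧ l1 χ ≤ hb n L ∧ χ.degreeOf 0 ≤ 5 ^ n ∧
      ∀ x v, Crit (fun i => -pderiv i F) x v → aeval ![Gv F v x, v] χ = 0 := by
  classical
  refine exists_elim (r := fun i => -pderiv i F) (g := fun x v => Gv F v x) fun b => ?_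
  have hm := exp_mon (r := fun i => -pderiv i F) (c := 4 * L + 1) (by omega)
    (fun i => by
      rw [totalDegree_neg]
      have := totalDegree_pderiv_le i F
      omega)
    (fun i => by
      rw [l1_neg]
      have h1 := l1_pderiv_le i F
      have h2 := Nat.mul_le_mul hd hL
      omega) (4 * n + 6)
  let β : Fin n →₀ ℕ := Finsupp.equivFunOnFinite.symm fun i => (b i : ℕ)
  have hβ : (monomial β (1 : ℤ)).totalDegree ≤ 4 * n := by
    refine (totalDegree_monomial_le _ _).trans ?_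
    rw [Finsupp.sum_fintype _ _ (by simp)]
    refine (Finset.sum_le_card_nsmul _ _ 4 fun i _ => ?_).trans (by simp [mul_comm])
    have := (b i).2
    simp only [β, Finsupp.equivFunOnFinite_symm_apply_apply, id]
    omega
  have hev : ∀ x : Fin n → ℝ, aeval x (monomial β (1 : ℤ)) = mon x b := by
    intro x
    rw [aeval_monomial, Finsupp.prod_fintype _ _ (by simp)]
    simp [mon, β]
  have h1 := exp_poly hm (C 6 * F * monomial β 1) (by
    refine (totalDegree_mul _ _).trans ?_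
    have h2 := totalDegree_mul (C 6) F
    rw [totalDegree_C] at h2
    omega)
  have h2 := exp_poly hm ((∑ j, X j ^ 6) * monomial β 1) (by
    refine (totalDegree_mul _ _).trans ?_
    have h2 : (∑ j, X j ^ 6 : MvPolynomial (Fin n) ℤ).totalDegree ≤ 6 :=
      totalDegree_finsetSum_le fun j _ => by simp [totalDegree_X_pow]
    omega)
  refine ((h1.mulv.add h2).mono ?_).congr fun x v _ => ?_
  · rw [← add_mul]
    refine Nat.mul_le_mul_right _ (Nat.add_le_add ?_ ?_)
    · refine (l1_mul_le _ _).trans ?_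
      have h3 := Nat.mul_le_mul ((l1_mul_le (C 6) F).trans (Nat.mul_le_mul (l1_C_le 6) hL))
        (l1_monomial_le β 1)
      simpa using h3
    · refine (l1_mul_le _ _).trans ?_
      have h3 : l1 (∑ j, X j ^ 6 : MvPolynomial (Fin n) ℤ) ≤ n := by
        refine (l1_sum_le _ _).trans ?_
        refine (Finset.sum_le_card_nsmul _ _ 1 fun j _ => ?_).trans (by simp)
        refine (l1_pow_le _ _).trans ?_
        simpa using Nat.pow_le_pow_left (l1_X_le j) 6
      simpa using Nat.mul_le_mul h3 (l1_monomial_le β 1)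
  · simp only [Gv, map_mul, hev, map_sum, map_pow, aeval_X, aeval_C]
    simp only [algebraMap_int_eq, eq_intCast, Int.cast_ofNat]
    ring

lemma zero_of_bounded {F : MvPolynomial (Fin n) ℤ} (hF : ∀ x : Fin n → ℝ, 0 ≤ aeval x F)
    {K v1 : ℝ} (h : ∀ v, v1 ≤ v → 0 < v → ∃ x, Gv F v x ≤ K) :
    ∃ x : Fin n → ℝ, aeval x F = 0 ∧ ∑ i, x i ^ 6 ≤ K := by
  have hsub : ∀ v x, 0 < v → Gv F v x ≤ K → ∑ i, x i ^ 6 ≤ K ∧ 6 * v * aeval x F ≤ K := by
    intro v x hv hx
    have h1 : 0 ≤ 6 * v * aeval x F := by have := hF x; positivity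
    have h2 : 0 ≤ ∑ i, x i ^ 6 := Finset.sum_nonneg fun i _ => by positivity
    unfold Gv at hx
    constructor <;> linarith
  have hc : IsCompact {x : Fin n → ℝ | ∑ i, x i ^ 6 ≤ K} :=
    Metric.isCompact_of_isClosed_isBounded (isClosed_le (by fun_prop) continuous_const)
      (bounded_six K)
  obtain ⟨x1, hx1⟩ := h (max v1 1) (le_max_left _ _) (by positivity)
  obtain ⟨x0, hx0, hmin⟩ := hc.exists_isMinOn ⟨x1, (hsub _ _ (by positivity) hx1).1⟩
    (continuous_aeval' F).continuousOn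
  refine ⟨x0, le_antisymm ?_ (hF x0), hx0⟩
  by_contra hpos
  push Not at hpos
  set v := max v1 (max 1 (K / aeval x0 F)) with hv
  have hv1 : 1 ≤ v := (le_max_left _ _).trans (le_max_right _ _)
  have hv2 : K / aeval x0 F ≤ v := (le_max_right _ _).trans (le_max_right _ _)
  obtain ⟨x, hx⟩ := h v (le_max_left _ _) (by linarith)
  obtain ⟨h1, h2⟩ := hsub v x (by linarith) hx
  have h3 : aeval x0 F ≤ aeval x F := hmin h1
  rw [div_le_iff₀ hpos] at hv2
  nlinarith

theorem quant1 {F : MvPolynomial (Fin n) ℤ} (hF : ∀ x : Fin n → ℝ, 0 ≤ aeval x F)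
    (hd : F.totalDegree ≤ 4) {L : ℕ} (hL : l1 F ≤ L) {x0 : Fin n → ℝ} (h0 : aeval x0 F = 0) :
    ∃ x : Fin n → ℝ, aeval x F = 0 ∧ ∑ i, x i ^ 6 ≤ hb n L := by
  obtain ⟨χ, h1, h2, h3, h4⟩ := exists_chi hd hL
  refine zero_of_bounded hF (v1 := hb n L * (∑ i, x0 i ^ 6) ^ 5 ^ n) fun v hv hv0 => ?_
  obtain ⟨x, hx⟩ := exists_min hF hv0.le
  refine ⟨x, ?_⟩
  by_contra hcon
  push Not at hcon
  have h5 : Gv F v x ≤ ∑ i, x0 i ^ 6 := by
    have := hx x0
    simp only [Gv, h0, mul_zero, zero_add] at this ⊢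
    exact this
  refine root_free h1 h2 h3 hcon.le (le_trans ?_ hv) (h4 x v (crit_of_min hx))
  have h6 : (0 : ℝ) ≤ Gv F v x := le_trans (Nat.cast_nonneg _) hcon.le
  gcongr

theorem quant2 {F : MvPolynomial (Fin n) ℤ} (hF : ∀ x : Fin n → ℝ, 0 ≤ aeval x F)
    (hd : F.totalDegree ≤ 4) {L : ℕ} (hL : l1 F ≤ L) {T v1 : ℝ} (hT : (hb n L : ℝ) ≤ T)
    (hv1 : hb n L * T ^ 5 ^ n ≤ v1) (hv0 : 0 < v1) {x1 : Fin n → ℝ} (hx1 : Gv F v1 x1 < T) :
    ∃ x : Fin n → ℝ, aeval x F = 0 := by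
  obtain ⟨χ, h1, h2, h3, h4⟩ := exists_chi hd hL
  have hex : ∀ v : ℝ, ∃ x, 0 ≤ v → ∀ y, Gv F v x ≤ Gv F v y := by
    intro v
    by_cases hv : 0 ≤ v
    · obtain ⟨x, hx⟩ := exists_min hF hv
      exact ⟨x, fun _ => hx⟩
    · exact ⟨0, fun h => absurd h hv⟩
  choose xm hxm using hex
  set μ : ℝ → ℝ := fun v => Gv F v (xm v) with hμ
  have hne : ∀ v, v1 ≤ v → μ v ≠ T := by
    intro v hv he
    have h5 := h4 (xm v) v (crit_of_min (hxm v (by linarith)))
    have h6 : Gv F v (xm v) = T := he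
    rw [h6] at h5
    exact root_free h1 h2 h3 hT (hv1.trans hv) h5
  have hmono : ∀ v w, 0 ≤ v → v ≤ w → μ v ≤ μ w := by
    intro v w hv hvw
    refine (hxm v hv (xm w)).trans ?_
    simp only [hμ, Gv]
    have := hF (xm w)
    nlinarith
  have hscale : ∀ v w, v1 ≤ v → v ≤ w → μ w - μ v ≤ (w - v) * (μ v / v1) := by
    intro v w hv hvw
    have h5 := hxm w (by linarith) (xm v)
    have h6 := hF (xm v)
    have h7 : 0 ≤ ∑ i, xm v i ^ 6 := Finset.sum_nonneg fun i _ => by positivity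
    have h8 : 6 * aeval (xm v) F ≤ μ v / v1 := by
      rw [le_div_iff₀ hv0]
      simp only [hμ, Gv]
      nlinarith
    have h9 : μ w - μ v ≤ (w - v) * (6 * aeval (xm v) F) := by
      simp only [hμ, Gv] at h5 ⊢
      linarith
    exact h9.trans (mul_le_mul_of_nonneg_left h8 (by linarith))
  have hlt : ∀ v, v1 ≤ v → μ v < T := by
    intro v2 hv2
    by_contra hcon
    push Not at hcon
    have hμ0 : 0 ≤ μ v2 / v1 := by
      have : (0 : ℝ) ≤ μ v2 := le_trans (le_trans (Nat.cast_nonneg _) hT) hcon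
      positivity
    have hcont : ContinuousOn μ (Set.Icc v1 v2) := by
      refine (LipschitzOnWith.of_dist_le_mul (K := ⟨μ v2 / v1, hμ0⟩) fun v hv w hw => ?_).continuousOn
      have key : ∀ v w, v ∈ Set.Icc v1 v2 → w ∈ Set.Icc v1 v2 → v ≤ w →
          |μ v - μ w| ≤ μ v2 / v1 * |v - w| := by
        intro v w hv hw hvw
        have h5 := hmono v w (by linarith [hv.1]) hvw
        have h6 := hscale v w hv.1 hvw
        have h7 : μ v / v1 ≤ μ v2 / v1 := by
          have := hmono v v2 (by linarith [hv.1]) hv.2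
          gcongr
        rw [abs_of_nonpos (by linarith), abs_of_nonpos (by linarith)]
        nlinarith
      simp only [Real.dist_eq, NNReal.coe_mk]
      rcases le_total v w with h | h
      · exact key v w hv hw h
      · rw [abs_sub_comm (μ v), abs_sub_comm v]; exact key w v hw hv h
    have h5 : μ v1 ≤ T := ((hxm v1 hv0.le x1).trans hx1.le)
    obtain ⟨v, hv, hvT⟩ := intermediate_value_Icc hv2 hcont ⟨h5, hcon⟩
    exact hne v hv.1 hvT
  obtain ⟨x, hx, -⟩ := zero_of_bounded hF (K := T) (v1 := v1) fun v hv _ => ⟨xm v, (hlt v hv).le⟩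
  exact ⟨x, hx⟩

end Pool.Agent.MP_485bb6_lc

end

section

/-! Systems of basic quadratic equations: small solutions, and approximate solutions. -/

namespace Pool.Agent.MP_485bb6_lc

open MvPolynomial

/-- A basic constraint (op, i, j, k). -/
abbrev QC := ℕ × ℕ × ℕ × ℕ

/-- The residual of a basic constraint. -/
def res (q : QC) (x : ℕ → ℝ) : ℝ :=
  if q.1 = 0 then x q.2.2.2 - 1
  else if q.1 = 1 then x q.2.1 + x q.2.2.1 - x q.2.2.2
  else x q.2.1 * x q.2.2.1 - x q.2.2.2

/-- Solvability of a system of basic constraints. -/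
def QSat (L : List QC) : Prop := ∃ x : ℕ → ℝ, ∀ q ∈ L, res q x = 0

/-- All indices and the length are bounded by s. -/
def QBound (L : List QC) (s : ℕ) : Prop :=
  1 ≤ s ∧ L.length ≤ s ∧ ∀ q ∈ L, q.2.1 < s ∧ q.2.2.1 < s ∧ q.2.2.2 < s

/-- Variable, or zero when out of range. -/
noncomputable def Xn (s i : ℕ) : MvPolynomial (Fin s) ℤ := if h : i < s then X ⟨i, h⟩ else 0

/-- Extension by zero. -/
def ext0 {s : ℕ} (y : Fin s → ℝ) (i : ℕ) : ℝ := if h : i < s then y ⟨i, h⟩ else 0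

/-- The residual as a polynomial. -/
noncomputable def resP (s : ℕ) (q : QC) : MvPolynomial (Fin s) ℤ :=
  if q.1 = 0 then Xn s q.2.2.2 - 1
  else if q.1 = 1 then Xn s q.2.1 + Xn s q.2.2.1 - Xn s q.2.2.2
  else Xn s q.2.1 * Xn s q.2.2.1 - Xn s q.2.2.2

lemma aeval_Xn {s : ℕ} (y : Fin s → ℝ) (i : ℕ) : aeval y (Xn s i) = ext0 y i := by
  unfold Xn ext0
  split_ifs <;> simp

lemma aeval_resP {s : ℕ} (y : Fin s → ℝ) (q : QC) : aeval y (resP s q) = res q (ext0 y) := by
  unfold resP res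
  split_ifs <;> simp [aeval_Xn]

lemma l1_Xn (s i : ℕ) : l1 (Xn s i) ≤ 1 := by
  unfold Xn
  split_ifs
  · exact l1_X_le _
  · simp [l1_zero]

lemma deg_Xn (s i : ℕ) : (Xn s i).totalDegree ≤ 1 := by
  unfold Xn
  split_ifs <;> simp

lemma l1_resP (s : ℕ) (q : QC) : l1 (resP s q) ≤ 3 := by
  have h1 := l1_Xn s q.2.1
  have h2 := l1_Xn s q.2.2.1
  have h3 := l1_Xn s q.2.2.2
  unfold resP
  split_ifs
  · have := l1_sub_le (Xn s q.2.2.2) 1
    have := l1_one_le (σ := Fin s)
    omega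
  · have := l1_sub_le (Xn s q.2.1 + Xn s q.2.2.1) (Xn s q.2.2.2)
    have := l1_add_le (Xn s q.2.1) (Xn s q.2.2.1)
    omega
  · have := l1_sub_le (Xn s q.2.1 * Xn s q.2.2.1) (Xn s q.2.2.2)
    have := (l1_mul_le (Xn s q.2.1) (Xn s q.2.2.1)).trans (Nat.mul_le_mul h1 h2)
    omega

lemma deg_resP (s : ℕ) (q : QC) : (resP s q).totalDegree ≤ 2 := by
  have h1 := deg_Xn s q.2.1
  have h2 := deg_Xn s q.2.2.1
  have h3 := deg_Xn s q.2.2.2
  unfold resP
  split_ifs
  · refine (totalDegree_sub _ _).trans (max_le (by omega) (by simp))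
  · refine (totalDegree_sub _ _).trans (max_le ?_ (by omega))
    exact (totalDegree_add _ _).trans (max_le (by omega) (by omega))
  · refine (totalDegree_sub _ _).trans (max_le ?_ (by omega))
    exact (totalDegree_mul _ _).trans (by omega)

/-- The sum of squares of the residuals. -/
noncomputable def sqP (s : ℕ) (L : List QC) : MvPolynomial (Fin s) ℤ :=
  (L.map fun q => resP s q ^ 2).sum

lemma l1_sqP (s : ℕ) (L : List QC) : l1 (sqP s L) ≤ 9 * L.length := by
  induction L with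
  | nil => simp [sqP, l1_zero]
  | cons q L ih =>
    simp only [sqP, List.map_cons, List.sum_cons, List.length_cons] at ih ⊢
    refine (l1_add_le _ _).trans ?_
    have h1 := (l1_pow_le (resP s q) 2).trans (Nat.pow_le_pow_left (l1_resP s q) 2)
    omega

lemma deg_sqP (s : ℕ) (L : List QC) : (sqP s L).totalDegree ≤ 4 := by
  induction L with
  | nil => simp [sqP]
  | cons q L ih =>
    simp only [sqP, List.map_cons, List.sum_cons] at ih ⊢
    refine (totalDegree_add _ _).trans (max_le ?_ ih)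
    have h1 := totalDegree_pow (resP s q) 2
    have h2 := deg_resP s q
    omega

lemma aeval_sqP {s : ℕ} (L : List QC) (y : Fin s → ℝ) :
    aeval y (sqP s L) = (L.map fun q => res q (ext0 y) ^ 2).sum := by
  induction L with
  | nil => simp [sqP]
  | cons q L ih =>
    simp only [sqP, List.map_cons, List.sum_cons, map_add, map_pow, aeval_resP] at ih ⊢
    rw [ih]

lemma sum_sq_nonneg (L : List QC) (x : ℕ → ℝ) : 0 ≤ (L.map fun q => res q x ^ 2).sum :=
  List.sum_nonneg (by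
    intro a ha
    obtain ⟨q, -, rfl⟩ := List.mem_map.1 ha
    positivity)

lemma sum_sq_eq_zero (L : List QC) (x : ℕ → ℝ) :
    (L.map fun q => res q x ^ 2).sum = 0 ↔ ∀ q ∈ L, res q x = 0 := by
  induction L with
  | nil => simp
  | cons q L ih =>
    simp only [List.map_cons, List.sum_cons, List.forall_mem_cons]
    have h1 := sum_sq_nonneg L x
    have h2 := sq_nonneg (res q x)
    rw [← ih]
    constructor
    · intro h
      exact ⟨pow_eq_zero_iff (two_ne_zero) |>.1 (by linarith), by linarith⟩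
    · rintro ⟨h3, h4⟩
      rw [h3, h4]; simp

lemma sum_sq_le (L : List QC) (x : ℕ → ℝ) {δ : ℝ} (h : ∀ q ∈ L, |res q x| ≤ δ) :
    (L.map fun q => res q x ^ 2).sum ≤ L.length * δ ^ 2 := by
  induction L with
  | nil => simp
  | cons q L ih =>
    simp only [List.map_cons, List.sum_cons, List.length_cons]
    have h1 := ih fun q hq => h q (List.mem_cons_of_mem _ hq)
    have h2 := h q List.mem_cons_self
    have h3 : res q x ^ 2 ≤ δ ^ 2 := by
      rw [← sq_abs]
      exact pow_le_pow_left₀ (abs_nonneg _) h2 2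
    push_cast
    linarith

lemma res_ext0 {L : List QC} {s : ℕ} (hb : QBound L s) (x : ℕ → ℝ) {q : QC} (hq : q ∈ L) :
    res q (ext0 fun i : Fin s => x i) = res q x := by
  obtain ⟨h1, h2, h3⟩ := hb.2.2 q hq
  simp [res, ext0, h1, h2, h3]

lemma hb_le {s : ℕ} (hs : 1 ≤ s) : hb s (9 * s) ≤ 2 ^ 2 ^ (5 * s + 7) := by
  have h0 : s < 2 ^ s := Nat.lt_two_pow_self
  have h1 : 4 * (9 * s) + 1 ≤ 2 ^ (s + 6) := by rw [pow_add]; omega
  have h2 : 6 * (9 * s) + s ≤ 2 ^ (s + 6) := by rw [pow_add]; omega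
  have h3 : 5 ^ s ≤ 2 ^ (3 * s) := by
    rw [pow_mul]; exact Nat.pow_le_pow_left (by norm_num) _
  have h4 : (6 * (9 * s) + s) * (4 * (9 * s) + 1) ^ (4 * s + 6) ≤ 2 ^ ((s + 6) * (4 * s + 7)) := by
    calc _ ≤ 2 ^ (s + 6) * (2 ^ (s + 6)) ^ (4 * s + 6) :=
          Nat.mul_le_mul h2 (Nat.pow_le_pow_left h1 _)
      _ = _ := by rw [← pow_mul, ← pow_add]; congr 1; ring
  have h5 : (6 * (9 * s) + s) * (4 * (9 * s) + 1) ^ (4 * s + 6) + 1
      ≤ 2 ^ ((s + 6) * (4 * s + 7) + 1) := by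
    have : 1 ≤ 2 ^ ((s + 6) * (4 * s + 7)) := Nat.one_le_two_pow
    rw [pow_succ 2]; omega
  have h6 : 3 * s + ((s + 6) * (4 * s + 7) + 1) ≤ 2 ^ (2 * s + 7) := by
    have : 2 ^ (2 * s + 7) = 128 * (2 ^ s * 2 ^ s) := by ring
    rw [this]
    nlinarith
  unfold hb
  calc _ ≤ (2 ^ (3 * s) * 2 ^ ((s + 6) * (4 * s + 7) + 1)) ^ 5 ^ s :=
        Nat.pow_le_pow_left (Nat.mul_le_mul h3 h5) _
    _ = 2 ^ ((3 * s + ((s + 6) * (4 * s + 7) + 1)) * 5 ^ s) := by rw [← pow_add, ← pow_mul]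
    _ ≤ 2 ^ (2 ^ (2 * s + 7) * 2 ^ (3 * s)) :=
        Nat.pow_le_pow_right (by norm_num) (Nat.mul_le_mul h6 h3)
    _ = _ := by rw [← pow_add]; congr 2; ring

theorem qs_small {L : List QC} {s : ℕ} (hb' : QBound L s) (h : QSat L) :
    ∃ x : ℕ → ℝ, (∀ q ∈ L, res q x = 0) ∧ ∀ i < s, |x i| ≤ 2 ^ 2 ^ (5 * s + 7) := by
  obtain ⟨x0, hx0⟩ := h
  have hF : ∀ y : Fin s → ℝ, 0 ≤ aeval y (sqP s L) := fun y => by
    rw [aeval_sqP]; exact sum_sq_nonneg _ _
  have hL : l1 (sqP s L) ≤ 9 * s := (l1_sqP s L).trans (Nat.mul_le_mul_left _ hb'.2.1)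
  obtain ⟨y, hy1, hy2⟩ := quant1 hF (deg_sqP s L) hL (x0 := fun i : Fin s => x0 i) (by
    rw [aeval_sqP, sum_sq_eq_zero]
    intro q hq
    rw [res_ext0 hb' x0 hq, hx0 q hq])
  rw [aeval_sqP, sum_sq_eq_zero] at hy1
  refine ⟨ext0 y, hy1, fun i hi => ?_⟩
  have h1 : y ⟨i, hi⟩ ^ 6 ≤ hb s (9 * s) :=
    (Finset.single_le_sum (f := fun i => y i ^ 6) (fun j _ => by positivity)
      (Finset.mem_univ _)).trans hy2
  have h2 : ((hb s (9 * s) : ℕ) : ℝ) ≤ 2 ^ 2 ^ (5 * s + 7) := by exact_mod_cast hb_le hb'.1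
  simp only [ext0, hi, dif_pos]
  by_cases h : |y ⟨i, hi⟩| ≤ 1
  · exact h.trans (one_le_pow₀ (by norm_num))
  · push Not at h
    have h3 : |y ⟨i, hi⟩| ^ 1 ≤ |y ⟨i, hi⟩| ^ 6 := pow_le_pow_right₀ h.le (by norm_num)
    have h4 : |y ⟨i, hi⟩| ^ 6 = y ⟨i, hi⟩ ^ 6 := Even.pow_abs (by decide) _
    rw [pow_one, h4] at h3
    linarith

theorem qs_approx {L : List QC} {s : ℕ} (hb' : QBound L s) {x : ℕ → ℝ} {δ : ℝ}
    (h1 : ∀ i < s, |x i| ≤ 2 ^ 2 ^ (5 * s + 8)) (h2 : ∀ q ∈ L, |res q x| ≤ δ) (hδ0 : 0 ≤ δ)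
    (hδ : δ * 2 ^ 2 ^ (8 * s + 11) < 1) : QSat L := by
  have hs := hb'.1
  have hF : ∀ y : Fin s → ℝ, 0 ≤ aeval y (sqP s L) := fun y => by
    rw [aeval_sqP]; exact sum_sq_nonneg _ _
  have hL : l1 (sqP s L) ≤ 9 * s := (l1_sqP s L).trans (Nat.mul_le_mul_left _ hb'.2.1)
  set a : ℕ := 2 ^ (5 * s + 8) with ha
  have h0 : s < 2 ^ s := Nat.lt_two_pow_self
  have has : s + 3 ≤ a := by
    have : 5 * s + 8 < a := Nat.lt_two_pow_self
    omega
  have hhb : hb s (9 * s) ≤ 2 ^ a :=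
    (hb_le hs).trans (Nat.pow_le_pow_right (by norm_num)
      (Nat.pow_le_pow_right (by norm_num) (by omega)))
  have hT : s * (2 ^ a) ^ 6 + 2 ^ a ≤ 2 ^ (7 * a) := by
    have e1 : 2 ^ a ≤ (2 ^ a) ^ 6 := Nat.le_self_pow (by norm_num) _
    have e2 : s + 1 ≤ 2 ^ a := le_trans h0 (Nat.pow_le_pow_right (by norm_num) (by omega))
    calc _ ≤ (s + 1) * (2 ^ a) ^ 6 := by nlinarith
      _ ≤ 2 ^ a * (2 ^ a) ^ 6 := Nat.mul_le_mul_right _ e2
      _ = _ := by ring
  have h3 : 5 ^ s ≤ 2 ^ (3 * s) := by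
    rw [pow_mul]; exact Nat.pow_le_pow_left (by norm_num) _
  have hv : hb s (9 * s) * (s * (2 ^ a) ^ 6 + 2 ^ a) ^ 5 ^ s ≤ 2 ^ 2 ^ (8 * s + 11) := by
    have e1 : 1 ≤ 2 ^ (3 * s) := Nat.one_le_two_pow
    calc _ ≤ 2 ^ a * (2 ^ (7 * a)) ^ 5 ^ s := Nat.mul_le_mul hhb (Nat.pow_le_pow_left hT _)
      _ = 2 ^ (a + 7 * a * 5 ^ s) := by rw [← pow_mul, ← pow_add]
      _ ≤ 2 ^ (8 * a * 2 ^ (3 * s)) := by
        refine Nat.pow_le_pow_right (by norm_num) ?_
        nlinarith
      _ = _ := by rw [ha]; congr 1; ring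
  have h6s : 6 * s ≤ 2 ^ a := by
    have : 2 ^ (s + 3) ≤ 2 ^ a := Nat.pow_le_pow_right (by norm_num) has
    rw [pow_add] at this
    omega
  obtain ⟨y, hy⟩ := quant2 hF (deg_sqP s L) hL (T := s * (2 ^ a) ^ 6 + 2 ^ a)
    (v1 := 2 ^ 2 ^ (8 * s + 11)) (x1 := fun i : Fin s => x i)
    (by
      have : ((hb s (9 * s) : ℕ) : ℝ) ≤ 2 ^ a := by exact_mod_cast hhb
      have : (0 : ℝ) ≤ s * (2 ^ a) ^ 6 := by positivity
      linarith)
    (by exact_mod_cast hv) (by positivity)
    (by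
      unfold Gv
      have e1 : aeval (fun i : Fin s => x i) (sqP s L) ≤ s * δ ^ 2 := by
        rw [aeval_sqP]
        refine (sum_sq_le L _ (δ := δ) fun q hq => ?_).trans ?_
        · rw [res_ext0 hb' x hq]; exact h2 q hq
        · have : (L.length : ℝ) ≤ s := by exact_mod_cast hb'.2.1
          gcongr
      have e2 : ∑ i : Fin s, x i ^ 6 ≤ s * ((2 : ℝ) ^ a) ^ 6 := by
        refine (Finset.sum_le_card_nsmul _ _ (((2 : ℝ) ^ a) ^ 6) fun i _ => ?_).trans (by simp)
        rw [← Even.pow_abs (by decide)]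
        exact pow_le_pow_left₀ (abs_nonneg _) (h1 i i.2) 6
      set V : ℝ := 2 ^ 2 ^ (8 * s + 11) with hV
      have hV1 : 1 ≤ V := one_le_pow₀ (by norm_num)
      have e3 : V * δ ^ 2 < 1 := by nlinarith
      have e4 : (6 * s : ℝ) ≤ 2 ^ a := by exact_mod_cast h6s
      have e5 : (1 : ℝ) ≤ s := by exact_mod_cast hs
      have e6 : 6 * V * aeval (fun i : Fin s => x i) (sqP s L) ≤ 6 * V * (s * δ ^ 2) := by gcongr
      nlinarith)
  rw [aeval_sqP, sum_sq_eq_zero] at hy
  exact ⟨_, hy⟩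

end Pool.Agent.MP_485bb6_lc

end
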