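import Mathlib
import Pool.Agent.MP_485bb6_lc.Defs

section

/-! Sign matrices: removing incidences, and reducing the dimension. -/

namespace Pool.Agent.MP_485bb6_lc

open Filter Topology

/-- Vectors in three-space. -/
abbrev V3 := Fin 3 → ℝ

/-- A prescribed strict sign. -/
def sgn (b : Bool) (x : ℝ) : Prop := if b = true then 0 < x else x < 0

@[simp] lemma sgn_true (x : ℝ) : sgn true x ↔ 0 < x := by simp [sgn]
@[simp] lemma sgn_false (x : ℝ) : sgn false x ↔ x < 0 := by simp [sgn]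

/-- Meaning of an entry of the matrix with incidences. -/
def entOK (e : ℕ) (x : ℝ) : Prop := if e = 0 then 0 < x else if e = 1 then x < 0 else x = 0

/-- The entry of the strict matrix. -/
def strict (e : ℕ) (s s' : Bool × Bool) : Bool :=
  if e = 0 then true else if e = 1 then false else if e = 2 then s.1 else if e = 3 then s.2
  else if e = 4 then s'.1 else s'.2

lemma sgn_pos_mul {b : Bool} {x c : ℝ} (hc : 0 < c) (h : sgn b x) : sgn b (c * x) := by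
  cases b
  · simp only [sgn_false] at h ⊢; exact mul_neg_of_pos_of_neg hc h
  · simp only [sgn_true] at h ⊢; exact mul_pos hc h

lemma sgn_comb {b : Bool} {x y s t : ℝ} (hs : 0 ≤ s) (ht : 0 ≤ t) (hst : s + t = 1)
    (hx : sgn b x) (hy : sgn b y) : sgn b (s * x + t * y) := by
  cases b
  · simp only [sgn_false] at hx hy ⊢
    rcases hs.eq_or_lt with h | h
    · have : t = 1 := by linarith
      subst h; simpa [this] using hy
    · nlinarith [mul_nonneg ht (neg_nonneg.2 hy.le), mul_pos h (neg_pos.2 hx)]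
  · simp only [sgn_true] at hx hy ⊢
    rcases hs.eq_or_lt with h | h
    · have : t = 1 := by linarith
      subst h; simpa [this] using hy
    · nlinarith [mul_nonneg ht hy.le, mul_pos h hx]

lemma ev_sgn {b : Bool} {g : ℝ → ℝ} {F : Filter ℝ} {x : ℝ} (hg : Tendsto g F (𝓝 x))
    (h : sgn b x) : ∀ᶠ t in F, sgn b (g t) := by
  cases b
  · simp only [sgn_false] at h ⊢; exact hg.eventually (gt_mem_nhds h)
  · simp only [sgn_true] at h ⊢; exact hg.eventually (lt_mem_nhds h)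

lemma ev_sgn0 {b : Bool} {g : ℝ → ℝ} (hg : Continuous g) (h : sgn b (g 0)) :
    ∀ᶠ t in 𝓝[>] 0, sgn b (g t) :=
  ev_sgn ((hg.tendsto 0).mono_left nhdsWithin_le_nhds) h

lemma conv_sgn {ι : Type} {u : ι → V3} {x w : V3} {b : Bool}
    (hx : x ∈ convexHull ℝ (Set.range u)) (h : ∀ s, sgn b (u s ⬝ᵥ w)) : sgn b (x ⬝ᵥ w) := by
  have hc : Convex ℝ {x : V3 | sgn b (x ⬝ᵥ w)} := by
    intro y hy z hz s t hs ht hst
    show sgn b ((s • y + t • z) ⬝ᵥ w)
    rw [add_dotProduct, smul_dotProduct, smul_dotProduct]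
    exact sgn_comb hs ht hst hy hz
  exact convexHull_min (by rintro _ ⟨s, rfl⟩; exact h s) hc hx

lemma exists_comb {x y : ℝ} (hx : 0 < x) (hy : y < 0) :
    ∃ s t : ℝ, 0 ≤ s ∧ 0 ≤ t ∧ s + t = 1 ∧ s * x + t * y = 0 := by
  have h : 0 < x - y := by linarith
  refine ⟨-y / (x - y), x / (x - y), div_nonneg (by linarith) h.le, div_nonneg hx.le h.le, ?_, ?_⟩
  · field_simp; ring
  · field_simp; ring

lemma zero1 {Φ : Set V3} (hΦ : Φ.Subsingleton) {x y : V3} (hx : ∀ φ ∈ Φ, 0 < x ⬝ᵥ φ)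
    (hy : ∀ φ ∈ Φ, y ⬝ᵥ φ < 0) :
    ∃ s t : ℝ, 0 ≤ s ∧ 0 ≤ t ∧ s + t = 1 ∧ ∀ φ ∈ Φ, (s • x + t • y) ⬝ᵥ φ = 0 := by
  rcases hΦ.eq_empty_or_singleton with rfl | ⟨φ, rfl⟩
  · exact ⟨1, 0, zero_le_one, le_rfl, by norm_num, by simp⟩
  · obtain ⟨s, t, hs, ht, hst, h⟩ := exists_comb (hx φ rfl) (hy φ rfl)
    refine ⟨s, t, hs, ht, hst, ?_⟩
    rintro _ rfl
    rw [add_dotProduct, smul_dotProduct, smul_dotProduct]
    exact h

lemma zero2 (u : Bool × Bool → V3) {Φ Ψ : Set V3} (hΦ : Φ.Subsingleton) (hΨ : Ψ.Subsingleton)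
    (h1 : ∀ φ ∈ Φ, ∀ s, sgn s.1 (u s ⬝ᵥ φ)) (h2 : ∀ φ ∈ Ψ, ∀ s, sgn s.2 (u s ⬝ᵥ φ)) :
    ∃ x ∈ convexHull ℝ (Set.range u), (∀ φ ∈ Φ, x ⬝ᵥ φ = 0) ∧ ∀ φ ∈ Ψ, x ⬝ᵥ φ = 0 := by
  have key : ∀ b : Bool, ∃ x ∈ convexHull ℝ (Set.range u),
      (∀ φ ∈ Φ, sgn b (x ⬝ᵥ φ)) ∧ ∀ φ ∈ Ψ, x ⬝ᵥ φ = 0 := by
    intro b
    obtain ⟨s, t, hs, ht, hst, h⟩ := zero1 hΨ (x := u (b, true)) (y := u (b, false))
      (fun φ hφ => by simpa using h2 φ hφ (b, true)) (fun φ hφ => by simpa using h2 φ hφ (b, false))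
    refine ⟨_, (convex_convexHull ℝ _) (subset_convexHull ℝ _ (Set.mem_range_self (b, true)))
      (subset_convexHull ℝ _ (Set.mem_range_self (b, false))) hs ht hst, fun φ hφ => ?_, h⟩
    rw [add_dotProduct, smul_dotProduct, smul_dotProduct]
    exact sgn_comb hs ht hst (h1 φ hφ (b, true)) (h1 φ hφ (b, false))
  obtain ⟨x, hx, hx1, hx2⟩ := key true
  obtain ⟨y, hy, hy1, hy2⟩ := key false
  obtain ⟨s, t, hs, ht, hst, h⟩ := zero1 hΦ (x := x) (y := y)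
    (fun φ hφ => by simpa using hx1 φ hφ) (fun φ hφ => by simpa using hy1 φ hφ)
  refine ⟨_, (convex_convexHull ℝ _) hx hy hs ht hst, h, fun φ hφ => ?_⟩
  rw [add_dotProduct, smul_dotProduct, smul_dotProduct, hx2 φ hφ, hy2 φ hφ]
  simp

/-- A configuration in which every incidence is one of at most two defining incidences. -/
structure Constructible {P L : Type} (SP : Set P) (SL : Set L) (ent : P → L → ℕ)
    (lp : P → ℕ) (ll : L → ℕ) (N : ℕ) : Prop where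
  bp : ∀ p ∈ SP, lp p < N
  bl : ∀ l ∈ SL, ll l < N
  lev1 : ∀ p ∈ SP, ∀ l ∈ SL, ent p l = 2 ∨ ent p l = 3 → ll l < lp p
  lev2 : ∀ p ∈ SP, ∀ l ∈ SL, 4 ≤ ent p l → lp p < ll l
  u2 : ∀ p ∈ SP, ∀ l ∈ SL, ∀ l' ∈ SL, ent p l = 2 → ent p l' = 2 → l = l'
  u3 : ∀ p ∈ SP, ∀ l ∈ SL, ∀ l' ∈ SL, ent p l = 3 → ent p l' = 3 → l = l'
  u4 : ∀ l ∈ SL, ∀ p ∈ SP, ∀ p' ∈ SP, ent p l = 4 → ent p' l = 4 → p = p'
  u5 : ∀ l ∈ SL, ∀ p ∈ SP, ∀ p' ∈ SP, 5 ≤ ent p l → 5 ≤ ent p' l → p = p'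

theorem unstrict {P L : Type} {SP : Set P} {SL : Set L} {ent : P → L → ℕ} {lp : P → ℕ}
    {ll : L → ℕ} {N : ℕ} (hC : Constructible SP SL ent lp ll N)
    (u : P → Bool × Bool → V3) (v : L → Bool × Bool → V3)
    (h : ∀ p ∈ SP, ∀ l ∈ SL, ∀ s s', sgn (strict (ent p l) s s') (u p s ⬝ᵥ v l s')) :
    ∃ (a : P → V3) (b : L → V3), ∀ p ∈ SP, ∀ l ∈ SL, entOK (ent p l) (a p ⬝ᵥ b l) := by
  classical
  have key : ∀ n : ℕ, ∃ (a : P → V3) (b : L → V3),
      (∀ p, a p ∈ convexHull ℝ (Set.range (u p))) ∧ (∀ l, b l ∈ convexHull ℝ (Set.range (v l))) ∧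
      (∀ p ∈ SP, ∀ l ∈ SL, ent p l = 2 ∨ ent p l = 3 → lp p < n → a p ⬝ᵥ b l = 0) ∧
      (∀ p ∈ SP, ∀ l ∈ SL, 4 ≤ ent p l → ll l < n → a p ⬝ᵥ b l = 0) := by
    intro n
    induction n with
    | zero =>
      exact ⟨fun p => u p default, fun l => v l default, fun p => subset_convexHull ℝ _ ⟨_, rfl⟩,
        fun l => subset_convexHull ℝ _ ⟨_, rfl⟩, by simp, by simp⟩
    | succ n ih =>
      obtain ⟨a, b, ha, hb, h1, h2⟩ := ih
      have hP : ∀ p, ∃ x ∈ convexHull ℝ (Set.range (u p)), p ∈ SP →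
          ∀ l ∈ SL, ent p l = 2 ∨ ent p l = 3 → x ⬝ᵥ b l = 0 := by
        intro p
        by_cases hp : p ∈ SP
        · obtain ⟨x, hx, hx1, hx2⟩ := zero2 (u p) (Φ := b '' {l | l ∈ SL ∧ ent p l = 2})
            (Ψ := b '' {l | l ∈ SL ∧ ent p l = 3})
            (Set.Subsingleton.image (fun l hl l' hl' => hC.u2 p hp l hl.1 l' hl'.1 hl.2 hl'.2) _)
            (Set.Subsingleton.image (fun l hl l' hl' => hC.u3 p hp l hl.1 l' hl'.1 hl.2 hl'.2) _)
            (by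
              rintro _ ⟨l, hl, rfl⟩ s
              rw [dotProduct_comm]
              refine conv_sgn (hb l) fun s' => ?_
              rw [dotProduct_comm]
              simpa [strict, hl.2] using h p hp l hl.1 s s')
            (by
              rintro _ ⟨l, hl, rfl⟩ s
              rw [dotProduct_comm]
              refine conv_sgn (hb l) fun s' => ?_
              rw [dotProduct_comm]
              simpa [strict, hl.2] using h p hp l hl.1 s s')
          refine ⟨x, hx, fun _ l hl he => ?_⟩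
          rcases he with he | he
          · exact hx1 _ ⟨l, ⟨hl, he⟩, rfl⟩
          · exact hx2 _ ⟨l, ⟨hl, he⟩, rfl⟩
        · exact ⟨a p, ha p, fun h => absurd h hp⟩
      have hL : ∀ l, ∃ x ∈ convexHull ℝ (Set.range (v l)), l ∈ SL →
          ∀ p ∈ SP, 4 ≤ ent p l → a p ⬝ᵥ x = 0 := by
        intro l
        by_cases hl : l ∈ SL
        · obtain ⟨x, hx, hx1, hx2⟩ := zero2 (v l) (Φ := a '' {p | p ∈ SP ∧ ent p l = 4})
            (Ψ := a '' {p | p ∈ SP ∧ 5 ≤ ent p l})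
            (Set.Subsingleton.image (fun p hp p' hp' => hC.u4 l hl p hp.1 p' hp'.1 hp.2 hp'.2) _)
            (Set.Subsingleton.image (fun p hp p' hp' => hC.u5 l hl p hp.1 p' hp'.1 hp.2 hp'.2) _)
            (by
              rintro _ ⟨p, hp, rfl⟩ s'
              rw [dotProduct_comm]
              refine conv_sgn (ha p) fun s => ?_
              simpa [strict, hp.2] using h p hp.1 l hl s s')
            (by
              rintro _ ⟨p, hp, rfl⟩ s'
              rw [dotProduct_comm]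
              refine conv_sgn (ha p) fun s => ?_
              have h5 := hp.2
              have e : strict (ent p l) s s' = s'.2 := by
                unfold strict
                split_ifs <;> first | rfl | omega
              simpa [e] using h p hp.1 l hl s s')
          refine ⟨x, hx, fun _ p hp he => ?_⟩
          rw [dotProduct_comm]
          rcases he.eq_or_lt with he | he
          · exact hx1 _ ⟨p, ⟨hp, he.symm⟩, rfl⟩
          · exact hx2 _ ⟨p, ⟨hp, he⟩, rfl⟩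
        · exact ⟨b l, hb l, fun h => absurd h hl⟩
      choose a' ha' ha'' using hP
      choose b' hb' hb'' using hL
      refine ⟨fun p => if lp p = n then a' p else a p, fun l => if ll l = n then b' l else b l,
        fun p => ?_, fun l => ?_, fun p hp l hl he hn => ?_, fun p hp l hl he hn => ?_⟩
      · beta_reduce; split_ifs <;> [exact ha' p; exact ha p]
      · beta_reduce; split_ifs <;> [exact hb' l; exact hb l]
      · have h3 := hC.lev1 p hp l hl he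
        have h4 : ll l ≠ n := by omega
        simp only [h4, if_false]
        split_ifs with h5
        · exact ha'' p hp l hl he
        · exact h1 p hp l hl he (by omega)
      · have h3 := hC.lev2 p hp l hl he
        have h4 : lp p ≠ n := by omega
        simp only [h4, if_false]
        split_ifs with h5
        · exact hb'' l hl p hp he
        · exact h2 p hp l hl he (by omega)
  obtain ⟨a, b, ha, hb, h1, h2⟩ := key N
  refine ⟨a, b, fun p hp l hl => ?_⟩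
  have key2 : ∀ β : Bool, (∀ s s', strict (ent p l) s s' = β) → sgn β (a p ⬝ᵥ b l) := by
    intro β hβ
    refine conv_sgn (ha p) fun s => ?_
    rw [dotProduct_comm]
    refine conv_sgn (hb l) fun s' => ?_
    rw [dotProduct_comm, ← hβ s s']
    exact h p hp l hl s s'
  unfold entOK
  split_ifs with h3 h4
  · simpa using key2 true (by simp [strict, h3])
  · simpa using key2 false (by simp [strict, h4])
  · by_cases h5 : 4 ≤ ent p l
    · exact h2 p hp l hl h5 (hC.bl l hl)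
    · exact h1 p hp l hl (by omega) (hC.bp p hp)

theorem tostrict {P L : Type} {SP : Set P} {SL : Set L} {ent : P → L → ℕ} {lp : P → ℕ}
    {ll : L → ℕ} {N : ℕ} (hC : Constructible SP SL ent lp ll N) (hP : SP.Finite) (hL : SL.Finite)
    (a : P → V3) (b : L → V3) (h : ∀ p ∈ SP, ∀ l ∈ SL, entOK (ent p l) (a p ⬝ᵥ b l))
    (dp : P → Bool × Bool → V3) (dl : L → Bool × Bool → V3)
    (hd2 : ∀ p ∈ SP, ∀ l ∈ SL, ∀ s, ent p l = 2 → sgn s.1 (dp p s ⬝ᵥ b l))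
    (hd3 : ∀ p ∈ SP, ∀ l ∈ SL, ∀ s, ent p l = 3 → sgn s.2 (dp p s ⬝ᵥ b l))
    (hd4 : ∀ p ∈ SP, ∀ l ∈ SL, ∀ s, ent p l = 4 → sgn s.1 (a p ⬝ᵥ dl l s))
    (hd5 : ∀ p ∈ SP, ∀ l ∈ SL, ∀ s, 5 ≤ ent p l → sgn s.2 (a p ⬝ᵥ dl l s))
    (e f : V3) (hf : ∀ p ∈ SP, 0 < a p ⬝ᵥ f) (he : ∀ l ∈ SL, 0 < e ⬝ᵥ b l) :
    ∃ (u : P → Bool × Bool → V3) (v : L → Bool × Bool → V3),
      (∀ p ∈ SP, ∀ l ∈ SL, ∀ s s', sgn (strict (ent p l) s s') (u p s ⬝ᵥ v l s')) ∧
      (∀ p ∈ SP, ∀ s, 0 < u p s ⬝ᵥ f) ∧ ∀ l ∈ SL, ∀ s, 0 < e ⬝ᵥ v l s := by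
  let u : ℝ → P → Bool × Bool → V3 := fun t p s => a p + t ^ (N - lp p) • dp p s
  let v : ℝ → L → Bool × Bool → V3 := fun t l s => b l + t ^ (N - ll l) • dl l s
  have hexp : ∀ t p l s s', u t p s ⬝ᵥ v t l s' = a p ⬝ᵥ b l + t ^ (N - lp p) * (dp p s ⬝ᵥ b l)
      + t ^ (N - ll l) * (a p ⬝ᵥ dl l s') + t ^ (N - lp p) * t ^ (N - ll l) * (dp p s ⬝ᵥ dl l s') := by
    intro t p l s s'
    simp only [u, v, add_dotProduct, dotProduct_add, smul_dotProduct, dotProduct_smul, smul_eq_mul]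
    ring
  have E1 : ∀ᶠ t in 𝓝[>] (0 : ℝ), ∀ p ∈ SP, ∀ l ∈ SL, ∀ s s',
      sgn (strict (ent p l) s s') (u t p s ⬝ᵥ v t l s') := by
    refine (eventually_all_finite hP).2 fun p hp => (eventually_all_finite hL).2 fun l hl => ?_
    refine eventually_all.2 fun s => eventually_all.2 fun s' => ?_
    have h1 := h p hp l hl
    have hα : N - lp p ≠ 0 := by have := hC.bp p hp; omega
    have hβ : N - ll l ≠ 0 := by have := hC.bl l hl; omega
    simp only [hexp]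
    by_cases h01 : ent p l = 0 ∨ ent p l = 1
    · refine ev_sgn0 (by fun_prop) ?_
      simp only [zero_pow hα, zero_pow hβ, zero_mul, add_zero]
      rcases h01 with h0 | h0 <;> simpa [strict, entOK, h0] using h1
    · have h0 : a p ⬝ᵥ b l = 0 := by
        unfold entOK at h1
        rwa [if_neg (by omega), if_neg (by omega)] at h1
      by_cases h23 : ent p l = 2 ∨ ent p l = 3
      · have h2 := hC.lev1 p hp l hl h23
        have h3 := hC.bp p hp
        obtain ⟨k, hk⟩ : ∃ k, N - ll l = (N - lp p) + (k + 1) := ⟨lp p - ll l - 1, by omega⟩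
        have h4 : sgn (strict (ent p l) s s') (dp p s ⬝ᵥ b l) := by
          rcases h23 with h5 | h5
          · simpa [strict, h5] using hd2 p hp l hl s h5
          · simpa [strict, h5] using hd3 p hp l hl s h5
        have h5 := ev_sgn0 (b := strict (ent p l) s s') (g := fun t : ℝ => dp p s ⬝ᵥ b l
          + t ^ (k + 1) * (a p ⬝ᵥ dl l s') + t ^ (N - ll l) * (dp p s ⬝ᵥ dl l s')) (by fun_prop)
          (by simpa [zero_pow hβ] using h4)
        filter_upwards [h5, self_mem_nhdsWithin] with t ht ht0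
        have h6 := sgn_pos_mul (pow_pos (show 0 < t from ht0) (N - lp p)) ht
        convert h6 using 1
        rw [h0]
        nth_rewrite 1 [hk]
        ring
      · have h2 := hC.lev2 p hp l hl (by omega)
        have h3 := hC.bl l hl
        obtain ⟨k, hk⟩ : ∃ k, N - lp p = (N - ll l) + (k + 1) := ⟨ll l - lp p - 1, by omega⟩
        have h4 : sgn (strict (ent p l) s s') (a p ⬝ᵥ dl l s') := by
          by_cases h5 : ent p l = 4
          · simpa [strict, h5] using hd4 p hp l hl s' h5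
          · have e : strict (ent p l) s s' = s'.2 := by
              unfold strict
              split_ifs <;> first | rfl | omega
            rw [e]
            exact hd5 p hp l hl s' (by omega)
        have h5 := ev_sgn0 (b := strict (ent p l) s s') (g := fun t : ℝ => a p ⬝ᵥ dl l s'
          + t ^ (k + 1) * (dp p s ⬝ᵥ b l) + t ^ (N - lp p) * (dp p s ⬝ᵥ dl l s')) (by fun_prop)
          (by simpa [zero_pow hα] using h4)
        filter_upwards [h5, self_mem_nhdsWithin] with t ht ht0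
        have h6 := sgn_pos_mul (pow_pos (show 0 < t from ht0) (N - ll l)) ht
        convert h6 using 1
        rw [h0]
        nth_rewrite 1 [hk]
        ring
  have E2 : ∀ᶠ t in 𝓝[>] (0 : ℝ), ∀ p ∈ SP, ∀ s, 0 < u t p s ⬝ᵥ f := by
    refine (eventually_all_finite hP).2 fun p hp => eventually_all.2 fun s => ?_
    have hα : N - lp p ≠ 0 := by have := hC.bp p hp; omega
    have := ev_sgn0 (b := true) (g := fun t : ℝ => a p ⬝ᵥ f + t ^ (N - lp p) * (dp p s ⬝ᵥ f))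
      (by fun_prop) (by simpa [zero_pow hα] using hf p hp)
    simpa [u] using this
  have E3 : ∀ᶠ t in 𝓝[>] (0 : ℝ), ∀ l ∈ SL, ∀ s, 0 < e ⬝ᵥ v t l s := by
    refine (eventually_all_finite hL).2 fun l hl => eventually_all.2 fun s => ?_
    have hα : N - ll l ≠ 0 := by have := hC.bl l hl; omega
    have := ev_sgn0 (b := true) (g := fun t : ℝ => e ⬝ᵥ b l + t ^ (N - ll l) * (e ⬝ᵥ dl l s))
      (by fun_prop) (by simpa [zero_pow hα] using he l hl)
    simpa [v] using this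
  obtain ⟨t, h1, h2, h3⟩ := (E1.and (E2.and E3)).exists
  exact ⟨u t, v t, h1, h2, h3⟩

lemma affine_form {e f x y : V3} (hef : e ⬝ᵥ f = 0) (he : e ≠ 0) (hf : f ≠ 0) :
    x ⬝ᵥ y = (x ⬝ᵥ f) * (f ⬝ᵥ y) / (f ⬝ᵥ f) + (x ⬝ᵥ e) * (e ⬝ᵥ y) / (e ⬝ᵥ e)
      + (x ⬝ᵥ crossProduct e f) * (crossProduct e f ⬝ᵥ y) / ((e ⬝ᵥ e) * (f ⬝ᵥ f)) := by
  have h1 : e ⬝ᵥ e ≠ 0 := fun h => he (dotProduct_self_eq_zero.1 h)
  have h2 : f ⬝ᵥ f ≠ 0 := fun h => hf (dotProduct_self_eq_zero.1 h)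
  field_simp
  simp only [crossProduct, LinearMap.mk₂_apply, Matrix.vec3_dotProduct, Matrix.cons_val_zero,
    Matrix.cons_val_one, Matrix.cons_val, dotProduct, Fin.sum_univ_three] at hef ⊢
  linear_combination ((x 0 * y 0 + x 1 * y 1 + x 2 * y 2) * (e 0 * f 0 + e 1 * f 1 + e 2 * f 2)
    - (x 0 * e 0 + x 1 * e 1 + x 2 * e 2) * (f 0 * y 0 + f 1 * y 1 + f 2 * y 2)
    - (x 0 * f 0 + x 1 * f 1 + x 2 * f 2) * (e 0 * y 0 + e 1 * y 1 + e 2 * y 2)) * hef

theorem to_affine {P L : Type} {SP : Set P} {SL : Set L} {M : P → L → Bool}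
    (u : P → V3) (v : L → V3) (h : ∀ p ∈ SP, ∀ l ∈ SL, sgn (M p l) (u p ⬝ᵥ v l))
    {e f : V3} (hef : e ⬝ᵥ f = 0) (hf : ∀ p ∈ SP, 0 < u p ⬝ᵥ f) (he : ∀ l ∈ SL, 0 < e ⬝ᵥ v l) :
    ∃ (y1 y2 : P → ℝ) (α ν : L → ℝ), ∀ p ∈ SP, ∀ l ∈ SL, sgn (M p l) (α l + y1 p + ν l * y2 p) := by
  refine ⟨fun p => (u p ⬝ᵥ e) / (u p ⬝ᵥ f) / (e ⬝ᵥ e),
    fun p => (u p ⬝ᵥ crossProduct e f) / (u p ⬝ᵥ f) / ((e ⬝ᵥ e) * (f ⬝ᵥ f)),
    fun l => (f ⬝ᵥ v l) / (e ⬝ᵥ v l) / (f ⬝ᵥ f),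
    fun l => (crossProduct e f ⬝ᵥ v l) / (e ⬝ᵥ v l), fun p hp l hl => ?_⟩
  have h1 := hf p hp
  have h2 := he l hl
  have he0 : e ≠ 0 := by rintro rfl; simp at h2
  have hf0 : f ≠ 0 := by rintro rfl; simp at h1
  have h3 := sgn_pos_mul (c := 1 / ((u p ⬝ᵥ f) * (e ⬝ᵥ v l))) (by positivity) (h p hp l hl)
  convert h3 using 1
  rw [affine_form (x := u p) (y := v l) hef he0 hf0]
  have h4 : e ⬝ᵥ e ≠ 0 := fun h => he0 (dotProduct_self_eq_zero.1 h)
  have h5 : f ⬝ᵥ f ≠ 0 := fun h => hf0 (dotProduct_self_eq_zero.1 h)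
  field_simp

theorem dim_reduce {P L : Type} {SP : Set P} {SL : Set L} (M : P → L → Bool) (hne : SP.Nonempty)
    (k : ℕ) : ∀ (V : Type) [AddCommGroup V] [Module ℝ V] [FiniteDimensional ℝ V],
      Module.finrank ℝ V = 3 + k → ∀ (c : P → List Bool → V) (φ : L → Module.Dual ℝ V)
      (n : ℕ → Module.Dual ℝ V),
      (∀ p ∈ SP, ∀ τ : List Bool, τ.length = k → (∀ l ∈ SL, sgn (M p l) (φ l (c p τ))) ∧
        ∀ i < k, sgn (τ.getD i false) (n i (c p τ))) →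
      ∃ (u : P → V3) (v : L → V3), ∀ p ∈ SP, ∀ l ∈ SL, sgn (M p l) (u p ⬝ᵥ v l) := by
  induction k with
  | zero =>
    intro V _ _ _ hV c φ n h
    let B := Module.finBasisOfFinrankEq ℝ V hV
    refine ⟨fun p i => B.repr (c p []) i, fun l i => φ l (B i), fun p hp l hl => ?_⟩
    have h1 := (h p hp [] rfl).1 l hl
    convert h1 using 1
    conv_rhs => rw [← B.sum_repr (c p []), map_sum]
    simp only [dotProduct, map_smul, smul_eq_mul]
  | succ k ih =>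
    intro V _ _ _ hV c φ n h
    have hn : n 0 ≠ 0 := by
      obtain ⟨p, hp⟩ := hne
      have := (h p hp (List.replicate (k + 1) true) (by simp)).2 0 (by omega)
      intro h0
      simp [h0, List.replicate_succ] at this
    have hk : Module.finrank ℝ (LinearMap.ker (n 0)) = 3 + k := by
      have := Module.Dual.finrank_ker_add_one_of_ne_zero hn
      omega
    have hc : ∀ (p : P) (τ : List Bool), ∃ x : LinearMap.ker (n 0), p ∈ SP → τ.length = k →
        (∀ l ∈ SL, sgn (M p l) (φ l x)) ∧ ∀ i < k, sgn (τ.getD i false) (n (i + 1) x) := by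
      intro p τ
      by_cases hp : p ∈ SP ∧ τ.length = k
      · obtain ⟨h1, h2⟩ := h p hp.1 (true :: τ) (by simp [hp.2])
        obtain ⟨h3, h4⟩ := h p hp.1 (false :: τ) (by simp [hp.2])
        obtain ⟨s, t, hs, ht, hst, h5⟩ := exists_comb (x := n 0 (c p (true :: τ)))
          (y := n 0 (c p (false :: τ))) (by simpa using h2 0 (by omega))
          (by simpa using h4 0 (by omega))
        refine ⟨⟨s • c p (true :: τ) + t • c p (false :: τ), by simpa using h5⟩, fun _ _ =>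
          ⟨fun l hl => ?_, fun i hi => ?_⟩⟩
        · simp only [map_add, map_smul, smul_eq_mul]
          exact sgn_comb hs ht hst (h1 l hl) (h3 l hl)
        · simp only [map_add, map_smul, smul_eq_mul]
          exact sgn_comb hs ht hst (by simpa using h2 (i + 1) (by omega))
            (by simpa using h4 (i + 1) (by omega))
      · exact ⟨0, fun h1 h2 => absurd ⟨h1, h2⟩ hp⟩
    choose c' hc' using hc
    exact ih (LinearMap.ker (n 0)) hk c' (fun l => (φ l).domRestrict _)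
      (fun i => (n (i + 1)).domRestrict _) fun p hp τ hτ => hc' p τ hp hτ

end Pool.Agent.MP_485bb6_lc

end

section

/-! Half-spaces as large balls in hyperbolic space. -/

namespace Pool.Agent.MP_485bb6_lc

open Filter Topology Finset

/-- The Lorentzian product, the hyperbolic cosine of the distance. -/
def hB {d : ℕ} (x y : Hyp d) : ℝ := x.1.1 * y.1.1 - ∑ i, x.1.2 i * y.1.2 i

lemma hB_comm {d : ℕ} (x y : Hyp d) : hB x y = hB y x := by
  unfold hB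
  simp only [mul_comm]

lemma one_le_hB {d : ℕ} (x y : Hyp d) : 1 ≤ hB x y := by
  obtain ⟨hx0, hx⟩ := x.2
  obtain ⟨hy0, hy⟩ := y.2
  have h1 := Finset.sum_mul_sq_le_sq_mul_sq Finset.univ x.1.2 y.1.2
  unfold hB
  set a := ∑ i, x.1.2 i ^ 2
  set b := ∑ i, y.1.2 i ^ 2
  set s := ∑ i, x.1.2 i * y.1.2 i
  have ha : 0 ≤ a := Finset.sum_nonneg fun i _ => sq_nonneg _
  have hb : 0 ≤ b := Finset.sum_nonneg fun i _ => sq_nonneg _
  have h2 : (2 * s) ^ 2 ≤ (a + b) ^ 2 := by nlinarith [sq_nonneg (a - b)]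
  have h3 : 2 * s ≤ a + b := (abs_le_of_sq_le_sq' h2 (by positivity)).2
  have h4 : (1 + s) ^ 2 ≤ (x.1.1 * y.1.1) ^ 2 := by
    have : (x.1.1 * y.1.1) ^ 2 = (1 + a) * (1 + b) := by
      rw [mul_pow]
      congr 1 <;> linarith
    rw [this]
    nlinarith
  have h5 := (abs_le_of_sq_le_sq' h4 (by positivity)).2
  linarith

lemma hdist_le_iff {d : ℕ} (x y : Hyp d) {r : ℝ} (hr : 0 < r) :
    hdist x y ≤ 2 * r ↔ hB x y ≤ Real.cosh (2 * r) := by
  have h1 := one_le_hB x y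
  rw [← Real.arcosh_le_arcosh (by linarith) (Real.cosh_pos _), Real.arcosh_cosh (by linarith)]
  rfl

lemma exists_radius {R : ℝ} (hR : 1 < R) : ∃ r : ℝ, 0 < r ∧ Real.cosh (2 * r) = R :=
  ⟨Real.arcosh R / 2, by have := Real.arcosh_pos hR; linarith, by
    rw [mul_div_cancel₀ _ two_ne_zero, Real.cosh_arcosh hR.le]⟩

/-- The point of the hyperboloid above a given point of Euclidean space. -/
noncomputable def liftH (d : ℕ) (Y : ℕ → ℝ) : Hyp d :=
  ⟨(√(1 + ∑ i ∈ range d, Y i ^ 2), fun i => Y i), by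
    have h : 0 ≤ ∑ i ∈ range d, Y i ^ 2 := Finset.sum_nonneg fun i _ => sq_nonneg _
    refine ⟨Real.sqrt_pos.2 (by linarith), ?_⟩
    rw [Real.sq_sqrt (by linarith), Fin.sum_univ_eq_sum_range (fun i => Y i ^ 2)]
    ring⟩

lemma hB_liftH (d : ℕ) (Y Z : ℕ → ℝ) : hB (liftH d Y) (liftH d Z) =
    √(1 + ∑ i ∈ range d, Y i ^ 2) * √(1 + ∑ i ∈ range d, Z i ^ 2) - ∑ i ∈ range d, Y i * Z i := by
  unfold hB liftH
  simp only
  rw [Fin.sum_univ_eq_sum_range (fun i => Y i * Z i)]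

/-- Coordinates of a point vertex. -/
def ptC (y1 : ℝ) (y : ℕ → ℝ) (ε : ℝ) : ℕ → ℝ
  | 0 => ε ^ 3 * y1
  | i + 1 => ε ^ 2 * y i

/-- Coordinates of a ball centre. -/
noncomputable def ctr (k : ℕ) (σ α : ℝ) (ν : ℕ → ℝ) (ε : ℝ) : ℕ → ℝ
  | 0 => σ * (4 / 3) * (1 - ε ^ 2 * (∑ i ∈ range k, ν i ^ 2) / 2 - σ * (5 / 4) * ε ^ 3 * α)
  | i + 1 => σ * ε * (4 / 3) * ν i

lemma cont_ptC (y1 : ℝ) (y : ℕ → ℝ) (i : ℕ) : Continuous fun ε => ptC y1 y ε i := by
  cases i <;> simp only [ptC] <;> fun_prop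

lemma cont_ctr (k : ℕ) (σ α : ℝ) (ν : ℕ → ℝ) (i : ℕ) : Continuous fun ε => ctr k σ α ν ε i := by
  cases i <;> simp only [ctr] <;> fun_prop

lemma cont_hB (d : ℕ) {Y Z : ℝ → ℕ → ℝ} (hY : ∀ i, Continuous fun ε => Y ε i)
    (hZ : ∀ i, Continuous fun ε => Z ε i) :
    Continuous fun ε => hB (liftH d (Y ε)) (liftH d (Z ε)) := by
  simp only [hB_liftH]
  fun_prop

lemma ev_lt0 {g : ℝ → ℝ} (hg : Continuous g) {c : ℝ} (h : g 0 < c) :
    ∀ᶠ t in 𝓝[>] 0, g t < c :=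
  ((hg.tendsto 0).mono_left nhdsWithin_le_nhds).eventually (gt_mem_nhds h)

lemma ev_gt0 {g : ℝ → ℝ} (hg : Continuous g) {c : ℝ} (h : c < g 0) :
    ∀ᶠ t in 𝓝[>] 0, c < g t :=
  ((hg.tendsto 0).mono_left nhdsWithin_le_nhds).eventually (lt_mem_nhds h)

lemma ev_pp (k : ℕ) (y1 z1 : ℝ) (y z : ℕ → ℝ) : ∀ᶠ ε in 𝓝[>] 0,
    hB (liftH (k + 1) (ptC y1 y ε)) (liftH (k + 1) (ptC z1 z ε)) < 5 / 3 := by
  refine ev_lt0 (cont_hB _ (cont_ptC _ _) (cont_ptC _ _)) ?_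
  simp [hB_liftH, sum_range_succ', ptC]
  norm_num

lemma hB_ctr0 (k : ℕ) {σ τ : ℝ} (hσ : σ ^ 2 = 1) (hτ : τ ^ 2 = 1) (α β : ℝ) (ν μ : ℕ → ℝ) :
    hB (liftH (k + 1) (ctr k σ α ν 0)) (liftH (k + 1) (ctr k τ β μ 0)) = 25 / 9 - σ * τ * (16 / 9) := by
  have e : √(1 + (4 / 3 : ℝ) ^ 2) = 5 / 3 := by
    rw [show (1 + (4 / 3 : ℝ) ^ 2) = (5 / 3) ^ 2 by norm_num, Real.sqrt_sq (by norm_num)]
  simp only [hB_liftH, sum_range_succ', ctr, mul_zero, zero_mul, ne_eq, OfNat.ofNat_ne_zero,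
    not_false_eq_true, zero_pow, sum_const_zero, zero_add, zero_div, sub_zero, mul_one, mul_pow,
    hσ, hτ, one_mul, e]
  ring

lemma ev_pc (k : ℕ) {σ : ℝ} (hσ : σ = 1 ∨ σ = -1) (y1 α : ℝ) (y ν : ℕ → ℝ) (b : Bool)
    (h : sgn b (σ * (α + y1 + ∑ i ∈ range k, ν i * y i))) : ∀ᶠ ε in 𝓝[>] 0,
    (hB (liftH (k + 1) (ptC y1 y ε)) (liftH (k + 1) (ctr k σ α ν ε)) ≤ 5 / 3 ↔ b = true) := by
  set A := ∑ i ∈ range k, ν i ^ 2 with hA
  set B := ∑ i ∈ range k, y i ^ 2 with hB'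
  set C := ∑ i ∈ range k, ν i * y i with hC
  have hσ2 : σ ^ 2 = 1 := by rcases hσ with rfl | rfl <;> norm_num
  set z : ℝ → ℝ := fun ε => 1 - ε ^ 2 * A / 2 - σ * (5 / 4) * ε ^ 3 * α with hz
  have e1 : ∀ ε, ∑ i ∈ range (k + 1), ptC y1 y ε i ^ 2 = ε ^ 4 * B + ε ^ 6 * y1 ^ 2 := by
    intro ε
    simp only [sum_range_succ', ptC, mul_pow, ← Finset.mul_sum]
    ring
  have e2 : ∀ ε, ∑ i ∈ range (k + 1), ctr k σ α ν ε i ^ 2
      = ε ^ 2 * (16 / 9) * A + 16 / 9 * z ε ^ 2 := by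
    intro ε
    simp only [sum_range_succ', ctr, mul_pow, ← Finset.mul_sum, hσ2]
    ring
  have e3 : ∀ ε, ∑ i ∈ range (k + 1), ptC y1 y ε i * ctr k σ α ν ε i
      = σ * (4 / 3) * ε ^ 3 * (y1 * z ε + C) := by
    intro ε
    have : ∑ i ∈ range k, ε ^ 2 * y i * (σ * ε * (4 / 3) * ν i) = σ * (4 / 3) * ε ^ 3 * C := by
      rw [hC, Finset.mul_sum]
      exact Finset.sum_congr rfl fun i _ => by ring
    simp only [sum_range_succ', ctr, ptC, this]
    ring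
  set g : ℝ → ℝ := fun ε => 2 * (5 / 3) * σ * (4 / 3) * (y1 * z ε + C)
    + 16 / 9 * ε ^ 3 * (y1 * z ε + C) ^ 2 + 2 * σ * (5 / 3) * (4 / 3) * α
    - 16 / 9 * ε * (A / 2 + σ * (5 / 4) * ε * α) ^ 2
    - ε * (ε ^ 2 * y1 ^ 2 + B) * (25 / 9 - 2 * σ * (5 / 3) * (4 / 3) * ε ^ 3 * α
      + 16 / 9 * ε ^ 4 * (A / 2 + σ * (5 / 4) * ε * α) ^ 2) with hg
  have e4 : ∀ ε, (5 / 3 + σ * (4 / 3) * ε ^ 3 * (y1 * z ε + C)) ^ 2
      - (1 + (ε ^ 4 * B + ε ^ 6 * y1 ^ 2)) * (1 + (ε ^ 2 * (16 / 9) * A + 16 / 9 * z ε ^ 2))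
      = ε ^ 3 * g ε := by
    intro ε
    simp only [hg, hz]
    rcases hσ with rfl | rfl <;> ring
  have E1 : ∀ᶠ ε in 𝓝[>] (0 : ℝ), sgn b (g ε) := by
    refine ev_sgn0 (by simp only [hg, hz]; fun_prop) ?_
    have := sgn_pos_mul (c := 40 / 9) (by norm_num) h
    convert this using 1
    simp only [hg, hz]
    ring
  have E2 : ∀ᶠ ε in 𝓝[>] (0 : ℝ), 0 < 5 / 3 + σ * (4 / 3) * ε ^ 3 * (y1 * z ε + C) :=
    ev_gt0 (by simp only [hz]; fun_prop) (by norm_num)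
  filter_upwards [E1, E2, self_mem_nhdsWithin] with ε h1 h2 hε
  have h3 := sgn_pos_mul (pow_pos (show 0 < ε from hε) 3) h1
  rw [← e4] at h3
  have hA0 : 0 ≤ A := Finset.sum_nonneg fun i _ => sq_nonneg _
  have hB0 : 0 ≤ B := Finset.sum_nonneg fun i _ => sq_nonneg _
  rw [hB_liftH, e1, e2, e3, ← Real.sqrt_mul (by positivity), sub_le_iff_le_add,
    Real.sqrt_le_left h2.le]
  cases b
  · simp only [sgn_false] at h3
    simp only [Bool.false_eq_true, iff_false, not_le]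
    linarith
  · simp only [sgn_true] at h3
    simp only [iff_true]
    linarith

/-- Realisation of a sign matrix by balls of equal radius. -/
def BallReal (d : ℕ) {P L : Type} (SP : Set P) (SL : Set L) (M : P → L → Bool) : Prop :=
  ∃ (c : P → Hyp d) (a b : L → Hyp d),
    (∀ p ∈ SP, ∀ p' ∈ SP, hB (c p) (c p') ≤ 5 / 3) ∧
    (∀ l ∈ SL, ∀ l' ∈ SL, hB (a l) (a l') ≤ 5 / 3 ∧ hB (b l) (b l') ≤ 5 / 3 ∧
      5 / 3 < hB (a l) (b l')) ∧
    ∀ p ∈ SP, ∀ l ∈ SL, (hB (c p) (a l) ≤ 5 / 3 ↔ M p l = true) ∧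
      (hB (c p) (b l) ≤ 5 / 3 ↔ (!M p l) = true)

theorem ballReal_of_affine (k : ℕ) {P L : Type} {SP : Set P} {SL : Set L} (hP : SP.Finite)
    (hL : SL.Finite) {M : P → L → Bool} (y1 : P → ℝ) (y : P → ℕ → ℝ) (α : L → ℝ) (ν : L → ℕ → ℝ)
    (h : ∀ p ∈ SP, ∀ l ∈ SL, sgn (M p l) (α l + y1 p + ∑ i ∈ range k, ν l i * y p i)) :
    BallReal (k + 1) SP SL M := by
  have E1 : ∀ᶠ ε in 𝓝[>] (0 : ℝ), ∀ p ∈ SP, ∀ p' ∈ SP,
      hB (liftH (k + 1) (ptC (y1 p) (y p) ε)) (liftH (k + 1) (ptC (y1 p') (y p') ε)) ≤ 5 / 3 :=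
    (eventually_all_finite hP).2 fun p _ => (eventually_all_finite hP).2 fun p' _ =>
      (ev_pp k _ _ _ _).mono fun ε h => h.le
  have E2 : ∀ᶠ ε in 𝓝[>] (0 : ℝ), ∀ l ∈ SL, ∀ l' ∈ SL,
      hB (liftH (k + 1) (ctr k 1 (α l) (ν l) ε)) (liftH (k + 1) (ctr k 1 (α l') (ν l') ε)) ≤ 5 / 3 ∧
      hB (liftH (k + 1) (ctr k (-1) (α l) (ν l) ε))
        (liftH (k + 1) (ctr k (-1) (α l') (ν l') ε)) ≤ 5 / 3 ∧
      5 / 3 < hB (liftH (k + 1) (ctr k 1 (α l) (ν l) ε))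
        (liftH (k + 1) (ctr k (-1) (α l') (ν l') ε)) := by
    refine (eventually_all_finite hL).2 fun l _ => (eventually_all_finite hL).2 fun l' _ => ?_
    refine Eventually.and ?_ (Eventually.and ?_ ?_)
    · refine (ev_lt0 (cont_hB _ (cont_ctr _ _ _ _) (cont_ctr _ _ _ _)) ?_).mono fun ε h => h.le
      rw [hB_ctr0 k (by norm_num) (by norm_num)]; norm_num
    · refine (ev_lt0 (cont_hB _ (cont_ctr _ _ _ _) (cont_ctr _ _ _ _)) ?_).mono fun ε h => h.le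
      rw [hB_ctr0 k (by norm_num) (by norm_num)]; norm_num
    · refine ev_gt0 (cont_hB _ (cont_ctr _ _ _ _) (cont_ctr _ _ _ _)) ?_
      rw [hB_ctr0 k (by norm_num) (by norm_num)]; norm_num
  have E3 : ∀ᶠ ε in 𝓝[>] (0 : ℝ), ∀ p ∈ SP, ∀ l ∈ SL,
      (hB (liftH (k + 1) (ptC (y1 p) (y p) ε)) (liftH (k + 1) (ctr k 1 (α l) (ν l) ε)) ≤ 5 / 3
        ↔ M p l = true) ∧
      (hB (liftH (k + 1) (ptC (y1 p) (y p) ε)) (liftH (k + 1) (ctr k (-1) (α l) (ν l) ε)) ≤ 5 / 3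
        ↔ (!M p l) = true) := by
    refine (eventually_all_finite hP).2 fun p hp => (eventually_all_finite hL).2 fun l hl => ?_
    have h1 := h p hp l hl
    refine Eventually.and (ev_pc k (Or.inl rfl) _ _ _ _ _ (by simpa using h1))
      (ev_pc k (Or.inr rfl) _ _ _ _ _ ?_)
    cases hM : M p l <;> simp only [hM, sgn_true, sgn_false, Bool.not_false, Bool.not_true] at h1 ⊢ <;>
      linarith
  obtain ⟨ε, h1, h2, h3⟩ := (E1.and (E2.and E3)).exists
  exact ⟨_, _, _, h1, h2, h3⟩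

/-- The bisector functional. -/
def bis {d : ℕ} (a b : Hyp d) : Module.Dual ℝ (ℝ × (Fin d → ℝ)) where
  toFun x := x.1 * (b.1.1 - a.1.1) - ∑ i, x.2 i * (b.1.2 i - a.1.2 i)
  map_add' x y := by
    simp only [Prod.fst_add, Prod.snd_add, Pi.add_apply, add_mul, Finset.sum_add_distrib]
    ring
  map_smul' c x := by
    simp only [Prod.smul_fst, Prod.smul_snd, Pi.smul_apply, smul_eq_mul, RingHom.id_apply,
      mul_assoc, ← Finset.mul_sum]
    ring

lemma bis_apply {d : ℕ} (a b c : Hyp d) : bis a b c.1 = hB c b - hB c a := by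
  simp only [bis, hB, LinearMap.coe_mk, AddHom.coe_mk, mul_sub, Finset.sum_sub_distrib]
  ring

lemma sgn_bis {d : ℕ} {a b c : Hyp d} {R : ℝ} {m : Bool} (h1 : hB c a ≤ R ↔ m = true)
    (h2 : hB c b ≤ R ↔ (!m) = true) : sgn m (bis a b c.1) := by
  rw [bis_apply]
  cases m
  · simp only [Bool.false_eq_true, iff_false, not_le, Bool.not_false, iff_true, sgn_false] at *
    linarith
  · simp only [Bool.false_eq_true, iff_false, not_le, Bool.not_true, iff_true, sgn_true] at *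
    linarith

end Pool.Agent.MP_485bb6_lc

end
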