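import Mathlib
import Pool.Agent.Mg.F2e8011.G6b1046
import Pool.Agent.Mg.F2e8011.G7251da

section

/-! From basic quadratic systems to homogeneous strict systems, and to systems near one. -/

namespace Pool.Agent.MP_485bb6_lc

open Filter Topology

/-- A strict test (is it a product test, i, j, k, l). -/
abbrev TC := Bool × ℕ × ℕ × ℕ × ℕ

/-- The meaning of a test. -/
def holds (t : TC) (y : ℕ → ℝ) : Prop :=
  if t.1 = true then y t.2.1 * y t.2.2.1 < y t.2.2.2.1 * y t.2.2.2.2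
  else y t.2.1 + y t.2.2.1 < y t.2.2.2.1 + y t.2.2.2.2

@[simp] lemma holds_true (i j k l : ℕ) (y : ℕ → ℝ) :
    holds (true, i, j, k, l) y ↔ y i * y j < y k * y l := by simp [holds]

@[simp] lemma holds_false (i j k l : ℕ) (y : ℕ → ℝ) :
    holds (false, i, j, k, l) y ↔ y i + y j < y k + y l := by simp [holds]

/-- Solvability with the variable zero set to zero. -/
def SSat (L : List TC) : Prop := ∃ y : ℕ → ℝ, y 0 = 0 ∧ ∀ t ∈ L, holds t y

/-- Tests for one basic constraint. -/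
def genS (q : QC) : List TC :=
  if q.1 = 0 then [(false, 8 * q.2.2.2 + 4, 0, 1, 0), (false, 1, 0, 8 * q.2.2.2 + 3, 0)]
  else if q.1 = 1 then [(false, 8 * q.2.2.2 + 4, 0, 8 * q.2.1 + 2, 8 * q.2.2.1 + 2),
    (false, 8 * q.2.1 + 2, 8 * q.2.2.1 + 2, 8 * q.2.2.2 + 3, 0)]
  else [(true, 1, 8 * q.2.2.2 + 4, 8 * q.2.1 + 2, 8 * q.2.2.1 + 2),
    (true, 8 * q.2.1 + 2, 8 * q.2.2.1 + 2, 1, 8 * q.2.2.2 + 3)]

/-- Tests for the two squaring chains. -/
def genC (k : ℕ) : List TC :=
  [(false, 0, 0, 8 * k + 5, 0), (false, 0, 0, 8 * k + 6, 0),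
    (true, 8 * (k + 1) + 5, 1, 8 * k + 5, 8 * k + 5), (true, 8 * (k + 1) + 6, 1, 8 * k + 6, 8 * k + 6)]

/-- Tests for one variable. -/
def genV (s i : ℕ) : List TC :=
  [(false, 8 * i + 3, 0, 8 * i + 2, 8 * (8 * s + 11) + 6),
    (false, 8 * i + 2, 0, 8 * i + 4, 8 * (8 * s + 11) + 6),
    (false, 8 * i + 2, 0, 8 * (5 * s + 8) + 5, 0), (false, 0, 0, 8 * i + 2, 8 * (5 * s + 8) + 5)]

/-- The strict system attached to a basic system. -/
def toStrict (L : List QC) (s : ℕ) : List TC :=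
  [(false, 0, 0, 1, 0), (false, 8 * 0 + 5, 0, 1, 1), (false, 8 * 0 + 6, 8 * 0 + 6, 1, 0)] ++
    ((List.range (8 * s + 12)).flatMap genC ++ ((List.range s).flatMap (genV s) ++ L.flatMap genS))

/-- The valuation used in the forward direction. -/
noncomputable def valS (x : ℕ → ℝ) (d : ℝ) (n : ℕ) : ℝ :=
  if n % 8 = 0 then 0 else if n % 8 = 1 then 1 else if n % 8 = 2 then x (n / 8)
  else if n % 8 = 3 then x (n / 8) + d / 2 else if n % 8 = 4 then x (n / 8) - d / 2
  else if n % 8 = 5 then 5 / 4 * (3 / 2) ^ 2 ^ (n / 8) else 3 / 2 * (1 / 4) ^ 2 ^ (n / 8)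

lemma md8 (i r : ℕ) (hr : r < 8) : (8 * i + r) % 8 = r ∧ (8 * i + r) / 8 = i := by omega

lemma valS0 (x : ℕ → ℝ) (d : ℝ) : valS x d 0 = 0 := by simp [valS]
lemma valS1 (x : ℕ → ℝ) (d : ℝ) : valS x d 1 = 1 := by simp [valS]
lemma valS2 (x : ℕ → ℝ) (d : ℝ) (i : ℕ) : valS x d (8 * i + 2) = x i := by
  simp only [valS, md8 i 2 (by norm_num)]; simp
lemma valS3 (x : ℕ → ℝ) (d : ℝ) (i : ℕ) : valS x d (8 * i + 3) = x i + d / 2 := by
  simp only [valS, md8 i 3 (by norm_num)]; simp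
lemma valS4 (x : ℕ → ℝ) (d : ℝ) (i : ℕ) : valS x d (8 * i + 4) = x i - d / 2 := by
  simp only [valS, md8 i 4 (by norm_num)]; simp
lemma valS5 (x : ℕ → ℝ) (d : ℝ) (i : ℕ) : valS x d (8 * i + 5) = 5 / 4 * (3 / 2) ^ 2 ^ i := by
  simp only [valS, md8 i 5 (by norm_num)]; simp
lemma valS6 (x : ℕ → ℝ) (d : ℝ) (i : ℕ) : valS x d (8 * i + 6) = 3 / 2 * (1 / 4) ^ 2 ^ i := by
  simp only [valS, md8 i 6 (by norm_num)]; simp

theorem toStrict_of_qsat {L : List QC} {s : ℕ} (hb : QBound L s) (h : QSat L) :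
    SSat (toStrict L s) := by
  obtain ⟨x, hx, hxb⟩ := qs_small hb h
  set d : ℝ := 3 / 2 * (1 / 4) ^ 2 ^ (8 * s + 11) with hd
  have hd0 : 0 < d := by positivity
  refine ⟨valS x d, valS0 x d, fun t ht => ?_⟩
  simp only [toStrict, List.mem_append, List.mem_flatMap, List.mem_range] at ht
  rcases ht with ht | ⟨k, -, ht⟩ | ⟨i, hi, ht⟩ | ⟨q, hq, ht⟩
  · simp only [List.mem_cons, List.not_mem_nil, or_false] at ht
    rcases ht with rfl | rfl | rfl <;>
      simp only [holds_false, valS0, valS1, valS5, valS6] <;> norm_num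
  · simp only [genC, List.mem_cons, List.not_mem_nil, or_false] at ht
    have h1 : (0 : ℝ) < (3 / 2) ^ 2 ^ k := by positivity
    have h2 : (0 : ℝ) < (1 / 4) ^ 2 ^ k := by positivity
    rcases ht with rfl | rfl | rfl | rfl <;>
      simp only [holds_false, holds_true, valS0, valS1, valS5, valS6, pow_succ 2 k, pow_mul] <;>
      nlinarith
  · simp only [genV, List.mem_cons, List.not_mem_nil, or_false] at ht
    have h1 := abs_le.1 (hxb i hi)
    have h2 : (2 : ℝ) ^ 2 ^ (5 * s + 7) ≤ (3 / 2) ^ 2 ^ (5 * s + 8) := by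
      rw [pow_succ' 2 (5 * s + 7), pow_mul]
      exact pow_le_pow_left₀ (by norm_num) (by norm_num) _
    have h3 : (0 : ℝ) < (3 / 2) ^ 2 ^ (5 * s + 8) := by positivity
    rcases ht with rfl | rfl | rfl | rfl <;>
      simp only [holds_false, valS0, valS2, valS3, valS4, valS5, valS6, ← hd] <;> linarith
  · have h1 := hx q hq
    unfold genS at ht
    unfold res at h1
    split_ifs at ht h1 <;> simp only [List.mem_cons, List.not_mem_nil, or_false] at ht <;>
      rcases ht with rfl | rfl <;>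
      simp only [holds_false, holds_true, valS0, valS1, valS2, valS3, valS4] <;> linarith

theorem qsat_of_toStrict {L : List QC} {s : ℕ} (hb : QBound L s) (h : SSat (toStrict L s)) :
    QSat L := by
  obtain ⟨y, hy0, hy⟩ := h
  simp only [toStrict, List.mem_append, List.mem_flatMap, List.mem_range] at hy
  have hη : 0 < y 1 := by
    have := hy (false, 0, 0, 1, 0) (Or.inl (by simp))
    simpa [hy0] using this
  have hC : ∀ k < 8 * s + 12, ∀ t ∈ genC k, holds t y := fun k hk t ht =>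
    hy t (Or.inr (Or.inl ⟨k, hk, ht⟩))
  have hV : ∀ i < s, ∀ t ∈ genV s i, holds t y := fun i hi t ht =>
    hy t (Or.inr (Or.inr (Or.inl ⟨i, hi, ht⟩)))
  have hS : ∀ q ∈ L, ∀ t ∈ genS q, holds t y := fun q hq t ht =>
    hy t (Or.inr (Or.inr (Or.inr ⟨q, hq, ht⟩)))
  simp only [genC, genV, List.forall_mem_cons, holds_true, holds_false, hy0, add_zero,
    List.not_mem_nil, false_imp_iff, implies_true, and_true] at hC hV
  have hR : ∀ k < 8 * s + 12, y (8 * k + 5) < y 1 * 2 ^ 2 ^ k := by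
    intro k hk
    induction k with
    | zero =>
      have := hy (false, 8 * 0 + 5, 0, 1, 1) (Or.inl (by simp))
      simp only [holds_false, hy0] at this
      rw [pow_zero, pow_one]
      linarith
    | succ k ih =>
      have h1 := ih (by omega)
      obtain ⟨h2, -, h3, -⟩ := hC k (by omega)
      have h4 : y (8 * k + 5) * y (8 * k + 5) < (y 1 * 2 ^ 2 ^ k) * (y 1 * 2 ^ 2 ^ k) :=
        mul_lt_mul'' h1 h1 h2.le h2.le
      rw [pow_succ 2 k, pow_mul]
      refine lt_of_mul_lt_mul_right (a := y 1) ?_ hη.le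
      nlinarith
  have hD : ∀ k < 8 * s + 12, y (8 * k + 6) * 2 ^ 2 ^ k < y 1 := by
    intro k hk
    induction k with
    | zero =>
      have := hy (false, 8 * 0 + 6, 8 * 0 + 6, 1, 0) (Or.inl (by simp))
      simp only [holds_false, hy0] at this
      rw [pow_zero, pow_one]
      linarith
    | succ k ih =>
      have h1 := ih (by omega)
      obtain ⟨-, h2, -, h3⟩ := hC k (by omega)
      have h0 : (0 : ℝ) < 2 ^ 2 ^ k := by positivity
      have h5 : 0 ≤ y (8 * k + 6) * 2 ^ 2 ^ k := by positivity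
      have h4 : (y (8 * k + 6) * 2 ^ 2 ^ k) * (y (8 * k + 6) * 2 ^ 2 ^ k) < y 1 * y 1 :=
        mul_lt_mul'' h1 h1 h5 h5
      rw [pow_succ 2 k, pow_mul]
      refine lt_of_mul_lt_mul_right (a := y 1) ?_ hη.le
      have h6 : y (8 * (k + 1) + 6) * y 1 * (2 ^ 2 ^ k) ^ 2
          < y (8 * k + 6) * y (8 * k + 6) * (2 ^ 2 ^ k) ^ 2 := by gcongr
      nlinarith
  have hD0 := (hC (8 * s + 11) (by omega)).2.1
  refine qs_approx hb (x := fun i => y (8 * i + 2) / y 1) (δ := y (8 * (8 * s + 11) + 6) / y 1)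
    (fun i hi => ?_) (fun q hq => ?_) (by positivity) ?_
  · obtain ⟨-, -, h1, h2⟩ := hV i hi
    have h3 := hR (5 * s + 8) (by omega)
    rw [abs_div, abs_of_pos hη, div_le_iff₀ hη, abs_le]
    constructor <;> linarith
  · obtain ⟨hi, hj, hk⟩ := hb.2.2 q hq
    obtain ⟨h1, h2, -, -⟩ := hV _ hk
    have h3 := hS q hq
    unfold genS at h3
    unfold res
    set D := y (8 * (8 * s + 11) + 6) with hDdef
    split_ifs at h3 ⊢ <;>
      simp only [List.forall_mem_cons, holds_true, holds_false, hy0, add_zero,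
        List.not_mem_nil, false_imp_iff, implies_true, and_true] at h3 <;>
      obtain ⟨h4, h5⟩ := h3
    · have e : y (8 * q.2.2.2 + 2) / y 1 - 1 = (y (8 * q.2.2.2 + 2) - y 1) / y 1 := by
        field_simp
      rw [e, abs_div, abs_of_pos hη]
      gcongr
      rw [abs_le]; constructor <;> linarith
    · rw [← add_div, ← sub_div, abs_div, abs_of_pos hη]
      gcongr
      rw [abs_le]; constructor <;> linarith
    · have e : y (8 * q.2.1 + 2) / y 1 * (y (8 * q.2.2.1 + 2) / y 1) - y (8 * q.2.2.2 + 2) / y 1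
          = (y (8 * q.2.1 + 2) * y (8 * q.2.2.1 + 2) - y 1 * y (8 * q.2.2.2 + 2)) / y 1 / y 1 := by
        field_simp
      rw [e, abs_div, abs_of_pos hη]
      gcongr
      rw [abs_div, abs_of_pos hη, div_le_iff₀ hη, abs_le]
      constructor <;> nlinarith
  · have := hD (8 * s + 11) (by omega)
    rw [div_mul_eq_mul_div, div_lt_one hη]
    exact this

/-- Solvability in positive reals. -/
def NSat (L : List TC) : Prop := ∃ A : ℕ → ℝ, (∀ i, 0 < A i) ∧ ∀ t ∈ L, holds t A

/-- Solvability arbitrarily close to the all-ones point. -/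
def NNear (L : List TC) : Prop :=
  ∃ A : ℝ → ℕ → ℝ, (∀ i, Tendsto (fun t => A t i) (𝓝[>] 0) (𝓝 1)) ∧
    ∀ t > 0, ∀ q ∈ L, holds q (A t)

/-- Tests near one for one homogeneous test. -/
def genN (c : ℕ) (q : TC) : List TC :=
  if q.1 = true then
    [(true, 5 * q.2.1, 5 * q.2.2.1, 5 * c + 1, 5 * 0),
      (true, 5 * c + 2, 5 * 0, 5 * q.2.2.2.1, 5 * q.2.2.2.2),
      (false, 5 * c + 1, 5 * q.2.2.2.1, 5 * c + 3, 5 * 0),
      (false, 5 * c + 4, 5 * 0, 5 * c + 2, 5 * q.2.1),
      (false, 5 * c + 3, 5 * q.2.2.2.2, 5 * c + 4, 5 * q.2.2.1)]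
  else [(false, 5 * q.2.1, 5 * q.2.2.1, 5 * q.2.2.2.1, 5 * q.2.2.2.2)]

/-- The system near one attached to a homogeneous strict system. -/
def toNear (L : List TC) : List TC :=
  (List.range L.length).flatMap fun c => genN c (L.getD c (false, 0, 0, 0, 0))

/-- Auxiliary values in the forward direction. -/
noncomputable def auxN (y : ℕ → ℝ) (q : TC) (r : ℕ) (t : ℝ) : ℝ :=
  if r = 1 then (1 + t * y q.2.1) * (1 + t * y q.2.2.1)
    + t ^ 2 * (y q.2.2.2.1 * y q.2.2.2.2 - y q.2.1 * y q.2.2.1) / 10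
  else if r = 2 then (1 + t * y q.2.2.2.1) * (1 + t * y q.2.2.2.2)
    - t ^ 2 * (y q.2.2.2.1 * y q.2.2.2.2 - y q.2.1 * y q.2.2.1) / 10
  else if r = 3 then (1 + t * y q.2.1) * (1 + t * y q.2.2.1) + t * y q.2.2.2.1
    + 2 * (t ^ 2 * (y q.2.2.2.1 * y q.2.2.2.2 - y q.2.1 * y q.2.2.1) / 10)
  else (1 + t * y q.2.2.2.1) * (1 + t * y q.2.2.2.2) + t * y q.2.1
    - 2 * (t ^ 2 * (y q.2.2.2.1 * y q.2.2.2.2 - y q.2.1 * y q.2.2.1) / 10)

/-- The valuation used in the forward direction. -/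
noncomputable def valN (L : List TC) (y : ℕ → ℝ) (t : ℝ) (n : ℕ) : ℝ :=
  if n % 5 = 0 then 1 + t * y (n / 5) else auxN y (L.getD (n / 5) (false, 0, 0, 0, 0)) (n % 5) t

lemma valN0 (L : List TC) (y : ℕ → ℝ) (t : ℝ) (i : ℕ) : valN L y t (5 * i) = 1 + t * y i := by
  simp [valN]

lemma valNr (L : List TC) (y : ℕ → ℝ) (t : ℝ) (c r : ℕ) (h0 : 0 < r) (h5 : r < 5) :
    valN L y t (5 * c + r) = auxN y (L.getD c (false, 0, 0, 0, 0)) r t := by
  have h1 : (5 * c + r) % 5 = r := by omega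
  have h2 : (5 * c + r) / 5 = c := by omega
  simp only [valN, h1, h2, h0.ne', if_false]

lemma getD_mem {α : Type} (L : List α) (d : α) {c : ℕ} (hc : c < L.length) : L.getD c d ∈ L := by
  rw [List.getD_eq_getElem _ _ hc]
  exact List.getElem_mem hc

lemma exists_getD {α : Type} (L : List α) (d : α) {a : α} (ha : a ∈ L) :
    ∃ c < L.length, L.getD c d = a := by
  obtain ⟨c, hc, rfl⟩ := List.getElem_of_mem ha
  exact ⟨c, hc, List.getD_eq_getElem _ _ hc⟩

theorem toNear_of_ssat {L : List TC} (h : SSat L) : NNear (toNear L) := by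
  obtain ⟨y, hy0, hy⟩ := h
  refine ⟨valN L y, fun i => ?_, fun t ht q hq => ?_⟩
  · refine Tendsto.mono_left ?_ nhdsWithin_le_nhds
    have hc : Continuous fun t => valN L y t i := by
      unfold valN auxN
      split_ifs <;> fun_prop
    have h0 : valN L y 0 i = 1 := by
      unfold valN auxN
      split_ifs <;> simp
    simpa [h0] using hc.tendsto 0
  · simp only [toNear, List.mem_flatMap, List.mem_range] at hq
    obtain ⟨c, hc, hq⟩ := hq
    have h1 := hy _ (getD_mem L (false, 0, 0, 0, 0) hc)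
    unfold genN at hq
    unfold holds at h1
    have ht2 : 0 < t ^ 2 := by positivity
    split_ifs at hq h1
    · have h2 := mul_pos ht2 (sub_pos.2 h1)
      simp only [List.mem_cons, List.not_mem_nil, or_false] at hq
      rcases hq with rfl | rfl | rfl | rfl | rfl <;>
        simp only [holds_true, holds_false, valN0, hy0, valNr L y t c 1 (by norm_num) (by norm_num),
          valNr L y t c 2 (by norm_num) (by norm_num), valNr L y t c 3 (by norm_num) (by norm_num),
          valNr L y t c 4 (by norm_num) (by norm_num), auxN, if_true, if_false, OfNat.ofNat_ne_one,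
          Nat.reduceEqDiff] <;> nlinarith
    · simp only [List.mem_cons, List.not_mem_nil, or_false] at hq
      subst hq
      simp only [holds_false, valN0]
      nlinarith

theorem ssat_of_toNear {L : List TC} (h : NSat (toNear L)) : SSat L := by
  obtain ⟨A, hA, h⟩ := h
  have h0 := hA 0
  refine ⟨fun i => A (5 * i) - A 0, by simp, fun q hq => ?_⟩
  obtain ⟨c, hc, rfl⟩ := exists_getD L (false, 0, 0, 0, 0) hq
  have h1 : ∀ t ∈ genN c (L.getD c (false, 0, 0, 0, 0)), holds t A := fun t ht =>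
    h t (by simp only [toNear, List.mem_flatMap, List.mem_range]; exact ⟨c, hc, ht⟩)
  unfold genN at h1
  unfold holds
  split_ifs at h1 ⊢ <;>
    simp only [List.forall_mem_cons, holds_true, holds_false, mul_zero,
      List.not_mem_nil, false_imp_iff, implies_true, and_true] at h1
  · obtain ⟨h2, h3, h4, h5, h6⟩ := h1
    nlinarith
  · linarith

end Pool.Agent.MP_485bb6_lc

end

section

/-! From systems near one to systems of quadrilateral tests. -/

namespace Pool.Agent.MP_485bb6_lc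

open Filter Topology

/-- Four indices. -/
abbrev N4 := ℕ × ℕ × ℕ × ℕ

/-- Four slope indices and four height indices. -/
abbrev Quad := N4 × N4

/-- Cyclic selection. -/
def sel (t : N4) (k : ℕ) : ℕ :=
  if k % 4 = 0 then t.1 else if k % 4 = 1 then t.2.1 else if k % 4 = 2 then t.2.2.1 else t.2.2.2

/-- The horizontal displacement along the closed path. -/
def qF (q : Quad) (u w : ℕ → ℝ) : ℝ :=
  u q.1.1 * (w q.2.2.1 - w q.2.1) + u q.1.2.1 * (w q.2.2.2.1 - w q.2.2.1)
    + u q.1.2.2.1 * (w q.2.2.2.2 - w q.2.2.2.1) + u q.1.2.2.2 * (w q.2.1 - w q.2.2.2.2)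

/-- Cyclically consecutive entries differ. -/
def Cyc (t : N4) : Prop := t.1 ≠ t.2.1 ∧ t.2.1 ≠ t.2.2.1 ∧ t.2.2.1 ≠ t.2.2.2 ∧ t.2.2.2 ≠ t.1

/-- Nondegenerate and closing up at the base point. -/
def QGen (q : Quad) : Prop := Cyc q.1 ∧ Cyc q.2 ∧ qF q (fun n => n) (fun n => n) = 0

/-- Solvable near the base point. -/
def QNear (L : List Quad) : Prop :=
  ∃ u w : ℝ → ℕ → ℝ, (∀ s, Tendsto (fun t => u t s) (𝓝[>] 0) (𝓝 s)) ∧
    (∀ s, Tendsto (fun t => w t s) (𝓝[>] 0) (𝓝 s)) ∧
    ∀ q ∈ L, ∀ᶠ t in 𝓝[>] 0, 0 < qF q (u t) (w t)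

/-- Solvable with the right order of slopes and heights. -/
def QSatO (L : List Quad) : Prop :=
  ∃ u w : ℕ → ℝ, StrictMonoOn u {s | ∃ q ∈ L, ∃ j, sel q.1 j = s} ∧
    StrictMonoOn w {s | ∃ q ∈ L, ∃ j, sel q.2 j = s} ∧ ∀ q ∈ L, 0 < qF q u w

/-- The zigzag test. -/
def zig (a b c d : ℕ) : Quad := ((c, d, b, a), (0, 1, 0, 1))

lemma qF_zig (a b c d : ℕ) (u w : ℕ → ℝ) :
    qF (zig a b c d) u w = ((u c - u d) - (u a - u b)) * (w 1 - w 0) := by
  simp only [qF, zig]; ring

/-- Quadrilateral tests for one test near one. -/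
def genQ (c : ℕ) (q : TC) : List Quad :=
  if q.1 = true then
    [zig (8 * q.2.1 + 1) (8 * q.2.1) (8 * c + 3) (8 * c + 2),
      zig (8 * c + 4) (8 * c + 3) (8 * q.2.2.2.1 + 1) (8 * q.2.2.2.1),
      zig (8 * q.2.2.1 + 1) (8 * q.2.2.1) (8 * c + 6) (8 * c + 5),
      zig (8 * c + 7) (8 * c + 6) (8 * q.2.2.2.2 + 1) (8 * q.2.2.2.2),
      ((8 * c + 3, 8 * c + 4, 8 * c + 3, 8 * c + 2), (2 * c + 3, 0, 1, 2 * c + 2)),
      ((8 * c + 6, 8 * c + 7, 8 * c + 6, 8 * c + 5), (1, 2 * c + 2, 2 * c + 3, 0))]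
  else
    [zig (8 * q.2.1 + 1) (8 * q.2.1) (8 * c + 3) (8 * c + 2),
      zig (8 * q.2.2.1 + 1) (8 * q.2.2.1) (8 * c + 4) (8 * c + 3),
      zig (8 * c + 6) (8 * c + 5) (8 * q.2.2.2.1 + 1) (8 * q.2.2.2.1),
      zig (8 * c + 7) (8 * c + 6) (8 * q.2.2.2.2 + 1) (8 * q.2.2.2.2),
      zig (8 * c + 4) (8 * c + 2) (8 * c + 7) (8 * c + 5)]

/-- The quadrilateral system attached to a system near one. -/
def toQuad (L : List TC) : List Quad :=
  (List.range L.length).flatMap fun c => genQ c (L.getD c (false, 0, 0, 0, 0))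

theorem qgen_toQuad (L : List TC) : ∀ q ∈ toQuad L, QGen q := by
  intro q hq
  simp only [toQuad, List.mem_flatMap, List.mem_range] at hq
  obtain ⟨c, -, hq⟩ := hq
  unfold genQ at hq
  split_ifs at hq <;> simp only [List.mem_cons, List.not_mem_nil, or_false] at hq
  · rcases hq with rfl | rfl | rfl | rfl | rfl | rfl <;>
      refine ⟨?_, ?_, ?_⟩ <;> simp only [Cyc, zig, qF] <;> first | omega | (push_cast; ring)
  · rcases hq with rfl | rfl | rfl | rfl | rfl <;>
      refine ⟨?_, ?_, ?_⟩ <;> simp only [Cyc, zig, qF] <;> first | omega | (push_cast; ring)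

/-- The slack parameter. -/
noncomputable def slackQ (q : TC) (A : ℕ → ℝ) : ℝ :=
  if q.1 = true then (A q.2.2.2.1 * A q.2.2.2.2 - A q.2.1 * A q.2.2.1) / 10
  else (A q.2.2.2.1 + A q.2.2.2.2 - (A q.2.1 + A q.2.2.1)) / 10

/-- Private slopes. -/
noncomputable def auxU (q : TC) (A : ℕ → ℝ) (r : ℕ) : ℝ :=
  if r = 2 then 2 else if r = 3 then 2 + (A q.2.1 + slackQ q A)
  else if r = 4 then 2 + (A q.2.1 + slackQ q A) +
    (if q.1 = true then A q.2.2.2.1 - slackQ q A else A q.2.2.1 + slackQ q A)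
  else if r = 5 then 5
  else if r = 6 then 5 + (if q.1 = true then A q.2.2.1 + slackQ q A else A q.2.2.2.1 - slackQ q A)
  else 5 + (if q.1 = true then A q.2.2.1 + slackQ q A else A q.2.2.2.1 - slackQ q A)
    + (A q.2.2.2.2 - slackQ q A)

/-- Slopes in the forward direction. -/
noncomputable def valU (L : List TC) (A : ℕ → ℝ) (n : ℕ) : ℝ :=
  8 * (n / 8 : ℕ) + if n % 8 = 0 then 0 else if n % 8 = 1 then A (n / 8)
    else auxU (L.getD (n / 8) (false, 0, 0, 0, 0)) A (n % 8)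

/-- The private ratio. -/
noncomputable def auxW (q : TC) (A : ℕ → ℝ) : ℝ :=
  ((A q.2.2.1 + slackQ q A) / (A q.2.2.2.2 - slackQ q A)
    + (A q.2.2.2.1 - slackQ q A) / (A q.2.1 + slackQ q A)) / 2

/-- Heights in the forward direction. -/
noncomputable def valW (L : List TC) (A : ℕ → ℝ) (n : ℕ) : ℝ :=
  if n % 2 = 0 ∨ n = 1 then n else (n - 1 : ℕ) + auxW (L.getD (n / 2 - 1) (false, 0, 0, 0, 0)) A

lemma valU0 (L : List TC) (A : ℕ → ℝ) (i : ℕ) : valU L A (8 * i) = 8 * i := by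
  simp [valU]

lemma valU1 (L : List TC) (A : ℕ → ℝ) (i : ℕ) : valU L A (8 * i + 1) = 8 * i + A i := by
  simp only [valU, md8 i 1 (by norm_num)]; simp

lemma valUr (L : List TC) (A : ℕ → ℝ) (c r : ℕ) (h2 : 2 ≤ r) (h8 : r < 8) :
    valU L A (8 * c + r) = 8 * c + auxU (L.getD c (false, 0, 0, 0, 0)) A r := by
  have h0 : r ≠ 0 := by omega
  have h1 : r ≠ 1 := by omega
  simp only [valU, md8 c r h8, h0, h1, if_false]

lemma valW0 (L : List TC) (A : ℕ → ℝ) : valW L A 0 = 0 := by simp [valW]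
lemma valW1 (L : List TC) (A : ℕ → ℝ) : valW L A 1 = 1 := by simp [valW]
lemma valW2 (L : List TC) (A : ℕ → ℝ) (c : ℕ) : valW L A (2 * c + 2) = 2 * c + 2 := by
  have h : (2 * c + 2) % 2 = 0 := by omega
  simp only [valW, h, true_or, if_true]; push_cast; ring
lemma valW3 (L : List TC) (A : ℕ → ℝ) (c : ℕ) :
    valW L A (2 * c + 3) = 2 * c + 2 + auxW (L.getD c (false, 0, 0, 0, 0)) A := by
  have h : ¬ ((2 * c + 3) % 2 = 0 ∨ 2 * c + 3 = 1) := by omega
  have h1 : (2 * c + 3) / 2 - 1 = c := by omega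
  have h2 : 2 * c + 3 - 1 = 2 * c + 2 := by omega
  simp only [valW, h, if_false, h1, h2]; push_cast; ring

lemma tendsto_slackQ {A : ℝ → ℕ → ℝ} {F : Filter ℝ} (hA : ∀ i, Tendsto (fun t => A t i) F (𝓝 1))
    (q : TC) : Tendsto (fun t => slackQ q (A t)) F (𝓝 0) := by
  unfold slackQ
  split_ifs
  · simpa using (((hA q.2.2.2.1).mul (hA q.2.2.2.2)).sub ((hA q.2.1).mul (hA q.2.2.1))).div_const 10
  · simpa using (((hA q.2.2.2.1).add (hA q.2.2.2.2)).sub ((hA q.2.1).add (hA q.2.2.1))).div_const 10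

theorem qnear_of_nnear {L : List TC} (h : NNear L) : QNear (toQuad L) := by
  obtain ⟨A, hA, hL⟩ := h
  have hp : ∀ (q : TC) (i : ℕ), Tendsto (fun t => A t i + slackQ q (A t)) (𝓝[>] 0) (𝓝 1) :=
    fun q i => by simpa using (hA i).add (tendsto_slackQ hA q)
  have hm : ∀ (q : TC) (i : ℕ), Tendsto (fun t => A t i - slackQ q (A t)) (𝓝[>] 0) (𝓝 1) :=
    fun q i => by simpa using (hA i).sub (tendsto_slackQ hA q)
  refine ⟨fun t => valU L (A t), fun t => valW L (A t), fun s => ?_, fun s => ?_, fun q hq => ?_⟩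
  · have e : (s : ℝ) = 8 * (s / 8 : ℕ) + (s % 8 : ℕ) := by
      exact_mod_cast (Nat.div_add_mod s 8).symm
    rw [e]
    unfold valU
    refine tendsto_const_nhds.add ?_
    set q := L.getD (s / 8) (false, 0, 0, 0, 0)
    have hi1 : Tendsto (fun t => if q.1 = true then A t q.2.2.2.1 - slackQ q (A t)
        else A t q.2.2.1 + slackQ q (A t)) (𝓝[>] 0) (𝓝 1) := by
      split_ifs
      · exact hm _ _
      · exact hp _ _
    have hi2 : Tendsto (fun t => if q.1 = true then A t q.2.2.1 + slackQ q (A t)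
        else A t q.2.2.2.1 - slackQ q (A t)) (𝓝[>] 0) (𝓝 1) := by
      split_ifs
      · exact hp _ _
      · exact hm _ _
    have h8 : s % 8 < 8 := Nat.mod_lt _ (by norm_num)
    generalize s % 8 = r at h8
    interval_cases r <;> simp only [auxU, if_true, if_false, OfNat.ofNat_ne_one,
      OfNat.ofNat_ne_zero, one_ne_zero, Nat.reduceEqDiff]
    · simp
    · simpa using hA _
    · simp
    · convert (hp q q.2.1).const_add 2 using 2; norm_num
    · convert ((hp q q.2.1).const_add 2).add hi1 using 2; norm_num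
    · simp
    · convert hi2.const_add 5 using 2; norm_num
    · convert (hi2.const_add 5).add (hm q q.2.2.2.2) using 2; norm_num
  · simp only [valW]
    split_ifs with hs
    · exact tendsto_const_nhds
    · have e : (s : ℝ) = (s - 1 : ℕ) + 1 := by
        have : s = s - 1 + 1 := by omega
        exact_mod_cast this
      rw [e]
      refine tendsto_const_nhds.add ?_
      unfold auxW
      set q := L.getD (s / 2 - 1) (false, 0, 0, 0, 0)
      have := (((hp q q.2.2.1).div (hm q q.2.2.2.2) one_ne_zero).add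
        ((hm q q.2.2.2.1).div (hp q q.2.1) one_ne_zero)).div_const 2
      norm_num at this
      exact this
  · simp only [toQuad, List.mem_flatMap, List.mem_range] at hq
    obtain ⟨c, hc, hq⟩ := hq
    set r := L.getD c (false, 0, 0, 0, 0) with hr
    have hrL : r ∈ L := getD_mem L _ hc
    have e1 := (hp r r.2.1).eventually (lt_mem_nhds (show (0 : ℝ) < 1 by norm_num))
    have e2 := (hm r r.2.2.2.2).eventually (lt_mem_nhds (show (0 : ℝ) < 1 by norm_num))
    have e3 := (((hA r.2.1).add (hA r.2.2.1)).add ((hA r.2.2.2.1).add (hA r.2.2.2.2))).eventually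
      (gt_mem_nhds (show (1 + 1 + (1 + 1) : ℝ) < 10 by norm_num))
    filter_upwards [e1, e2, e3, self_mem_nhdsWithin] with t h1 h2 h3 ht
    have h4 := hL t ht r hrL
    unfold genQ at hq
    unfold holds at h4
    have hU := fun k h2 h8 => valUr L (A t) c k h2 h8
    rw [← hr] at hU
    split_ifs at hq h4 with hb <;> simp only [List.mem_cons, List.not_mem_nil, or_false] at hq
    · have hz : 0 < slackQ r (A t) := by simp only [slackQ, hb, if_true]; linarith
      have h5 : (A t r.2.1 + slackQ r (A t)) * (A t r.2.2.1 + slackQ r (A t))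
          < (A t r.2.2.2.1 - slackQ r (A t)) * (A t r.2.2.2.2 - slackQ r (A t)) := by
        have e : A t r.2.2.2.1 * A t r.2.2.2.2 - A t r.2.1 * A t r.2.2.1 = 10 * slackQ r (A t) := by
          simp only [slackQ, hb, if_true]; ring
        nlinarith
      have h6 : (A t r.2.2.1 + slackQ r (A t)) / (A t r.2.2.2.2 - slackQ r (A t))
          < (A t r.2.2.2.1 - slackQ r (A t)) / (A t r.2.1 + slackQ r (A t)) := by
        rw [div_lt_div_iff₀ h2 h1]; linarith
      have h7 : auxW r (A t) * (A t r.2.1 + slackQ r (A t)) < A t r.2.2.2.1 - slackQ r (A t) := by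
        rw [← lt_div_iff₀ h1]; unfold auxW; linarith
      have h8 : A t r.2.2.1 + slackQ r (A t) < auxW r (A t) * (A t r.2.2.2.2 - slackQ r (A t)) := by
        rw [← div_lt_iff₀ h2]; unfold auxW; linarith
      rcases hq with rfl | rfl | rfl | rfl | rfl | rfl <;>
        simp only [qF, zig, valU0, valU1, valW0, valW1, valW2, valW3, ← hr,
          hU 2 (by norm_num) (by norm_num), hU 3 (by norm_num) (by norm_num),
          hU 4 (by norm_num) (by norm_num), hU 5 (by norm_num) (by norm_num),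
          hU 6 (by norm_num) (by norm_num), hU 7 (by norm_num) (by norm_num), auxU, hb,
          if_true, if_false, Nat.reduceEqDiff] <;> linarith
    · have hz : 0 < slackQ r (A t) := by simp only [slackQ, hb, if_false]; simp; linarith
      have e : A t r.2.2.2.1 + A t r.2.2.2.2 - (A t r.2.1 + A t r.2.2.1) = 10 * slackQ r (A t) := by
        simp only [slackQ, hb, if_false]; simp; ring
      rcases hq with rfl | rfl | rfl | rfl | rfl <;>
        simp only [qF, zig, valU0, valU1, valW0, valW1, valW2, valW3, ← hr,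
          hU 2 (by norm_num) (by norm_num), hU 3 (by norm_num) (by norm_num),
          hU 4 (by norm_num) (by norm_num), hU 5 (by norm_num) (by norm_num),
          hU 6 (by norm_num) (by norm_num), hU 7 (by norm_num) (by norm_num), auxU, hb,
          if_true, if_false, Nat.reduceEqDiff, Bool.false_eq_true] <;> linarith

lemma sel_mem (t : N4) :
    (∃ j, sel t j = t.1) ∧ (∃ j, sel t j = t.2.1) ∧ (∃ j, sel t j = t.2.2.1) ∧
      (∃ j, sel t j = t.2.2.2) :=
  ⟨⟨0, rfl⟩, ⟨1, rfl⟩, ⟨2, rfl⟩, ⟨3, rfl⟩⟩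

theorem nsat_of_qsato {L : List TC} (h : QSatO (toQuad L)) : NSat L := by
  obtain ⟨u, w, hu, hw, hF⟩ := h
  refine ⟨fun i => if 0 < u (8 * i + 1) - u (8 * i) then u (8 * i + 1) - u (8 * i) else 1,
    fun i => by beta_reduce; split_ifs with h <;> [exact h; exact one_pos], fun r hr => ?_⟩
  obtain ⟨c, hc, rfl⟩ := exists_getD L (false, 0, 0, 0, 0) hr
  set r := L.getD c (false, 0, 0, 0, 0) with hr
  have hmem : ∀ q ∈ genQ c r, q ∈ toQuad L := fun q hq => by
    simp only [toQuad, List.mem_flatMap, List.mem_range]; exact ⟨c, hc, hq⟩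
  have hz : ∀ a b c d, zig a b c d ∈ toQuad L → 0 < w 1 - w 0 ∧ u a - u b < u c - u d ∧
      (b < a → 0 < u a - u b) ∧ (d < c → 0 < u c - u d) := by
    intro a b c d hq
    obtain ⟨s1, s2, s3, s4⟩ := sel_mem (zig a b c d).1
    obtain ⟨t1, t2, -, -⟩ := sel_mem (zig a b c d).2
    have h1 : w 0 < w 1 := hw ⟨_, hq, t1⟩ ⟨_, hq, t2⟩ (show 0 < 1 by norm_num)
    have h2 := hF _ hq
    rw [qF_zig] at h2
    refine ⟨by linarith, ?_, fun hab => ?_, fun hcd => ?_⟩
    · have := (mul_pos_iff_of_pos_right (sub_pos.2 h1)).1 h2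
      linarith
    · exact sub_pos.2 (hu ⟨_, hq, s3⟩ ⟨_, hq, s4⟩ hab)
    · exact sub_pos.2 (hu ⟨_, hq, s2⟩ ⟨_, hq, s1⟩ hcd)
  unfold genQ at hmem
  unfold holds
  split_ifs at hmem ⊢ with hb <;>
    simp only [List.forall_mem_cons, List.not_mem_nil, false_imp_iff, implies_true, and_true] at hmem
  · obtain ⟨m1, m2, m3, m4, m5, m6⟩ := hmem
    obtain ⟨w01, a1, a2, a3⟩ := hz _ _ _ _ m1
    obtain ⟨-, b1, b2, b3⟩ := hz _ _ _ _ m2
    obtain ⟨-, c1, c2, c3⟩ := hz _ _ _ _ m3
    obtain ⟨-, d1, d2, d3⟩ := hz _ _ _ _ m4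
    replace a2 := a2 (by omega)
    replace a3 := a3 (by omega)
    replace b2 := b2 (by omega)
    replace b3 := b3 (by omega)
    replace c2 := c2 (by omega)
    replace c3 := c3 (by omega)
    replace d2 := d2 (by omega)
    replace d3 := d3 (by omega)
    have w23 : w (2 * c + 2) < w (2 * c + 3) := 
      hw (a := 2 * c + 2) ⟨_, m5, 3, rfl⟩ (b := 2 * c + 3) ⟨_, m5, 0, rfl⟩ (by omega)
    have f5 := hF _ m5
    have f6 := hF _ m6
    simp only [qF] at f5 f6
    simp only [a2, b3, c2, d3, if_true]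
    set p2 := u (8 * c + 3) - u (8 * c + 2)
    set p1 := u (8 * c + 4) - u (8 * c + 3)
    set p4 := u (8 * c + 6) - u (8 * c + 5)
    set p3 := u (8 * c + 7) - u (8 * c + 6)
    set Q1 := w 1 - w 0
    set Q2 := w (2 * c + 3) - w (2 * c + 2)
    have hQ2 : 0 < Q2 := sub_pos.2 w23
    have g5 : p2 * Q2 < p1 * Q1 := by simp only [p1, p2, Q1, Q2]; linarith
    have g6 : p4 * Q1 < p3 * Q2 := by simp only [p3, p4, Q1, Q2]; linarith
    have g7 : p2 * p4 < p1 * p3 := by
      have := mul_lt_mul'' g5 g6 (by positivity) (by positivity)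
      have h0 : 0 < Q1 * Q2 := by positivity
      refine lt_of_mul_lt_mul_right (a := Q1 * Q2) ?_ h0.le
      linarith
    have g8 := mul_lt_mul'' a1 c1 a2.le c2.le
    have g9 := mul_lt_mul'' b1 d1 b2.le d2.le
    linarith
  · obtain ⟨m1, m2, m3, m4, m5⟩ := hmem
    obtain ⟨w01, a1, a2, -⟩ := hz _ _ _ _ m1
    obtain ⟨-, b1, b2, -⟩ := hz _ _ _ _ m2
    obtain ⟨-, c1, -, c3⟩ := hz _ _ _ _ m3
    obtain ⟨-, d1, -, d3⟩ := hz _ _ _ _ m4
    obtain ⟨-, e1, -, -⟩ := hz _ _ _ _ m5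
    replace a2 := a2 (by omega)
    replace b2 := b2 (by omega)
    replace c3 := c3 (by omega)
    replace d3 := d3 (by omega)
    simp only [a2, b2, c3, d3, if_true]
    linarith

end Pool.Agent.MP_485bb6_lc

end

section

/-! The point-line configuration attached to a system of quadrilateral tests. -/

namespace Pool.Agent.MP_485bb6_lc

open Filter Topology

/-- Codes of points and lines: (tag, index, position, quadrilateral). -/
abbrev Code := ℕ × ℕ × ℕ × Quad

/-- The dummy quadrilateral. -/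
def dq : Quad := ((0, 0, 0, 0), (0, 0, 0, 0))

/-- Comparison entry. -/
def cmpE (x y z : ℕ) : ℕ := if x = y then z else if y < x then 0 else 1

/-- Sign entry of a product of two differences. -/
def prodE (a b c d : ℕ) : ℕ := if (b < a ∧ d < c) ∨ (a < b ∧ c < d) then 0 else 1

/-- Entries inside one quadrilateral. -/
def tabE (q : Quad) (k j : ℕ) : ℕ :=
  if k = j then 4 else if k = j + 1 then 3 else if k + 3 = j then 1
  else if k % 4 = (j + 2) % 4 then
    prodE (sel q.1 (j + 1)) (sel q.1 j) (sel q.2 (j + 2)) (sel q.2 (j + 1))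
  else prodE (sel q.1 (j + 3)) (sel q.1 j) (sel q.2 (j + 3)) (sel q.2 j)

/-- The matrix with incidences. -/
def ent (p l : Code) : ℕ :=
  if p.1 = 0 then (if l.1 = 0 then 2 else if l.1 = 1 then 4 else 1)
  else if p.1 = 1 then
    (if l.1 = 0 then 2 else if l.1 = 1 then 0 else cmpE p.2.1 (sel l.2.2.2.1 l.2.2.1) 5)
  else if l.1 = 0 then 0 else if l.1 = 1 then cmpE (sel p.2.2.2.2 p.2.2.1) l.2.1 2
  else if p.2.1 = l.2.1 then tabE p.2.2.2 p.2.2.1 l.2.2.1 else cmpE p.2.1 l.2.1 0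

/-- The list of points. -/
def ptList (L : List Quad) : List Code :=
  (0, 0, 0, dq) :: (List.range L.length).flatMap fun c => (List.range 4).flatMap fun k =>
    [(1, sel (L.getD c dq).1 k, 0, dq), (2, c, k, L.getD c dq)]

/-- The list of lines. -/
def lnList (L : List Quad) : List Code :=
  (0, 0, 0, dq) :: (List.range L.length).flatMap fun c => (List.range 4).flatMap fun k =>
    [(1, sel (L.getD c dq).2 k, 0, dq), (2, c, k, L.getD c dq)]

lemma mem_ptList {L : List Quad} {p : Code} : p ∈ ptList L ↔ p = (0, 0, 0, dq) ∨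
    ∃ c < L.length, ∃ k < 4, p = (1, sel (L.getD c dq).1 k, 0, dq) ∨ p = (2, c, k, L.getD c dq) := by
  simp only [ptList, List.mem_cons, List.mem_flatMap, List.mem_range, List.not_mem_nil, or_false]

lemma mem_lnList {L : List Quad} {p : Code} : p ∈ lnList L ↔ p = (0, 0, 0, dq) ∨
    ∃ c < L.length, ∃ k < 4, p = (1, sel (L.getD c dq).2 k, 0, dq) ∨ p = (2, c, k, L.getD c dq) := by
  simp only [lnList, List.mem_cons, List.mem_flatMap, List.mem_range, List.not_mem_nil, or_false]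

/-- Level of a point. -/
def lvP (p : Code) : ℕ := if p.1 ≤ 1 then 1 else 3 + 2 * p.2.2.1

/-- Level of a line. -/
def lvL (l : Code) : ℕ := if l.1 = 0 then 0 else if l.1 = 1 then 2 else 4 + 2 * l.2.2.1

lemma prodE_le (a b c d : ℕ) : prodE a b c d ≤ 1 := by unfold prodE; split_ifs <;> omega

lemma tabE_cases (q : Quad) (k j : ℕ) :
    (tabE q k j = 4 ∧ k = j) ∨ (tabE q k j = 3 ∧ k = j + 1) ∨ tabE q k j ≤ 1 := by
  unfold tabE
  split_ifs with h1 h2 h3 h4
  · exact Or.inl ⟨rfl, h1⟩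
  · exact Or.inr (Or.inl ⟨rfl, h2⟩)
  · exact Or.inr (Or.inr le_rfl)
  · exact Or.inr (Or.inr (prodE_le _ _ _ _))
  · exact Or.inr (Or.inr (prodE_le _ _ _ _))

lemma cmpE_cases (x y z : ℕ) : (cmpE x y z = z ∧ x = y) ∨ cmpE x y z ≤ 1 := by
  unfold cmpE
  split_ifs with h1 h2
  · exact Or.inl ⟨rfl, h1⟩
  · omega
  · omega

lemma ent_cases {L : List Quad} {p l : Code} (hp : p ∈ ptList L) (hl : l ∈ lnList L) :
    ent p l ≤ 1 ∨
    (ent p l = 2 ∧ lvL l < lvP p ∧
      l = if p.1 ≤ 1 then (0, 0, 0, dq) else (1, sel p.2.2.2.2 p.2.2.1, 0, dq)) ∨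
    (ent p l = 3 ∧ lvL l < lvP p ∧ p.1 = 2 ∧ l = (2, p.2.1, p.2.2.1 - 1, p.2.2.2)) ∨
    (ent p l = 4 ∧ lvP p < lvL l ∧ l.1 ≠ 0 ∧ p = if l.1 = 1 then (0, 0, 0, dq) else l) ∨
    (ent p l = 5 ∧ lvP p < lvL l ∧ l.1 = 2 ∧ p = (1, sel l.2.2.2.1 l.2.2.1, 0, dq)) := by
  rcases mem_ptList.1 hp with rfl | ⟨c, -, k, -, rfl | rfl⟩ <;>
    rcases mem_lnList.1 hl with rfl | ⟨c', -, j, -, rfl | rfl⟩
  · simp [ent, lvL, lvP]
  · simp [ent, lvL, lvP]
  · simp [ent]
  · simp [ent, lvL, lvP]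
  · simp [ent]
  · rcases cmpE_cases (sel (L.getD c dq).1 k) (sel (L.getD c' dq).1 j) 5 with ⟨h1, h2⟩ | h
    · right; right; right; right
      refine ⟨by simpa [ent] using h1, by simp [lvL, lvP]; omega, rfl, by rw [h2]⟩
    · left; simpa [ent] using h
  · simp [ent]
  · rcases cmpE_cases (sel (L.getD c dq).2 k) (sel (L.getD c' dq).2 j) 2 with ⟨h1, h2⟩ | h
    · right; left
      refine ⟨by simpa [ent] using h1, by simp [lvL, lvP]; omega, by rw [← h2]; simp⟩
    · left; simpa [ent] using h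
  · by_cases hc : c = c'
    · subst hc
      rcases tabE_cases (L.getD c dq) k j with ⟨h1, h2⟩ | ⟨h1, h2⟩ | h
      · right; right; right; left
        refine ⟨by simpa [ent] using h1, by simp [lvL, lvP]; omega, by simp, by simp [h2]⟩
      · right; right; left
        refine ⟨by simpa [ent] using h1, by simp [lvL, lvP]; omega, rfl, by simp [h2]⟩
      · left; simpa [ent] using h
    · left
      rcases cmpE_cases c c' 0 with ⟨h1, h2⟩ | h
      · exact absurd h2 hc
      · simpa [ent, hc] using h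

theorem constructible (L : List Quad) :
    Constructible {p | p ∈ ptList L} {l | l ∈ lnList L} ent lvP lvL 11 where
  bp p hp := by
    rcases mem_ptList.1 hp with rfl | ⟨c, -, k, hk, rfl | rfl⟩ <;> simp [lvP]
    omega
  bl l hl := by
    rcases mem_lnList.1 hl with rfl | ⟨c, -, k, hk, rfl | rfl⟩ <;> simp [lvL]
    omega
  lev1 p hp l hl h := by rcases ent_cases hp hl with h | h | h | h | h <;> omega
  lev2 p hp l hl h := by rcases ent_cases hp hl with h | h | h | h | h <;> omega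
  u2 p hp l hl l' hl' h h' := by
    rcases ent_cases hp hl with h1 | h1 | h1 | h1 | h1 <;> try omega
    rcases ent_cases hp hl' with h2 | h2 | h2 | h2 | h2 <;> try omega
    exact h1.2.2.trans h2.2.2.symm
  u3 p hp l hl l' hl' h h' := by
    rcases ent_cases hp hl with h1 | h1 | h1 | h1 | h1 <;> try omega
    rcases ent_cases hp hl' with h2 | h2 | h2 | h2 | h2 <;> try omega
    exact h1.2.2.2.trans h2.2.2.2.symm
  u4 l hl p hp p' hp' h h' := by
    rcases ent_cases hp hl with h1 | h1 | h1 | h1 | h1 <;> try omega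
    rcases ent_cases hp' hl with h2 | h2 | h2 | h2 | h2 <;> try omega
    exact h1.2.2.2.trans h2.2.2.2.symm
  u5 l hl p hp p' hp' h h' := by
    rcases ent_cases hp hl with h1 | h1 | h1 | h1 | h1 <;> try omega
    rcases ent_cases hp' hl with h2 | h2 | h2 | h2 | h2 <;> try omega
    exact h1.2.2.2.trans h2.2.2.2.symm

lemma sel_mod (t : N4) (j : ℕ) : sel t (j % 4) = sel t j := by simp [sel]

lemma expand3 {X Y Z i j k : V3} (h1 : i ⬝ᵥ X ≠ 0) (h2 : i ⬝ᵥ Y = 0) (h3 : i ⬝ᵥ Z = 0)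
    (h4 : j ⬝ᵥ Y ≠ 0) (h5 : j ⬝ᵥ Z = 0) (h6 : k ⬝ᵥ Z ≠ 0) (φ : V3) :
    ∃ l : ℝ × ℝ × ℝ, ∀ x : V3, x ⬝ᵥ φ = l.1 * (x ⬝ᵥ X) + l.2.1 * (x ⬝ᵥ Y) + l.2.2 * (x ⬝ᵥ Z) := by
  have hli : LinearIndependent ℝ ![X, Y, Z] := by
    rw [Fintype.linearIndependent_iff]
    intro g hg
    simp only [Fin.sum_univ_three, Matrix.cons_val_zero, Matrix.cons_val_one, Matrix.cons_val] at hg
    have e : ∀ x : V3, g 0 * (x ⬝ᵥ X) + g 1 * (x ⬝ᵥ Y) + g 2 * (x ⬝ᵥ Z) = 0 := by
      intro x
      have := congrArg (fun v => x ⬝ᵥ v) hg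
      simpa [dotProduct_add, dotProduct_smul] using this
    have e0 : g 0 = 0 := by simpa [h1, h2, h3] using e i
    have e1 : g 1 = 0 := by simpa [e0, h4, h5] using e j
    have e2 : g 2 = 0 := by simpa [e0, e1, h6] using e k
    intro t
    fin_cases t
    · exact e0
    · exact e1
    · exact e2
  have hsp := hli.span_eq_top_of_card_eq_finrank (by simp)
  have hφ : φ ∈ Submodule.span ℝ (Set.range ![X, Y, Z]) := by rw [hsp]; trivial
  obtain ⟨g, hg⟩ := (Submodule.mem_span_range_iff_exists_fun ℝ).1 hφ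
  refine ⟨(g 0, g 1, g 2), fun x => ?_⟩
  rw [← hg]
  simp [Fin.sum_univ_three, dotProduct_add, dotProduct_smul]

theorem qsato_of_config {L : List Quad} (a b : Code → V3)
    (h : ∀ p ∈ ptList L, ∀ l ∈ lnList L, entOK (ent p l) (a p ⬝ᵥ b l)) : QSatO L := by
  rcases L.eq_nil_or_concat with rfl | ⟨L', q', hL⟩
  · exact ⟨fun _ => 0, fun _ => 0, by simp [StrictMonoOn], by simp [StrictMonoOn], by simp⟩
  have h0 : 0 < L.length := by simp [hL]
  clear hL
  have mI0 : ((0, 0, 0, dq) : Code) ∈ ptList L := mem_ptList.2 (Or.inl rfl)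
  have mL0 : ((0, 0, 0, dq) : Code) ∈ lnList L := mem_lnList.2 (Or.inl rfl)
  have mI : ∀ c < L.length, ∀ k < 4, ((1, sel (L.getD c dq).1 k, 0, dq) : Code) ∈ ptList L :=
    fun c hc k hk => mem_ptList.2 (Or.inr ⟨c, hc, k, hk, Or.inl rfl⟩)
  have mP : ∀ c < L.length, ∀ k < 4, ((2, c, k, L.getD c dq) : Code) ∈ ptList L :=
    fun c hc k hk => mem_ptList.2 (Or.inr ⟨c, hc, k, hk, Or.inr rfl⟩)
  have mH : ∀ c < L.length, ∀ k < 4, ((1, sel (L.getD c dq).2 k, 0, dq) : Code) ∈ lnList L :=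
    fun c hc k hk => mem_lnList.2 (Or.inr ⟨c, hc, k, hk, Or.inl rfl⟩)
  have mL : ∀ c < L.length, ∀ k < 4, ((2, c, k, L.getD c dq) : Code) ∈ lnList L :=
    fun c hc k hk => mem_lnList.2 (Or.inr ⟨c, hc, k, hk, Or.inr rfl⟩)
  set X := b (2, 0, 0, L.getD 0 dq) with hX
  set Y := b (1, sel (L.getD 0 dq).2 0, 0, dq) with hY
  set Z := b (0, 0, 0, dq) with hZ
  set i := a (0, 0, 0, dq) with hi
  have iL : ∀ c < L.length, ∀ k < 4, i ⬝ᵥ b (2, c, k, L.getD c dq) < 0 := fun c hc k hk => by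
    simpa [ent, entOK] using h _ mI0 _ (mL c hc k hk)
  have iH : ∀ c < L.length, ∀ k < 4, i ⬝ᵥ b (1, sel (L.getD c dq).2 k, 0, dq) = 0 :=
    fun c hc k hk => by simpa [ent, entOK] using h _ mI0 _ (mH c hc k hk)
  have iZ : i ⬝ᵥ Z = 0 := by simpa [ent, entOK] using h _ mI0 _ mL0
  have jH : ∀ c < L.length, ∀ k < 4, ∀ c' < L.length, ∀ k' < 4,
      0 < a (1, sel (L.getD c dq).1 k, 0, dq) ⬝ᵥ b (1, sel (L.getD c' dq).2 k', 0, dq) :=
    fun c hc k hk c' hc' k' hk' => by simpa [ent, entOK] using h _ (mI c hc k hk) _ (mH c' hc' k' hk')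
  have jZ : ∀ c < L.length, ∀ k < 4, a (1, sel (L.getD c dq).1 k, 0, dq) ⬝ᵥ Z = 0 :=
    fun c hc k hk => by simpa [ent, entOK] using h _ (mI c hc k hk) _ mL0
  have pZ : ∀ c < L.length, ∀ k < 4, 0 < a (2, c, k, L.getD c dq) ⬝ᵥ Z :=
    fun c hc k hk => by simpa [ent, entOK] using h _ (mP c hc k hk) _ mL0
  have iX := iL 0 h0 0 (by norm_num)
  have iY := iH 0 h0 0 (by norm_num)
  rw [← hX] at iX
  rw [← hY] at iY
  choose lam hlam using expand3 (X := X) (Y := Y) (Z := Z) iX.ne iY iZ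
    (jH 0 h0 0 (by norm_num) 0 h0 0 (by norm_num)).ne' (jZ 0 h0 0 (by norm_num))
    (pZ 0 h0 0 (by norm_num)).ne'
  let u : ℕ → ℝ := fun s => (a (1, s, 0, dq) ⬝ᵥ X) / (a (1, s, 0, dq) ⬝ᵥ Y)
  let w : ℕ → ℝ := fun s => -(lam (b (1, s, 0, dq))).2.2 / (lam (b (1, s, 0, dq))).2.1
  have HH : ∀ c < L.length, ∀ k < 4, ∃ μ > 0, ∀ x : V3, x ⬝ᵥ b (1, sel (L.getD c dq).2 k, 0, dq)
      = μ * (x ⬝ᵥ Y - w (sel (L.getD c dq).2 k) * (x ⬝ᵥ Z)) := by
    intro c hc k hk
    have e := hlam (b (1, sel (L.getD c dq).2 k, 0, dq))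
    have e1 := e i
    rw [iH c hc k hk, iY, iZ] at e1
    have e2 : (lam (b (1, sel (L.getD c dq).2 k, 0, dq))).1 = 0 := by
      simpa [iX.ne] using e1
    have e3 := e (a (1, sel (L.getD 0 dq).1 0, 0, dq))
    rw [e2, jZ 0 h0 0 (by norm_num)] at e3
    have e4 := jH 0 h0 0 (by norm_num) c hc k hk
    have e5 := jH 0 h0 0 (by norm_num) 0 h0 0 (by norm_num)
    rw [← hY] at e5
    have e6 : 0 < (lam (b (1, sel (L.getD c dq).2 k, 0, dq))).2.1 := by
      rw [e3] at e4
      simp only [zero_mul, mul_zero, zero_add, add_zero] at e4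
      exact (mul_pos_iff_of_pos_right e5).1 e4
    refine ⟨_, e6, fun x => ?_⟩
    rw [e x, e2]
    simp only [w]
    field_simp
    ring
  have HL : ∀ c < L.length, ∀ k < 4, ∃ μ > 0, ∃ γ : ℝ, ∀ x : V3, x ⬝ᵥ b (2, c, k, L.getD c dq)
      = μ * (x ⬝ᵥ X - u (sel (L.getD c dq).1 k) * (x ⬝ᵥ Y) - γ * (x ⬝ᵥ Z)) := by
    intro c hc k hk
    have e := hlam (b (2, c, k, L.getD c dq))
    have e1 := e i
    have e2 := iL c hc k hk
    rw [e1, iY, iZ] at e2
    simp only [mul_zero, add_zero] at e2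
    have e3 : 0 < (lam (b (2, c, k, L.getD c dq))).1 := by
      by_contra hcon
      push Not at hcon
      nlinarith
    have e4 : a (1, sel (L.getD c dq).1 k, 0, dq) ⬝ᵥ b (2, c, k, L.getD c dq) = 0 := by
      simpa [ent, entOK, cmpE] using h _ (mI c hc k hk) _ (mL c hc k hk)
    rw [e, jZ c hc k hk] at e4
    have e5 := jH c hc k hk 0 h0 0 (by norm_num)
    rw [← hY] at e5
    refine ⟨_, e3, -(lam (b (2, c, k, L.getD c dq))).2.2 / (lam (b (2, c, k, L.getD c dq))).1,
      fun x => ?_⟩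
    have e6 : (lam (b (2, c, k, L.getD c dq))).2.1
        = -(lam (b (2, c, k, L.getD c dq))).1 * u (sel (L.getD c dq).1 k) := by
      simp only [u]
      field_simp
      linarith
    rw [e x, e6]
    field_simp
    ring
  have pY : ∀ c < L.length, ∀ k < 4, a (2, c, k, L.getD c dq) ⬝ᵥ Y
      = w (sel (L.getD c dq).2 k) * (a (2, c, k, L.getD c dq) ⬝ᵥ Z) := by
    intro c hc k hk
    obtain ⟨μ, hμ, e⟩ := HH c hc k hk
    have e1 : a (2, c, k, L.getD c dq) ⬝ᵥ b (1, sel (L.getD c dq).2 k, 0, dq) = 0 := by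
      simpa [ent, entOK, cmpE] using h _ (mP c hc k hk) _ (mH c hc k hk)
    rw [e] at e1
    have := (mul_eq_zero.1 e1).resolve_left hμ.ne'
    linarith
  have used : ∀ (f : Quad → N4) (s : ℕ), (∃ q ∈ L, ∃ j, sel (f q) j = s) →
      ∃ c < L.length, ∃ k < 4, sel (f (L.getD c dq)) k = s := by
    rintro f s ⟨q, hq, j, rfl⟩
    obtain ⟨c, hc, rfl⟩ := exists_getD L dq hq
    exact ⟨c, hc, j % 4, Nat.mod_lt _ (by norm_num), sel_mod _ _⟩
  refine ⟨u, w, fun s hs s' hs' hss => ?_, fun s hs s' hs' hss => ?_, fun q hq => ?_⟩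
  · obtain ⟨c, hc, k, hk, rfl⟩ := used Prod.fst s hs
    obtain ⟨c', hc', k', hk', rfl⟩ := used Prod.fst s' hs'
    obtain ⟨μ, hμ, γ, e⟩ := HL c' hc' k' hk'
    have e1 : a (1, sel (L.getD c dq).1 k, 0, dq) ⬝ᵥ b (2, c', k', L.getD c' dq) < 0 := by
      have := h _ (mI c hc k hk) _ (mL c' hc' k' hk')
      simp only [ent, cmpE, hss.ne, hss.not_gt, if_false, if_true, one_ne_zero,
        OfNat.ofNat_ne_zero, OfNat.ofNat_ne_one, entOK] at this
      exact this
    rw [e, jZ c hc k hk] at e1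
    have e2 := jH c hc k hk 0 h0 0 (by norm_num)
    rw [← hY] at e2
    have e3 := neg_of_mul_neg_right e1 hμ.le
    show (_ ⬝ᵥ X) / (_ ⬝ᵥ Y) < _
    rw [div_lt_iff₀ e2]
    linarith
  · obtain ⟨c, hc, k, hk, rfl⟩ := used Prod.snd s hs
    obtain ⟨c', hc', k', hk', rfl⟩ := used Prod.snd s' hs'
    obtain ⟨μ, hμ, e⟩ := HH c hc k hk
    have e1 : 0 < a (2, c', k', L.getD c' dq) ⬝ᵥ b (1, sel (L.getD c dq).2 k, 0, dq) := by
      have := h _ (mP c' hc' k' hk') _ (mH c hc k hk)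
      simp only [ent, cmpE, hss.ne', hss, if_false, if_true, one_ne_zero,
        OfNat.ofNat_ne_zero, OfNat.ofNat_ne_one, entOK] at this
      exact this
    rw [e, pY c' hc' k' hk', ← sub_mul] at e1
    have e2 := (mul_pos_iff_of_pos_left hμ).1 e1
    have e3 := (mul_pos_iff_of_pos_right (pZ c' hc' k' hk')).1 e2
    linarith
  · obtain ⟨c, hc, rfl⟩ := exists_getD L dq hq
    set q := L.getD c dq with hq'
    let x : ℕ → ℝ := fun k => (a (2, c, k, q) ⬝ᵥ X) / (a (2, c, k, q) ⬝ᵥ Z)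
    have key : ∀ j < 4, ∃ γ : ℝ, ∀ k < 4, entOK (tabE q k j)
        (x k - u (sel q.1 j) * w (sel q.2 k) - γ) := by
      intro j hj
      obtain ⟨μ, hμ, γ, e⟩ := HL c hc j hj
      refine ⟨γ, fun k hk => ?_⟩
      have e1 : entOK (tabE q k j) (a (2, c, k, q) ⬝ᵥ b (2, c, j, q)) := by
        have := h _ (mP c hc k hk) _ (mL c hc j hj)
        simp only [ent, if_false, if_true, OfNat.ofNat_ne_zero, OfNat.ofNat_ne_one] at this
        exact this
      have e2 := pZ c hc k hk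
      rw [e, pY c hc k hk] at e1
      rw [← hq'] at e1 e2
      have e3 : μ * (a (2, c, k, q) ⬝ᵥ X - u (sel q.1 j) * (w (sel q.2 k) * (a (2, c, k, q) ⬝ᵥ Z))
          - γ * (a (2, c, k, q) ⬝ᵥ Z)) = (μ * (a (2, c, k, q) ⬝ᵥ Z)) *
            (x k - u (sel q.1 j) * w (sel q.2 k) - γ) := by
        simp only [x]
        field_simp
      rw [e3] at e1
      have e4 : 0 < μ * (a (2, c, k, q) ⬝ᵥ Z) := mul_pos hμ e2
      unfold entOK at e1 ⊢
      split_ifs at e1 ⊢
      · exact (mul_pos_iff_of_pos_left e4).1 e1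
      · exact neg_of_mul_neg_right e1 e4.le
      · exact (mul_eq_zero.1 e1).resolve_left e4.ne'
    obtain ⟨γ0, g0⟩ := key 0 (by norm_num)
    obtain ⟨γ1, g1⟩ := key 1 (by norm_num)
    obtain ⟨γ2, g2⟩ := key 2 (by norm_num)
    obtain ⟨γ3, g3⟩ := key 3 (by norm_num)
    have f00 := g0 0 (by norm_num)
    have f01 := g0 1 (by norm_num)
    have f11 := g1 1 (by norm_num)
    have f12 := g1 2 (by norm_num)
    have f22 := g2 2 (by norm_num)
    have f23 := g2 3 (by norm_num)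
    have f33 := g3 3 (by norm_num)
    have f30 := g3 0 (by norm_num)
    simp [tabE, entOK, sel] at f00 f01 f11 f12 f22 f23 f33 f30
    unfold qF
    linarith

end Pool.Agent.MP_485bb6_lc

end

section

/-! Realising the configuration near the base point. -/

namespace Pool.Agent.MP_485bb6_lc

open Filter Topology

/-- Horizontal offset of the k-th vertex. -/
def off (q : Quad) (u w : ℕ → ℝ) (k : ℕ) : ℝ :=
  ∑ i ∈ Finset.range k, u (sel q.1 i) * (w (sel q.2 (i + 1)) - w (sel q.2 i))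

/-- Value of the j-th edge functional at the k-th vertex. -/
def qval (q : Quad) (u w : ℕ → ℝ) (k j : ℕ) : ℝ :=
  off q u w k - off q u w j - u (sel q.1 j) * (w (sel q.2 k) - w (sel q.2 j))

/-- Point vectors. -/
def aC (Θ : ℝ) (u w : ℕ → ℝ) (p : Code) : V3 :=
  if p.1 = 0 then ![-1, 0, 0] else if p.1 = 1 then ![u p.2.1, 1, 0]
  else ![Θ * p.2.1 + off p.2.2.2 u w p.2.2.1, w (sel p.2.2.2.2 p.2.2.1), 1]

/-- Line vectors. -/
def bC (Θ : ℝ) (u w : ℕ → ℝ) (l : Code) : V3 :=
  if l.1 = 0 then ![0, 0, 1] else if l.1 = 1 then ![0, 1, -w l.2.1]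
  else ![1, -u (sel l.2.2.2.1 l.2.2.1), -(Θ * l.2.1 + off l.2.2.2 u w l.2.2.1
    - u (sel l.2.2.2.1 l.2.2.1) * w (sel l.2.2.2.2 l.2.2.1))]

lemma ev_entOK {e : ℕ} (he : e ≤ 1) {g : ℝ → ℝ} {F : Filter ℝ} {x : ℝ} (hg : Tendsto g F (𝓝 x))
    (h : entOK e x) : ∀ᶠ t in F, entOK e (g t) := by
  interval_cases e
  · simp only [entOK, if_true] at h ⊢; exact hg.eventually (lt_mem_nhds h)
  · simp only [entOK, one_ne_zero, if_false, if_true] at h ⊢; exact hg.eventually (gt_mem_nhds h)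

lemma entOK_prodE {a b c d : ℕ} (h1 : a ≠ b) (h2 : c ≠ d) :
    entOK (prodE a b c d) (((a : ℝ) - b) * ((c : ℝ) - d)) := by
  unfold prodE
  split_ifs with h
  · simp only [entOK, if_true]
    rcases h with ⟨h3, h4⟩ | ⟨h3, h4⟩
    · exact mul_pos (sub_pos.2 (by exact_mod_cast h3)) (sub_pos.2 (by exact_mod_cast h4))
    · exact mul_pos_of_neg_of_neg (sub_neg.2 (by exact_mod_cast h3))
        (sub_neg.2 (by exact_mod_cast h4))
  · simp only [entOK, one_ne_zero, if_false, if_true]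
    rcases lt_or_gt_of_ne h1 with h3 | h3
    · have h4 : d < c := by omega
      exact mul_neg_of_neg_of_pos (sub_neg.2 (by exact_mod_cast h3))
        (sub_pos.2 (by exact_mod_cast h4))
    · have h4 : c < d := by omega
      exact mul_neg_of_pos_of_neg (sub_pos.2 (by exact_mod_cast h3))
        (sub_neg.2 (by exact_mod_cast h4))

lemma ev_tab {q : Quad} (hq : QGen q) {u w : ℝ → ℕ → ℝ} {F : Filter ℝ}
    (hu : ∀ s, Tendsto (fun t => u t s) F (𝓝 s)) (hw : ∀ s, Tendsto (fun t => w t s) F (𝓝 s))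
    (hF : ∀ᶠ t in F, 0 < qF q (u t) (w t)) {k j : ℕ} (hk : k < 4) (hj : j < 4) :
    ∀ᶠ t in F, entOK (tabE q k j) (qval q (u t) (w t) k j) := by
  have hlim : Tendsto (fun t => qval q (u t) (w t) k j) F
      (𝓝 (qval q (fun n => n) (fun n => n) k j)) := by
    unfold qval off
    refine ((tendsto_finsetSum _ fun i _ => (hu _).mul ((hw _).sub (hw _))).sub
      (tendsto_finsetSum _ fun i _ => (hu _).mul ((hw _).sub (hw _)))).sub
      ((hu _).mul ((hw _).sub (hw _)))
  obtain ⟨⟨a1, a2, a3, a4⟩, ⟨b1, b2, b3, b4⟩, h0⟩ := hq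
  unfold qF at h0
  have key : ∀ {a b c d : ℕ}, tabE q k j = prodE a b c d → a ≠ b → c ≠ d →
      qval q (fun n => n) (fun n => n) k j = ((a : ℝ) - b) * ((c : ℝ) - d) →
      ∀ᶠ t in F, entOK (tabE q k j) (qval q (u t) (w t) k j) := by
    intro a b c d e h1 h2 e2
    rw [e]
    exact ev_entOK (prodE_le _ _ _ _) hlim (by rw [e2]; exact entOK_prodE h1 h2)
  beta_reduce at h0
  have s0 : ∀ t : N4, sel t 0 = t.1 := fun _ => rfl
  have s1 : ∀ t : N4, sel t 1 = t.2.1 := fun _ => rfl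
  have s2 : ∀ t : N4, sel t 2 = t.2.2.1 := fun _ => rfl
  have s3 : ∀ t : N4, sel t 3 = t.2.2.2 := fun _ => rfl
  have s4 : ∀ t : N4, sel t 4 = t.1 := fun _ => rfl
  have s5 : ∀ t : N4, sel t 5 = t.2.1 := fun _ => rfl
  have s6 : ∀ t : N4, sel t 6 = t.2.2.1 := fun _ => rfl
  interval_cases k <;> interval_cases j
  all_goals first
    | (refine Eventually.of_forall fun t => ?_
       simp [tabE, entOK, qval, off, Finset.sum_range_succ]
       done)
    | (refine hF.mono fun t ht => ?_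
       simp only [tabE, entOK, qval, off, Finset.sum_range_succ, qF, Finset.range_zero,
         Finset.sum_empty, Nat.reduceAdd, s0, s1, s2, s3, Nat.reduceEqDiff, if_true, if_false,
         OfNat.zero_ne_ofNat, one_ne_zero] at ht ⊢
       linarith)
    | (refine key rfl ?_ ?_ ?_
       · simp only [Nat.reduceAdd, s0, s1, s2, s3, s4, s5, s6]; omega
       · simp only [Nat.reduceAdd, s0, s1, s2, s3, s4, s5, s6]; omega
       · simp only [qval, off, Finset.sum_range_succ, Finset.range_zero, Finset.sum_empty,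
           Nat.reduceAdd, s0, s1, s2, s3, s4, s5, s6]
         first | ring1 | linear_combination h0 | linear_combination -h0)

lemma ev_cmp {g : ℝ → ℕ → ℝ} {F : Filter ℝ} (hg : ∀ s, Tendsto (fun t => g t s) F (𝓝 s))
    (x y : ℕ) {z : ℕ} (hz : 2 ≤ z) : ∀ᶠ t in F, entOK (cmpE x y z) (g t x - g t y) := by
  unfold cmpE
  split_ifs with h1 h2
  · subst h1
    refine Eventually.of_forall fun t => ?_
    unfold entOK
    rw [if_neg (by omega), if_neg (by omega), sub_self]
  · refine ev_entOK (by norm_num) ((hg x).sub (hg y)) ?_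
    simp only [entOK, if_true]
    exact sub_pos.2 (by exact_mod_cast h2)
  · refine ev_entOK (by norm_num) ((hg x).sub (hg y)) ?_
    simp only [entOK, one_ne_zero, if_false, if_true]
    exact sub_neg.2 (by exact_mod_cast (show x < y by omega))

lemma ev_far {c c' : ℕ} (h : c ≠ c') (K : ℝ) :
    ∀ᶠ Θ : ℝ in atTop, entOK (cmpE c c' 0) (Θ * (c - c') + K) := by
  unfold cmpE
  rw [if_neg h]
  split_ifs with h2
  · simp only [entOK, if_true]
    have h3 : (1 : ℝ) ≤ c - c' := by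
      have : ((c' + 1 : ℕ) : ℝ) ≤ c := by exact_mod_cast h2
      push_cast at this
      linarith
    filter_upwards [eventually_gt_atTop |K|] with Θ hΘ
    nlinarith [neg_abs_le K, abs_nonneg K]
  · simp only [entOK, one_ne_zero, if_false, if_true]
    have h3 : (1 : ℝ) ≤ c' - c := by
      have : ((c + 1 : ℕ) : ℝ) ≤ c' := by exact_mod_cast (show c + 1 ≤ c' by omega)
      push_cast at this
      linarith
    filter_upwards [eventually_gt_atTop |K|] with Θ hΘ
    nlinarith [le_abs_self K, abs_nonneg K]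

theorem config_of_qnear {L : List Quad} (hG : ∀ q ∈ L, QGen q) (h : QNear L) :
    ∃ (Θ : ℝ) (u w : ℕ → ℝ), ∀ p ∈ ptList L, ∀ l ∈ lnList L,
      entOK (ent p l) (aC Θ u w p ⬝ᵥ bC Θ u w l) := by
  obtain ⟨u, w, hu, hw, hF⟩ := h
  have E : ∀ᶠ t in 𝓝[>] (0 : ℝ), ∀ p ∈ {p | p ∈ ptList L}, ∀ l ∈ {l | l ∈ lnList L},
      ∀ᶠ Θ : ℝ in atTop, entOK (ent p l) (aC Θ (u t) (w t) p ⬝ᵥ bC Θ (u t) (w t) l) := by
    refine (eventually_all_finite (List.finite_toSet _)).2 fun p hp =>
      (eventually_all_finite (List.finite_toSet _)).2 fun l hl => ?_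
    rcases mem_ptList.1 hp with rfl | ⟨c, hc, k, hk, rfl | rfl⟩ <;>
      rcases mem_lnList.1 hl with rfl | ⟨c', hc', j, hj, rfl | rfl⟩
    · simp [ent, entOK, aC, bC]
    · simp [ent, entOK, aC, bC]
    · simp [ent, entOK, aC, bC]
    · simp [ent, entOK, aC, bC]
    · simp [ent, entOK, aC, bC]
    · refine (ev_cmp hu (sel (L.getD c dq).1 k) (sel (L.getD c' dq).1 j) (z := 5)
        (by norm_num)).mono fun t ht => Eventually.of_forall fun Θ => ?_
      simp only [ent, aC, bC, if_false, if_true, OfNat.ofNat_ne_zero, OfNat.ofNat_ne_one,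
        one_ne_zero, Matrix.vec3_dotProduct, Matrix.cons_val_zero, Matrix.cons_val_one,
        Matrix.cons_val]
      convert ht using 1
      ring
    · simp [ent, entOK, aC, bC]
    · refine (ev_cmp hw (sel (L.getD c dq).2 k) (sel (L.getD c' dq).2 j) (z := 2)
        (by norm_num)).mono fun t ht => Eventually.of_forall fun Θ => ?_
      simp only [ent, aC, bC, if_false, if_true, OfNat.ofNat_ne_zero, OfNat.ofNat_ne_one,
        one_ne_zero, Matrix.vec3_dotProduct, Matrix.cons_val_zero, Matrix.cons_val_one,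
        Matrix.cons_val]
      convert ht using 1
      ring
    · by_cases hcc : c = c'
      · subst hcc
        have hq := getD_mem L dq hc
        refine (ev_tab (hG _ hq) hu hw (hF _ hq) hk hj).mono fun t ht =>
          Eventually.of_forall fun Θ => ?_
        simp only [ent, aC, bC, if_false, if_true, OfNat.ofNat_ne_zero, OfNat.ofNat_ne_one,
          one_ne_zero, Matrix.vec3_dotProduct, Matrix.cons_val_zero, Matrix.cons_val_one,
          Matrix.cons_val]
        convert ht using 1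
        unfold qval
        ring
      · refine Eventually.of_forall fun t => (ev_far hcc
          (off (L.getD c dq) (u t) (w t) k - off (L.getD c' dq) (u t) (w t) j
            - u t (sel (L.getD c' dq).1 j) * (w t (sel (L.getD c dq).2 k)
              - w t (sel (L.getD c' dq).2 j)))).mono fun Θ hΘ => ?_
        simp only [ent, aC, bC, if_false, if_true, OfNat.ofNat_ne_zero, OfNat.ofNat_ne_one,
          one_ne_zero, Matrix.vec3_dotProduct, Matrix.cons_val_zero, Matrix.cons_val_one,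
          Matrix.cons_val, hcc]
        convert hΘ using 1
        ring
  obtain ⟨t, ht⟩ := E.exists
  have E2 : ∀ᶠ Θ : ℝ in atTop, ∀ p ∈ {p | p ∈ ptList L}, ∀ l ∈ {l | l ∈ lnList L},
      entOK (ent p l) (aC Θ (u t) (w t) p ⬝ᵥ bC Θ (u t) (w t) l) :=
    (eventually_all_finite (List.finite_toSet _)).2 fun p hp =>
      (eventually_all_finite (List.finite_toSet _)).2 fun l hl => ht p hp l hl
  obtain ⟨Θ, hΘ⟩ := E2.exists
  exact ⟨Θ, u t, w t, hΘ⟩

lemma exists_ef (Θ : ℝ) (u w : ℕ → ℝ) (LP LL : List Code) :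
    ∃ e f : V3, e ⬝ᵥ f = 0 ∧ (∀ p ∈ LP, 0 < aC Θ u w p ⬝ᵥ f) ∧ ∀ l ∈ LL, 0 < e ⬝ᵥ bC Θ u w l := by
  have E1 : ∀ᶠ K : ℝ in atTop, ∀ p ∈ {p | p ∈ LP}, ∀ᶠ ε in 𝓝[>] (0 : ℝ),
      0 < aC Θ u w p ⬝ᵥ ![-ε, 1, K] := by
    refine (eventually_all_finite (List.finite_toSet _)).2 fun p _ => ?_
    unfold aC
    split_ifs
    · refine Eventually.of_forall fun K => ?_
      filter_upwards [self_mem_nhdsWithin] with ε hε
      simpa using hε
    · refine Eventually.of_forall fun K => ?_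
      simpa using ev_sgn0 (b := true) (g := fun ε => -(u p.2.1 * ε) + 1) (by fun_prop) (by simp)
    · filter_upwards [eventually_gt_atTop (-w (sel p.2.2.2.2 p.2.2.1))] with K hK
      simpa using ev_sgn0 (b := true) (g := fun ε => -((Θ * p.2.1 + off p.2.2.2 u w p.2.2.1) * ε)
        + (w (sel p.2.2.2.2 p.2.2.1) + K)) (by fun_prop) (by simp; linarith)
  have E2 : ∀ᶠ K : ℝ in atTop, ∀ l ∈ {l | l ∈ LL}, ∀ᶠ ε in 𝓝[>] (0 : ℝ),
      0 < ![2 * K, ε * K, ε] ⬝ᵥ bC Θ u w l := by
    refine (eventually_all_finite (List.finite_toSet _)).2 fun l _ => ?_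
    unfold bC
    split_ifs
    · refine Eventually.of_forall fun K => ?_
      filter_upwards [self_mem_nhdsWithin] with ε hε
      simpa using hε
    · filter_upwards [eventually_gt_atTop (w l.2.1)] with K hK
      filter_upwards [self_mem_nhdsWithin] with ε hε
      have h1 : 0 < ε * (K - w l.2.1) := mul_pos hε (by linarith)
      simp only [Matrix.vec3_dotProduct, Matrix.cons_val_zero, Matrix.cons_val_one, Matrix.cons_val]
      linarith
    · filter_upwards [eventually_gt_atTop 0] with K hK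
      simp only [Matrix.vec3_dotProduct, Matrix.cons_val_zero, Matrix.cons_val_one, Matrix.cons_val]
      exact ev_sgn0 (b := true) (by fun_prop) (by simpa using hK)
  obtain ⟨K, h1, h2⟩ := (E1.and E2).exists
  obtain ⟨ε, h3, h4⟩ := (((eventually_all_finite (List.finite_toSet _)).2 h1).and
    ((eventually_all_finite (List.finite_toSet _)).2 h2)).exists
  refine ⟨![2 * K, ε * K, ε], ![-ε, 1, K], ?_, h3, h4⟩
  simp only [Matrix.vec3_dotProduct, Matrix.cons_val_zero, Matrix.cons_val_one, Matrix.cons_val]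
  ring

/-- Plus or minus one. -/
def pm (b : Bool) : ℝ := if b = true then 1 else -1

lemma sgn_pm (b : Bool) : sgn b (pm b) := by cases b <;> simp [pm]

/-- Perturbation directions of points. -/
def dP (u : ℕ → ℝ) (p : Code) (s : Bool × Bool) : V3 :=
  if p.1 ≤ 1 then ![0, 0, pm s.1]
  else ![pm s.2 + u (sel p.2.2.2.1 (p.2.2.1 - 1)) * pm s.1, pm s.1, 0]

/-- Perturbation directions of lines. -/
def dL (w : ℕ → ℝ) (l : Code) (s : Bool × Bool) : V3 :=
  if l.1 = 1 then ![-pm s.1, 0, 0]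
  else ![0, pm s.2, pm s.1 - w (sel l.2.2.2.2 l.2.2.1) * pm s.2]

/-- The strict matrix on the copies. -/
def strictM (p l : Code × Bool × Bool) : Bool := strict (ent p.1 l.1) p.2 l.2

theorem affine_of_qnear {L : List Quad} (hG : ∀ q ∈ L, QGen q) (h : QNear L) :
    ∃ (y1 y2 α ν : Code × Bool × Bool → ℝ), ∀ p, p.1 ∈ ptList L → ∀ l, l.1 ∈ lnList L →
      sgn (strictM p l) (α l + y1 p + ν l * y2 p) := by
  obtain ⟨Θ, u, w, h1⟩ := config_of_qnear hG h
  obtain ⟨e, f, hef, hf, he⟩ := exists_ef Θ u w (ptList L) (lnList L)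
  obtain ⟨U, V, h2, h3, h4⟩ := tostrict (constructible L) (List.finite_toSet _) (List.finite_toSet _)
    (aC Θ u w) (bC Θ u w) h1 (dP u) (dL w)
    (by
      intro p hp l hl s he
      rcases ent_cases hp hl with h1 | h1 | h1 | h1 | h1 <;> try omega
      convert sgn_pm s.1 using 1
      rw [h1.2.2]
      unfold dP
      split_ifs <;> simp [bC])
    (by
      intro p hp l hl s he
      rcases ent_cases hp hl with h1 | h1 | h1 | h1 | h1 <;> try omega
      convert sgn_pm s.2 using 1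
      rw [h1.2.2.2]
      simp [dP, bC, h1.2.2.1]
      ring)
    (by
      intro p hp l hl s he
      rcases ent_cases hp hl with h1 | h1 | h1 | h1 | h1 <;> try omega
      convert sgn_pm s.1 using 1
      rw [h1.2.2.2]
      unfold dL
      split_ifs with h5
      · simp [aC]
      · simp [aC, h5, h1.2.2.1])
    (by
      intro p hp l hl s he
      rcases ent_cases hp hl with h1 | h1 | h1 | h1 | h1 <;> try omega
      convert sgn_pm s.2 using 1
      rw [h1.2.2.2]
      simp [dL, aC, h1.2.2.1])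
    e f hf he
  obtain ⟨y1, y2, α, ν, h5⟩ := to_affine (SP := {p : Code × Bool × Bool | p.1 ∈ ptList L})
    (SL := {l : Code × Bool × Bool | l.1 ∈ lnList L}) (M := strictM)
    (fun p => U p.1 p.2) (fun l => V l.1 l.2) (fun p hp l hl => h2 _ hp _ hl _ _) hef
    (fun p hp => h3 _ hp _) (fun l hl => h4 _ hl _)
  exact ⟨y1, y2, α, ν, fun p hp l hl => h5 p hp l hl⟩

theorem qsato_of_strict {L : List Quad} (U V : Code × Bool × Bool → V3)
    (h : ∀ p, p.1 ∈ ptList L → ∀ l, l.1 ∈ lnList L → sgn (strictM p l) (U p ⬝ᵥ V l)) : QSatO L := by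
  obtain ⟨a, b, hab⟩ := unstrict (constructible L) (fun p s => U (p, s)) (fun l s => V (l, s))
    (fun p hp l hl s s' => h (p, s) hp (l, s') hl)
  exact qsato_of_config a b hab

end Pool.Agent.MP_485bb6_lc

end

section

/-! The graph attached to a system of quadrilateral tests. -/

namespace Pool.Agent.MP_485bb6_lc

open Filter Topology

/-- A matrix written row by row. -/
def mat (m n : ℕ) (f : ℕ → ℕ → Bool) : List Bool :=
  (List.range m).flatMap fun i => (List.range n).map (f i)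

lemma length_mat (m n : ℕ) (f : ℕ → ℕ → Bool) : (mat m n f).length = m * n := by
  induction m with
  | zero => simp [mat]
  | succ m ih =>
    simp only [mat, List.range_succ, List.flatMap_append, List.length_append] at ih ⊢
    rw [ih]
    simp [add_mul]

lemma getD_mat (m n : ℕ) (f : ℕ → ℕ → Bool) {i j : ℕ} (hi : i < m) (hj : j < n) :
    (mat m n f).getD (i * n + j) false = f i j := by
  induction m with
  | zero => omega
  | succ m ih =>
    have e : mat (m + 1) n f = mat m n f ++ (List.range n).map (f m) := by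
      simp [mat, List.range_succ]
    rw [e]
    rcases Nat.lt_succ_iff_lt_or_eq.1 hi with h | rfl
    · rw [List.getD_append _ _ _ _ (by rw [length_mat]; nlinarith), ih h]
    · rw [List.getD_append_right _ _ _ _ (by rw [length_mat]; omega), length_mat,
        Nat.add_sub_cancel_left, List.getD_eq_getElem _ _ (by simpa using hj)]
      simp

lemma eq_mat {n : ℕ} {x : List Bool} (hx : x.length = n * n) {f : ℕ → ℕ → Bool}
    (h : ∀ i < n, ∀ j < n, x.getD (i * n + j) false = f i j) : x = mat n n f := by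
  refine List.ext_getElem (by rw [hx, length_mat]) fun k h1 h2 => ?_
  have hn : 0 < n := by
    rcases Nat.eq_zero_or_pos n with rfl | h
    · simp [hx] at h1
    · exact h
  have hi : k / n < n := (Nat.div_lt_iff_lt_mul hn).2 (by rwa [hx] at h1)
  have hj : k % n < n := Nat.mod_lt _ hn
  have e : k / n * n + k % n = k := Nat.div_add_mod' k n
  have h3 := h _ hi _ hj
  have h4 := getD_mat n n f hi hj
  rw [e] at h3 h4
  rw [List.getD_eq_getElem _ _ h1] at h3
  rw [List.getD_eq_getElem _ _ h2] at h4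
  rw [h3, h4]

open Classical in
lemma graphCode_eq {n : ℕ} (G : SimpleGraph (Fin n)) : graphCode G =
    mat n n fun i j => if h : i < n ∧ j < n then decide (G.Adj ⟨i, h.1⟩ ⟨j, h.2⟩) else false := by
  unfold graphCode mat
  rw [← List.map_coe_finRange_eq_range, List.flatMap_map]
  refine List.flatMap_congr fun i _ => ?_
  rw [List.map_map]
  refine List.map_congr_left fun j _ => ?_
  simp

/-- The base point of hyperbolic space. -/
noncomputable def hyp0 (d : ℕ) : Hyp d := liftH d fun _ => 0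

lemma ubg_iff (d : ℕ) (x : List Bool) : UBG d x = true ↔ ∃ n : ℕ, x.length = n * n ∧
    (∀ i < n, x.getD (i * n + i) false = false) ∧ ∃ R : ℝ, 1 < R ∧ ∃ c : ℕ → Hyp d,
      ∀ i < n, ∀ j < n, i ≠ j → (x.getD (i * n + j) false = true ↔ hB (c i) (c j) ≤ R) := by
  classical
  unfold UBG
  rw [decide_eq_true_iff]
  constructor
  · rintro ⟨n, G, rfl, r, hr, c, hc⟩
    rw [graphCode_eq]
    refine ⟨n, length_mat _ _ _, fun i hi => ?_, Real.cosh (2 * r),
      Real.one_lt_cosh.2 (by positivity), fun i => if h : i < n then c ⟨i, h⟩ else hyp0 d,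
      fun i hi j hj hij => ?_⟩
    · rw [getD_mat _ _ _ hi hi]; simp [hi]
    · rw [getD_mat _ _ _ hi hj]
      simp only [hi, hj, and_self, dif_pos, decide_eq_true_iff]
      rw [hc _ _ (by simpa using hij), hdist_le_iff _ _ hr]
  · rintro ⟨n, hx, hd, R, hR, c, hc⟩
    obtain ⟨r, hr, rfl⟩ := exists_radius hR
    let G : SimpleGraph (Fin n) :=
      { Adj := fun i j => x.getD (i * n + j) false = true
        symm := ⟨fun i j h => by
          by_cases hij : (i : ℕ) = j
          · rwa [hij, ← hij] at h ⊢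
          · rw [hc _ j.2 _ i.2 (Ne.symm hij), hB_comm]
            exact (hc _ i.2 _ j.2 hij).1 h⟩
        loopless := ⟨fun i h => by simp only [hd i i.2, Bool.false_eq_true] at h⟩ }
    refine ⟨n, G, ?_, r, hr, fun i => c i, fun i j hij => ?_⟩
    · rw [graphCode_eq]
      refine (eq_mat hx fun i hi j hj => ?_).symm
      simp [hi, hj, G]
    · rw [hdist_le_iff _ _ hr]
      exact hc _ i.2 _ j.2 (fun h => hij (Fin.ext h))

/-- All bit strings of a given length. -/
def allBits : ℕ → List (List Bool)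
  | 0 => [[]]
  | k + 1 => (allBits k).flatMap fun τ => [true :: τ, false :: τ]

lemma mem_allBits {k : ℕ} {τ : List Bool} : τ ∈ allBits k ↔ τ.length = k := by
  induction k generalizing τ with
  | zero => simp [allBits]
  | succ k ih =>
    simp only [allBits, List.mem_flatMap, List.mem_cons, List.not_mem_nil, or_false]
    constructor
    · rintro ⟨σ, hσ, rfl | rfl⟩ <;> simp [ih.1 hσ]
    · intro h
      cases τ with
      | nil => simp at h
      | cons b σ => exact ⟨σ, ih.2 (by simpa using h), by cases b <;> simp⟩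

/-- Copies of points and lines. -/
abbrev Cp := Code × Bool × Bool

/-- Lifted points. -/
abbrev PP := Cp × List Bool

/-- Lifted hyperplanes. -/
abbrev LL := Cp × ℕ

/-- Vertices. -/
abbrev Vx := ℕ × PP × LL

/-- All pairs of signs. -/
def bb : List (Bool × Bool) := [(true, true), (true, false), (false, true), (false, false)]

lemma mem_bb (s : Bool × Bool) : s ∈ bb := by
  rcases s with ⟨_ | _, _ | _⟩ <;> simp [bb]

/-- Dummy copy. -/
def dcp : Cp := ((0, 0, 0, dq), true, true)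

/-- The lifted matrix. -/
def liftM (p : PP) (l : LL) : Bool := if l.2 = 0 then strictM p.1 l.1 else p.2.getD (l.2 - 1) false

/-- The lifted points. -/
def ppList (m : ℕ) (L : List Quad) : List PP :=
  (ptList L).flatMap fun p => bb.flatMap fun s => (allBits m).map fun τ => ((p, s), τ)

/-- The lifted hyperplanes. -/
def llList (m : ℕ) (L : List Quad) : List LL :=
  ((lnList L).flatMap fun l => bb.map fun s => ((l, s), 0)) ++
    (List.range m).map fun i => (dcp, i + 1)

lemma mem_ppList {m : ℕ} {L : List Quad} {p : PP} :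
    p ∈ ppList m L ↔ p.1.1 ∈ ptList L ∧ p.2.length = m := by
  simp only [ppList, List.mem_flatMap, List.mem_map, mem_allBits]
  constructor
  · rintro ⟨a, ha, s, -, τ, hτ, rfl⟩; exact ⟨ha, hτ⟩
  · rintro ⟨h1, h2⟩; exact ⟨p.1.1, h1, p.1.2, mem_bb _, p.2, h2, rfl⟩

lemma mem_llList {m : ℕ} {L : List Quad} {l : LL} :
    l ∈ llList m L ↔ (l.1.1 ∈ lnList L ∧ l.2 = 0) ∨ ∃ i < m, l = (dcp, i + 1) := by
  simp only [llList, List.mem_append, List.mem_flatMap, List.mem_map, List.mem_range]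
  refine or_congr ?_ ?_
  · constructor
    · rintro ⟨a, ha, s, -, rfl⟩; exact ⟨ha, rfl⟩
    · rintro ⟨h1, h2⟩; exact ⟨l.1.1, h1, l.1.2, mem_bb _, by rw [← h2]⟩
  · constructor
    · rintro ⟨i, hi, rfl⟩; exact ⟨i, hi, rfl⟩
    · rintro ⟨i, hi, rfl⟩; exact ⟨i, hi, rfl⟩

/-- The vertex list. -/
def vxList (m : ℕ) (L : List Quad) : List Vx :=
  (ppList m L).map (fun p => (0, p, (dcp, 0))) ++
    ((llList m L).map (fun l => (1, (dcp, []), l)) ++ (llList m L).map (fun l => (2, (dcp, []), l)))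

/-- Adjacency of vertices. -/
def adjV (v w : Vx) : Bool :=
  if v.1 = w.1 then true
  else if v.1 = 0 then (if w.1 = 1 then liftM v.2.1 w.2.2 else !liftM v.2.1 w.2.2)
  else if w.1 = 0 then (if v.1 = 1 then liftM w.2.1 v.2.2 else !liftM w.2.1 v.2.2)
  else false

/-- Dummy vertex. -/
def dvx : Vx := (0, (dcp, []), (dcp, 0))

/-- The adjacency matrix of a vertex list. -/
def bitsV (V : List Vx) : List Bool :=
  mat V.length V.length fun i j => decide (i ≠ j) && adjV (V.getD i dvx) (V.getD j dvx)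

lemma ubg_bitsV (d : ℕ) (V : List Vx) : UBG d (bitsV V) = true ↔ ∃ R : ℝ, 1 < R ∧
    ∃ c : ℕ → Hyp d, ∀ i < V.length, ∀ j < V.length, i ≠ j →
      (adjV (V.getD i dvx) (V.getD j dvx) = true ↔ hB (c i) (c j) ≤ R) := by
  rw [ubg_iff]
  constructor
  · rintro ⟨n, hn, -, R, hR, c, hc⟩
    have e : n = V.length := by
      rw [bitsV, length_mat] at hn
      exact (Nat.mul_self_inj.1 hn).symm
    subst e
    refine ⟨R, hR, c, fun i hi j hj hij => ?_⟩
    rw [← hc i hi j hj hij, bitsV, getD_mat _ _ _ hi hj]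
    simp [hij]
  · rintro ⟨R, hR, c, hc⟩
    refine ⟨V.length, length_mat _ _ _, fun i hi => ?_, R, hR, c, fun i hi j hj hij => ?_⟩
    · rw [bitsV, getD_mat _ _ _ hi hi]; simp
    · rw [← hc i hi j hj hij, bitsV, getD_mat _ _ _ hi hj]
      simp [hij]

lemma mem_vxList {m : ℕ} {L : List Quad} {v : Vx} : v ∈ vxList m L ↔
    (∃ p ∈ ppList m L, (0, p, (dcp, 0)) = v) ∨ (∃ l ∈ llList m L, (1, (dcp, []), l) = v) ∨
      ∃ l ∈ llList m L, (2, (dcp, []), l) = v := by
  simp only [vxList, List.mem_append, List.mem_map]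

theorem ubg_of_qnear (m : ℕ) {L : List Quad} (hG : ∀ q ∈ L, QGen q) (h : QNear L) :
    UBG (m + 2) (bitsV (vxList m L)) = true := by
  obtain ⟨y1, y2, α, ν, h1⟩ := affine_of_qnear hG h
  obtain ⟨K, hK⟩ : ∃ K : ℝ, ∀ p ∈ ppList m L, |y1 p.1| < K := by
    obtain ⟨K, hK⟩ := ((List.finite_toSet (ppList m L)).image fun p => |y1 p.1|).bddAbove
    exact ⟨K + 1, fun p hp => by linarith [hK ⟨p, hp, rfl⟩]⟩
  obtain ⟨c, a, b, h2, h3, h4⟩ := ballReal_of_affine (m + 1) (List.finite_toSet (ppList m L))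
    (List.finite_toSet (llList m L)) (M := liftM) (fun p => y1 p.1)
    (fun p i => if i = 0 then y2 p.1 else pm (p.2.getD (i - 1) false))
    (fun l => if l.2 = 0 then α l.1 else 0)
    (fun l i => if l.2 = 0 then (if i = 0 then ν l.1 else 0) else if i = l.2 then K else 0)
    (by
      intro p hp l hl
      rcases mem_llList.1 hl with ⟨h2, h3⟩ | ⟨i, hi, rfl⟩
      · simpa [liftM, h3, Finset.sum_range_succ'] using h1 p.1 (mem_ppList.1 hp).1 l.1 h2
      · have h2 := abs_lt.1 (hK p hp)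
        rw [Finset.sum_eq_single (i + 1)]
        · simp only [liftM, Nat.add_one_ne_zero, if_false, if_true, Nat.add_sub_cancel]
          cases p.2.getD i false <;> simp [pm] <;> linarith
        · intro j _ hj; simp [hj]
        · intro hj; simp at hj; omega)
  rw [ubg_bitsV]
  refine ⟨5 / 3, by norm_num, fun i =>
    (fun v : Vx => if v.1 = 0 then c v.2.1 else if v.1 = 1 then a v.2.2 else b v.2.2)
      ((vxList m L).getD i dvx), fun i hi j hj _ => ?_⟩
  have hv := getD_mem _ dvx hi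
  have hw := getD_mem _ dvx hj
  beta_reduce
  generalize (vxList m L).getD i dvx = v at hv ⊢
  generalize (vxList m L).getD j dvx = w at hw ⊢
  rcases mem_vxList.1 hv with ⟨p, hp, rfl⟩ | ⟨l, hl, rfl⟩ | ⟨l, hl, rfl⟩ <;>
    rcases mem_vxList.1 hw with ⟨p', hp', rfl⟩ | ⟨l', hl', rfl⟩ | ⟨l', hl', rfl⟩ <;>
    simp only [adjV, if_true, if_false, zero_ne_one, one_ne_zero, OfNat.zero_ne_ofNat,
      OfNat.ofNat_ne_zero, OfNat.ofNat_ne_one, OfNat.one_ne_ofNat, true_iff, Bool.false_eq_true,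
      false_iff, not_le]
  · exact h2 p hp p' hp'
  · exact (h4 p hp l' hl').1.symm
  · exact (h4 p hp l' hl').2.symm
  · rw [hB_comm]; exact (h4 p' hp' l hl).1.symm
  · exact (h3 l hl l' hl').1
  · exact (h3 l hl l' hl').2.2
  · rw [hB_comm]; exact (h4 p' hp' l hl).2.symm
  · rw [hB_comm]; exact (h3 l' hl' l hl).2.2
  · exact (h3 l hl l' hl').2.1

theorem qsato_of_ubg (m : ℕ) {L : List Quad} (h : UBG (m + 2) (bitsV (vxList m L)) = true) :
    QSatO L := by
  rw [ubg_bitsV] at h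
  obtain ⟨R, -, c, hc⟩ := h
  have hidx : ∀ v : Vx, ∃ i, v ∈ vxList m L →
      i < (vxList m L).length ∧ (vxList m L).getD i dvx = v := by
    intro v
    by_cases hv : v ∈ vxList m L
    · obtain ⟨i, hi⟩ := exists_getD _ dvx hv
      exact ⟨i, fun _ => hi⟩
    · exact ⟨0, fun h => absurd h hv⟩
  choose ι hι using hidx
  have key : ∀ v ∈ vxList m L, ∀ w ∈ vxList m L, v ≠ w →
      (adjV v w = true ↔ hB (c (ι v)) (c (ι w)) ≤ R) := by
    intro v hv w hw hvw
    have h1 := hc _ (hι v hv).1 _ (hι w hw).1 (fun h => hvw (by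
      rw [← (hι v hv).2, ← (hι w hw).2, h]))
    rwa [(hι v hv).2, (hι w hw).2] at h1
  have key2 : ∀ p ∈ ppList m L, ∀ l ∈ llList m L, sgn (liftM p l)
      (bis (c (ι (1, (dcp, []), l))) (c (ι (2, (dcp, []), l))) (c (ι (0, p, (dcp, 0)))).1) := by
    intro p hp l hl
    have hv : ((0, p, (dcp, 0)) : Vx) ∈ vxList m L := mem_vxList.2 (Or.inl ⟨p, hp, rfl⟩)
    have h1 := key _ hv (1, (dcp, []), l) (mem_vxList.2 (Or.inr (Or.inl ⟨l, hl, rfl⟩))) (by simp)
    have h2 := key _ hv (2, (dcp, []), l) (mem_vxList.2 (Or.inr (Or.inr ⟨l, hl, rfl⟩))) (by simp)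
    refine sgn_bis (R := R) ?_ ?_
    · rw [← h1]; simp [adjV]
    · rw [← h2]; simp [adjV]
  obtain ⟨U, V, hUV⟩ := dim_reduce (SP := {p : Cp | p.1 ∈ ptList L}) (SL := {l : Cp | l.1 ∈ lnList L})
    strictM ⟨dcp, mem_ptList.2 (Or.inl rfl)⟩ m (ℝ × (Fin (m + 2) → ℝ)) (by simp; omega)
    (fun p τ => (c (ι (0, (p, τ), (dcp, 0)))).1)
    (fun l => bis (c (ι (1, (dcp, []), (l, 0)))) (c (ι (2, (dcp, []), (l, 0)))))
    (fun i => bis (c (ι (1, (dcp, []), (dcp, i + 1)))) (c (ι (2, (dcp, []), (dcp, i + 1)))))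
    (fun p hp τ hτ => ⟨fun l hl => by
      simpa [liftM] using key2 (p, τ) (mem_ppList.2 ⟨hp, hτ⟩) (l, 0) (mem_llList.2 (Or.inl ⟨hl, rfl⟩)),
      fun i hi => by
      simpa [liftM] using key2 (p, τ) (mem_ppList.2 ⟨hp, hτ⟩) (dcp, i + 1)
        (mem_llList.2 (Or.inr ⟨i, hi, rfl⟩))⟩)
  exact qsato_of_strict U V fun p hp l hl => hUV p hp l hl

/-- The whole reduction from basic quadratic systems. -/
def qsysToBits (m : ℕ) (L : List QC) (s : ℕ) : List Bool :=
  bitsV (vxList m (toQuad (toNear (toStrict L s))))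

theorem qsat_iff_ubg (m : ℕ) {L : List QC} {s : ℕ} (hb : QBound L s) :
    QSat L ↔ UBG (m + 2) (qsysToBits m L s) = true :=
  ⟨fun h => ubg_of_qnear m (qgen_toQuad _)
      (qnear_of_nnear (toNear_of_ssat (toStrict_of_qsat hb h))),
    fun h => qsat_of_toStrict hb (ssat_of_toNear (nsat_of_qsato (qsato_of_ubg m h)))⟩

end Pool.Agent.MP_485bb6_lc

end
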