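import Mathlib
import Pool.Agent.MP_485bb6_lc.Defs
import Pool.Agent.Mg.F2e8011.G6b1046

/-! Reading a formula in postfix order. -/

namespace Pool.Agent.MP_485bb6_lc

/-- One step of the tokenizer. -/
def tstep (s : Bool × List Bool × List (List Bool)) (b : Bool) : Bool × List Bool × List (List Bool) :=
  if s.1 = true then (false, s.2.1 ++ [b], s.2.2)
  else if b = true then (true, s.2.1, s.2.2) else (false, [], s.2.2 ++ [s.2.1])

/-- The tokenizer. -/
def parseTok (x : List Bool) : List (List Bool) := (x.foldl tstep (false, [], [])).2.2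

/-- Writing tokens. -/
def unparse (toks : List (List Bool)) : List Bool :=
  toks.flatMap fun t => t.flatMap (fun b => [true, b]) ++ [false]

lemma delimit_eq (t : List Bool) : N487b59b3.delimit t = t.flatMap (fun b => [true, b]) ++ [false] := by
  induction t with
  | nil => rfl
  | cons b t ih => simp [N487b59b3.delimit, ih]

lemma unparse_eq (toks : List (List Bool)) : unparse toks = (toks.map N487b59b3.delimit).flatten := by
  unfold unparse
  rw [← List.flatMap_def]
  exact List.flatMap_congr fun t _ => (delimit_eq t).symm

lemma fold_delimit (t cur rest : List Bool) (acc : List (List Bool)) :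
    (N487b59b3.delimit t ++ rest).foldl tstep (false, cur, acc)
      = rest.foldl tstep (false, [], acc ++ [cur ++ t]) := by
  induction t generalizing cur with
  | nil => simp [N487b59b3.delimit, tstep]
  | cons b t ih =>
    simp only [N487b59b3.delimit, List.cons_append, List.foldl_cons]
    have : tstep (tstep (false, cur, acc) true) b = (false, cur ++ [b], acc) := by simp [tstep]
    rw [this, ih]
    simp

lemma parse_unparse (toks : List (List Bool)) : parseTok (unparse toks) = toks := by
  have key : ∀ (toks acc : List (List Bool)),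
      ((toks.map N487b59b3.delimit).flatten).foldl tstep (false, [], acc) = (false, [], acc ++ toks) := by
    intro toks
    induction toks with
    | nil => simp
    | cons t toks ih =>
      intro acc
      simp only [List.map_cons, List.flatten_cons]
      rw [fold_delimit, ih]
      simp
  rw [parseTok, unparse_eq, key]
  simp

/-- Parsed pieces. -/
abbrev Node := PTerm ⊕ Formula

/-- Tokens of a piece. -/
def ntoks : Node → List (List Bool)
  | .inl t => t.tokens
  | .inr p => p.tokens

/-- The kind of a token. -/
def kind (t : List Bool) : ℕ :=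
  if t.headD false = true then 10
  else if t = opTok (t.length - 1) ∧ t.length ≤ 10 then t.length - 1 else 11

lemma kind_var (name : List Bool) : kind (true :: name) = 10 := by simp [kind]

lemma kind_op {k : ℕ} (hk : k ≤ 9) : kind (opTok k) = k := by
  simp [kind, opTok]; omega

lemma kind_le (t : List Bool) : kind t ≤ 11 := by
  unfold kind; split_ifs <;> omega

lemma eq_of_kind_ten {t : List Bool} (h : kind t = 10) : t = true :: t.tail := by
  unfold kind at h
  split_ifs at h with h1 h2
  · cases t with
    | nil => simp at h1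
    | cons b t => simp at h1; simp [h1]
  · omega
  · omega

lemma eq_of_kind_le {t : List Bool} (h : kind t ≤ 9) : t = opTok (kind t) := by
  unfold kind at h ⊢
  split_ifs at h ⊢ with h1 h2
  · omega
  · exact h2.1
  · omega

/-- Applying a symbol to the stack. -/
def build : ℕ → List Bool → List Node → Option (Node × List Node)
  | 0, _, st => some (.inl .zero, st)
  | 1, _, st => some (.inl .one, st)
  | 2, _, .inl s :: st => some (.inl (.neg s), st)
  | 3, _, .inl t :: .inl s :: st => some (.inl (.add s t), st)
  | 4, _, .inl t :: .inl s :: st => some (.inl (.mul s t), st)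
  | 5, _, .inl t :: .inl s :: st => some (.inr (.eq s t), st)
  | 6, _, .inl t :: .inl s :: st => some (.inr (.lt s t), st)
  | 7, _, .inr p :: st => some (.inr (.not p), st)
  | 8, _, .inr q :: .inr p :: st => some (.inr (.and p q), st)
  | 9, _, .inr q :: .inr p :: st => some (.inr (.or p q), st)
  | 10, name, st => some (.inl (.var name), st)
  | _, _, _ => none

lemma build_cases {κ : ℕ} {name : List Bool} {st st' : List Node} {ν : Node}
    (h : build κ name st = some (ν, st')) :
    (κ = 0 ∧ ν = .inl .zero ∧ st = st') ∨ (κ = 1 ∧ ν = .inl .one ∧ st = st') ∨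
    (∃ s, κ = 2 ∧ ν = .inl (.neg s) ∧ st = .inl s :: st') ∨
    (∃ s t, κ = 3 ∧ ν = .inl (.add s t) ∧ st = .inl t :: .inl s :: st') ∨
    (∃ s t, κ = 4 ∧ ν = .inl (.mul s t) ∧ st = .inl t :: .inl s :: st') ∨
    (∃ s t, κ = 5 ∧ ν = .inr (.eq s t) ∧ st = .inl t :: .inl s :: st') ∨
    (∃ s t, κ = 6 ∧ ν = .inr (.lt s t) ∧ st = .inl t :: .inl s :: st') ∨
    (∃ p, κ = 7 ∧ ν = .inr (.not p) ∧ st = .inr p :: st') ∨
    (∃ p q, κ = 8 ∧ ν = .inr (.and p q) ∧ st = .inr q :: .inr p :: st') ∨
    (∃ p q, κ = 9 ∧ ν = .inr (.or p q) ∧ st = .inr q :: .inr p :: st') ∨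
    (κ = 10 ∧ ν = .inl (.var name) ∧ st = st') := by
  unfold build at h
  split at h <;> simp only [Option.some.injEq, Prod.mk.injEq, reduceCtorEq] at h <;>
    obtain ⟨rfl, rfl⟩ := h <;> simp

/-- One step of the abstract parser. -/
def astep (o : Option (List Node)) (t : List Bool) : Option (List Node) :=
  o.bind fun st => (build (kind t) t.tail st).map fun p => p.1 :: p.2

lemma run_term (s : PTerm) (st : List Node) :
    s.tokens.foldl astep (some st) = some (.inl s :: st) := by
  induction s generalizing st with
  | var name => simp [PTerm.tokens, astep, kind_var, build]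
  | zero => simp [PTerm.tokens, astep, kind_op, build]
  | one => simp [PTerm.tokens, astep, kind_op, build]
  | neg s ih => simp [PTerm.tokens, ih, astep, kind_op, build]
  | add s t ih1 ih2 => simp [PTerm.tokens, ih1, ih2, astep, kind_op, build]
  | mul s t ih1 ih2 => simp [PTerm.tokens, ih1, ih2, astep, kind_op, build]

lemma run_formula (p : Formula) (st : List Node) :
    p.tokens.foldl astep (some st) = some (.inr p :: st) := by
  induction p generalizing st with
  | eq s t => simp [Formula.tokens, run_term, astep, kind_op, build]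
  | lt s t => simp [Formula.tokens, run_term, astep, kind_op, build]
  | not p ih => simp [Formula.tokens, ih, astep, kind_op, build]
  | and p q ih1 ih2 => simp [Formula.tokens, ih1, ih2, astep, kind_op, build]
  | or p q ih1 ih2 => simp [Formula.tokens, ih1, ih2, astep, kind_op, build]

/-- The abstract stack after k tokens. -/
def Ast (toks : List (List Bool)) : ℕ → Option (List Node)
  | 0 => some []
  | k + 1 => astep (Ast toks k) (toks.getD k [])

lemma take_succ_getD {α : Type} (l : List α) (d : α) {k : ℕ} (hk : k < l.length) :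
    l.take (k + 1) = l.take k ++ [l.getD k d] := by
  rw [List.take_add_one, List.getD_eq_getElem _ _ hk, List.getElem?_eq_getElem hk]
  rfl

lemma Ast_eq (toks : List (List Bool)) {k : ℕ} (hk : k ≤ toks.length) :
    Ast toks k = (toks.take k).foldl astep (some []) := by
  induction k with
  | zero => rfl
  | succ k ih => rw [Ast, ih (by omega), take_succ_getD toks [] (by omega), List.foldl_append]; rfl

lemma Ast_succ {toks : List (List Bool)} {k : ℕ} {st1 : List Node} (h : Ast toks (k + 1) = some st1) :
    ∃ st ν st', Ast toks k = some st ∧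
      build (kind (toks.getD k [])) (toks.getD k []).tail st = some (ν, st') ∧ st1 = ν :: st' := by
  simp only [Ast, astep, Option.bind_eq_some_iff, Option.map_eq_some_iff] at h
  obtain ⟨st, h1, ⟨ν, st'⟩, h2, h3⟩ := h
  exact ⟨st, ν, st', h1, h2, h3.symm⟩

lemma Ast_some_of_le {toks : List (List Bool)} {k n : ℕ} (hk : k ≤ n) {st1 : List Node}
    (h : Ast toks n = some st1) : ∃ st, Ast toks k = some st := by
  induction n generalizing st1 with
  | zero => obtain rfl : k = 0 := by omega
            exact ⟨_, h⟩
  | succ n ih =>
    rcases hk.eq_or_lt with rfl | hk'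
    · exact ⟨_, h⟩
    · obtain ⟨st, -, -, h1, -⟩ := Ast_succ h
      exact ih (by omega) h1

lemma Ast_tokens (toks : List (List Bool)) {k : ℕ} (hk : k ≤ toks.length) {st : List Node}
    (h : Ast toks k = some st) : toks.take k = st.reverse.flatMap ntoks := by
  induction k generalizing st with
  | zero => simp only [Ast, Option.some.injEq] at h; subst h; rfl
  | succ k ih =>
    obtain ⟨st0, ν, st', h1, h2, rfl⟩ := Ast_succ h
    rw [take_succ_getD toks [] (by omega), ih (by omega) h1]
    have h9 := @eq_of_kind_le (toks.getD k [])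
    have h10 := @eq_of_kind_ten (toks.getD k [])
    generalize toks.getD k [] = t at h2 h9 h10 ⊢
    rcases build_cases h2 with ⟨h3, rfl, rfl⟩ | ⟨h3, rfl, rfl⟩ | ⟨s, h3, rfl, rfl⟩ |
      ⟨s, t, h3, rfl, rfl⟩ | ⟨s, t, h3, rfl, rfl⟩ | ⟨s, t, h3, rfl, rfl⟩ | ⟨s, t, h3, rfl, rfl⟩ |
      ⟨s, h3, rfl, rfl⟩ | ⟨s, t, h3, rfl, rfl⟩ | ⟨s, t, h3, rfl, rfl⟩ | ⟨h3, rfl, rfl⟩
    all_goals first
      | (rw [h9 (by omega), h3]; simp [ntoks, PTerm.tokens, Formula.tokens])
      | (simp only [List.reverse_cons, List.flatMap_append, List.flatMap_cons, List.flatMap_nil,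
          ntoks, PTerm.tokens, List.append_nil]; rw [← h10 h3])

lemma Ast_full_iff (toks : List (List Bool)) (p : Formula) :
    Ast toks toks.length = some [.inr p] ↔ p.tokens = toks := by
  constructor
  · intro h
    have := Ast_tokens toks le_rfl h
    simpa [ntoks] using this.symm
  · rintro rfl
    rw [Ast_eq _ le_rfl, List.take_length]
    exact run_formula p []

/-- Number of arguments. -/
def arity (κ : ℕ) : ℕ := if κ ≤ 1 ∨ κ = 10 then 0 else if κ = 2 ∨ κ = 7 then 1 else 2

/-- The first position of a token. -/
def firstPos (toks : List (List Bool)) (t : List Bool) : ℕ :=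
  ((List.range toks.length).filter fun i => decide (toks.getD i [] = t)).headD 0

lemma firstPos_spec (toks : List (List Bool)) {k : ℕ} (hk : k < toks.length) :
    firstPos toks (toks.getD k []) < toks.length ∧
      toks.getD (firstPos toks (toks.getD k [])) [] = toks.getD k [] := by
  have h1 : k ∈ (List.range toks.length).filter fun i => decide (toks.getD i [] = toks.getD k []) := by
    simp [hk]
  have h2 : firstPos toks (toks.getD k []) ∈
      (List.range toks.length).filter fun i => decide (toks.getD i [] = toks.getD k []) := by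
    unfold firstPos
    generalize (List.range toks.length).filter
      (fun i => decide (toks.getD i [] = toks.getD k [])) = l at h1 ⊢
    cases l with
    | nil => simp at h1
    | cons a l => simp
  simpa only [List.mem_filter, List.mem_range, decide_eq_true_eq] using h2

/-- The variable that holds the value produced at position k. -/
def newIdx (toks : List (List Bool)) (k : ℕ) : ℕ :=
  if kind (toks.getD k []) = 10 then 8 * firstPos toks (toks.getD k []) else 8 * k

/-- The type check. -/
def okStep (κ : ℕ) (cs : List (Bool × ℕ)) : Bool :=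
  decide (κ ≤ 10) && decide (arity κ ≤ cs.length) &&
    (List.range (arity κ)).all fun i => decide ((cs.getD i (false, 0)).1 = decide (7 ≤ κ))

/-- One step of the concrete parser. -/
def cstep (toks : List (List Bool)) (s : Bool × List (Bool × ℕ)) (k : ℕ) : Bool × List (Bool × ℕ) :=
  (s.1 && okStep (kind (toks.getD k [])) s.2,
    (decide (5 ≤ kind (toks.getD k []) ∧ kind (toks.getD k []) ≤ 9), newIdx toks k) ::
      s.2.drop (arity (kind (toks.getD k []))))

/-- The concrete state after k tokens. -/
def Cst (toks : List (List Bool)) (k : ℕ) : Bool × List (Bool × ℕ) :=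
  (List.range k).foldl (cstep toks) (true, [])

lemma Cst_succ (toks : List (List Bool)) (k : ℕ) : Cst toks (k + 1) = cstep toks (Cst toks k) k := by
  simp [Cst, List.range_succ]

/-- Agreement of a concrete and an abstract stack entry. -/
def Mt (P : ℕ → Node → Prop) (e : Bool × ℕ) (ν : Node) : Prop := e.1 = ν.isRight ∧ P e.2 ν

lemma okStep_eq {P : ℕ → Node → Prop} {cs : List (Bool × ℕ)} {st : List Node}
    (h : List.Forall₂ (Mt P) cs st) {κ : ℕ} (hκ : κ ≤ 11) (name : List Bool) :
    okStep κ cs = (build κ name st).isSome := by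
  rcases h with _ | ⟨⟨h1, -⟩, _ | ⟨⟨h2, -⟩, -⟩⟩
  · interval_cases κ <;> simp [okStep, arity, build]
  · rename_i e ν
    rcases ν with s | s <;> interval_cases κ <;>
      simp_all [okStep, arity, build, List.range_succ]
  · rename_i e ν e' ν' _ _
    rcases ν with s | s <;> rcases ν' with t | t <;> interval_cases κ <;>
      simp_all [okStep, arity, build, List.range_succ]

theorem parse_inv (toks : List (List Bool)) (P : ℕ → Node → Prop) (n : ℕ)
    (hP : ∀ k < n, ∀ st ν st', Ast toks k = some st → List.Forall₂ (Mt P) (Cst toks k).2 st →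
      build (kind (toks.getD k [])) (toks.getD k []).tail st = some (ν, st') →
      P (newIdx toks k) ν) :
    ∀ k ≤ n, (Cst toks k).1 = (Ast toks k).isSome ∧
      ∀ st, Ast toks k = some st → List.Forall₂ (Mt P) (Cst toks k).2 st := by
  intro k
  induction k with
  | zero =>
    intro _
    refine ⟨rfl, fun st h => ?_⟩
    simp only [Ast, Option.some.injEq] at h
    subst h
    exact List.Forall₂.nil
  | succ k ih =>
    intro hk
    obtain ⟨ih1, ih2⟩ := ih (by omega)
    rw [Cst_succ]
    constructor
    · simp only [cstep, ih1, Ast, astep]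
      cases h : Ast toks k with
      | none => simp
      | some st =>
        rw [okStep_eq (ih2 st h) (kind_le _) (toks.getD k []).tail]
        simp
    · intro st1 h
      obtain ⟨st, ν, st', h1, h2, rfl⟩ := Ast_succ h
      have h3 := ih2 st h1
      have h4 := hP k (by omega) st ν st' h1 h3 h2
      simp only [cstep]
      generalize (Cst toks k).2 = cs at h3 ⊢
      generalize kind (toks.getD k []) = κ at h2 ⊢
      rcases build_cases h2 with ⟨rfl, rfl, rfl⟩ | ⟨rfl, rfl, rfl⟩ | ⟨s, rfl, rfl, rfl⟩ |
        ⟨s, t, rfl, rfl, rfl⟩ | ⟨s, t, rfl, rfl, rfl⟩ | ⟨s, t, rfl, rfl, rfl⟩ |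
        ⟨s, t, rfl, rfl, rfl⟩ | ⟨s, rfl, rfl, rfl⟩ | ⟨s, t, rfl, rfl, rfl⟩ |
        ⟨s, t, rfl, rfl, rfl⟩ | ⟨rfl, rfl, rfl⟩
      all_goals
        refine List.Forall₂.cons ⟨rfl, h4⟩ ?_
        first
          | exact h3
          | exact List.forall₂_drop 1 h3
          | exact List.forall₂_drop 2 h3

end Pool.Agent.MP_485bb6_lc
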