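import Mathlib
import Pool.Agent.Mg.F2e8011.Ge3caf7
import Pool.Agent.Mg.F2e8011.Ga10a02

/-! From formulas to basic quadratic systems. -/

namespace Pool.Agent.MP_485bb6_lc

open Classical in
/-- Value of a term, or truth value of a formula. -/
noncomputable def value (ρ : List Bool → ℝ) : Node → ℝ
  | .inl t => t.eval ρ
  | .inr p => if p.Holds ρ then 1 else 0

/-- The constraints written for one token. -/
def emit (κ k a b : ℕ) : List QC :=
  if κ = 0 then [(1, 8 * k, 8 * k, 8 * k)]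
  else if κ = 1 then [(0, 0, 0, 8 * k)]
  else if κ = 2 then [(1, 8 * k + 1, 8 * k + 1, 8 * k + 1), (1, b, 8 * k, 8 * k + 1)]
  else if κ = 3 then [(1, a, b, 8 * k)]
  else if κ = 4 then [(2, a, b, 8 * k)]
  else if κ = 5 then [(1, b, 8 * k + 1, a), (1, 8 * k + 2, 8 * k + 2, 8 * k + 2),
    (2, 8 * k + 1, 8 * k, 8 * k + 2), (2, 8 * k + 1, 8 * k + 3, 8 * k + 4), (0, 0, 0, 8 * k + 5),
    (1, 8 * k + 4, 8 * k, 8 * k + 5)]
  else if κ = 6 then [(1, a, 8 * k + 1, b), (2, 8 * k, 8 * k, 8 * k),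
    (2, 8 * k + 2, 8 * k + 2, 8 * k + 3), (2, 8 * k + 1, 8 * k + 3, 8 * k + 4),
    (2, 8 * k, 8 * k + 4, 8 * k), (1, 8 * k + 1, 8 * k + 3, 8 * k + 5),
    (2, 8 * k, 8 * k + 5, 8 * k + 5)]
  else if κ = 7 then [(0, 0, 0, 8 * k + 1), (1, b, 8 * k, 8 * k + 1)]
  else if κ = 8 then [(2, a, b, 8 * k)]
  else if κ = 9 then [(1, a, b, 8 * k + 1), (2, a, b, 8 * k + 2), (1, 8 * k + 2, 8 * k, 8 * k + 1)]
  else []

lemma res0 (i j k : ℕ) (x : ℕ → ℝ) : res (0, i, j, k) x = x k - 1 := by simp [res]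
lemma res1 (i j k : ℕ) (x : ℕ → ℝ) : res (1, i, j, k) x = x i + x j - x k := by simp [res]
lemma res2 (i j k : ℕ) (x : ℕ → ℝ) : res (2, i, j, k) x = x i * x j - x k := by simp [res]

/-- The square root used for a strict inequality. -/
noncomputable def rt (u : ℝ) : ℝ := if 0 < u then (√u)⁻¹ else √(-u)

lemma rt_pos {u : ℝ} (h : 0 < u) : u * (rt u * rt u) = 1 := by
  simp only [rt, h, if_true]
  rw [← mul_inv, Real.mul_self_sqrt h.le, mul_inv_cancel₀ h.ne']

lemma rt_neg {u : ℝ} (h : ¬ 0 < u) : u + rt u * rt u = 0 := by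
  simp only [rt, h, if_false]
  rw [Real.mul_self_sqrt (by linarith)]; ring

/-- Auxiliary values. -/
noncomputable def auxE (κ : ℕ) (va vb : ℝ) (r : ℕ) : ℝ :=
  if κ = 5 then
    (if r = 1 then va - vb else if r = 2 then 0 else if r = 3 then (va - vb)⁻¹
      else if r = 4 then (va - vb) * (va - vb)⁻¹ else 1)
  else if κ = 6 then
    (if r = 1 then vb - va else if r = 2 then rt (vb - va) else if r = 3 then rt (vb - va) * rt (vb - va)
      else if r = 4 then (vb - va) * (rt (vb - va) * rt (vb - va))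
      else (vb - va) + rt (vb - va) * rt (vb - va))
  else if κ = 7 then 1
  else if κ = 9 then (if r = 1 then va + vb else va * vb)
  else 0

lemma emit_back {ρ : List Bool → ℝ} {val : ℕ → ℝ} {cs : List (Bool × ℕ)} {st st' : List Node}
    {ν : Node} {κ k : ℕ} {name : List Bool}
    (hm : List.Forall₂ (Mt fun i ν => val i = value ρ ν) cs st)
    (hb : build κ name st = some (ν, st')) (hκ : κ ≠ 10)
    (h : ∀ q ∈ emit κ k (cs.getD 1 (false, 0)).2 (cs.getD 0 (false, 0)).2, res q val = 0) :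
    val (8 * k) = value ρ ν := by
  rcases build_cases hb with ⟨rfl, rfl, rfl⟩ | ⟨rfl, rfl, rfl⟩ | ⟨s, rfl, rfl, rfl⟩ |
    ⟨s, t, rfl, rfl, rfl⟩ | ⟨s, t, rfl, rfl, rfl⟩ | ⟨s, t, rfl, rfl, rfl⟩ |
    ⟨s, t, rfl, rfl, rfl⟩ | ⟨s, rfl, rfl, rfl⟩ | ⟨s, t, rfl, rfl, rfl⟩ |
    ⟨s, t, rfl, rfl, rfl⟩ | ⟨rfl, rfl, rfl⟩
  all_goals
    simp only [emit, Nat.reduceEqDiff, if_true, if_false, one_ne_zero, OfNat.ofNat_ne_zero,
      OfNat.ofNat_ne_one, List.forall_mem_cons, List.not_mem_nil, false_imp_iff, implies_true,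
      and_true, res0, res1, res2] at h
  · simp only [value, PTerm.eval]; linarith
  · simp only [value, PTerm.eval]; linarith
  · rcases hm with _ | ⟨⟨-, h1⟩, -⟩
    simp only [value, PTerm.eval, List.getD_cons_zero] at h h1 ⊢
    linarith [h.1, h.2]
  · rcases hm with _ | ⟨⟨-, h1⟩, _ | ⟨⟨-, h2⟩, -⟩⟩
    simp only [value, PTerm.eval, List.getD_cons_zero, List.getD_cons_succ] at h h1 h2 ⊢
    linarith
  · rcases hm with _ | ⟨⟨-, h1⟩, _ | ⟨⟨-, h2⟩, -⟩⟩
    simp only [value, PTerm.eval, List.getD_cons_zero, List.getD_cons_succ] at h h1 h2 ⊢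
    rw [← h1, ← h2]; linarith
  · rcases hm with _ | ⟨⟨-, h1⟩, _ | ⟨⟨-, h2⟩, -⟩⟩
    simp only [value, Formula.Holds, List.getD_cons_zero, List.getD_cons_succ] at h h1 h2 ⊢
    obtain ⟨e1, e2, e3, e4, e5, e6⟩ := h
    rw [h1, h2] at e1
    split_ifs with hc
    · have : val (8 * k + 1) = 0 := by linarith
      rw [this] at e4
      linarith
    · have h3 : val (8 * k + 1) ≠ 0 := fun h0 => hc (by linarith)
      have h4 : val (8 * k + 1) * val (8 * k) = 0 := by linarith
      exact (mul_eq_zero.1 h4).resolve_left h3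
  · rcases hm with _ | ⟨⟨-, h1⟩, _ | ⟨⟨-, h2⟩, -⟩⟩
    simp only [value, Formula.Holds, List.getD_cons_zero, List.getD_cons_succ] at h h1 h2 ⊢
    obtain ⟨e1, e2, e3, e4, e5, e6, e7⟩ := h
    rw [h1, h2] at e1
    have h3 : val (8 * k) * (val (8 * k) - 1) = 0 := by linarith
    have h4 := mul_self_nonneg (val (8 * k + 2))
    split_ifs with hc
    · rcases mul_eq_zero.1 h3 with h5 | h5
      · rw [h5] at e7
        linarith
      · linarith
    · rcases mul_eq_zero.1 h3 with h5 | h5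
      · exact h5
      · have h6 : val (8 * k) = 1 := by linarith
        rw [h6] at e5
        have h7 : val (8 * k + 1) ≤ 0 := by linarith
        have h8 : 0 ≤ val (8 * k + 3) := by linarith
        nlinarith
  · rcases hm with _ | ⟨⟨-, h1⟩, -⟩
    simp only [value, Formula.Holds, List.getD_cons_zero] at h h1 ⊢
    by_cases hs : s.Holds ρ <;> simp only [hs, if_true, if_false, not_true, not_false_iff] at h1 ⊢ <;>
      linarith [h.1, h.2]
  · rcases hm with _ | ⟨⟨-, h1⟩, _ | ⟨⟨-, h2⟩, -⟩⟩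
    simp only [value, Formula.Holds, List.getD_cons_zero, List.getD_cons_succ] at h h1 h2 ⊢
    rw [h1, h2] at h
    by_cases hs : s.Holds ρ <;> by_cases ht : t.Holds ρ <;> simp [hs, ht] at h ⊢ <;> linarith
  · rcases hm with _ | ⟨⟨-, h1⟩, _ | ⟨⟨-, h2⟩, -⟩⟩
    simp only [value, Formula.Holds, List.getD_cons_zero, List.getD_cons_succ] at h h1 h2 ⊢
    rw [h1, h2] at h
    obtain ⟨e1, e2, e3⟩ := h
    by_cases hs : s.Holds ρ <;> by_cases ht : t.Holds ρ <;> simp [hs, ht] at e1 e2 ⊢ <;> linarith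
  · exact absurd rfl hκ

lemma emit_fwd {ρ : List Bool → ℝ} {val : ℕ → ℝ} {cs : List (Bool × ℕ)} {st st' : List Node}
    {ν : Node} {κ k : ℕ} {name : List Bool}
    (hm : List.Forall₂ (Mt fun i ν => val i = value ρ ν) cs st)
    (hb : build κ name st = some (ν, st')) (hz : κ ≠ 10 → val (8 * k) = value ρ ν)
    (ha : ∀ r, 0 < r → r < 8 → val (8 * k + r) =
      auxE κ (value ρ (st.getD 1 (.inl .zero))) (value ρ (st.getD 0 (.inl .zero))) r) :
    ∀ q ∈ emit κ k (cs.getD 1 (false, 0)).2 (cs.getD 0 (false, 0)).2, res q val = 0 := by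
  have a1 := ha 1 (by norm_num) (by norm_num)
  have a2 := ha 2 (by norm_num) (by norm_num)
  have a3 := ha 3 (by norm_num) (by norm_num)
  have a4 := ha 4 (by norm_num) (by norm_num)
  have a5 := ha 5 (by norm_num) (by norm_num)
  clear ha
  rcases build_cases hb with ⟨rfl, rfl, rfl⟩ | ⟨rfl, rfl, rfl⟩ | ⟨s, rfl, rfl, rfl⟩ |
    ⟨s, t, rfl, rfl, rfl⟩ | ⟨s, t, rfl, rfl, rfl⟩ | ⟨s, t, rfl, rfl, rfl⟩ |
    ⟨s, t, rfl, rfl, rfl⟩ | ⟨s, rfl, rfl, rfl⟩ | ⟨s, t, rfl, rfl, rfl⟩ |
    ⟨s, t, rfl, rfl, rfl⟩ | ⟨rfl, rfl, rfl⟩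
  all_goals
    simp only [emit, auxE, Nat.reduceEqDiff, if_true, if_false, one_ne_zero, OfNat.ofNat_ne_zero,
      OfNat.ofNat_ne_one, List.forall_mem_cons, List.not_mem_nil, false_imp_iff, implies_true,
      and_true, res0, res1, res2, ne_eq, not_false_eq_true, true_imp_iff, OfNat.zero_ne_ofNat,
      OfNat.one_ne_ofNat, List.getD_cons_zero, List.getD_cons_succ] at hz a1 a2 a3 a4 a5 ⊢
  · simp [hz, value, PTerm.eval]
  · simp [hz, value, PTerm.eval]
  · rcases hm with _ | ⟨⟨-, h1⟩, -⟩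
    simp only [value, PTerm.eval, List.getD_cons_zero] at hz h1 ⊢
    simp [hz, h1, a1]
  · rcases hm with _ | ⟨⟨-, h1⟩, _ | ⟨⟨-, h2⟩, -⟩⟩
    simp only [value, PTerm.eval, List.getD_cons_zero, List.getD_cons_succ] at hz h1 h2 ⊢
    simp [hz, h1, h2]
  · rcases hm with _ | ⟨⟨-, h1⟩, _ | ⟨⟨-, h2⟩, -⟩⟩
    simp only [value, PTerm.eval, List.getD_cons_zero, List.getD_cons_succ] at hz h1 h2 ⊢
    simp [hz, h1, h2]
  · rcases hm with _ | ⟨⟨-, h1⟩, _ | ⟨⟨-, h2⟩, -⟩⟩
    simp only [value, Formula.Holds, List.getD_cons_zero, List.getD_cons_succ]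
      at hz h1 h2 a1 a2 a3 a4 a5 ⊢
    rw [hz, h1, h2, a1, a2, a3, a4, a5]
    by_cases hc : s.eval ρ = t.eval ρ
    · simp [hc]
    · simp [hc, mul_inv_cancel₀ (sub_ne_zero.2 hc)]
  · rcases hm with _ | ⟨⟨-, h1⟩, _ | ⟨⟨-, h2⟩, -⟩⟩
    simp only [value, Formula.Holds, List.getD_cons_zero, List.getD_cons_succ]
      at hz h1 h2 a1 a2 a3 a4 a5 ⊢
    rw [hz, h1, h2, a1, a2, a3, a4, a5]
    by_cases hc : s.eval ρ < t.eval ρ
    · simp [hc, rt_pos (sub_pos.2 hc)]
    · simp [hc, rt_neg (fun h => hc (sub_pos.1 h))]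
  · rcases hm with _ | ⟨⟨-, h1⟩, -⟩
    simp only [value, Formula.Holds, List.getD_cons_zero] at hz h1 ⊢
    rw [hz, h1, a1]
    by_cases hs : s.Holds ρ <;> simp [hs]
  · rcases hm with _ | ⟨⟨-, h1⟩, _ | ⟨⟨-, h2⟩, -⟩⟩
    simp only [value, Formula.Holds, List.getD_cons_zero, List.getD_cons_succ] at hz h1 h2 ⊢
    rw [hz, h1, h2]
    by_cases hs : s.Holds ρ <;> by_cases ht : t.Holds ρ <;> simp [hs, ht]
  · rcases hm with _ | ⟨⟨-, h1⟩, _ | ⟨⟨-, h2⟩, -⟩⟩
    simp only [value, Formula.Holds, List.getD_cons_zero, List.getD_cons_succ]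
      at hz h1 h2 a1 a2 ⊢
    rw [hz, h1, h2, a1, a2]
    by_cases hs : s.Holds ρ <;> by_cases ht : t.Holds ρ <;> simp [hs, ht]

/-- The constraints written at position k. -/
def emitAt (toks : List (List Bool)) (k : ℕ) : List QC :=
  emit (kind (toks.getD k [])) k ((Cst toks k).2.getD 1 (false, 0)).2
    ((Cst toks k).2.getD 0 (false, 0)).2

/-- An unsolvable system. -/
def unsatQ : List QC := [(0, 0, 0, 0), (1, 0, 0, 0)]

lemma not_qsat_unsatQ : ¬ QSat unsatQ := by
  rintro ⟨x, hx⟩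
  have h1 := hx (0, 0, 0, 0) (by simp [unsatQ])
  have h2 := hx (1, 0, 0, 0) (by simp [unsatQ])
  rw [res0] at h1
  rw [res1] at h2
  linarith

/-- The basic system of a token list. -/
def toQ (toks : List (List Bool)) : List QC :=
  if (Cst toks toks.length).1 = true ∧ (Cst toks toks.length).2.length = 1 ∧
      ((Cst toks toks.length).2.getD 0 (false, 0)).1 = true then
    (0, 0, 0, ((Cst toks toks.length).2.getD 0 (false, 0)).2) ::
      (List.range toks.length).flatMap (emitAt toks)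
  else unsatQ

/-- The valuation used in the forward direction. -/
noncomputable def valP (ρ : List Bool → ℝ) (toks : List (List Bool)) (n : ℕ) : ℝ :=
  if n % 8 = 0 then
    (if kind (toks.getD (n / 8) []) = 10 then ρ (toks.getD (n / 8) []).tail
      else value ρ (((Ast toks (n / 8 + 1)).getD []).headD (.inl .zero)))
  else auxE (kind (toks.getD (n / 8) []))
    (value ρ (((Ast toks (n / 8)).getD []).getD 1 (.inl .zero)))
    (value ρ (((Ast toks (n / 8)).getD []).getD 0 (.inl .zero))) (n % 8)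

lemma valP_zero (ρ : List Bool → ℝ) (toks : List (List Bool)) (k : ℕ) : valP ρ toks (8 * k) =
    if kind (toks.getD k []) = 10 then ρ (toks.getD k []).tail
      else value ρ (((Ast toks (k + 1)).getD []).headD (.inl .zero)) := by
  have h1 : 8 * k % 8 = 0 := by omega
  have h2 : 8 * k / 8 = k := by omega
  simp only [valP, h1, h2, if_true]

theorem qsat_toQ (toks : List (List Bool)) :
    QSat (toQ toks) ↔ ∃ p : Formula, p.tokens = toks ∧ ∃ ρ : List Bool → ℝ, p.Holds ρ := by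
  constructor
  · intro h
    unfold toQ at h
    split_ifs at h with hc
    swap
    · exact absurd h not_qsat_unsatQ
    obtain ⟨val, hval⟩ := h
    simp only [List.forall_mem_cons, List.mem_flatMap, List.mem_range, res0] at hval
    obtain ⟨hv1, hv2⟩ := hval
    let ρ : List Bool → ℝ := fun name => val (8 * firstPos toks (true :: name))
    obtain ⟨h1, h2⟩ := parse_inv toks (fun i ν => val i = value ρ ν) toks.length (by
      intro k hk st ν st' h1 h2 h3
      unfold newIdx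
      split_ifs with h10
      · rw [h10] at h3
        simp only [build, Option.some.injEq, Prod.mk.injEq] at h3
        rw [← h3.1]
        simp only [value, PTerm.eval, ρ]
        rw [← eq_of_kind_ten h10]
      · exact emit_back h2 h3 h10 fun q hq => hv2 q ⟨k, hk, hq⟩) toks.length le_rfl
    obtain ⟨c1, c2, c3⟩ := hc
    rw [c1] at h1
    obtain ⟨st, hst⟩ := Option.isSome_iff_exists.1 h1.symm
    have h3 := h2 st hst
    generalize (Cst toks toks.length).2 = cs at h3 c2 c3 hv1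
    rcases h3 with _ | ⟨⟨h4, h5⟩, _ | _⟩
    · simp at c2
    · rename_i e ν
      simp only [List.getD_cons_zero] at c3 hv1
      rcases ν with t | p
      · simp [c3] at h4
      · refine ⟨p, (Ast_full_iff toks p).1 hst, ρ, ?_⟩
        simp only [value] at h5
        by_contra hp
        simp only [hp, if_false] at h5
        linarith
    · simp at c2
  · rintro ⟨p, hp, ρ, hρ⟩
    have hA := (Ast_full_iff toks p).2 hp
    have hinv := parse_inv toks (fun i ν => valP ρ toks i = value ρ ν) toks.length (by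
      intro k hk st ν st' h1 h2 h3
      unfold newIdx
      split_ifs with h10
      · rw [valP_zero, (firstPos_spec toks hk).2, if_pos h10]
        rw [h10] at h3
        simp only [build, Option.some.injEq, Prod.mk.injEq] at h3
        rw [← h3.1]
        rfl
      · rw [valP_zero, if_neg h10]
        simp only [Ast, astep, h1, Option.bind_some, h3, Option.map_some, Option.getD_some,
          List.headD_cons])
    obtain ⟨h1, h2⟩ := hinv toks.length le_rfl
    have h3 := h2 _ hA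
    rw [hA] at h1
    unfold toQ
    generalize Cst toks toks.length = cs at h1 h3
    obtain ⟨ok, cs⟩ := cs
    rcases h3 with _ | ⟨⟨h4, h5⟩, _ | _⟩
    rw [if_pos ⟨h1, rfl, h4⟩]
    refine ⟨valP ρ toks, ?_⟩
    simp only [List.forall_mem_cons, List.mem_flatMap, List.mem_range, res0, List.getD_cons_zero]
    refine ⟨by simp [h5, value, hρ], ?_⟩
    rintro q ⟨k, hk, hq⟩
    obtain ⟨st1, hst1⟩ := Ast_some_of_le (show k + 1 ≤ toks.length from hk) hA
    obtain ⟨st, ν, st', e1, e2, rfl⟩ := Ast_succ hst1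
    refine emit_fwd ((hinv k hk.le).2 st e1) e2 (fun h10 => ?_) (fun r h0 h8 => ?_) q hq
    · rw [valP_zero, if_neg h10, hst1]; rfl
    · simp only [valP, md8 k r h8, h0.ne', if_false, e1, Option.getD_some]

/-- The basic system of a bit string. -/
def bitsToQ (x : List Bool) : List QC :=
  if unparse (parseTok x) = x then toQ (parseTok x) else unsatQ

theorem etr_iff_qsat (x : List Bool) : ETR x = true ↔ QSat (bitsToQ x) := by
  classical
  unfold ETR bitsToQ
  rw [decide_eq_true_iff]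
  constructor
  · rintro ⟨p, rfl, hρ⟩
    rw [Formula.code, ← unparse_eq, parse_unparse, if_pos rfl]
    exact (qsat_toQ _).2 ⟨p, rfl, hρ⟩
  · intro h
    split_ifs at h with hc
    · obtain ⟨p, hp, hρ⟩ := (qsat_toQ _).1 h
      exact ⟨p, by rw [Formula.code, ← unparse_eq, hp, hc], hρ⟩
    · exact absurd h not_qsat_unsatQ

end Pool.Agent.MP_485bb6_lc
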