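import Mathlib
import Pool.Agent.Mg.F2e8011.Ga10a02
import Pool.Agent.Mg.F2e8011.G5eb695

/-! The geometric reduction runs in polynomial time. -/

namespace Pool.Agent.MP_485bb6_lc

open Pool.Agent.MP_2e8011_lc

@[fun_prop] theorem pt_genS : PT genS := by unfold genS; fun_prop
@[fun_prop] theorem pt_genC : PT genC := by unfold genC; fun_prop
@[fun_prop] theorem pt_genV : PT fun p : ℕ × ℕ => genV p.1 p.2 := by unfold genV; fun_prop
@[fun_prop] theorem pt_toStrict : PT fun p : List QC × ℕ => toStrict p.1 p.2 := by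
  unfold toStrict; fun_prop
@[fun_prop] theorem pt_genN : PT fun p : ℕ × TC => genN p.1 p.2 := by unfold genN; fun_prop
@[fun_prop] theorem pt_toNear : PT toNear := by unfold toNear; fun_prop
@[fun_prop] theorem pt_zig : PT fun p : ℕ × ℕ × ℕ × ℕ => zig p.1 p.2.1 p.2.2.1 p.2.2.2 := by
  unfold zig; fun_prop
@[fun_prop] theorem pt_genQ : PT fun p : ℕ × TC => genQ p.1 p.2 := by unfold genQ zig; fun_prop
@[fun_prop] theorem pt_toQuad : PT toQuad := by unfold toQuad; fun_prop
@[fun_prop] theorem pt_sel : PT fun p : N4 × ℕ => sel p.1 p.2 := by unfold sel; fun_prop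
@[fun_prop] theorem pt_cmpE : PT fun p : ℕ × ℕ × ℕ => cmpE p.1 p.2.1 p.2.2 := by
  unfold cmpE; fun_prop
@[fun_prop] theorem pt_prodE : PT fun p : ℕ × ℕ × ℕ × ℕ => prodE p.1 p.2.1 p.2.2.1 p.2.2.2 := by
  unfold prodE; fun_prop
@[fun_prop] theorem pt_tabE : PT fun p : Quad × ℕ × ℕ => tabE p.1 p.2.1 p.2.2 := by
  unfold tabE; fun_prop
@[fun_prop] theorem pt_ent : PT fun p : Code × Code => ent p.1 p.2 := by unfold ent; fun_prop
@[fun_prop] theorem pt_strict :
    PT fun p : ℕ × (Bool × Bool) × (Bool × Bool) => strict p.1 p.2.1 p.2.2 := by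
  unfold strict; fun_prop
@[fun_prop] theorem pt_strictM : PT fun p : Cp × Cp => strictM p.1 p.2 := by
  unfold strictM; fun_prop
@[fun_prop] theorem pt_liftM : PT fun p : PP × LL => liftM p.1 p.2 := by unfold liftM; fun_prop
@[fun_prop] theorem pt_adjV : PT fun p : Vx × Vx => adjV p.1 p.2 := by unfold adjV; fun_prop
@[fun_prop] theorem pt_ptList : PT ptList := by unfold ptList; fun_prop
@[fun_prop] theorem pt_lnList : PT lnList := by unfold lnList; fun_prop
@[fun_prop] theorem pt_ppList (m : ℕ) : PT (ppList m) := by unfold ppList; fun_prop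
@[fun_prop] theorem pt_llList (m : ℕ) : PT (llList m) := by unfold llList; fun_prop
@[fun_prop] theorem pt_vxList (m : ℕ) : PT (vxList m) := by unfold vxList; fun_prop
@[fun_prop] theorem pt_bitsV : PT bitsV := by unfold bitsV mat; fun_prop
theorem pt_qsysToBits (m : ℕ) : PT fun p : List QC × ℕ => qsysToBits m p.1 p.2 := by
  unfold qsysToBits; fun_prop

end Pool.Agent.MP_485bb6_lc
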