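import Mathlib
import Pool.Agent.Mg.F2e8011.G1f05ed
import Pool.Agent.Mg.F2e8011.G4740ac

section

/-! ETR reduces to the recognition problem in polynomial time. -/

namespace Pool.Agent.MP_485bb6_lc

open Pool.Agent.MP_2e8011_lc

@[fun_prop] theorem pt_tstep :
    PT fun p : (Bool × List Bool × List (List Bool)) × Bool => tstep p.1 p.2 := by
  unfold tstep; fun_prop

lemma tstep_bound (l : List Bool) (s : Bool × List Bool × List (List Bool)) :
    2 * sz (l.foldl tstep s).2.1 + sz (l.foldl tstep s).2.2 ≤
      2 * sz s.2.1 + sz s.2.2 + 6 * l.length := by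
  induction l generalizing s with
  | nil => simp
  | cons b l ih =>
    rw [List.foldl_cons, List.length_cons]
    refine (ih _).trans ?_
    unfold tstep
    split_ifs <;> simp [sz_append] <;> omega

@[fun_prop] theorem pt_parseTok : PT parseTok := by
  unfold parseTok
  refine (PT.foldl (f := fun _ s b => tstep s b) (by fun_prop) PT.id (PT.const _)
    (B := fun x => 4 + 6 * x.length) ((PB.const 4).add ((PB.const 6).mul PT.id.pb_length))
    (fun x k => ?_)).snd.snd
  have h := tstep_bound (x.take k) (false, [], [])
  have h2 : (x.take k).length ≤ x.length := by simp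
  generalize (x.take k).foldl tstep (false, [], []) = s at h ⊢
  obtain ⟨a, b, c⟩ := s
  simp only [sz_prod, sz_bool, sz_nil] at h ⊢
  omega

@[fun_prop] theorem pt_unparse : PT unparse := by unfold unparse; fun_prop

@[fun_prop] theorem pt_opTok : PT opTok := by
  have : PT fun k : ℕ => false :: (List.range k).map fun _ => true := by fun_prop
  exact this.congr fun k => by simp [opTok]

@[fun_prop] theorem pt_kind : PT kind := by unfold kind; fun_prop
@[fun_prop] theorem pt_arity : PT arity := by unfold arity; fun_prop
@[fun_prop] theorem pt_firstPos : PT fun p : List (List Bool) × List Bool => firstPos p.1 p.2 := by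
  unfold firstPos; fun_prop
@[fun_prop] theorem pt_newIdx : PT fun p : List (List Bool) × ℕ => newIdx p.1 p.2 := by
  unfold newIdx; fun_prop
@[fun_prop] theorem pt_okStep : PT fun p : ℕ × List (Bool × ℕ) => okStep p.1 p.2 := by
  unfold okStep; fun_prop
@[fun_prop] theorem pt_cstep :
    PT fun p : List (List Bool) × (Bool × List (Bool × ℕ)) × ℕ => cstep p.1 p.2.1 p.2.2 := by
  unfold cstep; fun_prop

lemma firstPos_le (toks : List (List Bool)) (t : List Bool) : firstPos toks t ≤ toks.length := by
  unfold firstPos
  have : ∀ i ∈ (List.range toks.length).filter fun i => decide (toks.getD i [] = t),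
      i ≤ toks.length := fun i hi => (List.mem_range.1 (List.mem_filter.1 hi).1).le
  generalize (List.range toks.length).filter (fun i => decide (toks.getD i [] = t)) = l at this ⊢
  cases l with
  | nil => simp
  | cons a l => exact this a (by simp)

lemma Cst_bound (toks : List (List Bool)) (k : ℕ) :
    sz (Cst toks k).2 ≤ k * (16 * (k + toks.length) + 7) := by
  induction k with
  | zero => simp [Cst]
  | succ k ih =>
    rw [Cst_succ]
    simp only [cstep, sz_cons, sz_prod, sz_bool, sz_nat]
    have h1 := sz_drop_le (Cst toks k).2 (arity (kind (toks.getD k [])))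
    have h2 : newIdx toks k ≤ 8 * (k + toks.length) := by
      unfold newIdx
      have := firstPos_le toks (toks.getD k [])
      split_ifs <;> omega
    nlinarith

@[fun_prop] theorem pt_Cst : PT fun p : List (List Bool) × ℕ => Cst p.1 p.2 := by
  have hf : PT fun q : (List (List Bool) × ℕ) × (Bool × List (Bool × ℕ)) × ℕ =>
      cstep q.1.1 q.2.1 q.2.2 :=
    pt_cstep.comp (f := fun q : (List (List Bool) × ℕ) × (Bool × List (Bool × ℕ)) × ℕ =>
      (q.1.1, q.2.1, q.2.2)) (by fun_prop)
  have hl : PT fun p : List (List Bool) × ℕ => List.range p.2 := by fun_prop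
  have hB : PT fun p : List (List Bool) × ℕ => 3 + p.2 * (16 * (p.2 + p.1.length) + 7) := by
    fun_prop
  refine (PT.foldl (f := fun (p : List (List Bool) × ℕ) s k => cstep p.1 s k) hf hl
    (PT.const (true, [])) hB.pb (fun p k => ?_)).congr fun p => rfl
  rw [List.take_range]
  have h := Cst_bound p.1 (min k p.2)
  unfold Cst at h
  generalize (List.range (min k p.2)).foldl (cstep p.1) (true, []) = s at h ⊢
  obtain ⟨a, b⟩ := s
  simp only [sz_prod, sz_bool] at h ⊢
  have h1 : min k p.2 ≤ p.2 := min_le_right _ _
  have h2 : min k p.2 * (16 * (min k p.2 + p.1.length) + 7) ≤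
      p.2 * (16 * (p.2 + p.1.length) + 7) := by gcongr
  omega

@[fun_prop] theorem pt_emit : PT fun p : ℕ × ℕ × ℕ × ℕ => emit p.1 p.2.1 p.2.2.1 p.2.2.2 := by
  unfold emit; fun_prop
@[fun_prop] theorem pt_emitAt : PT fun p : List (List Bool) × ℕ => emitAt p.1 p.2 := by
  unfold emitAt; fun_prop
@[fun_prop] theorem pt_toQ : PT toQ := by unfold toQ; fun_prop
@[fun_prop] theorem pt_bitsToQ : PT bitsToQ := by unfold bitsToQ; fun_prop

lemma qbound_sz (L : List QC) : QBound L (sz L + 1) := by
  refine ⟨by omega, (length_le_sz L).trans (by omega), fun q hq => ?_⟩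
  have h := sz_le_of_mem hq
  obtain ⟨a, b, c, e⟩ := q
  simp only [sz_prod, sz_nat] at h ⊢
  omega

theorem etr_reduces (m : ℕ) : N793a5b8e.ManyOneReducible ETR (UBG (m + 2)) := by
  refine ⟨fun x => qsysToBits m (bitsToQ x) (sz (bitsToQ x) + 1), PT.isPolyTime_bits ?_, fun x => ?_⟩
  · exact (pt_qsysToBits m).comp (f := fun x => (bitsToQ x, sz (bitsToQ x) + 1)) (by fun_prop)
  · rw [Bool.eq_iff_iff, etr_iff_qsat]
    exact qsat_iff_ubg m (qbound_sz _)

end Pool.Agent.MP_485bb6_lc

end

section

/-! The recognition problem reduces to ETR in polynomial time. -/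

namespace Pool.Agent.MP_485bb6_lc

open Pool.Agent.MP_2e8011_lc

/-- Name of coordinate k of point i. -/
def vn (i k : ℕ) : List Bool := (List.range (Nat.pair i k + 1)).map fun _ => true

/-- The Lorentzian product as a term. -/
def Bt (d i j : ℕ) : PTerm :=
  (List.range d).foldl (fun acc k => .add acc (.neg (.mul (.var (vn i (k + 1))) (.var (vn j (k + 1))))))
    (.mul (.var (vn i 0)) (.var (vn j 0)))

/-- Its tokens. -/
def BtTok (d i j : ℕ) : List (List Bool) :=
  [true :: vn i 0, true :: vn j 0, opTok 4] ++ (List.range d).flatMap fun k =>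
    [true :: vn i (k + 1), true :: vn j (k + 1), opTok 4, opTok 2, opTok 3]

lemma Bt_tokens (d i j : ℕ) : (Bt d i j).tokens = BtTok d i j := by
  unfold Bt BtTok
  induction d with
  | zero => simp [PTerm.tokens]
  | succ d ih =>
    rw [List.range_succ, List.foldl_append, List.flatMap_append]
    simp only [List.foldl_cons, List.foldl_nil, PTerm.tokens, ih]
    simp

lemma Bt_eval (ρ : List Bool → ℝ) (d i j : ℕ) : (Bt d i j).eval ρ =
    ρ (vn i 0) * ρ (vn j 0) - ∑ k : Fin d, ρ (vn i (k + 1)) * ρ (vn j (k + 1)) := by
  rw [Fin.sum_univ_eq_sum_range (fun k => ρ (vn i (k + 1)) * ρ (vn j (k + 1)))]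
  unfold Bt
  induction d with
  | zero => simp [PTerm.eval]
  | succ d ih =>
    rw [List.range_succ, List.foldl_append, Finset.sum_range_succ]
    simp only [List.foldl_cons, List.foldl_nil, PTerm.eval, ih]
    ring

/-- The condition for one entry of the matrix. -/
def atom (d i j : ℕ) (b : Bool) : Formula :=
  if i = j then
    (if b = true then .lt .one .one else .and (.lt .zero (.var (vn i 0))) (.eq (Bt d i i) .one))
  else if b = true then .not (.lt (.var []) (Bt d i j)) else .lt (.var []) (Bt d i j)

/-- Its tokens. -/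
def atomTok (d i j : ℕ) (b : Bool) : List (List Bool) :=
  if i = j then
    (if b = true then [opTok 1, opTok 1, opTok 6]
      else [opTok 0, true :: vn i 0, opTok 6] ++ BtTok d i i ++ [opTok 1, opTok 5, opTok 8])
  else if b = true then [[true]] ++ BtTok d i j ++ [opTok 6, opTok 7]
    else [[true]] ++ BtTok d i j ++ [opTok 6]

lemma atom_tokens (d i j : ℕ) (b : Bool) : (atom d i j b).tokens = atomTok d i j b := by
  unfold atom atomTok
  split_ifs <;> simp [Formula.tokens, PTerm.tokens, Bt_tokens]

/-- The side length of the matrix. -/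
def side (x : List Bool) : ℕ :=
  ((List.range (x.length + 1)).filter fun k => decide (k * k = x.length)).headD 0

lemma side_eq {x : List Bool} {n : ℕ} (h : x.length = n * n) : side x = n := by
  have h1 : n ∈ (List.range (x.length + 1)).filter fun k => decide (k * k = x.length) := by
    simp only [List.mem_filter, List.mem_range, decide_eq_true_eq]
    refine ⟨?_, h.symm⟩
    have := Nat.le_mul_self n
    omega
  have h2 : side x ∈ (List.range (x.length + 1)).filter fun k => decide (k * k = x.length) := by
    unfold side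
    generalize (List.range (x.length + 1)).filter (fun k => decide (k * k = x.length)) = l at h1 ⊢
    cases l with
    | nil => simp at h1
    | cons a l => simp
  simp only [List.mem_filter, List.mem_range, decide_eq_true_eq] at h2
  exact Nat.mul_self_inj.1 (h2.2.trans h)

/-- All index pairs. -/
def pairs (n : ℕ) : List (ℕ × ℕ) := (List.range n).flatMap fun i => (List.range n).map fun j => (i, j)

lemma mem_pairs {n : ℕ} {p : ℕ × ℕ} : p ∈ pairs n ↔ p.1 < n ∧ p.2 < n := by
  obtain ⟨i, j⟩ := p
  simp [pairs]

/-- The formula of an input. -/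
def whole (d : ℕ) (x : List Bool) : Formula :=
  (pairs (side x)).foldl (fun acc p => .and acc (atom d p.1 p.2 (x.getD (p.1 * side x + p.2) false)))
    (if side x * side x = x.length then .lt .one (.var []) else .lt .one .one)

/-- Its tokens. -/
def wholeTok (d : ℕ) (x : List Bool) : List (List Bool) :=
  (if side x * side x = x.length then [opTok 1, [true], opTok 6] else [opTok 1, opTok 1, opTok 6]) ++
    (pairs (side x)).flatMap fun p => atomTok d p.1 p.2 (x.getD (p.1 * side x + p.2) false) ++ [opTok 8]

lemma foldl_and_tokens {α : Type} (l : List α) (f : α → Formula) (p : Formula) :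
    (l.foldl (fun acc a => Formula.and acc (f a)) p).tokens =
      p.tokens ++ l.flatMap fun a => (f a).tokens ++ [opTok 8] := by
  induction l generalizing p with
  | nil => simp
  | cons a l ih => simp [ih, Formula.tokens]

lemma foldl_and_holds (ρ : List Bool → ℝ) {α : Type} (l : List α) (f : α → Formula) (p : Formula) :
    (l.foldl (fun acc a => Formula.and acc (f a)) p).Holds ρ ↔ p.Holds ρ ∧ ∀ a ∈ l, (f a).Holds ρ := by
  induction l generalizing p with
  | nil => simp
  | cons a l ih => simp [ih, Formula.Holds, and_assoc]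

lemma whole_tokens (d : ℕ) (x : List Bool) : (whole d x).tokens = wholeTok d x := by
  unfold whole wholeTok
  rw [foldl_and_tokens]
  simp only [atom_tokens]
  split_ifs <;> simp [Formula.tokens, PTerm.tokens]

lemma tokens_inj {p q : Formula} (h : p.tokens = q.tokens) : p = q := by
  have h1 := run_formula p []
  rw [h, run_formula] at h1
  simpa using h1.symm

lemma etr_code (p : Formula) : ETR p.code = true ↔ ∃ ρ : List Bool → ℝ, p.Holds ρ := by
  classical
  unfold ETR
  rw [decide_eq_true_iff]
  constructor
  · rintro ⟨q, hq, hρ⟩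
    have h1 := congrArg parseTok hq
    rw [Formula.code, Formula.code, ← unparse_eq, ← unparse_eq, parse_unparse, parse_unparse] at h1
    rwa [← tokens_inj h1]
  · exact fun h => ⟨p, rfl, h⟩

lemma whole_iff (d : ℕ) (x : List Bool) :
    UBG d x = true ↔ ∃ ρ : List Bool → ℝ, (whole d x).Holds ρ := by
  rw [ubg_iff]
  unfold whole
  simp only [foldl_and_holds]
  constructor
  · rintro ⟨n, hn, hd, R, hR, c, hc⟩
    rw [side_eq hn, if_pos hn.symm]
    let ρ : List Bool → ℝ := fun name => if name.length = 0 then R else
      if h : 0 < (Nat.unpair (name.length - 1)).2 ∧ (Nat.unpair (name.length - 1)).2 - 1 < d then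
        (c (Nat.unpair (name.length - 1)).1).1.2 ⟨_, h.2⟩
      else (c (Nat.unpair (name.length - 1)).1).1.1
    have h0 : ρ [] = R := by simp [ρ]
    have h1 : ∀ i, ρ (vn i 0) = (c i).1.1 := by intro i; simp [ρ, vn]
    have h2 : ∀ i (k : Fin d), ρ (vn i (k + 1)) = (c i).1.2 k := by intro i k; simp [ρ, vn]
    have h3 : ∀ i j, (Bt d i j).eval ρ = hB (c i) (c j) := by
      intro i j; simp only [Bt_eval, h1, h2, hB]
    refine ⟨ρ, by simpa [Formula.Holds, PTerm.eval, h0] using hR, ?_⟩
    rintro ⟨i, j⟩ hp
    obtain ⟨hi, hj⟩ := mem_pairs.1 hp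
    simp only at hi hj ⊢
    unfold atom
    split_ifs with e1 e2 e2
    · subst e1
      rw [hd i hi] at e2
      exact absurd e2 (by simp)
    · simp only [Formula.Holds, PTerm.eval, h1, h3]
      refine ⟨(c i).2.1, ?_⟩
      have := (c i).2.2
      simpa only [hB, sq] using this
    · simp only [Formula.Holds, PTerm.eval, h0, h3, not_lt]
      exact (hc i hi j hj e1).1 e2
    · simp only [Formula.Holds, PTerm.eval, h0, h3]
      exact lt_of_not_ge fun h => e2 ((hc i hi j hj e1).2 h)
  · rintro ⟨ρ, h0, h1⟩
    split_ifs at h0 with hn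
    swap
    · simp [Formula.Holds] at h0
    generalize side x = n at h1 hn
    have h2 : ∀ i < n, x.getD (i * n + i) false = false ∧ 0 < ρ (vn i 0) ∧ (Bt d i i).eval ρ = 1 := by
      intro i hi
      have := h1 (i, i) (mem_pairs.2 ⟨hi, hi⟩)
      unfold atom at this
      rw [if_pos rfl] at this
      split_ifs at this with e
      · simp [Formula.Holds] at this
      · exact ⟨by simpa using e, by simpa only [Formula.Holds, PTerm.eval] using this⟩
    let c : ℕ → Hyp d := fun i => if hi : i < n then
      ⟨(ρ (vn i 0), fun k => ρ (vn i (k + 1))), (h2 i hi).2.1, by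
        have := (h2 i hi).2.2
        rw [Bt_eval] at this
        simpa only [sq] using this⟩
      else ⟨(1, 0), by simp⟩
    have h3 : ∀ i < n, ∀ j < n, hB (c i) (c j) = (Bt d i j).eval ρ := by
      intro i hi j hj
      simp only [c, dif_pos hi, dif_pos hj, hB, Bt_eval]
    refine ⟨n, hn.symm, fun i hi => (h2 i hi).1, ρ [], by
      simpa only [Formula.Holds, PTerm.eval] using h0, c, fun i hi j hj hij => ?_⟩
    have := h1 (i, j) (mem_pairs.2 ⟨hi, hj⟩)
    unfold atom at this
    rw [if_neg hij] at this
    rw [h3 i hi j hj]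
    split_ifs at this with e
    · simp only [Formula.Holds, PTerm.eval, not_lt] at this
      exact ⟨fun _ => this, fun _ => e⟩
    · simp only [Formula.Holds, PTerm.eval] at this
      exact ⟨fun h => absurd h e, fun h => absurd this (not_lt.2 h)⟩

@[fun_prop] theorem pt_vn : PT fun p : ℕ × ℕ => vn p.1 p.2 := by unfold vn; fun_prop
@[fun_prop] theorem pt_BtTok : PT fun p : ℕ × ℕ × ℕ => BtTok p.1 p.2.1 p.2.2 := by
  unfold BtTok; fun_prop
@[fun_prop] theorem pt_atomTok :
    PT fun p : ℕ × ℕ × ℕ × Bool => atomTok p.1 p.2.1 p.2.2.1 p.2.2.2 := by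
  unfold atomTok; fun_prop
@[fun_prop] theorem pt_side : PT side := by unfold side; fun_prop
@[fun_prop] theorem pt_pairs : PT pairs := by unfold pairs; fun_prop
@[fun_prop] theorem pt_wholeTok (d : ℕ) : PT (wholeTok d) := by unfold wholeTok; fun_prop

theorem ubg_mem (d : ℕ) : UBG d ∈ ExistsR := by
  refine ⟨fun x => unparse (wholeTok d x), PT.isPolyTime_bits (by fun_prop), fun x => ?_⟩
  rw [Bool.eq_iff_iff, whole_iff, ← etr_code, Formula.code, ← unparse_eq, whole_tokens]

end Pool.Agent.MP_485bb6_lc

end
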