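import Mathlib

section

/-! Positively oriented triangles with winding number at most one form a plane drawing. -/

namespace Pool.Agent.MP_a4408f_lc

open Filter Topology

/-- Cross product. -/
def cr (a b : ℂ) : ℝ := a.re * b.im - a.im * b.re

/-- Twice the signed area. -/
def ar (a b c : ℂ) : ℝ := cr (b - a) (c - a)

/-- Strictly inside a positive triangle. -/
def Ins (a b c x : ℂ) : Prop := 0 < ar a b x ∧ 0 < ar b c x ∧ 0 < ar c a x

/-- Inside a closed positive triangle. -/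
def Cl (a b c x : ℂ) : Prop := 0 ≤ ar a b x ∧ 0 ≤ ar b c x ∧ 0 ≤ ar c a x

lemma ar_rot (a b c : ℂ) : ar b c a = ar a b c := by simp [ar, cr]; ring
lemma ar_swap (a b c : ℂ) : ar b a c = -ar a b c := by simp [ar, cr]; ring
lemma ar_swap' (a b c : ℂ) : ar a c b = -ar a b c := by simp [ar, cr]; ring
@[simp] lemma ar_self1 (a b : ℂ) : ar a b a = 0 := by simp [ar, cr]
@[simp] lemma ar_self2 (a b : ℂ) : ar a b b = 0 := by simp [ar, cr]; ring
@[simp] lemma ar_self3 (a b : ℂ) : ar a a b = 0 := by simp [ar, cr]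
lemma ar_sum (a b c x : ℂ) : ar a b x + ar b c x + ar c a x = ar a b c := by simp [ar, cr]; ring
lemma ar_line (a b x y : ℂ) (t : ℝ) :
    ar a b (x + t * (y - x)) = (1 - t) * ar a b x + t * ar a b y := by simp [ar, cr]; ring
lemma Ins.rot {a b c x : ℂ} (h : Ins a b c x) : Ins b c a x := ⟨h.2.1, h.2.2, h.1⟩
lemma Cl.rot {a b c x : ℂ} (h : Cl a b c x) : Cl b c a x := ⟨h.2.1, h.2.2, h.1⟩
lemma Ins.pos {a b c x : ℂ} (h : Ins a b c x) : 0 < ar a b c := by
  rw [← ar_sum a b c x]; linarith [h.1, h.2.1, h.2.2]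

@[fun_prop] lemma continuous_ar {X : Type} [TopologicalSpace X] {f g h : X → ℂ} (hf : Continuous f)
    (hg : Continuous g) (hh : Continuous h) : Continuous fun x => ar (f x) (g x) (h x) := by
  unfold ar cr; fun_prop

lemma mem_seg {a b x : ℂ} : x ∈ segment ℝ a b ↔ ∃ t : ℝ, 0 ≤ t ∧ t ≤ 1 ∧ x = a + t * (b - a) := by
  rw [segment_eq_image']
  simp only [Set.mem_image, Set.mem_Icc, Complex.real_smul]
  constructor
  · rintro ⟨t, ⟨h0, h1⟩, rfl⟩; exact ⟨t, h0, h1, rfl⟩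
  · rintro ⟨t, h0, h1, rfl⟩; exact ⟨t, ⟨h0, h1⟩, rfl⟩

lemma cl_of_seg {a b c x : ℂ} (h : 0 < ar a b c) (hx : x ∈ segment ℝ a b) : Cl a b c x := by
  obtain ⟨t, h0, h1, rfl⟩ := mem_seg.1 hx
  refine ⟨?_, ?_, ?_⟩ <;> rw [ar_line]
  · simp
  · rw [ar_rot]; simp; nlinarith
  · rw [← ar_rot c a b]; simp; positivity

lemma ar_of_seg {a b x : ℂ} (hx : x ∈ segment ℝ a b) : ar a b x = 0 := by
  obtain ⟨t, -, -, rfl⟩ := mem_seg.1 hx
  rw [ar_line]; simp

lemma seg_of_cl {a b c x : ℂ} (h : 0 < ar a b c) (hx : Cl a b c x) (h0 : ar a b x = 0) :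
    x ∈ segment ℝ a b := by
  have hs := ar_sum a b c x
  refine mem_seg.2 ⟨ar c a x / ar a b c, div_nonneg hx.2.2 h.le, ?_, ?_⟩
  · rw [div_le_one h]; linarith [hx.2.1]
  · have h1 : (x - a).re * ar a b c = ar c a x * (b - a).re + ar a b x * (c - a).re := by
      simp [ar, cr]; ring
    have h2 : (x - a).im * ar a b c = ar c a x * (b - a).im + ar a b x * (c - a).im := by
      simp [ar, cr]; ring
    rw [h0] at h1 h2
    apply Complex.ext
    · simp only [Complex.add_re, Complex.re_ofReal_mul]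
      field_simp
      simp only [Complex.sub_re] at h1 ⊢; linarith
    · simp only [Complex.add_im, Complex.im_ofReal_mul]
      field_simp
      simp only [Complex.sub_im] at h2 ⊢; linarith

lemma isOpen_ins (a b c : ℂ) : IsOpen {x | Ins a b c x} := by
  have h : ∀ a b : ℂ, IsOpen {x | 0 < ar a b x} := fun a b =>
    isOpen_lt continuous_const (by fun_prop)
  exact (h a b).inter ((h b c).inter (h c a))

lemma cl_closure {a b c x : ℂ} (h : 0 < ar a b c) (hx : Cl a b c x) :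
    x ∈ closure {x | Ins a b c x} := by
  set g : ℂ := (a + b + c) / 3 with hg
  have g1 : ar a b g = ar a b c / 3 := by simp [hg, ar, cr]; ring
  have g2 : ar b c g = ar a b c / 3 := by simp [hg, ar, cr]; ring
  have g3 : ar c a g = ar a b c / 3 := by simp [hg, ar, cr]; ring
  have ht : Tendsto (fun t : ℝ => x + t * (g - x)) (𝓝[>] 0) (𝓝 x) := by
    have : Continuous fun t : ℝ => x + t * (g - x) := by fun_prop
    simpa using (this.tendsto 0).mono_left (nhdsWithin_le_nhds (s := Set.Ioi 0))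
  refine mem_closure_of_tendsto ht ?_
  filter_upwards [Ioo_mem_nhdsGT (zero_lt_one (α := ℝ))] with t ht
  obtain ⟨h1, h2, h3⟩ := hx
  have h4 := ht.1
  have h5 : 0 < 1 - t := by linarith [ht.2]
  refine ⟨?_, ?_, ?_⟩ <;> rw [ar_line]
  · rw [g1]; positivity
  · rw [g2]; positivity
  · rw [g3]; positivity

/-- Signed crossing of the upward ray. -/
noncomputable def cw (x u v : ℂ) : ℝ :=
  if u.re ≤ x.re ∧ x.re < v.re ∧ ar u v x < 0 then -1
  else if v.re ≤ x.re ∧ x.re < u.re ∧ 0 < ar u v x then 1 else 0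

lemma cw_anti (x u v : ℂ) : cw x v u = -cw x u v := by
  unfold cw
  rw [ar_swap]
  split_ifs <;> simp_all <;> linarith

lemma wind_aux {a b c x : ℂ} (h : 0 < ar a b c) (ha : a.re ≤ x.re) (hb : x.re < b.re) :
    0 ≤ cw x a b + cw x b c + cw x c a ∧ (Ins a b c x → cw x a b + cw x b c + cw x c a = 1) := by
  have hs := ar_sum a b c x
  have hi : (a.re - x.re) * ar b c x + (b.re - x.re) * ar c a x + (c.re - x.re) * ar a b x = 0 := by
    simp [ar, cr]; ring
  have hb' : ¬ b.re ≤ x.re := not_le.2 hb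
  have ha' : ¬ x.re < a.re := not_lt.2 ha
  by_cases hc : c.re ≤ x.re
  · have hc' : ¬ x.re < c.re := not_lt.2 hc
    simp only [cw, ha, hb, hc, ha', hb', hc', true_and, false_and, and_false, if_false]
    constructor
    · split_ifs with h1 h2 h2 <;> try norm_num
      push Not at h2
      nlinarith [mul_nonneg (sub_nonneg.2 ha) (neg_nonneg.2 h2), mul_nonneg (sub_nonneg.2 hc)
        (neg_nonneg.2 h1.le), mul_pos (sub_pos.2 hb) (show 0 < ar c a x by linarith)]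
    · rintro ⟨h1, h2, h3⟩
      rw [if_neg (not_lt.2 h1.le), if_pos h2]; norm_num
  · have hc' : x.re < c.re := not_le.1 hc
    simp only [cw, ha, hb, hc, ha', hb', hc', true_and, false_and, and_false, if_false]
    constructor
    · split_ifs with h1 h2 h2 <;> try norm_num
      push Not at h2
      nlinarith [mul_nonneg (sub_nonneg.2 ha) (show 0 ≤ ar b c x by linarith),
        mul_nonneg (sub_nonneg.2 hb.le) (neg_nonneg.2 h2), mul_pos (sub_pos.2 hc') (neg_pos.2 h1)]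
    · rintro ⟨h1, h2, h3⟩
      rw [if_neg (not_lt.2 h1.le), if_pos h3]; norm_num

lemma wind {a b c : ℂ} (x : ℂ) (h : 0 < ar a b c) :
    0 ≤ cw x a b + cw x b c + cw x c a ∧ (Ins a b c x → cw x a b + cw x b c + cw x c a = 1) := by
  have hi : (a.re - x.re) * ar b c x + (b.re - x.re) * ar c a x + (c.re - x.re) * ar a b x = 0 := by
    simp [ar, cr]; ring
  have r1 := fun h1 h2 => wind_aux (x := x) (ar_rot a b c ▸ h : 0 < ar b c a) h1 h2
  have r2 := fun h1 h2 => wind_aux (x := x) (ar_rot c a b ▸ h : 0 < ar c a b) h1 h2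
  rcases le_or_gt a.re x.re with ha | ha <;> rcases le_or_gt b.re x.re with hb | hb <;>
    rcases le_or_gt c.re x.re with hc | hc
  · refine ⟨by simp [cw, not_lt.2 ha, not_lt.2 hb, not_lt.2 hc], fun ⟨h1, h2, h3⟩ => ?_⟩
    have e1 := mul_nonneg (sub_nonneg.2 ha) h2.le
    have e2 := mul_nonneg (sub_nonneg.2 hb) h3.le
    have e3 := mul_nonneg (sub_nonneg.2 hc) h1.le
    have f1 : x.re - a.re = 0 := (mul_eq_zero.1 (show (x.re - a.re) * ar b c x = 0 by linarith)).resolve_right h2.ne'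
    have f2 : x.re - b.re = 0 := (mul_eq_zero.1 (show (x.re - b.re) * ar c a x = 0 by linarith)).resolve_right h3.ne'
    have : ar a b x = 0 := by
      simp only [ar, cr, Complex.sub_re, Complex.sub_im]
      rw [f1, show b.re - a.re = 0 by linarith]; ring
    linarith
  · obtain ⟨h1, h2⟩ := r1 hb hc
    exact ⟨by linarith, fun h3 => by linarith [h2 h3.rot]⟩
  · exact wind_aux h ha hb
  · exact wind_aux h ha hb
  · obtain ⟨h1, h2⟩ := r2 hc ha
    exact ⟨by linarith, fun h3 => by linarith [h2 h3.rot.rot]⟩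
  · obtain ⟨h1, h2⟩ := r1 hb hc
    exact ⟨by linarith, fun h3 => by linarith [h2 h3.rot]⟩
  · obtain ⟨h1, h2⟩ := r2 hc ha
    exact ⟨by linarith, fun h3 => by linarith [h2 h3.rot.rot]⟩
  · refine ⟨by simp [cw, not_le.2 ha, not_le.2 hb, not_le.2 hc], fun ⟨h1, h2, h3⟩ => ?_⟩
    nlinarith [mul_pos (sub_pos.2 ha) h2, mul_pos (sub_pos.2 hb) h3, mul_pos (sub_pos.2 hc) h1]

section Cx
variable {V I : Type}

/-- A corner of a triangle. -/
def Cn (t : V × V × V) (u v w : V) : Prop := t = (u, v, w) ∨ t = (v, w, u) ∨ t = (w, u, v)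

lemma Cn.rot {t : V × V × V} {u v w : V} (h : Cn t u v w) : Cn t v w u := by
  unfold Cn at h ⊢; tauto

lemma cn_self (t : V × V × V) : Cn t t.1 t.2.1 t.2.2 := Or.inl rfl

/-- Apply a rotation invariant function to a triangle. -/
def onT {α : Type} (p : V → ℂ) (F : ℂ → ℂ → ℂ → α) (t : V × V × V) : α :=
  F (p t.1) (p t.2.1) (p t.2.2)

lemma Cn.ar {t : V × V × V} {u v w : V} (h : Cn t u v w) (p : V → ℂ) :
    onT p ar t = ar (p u) (p v) (p w) := by
  rcases h with rfl | rfl | rfl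
  · rfl
  · exact ar_rot _ _ _
  · exact (ar_rot _ _ _).symm

lemma Cn.ins {t : V × V × V} {u v w : V} (h : Cn t u v w) (p : V → ℂ) (x : ℂ) :
    onT p Ins t x ↔ Ins (p u) (p v) (p w) x := by
  rcases h with rfl | rfl | rfl
  · rfl
  · exact ⟨fun h => h.rot.rot, fun h => h.rot⟩
  · exact ⟨fun h => h.rot, fun h => h.rot.rot⟩

lemma Cn.cl {t : V × V × V} {u v w : V} (h : Cn t u v w) (p : V → ℂ) (x : ℂ) :
    onT p Cl t x ↔ Cl (p u) (p v) (p w) x := by
  rcases h with rfl | rfl | rfl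
  · rfl
  · exact ⟨fun h => h.rot.rot, fun h => h.rot⟩
  · exact ⟨fun h => h.rot, fun h => h.rot.rot⟩

/-- Vertex of a triangle. -/
def Vt (t : V × V × V) (w : V) : Prop := w = t.1 ∨ w = t.2.1 ∨ w = t.2.2

lemma Cn.vt {t : V × V × V} {u v w : V} (h : Cn t u v w) (z : V) :
    Vt t z ↔ z = u ∨ z = v ∨ z = w := by
  rcases h with rfl | rfl | rfl <;> simp only [Vt] <;> tauto

lemma Vt.cn {t : V × V × V} {w : V} (h : Vt t w) : ∃ u v, Cn t w u v := by
  rcases h with rfl | rfl | rfl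
  exacts [⟨_, _, cn_self t⟩, ⟨_, _, (cn_self t).rot⟩, ⟨_, _, (cn_self t).rot.rot⟩]

/-- Positive triangles with disjoint interiors. -/
structure Emb (S : Finset I) (T : I → V × V × V) (p : V → ℂ) : Prop where
  pos : ∀ i ∈ S, 0 < onT p ar (T i)
  disj : ∀ i ∈ S, ∀ j ∈ S, ∀ x, onT p Ins (T i) x → onT p Ins (T j) x → i = j

/-- Sum of a function over the boundary of a triangle. -/
def bsum (f : V → V → ℝ) (t : V × V × V) : ℝ := f t.1 t.2.1 + f t.2.1 t.2.2 + f t.2.2 t.1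

theorem emb_of_wind {S : Finset I} {T : I → V × V × V} {p : V → ℂ}
    (pos : ∀ i ∈ S, 0 < onT p ar (T i))
    (hw : ∀ x, ∑ i ∈ S, bsum (fun u v => cw x (p u) (p v)) (T i) ≤ 1) : Emb S T p := by
  classical
  refine ⟨pos, fun i hi j hj x h1 h2 => ?_⟩
  by_contra hne
  have h3 := Finset.sum_le_sum_of_subset_of_nonneg (s := {i, j}) (t := S)
    (f := fun i => bsum (fun u v => cw x (p u) (p v)) (T i))
    (by intro k hk; simp at hk; rcases hk with rfl | rfl <;> assumption)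
    (fun k hk _ => (wind x (pos k hk)).1)
  rw [Finset.sum_pair hne] at h3
  have h4 := (wind x (pos i hi)).2 h1
  have h5 := (wind x (pos j hj)).2 h2
  have h6 := hw x
  simp only [bsum] at h3 h6
  linarith

/-- All triangles around the vertex are present. -/
def Full (S : Finset I) (T : I → V × V × V) (w : V) : Prop :=
  (∃ i ∈ S, Vt (T i) w) ∧ ∀ i ∈ S, ∀ u v, Cn (T i) w u v → ∃ j ∈ S, ∃ x, Cn (T j) w v x

theorem cone_cover {S : Finset I} {T : I → V × V × V} {p : V → ℂ}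
    (pos : ∀ i ∈ S, 0 < onT p ar (T i)) {w : V} (hw : Full S T w) (y : ℂ) :
    ∃ i ∈ S, ∃ u v, Cn (T i) w u v ∧ 0 ≤ ar (p w) (p u) y ∧ 0 ≤ ar (p v) (p w) y := by
  classical
  by_contra hcon
  push Not at hcon
  have hfin : {v | ∃ i ∈ S, ∃ u, Cn (T i) w u v}.Finite := by
    refine (S.finite_toSet.biUnion (t := fun i => {(T i).1, (T i).2.1, (T i).2.2})
      fun i _ => by simp).subset ?_
    rintro v ⟨i, hi, u, h⟩
    simp only [Set.mem_iUnion]
    exact ⟨i, hi, (h.vt v).2 (by simp)⟩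
  set d := y - p w with hd
  let φ : V → ℝ := fun v => ((p v - p w).re * d.re + (p v - p w).im * d.im) / ar (p w) (p v) y
  have key : ∀ i ∈ S, ∀ u v, Cn (T i) w u v → 0 < ar (p w) (p u) y * ar (p w) (p v) y → φ u < φ v := by
    intro i hi u v h hs
    have h1 := pos i hi
    rw [h.ar] at h1
    have h2 : ar (p w) (p u) y ≠ 0 := by rintro h; simp [h] at hs
    have h3 : ar (p w) (p v) y ≠ 0 := by rintro h; simp [h] at hs
    have h4 : 0 < d.re ^ 2 + d.im ^ 2 := by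
      by_contra h5
      have h6 : d.re = 0 := by nlinarith [sq_nonneg d.re, sq_nonneg d.im]
      have h7 : d.im = 0 := by nlinarith [sq_nonneg d.re, sq_nonneg d.im]
      apply h2
      simp only [ar, cr, ← hd, h6, h7]; ring
    have h5 : φ v - φ u = ar (p w) (p u) (p v) * (d.re ^ 2 + d.im ^ 2) /
        (ar (p w) (p u) y * ar (p w) (p v) y) := by
      simp only [φ]
      field_simp
      simp only [ar, cr, ← hd]; ring
    have h6 : 0 < φ v - φ u := by rw [h5]; positivity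
    linarith
  have fin : ∀ B : Set V, (∃ v ∈ B, ∃ i ∈ S, ∃ u, Cn (T i) w u v) →
      (∀ i ∈ S, ∀ v ∈ B, ∀ x, Cn (T i) w v x → x ∈ B ∧ 0 < ar (p w) (p v) y * ar (p w) (p x) y) →
      False := by
    rintro B ⟨v0, hv0, hv1⟩ hB
    obtain ⟨v, ⟨hv, i, hi, u, h⟩, hmax⟩ := Set.exists_max_image
      (B ∩ {v | ∃ i ∈ S, ∃ u, Cn (T i) w u v}) φ (hfin.inter_of_right _) ⟨v0, hv0, hv1⟩
    obtain ⟨j, hj, x, hx⟩ := hw.2 i hi u v h
    obtain ⟨h1, h2⟩ := hB j hj v hv x hx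
    exact absurd (key j hj v x hx h2) (not_lt.2 (hmax x ⟨h1, j, hj, v, hx⟩))
  by_cases hA : ∃ v, 0 < ar (p w) (p v) y ∧ ∃ i ∈ S, ∃ u, Cn (T i) w u v
  · refine fin {v | 0 < ar (p w) (p v) y} hA fun i hi v hv x hx => ?_
    have h1 := hcon i hi v x hx (le_of_lt hv)
    rw [ar_swap] at h1
    have h2 : 0 < ar (p w) (p x) y := by linarith
    exact ⟨h2, mul_pos hv h2⟩
  · push Not at hA
    have h0 : ∀ i ∈ S, ∀ u v, Cn (T i) w u v → ar (p w) (p v) y < 0 := by
      intro i hi u v h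
      obtain ⟨j, hj, x, hx⟩ := hw.2 i hi u v h
      by_contra h1
      have h2 := hcon j hj v x hx (not_lt.1 h1)
      rw [ar_swap] at h2
      exact hA x (by linarith) j hj v hx
    obtain ⟨i, hi, h⟩ := hw.1
    obtain ⟨u, v, h⟩ := h.cn
    exact fin {v | ar (p w) (p v) y < 0} ⟨v, h0 i hi u v h, i, hi, u, h⟩ fun i hi v hv x hx =>
      ⟨h0 i hi v x hx, mul_pos_of_neg_of_neg hv (h0 i hi v x hx)⟩

variable {S : Finset I} {T : I → V × V × V} {p : V → ℂ}

lemma Emb.near (h : Emb S T p) {y : ℂ} {P : I → Prop}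
    (hN : ∀ᶠ x in 𝓝 y, ∃ k ∈ S, P k ∧ onT p Cl (T k) x) {j : I} (hj : j ∈ S)
    (hy : onT p Cl (T j) y) : P j := by
  obtain ⟨x, ⟨k, hk, hP, hx⟩, hx'⟩ := mem_closure_iff_nhds.1 (cl_closure (h.pos j hj) hy) _ hN
  obtain ⟨z, hz, hz'⟩ := mem_closure_iff_nhds.1 (cl_closure (h.pos k hk) hx) _
    ((isOpen_ins _ _ _).mem_nhds hx')
  rwa [h.disj j hj k hk z hz hz']

theorem Emb.vertex (h : Emb S T p) {w : V} (hw : Full S T w) {j : I} (hj : j ∈ S)
    (hy : onT p Cl (T j) (p w)) : Vt (T j) w := by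
  refine h.near (P := fun k => Vt (T k) w) ?_ hj hy
  have h1 : ∀ᶠ x in 𝓝 (p w), ∀ k ∈ S, ∀ u v, Cn (T k) w u v → 0 ≤ ar (p u) (p v) x := by
    rw [eventually_all_finset]
    intro k hk
    have h2 := h.pos k hk
    have h3 : ∀ a b : ℂ, 0 < ar a b (p w) → ∀ᶠ x in 𝓝 (p w), 0 < ar a b x := fun a b hab =>
      (isOpen_lt continuous_const (by fun_prop)).mem_nhds hab
    have h4 : ∀ a b : ℂ, ∀ᶠ x in 𝓝 (p w), 0 < ar a b (p w) → 0 < ar a b x := fun a b => by
      by_cases hab : 0 < ar a b (p w)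
      · exact (h3 a b hab).mono fun x hx _ => hx
      · exact Eventually.of_forall fun x hx => absurd hx hab
    filter_upwards [h4 (p (T k).1) (p (T k).2.1), h4 (p (T k).2.1) (p (T k).2.2),
      h4 (p (T k).2.2) (p (T k).1)] with x e1 e2 e3 u v hc
    rw [hc.ar, ← ar_rot] at h2
    rcases hc with hc | hc | hc <;> simp only [hc] at e1 e2 e3
    exacts [(e2 h2).le, (e1 h2).le, (e3 h2).le]
  filter_upwards [h1] with x hx
  obtain ⟨i, hi, u, v, hc, h2, h3⟩ := cone_cover h.pos hw x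
  exact ⟨i, hi, (hc.vt w).2 (Or.inl rfl), (hc.cl p x).2 ⟨h2, hx i hi u v hc, h3⟩⟩

theorem Emb.edge (h : Emb S T p) {i k : I} (hi : i ∈ S) (hk : k ∈ S) {u v w x : V}
    (h1 : Cn (T i) u v w) (h2 : Cn (T k) v u x) {t : ℝ} (h0 : 0 < t) (h1' : t < 1) {j : I}
    (hj : j ∈ S) (hy : onT p Cl (T j) (p u + t * (p v - p u))) : j = i ∨ j = k := by
  refine h.near (P := fun j => j = i ∨ j = k) ?_ hj hy
  have a1 := h.pos i hi
  have a2 := h.pos k hk
  rw [h1.ar] at a1
  rw [h2.ar] at a2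
  have h3 : ∀ a b : ℂ, 0 < ar a b (p u + t * (p v - p u)) →
      ∀ᶠ x in 𝓝 (p u + t * (p v - p u)), 0 < ar a b x := fun a b hab =>
    (isOpen_lt continuous_const (by fun_prop)).mem_nhds hab
  have h4 : 0 < 1 - t := by linarith
  filter_upwards [h3 (p v) (p w) (by rw [ar_line, ar_rot]; simp; positivity),
    h3 (p w) (p u) (by rw [ar_line, ← ar_rot (p w) (p u) (p v)]; simp; positivity),
    h3 (p u) (p x) (by rw [ar_line, ar_rot (p v) (p u) (p x)]; simp; positivity),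
    h3 (p x) (p v) (by rw [ar_line, ← ar_rot (p x) (p v) (p u)]; simp; positivity)]
    with z e1 e2 e3 e4
  rcases le_total 0 (ar (p u) (p v) z) with hz | hz
  · exact ⟨i, hi, Or.inl rfl, (h1.cl p z).2 ⟨hz, e1.le, e2.le⟩⟩
  · exact ⟨k, hk, Or.inr rfl, (h2.cl p z).2 ⟨by rw [ar_swap]; linarith, e3.le, e4.le⟩⟩

lemma Emb.ne (h : Emb S T p) {i : I} (hi : i ∈ S) {u v w : V} (h1 : Cn (T i) u v w) :
    p u ≠ p v := by
  intro e
  have := h.pos i hi
  rw [h1.ar, e] at this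
  simp at this

theorem Emb.uniq (h : Emb S T p) {i j : I} (hi : i ∈ S) (hj : j ∈ S) {u v w w' : V}
    (hv : Full S T v) (h1 : Cn (T i) u v w) (h2 : Cn (T j) u v w') : i = j := by
  obtain ⟨k, hk, x, hx⟩ := hv.2 i hi w u h1.rot
  have a2 := h.pos j hj
  have a3 := h.pos k hk
  rw [h2.ar] at a2
  rw [hx.ar] at a3
  rcases h.edge hi hk h1 hx (t := 1 / 2) (by norm_num) (by norm_num) hj
    ((h2.cl p _).2 (cl_of_seg a2 (mem_seg.2 ⟨1 / 2, by norm_num, by norm_num, rfl⟩))) with e | e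
  · exact e.symm
  · subst e
    have huv : u ≠ v := fun e => h.ne hi h1 (by rw [e])
    exfalso
    rcases (h2.vt x).1 ((hx.vt x).2 (by simp)) with rfl | rfl | rfl
    · simp at a3
    · simp at a3
    · have := h2.ar p
      rw [hx.ar, ar_swap] at this
      rw [ar_swap] at a3
      linarith

/-- Adjacency along the triangles. -/
def Ad (S : Finset I) (T : I → V × V × V) (u v : V) : Prop :=
  ∃ i ∈ S, ∃ w, Cn (T i) u v w ∨ Cn (T i) v u w

lemma Ad.symm {u v : V} (h : Ad S T u v) : Ad S T v u := by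
  obtain ⟨i, hi, w, h⟩ := h
  exact ⟨i, hi, w, h.symm⟩

lemma Ad.fwd {u v : V} (h : Ad S T u v) (hu : Full S T u) : ∃ i ∈ S, ∃ w, Cn (T i) u v w := by
  obtain ⟨i, hi, w, h | h⟩ := h
  · exact ⟨i, hi, w, h⟩
  · exact hu.2 i hi w v h.rot

theorem Emb.nv (h : Emb S T p) {u v w : V} (ha : Ad S T u v) (hu : Full S T u) (hw : Full S T w)
    (hy : p w ∈ segment ℝ (p u) (p v)) : w = u ∨ w = v := by
  obtain ⟨i, hi, x, h1⟩ := ha.fwd hu
  have a1 := h.pos i hi
  rw [h1.ar] at a1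
  rcases (h1.vt w).1 (h.vertex hw hi ((h1.cl p _).2 (cl_of_seg a1 hy))) with e | e | rfl
  · exact Or.inl e
  · exact Or.inr e
  · rw [ar_of_seg hy] at a1; simp at a1

theorem Emb.inj (h : Emb S T p) {u w : V} (hu : Full S T u) (hw : Full S T w) (e : p w = p u) :
    w = u := by
  obtain ⟨i, hi, h1⟩ := hu.1
  obtain ⟨v, x, h1⟩ := h1.cn
  rcases h.nv ⟨i, hi, x, Or.inl h1⟩ hu hw (e ▸ left_mem_segment _ _ _) with e' | rfl
  · exact e'
  · exact absurd e.symm (h.ne hi h1)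

theorem Emb.nx (h : Emb S T p) {a b c d : V} (h1 : Ad S T a b) (h2 : Ad S T c d)
    (ha : Full S T a) (hb : Full S T b) (hc : Full S T c) (hd : Full S T d)
    (hne : s(a, b) ≠ s(c, d)) {y : ℂ} (y1 : y ∈ segment ℝ (p a) (p b))
    (y2 : y ∈ segment ℝ (p c) (p d)) : ∃ v, (v = a ∨ v = b) ∧ (v = c ∨ v = d) ∧ y = p v := by
  by_cases ea : y = p a
  · exact ⟨a, Or.inl rfl, h.nv h2 hc ha (ea ▸ y2), ea⟩
  by_cases eb : y = p b
  · exact ⟨b, Or.inr rfl, h.nv h2 hc hb (eb ▸ y2), eb⟩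
  by_cases ec : y = p c
  · exact ⟨c, h.nv h1 ha hc (ec ▸ y1), Or.inl rfl, ec⟩
  by_cases ed : y = p d
  · exact ⟨d, h.nv h1 ha hd (ed ▸ y1), Or.inr rfl, ed⟩
  exfalso
  obtain ⟨i, hi, w, t1⟩ := h1.fwd ha
  obtain ⟨k, hk, x, t2⟩ := h1.symm.fwd hb
  obtain ⟨j, hj, z, t3⟩ := h2.fwd hc
  obtain ⟨t, h0, h1', rfl⟩ := mem_seg.1 y1
  have t0 : 0 < t := lt_of_le_of_ne h0 (by rintro rfl; simp at ea)
  have t1' : t < 1 := lt_of_le_of_ne h1' (by rintro rfl; simp at eb)
  have a3 := h.pos j hj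
  rw [t3.ar] at a3
  have hab : a ≠ b := fun e => h.ne hi t1 (by rw [e])
  have hv : Vt (T j) a ∧ Vt (T j) b := by
    rcases h.edge hi hk t1 t2 t0 t1' hj ((t3.cl p _).2 (cl_of_seg a3 y2)) with rfl | rfl
    · exact ⟨(t1.vt a).2 (by simp), (t1.vt b).2 (by simp)⟩
    · exact ⟨(t2.vt a).2 (by simp), (t2.vt b).2 (by simp)⟩
  have h5 := ar_of_seg y2
  rw [ar_line] at h5
  have h4 : 0 < 1 - t := by linarith
  obtain ⟨va, vb⟩ := hv
  rcases (t3.vt a).1 va with rfl | rfl | rfl <;> rcases (t3.vt b).1 vb with rfl | rfl | rfl <;>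
    first
      | exact hab rfl
      | exact hne rfl
      | exact hne Sym2.eq_swap
      | (simp only [ar_self1, ar_self2, mul_zero, zero_add, add_zero] at h5
         nlinarith [mul_pos t0 a3, mul_pos h4 a3])

end Cx

end Pool.Agent.MP_a4408f_lc

end

section

/-! The trigonometric tests realised by the geometric gadgets. -/

namespace Pool.Agent.MP_a4408f_lc

open Filter Topology

/-- A test (mirror, k1, k2, k3, k4, nu). -/
abbrev BT := Bool × ℕ × ℕ × ℕ × ℕ × ℕ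

/-- The basic function. -/
noncomputable def fs (x : ℝ) : ℝ := Real.sin (Real.pi / 6 + x)

/-- The sign attached to the mirror bit. -/
def sg (b : Bool) : ℝ := if b = true then -1 else 1

@[simp] lemma sg_true : sg true = -1 := rfl
@[simp] lemma sg_false : sg false = 1 := rfl

/-- The meaning of a test. -/
def bholds (q : BT) (φ : ℕ → ℝ) : Prop :=
  fs (-(sg q.1 * (φ q.2.2.2.1 - φ q.2.2.2.2.2))) + fs (sg q.1 * (φ q.2.2.2.2.1 - φ q.2.2.2.2.2)) <
    fs (sg q.1 * (φ q.2.1 - φ q.2.2.2.2.2)) + fs (sg q.1 * (φ q.2.2.1 - φ q.2.2.2.2.2))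

/-- The four angles of a test lie in the window around the reference angle. -/
def bwin (q : BT) (φ : ℕ → ℝ) : Prop :=
  |φ q.2.1 - φ q.2.2.2.2.2| < Real.pi / 6 ∧ |φ q.2.2.1 - φ q.2.2.2.2.2| < Real.pi / 6 ∧
    |φ q.2.2.2.1 - φ q.2.2.2.2.2| < Real.pi / 6 ∧ |φ q.2.2.2.2.1 - φ q.2.2.2.2.2| < Real.pi / 6

/-- Solvability arbitrarily close to zero. -/
def BNear (L : List BT) : Prop :=
  ∃ φ : ℝ → ℕ → ℝ, (∀ i, Tendsto (fun t => φ t i) (𝓝[>] 0) (𝓝 0)) ∧
    ∀ q ∈ L, ∀ᶠ t in 𝓝[>] 0, bholds q (φ t)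

/-- What a drawing of the gadgets guarantees. -/
def BSat (L : List BT) : Prop :=
  ∃ φ : ℕ → ℝ, ∀ q ∈ L, -(Real.pi / 6) < sg q.1 * (φ q.2.1 - φ q.2.2.2.2.2) ∧
    (bwin q φ → bholds q φ)

end Pool.Agent.MP_a4408f_lc

end
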