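import Mathlib
import Pool.Agent.MP_a4408f_lc.Defs
import Pool.Agent.Mg.F2e8011.G5feac5
import Pool.Agent.Mg.F2e8011.G86c0a0

section

/-! The language `CF` in terms of drawings in the complex plane. -/

namespace Pool.Agent.MP_a4408f_lc

open Pool.Agent.MP_485bb6_lc Pool.Agent.MP_2e8011_lc

/-- Edges or vertices without a common vertex are drawn as disjoint sets. -/
def Sep {V E : Type} [AddCommGroup E] [Module ℝ E] (S : Set V) (adj : V → V → Prop) (p : V → E) :
    Prop :=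
  ∀ u ∈ S, ∀ v ∈ S, ∀ u' ∈ S, ∀ v' ∈ S, (adj u v ∨ u = v) → (adj u' v' ∨ u' = v') →
    u ≠ u' → u ≠ v' → v ≠ u' → v ≠ v' → Disjoint (segment ℝ (p u) (p v)) (segment ℝ (p u') (p v'))

/-- A crossing-free drawing in the form of the problem statement. -/
structure Draw {V E : Type} [AddCommGroup E] [Module ℝ E] (S : Set V) (adj : V → V → Prop)
    (p : V → E) : Prop where
  inj : ∀ u ∈ S, ∀ v ∈ S, p u = p v → u = v
  cross : ∀ u ∈ S, ∀ v ∈ S, ∀ u' ∈ S, ∀ v' ∈ S, adj u v → adj u' v' →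
    ¬ ((u = u' ∧ v = v') ∨ (u = v' ∧ v = u')) →
    ∀ x ∈ segment ℝ (p u) (p v), x ∈ segment ℝ (p u') (p v') →
      ∃ w, (w = u ∨ w = v) ∧ (w = u' ∨ w = v') ∧ x = p w
  vert : ∀ u ∈ S, ∀ v ∈ S, ∀ w ∈ S, adj u v → p w ∉ openSegment ℝ (p u) (p v)

section
variable {V E : Type} [AddCommGroup E] [Module ℝ E] {S : Set V} {adj : V → V → Prop} {p : V → E}

lemma seg_common {a b c x : E} (h1 : x ∈ segment ℝ a b) (h2 : x ∈ segment ℝ a c) (hx : x ≠ a) :
    b ∈ segment ℝ a c ∨ c ∈ segment ℝ a b := by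
  rw [segment_eq_image] at h1 h2
  obtain ⟨s, ⟨hs0, hs1⟩, rfl⟩ := h1
  obtain ⟨t, ⟨ht0, ht1⟩, ht⟩ := h2
  simp only at ht hx
  have hs : s ≠ 0 := by rintro rfl; simp at hx
  have ht' : t ≠ 0 := by rintro rfl; apply hx; rw [← ht]; simp
  have hsp : 0 < s := lt_of_le_of_ne hs0 hs.symm
  have htp : 0 < t := lt_of_le_of_ne ht0 ht'.symm
  have key : t • (c - a) = s • (b - a) := by
    have : (1 - t) • a + t • c - a = (1 - s) • a + s • b - a := by rw [ht]
    simpa only [sub_smul, one_smul, smul_sub, show ∀ u v w : E, u - v + w - u = w - v from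
      fun u v w => by abel] using this
  rcases le_total t s with h | h
  · left
    rw [segment_eq_image']
    refine ⟨t / s, ⟨by positivity, (div_le_one hsp).2 h⟩, ?_⟩
    simp only
    rw [div_eq_inv_mul, mul_smul, key, smul_smul, inv_mul_cancel₀ hs, one_smul]
    abel
  · right
    rw [segment_eq_image']
    refine ⟨s / t, ⟨by positivity, (div_le_one htp).2 h⟩, ?_⟩
    simp only
    rw [div_eq_inv_mul, mul_smul, ← key, smul_smul, inv_mul_cancel₀ ht', one_smul]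
    abel

theorem Draw.sep (h : Draw S adj p) : Sep S adj p := by
  intro u hu v hv u' hu' v' hv' h1 h2 n1 n2 n3 n4
  rw [Set.disjoint_left]
  intro x hx hx'
  have vtx : ∀ a ∈ S, ∀ b ∈ S, ∀ w ∈ S, adj a b ∨ a = b → w ≠ a → w ≠ b →
      p w ∉ segment ℝ (p a) (p b) := by
    intro a ha b hb w hw hab m1 m2 hm
    rcases hab with hab | rfl
    · rw [← insert_endpoints_openSegment] at hm
      rcases hm with hm | hm | hm
      · exact m1 (h.inj _ hw _ ha hm)
      · exact m2 (h.inj _ hw _ hb hm)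
      · exact h.vert a ha b hb w hw hab hm
    · rw [segment_same] at hm
      exact m1 (h.inj _ hw _ ha hm)
  rcases h1 with h1 | rfl
  · rcases h2 with h2 | rfl
    · obtain ⟨w, hw1, hw2, -⟩ := h.cross u hu v hv u' hu' v' hv' h1 h2 (by tauto) x hx hx'
      rcases hw1 with rfl | rfl <;> rcases hw2 with rfl | rfl <;> contradiction
    · rw [segment_same] at hx'
      obtain rfl : x = p u' := hx'
      exact vtx u hu v hv u' hu' (Or.inl h1) n1.symm n3.symm hx
  · rw [segment_same] at hx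
    obtain rfl : x = p u := hx
    exact vtx u' hu' v' hv' u hu h2 n1 n2 hx'

theorem Sep.draw (h : Sep S adj p) (irr : ∀ u ∈ S, ¬ adj u u)
    (symm : ∀ u ∈ S, ∀ v ∈ S, adj u v → adj v u) : Draw S adj p := by
  have vtx : ∀ a ∈ S, ∀ b ∈ S, ∀ w ∈ S, adj a b ∨ a = b → w ≠ a → w ≠ b →
      p w ∉ segment ℝ (p a) (p b) := by
    intro a ha b hb w hw hab m1 m2 hm
    exact Set.disjoint_left.1 (h a ha b hb w hw w hw hab (Or.inr rfl) m1.symm m1.symm m2.symm m2.symm)
      hm (left_mem_segment _ _ _)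
  have inj : ∀ u ∈ S, ∀ v ∈ S, p u = p v → u = v := by
    intro u hu v hv huv
    by_contra hne
    exact vtx v hv v hv u hu (Or.inr rfl) hne hne (huv ▸ left_mem_segment _ _ _)
  have share : ∀ a ∈ S, ∀ b ∈ S, ∀ c ∈ S, adj a b → adj a c → b ≠ c →
      ∀ x ∈ segment ℝ (p a) (p b), x ∈ segment ℝ (p a) (p c) → x = p a := by
    intro a ha b hb c hc h1 h2 hbc x hx hx'
    by_contra hne
    have n1 : b ≠ a := by rintro rfl; exact irr _ ha h1
    have n2 : c ≠ a := by rintro rfl; exact irr _ ha h2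
    rcases seg_common hx hx' hne with h3 | h3
    · exact vtx a ha c hc b hb (Or.inl h2) n1 hbc h3
    · exact vtx a ha b hb c hc (Or.inl h1) n2 hbc.symm h3
  refine ⟨inj, fun u hu v hv u' hu' v' hv' h1 h2 hne x hx hx' => ?_, fun u hu v hv w hw h1 hm => ?_⟩
  · by_cases n1 : u = u'
    · subst n1
      exact ⟨u, Or.inl rfl, Or.inl rfl, share u hu v hv v' hv' h1 h2 (by tauto) x hx hx'⟩
    by_cases n2 : u = v'
    · subst n2
      exact ⟨u, Or.inl rfl, Or.inr rfl, share u hu v hv u' hu' h1 (symm _ hu' _ hu h2) (by tauto) x hx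
        (by rwa [segment_symm])⟩
    by_cases n3 : v = u'
    · subst n3
      exact ⟨v, Or.inr rfl, Or.inl rfl, share v hv u hu v' hv' (symm _ hu _ hv h1) h2 n2 x
        (by rwa [segment_symm]) hx'⟩
    by_cases n4 : v = v'
    · subst n4
      exact ⟨v, Or.inr rfl, Or.inr rfl, share v hv u hu u' hu' (symm _ hu _ hv h1)
        (symm _ hu' _ hv h2) n1 x (by rwa [segment_symm]) (by rwa [segment_symm])⟩
    exact absurd hx' (Set.disjoint_left.1
      (h u hu v hv u' hu' v' hv' (Or.inl h1) (Or.inl h2) n1 n2 n3 n4) hx)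
  · have huv : p u ≠ p v := fun e => irr u hu (by have := inj u hu v hv e; subst this; exact h1)
    by_cases n1 : w = u
    · subst n1
      exact huv (left_mem_openSegment_iff.1 hm)
    by_cases n2 : w = v
    · subst n2
      exact huv (right_mem_openSegment_iff.1 hm)
    exact vtx u hu v hv w hw (Or.inl h1) n1 n2 (openSegment_subset_segment _ _ _ hm)

lemma Sep.map {F : Type} [AddCommGroup F] [Module ℝ F] (h : Sep S adj p) (f : E →ₗ[ℝ] F)
    (hf : Function.Injective f) : Sep S adj fun v => f (p v) := by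
  intro u hu v hv u' hu' v' hv' h1 h2 n1 n2 n3 n4
  have := h u hu v hv u' hu' v' hv' h1 h2 n1 n2 n3 n4
  have e : ∀ a b : E, segment ℝ (f a) (f b) = f '' segment ℝ a b := fun a b =>
    (image_segment ℝ f.toAffineMap a b).symm
  rw [e, e]
  exact (Set.disjoint_image_iff hf).2 this

end

lemma crossingFree_iff {n : ℕ} (G : SimpleGraph (Fin n)) (p : Fin n → EuclideanSpace ℝ (Fin 2)) :
    CrossingFree G p ↔ Sep Set.univ G.Adj p := by
  constructor
  · rintro ⟨h1, h2, h3⟩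
    exact Draw.sep ⟨fun u _ v _ h => h1 h, fun u _ v _ u' _ v' _ => h2 u v u' v',
      fun u _ v _ w _ => h3 u v w⟩
  · intro h
    have := h.draw (fun u _ => G.irrefl) (fun u _ v _ h => h.symm)
    exact ⟨fun u v h => this.inj u trivial v trivial h,
      fun u v u' v' => this.cross u trivial v trivial u' trivial v' trivial,
      fun u v w => this.vert u trivial v trivial w trivial⟩

/-- The combinatorial conditions on the two matrices. -/
def Wf {V : Type} (S : Set V) (A B : V → V → Bool) : Prop :=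
  (∀ u ∈ S, A u u = false) ∧ ∀ u ∈ S, ∀ v ∈ S, A u v = A v u ∧ B u v = B v u ∧ (B u v = true → A u v = true)

/-- A crossing-free drawing in the complex plane with the right edge lengths. -/
def Real2 {V : Type} (S : Set V) (A B : V → V → Bool) (p : V → ℂ) : Prop :=
  Sep S (fun u v => A u v = true) p ∧
    ∀ u ∈ S, ∀ v ∈ S, A u v = true → (‖p u - p v‖ ≤ 1 ↔ B u v = true)

lemma cf_mat (n : ℕ) (A B : ℕ → ℕ → Bool) :
    CF (mat n n A ++ mat n n B) = true ↔ Wf {i | i < n} A B ∧ ∃ p, Real2 {i | i < n} A B p := by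
  classical
  let e : ℂ ≃ₗᵢ[ℝ] EuclideanSpace ℝ (Fin 2) := Complex.orthonormalBasisOneI.repr
  unfold CF
  rw [decide_eq_true_iff]
  constructor
  · rintro ⟨m, G, S, hSG, hx, p, hp, hl⟩
    rw [graphCode_eq, graphCode_eq] at hx
    have hmn : m = n := by
      have := congrArg List.length hx
      simp only [List.length_append, length_mat] at this
      exact Nat.mul_self_inj.1 (by omega)
    subst hmn
    obtain ⟨hA, hB⟩ := List.append_inj hx (by simp only [length_mat])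
    have hA' : ∀ i (hi : i < m) j (hj : j < m), A i j = decide (G.Adj ⟨i, hi⟩ ⟨j, hj⟩) := by
      intro i hi j hj
      rw [← getD_mat m m A hi hj, ← hA, getD_mat _ _ _ hi hj, dif_pos ⟨hi, hj⟩]
    have hB' : ∀ i (hi : i < m) j (hj : j < m), B i j = decide (S.Adj ⟨i, hi⟩ ⟨j, hj⟩) := by
      intro i hi j hj
      rw [← getD_mat m m B hi hj, ← hB, getD_mat _ _ _ hi hj, dif_pos ⟨hi, hj⟩]
    refine ⟨⟨fun u hu => by simp [hA' u hu u hu], fun u hu v hv => ?_⟩,
      fun i => if h : i < m then e.symm (p ⟨i, h⟩) else 0, ?_, fun u hu v hv h => ?_⟩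
    · rw [hA' u hu v hv, hA' v hv u hu, hB' u hu v hv, hB' v hv u hu]
      refine ⟨by simp [G.adj_comm], by simp [S.adj_comm], fun h => ?_⟩
      simpa using hSG (by simpa using h)
    · have h1 := ((crossingFree_iff G p).1 hp).map e.symm.toLinearEquiv.toLinearMap e.symm.injective
      intro u hu v hv u' hu' v' hv' a1 a2 n1 n2 n3 n4
      simp only [Set.mem_ofPred_eq] at hu hv hu' hv'
      simp only [dif_pos hu, dif_pos hv, dif_pos hu', dif_pos hv']
      refine h1 ⟨u, hu⟩ trivial ⟨v, hv⟩ trivial ⟨u', hu'⟩ trivial ⟨v', hv'⟩ trivial ?_ ?_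
        (by simpa using n1) (by simpa using n2) (by simpa using n3) (by simpa using n4)
      · simpa [hA' u hu v hv] using a1
      · simpa [hA' u' hu' v' hv'] using a2
    · simp only [Set.mem_ofPred_eq] at hu hv
      simp only [dif_pos hu, dif_pos hv]
      rw [hA' u hu v hv] at h
      rw [hB' u hu v hv, decide_eq_true_iff, ← hl _ _ (by simpa using h), ← map_sub,
        LinearIsometryEquiv.norm_map, dist_eq_norm]
  · rintro ⟨⟨h1, h2⟩, p, hp, hl⟩
    let G : SimpleGraph (Fin n) := ⟨fun i j => A i j = true,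
      ⟨fun i j h => by rwa [← (h2 i i.2 j j.2).1]⟩, ⟨fun i h => by simp [h1 i i.2] at h⟩⟩
    let S : SimpleGraph (Fin n) := ⟨fun i j => B i j = true,
      ⟨fun i j h => by rwa [← (h2 i i.2 j j.2).2.1]⟩,
      ⟨fun i h => by simpa [h1 i i.2] using (h2 i i.2 i i.2).2.2 h⟩⟩
    refine ⟨n, G, S, fun i j h => (h2 i i.2 j j.2).2.2 h, ?_, fun i => e (p i), ?_, fun u v h => ?_⟩
    · rw [graphCode_eq, graphCode_eq]
      congr 1 <;> refine eq_mat (length_mat _ _ _) fun i hi j hj => ?_ <;>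
        rw [getD_mat _ _ _ hi hj, dif_pos ⟨hi, hj⟩] <;> simp [G, S]
    · rw [crossingFree_iff]
      have h3 := hp.map e.toLinearEquiv.toLinearMap e.injective
      intro u _ v _ u' _ v' _ a1 a2 n1 n2 n3 n4
      exact h3 u u.2 v v.2 u' u'.2 v' v'.2 (by simpa [G, Fin.ext_iff] using a1)
        (by simpa [G, Fin.ext_iff] using a2) (by simpa [Fin.ext_iff] using n1)
        (by simpa [Fin.ext_iff] using n2) (by simpa [Fin.ext_iff] using n3)
        (by simpa [Fin.ext_iff] using n4)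
    · rw [dist_eq_norm, ← map_sub, LinearIsometryEquiv.norm_map]
      exact hl u u.2 v v.2 h

/-- The code of a labelled graph given by a list of vertices. -/
def bitsG {V : Type} (vs : List V) (d : V) (A B : V → V → Bool) : List Bool :=
  mat vs.length vs.length (fun i j => A (vs.getD i d) (vs.getD j d)) ++
    mat vs.length vs.length (fun i j => B (vs.getD i d) (vs.getD j d))

/-- The interface for the reduction. -/
theorem cf_bitsG {V : Type} {vs : List V} (hvs : vs.Nodup) (d : V) {A B : V → V → Bool}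
    (hW : Wf {v | v ∈ vs} A B) :
    CF (bitsG vs d A B) = true ↔ ∃ p, Real2 {v | v ∈ vs} A B p := by
  have hm : ∀ i ∈ {i | i < vs.length}, vs.getD i d ∈ {v | v ∈ vs} := fun i hi => getD_mem vs d hi
  have hinj : ∀ i ∈ {i | i < vs.length}, ∀ j ∈ {i | i < vs.length}, vs.getD i d = vs.getD j d → i = j := by
    intro i hi j hj h
    rw [List.getD_eq_getElem _ _ hi, List.getD_eq_getElem _ _ hj] at h
    exact (hvs.getElem_inj_iff).1 h
  unfold bitsG
  rw [cf_mat]
  constructor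
  · rintro ⟨-, p, hp, hl⟩
    have hidx : ∀ v : V, ∃ i, v ∈ vs → i < vs.length ∧ vs.getD i d = v := by
      intro v
      by_cases hv : v ∈ vs
      · obtain ⟨i, hi⟩ := exists_getD _ d hv
        exact ⟨i, fun _ => hi⟩
      · exact ⟨0, fun h => absurd h hv⟩
    choose ι hι using hidx
    have hne : ∀ u ∈ vs, ∀ v ∈ vs, u ≠ v → ι u ≠ ι v := fun u hu v hv h e =>
      h (by rw [← (hι u hu).2, ← (hι v hv).2, e])
    refine ⟨fun v => p (ι v), fun u hu v hv u' hu' v' hv' a1 a2 n1 n2 n3 n4 => ?_,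
      fun u hu v hv h => ?_⟩
    · refine hp _ (hι u hu).1 _ (hι v hv).1 _ (hι u' hu').1 _ (hι v' hv').1 ?_ ?_
        (hne _ hu _ hu' n1) (hne _ hu _ hv' n2) (hne _ hv _ hu' n3) (hne _ hv _ hv' n4)
      · simp only [(hι u hu).2, (hι v hv).2]
        exact a1.imp_right fun h => by rw [h]
      · simp only [(hι u' hu').2, (hι v' hv').2]
        exact a2.imp_right fun h => by rw [h]
    · have := hl _ (hι u hu).1 _ (hι v hv).1
      simp only [(hι u hu).2, (hι v hv).2] at this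
      exact this h
  · rintro ⟨p, hp, hl⟩
    refine ⟨⟨fun u hu => hW.1 _ (hm u hu), fun u hu v hv => hW.2 _ (hm u hu) _ (hm v hv)⟩,
      fun i => p (vs.getD i d), fun u hu v hv u' hu' v' hv' a1 a2 n1 n2 n3 n4 => ?_,
      fun u hu v hv h => hl _ (hm u hu) _ (hm v hv) h⟩
    exact hp _ (hm u hu) _ (hm v hv) _ (hm u' hu') _ (hm v' hv') (a1.imp_right fun h => by rw [h])
      (a2.imp_right fun h => by rw [h]) (fun h => n1 (hinj _ hu _ hu' h))
      (fun h => n2 (hinj _ hu _ hv' h)) (fun h => n3 (hinj _ hv _ hu' h))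
      (fun h => n4 (hinj _ hv _ hv' h))

/-- The code is computable in polynomial time. -/
theorem pt_bitsG {α V : Type} [Enc α] [Enc V] {vs : α → List V} (hvs : PT vs) (d : V)
    {A B : α → V → V → Bool} (hA : PT fun p : α × V × V => A p.1 p.2.1 p.2.2)
    (hB : PT fun p : α × V × V => B p.1 p.2.1 p.2.2) :
    PT fun a => bitsG (vs a) d (A a) (B a) := by
  have : Inhabited V := ⟨d⟩
  have h1 : PT fun p : (α × ℕ) × ℕ => A p.1.1 ((vs p.1.1).getD p.1.2 d) ((vs p.1.1).getD p.2 d) :=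
    hA.comp (f := fun p : (α × ℕ) × ℕ => (p.1.1, (vs p.1.1).getD p.1.2 d, (vs p.1.1).getD p.2 d))
      (by fun_prop)
  have h2 : PT fun p : (α × ℕ) × ℕ => B p.1.1 ((vs p.1.1).getD p.1.2 d) ((vs p.1.1).getD p.2 d) :=
    hB.comp (f := fun p : (α × ℕ) × ℕ => (p.1.1, (vs p.1.1).getD p.1.2 d, (vs p.1.1).getD p.2 d))
      (by fun_prop)
  unfold bitsG mat
  refine PT.append (PT.flatMap (PT.map h1 (by fun_prop)) (by fun_prop))
    (PT.flatMap (PT.map h2 (by fun_prop)) (by fun_prop))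

end Pool.Agent.MP_a4408f_lc

end

section

/-! Rigidity of crossing-free drawings of a triangulated region. -/

namespace Pool.Agent.MP_a4408f_lc

open Filter Topology

lemma seg_meet {a b c d : ℂ} (h1 : ar a b c ≤ 0) (h2 : 0 ≤ ar a b d) (h3 : ar c d b ≤ 0)
    (h4 : 0 ≤ ar c d a) (h5 : ar a b c < ar a b d) :
    ∃ x ∈ segment ℝ a b, x ∈ segment ℝ c d := by
  have e : ar c d a - ar c d b = ar a b d - ar a b c := by simp [ar, cr]; ring
  have hp : 0 < ar a b d - ar a b c := by linarith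
  refine ⟨a + (ar c d a / (ar a b d - ar a b c) : ℝ) * (b - a),
    mem_seg.2 ⟨_, by positivity, by rw [div_le_one hp]; linarith, rfl⟩,
    mem_seg.2 ⟨-ar a b c / (ar a b d - ar a b c), div_nonneg (by linarith) hp.le,
      by rw [div_le_one hp]; linarith, ?_⟩⟩
  apply Complex.ext
  · simp only [Complex.add_re, Complex.re_ofReal_mul]
    field_simp
    simp [ar, cr]; ring
  · simp only [Complex.add_im, Complex.im_ofReal_mul]
    field_simp
    simp [ar, cr]; ring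

lemma ins_lt {a b c x : ℂ} {M : ℝ} (h : Ins a b c x) (ha : a.re ≤ M) (hb : b.re ≤ M)
    (hc : c.re ≤ M) : x.re < M := by
  by_contra hx
  push Not at hx
  obtain ⟨h1, h2, h3⟩ := h
  have hi : (a.re - x.re) * ar b c x + (b.re - x.re) * ar c a x + (c.re - x.re) * ar a b x = 0 := by
    simp [ar, cr]; ring
  have e1 := mul_nonneg (sub_nonneg.2 (ha.trans hx)) h2.le
  have e2 := mul_nonneg (sub_nonneg.2 (hb.trans hx)) h3.le
  have e3 := mul_nonneg (sub_nonneg.2 (hc.trans hx)) h1.le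
  have f1 : x.re - a.re = 0 :=
    (mul_eq_zero.1 (show (x.re - a.re) * ar b c x = 0 by linarith)).resolve_right h2.ne'
  have f2 : x.re - b.re = 0 :=
    (mul_eq_zero.1 (show (x.re - b.re) * ar c a x = 0 by linarith)).resolve_right h3.ne'
  have : ar a b x = 0 := by
    simp only [ar, cr, Complex.sub_re, Complex.sub_im]
    rw [f1, show b.re - a.re = 0 by linarith]; ring
  linarith

/-- Strictly inside a triangle of either orientation. -/
def InsU (a b c x : ℂ) : Prop := Ins a b c x ∨ Ins a c b x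

lemma InsU.rot {a b c x : ℂ} (h : InsU a b c x) : InsU b c a x :=
  h.imp Ins.rot fun h => h.rot.rot

variable {V I : Type}

lemma Cn.insU {t : V × V × V} {u v w : V} (h : Cn t u v w) (p : V → ℂ) (x : ℂ) :
    onT p InsU t x ↔ InsU (p u) (p v) (p w) x := by
  rcases h with rfl | rfl | rfl
  · rfl
  · exact ⟨fun h => h.rot.rot, fun h => h.rot⟩
  · exact ⟨fun h => h.rot, fun h => h.rot.rot⟩

/-- A plane drawing of a graph. -/
structure PG (Vs : Set V) (A : V → V → Prop) (p : V → ℂ) : Prop where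
  sep : Sep Vs A p
  mem : ∀ u v, A u v → u ∈ Vs
  symm : ∀ u v, A u v → A v u
  irr : ∀ u v, A u v → u ≠ v

variable {Vs : Set V} {A : V → V → Prop} {p : V → ℂ}

lemma PG.nx (h : PG Vs A p) {a b c d : V} (h1 : A a b) (h2 : A c d) (n1 : a ≠ c) (n2 : a ≠ d)
    (n3 : b ≠ c) (n4 : b ≠ d) {x : ℂ} (x1 : x ∈ segment ℝ (p a) (p b))
    (x2 : x ∈ segment ℝ (p c) (p d)) : False :=
  Set.disjoint_left.1 (h.sep a (h.mem _ _ h1) b (h.mem _ _ (h.symm _ _ h1)) c (h.mem _ _ h2) d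
    (h.mem _ _ (h.symm _ _ h2)) (Or.inl h1) (Or.inl h2) n1 n2 n3 n4) x1 x2

lemma PG.nv (h : PG Vs A p) {a b w : V} (h1 : A a b) (hw : w ∈ Vs) (n1 : a ≠ w) (n2 : b ≠ w)
    (x1 : p w ∈ segment ℝ (p a) (p b)) : False :=
  Set.disjoint_left.1 (h.sep a (h.mem _ _ h1) b (h.mem _ _ (h.symm _ _ h1)) w hw w hw
    (Or.inl h1) (Or.inr rfl) n1 n1 n2 n2) x1 (left_mem_segment _ _ _)

lemma PG.ne (h : PG Vs A p) {a b : V} (h1 : A a b) : p a ≠ p b := fun e =>
  Set.disjoint_left.1 (h.sep a (h.mem _ _ h1) a (h.mem _ _ h1) b (h.mem _ _ (h.symm _ _ h1)) b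
    (h.mem _ _ (h.symm _ _ h1)) (Or.inr rfl) (Or.inr rfl) (h.irr _ _ h1) (h.irr _ _ h1)
    (h.irr _ _ h1) (h.irr _ _ h1)) (left_mem_segment _ _ _) (e ▸ left_mem_segment _ _ _)

lemma collinear_cases {a b c : ℂ} (hab : a ≠ b) (h : ar a b c = 0) :
    a ∈ segment ℝ c b ∨ c ∈ segment ℝ a b ∨ b ∈ segment ℝ a c := by
  have hn : 0 < (b - a).re ^ 2 + (b - a).im ^ 2 := by
    have := Complex.normSq_pos.2 (sub_ne_zero.2 hab.symm)
    rw [Complex.normSq_apply] at this
    nlinarith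
  obtain ⟨t, ht⟩ : ∃ t : ℝ, c = a + t * (b - a) := by
    refine ⟨((c - a).re * (b - a).re + (c - a).im * (b - a).im) / ((b - a).re ^ 2 + (b - a).im ^ 2), ?_⟩
    simp only [ar, cr] at h
    apply Complex.ext
    · simp only [Complex.add_re, Complex.re_ofReal_mul]
      field_simp
      simp only [Complex.sub_re, Complex.sub_im] at h ⊢
      linear_combination (a.im - b.im) * h
    · simp only [Complex.add_im, Complex.im_ofReal_mul]
      field_simp
      simp only [Complex.sub_re, Complex.sub_im] at h ⊢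
      linear_combination (b.re - a.re) * h
  rcases lt_or_ge t 0 with h0 | h0
  · left
    have h1 : 0 < 1 - t := by linarith
    refine mem_seg.2 ⟨-t / (1 - t), div_nonneg (by linarith) h1.le, by rw [div_le_one h1]; linarith, ?_⟩
    have h2 : (1 - (t : ℂ)) ≠ 0 := by exact_mod_cast h1.ne'
    rw [ht]; push_cast; field_simp; ring
  rcases le_or_gt t 1 with h1 | h1
  · exact Or.inr (Or.inl (mem_seg.2 ⟨t, h0, h1, ht⟩))
  · right; right
    have h2 : (t : ℂ) ≠ 0 := by exact_mod_cast (show t ≠ 0 by linarith)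
    refine mem_seg.2 ⟨1 / t, by positivity, by rw [div_le_one (by linarith)]; linarith, ?_⟩
    rw [ht]; push_cast; field_simp; ring

lemma PG.nondeg (h : PG Vs A p) {a b c : V} (h1 : A a b) (h2 : A b c) (h3 : A c a) :
    ar (p a) (p b) (p c) ≠ 0 := by
  intro e
  have n1 := h.irr _ _ h1
  have n2 := h.irr _ _ h2
  have n3 := h.irr _ _ h3
  rcases collinear_cases (h.ne h1) e with x | x | x
  · exact h.nv (h.symm _ _ h2) (h.mem _ _ h1) n3 n1.symm x
  · exact h.nv h1 (h.mem _ _ h3) n3.symm n2 x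
  · exact h.nv (h.symm _ _ h3) (h.mem _ _ h2) n1 n2.symm x

lemma PG.prop_aux (h : PG Vs A p) {a b c w w' : V} (h1 : A a b) (h2 : A b c) (h3 : A c a)
    (hw : A w w') (n : w ≠ a ∧ w ≠ b ∧ w ≠ c) (n' : w' ≠ a ∧ w' ≠ b ∧ w' ≠ c)
    (hi : Ins (p a) (p b) (p c) (p w)) : Ins (p a) (p b) (p c) (p w') := by
  by_contra hcon
  let x : ℝ → ℂ := fun t => p w + t * (p w' - p w)
  let g : ℝ → ℝ := fun t => min (ar (p a) (p b) (x t)) (min (ar (p b) (p c) (x t)) (ar (p c) (p a) (x t)))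
  have hg : Continuous g := by simp only [g, x]; fun_prop
  have g0 : 0 ≤ g 0 := by simpa [g, x] using ⟨hi.1.le, hi.2.1.le, hi.2.2.le⟩
  have g1 : g 1 ≤ 0 := by
    by_contra h4
    apply hcon
    simpa [g, x, Ins] using h4
  obtain ⟨t, ht, h0⟩ := intermediate_value_Icc' zero_le_one hg.continuousOn ⟨g1, g0⟩
  have hx : x t ∈ segment ℝ (p w) (p w') := mem_seg.2 ⟨t, ht.1, ht.2, rfl⟩
  have hc : Cl (p a) (p b) (p c) (x t) := by
    have : 0 ≤ g t := h0.ge
    simpa only [g, le_min_iff, Cl] using this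
  have hp := hi.pos
  have h5 : g t ≤ 0 := h0.le
  simp only [g, min_le_iff] at h5
  rcases h5 with h5 | h5 | h5
  · exact h.nx hw h1 n.1 n.2.1 n'.1 n'.2.1 hx (seg_of_cl hp hc (le_antisymm h5 hc.1))
  · exact h.nx hw h2 n.2.1 n.2.2 n'.2.1 n'.2.2 hx
      (seg_of_cl (by rwa [ar_rot]) hc.rot (le_antisymm h5 hc.2.1))
  · exact h.nx hw h3 n.2.2 n.1 n'.2.2 n'.1 hx
      (seg_of_cl (by rwa [← ar_rot]) hc.rot.rot (le_antisymm h5 hc.2.2))

lemma PG.prop (h : PG Vs A p) {a b c w w' : V} (h1 : A a b) (h2 : A b c) (h3 : A c a)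
    (hw : A w w') (n : w ≠ a ∧ w ≠ b ∧ w ≠ c) (n' : w' ≠ a ∧ w' ≠ b ∧ w' ≠ c)
    (hi : InsU (p a) (p b) (p c) (p w)) : InsU (p a) (p b) (p c) (p w') :=
  hi.imp (h.prop_aux h1 h2 h3 hw n n') (h.prop_aux (h.symm _ _ h3) (h.symm _ _ h2) (h.symm _ _ h1) hw
    ⟨n.1, n.2.2, n.2.1⟩ ⟨n'.1, n'.2.2, n'.2.1⟩)

lemma PG.fold_aux (h : PG Vs A p) {u v a b : V} (h1 : A u v) (h2 : A v a) (h3 : A a u) (h4 : A u b)
    (h5 : A b v) (n : a ≠ b) (p1 : 0 < ar (p u) (p v) (p a)) (p2 : 0 < ar (p u) (p v) (p b)) :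
    Ins (p u) (p v) (p a) (p b) ∨ Ins (p u) (p v) (p b) (p a) := by
  have n1 := h.irr _ _ h1
  have n2 := h.irr _ _ h2
  have n3 := h.irr _ _ h3
  have n4 := h.irr _ _ h4
  have n5 := h.irr _ _ h5
  have c1 : 0 ≤ ar (p u) (p a) (p b) → 0 ≤ ar (p v) (p a) (p b) → False := fun s1 s2 => by
    obtain ⟨x, x1, x2⟩ := seg_meet (a := p u) (b := p a) (c := p v) (d := p b)
      (by rw [ar_swap']; linarith) s1 (by rw [ar_swap']; linarith)
      (by rw [ar_rot]; exact p2.le) (by rw [ar_swap']; linarith)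
    exact h.nx (h.symm _ _ h3) (h.symm _ _ h5) n1 n4 n2.symm n x1 x2
  have c2 : ar (p u) (p a) (p b) ≤ 0 → ar (p v) (p a) (p b) ≤ 0 → False := fun s1 s2 => by
    obtain ⟨x, x1, x2⟩ := seg_meet (a := p v) (b := p a) (c := p b) (d := p u)
      s2 (by rw [ar_rot]; exact p1.le) (by rw [← ar_rot]; exact s1)
      (by rw [← ar_rot]; exact p2.le) (by rw [ar_rot (p u)]; linarith)
    exact h.nx h2 (h.symm _ _ h4) n5.symm n1.symm n n3 x1 x2
  rcases lt_trichotomy (ar (p u) (p a) (p b)) 0 with s1 | s1 | s1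
  · have s2 : 0 < ar (p v) (p a) (p b) := lt_of_not_ge fun s2 => c2 s1.le s2
    exact Or.inl ⟨p2, s2, by rw [ar_swap]; linarith⟩
  · rcases le_total 0 (ar (p v) (p a) (p b)) with s2 | s2
    · exact (c1 s1.ge s2).elim
    · exact (c2 s1.le s2).elim
  · have s2 : ar (p v) (p a) (p b) < 0 := lt_of_not_ge fun s2 => c1 s1.le s2
    exact Or.inr ⟨p1, by rw [ar_swap']; linarith, by rw [← ar_rot]; exact s1⟩

lemma PG.fold (h : PG Vs A p) {u v a b : V} (h1 : A u v) (h2 : A v a) (h3 : A a u) (h4 : A u b)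
    (h5 : A b v) (n : a ≠ b) (b1 : ¬ InsU (p u) (p v) (p a) (p b))
    (b2 : ¬ InsU (p v) (p u) (p b) (p a)) : 0 < ar (p u) (p v) (p a) ↔ 0 < ar (p v) (p u) (p b) := by
  have e1 := h.nondeg h1 h2 h3
  have e2 := h.nondeg (h.symm _ _ h1) h4 h5
  constructor
  · intro p1
    by_contra p2
    have p3 : 0 < ar (p u) (p v) (p b) := by
      rw [ar_swap]; have := lt_of_le_of_ne (not_lt.1 p2) e2; linarith
    rcases h.fold_aux h1 h2 h3 h4 h5 n p1 p3 with x | x
    · exact b1 (Or.inl x)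
    · exact b2 (Or.inr x.rot)
  · intro p2
    by_contra p1
    have p3 : 0 < ar (p v) (p u) (p a) := by
      rw [ar_swap]; have := lt_of_le_of_ne (not_lt.1 p1) e1; linarith
    rcases h.fold_aux (h.symm _ _ h1) h4 h5 h2 h3 n.symm p2 p3 with x | x
    · exact b2 (Or.inl x)
    · exact b1 (Or.inr x.rot)

lemma PG.cone (h : PG Vs A p) {w u v z : V} (h1 : A w u) (h2 : A u v) (h4 : A w z)
    (n1 : z ≠ u) (n2 : z ≠ v) (n3 : w ≠ v) (p1 : 0 < ar (p w) (p u) (p v))
    (p2 : 0 ≤ ar (p w) (p u) (p z)) (p3 : 0 < ar (p v) (p w) (p z)) :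
    Ins (p w) (p u) (p v) (p z) := by
  rcases le_or_gt (ar (p u) (p v) (p z)) 0 with s | s
  · exfalso
    obtain ⟨x, x1, x2⟩ := seg_meet (a := p u) (b := p v) (c := p z) (d := p w)
      s (by rw [ar_rot]; exact p1.le) (by rw [ar_swap, ar_rot (p v)]; linarith)
      (by rw [← ar_rot]; exact p2) (by rw [ar_rot (p w)]; linarith)
    exact h.nx h2 (h.symm _ _ h4) n1.symm (h.irr _ _ h1).symm n2.symm n3.symm x1 x2
  · rcases p2.eq_or_lt with e | e
    · exact (h.nv h1 (h.mem _ _ (h.symm _ _ h4)) (h.irr _ _ h4) n1.symm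
        (seg_of_cl p1 ⟨p2, s.le, p3.le⟩ e.symm)).elim
    · exact ⟨e, s, p3⟩

/-- The triangle contains a vertex. -/
def Bad (Vs : Set V) (p : V → ℂ) (t : V × V × V) : Prop := ∃ w ∈ Vs, ¬ Vt t w ∧ onT p InsU t (p w)

variable {S G : Finset I} {T : I → V × V × V} {Q : V → ℂ}

lemma ad_tri {i : I} (hi : i ∈ G) {u v w : V} (h : Cn (T i) u v w) :
    Ad G T u v ∧ Ad G T v w ∧ Ad G T w u :=
  ⟨⟨i, hi, w, Or.inl h⟩, ⟨i, hi, u, Or.inl h.rot⟩, ⟨i, hi, v, Or.inl h.rot.rot⟩⟩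

theorem PG.escape (h : PG Vs (Ad G T) p) (hQ : Emb S T Q) (hG : G ⊆ S) (hfin : Vs.Finite)
    (hF : ∀ w ∈ Vs, Full S T w) {Fr : V → Prop} (hFr : ∀ w ∈ Vs, Fr w ∨ Full G T w)
    (hcon : ∀ R : V → Prop, (∀ u v, Ad G T u v → Fr u → Fr v → R u → R v) →
      ∀ u ∈ Vs, ∀ v ∈ Vs, Fr u → Fr v → R u → R v)
    {i : I} (hi : i ∈ G) (hT : ∀ w, Fr w → ¬ Vt (T i) w) (hb : Bad Vs p (T i)) :
    ∀ w ∈ Vs, ¬ Vt (T i) w → onT p InsU (T i) (p w) := by
  obtain ⟨a1, a2, a3⟩ := ad_tri hi (cn_self (T i))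
  have step : ∀ u v, Ad G T u v → ¬ Vt (T i) u → ¬ Vt (T i) v → onT p InsU (T i) (p u) →
      onT p InsU (T i) (p v) := fun u v huv hu hv =>
    h.prop a1 a2 a3 huv (by simpa [Vt, not_or] using hu) (by simpa [Vt, not_or] using hv)
  have key : ∀ w ∈ Vs, ¬ Vt (T i) w → ∃ f ∈ Vs, Fr f ∧
      (onT p InsU (T i) (p w) ↔ onT p InsU (T i) (p f)) := by
    intro w hw hv
    have h1 : ¬ onT Q Cl (T i) (Q w) := fun e => hv (hQ.vertex (hF w hw) (hG hi) e)
    obtain ⟨a, b, c, hc, h2⟩ : ∃ a b c, Cn (T i) a b c ∧ ar (Q a) (Q b) (Q w) < 0 := by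
      simp only [onT, Cl, not_and_or, not_le] at h1
      rcases h1 with e | e | e
      exacts [⟨_, _, _, cn_self _, e⟩, ⟨_, _, _, (cn_self _).rot, e⟩, ⟨_, _, _, (cn_self _).rot.rot, e⟩]
    have hp := hQ.pos i (hG hi)
    rw [hc.ar] at hp
    have h3 : ∀ v, ar (Q a) (Q b) (Q v) < 0 → ¬ Vt (T i) v := fun v e hv => by
      rcases (hc.vt v).1 hv with rfl | rfl | rfl
      · simp at e
      · simp at e
      · linarith
    obtain ⟨v, ⟨hv1, hv2, hv3⟩, hmin⟩ := Set.exists_min_image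
      (Vs ∩ {v | ar (Q a) (Q b) (Q v) < 0 ∧ (onT p InsU (T i) (p w) ↔ onT p InsU (T i) (p v))})
      (fun v => ar (Q a) (Q b) (Q v)) (hfin.inter_of_left _) ⟨w, hw, h2, Iff.rfl⟩
    refine ⟨v, hv1, ?_, hv3⟩
    by_contra hf
    obtain ⟨k, hk, u1, u2, hc2, e1, e2⟩ := cone_cover (p := Q) (fun j hj => hQ.pos j (hG hj))
      ((hFr v hv1).resolve_left hf) (Q v - Complex.I * (Q b - Q a))
    have e3 := hQ.pos k (hG hk)
    rw [hc2.ar] at e3
    obtain ⟨b1, -, b3⟩ := ad_tri hk hc2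
    have nb : ∀ u, Ad G T v u → ar (Q a) (Q b) (Q v) ≤ ar (Q a) (Q b) (Q u) := fun u hu => by
      by_contra hlt
      push Not at hlt
      have h5 := h3 u (hlt.trans hv2)
      have h6 := h3 v hv2
      exact absurd (hmin u ⟨h.mem _ _ hu.symm, hlt.trans hv2,
        hv3.trans ⟨step v u hu h6 h5, step u v hu.symm h5 h6⟩⟩) (not_le.2 hlt)
    have f1 := nb u1 b1
    have f2 := nb u2 b3.symm
    have hn : 0 < (Q b - Q a).re ^ 2 + (Q b - Q a).im ^ 2 := by
      have := Complex.normSq_pos.2 (sub_ne_zero.2 (hQ.ne (hG hi) hc).symm)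
      rw [Complex.normSq_apply] at this
      nlinarith
    have id : -(ar (Q v) (Q u1) (Q u2) * ((Q b - Q a).re ^ 2 + (Q b - Q a).im ^ 2)) =
        ar (Q u2) (Q v) (Q v - Complex.I * (Q b - Q a)) *
          (ar (Q a) (Q b) (Q u1) - ar (Q a) (Q b) (Q v)) +
        ar (Q v) (Q u1) (Q v - Complex.I * (Q b - Q a)) *
          (ar (Q a) (Q b) (Q u2) - ar (Q a) (Q b) (Q v)) := by
      simp [ar, cr]; ring
    nlinarith [mul_pos e3 hn, mul_nonneg e2 (sub_nonneg.2 f1), mul_nonneg e1 (sub_nonneg.2 f2)]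
  obtain ⟨w0, hw0, hv0, hi0⟩ := hb
  intro w hw hv
  obtain ⟨f0, m0, r0, e0⟩ := key w0 hw0 hv0
  obtain ⟨f1, m1, r1, e1⟩ := key w hw hv
  exact e1.2 (hcon (fun v => onT p InsU (T i) (p v))
    (fun u v huv hu hv => step u v huv (hT u hu) (hT v hv)) f0 m0 f1 m1 r0 r1 (e0.1 hi0))

lemma mutual_false {t t' : V × V × V} (h1 : ∀ w, Vt t' w → onT p InsU t (p w))
    (h2 : ∀ w, Vt t w → onT p InsU t' (p w)) : False := by
  have k : ∀ {a b c x : ℂ} {M : ℝ}, InsU a b c x → a.re ≤ M → b.re ≤ M → c.re ≤ M → x.re < M :=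
    fun h ha hb hc => h.elim (fun h => ins_lt h ha hb hc) fun h => ins_lt h ha hc hb
  obtain ⟨w, hw, hmax⟩ := Set.exists_max_image {t.1, t.2.1, t.2.2, t'.1, t'.2.1, t'.2.2}
    (fun w => (p w).re) (by simp) ⟨t.1, by simp⟩
  have hw' : Vt t w ∨ Vt t' w := by simpa [Vt, or_assoc] using hw
  rcases hw' with e | e
  · exact lt_irrefl _ (k (h2 w e) (hmax _ (by simp)) (hmax _ (by simp)) (hmax _ (by simp)))
  · exact lt_irrefl _ (k (h1 w e) (hmax _ (by simp)) (hmax _ (by simp)) (hmax _ (by simp)))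

end Pool.Agent.MP_a4408f_lc

end

section

/-! Angles: vertex sums, label lemmas and the gadget inequality. -/

namespace Pool.Agent.MP_a4408f_lc

open Real

/-- The angle at the first point. -/
noncomputable def ang (a b c : ℂ) : ℝ := EuclideanGeometry.angle b a c

lemma ang_comm (a b c : ℂ) : ang a c b = ang a b c := EuclideanGeometry.angle_comm _ _ _

lemma ang_nonneg (a b c : ℂ) : 0 ≤ ang a b c := EuclideanGeometry.angle_nonneg _ _ _
lemma ang_le_pi (a b c : ℂ) : ang a b c ≤ π := EuclideanGeometry.angle_le_pi _ _ _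

lemma ang_sum {a b : ℂ} (c : ℂ) (h : a ≠ b) : ang a b c + ang b c a + ang c a b = π := by
  have := EuclideanGeometry.angle_add_angle_add_angle_eq_pi c h
  unfold ang
  linarith [EuclideanGeometry.angle_comm c b a, EuclideanGeometry.angle_comm a c b,
    EuclideanGeometry.angle_comm a b c, EuclideanGeometry.angle_comm b c a]

lemma ne_of_ar {a b c : ℂ} (h : ar a b c ≠ 0) : a ≠ b ∧ b ≠ c ∧ c ≠ a := by
  refine ⟨?_, ?_, ?_⟩ <;> rintro rfl <;> simp at h

lemma ang_arg {a b c : ℂ} (h : 0 < ar a b c) :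
    ang a b c = ((c - a) / (b - a)).arg ∧ 0 < ang a b c ∧ ang a b c < π := by
  obtain ⟨n1, -, n3⟩ := ne_of_ar h.ne'
  have hb : b - a ≠ 0 := sub_ne_zero.2 n1.symm
  have hc : c - a ≠ 0 := sub_ne_zero.2 n3
  have him : 0 < ((c - a) / (b - a)).im := by
    rw [Complex.div_im, ← sub_div]
    refine div_pos ?_ (Complex.normSq_pos.2 hb)
    simp only [ar, cr] at h
    linarith
  have e : ang a b c = ((c - a) / (b - a)).arg := by
    rw [← ang_comm]
    unfold ang EuclideanGeometry.angle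
    rw [vsub_eq_sub, vsub_eq_sub, Complex.angle_eq_abs_arg hc hb,
      abs_of_nonneg (Complex.arg_nonneg_iff.2 him.le)]
  refine ⟨e, ?_, ?_⟩ <;> rw [e]
  · refine lt_of_le_of_ne (Complex.arg_nonneg_iff.2 him.le) fun h0 => ?_
    exact him.ne' (Complex.arg_eq_zero_iff.1 h0.symm).2
  · exact Complex.arg_lt_pi_iff.2 (Or.inr him.ne')

lemma ang_cos (a b c : ℂ) : ‖b - c‖ ^ 2 =
    ‖a - b‖ ^ 2 + ‖a - c‖ ^ 2 - 2 * ‖a - b‖ * ‖a - c‖ * cos (ang a b c) := by
  have := EuclideanGeometry.law_cos b a c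
  simp only [dist_eq_norm] at this
  rw [norm_sub_rev a b, norm_sub_rev a c]
  unfold ang
  linarith

lemma ang_lt_of_cos {a b c a' b' c' : ℂ} (h : cos (ang a' b' c') < cos (ang a b c)) :
    ang a b c < ang a' b' c' := by
  by_contra h1
  exact absurd (cos_le_cos_of_nonneg_of_le_pi (ang_nonneg _ _ _) (ang_le_pi _ _ _) (not_lt.1 h1))
    (not_le.2 h)

lemma angT2 {x y z : ℂ} (h : ar x y z ≠ 0) (h1 : ‖y - z‖ ≤ 1) (h2 : 1 < ‖x - z‖) :
    ang x y z < ang y x z := by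
  have hc : ¬ Collinear ℝ {z, y, x} := by
    intro hc
    obtain ⟨p0, v, hv⟩ := (collinear_iff_exists_forall_eq_smul_vadd _).1 hc
    obtain ⟨r1, e1⟩ := hv x (by simp)
    obtain ⟨r2, e2⟩ := hv y (by simp)
    obtain ⟨r3, e3⟩ := hv z (by simp)
    apply h
    rw [e1, e2, e3]
    simp [ar, cr]; ring
  have := (EuclideanGeometry.angle_lt_iff_dist_lt hc).2 (by
    rw [dist_eq_norm, dist_eq_norm, norm_sub_rev z y, norm_sub_rev z x]; linarith)
  rwa [← ang_comm x, ← ang_comm y]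

lemma angT3 {x y z x' y' z' : ℂ} (h : ar x y z ≠ 0) (h' : ar x' y' z' ≠ 0)
    (e : ‖x' - y'‖ = ‖x - y‖) (h0 : ‖x - y‖ ≤ 1) (h1 : 1 < ‖x - z‖) (h2 : ‖y - z‖ ≤ 1)
    (h3 : ‖x' - z'‖ ≤ 1) (h4 : 1 < ‖y' - z'‖) : ang x y z < ang x' y' z' := by
  refine ang_lt_of_cos (lt_trans (b := ‖x - y‖ / 2) ?_ ?_)
  · have k := ang_cos x' y' z'
    have t0 : 0 < ‖x - y‖ := norm_pos_iff.2 (sub_ne_zero.2 (ne_of_ar h).1)
    have b0 : 0 < ‖x' - z'‖ := norm_pos_iff.2 (sub_ne_zero.2 (ne_of_ar h').2.2.symm)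
    rw [e] at k
    by_contra hc
    push Not at hc
    have k1 := mul_le_mul_of_nonneg_left hc (show 0 ≤ 2 * ‖x - y‖ * ‖x' - z'‖ by positivity)
    have k2 : ‖x - y‖ ^ 2 ≤ 1 := by nlinarith
    nlinarith [mul_nonneg (sub_nonneg.2 h3) (show 0 ≤ 1 + ‖x' - z'‖ - ‖x - y‖ ^ 2 by linarith)]
  · have k := ang_cos x y z
    have t0 : 0 < ‖x - y‖ := norm_pos_iff.2 (sub_ne_zero.2 (ne_of_ar h).1)
    by_contra hc
    push Not at hc
    have k1 := mul_le_mul_of_nonneg_left hc (show 0 ≤ 2 * ‖x - y‖ * ‖x - z‖ by positivity)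
    have k2 : ‖x - y‖ ^ 2 ≤ 1 := by nlinarith
    have k3 : ‖y - z‖ ^ 2 ≤ 1 := by nlinarith [norm_nonneg (y - z)]
    nlinarith [mul_pos (sub_pos.2 h1) (show 0 < 1 + ‖x - z‖ - ‖x - y‖ ^ 2 by linarith)]

lemma ang_wrap {a b c : ℂ} (h : 0 < ar a b c) : ang a b c =
    (c - a).arg - (b - a).arg + if (c - a).arg < (b - a).arg then 2 * π else 0 := by
  obtain ⟨n1, -, n3⟩ := ne_of_ar h.ne'
  obtain ⟨e, h0, h1⟩ := ang_arg h
  have h2 := Complex.arg_div_coe_angle (sub_ne_zero.2 n3) (sub_ne_zero.2 n1.symm)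
  rw [← e, ← Real.Angle.coe_sub, Real.Angle.angle_eq_iff_two_pi_dvd_sub] at h2
  obtain ⟨k, hk⟩ := h2
  have a1 := Complex.neg_pi_lt_arg (c - a)
  have a2 := Complex.neg_pi_lt_arg (b - a)
  have a3 := Complex.arg_le_pi (c - a)
  have a4 := Complex.arg_le_pi (b - a)
  have hp := pi_pos
  split_ifs with hl
  · have k1 : (0 : ℝ) < k := by nlinarith
    have k2 : (k : ℝ) < 2 := by nlinarith
    have k3 : k = 1 := by
      have : (0 : ℤ) < k := by exact_mod_cast k1
      have : k < (2 : ℤ) := by exact_mod_cast k2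
      omega
    rw [k3] at hk; push_cast at hk; linarith
  · push Not at hl
    have k1 : (-1 : ℝ) < k := by nlinarith
    have k2 : (k : ℝ) < 1 := by nlinarith
    have k3 : k = 0 := by
      have : (-1 : ℤ) < k := by exact_mod_cast k1
      have : k < (1 : ℤ) := by exact_mod_cast k2
      omega
    rw [k3] at hk; push_cast at hk; linarith

lemma cr_arg (x y : ℂ) : cr x y = ‖x‖ * ‖y‖ * sin (y.arg - x.arg) := by
  have hx := Complex.norm_mul_cos_arg x
  have hx' := Complex.norm_mul_sin_arg x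
  have hy := Complex.norm_mul_cos_arg y
  have hy' := Complex.norm_mul_sin_arg y
  rw [cr, sin_sub, ← hx, ← hx', ← hy, ← hy']
  ring

section
variable {V I : Type} [DecidableEq V]

/-- The angle of a triangle at a vertex. -/
noncomputable def angAt (p : V → ℂ) (w : V) (t : V × V × V) : ℝ :=
  (if t.1 = w then ang (p t.1) (p t.2.1) (p t.2.2) else 0) +
    (if t.2.1 = w then ang (p t.2.1) (p t.2.2) (p t.1) else 0) +
    (if t.2.2 = w then ang (p t.2.2) (p t.1) (p t.2.1) else 0)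

/-- The antisymmetric function used for the angle sum. -/
noncomputable def fW (p : V → ℂ) (w u v : V) : ℝ :=
  (if u = w then (p v - p w).arg else 0) - (if v = w then (p u - p w).arg else 0)

lemma fW_anti (p : V → ℂ) (w u v : V) : fW p w v u = -fW p w u v := by simp [fW]

variable {Vs : Set V} {p Q : V → ℂ} {S G R : Finset I} {T : I → V × V × V}

theorem PG.vsum (h : PG Vs (Ad G T) p) (hQ : Emb S T Q) (hG : G ⊆ S) (hR : R ⊆ G)
    (hF : ∀ w ∈ Vs, Full S T w) (pos : ∀ i ∈ R, 0 < onT p ar (T i))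
    (nb : ∀ i ∈ R, ¬ Bad Vs p (T i)) {w : V} (hw : ∃ i ∈ R, Vt (T i) w)
    (tel : ∑ i ∈ R, bsum (fW p w) (T i) = 0) : ∑ i ∈ R, angAt p w (T i) = 2 * π := by
  classical
  let K : I → Prop := fun i => ∃ u v, Cn (T i) w u v ∧ (p v - p w).arg < (p u - p w).arg
  have cn : ∀ i ∈ R, ∀ u v, Cn (T i) w u v → angAt p w (T i) = ang (p w) (p u) (p v) ∧
      bsum (fW p w) (T i) = (p u - p w).arg - (p v - p w).arg ∧
      (K i ↔ (p v - p w).arg < (p u - p w).arg) := by
    intro i hi u v hc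
    have h1 := pos i hi
    rw [hc.ar] at h1
    obtain ⟨n1, n2, n3⟩ := ne_of_ar h1.ne'
    have m1 : u ≠ w := fun e => n1 (by rw [e])
    have m3 : v ≠ w := fun e => n3 (by rw [e])
    refine ⟨?_, ?_, fun ⟨u', v', hc', hl⟩ => ?_, fun hl => ⟨u, v, hc, hl⟩⟩
    · rcases hc with e | e | e <;> simp [angAt, e, m1, m3]
    · rcases hc with e | e | e <;> simp [bsum, fW, e, m1, m3] <;> ring
    · have : u' = u ∧ v' = v := by
        rcases hc with e | e | e <;> rcases hc' with e' | e' | e' <;> rw [e] at e' <;>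
          simp only [Prod.mk.injEq] at e' <;> obtain ⟨e1, e2, e3⟩ := e' <;> simp_all
      rwa [this.1, this.2] at hl
  have e1 : ∀ i ∈ R, angAt p w (T i) + bsum (fW p w) (T i) = if K i then 2 * π else 0 := by
    intro i hi
    by_cases hv : Vt (T i) w
    · obtain ⟨u, v, hc⟩ := hv.cn
      obtain ⟨c1, c2, c3⟩ := cn i hi u v hc
      have h1 := pos i hi
      rw [hc.ar] at h1
      rw [c1, c2, ang_wrap h1]
      simp only [c3]
      ring
    · have hK : ¬ K i := fun ⟨u, v, hc, _⟩ => hv ((hc.vt w).2 (Or.inl rfl))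
      simp only [Vt, not_or] at hv
      simp [hK, angAt, bsum, fW, Ne.symm hv.1, Ne.symm hv.2.1, Ne.symm hv.2.2]
  have e2 : ∑ i ∈ R, angAt p w (T i) = (R.filter K).card * (2 * π) := by
    have := Finset.sum_congr rfl e1
    rw [Finset.sum_add_distrib, tel, add_zero, ← Finset.sum_filter] at this
    simpa using this
  have e3 : 0 < ∑ i ∈ R, angAt p w (T i) := by
    obtain ⟨i, hi, hv⟩ := hw
    obtain ⟨u, v, hc⟩ := hv.cn
    refine Finset.sum_pos' (fun j _ => ?_) ⟨i, hi, ?_⟩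
    · unfold angAt
      have := ang_nonneg
      refine add_nonneg (add_nonneg ?_ ?_) ?_ <;> split_ifs <;> simp [ang_nonneg]
    · have h1 := pos i hi
      rw [hc.ar] at h1
      rw [(cn i hi u v hc).1]
      exact (ang_arg h1).2.1
  have half : ∀ i ∈ R, ∀ j ∈ R, ∀ u v u' v', Cn (T i) w u v → Cn (T j) w u' v' →
      (p v - p w).arg < (p u - p w).arg → (p u - p w).arg ≤ (p u' - p w).arg → i = j := by
    intro i hi j hj u v u' v' c1 c2 l1 l2
    obtain ⟨a1, a2, a3⟩ := ad_tri (hR hi) c1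
    obtain ⟨b1, -, -⟩ := ad_tri (hR hj) c2
    by_cases e : u' = u
    · subst e
      exact hQ.uniq (hG (hR hi)) (hG (hR hj)) (hF _ (h.mem _ _ a2)) c1 c2
    exfalso
    have h1 := pos i hi
    rw [c1.ar] at h1
    have h2 := ang_wrap h1
    rw [if_pos l1] at h2
    have h3 := (ang_arg h1).2.2
    have a4 := Complex.neg_pi_lt_arg (p v - p w)
    have a5 := Complex.arg_le_pi (p u' - p w)
    have n0 : 0 < ‖p u' - p w‖ := norm_pos_iff.2 (sub_ne_zero.2 (h.ne b1).symm)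
    have n1 : 0 < ‖p v - p w‖ := norm_pos_iff.2 (sub_ne_zero.2 (h.ne a3))
    have s1 : 0 ≤ ar (p w) (p u) (p u') := by
      rw [ar, cr_arg]
      exact mul_nonneg (by positivity) (sin_nonneg_of_nonneg_of_le_pi (by linarith) (by linarith))
    have s2 : 0 < ar (p v) (p w) (p u') := by
      rw [← ar_rot, ar, cr_arg, ← sin_add_two_pi]
      exact mul_pos (by positivity) (sin_pos_of_pos_of_lt_pi (by linarith) (by linarith))
    have e' : u' ≠ v := by rintro rfl; linarith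
    refine nb i hi ⟨u', h.mem _ _ b1.symm, ?_, (c1.insU p _).2 (Or.inl
      (h.cone a1 a2 b1 e e' (h.irr _ _ a3).symm h1 s1 s2))⟩
    rw [c1.vt]
    simp [e, e', (h.irr _ _ b1).symm]
  have e4 : (R.filter K).card ≤ 1 := by
    refine Finset.card_le_one.2 fun i hi j hj => ?_
    obtain ⟨hi, u, v, c1, l1⟩ := Finset.mem_filter.1 hi
    obtain ⟨hj, u', v', c2, l2⟩ := Finset.mem_filter.1 hj
    rcases le_total (p u - p w).arg (p u' - p w).arg with l | l
    · exact half i hi j hj u v u' v' c1 c2 l1 l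
    · exact (half j hj i hi u' v' u v c2 c1 l2 l).symm
  have e5 : (R.filter K).card ≠ 0 := by
    intro e
    rw [e2, e] at e3
    simp at e3
  have e6 : (R.filter K).card = 1 := by omega
  rw [e2, e6]; simp

end

/-- Direction. -/
noncomputable def un (z : ℂ) : ℂ := z / ‖z‖

/-- Rotation. -/
noncomputable def ex (t : ℝ) : ℂ := Complex.exp (t * Complex.I)

lemma ex_add (s t : ℝ) : ex s * ex t = ex (s + t) := by
  simp only [ex, ← Complex.exp_add]; congr 1; push_cast; ring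

lemma un_ang {a b c : ℂ} (h : 0 < ar a b c) : un (c - a) = ex (ang a b c) * un (b - a) := by
  obtain ⟨n1, -, n3⟩ := ne_of_ar h.ne'
  have hb : b - a ≠ 0 := sub_ne_zero.2 n1.symm
  have hc : c - a ≠ 0 := sub_ne_zero.2 n3
  have hb' : ((‖b - a‖ : ℝ) : ℂ) ≠ 0 := by exact_mod_cast norm_ne_zero_iff.2 hb
  have hc' : ((‖c - a‖ : ℝ) : ℂ) ≠ 0 := by exact_mod_cast norm_ne_zero_iff.2 hc
  have := Complex.norm_mul_exp_arg_mul_I ((c - a) / (b - a))
  rw [← (ang_arg h).1, norm_div] at this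
  unfold un ex
  push_cast at this
  field_simp at this ⊢
  linear_combination -this

lemma un_rev (a b : ℂ) : un (a - b) = ex (-π) * un (b - a) := by
  unfold un ex
  rw [norm_sub_rev]
  push_cast
  rw [neg_mul, Complex.exp_neg, Complex.exp_pi_mul_I]
  ring

lemma norm_un (z : ℂ) : (‖z‖ : ℂ) * un z = z := by
  unfold un
  by_cases h : z = 0
  · simp [h]
  · have : ((‖z‖ : ℝ) : ℂ) ≠ 0 := by exact_mod_cast norm_ne_zero_iff.2 h
    field_simp

lemma sin_up {l A x : ℝ} (l0 : 0 ≤ l) (l1 : l ≤ 1) (hx : |x| < π / 6) (h0 : -π ≤ A)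
    (h1 : A ≤ π / 6 + x) : l * sin A ≤ fs x := by
  obtain ⟨x0, x1⟩ := abs_lt.1 hx
  have hp := pi_pos
  have f0 : 0 ≤ fs x := sin_nonneg_of_nonneg_of_le_pi (by linarith) (by linarith)
  rcases le_total A 0 with h | h
  · have := sin_nonpos_of_nonpos_of_neg_pi_le h h0
    nlinarith
  · have : sin A ≤ fs x := sin_le_sin_of_le_of_le_pi_div_two (by linarith) (by linarith) h1
    have := sin_nonneg_of_nonneg_of_le_pi h (by linarith)
    nlinarith

lemma sin_dn {l A x : ℝ} (l1 : 1 < l) (hx : |x| < π / 6) (h0 : A ≤ -(π / 6 + x))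
    (h1 : -(5 * π / 6 - x) ≤ A) : l * sin A < -fs x := by
  obtain ⟨x0, x1⟩ := abs_lt.1 hx
  have hp := pi_pos
  have f0 : 0 < fs x := sin_pos_of_pos_of_lt_pi (by linarith) (by linarith)
  have : fs x ≤ sin (-A) := by
    rcases le_total (-A) (π / 2) with h | h
    · exact sin_le_sin_of_le_of_le_pi_div_two (by linarith) h (by linarith)
    · rw [← sin_pi_sub]
      exact sin_le_sin_of_le_of_le_pi_div_two (by linarith) (by linarith) (by linarith)
  rw [sin_neg] at this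
  nlinarith

theorem gadget {q p s a b c : ℂ} (t1 : 0 < ar q p s) (t2 : 0 < ar q s a) (t3 : 0 < ar a s b)
    (t4 : 0 < ar s c b) (t5 : 0 < ar s p c) (l1 : ‖q - a‖ ≤ 1) (l2 : ‖a - b‖ ≤ 1)
    (l3 : 1 < ‖b - c‖) (l4 : 1 < ‖c - p‖) (l5 : 1 < ‖s - c‖) (l6 : ‖s - b‖ ≤ 1) (l7 : ‖s - p‖ ≤ 1)
    {x1 x2 x3 x4 : ℝ} (w1 : |x1| < π / 6) (w2 : |x2| < π / 6) (w3 : |x3| < π / 6)
    (w4 : |x4| < π / 6) {a1 i1 i2 i3 : ℝ} (d1 : a1 = ang q p s + ang q s a)
    (d2 : i1 = ang a q s + ang a s b) (d3 : i2 = ang b a s + ang b s c)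
    (d4 : i3 = ang c b s + ang c s p)
    (h1 : a1 ≤ π / 6 + x1) (h2 : a1 + i1 ≤ 7 * π / 6 + x2) (h3 : a1 + i1 + i2 ≤ 11 * π / 6 + x3)
    (h4 : -(i1 + i2 + i3) ≤ -2 * π + x1 - x4) (h5 : -(i2 + i3) ≤ -π + x2 - x4)
    (h6 : -i3 ≤ -π / 3 + x3 - x4) : fs (-x3) + fs x4 < fs x1 + fs x2 := by
  have t2' : 0 < ar a q s := by rwa [← ar_rot]
  have t3' : 0 < ar b a s := by rwa [← ar_rot]
  have t4' : 0 < ar b s c := by rwa [← ar_rot]
  have t4'' : 0 < ar c b s := by rwa [ar_rot]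
  have t5' : 0 < ar c s p := by rwa [← ar_rot]
  have u1 : un (a - q) = ex a1 * un (p - q) := by
    rw [un_ang t2, un_ang t1, ← mul_assoc, ex_add, d1, add_comm]
  have u2 : un (b - a) = ex (a1 + i1 - π) * un (p - q) := by
    rw [un_ang t3, un_ang t2', un_rev, u1]
    simp only [← mul_assoc, ex_add]
    congr 2; rw [d2]; ring
  have u3 : un (c - b) = ex (a1 + i1 + i2 - 2 * π) * un (p - q) := by
    rw [un_ang t4', un_ang t3', un_rev, u2]
    simp only [← mul_assoc, ex_add]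
    congr 2; rw [d3]; ring
  have u4 : un (p - c) = ex (a1 + i1 + i2 + i3 - 3 * π) * un (p - q) := by
    rw [un_ang t5', un_ang t4'', un_rev, u3]
    simp only [← mul_assoc, ex_add]
    congr 2; rw [d4]; ring
  have hu : un (p - q) ≠ 0 := by
    intro e
    have := norm_un (p - q)
    rw [e, mul_zero] at this
    exact (ne_of_ar t1.ne').1 (sub_eq_zero.1 this.symm).symm
  have cl : (‖p - q‖ : ℂ) = ‖a - q‖ * ex a1 + ‖b - a‖ * ex (a1 + i1 - π) +
      ‖c - b‖ * ex (a1 + i1 + i2 - 2 * π) + ‖p - c‖ * ex (a1 + i1 + i2 + i3 - 3 * π) := by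
    refine mul_right_cancel₀ hu ?_
    simp only [add_mul, mul_assoc, ← u1, ← u2, ← u3, ← u4, norm_un]
    ring
  have cl2 : ∀ δ : ℝ, ‖p - q‖ * sin δ = ‖a - q‖ * sin (a1 + δ) + ‖b - a‖ * sin (a1 + i1 - π + δ) +
      ‖c - b‖ * sin (a1 + i1 + i2 - 2 * π + δ) + ‖p - c‖ * sin (a1 + i1 + i2 + i3 - 3 * π + δ) := by
    intro δ
    have := congrArg (fun z => (z * ex δ).im) cl
    simp only [add_mul, mul_assoc, ex_add] at this
    simpa only [ex, Complex.add_im, Complex.im_ofReal_mul, Complex.exp_ofReal_mul_I_im] using this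
  have hp := pi_pos
  have p1 : 0 < a1 := by rw [d1]; linarith [(ang_arg t1).2.1, (ang_arg t2).2.1]
  have p2 : 0 < i1 := by rw [d2]; linarith [(ang_arg t2').2.1, (ang_arg t3).2.1]
  have p3 : i3 < 2 * π / 3 := by
    have s1 := ang_sum s (ne_of_ar t4''.ne').1
    have s2 := ang_sum p (ne_of_ar t5'.ne').1
    have k1 := angT2 t4''.ne' (by rwa [norm_sub_rev]) (by rwa [norm_sub_rev])
    have k2 := angT2 (x := c) (y := s) (z := b) (by rw [ar_swap']; linarith) l6 (by rwa [norm_sub_rev])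
    have k3 := angT2 t5'.ne' l7 l4
    have k4 := angT2 (x := c) (y := p) (z := s) (by rw [ar_swap']; linarith)
      (by rwa [norm_sub_rev]) (by rwa [norm_sub_rev])
    rw [ang_comm c b s] at k2
    rw [ang_comm c s p] at k4
    rw [ang_comm b s c] at k1
    rw [ang_comm s p c] at k3
    rw [d4]
    linarith
  obtain ⟨x10, x11⟩ := abs_lt.1 w1
  obtain ⟨x30, x31⟩ := abs_lt.1 w3
  obtain ⟨x40, x41⟩ := abs_lt.1 w4
  obtain ⟨δ, e0, e1, e2, e3, e4⟩ : ∃ δ : ℝ, 0 ≤ δ ∧ a1 + δ ≤ π / 6 + x1 ∧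
      a1 + i1 - π + δ ≤ π / 6 + x2 ∧ a1 + i1 + i2 - 2 * π + δ ≤ -π / 6 + x3 ∧
      -5 * π / 6 + x4 ≤ a1 + i1 + i2 + i3 - 3 * π + δ := by
    rcases le_total (-5 * π / 6 + x4) (a1 + i1 + i2 + i3 - 3 * π) with h | h
    · exact ⟨0, le_rfl, by linarith, by linarith, by linarith, by linarith⟩
    · exact ⟨-5 * π / 6 + x4 - (a1 + i1 + i2 + i3 - 3 * π), by linarith, by linarith, by linarith,
        by linarith, by linarith⟩
  have g0 : 0 ≤ ‖p - q‖ * sin δ :=
    mul_nonneg (norm_nonneg _) (sin_nonneg_of_nonneg_of_le_pi e0 (by linarith))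
  have g1 := sin_up (norm_nonneg (a - q)) (by rwa [norm_sub_rev]) w1 (by linarith) e1
  have g2 := sin_up (norm_nonneg (b - a)) (by rwa [norm_sub_rev]) w2 (by linarith) e2
  have g3 := sin_dn (l := ‖c - b‖) (A := a1 + i1 + i2 - 2 * π + δ) (x := -x3)
    (by rwa [norm_sub_rev]) (by rwa [abs_neg]) (by linarith) (by linarith)
  have g4 := sin_dn (l := ‖p - c‖) (A := a1 + i1 + i2 + i3 - 3 * π + δ)
    (by rwa [norm_sub_rev]) w4 (by linarith) (by linarith)
  linarith [cl2 δ]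

end Pool.Agent.MP_a4408f_lc

end
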