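import Mathlib
import Pool.Agent.Mg.F2e8011.G46bb5b

section

/-! Complexes assembled from triangulated tiles on a coarse grid. -/

namespace Pool.Agent.MP_a4408f_lc

open Finset Real

/-- Vertices, and also local triangles. -/
abbrev Vx := ℕ × ℕ × ℕ

/-- Triangle indices. -/
abbrev Ix := (_ : ℕ × ℕ) × ℕ

/-- Offset and canonical name of a local vertex. -/
def loc (v : ℕ) : Vx :=
  if v < 16 then [(0, 0, 0), (0, 0, 3), (0, 0, 4), (0, 0, 5), (0, 0, 6), (1, 0, 0), (1, 0, 1), (1, 0, 2),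
    (1, 1, 0), (0, 1, 6), (0, 1, 5), (0, 1, 4), (0, 1, 3), (0, 1, 0), (0, 0, 2), (0, 0, 1)].getD v (0, 0, 0)
  else (0, 0, v)

/-- Global name of a local vertex. -/
def gl (i j v : ℕ) : Vx := (i + (loc v).1, j + (loc v).2.1, (loc v).2.2)

lemma loc_big {v : ℕ} (h : 16 ≤ v) : loc v = (0, 0, v) := by simp [loc, not_lt.2 h]

lemma gl_big (i j : ℕ) {v : ℕ} (h : 16 ≤ v) : gl i j v = (i, j, v) := by simp [gl, loc_big h]

lemma loc_prop (v : ℕ) : (loc v).1 ≤ 1 ∧ (loc v).2.1 ≤ 1 ∧ ((loc v).1 = 1 → (loc v).2.2 ≤ 2) ∧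
    ((loc v).2.1 = 1 → (loc v).2.2 = 0 ∨ 3 ≤ (loc v).2.2 ∧ (loc v).2.2 ≤ 6) ∧
    (v < 16 ↔ (loc v).2.2 ≤ 6) := by
  by_cases h : v < 16
  · interval_cases v <;> simp [loc]
  · rw [loc_big (not_lt.1 h)]; simp; omega

lemma loc_inj {u v : ℕ} (h : loc u = loc v) : u = v := by
  have h1 := (loc_prop u).2.2.2.2
  have h2 := (loc_prop v).2.2.2.2
  rw [h] at h1
  by_cases hu : u < 16
  · have hv : v < 16 := h2.2 (h1.1 hu)
    have : ∀ u < 16, ∀ v < 16, loc u = loc v → u = v := by decide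
    exact this u hu v hv h
  · have hv : ¬ v < 16 := fun hv => hu (h1.2 (h2.1 hv))
    rw [loc_big (not_lt.1 hu), loc_big (not_lt.1 hv)] at h
    simpa using h

lemma gl_inj (i j : ℕ) : Function.Injective (gl i j) := fun u v h => by
  simp only [gl, Prod.mk.injEq, Nat.add_left_cancel_iff] at h
  exact loc_inj (Prod.ext h.1 (Prod.ext h.2.1 h.2.2))

/-- Map a triple. -/
def m3 {α β : Type} (g : α → β) (t : α × α × α) : β × β × β := (g t.1, g t.2.1, g t.2.2)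

lemma Cn.map {α β : Type} (g : α → β) {t : α × α × α} {x y z : α} (h : Cn t x y z) :
    Cn (m3 g t) (g x) (g y) (g z) := by
  rcases h with rfl | rfl | rfl <;> simp [Cn, m3]

lemma Cn.unmap {α β : Type} {g : α → β} {t : α × α × α} {u v w : β} (h : Cn (m3 g t) u v w) :
    ∃ x y z, Cn t x y z ∧ u = g x ∧ v = g y ∧ w = g z := by
  simp only [Cn, m3, Prod.mk.injEq] at h
  rcases h with ⟨rfl, rfl, rfl⟩ | ⟨rfl, rfl, rfl⟩ | ⟨rfl, rfl, rfl⟩
  exacts [⟨_, _, _, cn_self t, rfl, rfl, rfl⟩, ⟨_, _, _, (cn_self t).rot.rot, rfl, rfl, rfl⟩,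
    ⟨_, _, _, (cn_self t).rot, rfl, rfl, rfl⟩]

/-- Directed edges. -/
def edges (l : List Vx) : List (ℕ × ℕ) :=
  l.flatMap fun t => [(t.1, t.2.1), (t.2.1, t.2.2), (t.2.2, t.1)]

/-- The reversed boundary. -/
def rbd : List (ℕ × ℕ) := (List.range 16).map fun s => ((s + 1) % 16, s)

/-- The triangles form a chain whose boundary is the standard cycle. -/
def TOk (l : List Vx) : Prop := (edges l ++ rbd).Perm ((edges l ++ rbd).map Prod.swap)

lemma mem_edges {l : List Vx} {x y : ℕ} : (x, y) ∈ edges l ↔ ∃ t ∈ l, ∃ z, Cn t x y z := by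
  simp only [edges, List.mem_flatMap, List.mem_cons, Prod.mk.injEq, List.not_mem_nil, or_false]
  refine exists_congr fun t => and_congr_right fun _ => ⟨?_, ?_⟩
  · rintro (⟨rfl, rfl⟩ | ⟨rfl, rfl⟩ | ⟨rfl, rfl⟩)
    exacts [⟨_, cn_self t⟩, ⟨_, (cn_self t).rot⟩, ⟨_, (cn_self t).rot.rot⟩]
  · rintro ⟨z, rfl | rfl | rfl⟩ <;> simp

lemma TOk.swap {l : List Vx} (h : TOk l) {x y : ℕ} (hm : (x, y) ∈ edges l ++ rbd) :
    (y, x) ∈ edges l ++ rbd := by
  obtain ⟨⟨a, b⟩, hab, e⟩ := List.mem_map.1 (h.subset hm)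
  simp only [Prod.swap, Prod.mk.injEq] at e
  rwa [e.1, e.2] at hab

lemma mem_rbd {x y : ℕ} : (x, y) ∈ rbd ↔ y < 16 ∧ x = (y + 1) % 16 := by
  simp only [rbd, List.mem_map, List.mem_range, Prod.mk.injEq]
  exact ⟨fun ⟨s, h, e1, e2⟩ => by subst e2; exact ⟨h, e1.symm⟩, fun ⟨h, e⟩ => ⟨y, h, e.symm, rfl⟩⟩

lemma TOk.bd {l : List Vx} (h : TOk l) {s : ℕ} (hs : s < 16) :
    ∃ t ∈ l, ∃ z, Cn t s ((s + 1) % 16) z := by
  rcases List.mem_append.1 (h.swap (List.mem_append_right _ (mem_rbd.2 ⟨hs, rfl⟩))) with e | e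
  · exact mem_edges.1 e
  · have := mem_rbd.1 e
    omega

lemma TOk.sum {l : List Vx} (h : TOk l) {f : ℕ → ℕ → ℝ} (hf : ∀ u v, f v u = -f u v) :
    (l.map (bsum f)).sum = ∑ s ∈ range 16, f s ((s + 1) % 16) := by
  have h1 := (h.map fun e => f e.1 e.2).sum_eq
  rw [List.map_map] at h1
  have h2 : ((fun e : ℕ × ℕ => f e.1 e.2) ∘ Prod.swap) = fun e => -f e.1 e.2 :=
    funext fun e => hf _ _
  have h3 : ∀ L : List (ℕ × ℕ), (L.map fun e => -f e.1 e.2).sum = -(L.map fun e => f e.1 e.2).sum := by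
    intro L; induction L with
    | nil => simp
    | cons a L ih => simp only [List.map_cons, List.sum_cons, ih]; ring
  have h4 : ∀ l : List Vx, ((edges l).map fun e => f e.1 e.2).sum = (l.map (bsum f)).sum := by
    intro l; induction l with
    | nil => simp [edges]
    | cons a l ih =>
      simp only [edges, List.flatMap_cons, List.map_append, List.sum_append] at ih ⊢
      rw [ih]; simp [bsum]; ring
  have h5 : (rbd.map fun e => f e.1 e.2).sum = -∑ s ∈ range 16, f s ((s + 1) % 16) := by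
    rw [← sum_neg_distrib, rbd, List.map_map]
    exact congrArg List.sum (List.map_congr_left fun s _ => hf _ _)
  rw [h2, h3, List.map_append, List.sum_append, h4, h5] at h1
  linarith

lemma sum_getD {α : Type} (l : List α) (d : α) (f : α → ℝ) :
    ∑ t ∈ range l.length, f (l.getD t d) = (l.map f).sum := by
  induction l with
  | nil => simp
  | cons a l ih => rw [List.length_cons, sum_range_succ']; simp [← ih, add_comm]

variable (tr : ℕ → ℕ → List Vx)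

/-- The global triangles. -/
def TT (k : Ix) : Vx × Vx × Vx := m3 (gl k.1.1 k.1.2) ((tr k.1.1 k.1.2).getD k.2 (0, 0, 0))

/-- The triangles of a rectangle of tiles. -/
def Rect (a b c d : ℕ) : Finset Ix :=
  (Ico a b ×ˢ Ico c d).sigma fun x => range (tr x.1 x.2).length

variable {tr} {a b c d : ℕ}

lemma mem_rect {k : Ix} : k ∈ Rect tr a b c d ↔
    (a ≤ k.1.1 ∧ k.1.1 < b) ∧ (c ≤ k.1.2 ∧ k.1.2 < d) ∧ k.2 < (tr k.1.1 k.1.2).length := by
  simp [Rect, and_assoc]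

lemma rect_tri {k : Ix} (h : k ∈ Rect tr a b c d) :
    ∃ t ∈ tr k.1.1 k.1.2, TT tr k = m3 (gl k.1.1 k.1.2) t :=
  ⟨_, MP_485bb6_lc.getD_mem _ _ (mem_rect.1 h).2.2, rfl⟩

lemma tri_rect {i j : ℕ} (hi : a ≤ i ∧ i < b) (hj : c ≤ j ∧ j < d) {t : Vx} (ht : t ∈ tr i j) :
    ∃ k ∈ Rect tr a b c d, k.1 = (i, j) ∧ TT tr k = m3 (gl i j) t := by
  obtain ⟨n, hn, e⟩ := MP_485bb6_lc.exists_getD _ (0, 0, 0) ht
  exact ⟨⟨(i, j), n⟩, mem_rect.2 ⟨hi, hj, hn⟩, rfl, by simp only [TT, e]⟩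

lemma rect_mono {a' b' c' d' : ℕ} (h1 : a' ≤ a) (h2 : b ≤ b') (h3 : c' ≤ c) (h4 : d ≤ d') :
    Rect tr a b c d ⊆ Rect tr a' b' c' d' := fun k hk => by
  rw [mem_rect] at hk ⊢
  exact ⟨by omega, by omega, hk.2.2⟩

lemma rect_sum (F : Vx × Vx × Vx → ℝ) : ∑ k ∈ Rect tr a b c d, F (TT tr k) =
    ∑ x ∈ Ico a b ×ˢ Ico c d, ((tr x.1 x.2).map fun t => F (m3 (gl x.1 x.2) t)).sum := by
  rw [Rect, sum_sigma]
  exact sum_congr rfl fun x _ => sum_getD _ (0, 0, 0) fun t => F (m3 (gl x.1 x.2) t)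

/-- All tiles containing the vertex lie in the rectangle. -/
def Inn (a b c d : ℕ) (w : Vx) : Prop := w.1 < b ∧ w.2.1 < d ∧ a ≤ w.1 ∧ c ≤ w.2.1 ∧
  (w.2.2 ≤ 2 → a < w.1) ∧ (w.2.2 = 0 ∨ 3 ≤ w.2.2 ∧ w.2.2 ≤ 6 → c < w.2.1)

lemma Inn.tile {i j v : ℕ} (h : Inn a b c d (gl i j v)) : (a ≤ i ∧ i < b) ∧ (c ≤ j ∧ j < d) := by
  have := loc_prop v
  simp only [Inn, gl] at h
  omega

lemma nbr {i j s : ℕ} (hs : s < 16) (h : Inn a b c d (gl i j ((s + 1) % 16))) :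
    ∃ i' j', ∃ s' < 16, gl i' j' s' = gl i j ((s + 1) % 16) ∧ gl i' j' ((s' + 1) % 16) = gl i j s := by
  have ht := h.tile
  by_cases h1 : s < 5
  · refine ⟨i, j - 1, 12 - s, by omega, ?_⟩
    interval_cases s <;> simp [Inn, gl, loc] at h ⊢ <;> omega
  by_cases h2 : s < 8
  · refine ⟨i + 1, j, 20 - s, by omega, ?_⟩
    interval_cases s <;> simp [gl, loc]
  by_cases h3 : s < 13
  · refine ⟨i, j + 1, 12 - s, by omega, ?_⟩
    interval_cases s <;> simp [gl, loc]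
  · refine ⟨i - 1, j, 20 - s, by omega, ?_⟩
    interval_cases s <;> simp [Inn, gl, loc] at h ⊢ <;> omega

theorem full_of_inn (hT : ∀ i j, TOk (tr i j)) {w : Vx} (h : Inn a b c d w)
    (hw : ∃ i j, ∃ t ∈ tr i j, Vt (m3 (gl i j) t) w) : Full (Rect tr a b c d) (TT tr) w := by
  constructor
  · obtain ⟨i, j, t, ht, hv⟩ := hw
    obtain ⟨u, v, hc⟩ := hv.cn
    obtain ⟨x, y, z, -, rfl, -, -⟩ := hc.unmap
    obtain ⟨k, hk, -, e⟩ := tri_rect h.tile.1 h.tile.2 ht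
    exact ⟨k, hk, e ▸ hv⟩
  · intro k hk u v hc
    obtain ⟨t, ht, e⟩ := rect_tri hk
    rw [e] at hc
    obtain ⟨x, y, z, hc', rfl, rfl, rfl⟩ := hc.unmap
    have h1 := (hT _ _).swap (List.mem_append_left _ (mem_edges.2 ⟨t, ht, y, hc'.rot.rot⟩))
    rcases List.mem_append.1 h1 with h2 | h2
    · obtain ⟨t', ht', z', hc2⟩ := mem_edges.1 h2
      obtain ⟨k', hk', -, e'⟩ := tri_rect h.tile.1 h.tile.2 ht'
      exact ⟨k', hk', _, e' ▸ hc2.map _⟩
    · obtain ⟨hs, rfl⟩ := mem_rbd.1 h2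
      obtain ⟨i', j', s', hs', e1, e2⟩ := nbr hs h
      obtain ⟨t', ht', z', hc2⟩ := (hT i' j').bd hs'
      rw [← e1] at h
      obtain ⟨k', hk', -, e'⟩ := tri_rect h.tile.1 h.tile.2 ht'
      exact ⟨k', hk', _, by rw [e', ← e1, ← e2]; exact hc2.map _⟩

/-- Sum along the bottom side. -/
def Hs (f : Vx → Vx → ℝ) (i j : ℕ) : ℝ := f (i, j, 0) (i, j, 3) + f (i, j, 3) (i, j, 4) +
  f (i, j, 4) (i, j, 5) + f (i, j, 5) (i, j, 6) + f (i, j, 6) (i + 1, j, 0)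

/-- Sum along the left side. -/
def Vs (f : Vx → Vx → ℝ) (i j : ℕ) : ℝ :=
  f (i, j, 0) (i, j, 1) + f (i, j, 1) (i, j, 2) + f (i, j, 2) (i, j + 1, 0)

theorem rect_tel (hT : ∀ i j, TOk (tr i j)) (hab : a ≤ b) (hcd : c ≤ d) {f : Vx → Vx → ℝ}
    (hf : ∀ u v, f v u = -f u v) : ∑ k ∈ Rect tr a b c d, bsum f (TT tr k) =
      ∑ i ∈ Ico a b, (Hs f i c - Hs f i d) + ∑ j ∈ Ico c d, (Vs f b j - Vs f a j) := by
  rw [rect_sum (bsum f)]
  have h1 : ∀ i j, ((tr i j).map fun t => bsum f (m3 (gl i j) t)).sum =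
      -(Hs f i (j + 1) - Hs f i j) + (Vs f (i + 1) j - Vs f i j) := by
    intro i j
    have := (hT i j).sum (f := fun u v => f (gl i j u) (gl i j v)) fun u v => hf _ _
    refine Eq.trans this ?_
    simp only [sum_range_succ, sum_range_zero, gl, loc, Hs, Vs]
    simp
    linarith [hf (i, j + 1, 0) (i, j + 1, 3), hf (i, j + 1, 3) (i, j + 1, 4),
      hf (i, j + 1, 4) (i, j + 1, 5), hf (i, j + 1, 5) (i, j + 1, 6),
      hf (i, j + 1, 6) (i + 1, j + 1, 0), hf (i, j, 0) (i, j, 1), hf (i, j, 1) (i, j, 2),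
      hf (i, j, 2) (i, j + 1, 0)]
  simp only [h1, sum_add_distrib]
  congr 1
  · rw [sum_product]
    refine sum_congr rfl fun i _ => ?_
    simp only [sum_neg_distrib]
    rw [sum_Ico_sub (fun j => Hs f i j) hcd]; ring
  · rw [sum_product_right]
    exact sum_congr rfl fun j _ => sum_Ico_sub (fun i => Vs f i j) hab

/-- The bottom side is monotone. -/
def HM (p : Vx → ℂ) (i j : ℕ) : Prop := (p (i, j, 0)).re ≤ (p (i, j, 3)).re ∧
  (p (i, j, 3)).re ≤ (p (i, j, 4)).re ∧ (p (i, j, 4)).re ≤ (p (i, j, 5)).re ∧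
  (p (i, j, 5)).re ≤ (p (i, j, 6)).re ∧ (p (i, j, 6)).re ≤ (p (i + 1, j, 0)).re

/-- The left side is vertical. -/
def VC (p : Vx → ℂ) (i j : ℕ) : Prop := (p (i, j, 0)).re = (p (i, j, 1)).re ∧
  (p (i, j, 1)).re = (p (i, j, 2)).re ∧ (p (i, j, 2)).re = (p (i, j + 1, 0)).re

theorem rect_emb (hT : ∀ i j, TOk (tr i j)) (hab : a ≤ b) (hcd : c ≤ d) {p : Vx → ℂ}
    (pos : ∀ i j, (a ≤ i ∧ i < b) → (c ≤ j ∧ j < d) → ∀ t ∈ tr i j, 0 < onT p ar (m3 (gl i j) t))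
    (h1 : ∀ i, a ≤ i → i < b → HM p i c ∧ HM p i d) (h2 : ∀ j, c ≤ j → j < d → VC p a j ∧ VC p b j) :
    Emb (Rect tr a b c d) (TT tr) p := by
  refine emb_of_wind (fun k hk => ?_) fun x => ?_
  · obtain ⟨t, ht, e⟩ := rect_tri hk
    rw [e]
    exact pos _ _ (mem_rect.1 hk).1 (mem_rect.1 hk).2.1 t ht
  rw [rect_tel hT hab hcd fun u v => cw_anti x _ _]
  let g : ℂ → ℝ := fun z => if z.re ≤ x.re then 1 else 0
  have k1 : ∀ u v : ℂ, u.re ≤ v.re → cw x u v ≤ 0 ∧ -cw x u v ≤ g u - g v := by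
    intro u v huv
    simp only [cw, g]
    split_ifs <;> simp_all <;> linarith
  have k2 : ∀ u v : ℂ, u.re = v.re → cw x u v = 0 := by
    intro u v huv
    simp only [cw, huv]
    split_ifs <;> simp_all <;> linarith
  have e1 : ∑ j ∈ Ico c d, (Vs (fun u v => cw x (p u) (p v)) b j -
      Vs (fun u v => cw x (p u) (p v)) a j) = 0 := by
    refine sum_eq_zero fun j hj => ?_
    obtain ⟨⟨a1, a2, a3⟩, b1, b2, b3⟩ := h2 j (mem_Ico.1 hj).1 (mem_Ico.1 hj).2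
    simp only [Vs, k2 _ _ a1, k2 _ _ a2, k2 _ _ a3, k2 _ _ b1, k2 _ _ b2, k2 _ _ b3]; simp
  have e2 : ∑ i ∈ Ico a b, (Hs (fun u v => cw x (p u) (p v)) i c -
      Hs (fun u v => cw x (p u) (p v)) i d) ≤
      ∑ i ∈ Ico a b, (-g (p (i + 1, d, 0)) - -g (p (i, d, 0))) := by
    refine sum_le_sum fun i hi => ?_
    obtain ⟨⟨a1, a2, a3, a4, a5⟩, b1, b2, b3, b4, b5⟩ := h1 i (mem_Ico.1 hi).1 (mem_Ico.1 hi).2
    simp only [Hs]
    linarith [(k1 _ _ a1).1, (k1 _ _ a2).1, (k1 _ _ a3).1, (k1 _ _ a4).1, (k1 _ _ a5).1,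
      (k1 _ _ b1).2, (k1 _ _ b2).2, (k1 _ _ b3).2, (k1 _ _ b4).2, (k1 _ _ b5).2]
  rw [sum_Ico_sub (fun i => -g (p (i, d, 0))) hab] at e2
  have e3 : g (p (a, d, 0)) ≤ 1 := by simp only [g]; split_ifs <;> norm_num
  have e4 : 0 ≤ g (p (b, d, 0)) := by simp only [g]; split_ifs <;> norm_num
  linarith

lemma tel_inn (hT : ∀ i j, TOk (tr i j)) (p : Vx → ℂ) {w : Vx} (h : Inn a b c d w) :
    ∑ k ∈ Rect tr a b c d, bsum (fW p w) (TT tr k) = 0 := by
  obtain ⟨i, j, e⟩ := w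
  simp only [Inn] at h
  rw [rect_tel hT (by omega) (by omega) (fW_anti p _)]
  have k : ∀ u v, u ≠ (i, j, e) → v ≠ (i, j, e) → fW p (i, j, e) u v = 0 := fun u v hu hv => by
    simp [fW, hu, hv]
  rw [sum_eq_zero, sum_eq_zero, add_zero]
  · intro y _
    simp (disch := simp only [ne_eq, Prod.mk.injEq]; omega) only [Vs, k]
    simp
  · intro y _
    simp (disch := simp only [ne_eq, Prod.mk.injEq]; omega) only [Hs, k]
    simp

/-- Total angle of a tile at a global vertex. -/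
noncomputable def Dg (tr : ℕ → ℕ → List Vx) (p : Vx → ℂ) (i j : ℕ) (w : Vx) : ℝ :=
  ((tr i j).map fun t => angAt p w (m3 (gl i j) t)).sum

/-- Total angle of a tile at a local vertex. -/
noncomputable def Dl (l : List Vx) (q : ℕ → ℂ) (v : ℕ) : ℝ := (l.map (angAt q v)).sum

lemma Dg_gl (p : Vx → ℂ) (i j v : ℕ) :
    Dg tr p i j (gl i j v) = Dl (tr i j) (fun x => p (gl i j x)) v := by
  simp only [Dg, Dl, angAt, m3, (gl_inj i j).eq_iff]
  rfl

lemma Dg_zero (p : Vx → ℂ) {i j : ℕ} {w : Vx} (h : ∀ v, gl i j v ≠ w) : Dg tr p i j w = 0 := by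
  simp [Dg, angAt, m3, h]

lemma sum4 (p : Vx → ℂ) {i j e : ℕ} (h : Inn a b c d (i + 1, j + 1, e)) :
    ∑ k ∈ Rect tr a b c d, angAt p (i + 1, j + 1, e) (TT tr k) =
      Dg tr p (i + 1) (j + 1) (i + 1, j + 1, e) + Dg tr p i (j + 1) (i + 1, j + 1, e) +
      Dg tr p (i + 1) j (i + 1, j + 1, e) + Dg tr p i j (i + 1, j + 1, e) := by
  rw [rect_sum (angAt p _)]
  let U : Finset (ℕ × ℕ) := {(i + 1, j + 1), (i, j + 1), (i + 1, j), (i, j)}
  have e1 : ∑ x ∈ Ico a b ×ˢ Ico c d, Dg tr p x.1 x.2 (i + 1, j + 1, e) =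
      ∑ x ∈ U, Dg tr p x.1 x.2 (i + 1, j + 1, e) := by
    rw [← sum_subset (inter_subset_left (s₂ := U)), ← sum_subset (inter_subset_right
      (s₁ := Ico a b ×ˢ Ico c d) (s₂ := U))]
    · intro x hx hx'
      refine Dg_zero p fun v hv => hx' (mem_inter.2 ⟨?_, hx⟩)
      rw [← hv] at h
      simpa [and_assoc] using h.tile
    · intro x hx hx'
      refine Dg_zero p fun v hv => hx' (mem_inter.2 ⟨hx, ?_⟩)
      have := loc_prop v
      obtain ⟨x1, x2⟩ := x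
      simp only [gl, Prod.mk.injEq] at hv
      simp only [U, mem_insert, mem_singleton, Prod.mk.injEq]
      omega
  refine Eq.trans e1 ?_
  simp only [U]
  rw [sum_insert (by simp), sum_insert (by simp), sum_insert (by simp), sum_singleton]
  ring

/-- Directions of the boundary edges relative to the first one. -/
noncomputable def th0 (D : ℕ → ℝ) (s : ℕ) : ℝ := ∑ r ∈ range s, (π - D (r + 1))

theorem potentials {D : ℕ → ℕ → ℕ → ℝ}
    (h0 : ∀ i j, (a ≤ i ∧ i < b) → (c ≤ j ∧ j < d) → ∑ r ∈ range 16, D i j r = 14 * π)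
    (h1 : ∀ i j, (a ≤ i ∧ i + 1 < b) → (c ≤ j ∧ j < d) →
      D i j 6 + D (i + 1) j 15 = 2 * π ∧ D i j 7 + D (i + 1) j 14 = 2 * π)
    (h2 : ∀ i j, (a ≤ i ∧ i < b) → (c ≤ j ∧ j + 1 < d) → D i j 12 + D i (j + 1) 1 = 2 * π ∧
      D i j 11 + D i (j + 1) 2 = 2 * π ∧ D i j 10 + D i (j + 1) 3 = 2 * π ∧
      D i j 9 + D i (j + 1) 4 = 2 * π)
    (h3 : ∀ i j, (a ≤ i ∧ i + 1 < b) → (c ≤ j ∧ j + 1 < d) →
      D (i + 1) (j + 1) 0 + D i (j + 1) 5 + D (i + 1) j 13 + D i j 8 = 2 * π) :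
    ∃ k : ℕ → ℕ → ℝ, (∀ i j, (a ≤ i ∧ i + 1 < b) → (c ≤ j ∧ j < d) →
        k i j + th0 (D i j) 6 = k (i + 1) j + th0 (D (i + 1) j) 14 - π) ∧
      ∀ i j, (a ≤ i ∧ i < b) → (c ≤ j ∧ j + 1 < d) →
        k i j + th0 (D i j) 11 - π = k i (j + 1) + th0 (D i (j + 1)) 1 ∧
        k i j + th0 (D i j) 9 - π = k i (j + 1) + th0 (D i (j + 1)) 3 := by
  let X : ℕ → ℕ → ℝ := fun i j => th0 (D i j) 5 + π - th0 (D (i + 1) j) 15
  let Y : ℕ → ℕ → ℝ := fun i j => th0 (D i j) 12 - π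
  let k : ℕ → ℕ → ℝ := fun i j => ∑ i' ∈ Ico a i, X i' c + ∑ j' ∈ Ico c j, Y i j'
  have kY : ∀ i j, c ≤ j → k i (j + 1) = k i j + Y i j := fun i j hj => by
    simp only [k, sum_Ico_succ_top hj]; ring
  have kX : ∀ i, a ≤ i ∧ i + 1 < b → ∀ j, c ≤ j → j < d → k (i + 1) j = k i j + X i j := by
    intro i hi j hj
    induction j, hj using Nat.le_induction with
    | base => intro _; simp only [k, sum_Ico_succ_top hi.1, Ico_self, sum_empty]; ring
    | succ j hj ih =>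
      intro hd
      rw [kY _ _ hj, kY _ _ hj, ih (by omega)]
      obtain ⟨e1, e2⟩ := h1 i j hi ⟨hj, by omega⟩
      obtain ⟨e3, e4, e5, e6⟩ := h2 i j ⟨hi.1, by omega⟩ ⟨hj, hd⟩
      have e7 := h3 i j hi ⟨hj, hd⟩
      have e8 := h0 (i + 1) (j + 1) ⟨by omega, hi.2⟩ ⟨by omega, hd⟩
      simp only [X, Y, th0, sum_range_succ, sum_range_zero] at e8 ⊢
      norm_num at e8 ⊢
      linarith
  refine ⟨k, fun i j hi hj => ?_, fun i j hi hj => ?_⟩
  · rw [kX i hi j hj.1 hj.2]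
    obtain ⟨e1, -⟩ := h1 i j hi hj
    simp only [X, th0, sum_range_succ, sum_range_zero]
    norm_num
    linarith
  · rw [kY i j hj.1]
    obtain ⟨e3, e4, e5, e6⟩ := h2 i j hi hj
    simp only [Y, th0, sum_range_succ, sum_range_zero]
    norm_num
    constructor <;> linarith

end Pool.Agent.MP_a4408f_lc

end

section

/-! Rigidity for tile complexes. -/

namespace Pool.Agent.MP_a4408f_lc

open Finset Real

/-- Reference coordinates of the boundary vertices. -/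
def bq (c : ℕ) : ℤ × ℤ :=
  [(0, 0), (0, 10000000), (0, 20000000), (10000000, 0), (20000000, 0), (30000000, 0),
    (40000000, 0)].getD c (0, 0)

/-- Reference coordinates of a local vertex. -/
def qloc (ql : List (ℤ × ℤ)) (v : ℕ) : ℤ × ℤ :=
  if v < 16 then (50000000 * (loc v).1 + (bq (loc v).2.2).1, 30000000 * (loc v).2.1 + (bq (loc v).2.2).2)
  else ql.getD (v - 16) (0, 0)

/-- Integer area. -/
def zar (a b c : ℤ × ℤ) : ℤ := (b.1 - a.1) * (c.2 - a.2) - (b.2 - a.2) * (c.1 - a.1)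

/-- Two triangles share an edge with opposite directions. -/
def share (t t' : Vx) : Bool :=
  (t'.2.1, t'.1) ∈ edges [t] ∨ (t'.2.2, t'.2.1) ∈ edges [t] ∨ (t'.1, t'.2.2) ∈ edges [t]

/-- The topological conditions on a tile. -/
structure Top (l : List Vx) (n : ℕ) (ql : List (ℤ × ℤ)) : Prop where
  ok : TOk l
  pos : ∀ t ∈ l, 0 < zar (qloc ql t.1) (qloc ql t.2.1) (qloc ql t.2.2)
  lt : ∀ t ∈ l, t.1 < n ∧ t.2.1 < n ∧ t.2.2 < n
  use : ∀ v, 16 ≤ v → v < n → ∃ t ∈ l, Vt t v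
  len : 16 ≤ n ∧ l.length = 2 * (n - 16) + 14
  dual : ∀ k < l.length, k = 0 ∨ ∃ m < k, share (l.getD m (0, 0, 0)) (l.getD k (0, 0, 0)) = true

lemma share_cn {t t' : Vx} (h : share t t' = true) : ∃ u v x y, Cn t u v x ∧ Cn t' v u y := by
  simp only [share, decide_eq_true_eq, mem_edges, List.mem_singleton, exists_eq_left] at h
  rcases h with ⟨z, h⟩ | ⟨z, h⟩ | ⟨z, h⟩
  exacts [⟨_, _, _, _, h, cn_self t'⟩, ⟨_, _, _, _, h, (cn_self t').rot⟩,
    ⟨_, _, _, _, h, (cn_self t').rot.rot⟩]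

lemma Top.used {l : List Vx} {n : ℕ} {ql : List (ℤ × ℤ)} (h : Top l n ql) {v : ℕ} (hv : v < n) :
    ∃ t ∈ l, Vt t v := by
  by_cases h1 : v < 16
  · obtain ⟨t, ht, z, hc⟩ := h.ok.bd h1
    exact ⟨t, ht, (hc.vt v).2 (Or.inl rfl)⟩
  · exact h.use v (not_lt.1 h1) hv

lemma vt_map {α β : Type} {g : α → β} {t : α × α × α} {w : β} :
    Vt (m3 g t) w ↔ ∃ v, Vt t v ∧ w = g v := by
  simp [Vt, m3, or_and_right, exists_or]

lemma lin_D {l : List Vx} {n : ℕ} (h : ∀ t ∈ l, t.1 < n ∧ t.2.1 < n ∧ t.2.2 < n) (q : ℕ → ℂ)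
    (μ : ℕ → ℝ) : ∑ v ∈ range n, μ v * Dl l q v =
      (l.map fun t => μ t.1 * ang (q t.1) (q t.2.1) (q t.2.2) + μ t.2.1 * ang (q t.2.1) (q t.2.2) (q t.1)
        + μ t.2.2 * ang (q t.2.2) (q t.1) (q t.2.1)).sum := by
  induction l with
  | nil => simp [Dl]
  | cons t l ih =>
    have ih := ih fun t ht => h t (List.mem_cons_of_mem _ ht)
    obtain ⟨h1, h2, h3⟩ := h t List.mem_cons_self
    simp only [Dl, List.map_cons, List.sum_cons, mul_add, sum_add_distrib] at ih ⊢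
    rw [ih]
    simp [angAt, mul_add, sum_add_distrib, h1, h2, h3]

variable {tr : ℕ → ℕ → List Vx} {nn : ℕ → ℕ → ℕ} {ql : ℕ → ℕ → List (ℤ × ℤ)}

/-- The reference drawing. -/
noncomputable def Qg (ql : ℕ → ℕ → List (ℤ × ℤ)) (w : Vx) : ℂ :=
  let z := if w.2.2 ≤ 6 then bq w.2.2 else (ql w.1 w.2.1).getD (w.2.2 - 16) (0, 0)
  ⟨50000000 * w.1 + z.1, 30000000 * w.2.1 + z.2⟩

lemma Qg_gl (i j v : ℕ) : Qg ql (gl i j v) =
    ⟨50000000 * i + (qloc (ql i j) v).1, 30000000 * j + (qloc (ql i j) v).2⟩ := by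
  by_cases h : v < 16
  · have := (loc_prop v).2.2.2.2.1 h
    simp only [Qg, gl, qloc, if_pos h, if_pos this]
    apply Complex.ext <;> simp <;> ring
  · simp [Qg, gl_big i j (not_lt.1 h), qloc, h, show ¬ v ≤ 6 by omega]

theorem Q_emb (hT : ∀ i j, Top (tr i j) (nn i j) (ql i j)) {a b c d : ℕ} (hab : a ≤ b) (hcd : c ≤ d) :
    Emb (Rect tr a b c d) (TT tr) (Qg ql) := by
  refine rect_emb (fun i j => (hT i j).ok) hab hcd (fun i j _ _ t ht => ?_) (fun i _ _ => ?_)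
    fun j _ _ => ?_
  · have h1 : (0 : ℝ) < zar (qloc (ql i j) t.1) (qloc (ql i j) t.2.1) (qloc (ql i j) t.2.2) := by
      exact_mod_cast (hT i j).pos t ht
    simp only [onT, m3, Qg_gl, ar, cr, Complex.sub_re, Complex.sub_im]
    simp only [zar] at h1
    push_cast at h1
    linarith
  · simp [HM, Qg, bq]; norm_num; linarith
  · simp [VC, Qg, bq]

/-- The vertices of the graph. -/
def VG (tr : ℕ → ℕ → List Vx) (W H : ℕ) : Set Vx :=
  {w | ∃ k ∈ Rect tr 1 (W + 1) 1 (H + 1), Vt (TT tr k) w}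

variable {W H : ℕ}

lemma mem_VG (hT : ∀ i j, Top (tr i j) (nn i j) (ql i j)) {w : Vx} : w ∈ VG tr W H ↔
    ∃ i j v, (1 ≤ i ∧ i < W + 1) ∧ (1 ≤ j ∧ j < H + 1) ∧ v < nn i j ∧ w = gl i j v := by
  constructor
  · rintro ⟨k, hk, hv⟩
    obtain ⟨t, ht, e⟩ := rect_tri hk
    rw [e, vt_map] at hv
    obtain ⟨v, hv, rfl⟩ := hv
    have := (hT _ _).lt t ht
    refine ⟨_, _, v, (mem_rect.1 hk).1, (mem_rect.1 hk).2.1, ?_, rfl⟩
    rcases hv with rfl | rfl | rfl <;> tauto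
  · rintro ⟨i, j, v, hi, hj, hv, rfl⟩
    obtain ⟨t, ht, h⟩ := (hT i j).used hv
    obtain ⟨k, hk, -, e⟩ := tri_rect hi hj ht
    exact ⟨k, hk, e ▸ vt_map.2 ⟨v, h, rfl⟩⟩

lemma inn_gl {a b c d i j : ℕ} (v : ℕ) (hi : a < i ∧ i + 1 < b) (hj : c < j ∧ j + 1 < d) :
    Inn a b c d (gl i j v) := by
  have := loc_prop v
  simp only [Inn, gl]
  omega

lemma full_VG (hT : ∀ i j, Top (tr i j) (nn i j) (ql i j)) {w : Vx} (hw : w ∈ VG tr W H)
    {a b c d : ℕ} (h : Inn a b c d w) : Full (Rect tr a b c d) (TT tr) w := by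
  obtain ⟨k, hk, hv⟩ := hw
  obtain ⟨t, ht, e⟩ := rect_tri hk
  exact full_of_inn (fun i j => (hT i j).ok) h ⟨_, _, t, ht, e ▸ hv⟩

lemma full_S (hT : ∀ i j, Top (tr i j) (nn i j) (ql i j)) {w : Vx} (hw : w ∈ VG tr W H) :
    Full (Rect tr 0 (W + 2) 0 (H + 2)) (TT tr) w := by
  refine full_VG hT hw ?_
  obtain ⟨i, j, v, hi, hj, -, rfl⟩ := (mem_VG hT).1 hw
  exact inn_gl v (by omega) (by omega)

lemma VG_finite : (VG tr W H).Finite := by
  refine ((Rect tr 1 (W + 1) 1 (H + 1)).finite_toSet.biUnion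
    (t := fun k => {(TT tr k).1, (TT tr k).2.1, (TT tr k).2.2}) fun i _ => by simp).subset ?_
  rintro v ⟨k, hk, h⟩
  simp only [Set.mem_iUnion]
  exact ⟨k, hk, h⟩

lemma frame_con (hT : ∀ i j, Top (tr i j) (nn i j) (ql i j)) (R : Vx → Prop)
    (hR : ∀ u v, Ad (Rect tr 1 (W + 1) 1 (H + 1)) (TT tr) u v → ¬ Inn 1 (W + 1) 1 (H + 1) u →
      ¬ Inn 1 (W + 1) 1 (H + 1) v → R u → R v) {u : Vx} (hu : u ∈ VG tr W H)
    (hf : ¬ Inn 1 (W + 1) 1 (H + 1) u) : R u ↔ R (1, 1, 0) := by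
  have lk : ∀ i j s, (1 ≤ i ∧ i < W + 1) → (1 ≤ j ∧ j < H + 1) → s < 16 →
      ¬ Inn 1 (W + 1) 1 (H + 1) (gl i j s) → ¬ Inn 1 (W + 1) 1 (H + 1) (gl i j ((s + 1) % 16)) →
      (R (gl i j s) ↔ R (gl i j ((s + 1) % 16))) := by
    intro i j s hi hj hs f1 f2
    obtain ⟨t, ht, z, hc⟩ := (hT i j).ok.bd hs
    obtain ⟨k, hk, -, e⟩ := tri_rect hi hj ht
    have ad := (ad_tri hk (e ▸ hc.map (gl i j))).1
    exact ⟨hR _ _ ad f1 f2, hR _ _ ad.symm f2 f1⟩
  obtain ⟨i0, j0, v, hi0, hj0, -, rfl⟩ := (mem_VG hT).1 hu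
  have hz : ∀ i y, (1 ≤ i ∧ i < W + 1) → y = 1 ∨ y = H + 1 → (R (i, y, 3) ↔ R (i, y, 0)) ∧
      (R (i, y, 4) ↔ R (i, y, 0)) ∧ (R (i, y, 5) ↔ R (i, y, 0)) ∧ (R (i, y, 6) ↔ R (i, y, 0)) ∧
      (R (i + 1, y, 0) ↔ R (i, y, 0)) := by
    rintro i y hi (rfl | rfl)
    · have k := fun s hs => lk i 1 s hi (by omega) hs
      have k0 := k 0 (by omega); have k1 := k 1 (by omega); have k2 := k 2 (by omega)
      have k3 := k 3 (by omega); have k4 := k 4 (by omega)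
      simp [gl, loc, Inn] at k0 k1 k2 k3 k4
      tauto
    · have k := fun s hs => lk i H s hi (by omega) hs
      have k0 := k 8 (by omega); have k1 := k 9 (by omega); have k2 := k 10 (by omega)
      have k3 := k 11 (by omega); have k4 := k 12 (by omega)
      simp [gl, loc, Inn] at k0 k1 k2 k3 k4
      tauto
  have vt : ∀ x j, (1 ≤ j ∧ j < H + 1) → x = 1 ∨ x = W + 1 → (R (x, j, 1) ↔ R (x, j, 0)) ∧
      (R (x, j, 2) ↔ R (x, j, 0)) ∧ (R (x, j + 1, 0) ↔ R (x, j, 0)) := by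
    rintro x j hj (rfl | rfl)
    · have k := fun s hs => lk 1 j s (by omega) hj hs
      have k0 := k 13 (by omega); have k1 := k 14 (by omega); have k2 := k 15 (by omega)
      simp [gl, loc, Inn] at k0 k1 k2
      tauto
    · have k := fun s hs => lk W j s (by omega) hj hs
      have k0 := k 5 (by omega); have k1 := k 6 (by omega); have k2 := k 7 (by omega)
      simp [gl, loc, Inn] at k0 k1 k2
      tauto
  have hc : ∀ y, y = 1 ∨ y = H + 1 → ∀ i, 1 ≤ i → i ≤ W + 1 → (R (i, y, 0) ↔ R (1, y, 0)) := by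
    intro y hy i hi
    induction i, hi using Nat.le_induction with
    | base => intro _; rfl
    | succ i hi ih => intro h; exact (hz i y ⟨hi, by omega⟩ hy).2.2.2.2.trans (ih (by omega))
  have vc : ∀ x, x = 1 ∨ x = W + 1 → ∀ j, 1 ≤ j → j ≤ H + 1 → (R (x, j, 0) ↔ R (x, 1, 0)) := by
    intro x hx j hj
    induction j, hj using Nat.le_induction with
    | base => intro _; rfl
    | succ j hj ih => intro h; exact (vt x j ⟨hj, by omega⟩ hx).2.2.trans (ih (by omega))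
  have c0 : ∀ x y, 1 ≤ x → x ≤ W + 1 → 1 ≤ y → y ≤ H + 1 →
      (x = 1 ∨ x = W + 1) ∨ (y = 1 ∨ y = H + 1) → (R (x, y, 0) ↔ R (1, 1, 0)) := by
    rintro x y h1 h2 h3 h4 (h | h)
    · exact (vc x h y h3 h4).trans (hc 1 (Or.inl rfl) x h1 h2)
    · exact (hc y h x h1 h2).trans (vc 1 (Or.inl rfl) y h3 h4)
  have lp := loc_prop v
  have hv : v < 16 := by
    by_contra h
    rw [gl_big _ _ (not_lt.1 h)] at hf
    simp only [Inn] at hf
    omega
  generalize hx : gl i0 j0 v = w at hf ⊢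
  obtain ⟨x, y, e⟩ := w
  simp only [gl, Prod.mk.injEq] at hx
  simp only [Inn] at hf
  have he : e ≤ 6 := by omega
  interval_cases e
  · exact c0 x y (by omega) (by omega) (by omega) (by omega) (by omega)
  · exact (vt x y (by omega) (by omega)).1.trans
      (c0 x y (by omega) (by omega) (by omega) (by omega) (by omega))
  · exact (vt x y (by omega) (by omega)).2.1.trans
      (c0 x y (by omega) (by omega) (by omega) (by omega) (by omega))
  · exact (hz x y (by omega) (by omega)).1.trans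
      (c0 x y (by omega) (by omega) (by omega) (by omega) (by omega))
  · exact (hz x y (by omega) (by omega)).2.1.trans
      (c0 x y (by omega) (by omega) (by omega) (by omega) (by omega))
  · exact (hz x y (by omega) (by omega)).2.2.1.trans
      (c0 x y (by omega) (by omega) (by omega) (by omega) (by omega))
  · exact (hz x y (by omega) (by omega)).2.2.2.1.trans
      (c0 x y (by omega) (by omega) (by omega) (by omega) (by omega))

variable {p : Vx → ℂ}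

theorem good_copy (hT : ∀ i j, Top (tr i j) (nn i j) (ql i j))
    (h : PG (VG tr W H) (Ad (Rect tr 1 (W + 1) 1 (H + 1)) (TT tr)) p) {a b a' b' c d : ℕ}
    (h1 : 2 ≤ a) (h2 : b < a') (h3 : b' ≤ W) (h4 : 2 ≤ c) (h5 : d ≤ H) (h6 : a ≤ b) (h7 : a' ≤ b') :
    (∀ k ∈ Rect tr a b c d, ¬ Bad (VG tr W H) p (TT tr k)) ∨
      ∀ k ∈ Rect tr a' b' c d, ¬ Bad (VG tr W H) p (TT tr k) := by
  by_contra hc
  push Not at hc
  obtain ⟨⟨k, hk, b1⟩, k', hk', b2⟩ := hc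
  have esc : ∀ k, (2 ≤ k.1.1 ∧ k.1.1 < W) → (2 ≤ k.1.2 ∧ k.1.2 < H) →
      k ∈ Rect tr 1 (W + 1) 1 (H + 1) → Bad (VG tr W H) p (TT tr k) →
      ∀ w ∈ VG tr W H, ¬ Vt (TT tr k) w → onT p InsU (TT tr k) (p w) := by
    intro k e1 e2 hk hb
    refine h.escape (Q_emb hT (Nat.zero_le (W + 2)) (Nat.zero_le (H + 2)))
      (rect_mono (by omega) (by omega) (by omega) (by omega)) VG_finite (fun w hw => full_S hT hw)
      (Fr := fun w => ¬ Inn 1 (W + 1) 1 (H + 1) w) (fun w hw => ?_) (fun R hR u hu v hv f1 f2 r => ?_)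
      hk (fun w hw hv => ?_) hb
    · by_cases e : Inn 1 (W + 1) 1 (H + 1) w
      · exact Or.inr (full_VG hT hw e)
      · exact Or.inl e
    · exact (frame_con hT R hR hv f2).2 ((frame_con hT R hR hu f1).1 r)
    · obtain ⟨v, -, rfl⟩ := vt_map.1 hv
      exact hw (inn_gl v (by omega) (by omega))
  have m1 := mem_rect.1 hk
  have m2 := mem_rect.1 hk'
  have g1 : k ∈ Rect tr 1 (W + 1) 1 (H + 1) := rect_mono (by omega) (by omega) (by omega) (by omega) hk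
  have g2 : k' ∈ Rect tr 1 (W + 1) 1 (H + 1) := rect_mono (by omega) (by omega) (by omega) (by omega) hk'
  have dj : ∀ w, Vt (TT tr k) w → Vt (TT tr k') w → False := by
    intro w e1 e2
    obtain ⟨v, -, rfl⟩ := vt_map.1 e1
    obtain ⟨v', -, e⟩ := vt_map.1 e2
    have := loc_prop v
    simp only [gl, Prod.mk.injEq] at e
    omega
  exact mutual_false (fun w hw => esc k (by omega) (by omega) g1 b1 w ⟨k', g2, hw⟩ fun e => dj w e hw)
    fun w hw => esc k' (by omega) (by omega) g2 b2 w ⟨k, g1, hw⟩ (dj w hw)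

theorem orient (hT : ∀ i j, Top (tr i j) (nn i j) (ql i j))
    (h : PG (VG tr W H) (Ad (Rect tr 1 (W + 1) 1 (H + 1)) (TT tr)) p) {a b c d : ℕ}
    (h1 : 1 ≤ a) (h3 : b ≤ W) (h4 : 1 ≤ c) (h5 : d ≤ H)
    (nb : ∀ k ∈ Rect tr a b c d, ¬ Bad (VG tr W H) p (TT tr k)) :
    (∀ k ∈ Rect tr a b c d, 0 < onT p ar (TT tr k)) ∨ ∀ k ∈ Rect tr a b c d, onT p ar (TT tr k) < 0 := by
  have sub : Rect tr a b c d ⊆ Rect tr 1 (W + 1) 1 (H + 1) :=
    rect_mono (by omega) (by omega) (by omega) (by omega)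
  have hQ := Q_emb hT (Nat.le_add_left 1 W) (Nat.le_add_left 1 H)
  have step : ∀ k ∈ Rect tr a b c d, ∀ k' ∈ Rect tr a b c d, ∀ u v x y, Cn (TT tr k) u v x →
      Cn (TT tr k') v u y → (0 < onT p ar (TT tr k) ↔ 0 < onT p ar (TT tr k')) := by
    intro k hk k' hk' u v x y c1 c2
    obtain ⟨a1, a2, a3⟩ := ad_tri (sub hk) c1
    obtain ⟨b1, b2, b3⟩ := ad_tri (sub hk') c2
    have q1 := hQ.pos k (sub hk)
    have q2 := hQ.pos k' (sub hk')
    rw [c1.ar] at q1 ⊢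
    rw [c2.ar] at q2 ⊢
    have n : x ≠ y := by rintro rfl; rw [ar_swap] at q2; linarith
    refine h.fold a1 a2 a3 b2 b3 n (fun e => nb k hk ⟨y, h.mem _ _ b3, ?_, (c1.insU p _).2 e⟩)
      fun e => nb k' hk' ⟨x, h.mem _ _ a3, ?_, (c2.insU p _).2 e⟩
    · rw [c1.vt]; simp [n.symm, (h.irr _ _ b2).symm, h.irr _ _ b3]
    · rw [c2.vt]; simp [n, (h.irr _ _ a2).symm, h.irr _ _ a3]
  let τ : ℕ → ℕ → Prop := fun i j => 0 < onT p ar (TT tr ⟨(i, j), 0⟩)
  have tile : ∀ i j, (a ≤ i ∧ i < b) → (c ≤ j ∧ j < d) → ∀ n < (tr i j).length,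
      (0 < onT p ar (TT tr ⟨(i, j), n⟩) ↔ τ i j) := by
    intro i j hi hj n
    induction n using Nat.strong_induction_on with
    | _ n ih =>
      intro hn
      rcases (hT i j).dual n hn with rfl | ⟨m, hm, hs⟩
      · rfl
      · obtain ⟨u, v, x, y, c1, c2⟩ := share_cn hs
        exact (step ⟨(i, j), m⟩ (mem_rect.2 ⟨hi, hj, by simp; omega⟩) ⟨(i, j), n⟩
          (mem_rect.2 ⟨hi, hj, hn⟩) _ _ _ _ (c1.map _) (c2.map _)).symm.trans (ih m hm (by omega))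
  have tile' : ∀ k ∈ Rect tr a b c d, (0 < onT p ar (TT tr k) ↔ τ k.1.1 k.1.2) := fun k hk =>
    tile _ _ (mem_rect.1 hk).1 (mem_rect.1 hk).2.1 _ (mem_rect.1 hk).2.2
  have link : ∀ i j i' j' s s', (a ≤ i ∧ i < b) → (c ≤ j ∧ j < d) → (a ≤ i' ∧ i' < b) →
      (c ≤ j' ∧ j' < d) → s < 16 → s' < 16 → gl i j s = gl i' j' ((s' + 1) % 16) →
      gl i j ((s + 1) % 16) = gl i' j' s' → (τ i j ↔ τ i' j') := by
    intro i j i' j' s s' hi hj hi' hj' hs hs' e1 e2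
    obtain ⟨t, ht, z, hc⟩ := (hT i j).ok.bd hs
    obtain ⟨t', ht', z', hc'⟩ := (hT i' j').ok.bd hs'
    obtain ⟨k, hk, f1, e⟩ := tri_rect hi hj ht
    obtain ⟨k', hk', f2, e'⟩ := tri_rect hi' hj' ht'
    have := step k hk k' hk' _ _ _ _ (e ▸ hc.map (gl i j)) (by rw [e', e1, e2]; exact hc'.map _)
    rwa [tile' k hk, tile' k' hk', f1, f2] at this
  have all : ∀ i, a ≤ i → i < b → ∀ j, c ≤ j → j < d → (τ i j ↔ τ a c) := by
    intro i hi hi' j hj hj'
    have e1 : ∀ j, c ≤ j → j < d → (τ i j ↔ τ i c) := by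
      intro j hj
      induction j, hj using Nat.le_induction with
      | base => intro _; rfl
      | succ j hj ih =>
        intro h
        exact (link i j i (j + 1) 11 1 (by omega) (by omega) (by omega) (by omega) (by omega)
          (by omega) (by simp [gl, loc]) (by simp [gl, loc])).symm.trans (ih (by omega))
    have e2 : ∀ i, a ≤ i → i < b → (τ i c ↔ τ a c) := by
      intro i hi
      induction i, hi using Nat.le_induction with
      | base => intro _; rfl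
      | succ i hi ih =>
        intro h
        exact (link i c (i + 1) c 6 14 (by omega) (by omega) (by omega) (by omega) (by omega)
          (by omega) (by simp [gl, loc]) (by simp [gl, loc])).symm.trans (ih (by omega))
    exact (e1 j hj hj').trans (e2 i hi hi')
  have fin : ∀ k ∈ Rect tr a b c d, (0 < onT p ar (TT tr k) ↔ τ a c) := fun k hk => by
    have m := mem_rect.1 hk
    exact (tile' k hk).trans (all _ m.1.1 m.1.2 _ m.2.1.1 m.2.1.2)
  by_cases e : τ a c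
  · exact Or.inl fun k hk => (fin k hk).2 e
  · refine Or.inr fun k hk => lt_of_le_of_ne (not_lt.1 fun x => e ((fin k hk).1 x)) ?_
    obtain ⟨a1, a2, a3⟩ := ad_tri (sub hk) (cn_self _)
    exact h.nondeg a1 a2 a3

/-- The angle system on a rectangle of tiles. -/
structure Ang (tr : ℕ → ℕ → List Vx) (nn : ℕ → ℕ → ℕ) (p : Vx → ℂ) (a b c d : ℕ)
    (θ : ℕ → ℕ → ℕ → ℝ) : Prop where
  pos : ∀ i j, (a ≤ i ∧ i < b) → (c ≤ j ∧ j < d) → ∀ t ∈ tr i j, 0 < onT (fun v => p (gl i j v)) ar t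
  int : ∀ i j, (a ≤ i ∧ i < b) → (c ≤ j ∧ j < d) → ∀ v, 16 ≤ v → v < nn i j →
    Dl (tr i j) (fun v => p (gl i j v)) v = 2 * π
  dif : ∀ i j s s', θ i j s - θ i j s' = th0 (Dl (tr i j) fun v => p (gl i j v)) s -
    th0 (Dl (tr i j) fun v => p (gl i j v)) s'
  hor : ∀ i j, (a ≤ i ∧ i + 1 < b) → (c ≤ j ∧ j < d) → θ i j 6 = θ (i + 1) j 14 - π
  ver : ∀ i j, (a ≤ i ∧ i < b) → (c ≤ j ∧ j + 1 < d) →
    θ i j 11 - π = θ i (j + 1) 1 ∧ θ i j 9 - π = θ i (j + 1) 3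

theorem ang_of_pos (hT : ∀ i j, Top (tr i j) (nn i j) (ql i j))
    (h : PG (VG tr W H) (Ad (Rect tr 1 (W + 1) 1 (H + 1)) (TT tr)) p) {a b c d : ℕ}
    (h1 : 1 ≤ a) (h3 : b ≤ W) (h4 : 1 ≤ c) (h5 : d ≤ H)
    (nb : ∀ k ∈ Rect tr a b c d, ¬ Bad (VG tr W H) p (TT tr k))
    (pos : ∀ k ∈ Rect tr a b c d, 0 < onT p ar (TT tr k)) : ∃ θ, Ang tr nn p a b c d θ := by
  let D : ℕ → ℕ → ℕ → ℝ := fun i j => Dl (tr i j) fun v => p (gl i j v)
  have pos' : ∀ i j, (a ≤ i ∧ i < b) → (c ≤ j ∧ j < d) → ∀ t ∈ tr i j,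
      0 < onT (fun v => p (gl i j v)) ar t := by
    intro i j hi hj t ht
    obtain ⟨k, hk, -, e⟩ := tri_rect hi hj ht
    have := pos k hk
    rwa [e] at this
  have vs : ∀ i j v e, v < nn (i + 1) (j + 1) → loc v = (0, 0, e) → Inn a b c d (i + 1, j + 1, e) →
      D (i + 1) (j + 1) v + Dg tr p i (j + 1) (i + 1, j + 1, e) +
      Dg tr p (i + 1) j (i + 1, j + 1, e) + Dg tr p i j (i + 1, j + 1, e) = 2 * π := by
    intro i j v e0 hv e1 hi
    have e : gl (i + 1) (j + 1) v = (i + 1, j + 1, e0) := by simp [gl, e1]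
    have hi' : Inn a b c d (gl (i + 1) (j + 1) v) := e ▸ hi
    obtain ⟨t, ht, hv⟩ := (hT _ _).used hv
    obtain ⟨k, hk, -, ek⟩ := tri_rect hi'.tile.1 hi'.tile.2 ht
    have := h.vsum (Q_emb hT (Nat.zero_le (W + 2)) (Nat.zero_le (H + 2)))
      (rect_mono (by omega) (by omega) (by omega) (by omega))
      (rect_mono (by omega) (by omega) (by omega) (by omega)) (fun w hw => full_S hT hw) pos nb
      ⟨k, hk, ek ▸ vt_map.2 ⟨v, hv, e.symm⟩⟩ (tel_inn (fun i j => (hT i j).ok) p hi)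
    rwa [sum4 p hi, ← e, Dg_gl, e] at this
  have z : ∀ i j x y e, (x = i + 1 ∧ ¬ e ≤ 2) ∨ (y = j + 1 ∧ ¬ (e = 0 ∨ 3 ≤ e ∧ e ≤ 6)) →
      Dg tr p i j (x, y, e) = 0 := by
    intro i j x y e he
    refine Dg_zero p fun v hv => ?_
    have := loc_prop v
    simp only [gl, Prod.mk.injEq] at hv
    omega
  have g : ∀ i j v w, gl i j v = w → Dg tr p i j w = D i j v := by
    rintro i j v w rfl; exact Dg_gl p i j v
  have int : ∀ i j, (a ≤ i ∧ i < b) → (c ≤ j ∧ j < d) → ∀ v, 16 ≤ v → v < nn i j → D i j v = 2 * π := by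
    intro i j hi hj v h16 hv
    obtain ⟨i, rfl⟩ : ∃ x, i = x + 1 := ⟨i - 1, by omega⟩
    obtain ⟨j, rfl⟩ : ∃ x, j = x + 1 := ⟨j - 1, by omega⟩
    have := vs i j v v hv (loc_big h16) (by simp only [Inn]; omega)
    rw [z i (j + 1) _ _ _ (by omega), z (i + 1) j _ _ _ (by omega), z i j _ _ _ (by omega)] at this
    linarith
  have n16 : ∀ i j, 16 ≤ nn i j := fun i j => (hT i j).len.1
  obtain ⟨k, k1, k2⟩ := potentials (a := a) (b := b) (c := c) (d := d) (D := D)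
    (fun i j hi hj => by
      have e1 := lin_D (hT i j).lt (fun v => p (gl i j v)) fun _ => 1
      simp only [one_mul] at e1
      rw [List.map_congr_left (g := fun _ => π) fun t ht =>
        ang_sum _ (ne_of_ar (pos' i j hi hj t ht).ne').1, ← sum_range_add_sum_Ico _ (n16 i j),
        sum_congr rfl fun v hv => int i j hi hj v (mem_Ico.1 hv).1 (mem_Ico.1 hv).2] at e1
      simp only [sum_const, Nat.card_Ico, List.map_const', List.sum_replicate, (hT i j).len.2,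
        nsmul_eq_mul] at e1
      push_cast at e1
      linarith)
    (fun i j hi hj => by
      obtain ⟨j, rfl⟩ : ∃ x, j = x + 1 := ⟨j - 1, by omega⟩
      have e1 := vs i j 15 1 (by have := n16 (i + 1) (j + 1); omega) rfl (by simp only [Inn]; omega)
      have e2 := vs i j 14 2 (by have := n16 (i + 1) (j + 1); omega) rfl (by simp only [Inn]; omega)
      rw [g i (j + 1) 6 (i + 1, j + 1, 1) rfl, z (i + 1) j _ _ _ (by omega), z i j _ _ _ (by omega)] at e1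
      rw [g i (j + 1) 7 (i + 1, j + 1, 2) rfl, z (i + 1) j _ _ _ (by omega), z i j _ _ _ (by omega)] at e2
      constructor <;> linarith)
    (fun i j hi hj => by
      obtain ⟨i, rfl⟩ : ∃ x, i = x + 1 := ⟨i - 1, by omega⟩
      have e1 := vs i j 1 3 (by have := n16 (i + 1) (j + 1); omega) rfl (by simp only [Inn]; omega)
      have e2 := vs i j 2 4 (by have := n16 (i + 1) (j + 1); omega) rfl (by simp only [Inn]; omega)
      have e3 := vs i j 3 5 (by have := n16 (i + 1) (j + 1); omega) rfl (by simp only [Inn]; omega)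
      have e4 := vs i j 4 6 (by have := n16 (i + 1) (j + 1); omega) rfl (by simp only [Inn]; omega)
      rw [z i (j + 1) _ _ _ (by omega), g (i + 1) j 12 (i + 1, j + 1, 3) rfl, z i j _ _ _ (by omega)] at e1
      rw [z i (j + 1) _ _ _ (by omega), g (i + 1) j 11 (i + 1, j + 1, 4) rfl, z i j _ _ _ (by omega)] at e2
      rw [z i (j + 1) _ _ _ (by omega), g (i + 1) j 10 (i + 1, j + 1, 5) rfl, z i j _ _ _ (by omega)] at e3
      rw [z i (j + 1) _ _ _ (by omega), g (i + 1) j 9 (i + 1, j + 1, 6) rfl, z i j _ _ _ (by omega)] at e4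
      refine ⟨?_, ?_, ?_, ?_⟩ <;> linarith)
    (fun i j hi hj => by
      have e1 := vs i j 0 0 (by have := n16 (i + 1) (j + 1); omega) rfl (by simp only [Inn]; omega)
      rwa [g i (j + 1) 5 (i + 1, j + 1, 0) rfl, g (i + 1) j 13 (i + 1, j + 1, 0) rfl,
        g i j 8 (i + 1, j + 1, 0) rfl] at e1)
  exact ⟨fun i j s => k i j + th0 (D i j) s, pos', int, fun i j s s' => by simp [D], k1, k2⟩

theorem rigid (hT : ∀ i j, Top (tr i j) (nn i j) (ql i j))
    (h : PG (VG tr W H) (Ad (Rect tr 1 (W + 1) 1 (H + 1)) (TT tr)) p) {a b a' b' c d : ℕ}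
    (h1 : 2 ≤ a) (h2 : b < a') (h3 : b' ≤ W) (h4 : 2 ≤ c) (h5 : d ≤ H) (h6 : a ≤ b) (h7 : a' ≤ b') :
    ∃ p' : Vx → ℂ, (∀ u v, ‖p' u - p' v‖ = ‖p u - p v‖) ∧
      ∃ θ, Ang tr nn p' a b c d θ ∨ Ang tr nn p' a' b' c d θ := by
  have key : ∀ a b, 1 ≤ a → b ≤ W → (∀ k ∈ Rect tr a b c d, ¬ Bad (VG tr W H) p (TT tr k)) →
      ∃ p' : Vx → ℂ, (∀ u v, ‖p' u - p' v‖ = ‖p u - p v‖) ∧ ∃ θ, Ang tr nn p' a b c d θ := by
    intro a b e1 e2 nb
    rcases orient hT h e1 e2 (by omega) h5 nb with e | e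
    · exact ⟨p, fun _ _ => rfl, ang_of_pos hT h e1 e2 (by omega) h5 nb e⟩
    · have hc : ∀ a b c : ℂ, ar ((starRingEnd ℂ) a) ((starRingEnd ℂ) b) ((starRingEnd ℂ) c) =
          -ar a b c := fun a b c => by simp [ar, cr]; ring
      refine ⟨fun v => (starRingEnd ℂ) (p v), fun u v => by rw [← map_sub, Complex.norm_conj],
        ang_of_pos (p := fun v => (starRingEnd ℂ) (p v)) hT ⟨h.sep.map Complex.conjAe.toLinearMap Complex.conjAe.injective, h.mem, h.symm,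
          h.irr⟩ e1 e2 (by omega) h5 (fun k hk ⟨w, hw, hv, hi⟩ => nb k hk ⟨w, hw, hv, ?_⟩)
          fun k hk => ?_⟩
      · simp only [onT, InsU, Ins, hc] at hi ⊢
        rcases hi with ⟨x, y, z⟩ | ⟨x, y, z⟩
        · exact Or.inr ⟨by rwa [ar_swap], by rwa [ar_swap], by rwa [ar_swap]⟩
        · exact Or.inl ⟨by rwa [ar_swap], by rwa [ar_swap], by rwa [ar_swap]⟩
      · have := e k hk
        simp only [onT, hc] at this ⊢
        linarith
  rcases good_copy hT h h1 h2 h3 h4 h5 h6 h7 with e | e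
  · obtain ⟨p', e1, θ, e2⟩ := key a b (by omega) (by omega) e
    exact ⟨p', e1, θ, Or.inl e2⟩
  · obtain ⟨p', e1, θ, e2⟩ := key a' b' (by omega) (by omega) e
    exact ⟨p', e1, θ, Or.inr e2⟩

end Pool.Agent.MP_a4408f_lc

end

section

/-! Certificates for linear inequalities between angles in a tile. -/

namespace Pool.Agent.MP_a4408f_lc

open Finset Real

/-- A triangle with the labels (true = short) of its three sides. -/
abbrev TD := ℕ × ℕ × ℕ × Bool × Bool × Bool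

/-- Forget the labels. -/
def tri (t : TD) : Vx := (t.1, t.2.1, t.2.2.1)

/-- Rotate. -/
def rt (t : TD) : TD := (t.2.1, t.2.2.1, t.1, t.2.2.2.2.1, t.2.2.2.2.2, t.2.2.2.1)

/-- Default triangle. -/
def td0 : TD := (0, 0, 0, true, true, true)

/-- A corner. -/
def crn (l : List TD) (c : ℕ × ℕ) : TD :=
  if c.2 = 0 then l.getD c.1 td0 else if c.2 = 1 then rt (l.getD c.1 td0) else rt (rt (l.getD c.1 td0))

/-- The angle at the first vertex. -/
noncomputable def A1 (q : ℕ → ℂ) (t : TD) : ℝ := ang (q t.1) (q t.2.1) (q t.2.2.1)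

/-- The label is correct. -/
def Lb {V : Type} (q : V → ℂ) (u v : V) (s : Bool) : Prop := ‖q u - q v‖ ≤ 1 ↔ s = true

/-- The labels of the triangle are correct. -/
def Lab (q : ℕ → ℂ) (t : TD) : Prop :=
  Lb q t.1 t.2.1 t.2.2.2.1 ∧ Lb q t.2.1 t.2.2.1 t.2.2.2.2.1 ∧ Lb q t.2.2.1 t.1 t.2.2.2.2.2

/-- Positive with correct labels. -/
def Good (q : ℕ → ℂ) (t : TD) : Prop := 0 < ar (q t.1) (q t.2.1) (q t.2.2.1) ∧ Lab q t

lemma Good.rt {q : ℕ → ℂ} {t : TD} (h : Good q t) : Good q (rt t) :=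
  ⟨by simpa only [MP_a4408f_lc.rt, ar_rot (q t.1)] using h.1, h.2.2.1, h.2.2.2, h.2.1⟩

lemma good_crn {q : ℕ → ℂ} {l : List TD} (h : ∀ t ∈ l, Good q t) {c : ℕ × ℕ} (hc : c.1 < l.length) :
    Good q (crn l c) := by
  have := h _ (MP_485bb6_lc.getD_mem l td0 hc)
  unfold crn
  split_ifs
  exacts [this, this.rt, this.rt.rt]

/-- The first angle is smaller than the second, in one triangle. -/
def t2 (x y : TD) : Bool :=
  x.2.2.2.2.1 && ((y == rt x && !x.2.2.2.2.2) || (y == rt (rt x) && !x.2.2.2.1))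

/-- The first angle is smaller than the second, in two triangles with a common short base. -/
def t3 (x y : TD) : Bool :=
  x.2.2.2.2.1 && y.2.2.2.1 && y.2.2.2.2.2 && !y.2.2.2.2.1 && (y.2.1 == x.1 || y.2.2.1 == x.1) &&
    ((!x.2.2.2.2.2 && y.1 == x.2.1) || (!x.2.2.2.1 && y.1 == x.2.2.1))

lemma t2_ok {q : ℕ → ℂ} {x y : TD} (hx : Good q x) (h : t2 x y = true) : A1 q x < A1 q y := by
  obtain ⟨a, b, c, s1, s2, s3⟩ := x
  obtain ⟨h0, h1, h2, h3⟩ := hx
  simp only [t2, Bool.and_eq_true, Bool.or_eq_true, beq_iff_eq, Bool.not_eq_true'] at h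
  simp only [Lb] at h0 h1 h2 h3
  obtain ⟨rfl, ⟨rfl, rfl⟩ | ⟨rfl, rfl⟩⟩ := h
  · simp only [A1, rt]
    rw [ang_comm (q b) (q a)]
    exact angT2 h0.ne' (h2.2 rfl) (by rw [norm_sub_rev]; simpa using h3)
  · simp only [A1, rt]
    rw [← ang_comm (q a)]
    exact angT2 (by rw [ar_swap']; linarith) (by rw [norm_sub_rev]; exact h2.2 rfl) (by simpa using h1)

lemma t3_ok {q : ℕ → ℂ} {x y : TD} (hx : Good q x) (hy : Good q y) (h : t3 x y = true) :
    A1 q x < A1 q y := by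
  obtain ⟨a, b, c, s1, s2, s3⟩ := x
  obtain ⟨a', b', c', s1', s2', s3'⟩ := y
  obtain ⟨h0, h1, h2, h3⟩ := hx
  obtain ⟨g0, g1, g2, g3⟩ := hy
  simp only [t3, Bool.and_eq_true, Bool.or_eq_true, beq_iff_eq, Bool.not_eq_true'] at h
  simp only [Lb] at h0 h1 h2 h3 g0 g1 g2 g3
  obtain ⟨⟨⟨⟨⟨rfl, rfl⟩, rfl⟩, rfl⟩, e1⟩, e2⟩ := h
  have h2 := h2.2 rfl
  have g1 := g1.2 rfl
  have g3 := g3.2 rfl
  have g2 : 1 < ‖q b' - q c'‖ := by simpa using g2
  have h0' : ar (q a) (q c) (q b) ≠ 0 := by rw [ar_swap']; linarith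
  have g0' : ar (q a') (q c') (q b') ≠ 0 := by rw [ar_swap']; linarith
  simp only [A1]
  rcases e1 with rfl | rfl <;> rcases e2 with ⟨rfl, rfl⟩ | ⟨rfl, rfl⟩
  · exact angT3 h0.ne' g0.ne' (norm_sub_rev _ _) (by rwa [norm_sub_rev])
      (by rw [norm_sub_rev]; simpa using h3) h2 (by rwa [norm_sub_rev]) g2
  · rw [← ang_comm (q b')]
    exact angT3 h0' g0.ne' (norm_sub_rev _ _) (by rwa [norm_sub_rev])
      (by simpa using h1) (by rwa [norm_sub_rev]) (by rwa [norm_sub_rev]) g2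
  · rw [← ang_comm (q a')]
    exact angT3 h0.ne' g0' (norm_sub_rev _ _) g3
      (by rw [norm_sub_rev]; simpa using h3) h2 g1 (by rwa [norm_sub_rev])
  · rw [← ang_comm (q c'), ← ang_comm (q a')]
    exact angT3 h0' g0' (norm_sub_rev _ _) g3
      (by simpa using h1) (by rwa [norm_sub_rev]) g1 (by rwa [norm_sub_rev])

/-- A linear form in the corner angles. -/
abbrev LF := List ((ℕ × ℕ) × ℤ)

/-- Its value. -/
noncomputable def ev (q : ℕ → ℂ) (l : List TD) (es : LF) : ℝ :=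
  (es.map fun e => (e.2 : ℝ) * A1 q (crn l e.1)).sum

/-- Its coefficients. -/
def cf (es : LF) (k j : ℕ) : ℤ :=
  ((es.filter fun e => e.1.1 == k).map fun e => if e.1.2 = j then e.2 else 0).sum

lemma ev_eq (q : ℕ → ℂ) (l : List TD) (es : LF) (h : ∀ e ∈ es, e.1.1 < l.length ∧ e.1.2 < 3) :
    ev q l es = ∑ n ∈ range l.length, (cf es n 0 * A1 q (crn l (n, 0)) +
      cf es n 1 * A1 q (crn l (n, 1)) + cf es n 2 * A1 q (crn l (n, 2))) := by
  induction es with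
  | nil => simp [ev, cf]
  | cons e es ih =>
    have ih := ih fun e he => h e (List.mem_cons_of_mem _ he)
    obtain ⟨h1, h2⟩ := h e List.mem_cons_self
    obtain ⟨⟨n, k⟩, z⟩ := e
    have e : ∀ m j, cf (((n, k), z) :: es) m j = (if n = m then if k = j then z else 0 else 0) + cf es m j := by
      intro m j
      by_cases a : n = m <;> simp [cf, a]
    simp only [ev, e, List.map_cons, List.sum_cons, Int.cast_add, add_mul, sum_add_distrib] at ih ⊢
    rw [ih]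
    simp only at h1 h2
    interval_cases k <;> simp [h1] <;> ring

/-- A primitive inequality: low corner, high corner, coefficient, kind. -/
abbrev Pr := (ℕ × ℕ) × (ℕ × ℕ) × ℕ × ℕ

/-- The linear form of the primitive inequalities. -/
def pes (P : List Pr) : LF :=
  P.flatMap fun x => if x.2.2.2 = 0 then [(x.2.1, (x.2.2.1 : ℤ))]
    else [(x.2.1, (x.2.2.1 : ℤ)), (x.1, -(x.2.2.1 : ℤ))]

/-- Validity of a primitive inequality. -/
def prOk (l : List TD) (x : Pr) : Bool :=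
  x.2.2.2 == 0 || (decide (x.1.1 < l.length) && decide (x.2.1.1 < l.length) &&
    (t2 (crn l x.1) (crn l x.2.1) || t3 (crn l x.1) (crn l x.2.1)))

lemma ev_append (q : ℕ → ℂ) (l : List TD) (e1 e2 : LF) : ev q l (e1 ++ e2) = ev q l e1 + ev q l e2 := by
  simp [ev]

lemma pes_nonneg {q : ℕ → ℂ} {l : List TD} (h : ∀ t ∈ l, Good q t) (P : List Pr)
    (hP : ∀ x ∈ P, prOk l x = true) : 0 ≤ ev q l (pes P) := by
  induction P with
  | nil => simp [ev, pes]
  | cons x P ih =>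
    have ih := ih fun e he => hP e (List.mem_cons_of_mem _ he)
    have hx := hP x List.mem_cons_self
    simp only [pes, List.flatMap_cons] at ih ⊢
    rw [ev_append]
    refine add_nonneg ?_ ih
    split_ifs with h0
    · simp only [ev, List.map_cons, List.map_nil, List.sum_cons, List.sum_nil, add_zero]
      exact mul_nonneg (by positivity) (ang_nonneg _ _ _)
    · simp only [prOk, Bool.or_eq_true, beq_iff_eq, h0, false_or, Bool.and_eq_true,
        decide_eq_true_eq] at hx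
      have : A1 q (crn l x.1) < A1 q (crn l x.2.1) :=
        hx.2.elim (t2_ok (good_crn h hx.1.1)) (t3_ok (good_crn h hx.1.1) (good_crn h hx.1.2))
      simp only [ev, List.map_cons, List.map_nil, List.sum_cons, List.sum_nil, add_zero]
      push_cast
      nlinarith [Nat.cast_nonneg (α := ℝ) x.2.2.1]

/-- A certificate. -/
structure Ce where
  s1 : ℕ
  s0 : ℕ
  N : ℕ
  kap : ℤ
  E : LF
  P : List Pr
  mu : ℕ

/-- Vertex multipliers. -/
def Ce.muf (c : Ce) (v : ℕ) : ℤ := ((c.mu >>> (8 * v)) % 256 : ℕ) - 128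

/-- Triangle multipliers. -/
def Ce.lam (c : Ce) (l : List TD) (k : ℕ) : ℤ := cf (c.E ++ pes c.P) k 0 - c.muf (l.getD k td0).1

/-- The check of a certificate. -/
def Ce.ok (c : Ce) (l : List TD) (n : ℕ) : Bool :=
  decide (c.s1 < 16) && decide (c.s0 < 16) &&
  (List.range 16).all (fun v => c.muf v ==
    c.N * ((if 1 ≤ v ∧ v ≤ c.s1 then 1 else 0) - (if 1 ≤ v ∧ v ≤ c.s0 then 1 else 0))) &&
  decide (c.kap = c.N * ((c.s1 : ℤ) - c.s0) + ((List.range l.length).map (c.lam l)).sum +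
    2 * ((List.range (n - 16)).map fun v => c.muf (16 + v)).sum) &&
  c.P.all (prOk l) && (c.E ++ pes c.P).all (fun e => decide (e.1.1 < l.length) && decide (e.1.2 < 3)) &&
  (List.range l.length).all fun k =>
    cf (c.E ++ pes c.P) k 1 == c.lam l k + c.muf (l.getD k td0).2.1 &&
    cf (c.E ++ pes c.P) k 2 == c.lam l k + c.muf (l.getD k td0).2.2.1

lemma th0_eq (D : ℕ → ℝ) {s : ℕ} (hs : s < 16) :
    th0 D s = s * π - ∑ v ∈ range 16, (if 1 ≤ v ∧ v ≤ s then 1 else 0) * D v := by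
  interval_cases s <;> simp [th0, sum_range_succ] <;> ring

lemma sum_range_eq (n : ℕ) (f : ℕ → ℤ) : ∑ v ∈ range n, f v = ((List.range n).map f).sum := rfl

theorem Ce.sound {c : Ce} {l : List TD} {n : ℕ} (hc : c.ok l n = true) {q : ℕ → ℂ}
    (h : ∀ t ∈ l, Good q t) (lt : ∀ t ∈ l.map tri, t.1 < n ∧ t.2.1 < n ∧ t.2.2 < n) (h16 : 16 ≤ n)
    (int : ∀ v, 16 ≤ v → v < n → Dl (l.map tri) q v = 2 * π) :
    c.N * (th0 (Dl (l.map tri) q) c.s1 - th0 (Dl (l.map tri) q) c.s0) + ev q l c.E ≤ c.kap * π := by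
  simp only [Ce.ok, Bool.and_eq_true, decide_eq_true_eq, List.all_eq_true, List.mem_range,
    beq_iff_eq] at hc
  obtain ⟨⟨⟨⟨⟨⟨c1, c2⟩, c3⟩, c5⟩, c6⟩, c7⟩, c8⟩ := hc
  rw [← sum_range_eq, ← sum_range_eq] at c5
  have e1 := pes_nonneg h c.P c6
  have e2 := ev_eq q l _ c7
  have e3 := lin_D lt q fun v => c.muf v
  rw [List.map_map, ← sum_getD l td0, ← sum_range_add_sum_Ico _ h16] at e3
  have e4 : ∑ v ∈ Ico 16 n, (c.muf v : ℝ) * Dl (l.map tri) q v =
      (∑ v ∈ range (n - 16), (c.muf (16 + v) : ℝ)) * (2 * π) := by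
    rw [sum_congr rfl fun v hv => by rw [int v (mem_Ico.1 hv).1 (mem_Ico.1 hv).2], ← sum_mul,
      sum_Ico_eq_sum_range]
  have e5 : ∑ v ∈ range 16, (c.muf v : ℝ) * Dl (l.map tri) q v = c.N *
      (∑ v ∈ range 16, (if 1 ≤ v ∧ v ≤ c.s1 then 1 else 0) * Dl (l.map tri) q v -
        ∑ v ∈ range 16, (if 1 ≤ v ∧ v ≤ c.s0 then 1 else 0) * Dl (l.map tri) q v) := by
    rw [← sum_sub_distrib, mul_sum]
    refine sum_congr rfl fun v hv => ?_
    rw [c3 v (mem_range.1 hv)]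
    push_cast
    ring
  have e6 : ev q l (c.E ++ pes c.P) = (∑ k ∈ range l.length, (c.lam l k : ℝ)) * π + ∑ t ∈ range l.length,
      ((fun t : Vx => (c.muf t.1 : ℝ) * ang (q t.1) (q t.2.1) (q t.2.2) +
        c.muf t.2.1 * ang (q t.2.1) (q t.2.2) (q t.1) +
        c.muf t.2.2 * ang (q t.2.2) (q t.1) (q t.2.1)) ∘ tri) (l.getD t td0) := by
    rw [e2, sum_mul, ← sum_add_distrib]
    refine sum_congr rfl fun k hk => ?_
    obtain ⟨a2, a3⟩ := c8 k (mem_range.1 hk)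
    have a1 : cf (c.E ++ pes c.P) k 0 = c.lam l k + c.muf (l.getD k td0).1 := by simp [Ce.lam]
    have g := (h _ (MP_485bb6_lc.getD_mem l td0 (mem_range.1 hk))).1
    rw [a1, a2, a3, ← ang_sum _ (ne_of_ar g.ne').1]
    simp [crn, A1, rt, tri]
    ring
  rw [ev_append, ← e3, e4, e5] at e6
  rw [th0_eq _ c1, th0_eq _ c2, c5]
  simp only [Int.cast_add, Int.cast_mul, Int.cast_sub, Int.cast_natCast, Int.cast_ofNat, Int.cast_sum]
  linarith

end Pool.Agent.MP_a4408f_lc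

end
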