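import Pool.Agent.MP_2e8011_lc.Defs

section

/-! Hamiltonian cycles as cyclic sequences and as successor functions. -/

namespace Pool.Agent.MP_2e8011_lc

open SimpleGraph

variable {V : Type} [DecidableEq V] [Fintype V] {G : SimpleGraph V}

theorem hasHam_iff_contained :
    HasHamiltonianCycle G ↔ 3 ≤ Fintype.card V ∧ cycleGraph (Fintype.card V) ⊑ G := by
  constructor
  · rintro ⟨a, p, hp⟩
    have h := Walk.isHamiltonianCycle_iff_isCycle_and_length_eq.1 hp
    have h3 : 3 ≤ Fintype.card V := h.2 ▸ h.1.three_le_length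
    exact ⟨h3, (cycleGraph_isContained_iff h3).2 ⟨a, p, h⟩⟩
  · rintro ⟨h3, h⟩
    obtain ⟨a, p, h⟩ := (cycleGraph_isContained_iff h3).1 h
    exact ⟨a, p, Walk.isHamiltonianCycle_iff_isCycle_and_length_eq.2 h⟩

theorem cycle_adj_iff {n : ℕ} (hn : 3 ≤ n) (u v : Fin n) :
    (cycleGraph n).Adj u v ↔ v.val = (u.val + 1) % n ∨ u.val = (v.val + 1) % n := by
  obtain ⟨m, rfl⟩ : ∃ m, n = m + 3 := ⟨n - 3, by omega⟩
  rw [cycleGraph_adj, sub_eq_iff_eq_add', sub_eq_iff_eq_add', Fin.ext_iff, Fin.ext_iff,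
    Fin.val_add, Fin.val_add]
  simp [or_comm]

theorem hasHam_iff_seq : HasHamiltonianCycle G ↔ 3 ≤ Fintype.card V ∧
    ∃ f : ℕ → V, (∀ i < Fintype.card V, ∀ j < Fintype.card V, f i = f j → i = j) ∧
      ∀ i < Fintype.card V, G.Adj (f i) (f ((i + 1) % Fintype.card V)) := by
  rw [hasHam_iff_contained]
  refine and_congr_right fun h3 => ⟨?_, ?_⟩
  · rintro ⟨φ⟩
    have h0 : 0 < Fintype.card V := by omega
    refine ⟨fun i => φ ⟨i % Fintype.card V, Nat.mod_lt _ h0⟩, fun i hi j hj h => ?_,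
      fun i hi => φ.toHom.map_adj ?_⟩
    · have := φ.injective h
      simpa [Nat.mod_eq_of_lt hi, Nat.mod_eq_of_lt hj] using this
    · rw [cycle_adj_iff h3]
      simp
  · rintro ⟨f, hf, hadj⟩
    refine ⟨⟨⟨fun i => f i, fun {u v} h => ?_⟩, fun u v h => Fin.ext (hf _ u.2 _ v.2 h)⟩⟩
    rcases (cycle_adj_iff h3 u v).1 h with h | h
    · have := hadj u u.2
      rwa [← h] at this
    · have := hadj v v.2
      rw [← h] at this
      exact this.symm

theorem hasHam_of_succ (h3 : 3 ≤ Fintype.card V) (f : V → V) (hadj : ∀ v, G.Adj v (f v)) (s : V)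
    (hreach : ∀ v, ∃ n, f^[n] s = v) (hper : ∃ n, 0 < n ∧ f^[n] s = s) :
    HasHamiltonianCycle G := by
  obtain ⟨n, hn, hs⟩ := hper
  have hmem : s ∈ Function.periodicPts f := Function.mk_mem_periodicPts hn hs
  have hpos := Function.minimalPeriod_pos_of_mem_periodicPts hmem
  have hinj := Function.iterate_injOn_Iio_minimalPeriod (f := f) (x := s)
  have hcard : Fintype.card V = Function.minimalPeriod f s := by
    rw [← Fintype.card_fin (Function.minimalPeriod f s)]
    symm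
    refine Fintype.card_congr (Equiv.ofBijective (fun i => f^[i] s) ⟨fun i j h => ?_, fun v => ?_⟩)
    · exact Fin.ext (hinj i.2 j.2 h)
    · obtain ⟨k, rfl⟩ := hreach v
      exact ⟨⟨k % _, Nat.mod_lt _ hpos⟩, Function.iterate_mod_minimalPeriod_eq⟩
  refine hasHam_iff_seq.2 ⟨h3, fun i => f^[i] s, fun i hi j hj h => ?_, fun i _ => ?_⟩
  · rw [hcard] at hi hj
    exact hinj hi hj h
  · rw [hcard]
    beta_reduce
    rw [Function.iterate_mod_minimalPeriod_eq, Function.iterate_succ_apply']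
    exact hadj _

theorem succ_of_hasHam (h : HasHamiltonianCycle G) : ∃ τ : V → V, (∀ v, G.Adj v (τ v)) ∧
    Function.Injective τ ∧ (∀ v, τ (τ v) ≠ v) ∧ ∀ u v, ∃ n, τ^[n] u = v := by
  obtain ⟨h3, f, hf, hadj⟩ := hasHam_iff_seq.1 h
  set N := Fintype.card V with hN
  have h0 : 0 < N := by omega
  have hsurj : ∀ v, ∃ i, i < N ∧ f i = v := by
    have : Function.Bijective (fun i : Fin N => f i) := by
      rw [Fintype.bijective_iff_injective_and_card]
      exact ⟨fun i j h => Fin.ext (hf _ i.2 _ j.2 h), by simp [hN]⟩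
    intro v
    obtain ⟨i, hi⟩ := this.2 v
    exact ⟨i, i.2, hi⟩
  choose ix hix hfx using hsurj
  have hixf : ∀ i < N, ix (f i) = i := fun i hi => hf _ (hix _) _ hi (hfx _)
  have hτ : ∀ i, f ((ix (f (i % N)) + 1) % N) = f ((i + 1) % N) := fun i => by
    rw [hixf _ (Nat.mod_lt _ h0), Nat.mod_add_mod]
  refine ⟨fun v => f ((ix v + 1) % N), fun v => ?_, fun u v huv => ?_, fun v hv => ?_,
    fun u v => ?_⟩
  · have := hadj _ (hix v)
    rwa [hfx] at this
  · have h1 := hf _ (Nat.mod_lt _ h0) _ (Nat.mod_lt _ h0) huv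
    have h2 : ix u = ix v := by
      have := Nat.ModEq.add_right_cancel' 1 h1
      exact Nat.ModEq.eq_of_lt_of_lt this (hix u) (hix v)
    rw [← hfx u, h2, hfx]
  · beta_reduce at hv
    rw [hτ] at hv
    have h1 := hf _ (Nat.mod_lt _ h0) _ (hix _) (hv.trans (hfx v).symm)
    have h2 := hix v
    by_cases h4 : ix v + 1 + 1 < N
    · rw [Nat.mod_eq_of_lt h4] at h1; omega
    · rw [Nat.mod_eq_sub_mod (by omega), Nat.mod_eq_of_lt (by omega)] at h1; omega
  · have key : ∀ n i, (fun v => f ((ix v + 1) % N))^[n] (f (i % N)) = f ((i + n) % N) := by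
      intro n
      induction n with
      | zero => intro i; rfl
      | succ n ih =>
        intro i
        rw [Function.iterate_succ_apply', ih, hτ, add_assoc]
    refine ⟨ix v + N - ix u, ?_⟩
    have := key (ix v + N - ix u) (ix u)
    rw [Nat.mod_eq_of_lt (hix u), hfx, show ix u + (ix v + N - ix u) = ix v + N by
      have := hix u; omega, Nat.add_mod_right, Nat.mod_eq_of_lt (hix v), hfx] at this
    exact this

theorem hasHam_congr {W : Type} [DecidableEq W] [Fintype W] {H : SimpleGraph W} (e : G ≃g H) :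
    HasHamiltonianCycle G ↔ HasHamiltonianCycle H := by
  rw [hasHam_iff_contained, hasHam_iff_contained, Fintype.card_congr e.toEquiv,
    isContained_congr_right e]

end Pool.Agent.MP_2e8011_lc

end

section

/-! Replacing every vertex of a digraph by a long path. -/

namespace Pool.Agent.MP_2e8011_lc

open SimpleGraph

variable {V : Type}

/-- Each vertex `v` of the digraph `D` becomes the path `(v,0), …, (v,j+1)`, each arc `u → w`
the edge from `(u,j+1)` to `(w,0)`. -/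
def subdiv (D : V → V → Prop) (j : ℕ) : SimpleGraph (V × Fin (j + 2)) :=
  SimpleGraph.fromRel fun a b =>
    (a.1 = b.1 ∧ b.2.val = a.2.val + 1) ∨ (a.2.val = j + 1 ∧ b.2.val = 0 ∧ D a.1 b.1)

theorem subdiv_adj {D : V → V → Prop} {j : ℕ} {a b : V × Fin (j + 2)} :
    (subdiv D j).Adj a b ↔ (a.1 = b.1 ∧ b.2.val = a.2.val + 1) ∨
      (a.1 = b.1 ∧ a.2.val = b.2.val + 1) ∨ (a.2.val = j + 1 ∧ b.2.val = 0 ∧ D a.1 b.1) ∨
      (b.2.val = j + 1 ∧ a.2.val = 0 ∧ D b.1 a.1) := by
  simp only [subdiv, fromRel_adj, ne_eq]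
  constructor
  · rintro ⟨-, (h | h) | (h | h)⟩
    · exact Or.inl h
    · exact Or.inr (Or.inr (Or.inl h))
    · exact Or.inr (Or.inl ⟨h.1.symm, h.2⟩)
    · exact Or.inr (Or.inr (Or.inr h))
  · intro h
    refine ⟨?_, ?_⟩
    · rintro rfl
      omega
    · rcases h with h | h | h | h
      · exact Or.inl (Or.inl h)
      · exact Or.inr (Or.inl ⟨h.1.symm, h.2⟩)
      · exact Or.inl (Or.inr h)
      · exact Or.inr (Or.inr h)

variable [DecidableEq V] [Fintype V]

theorem subdiv_ham_of_succ {D : V → V → Prop} {j : ℕ} (hj : 1 ≤ j) (σ : V → V)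
    (hD : ∀ v, D v (σ v)) (s : V) (hreach : ∀ v, ∃ n, σ^[n] s = v)
    (hper : ∃ n, 0 < n ∧ σ^[n] s = s) : HasHamiltonianCycle (subdiv D j) := by
  let f : V × Fin (j + 2) → V × Fin (j + 2) := fun a =>
    if h : a.2.val < j + 1 then (a.1, ⟨a.2.val + 1, by omega⟩) else (σ a.1, 0)
  have h1 : ∀ v (i : ℕ) (hi : i < j + 2), f^[i] (v, 0) = (v, ⟨i, hi⟩) := by
    intro v i
    induction i with
    | zero => intro _; rfl
    | succ i ih =>
      intro hi
      rw [Function.iterate_succ_apply', ih (by omega)]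
      simp only [f]
      rw [dif_pos (by omega)]
  have h2 : ∀ v, f^[j + 2] (v, 0) = (σ v, 0) := by
    intro v
    rw [Function.iterate_succ_apply', h1 v (j + 1) (by omega)]
    simp [f]
  have h3 : ∀ n v, f^[(j + 2) * n] (v, 0) = (σ^[n] v, 0) := by
    intro n
    induction n with
    | zero => intro v; rfl
    | succ n ih =>
      intro v
      rw [Nat.mul_succ, Function.iterate_add_apply, h2, ih, Function.iterate_succ_apply]
  have : Nonempty V := ⟨s⟩
  refine hasHam_of_succ ?_ f (fun a => ?_) (s, 0) (fun a => ?_) ?_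
  · have := Fintype.card_pos (α := V)
    simp only [Fintype.card_prod, Fintype.card_fin]
    nlinarith
  · rw [subdiv_adj]
    by_cases h : a.2.val < j + 1
    · simp only [f, dif_pos h]
      exact Or.inl ⟨trivial, trivial⟩
    · have := a.2.2
      simp only [f, dif_neg h]
      exact Or.inr (Or.inr (Or.inl ⟨by omega, rfl, hD _⟩))
  · obtain ⟨n, hn⟩ := hreach a.1
    refine ⟨a.2.val + (j + 2) * n, ?_⟩
    rw [Function.iterate_add_apply, h3, hn, h1 _ _ a.2.2]
  · obtain ⟨n, hn, hs⟩ := hper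
    exact ⟨(j + 2) * n, by positivity, by rw [h3, hs]⟩

theorem succ_of_subdiv_ham {D : V → V → Prop} {j : ℕ} (hj : 1 ≤ j) (hV : 3 ≤ Fintype.card V)
    (h : HasHamiltonianCycle (subdiv D j)) :
    ∃ σ : V → V, (∀ v, D v (σ v)) ∧ Function.Injective σ ∧ ∀ v, σ (σ v) ≠ v := by
  obtain ⟨τ, hadj, hinj, h2, hreach⟩ := succ_of_hasHam h
  have hsurj : Function.Surjective τ := Finite.surjective_of_injective hinj
  -- the two cycle neighbours
  let N : V × Fin (j + 2) → V × Fin (j + 2) → Prop := fun a b => τ a = b ∨ τ b = a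
  have hNs : ∀ a b, N a b → N b a := fun a b h => h.symm
  have hNadj : ∀ a b, N a b → (subdiv D j).Adj a b := by
    rintro a b (rfl | rfl)
    · exact hadj a
    · exact (hadj b).symm
  have hN2 : ∀ a, ∃ b c, b ≠ c ∧ N a b ∧ N a c := by
    intro a
    obtain ⟨c, rfl⟩ := hsurj a
    exact ⟨_, c, h2 c, Or.inl rfl, Or.inr rfl⟩
  have hN3 : ∀ a b c d, N a b → N a c → N a d → b = c ∨ b = d ∨ c = d := by
    rintro a b c d (hb | hb) (hc | hc) (hd | hd)
    all_goals first
      | exact Or.inl (hb.symm.trans hc)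
      | exact Or.inr (Or.inl (hb.symm.trans hd))
      | exact Or.inr (Or.inr (hc.symm.trans hd))
      | exact Or.inl (hinj (hb.trans hc.symm))
      | exact Or.inr (Or.inl (hinj (hb.trans hd.symm)))
      | exact Or.inr (Or.inr (hinj (hc.trans hd.symm)))
  have hint : ∀ (v : V) (i : ℕ) (hi : i + 2 < j + 2),
      N (v, ⟨i + 1, by omega⟩) (v, ⟨i, by omega⟩) ∧ N (v, ⟨i + 1, by omega⟩) (v, ⟨i + 2, hi⟩) := by
    intro v i hi
    obtain ⟨b, c, hbc, hb, hc⟩ := hN2 (v, ⟨i + 1, by omega⟩)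
    have key : ∀ b, N (v, ⟨i + 1, by omega⟩) b →
        b = (v, ⟨i, by omega⟩) ∨ b = (v, ⟨i + 2, hi⟩) := by
      rintro ⟨w, k⟩ hb
      have := subdiv_adj.1 (hNadj _ _ hb)
      simp only [Prod.mk.injEq, Fin.ext_iff] at this ⊢
      rcases this with h | h | h | h
      · exact Or.inr ⟨h.1.symm, h.2⟩
      · exact Or.inl ⟨h.1.symm, by omega⟩
      · omega
      · omega
    rcases key b hb with rfl | rfl <;> rcases key c hc with rfl | rfl
    · exact absurd rfl hbc
    · exact ⟨hb, hc⟩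
    · exact ⟨hc, hb⟩
    · exact absurd rfl hbc
  have hfirst : ∀ v : V, N (v, 0) (v, ⟨1, by omega⟩) := fun v => hNs _ _ (hint v 0 (by omega)).1
  have hlast : ∀ v : V, N (v, Fin.last (j + 1)) (v, ⟨j, by omega⟩) := by
    intro v
    have := hNs _ _ (hint v (j - 1) (by omega)).2
    have e1 : (⟨j - 1 + 2, by omega⟩ : Fin (j + 2)) = Fin.last (j + 1) := by
      ext; simp only [Fin.val_last]; omega
    have e2 : (⟨j - 1 + 1, by omega⟩ : Fin (j + 2)) = ⟨j, by omega⟩ := by
      ext; simp only; omega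
    rwa [e1, e2] at this
  have hout : ∀ v : V, ∃ w, D v w ∧ N (v, Fin.last (j + 1)) (w, 0) := by
    intro v
    obtain ⟨b, c, hbc, hb, hc⟩ := hN2 (v, Fin.last (j + 1))
    have key : ∀ b, N (v, Fin.last (j + 1)) b →
        b = (v, ⟨j, by omega⟩) ∨ ∃ w, D v w ∧ b = (w, 0) := by
      rintro ⟨w, k⟩ hb
      have := subdiv_adj.1 (hNadj _ _ hb)
      have hk := k.2
      simp only [Prod.mk.injEq, Fin.ext_iff, Fin.val_last, Fin.val_zero] at this ⊢
      rcases this with h | h | h | h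
      · omega
      · exact Or.inl ⟨h.1.symm, by omega⟩
      · exact Or.inr ⟨w, h.2.2, rfl, h.2.1⟩
      · omega
    rcases key b hb with rfl | ⟨w, hw, rfl⟩
    · rcases key c hc with rfl | ⟨w, hw, rfl⟩
      · exact absurd rfl hbc
      · exact ⟨w, hw, hc⟩
    · exact ⟨w, hw, hb⟩
  choose σ hσ hσN using hout
  have hσinj : Function.Injective σ := by
    intro u u' huu
    have e1 := hNs _ _ (hσN u)
    have e2 := hNs _ _ (hσN u')
    rw [← huu] at e2
    rcases hN3 _ _ _ _ e1 e2 (hfirst _) with h | h | h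
    · exact (Prod.ext_iff.1 h).1
    · have := congrArg (fun a => a.2.val) h
      simp at this; omega
    · have := congrArg (fun a => a.2.val) h
      simp at this; omega
  refine ⟨σ, hσ, hσinj, fun u hu => ?_⟩
  -- the two paths of `u` and `σ u` are closed under `τ`
  have hclosed : ∀ a, (a.1 = u ∨ a.1 = σ u) → ((τ a).1 = u ∨ (τ a).1 = σ u) := by
    rintro ⟨v, i⟩ hv
    have hN : N (v, i) (τ (v, i)) := Or.inl rfl
    have hA := subdiv_adj.1 (hadj (v, i))
    simp only at hv hA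
    rcases hA with h | h | h | h
    · rwa [← h.1]
    · rwa [← h.1]
    · have hi : i = Fin.last (j + 1) := Fin.ext h.1
      subst hi
      rcases hN3 _ _ _ _ hN (hσN v) (hlast v) with h' | h' | h'
      · rw [h']
        rcases hv with rfl | rfl
        · exact Or.inr rfl
        · exact Or.inl hu
      · rwa [h']
      · have := congrArg (fun a => a.2.val) h'
        simp at this; omega
    · have hi : i = 0 := Fin.ext h.2.1
      subst hi
      obtain ⟨w, hw, hw'⟩ : ∃ w, σ w = v ∧ (w = u ∨ w = σ u) := by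
        rcases hv with rfl | rfl
        · exact ⟨_, hu, Or.inr rfl⟩
        · exact ⟨_, rfl, Or.inl rfl⟩
      have e1 := hNs _ _ (hσN w)
      rw [hw] at e1
      rcases hN3 _ _ _ _ hN e1 (hfirst v) with h' | h' | h'
      · rwa [h']
      · rwa [h']
      · have := congrArg (fun a => a.2.val) h'
        simp at this; omega
  have hall : ∀ n, ((τ^[n] (u, 0)).1 = u ∨ (τ^[n] (u, 0)).1 = σ u) := by
    intro n
    induction n with
    | zero => exact Or.inl rfl
    | succ n ih => rw [Function.iterate_succ_apply']; exact hclosed _ ih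
  have hsub : (Finset.univ : Finset V) ⊆ {u, σ u} := by
    intro v _
    obtain ⟨n, hn⟩ := hreach (u, 0) (v, 0)
    have := hall n
    rw [hn] at this
    simpa using this
  have := Finset.card_le_card hsub
  have h2 := Finset.card_le_two (a := u) (b := σ u)
  rw [Finset.card_univ] at this
  omega

theorem treeH_adj_path {j : ℕ} (i : ℕ) (hi : i < j) :
    (treeH j).Adj ⟨i, by omega⟩ ⟨i + 1, by omega⟩ := by
  simp only [treeH, fromRel_adj, ne_eq, Fin.mk.injEq, true_and]
  omega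

theorem treeH_adj_left {j : ℕ} (e : ℕ) (h1 : 1 ≤ e) (h2 : e ≤ 2) :
    (treeH j).Adj ⟨0, by omega⟩ ⟨j + e, by omega⟩ := by
  simp only [treeH, fromRel_adj, ne_eq, Fin.mk.injEq, true_and]
  omega

theorem treeH_adj_right {j : ℕ} (e : ℕ) (h1 : 3 ≤ e) (h2 : e ≤ 4) :
    (treeH j).Adj ⟨j, by omega⟩ ⟨j + e, by omega⟩ := by
  simp only [treeH, fromRel_adj, ne_eq, Fin.mk.injEq, true_and]
  omega

omit [DecidableEq V] [Fintype V] in
/-- If the components of the bipartite graph of arcs have at most `j + 2` vertices, the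
subdivided graph has no subgraph `H_j`. -/
theorem subdiv_free {C : Type} {D : V → V → Prop} {j L : ℕ} (hj : 1 ≤ j) (hL : L ≤ j + 2)
    (comp : V × Bool → C) (tag : V × Bool → ℕ) (htag : ∀ e, tag e < L)
    (hinj : ∀ e e', comp e = comp e' → tag e = tag e' → e = e')
    (hD : ∀ u w, D u w → comp (u, true) = comp (w, false)) : (treeH j).Free (subdiv D j) := by
  rintro ⟨φ⟩
  let End : V × Fin (j + 2) → Prop := fun a => a.2.val = 0 ∨ a.2.val = j + 1
  let nm : V × Fin (j + 2) → V × Bool := fun a => (a.1, decide (a.2.val ≠ 0))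
  have hnm : ∀ a b, End a → End b → nm a = nm b → a = b := by
    rintro ⟨v, i⟩ ⟨w, k⟩ ha hb h
    simp only [End, nm, Prod.mk.injEq, decide_eq_decide, Fin.ext_iff] at ha hb h ⊢
    exact ⟨h.1, by omega⟩
  have hcomp : ∀ a b, End a → End b → (subdiv D j).Adj a b → comp (nm a) = comp (nm b) := by
    rintro ⟨v, i⟩ ⟨w, k⟩ ha hb h
    rw [subdiv_adj] at h
    simp only [End, nm] at ha hb h ⊢
    rcases h with h | h | h | h
    · omega
    · omega
    · simpa [h.1, h.2.1] using hD _ _ h.2.2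
    · simpa [h.1, h.2.1] using (hD _ _ h.2.2).symm
  -- a vertex with three neighbours is an end
  have hdeg : ∀ a b c d, (subdiv D j).Adj a b → (subdiv D j).Adj a c → (subdiv D j).Adj a d →
      b ≠ c → b ≠ d → c ≠ d → End a := by
    rintro ⟨v, i⟩ ⟨vb, ib⟩ ⟨vc, ic⟩ ⟨vd, id⟩ hb hc hd hbc hbd hcd
    by_contra hE
    rw [subdiv_adj] at hb hc hd
    simp only [End, ne_eq, Prod.mk.injEq, Fin.ext_iff, not_or] at *
    grind
  -- an end has only one neighbour that is not an end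
  have hone : ∀ a b c, End a → (subdiv D j).Adj a b → (subdiv D j).Adj a c → b ≠ c →
      End b ∨ End c := by
    rintro ⟨v, i⟩ ⟨vb, ib⟩ ⟨vc, ic⟩ ha hb hc hbc
    have := ib.2
    have := ic.2
    rw [subdiv_adj] at hb hc
    simp only [End, ne_eq, Prod.mk.injEq, Fin.ext_iff] at *
    grind
  let p : ℕ → V × Fin (j + 2) := fun i => φ ⟨min i (j + 4), by omega⟩
  have hp : ∀ i (hi : i < j + 5), p i = φ ⟨i, hi⟩ := fun i hi => by
    simp only [p]; congr 2; omega
  have hpinj : ∀ i < j + 5, ∀ k < j + 5, p i = p k → i = k := fun i hi k hk h => by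
    rw [hp i hi, hp k hk] at h
    simpa using φ.injective h
  have hpath : ∀ i < j, (subdiv D j).Adj (p i) (p (i + 1)) := fun i hi => by
    rw [hp i (by omega), hp (i + 1) (by omega)]
    exact φ.toHom.map_adj (treeH_adj_path i hi)
  have hleft : ∀ e, 1 ≤ e → e ≤ 2 → (subdiv D j).Adj (p 0) (p (j + e)) := fun e h1 h2 => by
    rw [hp 0 (by omega), hp (j + e) (by omega)]
    exact φ.toHom.map_adj (treeH_adj_left e h1 h2)
  have hright : ∀ e, 3 ≤ e → e ≤ 4 → (subdiv D j).Adj (p j) (p (j + e)) := fun e h1 h2 => by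
    rw [hp j (by omega), hp (j + e) (by omega)]
    exact φ.toHom.map_adj (treeH_adj_right e h1 h2)
  have hne : ∀ i k, i < j + 5 → k < j + 5 → i ≠ k → p i ≠ p k :=
    fun i k hi hk h h' => h (hpinj i hi k hk h')
  have hE0 : End (p 0) := hdeg _ _ _ _ (hpath 0 hj) (hleft 1 le_rfl one_le_two)
    (hleft 2 one_le_two le_rfl) (hne _ _ (by omega) (by omega) (by omega))
    (hne _ _ (by omega) (by omega) (by omega)) (hne _ _ (by omega) (by omega) (by omega))
  have hEj : End (p j) := by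
    have := (hpath (j - 1) (by omega)).symm
    rw [show j - 1 + 1 = j by omega] at this
    exact hdeg _ _ _ _ this (hright 3 le_rfl (by omega))
      (hright 4 (by omega) le_rfl) (hne _ _ (by omega) (by omega) (by omega))
      (hne _ _ (by omega) (by omega) (by omega)) (hne _ _ (by omega) (by omega) (by omega))
  -- the path never enters the interior of a long path
  have hE : ∀ i ≤ j, End (p i) := by
    intro i
    induction i with
    | zero => intro _; exact hE0
    | succ i ih =>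
      intro hi
      have hEi := ih (by omega)
      by_contra hn
      have key : ∀ t, 1 ≤ t → i + t ≤ j → (p (i + t)).1 = (p i).1 ∧ (p (i + t - 1)).1 = (p i).1 ∧
          (((p i).2.val = 0 ∧ (p (i + t)).2.val = t ∧ (p (i + t - 1)).2.val + 1 = t) ∨
          ((p i).2.val = j + 1 ∧ (p (i + t)).2.val + t = j + 1 ∧
            (p (i + t - 1)).2.val + t = j + 2)) := by
        intro t ht
        induction t, ht using Nat.le_induction with
        | base =>
          intro _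
          have := subdiv_adj.1 (hpath i (by omega))
          simp only [End, add_tsub_cancel_right] at *
          grind
        | succ t ht ih =>
          intro hit
          have h1 := ih (by omega)
          have h2 := subdiv_adj.1 (hpath (i + t) (by omega))
          have h3 := hne (i + t + 1) (i + t - 1) (by omega) (by omega) (by omega)
          rw [Ne, Prod.ext_iff, Fin.ext_iff] at h3
          rw [← add_assoc, add_tsub_cancel_right]
          grind
      have := key (j - i) (by omega) (by omega)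
      rw [show i + (j - i) = j by omega] at this
      simp only [End] at hEj
      omega
  have hc : ∀ i ≤ j, comp (nm (p i)) = comp (nm (p 0)) := by
    intro i
    induction i with
    | zero => intro _; rfl
    | succ i ih =>
      intro hi
      rw [← ih (by omega)]
      exact (hcomp _ _ (hE i (by omega)) (hE _ hi) (hpath i hi)).symm
  obtain ⟨e₁, he₁, hE₁⟩ : ∃ e, (1 ≤ e ∧ e ≤ 2) ∧ End (p (j + e)) := by
    rcases hone _ _ _ hE0 (hleft 1 le_rfl one_le_two) (hleft 2 one_le_two le_rfl)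
      (hne _ _ (by omega) (by omega) (by omega)) with h | h
    · exact ⟨1, by omega, h⟩
    · exact ⟨2, by omega, h⟩
  obtain ⟨e₂, he₂, hE₂⟩ : ∃ e, (3 ≤ e ∧ e ≤ 4) ∧ End (p (j + e)) := by
    rcases hone _ _ _ hEj (hright 3 le_rfl (by omega)) (hright 4 (by omega) le_rfl)
      (hne _ _ (by omega) (by omega) (by omega)) with h | h
    · exact ⟨3, by omega, h⟩
    · exact ⟨4, by omega, h⟩
  let ix : ℕ → ℕ := fun i => if i ≤ j then i else if i = j + 1 then j + e₁ else j + e₂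
  have hix : ∀ i, End (p (ix i)) ∧ comp (nm (p (ix i))) = comp (nm (p 0)) := by
    intro i
    simp only [ix]
    split_ifs with h1 h2
    · exact ⟨hE i h1, hc i h1⟩
    · exact ⟨hE₁, (hcomp _ _ hE0 hE₁ (hleft _ he₁.1 he₁.2)).symm⟩
    · exact ⟨hE₂, (hcomp _ _ hEj hE₂ (hright _ he₂.1 he₂.2)).symm.trans (hc j le_rfl)⟩
  have hcard := Finset.card_le_card_of_injOn (s := Finset.range (j + 3)) (t := Finset.range L)
    (fun i => tag (nm (p (ix i)))) (fun i _ => by simpa using htag _) (by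
      intro i hi k hk h
      simp only [Finset.coe_range, Set.mem_Iio] at hi hk
      have h1 := hnm _ _ (hix i).1 (hix k).1 (hinj _ _ ((hix i).2.trans (hix k).2.symm) h)
      have h2 := hpinj _ (by simp only [ix]; split_ifs <;> omega) _
        (by simp only [ix]; split_ifs <;> omega) h1
      simp only [ix] at h2
      split_ifs at h2 <;> omega)
  simp only [Finset.card_range] at hcard
  omega

end Pool.Agent.MP_2e8011_lc

end

section

/-! The digraph attached to a grid of cells. -/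

namespace Pool.Agent.MP_2e8011_lc

/-- A set of cells with a spine order `nx`, a right neighbour `rt`, a lower neighbour `dn`, a top
row, and the cells carrying a positive or a negative literal. -/
structure Grid (X : Type) where
  nx : X ≃ X
  rt : X ≃ X
  dn : X ≃ X
  top : X → Prop
  pos : X → Prop
  neg : X → Prop

/-- Unconditional arcs inside a cell. -/
def loc (r t : ℕ) : Prop :=
  (t = r + 1 ∧ r ≠ 0 ∧ r ≠ 1 ∧ r ≠ 9) ∨ (r = t + 1 ∧ t ≠ 0 ∧ t ≠ 1 ∧ t ≠ 5 ∧ t ≠ 9) ∨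
    (r = 0 ∧ t = 2) ∨ (r = 9 ∧ t = 1)

namespace Grid

variable {X : Type} (g : Grid X)

/-- The arcs. -/
def arc (x : X) (r : ℕ) (y : X) (t : ℕ) : Prop :=
  (y = x ∧ (loc r t ∨ (r = 5 ∧ t = 1 ∧ g.pos x) ∨ (r = 1 ∧ (t = 9 ∨ t = 10) ∧ ¬ g.top x))) ∨
  (x = g.rt y ∧ r = 0 ∧ t = 5) ∨
  (y = g.rt x ∧ r = 2 ∧ (t = 6 ∨ (t = 1 ∧ g.neg y))) ∨
  (x = g.dn y ∧ r = 1 ∧ t = 13) ∨
  (y = g.dn x ∧ r = 10 ∧ (t = 9 ∨ t = 10) ∧ g.top y) ∨
  (y = g.nx (g.dn x) ∧ r = 10 ∧ t = 0 ∧ ¬ g.top (g.dn x)) ∨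
  (y = g.nx x ∧ (r = 6 ∨ r = 13) ∧ t = 0)

/-- The digraph. -/
def D (u w : X × Fin 14) : Prop := g.arc u.1 u.2.val w.1 w.2.val

theorem link {V : Type} {σ : V → V} (hinj : Function.Injective σ) (hsurj : Function.Surjective σ)
    (h2 : ∀ v, σ (σ v) ≠ v) {a b c d : V} (hac : a ≠ c) (hbd : b ≠ d)
    (hb : σ b = a ∨ σ b = c) (hc : σ c = b ∨ σ c = d) (pb : ∀ u, σ u = b → u = a ∨ u = c)
    (pc : ∀ u, σ u = c → u = b ∨ u = d) :
    (σ a = b ∧ σ b = c ∧ σ c = d) ∨ (σ d = c ∧ σ c = b ∧ σ b = a) := by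
  obtain ⟨u, hu⟩ := hsurj b
  obtain ⟨w, hw⟩ := hsurj c
  have e1 := pb u hu
  have e2 := pc w hw
  have e3 := h2 b
  have e4 := h2 c
  have e5 := h2 d
  have e6 := h2 a
  grind

theorem out_rung {x y : X} {r t : ℕ} (h : g.arc x r y t)
    (hr : r = 3 ∨ r = 4 ∨ r = 7 ∨ r = 8 ∨ r = 11 ∨ r = 12) : y = x ∧ (t = r + 1 ∨ r = t + 1) := by
  simp only [arc, loc] at h
  rcases h with ⟨h, h'⟩ | h | h | h | h | h | h
  · exact ⟨h, by omega⟩
  all_goals omega

theorem in_rung {x y : X} {r t : ℕ} (h : g.arc y t x r)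
    (hr : r = 3 ∨ r = 4 ∨ r = 7 ∨ r = 8 ∨ r = 11 ∨ r = 12) : y = x ∧ (t = r + 1 ∨ r = t + 1) := by
  simp only [arc, loc] at h
  rcases h with ⟨h, h'⟩ | h | h | h | h | h | h
  · exact ⟨h.symm, by omega⟩
  all_goals omega

theorem out0 {x : X} {w : X × Fin 14} (h : g.D (g.rt x, 0) w) : w = (g.rt x, 2) ∨ w = (x, 5) := by
  obtain ⟨y, t⟩ := w
  simp only [D, arc, loc, Prod.ext_iff, Fin.ext_iff, EmbeddingLike.apply_eq_iff_eq,
    Fin.coe_ofNat_eq_mod, Nat.reduceMod] at h ⊢
  rcases h with ⟨h, h'⟩ | h | h | h | h | h | h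
  · exact Or.inl ⟨h, by omega⟩
  · exact Or.inr ⟨h.1.symm, by omega⟩
  all_goals omega

theorem in2 {x : X} {u : X × Fin 14} (h : g.D u (x, 2)) : u = (x, 0) ∨ u = (x, 3) := by
  obtain ⟨y, t⟩ := u
  simp only [D, arc, loc, Prod.ext_iff, Fin.ext_iff, Fin.coe_ofNat_eq_mod, Nat.reduceMod] at h ⊢
  rcases h with ⟨h, h'⟩ | h | h | h | h | h | h
  · rw [← h]; simp only [true_and]; omega
  all_goals omega

theorem in5 {x : X} {u : X × Fin 14} (h : g.D u (x, 5)) : u = (g.rt x, 0) ∨ u = (x, 4) := by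
  obtain ⟨y, t⟩ := u
  simp only [D, arc, loc, Prod.ext_iff, Fin.ext_iff, Fin.coe_ofNat_eq_mod, Nat.reduceMod] at h ⊢
  rcases h with ⟨h, h'⟩ | h | h | h | h | h | h
  · exact Or.inr ⟨h.symm, by omega⟩
  · exact Or.inl ⟨h.1, by omega⟩
  all_goals omega

theorem out5 {x : X} {w : X × Fin 14} (h : g.D (x, 5) w) :
    w = (x, 4) ∨ w = (x, 6) ∨ (w = (x, 1) ∧ g.pos x) := by
  obtain ⟨y, t⟩ := w
  simp only [D, arc, loc, Prod.ext_iff, Fin.ext_iff, Fin.coe_ofNat_eq_mod, Nat.reduceMod] at h ⊢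
  rcases h with ⟨h, h' | h' | h'⟩ | h | h | h | h | h | h
  · rw [h]; simp only [true_and]; omega
  · exact Or.inr (Or.inr ⟨⟨h, h'.2.1⟩, h'.2.2⟩)
  all_goals omega

theorem out2 {x : X} {w : X × Fin 14} (h : g.D (x, 2) w) :
    w = (x, 3) ∨ w = (g.rt x, 6) ∨ (w = (g.rt x, 1) ∧ g.neg (g.rt x)) := by
  obtain ⟨y, t⟩ := w
  simp only [D, arc, loc, Prod.ext_iff, Fin.ext_iff, Fin.coe_ofNat_eq_mod, Nat.reduceMod] at h ⊢
  rcases h with ⟨h, h'⟩ | h | ⟨h, -, h' | h'⟩ | h | h | h | h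
  · exact Or.inl ⟨h, by omega⟩
  · omega
  · exact Or.inr (Or.inl ⟨h, h'⟩)
  · exact Or.inr (Or.inr ⟨⟨h, h'.1⟩, h ▸ h'.2⟩)
  all_goals omega

theorem out1 {x : X} {w : X × Fin 14} (h : g.D (g.dn x, 1) w) :
    w = (x, 13) ∨ (¬ g.top (g.dn x) ∧ (w = (g.dn x, 9) ∨ w = (g.dn x, 10))) := by
  obtain ⟨y, t⟩ := w
  simp only [D, arc, loc, Prod.ext_iff, Fin.ext_iff, EmbeddingLike.apply_eq_iff_eq,
    Fin.coe_ofNat_eq_mod, Nat.reduceMod] at h ⊢
  rcases h with ⟨h, h' | h' | h'⟩ | h | h | h | h | h | h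
  · omega
  · omega
  · exact Or.inr ⟨h'.2.2, h'.2.1.imp (fun e => ⟨h, e⟩) (fun e => ⟨h, e⟩)⟩
  · omega
  · omega
  · exact Or.inl ⟨h.1.symm, h.2.2⟩
  all_goals omega

theorem out10 {x : X} {w : X × Fin 14} (h : g.D (x, 10) w) (ht : g.top (g.dn x)) :
    w = (x, 11) ∨ w = (g.dn x, 9) ∨ w = (g.dn x, 10) := by
  obtain ⟨y, t⟩ := w
  simp only [D, arc, loc, Prod.ext_iff, Fin.ext_iff, Fin.coe_ofNat_eq_mod, Nat.reduceMod] at h ⊢
  rcases h with ⟨h, h'⟩ | h | h | h | h | h | h
  · exact Or.inl ⟨h, by omega⟩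
  · omega
  · omega
  · omega
  · exact Or.inr (h.2.2.1.imp (fun e => ⟨h.1, e⟩) (fun e => ⟨h.1, e⟩))
  · exact absurd ht h.2.2.2
  · omega

theorem sound [Finite X] {σ : X × Fin 14 → X × Fin 14} (hD : ∀ v, g.D v (σ v))
    (hinj : Function.Injective σ) (h2 : ∀ v, σ (σ v) ≠ v) :
    ∃ val zz dd : X → Prop, (∀ x, val (g.rt x) ↔ val x) ∧
      (∀ x, zz x → (val x ∧ g.pos x) ∨ (¬ val x ∧ g.neg x)) ∧
      (∀ x, ¬ g.top (g.dn x) → dd x → zz (g.dn x) ∨ dd (g.dn x)) ∧
      (∀ x, g.top (g.dn x) → ¬ dd x ∧ (zz (g.dn x) ∨ dd (g.dn x))) := by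
  have hsurj : Function.Surjective σ := Finite.surjective_of_injective hinj
  have hin : ∀ {u w}, σ u = w → g.D u w := fun {u w} h => h ▸ hD u
  have mk : ∀ (x : X) (a b c d : Fin 14), (a.val = 2 ∨ a.val = 6 ∨ a.val = 10) →
      b.val = a.val + 1 → c.val = a.val + 2 → d.val = a.val + 3 →
      (σ (x, a) = (x, b) ∧ σ (x, b) = (x, c) ∧ σ (x, c) = (x, d)) ∨
        (σ (x, d) = (x, c) ∧ σ (x, c) = (x, b) ∧ σ (x, b) = (x, a)) := by
    intro x a b c d ha hb hc hd
    refine link hinj hsurj h2 ?_ ?_ ?_ ?_ (fun u hu => ?_) (fun u hu => ?_)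
    · simp only [ne_eq, Prod.ext_iff, Fin.ext_iff]; omega
    · simp only [ne_eq, Prod.ext_iff, Fin.ext_iff]; omega
    · have := g.out_rung (hD (x, b)) (by simp only; omega)
      simp only [Prod.ext_iff, Fin.ext_iff, this.1, true_and] at this ⊢
      omega
    · have := g.out_rung (hD (x, c)) (by simp only; omega)
      simp only [Prod.ext_iff, Fin.ext_iff, this.1, true_and] at this ⊢
      omega
    · have := g.in_rung (hin hu) (by simp only; omega)
      simp only [Prod.ext_iff, Fin.ext_iff, this.1, true_and] at this ⊢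
      omega
    · have := g.in_rung (hin hu) (by simp only; omega)
      simp only [Prod.ext_iff, Fin.ext_iff, this.1, true_and] at this ⊢
      omega
  have lH := fun x => mk x 2 3 4 5 (by simp) rfl rfl rfl
  have lZ := fun x => mk x 6 7 8 9 (by simp) rfl rfl rfl
  have lW := fun x => mk x 10 11 12 13 (by simp) rfl rfl rfl
  have hi : ∀ u w, σ u = σ w → u = w := fun u w h => hinj h
  have hval : ∀ x, σ (g.rt x, 2) = (g.rt x, 3) ↔ σ (x, 2) = (x, 3) := by
    intro x
    obtain ⟨u, hu⟩ := hsurj (g.rt x, 2)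
    obtain ⟨w, hw⟩ := hsurj (x, 5)
    have e1 := g.in2 (hin hu)
    have e2 := g.in5 (hin hw)
    have e3 := g.out0 (hD (g.rt x, 0))
    have e4 := lH x
    have e5 := lH (g.rt x)
    have e6 := h2 (x, 2)
    have e7 := h2 (g.rt x, 2)
    have e8 := hi (g.rt x, 0) (g.rt x, 3)
    have e9 := hi (g.rt x, 0) (x, 4)
    generalize g.rt x = y at *
    clear * - hu hw e1 e2 e3 e4 e5 e6 e7 e8 e9
    grind
  refine ⟨fun x => σ (x, 2) = (x, 3), fun x => σ (x, 9) = (x, 8), fun x => σ (x, 10) = (x, 11),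
    hval, fun x hz => ?_, fun x ht hd => ?_, fun x ht => ?_⟩
  · obtain ⟨y, rfl⟩ := g.rt.surjective x
    have e1 := lZ (g.rt y)
    have e2 := lH (g.rt y)
    have e3 := g.out5 (hD (g.rt y, 5))
    have e4 := g.out2 (hD (y, 2))
    have e5 := hval y
    have e6 := h2 (g.rt y, 9)
    have e7 := h2 (g.rt y, 2)
    have e8 := h2 (g.rt y, 4)
    have e9 := hi (g.rt y, 5) (g.rt y, 7)
    have e10 := hi (y, 2) (g.rt y, 7)
    generalize g.rt y = x at *
    clear * - hz e1 e2 e3 e4 e5 e6 e7 e8 e9 e10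
    grind
  · have e1 := g.out1 (hD (g.dn x, 1))
    have e2 := lW x
    have e3 := lW (g.dn x)
    have e4 := lZ (g.dn x)
    have e5 := h2 (x, 10)
    have e6 := hi (g.dn x, 1) (x, 12)
    have e7 := hi (g.dn x, 1) (g.dn x, 8)
    have e8 := hi (g.dn x, 1) (g.dn x, 11)
    generalize g.dn x = y at *
    clear * - ht hd e1 e2 e3 e4 e5 e6 e7 e8
    grind
  · have e1 := g.out1 (hD (g.dn x, 1))
    have e2 := lW x
    have e3 := lW (g.dn x)
    have e4 := lZ (g.dn x)
    have e5 := h2 (x, 10)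
    have e6 := hi (g.dn x, 1) (x, 12)
    have e7 := hi (x, 10) (g.dn x, 8)
    have e8 := hi (x, 10) (g.dn x, 11)
    have e9 := g.out10 (hD (x, 10)) ht
    generalize g.dn x = y at *
    clear * - ht e1 e2 e3 e4 e5 e6 e7 e8 e9
    grind

end Grid

end Pool.Agent.MP_2e8011_lc

end

section

/-! The digraph attached to a grid of cells: the Hamiltonian cycle and the components. -/

namespace Pool.Agent.MP_2e8011_lc

namespace Grid

variable {X : Type} (g : Grid X)

open Classical in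
/-- The successor function attached to a consistent choice of states. -/
noncomputable def succ (val zz dd : X → Prop) (u : X × Fin 14) : X × Fin 14 :=
  match u.2.val with
  | 0 => if val u.1 then (u.1, 2) else (g.rt.symm u.1, 5)
  | 1 => if dd (g.dn.symm u.1) then (if zz u.1 then (u.1, 9) else (u.1, 10))
      else (g.dn.symm u.1, 13)
  | 2 => if val u.1 then (u.1, 3) else if zz (g.rt u.1) then (g.rt u.1, 1) else (g.rt u.1, 6)
  | 3 => if val u.1 then (u.1, 4) else (u.1, 2)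
  | 4 => if val u.1 then (u.1, 5) else (u.1, 3)
  | 5 => if val u.1 then (if zz u.1 then (u.1, 1) else (u.1, 6)) else (u.1, 4)
  | 6 => if zz u.1 then (g.nx u.1, 0) else (u.1, 7)
  | 7 => if zz u.1 then (u.1, 6) else (u.1, 8)
  | 8 => if zz u.1 then (u.1, 7) else (u.1, 9)
  | 9 => if zz u.1 then (u.1, 8) else (u.1, 1)
  | 10 => if dd u.1 then (u.1, 11) else if g.top (g.dn u.1) then
      (if zz (g.dn u.1) then (g.dn u.1, 9) else (g.dn u.1, 10)) else (g.nx (g.dn u.1), 0)
  | 11 => if dd u.1 then (u.1, 12) else (u.1, 10)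
  | 12 => if dd u.1 then (u.1, 13) else (u.1, 11)
  | _ => if dd u.1 then (g.nx u.1, 0) else (u.1, 12)

theorem complete {val zz dd : X → Prop} (h1 : ∀ x, val (g.rt x) ↔ val x)
    (h2 : ∀ x, zz x → (val x ∧ g.pos x) ∨ (¬ val x ∧ g.neg x))
    (h3 : ∀ x, g.top (g.dn x) → ¬ dd x ∧ (zz (g.dn x) ↔ ¬ dd (g.dn x)))
    (h4 : ∀ x, ¬ g.top (g.dn x) → (dd x → (zz (g.dn x) ↔ ¬ dd (g.dn x))) ∧
      (¬ dd x → ¬ zz (g.dn x) ∧ ¬ dd (g.dn x)))
    (x₀ : X) (hx : ∀ x, ∃ k, g.nx^[k] x₀ = x) :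
    ∃ σ : X × Fin 14 → X × Fin 14, (∀ v, g.D v (σ v)) ∧ (∀ v, ∃ n, σ^[n] (x₀, 0) = v) ∧
      ∃ n, 0 < n ∧ σ^[n] (x₀, 0) = (x₀, 0) := by
  classical
  have hD : ∀ v, g.D v (g.succ val zz dd v) := by
    rintro ⟨x, r⟩
    have e1 := h1 x
    have e2 := h2 x
    have e2' := h2 (g.rt x)
    have e3 : g.top x → ¬ dd (g.dn.symm x) := fun h =>
      (h3 (g.dn.symm x) (by rwa [Equiv.apply_symm_apply])).1
    replace e3 : dd (g.dn.symm x) → ¬ g.top x := fun h h' => e3 h' h
    clear h1 h2 h3 h4 hx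
    fin_cases r <;> simp only [D, succ] <;> split_ifs <;> simp_all [arc, loc]
  -- closure under the successor function
  have key : ∀ P : X × Fin 14 → Prop, (∀ u, P u → P (g.succ val zz dd u)) → ∀ x,
      P (g.succ val zz dd (x, 0)) → P (g.nx x, 0) ∧ P (x, 1) ∧
        (val x → P (x, 2) ∧ P (x, 3) ∧ P (x, 4) ∧ P (x, 5)) ∧
        (¬ val x → P (g.rt.symm x, 2) ∧ P (g.rt.symm x, 3) ∧ P (g.rt.symm x, 4) ∧
          P (g.rt.symm x, 5)) ∧
        (P (x, 6) ∧ P (x, 7) ∧ P (x, 8) ∧ P (x, 9)) ∧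
        (dd x → P (x, 10) ∧ P (x, 11) ∧ P (x, 12) ∧ P (x, 13)) ∧
        (¬ dd (g.dn.symm x) → P (g.dn.symm x, 10) ∧ P (g.dn.symm x, 11) ∧ P (g.dn.symm x, 12) ∧
          P (g.dn.symm x, 13)) := by
    intro P hP x h0
    have e1 := h1 (g.rt.symm x)
    have e3 := h3 (g.dn.symm x)
    have e4 := h4 (g.dn.symm x)
    rw [Equiv.apply_symm_apply] at e1 e3 e4
    have a1 := hP (x, 1)
    have a2 := hP (x, 2)
    have a3 := hP (x, 3)
    have a4 := hP (x, 4)
    have a5 := hP (x, 5)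
    have a6 := hP (x, 6)
    have a7 := hP (x, 7)
    have a8 := hP (x, 8)
    have a9 := hP (x, 9)
    have a10 := hP (x, 10)
    have a11 := hP (x, 11)
    have a12 := hP (x, 12)
    have a13 := hP (x, 13)
    have b2 := hP (g.rt.symm x, 2)
    have b3 := hP (g.rt.symm x, 3)
    have b4 := hP (g.rt.symm x, 4)
    have b5 := hP (g.rt.symm x, 5)
    have c10 := hP (g.dn.symm x, 10)
    have c11 := hP (g.dn.symm x, 11)
    have c12 := hP (g.dn.symm x, 12)
    have c13 := hP (g.dn.symm x, 13)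
    simp only [succ, Fin.coe_ofNat_eq_mod, Nat.reduceMod, Equiv.apply_symm_apply] at h0 a1 a2 a3 a4 a5 a6 a7 a8 a9 a10 a11 a12 a13 b2 b3 b4 b5 c10 c11 c12 c13
    clear hP hD hx h1 h2 h3 h4
    by_cases hv : val x <;> by_cases hz : zz x <;> by_cases hd : dd x <;>
      by_cases hu : dd (g.dn.symm x) <;> by_cases ht : g.top x <;> simp_all
  let P : X × Fin 14 → Prop := fun u => ∃ n, 0 < n ∧ (g.succ val zz dd)^[n] (x₀, 0) = u
  have hP : ∀ u, P u → P (g.succ val zz dd u) := by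
    rintro u ⟨n, hn, rfl⟩
    exact ⟨n + 1, by omega, Function.iterate_succ_apply' _ _ _⟩
  have hk : ∀ k, P (g.nx^[k + 1] x₀, 0) := by
    intro k
    induction k with
    | zero => exact (key P hP x₀ ⟨1, one_pos, rfl⟩).1
    | succ k ih =>
      rw [Function.iterate_succ_apply']
      exact (key P hP _ (hP _ ih)).1
  have h0 : ∀ x, P (x, 0) := by
    intro x
    obtain ⟨k, hk'⟩ := hx (g.nx.symm x)
    have := hk k
    rwa [Function.iterate_succ_apply', hk', Equiv.apply_symm_apply] at this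
  have hall : ∀ v, P v := by
    rintro ⟨x, r⟩
    have e0 := h0 x
    have e1 := key P hP x (hP _ (h0 x))
    have e2 := key P hP (g.rt x) (hP _ (h0 _))
    have e3 := key P hP (g.dn x) (hP _ (h0 _))
    rw [Equiv.symm_apply_apply, h1] at e2
    rw [Equiv.symm_apply_apply g.dn] at e3
    have f1 : P (x, 2) ∧ P (x, 3) ∧ P (x, 4) ∧ P (x, 5) := by
      by_cases hv : val x
      · exact e1.2.2.1 hv
      · exact e2.2.2.2.1 hv
    have f2 : P (x, 10) ∧ P (x, 11) ∧ P (x, 12) ∧ P (x, 13) := by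
      by_cases hv : dd x
      · exact e1.2.2.2.2.2.1 hv
      · exact e3.2.2.2.2.2.2 hv
    have f3 := e1.2.2.2.2.1
    fin_cases r
    exacts [e0, e1.2.1, f1.1, f1.2.1, f1.2.2.1, f1.2.2.2, f3.1, f3.2.1, f3.2.2.1, f3.2.2.2,
      f2.1, f2.2.1, f2.2.2.1, f2.2.2.2]
  exact ⟨_, hD, fun v => (hall v).imp fun n h => h.2, h0 x₀⟩

/-- The kind of the component of an end. -/
def kind (r : Fin 14) (b : Bool) : Bool :=
  if b then decide (r.val = 1 ∨ r.val = 6 ∨ r.val = 8 ∨ 10 ≤ r.val)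
  else decide (r.val = 0 ∨ r.val = 7 ∨ 9 ≤ r.val)

/-- The cell of the component of an end. -/
def home (x : X) (r : Fin 14) (b : Bool) : X :=
  if b then
    (if r.val = 2 ∨ r.val = 4 then g.rt x else if r.val = 10 ∨ r.val = 12 then g.dn x else x)
  else
    (if r.val = 3 ∨ r.val = 5 then g.rt x else if r.val = 11 ∨ r.val = 13 then g.dn x
    else if r.val = 0 then g.nx.symm x else x)

/-- The position of an end in its component. -/
def tag (r : Fin 14) (b : Bool) : ℕ :=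
  if b then [7, 7, 8, 9, 10, 11, 8, 12, 9, 13, 10, 11, 12, 13].getD r.val 0
  else [0, 0, 1, 2, 3, 4, 5, 1, 6, 2, 3, 4, 5, 6].getD r.val 0

theorem tag_lt : ∀ r b, tag r b < 14 := by decide

theorem tag_inj : ∀ r b t c, kind r b = kind t c → tag r b = tag t c → r = t ∧ b = c := by decide

theorem free {j : ℕ} (hj : 12 ≤ j) : (treeH j).Free (subdiv g.D j) := by
  refine subdiv_free (L := 14) (by omega) (by omega)
    (fun e => (g.home e.1.1 e.1.2 e.2, kind e.1.2 e.2)) (fun e => tag e.1.2 e.2)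
    (fun e => tag_lt _ _) ?_ ?_
  · rintro ⟨⟨x, r⟩, b⟩ ⟨⟨y, t⟩, c⟩ hc ht
    simp only [Prod.mk.injEq] at hc ht
    obtain ⟨rfl, rfl⟩ := tag_inj _ _ _ _ hc.2 ht
    have h4 := hc.1
    simp only [home] at h4
    split_ifs at h4 <;> simp_all
  · rintro ⟨x, r⟩ ⟨y, t⟩ h
    have hr := r.2
    have ht := t.2
    simp only [D, arc, loc] at h
    simp only [home, kind, Bool.false_eq_true, if_false, if_true, Prod.mk.injEq, decide_eq_decide]
    rcases h with ⟨rfl, h⟩ | ⟨rfl, h⟩ | ⟨rfl, h⟩ | ⟨rfl, h⟩ | ⟨rfl, h⟩ | ⟨rfl, h⟩ | ⟨rfl, h⟩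
    all_goals
      refine ⟨?_, by omega⟩
      split_ifs <;> first | omega | rfl | simp

end Grid

end Pool.Agent.MP_2e8011_lc

end
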