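import Mathlib

section

/-! Gap amplification by graph powering (abstract form). -/

namespace Pool.Agent.MP_9e68e9_lc.PCP

open Finset
open scoped BigOperators

/-- Indicator of a proposition. -/
noncomputable def ind (p : Prop) : ℝ := by classical exact if p then 1 else 0

theorem ind_pos {p : Prop} (h : p) : ind p = 1 := by simp [ind, h]
theorem ind_neg {p : Prop} (h : ¬ p) : ind p = 0 := by simp [ind, h]
theorem ind_nonneg (p : Prop) : 0 ≤ ind p := by unfold ind; split_ifs <;> norm_num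
theorem ind_le_one (p : Prop) : ind p ≤ 1 := by unfold ind; split_ifs <;> norm_num
theorem ind_mul_self (p : Prop) : ind p * ind p = ind p := by unfold ind; split_ifs <;> norm_num
theorem ind_mono {p q : Prop} (h : p → q) : ind p ≤ ind q := by
  by_cases hp : p
  · rw [ind_pos hp, ind_pos (h hp)]
  · rw [ind_neg hp]; exact ind_nonneg q
theorem ind_congr {p q : Prop} (h : p ↔ q) : ind p = ind q := by rw [propext h]
theorem ind_not (p : Prop) : ind (¬ p) = 1 - ind p := by
  by_cases hp : p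
  · rw [ind_pos hp, ind_neg (not_not.2 hp)]; norm_num
  · rw [ind_neg hp, ind_pos hp]; norm_num

section Words
variable {J : Type} [Fintype J]

/-- Average over all words of length `n`. -/
noncomputable def avgW (n : ℕ) (g : List J → ℝ) : ℝ := 𝔼 w : Fin n → J, g (List.ofFn w)

theorem avgW_zero (g : List J → ℝ) : avgW 0 g = g [] := by
  simp [avgW]

theorem avgW_succ (n : ℕ) (g : List J → ℝ) :
    avgW (n + 1) g = 𝔼 j, avgW n (fun w => g (j :: w)) := by
  unfold avgW
  rw [← Finset.expect_product', Finset.univ_product_univ]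
  symm
  refine Fintype.expect_equiv (Fin.consEquiv (fun _ : Fin (n + 1) => J)) _ _ (fun x => ?_)
  simp [Fin.consEquiv, List.ofFn_succ]

theorem avgW_congr {n : ℕ} {g h : List J → ℝ} (e : ∀ w, w.length = n → g w = h w) :
    avgW n g = avgW n h :=
  Finset.expect_congr rfl (fun w _ => e _ (by simp))

theorem avgW_mono {n : ℕ} {g h : List J → ℝ} (e : ∀ w, w.length = n → g w ≤ h w) :
    avgW n g ≤ avgW n h :=
  Finset.expect_le_expect (fun w _ => e _ (by simp))

theorem avgW_const [Nonempty J] (n : ℕ) (c : ℝ) : avgW n (fun _ : List J => c) = c := by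
  unfold avgW; simp

theorem avgW_addf (n : ℕ) (g h : List J → ℝ) :
    avgW n (fun w => g w + h w) = avgW n g + avgW n h := by
  unfold avgW; exact Finset.expect_add_distrib _ _ _

theorem avgW_subf (n : ℕ) (g h : List J → ℝ) :
    avgW n (fun w => g w - h w) = avgW n g - avgW n h := by
  unfold avgW; exact Finset.expect_sub_distrib _ _ _

theorem avgW_mul (n : ℕ) (c : ℝ) (g : List J → ℝ) :
    avgW n (fun w => c * g w) = c * avgW n g := by
  unfold avgW; exact (Finset.mul_expect _ _ _).symm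

theorem avgW_sum {ι : Type} (s : Finset ι) (n : ℕ) (g : ι → List J → ℝ) :
    avgW n (fun w => ∑ i ∈ s, g i w) = ∑ i ∈ s, avgW n (g i) := by
  unfold avgW; exact Finset.expect_sum_comm _ _ _

theorem avgW_expect {ι : Type} [Fintype ι] (n : ℕ) (g : ι → List J → ℝ) :
    avgW n (fun w => 𝔼 i, g i w) = 𝔼 i, avgW n (g i) := by
  unfold avgW; exact Finset.expect_comm _ _ _

theorem avgW_nonneg {n : ℕ} {g : List J → ℝ} (h : ∀ w, 0 ≤ g w) : 0 ≤ avgW n g :=
  Finset.expect_nonneg (fun _ _ => h _)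

theorem avgW_append (m n : ℕ) (g : List J → ℝ) :
    avgW (m + n) g = avgW m (fun p => avgW n (fun q => g (p ++ q))) := by
  induction m generalizing g with
  | zero => simp [avgW_zero]
  | succ m ih =>
    rw [show m + 1 + n = (m + n) + 1 by omega, avgW_succ, avgW_succ]
    refine Finset.expect_congr rfl (fun j _ => ?_)
    rw [ih]
    rfl

/-- The reverse path. -/
def rv (ι : J → J) (p : List J) : List J := (p.map ι).reverse

omit [Fintype J] in
theorem rv_cons (ι : J → J) (j : J) (p : List J) : rv ι (j :: p) = rv ι p ++ [ι j] := by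
  simp [rv]

omit [Fintype J] in
theorem length_rv (ι : J → J) (p : List J) : (rv ι p).length = p.length := by simp [rv]

theorem avgW_rv {ι : J → J} (hι : Function.Involutive ι) (n : ℕ) (g : List J → ℝ) :
    avgW n (fun p => g (rv ι p)) = avgW n g := by
  induction n generalizing g with
  | zero => simp [avgW_zero, rv]
  | succ n ih =>
    rw [avgW_succ, avgW_append n 1 g]
    simp only [rv_cons]
    have h1 : ∀ j, avgW n (fun w => g (rv ι w ++ [ι j])) = avgW n (fun w => g (w ++ [ι j])) :=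
      fun j => ih (fun w => g (w ++ [ι j]))
    simp only [h1]
    have h2 : ∀ p : List J, avgW 1 (fun q => g (p ++ q)) = 𝔼 j, g (p ++ [j]) := by
      intro p
      rw [avgW_succ]
      simp only [avgW_zero]
    simp only [h2]
    rw [avgW_expect]
    exact Fintype.expect_equiv hι.toPerm _ _ (fun j => rfl)

end Words

section Walks
variable {V J : Type}

/-- End point of the walk from `v` with label word `p`. -/
def wk (σ : J → V → V) (v : V) (p : List J) : V := p.foldl (fun v j => σ j v) v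

@[simp] theorem wk_nil (σ : J → V → V) (v : V) : wk σ v [] = v := rfl
@[simp] theorem wk_cons (σ : J → V → V) (v : V) (j : J) (p : List J) :
    wk σ v (j :: p) = wk σ (σ j v) p := rfl
theorem wk_append (σ : J → V → V) (v : V) (p q : List J) :
    wk σ v (p ++ q) = wk σ (wk σ v p) q := by simp [wk]

theorem wk_rv {σ : J → V → V} {ι : J → J} (hσ : ∀ j v, σ (ι j) (σ j v) = v) (v : V) (p : List J) :
    wk σ (wk σ v p) (rv ι p) = v := by
  induction p generalizing v with
  | nil => rfl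
  | cons j p ih => rw [rv_cons, wk_append, wk_cons σ v, ih]; simp [hσ]

theorem wk_bij [Finite V] {σ : J → V → V} {ι : J → J} (hσ : ∀ j v, σ (ι j) (σ j v) = v)
    (p : List J) : Function.Bijective (fun v => wk σ v p) :=
  Finite.injective_iff_bijective.1
    (Function.LeftInverse.injective (g := fun v => wk σ v (rv ι p)) (fun v => wk_rv hσ v p))

theorem expect_bij [Fintype V] {e : V → V} (he : Function.Bijective e) (f : V → ℝ) :
    𝔼 v, f (e v) = 𝔼 v, f v :=
  Fintype.expect_equiv (Equiv.ofBijective e he) _ _ (fun _ => rfl)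

theorem expect_step [Fintype V] {σ : J → V → V} {ι : J → J} (hσ : ∀ j v, σ (ι j) (σ j v) = v)
    (j : J) (f : V → ℝ) : 𝔼 v, f (σ j v) = 𝔼 v, f v :=
  expect_bij (wk_bij hσ [j]) f

variable [Fintype V] [Fintype J]

theorem reversal {σ : J → V → V} {ι : J → J} (hι : Function.Involutive ι)
    (hσ : ∀ j v, σ (ι j) (σ j v) = v) (r : ℕ) (Φ : V → List J → ℝ) :
    𝔼 a, avgW r (Φ a) = 𝔼 u, avgW r (fun p => Φ (wk σ u p) (rv ι p)) := by
  rw [← avgW_expect, ← avgW_expect, ← avgW_rv hι]
  refine avgW_congr (fun p _ => ?_)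
  exact (expect_bij (wk_bij hσ p) (fun a => Φ a (rv ι p))).symm

/-- Number of marked steps among the first `n` steps of a walk. -/
noncomputable def cnt (σ : J → V → V) (X : V → J → ℝ) : ℕ → V → List J → ℝ
  | 0, _, _ => 0
  | _ + 1, _, [] => 0
  | n + 1, a, j :: w => X a j + cnt σ X n (σ j a) w

omit [Fintype V] [Fintype J] in
theorem cnt_eq (σ : J → V → V) (X : V → J → ℝ) (d : J) (n : ℕ) (a : V) (w : List J)
    (h : n ≤ w.length) :
    cnt σ X n a w = ∑ r ∈ range n, X (wk σ a (w.take r)) (w.getD r d) := by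
  induction n generalizing a w with
  | zero => simp [cnt]
  | succ n ih =>
    cases w with
    | nil => simp at h
    | cons j w =>
      rw [Finset.sum_range_succ', cnt, ih _ _ (by simpa using h)]
      simp [add_comm]

theorem second_moment [Nonempty V] [Nonempty J] {σ : J → V → V} {ι : J → J}
    (hσ : ∀ j v, σ (ι j) (σ j v) = v) {θ : ℝ} (hθ : 0 < θ) (hθ1 : θ ≤ 1)
    (hgap : ∀ f : V → ℝ, 𝔼 v, f v = 0 →
      𝔼 v, (𝔼 j, f (σ j v)) ^ 2 ≤ (1 - θ) * 𝔼 v, f v ^ 2)
    (X : V → J → ℝ) (hX0 : ∀ v j, 0 ≤ X v j) (hX1 : ∀ v j, X v j ≤ 1) (k n : ℕ) :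
    𝔼 a, avgW (n + k) (fun w => cnt σ X n a w ^ 2) ≤
      n * ((2 + 2 / θ ^ 3) * (𝔼 v, 𝔼 j, X v j) + 2 * n * (𝔼 v, 𝔼 j, X v j) ^ 2) := by
  set ε := 𝔼 v, 𝔼 j, X v j with hε
  have hε0 : 0 ≤ ε := Finset.expect_nonneg fun v _ => Finset.expect_nonneg fun j _ => hX0 v j
  let m : ℕ → V → ℝ := fun n a => avgW (n + k) (cnt σ X n a)
  have m0 : ∀ a, m 0 a = 0 := fun a => by
    simp only [m]
    exact (avgW_congr (h := fun _ => 0) (fun w _ => by simp [cnt])).trans (avgW_const _ _)
  have ms : ∀ n a, m (n + 1) a = (𝔼 j, X a j) + 𝔼 j, m n (σ j a) := by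
    intro n a
    simp only [m]
    rw [show n + 1 + k = (n + k) + 1 by omega, avgW_succ, ← Finset.expect_add_distrib]
    refine Finset.expect_congr rfl (fun j _ => ?_)
    simp only [cnt]
    rw [avgW_addf, avgW_const]
  have mean : ∀ n, 𝔼 a, m n a = n * ε := by
    intro n
    induction n with
    | zero => simp [m0]
    | succ n ih =>
      simp only [ms]
      rw [Finset.expect_add_distrib, Finset.expect_comm (f := fun a j => m n (σ j a))]
      simp only [expect_step hσ, ih]
      simp only [Finset.expect_const Finset.univ_nonempty]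
      push_cast
      ring
  have hφ : 𝔼 a, ((𝔼 j, X a j) - ε) ^ 2 ≤ ε := by
    have h1 : ∀ a, ((𝔼 j, X a j) - ε) ^ 2 ≤ (𝔼 j, X a j) - 2 * ε * (𝔼 j, X a j) + ε ^ 2 := by
      intro a
      have a0 : 0 ≤ 𝔼 j, X a j := Finset.expect_nonneg fun j _ => hX0 a j
      have a1 : 𝔼 j, X a j ≤ 1 :=
        (Finset.expect_le_expect (g := fun _ => (1 : ℝ)) fun j _ => hX1 a j).trans (by simp)
      nlinarith
    refine (Finset.expect_le_expect (fun a _ => h1 a)).trans ?_
    rw [Finset.expect_add_distrib, Finset.expect_sub_distrib, ← Finset.mul_expect, ← hε]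
    simp only [Finset.expect_const Finset.univ_nonempty]
    nlinarith
  have var : ∀ n, 𝔼 a, (m n a - n * ε) ^ 2 ≤ 2 / θ ^ 3 * ε := by
    intro n
    induction n with
    | zero => simp [m0]; positivity
    | succ n ih =>
      have hz : 𝔼 a, (m n a - n * ε) = 0 := by
        rw [Finset.expect_sub_distrib, mean]; simp
      have hg := hgap _ hz
      have h1 : ∀ a, (m (n + 1) a - (n + 1 : ℕ) * ε) ^ 2 ≤
          (1 + 1 / θ) * ((𝔼 j, X a j) - ε) ^ 2 +
            (1 + θ) * (𝔼 j, (m n (σ j a) - n * ε)) ^ 2 := by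
        intro a
        rw [ms, Finset.expect_sub_distrib]
        simp only [Finset.expect_const Finset.univ_nonempty]
        push_cast
        obtain ⟨x, hx⟩ : ∃ x, x = (𝔼 j, X a j) - ε := ⟨_, rfl⟩
        obtain ⟨y, hy⟩ : ∃ y, y = (𝔼 j, m n (σ j a)) - n * ε := ⟨_, rfl⟩
        have e : (𝔼 j, X a j) + (𝔼 j, m n (σ j a)) - (n + 1) * ε = x + y := by rw [hx, hy]; ring
        rw [e, ← hx, ← hy]
        have : 0 ≤ (x - θ * y) ^ 2 / θ := by positivity
        have e2 : (1 + 1 / θ) * x ^ 2 + (1 + θ) * y ^ 2 - (x + y) ^ 2 = (x - θ * y) ^ 2 / θ := by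
          field_simp; ring
        linarith
      refine (Finset.expect_le_expect (fun a _ => h1 a)).trans ?_
      rw [Finset.expect_add_distrib, ← Finset.mul_expect, ← Finset.mul_expect]
      have b1 : (1 + 1 / θ) * 𝔼 a, ((𝔼 j, X a j) - ε) ^ 2 ≤ (1 + 1 / θ) * ε :=
        mul_le_mul_of_nonneg_left hφ (by positivity)
      have b2 : (1 + θ) * 𝔼 a, (𝔼 j, (m n (σ j a) - n * ε)) ^ 2 ≤
          (1 + θ) * ((1 - θ) * (2 / θ ^ 3 * ε)) :=
        mul_le_mul_of_nonneg_left
          (hg.trans (mul_le_mul_of_nonneg_left ih (by linarith))) (by positivity)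
      have b3 : (1 + 1 / θ) * ε + (1 + θ) * ((1 - θ) * (2 / θ ^ 3 * ε)) ≤ 2 / θ ^ 3 * ε := by
        have e : 2 / θ ^ 3 * ε - ((1 + 1 / θ) * ε + (1 + θ) * ((1 - θ) * (2 / θ ^ 3 * ε))) =
            (1 - θ) / θ * ε := by field_simp; ring
        have : 0 ≤ (1 - θ) / θ * ε := by
          have : 0 ≤ 1 - θ := by linarith
          positivity
        linarith
      linarith
  induction n with
  | zero =>
    have : ∀ a, avgW (0 + k) (fun w => cnt σ X 0 a w ^ 2) = 0 := fun a =>
      (avgW_congr (h := fun _ => 0) (fun w _ => by simp [cnt])).trans (avgW_const _ _)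
    simp only [this]
    simp
  | succ n ih =>
    have hs : ∀ a, avgW (n + 1 + k) (fun w => cnt σ X (n + 1) a w ^ 2) =
        𝔼 j, (X a j ^ 2 + 2 * X a j * m n (σ j a) +
          avgW (n + k) (fun w => cnt σ X n (σ j a) w ^ 2)) := by
      intro a
      rw [show n + 1 + k = (n + k) + 1 by omega, avgW_succ]
      refine Finset.expect_congr rfl (fun j _ => ?_)
      simp only [cnt, m]
      rw [← avgW_mul, ← avgW_const (J := J) (n + k) (X a j ^ 2), ← avgW_addf, ← avgW_addf]
      exact avgW_congr (fun w _ => by ring)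
    simp only [hs]
    have h1 : ∀ a j, X a j ^ 2 + 2 * X a j * m n (σ j a) +
          avgW (n + k) (fun w => cnt σ X n (σ j a) w ^ 2) ≤
        (2 + 2 * n * ε) * X a j + (m n (σ j a) - n * ε) ^ 2 +
          avgW (n + k) (fun w => cnt σ X n (σ j a) w ^ 2) := by
      intro a j
      have := hX0 a j
      have := hX1 a j
      nlinarith [sq_nonneg (X a j - (m n (σ j a) - n * ε))]
    refine (Finset.expect_le_expect (fun a _ => Finset.expect_le_expect
      (fun j _ => h1 a j))).trans ?_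
    simp only [Finset.expect_add_distrib, ← Finset.mul_expect]
    rw [← hε, Finset.expect_comm (f := fun a j => (m n (σ j a) - n * ε) ^ 2),
      Finset.expect_comm (f := fun a j => avgW (n + k) (fun w => cnt σ X n (σ j a) w ^ 2))]
    simp only [expect_step hσ _ (fun a => (m n a - n * ε) ^ 2),
      expect_step hσ _ (fun a => avgW (n + k) (fun w => cnt σ X n a w ^ 2))]
    simp only [Finset.expect_const Finset.univ_nonempty]
    have := var n
    push_cast
    have hn : (0 : ℝ) ≤ n := Nat.cast_nonneg n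
    nlinarith [mul_nonneg hn (sq_nonneg ε), sq_nonneg ε]

end Walks

section Power
variable {V J S : Type}

/-- Label words shorter than `R`. -/
abbrev Pth (J : Type) (R : ℕ) : Type := {p : List J // p.length < R}

instance [Finite J] (R : ℕ) : Finite (Pth J R) := (List.finite_length_lt J R).to_subtype

/-- The opinion about the end point of the path `p`. -/
def op [Inhabited S] {R : ℕ} (x : Pth J R → S) (p : List J) : S :=
  if h : p.length < R then x ⟨p, h⟩ else default

/-- The constraint of the powered graph. -/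
def PS [Inhabited S] (σ : J → V → V) (ι : J → J) (con : J → V → S → S → Bool) (d : J) (R : ℕ)
    (a : V) (l : ℕ) (w : List J) (x y : Pth J R → S) : Prop :=
  ∀ r < R, ∀ s < R, r + s + 1 = l →
    con (w.getD r d) (wk σ a (w.take r)) (op x (w.take r))
      (op y (rv ι ((w.drop (r + 1)).take s))) = true

theorem take_split (w : List J) (r s : ℕ) :
    w.take (r + s + 1) = w.take (r + 1) ++ (w.drop (r + 1)).take s := by
  rw [show r + s + 1 = (r + 1) + s by omega, List.take_add]

theorem take_succ_getD (w : List J) (d : J) {r : ℕ} (h : r < w.length) :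
    w.take (r + 1) = w.take r ++ [w.getD r d] := by
  rw [List.take_add_one, List.getD_eq_getElem?_getD, List.getElem?_eq_getElem h]
  simp

theorem power_complete [Inhabited S] {σ : J → V → V} {ι : J → J}
    (hσ : ∀ j v, σ (ι j) (σ j v) = v) (con : J → V → S → S → Bool) (d : J) (R : ℕ)
    (A0 : V → S) (h : ∀ v j, con j v (A0 v) (A0 (σ j v)) = true) (a : V) (l : ℕ) (w : List J)
    (hw : R ≤ w.length) :
    PS σ ι con d R a l w (fun p => A0 (wk σ a p.1)) (fun p => A0 (wk σ (wk σ a (w.take l)) p.1)) := by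
  intro r hr s hs e
  have h1 : (w.take r).length < R := by simp; omega
  have h2 : (rv ι ((w.drop (r + 1)).take s)).length < R := by rw [length_rv]; simp; omega
  simp only [op, h1, h2, dif_pos]
  rw [← e, take_split, wk_append, wk_rv hσ, take_succ_getD w d (by omega), wk_append]
  exact h _ _

variable [Fintype V] [Fintype J] [Fintype S] [Inhabited S]

theorem exists_plural [Nonempty J] (R : ℕ) (o : ℕ → List J → S) :
    ∃ x : S, (R : ℝ) / Fintype.card S ≤ ∑ r ∈ range R, avgW r (fun p => ind (o r p = x)) := by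
  by_contra hc
  push Not at hc
  have h1 : ∑ x : S, ∑ r ∈ range R, avgW r (fun p => ind (o r p = x)) = R := by
    rw [Finset.sum_comm]
    have : ∀ r, ∑ x : S, avgW r (fun p => ind (o r p = x)) = 1 := by
      intro r
      rw [← avgW_sum, ← avgW_const (J := J) r 1]
      refine avgW_congr (fun p _ => ?_)
      rw [Finset.sum_eq_single (o r p)]
      · exact ind_pos rfl
      · exact fun b _ hb => ind_neg (Ne.symm hb)
      · simp
    simp [this]
  have h2 := Finset.sum_lt_sum_of_nonempty (s := (univ : Finset S)) Finset.univ_nonempty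
    (fun x _ => hc x)
  rw [h1] at h2
  have : (0 : ℝ) < Fintype.card S := by exact_mod_cast Fintype.card_pos
  simp only [Finset.sum_const, Finset.card_univ, nsmul_eq_mul] at h2
  rw [mul_div_cancel₀ _ this.ne'] at h2
  exact lt_irrefl _ h2

theorem first_moment [Nonempty J] {σ : J → V → V} {ι : J → J} (hι : Function.Involutive ι)
    (hσ : ∀ j v, σ (ι j) (σ j v) = v) (d : J) (X : V → J → ℝ) (G : V → List J → V → ℝ)
    (r s k : ℕ) :
    𝔼 a, avgW (r + ((s + k) + 1)) (fun w => X (wk σ a (w.take r)) (w.getD r d) *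
        G a (w.take r) (wk σ a (w.take r)) *
        G (wk σ a (w.take (r + s + 1))) (rv ι ((w.drop (r + 1)).take s))
          (wk σ a (w.take (r + 1)))) =
      𝔼 u, 𝔼 j, X u j * avgW r (fun p => G (wk σ u p) (rv ι p) u) *
        avgW s (fun p => G (wk σ (σ j u) p) (rv ι p) (σ j u)) := by
  have h1 : ∀ a, avgW (r + ((s + k) + 1)) (fun w => X (wk σ a (w.take r)) (w.getD r d) *
        G a (w.take r) (wk σ a (w.take r)) *
        G (wk σ a (w.take (r + s + 1))) (rv ι ((w.drop (r + 1)).take s))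
          (wk σ a (w.take (r + 1)))) =
      avgW r (fun p => G a p (wk σ a p) * 𝔼 j, X (wk σ a p) j *
        avgW s (fun q => G (wk σ (σ j (wk σ a p)) q) (rv ι q) (σ j (wk σ a p)))) := by
    intro a
    rw [avgW_append]
    refine avgW_congr (fun p hp => ?_)
    rw [avgW_succ, Finset.mul_expect]
    refine Finset.expect_congr rfl (fun j _ => ?_)
    rw [avgW_append, ← mul_assoc, ← avgW_mul]
    refine avgW_congr (fun q hq => ?_)
    rw [← avgW_const (J := J) k (G a p (wk σ a p) * X (wk σ a p) j *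
      G (wk σ (σ j (wk σ a p)) q) (rv ι q) (σ j (wk σ a p)))]
    refine avgW_congr (fun z _ => ?_)
    have e1 : (p ++ j :: (q ++ z)).take r = p := by rw [← hp]; simp
    have e2 : (p ++ j :: (q ++ z)).getD r d = j := by rw [← hp]; simp
    have e3 : (p ++ j :: (q ++ z)).take (r + 1) = p ++ [j] := by
      rw [← hp, List.take_append]; simp
    have e4 : ((p ++ j :: (q ++ z)).drop (r + 1)).take s = q := by
      rw [← hp, ← hq, List.drop_append, List.drop_of_length_le (Nat.le_succ _)]; simp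
    rw [take_split, e1, e2, e3, e4, wk_append, wk_append]
    simp only [wk_cons, wk_nil]
    ring
  simp only [h1]
  rw [reversal hι hσ]
  refine Finset.expect_congr rfl (fun u _ => ?_)
  simp only [wk_rv hσ]
  have : ∀ c : ℝ, avgW r (fun p => G (wk σ u p) (rv ι p) u * c) =
      c * avgW r (fun p => G (wk σ u p) (rv ι p) u) := fun c => by
    rw [← avgW_mul]; exact avgW_congr (fun _ _ => by ring)
  rw [this, Finset.expect_mul]
  exact Finset.expect_congr rfl (fun j _ => by ring)

theorem power_sound [Nonempty V] [Nonempty J] {σ : J → V → V} {ι : J → J}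
    (hι : Function.Involutive ι)
    (hσ : ∀ j v, σ (ι j) (σ j v) = v) {θ : ℝ} (hθ : 0 < θ) (hθ1 : θ ≤ 1)
    (hgap : ∀ f : V → ℝ, 𝔼 v, f v = 0 →
      𝔼 v, (𝔼 j, f (σ j v)) ^ 2 ≤ (1 - θ) * 𝔼 v, f v ^ 2)
    (con : J → V → S → S → Bool) (d : J) {R : ℕ} (hR : 0 < R) {ε0 : ℝ}
    (h0 : ∀ A0 : V → S, ε0 ≤ 𝔼 v, 𝔼 j, ind (con j v (A0 v) (A0 (σ j v)) = false))
    (A : V → Pth J R → S) :
    (1 / (2 * (Fintype.card S : ℝ) ^ 2)) ^ 2 / (4 + 2 / θ ^ 3) * min (R * ε0) 1 ≤
      𝔼 a, 𝔼 l : Fin (2 * R), avgW (2 * R)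
        (fun w => ind (¬ PS σ ι con d R a l w (A a) (A (wk σ a (w.take l))))) := by
  choose A0 hA0 using fun u : V =>
    exists_plural (J := J) R (fun _ p => op (A (wk σ u p)) (rv ι p))
  let X : V → J → ℝ := fun v j => ind (con j v (A0 v) (A0 (σ j v)) = false)
  let G : V → List J → V → ℝ := fun a p u => ind (op (A a) p = A0 u)
  let Z : ℕ → ℕ → V → List J → ℝ := fun r s a w => X (wk σ a (w.take r)) (w.getD r d) *
        G a (w.take r) (wk σ a (w.take r)) *
        G (wk σ a (w.take (r + s + 1))) (rv ι ((w.drop (r + 1)).take s))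
          (wk σ a (w.take (r + 1)))
  let N : V → ℕ → List J → ℝ := fun a l w =>
    ∑ r ∈ range R, ∑ s ∈ range R, ind (r + s + 1 = l) * Z r s a w
  obtain ⟨ε, hε⟩ : ∃ ε, ε = 𝔼 v, 𝔼 j, X v j := ⟨_, rfl⟩
  have hε0 : ε0 ≤ ε := hε ▸ h0 A0
  have hεn : 0 ≤ ε := hε ▸
    Finset.expect_nonneg fun v _ => Finset.expect_nonneg fun j _ => ind_nonneg _
  obtain ⟨q, hq⟩ : ∃ q : ℝ, q = Fintype.card S := ⟨_, rfl⟩
  have hq0 : 0 < q := by rw [hq]; exact_mod_cast Fintype.card_pos
  have hR0 : (0 : ℝ) < R := by exact_mod_cast hR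
  rw [← hq] at hA0 ⊢
  have hZ0 : ∀ r s a w, 0 ≤ Z r s a w := fun r s a w =>
    mul_nonneg (mul_nonneg (ind_nonneg _) (ind_nonneg _)) (ind_nonneg _)
  have hZ1 : ∀ r s a w, Z r s a w ≤ X (wk σ a (w.take r)) (w.getD r d) := fun r s a w => by
    have a1 : 0 ≤ X (wk σ a (w.take r)) (w.getD r d) := ind_nonneg _
    exact (mul_le_of_le_one_right (mul_nonneg a1 (ind_nonneg _)) (ind_le_one _)).trans
      (mul_le_of_le_one_right a1 (ind_le_one _))
  have hN0 : ∀ a l w, 0 ≤ N a l w := fun a l w =>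
    Finset.sum_nonneg fun r _ => Finset.sum_nonneg fun s _ => mul_nonneg (ind_nonneg _) (hZ0 _ _ _ _)
  have hN1 : ∀ a l (w : List J), w.length = 2 * R → N a l w ≤ cnt σ X R a w := by
    intro a l w hw
    rw [cnt_eq σ X d R a w (by omega)]
    refine Finset.sum_le_sum (fun r _ => ?_)
    have a1 : 0 ≤ X (wk σ a (w.take r)) (w.getD r d) := ind_nonneg _
    calc ∑ s ∈ range R, ind (r + s + 1 = l) * Z r s a w
        ≤ ∑ s ∈ range R, ind (r + s + 1 = l) * X (wk σ a (w.take r)) (w.getD r d) :=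
          Finset.sum_le_sum fun s _ => mul_le_mul_of_nonneg_left (hZ1 _ _ _ _) (ind_nonneg _)
      _ ≤ _ := by
          rw [← Finset.sum_mul]
          refine mul_le_of_le_one_left a1 ?_
          by_cases hs : l - 1 - r ∈ range R
          · rw [Finset.sum_eq_single_of_mem _ hs (fun b _ hb => ind_neg (by omega))]
            exact ind_le_one _
          · rw [Finset.sum_eq_zero (fun b hb => ind_neg (fun e => hs (by
              rw [show l - 1 - r = b by omega]; exact hb)))]
            norm_num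
  have hNv : ∀ a l (w : List J), w.length = 2 * R →
      PS σ ι con d R a l w (A a) (A (wk σ a (w.take l))) → N a l w = 0 := by
    intro a l w hw hP
    refine Finset.sum_eq_zero fun r hr => Finset.sum_eq_zero fun s hs => ?_
    by_cases e : r + s + 1 = l
    · have := hP r (mem_range.1 hr) s (mem_range.1 hs) e
      have hr' := mem_range.1 hr
      by_cases g1 : op (A a) (w.take r) = A0 (wk σ a (w.take r))
      · by_cases g2 : op (A (wk σ a (w.take (r + s + 1)))) (rv ι ((w.drop (r + 1)).take s)) =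
            A0 (wk σ a (w.take (r + 1)))
        · rw [← e, g1, g2, take_succ_getD w d (by omega), wk_append] at this
          have hX : X (wk σ a (w.take r)) (w.getD r d) = 0 := ind_neg (by
            simp only [wk_cons, wk_nil] at this
            rw [this]; simp)
          simp only [Z, hX, zero_mul, mul_zero]
        · simp only [Z, G, ind_neg g2, mul_zero]
      · simp only [Z, G, ind_neg g1, mul_zero, zero_mul]
    · rw [ind_neg e, zero_mul]
  have E1 : R * ε / (2 * q ^ 2) ≤ 𝔼 a, 𝔼 l : Fin (2 * R), avgW (2 * R) (N a l) := by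
    have s1 : ∀ a, 𝔼 l : Fin (2 * R), avgW (2 * R) (N a l) =
        (∑ r ∈ range R, ∑ s ∈ range R, avgW (2 * R) (Z r s a)) / (2 * R) := by
      intro a
      rw [Fintype.expect_eq_sum_div_card, Fintype.card_fin]
      push_cast
      congr 1
      simp only [N, avgW_sum, avgW_mul]
      rw [Finset.sum_comm]
      refine Finset.sum_congr rfl (fun r hr => ?_)
      rw [Finset.sum_comm]
      refine Finset.sum_congr rfl (fun s hs => ?_)
      rw [← Finset.sum_mul, Finset.sum_eq_single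
        (⟨r + s + 1, by have := mem_range.1 hr; have := mem_range.1 hs; omega⟩ : Fin (2 * R)),
        ind_pos rfl, one_mul]
      · exact fun b _ hb => ind_neg (fun e => hb (Fin.ext e.symm))
      · simp
    simp only [s1]
    rw [← Finset.expect_div, le_div_iff₀ (by positivity)]
    simp only [Finset.expect_sum_comm]
    have s2 : ∀ r ∈ range R, ∀ s ∈ range R, 𝔼 a, avgW (2 * R) (Z r s a) =
        𝔼 u, 𝔼 j, X u j * avgW r (fun p => G (wk σ u p) (rv ι p) u) *
          avgW s (fun p => G (wk σ (σ j u) p) (rv ι p) (σ j u)) := by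
      intro r hr s hs
      have := mem_range.1 hr
      have := mem_range.1 hs
      rw [← first_moment hι hσ d X G r s (2 * R - r - s - 1),
        show r + (s + (2 * R - r - s - 1) + 1) = 2 * R by omega]
    rw [Finset.sum_congr rfl (fun r hr => Finset.sum_congr rfl (s2 r hr))]
    simp only [← Finset.expect_sum_comm]
    have s3 : R * ε / (2 * q ^ 2) * (2 * R) = 𝔼 u, 𝔼 j, X u j * (R / q) * (R / q) := by
      simp only [← Finset.expect_mul]
      rw [← hε]
      field_simp
    rw [s3]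
    refine Finset.expect_le_expect fun u _ => Finset.expect_le_expect fun j _ => ?_
    simp only [← Finset.mul_sum]
    rw [← Finset.sum_mul, ← Finset.mul_sum]
    have a1 : 0 ≤ X u j := ind_nonneg _
    have a2 : 0 ≤ R / q := by positivity
    exact mul_le_mul (mul_le_mul_of_nonneg_left (hA0 u) a1) (hA0 (σ j u)) a2
      (mul_nonneg a1 (a2.trans (hA0 u)))
  have E2 := second_moment hσ hθ hθ1 hgap X (fun _ _ => ind_nonneg _) (fun _ _ => ind_le_one _) R R
  rw [← hε, ← two_mul] at E2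
  obtain ⟨b, hb⟩ : ∃ b, b = 2 + 2 / θ ^ 3 := ⟨_, rfl⟩
  have hb0 : 0 < b := by rw [hb]; positivity
  rw [show 4 + 2 / θ ^ 3 = b + 2 by rw [hb]; ring]
  rw [← hb] at E2
  obtain ⟨α, hα⟩ : ∃ α, α = 1 / (2 * q ^ 2) := ⟨_, rfl⟩
  have hα0 : 0 < α := by rw [hα]; positivity
  rw [← hα]
  obtain ⟨x, hx⟩ : ∃ x, x = R * ε := ⟨_, rfl⟩
  have hx0 : 0 ≤ x := by rw [hx]; positivity
  have E1' : α * x ≤ 𝔼 a, 𝔼 l : Fin (2 * R), avgW (2 * R) (N a l) := by
    refine le_trans (le_of_eq ?_) E1
    rw [hα, hx]; ring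
  have E2' : 𝔼 a, avgW (2 * R) (fun w => cnt σ X R a w ^ 2) ≤ (b + 2 * x) * x := by
    refine E2.trans (le_of_eq ?_)
    rw [hx]; ring
  obtain ⟨t, ht⟩ : ∃ t, t = α / (b + 2 * x) := ⟨_, rfl⟩
  have ht0 : 0 < t := by rw [ht]; positivity
  haveI : Nonempty (Fin (2 * R)) := ⟨⟨0, by omega⟩⟩
  have key : 2 * t * (𝔼 a, 𝔼 l : Fin (2 * R), avgW (2 * R) (N a l)) -
      t ^ 2 * 𝔼 a, avgW (2 * R) (fun w => cnt σ X R a w ^ 2) ≤
      𝔼 a, 𝔼 l : Fin (2 * R), avgW (2 * R)
        (fun w => ind (¬ PS σ ι con d R a l w (A a) (A (wk σ a (w.take l))))) := by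
    rw [Finset.mul_expect, Finset.mul_expect, ← Finset.expect_sub_distrib]
    refine Finset.expect_le_expect fun a _ => ?_
    rw [Finset.mul_expect, ← Finset.expect_const (Finset.univ_nonempty (α := Fin (2 * R)))
      (t ^ 2 * avgW (2 * R) (fun w => cnt σ X R a w ^ 2)), ← Finset.expect_sub_distrib]
    refine Finset.expect_le_expect fun l _ => ?_
    rw [← avgW_mul, ← avgW_mul, ← avgW_subf]
    refine avgW_mono fun w hw => ?_
    have n0 := hN0 a l w
    have n1 := hN1 a l w hw
    have n2 : t ^ 2 * N a l w ^ 2 ≤ t ^ 2 * cnt σ X R a w ^ 2 :=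
      mul_le_mul_of_nonneg_left (pow_le_pow_left₀ n0 n1 2) (by positivity)
    by_cases hP : PS σ ι con d R a l w (A a) (A (wk σ a (w.take l)))
    · rw [ind_neg (not_not.2 hP), hNv a l w hw hP]
      have : 0 ≤ t ^ 2 * cnt σ X R a w ^ 2 := by positivity
      linarith
    · rw [ind_pos hP]
      nlinarith [sq_nonneg (t * N a l w - 1)]
  refine le_trans ?_ key
  have f1 : 2 * t * (α * x) - t ^ 2 * ((b + 2 * x) * x) ≤
      2 * t * (𝔼 a, 𝔼 l : Fin (2 * R), avgW (2 * R) (N a l)) -
      t ^ 2 * 𝔼 a, avgW (2 * R) (fun w => cnt σ X R a w ^ 2) := by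
    have := mul_le_mul_of_nonneg_left E1' (show 0 ≤ 2 * t by positivity)
    have := mul_le_mul_of_nonneg_left E2' (show 0 ≤ t ^ 2 by positivity)
    linarith
  refine le_trans ?_ f1
  have f2 : 2 * t * (α * x) - t ^ 2 * ((b + 2 * x) * x) = α ^ 2 * (x / (b + 2 * x)) := by
    rw [ht]; field_simp; ring
  rw [f2, div_mul_eq_mul_div, mul_div_assoc]
  refine mul_le_mul_of_nonneg_left ?_ (by positivity)
  rw [div_le_div_iff₀ (by positivity) (by positivity)]
  have m1 : min (R * ε0) 1 ≤ x := (min_le_left _ _).trans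
    (hx ▸ mul_le_mul_of_nonneg_left hε0 hR0.le)
  have m2 : min (R * ε0) 1 ≤ 1 := min_le_right _ _
  nlinarith [mul_le_mul_of_nonneg_right m1 hb0.le, mul_le_mul_of_nonneg_right m2 hx0]

end Power

end Pool.Agent.MP_9e68e9_lc.PCP

end

section

/-! The Margulis expander on `ZMod n × ZMod n` and its numerical form. -/

namespace Pool.Agent.MP_9e68e9_lc.PCP

open Finset
open scoped BigOperators ComplexConjugate

/-- Weight used in the Jimbo-Maruoka argument. -/
noncomputable def gam (x y : ℕ) : ℝ := if y < x then 5 / 4 else if x < y then 4 / 5 else 1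

theorem gam_le (x y : ℕ) : gam x y ≤ 5 / 4 := by unfold gam; split_ifs <;> norm_num
theorem gam_ge (x y : ℕ) : 4 / 5 ≤ gam x y := by unfold gam; split_ifs <;> norm_num

theorem gam_amgm (x y : ℕ) (a b : ℝ) : 2 * (a * b) ≤ gam x y * a ^ 2 + gam y x * b ^ 2 := by
  unfold gam
  rcases lt_trichotomy x y with h | h | h
  · simp only [h, h.not_gt, if_true, if_false]
    nlinarith [sq_nonneg (4 * a - 5 * b)]
  · simp only [h, lt_irrefl, if_false]
    nlinarith [sq_nonneg (a - b)]
  · simp only [h, h.not_gt, if_true, if_false]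
    nlinarith [sq_nonneg (5 * a - 4 * b)]

theorem gam_mono {x u v n : ℕ} (h : x + u < n) (hv : u ≤ v ∨ n ≤ u + v) : gam x v ≤ gam x u := by
  rcases hv with hv | hv
  · unfold gam
    split_ifs <;> first | omega | norm_num
  · have : gam x v = 4 / 5 := by
      unfold gam
      rw [if_neg (by omega), if_pos (by omega)]
    rw [this]; exact gam_ge _ _

theorem gam_four (X Y : ℤ) (h : ¬ (X = 0 ∧ Y = 0)) :
    gam Y.natAbs (Y - 2 * X).natAbs + gam Y.natAbs (Y + 2 * X).natAbs +
      (gam X.natAbs (X - 2 * Y).natAbs + gam X.natAbs (X + 2 * Y).natAbs) ≤ 15 / 4 := by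
  unfold gam
  split_ifs <;> first | omega | norm_num

section Z
variable {n : ℕ} [NeZero n]

/-- Distance to zero. -/
def dz (t : ZMod n) : ℕ := t.valMinAbs.natAbs

theorem dz_ge (u : ℤ) : u.natAbs ≤ dz (u : ZMod n) ∨ n ≤ u.natAbs + dz (u : ZMod n) := by
  have h : ((u - (u : ZMod n).valMinAbs : ℤ) : ZMod n) = 0 := by simp
  rw [ZMod.intCast_zmod_eq_zero_iff_dvd] at h
  by_cases e : u - (u : ZMod n).valMinAbs = 0
  · left; unfold dz; omega
  · right
    have := Int.natAbs_le_of_dvd_ne_zero h e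
    unfold dz
    omega

/-- The factor coming from the shift. -/
noncomputable def cf (a : ZMod n) : ℝ := ‖1 + ZMod.stdAddChar (-a)‖

theorem cf_nonneg (a : ZMod n) : 0 ≤ cf a := norm_nonneg _

theorem cf_sq (a : ZMod n) : cf a ^ 2 = 2 + 2 * Real.cos (2 * Real.pi * dz a / n) := by
  have h : (-a) = ((-a.valMinAbs : ℤ) : ZMod n) := by simp
  have e : (2 * Real.pi * Complex.I * ((-a.valMinAbs : ℤ) : ℂ) / n : ℂ) =
      ((2 * Real.pi * (-a.valMinAbs : ℤ) / n : ℝ) : ℂ) * Complex.I := by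
    push_cast; ring
  unfold cf
  rw [h, ZMod.stdAddChar_coe, e, ← Complex.normSq_eq_norm_sq, Complex.normSq_apply]
  simp only [Complex.add_re, Complex.add_im, Complex.one_re, Complex.one_im,
    Complex.exp_ofReal_mul_I_re, Complex.exp_ofReal_mul_I_im]
  have c : Real.cos (2 * Real.pi * (-a.valMinAbs : ℤ) / n) =
      Real.cos (2 * Real.pi * dz a / n) := by
    rw [← Real.cos_abs]
    congr 1
    unfold dz
    rw [abs_div, abs_mul, abs_of_pos (by positivity : 0 < 2 * Real.pi), Nat.abs_cast]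
    push_cast
    rw [abs_neg, Nat.cast_natAbs]
    push_cast
    rfl
  rw [← c]
  nlinarith [Real.sin_sq_add_cos_sq (2 * Real.pi * (-a.valMinAbs : ℤ) / n)]

theorem cf_le (a : ZMod n) : cf a ≤ 2 := by
  have := cf_sq a
  have := Real.cos_le_one (2 * Real.pi * dz a / n)
  have := cf_nonneg a
  nlinarith

theorem cf_add (a b : ZMod n) (h : n ≤ 2 * (dz a + dz b)) : cf a + cf b ≤ 3 := by
  have hn : (0 : ℝ) < n := by exact_mod_cast Nat.pos_of_ne_zero (NeZero.ne n)
  have ha : 2 * dz a ≤ n := by have := ZMod.natAbs_valMinAbs_le a; unfold dz; omega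
  have hb : 2 * dz b ≤ n := by have := ZMod.natAbs_valMinAbs_le b; unfold dz; omega
  have ha' : (2 * dz a : ℝ) ≤ n := by exact_mod_cast ha
  have hb' : (2 * dz b : ℝ) ≤ n := by exact_mod_cast hb
  have h' : (n : ℝ) ≤ 2 * (dz a + dz b) := by exact_mod_cast h
  have hp := Real.pi_pos
  have c : Real.cos (2 * Real.pi * dz b / n) ≤ Real.cos (Real.pi - 2 * Real.pi * dz a / n) := by
    apply Real.cos_le_cos_of_nonneg_of_le_pi
    · rw [sub_nonneg, div_le_iff₀ hn]; nlinarith
    · rw [div_le_iff₀ hn]; nlinarith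
    · rw [sub_le_iff_le_add, ← add_div, le_div_iff₀ hn]; nlinarith
  rw [Real.cos_pi_sub] at c
  have := cf_sq a
  have := cf_sq b
  nlinarith [cf_nonneg a, cf_nonneg b, sq_nonneg (cf a - cf b)]

theorem bracket (a b : ZMod n) (h : ¬ (a = 0 ∧ b = 0)) :
    cf a * (gam (dz b) (dz (b - 2 * a)) + gam (dz b) (dz (b + 2 * a))) +
      cf b * (gam (dz a) (dz (a - 2 * b)) + gam (dz a) (dz (a + 2 * b))) ≤ 15 / 2 := by
  have g1 := gam_le (dz b) (dz (b - 2 * a))
  have g2 := gam_le (dz b) (dz (b + 2 * a))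
  have g3 := gam_le (dz a) (dz (a - 2 * b))
  have g4 := gam_le (dz a) (dz (a + 2 * b))
  have ca := cf_nonneg a
  have cb := cf_nonneg b
  by_cases hd : n ≤ 2 * (dz a + dz b)
  · have := cf_add a b hd
    nlinarith
  · obtain ⟨X, hX⟩ : ∃ X, X = a.valMinAbs := ⟨_, rfl⟩
    obtain ⟨Y, hY⟩ : ∃ Y, Y = b.valMinAbs := ⟨_, rfl⟩
    have ea : a = (X : ZMod n) := by simp [hX]
    have eb : b = (Y : ZMod n) := by simp [hY]
    have da : dz a = X.natAbs := by rw [hX]; rfl
    have db : dz b = Y.natAbs := by rw [hY]; rfl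
    have h0 : ¬ (X = 0 ∧ Y = 0) := by
      rintro ⟨h1, h2⟩
      exact h ⟨by rw [ea, h1]; simp, by rw [eb, h2]; simp⟩
    have e1 : b - 2 * a = ((Y - 2 * X : ℤ) : ZMod n) := by push_cast; rw [← ea, ← eb]
    have e2 : b + 2 * a = ((Y + 2 * X : ℤ) : ZMod n) := by push_cast; rw [← ea, ← eb]
    have e3 : a - 2 * b = ((X - 2 * Y : ℤ) : ZMod n) := by push_cast; rw [← ea, ← eb]
    have e4 : a + 2 * b = ((X + 2 * Y : ℤ) : ZMod n) := by push_cast; rw [← ea, ← eb]
    rw [da, db] at hd
    have k1 : gam (dz b) (dz (b - 2 * a)) ≤ gam Y.natAbs (Y - 2 * X).natAbs := by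
      rw [e1, db]; exact gam_mono (n := n) (by omega) (dz_ge _)
    have k2 : gam (dz b) (dz (b + 2 * a)) ≤ gam Y.natAbs (Y + 2 * X).natAbs := by
      rw [e2, db]; exact gam_mono (n := n) (by omega) (dz_ge _)
    have k3 : gam (dz a) (dz (a - 2 * b)) ≤ gam X.natAbs (X - 2 * Y).natAbs := by
      rw [e3, da]; exact gam_mono (n := n) (by omega) (dz_ge _)
    have k4 : gam (dz a) (dz (a + 2 * b)) ≤ gam X.natAbs (X + 2 * Y).natAbs := by
      rw [e4, da]; exact gam_mono (n := n) (by omega) (dz_ge _)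
    have := gam_four X Y h0
    have := cf_le a
    have := cf_le b
    have := gam_ge (dz b) (dz (b - 2 * a))
    have := gam_ge (dz b) (dz (b + 2 * a))
    have := gam_ge (dz a) (dz (a - 2 * b))
    have := gam_ge (dz a) (dz (a + 2 * b))
    nlinarith

/-- Shear in the second coordinate. -/
def sh2 (c e : ZMod n) : ZMod n × ZMod n ≃ ZMod n × ZMod n where
  toFun z := (z.1, z.2 + c * z.1 + e)
  invFun z := (z.1, z.2 - c * z.1 - e)
  left_inv z := by ext <;> simp; ring
  right_inv z := by ext <;> simp; ring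

/-- Shear in the first coordinate. -/
def sh1 (c e : ZMod n) : ZMod n × ZMod n ≃ ZMod n × ZMod n where
  toFun z := (z.1 + c * z.2 + e, z.2)
  invFun z := (z.1 - c * z.2 - e, z.2)
  left_inv z := by ext <;> simp; ring
  right_inv z := by ext <;> simp; ring

theorem comb (G : ZMod n × ZMod n → ℝ) (h0 : G (0, 0) = 0) :
    ∑ t, G t * (cf t.1 * G (t.1, t.2 - 2 * t.1) + cf t.2 * G (t.1 - 2 * t.2, t.2)) ≤
      15 / 4 * ∑ t, G t ^ 2 := by
  have h1 : ∀ t : ZMod n × ZMod n,
      2 * (G t * (cf t.1 * G (t.1, t.2 - 2 * t.1) + cf t.2 * G (t.1 - 2 * t.2, t.2))) ≤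
      (cf t.1 * gam (dz t.2) (dz (t.2 - 2 * t.1)) * G t ^ 2 +
        cf t.1 * gam (dz (t.2 - 2 * t.1)) (dz t.2) * G (t.1, t.2 - 2 * t.1) ^ 2) +
      (cf t.2 * gam (dz t.1) (dz (t.1 - 2 * t.2)) * G t ^ 2 +
        cf t.2 * gam (dz (t.1 - 2 * t.2)) (dz t.1) * G (t.1 - 2 * t.2, t.2) ^ 2) := by
    intro t
    have a1 := mul_le_mul_of_nonneg_left
      (gam_amgm (dz t.2) (dz (t.2 - 2 * t.1)) (G t) (G (t.1, t.2 - 2 * t.1))) (cf_nonneg t.1)
    have a2 := mul_le_mul_of_nonneg_left
      (gam_amgm (dz t.1) (dz (t.1 - 2 * t.2)) (G t) (G (t.1 - 2 * t.2, t.2))) (cf_nonneg t.2)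
    linarith
  have h2 := Finset.sum_le_sum (fun t (_ : t ∈ (univ : Finset (ZMod n × ZMod n))) => h1 t)
  rw [← Finset.mul_sum, Finset.sum_add_distrib, Finset.sum_add_distrib,
    Finset.sum_add_distrib] at h2
  have r1 : ∑ t : ZMod n × ZMod n,
      cf t.1 * gam (dz (t.2 - 2 * t.1)) (dz t.2) * G (t.1, t.2 - 2 * t.1) ^ 2 =
      ∑ t : ZMod n × ZMod n, cf t.1 * gam (dz t.2) (dz (t.2 + 2 * t.1)) * G t ^ 2 := by
    symm
    refine Fintype.sum_equiv (sh2 2 0) _ _ (fun t => ?_)
    simp [sh2]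
  have r2 : ∑ t : ZMod n × ZMod n,
      cf t.2 * gam (dz (t.1 - 2 * t.2)) (dz t.1) * G (t.1 - 2 * t.2, t.2) ^ 2 =
      ∑ t : ZMod n × ZMod n, cf t.2 * gam (dz t.1) (dz (t.1 + 2 * t.2)) * G t ^ 2 := by
    symm
    refine Fintype.sum_equiv (sh1 2 0) _ _ (fun t => ?_)
    simp [sh1]
  rw [r1, r2, ← Finset.sum_add_distrib, ← Finset.sum_add_distrib, ← Finset.sum_add_distrib] at h2
  have h3 : ∑ t : ZMod n × ZMod n,
      ((cf t.1 * gam (dz t.2) (dz (t.2 - 2 * t.1)) * G t ^ 2 +
        cf t.1 * gam (dz t.2) (dz (t.2 + 2 * t.1)) * G t ^ 2) +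
      (cf t.2 * gam (dz t.1) (dz (t.1 - 2 * t.2)) * G t ^ 2 +
        cf t.2 * gam (dz t.1) (dz (t.1 + 2 * t.2)) * G t ^ 2)) ≤ ∑ t, 15 / 2 * G t ^ 2 := by
    refine Finset.sum_le_sum (fun t _ => ?_)
    by_cases ht : t.1 = 0 ∧ t.2 = 0
    · have : G t = 0 := by rw [← h0]; congr 1; exact Prod.ext ht.1 ht.2
      simp [this]
    · have := mul_le_mul_of_nonneg_right (bracket t.1 t.2 ht) (sq_nonneg (G t))
      linarith
  rw [← Finset.mul_sum] at h3
  linarith

/-- Fourier transform. -/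
noncomputable def ft (f : ZMod n × ZMod n → ℝ) (t : ZMod n × ZMod n) : ℂ :=
  ∑ z : ZMod n × ZMod n, (f z : ℂ) * ZMod.stdAddChar (t.1 * z.1 + t.2 * z.2)

theorem ortho (z w : ZMod n × ZMod n) :
    ∑ t : ZMod n × ZMod n, (ZMod.stdAddChar (t.1 * (w.1 - z.1) + t.2 * (w.2 - z.2)) : ℂ) =
      if z = w then ((n : ℂ) * n) else 0 := by
  simp only [AddChar.map_add_eq_mul]
  rw [Fintype.sum_prod_type' (fun a b : ZMod n =>
    (ZMod.stdAddChar (a * (w.1 - z.1)) : ℂ) * ZMod.stdAddChar (b * (w.2 - z.2))),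
    ← Finset.sum_mul_sum, AddChar.sum_mulShift _ (ZMod.isPrimitive_stdAddChar n),
    AddChar.sum_mulShift _ (ZMod.isPrimitive_stdAddChar n)]
  by_cases h : z = w
  · simp [h, ZMod.card]
  · rw [if_neg h]
    by_cases h1 : w.1 - z.1 = 0
    · have h2 : ¬ w.2 - z.2 = 0 := fun h2 =>
        h (Prod.ext (sub_eq_zero.1 h1).symm (sub_eq_zero.1 h2).symm)
      simp [h2]
    · simp [h1]

theorem plancherel (f g : ZMod n × ZMod n → ℝ) :
    ∑ t, conj (ft f t) * ft g t = (((n : ℝ) * n * ∑ z, f z * g z : ℝ) : ℂ) := by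
  have h1 : ∀ t, conj (ft f t) * ft g t = ∑ z, ∑ w, (f z * g w : ℂ) *
      ZMod.stdAddChar (t.1 * (w.1 - z.1) + t.2 * (w.2 - z.2)) := by
    intro t
    unfold ft
    rw [map_sum, Finset.sum_mul_sum]
    refine Finset.sum_congr rfl fun z _ => Finset.sum_congr rfl fun w _ => ?_
    rw [map_mul, Complex.conj_ofReal, ← AddChar.map_neg_eq_conj,
      show t.1 * (w.1 - z.1) + t.2 * (w.2 - z.2) =
        -(t.1 * z.1 + t.2 * z.2) + (t.1 * w.1 + t.2 * w.2) by ring, AddChar.map_add_eq_mul _ (-_)]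
    ring
  simp only [h1]
  rw [Finset.sum_comm]
  push_cast
  rw [Finset.mul_sum]
  refine Finset.sum_congr rfl fun z _ => ?_
  rw [Finset.sum_comm]
  simp only [← Finset.mul_sum, ortho]
  simp only [mul_ite, mul_zero, Finset.sum_ite_eq, Finset.mem_univ, if_true]
  ring

theorem ft_sh1 (f : ZMod n × ZMod n → ℝ) (e : ZMod n) (t : ZMod n × ZMod n) :
    ft (fun z => f (sh1 2 e z)) t = ZMod.stdAddChar (-(t.1 * e)) * ft f (t.1, t.2 - 2 * t.1) := by
  unfold ft
  rw [Finset.mul_sum]
  refine Fintype.sum_equiv (sh1 2 e) _ _ (fun z => ?_)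
  rw [mul_left_comm, ← AddChar.map_add_eq_mul]
  congr 2
  simp only [sh1, Equiv.coe_fn_mk]
  ring

theorem ft_sh2 (f : ZMod n × ZMod n → ℝ) (e : ZMod n) (t : ZMod n × ZMod n) :
    ft (fun z => f (sh2 2 e z)) t = ZMod.stdAddChar (-(t.2 * e)) * ft f (t.1 - 2 * t.2, t.2) := by
  unfold ft
  rw [Finset.mul_sum]
  refine Fintype.sum_equiv (sh2 2 e) _ _ (fun z => ?_)
  rw [mul_left_comm, ← AddChar.map_add_eq_mul]
  congr 2
  simp only [sh2, Equiv.coe_fn_mk]
  ring

theorem margulis (f : ZMod n × ZMod n → ℝ) (h0 : ∑ z, f z = 0) :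
    ∑ z, f z * f (sh1 2 0 z) + ∑ z, f z * f (sh1 2 1 z) +
      (∑ z, f z * f (sh2 2 0 z) + ∑ z, f z * f (sh2 2 1 z)) ≤ 15 / 4 * ∑ z, f z ^ 2 := by
  have hn : (0 : ℝ) < n := by exact_mod_cast Nat.pos_of_ne_zero (NeZero.ne n)
  have p1 := plancherel f (fun z => f (sh1 2 0 z))
  have p2 := plancherel f (fun z => f (sh1 2 1 z))
  have p3 := plancherel f (fun z => f (sh2 2 0 z))
  have p4 := plancherel f (fun z => f (sh2 2 1 z))
  have p0 := plancherel f f
  simp only [ft_sh1, ft_sh2] at p1 p2 p3 p4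
  have g0 : ‖ft f (0, 0)‖ = 0 := by
    unfold ft
    simp only [zero_mul, add_zero, AddChar.map_zero_eq_one, mul_one]
    rw [← Complex.ofReal_sum, h0]; simp
  have c := comb (fun t => ‖ft f t‖) g0
  have q0 : ∑ t, ‖ft f t‖ ^ 2 = n * n * ∑ z, f z ^ 2 := by
    have : ((∑ t, ‖ft f t‖ ^ 2 : ℝ) : ℂ) = ((n * n * ∑ z, f z ^ 2 : ℝ) : ℂ) := by
      simp only [sq (f _)]
      rw [← p0]
      push_cast
      exact Finset.sum_congr rfl fun t _ => by rw [Complex.conj_mul']
    exact_mod_cast this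
  have s : (((n : ℝ) * n * (∑ z, f z * f (sh1 2 0 z) + ∑ z, f z * f (sh1 2 1 z) +
      (∑ z, f z * f (sh2 2 0 z) + ∑ z, f z * f (sh2 2 1 z))) : ℝ) : ℂ) =
      ∑ t, conj (ft f t) * ((1 + ZMod.stdAddChar (-t.1)) * ft f (t.1, t.2 - 2 * t.1) +
        (1 + ZMod.stdAddChar (-t.2)) * ft f (t.1 - 2 * t.2, t.2)) := by
    rw [mul_add, mul_add, mul_add, Complex.ofReal_add, Complex.ofReal_add, Complex.ofReal_add,
      ← p1, ← p2, ← p3, ← p4, ← Finset.sum_add_distrib, ← Finset.sum_add_distrib,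
      ← Finset.sum_add_distrib]
    refine Finset.sum_congr rfl fun t _ => ?_
    simp only [mul_zero, neg_zero, AddChar.map_zero_eq_one, mul_one]
    ring
  have s2 : (n : ℝ) * n * (∑ z, f z * f (sh1 2 0 z) + ∑ z, f z * f (sh1 2 1 z) +
      (∑ z, f z * f (sh2 2 0 z) + ∑ z, f z * f (sh2 2 1 z))) ≤
      ∑ t : ZMod n × ZMod n, ‖ft f t‖ * (cf t.1 * ‖ft f (t.1, t.2 - 2 * t.1)‖ +
        cf t.2 * ‖ft f (t.1 - 2 * t.2, t.2)‖) := by
    refine (le_abs_self _).trans ?_
    rw [← Real.norm_eq_abs, ← Complex.norm_real, s]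
    refine (norm_sum_le _ _).trans (Finset.sum_le_sum fun t _ => ?_)
    rw [norm_mul, Complex.norm_conj]
    refine mul_le_mul_of_nonneg_left ((norm_add_le _ _).trans (le_of_eq ?_)) (norm_nonneg _)
    rw [norm_mul, norm_mul]
    rfl
  have := s2.trans c
  rw [q0, mul_left_comm] at this
  exact le_of_mul_le_mul_left this (by positivity)

/-- The eight generators. -/
def tz (i : Bool × Bool) (b : Bool) : ZMod n × ZMod n ≃ ZMod n × ZMod n :=
  let u : ZMod n := if b then 1 else -1
  if i.1 then sh1 (2 * u) (if i.2 then u else 0) else sh2 (2 * u) (if i.2 then u else 0)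

theorem tz_inv (i : Bool × Bool) (b : Bool) (z : ZMod n × ZMod n) :
    tz i (!b) (tz i b z) = z := by
  obtain ⟨i1, i2⟩ := i
  cases i1 <;> cases i2 <;> cases b <;> ext <;> simp [tz, sh1, sh2] <;> ring

theorem margulis' (f : ZMod n × ZMod n → ℝ) (h0 : ∑ z, f z = 0) :
    1 / 2 * ∑ z, f z ^ 2 ≤ ∑ i : Bool × Bool, ∑ z, (f z - f (tz i true z)) ^ 2 := by
  have h1 : ∀ e : ZMod n × ZMod n ≃ ZMod n × ZMod n,
      ∑ z, (f z - f (e z)) ^ 2 = 2 * ∑ z, f z ^ 2 - 2 * ∑ z, f z * f (e z) := by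
    intro e
    have : ∑ z, f (e z) ^ 2 = ∑ z, f z ^ 2 := Equiv.sum_comp e (fun z => f z ^ 2)
    simp only [sub_sq, Finset.sum_add_distrib, Finset.sum_sub_distrib, this, mul_assoc,
      ← Finset.mul_sum]
    ring
  simp only [h1]
  have := margulis f h0
  simp only [Fintype.sum_prod_type (f := fun i : Bool × Bool =>
    2 * ∑ z, f z ^ 2 - 2 * ∑ z, f z * f (tz i true z)), Fintype.sum_bool]
  simp only [tz, if_true, mul_one, Bool.false_eq_true, if_false]
  linarith

/-- Numbering of the vertices. -/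
def encZ (z : ZMod n × ZMod n) : ℕ := z.1.val * n + z.2.val

theorem encZ_div (z : ZMod n × ZMod n) : encZ z / n = z.1.val := by
  unfold encZ
  rw [add_comm, Nat.add_mul_div_right _ _ (Nat.pos_of_ne_zero (NeZero.ne n)),
    Nat.div_eq_of_lt (ZMod.val_lt _), zero_add]

theorem encZ_mod (z : ZMod n × ZMod n) : encZ z % n = z.2.val := by
  unfold encZ
  rw [add_comm, Nat.add_mul_mod_self_right, Nat.mod_eq_of_lt (ZMod.val_lt _)]

theorem encZ_lt (z : ZMod n × ZMod n) : encZ z < n * n := by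
  unfold encZ
  have h1 := ZMod.val_lt z.1
  have h2 := ZMod.val_lt z.2
  nlinarith

theorem exists_encZ {r : ℕ} (h : r < n * n) : ∃ z : ZMod n × ZMod n, encZ z = r := by
  have hn := Nat.pos_of_ne_zero (NeZero.ne n)
  refine ⟨((r / n : ℕ), (r % n : ℕ)), ?_⟩
  unfold encZ
  simp only [ZMod.val_natCast]
  rw [Nat.mod_eq_of_lt (Nat.div_lt_of_lt_mul h), Nat.mod_mod, Nat.div_add_mod']

theorem sum_encZ (g : ℕ → ℝ) : ∑ r ∈ range (n * n), g r = ∑ z : ZMod n × ZMod n, g (encZ z) := by
  symm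
  refine Finset.sum_bij (fun z _ => encZ z) (fun z _ => mem_range.2 (encZ_lt z)) ?_ ?_
    (fun _ _ => rfl)
  · intro z _ w _ e
    have h1 := congrArg (· / n) e
    have h2 := congrArg (· % n) e
    simp only [encZ_div, encZ_mod] at h1 h2
    exact Prod.ext (ZMod.val_injective _ h1) (ZMod.val_injective _ h2)
  · intro r hr
    obtain ⟨z, hz⟩ := exists_encZ (mem_range.1 hr)
    exact ⟨z, mem_univ _, hz⟩

end Z

/-- The generators of the expander on `{0, …, s * s - 1}`. -/
def marg (i : Bool × Bool) (b : Bool) (s r : ℕ) : ℕ :=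
  let u := bif b then 1 else s - 1
  let e := bif i.2 then u else 0
  bif i.1 then ((r / s + 2 * u * (r % s) + e) % s) * s + r % s
  else (r / s) * s + (r % s + 2 * u * (r / s) + e) % s

theorem marg_encZ {n : ℕ} [NeZero n] (i : Bool × Bool) (b : Bool) (z : ZMod n × ZMod n) :
    marg i b n (encZ z) = encZ (tz i b z) := by
  have hn := Nat.pos_of_ne_zero (NeZero.ne n)
  have h1 : ((n - 1 : ℕ) : ZMod n) = -1 := by
    rw [Nat.cast_sub hn]; simp
  obtain ⟨i1, i2⟩ := i
  unfold marg
  simp only [encZ_div, encZ_mod, ← ZMod.val_natCast]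
  cases i1 <;> cases i2 <;> cases b <;>
    simp [tz, sh1, sh2, encZ, h1]

theorem marg_lt (i : Bool × Bool) (b : Bool) {s r : ℕ} (h : r < s * s) :
    marg i b s r < s * s := by
  haveI : NeZero s := ⟨by rintro rfl; simp at h⟩
  obtain ⟨z, rfl⟩ := exists_encZ h
  rw [marg_encZ]; exact encZ_lt _

theorem marg_inv (i : Bool × Bool) (b : Bool) {s r : ℕ} (h : r < s * s) :
    marg i (!b) s (marg i b s r) = r := by
  haveI : NeZero s := ⟨by rintro rfl; simp at h⟩
  obtain ⟨z, rfl⟩ := exists_encZ h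
  rw [marg_encZ, marg_encZ, tz_inv]

theorem marg_gap (s : ℕ) (g : ℕ → ℝ) (h0 : ∑ r ∈ range (s * s), g r = 0) :
    1 / 2 * ∑ r ∈ range (s * s), g r ^ 2 ≤
      ∑ i : Bool × Bool, ∑ r ∈ range (s * s), (g r - g (marg i true s r)) ^ 2 := by
  rcases Nat.eq_zero_or_pos s with rfl | hs
  · simp
  haveI : NeZero s := ⟨hs.ne'⟩
  simp only [sum_encZ, marg_encZ] at h0 ⊢
  exact margulis' (fun z => g (encZ z)) h0

theorem marg_cut (s : ℕ) (β : ℕ → Bool) : ∃ c : Bool,
    ∑ r ∈ range (s * s), ind (β r ≠ c) ≤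
      4 * ∑ i : Bool × Bool, ∑ r ∈ range (s * s), ind (β r ≠ β (marg i true s r)) := by
  rcases Nat.eq_zero_or_pos s with rfl | hs
  · simp
  have hN : (0 : ℝ) < (s * s : ℕ) := by exact_mod_cast Nat.mul_pos hs hs
  have key : ∀ c : Bool, 2 * ∑ r ∈ range (s * s), ind (β r ≠ c) ≤ (s * s : ℕ) →
      ∑ r ∈ range (s * s), ind (β r ≠ c) ≤
      4 * ∑ i : Bool × Bool, ∑ r ∈ range (s * s), ind (β r ≠ β (marg i true s r)) := by
    intro c hc
    obtain ⟨k, hk⟩ : ∃ k, k = ∑ r ∈ range (s * s), ind (β r ≠ c) := ⟨_, rfl⟩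
    obtain ⟨N, hNN⟩ : ∃ N : ℝ, N = (s * s : ℕ) := ⟨_, rfl⟩
    rw [← hk] at hc ⊢
    rw [← hNN] at hc hN
    have hk0 : 0 ≤ k := hk ▸ Finset.sum_nonneg fun _ _ => ind_nonneg _
    have := marg_gap s (fun r => ind (β r ≠ c) - k / N) (by
      rw [Finset.sum_sub_distrib, ← hk]
      simp only [Finset.sum_const, card_range, nsmul_eq_mul, ← hNN]
      field_simp
      ring)
    have e1 : ∑ r ∈ range (s * s), (ind (β r ≠ c) - k / N) ^ 2 = k - k ^ 2 / N := by
      simp only [sub_sq, sq (ind _), ind_mul_self, Finset.sum_add_distrib, Finset.sum_sub_distrib,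
        mul_assoc, ← Finset.mul_sum, ← Finset.sum_mul, ← hk]
      simp only [Finset.sum_const, card_range, nsmul_eq_mul, ← hNN]
      field_simp
      ring
    have e2 : ∀ i r, (ind (β r ≠ c) - k / N - (ind (β (marg i true s r) ≠ c) - k / N)) ^ 2 =
        ind (β r ≠ β (marg i true s r)) := by
      intro i r
      rw [sub_sub_sub_cancel_right]
      cases β r <;> cases β (marg i true s r) <;> cases c <;> simp [ind]
    simp only [e1, e2] at this
    have : k ^ 2 / N ≤ k / 2 := by
      rw [div_le_div_iff₀ hN (by norm_num)]; nlinarith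
    linarith
  have tot : ∑ r ∈ range (s * s), ind (β r ≠ true) + ∑ r ∈ range (s * s), ind (β r ≠ false) =
      (s * s : ℕ) := by
    rw [← Finset.sum_add_distrib, Finset.sum_congr rfl (g := fun _ => (1 : ℝ))]
    · simp
    · intro r _
      cases β r <;> simp [ind]
  by_cases h : 2 * ∑ r ∈ range (s * s), ind (β r ≠ true) ≤ (s * s : ℕ)
  · exact ⟨true, key _ h⟩
  · exact ⟨false, key _ (by linarith)⟩

end Pool.Agent.MP_9e68e9_lc.PCP

end

section

/-! Alphabet reduction: long code tests. -/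

namespace Pool.Agent.MP_9e68e9_lc.PCP

open Finset
open scoped BigOperators

theorem ind_le_add {p q r : Prop} (h : p → q ∨ r) : ind p ≤ ind q + ind r := by
  by_cases hp : p
  · rw [ind_pos hp]
    rcases h hp with h | h
    · rw [ind_pos h]; linarith [ind_nonneg r]
    · rw [ind_pos h]; linarith [ind_nonneg q]
  · rw [ind_neg hp]; linarith [ind_nonneg q, ind_nonneg r]

theorem ind_le_add4 {p q r s t : Prop} (h : p → q ∨ r ∨ s ∨ t) :
    ind p ≤ ind q + ind r + ind s + ind t := by
  have h1 := ind_le_add h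
  have h2 := ind_le_add (p := r ∨ s ∨ t) id
  have h3 := ind_le_add (p := s ∨ t) id
  linarith

theorem exists_of_expect_lt {α : Type} [Fintype α] [Nonempty α] {g : α → ℝ} {c : ℝ}
    (h : 𝔼 x, g x < c) : ∃ x, g x < c := by
  by_contra hc
  push Not at hc
  have := Finset.expect_le_expect (s := (univ : Finset α)) (f := fun _ => c) (fun x _ => hc x)
  rw [Finset.expect_const univ_nonempty] at this
  linarith

theorem not_of_ind_lt {p : Prop} (h : ind p < 1) : ¬ p := fun hp => by
  rw [ind_pos hp] at h; exact lt_irrefl _ h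

section BLR
variable {G : Type} [AddCommGroup G] [Fintype G]

theorem expect_addl (a : G) (f : G → ℝ) : 𝔼 x, f (a + x) = 𝔼 x, f x :=
  Fintype.expect_equiv (Equiv.addLeft a) _ _ (fun _ => rfl)

theorem blr (h2 : ∀ x : G, x + x = 0) (B : G → ZMod 2) {δ : ℝ} (hδ : δ < 1 / 6)
    (hB : 𝔼 f, 𝔼 g, ind (B f + B g + B (f + g) ≠ 0) ≤ δ) :
    ∃ L : G → ZMod 2, (∀ f g, L (f + g) = L f + L g) ∧
      (∀ f, 𝔼 h, ind (B (f + h) + B h ≠ L f) ≤ 2 * δ) ∧ 𝔼 f, ind (B f ≠ L f) ≤ 3 * δ := by
  have vote : ∀ f, ∃ c : ZMod 2, 𝔼 h, ind (B (f + h) + B h ≠ c) ≤ 2 * δ := by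
    intro f
    obtain ⟨p, hp⟩ : ∃ p, p = 𝔼 h, ind (B (f + h) + B h ≠ 0) := ⟨_, rfl⟩
    have hp1 : 𝔼 h, ind (B (f + h) + B h ≠ 1) = 1 - p := by
      rw [hp, ← Finset.expect_const (univ_nonempty (α := G)) (1 : ℝ),
        ← Finset.expect_sub_distrib]
      refine Finset.expect_congr rfl fun h _ => ?_
      rw [← ind_not]
      refine ind_congr ?_
      generalize B (f + h) + B h = x
      revert x; decide
    have e1 : 𝔼 h, 𝔼 k, ind (B (f + h) + B h ≠ B (f + k) + B k) = 2 * p * (1 - p) := by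
      have : ∀ h k, ind (B (f + h) + B h ≠ B (f + k) + B k) =
          ind (B (f + h) + B h ≠ 0) + ind (B (f + k) + B k ≠ 0) -
            2 * ind (B (f + h) + B h ≠ 0) * ind (B (f + k) + B k ≠ 0) := by
        intro h k
        generalize B (f + h) + B h = x
        generalize B (f + k) + B k = y
        have h01 : (0 : ZMod 2) ≠ 1 := by decide
        have hz : ∀ x : ZMod 2, x = 0 ∨ x = 1 := by decide
        rcases hz x with rfl | rfl <;> rcases hz y with rfl | rfl <;>
          simp [ind, h01, h01.symm] <;> norm_num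
      simp only [this, Finset.expect_sub_distrib, Finset.expect_add_distrib, ← Finset.mul_expect,
        ← Finset.expect_mul, ← hp, Finset.expect_const univ_nonempty]
      ring
    have e2 : 𝔼 h, 𝔼 k, ind (B (f + h) + B h ≠ B (f + k) + B k) ≤ 2 * δ := by
      have : ∀ h k, ind (B (f + h) + B h ≠ B (f + k) + B k) ≤
          ind (B (f + h) + B k + B (f + h + k) ≠ 0) + ind (B h + B (f + k) + B (h + (f + k)) ≠ 0) := by
        intro h k
        refine ind_le_add ?_
        rw [show h + (f + k) = f + h + k by abel]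
        generalize B (f + h) = a
        generalize B h = b
        generalize B (f + k) = c
        generalize B k = d
        generalize B (f + h + k) = e
        revert a b c d e; decide
      refine (Finset.expect_le_expect fun h _ => Finset.expect_le_expect fun k _ =>
        this h k).trans ?_
      simp only [Finset.expect_add_distrib]
      rw [expect_addl f (fun x => 𝔼 k, ind (B x + B k + B (x + k) ≠ 0))]
      have : ∀ h, 𝔼 k, ind (B h + B (f + k) + B (h + (f + k)) ≠ 0) =
          𝔼 k, ind (B h + B k + B (h + k) ≠ 0) :=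
        fun h => expect_addl f (fun x => ind (B h + B x + B (h + x) ≠ 0))
      simp only [this]
      linarith
    have hp0 : 0 ≤ p := hp ▸ Finset.expect_nonneg fun _ _ => ind_nonneg _
    have hp2 : 0 ≤ 1 - p := hp1 ▸ Finset.expect_nonneg fun _ _ => ind_nonneg _
    by_cases h : p ≤ 1 / 2
    · exact ⟨0, by rw [← hp]; nlinarith⟩
    · exact ⟨1, by rw [hp1]; nlinarith⟩
  choose L hL using vote
  refine ⟨L, fun f g => ?_, hL, ?_⟩
  · have : 𝔼 h, (ind (B (g + h) + B h ≠ L g) + ind (B (f + (g + h)) + B (g + h) ≠ L f) +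
        ind (B (f + g + h) + B h ≠ L (f + g))) < 1 := by
      simp only [Finset.expect_add_distrib]
      rw [expect_addl g (fun x => ind (B (f + x) + B x ≠ L f))]
      linarith [hL f, hL g, hL (f + g)]
    obtain ⟨h, hh⟩ := exists_of_expect_lt this
    have i1 := ind_nonneg (B (g + h) + B h ≠ L g)
    have i2 := ind_nonneg (B (f + (g + h)) + B (g + h) ≠ L f)
    have i3 := ind_nonneg (B (f + g + h) + B h ≠ L (f + g))
    have a1 := not_not.1 (not_of_ind_lt (p := B (g + h) + B h ≠ L g) (by linarith))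
    have a2 := not_not.1 (not_of_ind_lt (p := B (f + (g + h)) + B (g + h) ≠ L f) (by linarith))
    have a3 := not_not.1 (not_of_ind_lt (p := B (f + g + h) + B h ≠ L (f + g)) (by linarith))
    rw [← a1, ← a2, ← a3, add_assoc f g h]
    generalize B (f + (g + h)) = a
    generalize B h = b
    generalize B (g + h) = c
    revert a b c; decide
  · have : ∀ f, ind (B f ≠ L f) ≤
        𝔼 h, (ind (B f + B h + B (f + h) ≠ 0) + ind (B (f + h) + B h ≠ L f)) := by
      intro f
      rw [← Finset.expect_const (univ_nonempty (α := G)) (ind (B f ≠ L f))]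
      refine Finset.expect_le_expect fun h _ => ind_le_add ?_
      generalize B (f + h) = a
      generalize B h = b
      generalize B f = c
      generalize L f = d
      revert a b c d; decide
    refine (Finset.expect_le_expect fun f _ => this f).trans ?_
    simp only [Finset.expect_add_distrib]
    have := Finset.expect_le_expect (s := (univ : Finset G)) (fun f _ => hL f)
    rw [Finset.expect_const univ_nonempty] at this
    linarith

end BLR

/-- Functions to the field with two elements. -/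
abbrev Fn (P : Type) : Type := P → ZMod 2

section Lin
variable {P : Type} [Fintype P] [DecidableEq P]

theorem lin_eval (L : Fn P → ZMod 2) (hL : ∀ f g, L (f + g) = L f + L g)
    (hm : 𝔼 f, 𝔼 g, ind (L f * L g ≠ L (f * g)) < 1 / 4) (S : Fn P) (hS : L S = 1) :
    ∃ s, S s = 1 ∧ ∀ f, L f = f s := by
  have h0 : L 0 = 0 := by
    have := hL 0 0
    rw [add_zero] at this
    revert this
    generalize L 0 = a
    revert a; decide
  let L' : Fn P →+ ZMod 2 := ⟨⟨L, h0⟩, hL⟩
  have rep : ∀ f, L f = ∑ s, f s * L (Pi.single s 1) := by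
    intro f
    have : L f = L' (∑ s, Pi.single s (f s)) := by rw [Finset.univ_sum_single]; rfl
    rw [this, map_sum]
    refine Finset.sum_congr rfl fun s _ => ?_
    have hz : ∀ x : ZMod 2, x = 0 ∨ x = 1 := by decide
    rcases hz (f s) with e | e <;> rw [e]
    · simp
    · simp [L']
  have uniq : ∀ s t, L (Pi.single s 1) = 1 → L (Pi.single t 1) = 1 → s = t := by
    intro s t hs ht
    by_contra hne
    have hst : (Pi.single s 1 : Fn P) * Pi.single t 1 = 0 := by
      funext x
      by_cases e : x = s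
      · subst e; simp [Pi.single_apply, hne]
      · simp [Pi.single_apply, e]
    generalize (Pi.single s 1 : Fn P) = es at hs hst
    generalize (Pi.single t 1 : Fn P) = et at ht hst
    have : ∀ f g : Fn P, (1 : ℝ) ≤ ind (L f * L g ≠ L (f * g)) +
        ind (L (es + f) * L g ≠ L ((es + f) * g)) +
        ind (L f * L (et + g) ≠ L (f * (et + g))) +
        ind (L (es + f) * L (et + g) ≠ L ((es + f) * (et + g))) := by
      intro f g
      rw [← ind_pos trivial]
      refine ind_le_add4 fun _ => ?_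
      simp only [add_mul, mul_add, hL, hs, ht, hst, h0]
      generalize L f = a
      generalize L g = b
      generalize L (f * g) = c
      generalize L (es * g) = d
      generalize L (f * et) = e
      revert a b c d e; decide
    have h4 := Finset.expect_le_expect (s := (univ : Finset (Fn P))) fun f _ =>
      Finset.expect_le_expect (s := (univ : Finset (Fn P))) fun g _ => this f g
    simp only [Finset.expect_add_distrib, Finset.expect_const univ_nonempty] at h4
    have r1 : ∀ f, 𝔼 g, ind (L f * L (et + g) ≠ L (f * (et + g))) =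
        𝔼 g, ind (L f * L g ≠ L (f * g)) :=
      fun f => expect_addl et (fun x => ind (L f * L x ≠ L (f * x)))
    simp only [r1] at h4
    rw [expect_addl es (fun x => 𝔼 g, ind (L x * L g ≠ L (x * g)))] at h4
    linarith
  have ex : ∃ s, S s * L (Pi.single s 1) ≠ 0 := by
    by_contra hc
    push Not at hc
    rw [rep, Finset.sum_eq_zero (fun s _ => hc s)] at hS
    exact absurd hS (by decide)
  obtain ⟨s, hs⟩ := ex
  have hz : ∀ x : ZMod 2, x ≠ 0 → x = 1 := by decide
  have h1 : L (Pi.single s 1) = 1 := hz _ (right_ne_zero_of_mul hs)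
  refine ⟨s, hz _ (left_ne_zero_of_mul hs), fun f => ?_⟩
  rw [rep, Finset.sum_eq_single s, h1, mul_one]
  · intro t _ ht
    by_contra hc
    exact ht (uniq _ _ (hz _ (right_ne_zero_of_mul hc)) h1)
  · simp

theorem eval_far {a b : P} (h : a ≠ b) : 𝔼 f : Fn P, ind (f a ≠ f b) = 1 / 2 := by
  have h1 := expect_addl (Pi.single a 1 : Fn P) (fun f => ind (f a ≠ f b))
  have h2 : ∀ f : Fn P, ind ((Pi.single a 1 + f : Fn P) a ≠ (Pi.single a 1 + f : Fn P) b) =
      1 - ind (f a ≠ f b) := by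
    intro f
    rw [← ind_not]
    refine ind_congr ?_
    simp only [Pi.add_apply, Pi.single_eq_same, Pi.single_eq_of_ne h.symm, zero_add]
    generalize f a = x
    generalize f b = y
    revert x y; decide
  simp only [h2, Finset.expect_sub_distrib, Finset.expect_const univ_nonempty] at h1
  linarith

/-- Decoding of a table. -/
noncomputable def dec [Inhabited P] (A : Fn P → ZMod 2) : P := by
  classical exact if h : ∃ w, 𝔼 f : Fn P, ind (A f ≠ f w) < 1 / 4 then h.choose else default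

theorem dec_eq [Inhabited P] {A : Fn P → ZMod 2} {a : P}
    (h : 𝔼 f : Fn P, ind (A f ≠ f a) < 1 / 4) : dec A = a := by
  have ex : ∃ w, 𝔼 f : Fn P, ind (A f ≠ f w) < 1 / 4 := ⟨a, h⟩
  unfold dec
  rw [dif_pos ex]
  by_contra hne
  have h1 := eval_far hne
  have h2 := ex.choose_spec
  have h3 : 𝔼 f : Fn P, ind (f ex.choose ≠ f a) ≤
      𝔼 f : Fn P, (ind (A f ≠ f ex.choose) + ind (A f ≠ f a)) :=
    Finset.expect_le_expect fun f _ => ind_le_add (fun hh => by
      by_contra hc
      push Not at hc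
      exact hh (hc.1.symm.trans hc.2))
  rw [Finset.expect_add_distrib] at h3
  linarith

end Lin

/-- Random strings of the tests. -/
abbrev Rnd (W : Type) : Type := Fn (W × W) × Fn (W × W) × Fn (W × W) × Fn W

/-- Table positions: first or second vertex table, or edge table. -/
abbrev Ref (W : Type) : Type := (Bool × Fn W) ⊕ Fn (W × W)

/-- Pull back along a projection. -/
def lft {W : Type} (π : W × W → W) (f : Fn W) : Fn (W × W) := fun p => f (π p)

/-- The four queried positions. -/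
def tq {W : Type} (S : Fn (W × W)) (k : Fin 5) (ξ : Rnd W) : Fin 4 → Ref W :=
  match k with
  | 0 => ![.inr ξ.1, .inr ξ.2.1, .inr (ξ.1 + ξ.2.1), .inr ξ.1]
  | 1 => ![.inr ξ.1, .inr ξ.2.1, .inr (ξ.1 * ξ.2.1 + ξ.2.2.1), .inr ξ.2.2.1]
  | 2 => ![.inr (S + ξ.2.2.1), .inr ξ.2.2.1, .inr ξ.2.2.1, .inr ξ.2.2.1]
  | 3 => ![.inl (false, ξ.2.2.2), .inr (lft Prod.fst ξ.2.2.2 + ξ.2.2.1), .inr ξ.2.2.1,
      .inr ξ.2.2.1]
  | 4 => ![.inl (true, ξ.2.2.2), .inr (lft Prod.snd ξ.2.2.2 + ξ.2.2.1), .inr ξ.2.2.1,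
      .inr ξ.2.2.1]

/-- The acceptance predicates. -/
def tp (k : Fin 5) (x : Fin 4 → ZMod 2) : Prop :=
  match k with
  | 0 => x 0 + x 1 + x 2 = 0
  | 1 => x 0 * x 1 + x 2 + x 3 = 0
  | 2 => x 0 + x 1 = 1
  | 3 => x 0 + x 1 + x 2 = 0
  | 4 => x 0 + x 1 + x 2 = 0

theorem test_complete {W : Type} (S : Fn (W × W)) (a b : W) (hS : S (a, b) = 1)
    (val : Ref W → ZMod 2) (h1 : ∀ f, val (.inl (false, f)) = f a)
    (h2 : ∀ f, val (.inl (true, f)) = f b) (h3 : ∀ g, val (.inr g) = g (a, b))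
    (k : Fin 5) (ξ : Rnd W) : tp k (fun i => val (tq S k ξ i)) := by
  have z1 : ∀ x y : ZMod 2, x + y + (x + y) = 0 := by decide
  have z2 : ∀ x y : ZMod 2, x + (x + y) + y = 0 := by decide
  have z3 : ∀ x : ZMod 2, 1 + x + x = 1 := by decide
  fin_cases k <;> simp [tp, tq, lft, h1, h2, h3, hS, z1, z2, z3]

theorem test_sound {W : Type} [Fintype W] [DecidableEq W] [Inhabited W] (S : Fn (W × W))
    (val : Ref W → ZMod 2)
    (hS : S (dec (fun f => val (.inl (false, f))), dec (fun f => val (.inl (true, f)))) ≠ 1) :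
    1 / 100 ≤ ∑ k : Fin 5, 𝔼 ξ : Rnd W, ind (¬ tp k (fun i => val (tq S k ξ i))) := by
  by_contra hc
  push Not at hc
  have hk : ∀ k : Fin 5, 𝔼 ξ : Rnd W, ind (¬ tp k (fun i => val (tq S k ξ i))) ≤ 1 / 100 :=
    fun k => (Finset.single_le_sum (f := fun k : Fin 5 =>
      𝔼 ξ : Rnd W, ind (¬ tp k (fun i => val (tq S k ξ i))))
      (fun k _ => Finset.expect_nonneg fun _ _ => ind_nonneg _) (mem_univ k)).trans hc.le
  have prod : ∀ F : Rnd W → ℝ, 𝔼 ξ, F ξ = 𝔼 g, 𝔼 g', 𝔼 h, 𝔼 f, F (g, g', h, f) := by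
    intro F
    simp only [← Finset.univ_product_univ, Finset.expect_product]
  have t0 := hk 0
  have t1 := hk 1
  have t2 := hk 2
  have t3 := hk 3
  have t4 := hk 4
  rw [prod] at t0 t1 t2 t3 t4
  let B : Fn (W × W) → ZMod 2 := fun g => val (.inr g)
  have u0 : 𝔼 f, 𝔼 g, ind (B f + B g + B (f + g) ≠ 0) ≤ 1 / 100 := by
    simpa [tp, tq] using t0
  have u1 : 𝔼 f, 𝔼 g, 𝔼 h, ind (B f * B g + B (f * g + h) + B h ≠ 0) ≤ 1 / 100 := by
    simpa [tp, tq] using t1
  have u2 : 𝔼 h, ind (B (S + h) + B h ≠ 1) ≤ 1 / 100 := by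
    simpa [tp, tq] using t2
  have u3 : 𝔼 h, 𝔼 f : Fn W,
      ind (val (.inl (false, f)) + B (lft Prod.fst f + h) + B h ≠ 0) ≤ 1 / 100 := by
    simpa [tp, tq] using t3
  have u4 : 𝔼 h, 𝔼 f : Fn W,
      ind (val (.inl (true, f)) + B (lft Prod.snd f + h) + B h ≠ 0) ≤ 1 / 100 := by
    simpa [tp, tq] using t4
  obtain ⟨L, hL, hv, hn⟩ := blr (fun x => by
    funext p
    exact (by decide : ∀ a : ZMod 2, a + a = 0) (x p)) B (by norm_num) u0
  have hLS : L S = 1 := by
    have : 𝔼 h, (ind (B (S + h) + B h ≠ 1) + ind (B (S + h) + B h ≠ L S)) < 1 := by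
      rw [Finset.expect_add_distrib]; linarith [hv S]
    obtain ⟨h, hh⟩ := exists_of_expect_lt this
    have a1 := not_not.1 (not_of_ind_lt (p := B (S + h) + B h ≠ 1)
      (by linarith [ind_nonneg (B (S + h) + B h ≠ L S)]))
    have a2 := not_not.1 (not_of_ind_lt (p := B (S + h) + B h ≠ L S)
      (by linarith [ind_nonneg (B (S + h) + B h ≠ 1)]))
    rw [← a2, a1]
  have hm : 𝔼 f, 𝔼 g, ind (L f * L g ≠ L (f * g)) < 1 / 4 := by
    have : ∀ f g, ind (L f * L g ≠ L (f * g)) ≤
        𝔼 h, (ind (B f * B g + B (f * g + h) + B h ≠ 0) + ind (B f ≠ L f) + ind (B g ≠ L g) +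
          ind (B (f * g + h) + B h ≠ L (f * g))) := by
      intro f g
      rw [← Finset.expect_const (univ_nonempty (α := Fn (W × W)))
        (ind (L f * L g ≠ L (f * g)))]
      refine Finset.expect_le_expect fun h _ => ind_le_add4 ?_
      generalize B f = a
      generalize B g = b
      generalize B h = c
      generalize B (f * g + h) = d
      generalize L f = e
      generalize L g = x
      generalize L (f * g) = y
      revert a b c d e x y; decide
    refine (Finset.expect_le_expect fun f _ => Finset.expect_le_expect fun g _ =>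
      this f g).trans_lt ?_
    simp only [Finset.expect_add_distrib, Finset.expect_const univ_nonempty]
    have := Finset.expect_le_expect (s := (univ : Finset (Fn (W × W)))) fun f _ =>
      Finset.expect_le_expect (s := (univ : Finset (Fn (W × W)))) fun g _ => hv (f * g)
    simp only [Finset.expect_const univ_nonempty] at this
    linarith
  obtain ⟨s, hs, hLs⟩ := lin_eval L hL hm S hLS
  have cons : ∀ (A : Fn W → ZMod 2) (π : W × W → W),
      𝔼 h, 𝔼 f : Fn W, ind (A f + B (lft π f + h) + B h ≠ 0) ≤ 1 / 100 →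
      dec A = π s := by
    intro A π hA
    refine dec_eq ?_
    rw [Finset.expect_comm] at hA
    have : ∀ f : Fn W, ind (A f ≠ f (π s)) ≤
        𝔼 h, (ind (A f + B (lft π f + h) + B h ≠ 0) +
          ind (B (lft π f + h) + B h ≠ L (lft π f))) := by
      intro f
      rw [← Finset.expect_const (univ_nonempty (α := Fn (W × W))) (ind (A f ≠ f (π s)))]
      refine Finset.expect_le_expect fun h _ => ind_le_add ?_
      rw [hLs, show lft π f s = f (π s) from rfl]
      generalize A f = a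
      generalize B h = b
      generalize B (lft π f + h) = c
      generalize f (π s) = d
      revert a b c d; decide
    refine (Finset.expect_le_expect fun f _ => this f).trans_lt ?_
    simp only [Finset.expect_add_distrib]
    have := Finset.expect_le_expect (s := (univ : Finset (Fn W))) fun f _ =>
      hv (lft π f)
    simp only [Finset.expect_const univ_nonempty] at this
    linarith
  rw [cons _ Prod.fst u3, cons _ Prod.snd u4] at hS
  exact hS hs

end Pool.Agent.MP_9e68e9_lc.PCP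

end
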