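import Mathlib
import Pool.Agent.Mg.F2e8011.G46bb5b
import Pool.Agent.Mg.F2e8011.G9c9089
import Pool.Agent.MP_2e8011_lc.Local
import Pool.Agent.Mg.F2e8011.Geb16f9

section

/-! The language `CF` reduces to ETR in polynomial time. -/

namespace Pool.Agent.MP_a4408f_lc

open Pool.Agent.MP_485bb6_lc Pool.Agent.MP_2e8011_lc

/-- The number of vertices. -/
def nvx (x : List Bool) : ℕ := side (x.drop (x.length / 2))

/-- The first matrix. -/
def mA (x : List Bool) (i j : ℕ) : Bool := x.getD (i * nvx x + j) false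

/-- The second matrix. -/
def mB (x : List Bool) (i j : ℕ) : Bool := x.getD (nvx x * nvx x + (i * nvx x + j)) false

lemma cf_iff (x : List Bool) : CF x = true ↔ x.length = nvx x * nvx x + nvx x * nvx x ∧
    Wf {i | i < nvx x} (mA x) (mB x) ∧ ∃ p, Real2 {i | i < nvx x} (mA x) (mB x) p := by
  have key : x.length = nvx x * nvx x + nvx x * nvx x →
      x = mat (nvx x) (nvx x) (mA x) ++ mat (nvx x) (nvx x) (mB x) := by
    intro h
    conv_lhs => rw [← List.take_append_drop (nvx x * nvx x) x]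
    congr 1
    · refine eq_mat (by simp; omega) fun i hi j hj => ?_
      have : i * nvx x + j < nvx x * nvx x := by nlinarith
      simp [mA, List.getD_eq_getElem?_getD, List.getElem?_take, this]
    · refine eq_mat (by simp; omega) fun i hi j hj => ?_
      simp [mB, List.getD_eq_getElem?_getD]
  constructor
  · intro h
    have h1 : x.length = nvx x * nvx x + nvx x * nvx x := by
      classical
      unfold CF at h
      rw [decide_eq_true_iff] at h
      obtain ⟨m, G, S, -, hx, -⟩ := h
      have := congrArg List.length hx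
      rw [graphCode_eq, graphCode_eq] at this
      simp only [List.length_append, length_mat] at this
      have h2 : nvx x = m := side_eq (by simp; omega)
      rw [h2, this]
    refine ⟨h1, ?_⟩
    rwa [key h1, cf_mat] at h
  · rintro ⟨h1, h2⟩
    rw [key h1, cf_mat]
    exact h2

/-- The squared distance as a term. -/
def dT (i j : ℕ) : PTerm :=
  .add (.mul (.add (.var (vn i 0)) (.neg (.var (vn j 0)))) (.add (.var (vn i 0)) (.neg (.var (vn j 0)))))
    (.mul (.add (.var (vn i 1)) (.neg (.var (vn j 1)))) (.add (.var (vn i 1)) (.neg (.var (vn j 1)))))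

/-- The length condition of one pair. -/
def lenF (i j : ℕ) (a b : Bool) : Formula :=
  if a = true then (if b = true then .not (.lt .one (dT i j)) else .lt .one (dT i j)) else .lt .zero .one

/-- A linear form evaluated at a point. -/
def lT (c w : ℕ) : PTerm :=
  .add (.mul (.var (vn c 2)) (.var (vn w 0))) (.mul (.var (vn c 3)) (.var (vn w 1)))

/-- The index of a quadruple. -/
def qi (q : (ℕ × ℕ) × ℕ × ℕ) : ℕ := Nat.pair (Nat.pair q.1.1 q.1.2) (Nat.pair q.2.1 q.2.2)

/-- The separation condition of one quadruple. -/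
def sepF (q : (ℕ × ℕ) × ℕ × ℕ) (b : Bool) : Formula :=
  if b = true then
    .and (.and (.lt (lT (qi q) q.1.1) (.var (vn (qi q) 4))) (.lt (lT (qi q) q.1.2) (.var (vn (qi q) 4))))
      (.and (.lt (.var (vn (qi q) 4)) (lT (qi q) q.2.1)) (.lt (.var (vn (qi q) 4)) (lT (qi q) q.2.2)))
  else .lt .zero .one

/-- The quadruples that have to be separated. -/
def need (x : List Bool) (q : (ℕ × ℕ) × ℕ × ℕ) : Bool :=
  decide ((mA x q.1.1 q.1.2 = true ∨ q.1.1 = q.1.2) ∧ (mA x q.2.1 q.2.2 = true ∨ q.2.1 = q.2.2) ∧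
    q.1.1 ≠ q.2.1 ∧ q.1.1 ≠ q.2.2 ∧ q.1.2 ≠ q.2.1 ∧ q.1.2 ≠ q.2.2)

/-- The combinatorial check. -/
def okC (x : List Bool) : Bool :=
  decide (x.length = nvx x * nvx x + nvx x * nvx x) && (pairs (nvx x)).all fun p =>
    decide (mA x p.1 p.1 = false ∧ mA x p.1 p.2 = mA x p.2 p.1 ∧ mB x p.1 p.2 = mB x p.2 p.1 ∧
      (mB x p.1 p.2 = true → mA x p.1 p.2 = true))

/-- All quadruples. -/
def quads (n : ℕ) : List ((ℕ × ℕ) × ℕ × ℕ) := (pairs n).flatMap fun p => (pairs n).map fun q => (p, q)

lemma mem_quads {n : ℕ} {q : (ℕ × ℕ) × ℕ × ℕ} :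
    q ∈ quads n ↔ (q.1.1 < n ∧ q.1.2 < n) ∧ q.2.1 < n ∧ q.2.2 < n := by
  obtain ⟨p, q⟩ := q
  simp [quads, mem_pairs]

lemma okC_iff (x : List Bool) : okC x = true ↔ x.length = nvx x * nvx x + nvx x * nvx x ∧
    Wf {i | i < nvx x} (mA x) (mB x) := by
  simp only [okC, Bool.and_eq_true, decide_eq_true_eq, List.all_eq_true, Wf, mem_pairs, Prod.forall,
    Set.mem_ofPred_eq]
  refine and_congr_right fun _ => ⟨fun h => ⟨fun u hu => (h u u ⟨hu, hu⟩).1,
    fun u hu v hv => (h u v ⟨hu, hv⟩).2⟩, fun h u v huv => ⟨h.1 u huv.1, h.2 u huv.1 v huv.2⟩⟩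

/-- The formula of an input. -/
def wholeF (x : List Bool) : Formula :=
  (quads (nvx x)).foldl (fun acc q => .and acc (sepF q (need x q)))
    ((pairs (nvx x)).foldl (fun acc p => .and acc (lenF p.1 p.2 (mA x p.1 p.2) (mB x p.1 p.2)))
      (if okC x = true then .lt .zero .one else .lt .one .one))

lemma norm_le_one_iff (z w : ℂ) : ‖z - w‖ ≤ 1 ↔
    (z.re + -w.re) * (z.re + -w.re) + (z.im + -w.im) * (z.im + -w.im) ≤ 1 := by
  rw [← sq_le_one_iff₀ (norm_nonneg _), Complex.sq_norm, Complex.normSq_apply]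
  simp [sub_eq_add_neg]

lemma exists_line {a b c d : ℂ} (h : Disjoint (segment ℝ a b) (segment ℝ c d)) :
    ∃ l : ℝ × ℝ × ℝ, (l.1 * a.re + l.2.1 * a.im < l.2.2 ∧ l.1 * b.re + l.2.1 * b.im < l.2.2) ∧
      l.2.2 < l.1 * c.re + l.2.1 * c.im ∧ l.2.2 < l.1 * d.re + l.2.1 * d.im := by
  have hc : ∀ a b : ℂ, IsCompact (segment ℝ a b) := fun a b => by
    rw [segment_eq_image]
    exact isCompact_Icc.image (by fun_prop)
  obtain ⟨f, u, v, h1, h2, h3⟩ := geometric_hahn_banach_compact_closed (convex_segment a b) (hc a b)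
    (convex_segment c d) (hc c d).isClosed h
  have e : ∀ z : ℂ, f z = f 1 * z.re + f Complex.I * z.im := by
    intro z
    conv_lhs => rw [show z = z.re • (1 : ℂ) + z.im • Complex.I by simp]
    rw [map_add, map_smul, map_smul, smul_eq_mul, smul_eq_mul]
    ring
  refine ⟨(f 1, f Complex.I, u), ⟨?_, ?_⟩, ?_, ?_⟩ <;> simp only [← e]
  · exact h1 _ (left_mem_segment _ _ _)
  · exact h1 _ (right_mem_segment _ _ _)
  · exact h2.trans (h3 _ (left_mem_segment _ _ _))
  · exact h2.trans (h3 _ (right_mem_segment _ _ _))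

lemma disjoint_of_line {a b c d : ℂ} {α β γ : ℝ} (h1 : α * a.re + β * a.im < γ)
    (h2 : α * b.re + β * b.im < γ) (h3 : γ < α * c.re + β * c.im) (h4 : γ < α * d.re + β * d.im) :
    Disjoint (segment ℝ a b) (segment ℝ c d) := by
  rw [Set.disjoint_left]
  rintro _ ⟨s, t, hs, ht, hst, rfl⟩ ⟨s', t', hs', ht', hst', e⟩
  have e1 := congrArg Complex.re e
  have e2 := congrArg Complex.im e
  simp only [Complex.add_re, Complex.add_im, Complex.smul_re, Complex.smul_im, smul_eq_mul] at e1 e2
  have a1 : s * (α * a.re + β * a.im) + t * (α * b.re + β * b.im) < γ :=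
    (Convex.combo_le_max _ _ hs ht hst).trans_lt (max_lt h1 h2)
  have a2 : γ < s' * (α * c.re + β * c.im) + t' * (α * d.re + β * d.im) :=
    (lt_min h3 h4).trans_le (Convex.min_le_combo _ _ hs' ht' hst')
  have : s' * (α * c.re + β * c.im) + t' * (α * d.re + β * d.im) =
      s * (α * a.re + β * a.im) + t * (α * b.re + β * b.im) := by
    linear_combination α * e1 + β * e2
  linarith

lemma wholeF_iff (x : List Bool) : CF x = true ↔ ∃ ρ : List Bool → ℝ, (wholeF x).Holds ρ := by
  rw [cf_iff, ← and_assoc, ← okC_iff]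
  unfold wholeF
  simp only [foldl_and_holds]
  constructor
  · rintro ⟨hok, p, hp, hl⟩
    have hline : ∀ c : ℕ, ∃ l : ℝ × ℝ × ℝ, ∀ q ∈ quads (nvx x), qi q = c → need x q = true →
        (l.1 * (p q.1.1).re + l.2.1 * (p q.1.1).im < l.2.2 ∧
          l.1 * (p q.1.2).re + l.2.1 * (p q.1.2).im < l.2.2) ∧
        l.2.2 < l.1 * (p q.2.1).re + l.2.1 * (p q.2.1).im ∧
          l.2.2 < l.1 * (p q.2.2).re + l.2.1 * (p q.2.2).im := by
      intro c
      by_cases h : ∃ q ∈ quads (nvx x), qi q = c ∧ need x q = true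
      · obtain ⟨q, hq, rfl, hn⟩ := h
        obtain ⟨⟨a1, a2⟩, a3, a4⟩ := mem_quads.1 hq
        simp only [need, decide_eq_true_eq] at hn
        obtain ⟨l, hl⟩ := exists_line (hp _ a1 _ a2 _ a3 _ a4 hn.1 hn.2.1 hn.2.2.1 hn.2.2.2.1
          hn.2.2.2.2.1 hn.2.2.2.2.2)
        refine ⟨l, fun q' _ e _ => ?_⟩
        obtain rfl : q' = q := by
          obtain ⟨⟨a, b⟩, c, d⟩ := q
          obtain ⟨⟨a', b'⟩, c', d'⟩ := q'
          simpa [qi, and_assoc] using e
        exact hl
      · exact ⟨0, fun q hq e hn => absurd ⟨q, hq, e, hn⟩ h⟩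
    choose l hl' using hline
    let val : ℕ → ℕ → ℝ := fun i k => if k = 0 then (p i).re else if k = 1 then (p i).im
      else if k = 2 then (l i).1 else if k = 3 then (l i).2.1 else (l i).2.2
    let ρ : List Bool → ℝ := fun name =>
      val (Nat.unpair (name.length - 1)).1 (Nat.unpair (name.length - 1)).2
    have h1 : ∀ i k, ρ (vn i k) = val i k := by intro i k; simp [ρ, vn]
    refine ⟨ρ, ⟨by simp [hok, Formula.Holds, PTerm.eval], fun q hq => ?_⟩, fun q hq => ?_⟩
    · obtain ⟨hi, hj⟩ := mem_pairs.1 hq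
      have h2 := hl _ hi _ hj
      rw [norm_le_one_iff] at h2
      unfold lenF
      split_ifs with e1 e2
      · simpa [Formula.Holds, PTerm.eval, dT, h1, val] using (h2 e1).2 e2
      · simpa [Formula.Holds, PTerm.eval, dT, h1, val] using mt (h2 e1).1 e2
      · simp [Formula.Holds, PTerm.eval]
    · unfold sepF
      split_ifs with e
      · simpa [Formula.Holds, PTerm.eval, lT, h1, val] using hl' _ q hq rfl e
      · simp [Formula.Holds, PTerm.eval]
  · rintro ⟨ρ, ⟨h0, h1⟩, h2⟩
    split_ifs at h0 with hok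
    swap
    · simp [Formula.Holds] at h0
    refine ⟨hok, fun i => ⟨ρ (vn i 0), ρ (vn i 1)⟩,
      fun u hu v hv u' hu' v' hv' a1 a2 n1 n2 n3 n4 => ?_, fun u hu v hv h => ?_⟩
    · have := h2 ((u, v), u', v') (mem_quads.2 ⟨⟨hu, hv⟩, hu', hv'⟩)
      rw [sepF, if_pos (by simp only [need, decide_eq_true_eq]; exact ⟨a1, a2, n1, n2, n3, n4⟩)] at this
      simp only [Formula.Holds, PTerm.eval, lT] at this
      exact disjoint_of_line this.1.1 this.1.2 this.2.1 this.2.2
    · have := h1 (u, v) (mem_pairs.2 ⟨hu, hv⟩)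
      rw [lenF, if_pos h] at this
      rw [norm_le_one_iff]
      split_ifs at this with e <;> simp only [Formula.Holds, PTerm.eval, dT, not_lt] at this
      · exact ⟨fun _ => e, fun _ => this⟩
      · exact ⟨fun h => absurd this (not_lt.2 h), fun h => absurd h e⟩

@[fun_prop] theorem pt_nvx : PT nvx := by unfold nvx; fun_prop
@[fun_prop] theorem pt_mA : PT fun p : List Bool × ℕ × ℕ => mA p.1 p.2.1 p.2.2 := by
  unfold mA; fun_prop
@[fun_prop] theorem pt_mB : PT fun p : List Bool × ℕ × ℕ => mB p.1 p.2.1 p.2.2 := by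
  unfold mB; fun_prop
@[fun_prop] theorem pt_qi : PT qi := by unfold qi; fun_prop
@[fun_prop] theorem pt_quads : PT quads := by unfold quads; fun_prop
set_option synthInstance.maxSize 2048 in
@[fun_prop] theorem pt_need : PT fun p : List Bool × (ℕ × ℕ) × ℕ × ℕ => need p.1 p.2 := by
  unfold need; fun_prop
set_option synthInstance.maxSize 2048 in
@[fun_prop] theorem pt_okC : PT okC := by unfold okC; fun_prop

theorem pt_lenF : PT fun p : ℕ × ℕ × Bool × Bool => (lenF p.1 p.2.1 p.2.2.1 p.2.2.2).tokens := by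
  simp only [lenF, apply_ite Formula.tokens, Formula.tokens, PTerm.tokens, dT]
  fun_prop

theorem pt_sepF : PT fun p : ((ℕ × ℕ) × ℕ × ℕ) × Bool => (sepF p.1 p.2).tokens := by
  simp only [sepF, apply_ite Formula.tokens, Formula.tokens, PTerm.tokens, lT]
  fun_prop

theorem pt_wholeF : PT fun x => (wholeF x).tokens := by
  simp only [wholeF, foldl_and_tokens, apply_ite Formula.tokens, Formula.tokens, PTerm.tokens]
  refine PT.append (PT.append (by fun_prop) (PT.flatMap (PT.append ?_ (PT.const _)) (by fun_prop)))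
    (PT.flatMap (PT.append ?_ (PT.const _)) (by fun_prop))
  · exact pt_lenF.comp (f := fun p : List Bool × ℕ × ℕ =>
      (p.2.1, p.2.2, mA p.1 p.2.1 p.2.2, mB p.1 p.2.1 p.2.2)) (by fun_prop)
  · exact pt_sepF.comp (f := fun p : List Bool × (ℕ × ℕ) × ℕ × ℕ => (p.2, need p.1 p.2)) (by fun_prop)

theorem cf_mem : CF ∈ ExistsR := by
  refine ⟨fun x => unparse (wholeF x).tokens, PT.isPolyTime_bits (pt_unparse.comp pt_wholeF),
    fun x => ?_⟩
  rw [Bool.eq_iff_iff, wholeF_iff, ← etr_code, Formula.code, ← unparse_eq]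

end Pool.Agent.MP_a4408f_lc

end

section

/-! Every polynomial-time machine can be simulated, hence reductions compose. -/

namespace Pool.Agent.MP_a4408f_lc

open Turing Pool.Agent.MP_2e8011_lc

@[fun_prop] theorem pt_take {α β : Type} [Enc α] [Enc β] [Inhabited β] {l : α → List β} {n : α → ℕ}
    (hn : PT n) (hl : PT l) : PT (fun a => (l a).take (n a)) := by
  have : PT fun a => ((l a).reverse.drop ((l a).length - n a)).reverse := by fun_prop
  refine this.congr fun a => ?_
  rw [List.reverse_drop, List.reverse_reverse, List.length_reverse]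
  by_cases h : n a ≤ (l a).length
  · rw [Nat.sub_sub_self h]
  · rw [List.take_of_length_le (by omega), List.take_of_length_le (by omega)]

section
variable {K : Type} [DecidableEq K] {Γ : K → Type} {Λ σ : Type}

lemma length_stepAux (q : TM2.Stmt Γ Λ σ) : ∀ (v : σ) (S : ∀ k, List (Γ k)) (k : K),
    ((TM2.stepAux q v S).stk k).length ≤ (S k).length + depth q := by
  induction q with
  | push j f q ih =>
    intro v S k
    refine (ih _ _ k).trans ?_
    by_cases h : k = j
    · subst h; simp [depth]; omega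
    · simp [depth, h]
  | peek j f q ih => intro v S k; exact (ih _ _ k).trans (by simp [depth])
  | pop j f q ih =>
    intro v S k
    refine (ih _ _ k).trans ?_
    by_cases h : k = j
    · subst h; simp [depth]; omega
    · simp [depth, h]
  | load f q ih => intro v S k; exact ih _ _ k
  | branch f q₁ q₂ ih₁ ih₂ =>
    intro v S k
    simp only [TM2.stepAux, depth]
    cases f v
    · exact (ih₂ _ _ k).trans (by simp)
    · exact (ih₁ _ _ k).trans (by simp)
  | goto f => intro v S k; simp [TM2.stepAux]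
  | halt => intro v S k; simp [TM2.stepAux]

lemma length_nxt_iter {m : Λ → TM2.Stmt Γ Λ σ} {d : ℕ} (hd : ∀ l, depth (m l) ≤ d)
    (c : TM2.Cfg Γ Λ σ) (k : K) (n : ℕ) :
    (((nxt m)^[n] c).stk k).length ≤ (c.stk k).length + n * d := by
  induction n with
  | zero => simp
  | succ n ih =>
    rw [Function.iterate_succ_apply']
    generalize (nxt m)^[n] c = c' at ih
    unfold nxt
    split
    · nlinarith
    · rename_i l _
      have := length_stepAux (m l) c'.var c'.stk k
      have := hd l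
      nlinarith

/-- Code of a configuration. -/
def ccode (KL : List K) (cc : Option Λ × σ → ℕ) (cs : (Σ k, Γ k) → ℕ) (c : TM2.Cfg Γ Λ σ) :
    ℕ × List (List ℕ) :=
  (cc (c.l, c.var), KL.map fun k => (c.stk k).map fun γ => cs ⟨k, γ⟩)

omit [DecidableEq K] in
lemma ccode_inj {KL : List K} (hKL : ∀ k, k ∈ KL) {cc : Option Λ × σ → ℕ} (hcc : Function.Injective cc)
    {cs : (Σ k, Γ k) → ℕ} {A : Set (Σ k, Γ k)} (hcs : Set.InjOn cs A) {c c' : TM2.Cfg Γ Λ σ}
    (h : Over A c.stk) (h' : Over A c'.stk) (e : ccode KL cc cs c = ccode KL cc cs c') : c = c' := by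
  obtain ⟨l, v, S⟩ := c
  obtain ⟨l', v', S'⟩ := c'
  simp only [ccode, Prod.mk.injEq, List.map_inj_left] at e
  obtain ⟨rfl, rfl⟩ := Prod.mk.inj (hcc e.1)
  congr 1
  funext k
  have e2 := e.2 k (hKL k)
  have h1 := h k
  have h2 := h' k
  simp only at h1 h2
  generalize S k = a at *
  generalize S' k = b at *
  induction a generalizing b with
  | nil => cases b <;> simp_all
  | cons x a ih =>
    cases b with
    | nil => simp at e2
    | cons y b =>
      simp only [List.map_cons, List.cons.injEq] at e2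
      have := hcs (h1 x List.mem_cons_self) (h2 y List.mem_cons_self) e2.1
      obtain rfl : x = y := by simpa using this
      rw [ih (fun γ hγ => h1 γ (List.mem_cons_of_mem _ hγ)) b
        (fun γ hγ => h2 γ (List.mem_cons_of_mem _ hγ)) e2.2]

/-- One step on codes, by table lookup. -/
def cstep (T : List ((ℕ × List (List ℕ)) × (ℕ × List (List ℕ)))) (n d : ℕ) (x : ℕ × List (List ℕ)) :
    ℕ × List (List ℕ) :=
  (((T.filter fun e => decide (e.1 = (x.1, x.2.map (List.take d)))).headD default).2.1,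
    (List.range n).map fun j =>
      ((T.filter fun e => decide (e.1 = (x.1, x.2.map (List.take d)))).headD default).2.2.getD j []
        ++ (x.2.getD j []).drop d)

lemma pt_cstep (T : List ((ℕ × List (List ℕ)) × (ℕ × List (List ℕ)))) (n d : ℕ) :
    PT (cstep T n d) := by
  have h0 : PT fun x : ℕ × List (List ℕ) => x.2.map (List.take d) :=
    PT.map (f := fun _ l => List.take d l) (by fun_prop) (by fun_prop)
  have h1 : PT fun x : ℕ × List (List ℕ) =>
      ((T.filter fun e => decide (e.1 = (x.1, x.2.map (List.take d)))).headD default).2 := by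
    refine PT.snd (PT.headD (PT.filter (PT.eq (by fun_prop) (PT.prodMk (by fun_prop) ?_))
      (PT.const _)) (PT.const _))
    exact h0.comp (f := fun p : (ℕ × List (List ℕ)) × _ => p.1) (by fun_prop)
  unfold cstep
  refine PT.prodMk h1.fst (PT.map (PT.append (PT.getD ?_ (by fun_prop) (by fun_prop)) (by fun_prop))
    (by fun_prop))
  exact h1.snd.comp (f := fun p : (ℕ × List (List ℕ)) × ℕ => p.1) (by fun_prop)

lemma cstep_ccode {KL : List K} (hKL : ∀ k, k ∈ KL) {cc : Option Λ × σ → ℕ}
    (hcc : Function.Injective cc) {cs : (Σ k, Γ k) → ℕ} {A : Set (Σ k, Γ k)} (hcs : Set.InjOn cs A)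
    {m : Λ → TM2.Stmt Γ Λ σ} {d : ℕ} (hd : ∀ l, depth (m l) ≤ d) {TL : List (TM2.Cfg Γ Λ σ)}
    (hTL : ∀ c, c ∈ TL ↔ (∀ k, (c.stk k).length ≤ d) ∧ Over A c.stk) {c : TM2.Cfg Γ Λ σ}
    (h : Over A c.stk) :
    cstep (TL.map fun w => (ccode KL cc cs w, ccode KL cc cs (nxt m w))) KL.length d
      (ccode KL cc cs c) = ccode KL cc cs (nxt m c) := by
  have hw : win d c ∈ TL := (hTL _).2 ⟨fun k => by simp [win], fun k γ hγ =>
    h k γ (List.mem_of_mem_take hγ)⟩
  have e1 : ((ccode KL cc cs c).1, (ccode KL cc cs c).2.map (List.take d)) =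
      ccode KL cc cs (win d c) := by
    simp [ccode, win, List.map_take]
  have e2 : (((TL.map fun w => (ccode KL cc cs w, ccode KL cc cs (nxt m w))).filter
      fun e => decide (e.1 = ccode KL cc cs (win d c))).headD default).2 =
      ccode KL cc cs (nxt m (win d c)) := by
    have a1 : ∀ e ∈ (TL.map fun w => (ccode KL cc cs w, ccode KL cc cs (nxt m w))).filter
        fun e => decide (e.1 = ccode KL cc cs (win d c)), e.2 = ccode KL cc cs (nxt m (win d c)) := by
      intro e he
      simp only [List.mem_filter, List.mem_map, decide_eq_true_eq] at he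
      obtain ⟨⟨w, hw', rfl⟩, he⟩ := he
      rw [ccode_inj hKL hcc hcs ((hTL _).1 hw').2 ((hTL _).1 hw).2 he]
    have a2 : (ccode KL cc cs (win d c), ccode KL cc cs (nxt m (win d c))) ∈
        (TL.map fun w => (ccode KL cc cs w, ccode KL cc cs (nxt m w))).filter
        fun e => decide (e.1 = ccode KL cc cs (win d c)) := by
      simp only [List.mem_filter, List.mem_map, decide_eq_true_eq]
      exact ⟨⟨_, hw, rfl⟩, trivial⟩
    generalize List.filter _ _ = l at a1 a2
    cases l with
    | nil => simp at a2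
    | cons a l => exact a1 a List.mem_cons_self
  unfold cstep
  rw [e1, e2, nxt_local hd c]
  simp only [ccode, Prod.mk.injEq, true_and]
  refine List.ext_getElem (by simp) fun j h1 h2 => ?_
  have hj : j < KL.length := by simpa using h1
  simp [List.getD_eq_getElem?_getD, hj, List.map_drop]

end

/-- Polynomial-time functions of the prelude are `PT`. -/
theorem pt_of_isPolyTime {f : List Bool → List Bool} (hf : N68a2faeb.IsPolyTime f) : PT f := by
  classical
  unfold N68a2faeb.IsPolyTime N68a2faeb.IsPolyTimeWithEncoding at hf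
  rw [(agree_list agree_bool).encode_eq] at hf
  obtain ⟨M⟩ := hf
  have := M.tm.kFin
  have := M.tm.ΛFin
  have := M.tm.σFin
  let A : Set (Σ k, M.tm.Γ k) := (⋃ l, syms (M.tm.m l)) ∪
    (Set.range (fun b => ⟨M.tm.k₀, M.inputAlphabet.symm b⟩) ∪
      Set.range (fun b => ⟨M.tm.k₁, M.outputAlphabet.symm b⟩))
  have hA : A.Finite := (Set.finite_iUnion (fun l => syms_finite _)).union
    ((Set.finite_range _).union (Set.finite_range _))
  obtain ⟨cs, hcs⟩ := Set.countable_iff_exists_injOn.1 hA.countable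
  obtain ⟨cc, hcc⟩ := exists_injective_nat (Option M.tm.Λ × M.tm.σ)
  let d := Finset.univ.sup (fun l => depth (M.tm.m l))
  have hd : ∀ l, depth (M.tm.m l) ≤ d := fun l =>
    Finset.le_sup (f := fun l => depth (M.tm.m l)) (Finset.mem_univ l)
  have hT := windows_finite (Λ := M.tm.Λ) (σ := M.tm.σ) hA d
  let KL : List M.tm.K := Finset.univ.toList
  have hKL : ∀ k, k ∈ KL := fun k => by simp [KL]
  let TL := hT.toFinset.toList
  have hTL : ∀ c, c ∈ TL ↔ (∀ k, (c.stk k).length ≤ d) ∧ Over A c.stk := fun c => by simp [TL]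
  let g := cstep (TL.map fun w => (ccode KL cc cs w, ccode KL cc cs (nxt M.tm.m w))) KL.length d
  have hm : ∀ l, syms (M.tm.m l) ⊆ A := fun l x hx => Or.inl (Set.mem_iUnion.2 ⟨l, hx⟩)
  let c0 : List Bool → TM2.Cfg M.tm.Γ M.tm.Λ M.tm.σ := fun x =>
    initList M.tm (List.map M.inputAlphabet.invFun (enc x))
  have hstk : ∀ x k, (((c0 x).stk k).map fun γ => cs ⟨k, γ⟩) =
      if k = M.tm.k₀ then (enc x).map fun b => cs ⟨M.tm.k₀, M.inputAlphabet.symm b⟩ else [] := by
    intro x k
    by_cases hk : k = M.tm.k₀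
    · subst hk
      simp [c0, initList]
    · simp [c0, initList, hk]
  have hover0 : ∀ x, Over A (c0 x).stk := by
    intro x k γ hγ
    by_cases hk : k = M.tm.k₀
    · subst hk
      simp only [c0, initList, dif_pos, List.mem_map] at hγ
      obtain ⟨b, -, rfl⟩ := List.mem_map.1 hγ
      exact Or.inr (Or.inl ⟨b, rfl⟩)
    · simp [c0, initList, hk] at hγ
  have hover : ∀ x n, Over A ((nxt M.tm.m)^[n] (c0 x)).stk := by
    intro x n
    induction n with
    | zero => exact hover0 x
    | succ n ih => rw [Function.iterate_succ_apply']; exact over_nxt hm ih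
  have hiter : ∀ x n, g^[n] (ccode KL cc cs (c0 x)) = ccode KL cc cs ((nxt M.tm.m)^[n] (c0 x)) := by
    intro x n
    induction n with
    | zero => rfl
    | succ n ih =>
      rw [Function.iterate_succ_apply', Function.iterate_succ_apply', ih]
      exact cstep_ccode hKL hcc hcs hd hTL (hover x n)
  have hs : PT fun x : List Bool => ccode KL cc cs (c0 x) := by
    have h1 : PT fun x : List Bool => (enc x).map fun b => cs ⟨M.tm.k₀, M.inputAlphabet.symm b⟩ :=
      PT.map (f := fun _ b => cs ⟨M.tm.k₀, M.inputAlphabet.symm b⟩)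
        (PT.bool_cases (p := fun p : List Bool × Bool => p.2) (by fun_prop)
          (g := fun b _ => cs ⟨M.tm.k₀, M.inputAlphabet.symm b⟩) fun b => PT.const _) (by fun_prop)
    simp only [ccode, hstk]
    refine PT.prodMk (PT.const (cc (some M.tm.main, M.tm.initialState))) (PT.map_const KL fun k => ?_)
    split_ifs
    · exact h1
    · exact PT.const _
  let T : List Bool → ℕ := fun x => M.time.eval (sz x)
  have hT' : PT T := by fun_prop
  obtain ⟨C, hC⟩ : ∃ C, (∀ q, cc q ≤ C) ∧ ∀ s ∈ A, cs s ≤ C := by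
    obtain ⟨C1, h1⟩ := (Set.finite_range cc).bddAbove
    obtain ⟨C2, h2⟩ := (hA.image cs).bddAbove
    exact ⟨C1 + C2, fun q => le_add_right (h1 ⟨q, rfl⟩), fun s hs => le_add_left (h2 ⟨s, hs, rfl⟩)⟩
  have hrun : PT fun x => g^[T x] (ccode KL cc cs (c0 x)) := by
    refine PT.iter (pt_cstep _ _ _) hT' hs
      (B := fun x => 2 * C + 1 + KL.length * (2 * ((sz x + T x * d) * (2 * C + 1)) + 1))
      (PT.pb (by fun_prop)) fun x i hi => ?_
    rw [hiter, ccode, sz_prod, sz_nat]
    refine Nat.add_le_add (by have := hC.1 (((nxt M.tm.m)^[i] (c0 x)).l, ((nxt M.tm.m)^[i] (c0 x)).var); omega) ?_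
    refine (sz_le_of_forall (B := (sz x + T x * d) * (2 * C + 1)) fun a ha => ?_).trans (by simp)
    obtain ⟨k, -, rfl⟩ := List.mem_map.1 ha
    refine (sz_le_of_forall (B := C) fun a ha => ?_).trans (Nat.mul_le_mul_right _ ?_)
    · obtain ⟨γ, hγ, rfl⟩ := List.mem_map.1 ha
      simpa using hC.2 _ (hover x i k γ hγ)
    · rw [List.length_map]
      refine (length_nxt_iter hd _ k i).trans (Nat.add_le_add ?_ (Nat.mul_le_mul_right _ hi))
      have := congrArg List.length (hstk x k)
      rw [List.length_map] at this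
      rw [this]
      split_ifs <;> simp [sz]
  obtain ⟨j, hj, hjk⟩ := List.getElem_of_mem (hKL M.tm.k₁)
  have hout : PT fun x => ((g^[T x] (ccode KL cc cs (c0 x))).2.getD j []).map
      fun s => decide (s = cs ⟨M.tm.k₁, M.outputAlphabet.symm true⟩) :=
    PT.map (f := fun _ s => decide (s = cs ⟨M.tm.k₁, M.outputAlphabet.symm true⟩)) (by fun_prop)
      (PT.getD hrun.snd (PT.const _) (PT.const _))
  refine CP.congr (PT.mkRaw hout) fun x => ?_
  simp only [enc_raw, hiter]
  obtain ⟨⟨n, hn⟩, hn'⟩ := M.outputsFun x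
  simp only at hn'
  have h1 := nxt_iter_of_steps M.tm.m n _ _ hn
  have h3 : n ≤ T x := hn'
  obtain ⟨e, he⟩ := Nat.exists_eq_add_of_le h3
  rw [he, add_comm, Function.iterate_add_apply]
  change ((ccode KL cc cs ((nxt M.tm.m)^[e] ((nxt M.tm.m)^[n] (initList M.tm _)))).2.getD j []).map _ = _
  rw [h1, nxt_iter_halt _ rfl]
  have hne : cs ⟨M.tm.k₁, M.outputAlphabet.symm false⟩ ≠ cs ⟨M.tm.k₁, M.outputAlphabet.symm true⟩ := by
    intro h
    have := hcs (Or.inr (Or.inr ⟨false, rfl⟩)) (Or.inr (Or.inr ⟨true, rfl⟩)) h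
    simp at this
  simp only [ccode, List.getD_eq_getElem?_getD, List.getElem?_map, List.getElem?_eq_getElem hj, hjk,
    Option.map_some, Option.getD_some, haltList, dif_pos, List.map_map]
  change List.map _ (List.map M.outputAlphabet.invFun (enc (f x))) = _
  rw [List.map_map]
  refine (List.map_congr_left fun b _ => ?_).trans (List.map_id _)
  cases b <;> simp [hne]

/-- Reductions compose. -/
theorem reducible_trans {A B C : N68a2faeb.DecisionProblem} (h1 : N793a5b8e.ManyOneReducible A B)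
    (h2 : N793a5b8e.ManyOneReducible B C) : N793a5b8e.ManyOneReducible A C := by
  obtain ⟨f, hf, h1⟩ := h1
  obtain ⟨g, hg, h2⟩ := h2
  exact ⟨fun x => g (f x), ((pt_of_isPolyTime hg).comp (pt_of_isPolyTime hf)).isPolyTime_bits,
    fun x => (h1 x).trans (h2 _)⟩

end Pool.Agent.MP_a4408f_lc

end

section

/-! Completeness follows from a geometric realisation of the trigonometric tests. -/

namespace Pool.Agent.MP_a4408f_lc

open Pool.Agent.MP_485bb6_lc Pool.Agent.MP_2e8011_lc

theorem complete_of_reduction (g : List BT → List Bool) (hg : PT g)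
    (hc : ∀ L, BNear L → CF (g L) = true) (hs : ∀ L, CF (g L) = true → BSat L) :
    N793a5b8e.IsCompleteFor ExistsR CF := by
  refine ⟨cf_mem, fun L' hL' => reducible_trans hL' ⟨fun x => g (bitsToB x),
    (hg.comp pt_bitsToB).isPolyTime_bits, fun x => ?_⟩⟩
  rw [Bool.eq_iff_iff]
  exact ⟨fun h => hc _ (bnear_of_etr h), fun h => etr_of_bsat (hs _ h)⟩

theorem complete_of_geometry {V : Type} [Enc V] (d : V) (vs : List BT → List V)
    (A B : List BT → V → V → Bool) (hvs : PT vs)
    (hA : PT fun p : List BT × V × V => A p.1 p.2.1 p.2.2)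
    (hB : PT fun p : List BT × V × V => B p.1 p.2.1 p.2.2)
    (hnd : ∀ L, (vs L).Nodup) (hW : ∀ L, Wf {v | v ∈ vs L} (A L) (B L))
    (hc : ∀ L, BNear L → ∃ p, Real2 {v | v ∈ vs L} (A L) (B L) p)
    (hs : ∀ L p, Real2 {v | v ∈ vs L} (A L) (B L) p → BSat L) :
    N793a5b8e.IsCompleteFor ExistsR CF :=
  complete_of_reduction (fun L => bitsG (vs L) d (A L) (B L)) (pt_bitsG hvs d hA hB)
    (fun L h => (cf_bitsG (hnd L) d (hW L)).2 (hc L h))
    (fun L h => by
      obtain ⟨p, hp⟩ := (cf_bitsG (hnd L) d (hW L)).1 h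
      exact hs L p hp)

end Pool.Agent.MP_a4408f_lc

end
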