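import Mathlib
import Pool.Agent.Mg.F2e8011.G0f7af8

section

set_option autoImplicit false

/-! Checking layouts: single tables, and invariance under monotone renumbering. -/

namespace Pool.Agent.MP_b0ee3d_lc

/-- all pairs -/
def pw {α : Type} (f : α → α → Bool) : List α → Bool
  | [] => true
  | a :: l => l.all (f a) && pw f l

theorem pw_getD {α : Type} {f : α → α → Bool} {l : List α} (h : pw f l = true) (d : α) {i j : ℕ}
    (hij : i < j) (hj : j < l.length) : f (l.getD i d) (l.getD j d) = true := by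
  induction l generalizing i j with
  | nil => simp at hj
  | cons a l ih =>
    rw [pw, Bool.and_eq_true, List.all_eq_true] at h
    obtain ⟨j, rfl⟩ : ∃ k, j = k + 1 := ⟨j - 1, by omega⟩
    have hj' : j < l.length := by simpa using hj
    rcases i with _ | i
    · rw [List.getD_cons_zero, List.getD_cons_succ, List.getD_eq_getElem _ _ hj']
      exact h.1 _ (List.getElem_mem hj')
    · rw [List.getD_cons_succ, List.getD_cons_succ]
      exact ih h.2 (by omega) hj'

theorem all_getD {α : Type} {f : α → Bool} {l : List α} (h : l.all f = true) (d : α) {i : ℕ}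
    (hi : i < l.length) : f (l.getD i d) = true := by
  rw [List.getD_eq_getElem _ _ hi]
  exact List.all_eq_true.mp h _ (List.getElem_mem hi)

theorem any_getD {α : Type} {f : α → Bool} {l : List α} (h : l.any f = true) (d : α) :
    ∃ i < l.length, f (l.getD i d) = true := by
  obtain ⟨x, hx, h⟩ := List.any_eq_true.mp h
  obtain ⟨i, hi, rfl⟩ := List.getElem_of_mem hx
  exact ⟨i, hi, by rwa [List.getD_eq_getElem _ _ hi]⟩

theorem sum_getD {α : Type} (f : α → ℤ) (l : List α) (d : α) :
    ∑ p ∈ Finset.range l.length, f (l.getD p d) = (l.map f).sum := by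
  rw [← Fin.sum_univ_fun_getElem, Finset.sum_range]
  exact Finset.sum_congr rfl fun i _ => by rw [List.getD_eq_getElem _ _ i.2]

def eqR (a b : R) : Bool := Nat.beq a.1 b.1 && Nat.beq a.2.1 b.2.1 && eqb a.2.2 b.2.2

theorem eqR_iff {a b : R} : eqR a b = true ↔ a = b := by
  simp [eqR, eqb_iff, Prod.ext_iff, and_assoc]

def dQ : Q := ((0, 0, false), (0, 0, false), (0, 0, false), false)

def isZ (z : ℤ) : Bool := match z with
  | Int.ofNat n => Nat.beq n 0
  | Int.negSucc _ => false

theorem isZ_iff {z : ℤ} : isZ z = true ↔ z = 0 := by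
  cases z <;> simp [isZ]

/-- a table is a correct layout -/
noncomputable def tabOK (n : ℕ) (T : List Q) (C : List (List R)) (js : ℕ) (Bd : List ℕ) : Bool :=
  Nat.blt 0 T.length &&
  allN T.length (fun p => eqR (T.getD p dQ).2.2.1 (T.getD ((p + 1) % T.length) dQ).2.1 &&
    eqR (T.getD p dQ).2.1 (T.getD ((p + 1) % T.length) dQ).1) &&
  T.all (fun x => Nat.blt x.2.1.1 (8 * n) && Nat.blt 0 x.2.1.2.1 && !same x.2.1 x.2.2.1) &&
  pw twoB T && decide Bd.Nodup &&
  Bd.all (fun p => Nat.blt p T.length && allN T.length fun p' =>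
    Nat.beq p' p || !same (T.getD p dQ).2.1 (T.getD p' dQ).2.1) &&
  Nat.ble (T.length + 2) (2 * n + Bd.length) &&
  !isZ (T.map fun x => kw x.2.1 x.2.2.1 (dot js)).sum &&
  allN n (fun j => Nat.beq j js || ((prs (C.getD j [])).all (fun e => T.any fun x =>
      (eqR e.1 x.2.1 && eqR e.2 x.2.2.1) || (eqR e.1 x.2.2.1 && eqR e.2 x.2.1)) &&
    !isZ (windL (C.getD j []) (dot j)) &&
    allN n fun j' => Nat.beq j' j || isZ (windL (C.getD j []) (dot j'))))

theorem valid_of_tab {n : ℕ} {T : List Q} {C : List (List R)} {js : ℕ} {Bd : List ℕ}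
    (h : tabOK n T C js Bd = true) : Valid n T.length (fun p => T.getD p dQ) := by
  simp only [tabOK, Bool.and_eq_true, allN_iff, Nat.blt_eq, Nat.ble_eq, eqR_iff, Bool.or_eq_true,
    Nat.beq_eq, decide_eq_true_eq, Bool.not_eq_true', ← Bool.not_eq_true (isZ _), isZ_iff] at h
  obtain ⟨⟨⟨⟨⟨⟨⟨⟨h1, h2⟩, h3⟩, h4⟩, h5⟩, h6⟩, h7⟩, h8⟩, h9⟩ := h
  refine ⟨h1, h2, fun p hp => ?_, fun p hp p' hp' hne => ?_, ⟨Bd.toFinset, fun p hp => ?_, ?_⟩,
    js, fun j => C.getD j [], ?_, fun j hj hjs => ?_⟩
  · simpa [and_assoc] using all_getD h3 dQ hp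
  · rcases lt_or_gt_of_ne hne with h' | h'
    · exact Or.inl (pw_getD h4 dQ h' hp')
    · exact Or.inr (pw_getD h4 dQ h' hp)
  · have := List.all_eq_true.mp h6 p (List.mem_toFinset.mp hp)
    simp only [Bool.and_eq_true, allN_iff, Nat.blt_eq, Bool.or_eq_true, Nat.beq_eq,
      Bool.not_eq_true'] at this
    exact ⟨this.1, fun p' hp' hne => (this.2 p' hp').resolve_left hne⟩
  · rwa [List.toFinset_card_of_nodup h5]
  · rwa [sum_getD (fun x : Q => kw x.2.1 x.2.2.1 (dot js))]
  · obtain ⟨⟨a1, a2⟩, a3⟩ := (h9 j hj).resolve_left hjs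
    refine ⟨fun e he => ?_, a2, fun j' hj' hne => (a3 j' hj').resolve_left hne⟩
    obtain ⟨p, hp, a4⟩ := any_getD (List.all_eq_true.mp a1 e he) dQ
    simp only [Bool.and_eq_true, eqR_iff, Bool.or_eq_true] at a4
    exact ⟨p, hp, a4.imp (fun a => Prod.ext a.1 a.2) (fun a => Prod.ext a.1 a.2)⟩

/-- monotone renumbering -/
def psi (A u : ℕ) (Δ : ℕ → ℕ) (x : ℕ) : ℕ := if x = 0 then 0 else x + u * Δ ((x + u - A) / u)

theorem psi_mono (A u : ℕ) {Δ : ℕ → ℕ} (h : Monotone Δ) : StrictMono (psi A u Δ) := by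
  intro x y hxy
  unfold psi
  rw [if_neg (show y ≠ 0 by omega)]
  split_ifs
  · omega
  · have := Nat.mul_le_mul_left u (h (Nat.div_le_div_right (c := u)
      (show x + u - A ≤ y + u - A by omega)))
    omega

def mp (A A' : ℕ) (Δ : ℕ → ℕ) (a : R) : R := (psi A 48 Δ a.1, psi A' 6 Δ a.2.1, a.2.2)

def mpQ (A A' : ℕ) (Δ : ℕ → ℕ) (x : Q) : Q :=
  (mp A A' Δ x.1, mp A A' Δ x.2.1, mp A A' Δ x.2.2.1, x.2.2.2)

section
variable {A A' : ℕ} {Δ : ℕ → ℕ} (h : Monotone Δ)
include h

theorem ls_mp (a b : R) : ls (mp A A' Δ a) (mp A A' Δ b) = ls a b := by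
  rw [Bool.eq_iff_iff, ls, ls, Nat.blt_eq, Nat.blt_eq]
  exact (psi_mono A 48 h).lt_iff_lt

theorem ll_mp (a b : R) : ll (mp A A' Δ a) (mp A A' Δ b) = ll a b := by
  rw [Bool.eq_iff_iff, ll, ll, Nat.blt_eq, Nat.blt_eq]
  exact (psi_mono A' 6 h).lt_iff_lt

omit h in
theorem up_mp (a : R) : (mp A A' Δ a).2.2 = a.2.2 := rfl

theorem same_mp (a b : R) : same (mp A A' Δ a) (mp A A' Δ b) = same a b := by
  simp only [same, ll_mp h]

theorem ori_mp (a b c : R) : ori (mp A A' Δ a) (mp A A' Δ b) (mp A A' Δ c) = ori a b c := by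
  simp only [ori, ori1, ll_mp h, ls_mp h, up_mp]

theorem twoB_mp (x y : Q) : twoB (mpQ A A' Δ x) (mpQ A A' Δ y) = twoB x y := by
  simp only [twoB, mpQ, sepB, crossB, cyc, same_mp h, ori_mp h, ls_mp h, up_mp]

theorem kw_mp (a b c : R) : kw (mp A A' Δ a) (mp A A' Δ b) (mp A A' Δ c) = kw a b c := by
  simp only [kw, ori_mp h, up_mp]

theorem windL_mp (l : List R) (d : R) : windL (l.map (mp A A' Δ)) (mp A A' Δ d) = windL l d := by
  simp only [windL, prs_map, List.map_map, Function.comp_def, Prod.map_fst, Prod.map_snd, kw_mp h]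

end

/-- symbolic records -/
abbrev SR := (ℕ × ℕ) × (ℕ × ℕ) × Bool

abbrev SQ := SR × SR × SR × Bool

def val (z t i : ℕ) : ℕ := cond (Nat.beq z 0) 0 (cond (Nat.beq z 1) t i)

def ev (t i : ℕ) (s : SR) : R :=
  (Nat.add s.1.1 (Nat.mul 48 (val s.1.2 t i)), Nat.add s.2.1.1 (Nat.mul 6 (val s.2.1.2 t i)), s.2.2)

def evQ (t i : ℕ) (x : SQ) : Q := (ev t i x.1, ev t i x.2.1, ev t i x.2.2.1, x.2.2.2)

theorem val_eq (z t i : ℕ) : val z t i = if z = 0 then 0 else if z = 1 then t else i := by
  rcases z with _ | _ | z <;> rfl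

theorem ev_eq (t i : ℕ) (s : SR) :
    ev t i s = (s.1.1 + 48 * val s.1.2 t i, s.2.1.1 + 6 * val s.2.1.2 t i, s.2.2) := rfl

def rgE (A u : ℕ) (c : ℕ × ℕ) : Bool :=
  (Nat.beq c.2 0 && Nat.blt c.1 A) || (Nat.beq c.2 1 && Nat.ble A (c.1 + u))

def rgB (A u : ℕ) (c : ℕ × ℕ) : Bool :=
  Nat.beq c.2 2 && Nat.ble A (c.1 + u) && Nat.blt c.1 (A + u) && Nat.blt 0 c.1

def isE (A A' : ℕ) (s : SR) : Bool := rgE A 48 s.1 && rgE A' 6 s.2.1

def isB (A A' : ℕ) (s : SR) : Bool :=
  rgB A 48 s.1 && (rgB A' 6 s.2.1 || (Nat.beq s.2.1.1 0 && Nat.beq s.2.1.2 0))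

theorem rgE_map {A u : ℕ} (hu : u = 48 ∨ u = 6) {c : ℕ × ℕ} (hc : rgE A u c = true) {Δ : ℕ → ℕ}
    {t t0 : ℕ} (i i0 : ℕ) (h0 : Δ 0 = 0) (h1 : 1 ≤ t0) (h2 : ∀ m, t0 ≤ m → t = t0 + Δ m) :
    c.1 + u * val c.2 t i = psi A u Δ (c.1 + u * val c.2 t0 i0) := by
  simp only [rgE, Bool.or_eq_true, Bool.and_eq_true, Nat.beq_eq, Nat.blt_eq, Nat.ble_eq] at hc
  unfold psi
  rcases hc with ⟨a, b⟩ | ⟨a, b⟩
  · simp only [a, val_eq, if_true, mul_zero, add_zero]
    rw [show (c.1 + u - A) / u = 0 by rcases hu with rfl | rfl <;> omega, h0]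
    split_ifs <;> omega
  · simp only [a, val_eq, if_true, one_ne_zero, if_false]
    rw [if_neg (by rcases hu with rfl | rfl <;> omega),
      h2 ((c.1 + u * t0 + u - A) / u) (by rcases hu with rfl | rfl <;> omega)]
    ring

theorem rgB_map {A u : ℕ} (hu : u = 48 ∨ u = 6) {c : ℕ × ℕ} (hc : rgB A u c = true) {Δ : ℕ → ℕ}
    (t t0 : ℕ) {i i0 : ℕ} (h1 : i = i0 + Δ i0) (h2 : i = i0 + Δ (i0 + 1)) :
    c.1 + u * val c.2 t i = psi A u Δ (c.1 + u * val c.2 t0 i0) := by
  simp only [rgB, Bool.and_eq_true, Nat.beq_eq, Nat.blt_eq, Nat.ble_eq] at hc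
  obtain ⟨⟨⟨a, b⟩, d⟩, e⟩ := hc
  unfold psi
  simp only [a, val_eq, OfNat.ofNat_ne_zero, OfNat.ofNat_ne_one, if_false]
  rw [if_neg (by omega)]
  have : (c.1 + u * i0 + u - A) / u = i0 ∨ (c.1 + u * i0 + u - A) / u = i0 + 1 := by
    rcases hu with rfl | rfl <;> omega
  rcases this with h | h <;> rw [h]
  · conv_lhs => rw [h1]
    ring
  · conv_lhs => rw [h2]
    ring

theorem evE_map {A A' : ℕ} {s : SR} (hs : isE A A' s = true) {Δ : ℕ → ℕ}
    {t t0 : ℕ} (i i0 : ℕ) (h0 : Δ 0 = 0) (h1 : 1 ≤ t0) (h2 : ∀ m, t0 ≤ m → t = t0 + Δ m) :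
    ev t i s = mp A A' Δ (ev t0 i0 s) := by
  rw [isE, Bool.and_eq_true] at hs
  rw [ev_eq, ev_eq, mp, rgE_map (Or.inl rfl) hs.1 i i0 h0 h1 h2,
    rgE_map (Or.inr rfl) hs.2 i i0 h0 h1 h2]

theorem evB_map {A A' : ℕ} {s : SR} (hs : isB A A' s = true) {Δ : ℕ → ℕ}
    (t t0 : ℕ) {i i0 : ℕ} (h1 : i = i0 + Δ i0) (h2 : i = i0 + Δ (i0 + 1)) :
    ev t i s = mp A A' Δ (ev t0 i0 s) := by
  rw [isB, Bool.and_eq_true, Bool.or_eq_true, Bool.and_eq_true, Nat.beq_eq, Nat.beq_eq] at hs
  rw [ev_eq, ev_eq, mp, rgB_map (Or.inl rfl) hs.1 t t0 h1 h2]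
  rcases hs.2 with h | h
  · rw [rgB_map (Or.inr rfl) h t t0 h1 h2]
  · simp [h.1, h.2, val_eq, psi]

theorem scEE (A A' : ℕ) {t : ℕ} (ht : 1 ≤ t) : ∃ Δ, Monotone Δ ∧
    ∀ s, isE A A' s = true → ∀ i, ev t i s = mp A A' Δ (ev 1 0 s) :=
  ⟨fun m => if m = 0 then 0 else t - 1, fun a b h => by dsimp only; split_ifs <;> omega,
    fun s hs i => evE_map hs i 0 rfl le_rfl (fun m hm => by rw [if_neg (by omega)]; omega)⟩

theorem scES (A A' : ℕ) {t i : ℕ} (ht : i < t) : ∃ Δ, Monotone Δ ∧ ∃ i0 < 2, ∃ k < 2,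
    (∀ s, isE A A' s = true → ∀ j, ev t j s = mp A A' Δ (ev (i0 + 1 + k) 0 s)) ∧
    ∀ s, isB A A' s = true → ev t i s = mp A A' Δ (ev (i0 + 1 + k) i0 s) :=
  ⟨fun m => if m < min i 1 then 0 else if m ≤ min i 1 + 1 then i - min i 1
      else t - (min i 1 + 1 + min (t - i - 1) 1),
    fun a b h => by dsimp only; split_ifs <;> omega, min i 1, by omega, min (t - i - 1) 1, by omega,
    fun s hs j => evE_map hs j 0 (by split_ifs <;> omega) (by omega)
      (fun m hm => by split_ifs <;> omega),
    fun s hs => evB_map hs _ _ (by split_ifs <;> omega) (by split_ifs <;> omega)⟩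

theorem scSS (A A' t : ℕ) {i i' : ℕ} (h : i ≤ i') : ∃ Δ, Monotone Δ ∧ ∃ k < 3, (k = 0 ↔ i = i') ∧
    (∀ s, isB A A' s = true → ev t i s = mp A A' Δ (ev 0 0 s)) ∧
    ∀ s, isB A A' s = true → ev t i' s = mp A A' Δ (ev 0 k s) :=
  ⟨fun m => if m ≤ 1 then i else i' - min (i' - i) 2,
    fun a b h => by dsimp only; split_ifs <;> omega, min (i' - i) 2, by omega, by omega,
    fun s hs => evB_map hs _ _ (by simp) (by simp),
    fun s hs => evB_map hs _ _ (by split_ifs <;> omega) (by split_ifs <;> omega)⟩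

def eqS (s s' : SR) : Bool := Nat.beq s.1.1 s'.1.1 && Nat.beq s.1.2 s'.1.2 &&
  Nat.beq s.2.1.1 s'.2.1.1 && Nat.beq s.2.1.2 s'.2.1.2 && eqb s.2.2 s'.2.2

/-- `s` and `s'` have the types `z`, `2`, and their constants differ by `k` periods -/
def relS (z k : ℕ) (s s' : SR) : Bool := Nat.beq s.1.2 z && Nat.beq s.2.1.2 z && Nat.beq s'.1.2 2 &&
  Nat.beq s'.2.1.2 2 && eqb s.2.2 s'.2.2 &&
  Nat.beq (s.1.1 + 48) (s'.1.1 + 48 * k) && Nat.beq (s.2.1.1 + 6) (s'.2.1.1 + 6 * k)

theorem eqS_ev {s s' : SR} (h : eqS s s' = true) : s = s' := by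
  simpa [eqS, eqb_iff, Prod.ext_iff, and_assoc] using h

theorem relS_ev {z k : ℕ} {s s' : SR} (h : relS z k s s' = true) {t i i' : ℕ}
    (e : val z t i + k = i' + 1) : ev t i s = ev t i' s' := by
  simp only [relS, Bool.and_eq_true, Nat.beq_eq, eqb_iff] at h
  obtain ⟨⟨⟨⟨⟨⟨a, b⟩, c⟩, d⟩, f⟩, g⟩, j⟩ := h
  have : val 2 t i' = i' := rfl
  rw [ev_eq, ev_eq, a, b, c, d, f, this]
  congr 1
  · omega
  · congr 1; omega

end Pool.Agent.MP_b0ee3d_lc

end

section

set_option autoImplicit false

/-! Infinite families of layouts. -/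

namespace Pool.Agent.MP_b0ee3d_lc

/-- a family of layouts: three special stretches and three strands through `t` blocks -/
structure Fam where
  n0 : ℕ
  c0 : ℕ
  A : ℕ
  A' : ℕ
  g0 : ℕ
  g1 : ℕ
  g2 : ℕ
  d0 : ℕ
  d1 : ℕ
  d2 : ℕ
  js : ℕ
  E : List SQ
  B : List SQ
  CE : List (List SR)
  CB : List (List SR)

def dSR : SR := ((0, 0), (0, 0), false)

def dSQ : SQ := (dSR, dSR, dSR, false)

def blk (d t m : ℕ) : ℕ := if d = 0 then m else t - 1 - m

def mt (f : SR → SR → Bool) (e : SR × SR) (x : SQ) : Bool :=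
  (f e.1 x.2.1 && f e.2 x.2.2.1) || (f e.1 x.2.2.1 && f e.2 x.2.1)

def chn (f : SR → SR → Bool) (x y : SQ) : Bool := f x.2.2.1 y.2.1 && f x.2.1 y.1

def all3 (f : SR → Bool) (x : SQ) : Bool := f x.1 && f x.2.1 && f x.2.2.1

namespace Fam

variable (F : Fam)

def G : ℕ := F.g0 + F.g1 + F.g2

def desc (t p : ℕ) : ℕ × ℕ × ℕ :=
  if p < F.g0 then (0, p, 0)
  else if p < F.g0 + 4 * t then (1, (p - F.g0) % 4, blk F.d0 t ((p - F.g0) / 4))
  else if p < F.g0 + F.g1 + 4 * t then (0, p - 4 * t, 0)
  else if p < F.g0 + F.g1 + 8 * t then (1, 4 + (p - F.g0 - F.g1 - 4 * t) % 4,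
    blk F.d1 t ((p - F.g0 - F.g1 - 4 * t) / 4))
  else if p < F.g0 + F.g1 + F.g2 + 8 * t then (0, p - 8 * t, 0)
  else (1, 8 + (p - F.g0 - F.g1 - F.g2 - 8 * t) % 4,
    blk F.d2 t ((p - F.g0 - F.g1 - F.g2 - 8 * t) / 4))

def pos (t : ℕ) (a : ℕ × ℕ × ℕ) : ℕ :=
  if a.1 = 0 then (if a.2.1 < F.g0 then a.2.1 else if a.2.1 < F.g0 + F.g1 then a.2.1 + 4 * t
    else a.2.1 + 8 * t)
  else if a.2.1 < 4 then F.g0 + 4 * blk F.d0 t a.2.2 + a.2.1
  else if a.2.1 < 8 then F.g0 + F.g1 + 4 * t + 4 * blk F.d1 t a.2.2 + (a.2.1 - 4)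
  else F.g0 + F.g1 + F.g2 + 8 * t + 4 * blk F.d2 t a.2.2 + (a.2.1 - 8)

def okD (t : ℕ) (a : ℕ × ℕ × ℕ) : Prop :=
  (a.1 = 0 ∧ a.2.1 < F.G ∧ a.2.2 = 0) ∨ (a.1 = 1 ∧ a.2.1 < 12 ∧ a.2.2 < t)

def tri (t : ℕ) (a : ℕ × ℕ × ℕ) : Q :=
  evQ t a.2.2 (if a.1 = 0 then F.E.getD a.2.1 dSQ else F.B.getD a.2.1 dSQ)

def cum (o : ℕ) : ℕ := if o < 4 then F.g0 else if o < 8 then F.g0 + F.g1 else F.G

def cum' (o : ℕ) : ℕ := if o < 4 then F.g0 else if o < 8 then F.g0 + F.g1 else 0

def dir (o : ℕ) : ℕ := if o < 4 then F.d0 else if o < 8 then F.d1 else F.d2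

theorem blk_lt {d t m : ℕ} (h : m < t) : blk d t m < t := by unfold blk; split_ifs <;> omega

theorem blk_blk {d t m : ℕ} (h : m < t) : blk d t (blk d t m) = m := by
  unfold blk; split_ifs <;> omega

theorem desc0 (t : ℕ) {p : ℕ} (h : p < F.g0) : F.desc t p = (0, p, 0) := if_pos h

theorem desc1 {t m r : ℕ} (h : m < t) (h' : r < 4) :
    F.desc t (F.g0 + 4 * m + r) = (1, r, blk F.d0 t m) := by
  rw [desc, if_neg (by omega), if_pos (by omega), show (F.g0 + 4 * m + r - F.g0) % 4 = r by omega,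
    show (F.g0 + 4 * m + r - F.g0) / 4 = m by omega]

theorem desc2 (t : ℕ) {e : ℕ} (h : F.g0 ≤ e) (h' : e < F.g0 + F.g1) :
    F.desc t (e + 4 * t) = (0, e, 0) := by
  rw [desc, if_neg (by omega), if_neg (by omega), if_pos (by omega), Nat.add_sub_cancel]

theorem desc3 {t m r : ℕ} (h : m < t) (h' : r < 4) :
    F.desc t (F.g0 + F.g1 + 4 * t + 4 * m + r) = (1, 4 + r, blk F.d1 t m) := by
  rw [desc, if_neg (by omega), if_neg (by omega), if_neg (by omega), if_pos (by omega),
    show (F.g0 + F.g1 + 4 * t + 4 * m + r - F.g0 - F.g1 - 4 * t) % 4 = r by omega,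
    show (F.g0 + F.g1 + 4 * t + 4 * m + r - F.g0 - F.g1 - 4 * t) / 4 = m by omega]

theorem desc4 (t : ℕ) {e : ℕ} (h : F.g0 + F.g1 ≤ e) (h' : e < F.g0 + F.g1 + F.g2) :
    F.desc t (e + 8 * t) = (0, e, 0) := by
  rw [desc, if_neg (by omega), if_neg (by omega), if_neg (by omega), if_neg (by omega),
    if_pos (by omega), Nat.add_sub_cancel]

theorem desc5 (t m : ℕ) {r : ℕ} (h' : r < 4) :
    F.desc t (F.g0 + F.g1 + F.g2 + 8 * t + 4 * m + r) = (1, 8 + r, blk F.d2 t m) := by
  rw [desc, if_neg (by omega), if_neg (by omega), if_neg (by omega), if_neg (by omega),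
    if_neg (by omega),
    show (F.g0 + F.g1 + F.g2 + 8 * t + 4 * m + r - F.g0 - F.g1 - F.g2 - 8 * t) % 4 = r by omega,
    show (F.g0 + F.g1 + F.g2 + 8 * t + 4 * m + r - F.g0 - F.g1 - F.g2 - 8 * t) / 4 = m by omega]

theorem seg {t p : ℕ} (hp : p < F.G + 12 * t) : p < F.g0 ∨
    (∃ m < t, ∃ r < 4, p = F.g0 + 4 * m + r) ∨
    (∃ e, F.g0 ≤ e ∧ e < F.g0 + F.g1 ∧ p = e + 4 * t) ∨
    (∃ m < t, ∃ r < 4, p = F.g0 + F.g1 + 4 * t + 4 * m + r) ∨
    (∃ e, F.g0 + F.g1 ≤ e ∧ e < F.g0 + F.g1 + F.g2 ∧ p = e + 8 * t) ∨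
    (∃ m < t, ∃ r < 4, p = F.g0 + F.g1 + F.g2 + 8 * t + 4 * m + r) := by
  unfold G at hp
  by_cases h0 : p < F.g0
  · exact Or.inl h0
  by_cases h1 : p < F.g0 + 4 * t
  · exact Or.inr (Or.inl ⟨(p - F.g0) / 4, by omega, (p - F.g0) % 4, by omega, by omega⟩)
  by_cases h2 : p < F.g0 + F.g1 + 4 * t
  · exact Or.inr (Or.inr (Or.inl ⟨p - 4 * t, by omega, by omega, by omega⟩))
  by_cases h3 : p < F.g0 + F.g1 + 8 * t
  · exact Or.inr (Or.inr (Or.inr (Or.inl ⟨(p - (F.g0 + F.g1 + 4 * t)) / 4, by omega,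
      (p - (F.g0 + F.g1 + 4 * t)) % 4, by omega, by omega⟩)))
  by_cases h4 : p < F.g0 + F.g1 + F.g2 + 8 * t
  · exact Or.inr (Or.inr (Or.inr (Or.inr (Or.inl ⟨p - 8 * t, by omega, by omega, by omega⟩))))
  · exact Or.inr (Or.inr (Or.inr (Or.inr (Or.inr ⟨(p - (F.g0 + F.g1 + F.g2 + 8 * t)) / 4, by omega,
      (p - (F.g0 + F.g1 + F.g2 + 8 * t)) % 4, by omega, by omega⟩))))

theorem desc_ok {t p : ℕ} (hp : p < F.G + 12 * t) :
    F.okD t (F.desc t p) ∧ F.pos t (F.desc t p) = p := by
  rcases F.seg hp with h | ⟨m, a, r, b, rfl⟩ | ⟨e, a, b, rfl⟩ | ⟨m, a, r, b, rfl⟩ | ⟨e, a, b, rfl⟩ |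
    ⟨m, a, r, b, rfl⟩
  · rw [F.desc0 t h]
    exact ⟨Or.inl ⟨rfl, by simp only [G]; omega, rfl⟩, by simp [pos, h]⟩
  · rw [F.desc1 a b]
    exact ⟨Or.inr ⟨rfl, by simp only; omega, blk_lt a⟩, by simp [pos, b, blk_blk a]⟩
  · rw [F.desc2 t a b]
    exact ⟨Or.inl ⟨rfl, by simp only [G]; omega, rfl⟩, by simp [pos, b, a]⟩
  · rw [F.desc3 a b]
    exact ⟨Or.inr ⟨rfl, by simp only; omega, blk_lt a⟩, by
      simp [pos, show 4 + r < 8 by omega, blk_blk a]⟩
  · rw [F.desc4 t a b]
    exact ⟨Or.inl ⟨rfl, by simp only [G]; omega, rfl⟩, by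
      simp [pos, a.not_gt, show ¬ e < F.g0 by omega]⟩
  · rw [F.desc5 t m b]
    exact ⟨Or.inr ⟨rfl, by simp only; omega, blk_lt a⟩, by
      simp [pos, show ¬ 8 + r < 4 by omega, blk_blk a]⟩

theorem pos_ok {t : ℕ} {a : ℕ × ℕ × ℕ} (ha : F.okD t a) :
    F.pos t a < F.G + 12 * t ∧ F.desc t (F.pos t a) = a := by
  obtain ⟨a, b, c⟩ := a
  simp only [okD, G] at ha
  simp only [pos, G]
  rcases ha with ⟨rfl, h, rfl⟩ | ⟨rfl, h, h'⟩
  · rw [if_pos rfl]
    split_ifs with h1 h2
    · exact ⟨by omega, F.desc0 t h1⟩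
    · exact ⟨by omega, F.desc2 t (by omega) h2⟩
    · exact ⟨by omega, F.desc4 t (by omega) h⟩
  · rw [if_neg one_ne_zero]
    split_ifs with h1 h2
    · have := blk_lt (d := F.d0) h'
      exact ⟨by omega, by rw [F.desc1 this h1, blk_blk h']⟩
    · have := blk_lt (d := F.d1) h'
      exact ⟨by omega, by rw [F.desc3 this (by omega), blk_blk h', show 4 + (b - 4) = b by omega]⟩
    · have := blk_lt (d := F.d2) h'
      exact ⟨by omega, by rw [F.desc5 t _ (by omega), blk_blk h', show 8 + (b - 8) = b by omega]⟩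

/-- consecutive positions -/
def Succ (t : ℕ) (a b : ℕ × ℕ × ℕ) : Prop :=
    (a.1 = 0 ∧ b.1 = 0 ∧ b.2.1 = a.2.1 + 1 ∧ a.2.1 + 1 < F.G ∧ a.2.1 + 1 ≠ F.g0 ∧
      a.2.1 + 1 ≠ F.g0 + F.g1 ∧ a.2.2 = b.2.2) ∨
    (a.1 = 0 ∧ b.1 = 1 ∧ b.2.1 < 12 ∧ b.2.1 % 4 = 0 ∧ a.2.1 = F.cum b.2.1 - 1 ∧
      ((F.dir b.2.1 = 0 ∧ b.2.2 = 0) ∨ (F.dir b.2.1 ≠ 0 ∧ b.2.2 + 1 = t))) ∨
    (a.1 = 1 ∧ b.1 = 1 ∧ a.2.1 < 12 ∧ a.2.1 % 4 ≠ 3 ∧ b.2.1 = a.2.1 + 1 ∧ a.2.2 = b.2.2) ∨
    (a.1 = 1 ∧ b.1 = 1 ∧ a.2.1 < 12 ∧ a.2.1 % 4 = 3 ∧ b.2.1 = a.2.1 - 3 ∧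
      ((F.dir a.2.1 = 0 ∧ b.2.2 = a.2.2 + 1) ∨ (F.dir a.2.1 ≠ 0 ∧ a.2.2 = b.2.2 + 1))) ∨
    (a.1 = 1 ∧ b.1 = 0 ∧ a.2.1 < 12 ∧ a.2.1 % 4 = 3 ∧ b.2.1 = F.cum' a.2.1 ∧
      ((F.dir a.2.1 = 0 ∧ a.2.2 + 1 = t) ∨ (F.dir a.2.1 ≠ 0 ∧ a.2.2 = 0)))

theorem succ0 {t e : ℕ} (h : e + 1 < F.G) (h1 : e + 1 ≠ F.g0) (h2 : e + 1 ≠ F.g0 + F.g1) :
    F.Succ t (0, e, 0) (0, e + 1, 0) := Or.inl ⟨rfl, rfl, rfl, h, h1, h2, rfl⟩

theorem succ1 {t e o : ℕ} (ht : 1 ≤ t) (h : o < 12) (h1 : o % 4 = 0) (h2 : e + 1 = F.cum o) :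
    F.Succ t (0, e, 0) (1, o, blk (F.dir o) t 0) :=
  Or.inr (Or.inl ⟨rfl, rfl, h, h1, by simp only; omega, by simp only [blk]; split_ifs <;> omega⟩)

theorem succ2 {t o i : ℕ} (h : o < 12) (h1 : o % 4 ≠ 3) : F.Succ t (1, o, i) (1, o + 1, i) :=
  Or.inr (Or.inr (Or.inl ⟨rfl, rfl, h, h1, rfl, rfl⟩))

theorem succ3 {t o m : ℕ} (h : o + 3 < 12) (h1 : o % 4 = 0) (h2 : m + 1 < t) :
    F.Succ t (1, o + 3, blk (F.dir (o + 3)) t m) (1, o, blk (F.dir (o + 3)) t (m + 1)) :=
  Or.inr (Or.inr (Or.inr (Or.inl ⟨rfl, rfl, h, by simp only; omega, rfl,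
    by simp only [blk]; split_ifs <;> omega⟩)))

theorem succ4 {t o m : ℕ} (h : o < 12) (h1 : o % 4 = 3) (h2 : m + 1 = t) :
    F.Succ t (1, o, blk (F.dir o) t m) (0, F.cum' o, 0) :=
  Or.inr (Or.inr (Or.inr (Or.inr ⟨rfl, rfl, h, h1, rfl, by simp only [blk]; split_ifs <;> omega⟩)))

theorem succ_desc {t p : ℕ} (ht : 1 ≤ t) (h0 : 1 ≤ F.g0) (h1 : 1 ≤ F.g1) (h2 : 1 ≤ F.g2)
    (hp : p < F.G + 12 * t) : F.Succ t (F.desc t p) (F.desc t ((p + 1) % (F.G + 12 * t))) := by
  have hG : F.G = F.g0 + F.g1 + F.g2 := rfl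
  have md : p + 1 < F.G + 12 * t → (p + 1) % (F.G + 12 * t) = p + 1 := Nat.mod_eq_of_lt
  rcases F.seg hp with h | ⟨m, a, r, b, rfl⟩ | ⟨e, a, b, rfl⟩ | ⟨m, a, r, b, rfl⟩ | ⟨e, a, b, rfl⟩ |
    ⟨m, a, r, b, rfl⟩
  · rw [F.desc0 t h, md (by omega)]
    by_cases c : p + 1 < F.g0
    · rw [F.desc0 t c]
      exact F.succ0 (by omega) (by omega) (by omega)
    · rw [show p + 1 = F.g0 + 4 * 0 + 0 by omega, F.desc1 ht (by omega)]
      exact F.succ1 (o := 0) ht (by omega) rfl (by simp only [cum]; simp; omega)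
  · rw [F.desc1 a b, md (by omega)]
    by_cases c : r < 3
    · rw [add_assoc _ r, F.desc1 a (by omega)]
      exact F.succ2 (by omega) (by omega)
    obtain rfl : r = 3 := by omega
    by_cases c' : m + 1 < t
    · rw [show F.g0 + 4 * m + 3 + 1 = F.g0 + 4 * (m + 1) + 0 by omega, F.desc1 c' (by omega)]
      exact F.succ3 (o := 0) (by omega) rfl c'
    · rw [show F.g0 + 4 * m + 3 + 1 = F.g0 + 4 * t by omega, F.desc2 t le_rfl (by omega)]
      exact F.succ4 (o := 3) (by omega) rfl (by omega)
  · rw [F.desc2 t a b, md (by omega)]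
    by_cases c : e + 1 < F.g0 + F.g1
    · rw [Nat.add_right_comm, F.desc2 t (by omega) c]
      exact F.succ0 (by omega) (by omega) (by omega)
    · rw [show e + 4 * t + 1 = F.g0 + F.g1 + 4 * t + 4 * 0 + 0 by omega, F.desc3 ht (by omega)]
      exact F.succ1 (o := 4) ht (by omega) rfl (by simp only [cum]; simp; omega)
  · rw [F.desc3 a b, md (by omega)]
    by_cases c : r < 3
    · rw [add_assoc _ r, F.desc3 a (by omega)]
      exact F.succ2 (by omega) (by omega)
    obtain rfl : r = 3 := by omega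
    by_cases c' : m + 1 < t
    · rw [show F.g0 + F.g1 + 4 * t + 4 * m + 3 + 1 = F.g0 + F.g1 + 4 * t + 4 * (m + 1) + 0 by omega,
        F.desc3 c' (by omega)]
      exact F.succ3 (o := 4) (by omega) rfl c'
    · rw [show F.g0 + F.g1 + 4 * t + 4 * m + 3 + 1 = F.g0 + F.g1 + 8 * t by omega,
        F.desc4 t le_rfl (by omega)]
      exact F.succ4 (o := 7) (by omega) rfl (by omega)
  · rw [F.desc4 t a b, md (by omega)]
    by_cases c : e + 1 < F.g0 + F.g1 + F.g2
    · rw [Nat.add_right_comm, F.desc4 t (by omega) c]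
      exact F.succ0 (by omega) (by omega) (by omega)
    · rw [show e + 8 * t + 1 = F.g0 + F.g1 + F.g2 + 8 * t + 4 * 0 + 0 by omega,
        F.desc5 t 0 (by omega)]
      exact F.succ1 (o := 8) ht (by omega) rfl (by simp only [cum]; simp; omega)
  · rw [F.desc5 t m b]
    by_cases c : r < 3
    · rw [md (by omega), add_assoc _ r, F.desc5 t m (by omega)]
      exact F.succ2 (by omega) (by omega)
    obtain rfl : r = 3 := by omega
    by_cases c' : m + 1 < t
    · rw [md (by omega), show F.g0 + F.g1 + F.g2 + 8 * t + 4 * m + 3 + 1 =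
        F.g0 + F.g1 + F.g2 + 8 * t + 4 * (m + 1) + 0 by omega, F.desc5 t _ (by omega)]
      exact F.succ3 (o := 8) (by omega) rfl c'
    · rw [show F.g0 + F.g1 + F.g2 + 8 * t + 4 * m + 3 + 1 = F.G + 12 * t by omega, Nat.mod_self,
        F.desc0 t h0]
      exact F.succ4 (o := 11) (by omega) rfl (by omega)

def dE (a : ℕ) : SR := ((8 * a + 4, cond (Nat.blt a F.c0) 0 1), (0, 0), false)

def dB (o : ℕ) : SR := ((8 * (F.c0 + o) + 4, 2), (0, 0), false)

/-- structure -/
noncomputable def k0 : Bool :=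
  Nat.beq F.E.length F.G && Nat.beq F.B.length 12 && Nat.ble 1 F.g0 && Nat.ble 1 F.g1 &&
  Nat.ble 1 F.g2 && Nat.beq (F.G + 2) (2 * F.n0) && Nat.blt F.js F.c0 && Nat.ble F.c0 F.n0 &&
  F.E.all (fun x => all3 (isE F.A F.A') x && Nat.blt x.2.1.1.1 (8 * F.n0) && Nat.blt 0 x.2.1.2.1.1) &&
  F.B.all (fun x => all3 (isB F.A F.A') x && Nat.blt x.2.1.1.1 (8 * F.n0 + 48) &&
    Nat.blt 0 x.2.1.2.1.1) &&
  allN F.n0 (fun a => isE F.A F.A' (F.dE a) && (F.CE.getD a []).all (isE F.A F.A')) &&
  allN 6 (fun o => isB F.A F.A' (F.dB o) && (F.CB.getD o []).all (isB F.A F.A')) &&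
  allN F.G (fun e => Nat.ble F.G (e + 1) || Nat.beq (e + 1) F.g0 || Nat.beq (e + 1) (F.g0 + F.g1) ||
    chn eqS (F.E.getD e dSQ) (F.E.getD (e + 1) dSQ)) &&
  allN 12 (fun o => !Nat.beq (o % 4) 0 ||
    chn (relS (cond (Nat.beq (F.dir o) 0) 0 1) (cond (Nat.beq (F.dir o) 0) 1 0))
      (F.E.getD (F.cum o - 1) dSQ) (F.B.getD o dSQ)) &&
  allN 12 (fun o => cond (Nat.beq (o % 4) 3)
    (chn (relS 2 (cond (Nat.beq (F.dir o) 0) 2 0)) (F.B.getD o dSQ) (F.B.getD (o - 3) dSQ) &&
      chn (fun s s' => relS (cond (Nat.beq (F.dir o) 0) 1 0) (cond (Nat.beq (F.dir o) 0) 0 1) s' s)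
        (F.B.getD o dSQ) (F.E.getD (F.cum' o) dSQ))
    (chn eqS (F.B.getD o dSQ) (F.B.getD (o + 1) dSQ)))

/-- the sides of the cycles are links -/
noncomputable def k1 : Bool :=
  allN F.n0 (fun a => (prs (F.CE.getD a [])).all fun e => F.E.any (mt eqS e) ||
    F.B.any (mt (relS 0 1) e) || F.B.any (mt (relS 1 0) e)) &&
  allN 6 (fun o => (prs (F.CB.getD o [])).all fun e => F.B.any (mt eqS e) ||
    (F.B.any (mt (relS 2 0) e) && F.E.any (mt (fun s s' => relS 0 1 s' s) e)) ||
    (F.B.any (mt (relS 2 2) e) && F.E.any (mt (fun s s' => relS 1 0 s' s) e)))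

/-- pairs of special links -/
noncomputable def kEE : Bool := pw twoB (F.E.map (evQ 1 0))

/-- special links and dots -/
noncomputable def kE : Bool :=
  F.E.all (fun x => !same (ev 1 0 x.2.1) (ev 1 0 x.2.2.1)) &&
  !isZ (F.E.map fun x => kw (ev 1 0 x.2.1) (ev 1 0 x.2.2.1) (ev 1 0 (F.dE F.js))).sum &&
  allN F.n0 (fun a => Nat.beq a F.js ||
    (!isZ (windL ((F.CE.getD a []).map (ev 1 0)) (ev 1 0 (F.dE a))) &&
    allN F.n0 fun a' => Nat.beq a' a || isZ (windL ((F.CE.getD a []).map (ev 1 0)) (ev 1 0 (F.dE a')))))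

/-- special links against links of a block -/
noncomputable def kES (i0 k : ℕ) : Bool :=
  F.E.all (fun x => F.B.all fun y => twoB (evQ (i0 + 1 + k) 0 x) (evQ (i0 + 1 + k) i0 y))

/-- special dots against dots of a block -/
noncomputable def kD (i0 k : ℕ) : Bool :=
  F.B.all (fun y => isZ (kw (ev (i0 + 1 + k) i0 y.2.1) (ev (i0 + 1 + k) i0 y.2.2.1)
    (ev (i0 + 1 + k) 0 (F.dE F.js)))) &&
  allN F.n0 (fun a => allN 6 fun o => (Nat.beq a F.js ||
    isZ (windL ((F.CE.getD a []).map (ev (i0 + 1 + k) 0)) (ev (i0 + 1 + k) i0 (F.dB o)))) &&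
    isZ (windL ((F.CB.getD o []).map (ev (i0 + 1 + k) i0)) (ev (i0 + 1 + k) 0 (F.dE a))))

/-- blocks against blocks -/
noncomputable def kSS : Bool :=
  F.B.all (fun x => !same (ev 0 0 x.2.1) (ev 0 0 x.2.2.1)) && pw twoB (F.B.map (evQ 0 0)) &&
  allN 3 (fun k => Nat.beq k 0 || F.B.all fun x => F.B.all fun y => twoB (evQ 0 0 x) (evQ 0 k y)) &&
  allN 6 (fun o => !isZ (windL ((F.CB.getD o []).map (ev 0 0)) (ev 0 0 (F.dB o))) &&
    allN 6 fun o' => allN 3 fun k => (Nat.beq k 0 && Nat.beq o' o) ||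
      (isZ (windL ((F.CB.getD o []).map (ev 0 0)) (ev 0 k (F.dB o'))) &&
      isZ (windL ((F.CB.getD o []).map (ev 0 k)) (ev 0 0 (F.dB o')))))

theorem dE_left {t i a : ℕ} (h : a < F.c0) : ev t i (F.dE a) = dot a := by
  simp [ev_eq, dE, dot, Nat.blt_eq.mpr h, val_eq]

theorem dE_right {t i a : ℕ} (h : ¬ a < F.c0) : ev t i (F.dE a) = dot (a + 6 * t) := by
  have : Nat.blt a F.c0 = false := Bool.eq_false_iff.mpr (fun e => h (Nat.blt_eq.mp e))
  simp only [ev_eq, dE, dot, this, val_eq, cond_false]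
  simp; omega

theorem dB_eq (t i o : ℕ) : ev t i (F.dB o) = dot (F.c0 + 6 * i + o) := by
  simp only [ev_eq, dB, dot, val_eq]
  simp; omega

theorem mapQ {f : SR → Bool} {x : SQ} (hx : all3 f x = true) {A A' t i t0 i0 : ℕ} {Δ : ℕ → ℕ}
    (h : ∀ s, f s = true → ev t i s = mp A A' Δ (ev t0 i0 s)) :
    evQ t i x = mpQ A A' Δ (evQ t0 i0 x) := by
  simp only [all3, Bool.and_eq_true] at hx
  simp only [evQ, mpQ, h _ hx.1.1, h _ hx.1.2, h _ hx.2]

theorem mapL {f : SR → Bool} {l : List SR} (hx : l.all f = true) {A A' t i t0 i0 : ℕ} {Δ : ℕ → ℕ}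
    (h : ∀ s, f s = true → ev t i s = mp A A' Δ (ev t0 i0 s)) :
    l.map (ev t i) = (l.map (ev t0 i0)).map (mp A A' Δ) := by
  rw [List.map_map]
  exact List.map_congr_left fun s hs => h s (List.all_eq_true.mp hx s hs)

theorem mt_ev {f : SR → SR → Bool} {e : SR × SR} {x : SQ} (h : mt f e x = true) {t i i' : ℕ}
    (hf : ∀ s s', f s s' = true → ev t i s = ev t i' s') :
    Prod.map (ev t i) (ev t i) e = ((evQ t i' x).2.1, (evQ t i' x).2.2.1) ∨
      Prod.map (ev t i) (ev t i) e = ((evQ t i' x).2.2.1, (evQ t i' x).2.1) := by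
  simp only [mt, Bool.or_eq_true, Bool.and_eq_true] at h
  exact h.imp (fun a => Prod.ext (hf _ _ a.1) (hf _ _ a.2)) (fun a => Prod.ext (hf _ _ a.1) (hf _ _ a.2))

theorem chn_ev {f : SR → SR → Bool} {x y : SQ} (h : chn f x y = true) {t i i' : ℕ}
    (hf : ∀ s s', f s s' = true → ev t i s = ev t i' s') :
    (evQ t i x).2.2.1 = (evQ t i' y).2.1 ∧ (evQ t i x).2.1 = (evQ t i' y).1 := by
  simp only [chn, Bool.and_eq_true] at h
  exact ⟨hf _ _ h.1, hf _ _ h.2⟩

theorem valid (h0 : F.k0 = true) (h1 : F.k1 = true) (hEE : F.kEE = true) (hE : F.kE = true)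
    (hES : ∀ i0 < 2, ∀ k < 2, F.kES i0 k = true) (hD : ∀ i0 < 2, ∀ k < 2, F.kD i0 k = true)
    (hSS : F.kSS = true) {t : ℕ} (ht : 1 ≤ t) :
    Valid (F.n0 + 6 * t) (F.G + 12 * t) (fun p => F.tri t (F.desc t p)) := by
  simp only [k0, Bool.and_eq_true, allN_iff, Nat.blt_eq, Nat.ble_eq, Bool.or_eq_true,
    Nat.beq_eq, Bool.not_eq_true', ← Bool.not_eq_true (Nat.beq _ _)] at h0
  obtain ⟨⟨⟨⟨⟨⟨⟨⟨⟨⟨⟨⟨⟨⟨lE, lB⟩, g0⟩, g1⟩, g2⟩, gn⟩, jc⟩, cn⟩, aE⟩, aB⟩, cE⟩, cB⟩, n1⟩, n2⟩, n3⟩ := h0
  simp only [k1, Bool.and_eq_true, allN_iff] at h1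
  simp only [kE, Bool.and_eq_true, allN_iff, Bool.or_eq_true, Nat.beq_eq, Bool.not_eq_true',
    ← Bool.not_eq_true (isZ _), isZ_iff] at hE
  simp only [kD, Bool.and_eq_true, allN_iff, Bool.or_eq_true, Nat.beq_eq, isZ_iff] at hD
  simp only [kSS, Bool.and_eq_true, allN_iff, Bool.or_eq_true, Nat.beq_eq, Bool.not_eq_true',
    ← Bool.not_eq_true (isZ _), isZ_iff] at hSS
  have aE' : ∀ e < F.G, all3 (isE F.A F.A') (F.E.getD e dSQ) = true ∧
      (F.E.getD e dSQ).2.1.1.1 < 8 * F.n0 ∧ 0 < (F.E.getD e dSQ).2.1.2.1.1 := fun e he => by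
    simpa [and_assoc] using all_getD aE dSQ (lE ▸ he)
  have aB' : ∀ e < 12, all3 (isB F.A F.A') (F.B.getD e dSQ) = true ∧
      (F.B.getD e dSQ).2.1.1.1 < 8 * F.n0 + 48 ∧ 0 < (F.B.getD e dSQ).2.1.2.1.1 := fun e he => by
    simpa [and_assoc] using all_getD aB dSQ (lB ▸ he)
  have tE : ∀ e, F.tri t (0, e, 0) = evQ t 0 (F.E.getD e dSQ) := fun e => rfl
  have tB : ∀ o i, F.tri t (1, o, i) = evQ t i (F.B.getD o dSQ) := fun o i => rfl
  have hcase : ∀ p < F.G + 12 * t, (∃ e < F.G, F.desc t p = (0, e, 0)) ∨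
      ∃ o < 12, ∃ i < t, F.desc t p = (1, o, i) := fun p hp => by
    rcases (F.desc_ok hp).1 with h | h
    · exact Or.inl ⟨_, h.2.1, Prod.ext h.1 (Prod.ext rfl h.2.2)⟩
    · exact Or.inr ⟨_, h.2.1, _, h.2.2, Prod.ext h.1 rfl⟩
  have lkE : ∀ e < F.E.length, ∃ p < F.G + 12 * t,
      F.tri t (F.desc t p) = evQ t 0 (F.E.getD e dSQ) := fun e he => by
    have := F.pos_ok (t := t) (a := (0, e, 0)) (Or.inl ⟨rfl, lE ▸ he, rfl⟩)
    exact ⟨_, this.1, by rw [this.2, tE]⟩
  have lkB : ∀ o < F.B.length, ∀ i < t, ∃ p < F.G + 12 * t,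
      F.tri t (F.desc t p) = evQ t i (F.B.getD o dSQ) := fun o ho i hi => by
    have := F.pos_ok (t := t) (a := (1, o, i)) (Or.inr ⟨rfl, lB ▸ ho, hi⟩)
    exact ⟨_, this.1, by rw [this.2, tB]⟩
  have gE : ∀ e < F.G, (F.E.map (evQ 1 0)).getD e dQ = evQ 1 0 (F.E.getD e dSQ) := fun e he =>
    List.getD_map F.E dSQ (evQ 1 0)
  have gB : ∀ e, (F.B.map (evQ 0 0)).getD e dQ = evQ 0 0 (F.B.getD e dSQ) := fun e =>
    List.getD_map F.B dSQ (evQ 0 0)
  obtain ⟨Δ1, m1, e1⟩ := scEE F.A F.A' ht
  have two1 : ∀ e < F.G, ∀ o < 12, ∀ i < t,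
      twoB (F.tri t (0, e, 0)) (F.tri t (1, o, i)) = true := by
    intro e he o ho i hi
    obtain ⟨Δ, m, i0, hi0, k, hk, a1, a2⟩ := scES F.A F.A' hi
    rw [tE, tB, mapQ (aE' e he).1 (fun s hs => a1 s hs 0), mapQ (aB' o ho).1 a2, twoB_mp m]
    exact all_getD (all_getD (hES i0 hi0 k hk) dSQ (lE ▸ he)) dSQ (lB ▸ ho)
  have two2 : ∀ o < 12, ∀ i, ∀ o' < 12, ∀ i', i < i' ∨ (i = i' ∧ o < o') →
      twoB (F.tri t (1, o, i)) (F.tri t (1, o', i')) = true := by
    intro o ho i o' ho' i' h
    obtain ⟨Δ, m, k, hk, k0, a1, a2⟩ := scSS F.A F.A' t (show i ≤ i' by omega)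
    rw [tB, tB, mapQ (aB' o ho).1 a1, mapQ (aB' o' ho').1 a2, twoB_mp m]
    by_cases hk0 : k = 0
    · rw [hk0, ← gB, ← gB]
      exact pw_getD hSS.1.1.2 dQ (by omega) (by simpa [lB] using ho')
    · exact all_getD (all_getD ((hSS.1.2 k hk).resolve_left hk0) dSQ (lB ▸ ho)) dSQ (lB ▸ ho')
  refine ⟨by omega, fun p hp => ?_, fun p hp => ?_, fun p hp p' hp' hne => ?_,
    ⟨∅, by simp, by simp only [Finset.card_empty]; omega⟩, F.js,
    fun j => if j < F.c0 then (F.CE.getD j []).map (ev t 0) else if j < F.c0 + 6 * t then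
      (F.CB.getD ((j - F.c0) % 6) []).map (ev t ((j - F.c0) / 6))
      else (F.CE.getD (j - 6 * t) []).map (ev t 0), ?_, ?_⟩
  · have := F.succ_desc ht g0 g1 g2 hp
    generalize F.desc t p = a at this
    generalize F.desc t ((p + 1) % (F.G + 12 * t)) = b at this
    obtain ⟨a1, a2, a3⟩ := a
    obtain ⟨b1, b2, b3⟩ := b
    simp only [tri, Succ] at this ⊢
    rcases this with ⟨rfl, rfl, rfl, c1, c2, c3, rfl⟩ | ⟨rfl, rfl, c1, c2, rfl, c3⟩ |
      ⟨rfl, rfl, c1, c2, rfl, rfl⟩ | ⟨rfl, rfl, c1, c2, rfl, c3⟩ | ⟨rfl, rfl, c1, c2, rfl, c3⟩ <;>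
      simp only [if_true, one_ne_zero, if_false]
    · refine chn_ev ((n1 a2 (by omega)).resolve_left (by omega)) fun s s' h => by rw [eqS_ev h]
    · refine chn_ev ((n2 b2 c1).resolve_left (not_not.mpr c2)) fun s s' h => relS_ev h ?_
      rcases c3 with ⟨c3, c4⟩ | ⟨c3, c4⟩
      · simp [c3, c4, val_eq]
      · rw [show Nat.beq (F.dir b2) 0 = false from Bool.eq_false_iff.mpr (by simpa using c3)]
        simp [c4, val_eq]
    · have := n3 a2 c1
      rw [show Nat.beq (a2 % 4) 3 = false from Bool.eq_false_iff.mpr (by simpa using c2)] at this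
      exact chn_ev this fun s s' h => by rw [eqS_ev h]
    · have := n3 a2 c1
      rw [show Nat.beq (a2 % 4) 3 = true from Nat.beq_eq ▸ c2, cond_true, Bool.and_eq_true] at this
      refine chn_ev this.1 fun s s' h => relS_ev h ?_
      rcases c3 with ⟨c3, c4⟩ | ⟨c3, c4⟩
      · simp [c3, c4, val_eq]
      · rw [show Nat.beq (F.dir a2) 0 = false from Bool.eq_false_iff.mpr (by simpa using c3)]
        simp [c4, val_eq]
    · have := n3 a2 c1
      rw [show Nat.beq (a2 % 4) 3 = true from Nat.beq_eq ▸ c2, cond_true, Bool.and_eq_true] at this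
      refine chn_ev this.2 fun s s' h => (relS_ev h ?_).symm
      rcases c3 with ⟨c3, c4⟩ | ⟨c3, c4⟩
      · simp [c3, c4, val_eq]
      · rw [show Nat.beq (F.dir a2) 0 = false from Bool.eq_false_iff.mpr (by simpa using c3)]
        simp [c4, val_eq]
  · rcases hcase p hp with ⟨e, he, h⟩ | ⟨o, ho, i, hi, h⟩ <;> simp only [h]
    · obtain ⟨a1, a2, a3⟩ := aE' e he
      refine ⟨?_, ?_, ?_⟩
      · simp only [all3, isE, rgE, Bool.and_eq_true, Bool.or_eq_true, Nat.beq_eq] at a1
        simp only [tE, evQ, ev_eq, val_eq]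
        split_ifs <;> omega
      · simp only [tE, evQ, ev_eq]
        omega
      · rw [tE, mapQ a1 (fun s hs => e1 s hs 0)]
        simpa only [mpQ, evQ, same_mp m1, Bool.not_eq_true'] using all_getD hE.1.1 dSQ (lE ▸ he)
    · obtain ⟨a1, a2, a3⟩ := aB' o ho
      refine ⟨?_, ?_, ?_⟩
      · simp only [all3, isB, rgB, Bool.and_eq_true, Bool.or_eq_true, Nat.beq_eq] at a1
        simp only [tB, evQ, ev_eq, val_eq]
        split_ifs <;> omega
      · simp only [tB, evQ, ev_eq]
        omega
      · obtain ⟨Δ, m, k, hk, k0, b1, -⟩ := scSS F.A F.A' t (le_refl i)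
        rw [tB, mapQ a1 b1]
        simpa only [mpQ, evQ, same_mp m, Bool.not_eq_true'] using all_getD hSS.1.1.1 dSQ (lB ▸ ho)
  · have hd : F.desc t p ≠ F.desc t p' := fun e =>
      hne (by rw [← (F.desc_ok hp).2, e, (F.desc_ok hp').2])
    have two0 : ∀ e e', e < e' → e' < F.G → twoB (F.tri t (0, e, 0)) (F.tri t (0, e', 0)) = true := by
      intro e e' a b
      rw [tE, tE, mapQ (aE' e (by omega)).1 (fun s hs => e1 s hs 0),
        mapQ (aE' e' b).1 (fun s hs => e1 s hs 0), twoB_mp m1, ← gE e (by omega), ← gE e' b]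
      exact pw_getD hEE dQ a (by simpa [lE] using b)
    rcases hcase p hp with ⟨e, he, h⟩ | ⟨o, ho, i, hi, h⟩ <;>
      rcases hcase p' hp' with ⟨e', he', h'⟩ | ⟨o', ho', i', hi', h'⟩ <;>
      simp only [h, h', ne_eq, Prod.mk.injEq, true_and, and_true] at hd ⊢
    · rcases lt_or_gt_of_ne hd with a | a
      · exact Or.inl (two0 e e' a he')
      · exact Or.inr (two0 e' e a he)
    · exact Or.inl (two1 e he o' ho' i' hi')
    · exact Or.inr (two1 e' he' o ho i hi)
    · by_cases a : i < i' ∨ (i = i' ∧ o < o')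
      · exact Or.inl (two2 o ho i o' ho' i' a)
      · exact Or.inr (two2 o' ho' i' o ho i (by omega))
  · rw [← Finset.sum_subset (s₁ := (Finset.range F.G).image fun e => F.pos t (0, e, 0)),
      Finset.sum_image]
    · intro h
      apply hE.1.2
      rw [← h, ← sum_getD (fun x : SQ => kw (ev 1 0 x.2.1) (ev 1 0 x.2.2.1) (ev 1 0 (F.dE F.js)))
        F.E dSQ, lE]
      refine Finset.sum_congr rfl fun e he => ?_
      rw [Finset.mem_range] at he
      rw [(F.pos_ok (t := t) (a := (0, e, 0)) (Or.inl ⟨rfl, he, rfl⟩)).2, tE,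
        mapQ (aE' e he).1 (fun s hs => e1 s hs 0), ← F.dE_left (t := t) (i := 0) jc,
        e1 _ (cE _ (by omega)).1 0]
      simp only [mpQ, kw_mp m1, evQ]
    · intro e he e' he' h
      have a := (F.pos_ok (t := t) (a := (0, e, 0)) (Or.inl ⟨rfl, by simpa using he, rfl⟩)).2
      have b := (F.pos_ok (t := t) (a := (0, e', 0)) (Or.inl ⟨rfl, by simpa using he', rfl⟩)).2
      rw [show F.pos t (0, e, 0) = F.pos t (0, e', 0) from h, b] at a
      simpa using a.symm
    · intro p hp
      obtain ⟨e, he, rfl⟩ := Finset.mem_image.mp hp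
      exact Finset.mem_range.mpr
        (F.pos_ok (t := t) (a := (0, e, 0)) (Or.inl ⟨rfl, Finset.mem_range.mp he, rfl⟩)).1
    · intro p hp hp'
      rw [Finset.mem_range] at hp
      rcases hcase p hp with ⟨e, he, h⟩ | ⟨o, ho, i, hi, h⟩
      · exact absurd (Finset.mem_image.mpr ⟨e, Finset.mem_range.mpr he, by
          rw [← h, (F.desc_ok hp).2]⟩) hp'
      · obtain ⟨Δ, m, i0, hi0, k, hk, a1, a2⟩ := scES F.A F.A' hi
        rw [h, tB, mapQ (aB' o ho).1 a2, ← F.dE_left (t := t) (i := 0) jc,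
          a1 _ (cE _ (by omega)).1 0]
        simpa only [mpQ, kw_mp m, evQ, isZ_iff] using all_getD (hD i0 hi0 k hk).1 dSQ (lB ▸ ho)
  -- dots
  have hdot : ∀ j < F.n0 + 6 * t, (∃ a < F.n0, dot j = ev t 0 (F.dE a) ∧
      ((j < F.c0 ∧ a = j) ∨ (F.c0 + 6 * t ≤ j ∧ a = j - 6 * t))) ∨
      ∃ o < 6, ∃ i < t, dot j = ev t i (F.dB o) ∧ j = F.c0 + 6 * i + o := by
    intro j hj
    by_cases a : j < F.c0
    · exact Or.inl ⟨j, by omega, (F.dE_left a).symm, Or.inl ⟨a, rfl⟩⟩
    by_cases b : j < F.c0 + 6 * t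
    · refine Or.inr ⟨(j - F.c0) % 6, by omega, (j - F.c0) / 6, by omega, ?_, by omega⟩
      rw [dB_eq]; congr 1; omega
    · refine Or.inl ⟨j - 6 * t, by omega, ?_, Or.inr ⟨by omega, rfl⟩⟩
      rw [F.dE_right (by omega)]; congr 1; omega
  intro j hj hjs
  rcases hdot j hj with ⟨a, ha, d1, d2⟩ | ⟨o, ho, i, hi, d1, d2⟩
  · have hcy : (if j < F.c0 then (F.CE.getD j []).map (ev t 0) else if j < F.c0 + 6 * t then
        (F.CB.getD ((j - F.c0) % 6) []).map (ev t ((j - F.c0) / 6))
        else (F.CE.getD (j - 6 * t) []).map (ev t 0)) = (F.CE.getD a []).map (ev t 0) := by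
      rcases d2 with ⟨b, rfl⟩ | ⟨b, rfl⟩
      · rw [if_pos b]
      · rw [if_neg (by omega), if_neg (by omega)]
    have hE' := (hE.2 a ha).resolve_left (by omega)
    simp only [hcy]
    refine ⟨fun e he => ?_, ?_, fun j' hj' hne => ?_⟩
    · rw [prs_map, List.mem_map] at he
      obtain ⟨e, he, rfl⟩ := he
      have := List.all_eq_true.mp (h1.1 a ha) e he
      simp only [Bool.or_eq_true] at this
      rcases this with (h | h) | h <;> obtain ⟨x, hx, h⟩ := any_getD h dSQ
      · obtain ⟨p, hp, hp'⟩ := lkE x hx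
        exact ⟨p, hp, hp' ▸ mt_ev h fun s s' h => by rw [eqS_ev h]⟩
      · obtain ⟨p, hp, hp'⟩ := lkB x hx 0 (by omega)
        exact ⟨p, hp, hp' ▸ mt_ev h fun s s' h => relS_ev h rfl⟩
      · obtain ⟨p, hp, hp'⟩ := lkB x hx (t - 1) (by omega)
        exact ⟨p, hp, hp' ▸ mt_ev h fun s s' h => relS_ev h (by simp [val_eq]; omega)⟩
    · rw [d1, mapL (cE a ha).2 (fun s hs => e1 s hs 0), e1 _ (cE a ha).1 0, windL_mp m1]
      exact hE'.1
    · rcases hdot j' hj' with ⟨a', ha', d1', d2'⟩ | ⟨o', ho', i', hi', d1', d2'⟩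
      · rw [d1', mapL (cE a ha).2 (fun s hs => e1 s hs 0), e1 _ (cE a' ha').1 0, windL_mp m1]
        exact (hE'.2 a' ha').resolve_left (by omega)
      · obtain ⟨Δ, m, i0, hi0, k, hk, a1, a2⟩ := scES F.A F.A' hi'
        rw [d1', mapL (cE a ha).2 (fun s hs => a1 s hs 0), a2 _ (cB o' ho').1, windL_mp m]
        exact ((hD i0 hi0 k hk).2 a ha o' ho').1.resolve_left (by omega)
  · have hcy : (if j < F.c0 then (F.CE.getD j []).map (ev t 0) else if j < F.c0 + 6 * t then
        (F.CB.getD ((j - F.c0) % 6) []).map (ev t ((j - F.c0) / 6))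
        else (F.CE.getD (j - 6 * t) []).map (ev t 0)) = (F.CB.getD o []).map (ev t i) := by
      rw [if_neg (by omega), if_pos (by omega), show (j - F.c0) % 6 = o by omega,
        show (j - F.c0) / 6 = i by omega]
    simp only [hcy]
    refine ⟨fun e he => ?_, ?_, fun j' hj' hne => ?_⟩
    · rw [prs_map, List.mem_map] at he
      obtain ⟨e, he, rfl⟩ := he
      have := List.all_eq_true.mp (h1.2 o ho) e he
      simp only [Bool.or_eq_true, Bool.and_eq_true] at this
      rcases this with (h | ⟨h, h'⟩) | ⟨h, h'⟩ <;> obtain ⟨x, hx, h⟩ := any_getD h dSQ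
      · obtain ⟨p, hp, hp'⟩ := lkB x hx i hi
        exact ⟨p, hp, hp' ▸ mt_ev h fun s s' h => by rw [eqS_ev h]⟩
      · by_cases hi0 : i = 0
        · obtain ⟨y, hy, h'⟩ := any_getD h' dSQ
          obtain ⟨p, hp, hp'⟩ := lkE y hy
          exact ⟨p, hp, hp' ▸ mt_ev h' fun s s' h => (relS_ev h (by simp [val_eq, hi0])).symm⟩
        · obtain ⟨p, hp, hp'⟩ := lkB x hx (i - 1) (by omega)
          exact ⟨p, hp, hp' ▸ mt_ev h fun s s' h => relS_ev h (by simp [val_eq]; omega)⟩
      · by_cases hi0 : i + 1 = t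
        · obtain ⟨y, hy, h'⟩ := any_getD h' dSQ
          obtain ⟨p, hp, hp'⟩ := lkE y hy
          exact ⟨p, hp, hp' ▸ mt_ev h' fun s s' h => (relS_ev h (by simp [val_eq, hi0])).symm⟩
        · obtain ⟨p, hp, hp'⟩ := lkB x hx (i + 1) (by omega)
          exact ⟨p, hp, hp' ▸ mt_ev h fun s s' h => relS_ev h (by simp [val_eq])⟩
    · obtain ⟨Δ, m, k, hk, k0, b1, -⟩ := scSS F.A F.A' t (le_refl i)
      rw [d1, mapL (cB o ho).2 b1, b1 _ (cB o ho).1, windL_mp m]
      exact (hSS.2 o ho).1
    · rcases hdot j' hj' with ⟨a', ha', d1', d2'⟩ | ⟨o', ho', i', hi', d1', d2'⟩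
      · obtain ⟨Δ, m, i0, hi0, k, hk, a1, a2⟩ := scES F.A F.A' hi
        rw [d1', mapL (cB o ho).2 a2, a1 _ (cE a' ha').1 0, windL_mp m]
        exact ((hD i0 hi0 k hk).2 a' ha' o ho).2
      · rcases le_total i i' with h | h
        · obtain ⟨Δ, m, k, hk, k0, b1, b2⟩ := scSS F.A F.A' t h
          rw [d1', mapL (cB o ho).2 b1, b2 _ (cB o' ho').1, windL_mp m]
          exact (((hSS.2 o ho).2 o' ho' k hk).resolve_left (by omega)).1
        · obtain ⟨Δ, m, k, hk, k0, b1, b2⟩ := scSS F.A F.A' t h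
          rw [d1', mapL (cB o ho).2 b2, b1 _ (cB o' ho').1, windL_mp m]
          exact (((hSS.2 o ho).2 o' ho' k hk).resolve_left (by omega)).2

end Fam

end Pool.Agent.MP_b0ee3d_lc

end

section

set_option autoImplicit false

namespace Pool.Agent.MP_b0ee3d_lc

def tab1 : List Q := [
    ((4,3,true),(5,1,true),(3,2,false),false), ((5,1,true),(3,2,false),(4,3,true),false),
    ((3,2,false),(4,3,true),(5,1,true),false)]

def cyc1 : List (List R) := [
    []]

theorem ok1 : tabOK 1 tab1 cyc1 0 [0, 1, 2] = true := by decide +kernel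

def tab2 : List Q := [
    ((5,1,false),(13,5,false),(12,3,true),false), ((13,5,false),(12,3,true),(11,4,false),false),
    ((12,3,true),(11,4,false),(13,5,false),false), ((11,4,false),(13,5,false),(3,2,true),true),
    ((13,5,false),(3,2,true),(5,1,false),false), ((3,2,true),(5,1,false),(13,5,false),false)]

def cyc2 : List (List R) := [
    [], [(13,5,false),(11,4,false),(12,3,true)]]

theorem ok2 : tabOK 2 tab2 cyc2 0 [1, 2, 4, 5] = true := by decide +kernel

def tab3 : List Q := [
    ((5,1,true),(3,5,false),(22,7,false),false), ((3,5,false),(22,7,false),(20,2,true),false),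
    ((22,7,false),(20,2,true),(3,5,false),false), ((20,2,true),(3,5,false),(21,6,true),true),
    ((3,5,false),(21,6,true),(11,3,true),false), ((21,6,true),(11,3,true),(13,4,false),false),
    ((11,3,true),(13,4,false),(21,6,true),false), ((13,4,false),(21,6,true),(5,1,true),true),
    ((21,6,true),(5,1,true),(3,5,false),false)]

def cyc3 : List (List R) := [
    [], [(21,6,true),(13,4,false),(11,3,true)], [(3,5,false),(20,2,true),(22,7,false)]]

theorem ok3 : tabOK 3 tab3 cyc3 0 [1, 2, 5, 6, 8] = true := by decide +kernel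

def tab4 : List Q := [
    ((3,5,false),(12,2,true),(29,3,false),false), ((12,2,true),(29,3,false),(2,4,true),false),
    ((29,3,false),(2,4,true),(12,2,true),false), ((2,4,true),(12,2,true),(4,6,false),true),
    ((12,2,true),(4,6,false),(29,3,false),false), ((4,6,false),(29,3,false),(21,1,false),true),
    ((29,3,false),(21,1,false),(2,4,true),false), ((21,1,false),(2,4,true),(3,5,false),true),
    ((2,4,true),(3,5,false),(12,2,true),false)]

def cyc4 : List (List R) := [
    [(12,2,true),(3,5,false),(2,4,true)], [(12,2,true),(29,3,false),(4,6,false)], [],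
    [(29,3,false),(21,1,false),(2,4,true)]]

theorem ok4 : tabOK 4 tab4 cyc4 2 [4, 6, 8] = true := by decide +kernel

def tab5 : List Q := [
    ((3,5,true),(29,6,false),(28,2,true),false), ((29,6,false),(28,2,true),(3,5,true),false),
    ((28,2,true),(3,5,true),(12,4,false),false), ((3,5,true),(12,4,false),(28,2,true),false),
    ((12,4,false),(28,2,true),(37,1,false),true), ((28,2,true),(37,1,false),(29,6,false),false),
    ((37,1,false),(29,6,false),(12,4,false),true), ((29,6,false),(12,4,false),(13,3,false),true),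
    ((12,4,false),(13,3,false),(3,5,true),false), ((13,3,false),(3,5,true),(29,6,false),true)]

def cyc5 : List (List R) := [
    [(29,6,false),(12,4,false),(3,5,true)], [(3,5,true),(12,4,false),(13,3,false)], [],
    [(29,6,false),(28,2,true),(12,4,false)], [(29,6,false),(37,1,false),(28,2,true)]]

theorem ok5 : tabOK 5 tab5 cyc5 2 [5, 8] = true := by decide +kernel

def tab6 : List Q := [
    ((12,4,false),(3,7,false),(45,5,true),false), ((3,7,false),(45,5,true),(43,2,false),false),
    ((45,5,true),(43,2,false),(3,7,false),false), ((43,2,false),(3,7,false),(5,8,true),true),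
    ((3,7,false),(5,8,true),(20,3,true),false), ((5,8,true),(20,3,true),(37,6,false),false),
    ((20,3,true),(37,6,false),(5,8,true),false), ((37,6,false),(5,8,true),(12,4,false),true),
    ((5,8,true),(12,4,false),(37,6,false),false), ((12,4,false),(37,6,false),(29,1,false),true),
    ((37,6,false),(29,1,false),(20,3,true),false), ((29,1,false),(20,3,true),(12,4,false),true),
    ((20,3,true),(12,4,false),(3,7,false),true)]

def cyc6 : List (List R) := [
    [(3,7,false),(5,8,true),(12,4,false)], [(5,8,true),(20,3,true),(12,4,false)],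
    [(20,3,true),(37,6,false),(12,4,false)], [(20,3,true),(29,1,false),(37,6,false)], [],
    [(3,7,false),(43,2,false),(45,5,true)]]

theorem ok6 : tabOK 6 tab6 cyc6 4 [1, 2, 10] = true := by decide +kernel

def tab7 : List Q := [
    ((36,3,false),(44,4,false),(3,6,false),false), ((44,4,false),(3,6,false),(2,7,true),false),
    ((3,6,false),(2,7,true),(20,2,true),false), ((2,7,true),(20,2,true),(3,6,false),false),
    ((20,2,true),(3,6,false),(53,5,true),true), ((3,6,false),(53,5,true),(36,3,false),false),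
    ((53,5,true),(36,3,false),(2,7,true),false), ((36,3,false),(2,7,true),(4,1,false),true),
    ((2,7,true),(4,1,false),(20,2,true),false), ((4,1,false),(20,2,true),(44,4,false),true),
    ((20,2,true),(44,4,false),(53,5,true),true), ((44,4,false),(53,5,true),(29,8,true),true),
    ((53,5,true),(29,8,true),(36,3,false),false), ((29,8,true),(36,3,false),(44,4,false),true)]

def cyc7 : List (List R) := [
    [(2,7,true),(4,1,false),(20,2,true)], [], [(44,4,false),(20,2,true),(3,6,false)],
    [(44,4,false),(36,3,false),(2,7,true),(20,2,true)], [(53,5,true),(29,8,true),(36,3,false)],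
    [(44,4,false),(53,5,true),(36,3,false)], [(44,4,false),(3,6,false),(53,5,true)]]

theorem ok7 : tabOK 7 tab7 cyc7 1 [8, 12] = true := by decide +kernel

def tab8 : List Q := [
    ((28,2,true),(13,4,true),(45,6,true),false), ((13,4,true),(45,6,true),(3,8,true),false),
    ((45,6,true),(3,8,true),(61,7,false),false), ((3,8,true),(61,7,false),(45,6,true),false),
    ((61,7,false),(45,6,true),(4,5,false),true), ((45,6,true),(4,5,false),(28,2,true),false),
    ((4,5,false),(28,2,true),(37,3,false),false), ((28,2,true),(37,3,false),(61,7,false),false),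
    ((37,3,false),(61,7,false),(53,1,false),true), ((61,7,false),(53,1,false),(3,8,true),false),
    ((53,1,false),(3,8,true),(4,5,false),true), ((3,8,true),(4,5,false),(13,4,true),true),
    ((4,5,false),(13,4,true),(37,3,false),true), ((13,4,true),(37,3,false),(12,9,false),true),
    ((37,3,false),(12,9,false),(28,2,true),false), ((12,9,false),(28,2,true),(13,4,true),true)]

def cyc8 : List (List R) := [
    [(45,6,true),(4,5,false),(3,8,true)], [(13,4,true),(4,5,false),(45,6,true)],
    [(13,4,true),(28,2,true),(4,5,false)], [(28,2,true),(37,3,false),(12,9,false)],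
    [(13,4,true),(37,3,false),(28,2,true)], [],
    [(45,6,true),(3,8,true),(53,1,false),(61,7,false)], [(3,8,true),(61,7,false),(53,1,false)]]

theorem ok8 : tabOK 8 tab8 cyc8 5 [9, 14] = true := by decide +kernel

def tab9 : List Q := [
    ((3,6,false),(69,7,true),(60,4,false),false), ((69,7,true),(60,4,false),(44,3,true),false),
    ((60,4,false),(44,3,true),(29,2,false),false), ((44,3,true),(29,2,false),(3,6,false),false),
    ((29,2,false),(3,6,false),(12,5,true),false), ((3,6,false),(12,5,true),(60,4,false),false),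
    ((12,5,true),(60,4,false),(13,8,false),true), ((60,4,false),(13,8,false),(29,2,false),false),
    ((13,8,false),(29,2,false),(20,1,true),true), ((29,2,false),(20,1,true),(12,5,true),false),
    ((20,1,true),(12,5,true),(69,7,true),true), ((12,5,true),(69,7,true),(13,8,false),true),
    ((69,7,true),(13,8,false),(44,3,true),true), ((13,8,false),(44,3,true),(20,1,true),true),
    ((44,3,true),(20,1,true),(3,6,false),true), ((20,1,true),(3,6,false),(69,7,true),true)]

def cyc9 : List (List R) := [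
    [(69,7,true),(3,6,false),(12,5,true)], [(3,6,false),(20,1,true),(12,5,true)],
    [(29,2,false),(20,1,true),(3,6,false)], [(44,3,true),(20,1,true),(29,2,false)],
    [(44,3,true),(29,2,false),(13,8,false)], [(60,4,false),(44,3,true),(13,8,false)], [],
    [(69,7,true),(12,5,true),(60,4,false)], [(69,7,true),(60,4,false),(13,8,false)]]

theorem ok9 : tabOK 9 tab9 cyc9 6 [] = true := by decide +kernel

def tab10 : List Q := [
    ((77,8,true),(3,7,false),(28,2,false),false), ((3,7,false),(28,2,false),(21,6,true),false),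
    ((28,2,false),(21,6,true),(68,5,false),false), ((21,6,true),(68,5,false),(45,9,false),false),
    ((68,5,false),(45,9,false),(37,3,true),false), ((45,9,false),(37,3,true),(28,2,false),false),
    ((37,3,true),(28,2,false),(12,1,true),true), ((28,2,false),(12,1,true),(77,8,true),false),
    ((12,1,true),(77,8,true),(45,9,false),false), ((77,8,true),(45,9,false),(52,4,true),true),
    ((45,9,false),(52,4,true),(21,6,true),false), ((52,4,true),(21,6,true),(12,1,true),true),
    ((21,6,true),(12,1,true),(3,7,false),true), ((12,1,true),(3,7,false),(37,3,true),true),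
    ((3,7,false),(37,3,true),(52,4,true),true), ((37,3,true),(52,4,true),(68,5,false),true),
    ((52,4,true),(68,5,false),(77,8,true),true), ((68,5,false),(77,8,true),(3,7,false),true)]

def cyc10 : List (List R) := [
    [], [(3,7,false),(28,2,false),(12,1,true)], [(12,1,true),(28,2,false),(21,6,true)],
    [(28,2,false),(37,3,true),(52,4,true),(21,6,true)], [(3,7,false),(37,3,true),(28,2,false)],
    [(52,4,true),(37,3,true),(45,9,false)], [(52,4,true),(45,9,false),(68,5,false)],
    [(21,6,true),(52,4,true),(68,5,false)], [(12,1,true),(21,6,true),(68,5,false),(77,8,true)],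
    [(68,5,false),(45,9,false),(77,8,true)]]

theorem ok10 : tabOK 10 tab10 cyc10 0 [] = true := by decide +kernel

def tab11 : List Q := [
    ((76,6,false),(85,8,true),(60,1,false),false), ((85,8,true),(60,1,false),(44,2,true),false),
    ((60,1,false),(44,2,true),(28,5,false),false), ((44,2,true),(28,5,false),(4,7,true),false),
    ((28,5,false),(4,7,true),(3,10,false),false), ((4,7,true),(3,10,false),(76,6,false),false),
    ((3,10,false),(76,6,false),(68,4,false),false),
    ((76,6,false),(68,4,false),(60,1,false),false), ((68,4,false),(60,1,false),(61,9,true),true),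
    ((60,1,false),(61,9,true),(28,5,false),false), ((61,9,true),(28,5,false),(12,3,true),true),
    ((28,5,false),(12,3,true),(3,10,false),false), ((12,3,true),(3,10,false),(85,8,true),true),
    ((3,10,false),(85,8,true),(68,4,false),true), ((85,8,true),(68,4,false),(44,2,true),true),
    ((68,4,false),(44,2,true),(61,9,true),true), ((44,2,true),(61,9,true),(4,7,true),true),
    ((61,9,true),(4,7,true),(12,3,true),true), ((4,7,true),(12,3,true),(76,6,false),true),
    ((12,3,true),(76,6,false),(85,8,true),true)]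

def cyc11 : List (List R) := [
    [(4,7,true),(3,10,false),(12,3,true)], [(12,3,true),(3,10,false),(76,6,false)],
    [(28,5,false),(4,7,true),(12,3,true)], [(61,9,true),(4,7,true),(28,5,false)],
    [(44,2,true),(61,9,true),(28,5,false)], [], [(68,4,false),(60,1,false),(44,2,true)],
    [(60,1,false),(61,9,true),(44,2,true)], [(85,8,true),(60,1,false),(68,4,false)],
    [(85,8,true),(68,4,false),(76,6,false)], [(85,8,true),(76,6,false),(3,10,false)]]

theorem ok11 : tabOK 11 tab11 cyc11 5 [] = true := by decide +kernel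

def tab12 : List Q := [
    ((53,11,true),(36,4,true),(69,5,false),false), ((36,4,true),(69,5,false),(60,2,true),false),
    ((69,5,false),(60,2,true),(93,9,true),false), ((60,2,true),(93,9,true),(84,8,false),false),
    ((93,9,true),(84,8,false),(12,7,true),false), ((84,8,false),(12,7,true),(53,11,true),false),
    ((12,7,true),(53,11,true),(52,3,false),false),
    ((53,11,true),(52,3,false),(69,5,false),false),
    ((52,3,false),(69,5,false),(76,1,false),true), ((69,5,false),(76,1,false),(93,9,true),false),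
    ((76,1,false),(93,9,true),(3,10,false),true), ((93,9,true),(3,10,false),(12,7,true),false),
    ((3,10,false),(12,7,true),(21,6,false),true), ((12,7,true),(21,6,false),(76,1,false),false),
    ((21,6,false),(76,1,false),(60,2,true),true), ((76,1,false),(60,2,true),(52,3,false),true),
    ((60,2,true),(52,3,false),(36,4,true),true), ((52,3,false),(36,4,true),(21,6,false),true),
    ((36,4,true),(21,6,false),(84,8,false),true), ((21,6,false),(84,8,false),(3,10,false),true),
    ((84,8,false),(3,10,false),(53,11,true),true), ((3,10,false),(53,11,true),(36,4,true),true)]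

def cyc12 : List (List R) := [
    [(3,10,false),(12,7,true),(53,11,true)], [(84,8,false),(12,7,true),(3,10,false)],
    [(84,8,false),(21,6,false),(12,7,true)], [],
    [(36,4,true),(21,6,false),(76,1,false),(69,5,false)],
    [(36,4,true),(69,5,false),(52,3,false)], [(36,4,true),(52,3,false),(53,11,true)],
    [(52,3,false),(69,5,false),(60,2,true)], [(69,5,false),(76,1,false),(60,2,true)],
    [(60,2,true),(76,1,false),(93,9,true)], [(76,1,false),(21,6,false),(84,8,false),(93,9,true)],
    [(93,9,true),(84,8,false),(3,10,false)]]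

theorem ok12 : tabOK 12 tab12 cyc12 3 [] = true := by decide +kernel

def tab13 : List Q := [
    ((36,6,false),(101,11,true),(100,3,false),false),
    ((101,11,true),(100,3,false),(84,2,true),false),
    ((100,3,false),(84,2,true),(68,1,false),false),
    ((84,2,true),(68,1,false),(60,9,false),false),
    ((68,1,false),(60,9,false),(20,7,false),false),
    ((60,9,false),(20,7,false),(21,12,true),false),
    ((20,7,false),(21,12,true),(101,11,true),false),
    ((21,12,true),(101,11,true),(45,5,true),true), ((101,11,true),(45,5,true),(84,2,true),false),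
    ((45,5,true),(84,2,true),(3,10,false),true), ((84,2,true),(3,10,false),(4,8,true),false),
    ((3,10,false),(4,8,true),(20,7,false),false), ((4,8,true),(20,7,false),(52,4,true),true),
    ((20,7,false),(52,4,true),(68,1,false),false), ((52,4,true),(68,1,false),(3,10,false),true),
    ((68,1,false),(3,10,false),(100,3,false),true),
    ((3,10,false),(100,3,false),(45,5,true),true), ((100,3,false),(45,5,true),(36,6,false),true),
    ((45,5,true),(36,6,false),(21,12,true),false), ((36,6,false),(21,12,true),(4,8,true),true),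
    ((21,12,true),(4,8,true),(60,9,false),true), ((4,8,true),(60,9,false),(52,4,true),true),
    ((60,9,false),(52,4,true),(36,6,false),true), ((52,4,true),(36,6,false),(101,11,true),true)]

def cyc13 : List (List R) := [
    [(3,10,false),(4,8,true),(60,9,false),(68,1,false)], [(60,9,false),(4,8,true),(20,7,false)],
    [(20,7,false),(4,8,true),(21,12,true)], [(52,4,true),(20,7,false),(21,12,true),(36,6,false)],
    [(101,11,true),(36,6,false),(21,12,true)], [(101,11,true),(45,5,true),(36,6,false)],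
    [(60,9,false),(20,7,false),(52,4,true)], [(68,1,false),(60,9,false),(52,4,true)], [],
    [(84,2,true),(3,10,false),(68,1,false)], [(100,3,false),(3,10,false),(84,2,true)],
    [(45,5,true),(100,3,false),(84,2,true)], [(101,11,true),(100,3,false),(45,5,true)]]

theorem ok13 : tabOK 13 tab13 cyc13 8 [] = true := by decide +kernel

def tab14 : List Q := [
    ((12,6,false),(5,11,true),(84,2,false),false), ((5,11,true),(84,2,false),(92,3,false),false),
    ((84,2,false),(92,3,false),(108,4,true),false),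
    ((92,3,false),(108,4,true),(44,7,false),false),
    ((108,4,true),(44,7,false),(28,8,true),false), ((44,7,false),(28,8,true),(3,9,false),false),
    ((28,8,true),(3,9,false),(93,12,true),false), ((3,9,false),(93,12,true),(84,2,false),false),
    ((93,12,true),(84,2,false),(68,1,true),true), ((84,2,false),(68,1,true),(52,10,true),false),
    ((68,1,true),(52,10,true),(44,7,false),false),
    ((52,10,true),(44,7,false),(109,13,false),true),
    ((44,7,false),(109,13,false),(3,9,false),false),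
    ((109,13,false),(3,9,false),(12,6,false),true),
    ((3,9,false),(12,6,false),(52,10,true),false), ((12,6,false),(52,10,true),(53,5,false),true),
    ((52,10,true),(53,5,false),(92,3,false),false),
    ((53,5,false),(92,3,false),(93,12,true),true), ((92,3,false),(93,12,true),(5,11,true),true),
    ((93,12,true),(5,11,true),(68,1,true),true), ((5,11,true),(68,1,true),(53,5,false),true),
    ((68,1,true),(53,5,false),(108,4,true),true),
    ((53,5,false),(108,4,true),(109,13,false),true),
    ((108,4,true),(109,13,false),(28,8,true),true),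
    ((109,13,false),(28,8,true),(12,6,false),true), ((28,8,true),(12,6,false),(5,11,true),true)]

def cyc14 : List (List R) := [
    [], [(5,11,true),(12,6,false),(52,10,true),(68,1,true)],
    [(28,8,true),(12,6,false),(3,9,false)], [(109,13,false),(28,8,true),(3,9,false)],
    [(44,7,false),(28,8,true),(109,13,false)],
    [(44,7,false),(52,10,true),(12,6,false),(28,8,true)],
    [(53,5,false),(52,10,true),(44,7,false),(108,4,true)],
    [(53,5,false),(68,1,true),(52,10,true)],
    [(84,2,false),(68,1,true),(53,5,false),(92,3,false)], [(5,11,true),(68,1,true),(84,2,false)],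
    [(5,11,true),(84,2,false),(93,12,true)], [(93,12,true),(84,2,false),(92,3,false)],
    [(92,3,false),(53,5,false),(108,4,true)], [(108,4,true),(44,7,false),(109,13,false)]]

theorem ok14 : tabOK 14 tab14 cyc14 0 [] = true := by decide +kernel

def tab15 : List Q := [
    ((12,10,true),(45,13,true),(60,1,true),false), ((45,13,true),(60,1,true),(68,7,false),false),
    ((60,1,true),(68,7,false),(77,4,true),false), ((68,7,false),(77,4,true),(92,3,false),false),
    ((77,4,true),(92,3,false),(116,6,true),false),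
    ((92,3,false),(116,6,true),(29,8,false),false),
    ((116,6,true),(29,8,false),(20,9,true),false), ((29,8,false),(20,9,true),(3,11,false),false),
    ((20,9,true),(3,11,false),(45,13,true),false), ((3,11,false),(45,13,true),(44,2,false),true),
    ((45,13,true),(44,2,false),(68,7,false),false),
    ((44,2,false),(68,7,false),(93,14,true),true),
    ((68,7,false),(93,14,true),(92,3,false),false),
    ((93,14,true),(92,3,false),(100,5,false),true),
    ((92,3,false),(100,5,false),(29,8,false),false),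
    ((100,5,false),(29,8,false),(117,12,false),true),
    ((29,8,false),(117,12,false),(3,11,false),false),
    ((117,12,false),(3,11,false),(12,10,true),true),
    ((3,11,false),(12,10,true),(44,2,false),false), ((12,10,true),(44,2,false),(60,1,true),true),
    ((44,2,false),(60,1,true),(93,14,true),true), ((60,1,true),(93,14,true),(77,4,true),true),
    ((93,14,true),(77,4,true),(100,5,false),true), ((77,4,true),(100,5,false),(116,6,true),true),
    ((100,5,false),(116,6,true),(117,12,false),true),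
    ((116,6,true),(117,12,false),(20,9,true),true),
    ((117,12,false),(20,9,true),(12,10,true),true), ((20,9,true),(12,10,true),(45,13,true),true)]

def cyc15 : List (List R) := [
    [(45,13,true),(12,10,true),(3,11,false)], [(20,9,true),(3,11,false),(12,10,true)],
    [(117,12,false),(3,11,false),(20,9,true)], [(29,8,false),(117,12,false),(20,9,true)], [],
    [(45,13,true),(44,2,false),(12,10,true)], [(45,13,true),(60,1,true),(44,2,false)],
    [(44,2,false),(60,1,true),(68,7,false)], [(60,1,true),(93,14,true),(68,7,false)],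
    [(68,7,false),(93,14,true),(77,4,true)], [(77,4,true),(92,3,false),(100,5,false)],
    [(93,14,true),(92,3,false),(77,4,true)], [(92,3,false),(116,6,true),(100,5,false)],
    [(100,5,false),(116,6,true),(29,8,false)], [(116,6,true),(117,12,false),(29,8,false)]]

theorem ok15 : tabOK 15 tab15 cyc15 4 [] = true := by decide +kernel

def tab16 : List Q := [
    ((28,8,true),(37,10,false),(69,7,false),false),
    ((37,10,false),(69,7,false),(53,5,false),false),
    ((69,7,false),(53,5,false),(125,9,true),false),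
    ((53,5,false),(125,9,true),(116,2,false),false),
    ((125,9,true),(116,2,false),(100,3,true),false),
    ((116,2,false),(100,3,true),(3,15,false),false),
    ((100,3,true),(3,15,false),(4,12,true),false),
    ((3,15,false),(4,12,true),(20,11,false),false),
    ((4,12,true),(20,11,false),(84,1,true),false),
    ((20,11,false),(84,1,true),(100,3,true),false),
    ((84,1,true),(100,3,true),(108,14,false),true),
    ((100,3,true),(108,14,false),(125,9,true),false),
    ((108,14,false),(125,9,true),(68,4,true),true),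
    ((125,9,true),(68,4,true),(69,7,false),false), ((68,4,true),(69,7,false),(44,6,true),true),
    ((69,7,false),(44,6,true),(28,8,true),false), ((44,6,true),(28,8,true),(20,11,false),false),
    ((28,8,true),(20,11,false),(93,13,false),true),
    ((20,11,false),(93,13,false),(3,15,false),false),
    ((93,13,false),(3,15,false),(108,14,false),true),
    ((3,15,false),(108,14,false),(116,2,false),true),
    ((108,14,false),(116,2,false),(68,4,true),true),
    ((116,2,false),(68,4,true),(53,5,false),true), ((68,4,true),(53,5,false),(44,6,true),true),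
    ((53,5,false),(44,6,true),(37,10,false),true), ((44,6,true),(37,10,false),(84,1,true),true),
    ((37,10,false),(84,1,true),(93,13,false),true), ((84,1,true),(93,13,false),(4,12,true),true),
    ((93,13,false),(4,12,true),(28,8,true),true), ((4,12,true),(28,8,true),(37,10,false),true)]

def cyc16 : List (List R) := [
    [(3,15,false),(93,13,false),(4,12,true)], [(93,13,false),(20,11,false),(4,12,true)],
    [(4,12,true),(20,11,false),(28,8,true)],
    [(37,10,false),(28,8,true),(20,11,false),(84,1,true)],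
    [(37,10,false),(44,6,true),(28,8,true)], [(37,10,false),(69,7,false),(44,6,true)],
    [(44,6,true),(69,7,false),(53,5,false)], [(53,5,false),(68,4,true),(125,9,true)],
    [(69,7,false),(68,4,true),(53,5,false)], [], [(93,13,false),(84,1,true),(20,11,false)],
    [(100,3,true),(84,1,true),(93,13,false),(3,15,false)],
    [(108,14,false),(100,3,true),(3,15,false)], [(116,2,false),(100,3,true),(108,14,false)],
    [(68,4,true),(116,2,false),(125,9,true)], [(125,9,true),(116,2,false),(108,14,false)]]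

theorem ok16 : tabOK 16 tab16 cyc16 9 [] = true := by decide +kernel

def tab18 : List Q := [
    ((4,2,false),(93,10,true),(108,11,false),false),
    ((93,10,true),(108,11,false),(117,15,true),false),
    ((108,11,false),(117,15,true),(141,13,true),false),
    ((117,15,true),(141,13,true),(132,12,false),false),
    ((141,13,true),(132,12,false),(84,7,true),false),
    ((132,12,false),(84,7,true),(68,6,false),false),
    ((84,7,true),(68,6,false),(53,5,false),false), ((68,6,false),(53,5,false),(28,1,true),false),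
    ((53,5,false),(28,1,true),(13,9,true),false), ((28,1,true),(13,9,true),(4,2,false),false),
    ((13,9,true),(4,2,false),(3,16,true),false), ((4,2,false),(3,16,true),(108,11,false),false),
    ((3,16,true),(108,11,false),(124,4,false),true),
    ((108,11,false),(124,4,false),(141,13,true),false),
    ((124,4,false),(141,13,true),(77,14,false),true),
    ((141,13,true),(77,14,false),(84,7,true),false),
    ((77,14,false),(84,7,true),(45,8,true),true), ((84,7,true),(45,8,true),(53,5,false),false),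
    ((45,8,true),(53,5,false),(21,17,false),true),
    ((53,5,false),(21,17,false),(13,9,true),false),
    ((21,17,false),(13,9,true),(44,3,false),true), ((13,9,true),(44,3,false),(45,8,true),false),
    ((44,3,false),(45,8,true),(68,6,false),true), ((45,8,true),(68,6,false),(77,14,false),true),
    ((68,6,false),(77,14,false),(132,12,false),true),
    ((77,14,false),(132,12,false),(124,4,false),true),
    ((132,12,false),(124,4,false),(117,15,true),true),
    ((124,4,false),(117,15,true),(3,16,true),true),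
    ((117,15,true),(3,16,true),(93,10,true),true), ((3,16,true),(93,10,true),(44,3,false),true),
    ((93,10,true),(44,3,false),(28,1,true),true), ((44,3,false),(28,1,true),(21,17,false),true),
    ((28,1,true),(21,17,false),(4,2,false),true), ((21,17,false),(4,2,false),(93,10,true),true)]

def cyc18 : List (List R) := [
    [(93,10,true),(3,16,true),(4,2,false)], [(21,17,false),(13,9,true),(4,2,false)],
    [(28,1,true),(13,9,true),(21,17,false)], [(53,5,false),(28,1,true),(21,17,false)],
    [(28,1,true),(44,3,false),(13,9,true)], [(93,10,true),(4,2,false),(13,9,true),(44,3,false)],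
    [(45,8,true),(44,3,false),(28,1,true),(53,5,false)], [(68,6,false),(45,8,true),(53,5,false)],
    [(84,7,true),(45,8,true),(68,6,false)], [(77,14,false),(84,7,true),(68,6,false)],
    [(132,12,false),(84,7,true),(77,14,false)], [], [(93,10,true),(108,11,false),(3,16,true)],
    [(3,16,true),(108,11,false),(117,15,true)], [(108,11,false),(124,4,false),(117,15,true)],
    [(117,15,true),(124,4,false),(141,13,true)], [(124,4,false),(132,12,false),(141,13,true)],
    [(141,13,true),(132,12,false),(77,14,false)]]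

theorem ok18 : tabOK 18 tab18 cyc18 11 [] = true := by decide +kernel

def tab19 : List Q := [
    ((20,11,true),(3,14,false),(100,18,true),false),
    ((3,14,false),(100,18,true),(52,6,false),false),
    ((100,18,true),(52,6,false),(77,5,false),false),
    ((52,6,false),(77,5,false),(117,15,true),false),
    ((77,5,false),(117,15,true),(108,2,false),false),
    ((117,15,true),(108,2,false),(116,4,false),false),
    ((108,2,false),(116,4,false),(45,8,false),false),
    ((116,4,false),(45,8,false),(133,10,false),false),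
    ((45,8,false),(133,10,false),(29,16,false),false),
    ((133,10,false),(29,16,false),(149,17,false),false),
    ((29,16,false),(149,17,false),(3,14,false),false),
    ((149,17,false),(3,14,false),(12,12,true),true),
    ((3,14,false),(12,12,true),(52,6,false),false), ((12,12,true),(52,6,false),(68,1,true),true),
    ((52,6,false),(68,1,true),(117,15,true),false), ((68,1,true),(117,15,true),(92,3,true),true),
    ((117,15,true),(92,3,true),(116,4,false),false),
    ((92,3,true),(116,4,false),(125,7,true),true),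
    ((116,4,false),(125,7,true),(148,13,true),false),
    ((125,7,true),(148,13,true),(29,16,false),false),
    ((148,13,true),(29,16,false),(36,9,true),true),
    ((29,16,false),(36,9,true),(45,8,false),false), ((36,9,true),(45,8,false),(125,7,true),true),
    ((45,8,false),(125,7,true),(108,2,false),true),
    ((125,7,true),(108,2,false),(92,3,true),true), ((108,2,false),(92,3,true),(77,5,false),true),
    ((92,3,true),(77,5,false),(68,1,true),true), ((77,5,false),(68,1,true),(100,18,true),true),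
    ((68,1,true),(100,18,true),(12,12,true),true),
    ((100,18,true),(12,12,true),(20,11,true),true),
    ((12,12,true),(20,11,true),(149,17,false),false),
    ((20,11,true),(149,17,false),(148,13,true),true),
    ((149,17,false),(148,13,true),(133,10,false),true),
    ((148,13,true),(133,10,false),(36,9,true),true),
    ((133,10,false),(36,9,true),(20,11,true),true), ((36,9,true),(20,11,true),(3,14,false),true)]

def cyc19 : List (List R) := [
    [(3,14,false),(100,18,true),(12,12,true)], [(3,14,false),(12,12,true),(20,11,true)],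
    [(3,14,false),(20,11,true),(149,17,false)],
    [(36,9,true),(29,16,false),(149,17,false),(20,11,true)],
    [(133,10,false),(29,16,false),(36,9,true)], [(45,8,false),(133,10,false),(36,9,true)],
    [(12,12,true),(100,18,true),(52,6,false)], [(100,18,true),(68,1,true),(52,6,false)],
    [(52,6,false),(68,1,true),(77,5,false)], [(68,1,true),(117,15,true),(77,5,false)],
    [(77,5,false),(117,15,true),(92,3,true)], [], [(92,3,true),(108,2,false),(116,4,false)],
    [(117,15,true),(108,2,false),(92,3,true)], [(108,2,false),(125,7,true),(116,4,false)],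
    [(116,4,false),(125,7,true),(45,8,false)],
    [(125,7,true),(148,13,true),(133,10,false),(45,8,false)],
    [(133,10,false),(148,13,true),(29,16,false)], [(29,16,false),(148,13,true),(149,17,false)]]

theorem ok19 : tabOK 19 tab19 cyc19 11 [] = true := by decide +kernel

def tab20 : List Q := [
    ((124,8,true),(108,6,false),(100,5,false),false),
    ((108,6,false),(100,5,false),(84,1,true),false),
    ((100,5,false),(84,1,true),(37,17,true),false), ((84,1,true),(37,17,true),(60,3,true),false),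
    ((37,17,true),(60,3,true),(36,9,false),false), ((60,3,true),(36,9,false),(3,16,true),false),
    ((36,9,false),(3,16,true),(157,18,false),false),
    ((3,16,true),(157,18,false),(149,13,true),false),
    ((157,18,false),(149,13,true),(148,11,false),false),
    ((149,13,true),(148,11,false),(132,10,true),false),
    ((148,11,false),(132,10,true),(93,7,true),false),
    ((132,10,true),(93,7,true),(100,5,false),false),
    ((93,7,true),(100,5,false),(69,4,false),true),
    ((100,5,false),(69,4,false),(37,17,true),false),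
    ((69,4,false),(37,17,true),(44,2,false),true),
    ((37,17,true),(44,2,false),(36,9,false),false),
    ((44,2,false),(36,9,false),(28,12,false),true),
    ((36,9,false),(28,12,false),(20,14,false),false),
    ((28,12,false),(20,14,false),(149,13,true),false),
    ((20,14,false),(149,13,true),(117,19,true),true),
    ((149,13,true),(117,19,true),(132,10,true),false),
    ((117,19,true),(132,10,true),(124,8,true),true),
    ((132,10,true),(124,8,true),(20,14,false),false),
    ((124,8,true),(20,14,false),(5,15,true),true), ((20,14,false),(5,15,true),(3,16,true),false),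
    ((5,15,true),(3,16,true),(44,2,false),true), ((3,16,true),(44,2,false),(60,3,true),true),
    ((44,2,false),(60,3,true),(69,4,false),true), ((60,3,true),(69,4,false),(84,1,true),true),
    ((69,4,false),(84,1,true),(93,7,true),true), ((84,1,true),(93,7,true),(108,6,false),true),
    ((93,7,true),(108,6,false),(28,12,false),true),
    ((108,6,false),(28,12,false),(5,15,true),true),
    ((28,12,false),(5,15,true),(157,18,false),true),
    ((5,15,true),(157,18,false),(117,19,true),true),
    ((157,18,false),(117,19,true),(148,11,false),true),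
    ((117,19,true),(148,11,false),(124,8,true),true),
    ((148,11,false),(124,8,true),(108,6,false),true)]

def cyc20 : List (List R) := [
    [(3,16,true),(5,15,true),(157,18,false)],
    [(5,15,true),(20,14,false),(149,13,true),(157,18,false)],
    [(5,15,true),(28,12,false),(20,14,false)],
    [(36,9,false),(28,12,false),(5,15,true),(3,16,true)],
    [(44,2,false),(36,9,false),(3,16,true)], [(37,17,true),(60,3,true),(44,2,false)],
    [(60,3,true),(36,9,false),(44,2,false)], [], [(69,4,false),(60,3,true),(37,17,true)],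
    [(84,1,true),(69,4,false),(37,17,true)], [(100,5,false),(69,4,false),(84,1,true)],
    [(93,7,true),(100,5,false),(84,1,true)], [(108,6,false),(100,5,false),(93,7,true)],
    [(108,6,false),(93,7,true),(132,10,true),(124,8,true)],
    [(108,6,false),(124,8,true),(20,14,false),(28,12,false)],
    [(149,13,true),(20,14,false),(124,8,true),(148,11,false)],
    [(148,11,false),(124,8,true),(132,10,true)], [(117,19,true),(148,11,false),(132,10,true)],
    [(149,13,true),(148,11,false),(117,19,true)], [(157,18,false),(149,13,true),(117,19,true)]]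

theorem ok20 : tabOK 20 tab20 cyc20 7 [] = true := by decide +kernel

end Pool.Agent.MP_b0ee3d_lc

end

section

set_option autoImplicit false

namespace Pool.Agent.MP_b0ee3d_lc

def fam0 : Fam where
  n0 := 18
  c0 := 9
  A := 92
  A' := 6
  g0 := 16
  g1 := 11
  g2 := 7
  d0 := 1
  d1 := 1
  d2 := 0
  js := 2
  E := [
    (((68,1),(3,1),true),((84,1),(5,1),true),((109,1),(6,1),false),false),
    (((84,1),(5,1),true),((109,1),(6,1),false),((108,1),(14,1),true),true),
    (((109,1),(6,1),false),((108,1),(14,1),true),((36,0),(12,1),true),false),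
    (((108,1),(14,1),true),((36,0),(12,1),true),((37,0),(17,1),false),true),
    (((36,0),(12,1),true),((37,0),(17,1),false),((4,0),(15,1),true),false),
    (((37,0),(17,1),false),((4,0),(15,1),true),((116,1),(7,1),false),true),
    (((4,0),(15,1),true),((116,1),(7,1),false),((45,0),(9,1),false),false),
    (((116,1),(7,1),false),((45,0),(9,1),false),((141,1),(11,1),false),true),
    (((45,0),(9,1),false),((141,1),(11,1),false),((3,0),(16,1),true),false),
    (((141,1),(11,1),false),((3,0),(16,1),true),((4,0),(15,1),true),true),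
    (((3,0),(16,1),true),((4,0),(15,1),true),((20,0),(13,1),false),false),
    (((4,0),(15,1),true),((20,0),(13,1),false),((36,0),(12,1),true),true),
    (((20,0),(13,1),false),((36,0),(12,1),true),((100,1),(1,0),false),false),
    (((36,0),(12,1),true),((100,1),(1,0),false),((109,1),(6,1),false),true),
    (((100,1),(1,0),false),((109,1),(6,1),false),((76,1),(4,1),false),false),
    (((109,1),(6,1),false),((76,1),(4,1),false),((68,1),(3,1),true),true),
    (((76,0),(4,0),false),((68,0),(3,0),true),((43,0),(10,1),true),false),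
    (((68,0),(3,0),true),((43,0),(10,1),true),((45,0),(9,1),false),true),
    (((43,0),(10,1),true),((45,0),(9,1),false),((132,1),(8,1),true),false),
    (((45,0),(9,1),false),((132,1),(8,1),true),((3,0),(16,1),true),true),
    (((132,1),(8,1),true),((3,0),(16,1),true),((37,0),(17,1),false),false),
    (((3,0),(16,1),true),((37,0),(17,1),false),((20,0),(13,1),false),true),
    (((37,0),(17,1),false),((20,0),(13,1),false),((108,1),(14,1),true),false),
    (((20,0),(13,1),false),((108,1),(14,1),true),((100,1),(1,0),false),true),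
    (((108,1),(14,1),true),((100,1),(1,0),false),((84,1),(5,1),true),false),
    (((100,1),(1,0),false),((84,1),(5,1),true),((76,1),(4,1),false),true),
    (((84,1),(5,1),true),((76,1),(4,1),false),((60,1),(2,1),false),false),
    (((76,0),(4,0),false),((60,0),(2,0),false),((43,0),(10,1),true),true),
    (((60,0),(2,0),false),((43,0),(10,1),true),((141,1),(11,1),false),false),
    (((43,0),(10,1),true),((141,1),(11,1),false),((132,1),(8,1),true),true),
    (((141,1),(11,1),false),((132,1),(8,1),true),((116,1),(7,1),false),false),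
    (((132,1),(8,1),true),((116,1),(7,1),false),((60,0),(2,0),false),true),
    (((116,1),(7,1),false),((60,0),(2,0),false),((68,0),(3,0),true),false),
    (((60,0),(2,0),false),((68,0),(3,0),true),((84,0),(5,0),true),true)]
  B := [
    (((124,2),(10,2),false),((116,2),(9,2),true),((100,2),(7,2),true),false),
    (((116,2),(9,2),true),((100,2),(7,2),true),((92,2),(6,2),false),true),
    (((100,2),(7,2),true),((92,2),(6,2),false),((76,2),(4,2),false),false),
    (((92,2),(6,2),false),((76,2),(4,2),false),((68,2),(3,2),true),true),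
    (((124,2),(10,2),false),((108,2),(8,2),false),((100,2),(7,2),true),true),
    (((108,2),(8,2),false),((100,2),(7,2),true),((84,2),(5,2),true),false),
    (((100,2),(7,2),true),((84,2),(5,2),true),((76,2),(4,2),false),true),
    (((84,2),(5,2),true),((76,2),(4,2),false),((60,2),(2,2),false),false),
    (((68,2),(3,2),true),((84,2),(5,2),true),((92,2),(6,2),false),false),
    (((84,2),(5,2),true),((92,2),(6,2),false),((108,2),(8,2),false),true),
    (((92,2),(6,2),false),((108,2),(8,2),false),((116,2),(9,2),true),false),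
    (((108,2),(8,2),false),((116,2),(9,2),true),((132,2),(11,2),true),true)]
  CE := [
    [((37,0),(17,1),false),((4,0),(15,1),true),((3,0),(16,1),true)],
    [((20,0),(13,1),false),((4,0),(15,1),true),((37,0),(17,1),false)], [],
    [((108,1),(14,1),true),((20,0),(13,1),false),((36,0),(12,1),true)],
    [((36,0),(12,1),true),((20,0),(13,1),false),((37,0),(17,1),false)],
    [((141,1),(11,1),false),((45,0),(9,1),false),((43,0),(10,1),true)],
    [((45,0),(9,1),false),((116,1),(7,1),false),((60,0),(2,0),false),((43,0),(10,1),true)],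
    [((43,0),(10,1),true),((60,0),(2,0),false),((68,0),(3,0),true)],
    [((60,0),(2,0),false),((76,0),(4,0),false),((68,0),(3,0),true)],
    [((76,1),(4,1),false),((84,1),(5,1),true),((68,1),(3,1),true)],
    [((76,1),(4,1),false),((109,1),(6,1),false),((84,1),(5,1),true)],
    [((84,1),(5,1),true),((109,1),(6,1),false),((100,1),(1,0),false)],
    [((100,1),(1,0),false),((108,1),(14,1),true),((36,0),(12,1),true)],
    [((109,1),(6,1),false),((108,1),(14,1),true),((100,1),(1,0),false)],
    [((4,0),(15,1),true),((116,1),(7,1),false),((132,1),(8,1),true),((3,0),(16,1),true)],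
    [((132,1),(8,1),true),((116,1),(7,1),false),((45,0),(9,1),false)],
    [((132,1),(8,1),true),((45,0),(9,1),false),((141,1),(11,1),false)],
    [((3,0),(16,1),true),((132,1),(8,1),true),((141,1),(11,1),false)]]
  CB := [
    [((68,2),(3,2),true),((76,2),(4,2),false),((84,2),(5,2),true)],
    [((76,2),(4,2),false),((92,2),(6,2),false),((84,2),(5,2),true)],
    [((84,2),(5,2),true),((92,2),(6,2),false),((100,2),(7,2),true)],
    [((92,2),(6,2),false),((108,2),(8,2),false),((100,2),(7,2),true)],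
    [((100,2),(7,2),true),((108,2),(8,2),false),((116,2),(9,2),true)],
    [((124,2),(10,2),false),((116,2),(9,2),true),((108,2),(8,2),false)]]

theorem fam0_k0 : fam0.k0 = true := by decide +kernel

theorem fam0_k1 : fam0.k1 = true := by decide +kernel

theorem fam0_kEE : fam0.kEE = true := by decide +kernel

theorem fam0_kE : fam0.kE = true := by decide +kernel

theorem fam0_kSS : fam0.kSS = true := by decide +kernel

theorem fam0_kES00 : fam0.kES 0 0 = true := by decide +kernel

theorem fam0_kES01 : fam0.kES 0 1 = true := by decide +kernel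

theorem fam0_kES10 : fam0.kES 1 0 = true := by decide +kernel

theorem fam0_kES11 : fam0.kES 1 1 = true := by decide +kernel

theorem fam0_kD00 : fam0.kD 0 0 = true := by decide +kernel

theorem fam0_kD01 : fam0.kD 0 1 = true := by decide +kernel

theorem fam0_kD10 : fam0.kD 1 0 = true := by decide +kernel

theorem fam0_kD11 : fam0.kD 1 1 = true := by decide +kernel

theorem fam0_valid {t : ℕ} (ht : 1 ≤ t) : Valid (fam0.n0 + 6 * t) (fam0.G + 12 * t)
    (fun p => fam0.tri t (fam0.desc t p)) :=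
  fam0.valid fam0_k0 fam0_k1 fam0_kEE fam0_kE
    (fun i hi k hk => by
      interval_cases i <;> interval_cases k
      exacts [fam0_kES00, fam0_kES01, fam0_kES10, fam0_kES11])
    (fun i hi k hk => by
      interval_cases i <;> interval_cases k
      exacts [fam0_kD00, fam0_kD01, fam0_kD10, fam0_kD11]) fam0_kSS ht

end Pool.Agent.MP_b0ee3d_lc

end
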