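import Mathlib
import Pool.Agent.Mg.F2e8011.G284816

/-! Generated tile data. -/

namespace Pool.Agent.MP_a4408f_lc

/-- Tile 8. -/
def d8 : TDa where
  l := List.flatten [[(15, 16, 14, true, false, true), (16, 15, 1, true, false, false),
    (16, 17, 14, true, true, false), (0, 1, 15, false, false, false),
    (1, 18, 16, false, false, false), (16, 18, 17, false, true, true),
    (12, 14, 17, false, true, false), (1, 19, 18, false, true, false),
    (18, 19, 17, true, false, true), (13, 14, 12, false, false, false),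
    (17, 20, 12, true, false, false), (1, 21, 19, false, false, false),
    (19, 20, 17, true, true, false), (20, 22, 12, true, false, false),
    (1, 2, 21, false, false, false), (19, 21, 20, false, true, true),
    (23, 22, 20, true, true, false), (11, 12, 22, false, false, false),
    (2, 23, 21, false, true, false), (21, 23, 20, true, false, true),
    (23, 24, 22, false, true, true), (11, 22, 25, false, true, false),
    (24, 23, 2, false, false, false), (24, 26, 22, true, false, true),
    (26, 25, 22, true, true, false), (11, 25, 27, false, false, false),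
    (2, 26, 24, false, true, false), (26, 28, 25, false, true, true),
    (29, 27, 25, false, false, false), (10, 11, 27, false, false, false)],
    [(2, 28, 26, false, false, false), (28, 30, 25, true, false, true),
    (31, 27, 29, true, false, false), (25, 32, 29, true, false, false),
    (27, 33, 10, true, true, false), (2, 3, 28, false, false, false),
    (3, 30, 28, false, true, false), (30, 32, 25, true, true, false),
    (31, 34, 27, true, false, true), (29, 35, 31, true, true, false),
    (36, 29, 32, true, false, true), (34, 33, 27, true, true, false),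
    (33, 9, 10, true, false, true), (3, 37, 30, false, false, false),
    (30, 37, 32, false, true, true), (38, 34, 31, false, true, true),
    (39, 35, 29, true, true, false), (35, 40, 31, true, false, true),
    (41, 29, 36, true, true, false), (42, 36, 32, true, true, false),
    (34, 43, 33, false, true, true), (43, 9, 33, false, true, true),
    (3, 42, 37, false, true, false), (37, 42, 32, true, false, true),
    (38, 44, 34, true, true, false), (40, 38, 31, true, true, false),
    (39, 45, 35, false, true, true), (46, 39, 29, true, false, true),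
    (45, 40, 35, false, true, true), (41, 46, 29, false, true, true)],
    [(47, 41, 36, true, false, true), (42, 47, 36, false, true, true),
    (34, 44, 43, true, true, false), (9, 43, 8, false, false, false),
    (47, 42, 3, false, false, false), (40, 44, 38, true, true, true),
    (6, 45, 39, false, false, false), (6, 39, 46, false, true, false),
    (40, 45, 44, false, false, true), (6, 46, 41, false, false, false),
    (6, 41, 47, false, true, false), (43, 44, 45, true, false, false),
    (8, 43, 7, false, false, false), (3, 4, 47, false, false, false),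
    (6, 7, 45, false, false, false), (4, 6, 47, false, false, false),
    (7, 43, 45, false, false, false), (4, 5, 6, false, false, false)]]
  q := List.flatten [[(5279125, 10892904), (7917567, 15570270), (8478060, 8894247), (10715546, 9113816),
    (13032672, 14520654), (14149429, 6583909), (18414566, 16570850), (16998926, 9285077),
    (19397965, 8749970), (27294036, 14296301), (22178366, 9143951), (32607269, 22044463),
    (25785262, 6102636), (37231556, 14076270), (29453910, 7072925), (38276788, 18817472),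
    (32681356, 9359314), (36837478, 25455738), (38611025, 21665459), (40673644, 16641530),
    (36699416, 9110757), (31508897, 5606375), (39733427, 19844392), (42962979, 14082928),
    (40803807, 18632716), (41071904, 10235090), (33900322, 5993259), (42969097, 23568769),
    (41242089, 20261920), (44093088, 17598266)],
    [(42816610, 12098572), (38611940, 5889851)]]
  par := List.flatten [[0, 0, 0, 1, 1, 2, 2, 4, 5, 6, 6, 7, 8, 10, 11, 11, 13, 13, 14, 15, 16, 17, 18, 20, 21, 21, 22,
    24, 25, 25],
    [26, 27, 28, 28, 29, 30, 31, 31, 32, 32, 33, 34, 34, 36, 37, 38, 39, 39, 40, 40, 41, 42, 43, 44,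
    45, 45, 46, 46, 47, 48],
    [48, 49, 50, 51, 52, 54, 56, 57, 58, 59, 60, 62, 63, 64, 66, 70, 71, 75]]
  iv := List.flatten [[((170, 0, 240, 50), [(0, (170, -50, 290, 50)), (6, (0, 50, -50, 0))], (16, 0, 4, 0), 1),
    ((270, -50, 290, 50), [(0, (270, -50, 290, 50))], (-11, 0, -60000, 0), 1),
    ((270, 0, 240, 50), [(0, (270, -50, 290, 50)), (6, (0, 50, -50, 0))], (27, 0, -59911, 0), 1),
    ((270, 0, 240, 50), [(0, (270, -50, 290, 50)), (6, (0, 50, -50, 0))], (53, 0, -59912, 0), 1),
    ((370, -50, 290, 50), [(0, (370, -50, 290, 50))], (-23, 0, -60000, 0), 1),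
    ((370, 0, 240, 50), [(0, (370, -50, 290, 50)), (6, (0, 50, -50, 0))], (64, 0, -59827, 0), 1),
    ((470, -50, 290, 50), [(0, (470, -50, 290, 50))], (-34, 0, -60000, 0), 1),
    ((370, 0, 240, 50), [(0, (370, -50, 290, 50)), (6, (0, 50, -50, 0))], (89, 0, -59828, 0), 1),
    ((470, 0, 240, 50), [(0, (470, -50, 290, 50)), (6, (0, 50, -50, 0))], (101, 0, -59743, 0), 1),
    ((570, -50, 290, 50), [(0, (570, -50, 290, 50))], (-46, 0, -60000, 0), 1),
    ((470, 0, 240, 50), [(0, (470, -50, 290, 50)), (6, (0, 50, -50, 0))], (126, 0, -59745, 0), 1),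
    ((670, 50, 390, 150), [(0, (670, -50, 290, 150)), (6, (0, 100, 100, 0))], (1029, 0, -24778, 0), 1),
    ((570, 0, 240, 50), [(0, (570, -50, 290, 50)), (6, (0, 50, -50, 0))], (138, 0, -59659, 0), 1),
    ((770, 0, 340, 50), [(0, (770, -50, 290, 50)), (6, (0, 50, 50, 0))], (-368, 0, -26285, 0), 1),
    ((570, 0, 240, 50), [(0, (570, -50, 290, 50)), (6, (0, 50, -50, 0))], (163, 0, -59661, 0), 1),
    ((720, 50, 390, 100), [(0, (720, -50, 290, 100)), (6, (0, 100, 100, 0))], (-60000, 0, -60000, 0), 1),
    ((670, -50, 290, 50), [(0, (670, -50, 290, 50))], (-57, 0, -60000, 0), 1),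
    ((770, 50, 390, 150), [(0, (770, -50, 290, 150)), (6, (0, 100, 100, 0))], (1018, 0, 11, 0), 1),
    ((670, 100, 340, 150), [(0, (670, -50, 290, 150)), (6, (0, 150, 50, 0))], (1474, 0, -24030, 0), 1),
    ((770, 50, 390, 50), [(0, (770, -50, 290, 50)), (6, (0, 100, 100, 0))], (-692, 0, -25746, 0), 1),
    ((770, -50, 290, 50), [(0, (770, -50, 290, 50))], (-69, 0, -26781, 0), 1),
    ((670, 0, 240, 50), [(0, (670, -50, 290, 50)), (6, (0, 50, -50, 0))], (175, 0, -59575, 0), 1),
    ((720, 100, 340, 100), [(0, (720, -50, 290, 100)), (6, (0, 150, 50, 0))], (-59617, 0, -59315, 0), 1),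
    ((770, 50, 290, 50), [(0, (770, -50, 290, 50)), (6, (0, 100, 0, 0))], (-36, 0, -25734, 0), 1),
    ((720, 100, 340, 100), [(0, (720, -50, 290, 100)), (6, (0, 150, 50, 0))], (-59601, 0, -59338, 0), 1),
    ((770, 0, 240, 50), [(0, (770, -50, 290, 50)), (6, (0, 50, -50, 0))], (237, 0, -26274, 0), 1),
    ((670, 0, 240, 50), [(0, (670, -50, 290, 50)), (6, (0, 50, -50, 0))], (200, 0, -59577, 0), 1),
    ((770, 100, 340, 150), [(0, (770, -50, 290, 150)), (6, (0, 150, 50, 0))], (1486, 0, 845, 0), 1),
    ((907, 0, 562, 0), [(0, (907, 0, 562, 0))], (-60000, 0, -60000, 0), 1),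
    ((770, 100, 340, 50), [(0, (770, -50, 290, 50)), (6, (0, 150, 50, 0))], (-361, 0, -25149, 0), 1)],
    [((770, 50, 290, 50), [(0, (770, -50, 290, 50)), (6, (0, 100, 0, 0))], (-62, 0, -25733, 0), 1),
    ((770, 0, 240, 50), [(0, (770, -50, 290, 50)), (6, (0, 50, -50, 0))], (212, 0, -26272, 0), 1)]]
  js := []
  ce := [⟨14, 9, 1, 1, [],
    [((0, 2), (0, 2), 1, 0), ((2, 0), (5, 2), 1, 2), ((8, 2), (8, 2), 1, 0),
    ((12, 0), (15, 2), 1, 2), ((19, 2), (19, 2), 1, 0), ((16, 0), (20, 2), 1, 2),
    ((23, 2), (23, 2), 1, 0), ((24, 0), (27, 2), 1, 2), ((31, 2), (31, 2), 1, 0),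
    ((37, 0), (44, 2), 1, 2), ((53, 2), (53, 2), 1, 0), ((49, 0), (61, 2), 1, 2),
    ((60, 2), (60, 2), 1, 0), ((48, 0), (59, 2), 1, 2), ((57, 2), (57, 2), 1, 0),
    ((46, 0), (56, 2), 1, 2), ((47, 1), (58, 2), 1, 2), ((55, 2), (55, 2), 1, 0),
    ((38, 1), (45, 2), 1, 2), ((41, 0), (50, 2), 1, 2), ((42, 1), (51, 2), 1, 2)],
    0x808080808080808080808081818081818180818081808180808180818080818080818181818180808080808080808080⟩]

theorem ok8 : allOk 8 d8 = true := by decide +kernel

/-- Tile 9. -/
def d9 : TDa where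
  l := List.flatten [[(4, 16, 3, true, true, false), (4, 5, 16, false, false, true), (16, 17, 3, false, true, true),
    (5, 17, 16, false, false, false), (3, 17, 18, true, false, true),
    (5, 19, 17, false, true, false), (17, 19, 18, true, true, false),
    (18, 20, 3, false, false, true), (5, 21, 19, false, false, false),
    (19, 21, 18, false, true, true), (18, 22, 20, true, false, false),
    (2, 3, 20, false, false, false), (5, 6, 21, false, false, false),
    (18, 21, 22, true, false, true), (22, 23, 20, false, false, false),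
    (20, 24, 2, false, false, false), (6, 25, 21, false, true, false),
    (21, 25, 22, true, true, false), (26, 23, 22, false, false, true),
    (20, 23, 27, false, true, true), (20, 28, 24, true, false, false),
    (1, 2, 24, false, false, false), (6, 29, 25, false, false, false),
    (25, 29, 22, false, true, true), (30, 23, 26, false, false, false),
    (22, 29, 26, true, false, true), (23, 30, 27, false, true, true),
    (31, 20, 27, false, true, true), (31, 28, 20, true, true, false),
    (32, 24, 28, true, false, true)],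
    [(1, 24, 15, false, false, false), (33, 29, 6, true, false, false),
    (26, 34, 30, true, false, false), (29, 33, 26, true, true, false),
    (30, 35, 27, true, false, true), (32, 31, 27, true, true, false),
    (32, 28, 31, true, true, true), (36, 24, 32, true, true, false),
    (37, 15, 24, true, false, false), (0, 1, 15, false, false, false),
    (6, 38, 33, false, false, false), (26, 38, 34, true, false, true),
    (34, 35, 30, false, true, false), (33, 38, 26, false, true, true),
    (27, 35, 39, false, false, true), (32, 27, 39, false, true, true),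
    (40, 24, 36, true, true, true), (36, 32, 39, false, true, true),
    (15, 37, 14, true, false, true), (41, 37, 24, false, false, false),
    (6, 42, 38, false, true, false), (38, 42, 34, true, true, false),
    (34, 43, 35, false, true, false), (35, 44, 39, true, false, false),
    (40, 45, 24, false, false, true), (40, 36, 39, true, true, false),
    (37, 46, 14, true, true, false), (37, 41, 46, false, true, true),
    (41, 24, 47, false, false, true), (6, 7, 42, false, false, false)],
    [(42, 48, 34, false, true, true), (34, 49, 43, true, false, false),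
    (35, 43, 44, true, false, true), (44, 50, 39, true, true, false),
    (45, 40, 51, false, true, true), (52, 24, 45, false, false, true),
    (51, 40, 39, true, false, true), (14, 46, 53, true, false, false),
    (41, 47, 46, true, false, true), (47, 24, 54, false, false, false),
    (7, 48, 42, false, false, false), (34, 48, 49, true, false, true),
    (55, 43, 49, false, false, true), (44, 43, 50, false, true, true),
    (50, 56, 39, true, false, true), (52, 45, 51, true, true, false),
    (54, 24, 52, false, false, true), (39, 56, 51, false, false, true),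
    (57, 53, 46, true, false, true), (13, 14, 53, false, false, false),
    (47, 57, 46, true, true, false), (47, 54, 57, false, true, true),
    (7, 58, 48, false, true, false), (48, 58, 49, true, true, false),
    (55, 59, 43, false, false, false), (49, 60, 55, true, false, true),
    (43, 59, 50, false, true, true), (50, 59, 56, true, false, true),
    (52, 51, 53, false, true, false), (54, 52, 57, true, false, true)],
    [(53, 51, 56, true, false, false), (52, 53, 57, false, true, false),
    (12, 13, 53, false, false, false), (60, 58, 7, false, false, false),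
    (58, 60, 49, false, true, true), (55, 61, 59, true, false, false),
    (60, 62, 55, true, true, false), (59, 63, 56, true, true, false),
    (53, 56, 64, false, true, false), (53, 64, 12, false, false, false),
    (8, 60, 7, false, false, false), (55, 65, 61, true, false, true),
    (61, 66, 59, false, false, false), (60, 67, 62, false, false, true),
    (62, 65, 55, false, true, true), (59, 66, 63, false, false, true),
    (63, 68, 56, false, true, true), (56, 68, 64, true, false, true),
    (64, 69, 12, true, true, false), (8, 9, 60, false, false, false),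
    (65, 70, 61, true, true, false), (10, 66, 61, false, false, true),
    (9, 67, 60, true, false, false), (62, 67, 65, false, true, false),
    (68, 63, 66, false, false, false), (68, 69, 64, true, true, false),
    (69, 11, 12, true, false, true), (65, 67, 70, true, true, true),
    (70, 9, 61, false, true, true), (10, 11, 66, false, false, false)],
    [(61, 9, 10, true, false, true), (9, 70, 67, false, true, true),
    (68, 66, 69, false, true, true), (66, 11, 69, false, true, true)]]
  q := List.flatten [[(39988900, 381228), (39955600, 1524911), (37108622, 4351993), (42680477, 2891335),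
    (27981434, 7628487), (43657685, 5688436), (38376537, 8378788), (33689070, 10721635),
    (15575909, 11383855), (43780475, 8508502), (39330797, 11785676), (28506439, 12445224),
    (22995112, 10581306), (43087676, 9966785), (34250142, 13370001), (25581218, 10793580),
    (22841888, 12519301), (43950570, 11160958), (38577778, 16010196), (31146626, 15887275),
    (20337952, 13715554), (7092293, 14600890), (43383808, 12891371), (24054696, 16196290),
    (18879315, 14762768), (10956506, 14514747), (45059895, 15500026), (32743085, 19503205),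
    (28747619, 17798734), (16673134, 14977469)],
    [(8929052, 17105846), (12228769, 14968396), (43337889, 18598565), (39369982, 20545446),
    (27046067, 19608167), (17754884, 17540669), (14482428, 16222585), (11208262, 21595987),
    (13593897, 14882474), (35860055, 23618927), (21231469, 21488917), (12088481, 16955058),
    (43681791, 20937158), (28453469, 23053689), (42019292, 24604623), (33330217, 26618024),
    (38371032, 25161084), (23932444, 23991152), (16388040, 25050808), (36733306, 25846421),
    (25030943, 26547429), (38871476, 26574366), (21013894, 24874573), (18486575, 27294562),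
    (37233750, 27259703)]]
  par := List.flatten [[0, 0, 0, 1, 2, 3, 4, 4, 5, 6, 7, 7, 8, 9, 10, 11, 12, 13, 14, 14, 15, 15, 16, 17, 18, 18, 19,
    19, 20, 20],
    [21, 22, 24, 25, 26, 27, 28, 29, 30, 30, 31, 32, 32, 33, 34, 35, 37, 37, 38, 38, 40, 41, 42, 44,
    46, 46, 48, 49, 49, 50],
    [51, 52, 52, 53, 54, 54, 55, 56, 57, 58, 59, 60, 61, 62, 63, 64, 65, 66, 67, 67, 68, 69, 70, 71,
    72, 72, 73, 74, 75, 76],
    [77, 78, 79, 82, 83, 84, 85, 87, 90, 92, 93, 95, 95, 96, 96, 97, 97, 98, 99, 100, 101, 102, 103,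
    103, 105, 107, 108, 110, 110, 111],
    [111, 112, 114, 116]]
  iv := List.flatten [[((770, 100, -140, 50), [(0, (770, -50, -290, 50)), (6, (0, 150, 150, 0))], (-2, 0, 9, 0), 1),
    ((770, 100, -40, 50), [(0, (770, -50, -290, 50)), (6, (0, 150, 250, 0))], (-16, 0, 15, 0), 1),
    ((770, 50, 10, 50), [(0, (770, -50, -290, 50)), (6, (0, 100, 300, 0))], (-35, 0, -6, 0), 1),
    ((770, 100, -40, 50), [(0, (770, -50, -290, 50)), (6, (0, 150, 250, 0))], (-24, 0, 27, 0), 1),
    ((470, 100, 140, 50), [(0, (470, -50, 290, 50)), (7, (0, 150, -150, 0))], (449, 0, -59489, 0), 1),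
    ((770, 100, 60, 50), [(0, (770, -50, -290, 50)), (6, (0, 150, 350, 0))], (-65, 0, 33, 0), 1),
    ((770, 50, 110, 50), [(0, (770, -50, -290, 50)), (6, (0, 100, 400, 0))], (-99, 0, -13, 0), 1),
    ((470, 150, 190, 50), [(0, (470, -50, 290, 50)), (7, (0, 200, -100, 0))], (287, 0, -59195, 0), 1),
    ((474, 0, 312, 0), [(0, (474, 0, 312, 0))], (-60000, 0, -60000, 0), 1),
    ((770, 100, 60, 50), [(0, (770, -50, -290, 50)), (6, (0, 150, 350, 0))], (-73, 0, 45, 0), 1),
    ((770, 50, 210, 50), [(0, (770, -50, -290, 50)), (6, (0, 100, 500, 0))], (-190, 0, -19, 0), 1),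
    ((470, 100, 240, 50), [(0, (470, -50, 290, 50)), (7, (0, 150, -50, 0))], (121, 0, -59495, 0), 1),
    ((570, 0, 266, 0), [(0, (570, 0, 266, 0))], (-60000, 0, -60000, 0), 1),
    ((770, 100, 160, 50), [(0, (770, -50, -290, 50)), (6, (0, 150, 450, 0))], (-143, 0, 51, 0), 1),
    ((470, 150, 290, 50), [(0, (470, -50, 290, 50)), (7, (0, 200, 0, 0))], (-2006, 0, -59189, 0), 1),
    ((470, 50, 190, 50), [(0, (470, -50, 290, 50)), (7, (0, 100, -100, 0))], (300, 0, -59734, 0), 1),
    ((470, 50, 190, 50), [(0, (470, -50, 290, 50)), (7, (0, 100, -100, 0))], (260, 0, -59749, 0), 1),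
    ((770, 100, 160, 50), [(0, (770, -50, -290, 50)), (6, (0, 150, 450, 0))], (-150, 0, 63, 0), 1),
    ((770, 50, 310, 50), [(0, (770, -50, -290, 50)), (6, (0, 100, 600, 0))], (-310, 0, -25, 0), 1),
    ((470, 150, 290, 50), [(0, (470, -50, 290, 50)), (7, (0, 200, 0, 0))], (-541, 0, -58336, 0), 1),
    ((470, 0, 240, 50), [(0, (470, -50, 290, 50)), (7, (0, 50, -50, 0))], (117, 0, -59985, 0), 1),
    ((170, 0, 240, 50), [(0, (170, -50, 290, 50)), (7, (0, 50, -50, 0))], (9, 0, 2, 0), 1),
    ((770, 100, 260, 50), [(0, (770, -50, -290, 50)), (6, (0, 150, 550, 0))], (-248, 0, 69, 0), 1),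
    ((470, 50, 290, 50), [(0, (470, -50, 290, 50)), (7, (0, 100, 0, 0))], (-22, 0, -59756, 0), 1),
    ((470, 0, 240, 50), [(0, (470, -50, 290, 50)), (7, (0, 50, -50, 0))], (78, 0, -60000, 0), 1),
    ((270, 0, 240, 50), [(0, (270, -50, 290, 50)), (7, (0, 50, -50, 0))], (15, 0, -59951, 0), 1),
    ((770, 100, 260, 50), [(0, (770, -50, -290, 50)), (6, (0, 150, 550, 0))], (-256, 0, 81, 0), 1),
    ((630, 50, 370, 50), [(0, (530, -50, 370, 50)), (7, (100, 100, 0, 0))], (-41788, 0, -27595, 0), 1),
    ((570, 50, 290, 50), [(0, (470, -50, 290, 50)), (7, (100, 100, 0, 0))], (-16, 0, -58932, 0), 1),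
    ((370, 0, 240, 50), [(0, (370, -50, 290, 50)), (7, (0, 50, -50, 0))], (72, 0, -59895, 0), 1)],
    [((270, -50, 290, 50), [(0, (270, -50, 290, 50))], (-6, 0, -60000, 0), 1),
    ((270, 0, 240, 50), [(0, (270, -50, 290, 50)), (7, (0, 50, -50, 0))], (31, 0, -59949, 0), 1),
    ((770, 100, 360, 50), [(0, (770, -50, -290, 50)), (6, (0, 150, 650, 0))], (-382, 0, 87, 0), 1),
    ((770, 50, 410, 50), [(0, (770, -50, -290, 50)), (6, (0, 100, 700, 0))], (-457, 0, -31, 0), 1),
    ((530, 50, 370, 50), [(0, (530, -50, 370, 50)), (7, (0, 100, 0, 0))], (-41782, 0, -28444, 0), 1),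
    ((370, 50, 290, 50), [(0, (370, -50, 290, 50)), (7, (0, 100, 0, 0))], (-16, 0, -59765, 0), 1),
    ((370, 0, 240, 50), [(0, (370, -50, 290, 50)), (7, (0, 50, -50, 0))], (53, 0, -59898, 0), 1),
    ((370, 0, 340, 50), [(0, (370, -50, 290, 50)), (7, (0, 50, 50, 0))], (-82, 0, -59892, 0), 1),
    ((370, 0, 240, 50), [(0, (370, -50, 290, 50)), (7, (0, 50, -50, 0))], (37, 0, -59902, 0), 1),
    ((720, 50, 410, 100), [(0, (720, -50, -290, 100)), (6, (0, 100, 700, 0))], (-60000, 0, -34416, 0), 1),
    ((530, 0, 420, 50), [(0, (530, -100, 420, 50)), (7, (0, 100, 0, 0))], (-59994, 0, -60000, 0), 1),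
    ((370, -50, 290, 50), [(0, (370, -50, 290, 50))], (-13, 0, -60000, 0), 1),
    ((770, 100, 360, 50), [(0, (770, -50, -290, 50)), (6, (0, 150, 650, 0))], (-389, 0, 99, 0), 1),
    ((630, 0, 420, 50), [(0, (530, -100, 420, 50)), (7, (100, 100, 0, 0))], (-59987, 0, -59105, 0), 1),
    ((720, 100, 360, 100), [(0, (720, -50, -290, 100)), (6, (0, 150, 650, 0))], (-59898, 0, -34251, 0), 1),
    ((670, 50, 410, 150), [(0, (670, -50, -290, 150)), (6, (0, 100, 700, 0))], (669, 0, 605, 0), 1),
    ((720, 100, 360, 100), [(0, (720, -50, -290, 100)), (6, (0, 150, 650, 0))], (-59910, 0, -34237, 0), 1),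
    ((630, 0, 420, 50), [(0, (530, -100, 420, 50)), (7, (100, 100, 0, 0))], (-60000, 0, -59098, 0), 1),
    ((530, -50, 470, 50), [(0, (530, -150, 470, 50)), (7, (0, 100, 0, 0))], (-18565, 0, 11744, 0), 1),
    ((670, 100, 360, 150), [(0, (670, -50, -290, 150)), (6, (0, 150, 650, 0))], (803, 0, 823, 0), 1),
    ((680, -50, 470, 100), [(0, (530, -150, 470, 50)), (7, (150, 100, 0, 50))], (870, 0, 1483, 0), 1),
    ((855, 0, 629, 0), [(0, (855, 0, 629, 0))], (-60000, 0, -60000, 0), 1),
    ((630, -50, 470, 50), [(0, (530, -150, 470, 50)), (7, (100, 100, 0, 0))], (-18558, 0, 12693, 0), 1),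
    ((580, -50, 470, 100), [(0, (530, -150, 470, 50)), (7, (50, 100, 0, 50))], (876, 0, 513, 0), 1),
    ((670, 100, 360, 150), [(0, (670, -50, -290, 150)), (6, (0, 150, 650, 0))], (769, 0, 850, 0), 1)]]
  js := []
  ce := [⟨3, 9, 1, -1, [],
    [((0, 2), (0, 2), 1, 0), ((4, 1), (2, 2), 1, 2), ((6, 2), (6, 2), 1, 0),
    ((13, 1), (9, 2), 1, 2), ((17, 2), (17, 2), 1, 0), ((25, 1), (23, 2), 1, 2),
    ((33, 2), (33, 2), 1, 0), ((41, 1), (43, 2), 1, 2), ((51, 2), (51, 2), 1, 0),
    ((71, 1), (60, 2), 1, 2), ((83, 2), (83, 2), 1, 0), ((85, 1), (94, 2), 1, 2),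
    ((96, 2), (96, 2), 1, 0), ((101, 1), (104, 2), 1, 2), ((110, 2), (110, 2), 1, 0),
    ((120, 1), (118, 2), 1, 2)],
    0x7f80807f807f80807f807f807f8080808080808080807f80808080807f8080807f808080807f8080807f8080807f8080807f807f807f7f8080808080807f7f7f7f7f7f80808080⟩,
    ⟨14, 11, 6, 5, [],
    List.flatten [[((48, 2), (48, 2), 6, 0), ((56, 0), (57, 2), 6, 2), ((68, 2), (68, 2), 6, 0),
    ((80, 0), (81, 2), 6, 2), ((89, 2), (89, 2), 6, 0), ((91, 0), (91, 2), 2, 1),
    ((91, 0), (91, 1), 2, 1), ((88, 0), (88, 2), 2, 1), ((88, 0), (88, 1), 2, 1),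
    ((75, 2), (75, 2), 6, 0), ((66, 1), (64, 2), 6, 2), ((55, 2), (55, 2), 6, 0),
    ((47, 0), (47, 2), 1, 1), ((47, 1), (47, 2), 1, 1), ((45, 0), (45, 2), 1, 1),
    ((45, 1), (45, 2), 1, 1), ((45, 0), (47, 2), 3, 2), ((35, 2), (35, 2), 3, 0),
    ((27, 0), (27, 2), 1, 1), ((27, 1), (27, 2), 1, 1), ((19, 0), (19, 2), 1, 1),
    ((19, 1), (19, 2), 1, 1), ((26, 0), (26, 2), 1, 1), ((26, 1), (26, 2), 1, 1),
    ((34, 2), (34, 2), 3, 0), ((44, 1), (44, 2), 3, 1), ((53, 2), (53, 2), 6, 0),
    ((63, 0), (73, 2), 6, 2), ((87, 1), (86, 2), 6, 2), ((97, 2), (97, 2), 6, 0)],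
    [((107, 1), (106, 2), 6, 2), ((115, 0), (122, 2), 6, 2), ((116, 1), (123, 2), 6, 2)]],
    0x8086808080808680808080808086868080868086868080808680808080808086808080808080808080808083808080808080808080808080868686808080808080808080808080⟩]

theorem ok9 : allOk 9 d9 = true := by decide +kernel

/-- Tile 10. -/
def d10 : TDa where
  l := List.flatten [[(16, 17, 18, true, true, false), (16, 18, 19, false, true, false),
    (16, 19, 20, false, true, true), (20, 19, 21, true, true, true),
    (19, 22, 21, false, false, true), (19, 18, 22, true, false, false),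
    (23, 17, 16, false, true, true), (18, 17, 24, true, true, true),
    (25, 16, 20, true, true, false), (26, 20, 21, false, true, true),
    (27, 21, 22, true, false, true), (28, 22, 18, true, false, true),
    (24, 17, 23, true, false, true), (23, 16, 29, true, true, false),
    (30, 18, 24, true, true, false), (25, 31, 16, false, true, true),
    (20, 32, 25, true, false, false), (32, 20, 26, true, false, true),
    (26, 21, 33, true, true, true), (21, 27, 33, true, true, true),
    (34, 27, 22, true, true, false), (22, 28, 35, true, true, true),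
    (30, 28, 18, false, true, true), (24, 23, 36, true, false, true),
    (29, 16, 31, true, true, true), (37, 23, 29, true, false, true),
    (38, 30, 24, true, false, true), (39, 31, 25, true, false, true),
    (39, 25, 32, true, false, false), (40, 32, 26, true, true, false)],
    [(40, 26, 33, false, true, true), (41, 33, 27, true, true, true),
    (42, 27, 34, false, true, true), (34, 22, 43, false, false, true),
    (28, 30, 35, false, false, true), (22, 35, 44, true, true, true),
    (36, 23, 37, false, true, true), (36, 45, 24, true, true, true),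
    (46, 29, 31, false, true, true), (37, 29, 47, true, false, false),
    (35, 30, 38, false, true, true), (38, 24, 45, true, true, false),
    (48, 31, 39, true, true, false), (48, 39, 32, false, false, false),
    (41, 32, 40, false, true, true), (41, 40, 33, true, true, true),
    (49, 41, 27, false, true, false), (50, 27, 42, true, false, true),
    (42, 34, 51, true, true, true), (22, 44, 43, true, false, false),
    (43, 51, 34, true, true, true), (44, 35, 38, true, true, false),
    (45, 36, 37, true, true, false), (46, 15, 29, true, false, false),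
    (48, 46, 31, false, true, true), (47, 29, 15, false, false, false),
    (47, 52, 37, true, true, false), (38, 45, 53, false, false, false),
    (54, 48, 32, true, false, false), (55, 32, 41, true, false, true)],
    [(49, 55, 41, true, true, false), (49, 27, 56, false, false, false),
    (56, 27, 50, false, true, true), (57, 50, 42, true, true, false),
    (57, 42, 51, false, true, true), (43, 44, 58, false, true, true),
    (43, 59, 51, false, false, true), (58, 44, 38, true, false, true),
    (52, 45, 37, true, false, true), (60, 15, 46, false, true, true),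
    (54, 46, 48, true, false, true), (0, 47, 15, false, false, false),
    (61, 52, 47, true, true, false), (53, 45, 52, false, true, true),
    (38, 53, 62, false, false, false), (60, 54, 32, false, false, false),
    (32, 55, 12, true, false, false), (63, 55, 49, false, true, true),
    (49, 56, 63, false, false, true), (50, 64, 56, true, true, true),
    (65, 50, 57, false, true, true), (65, 57, 51, true, true, true),
    (66, 43, 58, false, true, true), (66, 59, 43, true, false, false),
    (51, 59, 67, false, true, false), (58, 38, 62, true, false, true),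
    (14, 15, 60, true, false, true), (60, 46, 54, true, true, false),
    (1, 47, 0, true, false, false), (61, 53, 52, false, true, true)],
    [(1, 61, 47, true, false, true), (68, 62, 53, true, false, false),
    (60, 32, 12, false, false, false), (69, 12, 55, true, false, true),
    (69, 55, 63, true, false, true), (70, 63, 56, false, false, false),
    (64, 50, 65, true, false, true), (71, 56, 64, false, true, true),
    (72, 65, 51, false, true, false), (73, 66, 58, true, true, false),
    (66, 73, 59, true, true, true), (67, 59, 74, true, true, true),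
    (72, 51, 67, false, false, false), (62, 73, 58, true, false, true),
    (13, 14, 60, false, true, false), (75, 53, 61, false, false, false),
    (75, 61, 1, false, true, true), (68, 67, 62, true, false, true),
    (68, 53, 3, false, false, true), (12, 13, 60, false, false, false),
    (12, 69, 76, true, false, true), (70, 69, 63, true, true, false),
    (70, 56, 77, false, true, false), (72, 64, 65, true, true, false),
    (78, 56, 71, true, false, true), (71, 64, 72, true, true, false),
    (74, 59, 73, true, true, false), (67, 74, 62, true, true, false),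
    (6, 72, 67, false, false, false), (74, 73, 62, false, true, true)],
    [(2, 53, 75, false, false, true), (2, 75, 1, true, true, false),
    (79, 67, 68, false, true, true), (2, 3, 53, false, false, false),
    (3, 80, 68, true, false, true), (76, 69, 81, false, true, true),
    (82, 12, 76, true, true, false), (81, 69, 70, true, true, false),
    (77, 56, 83, true, false, true), (77, 10, 70, true, false, false),
    (84, 56, 78, true, true, false), (78, 71, 85, true, true, true),
    (72, 85, 71, false, true, false), (6, 7, 72, false, false, false),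
    (5, 6, 67, false, false, false), (5, 67, 79, false, false, false),
    (80, 79, 68, true, true, false), (86, 80, 3, false, true, true),
    (76, 81, 87, true, true, true), (11, 12, 82, false, true, true),
    (82, 76, 87, false, true, false), (81, 70, 87, false, true, true),
    (83, 56, 84, false, true, true), (88, 77, 83, true, true, false),
    (10, 77, 89, true, false, true), (10, 11, 70, false, false, false),
    (84, 78, 85, false, true, true), (7, 85, 72, false, false, false),
    (5, 79, 80, false, true, false), (5, 80, 86, false, false, false)],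
    [(4, 86, 3, true, true, false), (82, 70, 11, false, false, true),
    (82, 87, 70, false, true, false), (83, 84, 85, true, true, true),
    (89, 77, 88, false, true, true), (88, 83, 85, false, true, true),
    (90, 10, 89, true, true, false), (89, 85, 7, true, false, false),
    (4, 5, 86, false, false, true), (88, 85, 89, true, true, true), (9, 10, 90, false, true, true),
    (90, 89, 8, false, false, false), (8, 89, 7, false, false, false),
    (8, 9, 90, false, true, false)]]
  q := List.flatten [[(16032066, 13647382), (17765629, 11951296), (19810903, 12576995), (19280307, 14515338),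
    (17064359, 16361325), (20325435, 16320012), (23168772, 13670974), (16022990, 10976894),
    (19196555, 10603913), (14636229, 16332952), (17907854, 17808804), (24499772, 17527276),
    (21825825, 12312000), (11096194, 11351935), (21407171, 11338062), (12579916, 15112324),
    (14204261, 19543462), (20031547, 18036357), (27184064, 14543113), (22916452, 11661968),
    (17225019, 9622725), (14822476, 8684115), (23286121, 9535435), (13300543, 17000268),
    (17913668, 18782863), (19511008, 19742829), (28768526, 15757479), (27781815, 12128691),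
    (24894371, 11453370), (18858053, 8225980)],
    [(8632699, 15329072), (9583213, 5713756), (11781766, 17012333), (22623674, 21128141),
    (29748205, 17371626), (31701434, 13631146), (16149387, 6213399), (22468762, 4696294),
    (10191409, 18076541), (17793127, 23438875), (29136719, 21174954), (30709156, 15714233),
    (27318697, 10269784), (31200892, 10632777), (6146910, 20421296), (15014432, 3746847),
    (29228909, 8034109), (22177744, 23756769), (32756596, 17959132), (32618459, 16096682),
    (29004474, 10699670), (37171652, 8368917), (32811155, 4400093), (18242075, 26462048),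
    (23093123, 26579828), (34102692, 19345124), (38176906, 15807274), (29716492, 9767430),
    (31829486, 9200808), (16870798, 2110785)],
    [(16975553, 27890619), (31645879, 24833633), (33378825, 20727072), (39596083, 3614050),
    (38401524, 1687188), (19412906, 27106198), (17881910, 28392549), (33265926, 22364873),
    (33211472, 21331022), (37064416, 21057189), (39600381, 421797), (19340873, 27492299),
    (35271146, 23427568), (39108362, 25454576), (39777090, 28863644)]]
  par := List.flatten [[0, 0, 1, 2, 3, 1, 0, 0, 2, 3, 4, 5, 6, 6, 7, 8, 8, 9, 9, 10, 10, 11, 11, 12, 13, 13, 14, 15,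
    16, 17],
    [18, 19, 20, 20, 21, 21, 23, 23, 24, 25, 26, 26, 27, 28, 29, 30, 31, 32, 32, 33, 33, 35, 36, 38,
    38, 39, 39, 41, 43, 44],
    [46, 46, 47, 47, 48, 49, 50, 51, 52, 53, 54, 55, 56, 57, 57, 58, 59, 60, 61, 62, 63, 64, 65, 66,
    66, 67, 69, 69, 71, 72],
    [72, 74, 75, 76, 77, 78, 79, 79, 81, 82, 83, 84, 84, 85, 86, 89, 90, 91, 91, 92, 93, 94, 95, 96,
    97, 97, 100, 101, 102, 103],
    [105, 106, 107, 108, 108, 110, 110, 111, 112, 112, 114, 114, 115, 118, 118, 122, 122, 124, 125,
    126, 126, 127, 128, 128, 129, 129, 130, 132, 135, 137],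
    [137, 139, 140, 142, 143, 143, 144, 147, 149, 154, 156, 156, 157, 160]]
  iv := List.flatten [[((470, -50, 290, 50), [(0, (470, -50, 290, 50))], (-1926, 0, 45873, 0), 5),
    ((570, -50, 290, 50), [(0, (470, -50, 290, 50)), (7, (100, 0, 0, 0))], (-2569, 0, 60000, 0), 5),
    ((470, 50, 290, 50), [(0, (470, -50, 290, 50)), (3, (0, 50, 50, 0)), (4, (0, 50, 50, 0)), (5, (0, 50, -50, 0)), (6, (0, -50, -50, 0))], (19689, 0, -60000, 0), 5),
    ((600, -50, 340, 50), [(0, (600, -50, 340, 50))], 0, 5),
    ((470, 0, 340, 50), [(0, (470, -50, 290, 50)), (3, (0, 50, 50, 0))], (5670, 0, 31431, 0), 5),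
    ((470, 50, 390, 50), [(0, (470, -50, 290, 50)), (3, (0, 50, 50, 0)), (4, (0, 50, 50, 0))], (21085, 0, 3448, 0), 5),
    ((470, 100, 340, 50), [(0, (470, -50, 290, 50)), (3, (0, 50, 50, 0)), (4, (0, 50, 50, 0)), (5, (0, 50, -50, 0))], (2813, 0, -29484, 0), 5),
    ((510, -50, 210, 50), [(0, (470, -150, 130, -50)), (7, (100, 100, 0, 100)), (11, (1, 0, 0, 0))], (41652, 0, 26032, 0), 5),
    ((410, 50, 210, 50), [(0, (470, -50, -870, 50)), (6, (0, 100, 1000, 0)), (10, (1, 0, 0, 0))], (-46582, 0, -9494, 0), 5),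
    ((370, 0, 340, 50), [(0, (370, -50, 290, 50)), (3, (0, 50, 50, 0))], (5028, 0, -59914, 0), 5),
    ((470, 50, 390, 50), [(0, (470, -50, 290, 50)), (3, (0, 50, 50, 0)), (4, (0, 50, 50, 0))], (21718, 0, 4920, 0), 5),
    ((570, 50, 390, 50), [(0, (570, -50, 290, 50)), (3, (0, 50, 50, 0)), (4, (0, 50, 50, 0))], (20443, 0, -31860, 0), 5),
    ((470, 100, 340, 50), [(0, (470, -50, 290, 50)), (3, (0, 50, 50, 0)), (4, (0, 50, 50, 0)), (5, (0, 50, -50, 0))], (2022, 0, -30683, 0), 5),
    ((410, -50, 210, 50), [(0, (470, -150, 130, -50)), (7, (0, 100, 0, 100)), (11, (1, 0, 0, 0))], (41010, 0, 14473, 0), 5),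
    ((410, 100, 260, 50), [(0, (470, -50, -870, 50)), (6, (0, 150, 1050, 0)), (10, (1, 0, 0, 0))], (-60000, 0, 15031, 0), 5),
    ((370, -50, 290, 50), [(0, (370, -50, 290, 50))], (-1284, 0, -50265, 0), 5),
    ((530, 0, 420, 50), [(0, (470, -50, 550, 50)), (4, (0, 50, -50, 0)), (8, (1, 0, 0, 0))], (-33491, 0, 60000, 0), 5),
    ((612, 0, 504, 0), [(0, (612, 0, 504, 0))], (-60000, 0, -60000, 0), 5),
    ((570, 100, 340, 50), [(0, (570, -50, 290, 50)), (3, (0, 50, 50, 0)), (4, (0, 50, 50, 0)), (5, (0, 50, -50, 0))], (3455, 0, -60000, 0), 5),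
    ((510, 100, 260, 50), [(0, (570, -50, -870, 50)), (6, (0, 150, 1050, 0)), (10, (1, 0, 0, 0))], (-59358, 0, -40269, 0), 5),
    ((570, -50, 130, 50), [(0, (530, -150, 50, -50)), (7, (100, 100, 0, 100)), (11, (1, 0, 0, 0))], (-60000, 0, -51010, 0), 5),
    ((470, -50, 130, 50), [(0, (530, -150, 50, -50)), (7, (0, 100, 0, 100)), (11, (1, 0, 0, 0))], (-59358, 0, -60000, 0), 5),
    ((510, 50, 210, 50), [(0, (570, -50, -870, 50)), (6, (0, 100, 1000, 0)), (10, (1, 0, 0, 0))], (-47224, 0, -60000, 0), 5),
    ((370, 0, 340, 50), [(0, (370, -50, 290, 50)), (3, (0, 50, 50, 0))], (3595, 0, -60000, 0), 5),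
    ((530, 50, 470, 50), [(0, (470, -50, 550, 50)), (4, (0, 100, 0, 0)), (8, (1, 0, 0, 0))], (-23017, 0, 39274, 0), 5),
    ((530, 50, 470, 50), [(0, (470, -50, 550, 50)), (4, (0, 100, 0, 0)), (8, (1, 0, 0, 0))], (-21663, 0, 40798, 0), 5),
    ((570, 100, 340, 50), [(0, (570, -50, 290, 50)), (3, (0, 50, 50, 0)), (4, (0, 50, 50, 0)), (5, (0, 50, -50, 0))], (5025, 0, -59848, 0), 5),
    ((610, 100, 260, 50), [(0, (670, -50, -870, 50)), (6, (0, 150, 1050, 0)), (10, (1, 0, 0, 0))], (-57282, 0, 22038, 0), 5),
    ((510, 100, 260, 50), [(0, (570, -50, -870, 50)), (6, (0, 150, 1050, 0)), (10, (1, 0, 0, 0))], (-57925, 0, -40182, 0), 5),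
    ((570, -50, 130, 50), [(0, (530, -150, 50, -50)), (7, (100, 100, 0, 100)), (11, (1, 0, 0, 0))], (-58716, 0, -51652, 0), 5)],
    [((270, -50, 290, 50), [(0, (270, -50, 290, 50))], (-642, 0, -54972, 0), 5),
    ((470, -50, -30, 50), [(0, (470, -150, -30, -50)), (7, (0, 100, 0, 100))], (-60000, 0, -45803, 0), 5),
    ((270, 0, 340, 50), [(0, (270, -50, 290, 50)), (3, (0, 50, 50, 0))], (2953, 0, -59914, 0), 5),
    ((590, 50, 550, 50), [(0, (530, -50, 630, 50)), (4, (0, 100, 0, 0)), (8, (1, 0, 0, 0))], (-26984, 0, 45590, 0), 5),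
    ((670, 50, 390, 50), [(0, (670, -50, 290, 50)), (3, (0, 50, 50, 0)), (4, (0, 50, 50, 0))], (19801, 0, -36632, 0), 5),
    ((798, 0, 391, 0), [(0, (798, 0, 391, 0))], (-60000, 0, -60000, 0), 5),
    ((530, -50, 50, 50), [(0, (530, -150, 50, -50)), (7, (0, 100, 0, 100))], (-51284, 0, -53142, 0), 5),
    ((630, -50, 50, 50), [(0, (530, -150, 50, -50)), (7, (100, 100, 0, 100))], (-51926, 0, -47363, 0), 5),
    ((270, 0, 340, 50), [(0, (270, -50, 290, 50)), (3, (0, 50, 50, 0))], (1519, 0, -60000, 0), 5),
    ((590, 0, 500, 50), [(0, (530, -50, 630, 50)), (4, (0, 50, -50, 0)), (8, (1, 0, 0, 0))], (-34562, 0, 60000, 0), 5),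
    ((710, 50, 470, 50), [(0, (770, -50, 290, 50)), (3, (0, 50, 50, 0)), (4, (0, 50, 50, 0)), (9, (-1, 0, 0, 0))], (-52194, 0, -4410, 0), 5),
    ((670, 100, 340, 50), [(0, (670, -50, 290, 50)), (3, (0, 50, 50, 0)), (4, (0, 50, 50, 0)), (5, (0, 50, -50, 0))], (5667, 0, -59827, 0), 5),
    ((610, 50, 210, 50), [(0, (670, -50, -870, 50)), (6, (0, 100, 1000, 0)), (10, (1, 0, 0, 0))], (-47867, 0, 7013, 0), 5),
    ((803, 0, 242, 0), [(0, (803, 0, 242, 0))], (-60000, 0, -60000, 0), 5),
    ((170, 0, 340, 50), [(0, (170, -50, 290, 50)), (3, (0, 50, 50, 0))], (877, 0, -235, 0), 5),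
    ((570, -50, -30, 50), [(0, (470, -150, -30, -50)), (7, (100, 100, 0, 100))], (-59358, 0, -42592, 0), 5),
    ((670, 50, 130, 50), [(0, (670, -50, -870, 50)), (6, (0, 100, 1000, 0))], (-60000, 0, -1284, 0), 5),
    ((590, 50, 550, 50), [(0, (530, -50, 630, 50)), (4, (0, 100, 0, 0)), (8, (1, 0, 0, 0))], (-26193, 0, 46789, 0), 5),
    ((770, 50, 390, 50), [(0, (770, -50, 290, 50)), (3, (0, 50, 50, 0)), (4, (0, 50, 50, 0))], (19158, 0, 49907, 0), 5),
    ((670, 100, 340, 50), [(0, (670, -50, 290, 50)), (3, (0, 50, 50, 0)), (4, (0, 50, 50, 0)), (5, (0, 50, -50, 0))], (7251, 0, -60000, 0), 5),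
    ((610, 100, 160, 50), [(0, (670, -50, -870, 50)), (6, (0, 150, 950, 0)), (10, (1, 0, 0, 0))], (-40304, 0, 21396, 0), 5),
    ((670, 100, 80, 50), [(0, (670, -50, -870, 50)), (6, (0, 150, 950, 0))], (-55230, 0, 3360, 0), 5),
    ((670, 50, 30, 50), [(0, (670, -50, -870, 50)), (6, (0, 100, 900, 0))], (-52178, 0, -642, 0), 5),
    ((650, 0, 580, 50), [(0, (590, -50, 710, 50)), (4, (0, 50, -50, 0)), (8, (1, 0, 0, 0))], (21649, 0, 17039, 0), 5),
    ((650, 50, 630, 50), [(0, (590, -50, 710, 50)), (4, (0, 100, 0, 0)), (8, (1, 0, 0, 0))], (25768, 0, 8621, 0), 5),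
    ((710, 100, 420, 50), [(0, (770, -50, 290, 50)), (3, (0, 50, 50, 0)), (4, (0, 50, 50, 0)), (5, (0, 50, -50, 0)), (9, (-1, 0, 0, 0))], (-59209, 0, -17844, 0), 5),
    ((770, 100, 340, 50), [(0, (770, -50, 290, 50)), (3, (0, 50, 50, 0)), (4, (0, 50, 50, 0)), (5, (0, 50, -50, 0))], (7893, 0, 31680, 0), 5),
    ((610, 100, 160, 50), [(0, (670, -50, -870, 50)), (6, (0, 150, 950, 0)), (10, (1, 0, 0, 0))], (-40648, 0, 18232, 0), 5),
    ((670, 100, 80, 50), [(0, (670, -50, -870, 50)), (6, (0, 150, 950, 0))], (-57032, 0, 5141, 0), 5),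
    ((630, -50, -110, 50), [(0, (530, -150, -110, -50)), (7, (100, 100, 0, 100))], (-642, 0, 642, 0), 5)],
    [((650, 0, 680, 50), [(0, (590, -50, 710, 50)), (4, (0, 50, 50, 0)), (8, (1, 0, 0, 0))], (26631, 0, 17681, 0), 5),
    ((770, 50, 550, 50), [(0, (770, -50, 1450, 50)), (5, (0, 100, -900, 0))], (-60000, 0, 642, 0), 5),
    ((710, 100, 420, 50), [(0, (770, -50, 290, 50)), (3, (0, 50, 50, 0)), (4, (0, 50, 50, 0)), (5, (0, 50, -50, 0)), (9, (-1, 0, 0, 0))], (-60000, 0, -16646, 0), 5),
    ((670, 100, -20, 50), [(0, (670, -50, -870, 50)), (6, (0, 150, 850, 0))], (-50980, 0, 2718, 0), 5),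
    ((670, 100, -20, 50), [(0, (670, -50, -870, 50)), (6, (0, 150, 850, 0))], (-50189, 0, 1519, 0), 5),
    ((650, 0, 680, 50), [(0, (590, -50, 710, 50)), (4, (0, 50, 50, 0)), (8, (1, 0, 0, 0))], (27273, 0, 12512, 0), 5),
    ((590, 0, 760, 50), [(0, (590, -50, 710, 50)), (4, (0, 50, 50, 0))], (642, 0, -1007, 0), 5),
    ((710, 100, 520, 50), [(0, (770, -50, 290, 50)), (3, (0, 50, 50, 0)), (4, (0, 50, 50, 0)), (5, (0, 50, 50, 0)), (9, (-1, 0, 0, 0))], (-46462, 0, -13053, 0), 5),
    ((710, 100, 520, 50), [(0, (770, -50, 290, 50)), (3, (0, 50, 50, 0)), (4, (0, 50, 50, 0)), (5, (0, 50, 50, 0)), (9, (-1, 0, 0, 0))], (-50288, 0, -16004, 0), 5),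
    ((899, 0, 602, 0), [(0, (899, 0, 602, 0))], (-60000, 0, -60000, 0), 5),
    ((670, 100, -120, 50), [(0, (670, -50, -870, 50)), (6, (0, 150, 750, 0))], (-235, 0, 877, 0), 5),
    ((662, 0, 770, 0), [(0, (662, 0, 770, 0))], (-60000, 0, -60000, 0), 5),
    ((770, 100, 600, 50), [(0, (770, -50, 1450, 50)), (5, (0, 150, -850, 0))], (-58518, 0, -3209, 0), 5),
    ((770, 100, 600, 50), [(0, (770, -50, 1450, 50)), (5, (0, 150, -850, 0))], (-56877, 0, -1519, 0), 5),
    ((770, 100, 700, 50), [(0, (770, -50, 1450, 50)), (5, (0, 150, -750, 0))], (-235, 0, -877, 0), 5)]]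
  js := [([(0, (0, 0, -260, 0)), (3, (0, 50, 50, 0)), (4, (0, -50, 50, 0))], (60, 0, -80, 0)),
    ([(0, (0, 0, -1160, 0)), (3, (0, 50, 50, 0)), (4, (0, 50, 50, 0)), (5, (0, -100, 900, 0))], (60, 0, -80, 0)),
    ([(0, (0, 0, 1160, 0)), (3, (0, 50, 50, 0)), (4, (0, 50, 50, 0)), (5, (0, 50, -50, 0)), (6, (0, -150, -1050, 0))], (-60, 0, 80, 0)),
    ([(0, (0, 100, 160, 100)), (7, (0, -100, 0, -100))], (-60, 0, 80, 0))]
  ce := [⟨1, 14, 1, -1, [((1, 0), 1), ((2, 0), 1)],
    [((86, 1), (86, 1), 1, 0), ((69, 0), (87, 1), 1, 2), ((70, 1), (70, 1), 1, 0),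
    ((54, 0), (42, 1), 1, 2), ((27, 1), (27, 1), 1, 0), ((15, 0), (8, 1), 1, 2),
    ((121, 2), (121, 2), 1, 0), ((90, 1), (106, 2), 1, 2), ((72, 0), (89, 2), 1, 2),
    ((68, 1), (73, 2), 1, 2), ((52, 2), (52, 2), 1, 0), ((25, 1), (36, 2), 1, 2),
    ((13, 0), (6, 2), 1, 2), ((0, 0), (0, 0), 1, 0)],
    0x7f7f7f7f7f7f7f7f7f7f7f7f7f7f7f7f7f7f7f7f7f7f7f7f7f7f7f7f7f7f7f7f7f7f7f7f7f7f807f7f7f7f80807f7f7f7f7f7f7f7f807f7f7f7f7f807f807f7f7f7f7f7f7f7f7f7f7f7f80807f7f7f7f7f7f7f7f7f7f7f7f7f8080⟩,
    ⟨3, 14, 3, -10, [((2, 2), -3), ((3, 0), -3), ((3, 2), -3), ((4, 2), -3), ((4, 1), -3), ((5, 2), -3)],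
    [((86, 1), (86, 1), 3, 0), ((69, 0), (87, 1), 3, 2), ((70, 1), (70, 1), 3, 0),
    ((54, 0), (42, 1), 3, 2), ((27, 1), (27, 1), 3, 0), ((15, 0), (8, 1), 3, 2),
    ((150, 2), (150, 2), 3, 0), ((124, 1), (137, 2), 3, 2), ((136, 2), (136, 2), 3, 0),
    ((107, 1), (122, 2), 3, 2), ((117, 2), (117, 2), 3, 0), ((103, 1), (119, 2), 3, 2),
    ((99, 2), (99, 2), 3, 0), ((82, 0), (82, 2), 1, 1), ((82, 1), (82, 2), 1, 1),
    ((67, 1), (65, 2), 3, 2), ((51, 2), (51, 2), 3, 0), ((26, 1), (40, 2), 3, 2),
    ((14, 0), (22, 2), 3, 2), ((11, 2), (11, 2), 3, 0)],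
    0x7d7d7d7d7d7d7d7d7d7d7d7d7d7d7d807d7d7d7d7d7d807d7d7d7d7d80807d7d807d7d7d7d80807d7d7d7d8080807d7d7d7d7d7d8080807d7d7d7d807d807d7d7d7d80807d7d7d80808080807d7d7d7d7d7d7d7d7d7d7d80808080⟩,
    ⟨1, 11, 3, -1, [((1, 0), 3), ((2, 0), 3), ((2, 2), 3), ((3, 0), 3)],
    [((139, 1), (139, 1), 3, 0), ((110, 2), (126, 1), 3, 2), ((125, 1), (125, 1), 3, 0),
    ((127, 0), (127, 1), 1, 1), ((127, 2), (127, 1), 1, 1), ((94, 2), (111, 1), 3, 2),
    ((77, 1), (77, 1), 3, 0), ((59, 2), (60, 1), 3, 2), ((44, 1), (44, 1), 3, 0),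
    ((17, 2), (29, 1), 3, 2), ((9, 1), (9, 1), 3, 0), ((121, 2), (121, 2), 3, 0),
    ((90, 1), (106, 2), 3, 2), ((72, 0), (89, 2), 3, 2), ((68, 1), (73, 2), 3, 2),
    ((52, 2), (52, 2), 3, 0), ((25, 1), (36, 2), 3, 2), ((13, 0), (6, 2), 3, 2),
    ((0, 0), (0, 0), 3, 0)],
    0x7d7d7d7d7d7d7d7d7d7d7d7d7d7d7d7d7d7d7d7d7d807d7d7d7d7d7d7d7d807d7d7d7d80807d807d7d7d8080807d7d7d7d7d7d807d807d7d7d7d80807d807d7d7d807d7d7d7d807d7d7d80808080807d7d7d7d7d7d7d7d7d7d8080⟩,
    ⟨3, 11, 3, -8, [((3, 2), -3), ((4, 2), -3), ((4, 1), -3), ((5, 2), -3)],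
    [((139, 1), (139, 1), 3, 0), ((110, 2), (126, 1), 3, 2), ((125, 1), (125, 1), 3, 0),
    ((127, 0), (127, 1), 1, 1), ((127, 2), (127, 1), 1, 1), ((94, 2), (111, 1), 3, 2),
    ((77, 1), (77, 1), 3, 0), ((59, 2), (60, 1), 3, 2), ((44, 1), (44, 1), 3, 0),
    ((17, 2), (29, 1), 3, 2), ((9, 1), (9, 1), 3, 0), ((150, 2), (150, 2), 3, 0),
    ((124, 1), (137, 2), 3, 2), ((136, 2), (136, 2), 3, 0), ((107, 1), (122, 2), 3, 2),
    ((117, 2), (117, 2), 3, 0), ((103, 1), (119, 2), 3, 2), ((99, 2), (99, 2), 3, 0),
    ((82, 0), (82, 2), 1, 1), ((82, 1), (82, 2), 1, 1), ((67, 1), (65, 2), 3, 2),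
    ((51, 2), (51, 2), 3, 0), ((26, 1), (40, 2), 3, 2), ((14, 0), (22, 2), 3, 2),
    ((11, 2), (11, 2), 3, 0)],
    0x7d7d7d7d7d7d7d7d7d7d7d7d7d7d7d807d7d7d7d7d80807d7d7d7d7d8080807d807d7d808080807d7d7d808080807d7d7d7d7d808080807d7d7d80807d807d7d7d8080807d7d8080808080808080807d7d7d7d7d7d7d7d80808080⟩,
    ⟨1, 9, 3, 2, [((1, 0), 3), ((2, 0), 3), ((2, 2), 3), ((3, 0), 3), ((3, 2), 3), ((4, 2), 3)],
    [((160, 1), (160, 1), 3, 0), ((144, 2), (156, 1), 3, 2), ((154, 1), (154, 1), 3, 0),
    ((128, 2), (143, 1), 3, 2), ((142, 1), (142, 1), 3, 0), ((130, 0), (130, 1), 1, 1),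
    ((130, 2), (130, 1), 1, 1), ((114, 1), (114, 1), 3, 0), ((97, 0), (115, 1), 3, 2),
    ((96, 2), (113, 1), 3, 2), ((80, 1), (80, 1), 3, 0), ((47, 2), (63, 1), 3, 2),
    ((32, 1), (32, 1), 3, 0), ((10, 2), (20, 1), 3, 2), ((121, 2), (121, 2), 3, 0),
    ((90, 1), (106, 2), 3, 2), ((72, 0), (89, 2), 3, 2), ((68, 1), (73, 2), 3, 2),
    ((52, 2), (52, 2), 3, 0), ((25, 1), (36, 2), 3, 2), ((13, 0), (6, 2), 3, 2),
    ((0, 0), (0, 0), 3, 0)],
    0x7d7d7d807d7d7d7d80807d7d7d80807d7d7d7d7d80807d7d7d7d80807d7d807d7d7d8080807d807d80808080807d7d7d7d8080807d807d7d7d8080807d807d8080807d7d7d80807d7d7d808080808080807d7d7d7d7d7d7d7d8080⟩,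
    ⟨3, 9, 3, -5, [((4, 1), -3), ((5, 2), -3)],
    [((160, 1), (160, 1), 3, 0), ((144, 2), (156, 1), 3, 2), ((154, 1), (154, 1), 3, 0),
    ((128, 2), (143, 1), 3, 2), ((142, 1), (142, 1), 3, 0), ((130, 0), (130, 1), 1, 1),
    ((130, 2), (130, 1), 1, 1), ((114, 1), (114, 1), 3, 0), ((97, 0), (115, 1), 3, 2),
    ((96, 2), (113, 1), 3, 2), ((80, 1), (80, 1), 3, 0), ((47, 2), (63, 1), 3, 2),
    ((32, 1), (32, 1), 3, 0), ((10, 2), (20, 1), 3, 2), ((150, 2), (150, 2), 3, 0),
    ((124, 1), (137, 2), 3, 2), ((136, 2), (136, 2), 3, 0), ((107, 1), (122, 2), 3, 2),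
    ((117, 2), (117, 2), 3, 0), ((103, 1), (119, 2), 3, 2), ((99, 2), (99, 2), 3, 0),
    ((82, 0), (82, 2), 1, 1), ((82, 1), (82, 2), 1, 1), ((67, 1), (65, 2), 3, 2),
    ((51, 2), (51, 2), 3, 0), ((26, 1), (40, 2), 3, 2), ((14, 0), (22, 2), 3, 2),
    ((11, 2), (11, 2), 3, 0)],
    0x7d7d7d807d7d7d7d80807d7d7d8080807d7d7d7d8080807d7d7d80808080807d807d80808080807d8080808080807d7d7d8080808080807d7d8080807d807d80808080807d8080808080808080808080807d7d7d7d7d7d80808080⟩]

theorem ok10 : allOk 10 d10 = true := by decide +kernel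

/-- Tile 11. -/
def d11 : TDa where
  l := List.flatten [[(14, 15, 16, true, false, true), (16, 15, 17, false, true, true),
    (12, 14, 16, false, true, false), (17, 15, 0, true, false, false),
    (16, 17, 18, true, true, false), (13, 14, 12, false, false, false),
    (16, 18, 12, false, false, false), (0, 19, 17, false, false, false),
    (18, 17, 20, true, false, true), (18, 20, 12, true, false, false),
    (0, 1, 19, false, true, false), (19, 21, 17, true, false, false),
    (20, 17, 22, false, true, true), (20, 23, 12, false, false, false),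
    (19, 1, 2, true, false, true), (21, 19, 24, true, false, true),
    (17, 21, 25, false, true, false), (17, 25, 22, false, false, true),
    (20, 22, 23, true, true, false), (23, 26, 12, true, false, false),
    (27, 19, 2, true, true, false), (24, 19, 27, false, true, true),
    (28, 21, 24, true, true, false), (25, 21, 29, true, false, true),
    (25, 30, 22, true, true, false), (23, 22, 26, true, false, true),
    (11, 12, 26, false, false, false), (27, 2, 31, false, true, true),
    (27, 31, 24, true, true, true), (29, 21, 28, false, true, true)],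
    [(28, 24, 32, false, false, true), (33, 25, 29, true, true, false),
    (30, 25, 34, true, false, true), (26, 22, 30, false, true, false),
    (11, 26, 35, false, false, false), (2, 36, 31, false, false, true),
    (24, 31, 32, true, false, false), (29, 28, 32, true, true, true),
    (34, 25, 33, false, true, true), (33, 29, 32, false, true, true),
    (37, 30, 34, true, true, false), (26, 30, 37, false, true, true),
    (26, 31, 35, false, false, false), (11, 35, 38, false, true, false),
    (2, 39, 36, false, true, false), (40, 31, 36, false, false, true),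
    (34, 32, 31, true, false, false), (34, 33, 32, true, true, true),
    (37, 34, 31, false, false, false), (37, 31, 26, false, false, true),
    (35, 31, 40, false, false, false), (38, 35, 41, true, false, true),
    (10, 11, 38, false, false, true), (2, 3, 39, false, true, false),
    (36, 39, 42, true, false, true), (40, 36, 43, true, false, true),
    (40, 44, 35, true, false, false), (41, 35, 45, false, true, true),
    (46, 38, 41, true, true, false), (10, 38, 47, true, false, true)],
    [(39, 3, 4, true, false, true), (42, 39, 48, false, true, true),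
    (49, 36, 42, true, true, false), (43, 36, 49, false, true, true),
    (50, 40, 43, true, true, false), (44, 40, 51, true, false, true),
    (35, 44, 52, false, true, false), (45, 35, 52, true, false, true),
    (41, 45, 53, true, true, false), (47, 38, 46, false, true, true),
    (46, 41, 54, false, true, true), (55, 10, 47, true, true, false),
    (48, 39, 4, true, true, false), (6, 42, 48, false, true, false),
    (49, 42, 6, false, false, false), (43, 49, 6, true, false, false),
    (51, 40, 50, false, true, true), (50, 43, 6, false, false, false),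
    (56, 44, 51, true, true, false), (52, 44, 57, true, false, true),
    (45, 52, 58, true, false, true), (53, 45, 58, true, true, false),
    (53, 54, 41, true, true, false), (47, 46, 54, true, true, true),
    (9, 10, 55, false, true, true), (55, 47, 54, false, true, false),
    (4, 5, 48, false, false, false), (5, 6, 48, false, false, false),
    (51, 50, 6, true, false, false), (57, 44, 56, false, true, true)],
    [(7, 56, 51, false, false, false), (59, 52, 57, true, true, false),
    (58, 52, 59, false, true, true), (53, 58, 7, false, false, false),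
    (9, 54, 53, false, true, false), (9, 55, 54, true, false, false),
    (6, 7, 51, false, false, false), (57, 56, 7, true, false, false),
    (59, 57, 7, false, false, false), (58, 59, 7, true, false, false),
    (8, 53, 7, false, false, false), (8, 9, 53, false, false, false)]]
  q := List.flatten [[(5620926, 18823564), (9134035, 13343123), (8970596, 20774698), (12729176, 5984211),
    (11127425, 20932105), (14494265, 11296851), (14087426, 18076545), (13445065, 22466162),
    (17201597, 10123276), (15176502, 14200131), (18565410, 20855997), (18274335, 7126226),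
    (16494230, 11580907), (16230048, 12549459), (17076118, 16661749), (23166566, 12397419),
    (18051010, 12354042), (16934236, 13315364), (18279384, 14157825), (31476239, 21227858),
    (33899148, 8004805), (19271869, 16018248), (30719176, 26836660), (34584312, 3132029),
    (36646665, 14105908), (35531964, 25050526), (40574886, 6800803), (40962481, 10716857),
    (40094053, 18252402), (38407094, 22834264)],
    [(34036321, 26789315), (33270530, 27952261), (43031840, 3986566), (41359129, 8880616),
    (42907463, 12592957), (44020705, 15549061), (40155226, 20717544), (41929339, 25297249),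
    (36623615, 27317811), (34973536, 28817518), (44476048, 18343101), (43789433, 19570941),
    (42942700, 21878143), (44221840, 20541657)]]
  par := List.flatten [[0, 0, 0, 1, 1, 2, 2, 3, 4, 6, 7, 7, 8, 9, 10, 11, 11, 12, 12, 13, 14, 15, 15, 16, 17, 18, 19,
    20, 21, 22],
    [22, 23, 24, 24, 26, 27, 28, 29, 31, 31, 32, 33, 34, 34, 35, 35, 36, 38, 40, 41, 42, 43, 43, 44,
    44, 45, 50, 51, 51, 52],
    [53, 54, 54, 55, 55, 56, 56, 57, 57, 58, 58, 59, 60, 61, 62, 63, 64, 64, 65, 66, 67, 68, 68, 69,
    71, 71, 72, 73, 76, 78],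
    [78, 79, 80, 81, 82, 84, 88, 89, 91, 92, 93, 94]]
  iv := List.flatten [[((170, 0, 340, 50), [(0, (170, -50, 290, 50)), (4, (0, 50, 50, 0))], (19, 0, -5, 0), 3),
    ((270, -50, 290, 50), [(0, (270, -50, 290, 50))], (-14, 0, -59893, 0), 3),
    ((270, 0, 340, 50), [(0, (270, -50, 290, 50)), (4, (0, 50, 50, 0))], (32, 0, -60000, 0), 3),
    ((530, 0, 160, -50), [(0, (530, -50, 210, -50)), (4, (0, 50, -50, 0))], (-60000, 0, -45017, 0), 3),
    ((270, 0, 340, 50), [(0, (270, -50, 290, 50)), (4, (0, 50, 50, 0))], (63, 0, -59998, 0), 3),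
    ((470, 0, 240, -50), [(0, (470, -50, 290, -50)), (4, (0, 50, -50, 0))], (-60000, 0, -45034, 0), 3),
    ((370, -50, 290, 50), [(0, (370, -50, 290, 50))], (-27, 0, -10302, 0), 3),
    ((370, 0, 340, 50), [(0, (370, -50, 290, 50)), (4, (0, 50, 50, 0))], (76, 0, -10509, 0), 3),
    ((530, 0, 260, -50), [(0, (530, -50, 210, -50)), (4, (0, 50, 50, 0))], (-59287, 0, -45003, 0), 3),
    ((420, 0, 240, 0), [(0, (420, -50, 290, 0)), (4, (0, 50, -50, 0))], (-60000, 0, -45050, 0), 3),
    ((370, 0, 340, 50), [(0, (370, -50, 290, 50)), (4, (0, 50, 50, 0))], (107, 0, -10508, 0), 3),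
    ((530, 0, 260, -50), [(0, (530, -50, 210, -50)), (4, (0, 50, 50, 0))], (-59273, 0, -45168, 0), 3),
    ((470, 0, 340, -50), [(0, (470, -50, 290, -50)), (4, (0, 50, 50, 0))], (-59369, 0, -45048, 0), 3),
    ((470, 0, 340, -50), [(0, (470, -50, 290, -50)), (4, (0, 50, 50, 0))], (-59440, 0, -45020, 0), 3),
    ((370, 0, 240, 50), [(0, (370, -50, 290, 50)), (4, (0, 50, -50, 0))], (-171, 0, -10523, 0), 3),
    ((539, 0, 165, 0), [(0, (539, 0, 165, 0))], (-60000, 0, -60000, 0), 3),
    ((459, 0, 277, 0), [(0, (459, 0, 277, 0))], (-60000, 0, -60000, 0), 3),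
    ((420, 0, 340, 0), [(0, (420, -50, 290, 0)), (4, (0, 50, 50, 0))], (-59593, 0, -45093, 0), 3),
    ((420, 0, 340, 0), [(0, (420, -50, 290, 0)), (4, (0, 50, 50, 0))], (-59607, 0, -45036, 0), 3),
    ((670, 50, 670, -50), [(0, (670, -50, 870, -50)), (5, (0, 100, -200, 0))], (4305, 0, -2454, 0), 3),
    ((770, 50, 270, -50), [(0, (770, -50, 870, -50)), (5, (0, 100, -600, 0))], (1732, 0, -165, 0), 3),
    ((370, 0, 340, 50), [(0, (370, -50, 290, 50)), (4, (0, 50, 50, 0))], (121, 0, -10537, 0), 3),
    ((720, 50, 670, 0), [(0, (720, -50, 870, 0)), (5, (0, 100, -200, 0))], (-60000, 0, 34657, 0), 3),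
    ((770, 50, 170, -50), [(0, (770, -50, 870, -50)), (5, (0, 100, -700, 0))], (940, 0, -151, 0), 3),
    ((770, 50, 370, -50), [(0, (770, -50, 870, -50)), (5, (0, 100, -500, 0))], (2463, 0, -179, 0), 3),
    ((670, 100, 720, -50), [(0, (670, -50, 870, -50)), (5, (0, 150, -150, 0))], (4508, 0, -2779, 0), 3),
    ((770, 100, 220, -50), [(0, (770, -50, 870, -50)), (5, (0, 150, -650, 0))], (1340, 0, -817, 0), 3),
    ((770, 100, 320, -50), [(0, (770, -50, 870, -50)), (5, (0, 150, -550, 0))], (2102, 0, -778, 0), 3),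
    ((770, 50, 470, -50), [(0, (770, -50, 870, -50)), (5, (0, 100, -400, 0))], (3134, 0, -192, 0), 3),
    ((770, 50, 670, -50), [(0, (770, -50, 870, -50)), (5, (0, 100, -200, 0))], (4291, 0, -220, 0), 3)],
    [((720, 100, 720, 0), [(0, (720, -50, 870, 0)), (5, (0, 150, -150, 0))], (-60000, 0, 34481, 0), 3),
    ((720, 100, 720, 0), [(0, (720, -50, 870, 0)), (5, (0, 150, -150, 0))], (-59919, 0, 34543, 0), 3),
    ((770, 100, 220, -50), [(0, (770, -50, 870, -50)), (5, (0, 150, -650, 0))], (1323, 0, -842, 0), 3),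
    ((770, 100, 320, -50), [(0, (770, -50, 870, -50)), (5, (0, 150, -550, 0))], (2085, 0, -803, 0), 3),
    ((770, 100, 420, -50), [(0, (770, -50, 870, -50)), (5, (0, 150, -450, 0))], (2786, 0, -764, 0), 3),
    ((770, 100, 420, -50), [(0, (770, -50, 870, -50)), (5, (0, 150, -450, 0))], (2802, 0, -739, 0), 3),
    ((770, 50, 570, -50), [(0, (770, -50, 870, -50)), (5, (0, 100, -300, 0))], (3743, 0, -206, 0), 3),
    ((770, 100, 720, -50), [(0, (770, -50, 870, -50)), (5, (0, 150, -150, 0))], (4522, 0, -647, 0), 3),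
    ((907, 0, 669, 0), [(0, (907, 0, 669, 0))], (-60000, 0, -60000, 0), 3),
    ((770, 100, 720, 50), [(0, (770, -50, 870, 50)), (5, (0, 150, -150, 0))], (-17, 0, -25, 0), 3),
    ((770, 100, 520, -50), [(0, (770, -50, 870, -50)), (5, (0, 150, -350, 0))], (3425, 0, -725, 0), 3),
    ((770, 100, 520, -50), [(0, (770, -50, 870, -50)), (5, (0, 150, -350, 0))], (3442, 0, -699, 0), 3),
    ((770, 100, 620, -50), [(0, (770, -50, 870, -50)), (5, (0, 150, -250, 0))], (4021, 0, -660, 0), 3),
    ((770, 100, 620, -50), [(0, (770, -50, 870, -50)), (5, (0, 150, -250, 0))], (4004, 0, -686, 0), 3)]]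
  js := []
  ce := [⟨1, 14, 3, -2, [],
    [((0, 1), (0, 1), 3, 0), ((1, 0), (4, 1), 3, 2), ((8, 1), (8, 1), 3, 0),
    ((12, 0), (18, 1), 3, 2), ((25, 1), (25, 1), 3, 0), ((33, 0), (33, 1), 1, 1),
    ((33, 0), (33, 2), 1, 1), ((41, 1), (41, 1), 3, 0), ((32, 2), (40, 1), 3, 2),
    ((38, 1), (38, 1), 3, 0), ((23, 2), (31, 1), 3, 2), ((29, 1), (29, 1), 3, 0),
    ((15, 2), (22, 1), 3, 2), ((21, 1), (21, 1), 3, 0), ((14, 2), (20, 1), 3, 2)],
    0x7d7d7d7d7d7d7d7d7d7d7d7d7d7d7d7d7d7d7d7d7d7d7d7d7d7d7d7d7d807d7d7d7d807d7d80807d807d807d807d7d7d7d7d7d7d7d7d7d7d7d7d8080⟩,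
    ⟨3, 9, 1, -1, [],
    [((84, 1), (84, 1), 1, 0), ((59, 2), (71, 1), 1, 2), ((69, 1), (69, 1), 1, 0),
    ((51, 2), (58, 1), 1, 2), ((57, 0), (68, 1), 1, 2), ((80, 2), (81, 1), 1, 2),
    ((92, 1), (92, 1), 1, 0), ((79, 2), (91, 1), 1, 2), ((89, 1), (89, 1), 1, 0),
    ((65, 2), (78, 1), 1, 2), ((76, 1), (76, 1), 1, 0), ((55, 2), (64, 1), 1, 2),
    ((63, 1), (63, 1), 1, 0), ((54, 2), (62, 1), 1, 2), ((61, 1), (61, 1), 1, 0),
    ((60, 2), (72, 1), 1, 2)],
    0x7f7f7f7f7f7f7f807f7f7f7f7f7f80807f7f7f808080808080808080808080808080808080808080808080808080808080807f7f7f7f7f7f80808080⟩]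

theorem ok11 : allOk 11 d11 = true := by decide +kernel

/-- Tile 12. -/
def d12 : TDa where
  l := List.flatten [[(14, 15, 16, true, false, true), (16, 15, 17, false, true, true),
    (12, 14, 16, false, true, false), (17, 15, 1, true, false, false),
    (16, 17, 18, true, true, false), (13, 14, 12, false, false, false),
    (16, 18, 12, false, false, false), (0, 1, 15, false, false, false),
    (1, 19, 17, false, true, false), (18, 17, 20, true, false, true),
    (18, 20, 12, true, false, false), (1, 21, 19, false, true, false),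
    (20, 17, 19, false, true, true), (11, 12, 20, false, false, false),
    (1, 2, 21, false, false, false), (22, 19, 21, false, true, true),
    (20, 19, 23, true, true, false), (20, 23, 11, false, false, false),
    (24, 21, 2, true, false, false), (23, 19, 22, true, false, true),
    (22, 21, 25, true, true, false), (23, 22, 11, true, false, false),
    (26, 21, 24, false, true, true), (2, 27, 24, false, false, false),
    (25, 21, 26, true, false, true), (11, 22, 25, false, false, false),
    (26, 24, 28, true, true, false), (2, 3, 27, false, false, false),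
    (24, 27, 29, false, false, false), (25, 26, 11, true, false, false)],
    [(28, 24, 30, true, false, true), (26, 28, 11, false, false, false),
    (3, 31, 27, true, true, false), (29, 27, 32, false, true, false),
    (24, 29, 33, false, false, true), (30, 24, 33, false, true, true),
    (28, 30, 10, true, false, false), (10, 11, 28, false, false, false),
    (31, 3, 4, true, false, true), (34, 27, 31, false, true, true),
    (32, 27, 34, true, false, true), (32, 35, 29, true, true, false),
    (36, 33, 29, true, false, true), (30, 33, 37, true, true, false),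
    (30, 37, 10, false, false, false), (38, 31, 4, true, true, false),
    (34, 31, 38, true, true, false), (39, 32, 34, true, true, false),
    (35, 32, 40, true, false, true), (41, 29, 35, false, true, true),
    (42, 33, 36, false, true, true), (43, 36, 29, false, true, true),
    (37, 33, 42, true, false, true), (37, 42, 10, true, false, false),
    (4, 5, 38, false, false, false), (34, 38, 44, false, true, true),
    (40, 32, 39, false, true, true), (39, 34, 44, false, true, true),
    (45, 35, 40, true, true, false), (46, 29, 41, true, false, true)],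
    [(41, 35, 45, true, true, false), (42, 36, 47, true, true, false),
    (47, 36, 43, true, false, true), (43, 29, 46, true, true, false),
    (10, 42, 47, false, false, false), (5, 6, 38, false, false, false),
    (45, 44, 38, false, true, false), (40, 39, 44, true, true, true),
    (40, 44, 45, true, false, false), (46, 41, 7, true, false, false),
    (41, 45, 7, false, false, false), (47, 43, 7, true, false, false),
    (43, 46, 7, false, false, false), (9, 10, 47, false, false, false),
    (6, 45, 38, false, false, false), (6, 7, 45, false, false, false),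
    (7, 9, 47, false, false, false), (8, 9, 7, false, false, false)]]
  q := List.flatten [[(5601679, 19274458), (8676342, 14779116), (9332053, 21593173), (14074127, 15487945),
    (13050191, 22319119), (18749421, 13364084), (17750184, 20410866), (16218626, 22054482),
    (27377509, 15685644), (19708747, 21147817), (22335382, 20816319), (32627963, 7951056),
    (25841233, 23884049), (37256833, 15918243), (29493273, 22918283), (36845121, 4542606),
    (38293112, 11178989), (32715964, 20633120), (38623165, 8331910), (40688414, 13355265),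
    (36719112, 20884947), (31531660, 24388600), (42974479, 6430064), (39746148, 10152850),
    (40816148, 11364608), (42975079, 15914446), (33917401, 24003000), (41085093, 19762041),
    (41252168, 9735894), (44100898, 12400040)],
    [(42829251, 17898683), (38620267, 24108331)]]
  par := List.flatten [[0, 0, 0, 1, 1, 2, 2, 3, 3, 4, 6, 8, 8, 10, 11, 11, 12, 13, 14, 15, 15, 17, 18, 18, 20, 20, 22,
    23, 23, 24],
    [26, 26, 27, 28, 28, 30, 30, 31, 32, 32, 33, 33, 34, 35, 36, 38, 39, 40, 41, 41, 42, 42, 43, 44,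
    45, 46, 47, 47, 48, 49],
    [49, 50, 51, 51, 53, 54, 55, 56, 58, 59, 60, 62, 63, 64, 65, 70, 71, 76]]
  iv := List.flatten [[((170, 0, 340, 50), [(0, (170, -50, 290, 50)), (5, (0, 50, 50, 0))], (16, 0, -4, 0), 1),
    ((270, -50, 290, 50), [(0, (270, -50, 290, 50))], (-11, 0, -59910, 0), 1),
    ((270, 0, 340, 50), [(0, (270, -50, 290, 50)), (5, (0, 50, 50, 0))], (27, 0, -60000, 0), 1),
    ((370, -50, 290, 50), [(0, (370, -50, 290, 50))], (-23, 0, -59827, 0), 1),
    ((270, 0, 340, 50), [(0, (270, -50, 290, 50)), (5, (0, 50, 50, 0))], (53, 0, -59998, 0), 1),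
    ((470, -50, 290, 50), [(0, (470, -50, 290, 50))], (-34, 0, -59743, 0), 1),
    ((370, 0, 340, 50), [(0, (370, -50, 290, 50)), (5, (0, 50, 50, 0))], (90, 0, -59998, 0), 1),
    ((370, 0, 340, 50), [(0, (370, -50, 290, 50)), (5, (0, 50, 50, 0))], (64, 0, -60000, 0), 1),
    ((570, -50, 290, 50), [(0, (570, -50, 290, 50))], (-46, 0, -59659, 0), 1),
    ((470, 0, 340, 50), [(0, (470, -50, 290, 50)), (5, (0, 50, 50, 0))], (101, 0, -60000, 0), 1),
    ((470, 0, 340, 50), [(0, (470, -50, 290, 50)), (5, (0, 50, 50, 0))], (127, 0, -59998, 0), 1),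
    ((670, 50, 190, -50), [(0, (670, -50, 290, -50)), (5, (0, 100, -100, 0))], (1029, 0, -59252, 0), 1),
    ((570, 0, 340, 50), [(0, (570, -50, 290, 50)), (5, (0, 50, 50, 0))], (138, 0, -60000, 0), 1),
    ((770, 0, 240, 50), [(0, (770, -50, 290, 50)), (5, (0, 50, -50, 0))], (-56, 0, -59447, 0), 1),
    ((570, 0, 340, 50), [(0, (570, -50, 290, 50)), (5, (0, 50, 50, 0))], (164, 0, -59998, 0), 1),
    ((770, 50, 190, -50), [(0, (770, -50, 290, -50)), (5, (0, 100, -100, 0))], (1018, 0, -11, 0), 1),
    ((720, 50, 190, 0), [(0, (720, -50, 290, 0)), (5, (0, 100, -100, 0))], (-60000, 0, -24030, 0), 1),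
    ((670, -50, 290, 50), [(0, (670, -50, 290, 50))], (-57, 0, -59575, 0), 1),
    ((670, 100, 240, -50), [(0, (670, -50, 290, -50)), (5, (0, 150, -50, 0))], (1474, 0, -60000, 0), 1),
    ((770, 50, 190, 50), [(0, (770, -50, 290, 50)), (5, (0, 100, -100, 0))], (278, 0, -58845, 0), 1),
    ((770, -50, 290, 50), [(0, (770, -50, 290, 50))], (-69, 0, -59491, 0), 1),
    ((670, 0, 340, 50), [(0, (670, -50, 290, 50)), (5, (0, 50, 50, 0))], (175, 0, -60000, 0), 1),
    ((770, 100, 240, -50), [(0, (770, -50, 290, -50)), (5, (0, 150, -50, 0))], (1486, 0, -845, 0), 1),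
    ((720, 100, 240, 0), [(0, (720, -50, 290, 0)), (5, (0, 150, -50, 0))], (-59622, 0, -24713, 0), 1),
    ((720, 100, 240, 0), [(0, (720, -50, 290, 0)), (5, (0, 150, -50, 0))], (-59606, 0, -24690, 0), 1),
    ((770, 50, 290, 50), [(0, (770, -50, 290, 50)), (5, (0, 100, 0, 0))], (275, 0, -59998, 0), 1),
    ((670, 0, 340, 50), [(0, (670, -50, 290, 50)), (5, (0, 50, 50, 0))], (201, 0, -59998, 0), 1),
    ((770, 0, 340, 50), [(0, (770, -50, 290, 50)), (5, (0, 50, 50, 0))], (238, 0, -59998, 0), 1),
    ((907, 0, 189, 0), [(0, (907, 0, 189, 0))], (-60000, 0, -60000, 0), 1),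
    ((770, 100, 240, 50), [(0, (770, -50, 290, 50)), (5, (0, 150, -50, 0))], (610, 0, -59442, 0), 1)],
    [((770, 50, 290, 50), [(0, (770, -50, 290, 50)), (5, (0, 100, 0, 0))], (250, 0, -60000, 0), 1),
    ((770, 0, 340, 50), [(0, (770, -50, 290, 50)), (5, (0, 50, 50, 0))], (212, 0, -60000, 0), 1)]]
  js := []
  ce := [⟨3, 14, 1, -1, [],
    [((0, 1), (0, 1), 1, 0), ((1, 0), (4, 1), 1, 2), ((9, 1), (9, 1), 1, 0),
    ((12, 0), (16, 1), 1, 2), ((19, 1), (19, 1), 1, 0), ((15, 0), (20, 1), 1, 2),
    ((24, 1), (24, 1), 1, 0), ((22, 0), (26, 1), 1, 2), ((30, 1), (30, 1), 1, 0),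
    ((35, 0), (43, 1), 1, 2), ((52, 1), (52, 1), 1, 0), ((50, 0), (61, 1), 1, 2),
    ((62, 1), (62, 1), 1, 0), ((51, 0), (63, 1), 1, 2), ((59, 1), (59, 1), 1, 0),
    ((49, 0), (60, 1), 1, 2), ((48, 2), (58, 1), 1, 2), ((56, 1), (56, 1), 1, 0),
    ((40, 2), (47, 1), 1, 2), ((39, 0), (46, 1), 1, 2), ((38, 2), (45, 1), 1, 2)],
    0x7f7f7f7f7f7f7f7f7f7f7f80807f8080807f807f807f7f807f7f807f807f807f807f7f7f7f7f7f7f7f7f7f7f80808080⟩]

theorem ok12 : allOk 12 d12 = true := by decide +kernel

end Pool.Agent.MP_a4408f_lc
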