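import Pool.Agent.Mg.F2e8011.G2b0417
import Pool.Agent.Mg.F2e8011.G2c7daa

section

/-! The reduction from satisfiability to Hamiltonicity of graphs without a subgraph `H_j`. -/

namespace Pool.Agent.MP_2e8011_lc

open SimpleGraph

/-- The literal `(v, b)` satisfies column `c`. -/
def lit (φ : CNF) (c v : ℕ) (b : Bool) : Prop := φ.length ≤ c ∨ (v, b) ∈ φ.getD c []

/-- The spine order on cells. -/
def nxE (n m : ℕ) : Fin (n + 1) × Fin (m + 1) ≃ Fin (n + 1) × Fin (m + 1) where
  toFun x := (if x.2 + 1 = 0 then x.1 + 1 else x.1, x.2 + 1)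
  invFun x := (if x.2 = 0 then x.1 - 1 else x.1, x.2 - 1)
  left_inv x := by
    by_cases h : x.2 + 1 = 0
    · simp only [h, if_true, add_sub_cancel_right]
      rw [← h, add_sub_cancel_right]
    · simp [h]
  right_inv x := by
    by_cases h : x.2 = 0 <;> simp [h]
    rw [← h]

/-- The grid of a formula. -/
def grid (φ : CNF) : Grid (Fin (sz φ + 1) × Fin (φ.length + 1)) where
  nx := nxE _ _
  rt := Equiv.prodCongr (Equiv.refl _) (Equiv.addRight 1)
  dn := Equiv.prodCongr (Equiv.addRight 1) (Equiv.refl _)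
  top x := x.1.val = 0
  pos x := lit φ x.2.val x.1.val true
  neg x := lit φ x.2.val x.1.val false

theorem val_add_one' {n : ℕ} (a : Fin (n + 1)) : (a + 1).val = (a.val + 1) % (n + 1) := by
  rw [Fin.val_add]
  simp

theorem nxE_reach (n m : ℕ) (x : Fin (n + 1) × Fin (m + 1)) :
    ∃ k, (nxE n m)^[k] (0, 0) = x := by
  have row : ∀ (v : Fin (n + 1)), (∃ k, (nxE n m)^[k] (0, 0) = (v, 0)) →
      ∀ (c : ℕ) (hc : c < m + 1), ∃ k, (nxE n m)^[k] (0, 0) = (v, ⟨c, hc⟩) := by
    intro v hv c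
    induction c with
    | zero => intro _; exact hv
    | succ c ih =>
      intro hc
      obtain ⟨k, hk⟩ := ih (by omega)
      refine ⟨k + 1, ?_⟩
      rw [Function.iterate_succ_apply', hk]
      have : (⟨c, by omega⟩ : Fin (m + 1)) + 1 = ⟨c + 1, hc⟩ := by
        ext; rw [val_add_one']; exact Nat.mod_eq_of_lt hc
      simp [nxE, this]
  have col : ∀ (v : ℕ) (hv : v < n + 1), ∃ k, (nxE n m)^[k] (0, 0) = (⟨v, hv⟩, 0) := by
    intro v
    induction v with
    | zero => intro _; exact ⟨0, rfl⟩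
    | succ v ih =>
      intro hv
      obtain ⟨k, hk⟩ := row _ (ih (by omega)) m (by omega)
      refine ⟨k + 1, ?_⟩
      rw [Function.iterate_succ_apply', hk]
      have e1 : (⟨v, by omega⟩ : Fin (n + 1)) + 1 = ⟨v + 1, hv⟩ := by
        ext; rw [val_add_one']; exact Nat.mod_eq_of_lt hv
      have e2 : (⟨m, by omega⟩ : Fin (m + 1)) + 1 = 0 := by
        ext; rw [val_add_one']; simp
      simp [nxE, e1, e2]
  exact row x.1 (col x.1.val x.1.2) x.2.val x.2.2

theorem var_lt {φ : CNF} {c : List (ℕ × Bool)} (hc : c ∈ φ) {l : ℕ × Bool} (hl : l ∈ c) :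
    l.1 < sz φ + 1 := by
  have h1 := sz_le_of_mem hc
  have h2 := sz_le_of_mem hl
  obtain ⟨v, b⟩ := l
  simp only [sz_prod, sz_nat] at h2
  simp only
  omega

theorem ham_of_sat {φ : CNF} {j : ℕ} (hj : 1 ≤ j) (h : Sat φ) :
    HasHamiltonianCycle (subdiv (grid φ).D j) := by
  obtain ⟨a, ha⟩ := h
  have hw : ∀ c : ℕ, ∃ v, v < sz φ + 1 ∧ lit φ c v (a v) := by
    intro c
    by_cases hc : φ.length ≤ c
    · exact ⟨0, by omega, Or.inl hc⟩
    · have hm : φ[c]'(by omega) ∈ φ := List.getElem_mem _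
      obtain ⟨l, hl, hl'⟩ := ha _ hm
      refine ⟨l.1, var_lt hm hl, Or.inr ?_⟩
      rw [hl', List.getD_eq_getElem _ _ (by omega)]
      exact hl
  choose w hw hw' using hw
  obtain ⟨σ, h1, h2, h3⟩ := (grid φ).complete (val := fun x => a x.1.val = true)
    (zz := fun x => x.1.val = w x.2.val) (dd := fun x => x.1.val < w x.2.val)
    (fun x => Iff.rfl) (fun x hx => by
      have := hw' x.2.val
      rw [← hx] at this
      cases hb : a x.1.val
      · rw [hb] at this; exact Or.inr ⟨by simp, this⟩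
      · rw [hb] at this; exact Or.inl ⟨rfl, this⟩)
    (fun x hx => by
      have h1 := hw x.2.val
      have h2 := x.1.2
      change (x.1 + 1).val = 0 at hx
      change ¬ x.1.val < w x.2.val ∧ ((x.1 + 1).val = w x.2.val ↔ ¬ (x.1 + 1).val < w x.2.val)
      rw [hx]
      rw [val_add_one'] at hx
      by_cases h : x.1.val + 1 < sz φ + 1
      · rw [Nat.mod_eq_of_lt h] at hx; omega
      · omega)
    (fun x hx => by
      have h2 := x.1.2
      change ¬ (x.1 + 1).val = 0 at hx
      change (x.1.val < w x.2.val → ((x.1 + 1).val = w x.2.val ↔ ¬ (x.1 + 1).val < w x.2.val)) ∧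
        (¬ x.1.val < w x.2.val → ¬ (x.1 + 1).val = w x.2.val ∧ ¬ (x.1 + 1).val < w x.2.val)
      rw [val_add_one'] at hx ⊢
      by_cases h : x.1.val + 1 < sz φ + 1
      · rw [Nat.mod_eq_of_lt h]; omega
      · rw [show x.1.val + 1 = sz φ + 1 by omega, Nat.mod_self] at hx
        exact absurd rfl hx)
    (0, 0) (nxE_reach _ _)
  exact subdiv_ham_of_succ hj σ h1 _ h2 h3

theorem sat_of_ham {φ : CNF} {j : ℕ} (hj : 1 ≤ j) (h : HasHamiltonianCycle (subdiv (grid φ).D j)) :
    Sat φ := by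
  classical
  obtain ⟨σ, h1, h2, h3⟩ := succ_of_subdiv_ham hj (by
    simp only [Fintype.card_prod, Fintype.card_fin]
    nlinarith [Nat.zero_le (sz φ), Nat.zero_le φ.length, Nat.zero_le (sz φ * φ.length)]) h
  obtain ⟨val, zz, dd, s1, s2, s3, s4⟩ := (grid φ).sound h1 h2 h3
  have hval : ∀ v (c : ℕ) (hc : c < φ.length + 1), val (v, ⟨c, hc⟩) ↔ val (v, 0) := by
    intro v c
    induction c with
    | zero => intro _; rfl
    | succ c ih =>
      intro hc
      rw [← ih (by omega), ← s1 (v, ⟨c, by omega⟩)]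
      have : (⟨c, by omega⟩ : Fin (φ.length + 1)) + 1 = ⟨c + 1, hc⟩ := by
        ext; rw [val_add_one']; exact Nat.mod_eq_of_lt hc
      simp [grid, this]
  have hz : ∀ c, ∃ v, zz (v, c) := by
    intro c
    by_contra hno
    push Not at hno
    have e0 : (grid φ).dn (Fin.last _, c) = (0, c) := by simp [grid]
    have h0 := s4 (Fin.last _, c) (by rw [e0]; rfl)
    rw [e0] at h0
    have hd : ∀ (v : ℕ) (hv : v < sz φ + 1), dd (⟨v, hv⟩, c) := by
      intro v
      induction v with
      | zero => intro _; exact h0.2.resolve_left (hno _)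
      | succ v ih =>
        intro hv
        have e1 : (⟨v, by omega⟩ : Fin (sz φ + 1)) + 1 = ⟨v + 1, hv⟩ := by
          ext; rw [val_add_one']; exact Nat.mod_eq_of_lt hv
        have e : (grid φ).dn (⟨v, by omega⟩, c) = (⟨v + 1, hv⟩, c) := by simp [grid, e1]
        have := s3 (⟨v, by omega⟩, c) (by rw [e]; simp [grid]) (ih (by omega))
        rw [e] at this
        exact this.resolve_left (hno _)
    exact h0.1 (hd _ _)
  refine ⟨fun v => if h : v < sz φ + 1 then decide (val (⟨v, h⟩, 0)) else false, fun cl hcl => ?_⟩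
  obtain ⟨c, hc, rfl⟩ := List.getElem_of_mem hcl
  obtain ⟨v, hv⟩ := hz ⟨c, by omega⟩
  have hg : φ.getD c [] = φ[c] := List.getD_eq_getElem _ _ hc
  rcases s2 _ hv with ⟨e1, e2 | e2⟩ | ⟨e1, e2 | e2⟩
  · exact absurd hc (not_lt.2 e2)
  · rw [hg] at e2
    refine ⟨_, e2, ?_⟩
    simpa [v.2] using (hval v c _).1 e1
  · exact absurd hc (not_lt.2 e2)
  · rw [hg] at e2
    refine ⟨_, e2, ?_⟩
    simpa [v.2] using fun h => e1 ((hval v c _).2 h)

/-- The arc relation for arbitrary neighbour functions. -/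
def arcG {X : Type} (nx rt dn : X → X) (top pos neg : X → Prop) (x : X) (r : ℕ) (y : X) (t : ℕ) :
    Prop :=
  (y = x ∧ (loc r t ∨ (r = 5 ∧ t = 1 ∧ pos x) ∨ (r = 1 ∧ (t = 9 ∨ t = 10) ∧ ¬ top x))) ∨
  (x = rt y ∧ r = 0 ∧ t = 5) ∨
  (y = rt x ∧ r = 2 ∧ (t = 6 ∨ (t = 1 ∧ neg y))) ∨
  (x = dn y ∧ r = 1 ∧ t = 13) ∨
  (y = dn x ∧ r = 10 ∧ (t = 9 ∨ t = 10) ∧ top y) ∨
  (y = nx (dn x) ∧ r = 10 ∧ t = 0 ∧ ¬ top (dn x)) ∨
  (y = nx x ∧ (r = 6 ∨ r = 13) ∧ t = 0)

/-- The arc relation on numbers. -/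
def arcN (φ : CNF) (x : ℕ × ℕ) (r : ℕ) (y : ℕ × ℕ) (t : ℕ) : Prop :=
  arcG (fun x : ℕ × ℕ => (if (x.2 + 1) % (φ.length + 1) = 0 then (x.1 + 1) % (sz φ + 1) else x.1,
      (x.2 + 1) % (φ.length + 1)))
    (fun x => (x.1, (x.2 + 1) % (φ.length + 1))) (fun x => ((x.1 + 1) % (sz φ + 1), x.2))
    (fun x => x.1 = 0) (fun x => lit φ x.2 x.1 true) (fun x => lit φ x.2 x.1 false) x r y t

theorem arc_iff (φ : CNF) (x y : Fin (sz φ + 1) × Fin (φ.length + 1)) (r t : ℕ) :
    (grid φ).arc x r y t ↔ arcN φ (x.1.val, x.2.val) r (y.1.val, y.2.val) t := by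
  obtain ⟨v, c⟩ := x
  obtain ⟨v', c'⟩ := y
  simp only [Grid.arc, arcN, arcG, grid, nxE, Equiv.prodCongr_apply, Equiv.coe_refl,
    Equiv.coe_addRight, Prod.map, id, Equiv.coe_fn_mk, Prod.mk.injEq, Fin.ext_iff, val_add_one',
    apply_ite Fin.val, Fin.val_zero]

/-- Number of vertices. -/
def nV (φ : CNF) (j : ℕ) : ℕ := (sz φ + 1) * (φ.length + 1) * 14 * (j + 2)

/-- Numbering of the vertices. -/
def num (φ : CNF) (j : ℕ) :
    Fin (nV φ j) ≃ ((Fin (sz φ + 1) × Fin (φ.length + 1)) × Fin 14) × Fin (j + 2) :=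
  finProdFinEquiv.symm.trans (Equiv.prodCongr (finProdFinEquiv.symm.trans
    (Equiv.prodCongr finProdFinEquiv.symm (Equiv.refl _))) (Equiv.refl _))

/-- The graph of a formula. -/
def graphOf (φ : CNF) (j : ℕ) : SimpleGraph (Fin (nV φ j)) :=
  (subdiv (grid φ).D j).comap (num φ j).toEmbedding

/-- The arc relation on vertex numbers of the digraph. -/
def arcQ (φ : CNF) (p q : ℕ) : Prop :=
  arcN φ (p / 14 / (φ.length + 1), p / 14 % (φ.length + 1)) (p % 14)
    (q / 14 / (φ.length + 1), q / 14 % (φ.length + 1)) (q % 14)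

/-- Adjacency on vertex numbers. -/
def adjN (φ : CNF) (j a b : ℕ) : Prop :=
  (a / (j + 2) = b / (j + 2) ∧ b % (j + 2) = a % (j + 2) + 1) ∨
  (a / (j + 2) = b / (j + 2) ∧ a % (j + 2) = b % (j + 2) + 1) ∨
  (a % (j + 2) = j + 1 ∧ b % (j + 2) = 0 ∧ arcQ φ (a / (j + 2)) (b / (j + 2))) ∨
  (b % (j + 2) = j + 1 ∧ a % (j + 2) = 0 ∧ arcQ φ (b / (j + 2)) (a / (j + 2)))

theorem graphOf_adj (φ : CNF) (j : ℕ) (a b : Fin (nV φ j)) :
    (graphOf φ j).Adj a b ↔ adjN φ j a.val b.val := by
  have h1 : ∀ a b : Fin (nV φ j), (num φ j a).1 = (num φ j b).1 ↔ a.val / (j + 2) = b.val / (j + 2) := by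
    intro a b
    exact ((finProdFinEquiv.symm.trans (Equiv.prodCongr finProdFinEquiv.symm
      (Equiv.refl (Fin 14)))).apply_eq_iff_eq (x := Fin.divNat a) (y := Fin.divNat b)).trans
      Fin.ext_iff
  simp only [graphOf, comap_adj, Equiv.coe_toEmbedding, subdiv_adj, h1, Grid.D, arc_iff]
  rfl

open Classical in
theorem adjacencyBits_eq {n : ℕ} (G : SimpleGraph (Fin n)) (P : ℕ → ℕ → Prop)
    (h : ∀ a b, G.Adj a b ↔ P a.val b.val) : adjacencyBits G =
      (List.range n).flatMap fun a => (List.range n).map fun b => decide (P a b) := by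
  rw [← List.map_coe_finRange_eq_range, List.flatMap_map]
  simp only [adjacencyBits, List.map_map, h]
  rfl

open Classical in
theorem pt_graphOf (j : ℕ) : PT (fun φ : CNF => adjacencyBits (graphOf φ j)) := by
  simp only [adjacencyBits_eq _ _ (graphOf_adj _ j)]
  unfold adjN arcQ arcN arcG loc lit nV
  fun_prop

theorem graphOf_free (φ : CNF) {j : ℕ} (hj : 12 ≤ j) : (treeH j).Free (graphOf φ j) :=
  (free_congr_right (Iso.comap (num φ j) _)).2 ((grid φ).free hj)

theorem graphOf_ham (φ : CNF) {j : ℕ} (hj : 1 ≤ j) : Sat φ ↔ HasHamiltonianCycle (graphOf φ j) :=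
  (Iff.intro (ham_of_sat hj) (sat_of_ham hj)).trans (hasHam_congr (Iso.comap (num φ j) _)).symm

theorem hardness {j : ℕ} (hj : 12 ≤ j) {L : List Bool → Bool} (hL : L ∈ N68a2faeb.NP) :
    ∃ f : List Bool → List Bool, N68a2faeb.IsPolyTime f ∧ ∀ x, ∃ (n : ℕ) (G : SimpleGraph (Fin n)),
      f x = adjacencyBits G ∧ (treeH j).Free G ∧ (L x ↔ HasHamiltonianCycle G) := by
  obtain ⟨f, hf, h⟩ := cookLevin hL
  exact ⟨fun x => adjacencyBits (graphOf (f x) j), ((pt_graphOf j).comp hf).isPolyTime_bits,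
    fun x => ⟨_, _, rfl, graphOf_free _ hj, (h x).trans (graphOf_ham _ (by omega))⟩⟩

end Pool.Agent.MP_2e8011_lc

end

section

/-! Membership in NP. -/

namespace Pool.Agent.MP_2e8011_lc

open SimpleGraph

/-- A matrix written row by row. -/
def mat (k n : ℕ) (f : ℕ → ℕ → Bool) : List Bool :=
  (List.range k).flatMap fun a => (List.range n).map (f a)

theorem length_mat (k n : ℕ) (f : ℕ → ℕ → Bool) : (mat k n f).length = k * n := by
  induction k with
  | zero => simp [mat]
  | succ k ih =>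
    simp only [mat] at ih
    simp [mat, List.range_succ, List.flatMap_append, ih, Nat.succ_mul]

theorem getD_mat (k n : ℕ) (f : ℕ → ℕ → Bool) {a b : ℕ} (ha : a < k) (hb : b < n) :
    (mat k n f).getD (a * n + b) false = f a b := by
  induction k with
  | zero => omega
  | succ k ih =>
    have e : mat (k + 1) n f = mat k n f ++ (List.range n).map (f k) := by
      simp [mat, List.range_succ, List.flatMap_append]
    rw [e]
    by_cases h : a < k
    · rw [List.getD_append _ _ _ _ (by rw [length_mat]; nlinarith), ih h]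
    · obtain rfl : a = k := by omega
      rw [List.getD_append_right _ _ _ _ (by rw [length_mat]; omega), length_mat]
      simp [hb]

theorem eq_mat {x : List Bool} {n : ℕ} (h : n * n = x.length) :
    x = mat n n (fun a b => x.getD (a * n + b) false) := by
  refine List.ext_getElem (by rw [length_mat, h]) (fun i hi hi' => ?_)
  have hn : 0 < n := by
    rcases Nat.eq_zero_or_pos n with rfl | hn
    · omega
    · exact hn
  have e : i / n * n + i % n = i := Nat.div_add_mod' i n
  have := getD_mat n n (fun a b => x.getD (a * n + b) false)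
    (a := i / n) (b := i % n) (Nat.div_lt_of_lt_mul (by omega)) (Nat.mod_lt _ hn)
  rw [e, List.getD_eq_getElem _ _ hi', List.getD_eq_getElem _ _ hi] at this
  exact this.symm

/-- All lists of length `k` of numbers below `n`. -/
def tuples : ℕ → ℕ → List (List ℕ)
  | 0, _ => [[]]
  | k + 1, n => (tuples k n).flatMap fun l => (List.range n).map fun a => a :: l

theorem mem_tuples {k n : ℕ} {l : List ℕ} : l ∈ tuples k n ↔ l.length = k ∧ ∀ a ∈ l, a < n := by
  induction k generalizing l with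
  | zero => simp only [tuples, List.mem_singleton, List.length_eq_zero_iff]; grind
  | succ k ih =>
    simp only [tuples, List.mem_flatMap, List.mem_map, List.mem_range, ih]
    constructor
    · rintro ⟨m, ⟨h1, h2⟩, a, ha, rfl⟩
      exact ⟨by simp [h1], by simpa using ⟨ha, h2⟩⟩
    · rintro ⟨h1, h2⟩
      cases l with
      | nil => simp at h1
      | cons a m =>
        simp only [List.mem_cons, forall_eq_or_imp] at h2
        exact ⟨m, ⟨by simpa using h1, h2.2⟩, a, h2.1, rfl⟩

@[fun_prop] theorem pt_tuples {α : Type} [Enc α] (k : ℕ) {n : α → ℕ} (hn : PT n) :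
    PT (fun a => tuples k (n a)) := by
  induction k with
  | zero => exact PT.const _
  | succ k ih => unfold tuples; fun_prop

@[fun_prop] theorem PT.exists_mem {α β : Type} [Enc α] [Enc β] [Inhabited β] {l : α → List β}
    {p : α → β → Prop} {i : ∀ a, Decidable (∃ x ∈ l a, p a x)} [∀ a x, Decidable (p a x)]
    (hl : PT l) (hp : PT (fun q : α × β => decide (p q.1 q.2))) :
    PT (fun a => @decide (∃ x ∈ l a, p a x) (i a)) :=
  (PT.any (f := fun a x => decide (p a x)) hl hp).congr (fun a => by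
    rw [Bool.eq_iff_iff]; simp)

/-- The defining relation of the tree, on numbers. -/
def relH (j a b : ℕ) : Prop :=
  (b = a + 1 ∧ b ≤ j) ∨ (a = 0 ∧ (b = j + 1 ∨ b = j + 2)) ∨ (a = j ∧ (b = j + 3 ∨ b = j + 4))

/-- The `i`-th vertex of the cycle written in the witness. -/
def posW (w : List Bool) (n i : ℕ) : ℕ :=
  ((List.range n).filter (fun v => w.getD (i * n + v) false)).length

/-- The test made by the verifier. -/
def check (j : ℕ) (x w : List Bool) (n : ℕ) : Prop :=
  n * n = x.length ∧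
  (∀ a < n, ∀ b < n, x.getD (a * n + b) false = x.getD (b * n + a) false) ∧
  (∀ a < n, x.getD (a * n + a) false = false) ∧
  (¬ ∃ l ∈ tuples (j + 5) n, (∀ s < j + 5, ∀ t < j + 5, l.getD s 0 = l.getD t 0 → s = t) ∧
    ∀ s < j + 5, ∀ t < j + 5, relH j s t → x.getD (l.getD s 0 * n + l.getD t 0) false = true) ∧
  3 ≤ n ∧ (∀ i < n, posW w n i < n) ∧ (∀ i < n, ∀ k < n, posW w n i = posW w n k → i = k) ∧
  ∀ i < n, x.getD (posW w n i * n + posW w n ((i + 1) % n)) false = true

@[fun_prop] theorem pt_posW {α : Type} [Enc α] {w : α → List Bool} {n i : α → ℕ} (hw : PT w)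
    (hn : PT n) (hi : PT i) : PT (fun a => posW (w a) (n a) (i a)) := by
  unfold posW
  fun_prop

open Classical in
theorem pt_check (j : ℕ) :
    PT (fun p : List Bool × List Bool => decide (∃ n < p.1.length + 1, check j p.1 p.2 n)) := by
  refine PT.exists_lt (by fun_prop) ?_
  unfold check
  refine PT.decide_and (by fun_prop) (PT.decide_and ?_ (PT.decide_and ?_ (PT.decide_and
    (PT.decide_not (PT.exists_mem (by fun_prop) (PT.decide_and ?_ ?_)))
    (PT.decide_and (by fun_prop) (PT.decide_and ?_ (PT.decide_and ?_ ?_))))))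
  · exact PT.forall_lt (by fun_prop) (PT.forall_lt (by fun_prop) (by fun_prop))
  · exact PT.forall_lt (by fun_prop) (by fun_prop)
  · exact PT.forall_lt (by fun_prop) (PT.forall_lt (by fun_prop)
      (PT.decide_imp (by fun_prop) (by fun_prop)))
  · refine PT.forall_lt (by fun_prop) (PT.forall_lt (by fun_prop)
      (PT.decide_imp ?_ (by fun_prop)))
    unfold relH
    fun_prop
  · exact PT.forall_lt (by fun_prop) (by fun_prop)
  · exact PT.forall_lt (by fun_prop) (PT.forall_lt (by fun_prop)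
      (PT.decide_imp (by fun_prop) (by fun_prop)))
  · exact PT.forall_lt (by fun_prop) (by fun_prop)

theorem adjacencyBits_mat {n : ℕ} (G : SimpleGraph (Fin n)) (f : ℕ → ℕ → Bool)
    (h : ∀ a b, G.Adj a b ↔ f a.val b.val = true) : adjacencyBits G = mat n n f := by
  rw [adjacencyBits_eq G (fun a b => f a b = true) h]
  simp [mat]

theorem free_iff {j n : ℕ} (hj : 1 ≤ j) (G : SimpleGraph (Fin n)) (P : ℕ → ℕ → Prop)
    (h : ∀ a b, G.Adj a b ↔ P a.val b.val) : (treeH j).Free G ↔
    ¬ ∃ l ∈ tuples (j + 5) n, (∀ s < j + 5, ∀ t < j + 5, l.getD s 0 = l.getD t 0 → s = t) ∧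
      ∀ s < j + 5, ∀ t < j + 5, relH j s t → P (l.getD s 0) (l.getD t 0) := by
  refine not_congr ⟨?_, ?_⟩
  · rintro ⟨φ⟩
    have e : ∀ s (hs : s < j + 5), (List.ofFn fun i => (φ i).val).getD s 0 = (φ ⟨s, hs⟩).val := by
      intro s hs
      rw [List.getD_eq_getElem _ _ (by rw [List.length_ofFn]; exact hs), List.getElem_ofFn]
    refine ⟨List.ofFn fun i => (φ i).val, mem_tuples.2 ⟨by simp, ?_⟩, fun s hs t ht hst => ?_,
      fun s hs t ht hst => ?_⟩
    · intro a ha
      obtain ⟨i, rfl⟩ := List.mem_ofFn.1 ha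
      exact (φ i).2
    · rw [e s hs, e t ht] at hst
      simpa using φ.injective (Fin.ext hst)
    · rw [e s hs, e t ht, ← h]
      refine φ.toHom.map_adj ?_
      simp only [treeH, fromRel_adj, ne_eq, Fin.mk.injEq]
      unfold relH at hst
      omega
  · rintro ⟨l, hl, h1, h2⟩
    obtain ⟨hlen, hlt⟩ := mem_tuples.1 hl
    have hb : ∀ s : Fin (j + 5), l.getD s 0 < n := fun s => by
      rw [List.getD_eq_getElem _ _ (by rw [hlen]; exact s.2)]
      exact hlt _ (List.getElem_mem _)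
    refine ⟨⟨⟨fun s => ⟨l.getD s 0, hb s⟩, fun {s t} hst => ?_⟩, fun s t hst => ?_⟩⟩
    · simp only [treeH, fromRel_adj] at hst
      rcases hst.2 with h' | h'
      · exact (h _ _).2 (h2 s s.2 t t.2 h')
      · exact ((h _ _).2 (h2 t t.2 s s.2 h')).symm
    · exact Fin.ext (h1 s s.2 t t.2 (congrArg Fin.val hst))

theorem posW_mat {n : ℕ} (f : ℕ → ℕ) {i : ℕ} (hi : i < n) (hf : f i ≤ n) :
    posW (mat n n (fun a b => decide (b < f a))) n i = f i := by
  unfold posW
  rw [List.filter_congr (q := fun v => decide (v < f i))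
    (fun v hv => getD_mat n n _ hi (List.mem_range.1 hv))]
  obtain ⟨r, hr⟩ := Nat.exists_eq_add_of_le hf
  rw [hr, List.range_add, List.filter_append, List.filter_eq_self.2, List.filter_eq_nil_iff.2]
  · simp
  · simp
  · simp

theorem member {j : ℕ} (hj : 1 ≤ j) : hamiltonianFreeLanguage j ∈ N68a2faeb.NP := by
  classical
  refine mem_NP_of_PT Polynomial.X _ (pt_check j) (fun x => ?_)
  simp only [hamiltonianFreeLanguage, decide_eq_true_eq, Polynomial.eval_X]
  constructor
  · rintro ⟨n, G, rfl, hfree, hham⟩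
    let P : ℕ → ℕ → Prop := fun a b => ∃ (ha : a < n) (hb : b < n), G.Adj ⟨a, ha⟩ ⟨b, hb⟩
    have hP : ∀ a b, G.Adj a b ↔ P a.val b.val := fun a b => by simp [P]
    have hx : adjacencyBits G = mat n n (fun a b => decide (P a b)) :=
      adjacencyBits_mat G _ (fun a b => by rw [decide_eq_true_eq, hP])
    have hg : ∀ a < n, ∀ b < n, (adjacencyBits G).getD (a * n + b) false = decide (P a b) :=
      fun a ha b hb => by rw [hx, getD_mat n n _ ha hb]
    obtain ⟨h3, f, hf, hadj⟩ := hasHam_iff_seq.1 hham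
    simp only [Fintype.card_fin] at h3 hf hadj
    have hw := fun i hi => posW_mat (n := n) (fun i => (f i).val) (i := i) hi (f i).2.le
    have hlen : (adjacencyBits G).length = n * n := by rw [hx, length_mat]
    refine ⟨mat n n (fun a b => decide (b < (f a).val)), by rw [length_mat, hlen], n,
      by rw [hlen]; nlinarith, hlen.symm, fun a ha b hb => ?_, fun a ha => ?_, ?_, h3,
      fun i hi => ?_, fun i hi k hk h => ?_, fun i hi => ?_⟩
    · rw [hg a ha b hb, hg b hb a ha]
      simp [P, ha, hb, G.adj_comm]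
    · rw [hg a ha a ha]
      simp [P]
    · refine (free_iff hj G (fun a b => (adjacencyBits G).getD (a * n + b) false = true)
        (fun a b => ?_)).1 hfree
      rw [hg _ a.2 _ b.2, decide_eq_true_eq, hP]
    · rw [hw i hi]
      exact (f i).2
    · rw [hw i hi, hw k hk] at h
      exact hf i hi k hk (Fin.ext h)
    · rw [hw i hi, hw _ (Nat.mod_lt _ (by omega)), hg _ (f _).2 _ (f _).2, decide_eq_true_eq, ← hP]
      exact hadj i hi
  · rintro ⟨w, -, n, -, hlen, hsym, hirr, hfree, h3, hlt, hinj, hadj⟩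
    let G : SimpleGraph (Fin n) :=
      { Adj := fun a b => x.getD (a.val * n + b.val) false = true
        symm := ⟨fun a b h => by rw [← hsym _ a.2 _ b.2]; exact h⟩
        loopless := ⟨fun a h => by rw [hirr _ a.2] at h; cases h⟩ }
    refine ⟨n, G, ?_, (free_iff hj G (fun a b => x.getD (a * n + b) false = true)
      (fun a b => Iff.rfl)).2 hfree, hasHam_iff_seq.2 ⟨by simpa using h3,
      fun i => ⟨posW w n (i % n), hlt _ (Nat.mod_lt _ (by omega))⟩, ?_, ?_⟩⟩
    · rw [adjacencyBits_mat G (fun a b => x.getD (a * n + b) false) (fun a b => Iff.rfl)]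
      exact eq_mat hlen
    · intro i hi k hk h
      simp only [Fintype.card_fin] at hi hk
      simp only [Fin.mk.injEq, Nat.mod_eq_of_lt hi, Nat.mod_eq_of_lt hk] at h
      exact hinj i hi k hk h
    · intro i hi
      simp only [Fintype.card_fin] at hi ⊢
      have := hadj i hi
      simpa only [G, Nat.mod_eq_of_lt hi, Nat.mod_mod] using this

theorem adjacencyBits_inj {n m : ℕ} {G : SimpleGraph (Fin n)} {H : SimpleGraph (Fin m)}
    (h : adjacencyBits G = adjacencyBits H) : Nonempty (G ≃g H) := by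
  classical
  let P : ℕ → ℕ → Prop := fun a b => ∃ (ha : a < n) (hb : b < n), G.Adj ⟨a, ha⟩ ⟨b, hb⟩
  let Q : ℕ → ℕ → Prop := fun a b => ∃ (ha : a < m) (hb : b < m), H.Adj ⟨a, ha⟩ ⟨b, hb⟩
  have hx : adjacencyBits G = mat n n (fun a b => decide (P a b)) :=
    adjacencyBits_mat G _ (fun a b => by simp [P])
  have hy : adjacencyBits H = mat m m (fun a b => decide (Q a b)) :=
    adjacencyBits_mat H _ (fun a b => by simp [Q])
  rw [hx, hy] at h
  have hl := congrArg List.length h
  rw [length_mat, length_mat] at hl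
  obtain rfl : n = m := Nat.mul_self_inj.1 hl
  refine ⟨⟨Equiv.refl _, fun {a b} => ?_⟩⟩
  have := getD_mat n n (fun a b => decide (P a b)) a.2 b.2
  rw [h, getD_mat n n _ a.2 b.2] at this
  simpa [P, Q] using this

theorem complete {j : ℕ} (hj : 12 ≤ j) :
    N793a5b8e.IsCompleteFor N68a2faeb.NP (hamiltonianFreeLanguage j) := by
  classical
  refine ⟨member (by omega), fun L hL => ?_⟩
  obtain ⟨f, hf, h⟩ := hardness hj hL
  refine ⟨f, hf, fun x => ?_⟩
  obtain ⟨n, G, h1, h2, h3⟩ := h x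
  rw [Bool.eq_iff_iff, h3]
  simp only [hamiltonianFreeLanguage, decide_eq_true_eq]
  constructor
  · intro hG
    exact ⟨n, G, h1, h2, hG⟩
  · rintro ⟨m, H, e, -, hH⟩
    obtain ⟨φ⟩ := adjacencyBits_inj (h1.symm.trans e)
    exact (hasHam_congr φ).2 hH

end Pool.Agent.MP_2e8011_lc

end
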