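import Mathlib
import Pool.Agent.Mg.F2e8011.G284816

/-! Generated tile data. -/

namespace Pool.Agent.MP_a4408f_lc

/-- Tile 5. -/
def d5 : TDa where
  l := List.flatten [[(1, 2, 16, false, true, true), (16, 2, 17, true, false, true), (1, 16, 18, true, true, false),
    (2, 19, 17, false, false, false), (16, 17, 20, true, false, true),
    (18, 16, 20, true, true, false), (1, 18, 15, false, false, false),
    (2, 3, 19, false, false, false), (17, 19, 21, false, false, true),
    (20, 17, 21, false, true, true), (18, 20, 22, false, false, false),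
    (18, 22, 15, false, false, false), (0, 1, 15, false, false, false),
    (3, 23, 19, false, false, false), (21, 19, 24, false, false, true),
    (20, 21, 22, true, true, false), (14, 15, 22, false, false, false),
    (25, 23, 3, true, false, false), (19, 23, 26, false, true, true),
    (19, 27, 24, false, false, false), (21, 24, 28, true, false, true),
    (22, 21, 28, true, true, false), (22, 29, 14, false, false, false),
    (23, 25, 30, true, true, false), (3, 31, 25, false, false, false),
    (26, 23, 30, true, false, true), (32, 19, 26, false, true, true),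
    (32, 27, 19, true, false, false), (24, 27, 33, false, true, false),
    (28, 24, 34, false, true, true)],
    [(22, 28, 29, false, false, false), (13, 14, 29, false, false, false),
    (25, 31, 30, false, true, true), (3, 35, 31, false, true, false),
    (36, 26, 30, true, true, true), (32, 26, 36, true, true, false),
    (37, 27, 32, true, true, true), (33, 27, 38, true, true, false),
    (24, 33, 39, false, false, false), (34, 24, 39, true, false, true),
    (28, 34, 29, true, true, false), (29, 40, 13, false, false, false),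
    (30, 31, 41, true, false, true), (42, 35, 3, true, false, true),
    (31, 35, 41, true, true, false), (43, 36, 30, true, true, true),
    (37, 32, 36, true, false, true), (44, 27, 37, true, true, false),
    (44, 38, 27, true, true, true), (33, 38, 45, false, true, true),
    (39, 33, 46, false, false, false), (34, 39, 47, true, false, true),
    (29, 34, 47, true, true, false), (47, 40, 29, false, false, false),
    (40, 48, 13, false, false, false), (43, 30, 41, true, true, true),
    (42, 49, 35, true, false, true), (4, 42, 3, true, true, false),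
    (35, 49, 41, false, true, true), (50, 36, 43, true, true, true)],
    [(44, 37, 36, false, true, true), (38, 44, 36, true, true, false),
    (45, 38, 36, true, false, true), (51, 33, 45, false, true, true),
    (46, 33, 52, false, false, false), (39, 46, 53, false, true, true),
    (47, 39, 53, false, true, true), (47, 53, 40, true, true, false),
    (40, 54, 48, false, false, false), (12, 13, 48, false, false, false),
    (41, 55, 43, true, false, true), (56, 49, 42, false, true, true),
    (4, 56, 42, false, true, true), (49, 57, 41, false, true, true),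
    (50, 45, 36, true, true, true), (43, 58, 50, true, true, true),
    (59, 33, 51, false, false, true), (51, 45, 50, true, true, false),
    (60, 52, 33, false, false, false), (11, 46, 52, false, false, false),
    (53, 46, 54, true, false, true), (40, 53, 54, true, true, false),
    (54, 61, 48, true, true, false), (48, 61, 12, true, true, false),
    (57, 55, 41, false, true, true), (55, 58, 43, true, true, false),
    (56, 62, 49, true, true, false), (56, 4, 63, false, false, false),
    (49, 64, 57, true, true, false), (65, 50, 58, true, true, false)],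
    [(60, 33, 59, false, false, true), (59, 51, 66, true, true, true),
    (66, 51, 50, true, false, true), (67, 52, 60, false, false, false),
    (61, 46, 11, true, false, true), (10, 11, 52, false, false, false),
    (54, 46, 61, false, true, true), (61, 11, 12, true, false, true),
    (55, 57, 68, false, false, false), (55, 68, 58, false, true, true),
    (69, 62, 56, true, true, true), (64, 49, 62, true, true, true),
    (4, 5, 63, false, false, false), (56, 63, 69, false, false, true),
    (64, 70, 57, false, true, true), (65, 66, 50, false, true, true),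
    (59, 65, 58, true, false, false), (60, 59, 71, true, false, true),
    (66, 65, 59, false, true, true), (67, 72, 52, true, true, false),
    (67, 60, 71, false, true, true), (73, 10, 52, true, false, true),
    (57, 74, 68, true, false, false), (68, 75, 58, false, true, true),
    (70, 62, 69, true, true, true), (64, 62, 70, true, true, false),
    (5, 76, 63, false, false, false), (69, 63, 74, false, true, true),
    (57, 70, 74, true, false, true), (71, 59, 58, false, false, true)],
    [(77, 72, 67, true, true, false), (72, 78, 52, true, false, true),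
    (77, 67, 71, false, true, true), (73, 9, 10, true, false, true),
    (78, 73, 52, true, true, false), (68, 74, 79, false, true, false),
    (68, 80, 75, false, false, false), (75, 71, 58, false, true, true),
    (70, 69, 74, true, true, false), (5, 6, 76, false, false, false),
    (76, 81, 63, false, false, false), (63, 81, 74, false, true, true),
    (77, 80, 72, false, true, true), (80, 78, 72, false, true, true),
    (82, 77, 71, false, true, true), (83, 9, 73, false, true, true),
    (78, 83, 73, false, true, true), (74, 81, 79, true, false, true),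
    (68, 79, 8, false, false, false), (8, 80, 68, false, false, false),
    (75, 80, 82, false, false, true), (75, 82, 71, true, true, false),
    (76, 6, 7, false, true, true), (81, 76, 7, false, true, true),
    (80, 77, 82, false, false, false), (83, 78, 80, false, false, false),
    (8, 9, 83, false, false, false), (81, 7, 79, true, true, false),
    (79, 7, 8, true, false, false), (8, 83, 80, false, false, false)]]
  q := List.flatten [[(13692623, 4466822), (16895472, 6492800), (8927306, 7275530), (22761687, 8182684),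
    (12640337, 8565782), (15382715, 11248712), (8303569, 13345044), (27746108, 6402265),
    (18760022, 15129358), (29684121, 5313121), (26596586, 9551003), (24145649, 13456763),
    (12935201, 15776605), (8239427, 20548681), (29688146, 8964518), (31302231, 5885701),
    (25328630, 11363251), (24819053, 18462420), (13990269, 18611232), (33509178, 5496441),
    (27458360, 12842296), (25680868, 12783512), (25878452, 14804379), (17285583, 20167088),
    (9715838, 24673455), (33629709, 9654425), (35897189, 3948268), (31399906, 13102814),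
    (25790832, 13471738), (27178364, 15788679)],
    [(18988591, 24193403), (12731113, 21434428), (9498934, 27495876), (36716763, 7993811),
    (29583458, 15750768), (28152497, 17083534), (28612223, 24746702), (14424446, 23171686),
    (13401107, 25390057), (35053577, 14144831), (39260005, 6251089), (37738159, 11992856),
    (32986188, 17260049), (29710533, 18344449), (29478620, 20909847), (14377727, 27415867),
    (38816925, 8778495), (43580313, 7548736), (38166173, 9835102), (30437813, 17106654),
    (29471075, 17071351), (31622805, 22478378), (39513925, 18714013), (40548842, 9237226),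
    (39392844, 10575248), (32628484, 20517288), (33340296, 23764679), (34544013, 27497806),
    (41694121, 13032560), (35561807, 20399573)],
    [(47856589, 10311502), (34054405, 22453372), (34716631, 25413780), (45382136, 19151069),
    (37695413, 23731165), (45702632, 14008773), (34985027, 21775349), (39391211, 27328550)]]
  par := List.flatten [[0, 0, 0, 1, 1, 2, 2, 3, 3, 4, 5, 6, 6, 7, 8, 9, 11, 13, 13, 14, 14, 15, 16, 17, 17, 18, 18, 19,
    19, 20],
    [21, 22, 23, 24, 25, 26, 27, 28, 28, 29, 29, 31, 32, 33, 33, 34, 35, 36, 37, 37, 38, 39, 40, 41,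
    41, 42, 43, 43, 44, 45],
    [46, 48, 49, 49, 50, 50, 51, 53, 54, 54, 55, 56, 57, 58, 59, 59, 63, 63, 64, 64, 65, 67, 68, 69,
    70, 70, 71, 72, 73, 75],
    [76, 76, 77, 78, 79, 79, 80, 83, 84, 85, 86, 86, 87, 87, 88, 89, 89, 90, 91, 93, 93, 95, 98, 99,
    100, 101, 102, 103, 104, 106],
    [109, 109, 110, 111, 111, 112, 113, 113, 114, 116, 116, 117, 120, 121, 122, 123, 124, 125, 125,
    126, 126, 127, 129, 130, 132, 133, 135, 137, 138, 139]]
  iv := List.flatten [[((310, 0, 200, 50), [(0, (210, 0, 200, 50)), (1, (100, 0, 0, 0))], (-60000, 0, -45010, 0), 1),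
    ((370, 0, 280, 50), [(0, (270, 0, 280, 50)), (1, (100, 0, 0, 0))], (-53823, 0, -49652, 0), 1),
    ((210, 0, 200, 50), [(0, (210, 0, 200, 50))], (-59992, 0, -44985, 0), 1),
    ((530, 0, 240, 50), [(0, (530, 0, 240, 50))], (44951, 0, -60000, 0), 1),
    ((270, 0, 280, 50), [(0, (270, 0, 280, 50))], (-53831, 0, -49596, 0), 1),
    ((370, -50, 330, 50), [(0, (270, -50, 330, 50)), (1, (100, 0, 0, 0))], (-59788, 0, -60000, 0), 1),
    ((270, -50, 330, 50), [(0, (270, -50, 330, 50))], (-59780, 0, -59886, 0), 1),
    ((630, 0, 240, 50), [(0, (630, 0, 240, 50))], (44958, 0, -60000, 0), 1),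
    ((370, 0, 380, 50), [(0, (270, 0, 380, 50)), (1, (100, 0, 0, 0))], (-59992, 0, -59662, 0), 1),
    ((630, 0, 240, 50), [(0, (630, 0, 240, 50))], (44976, 0, -59999, 0), 1),
    ((530, 50, 290, 50), [(0, (530, 0, 240, 50)), (1, (0, 50, 50, 0))], (44638, 0, -59473, 0), 1),
    ((573, 0, 502, 0), [(0, (573, 0, 502, 0))], (-60000, 0, -60000, 0), 1),
    ((270, 0, 380, 50), [(0, (270, 0, 380, 50))], (-60000, 0, -59490, 0), 1),
    ((220, 0, 380, 100), [(0, (270, 0, 380, 50)), (1, (-50, 0, 0, 50))], (-59840, 0, -59388, 0), 1),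
    ((630, 50, 290, 50), [(0, (630, 0, 240, 50)), (1, (0, 50, 50, 0))], (44630, 0, -59416, 0), 1),
    ((730, 0, 240, 50), [(0, (730, 0, 240, 50))], (44983, 0, -60000, 0), 1),
    ((590, 0, 320, 50), [(0, (530, 0, 400, 50)), (10, (1, 0, 0, 0))], (-59491, 0, 18341, 0), 1),
    ((530, 0, 500, 50), [(0, (530, 0, 400, 50)), (1, (0, 0, 100, 0))], (-59746, 0, 18598, 0), 1),
    ((320, 0, 380, 100), [(0, (270, 0, 380, 50)), (1, (50, 0, 0, 50))], (-59847, 0, -59587, 0), 1),
    ((730, 0, 240, 50), [(0, (730, 0, 240, 50))], (45001, 0, -59999, 0), 1),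
    ((590, 50, 370, 50), [(0, (530, 0, 400, 50)), (1, (0, 50, 50, 0)), (10, (1, 0, 0, 0))], (-59753, 0, 18810, 0), 1),
    ((590, 0, 320, 50), [(0, (530, 0, 400, 50)), (10, (1, 0, 0, 0))], (-59482, 0, 18356, 0), 1),
    ((590, 0, 420, 50), [(0, (530, 0, 400, 50)), (1, (0, 0, 100, 0)), (10, (1, 0, 0, 0))], (-60000, 0, 18397, 0), 1),
    ((370, 0, 380, 150), [(0, (270, 0, 380, 50)), (1, (100, 0, 0, 100))], (-59648, 0, -59711, 0), 1),
    ((210, 0, 460, 150), [(0, (210, 0, 460, 50)), (1, (0, 0, 0, 100))], (-59992, 0, -59728, 0), 1),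
    ((730, 50, 290, 50), [(0, (730, 0, 240, 50)), (1, (0, 50, 50, 0))], (44622, 0, -59359, 0), 1),
    ((810, 0, 180, 50), [(0, (810, 0, 180, 50))], (44990, 0, -60000, 0), 1),
    ((670, 50, 370, 50), [(0, (670, 0, 320, 50)), (1, (0, 50, 50, 0))], (43780, 0, -60000, 0), 1),
    ((590, 0, 420, 50), [(0, (530, 0, 400, 50)), (1, (0, 0, 100, 0)), (10, (1, 0, 0, 0))], (-59957, 0, 18363, 0), 1),
    ((530, 50, 450, 50), [(0, (530, 0, 400, 50)), (1, (0, 50, 50, 0))], (-59550, 0, 18952, 0), 1)],
    [((370, 0, 540, 150), [(0, (270, 0, 540, 50)), (1, (100, 0, 0, 100))], (-59992, 0, -60000, 0), 1),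
    ((270, 0, 380, 150), [(0, (270, 0, 380, 50)), (1, (0, 0, 0, 100))], (-59656, 0, -59486, 0), 1),
    ((210, 0, 620, 150), [(0, (270, 0, 540, 50)), (1, (0, 0, 0, 100)), (8, (1, 0, 0, 0))], (10025, 0, -7185, 0), 1),
    ((830, 0, 240, 50), [(0, (730, 0, 240, 50)), (1, (100, 0, 0, 0))], (45009, 0, -59916, 0), 1),
    ((630, 50, 450, 50), [(0, (630, 0, 400, 50)), (1, (0, 50, 50, 0))], (-59558, 0, -59701, 0), 1),
    ((630, 0, 500, 50), [(0, (630, 0, 400, 50)), (1, (0, 0, 100, 0))], (-59738, 0, -59998, 0), 1),
    ((710, 0, 560, 150), [(0, (810, -50, 510, 50)), (1, (-100, 50, 50, 100))], (-2078, 0, -60000, 0), 1),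
    ((310, 0, 460, 150), [(0, (210, 0, 460, 50)), (1, (100, 0, 0, 100))], (-60000, 0, -59985, 0), 1),
    ((270, 0, 540, 150), [(0, (270, 0, 540, 50)), (1, (0, 0, 0, 100))], (-60000, 0, -59713, 0), 1),
    ((770, 50, 370, 50), [(0, (670, 0, 320, 50)), (1, (100, 50, 50, 0))], (43788, 0, -59829, 0), 1),
    ((910, 0, 180, 50), [(0, (810, 0, 180, 50)), (1, (100, 0, 0, 0))], (44983, 0, -59964, 0), 1),
    ((830, 50, 290, 50), [(0, (730, 0, 240, 50)), (1, (100, 50, 50, 0))], (44615, 0, -59218, 0), 1),
    ((730, 50, 450, 50), [(0, (730, 0, 400, 50)), (1, (0, 50, 50, 0))], (-59565, 0, 17500, 0), 1),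
    ((580, 50, 450, 100), [(0, (730, 0, 400, 50)), (1, (-150, 50, 50, 50))], (-59775, 0, 17073, 0), 1),
    ((580, 50, 450, 100), [(0, (730, 0, 400, 50)), (1, (-150, 50, 50, 50))], (-59760, 0, 17083, 0), 1),
    ((310, 0, 620, 150), [(0, (270, 0, 540, 50)), (1, (100, 0, 0, 100)), (8, (1, 0, 0, 0))], (10017, 0, -7503, 0), 1),
    ((898, 0, 304, 0), [(0, (898, 0, 304, 0))], (-60000, 0, -60000, 0), 1),
    ((930, 50, 190, 50), [(0, (830, 0, 240, 50)), (1, (100, 50, -50, 0))], (45520, 0, -59221, 0), 1),
    ((830, 0, 240, 50), [(0, (730, 0, 240, 50)), (1, (100, 0, 0, 0))], (45031, 0, -59912, 0), 1),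
    ((730, 0, 500, 50), [(0, (730, 0, 400, 50)), (1, (0, 0, 100, 0))], (-59711, 0, 17262, 0), 1),
    ((630, 0, 500, 50), [(0, (630, 0, 400, 50)), (1, (0, 0, 100, 0))], (-59719, 0, -60000, 0), 1),
    ((630, 50, 450, 150), [(0, (730, 0, 400, 50)), (1, (-100, 50, 50, 100))], (-60000, 0, 17231, 0), 1),
    ((830, 50, 450, 50), [(0, (730, 0, 400, 50)), (1, (100, 50, 50, 0))], (-59573, 0, 17702, 0), 1),
    ((930, 0, 240, 50), [(0, (830, 0, 240, 50)), (1, (100, 0, 0, 0))], (45061, 0, -60000, 0), 1),
    ((930, 0, 240, 50), [(0, (830, 0, 240, 50)), (1, (100, 0, 0, 0))], (45039, 0, -59992, 0), 1),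
    ((680, 50, 450, 100), [(0, (730, 0, 400, 50)), (1, (-50, 50, 50, 50))], (-59768, 0, 17374, 0), 1),
    ((710, 50, 510, 150), [(0, (810, 0, 460, 50)), (1, (-100, 50, 50, 100))], (-2087, 0, -60000, 0), 1),
    ((790, 0, 620, 150), [(0, (730, 0, 700, 150)), (9, (-1, 0, 0, 0))], (-30141, 0, -22596, 0), 1),
    ((930, 50, 290, 50), [(0, (830, 0, 240, 50)), (1, (100, 50, 50, 0))], (44607, 0, -59228, 0), 1),
    ((780, 50, 450, 100), [(0, (730, 0, 400, 50)), (1, (50, 50, 50, 50))], (-59760, 0, 17603, 0), 1)],
    [((1090, 50, 190, 50), [(0, (1090, 50, 290, 50)), (1, (0, 0, -100, 0))], (975, 0, 8, 0), 1),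
    ((730, 50, 450, 150), [(0, (730, 0, 400, 50)), (1, (0, 50, 50, 100))], (-59992, 0, 17494, 0), 1),
    ((810, 0, 560, 150), [(0, (810, -50, 510, 50)), (1, (0, 50, 50, 100))], (-2070, 0, -59632, 0), 1),
    ((1010, 50, 350, 50), [(0, (830, 0, 240, 50)), (1, (100, 50, 50, 0)), (11, (1, 0, 0, 0))], (93, 0, 111, 0), 1),
    ((810, 50, 510, 150), [(0, (810, 0, 460, 50)), (1, (0, 50, 50, 100))], (-2094, 0, -59690, 0), 1),
    ((1010, 50, 250, 50), [(0, (830, 0, 240, 50)), (1, (100, 50, -50, 0)), (11, (1, 0, 0, 0))], (1037, 0, 103, 0), 1),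
    ((780, 50, 450, 100), [(0, (730, 0, 400, 50)), (1, (50, 50, 50, 50))], (-59775, 0, 17611, 0), 1),
    ((890, 0, 620, 150), [(0, (730, 0, 700, 150)), (1, (100, 0, 0, 0)), (9, (-1, 0, 0, 0))], (-30148, 0, -22181, 0), 1)]]
  js := [([(0, (0, 0, 160, 100)), (1, (0, 0, 0, -100))], (-60, 0, 80, 0)),
    ([(0, (-80, 50, 190, 100)), (1, (100, -50, -50, -100))], (-60, 0, 80, 0)),
    ([(0, (0, 0, -160, 0))], (60, 0, -80, 0)),
    ([(0, (260, 50, 50, 0)), (1, (-100, -50, -50, 0))], (80, 0, 60, 0))]
  ce := [⟨11, 1, 1, 1, [],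
    [((0, 0), (2, 1), 1, 2), ((4, 2), (5, 1), 1, 2), ((9, 0), (15, 1), 1, 2),
    ((20, 2), (21, 1), 1, 2), ((29, 0), (40, 1), 1, 2), ((51, 2), (52, 1), 1, 2),
    ((66, 0), (67, 1), 1, 2), ((80, 2), (81, 1), 1, 2), ((96, 0), (82, 1), 1, 2),
    ((97, 2), (83, 1), 1, 2)],
    0x818181818181818181818181818181818181818181818181818181818180818181818180808181818181818081818181818181818181808081818181818081808180818180808080818181818181818181818080⟩,
    ⟨3, 9, 1, -1, [],
    [((57, 0), (72, 2), 1, 2), ((56, 1), (71, 2), 1, 2), ((58, 1), (73, 2), 1, 2),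
    ((70, 1), (84, 2), 1, 2), ((85, 0), (99, 2), 1, 2), ((127, 0), (113, 2), 1, 2),
    ((141, 2), (141, 2), 1, 0), ((122, 0), (134, 2), 1, 2), ((120, 0), (132, 2), 1, 2),
    ((121, 1), (133, 2), 1, 2), ((124, 0), (136, 2), 1, 2), ((123, 1), (135, 2), 1, 2)],
    0x7f7f7f7f7f7f7f7f7f7f8080807f7f7f8080807f7f7f808080807f7f7f80808080807f8080808080808080808080808080808080808080808080808080808080808080808080808080807f7f7f7f7f7f80808080⟩,
    ⟨3, 6, 6, -5, [],
    List.flatten [[((57, 0), (72, 2), 6, 2), ((56, 1), (71, 2), 6, 2), ((58, 1), (73, 2), 6, 2),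
    ((70, 1), (84, 2), 6, 2), ((85, 0), (99, 2), 6, 2), ((113, 0), (113, 2), 1, 1),
    ((113, 1), (113, 2), 1, 1), ((127, 0), (127, 2), 1, 1), ((127, 1), (127, 2), 1, 1),
    ((127, 0), (113, 2), 3, 2), ((141, 2), (141, 2), 3, 0), ((134, 0), (134, 2), 1, 1),
    ((134, 1), (134, 2), 1, 1), ((122, 0), (122, 2), 1, 1), ((122, 1), (122, 2), 1, 1),
    ((110, 0), (110, 2), 1, 1), ((110, 1), (110, 2), 1, 1), ((107, 2), (107, 2), 3, 0),
    ((119, 1), (119, 2), 3, 1), ((106, 2), (106, 2), 6, 0), ((89, 0), (105, 2), 6, 2),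
    ((92, 2), (92, 2), 6, 0), ((77, 0), (63, 2), 6, 2), ((62, 1), (49, 2), 6, 2),
    ((61, 2), (61, 2), 6, 0), ((60, 0), (60, 2), 2, 1), ((60, 1), (60, 2), 2, 1),
    ((46, 2), (46, 2), 6, 0), ((35, 0), (26, 2), 6, 2), ((25, 1), (18, 2), 6, 2)],
    [((23, 2), (23, 2), 6, 0), ((42, 1), (32, 2), 6, 2), ((44, 2), (44, 2), 6, 0),
    ((73, 0), (58, 2), 6, 2), ((88, 2), (88, 2), 6, 0), ((118, 1), (104, 2), 6, 2),
    ((128, 2), (128, 2), 6, 0), ((117, 0), (117, 2), 2, 1), ((117, 1), (117, 2), 2, 1),
    ((137, 1), (131, 2), 6, 2), ((147, 0), (143, 2), 6, 2), ((142, 0), (142, 2), 2, 1),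
    ((142, 1), (142, 2), 2, 1)]],
    0x80807a808080807a80808080837a7a808080807a7a7a80808086807a8080808080867a8080808680868086808080808680808080808680808086808080808080808080808080808080808080807a7a7a80808080⟩]

theorem ok5 : allOk 5 d5 = true := by decide +kernel

/-- Tile 6. -/
def d6 : TDa where
  l := List.flatten [[(14, 15, 16, true, false, true), (16, 15, 17, false, true, true),
    (16, 18, 14, true, true, true), (17, 15, 19, true, false, false),
    (16, 17, 20, true, true, false), (16, 20, 18, false, true, true),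
    (14, 18, 21, true, false, false), (0, 19, 15, false, false, false),
    (19, 22, 17, false, false, false), (20, 17, 23, true, false, true),
    (20, 23, 18, true, true, true), (24, 21, 18, false, false, true),
    (13, 14, 21, false, false, false), (0, 1, 19, false, false, false),
    (19, 25, 22, true, true, false), (22, 26, 17, true, true, false),
    (17, 26, 23, true, true, false), (23, 24, 18, false, true, true),
    (27, 21, 24, false, false, false), (13, 21, 28, false, false, false),
    (1, 25, 19, true, true, false), (25, 29, 22, true, false, true),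
    (22, 29, 26, false, true, true), (26, 30, 23, true, false, true),
    (23, 31, 24, true, true, false), (27, 32, 21, true, true, false),
    (24, 31, 27, true, true, false), (21, 32, 28, true, true, false),
    (28, 33, 13, false, false, false), (1, 2, 25, false, true, true)],
    [(2, 29, 25, false, true, true), (26, 29, 34, true, true, true),
    (30, 26, 35, true, false, true), (23, 30, 31, false, true, true),
    (27, 36, 32, false, true, true), (31, 36, 27, true, false, true),
    (32, 37, 28, true, false, true), (28, 38, 33, true, true, false),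
    (33, 39, 13, false, false, false), (2, 34, 29, false, true, false),
    (35, 26, 34, false, true, true), (30, 35, 40, true, true, true),
    (30, 40, 31, true, true, true), (36, 41, 32, true, true, true),
    (31, 40, 36, true, false, true), (37, 32, 41, true, true, true),
    (28, 37, 38, false, true, true), (33, 38, 42, true, true, false),
    (33, 42, 39, false, false, false), (12, 13, 39, false, false, false),
    (43, 34, 2, true, false, false), (35, 34, 44, true, true, false),
    (44, 40, 35, true, true, false), (36, 45, 41, false, false, true),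
    (36, 40, 45, false, false, false), (37, 41, 45, true, false, false),
    (37, 46, 38, false, false, true), (38, 47, 42, true, false, true),
    (42, 48, 39, true, true, false), (39, 48, 12, true, true, false)],
    [(49, 34, 43, false, true, false), (2, 50, 43, false, false, false),
    (44, 34, 49, true, false, true), (44, 49, 40, true, true, true),
    (49, 45, 40, false, false, true), (37, 45, 51, false, false, false),
    (52, 46, 37, true, false, false), (38, 46, 47, false, false, true),
    (42, 47, 48, false, true, true), (48, 11, 12, true, false, true),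
    (49, 43, 53, false, true, true), (2, 3, 50, false, false, false),
    (43, 50, 53, false, true, true), (49, 53, 45, true, true, false),
    (45, 54, 51, false, true, false), (51, 52, 37, true, false, false),
    (52, 55, 46, true, false, true), (47, 46, 10, false, false, false),
    (11, 48, 47, true, true, false), (3, 56, 50, false, true, false),
    (53, 50, 57, true, false, true), (45, 53, 57, true, true, false),
    (58, 54, 45, true, false, false), (59, 51, 54, true, true, true),
    (60, 52, 51, true, true, false), (61, 55, 52, false, true, true),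
    (55, 62, 46, true, true, false), (62, 10, 46, true, false, true),
    (10, 11, 47, false, false, false), (63, 56, 3, true, false, false)],
    [(57, 50, 56, false, true, false), (45, 57, 64, false, true, false),
    (59, 54, 58, true, true, true), (45, 64, 58, false, false, false),
    (59, 60, 51, true, false, true), (60, 61, 52, false, true, true),
    (65, 55, 61, false, false, false), (55, 65, 62, false, true, true),
    (62, 9, 10, true, false, true), (63, 66, 56, true, true, true), (67, 63, 3, true, false, true),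
    (57, 56, 68, false, true, true), (68, 64, 57, true, true, true),
    (69, 59, 58, true, true, false), (70, 58, 64, true, false, true),
    (71, 60, 59, false, true, true), (8, 61, 60, false, false, false),
    (8, 65, 61, false, false, false), (65, 9, 62, false, true, true),
    (72, 66, 63, true, true, false), (56, 66, 73, true, false, true),
    (67, 72, 63, true, false, true), (4, 67, 3, true, true, false),
    (68, 56, 73, true, true, false), (68, 73, 64, false, true, true),
    (69, 71, 59, false, true, true), (70, 69, 58, true, false, true),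
    (74, 70, 64, true, true, true), (8, 60, 71, false, false, false),
    (8, 9, 65, false, false, false)],
    [(72, 75, 66, false, true, true), (73, 66, 74, false, true, true),
    (76, 72, 67, false, true, true), (4, 76, 67, false, true, true),
    (73, 74, 64, true, true, true), (71, 69, 77, false, false, false),
    (77, 69, 70, false, true, true), (78, 70, 74, true, true, false),
    (71, 79, 8, false, false, false), (76, 75, 72, false, false, false),
    (66, 75, 78, true, false, true), (66, 78, 74, true, false, true),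
    (76, 4, 80, false, false, false), (77, 79, 71, false, false, false),
    (78, 77, 70, false, true, true), (79, 81, 8, false, false, false),
    (82, 75, 76, true, false, false), (78, 75, 83, false, true, true),
    (4, 5, 80, false, false, false), (80, 82, 76, true, false, false),
    (77, 84, 79, true, false, false), (78, 84, 77, true, true, false),
    (79, 85, 81, false, false, false), (81, 7, 8, false, false, false),
    (75, 82, 86, true, false, true), (83, 75, 86, true, true, false),
    (83, 84, 78, true, true, true), (5, 6, 80, false, true, false),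
    (82, 80, 85, true, false, true), (87, 79, 84, false, false, true)],
    [(79, 82, 85, true, true, false), (85, 6, 81, true, true, false), (81, 6, 7, true, true, false),
    (86, 82, 87, false, true, true), (83, 86, 84, false, true, true),
    (85, 80, 6, false, true, true), (87, 82, 79, true, true, false), (86, 87, 84, true, true, true)]]
  q := List.flatten [[(4476651, 13989275), (7773501, 10235426), (7070242, 16283309), (6929651, 5053766),
    (7539509, 13427642), (8656327, 20612666), (11171614, 6671784), (10837644, 13202557),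
    (10911320, 16467716), (12632791, 3415387), (13459440, 9302957), (13601594, 17554797),
    (12933767, 24235244), (15062688, 5351384), (14718705, 12015600), (14390792, 14685250),
    (16077369, 19747596), (11473451, 27388816), (18049595, 7366791), (16602329, 10277159),
    (17972163, 16260755), (22832063, 21689233), (18563392, 25973151), (10458214, 28852361),
    (18303323, 12610076), (20468299, 18132880), (15411879, 27883325), (21775044, 6438206),
    (18480583, 10090371), (24991603, 14833934)],
    [(27570594, 26429656), (21158601, 28212633), (15405739, 28989664), (20967083, 10107459),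
    (25656189, 5411403), (30224801, 20045994), (31826677, 24115412), (24202353, 9305378),
    (30222421, 17384390), (34342299, 26725764), (30337892, 6988943), (27621845, 9735889),
    (31587200, 15715695), (34086079, 18941935), (37389965, 23311059), (38600339, 26490764),
    (34271129, 28291401), (33235177, 5295184), (30506078, 12185529), (39442753, 28301586),
    (34133058, 8939772), (35688748, 3701922), (30036957, 9690143), (35490192, 16922227),
    (34226831, 14026155), (39601895, 20272248), (36016187, 6845284), (31682015, 9850212),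
    (33396091, 11446675), (37831571, 9920400)],
    [(39192378, 6369142), (37948953, 15655100), (36432473, 12231705), (42696181, 16803169),
    (44283984, 6656837), (47574785, 17856928), (41333780, 11090411), (38244662, 11958737),
    (39246145, 13675095), (45177746, 12481469), (39468460, 12007750), (40686142, 13394106)]]
  par := List.flatten [[0, 0, 0, 1, 1, 2, 2, 3, 3, 4, 5, 6, 6, 7, 8, 8, 9, 10, 11, 12, 13, 14, 15, 16, 17, 18, 18, 19,
    19, 20],
    [21, 22, 23, 23, 25, 26, 27, 28, 28, 30, 31, 32, 33, 34, 35, 36, 36, 37, 38, 38, 39, 40, 41, 43,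
    44, 45, 46, 47, 48, 49],
    [50, 50, 51, 52, 54, 55, 56, 56, 57, 59, 60, 61, 61, 64, 65, 65, 66, 67, 68, 71, 72, 73, 74, 74,
    75, 76, 76, 77, 77, 79],
    [79, 81, 82, 82, 83, 84, 85, 86, 87, 89, 89, 90, 91, 92, 93, 94, 95, 96, 97, 99, 99, 100, 100,
    101, 102, 103, 103, 104, 105, 107],
    [109, 110, 111, 112, 114, 115, 116, 117, 118, 120, 120, 121, 123, 125, 126, 128, 129, 130, 132,
    132, 133, 134, 135, 135, 136, 137, 137, 138, 139, 140],
    [142, 142, 143, 144, 145, 147, 149, 149]]
  iv := List.flatten [[((170, 0, 340, 50), [(0, (170, -50, 290, 50)), (2, (0, 50, 50, 0))], (19, 0, -11, 0), 1),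
    ((270, -50, 290, 50), [(0, (270, -50, 290, 50))], (-11, 0, -24737, 0), 1),
    ((210, 0, 461, 0), [(0, (210, 0, 461, 0))], (-60000, 0, -60000, 0), 1),
    ((190, 0, 180, 50), [(0, (190, 0, 180, 50))], (-32615, 0, -43468, 0), 1),
    ((270, 0, 340, 50), [(0, (270, -50, 290, 50)), (2, (0, 50, 50, 0))], (30, 0, -24835, 0), 1),
    ((270, -50, 390, 150), [(0, (270, -100, 340, 50)), (1, (0, 0, 0, 100)), (2, (0, 50, 50, 0))], (-59662, 0, -59562, 0), 1),
    ((270, 0, 240, 50), [(0, (270, 0, 240, 50))], (-20290, 0, -59883, 0), 1),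
    ((270, 0, 340, 50), [(0, (270, -50, 290, 50)), (2, (0, 50, 50, 0))], (57, 0, -24833, 0), 1),
    ((220, 0, 340, 100), [(0, (270, -50, 290, 50)), (1, (-50, 0, 0, 50)), (2, (0, 50, 50, 0))], (-59989, 0, -59487, 0), 1),
    ((290, 0, 180, 50), [(0, (190, 0, 180, 50)), (1, (100, 0, 0, 0))], (-32626, 0, -43519, 0), 1),
    ((370, -50, 290, 50), [(0, (270, -50, 290, 50)), (1, (100, 0, 0, 0))], (-22, 0, -24936, 0), 1),
    ((270, 0, 340, 150), [(0, (270, -50, 290, 50)), (1, (0, 0, 0, 100)), (2, (0, 50, 50, 0))], (-59697, 0, -59644, 0), 1),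
    ((270, 0, 440, 150), [(0, (270, -50, 390, 50)), (1, (0, 0, 0, 100)), (2, (0, 50, 50, 0))], (-59825, 0, -59258, 0), 1),
    ((370, 0, 240, 50), [(0, (270, 0, 240, 50)), (1, (100, 0, 0, 0))], (-20279, 0, -60000, 0), 1),
    ((370, 0, 340, 50), [(0, (270, -50, 290, 50)), (1, (100, 0, 0, 0)), (2, (0, 50, 50, 0))], (68, 0, -25113, 0), 1),
    ((320, 0, 340, 100), [(0, (270, -50, 290, 50)), (1, (50, 0, 0, 50)), (2, (0, 50, 50, 0))], (-60000, 0, -59806, 0), 1),
    ((370, -50, 390, 150), [(0, (270, -100, 340, 50)), (1, (100, 0, 0, 100)), (2, (0, 50, 50, 0))], (-59673, 0, -60000, 0), 1),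
    ((270, -50, 490, 150), [(0, (270, -100, 440, 50)), (1, (0, 0, 0, 100)), (2, (0, 50, 50, 0))], (-59790, 0, -59176, 0), 1),
    ((470, -50, 290, 50), [(0, (370, -50, 290, 50)), (1, (100, 0, 0, 0))], (-33, 0, -34718, 0), 1),
    ((370, 0, 340, 50), [(0, (270, -50, 290, 50)), (1, (100, 0, 0, 0)), (2, (0, 50, 50, 0))], (103, 0, -25131, 0), 1),
    ((370, 0, 340, 150), [(0, (270, -50, 290, 50)), (1, (100, 0, 0, 100)), (2, (0, 50, 50, 0))], (-59686, 0, -60000, 0), 1),
    ((370, 0, 440, 150), [(0, (270, -50, 390, 50)), (1, (100, 0, 0, 100)), (2, (0, 50, 50, 0))], (-59814, 0, -60000, 0), 1),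
    ((370, -50, 490, 150), [(0, (270, -100, 440, 50)), (1, (100, 0, 0, 100)), (2, (0, 50, 50, 0))], (-59801, 0, -60000, 0), 1),
    ((210, 0, 620, 150), [(0, (270, -50, 490, 50)), (1, (0, 0, 0, 100)), (2, (0, 50, 50, 0)), (8, (1, 0, 0, 0))], (10122, 0, -6620, 0), 1),
    ((385, 0, 450, 0), [(0, (385, 0, 450, 0))], (-60000, 0, -60000, 0), 1),
    ((361, 0, 648, 0), [(0, (361, 0, 648, 0))], 0, 1),
    ((270, 0, 540, 150), [(0, (270, -50, 490, 50)), (1, (0, 0, 0, 100)), (2, (0, 50, 50, 0))], (-59825, 0, -59094, 0), 1),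
    ((470, 0, 240, 50), [(0, (370, -50, 290, 50)), (1, (100, 0, 0, 0)), (2, (0, 50, -50, 0))], (-209, 0, -35001, 0), 1),
    ((470, 0, 340, 50), [(0, (370, -50, 290, 50)), (1, (100, 0, 0, 0)), (2, (0, 50, 50, 0))], (114, 0, -34995, 0), 1),
    ((550, 0, 400, 50), [(0, (370, -50, 290, 50)), (1, (100, 0, 0, 0)), (2, (0, 50, 50, 0)), (9, (1, 0, 0, 0))], (18916, 0, -60000, 0), 1)],
    [((730, 0, 540, 150), [(0, (730, 50, 490, 50)), (1, (0, 0, 0, 100)), (2, (0, -50, 50, 0))], (-53922, 0, -49514, 0), 1),
    ((370, 0, 540, 150), [(0, (270, -50, 490, 50)), (1, (100, 0, 0, 100)), (2, (0, 50, 50, 0))], (-59814, 0, -60000, 0), 1),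
    ((310, 0, 620, 150), [(0, (270, -50, 490, 50)), (1, (100, 0, 0, 100)), (2, (0, 50, 50, 0)), (8, (1, 0, 0, 0))], (10111, 0, -7570, 0), 1),
    ((470, 0, 340, 50), [(0, (370, -50, 290, 50)), (1, (100, 0, 0, 0)), (2, (0, 50, 50, 0))], (144, 0, -34990, 0), 1),
    ((630, 0, 240, 50), [(0, (630, 50, 290, 50)), (2, (0, -50, -50, 0))], (18800, 0, -59595, 0), 1),
    ((730, 0, 440, 150), [(0, (730, 50, 390, 50)), (1, (0, 0, 0, 100)), (2, (0, -50, 50, 0))], (-59976, 0, -60000, 0), 1),
    ((730, 50, 490, 150), [(0, (730, 100, 440, 50)), (1, (0, 0, 0, 100)), (2, (0, -50, 50, 0))], (-59989, 0, -60000, 0), 1),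
    ((550, 0, 300, 50), [(0, (370, -50, 290, 50)), (1, (100, 0, 0, 0)), (2, (0, 50, -50, 0)), (9, (1, 0, 0, 0))], (18518, 0, -59989, 0), 1),
    ((736, 0, 648, 0), [(0, (736, 0, 648, 0))], 0, 1),
    ((830, 0, 540, 150), [(0, (730, 50, 490, 50)), (1, (100, 0, 0, 100)), (2, (0, -50, 50, 0))], (-53912, 0, -48805, 0), 1),
    ((630, 50, 290, 50), [(0, (630, 50, 290, 50))], (19021, 0, -60000, 0), 1),
    ((630, 0, 340, 50), [(0, (630, 50, 290, 50)), (2, (0, -50, 50, 0))], (19241, 0, -59584, 0), 1),
    ((730, 0, 340, 150), [(0, (730, 50, 290, 50)), (1, (0, 0, 0, 100)), (2, (0, -50, 50, 0))], (-59976, 0, -60000, 0), 1),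
    ((730, 50, 390, 150), [(0, (730, 100, 340, 50)), (1, (0, 0, 0, 100)), (2, (0, -50, 50, 0))], (-59989, 0, -60000, 0), 1),
    ((830, 0, 440, 150), [(0, (730, 50, 390, 50)), (1, (100, 0, 0, 100)), (2, (0, -50, 50, 0))], (-59965, 0, -59454, 0), 1),
    ((830, 50, 490, 150), [(0, (730, 100, 440, 50)), (1, (100, 0, 0, 100)), (2, (0, -50, 50, 0))], (-60000, 0, -59373, 0), 1),
    ((790, 0, 620, 150), [(0, (730, 0, 700, 150)), (10, (-1, 0, 0, 0))], (-59989, 0, -44978, 0), 1),
    ((730, 0, 240, 50), [(0, (730, 0, 240, 50))], (45000, 0, -60000, 0), 1),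
    ((717, 0, 450, 0), [(0, (717, 0, 450, 0))], (-60000, 0, -60000, 0), 1),
    ((890, 0, 620, 150), [(0, (730, 0, 700, 150)), (1, (100, 0, 0, 0)), (10, (-1, 0, 0, 0))], (-60000, 0, -44225, 0), 1),
    ((730, 50, 290, 50), [(0, (730, 50, 290, 50))], (19010, 0, -15006, 0), 1),
    ((810, 0, 180, 50), [(0, (810, 0, 180, 50))], (44986, 0, -60000, 0), 1),
    ((630, 0, 340, 50), [(0, (630, 50, 290, 50)), (2, (0, -50, 50, 0))], (19271, 0, -59589, 0), 1),
    ((830, 0, 340, 150), [(0, (730, 50, 290, 50)), (1, (100, 0, 0, 100)), (2, (0, -50, 50, 0))], (-59965, 0, -59618, 0), 1),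
    ((780, 0, 340, 100), [(0, (730, 50, 290, 50)), (1, (50, 0, 0, 50)), (2, (0, -50, 50, 0))], (19058, 0, -14357, 0), 1),
    ((830, 50, 390, 150), [(0, (730, 100, 340, 50)), (1, (100, 0, 0, 100)), (2, (0, -50, 50, 0))], (-60000, 0, -59536, 0), 1),
    ((830, 0, 240, 50), [(0, (730, 0, 240, 50)), (1, (100, 0, 0, 0))], (45011, 0, -59883, 0), 1),
    ((730, 0, 340, 50), [(0, (730, 50, 290, 50)), (2, (0, -50, 50, 0))], (19282, 0, -14513, 0), 1),
    ((730, 0, 340, 50), [(0, (730, 50, 290, 50)), (2, (0, -50, 50, 0))], (19318, 0, -14494, 0), 1),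
    ((830, 50, 290, 50), [(0, (730, 50, 290, 50)), (1, (100, 0, 0, 0))], (18999, 0, -14807, 0), 1)],
    [((910, 0, 180, 50), [(0, (810, 0, 180, 50)), (1, (100, 0, 0, 0))], (44975, 0, -59949, 0), 1),
    ((880, 0, 340, 100), [(0, (730, 50, 290, 50)), (1, (150, 0, 0, 50)), (2, (0, -50, 50, 0))], (19047, 0, -14013, 0), 1),
    ((830, 0, 340, 50), [(0, (730, 50, 290, 50)), (1, (100, 0, 0, 0)), (2, (0, -50, 50, 0))], (19329, 0, -14188, 0), 1),
    ((930, 50, 390, 50), [(0, (830, 50, 290, 50)), (1, (100, 0, 0, 0)), (2, (0, 0, 100, 0))], (19870, 0, -60000, 0), 1),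
    ((1010, 50, 230, 50), [(0, (1090, 50, 290, 50)), (11, (-1, 0, 0, 0))], (31990, 0, -42635, 0), 1),
    ((1090, 50, 390, 50), [(0, (1090, 50, 290, 50)), (2, (0, 0, 100, 0))], (970, 0, -11, 0), 1),
    ((930, 50, 290, 50), [(0, (830, 50, 290, 50)), (1, (100, 0, 0, 0))], (18988, 0, -59989, 0), 1),
    ((830, 0, 340, 50), [(0, (730, 50, 290, 50)), (1, (100, 0, 0, 0)), (2, (0, -50, 50, 0))], (19364, 0, -14196, 0), 1),
    ((918, 0, 438, 0), [(0, (918, 0, 438, 0))], (-60000, 0, -60000, 0), 1),
    ((1010, 50, 330, 50), [(0, (1090, 50, 290, 50)), (2, (0, 0, 100, 0)), (11, (-1, 0, 0, 0))], (32916, 0, -42624, 0), 1),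
    ((930, 0, 340, 50), [(0, (830, 50, 290, 50)), (1, (100, 0, 0, 0)), (2, (0, -50, 50, 0))], (19375, 0, -59296, 0), 1),
    ((930, 0, 340, 50), [(0, (830, 50, 290, 50)), (1, (100, 0, 0, 0)), (2, (0, -50, 50, 0))], (19426, 0, -59253, 0), 1)]]
  js := [([(0, (0, 50, 210, 100)), (1, (0, 0, 0, -100)), (2, (0, -50, -50, 0))], (-60, 0, 80, 0)),
    ([(0, (260, 100, 0, 0)), (1, (-100, 0, 0, 0)), (2, (0, -100, 0, 0))], (80, 0, 60, 0)),
    ([(0, (0, -50, 210, 100)), (1, (0, 0, 0, -100)), (2, (0, 50, -50, 0))], (-60, 0, 80, 0)),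
    ([(0, (260, 0, 0, 0)), (1, (-100, 0, 0, 0))], (80, 0, 60, 0))]
  ce := [⟨11, 1, 1, 1, [],
    [((29, 0), (20, 1), 1, 2), ((21, 2), (14, 1), 1, 2), ((22, 0), (15, 1), 1, 2),
    ((23, 2), (16, 1), 1, 2), ((33, 0), (24, 1), 1, 2), ((35, 2), (26, 1), 1, 2),
    ((34, 0), (25, 1), 1, 2), ((36, 2), (27, 1), 1, 2), ((46, 0), (37, 1), 1, 2),
    ((57, 2), (47, 1), 1, 2), ((68, 0), (58, 1), 1, 2), ((69, 2), (59, 1), 1, 2)],
    0x81818181818181818181818181818181818181818181818181818181818181818181818181818181818181818180818180818181818180818181818080818180808080808080808080808080818181818181818181818080⟩,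
    ⟨3, 9, 1, -1, [],
    [((112, 0), (123, 2), 1, 2), ((111, 1), (122, 2), 1, 2), ((109, 0), (120, 2), 1, 2),
    ((131, 1), (130, 0), 1, 2), ((127, 0), (134, 2), 1, 2), ((116, 1), (126, 2), 1, 2),
    ((103, 0), (115, 2), 1, 2), ((94, 1), (105, 2), 1, 2), ((84, 0), (95, 2), 1, 2),
    ((76, 1), (85, 2), 1, 2), ((86, 0), (97, 2), 1, 2), ((98, 1), (108, 2), 1, 2)],
    0x7f7f7f7f7f7f7f7f7f7f7f7f7f80807f7f807f8080807f8080807f7f808080807f8080808080808080808080808080808080808080808080808080808080808080808080808080808080808080807f7f7f7f7f7f80808080⟩,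
    ⟨6, 14, 3, -3, [],
    [((0, 1), (0, 1), 3, 0), ((1, 0), (4, 1), 3, 2), ((9, 1), (9, 1), 3, 0),
    ((16, 2), (23, 0), 3, 2), ((32, 1), (32, 1), 3, 0), ((40, 0), (51, 1), 3, 2),
    ((62, 1), (62, 1), 3, 0), ((60, 0), (60, 1), 1, 1), ((60, 0), (60, 2), 1, 1),
    ((70, 0), (73, 1), 3, 2), ((80, 2), (81, 1), 3, 2), ((90, 0), (90, 1), 1, 1),
    ((90, 0), (90, 2), 1, 1), ((101, 1), (101, 1), 3, 0), ((110, 2), (113, 1), 3, 2),
    ((121, 1), (121, 1), 3, 0), ((130, 2), (131, 0), 3, 2), ((137, 1), (137, 1), 3, 0),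
    ((144, 2), (145, 1), 3, 2), ((153, 1), (153, 1), 3, 0), ((156, 0), (156, 1), 1, 1),
    ((156, 2), (156, 1), 1, 1), ((148, 2), (150, 1), 3, 2), ((155, 0), (151, 1), 3, 2),
    ((152, 0), (152, 1), 1, 1), ((152, 2), (152, 1), 1, 1)],
    0x7d7d7d7d7d807d807d7d7d80807d7d807d7d7d7d80807d7d807d7d7d7d7d7d807d7d807d7d807d7d7d7d7d7d807d7d7d7d7d7d7d7d807d7d7d7d807d7d80807d7d807d7d807d807d807d7d7d7d7d7d7d7d80808080808080⟩]

theorem ok6 : allOk 6 d6 = true := by decide +kernel

/-- Tile 7. -/
def d7 : TDa where
  l := List.flatten [[(15, 16, 14, true, false, true), (16, 15, 17, true, true, true),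
    (16, 18, 14, true, true, false), (19, 17, 15, true, true, true),
    (16, 17, 20, true, true, false), (16, 20, 18, false, true, true),
    (18, 21, 14, false, false, true), (22, 17, 19, true, true, false),
    (0, 19, 15, false, true, false), (20, 17, 22, true, true, true),
    (20, 22, 18, true, false, true), (23, 21, 18, false, false, false),
    (21, 24, 14, false, false, false), (19, 25, 22, true, true, false),
    (0, 1, 19, false, false, false), (22, 26, 18, true, true, false),
    (23, 27, 21, true, true, false), (18, 26, 23, true, true, false),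
    (28, 24, 21, false, false, false), (13, 14, 24, false, false, false),
    (1, 25, 19, true, true, false), (25, 29, 22, true, false, true),
    (22, 29, 26, false, true, true), (23, 30, 27, false, true, true),
    (21, 27, 28, true, true, false), (26, 30, 23, true, false, true),
    (28, 31, 24, true, true, false), (13, 24, 32, false, false, false),
    (1, 2, 25, false, true, true), (2, 29, 25, false, true, true)],
    [(29, 33, 26, true, false, true), (30, 34, 27, true, false, true),
    (27, 35, 28, true, false, true), (30, 26, 36, true, true, true),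
    (28, 35, 31, false, true, true), (24, 31, 32, true, true, false),
    (32, 37, 13, false, false, false), (33, 29, 2, true, false, false),
    (33, 36, 26, true, true, false), (30, 36, 34, true, true, true),
    (27, 34, 38, false, true, false), (27, 38, 35, false, false, true),
    (35, 39, 31, true, true, true), (31, 40, 32, true, false, true),
    (32, 41, 37, true, true, false), (37, 42, 13, false, false, false),
    (2, 43, 33, false, false, false), (33, 43, 36, false, true, true),
    (38, 34, 36, true, true, true), (35, 38, 39, false, false, true),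
    (40, 31, 39, true, true, true), (32, 40, 41, false, true, true),
    (37, 41, 44, true, true, false), (37, 44, 42, false, false, false),
    (12, 13, 42, false, false, false), (2, 45, 43, false, true, false),
    (43, 45, 36, true, false, true), (45, 38, 36, false, true, false),
    (40, 39, 38, true, false, false), (40, 46, 41, false, false, true)],
    [(41, 47, 44, true, false, true), (44, 48, 42, true, true, false),
    (42, 48, 12, true, true, false), (49, 45, 2, false, false, false),
    (45, 50, 38, true, true, false), (38, 51, 40, false, false, false),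
    (52, 46, 40, true, false, false), (41, 46, 47, false, false, true),
    (44, 47, 48, false, true, true), (48, 11, 12, true, false, true),
    (45, 49, 50, false, true, true), (2, 3, 49, false, false, false),
    (38, 50, 51, true, true, false), (51, 53, 40, false, false, false),
    (52, 54, 46, true, false, true), (53, 52, 40, true, false, false),
    (47, 46, 10, false, false, false), (11, 48, 47, true, true, false),
    (49, 55, 50, false, true, true), (3, 55, 49, false, false, false),
    (50, 55, 51, true, false, true), (51, 56, 53, false, true, false),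
    (57, 54, 52, false, true, true), (54, 58, 46, true, true, false),
    (59, 52, 53, true, true, false), (58, 10, 46, true, false, true),
    (10, 11, 47, false, false, false), (3, 60, 55, false, true, false),
    (55, 61, 51, false, true, false), (62, 56, 51, true, false, false)],
    [(63, 53, 56, true, true, true), (64, 54, 57, false, false, false),
    (59, 57, 52, false, true, true), (54, 64, 58, false, true, true),
    (63, 59, 53, true, false, true), (58, 9, 10, true, false, true),
    (3, 65, 60, false, false, false), (55, 60, 61, true, true, false),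
    (51, 61, 66, true, true, true), (63, 56, 62, true, true, true),
    (67, 62, 51, true, false, false), (8, 64, 57, false, false, false),
    (8, 57, 59, false, false, false), (64, 9, 58, false, true, true),
    (68, 59, 63, false, true, true), (69, 65, 3, true, false, false),
    (60, 65, 61, false, true, true), (70, 66, 61, true, true, true),
    (51, 66, 67, true, false, false), (71, 63, 62, true, true, false),
    (67, 71, 62, true, false, true), (8, 9, 64, false, false, false),
    (8, 59, 68, false, false, false), (71, 68, 63, false, true, true),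
    (65, 69, 72, true, true, false), (73, 69, 3, true, false, true),
    (61, 65, 72, true, false, true), (70, 67, 66, true, false, true),
    (72, 70, 61, true, true, true), (74, 71, 67, false, true, true)],
    [(8, 68, 75, false, false, false), (68, 71, 74, false, false, false),
    (69, 76, 72, false, true, true), (73, 76, 69, true, false, true),
    (4, 73, 3, true, true, false), (77, 67, 70, true, true, false),
    (72, 77, 70, true, false, true), (77, 74, 67, false, true, true),
    (74, 75, 68, false, false, false), (75, 7, 8, true, false, false),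
    (76, 78, 72, false, true, true), (79, 76, 73, false, true, true),
    (4, 79, 73, false, true, true), (78, 77, 72, false, true, true),
    (78, 74, 77, false, false, false), (78, 75, 74, false, false, false),
    (80, 7, 75, true, true, false), (76, 81, 78, true, true, false),
    (79, 82, 76, true, true, false), (79, 4, 83, false, false, false),
    (78, 84, 75, true, true, false), (80, 85, 7, false, true, true),
    (84, 80, 75, true, false, true), (76, 82, 81, true, true, true),
    (81, 86, 78, false, true, true), (87, 82, 79, true, true, true),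
    (4, 5, 83, false, false, false), (79, 83, 87, false, false, true),
    (78, 86, 84, true, false, true), (85, 80, 83, false, false, false)],
    [(85, 6, 7, false, true, true), (83, 80, 84, false, true, true),
    (81, 82, 86, true, true, false), (86, 82, 87, true, true, true),
    (5, 85, 83, false, false, false), (87, 83, 84, false, true, true),
    (86, 87, 84, true, true, false), (5, 6, 85, false, false, false)]]
  q := List.flatten [[(3823595, 12605859), (5084824, 9341416), (7612470, 12933050), (6018012, 5207407),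
    (6420681, 10754828), (9121333, 16530560), (9161833, 8138987), (11751629, 13002732),
    (8289151, 21255559), (11861413, 3764036), (13008218, 9498382), (14423230, 14382296),
    (12651518, 17609724), (14127218, 5473789), (14592893, 11669370), (15228293, 19462817),
    (12733761, 23930251), (16604624, 5967540), (16574527, 12160234), (16195583, 16417390),
    (17206860, 9303207), (11428228, 27160621), (20075127, 13286064), (18599749, 17346049),
    (22899994, 20217927), (18556900, 25484581), (10447382, 28737566), (18680823, 5562321),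
    (15403100, 27650705), (20911808, 6978537)],
    [(27698901, 25953730), (21177413, 27994254), (15405579, 28876505), (24816674, 4614033),
    (24691366, 9105599), (29173023, 13663331), (32316326, 23508510), (31717866, 19326012),
    (34573143, 26377739), (28480198, 6986030), (32439885, 16909180), (38911354, 26199322),
    (34368530, 28093100), (38096696, 22976329), (30585985, 5440899), (31614137, 9092314),
    (33487380, 15966581), (35381272, 18680796), (39570605, 28134032), (32249604, 5685254),
    (32173995, 11927355), (34150280, 13816252), (40253360, 20143331), (34170280, 5087244),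
    (33758538, 11137521), (36292442, 16763344), (34877620, 8805811), (36257000, 3612691),
    (38189919, 15209761), (43559832, 17229757)],
    [(37467176, 7332463), (35976660, 12045871), (38906943, 11260012), (39647543, 5643749),
    (45447356, 13002571), (38974677, 8995669), (39436172, 7922065), (43721862, 6824966),
    (42121242, 10992625), (47833843, 9965507), (40088416, 9468136), (41003047, 8170308)]]
  par := List.flatten [[0, 0, 0, 1, 1, 2, 2, 3, 3, 4, 5, 6, 6, 7, 8, 10, 11, 11, 12, 12, 13, 13, 15, 16, 16, 17, 18,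
    19, 20, 21],
    [22, 23, 24, 25, 26, 26, 27, 29, 30, 31, 31, 32, 34, 35, 36, 36, 37, 38, 39, 41, 42, 43, 44, 45,
    45, 46, 47, 48, 49, 51],
    [52, 53, 54, 55, 57, 58, 59, 59, 60, 62, 63, 63, 64, 65, 66, 66, 67, 68, 70, 71, 72, 73, 74, 74,
    75, 76, 76, 79, 80, 81],
    [81, 82, 82, 83, 84, 85, 87, 87, 88, 89, 89, 91, 92, 93, 94, 96, 96, 98, 98, 99, 100, 101, 102,
    104, 105, 105, 106, 107, 107, 110],
    [112, 113, 114, 115, 115, 117, 118, 119, 120, 120, 122, 123, 124, 126, 127, 128, 129, 130, 131,
    132, 135, 136, 136, 137, 137, 138, 139, 139, 140, 141],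
    [141, 142, 143, 145, 146, 147, 148, 150]]
  iv := List.flatten [[((170, 0, 240, 50), [(0, (170, -50, 290, 50)), (2, (0, 50, -50, 0))], (25, 0, 20, 0), 1),
    ((202, 0, 304, 0), [(0, (202, 0, 304, 0))], (-60000, 0, -60000, 0), 1),
    ((270, -50, 290, 50), [(0, (270, -50, 290, 50))], (-12, 0, -59784, 0), 1),
    ((190, 0, 180, 50), [(0, (270, 0, 120, 50)), (8, (1, 0, 0, 0))], (-22353, 0, -29784, 0), 1),
    ((270, 0, 240, 50), [(0, (270, -50, 290, 50)), (2, (0, 50, -50, 0))], (37, 0, -59657, 0), 1),
    ((220, 0, 340, 100), [(0, (270, 0, 340, 50)), (1, (-50, 0, 0, 50))], (-59988, 0, -59442, 0), 1),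
    ((270, 0, 240, 50), [(0, (270, -50, 290, 50)), (2, (0, 50, -50, 0))], (71, 0, -59663, 0), 1),
    ((270, 0, 340, 50), [(0, (270, 0, 340, 50))], (-15138, 0, -33562, 0), 1),
    ((270, -50, 390, 150), [(0, (270, -50, 390, 50)), (1, (0, 0, 0, 100))], (-59632, 0, -59523, 0), 1),
    ((290, 0, 180, 50), [(0, (270, 0, 120, 50)), (1, (100, 0, 0, 0)), (8, (1, 0, 0, 0))], (-22365, 0, -29840, 0), 1),
    ((370, -50, 290, 50), [(0, (270, -50, 290, 50)), (1, (100, 0, 0, 0))], (-24, 0, -60000, 0), 1),
    ((320, 0, 340, 100), [(0, (270, 0, 340, 50)), (1, (50, 0, 0, 50))], (-60000, 0, -59789, 0), 1),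
    ((270, 0, 340, 150), [(0, (270, 0, 340, 50)), (1, (0, 0, 0, 100))], (-59670, 0, -59612, 0), 1),
    ((370, 0, 240, 50), [(0, (270, -50, 290, 50)), (1, (100, 0, 0, 0)), (2, (0, 50, -50, 0))], (83, 0, -59791, 0), 1),
    ((370, 0, 340, 50), [(0, (270, 0, 340, 50)), (1, (100, 0, 0, 0))], (-15126, 0, -33867, 0), 1),
    ((370, -50, 390, 150), [(0, (270, -50, 390, 50)), (1, (100, 0, 0, 100))], (-59644, 0, -60000, 0), 1),
    ((270, 0, 440, 150), [(0, (270, 0, 440, 50)), (1, (0, 0, 0, 100))], (-59759, 0, -59279, 0), 1),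
    ((370, 0, 240, 50), [(0, (270, -50, 290, 50)), (1, (100, 0, 0, 0)), (2, (0, 50, -50, 0))], (110, 0, -59792, 0), 1),
    ((403, 0, 427, 0), [(0, (403, 0, 427, 0))], 0, 1),
    ((370, 0, 340, 150), [(0, (270, 0, 340, 50)), (1, (100, 0, 0, 100))], (-59658, 0, -60000, 0), 1),
    ((470, -50, 290, 50), [(0, (370, -50, 290, 50)), (1, (100, 0, 0, 0))], (-36, 0, -60000, 0), 1),
    ((270, -50, 490, 150), [(0, (270, -50, 490, 50)), (1, (0, 0, 0, 100))], (-59722, 0, -59190, 0), 1),
    ((470, 0, 340, 50), [(0, (370, -50, 290, 50)), (1, (100, 0, 0, 0)), (2, (0, 50, 50, 0))], (-227, 0, -59693, 0), 1),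
    ((355, 0, 648, 0), [(0, (355, 0, 648, 0))], 0, 1),
    ((370, 0, 440, 150), [(0, (270, 0, 440, 50)), (1, (100, 0, 0, 100))], (-59747, 0, -60000, 0), 1),
    ((370, -50, 490, 150), [(0, (270, -50, 490, 50)), (1, (100, 0, 0, 100))], (-59734, 0, -60000, 0), 1),
    ((210, 0, 620, 150), [(0, (270, 0, 540, 50)), (1, (0, 0, 0, 100)), (9, (1, 0, 0, 0))], (10158, 0, -6648, 0), 1),
    ((470, 0, 240, 50), [(0, (370, -50, 290, 50)), (1, (100, 0, 0, 0)), (2, (0, 50, -50, 0))], (122, 0, -59703, 0), 1),
    ((270, 0, 540, 150), [(0, (270, 0, 540, 50)), (1, (0, 0, 0, 100))], (-59759, 0, -59101, 0), 1),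
    ((470, 0, 240, 50), [(0, (370, -50, 290, 50)), (1, (100, 0, 0, 0)), (2, (0, 50, -50, 0))], (148, 0, -59705, 0), 1)],
    [((730, 0, 540, 150), [(0, (730, -50, 490, 50)), (1, (0, 0, 0, 100)), (2, (0, 50, 50, 0))], (43839, 0, -60000, 0), 1),
    ((370, 0, 540, 150), [(0, (270, 0, 540, 50)), (1, (100, 0, 0, 100))], (-59747, 0, -60000, 0), 1),
    ((310, 0, 620, 150), [(0, (270, 0, 540, 50)), (1, (100, 0, 0, 100)), (9, (1, 0, 0, 0))], (10146, 0, -7595, 0), 1),
    ((550, 0, 180, 50), [(0, (630, 0, 240, 50)), (10, (-1, 0, 0, 0))], (22432, 0, -30014, 0), 1),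
    ((550, 0, 280, 50), [(0, (630, 0, 240, 50)), (2, (0, 0, 100, 0)), (10, (-1, 0, 0, 0))], (22008, 0, -30026, 0), 1),
    ((630, 0, 340, 50), [(0, (630, 0, 240, 50)), (2, (0, 0, 100, 0))], (44465, 0, -59988, 0), 1),
    ((730, 50, 490, 150), [(0, (730, 0, 440, 50)), (1, (0, 0, 0, 100)), (2, (0, 50, 50, 0))], (43826, 0, -60000, 0), 1),
    ((730, 0, 440, 150), [(0, (730, -50, 390, 50)), (1, (0, 0, 0, 100)), (2, (0, 50, 50, 0))], (43839, 0, -60000, 0), 1),
    ((830, 0, 540, 150), [(0, (730, -50, 490, 50)), (1, (100, 0, 0, 100)), (2, (0, 50, 50, 0))], (43851, 0, -59256, 0), 1),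
    ((630, 0, 240, 50), [(0, (630, 0, 240, 50))], (44936, 0, -60000, 0), 1),
    ((750, 0, 648, 0), [(0, (750, 0, 648, 0))], 0, 1),
    ((830, 50, 490, 150), [(0, (730, 0, 440, 50)), (1, (100, 0, 0, 100)), (2, (0, 50, 50, 0))], (43814, 0, -59345, 0), 1),
    ((790, 0, 620, 150), [(0, (730, 0, 700, 150)), (11, (-1, 0, 0, 0))], (-18100, 0, -13560, 0), 1),
    ((830, 0, 440, 150), [(0, (730, -50, 390, 50)), (1, (100, 0, 0, 100)), (2, (0, 50, 50, 0))], (43851, 0, -59434, 0), 1),
    ((630, 0, 240, 50), [(0, (630, 0, 240, 50))], (44963, 0, -59998, 0), 1),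
    ((630, 50, 290, 50), [(0, (630, 0, 240, 50)), (2, (0, 50, 50, 0))], (44697, 0, -59562, 0), 1),
    ((730, 0, 340, 150), [(0, (730, -50, 290, 50)), (1, (0, 0, 0, 100)), (2, (0, 50, 50, 0))], (43839, 0, -60000, 0), 1),
    ((730, 50, 390, 150), [(0, (730, 0, 340, 50)), (1, (0, 0, 0, 100)), (2, (0, 50, 50, 0))], (43826, 0, -60000, 0), 1),
    ((890, 0, 620, 150), [(0, (730, 0, 700, 150)), (1, (100, 0, 0, 0)), (11, (-1, 0, 0, 0))], (-18215, 0, -12691, 0), 1),
    ((730, 0, 240, 50), [(0, (730, 0, 240, 50))], (44975, 0, -60000, 0), 1),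
    ((696, 0, 427, 0), [(0, (696, 0, 427, 0))], 0, 1),
    ((780, 0, 340, 100), [(0, (730, -50, 290, 50)), (1, (50, 0, 0, 50)), (2, (0, 50, 50, 0))], (44181, 0, -59789, 0), 1),
    ((830, 50, 390, 150), [(0, (730, 0, 340, 50)), (1, (100, 0, 0, 100)), (2, (0, 50, 50, 0))], (43814, 0, -59523, 0), 1),
    ((730, 0, 240, 50), [(0, (730, 0, 240, 50))], (45001, 0, -59998, 0), 1),
    ((730, 0, 340, 50), [(0, (730, -50, 290, 50)), (2, (0, 50, 50, 0))], (44440, 0, -59924, 0), 1),
    ((830, 0, 340, 150), [(0, (730, -50, 290, 50)), (1, (100, 0, 0, 100)), (2, (0, 50, 50, 0))], (43851, 0, -59612, 0), 1),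
    ((730, 50, 290, 50), [(0, (730, 0, 240, 50)), (2, (0, 50, 50, 0))], (44685, 0, -59475, 0), 1),
    ((810, 0, 180, 50), [(0, (810, 0, 180, 50))], (44985, 0, -60000, 0), 1),
    ((880, 0, 340, 100), [(0, (730, -50, 290, 50)), (1, (150, 0, 0, 50)), (2, (0, 50, 50, 0))], (44169, 0, -59442, 0), 1),
    ((1010, 50, 350, 50), [(0, (830, 0, 240, 50)), (1, (100, 0, 0, 0)), (2, (0, 50, 50, 0)), (12, (1, 0, 0, 0))], (103, 0, 117, 0), 1)],
    [((830, 0, 240, 50), [(0, (730, 0, 240, 50)), (1, (100, 0, 0, 0))], (45013, 0, -59871, 0), 1),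
    ((830, 0, 340, 50), [(0, (730, -50, 290, 50)), (1, (100, 0, 0, 0)), (2, (0, 50, 50, 0))], (44452, 0, -59619, 0), 1),
    ((830, 50, 290, 50), [(0, (730, 0, 240, 50)), (1, (100, 0, 0, 0)), (2, (0, 50, 50, 0))], (44673, 0, -59259, 0), 1),
    ((910, 0, 180, 50), [(0, (810, 0, 180, 50)), (1, (100, 0, 0, 0))], (44973, 0, -59944, 0), 1),
    ((1010, 50, 250, 50), [(0, (830, 0, 240, 50)), (1, (100, 0, 0, 0)), (2, (0, 50, -50, 0)), (12, (1, 0, 0, 0))], (1023, 0, 105, 0), 1),
    ((830, 0, 240, 50), [(0, (730, 0, 240, 50)), (1, (100, 0, 0, 0))], (45048, 0, -59865, 0), 1),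
    ((898, 0, 304, 0), [(0, (898, 0, 304, 0))], (-60000, 0, -60000, 0), 1),
    ((930, 50, 190, 50), [(0, (830, 0, 240, 50)), (1, (100, 0, 0, 0)), (2, (0, 50, -50, 0))], (45534, 0, -59262, 0), 1),
    ((930, 50, 290, 50), [(0, (830, 0, 240, 50)), (1, (100, 0, 0, 0)), (2, (0, 50, 50, 0))], (44661, 0, -59274, 0), 1),
    ((1090, 50, 190, 50), [(0, (1090, 50, 290, 50)), (2, (0, 0, -100, 0))], (968, 0, 12, 0), 1),
    ((930, 0, 240, 50), [(0, (830, 0, 240, 50)), (1, (100, 0, 0, 0))], (45059, 0, -59987, 0), 1),
    ((930, 0, 240, 50), [(0, (830, 0, 240, 50)), (1, (100, 0, 0, 0))], (45094, 0, -60000, 0), 1)]]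
  js := [([(0, (0, -50, 170, 0)), (2, (0, 50, -50, 0))], (-80, 0, 60, 0)),
    ([(0, (0, 0, 160, 100)), (1, (0, 0, 0, -100))], (-60, 0, 80, 0)),
    ([(0, (260, 50, -50, 0)), (1, (-100, 0, 0, 0)), (2, (0, -50, 50, 0))], (80, 0, 60, 0)),
    ([(0, (0, 50, 210, 100)), (1, (0, 0, 0, -100)), (2, (0, -50, -50, 0))], (-60, 0, 80, 0)),
    ([(0, (260, 50, 50, 0)), (1, (-100, 0, 0, 0)), (2, (0, -50, -50, 0))], (80, 0, 60, 0))]
  ce := [⟨11, 1, 1, 1, [],
    [((28, 0), (20, 1), 1, 2), ((21, 2), (13, 1), 1, 2), ((22, 0), (15, 1), 1, 2),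
    ((25, 2), (17, 1), 1, 2), ((23, 0), (16, 1), 1, 2), ((32, 2), (24, 1), 1, 2),
    ((34, 0), (26, 1), 1, 2), ((43, 2), (35, 1), 1, 2), ((51, 0), (44, 1), 1, 2),
    ((60, 2), (52, 1), 1, 2), ((68, 0), (61, 1), 1, 2), ((69, 2), (62, 1), 1, 2)],
    0x81818181818181818181818181818181818181818181818181818181818181818181818181818181818181808180818181818081818181808181818081818180808080808080808080808080818181818181818181818080⟩,
    ⟨3, 9, 1, -1, [],
    [((124, 0), (132, 2), 1, 2), ((123, 1), (131, 2), 1, 2), ((122, 1), (130, 2), 1, 2),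
    ((126, 1), (133, 2), 1, 2), ((125, 0), (127, 2), 1, 2), ((110, 1), (119, 2), 1, 2),
    ((109, 0), (113, 2), 1, 2), ((94, 1), (104, 2), 1, 2), ((84, 0), (92, 2), 1, 2),
    ((74, 1), (82, 2), 1, 2), ((83, 0), (93, 2), 1, 2), ((95, 1), (103, 2), 1, 2)],
    0x7f7f7f7f7f7f7f7f7f7f7f7f7f7f80807f80807f8080807f808080807f807f80807f80808080808080808080808080808080808080808080808080808080808080808080808080808080808080807f7f7f7f7f7f80808080⟩,
    ⟨14, 6, 3, 3, [],
    [((0, 2), (0, 2), 3, 0), ((2, 0), (5, 2), 3, 2), ((10, 2), (10, 2), 3, 0),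
    ((15, 0), (22, 2), 3, 2), ((30, 2), (30, 2), 3, 0), ((38, 0), (47, 2), 3, 2),
    ((56, 2), (56, 2), 3, 0), ((57, 0), (57, 2), 1, 1), ((57, 0), (57, 1), 1, 1),
    ((64, 0), (70, 2), 3, 2), ((80, 1), (78, 2), 3, 2), ((88, 0), (88, 2), 1, 1),
    ((88, 0), (88, 1), 1, 1), ((97, 2), (97, 2), 3, 0), ((116, 1), (106, 2), 3, 2),
    ((114, 2), (114, 2), 3, 0), ((130, 0), (122, 2), 3, 2), ((137, 2), (137, 2), 3, 0),
    ((148, 1), (144, 2), 3, 2), ((156, 2), (156, 2), 3, 0), ((155, 0), (155, 2), 1, 1),
    ((155, 1), (155, 2), 1, 1), ((142, 1), (151, 2), 3, 2), ((136, 0), (141, 2), 3, 2),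
    ((150, 0), (150, 2), 1, 1), ((150, 1), (150, 2), 1, 1)],
    0x80808083808080808083838083838083838380838383808383838380838383838083838383838083838380838083838383838383838380838383808383838083838083808083808080838383838383838380808080808080⟩]

theorem ok7 : allOk 7 d7 = true := by decide +kernel

end Pool.Agent.MP_a4408f_lc
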