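import Mathlib
import Pool.Agent.Mg.F2e8011.G284816

/-! Generated tile data. -/

namespace Pool.Agent.MP_a4408f_lc

/-- Tile 13. -/
def d13 : TDa where
  l := List.flatten [[(15, 16, 14, true, false, true), (16, 15, 1, true, false, false),
    (16, 17, 14, true, true, false), (0, 1, 15, false, false, false),
    (1, 18, 16, false, false, false), (16, 18, 17, false, true, true),
    (12, 14, 17, false, true, false), (1, 19, 18, false, true, false),
    (18, 19, 17, true, false, true), (13, 14, 12, false, false, false),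
    (17, 20, 12, true, false, false), (1, 21, 19, false, false, false),
    (19, 20, 17, true, true, false), (20, 22, 12, true, false, false),
    (1, 2, 21, false, false, false), (19, 21, 20, false, true, true),
    (23, 22, 20, true, true, false), (11, 12, 22, false, false, false),
    (2, 23, 21, false, true, false), (21, 23, 20, true, false, true),
    (23, 24, 22, false, true, true), (11, 22, 25, false, true, false),
    (24, 23, 2, false, false, false), (24, 26, 22, true, false, true),
    (26, 25, 22, true, true, false), (11, 25, 27, false, false, false),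
    (2, 26, 24, false, true, false), (26, 28, 25, false, true, true),
    (29, 27, 25, false, false, false), (10, 11, 27, false, false, false)],
    [(2, 28, 26, false, false, false), (28, 30, 25, true, false, true),
    (31, 27, 29, true, false, false), (25, 32, 29, true, false, false),
    (27, 33, 10, true, true, false), (2, 3, 28, false, false, false),
    (3, 30, 28, false, true, false), (30, 32, 25, true, true, false),
    (31, 34, 27, true, false, true), (29, 35, 31, true, true, false),
    (36, 29, 32, true, false, true), (34, 33, 27, true, true, false),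
    (33, 9, 10, true, false, true), (3, 37, 30, false, false, false),
    (30, 37, 32, false, true, true), (38, 34, 31, false, true, true),
    (39, 35, 29, true, true, false), (35, 40, 31, true, false, true),
    (41, 29, 36, true, true, false), (42, 36, 32, true, true, false),
    (34, 43, 33, false, true, true), (43, 9, 33, false, true, true),
    (3, 42, 37, false, true, false), (37, 42, 32, true, false, true),
    (38, 44, 34, true, true, false), (40, 38, 31, true, true, false),
    (39, 45, 35, false, true, true), (46, 39, 29, true, false, true),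
    (45, 40, 35, false, true, true), (41, 46, 29, false, true, true)],
    [(47, 41, 36, true, false, true), (42, 47, 36, false, true, true),
    (34, 44, 43, true, true, false), (9, 43, 8, false, false, false),
    (47, 42, 3, false, false, false), (40, 44, 38, true, true, true),
    (6, 45, 39, false, false, false), (6, 39, 46, false, true, false),
    (40, 45, 44, false, false, true), (6, 46, 41, false, false, false),
    (6, 41, 47, false, true, false), (43, 44, 45, true, false, false),
    (8, 43, 7, false, false, false), (3, 4, 47, false, false, false),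
    (6, 7, 45, false, false, false), (4, 6, 47, false, false, false),
    (7, 43, 45, false, false, false), (4, 5, 6, false, false, false)]]
  q := List.flatten [[(5279125, 10892904), (7917567, 15570270), (8478060, 8894247), (10715546, 9113816),
    (13032672, 14520654), (14149429, 6583909), (18414566, 16570850), (16998926, 9285077),
    (19397965, 8749970), (27294036, 14296301), (22178366, 9143951), (32607269, 22044463),
    (25785262, 6102636), (37231556, 14076270), (29453910, 7072925), (38276788, 18817472),
    (32681356, 9359314), (36837478, 25455738), (38611025, 21665459), (40673644, 16641530),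
    (36699416, 9110757), (31508897, 5606375), (39733427, 19844392), (42962979, 14082928),
    (40803807, 18632716), (41071904, 10235090), (33900322, 5993259), (42969097, 23568769),
    (41242089, 20261920), (44093088, 17598266)],
    [(42816610, 12098572), (38611940, 5889851)]]
  par := List.flatten [[0, 0, 0, 1, 1, 2, 2, 4, 5, 6, 6, 7, 8, 10, 11, 11, 13, 13, 14, 15, 16, 17, 18, 20, 21, 21, 22,
    24, 25, 25],
    [26, 27, 28, 28, 29, 30, 31, 31, 32, 32, 33, 34, 34, 36, 37, 38, 39, 39, 40, 40, 41, 42, 43, 44,
    45, 45, 46, 46, 47, 48],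
    [48, 49, 50, 51, 52, 54, 56, 57, 58, 59, 60, 62, 63, 64, 66, 70, 71, 75]]
  iv := List.flatten [[((170, 0, 240, 50), [(0, (170, -50, 290, 50)), (5, (0, 50, -50, 0))], (16, 0, 4, 0), 1),
    ((270, -50, 290, 50), [(0, (270, -50, 290, 50))], (-11, 0, -60000, 0), 1),
    ((270, 0, 240, 50), [(0, (270, -50, 290, 50)), (5, (0, 50, -50, 0))], (27, 0, -59911, 0), 1),
    ((270, 0, 240, 50), [(0, (270, -50, 290, 50)), (5, (0, 50, -50, 0))], (53, 0, -59912, 0), 1),
    ((370, -50, 290, 50), [(0, (370, -50, 290, 50))], (-23, 0, -60000, 0), 1),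
    ((370, 0, 240, 50), [(0, (370, -50, 290, 50)), (5, (0, 50, -50, 0))], (64, 0, -59827, 0), 1),
    ((470, -50, 290, 50), [(0, (470, -50, 290, 50))], (-34, 0, -60000, 0), 1),
    ((370, 0, 240, 50), [(0, (370, -50, 290, 50)), (5, (0, 50, -50, 0))], (89, 0, -59828, 0), 1),
    ((470, 0, 240, 50), [(0, (470, -50, 290, 50)), (5, (0, 50, -50, 0))], (101, 0, -59743, 0), 1),
    ((570, -50, 290, 50), [(0, (570, -50, 290, 50))], (-46, 0, -60000, 0), 1),
    ((470, 0, 240, 50), [(0, (470, -50, 290, 50)), (5, (0, 50, -50, 0))], (126, 0, -59745, 0), 1),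
    ((670, 50, 390, 150), [(0, (670, -50, 290, 150)), (5, (0, 100, 100, 0))], (1029, 0, -24778, 0), 1),
    ((570, 0, 240, 50), [(0, (570, -50, 290, 50)), (5, (0, 50, -50, 0))], (138, 0, -59659, 0), 1),
    ((770, 0, 340, 50), [(0, (770, -50, 290, 50)), (5, (0, 50, 50, 0))], (-368, 0, -26285, 0), 1),
    ((570, 0, 240, 50), [(0, (570, -50, 290, 50)), (5, (0, 50, -50, 0))], (163, 0, -59661, 0), 1),
    ((720, 50, 390, 100), [(0, (720, -50, 290, 100)), (5, (0, 100, 100, 0))], (-60000, 0, -60000, 0), 1),
    ((670, -50, 290, 50), [(0, (670, -50, 290, 50))], (-57, 0, -60000, 0), 1),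
    ((770, 50, 390, 150), [(0, (770, -50, 290, 150)), (5, (0, 100, 100, 0))], (1018, 0, 11, 0), 1),
    ((670, 100, 340, 150), [(0, (670, -50, 290, 150)), (5, (0, 150, 50, 0))], (1474, 0, -24030, 0), 1),
    ((770, 50, 390, 50), [(0, (770, -50, 290, 50)), (5, (0, 100, 100, 0))], (-692, 0, -25746, 0), 1),
    ((770, -50, 290, 50), [(0, (770, -50, 290, 50))], (-69, 0, -26781, 0), 1),
    ((670, 0, 240, 50), [(0, (670, -50, 290, 50)), (5, (0, 50, -50, 0))], (175, 0, -59575, 0), 1),
    ((720, 100, 340, 100), [(0, (720, -50, 290, 100)), (5, (0, 150, 50, 0))], (-59617, 0, -59315, 0), 1),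
    ((770, 50, 290, 50), [(0, (770, -50, 290, 50)), (5, (0, 100, 0, 0))], (-36, 0, -25734, 0), 1),
    ((720, 100, 340, 100), [(0, (720, -50, 290, 100)), (5, (0, 150, 50, 0))], (-59601, 0, -59338, 0), 1),
    ((770, 0, 240, 50), [(0, (770, -50, 290, 50)), (5, (0, 50, -50, 0))], (237, 0, -26274, 0), 1),
    ((670, 0, 240, 50), [(0, (670, -50, 290, 50)), (5, (0, 50, -50, 0))], (200, 0, -59577, 0), 1),
    ((770, 100, 340, 150), [(0, (770, -50, 290, 150)), (5, (0, 150, 50, 0))], (1486, 0, 845, 0), 1),
    ((907, 0, 562, 0), [(0, (907, 0, 562, 0))], (-60000, 0, -60000, 0), 1),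
    ((770, 100, 340, 50), [(0, (770, -50, 290, 50)), (5, (0, 150, 50, 0))], (-361, 0, -25149, 0), 1)],
    [((770, 50, 290, 50), [(0, (770, -50, 290, 50)), (5, (0, 100, 0, 0))], (-62, 0, -25733, 0), 1),
    ((770, 0, 240, 50), [(0, (770, -50, 290, 50)), (5, (0, 50, -50, 0))], (212, 0, -26272, 0), 1)]]
  js := []
  ce := [⟨14, 9, 1, 1, [],
    [((0, 2), (0, 2), 1, 0), ((2, 0), (5, 2), 1, 2), ((8, 2), (8, 2), 1, 0),
    ((12, 0), (15, 2), 1, 2), ((19, 2), (19, 2), 1, 0), ((16, 0), (20, 2), 1, 2),
    ((23, 2), (23, 2), 1, 0), ((24, 0), (27, 2), 1, 2), ((31, 2), (31, 2), 1, 0),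
    ((37, 0), (44, 2), 1, 2), ((53, 2), (53, 2), 1, 0), ((49, 0), (61, 2), 1, 2),
    ((60, 2), (60, 2), 1, 0), ((48, 0), (59, 2), 1, 2), ((57, 2), (57, 2), 1, 0),
    ((46, 0), (56, 2), 1, 2), ((47, 1), (58, 2), 1, 2), ((55, 2), (55, 2), 1, 0),
    ((38, 1), (45, 2), 1, 2), ((41, 0), (50, 2), 1, 2), ((42, 1), (51, 2), 1, 2)],
    0x808080808080808080808081818081818180818081808180808180818080818080818181818180808080808080808080⟩]

theorem ok13 : allOk 13 d13 = true := by decide +kernel

/-- Tile 14. -/
def d14 : TDa where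
  l := List.flatten [[(15, 16, 14, true, false, true), (16, 15, 1, true, false, false),
    (16, 17, 14, true, true, false), (0, 1, 15, false, false, false),
    (1, 18, 16, false, false, false), (16, 18, 17, false, true, true),
    (13, 14, 17, false, true, false), (1, 19, 18, false, true, false),
    (18, 19, 17, true, false, true), (13, 17, 20, false, false, false),
    (1, 21, 19, false, false, false), (19, 22, 17, true, true, false),
    (17, 23, 20, false, true, false), (12, 13, 20, false, false, true),
    (1, 2, 21, false, false, false), (19, 21, 22, false, true, true),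
    (17, 22, 24, true, true, false), (25, 23, 17, true, false, false),
    (23, 26, 20, true, false, true), (20, 11, 12, true, false, true),
    (2, 27, 21, false, true, false), (21, 27, 22, true, false, true),
    (27, 24, 22, false, true, false), (17, 24, 25, false, true, false),
    (25, 28, 23, true, false, true), (29, 26, 23, false, true, true),
    (26, 30, 20, true, true, false), (30, 11, 20, false, true, true),
    (2, 31, 27, false, false, false), (27, 32, 24, true, true, false)],
    [(24, 33, 25, true, false, true), (34, 28, 25, false, true, true),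
    (28, 29, 23, true, true, false), (29, 35, 26, true, false, false),
    (30, 26, 36, true, false, false), (30, 36, 11, false, false, false),
    (37, 31, 2, true, false, false), (27, 31, 26, false, false, false),
    (32, 27, 26, true, false, false), (32, 33, 24, false, true, true),
    (33, 34, 25, true, true, false), (34, 35, 28, true, true, false),
    (28, 35, 29, true, true, true), (26, 35, 33, false, true, false),
    (38, 36, 26, true, false, false), (36, 39, 11, true, false, false),
    (37, 40, 31, true, false, true), (2, 3, 37, false, true, false),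
    (31, 38, 26, false, false, false), (32, 26, 33, false, false, false),
    (33, 35, 34, true, true, true), (38, 41, 36, true, false, true),
    (36, 42, 39, true, false, true), (10, 11, 39, false, false, true),
    (43, 40, 37, false, true, true), (40, 44, 31, true, true, false),
    (3, 45, 37, true, false, true), (31, 46, 38, false, true, false),
    (47, 41, 38, false, true, true), (41, 48, 36, true, true, false)],
    [(48, 42, 36, false, true, true), (42, 49, 39, true, true, false),
    (39, 9, 10, true, false, true), (43, 50, 40, true, true, false),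
    (45, 43, 37, true, true, false), (40, 51, 44, false, true, true),
    (44, 52, 31, true, false, true), (53, 45, 3, false, true, true),
    (52, 46, 31, true, false, false), (46, 54, 38, true, false, true),
    (7, 41, 47, false, false, false), (54, 47, 38, true, true, false),
    (7, 48, 41, false, true, false), (7, 42, 48, false, false, false),
    (49, 42, 8, true, false, false), (49, 9, 39, false, true, true),
    (45, 50, 43, true, true, true), (51, 40, 50, false, true, true),
    (51, 55, 44, false, true, true), (44, 55, 52, true, false, true),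
    (53, 50, 45, false, true, false), (4, 53, 3, true, true, false),
    (52, 56, 46, true, false, true), (57, 54, 46, false, true, true),
    (7, 47, 54, false, true, false), (8, 42, 7, false, false, false),
    (8, 9, 49, false, false, false), (51, 50, 4, true, false, false),
    (6, 55, 51, false, false, false), (55, 58, 52, true, true, false)],
    [(53, 4, 50, true, false, false), (58, 56, 52, false, true, true),
    (56, 57, 46, true, true, false), (54, 57, 6, false, false, false),
    (6, 7, 54, false, false, false), (4, 5, 51, false, false, false),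
    (6, 58, 55, false, true, false), (5, 6, 51, false, false, false),
    (6, 56, 58, false, false, false), (6, 57, 56, false, true, false)]]
  q := List.flatten [[(6189977, 10911188), (11044556, 15826483), (9905330, 8729456), (12386786, 8180153),
    (14899681, 23260468), (15636505, 5728295), (15347538, 10616531), (17429060, 17376471),
    (17221643, 13502928), (17065548, 15687639), (23188146, 16564848), (20448201, 9844793),
    (18590829, 16324042), (19785597, 16595347), (22636005, 23055471), (31687176, 8710012),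
    (20056401, 13790938), (19367613, 15251184), (18739586, 15844723), (19934355, 16116029),
    (32456191, 22396568), (30782570, 3144224), (36369331, 15816044), (34241619, 27584541),
    (35612956, 4924205), (40533812, 19470369), (41546494, 24971633), (34090296, 3194005),
    (38492667, 7135915), (33304990, 2037120)],
    [(40076064, 11708965), (42709413, 17429592), (41134124, 21709643), (41447028, 28139043),
    (36660669, 2670472), (41964356, 4690605), (40214649, 9251111), (34991415, 1176898),
    (43934511, 14431953), (42984200, 8103641), (43798460, 10407554), (44452259, 11637118),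
    (44249327, 9440576)]]
  par := List.flatten [[0, 0, 0, 1, 1, 2, 2, 4, 5, 6, 7, 8, 9, 9, 10, 10, 11, 12, 12, 13, 14, 15, 16, 16, 17, 18, 18,
    19, 20, 22],
    [23, 24, 24, 25, 26, 27, 28, 28, 29, 29, 30, 31, 32, 33, 34, 35, 36, 36, 37, 38, 40, 44, 45, 45,
    46, 46, 47, 48, 51, 51],
    [52, 52, 53, 54, 54, 55, 55, 56, 57, 57, 58, 58, 59, 60, 61, 61, 63, 63, 65, 66, 67, 67, 68, 69,
    70, 73, 74, 77, 78, 79],
    [80, 82, 82, 83, 84, 87, 88, 88, 91, 92]]
  iv := List.flatten [[((170, 0, 240, 50), [(0, (170, -50, 290, 50)), (4, (0, 50, -50, 0))], (22, 0, 6, 0), 1),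
    ((270, -50, 290, 50), [(0, (270, -50, 290, 50))], (-16, 0, -60000, 0), 1),
    ((270, 0, 240, 50), [(0, (270, -50, 290, 50)), (4, (0, 50, -50, 0))], (37, 0, -59877, 0), 1),
    ((270, 0, 240, 50), [(0, (270, -50, 290, 50)), (4, (0, 50, -50, 0))], (72, 0, -59879, 0), 1),
    ((530, 0, 420, 150), [(0, (530, -50, 370, 150)), (4, (0, 50, 50, 0))], (-60000, 0, 45020, 0), 1),
    ((370, 0, 240, 50), [(0, (370, -50, 290, 50)), (4, (0, 50, -50, 0))], (88, 0, 10532, 0), 1),
    ((370, -50, 290, 50), [(0, (370, -50, 290, 50))], (-32, 0, 10293, 0), 1),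
    ((470, 0, 340, 150), [(0, (470, -50, 290, 150)), (4, (0, 50, 50, 0))], (-60000, 0, 45039, 0), 1),
    ((370, 0, 340, 50), [(0, (370, -50, 290, 50)), (4, (0, 50, 50, 0))], (-197, 0, 10549, 0), 1),
    ((420, 0, 340, 100), [(0, (420, -50, 290, 100)), (4, (0, 50, 50, 0))], (-60000, 0, 45058, 0), 1),
    ((530, 0, 320, 150), [(0, (530, -50, 370, 150)), (4, (0, 50, -50, 0))], (-59116, 0, 45004, 0), 1),
    ((370, 0, 240, 50), [(0, (370, -50, 290, 50)), (4, (0, 50, -50, 0))], (123, 0, 10530, 0), 1),
    ((470, 0, 240, 150), [(0, (470, -50, 290, 150)), (4, (0, 50, -50, 0))], (-59365, 0, 45024, 0), 1),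
    ((470, 0, 240, 150), [(0, (470, -50, 290, 150)), (4, (0, 50, -50, 0))], (-59210, 0, 45055, 0), 1),
    ((530, 0, 320, 150), [(0, (530, -50, 370, 150)), (4, (0, 50, -50, 0))], (-59100, 0, 45035, 0), 1),
    ((670, 50, -90, 150), [(0, (670, -50, -290, 150)), (5, (0, 100, 200, 0))], (4906, 0, 2796, 0), 1),
    ((370, 0, 240, 50), [(0, (370, -50, 290, 50)), (4, (0, 50, -50, 0))], (139, 0, 10564, 0), 1),
    ((420, 0, 240, 100), [(0, (420, -50, 290, 100)), (4, (0, 50, -50, 0))], (-59546, 0, 45042, 0), 1),
    ((420, 0, 240, 100), [(0, (420, -50, 290, 100)), (4, (0, 50, -50, 0))], (-59530, 0, 45101, 0), 1),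
    ((467, 0, 489, 0), [(0, (467, 0, 489, 0))], (-60000, 0, -60000, 0), 1),
    ((770, 50, 310, 150), [(0, (770, -50, -290, 150)), (5, (0, 100, 600, 0))], (1935, 0, 32, 0), 1),
    ((720, 50, -90, 100), [(0, (720, -50, -290, 100)), (5, (0, 100, 200, 0))], (-60000, 0, -34659, 0), 1),
    ((770, 50, 210, 150), [(0, (770, -50, -290, 150)), (5, (0, 100, 500, 0))], (2779, 0, 47, 0), 1),
    ((770, 50, 410, 150), [(0, (770, -50, -290, 150)), (5, (0, 100, 700, 0))], (1020, 0, 16, 0), 1),
    ((670, 100, -140, 150), [(0, (670, -50, -290, 150)), (5, (0, 150, 150, 0))], (5141, 0, 3172, 0), 1),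
    ((770, 100, 260, 150), [(0, (770, -50, -290, 150)), (5, (0, 150, 550, 0))], (2362, 0, 739, 0), 1),
    ((770, 100, 360, 150), [(0, (770, -50, -290, 150)), (5, (0, 150, 650, 0))], (1482, 0, 784, 0), 1),
    ((720, 100, -140, 100), [(0, (720, -50, -290, 100)), (5, (0, 150, 150, 0))], (-60000, 0, -34456, 0), 1),
    ((770, 50, -90, 150), [(0, (770, -50, -290, 150)), (5, (0, 100, 200, 0))], (4890, 0, 95, 0), 1),
    ((720, 100, -140, 100), [(0, (720, -50, -290, 100)), (5, (0, 150, 150, 0))], (-59906, 0, -34528, 0), 1)],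
    [((770, 50, 110, 150), [(0, (770, -50, -290, 150)), (5, (0, 100, 400, 0))], (3553, 0, 63, 0), 1),
    ((770, 100, 160, 150), [(0, (770, -50, -290, 150)), (5, (0, 150, 450, 0))], (3151, 0, 723, 0), 1),
    ((770, 100, 260, 150), [(0, (770, -50, -290, 150)), (5, (0, 150, 550, 0))], (2342, 0, 768, 0), 1),
    ((770, 100, 360, 150), [(0, (770, -50, -290, 150)), (5, (0, 150, 650, 0))], (1417, 0, 840, 0), 1),
    ((907, 0, 83, 0), [(0, (907, 0, 83, 0))], (-60000, 0, -60000, 0), 1),
    ((770, 100, -140, 150), [(0, (770, -50, -290, 150)), (5, (0, 150, 150, 0))], (5157, 0, 588, 0), 1),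
    ((770, 50, 10, 150), [(0, (770, -50, -290, 150)), (5, (0, 100, 300, 0))], (4257, 0, 79, 0), 1),
    ((770, 100, -140, 50), [(0, (770, -50, -290, 50)), (5, (0, 150, 150, 0))], (-19, 0, 29, 0), 1),
    ((770, 100, 160, 150), [(0, (770, -50, -290, 150)), (5, (0, 150, 450, 0))], (3171, 0, 694, 0), 1),
    ((770, 100, -40, 150), [(0, (770, -50, -290, 150)), (5, (0, 150, 250, 0))], (4578, 0, 604, 0), 1),
    ((770, 100, 60, 150), [(0, (770, -50, -290, 150)), (5, (0, 150, 350, 0))], (3909, 0, 649, 0), 1),
    ((770, 100, 60, 150), [(0, (770, -50, -290, 150)), (5, (0, 150, 350, 0))], (3890, 0, 678, 0), 1),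
    ((770, 100, -40, 150), [(0, (770, -50, -290, 150)), (5, (0, 150, 250, 0))], (4558, 0, 633, 0), 1)]]
  js := []
  ce := [⟨14, 11, 3, 4, [],
    [((0, 2), (0, 2), 3, 0), ((2, 0), (5, 2), 3, 2), ((8, 2), (8, 2), 3, 0),
    ((11, 0), (15, 2), 3, 2), ((21, 2), (21, 2), 3, 0), ((22, 0), (22, 2), 1, 1),
    ((22, 0), (22, 1), 1, 1), ((29, 2), (29, 2), 3, 0), ((30, 1), (39, 2), 3, 2),
    ((40, 2), (40, 2), 3, 0), ((24, 1), (31, 2), 3, 2), ((32, 2), (32, 2), 3, 0),
    ((18, 1), (25, 2), 3, 2), ((26, 2), (26, 2), 3, 0), ((19, 1), (27, 2), 3, 2)],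
    0x8080808080808080808080808080808080808080808080808080808080808080808383838380838080838080838383808080808080808080808080⟩,
    ⟨3, 9, 1, -1, [],
    [((81, 2), (81, 2), 1, 0), ((56, 1), (67, 2), 1, 2), ((64, 2), (64, 2), 1, 0),
    ((46, 1), (54, 2), 1, 2), ((55, 0), (65, 2), 1, 2), ((79, 1), (78, 2), 1, 2),
    ((89, 2), (89, 2), 1, 0), ((82, 1), (91, 2), 1, 2), ((92, 2), (92, 2), 1, 0),
    ((69, 1), (83, 2), 1, 2), ((71, 2), (71, 2), 1, 0), ((51, 1), (58, 2), 1, 2),
    ((59, 2), (59, 2), 1, 0), ((52, 1), (60, 2), 1, 2), ((61, 2), (61, 2), 1, 0),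
    ((62, 1), (75, 2), 1, 2)],
    0x7f7f7f7f7f7f807f7f7f7f7f807f807f7f7f7f8080808080808080808080808080808080808080808080808080808080807f7f7f7f7f7f80808080⟩]

theorem ok14 : allOk 14 d14 = true := by decide +kernel

/-- Tile 15. -/
def d15 : TDa where
  l := List.flatten [[(16, 18, 17, false, true, true), (16, 19, 18, false, true, false),
    (16, 20, 19, true, true, false), (20, 21, 19, true, true, true),
    (19, 21, 22, true, false, false), (19, 22, 18, false, false, true),
    (18, 23, 17, true, true, true), (24, 16, 17, true, true, false),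
    (25, 20, 16, false, true, true), (26, 21, 20, true, true, false),
    (27, 22, 21, true, false, true), (28, 18, 22, true, false, true),
    (29, 23, 18, false, true, true), (24, 17, 23, false, true, true),
    (24, 30, 16, false, true, true), (20, 25, 31, false, false, true),
    (25, 16, 32, true, true, false), (26, 33, 21, true, true, true),
    (31, 26, 20, true, false, true), (34, 22, 27, false, true, true),
    (27, 21, 33, true, true, true), (29, 18, 28, true, true, false),
    (28, 22, 35, true, true, true), (36, 23, 29, true, false, true),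
    (37, 24, 23, false, true, true), (38, 30, 24, true, false, true),
    (32, 16, 30, true, true, true), (39, 31, 25, false, false, true),
    (39, 25, 32, true, false, true), (40, 33, 26, true, true, false)],
    [(40, 26, 31, false, true, true), (34, 41, 22, true, false, false),
    (42, 34, 27, true, true, false), (27, 33, 43, true, true, true),
    (35, 29, 28, false, false, true), (44, 35, 22, true, true, true),
    (36, 45, 23, false, true, true), (35, 36, 29, true, true, false),
    (37, 38, 24, true, true, false), (23, 45, 37, true, true, true),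
    (46, 30, 38, false, true, false), (47, 32, 30, true, true, false),
    (48, 31, 39, false, false, false), (48, 39, 32, false, true, true),
    (43, 33, 40, true, true, true), (43, 40, 31, true, true, false),
    (34, 49, 41, true, true, true), (41, 44, 22, false, true, false),
    (42, 49, 34, true, true, true), (50, 42, 27, true, false, true),
    (51, 27, 43, false, true, false), (44, 36, 35, false, true, true),
    (52, 45, 36, false, false, false), (45, 38, 37, false, true, true),
    (14, 30, 46, false, false, false), (38, 53, 46, true, true, false),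
    (48, 32, 47, true, true, false), (47, 30, 14, false, false, true),
    (54, 31, 48, false, false, true), (55, 43, 31, true, false, true)],
    [(41, 49, 56, true, false, true), (41, 57, 44, true, true, false),
    (58, 49, 42, true, true, false), (58, 42, 50, false, true, true),
    (50, 27, 59, true, false, true), (51, 59, 27, false, false, false),
    (51, 43, 55, false, true, true), (57, 36, 44, true, false, true),
    (52, 53, 45, true, true, false), (60, 52, 36, false, false, false),
    (53, 38, 45, true, false, true), (13, 14, 46, false, false, false),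
    (61, 46, 53, false, true, true), (54, 48, 47, true, false, true),
    (62, 47, 14, true, true, false), (62, 31, 54, false, false, false),
    (1, 55, 31, false, true, false), (56, 49, 63, false, false, false),
    (64, 41, 56, false, true, true), (64, 57, 41, true, true, false),
    (65, 49, 58, true, true, true), (65, 58, 50, true, true, false),
    (59, 66, 50, true, true, true), (51, 67, 59, true, false, false),
    (67, 51, 55, true, true, false), (57, 60, 36, true, false, true),
    (61, 53, 52, true, true, false), (68, 52, 60, false, false, true),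
    (12, 13, 46, false, false, true), (12, 46, 61, true, false, true)],
    [(62, 54, 47, false, true, true), (15, 62, 14, true, false, true),
    (1, 31, 62, false, false, false), (1, 69, 55, true, true, false),
    (63, 49, 65, false, true, false), (70, 56, 63, true, false, false),
    (64, 56, 71, true, true, true), (71, 57, 64, false, true, true),
    (66, 65, 50, true, false, true), (72, 66, 59, true, true, false),
    (73, 59, 67, false, false, false), (69, 67, 55, true, false, true),
    (60, 57, 71, true, false, true), (74, 61, 52, false, false, false),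
    (10, 52, 68, false, false, true), (68, 60, 70, true, false, true),
    (74, 12, 61, true, true, false), (62, 15, 0, true, false, false),
    (0, 1, 62, false, false, false), (1, 75, 69, true, false, true),
    (63, 65, 66, false, true, true), (70, 76, 56, true, true, true),
    (7, 70, 63, false, false, false), (76, 71, 56, false, true, true),
    (72, 63, 66, false, true, true), (77, 72, 59, true, false, true),
    (78, 59, 73, true, false, false), (73, 67, 69, false, true, true),
    (76, 60, 71, true, true, false), (74, 52, 11, false, false, true)],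
    [(10, 11, 52, false, false, false), (10, 68, 79, true, false, true),
    (70, 60, 76, false, true, true), (80, 68, 70, true, true, false),
    (11, 12, 74, false, true, true), (81, 75, 1, false, true, true),
    (75, 82, 69, true, true, false), (8, 70, 7, false, false, false),
    (6, 7, 63, false, false, false), (63, 72, 83, false, false, false),
    (77, 83, 72, false, false, true), (84, 77, 59, false, true, true),
    (78, 85, 59, true, false, true), (3, 78, 73, true, false, false),
    (82, 73, 69, false, true, true), (79, 68, 80, false, true, true),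
    (86, 10, 79, true, true, false), (80, 70, 8, false, false, false),
    (81, 87, 75, false, true, false), (2, 81, 1, true, true, false),
    (75, 87, 82, true, true, true), (6, 63, 83, false, false, false),
    (84, 83, 77, true, false, false), (85, 84, 59, true, true, false),
    (88, 85, 78, false, true, true), (3, 89, 78, true, false, true),
    (73, 87, 3, true, false, false), (82, 87, 73, true, true, false),
    (79, 80, 8, true, false, false), (9, 10, 86, false, true, true)],
    [(86, 79, 8, false, false, false), (3, 87, 81, false, false, false),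
    (2, 3, 81, false, false, true), (6, 83, 89, false, true, false),
    (85, 83, 84, true, true, true), (88, 83, 85, true, true, false),
    (89, 88, 78, true, true, false), (90, 89, 3, false, true, true),
    (8, 9, 86, false, true, false), (88, 89, 83, true, true, true),
    (5, 6, 89, false, false, false), (5, 89, 90, false, false, false),
    (4, 90, 3, true, true, false), (4, 5, 90, false, false, true)]]
  q := List.flatten [[(16281202, 16170786), (18034633, 17837786), (20107804, 17151064), (19569948, 15224674),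
    (17345915, 13453346), (20633501, 13426200), (23481317, 15921975), (19490164, 19174500),
    (16259363, 18854795), (14887157, 13527906), (18219883, 12013176), (24807721, 12180870),
    (22153043, 17357100), (21744322, 18370625), (11257148, 18545889), (14483801, 10357336),
    (12787646, 14770830), (20376219, 11763156), (27239552, 14767847), (23278729, 17984738),
    (23691870, 20185724), (17472620, 20208435), (15020412, 21191374), (13537219, 12887232),
    (18259979, 11065841), (28218464, 17117015), (28665777, 13577024), (19960012, 10129694),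
    (25323092, 18088265), (19120539, 21613070)],
    [(9678537, 24233122), (8772875, 14600313), (11990274, 12892855), (31024479, 15042350),
    (29801729, 12292862), (23313162, 8842624), (22713903, 25225452), (16334265, 23692935),
    (10369827, 11848562), (18519191, 6568339), (32649534, 18213684), (27945079, 19231875),
    (30455406, 13601192), (29798221, 8906450), (29919129, 21797264), (15137933, 26201657),
    (6232358, 9543744), (37612978, 14527155), (29866199, 18553111), (32329640, 13492532),
    (32753608, 11999102), (23480662, 6427768), (33258435, 25681639), (19877511, 3652613),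
    (38294242, 22152864), (30651719, 19649871), (34225472, 10776510), (25895225, 4168811),
    (16962959, 27856777), (19228487, 1849263)],
    [(32878656, 20453421), (33722729, 9382487), (32403910, 5358053), (38588134, 28364503),
    (40035203, 26549752), (20558652, 756912), (22141499, 2901496), (37239823, 9067355),
    (33627398, 8779632), (33748820, 7762237), (39647034, 29591126), (23564772, 1935296),
    (35674749, 6699693), (39306442, 4611126), (39826610, 1152781)]]
  par := List.flatten [[0, 0, 1, 2, 3, 1, 0, 0, 2, 3, 4, 5, 6, 6, 7, 8, 8, 9, 9, 10, 10, 11, 11, 12, 13, 14, 14, 15,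
    16, 17],
    [18, 19, 19, 20, 21, 22, 23, 23, 24, 24, 25, 26, 27, 28, 29, 30, 31, 31, 32, 32, 33, 35, 36, 38,
    40, 40, 41, 41, 42, 45],
    [46, 47, 48, 49, 49, 50, 50, 51, 52, 52, 53, 54, 55, 56, 57, 58, 59, 60, 60, 61, 62, 63, 64, 65,
    66, 67, 68, 69, 71, 72],
    [73, 74, 75, 76, 77, 77, 78, 79, 81, 82, 83, 84, 85, 86, 87, 87, 89, 91, 92, 93, 94, 95, 95, 96,
    99, 99, 100, 100, 102, 103],
    [104, 104, 105, 105, 106, 109, 109, 112, 112, 114, 115, 115, 116, 116, 117, 121, 121, 123, 125,
    125, 126, 128, 130, 131, 132, 133, 133, 134, 135, 136],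
    [136, 138, 139, 141, 142, 144, 144, 145, 149, 153, 153, 157, 157, 161]]
  iv := List.flatten [[((470, -50, 290, 50), [(0, (470, -50, 290, 50))], (-1938, 0, -45787, 0), 5),
    ((570, -50, 290, 50), [(0, (470, -50, 290, 50)), (7, (100, 0, 0, 0))], (-2584, 0, -60000, 0), 5),
    ((470, 50, 290, 50), [(0, (470, -50, 290, 50)), (3, (0, 50, -50, 0)), (4, (0, 50, -50, 0)), (5, (0, 50, 50, 0)), (6, (0, -50, 50, 0))], (18937, 0, 60000, 0), 5),
    ((600, -50, 240, 50), [(0, (600, -50, 240, 50))], 0, 5),
    ((470, 0, 240, 50), [(0, (470, -50, 290, 50)), (3, (0, 50, -50, 0))], (5705, 0, -31256, 0), 5),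
    ((470, 50, 190, 50), [(0, (470, -50, 290, 50)), (3, (0, 50, -50, 0)), (4, (0, 50, -50, 0))], (20743, 0, -3918, 0), 5),
    ((470, 100, 240, 50), [(0, (470, -50, 290, 50)), (3, (0, 50, -50, 0)), (4, (0, 50, -50, 0)), (5, (0, 50, 50, 0))], (2135, 0, 29605, 0), 5),
    ((410, 50, 370, 50), [(0, (470, -50, 290, 50)), (3, (0, 50, -50, 0)), (4, (0, 50, -50, 0)), (5, (0, 50, 50, 0)), (6, (0, -50, 50, 0)), (10, (-1, 0, 0, 0))], (-46678, 0, 9981, 0), 5),
    ((510, -50, 370, 50), [(0, (470, -50, 290, 50)), (7, (100, 0, 0, 0)), (11, (-1, 0, 0, 0))], (-3661, 0, -60000, 0), 5),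
    ((370, 0, 240, 50), [(0, (370, -50, 290, 50)), (3, (0, 50, -50, 0))], (5059, 0, -50292, 0), 5),
    ((470, 50, 190, 50), [(0, (470, -50, 290, 50)), (3, (0, 50, -50, 0)), (4, (0, 50, -50, 0))], (21374, 0, -5409, 0), 5),
    ((570, 50, 190, 50), [(0, (570, -50, 290, 50)), (3, (0, 50, -50, 0)), (4, (0, 50, -50, 0))], (20097, 0, -60000, 0), 5),
    ((470, 100, 240, 50), [(0, (470, -50, 290, 50)), (3, (0, 50, -50, 0)), (4, (0, 50, -50, 0)), (5, (0, 50, 50, 0))], (1339, 0, 30811, 0), 5),
    ((410, 100, 320, 50), [(0, (470, -50, 290, 50)), (3, (0, 50, -50, 0)), (4, (0, 50, -50, 0)), (5, (0, 50, 50, 0)), (10, (-1, 0, 0, 0))], (-60000, 0, -14386, 0), 5),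
    ((410, -50, 370, 50), [(0, (470, -50, 290, 50)), (11, (-1, 0, 0, 0))], (-4307, 0, -48371, 0), 5),
    ((530, 0, 160, 50), [(0, (470, -50, 290, 50)), (3, (0, 50, -50, 0)), (8, (-1, 0, 0, 0))], (-33697, 0, -60000, 0), 5),
    ((370, -50, 290, 50), [(0, (370, -50, 290, 50))], (-1292, 0, -60000, 0), 5),
    ((612, 0, 248, 0), [(0, (612, 0, 248, 0))], (-60000, 0, -60000, 0), 5),
    ((570, 100, 240, 50), [(0, (570, -50, 290, 50)), (3, (0, 50, -50, 0)), (4, (0, 50, -50, 0)), (5, (0, 50, 50, 0))], (2781, 0, -31300, 0), 5),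
    ((510, 100, 320, 50), [(0, (570, -50, 290, 50)), (3, (0, 50, -50, 0)), (4, (0, 50, -50, 0)), (5, (0, 50, 50, 0)), (10, (-1, 0, 0, 0))], (-59354, 0, -59913, 0), 5),
    ((510, 50, 370, 50), [(0, (570, -50, 290, 50)), (3, (0, 50, -50, 0)), (4, (0, 50, -50, 0)), (5, (0, 50, 50, 0)), (6, (0, -50, 50, 0)), (10, (-1, 0, 0, 0))], (-47324, 0, -40369, 0), 5),
    ((570, -50, 450, 50), [(0, (530, -50, 370, 50)), (7, (100, 0, 0, 0)), (11, (-1, 0, 0, 0))], (-60000, 0, -16938, 0), 5),
    ((470, -50, 450, 50), [(0, (530, -50, 370, 50)), (11, (-1, 0, 0, 0))], (-59354, 0, -7893, 0), 5),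
    ((370, 0, 240, 50), [(0, (370, -50, 290, 50)), (3, (0, 50, -50, 0))], (3617, 0, -50205, 0), 5),
    ((530, 50, 110, 50), [(0, (470, -50, 290, 50)), (3, (0, 50, -50, 0)), (4, (0, 50, -50, 0)), (8, (-1, 0, 0, 0))], (-22304, 0, -38975, 0), 5),
    ((610, 100, 320, 50), [(0, (670, -50, 290, 50)), (3, (0, 50, -50, 0)), (4, (0, 50, -50, 0)), (5, (0, 50, 50, 0)), (10, (-1, 0, 0, 0))], (-57266, 0, -21732, 0), 5),
    ((570, 100, 240, 50), [(0, (570, -50, 290, 50)), (3, (0, 50, -50, 0)), (4, (0, 50, -50, 0)), (5, (0, 50, 50, 0))], (4375, 0, -31478, 0), 5),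
    ((530, 50, 110, 50), [(0, (470, -50, 290, 50)), (3, (0, 50, -50, 0)), (4, (0, 50, -50, 0)), (8, (-1, 0, 0, 0))], (-20908, 0, -40527, 0), 5),
    ((510, 100, 320, 50), [(0, (570, -50, 290, 50)), (3, (0, 50, -50, 0)), (4, (0, 50, -50, 0)), (5, (0, 50, 50, 0)), (10, (-1, 0, 0, 0))], (-57912, 0, -60000, 0), 5),
    ((570, -50, 450, 50), [(0, (530, -50, 370, 50)), (7, (100, 0, 0, 0)), (11, (-1, 0, 0, 0))], (-58708, 0, -16292, 0), 5)],
    [((470, -50, 610, 50), [(0, (470, -150, 610, 150)), (7, (0, 100, 0, -100))], (-22800, 0, 17907, 0), 5),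
    ((270, -50, 290, 50), [(0, (270, -50, 290, 50))], (-646, 0, -60000, 0), 5),
    ((270, 0, 240, 50), [(0, (270, -50, 290, 50)), (3, (0, 50, -50, 0))], (2971, 0, -55028, 0), 5),
    ((798, 0, 361, 0), [(0, (798, 0, 361, 0))], (-60000, 0, -60000, 0), 5),
    ((670, 50, 190, 50), [(0, (670, -50, 290, 50)), (3, (0, 50, -50, 0)), (4, (0, 50, -50, 0))], (19451, 0, -60000, 0), 5),
    ((590, 50, 30, 50), [(0, (530, -50, 210, 50)), (3, (0, 50, -50, 0)), (4, (0, 50, -50, 0)), (8, (-1, 0, 0, 0))], (-27672, 0, -46408, 0), 5),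
    ((630, -50, 530, 50), [(0, (530, -150, 530, 150)), (7, (100, 100, 0, -100))], (-60000, 0, -14515, 0), 5),
    ((530, -50, 530, 50), [(0, (530, -150, 530, 150)), (7, (0, 100, 0, -100))], (-59354, 0, -8701, 0), 5),
    ((270, 0, 240, 50), [(0, (270, -50, 290, 50)), (3, (0, 50, -50, 0))], (1529, 0, -54941, 0), 5),
    ((590, 0, 80, 50), [(0, (530, -50, 210, 50)), (3, (0, 50, -50, 0)), (8, (-1, 0, 0, 0))], (-34774, 0, -60000, 0), 5),
    ((799, 0, 502, 0), [(0, (799, 0, 502, 0))], (-60000, 0, -60000, 0), 5),
    ((610, 50, 370, 50), [(0, (670, -50, 290, 50)), (3, (0, 50, -50, 0)), (4, (0, 50, -50, 0)), (5, (0, 50, 50, 0)), (6, (0, -50, 50, 0)), (10, (-1, 0, 0, 0))], (-47970, 0, -6923, 0), 5),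
    ((670, 100, 240, 50), [(0, (670, -50, 290, 50)), (3, (0, 50, -50, 0)), (4, (0, 50, -50, 0)), (5, (0, 50, 50, 0))], (5021, 0, -36723, 0), 5),
    ((710, 50, 110, 50), [(0, (770, -50, -870, 50)), (5, (0, 100, 900, 0)), (9, (1, 0, 0, 0))], (-51968, 0, 4570, 0), 5),
    ((670, 50, 450, 50), [(0, (670, -50, 1450, 50)), (6, (0, 100, -1000, 0))], (-60000, 0, 1292, 0), 5),
    ((570, -50, 610, 50), [(0, (470, -150, 610, 150)), (7, (100, 100, 0, -100))], (-22154, 0, 14677, 0), 5),
    ((170, 0, 240, 50), [(0, (170, -50, 290, 50)), (3, (0, 50, -50, 0))], (883, 0, 236, 0), 5),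
    ((770, 100, 240, 50), [(0, (770, -50, 290, 50)), (3, (0, 50, -50, 0)), (4, (0, 50, -50, 0)), (5, (0, 50, 50, 0))], (7293, 0, -30670, 0), 5),
    ((610, 100, 420, 50), [(0, (670, -50, 290, 50)), (3, (0, 50, -50, 0)), (4, (0, 50, -50, 0)), (5, (0, 50, 50, 0)), (6, (0, 0, 100, 0)), (10, (-1, 0, 0, 0))], (-44610, 0, -21086, 0), 5),
    ((670, 100, 240, 50), [(0, (670, -50, 290, 50)), (3, (0, 50, -50, 0)), (4, (0, 50, -50, 0)), (5, (0, 50, 50, 0))], (6647, 0, -36531, 0), 5),
    ((770, 50, 190, 50), [(0, (770, -50, 290, 50)), (3, (0, 50, -50, 0)), (4, (0, 50, -50, 0))], (18805, 0, -49317, 0), 5),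
    ((590, 50, 30, 50), [(0, (530, -50, 210, 50)), (3, (0, 50, -50, 0)), (4, (0, 50, -50, 0)), (8, (-1, 0, 0, 0))], (-26876, 0, -47613, 0), 5),
    ((670, 50, 550, 50), [(0, (670, -50, 1450, 50)), (6, (0, 100, -900, 0))], (-52345, 0, 646, 0), 5),
    ((650, 0, 0, 50), [(0, (590, -50, 130, 50)), (3, (0, 50, -50, 0)), (8, (-1, 0, 0, 0))], (21536, 0, -16960, 0), 5),
    ((670, 100, 500, 50), [(0, (670, -50, 1450, 50)), (6, (0, 150, -950, 0))], (-55415, 0, -3380, 0), 5),
    ((610, 100, 420, 50), [(0, (670, -50, 290, 50)), (3, (0, 50, -50, 0)), (4, (0, 50, -50, 0)), (5, (0, 50, 50, 0)), (6, (0, 0, 100, 0)), (10, (-1, 0, 0, 0))], (-40761, 0, -18117, 0), 5),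
    ((710, 100, 160, 50), [(0, (770, -50, -870, 50)), (5, (0, 150, 950, 0)), (9, (1, 0, 0, 0))], (-59204, 0, 18395, 0), 5),
    ((650, 50, -50, 50), [(0, (590, -50, 130, 50)), (3, (0, 50, -50, 0)), (4, (0, 50, -50, 0)), (8, (-1, 0, 0, 0))], (25158, 0, -9396, 0), 5),
    ((630, -50, 690, 50), [(0, (530, -150, 690, 150)), (7, (100, 100, 0, -100))], (-646, 0, -646, 0), 5),
    ((650, 0, -100, 50), [(0, (590, -50, 130, 50)), (3, (0, 50, -50, 0)), (4, (0, 0, -100, 0)), (8, (-1, 0, 0, 0))], (26059, 0, -17606, 0), 5)],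
    [((670, 100, 500, 50), [(0, (670, -50, 1450, 50)), (6, (0, 150, -950, 0))], (-57067, 0, -5080, 0), 5),
    ((710, 100, 160, 50), [(0, (770, -50, -870, 50)), (5, (0, 150, 950, 0)), (9, (1, 0, 0, 0))], (-60000, 0, 17189, 0), 5),
    ((770, 50, 30, 50), [(0, (770, -50, -870, 50)), (5, (0, 100, 900, 0))], (-60000, 0, -646, 0), 5),
    ((670, 100, 600, 50), [(0, (670, -50, 1450, 50)), (6, (0, 150, -850, 0))], (-50343, 0, -1529, 0), 5),
    ((670, 100, 600, 50), [(0, (670, -50, 1450, 50)), (6, (0, 150, -850, 0))], (-51139, 0, -2734, 0), 5),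
    ((590, 0, -180, 50), [(0, (590, -50, -130, 50)), (4, (0, 50, -50, 0))], (646, 0, 646, 0), 5),
    ((650, 0, -100, 50), [(0, (590, -50, 130, 50)), (3, (0, 50, -50, 0)), (4, (0, 0, -100, 0)), (8, (-1, 0, 0, 0))], (26705, 0, -13368, 0), 5),
    ((903, 0, 142, 0), [(0, (903, 0, 142, 0))], (-60000, 0, -60000, 0), 5),
    ((710, 100, 60, 50), [(0, (770, -50, -870, 50)), (5, (0, 150, 850, 0)), (9, (1, 0, 0, 0))], (-45802, 0, 16543, 0), 5),
    ((710, 100, 60, 50), [(0, (770, -50, -870, 50)), (5, (0, 150, 850, 0)), (9, (1, 0, 0, 0))], (-46148, 0, 13360, 0), 5),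
    ((670, 100, 700, 50), [(0, (670, -50, 1450, 50)), (6, (0, 150, -750, 0))], (-236, 0, -883, 0), 5),
    ((665, 0, -15, 0), [(0, (665, 0, -15, 0))], (-60000, 0, -60000, 0), 5),
    ((770, 100, -20, 50), [(0, (770, -50, -870, 50)), (5, (0, 150, 850, 0))], (-58455, 0, 3321, 0), 5),
    ((770, 100, -20, 50), [(0, (770, -50, -870, 50)), (5, (0, 150, 850, 0))], (-56643, 0, 1529, 0), 5),
    ((770, 100, -120, 50), [(0, (770, -50, -870, 50)), (5, (0, 150, 750, 0))], (-236, 0, 883, 0), 5)]]
  js := [([(0, (0, 0, 260, 0)), (3, (0, 50, -50, 0)), (4, (0, -50, -50, 0))], (-60, 0, 80, 0)),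
    ([(0, (0, 0, 1160, 0)), (3, (0, 50, -50, 0)), (4, (0, 50, -50, 0)), (5, (0, -100, -900, 0))], (-60, 0, 80, 0)),
    ([(0, (0, 0, -1160, 0)), (3, (0, 50, -50, 0)), (4, (0, 50, -50, 0)), (5, (0, 50, 50, 0)), (6, (0, -150, 1050, 0))], (60, 0, -80, 0)),
    ([(0, (0, 100, -160, -100)), (7, (0, -100, 0, 100))], (60, 0, -80, 0))]
  ce := [⟨14, 11, 1, 1, [((1, 0), 1), ((2, 0), 1)],
    [((91, 2), (91, 2), 1, 0), ((74, 0), (90, 2), 1, 2), ((73, 2), (73, 2), 1, 0),
    ((56, 0), (43, 2), 1, 2), ((28, 2), (28, 2), 1, 0), ((16, 0), (8, 2), 1, 2),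
    ((124, 1), (124, 1), 1, 0), ((89, 2), (106, 1), 1, 2), ((72, 0), (86, 1), 1, 2),
    ((70, 2), (68, 1), 1, 2), ((53, 1), (53, 1), 1, 0), ((25, 2), (38, 1), 1, 2),
    ((14, 0), (7, 1), 1, 2), ((0, 0), (0, 0), 1, 0)],
    0x80808080808080808080808080808080808080808080808080808080808080808080808080818080808080818180808080808080818080808080818081808080808080808080808080808180818181808080808080808080808080⟩,
    ⟨14, 9, 3, -4, [((2, 1), -3), ((3, 0), -3), ((3, 1), -3), ((4, 1), -3), ((4, 2), -3), ((5, 1), -3)],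
    [((91, 2), (91, 2), 3, 0), ((74, 0), (90, 2), 3, 2), ((73, 2), (73, 2), 3, 0),
    ((56, 0), (43, 2), 3, 2), ((28, 2), (28, 2), 3, 0), ((16, 0), (8, 2), 3, 2),
    ((149, 1), (149, 1), 3, 0), ((121, 2), (136, 1), 3, 2), ((135, 1), (135, 1), 3, 0),
    ((105, 2), (123, 1), 3, 2), ((122, 1), (122, 1), 3, 0), ((102, 2), (118, 1), 3, 2),
    ((97, 1), (97, 1), 3, 0), ((79, 0), (79, 1), 1, 1), ((79, 2), (79, 1), 1, 1),
    ((67, 2), (61, 1), 3, 2), ((51, 1), (51, 1), 3, 0), ((23, 2), (37, 1), 3, 2),
    ((12, 0), (21, 1), 3, 2), ((11, 1), (11, 1), 3, 0)],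
    0x80808080808080808080808080808080838080808080838080808080808383808083808080838380808080838383808080808080838383808080838083808080808083838080808383838380838383838380808080808080808080⟩,
    ⟨1, 11, 3, -1, [((1, 0), 3), ((2, 0), 3), ((2, 1), 3), ((3, 0), 3)],
    [((139, 2), (139, 2), 3, 0), ((109, 1), (125, 2), 3, 2), ((126, 2), (126, 2), 3, 0),
    ((134, 0), (134, 2), 1, 1), ((134, 1), (134, 2), 1, 1), ((101, 1), (117, 2), 3, 2),
    ((84, 2), (84, 2), 3, 0), ((59, 1), (66, 2), 3, 2), ((45, 2), (45, 2), 3, 0),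
    ((18, 1), (30, 2), 3, 2), ((9, 2), (9, 2), 3, 0), ((124, 1), (124, 1), 3, 0),
    ((89, 2), (106, 1), 3, 2), ((72, 0), (86, 1), 3, 2), ((70, 2), (68, 1), 3, 2),
    ((53, 1), (53, 1), 3, 0), ((25, 2), (38, 1), 3, 2), ((14, 0), (7, 1), 3, 2),
    ((0, 0), (0, 0), 3, 0)],
    0x7d7d7d7d7d7d7d7d7d7d7d7d7d7d7d7d7d7d7d7d7d807d7d7d7d7d7d807d7d7d7d7d7d8080807d7d7d7d8080807d7d7d7d7d7d80807d7d7d7d7d8080807d7d7d7d807d7d7d7d807d7d7d80808080807d7d7d7d7d7d7d7d7d7d8080⟩,
    ⟨1, 9, 3, -8, [((3, 1), -3), ((4, 1), -3), ((4, 2), -3), ((5, 1), -3)],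
    [((139, 2), (139, 2), 3, 0), ((109, 1), (125, 2), 3, 2), ((126, 2), (126, 2), 3, 0),
    ((134, 0), (134, 2), 1, 1), ((134, 1), (134, 2), 1, 1), ((101, 1), (117, 2), 3, 2),
    ((84, 2), (84, 2), 3, 0), ((59, 1), (66, 2), 3, 2), ((45, 2), (45, 2), 3, 0),
    ((18, 1), (30, 2), 3, 2), ((9, 2), (9, 2), 3, 0), ((149, 1), (149, 1), 3, 0),
    ((121, 2), (136, 1), 3, 2), ((135, 1), (135, 1), 3, 0), ((105, 2), (123, 1), 3, 2),
    ((122, 1), (122, 1), 3, 0), ((102, 2), (118, 1), 3, 2), ((97, 1), (97, 1), 3, 0),
    ((79, 0), (79, 1), 1, 1), ((79, 2), (79, 1), 1, 1), ((67, 2), (61, 1), 3, 2),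
    ((51, 1), (51, 1), 3, 0), ((23, 2), (37, 1), 3, 2), ((12, 0), (21, 1), 3, 2),
    ((11, 1), (11, 1), 3, 0)],
    0x7d7d7d7d7d7d7d7d7d7d7d7d7d7d7d7d807d7d7d7d80807d7d7d7d7d8080807d7d807d808080807d7d7d808080807d7d7d7d7d808080807d7d7d8080807d7d7d7d8080807d7d80808080808080808080807d7d7d7d7d7d7d7d8080⟩,
    ⟨3, 11, 3, 2, [((1, 0), 3), ((2, 0), 3), ((2, 1), 3), ((3, 0), 3), ((3, 1), 3), ((4, 1), 3)],
    [((162, 2), (162, 2), 3, 0), ((145, 1), (157, 2), 3, 2), ((156, 2), (156, 2), 3, 0),
    ((132, 1), (144, 2), 3, 2), ((143, 2), (143, 2), 3, 0), ((131, 0), (131, 2), 1, 1),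
    ((131, 1), (131, 2), 1, 1), ((115, 2), (115, 2), 3, 0), ((99, 0), (114, 2), 3, 2),
    ((98, 1), (110, 2), 3, 2), ((81, 2), (81, 2), 3, 0), ((49, 1), (63, 2), 3, 2),
    ((32, 2), (32, 2), 3, 0), ((10, 1), (19, 2), 3, 2), ((124, 1), (124, 1), 3, 0),
    ((89, 2), (106, 1), 3, 2), ((72, 0), (86, 1), 3, 2), ((70, 2), (68, 1), 3, 2),
    ((53, 1), (53, 1), 3, 0), ((25, 2), (38, 1), 3, 2), ((14, 0), (7, 1), 3, 2),
    ((0, 0), (0, 0), 3, 0)],
    0x7d7d7d807d7d7d7d80807d7d807d7d807d807d7d7d807d80807d7d7d807d7d807d7d7d8080807d80807d8080807d7d807d7d8080807d7d7d7d808080807d7d8080807d7d7d80807d7d7d80808080807d7d7d7d7d7d7d7d80808080⟩,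
    ⟨3, 9, 3, -5, [((4, 2), -3), ((5, 1), -3)],
    [((162, 2), (162, 2), 3, 0), ((145, 1), (157, 2), 3, 2), ((156, 2), (156, 2), 3, 0),
    ((132, 1), (144, 2), 3, 2), ((143, 2), (143, 2), 3, 0), ((131, 0), (131, 2), 1, 1),
    ((131, 1), (131, 2), 1, 1), ((115, 2), (115, 2), 3, 0), ((99, 0), (114, 2), 3, 2),
    ((98, 1), (110, 2), 3, 2), ((81, 2), (81, 2), 3, 0), ((49, 1), (63, 2), 3, 2),
    ((32, 2), (32, 2), 3, 0), ((10, 1), (19, 2), 3, 2), ((149, 1), (149, 1), 3, 0),
    ((121, 2), (136, 1), 3, 2), ((135, 1), (135, 1), 3, 0), ((105, 2), (123, 1), 3, 2),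
    ((122, 1), (122, 1), 3, 0), ((102, 2), (118, 1), 3, 2), ((97, 1), (97, 1), 3, 0),
    ((79, 0), (79, 1), 1, 1), ((79, 2), (79, 1), 1, 1), ((67, 2), (61, 1), 3, 2),
    ((51, 1), (51, 1), 3, 0), ((23, 2), (37, 1), 3, 2), ((12, 0), (21, 1), 3, 2),
    ((11, 1), (11, 1), 3, 0)],
    0x7d7d7d807d7d7d7d80807d7d807d7d8080807d7d7d808080807d7d7d808080807d807d8080808080807d808080807d807d7d80808080807d7d808080807d7d80808080807d8080808080808080808080807d7d7d7d7d7d80808080⟩]

theorem ok15 : allOk 15 d15 = true := by decide +kernel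

/-- Tile 16. -/
def d16 : TDa where
  l := List.flatten [[(9, 10, 16, false, true, true), (16, 10, 17, true, true, false),
    (8, 9, 16, false, true, false), (10, 18, 17, true, false, true),
    (16, 17, 8, false, false, false), (10, 19, 18, false, false, true),
    (17, 18, 20, false, true, true), (17, 20, 8, true, false, false),
    (10, 11, 19, false, false, false), (18, 19, 21, false, false, true),
    (20, 18, 22, true, true, false), (20, 22, 8, false, false, false),
    (11, 23, 19, false, false, false), (19, 24, 21, false, false, false),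
    (18, 21, 22, true, false, true), (8, 22, 7, false, false, false),
    (11, 12, 23, false, false, false), (23, 25, 19, false, true, false),
    (19, 26, 24, true, true, false), (27, 21, 24, true, false, false),
    (22, 21, 28, false, true, true), (22, 28, 7, true, false, false),
    (14, 23, 12, false, false, false), (29, 25, 23, false, false, true),
    (30, 19, 25, false, true, true), (30, 26, 19, true, true, false),
    (24, 26, 31, true, true, false), (21, 27, 32, true, false, true),
    (27, 24, 31, false, false, false), (28, 21, 32, true, true, false)],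
    [(28, 32, 7, false, false, false), (33, 23, 14, false, false, true),
    (13, 14, 12, false, false, false), (29, 34, 25, false, true, false),
    (35, 29, 23, true, true, true), (34, 30, 25, true, true, true),
    (34, 26, 30, false, true, true), (31, 26, 36, true, false, true),
    (32, 27, 37, false, true, true), (27, 31, 38, false, false, true),
    (7, 32, 37, false, true, false), (39, 23, 33, false, false, false),
    (14, 15, 33, true, false, true), (29, 40, 34, true, true, false),
    (35, 40, 29, false, true, true), (35, 23, 41, true, true, false),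
    (34, 40, 26, true, true, false), (26, 40, 36, true, false, false),
    (31, 36, 38, true, false, false), (37, 27, 42, true, true, false),
    (27, 38, 42, true, false, true), (37, 42, 7, false, false, false),
    (39, 43, 23, true, false, false), (33, 44, 39, true, true, false),
    (33, 15, 44, false, true, true), (45, 40, 35, true, false, true),
    (46, 41, 23, true, true, true), (41, 45, 35, true, true, false),
    (36, 40, 47, false, false, true), (36, 48, 38, true, false, false)],
    [(42, 38, 49, false, true, true), (42, 49, 7, true, false, false),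
    (39, 44, 43, true, false, true), (43, 50, 23, false, true, false),
    (44, 15, 51, true, false, false), (40, 45, 52, true, false, false),
    (46, 45, 41, false, true, true), (50, 46, 23, true, true, true),
    (47, 40, 53, false, true, true), (47, 48, 36, false, true, true),
    (38, 48, 54, false, false, true), (49, 38, 55, true, true, false),
    (6, 7, 49, false, false, false), (43, 44, 56, false, true, true),
    (43, 56, 50, true, true, false), (0, 51, 15, false, false, false),
    (56, 44, 51, true, false, true), (51, 52, 45, false, false, true),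
    (40, 52, 53, false, true, true), (46, 51, 45, false, true, false),
    (50, 56, 46, true, false, true), (47, 53, 48, true, true, false),
    (57, 54, 48, true, false, false), (38, 54, 55, true, false, true),
    (49, 55, 6, false, false, false), (0, 1, 51, false, false, false),
    (46, 56, 51, false, true, false), (58, 52, 51, true, false, false),
    (53, 52, 59, true, false, true), (48, 53, 59, true, true, false)],
    [(54, 57, 60, true, false, true), (48, 59, 57, false, false, false),
    (55, 54, 61, false, true, true), (55, 61, 6, true, false, false),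
    (1, 58, 51, false, false, false), (52, 58, 62, true, false, true),
    (59, 52, 63, false, true, true), (60, 57, 64, false, true, true),
    (61, 54, 60, true, true, false), (57, 59, 65, false, false, true),
    (6, 61, 66, false, false, false), (1, 67, 58, true, true, false),
    (62, 58, 67, false, true, true), (63, 52, 62, true, true, false),
    (59, 63, 68, true, false, false), (64, 57, 69, true, true, false),
    (60, 64, 66, true, true, true), (60, 66, 61, true, false, false),
    (59, 68, 65, false, false, false), (57, 65, 69, true, false, true),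
    (5, 6, 66, false, false, false), (67, 1, 2, true, false, true),
    (62, 67, 68, true, true, false), (62, 68, 63, false, false, false),
    (64, 69, 66, false, true, true), (3, 65, 68, true, false, false),
    (69, 65, 70, false, true, true), (4, 5, 66, false, false, false),
    (68, 67, 2, true, true, false), (69, 70, 66, true, true, true)],
    [(65, 3, 4, true, false, true), (2, 3, 68, false, false, false), (70, 65, 4, true, true, false),
    (4, 66, 70, false, true, false)]]
  q := List.flatten [[(39992624, 29618217), (39970496, 28472866), (37155950, 25639544), (28115254, 22309948),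
    (42703908, 27106571), (38456851, 21634003), (43689187, 24313874), (15011017, 18786484),
    (33899126, 19311230), (23127930, 18849700), (29084069, 17569816), (39392413, 18295680),
    (43818414, 21503125), (21328929, 16887771), (26302341, 18998753), (34447041, 16746702),
    (43127617, 20064624), (6877836, 15475037), (24882109, 17265546), (19056312, 15515432),
    (31375336, 14334844), (43970406, 18890313), (38484261, 14221939), (10634663, 15602427),
    (24567278, 14021692), (16544867, 15223610), (43361592, 17200946), (11906299, 15161908),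
    (8743500, 12986277), (17829470, 12657605)],
    [(14282669, 13934920), (28967318, 12504526), (32702051, 10944391), (44960881, 14596801),
    (13268460, 15263533), (11168347, 8507467), (21357349, 8742508), (27224606, 10717177),
    (38676218, 10095026), (42958554, 11561120), (11873855, 13170821), (35657582, 7364457),
    (16428279, 5075075), (28529034, 7372770), (39583451, 7586415), (42671410, 8891832),
    (21089486, 5314091), (24022292, 6274187), (38773223, 6364157), (33626061, 3899288),
    (42138825, 5216602), (18526213, 2811309), (25113298, 3667378), (37713034, 5289153),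
    (38369480, 3601261)]]
  par := List.flatten [[0, 0, 0, 1, 1, 3, 3, 4, 5, 5, 6, 7, 8, 9, 9, 11, 12, 12, 13, 13, 14, 15, 16, 17, 17, 18, 18,
    19, 19, 20],
    [21, 22, 22, 23, 23, 24, 25, 26, 27, 28, 30, 31, 31, 33, 34, 34, 36, 37, 37, 38, 39, 40, 41, 41,
    42, 44, 45, 45, 47, 48],
    [50, 51, 52, 52, 54, 55, 56, 56, 58, 58, 59, 60, 61, 62, 63, 64, 64, 65, 65, 66, 67, 68, 70, 70,
    71, 75, 76, 77, 78, 81],
    [82, 82, 83, 84, 85, 87, 88, 90, 90, 91, 93, 94, 95, 95, 96, 97, 97, 98, 99, 99, 100, 101, 102,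
    103, 105, 108, 109, 110, 111, 114],
    [115, 115, 116, 117]]
  iv := List.flatten [[((770, 100, 720, 50), [(0, (770, -50, 870, 50)), (6, (0, 150, -150, 0))], (-2, 0, -8, 0), 3),
    ((770, 100, 620, 50), [(0, (770, -50, 870, 50)), (6, (0, 150, -250, 0))], (-15, 0, -14, 0), 3),
    ((770, 50, 570, 50), [(0, (770, -50, 870, 50)), (6, (0, 100, -300, 0))], (-34, 0, 6, 0), 3),
    ((470, 100, 440, 50), [(0, (470, -50, 290, 50)), (7, (0, 150, 150, 0))], (506, 0, -58911, 0), 3),
    ((770, 100, 620, 50), [(0, (770, -50, 870, 50)), (6, (0, 150, -250, 0))], (-23, 0, -26, 0), 3),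
    ((770, 50, 470, 50), [(0, (770, -50, 870, 50)), (6, (0, 100, -400, 0))], (-95, 0, 12, 0), 3),
    ((770, 100, 520, 50), [(0, (770, -50, 870, 50)), (6, (0, 150, -350, 0))], (-63, 0, -32, 0), 3),
    ((458, 0, 438, 0), [(0, (458, 0, 438, 0))], (-60000, 0, -60000, 0), 3),
    ((470, 150, 390, 50), [(0, (470, -50, 290, 50)), (7, (0, 200, 100, 0))], (339, 0, -59212, 0), 3),
    ((558, 0, 482, 0), [(0, (558, 0, 482, 0))], (-60000, 0, -60000, 0), 3),
    ((470, 100, 340, 50), [(0, (470, -50, 290, 50)), (7, (0, 150, 50, 0))], (168, 0, -58905, 0), 3),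
    ((770, 50, 370, 50), [(0, (770, -50, 870, 50)), (6, (0, 100, -500, 0))], (-184, 0, 18, 0), 3),
    ((770, 100, 520, 50), [(0, (770, -50, 870, 50)), (6, (0, 150, -350, 0))], (-71, 0, -43, 0), 3),
    ((470, 0, 340, 50), [(0, (470, -50, 290, 50)), (7, (0, 50, 50, 0))], (107, 0, -58367, 0), 3),
    ((470, 50, 390, 50), [(0, (470, -50, 290, 50)), (7, (0, 100, 100, 0))], (335, 0, -58627, 0), 3),
    ((470, 150, 290, 50), [(0, (470, -50, 290, 50)), (7, (0, 200, 0, 0))], (-1799, 0, -59219, 0), 3),
    ((770, 100, 420, 50), [(0, (770, -50, 870, 50)), (6, (0, 150, -450, 0))], (-138, 0, -49, 0), 3),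
    ((170, 0, 340, 50), [(0, (170, -50, 290, 50)), (7, (0, 50, 50, 0))], (9, 0, -2, 0), 3),
    ((470, 50, 390, 50), [(0, (470, -50, 290, 50)), (7, (0, 100, 100, 0))], (236, 0, -58577, 0), 3),
    ((470, 0, 340, 50), [(0, (470, -50, 290, 50)), (7, (0, 50, 50, 0))], (79, 0, -58391, 0), 3),
    ((470, 150, 290, 50), [(0, (470, -50, 290, 50)), (7, (0, 200, 0, 0))], (-457, 0, -60000, 0), 3),
    ((770, 100, 420, 50), [(0, (770, -50, 870, 50)), (6, (0, 150, -450, 0))], (-145, 0, -61, 0), 3),
    ((770, 50, 270, 50), [(0, (770, -50, 870, 50)), (6, (0, 100, -600, 0))], (-300, 0, 24, 0), 3),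
    ((270, 0, 340, 50), [(0, (270, -50, 290, 50)), (7, (0, 50, 50, 0))], (15, 0, -59998, 0), 3),
    ((470, 50, 290, 50), [(0, (470, -50, 290, 50)), (7, (0, 100, 0, 0))], (-18, 0, -58571, 0), 3),
    ((370, 0, 340, 50), [(0, (370, -50, 290, 50)), (7, (0, 50, 50, 0))], (73, 0, -59865, 0), 3),
    ((770, 100, 320, 50), [(0, (770, -50, 870, 50)), (6, (0, 150, -550, 0))], (-240, 0, -67, 0), 3),
    ((270, 0, 340, 50), [(0, (270, -50, 290, 50)), (7, (0, 50, 50, 0))], (31, 0, -60000, 0), 3),
    ((270, -50, 290, 50), [(0, (270, -50, 290, 50))], (-6, 0, -59949, 0), 3),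
    ((370, 50, 290, 50), [(0, (370, -50, 290, 50)), (7, (0, 100, 0, 0))], (-12, 0, -60000, 0), 3)],
    [((370, 0, 340, 50), [(0, (370, -50, 290, 50)), (7, (0, 50, 50, 0))], (53, 0, -59861, 0), 3),
    ((570, 50, 290, 50), [(0, (470, -50, 290, 50)), (7, (100, 100, 0, 0))], (-12, 0, -59399, 0), 3),
    ((630, 50, 210, 50), [(0, (530, -50, 210, 50)), (7, (100, 100, 0, 0))], (-802, 0, -60000, 0), 3),
    ((770, 100, 320, 50), [(0, (770, -50, 870, 50)), (6, (0, 150, -550, 0))], (-248, 0, -78, 0), 3),
    ((370, 0, 340, 50), [(0, (370, -50, 290, 50)), (7, (0, 50, 50, 0))], (37, 0, -59856, 0), 3),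
    ((370, 0, 240, 50), [(0, (370, -50, 290, 50)), (7, (0, 50, -50, 0))], (-81, 0, -59867, 0), 3),
    ((530, 0, 160, 50), [(0, (530, -100, 160, 50)), (7, (0, 100, 0, 0))], (-819, 0, -59096, 0), 3),
    ((530, 50, 210, 50), [(0, (530, -50, 210, 50)), (7, (0, 100, 0, 0))], (-796, 0, -59147, 0), 3),
    ((770, 50, 170, 50), [(0, (770, -50, 870, 50)), (6, (0, 100, -700, 0))], (-442, 0, 30, 0), 3),
    ((770, 100, 220, 50), [(0, (770, -50, 870, 50)), (6, (0, 150, -650, 0))], (-369, 0, -84, 0), 3),
    ((370, -50, 290, 50), [(0, (370, -50, 290, 50))], (-12, 0, -59760, 0), 3),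
    ((720, 50, 170, 0), [(0, (720, -50, 870, 0)), (6, (0, 100, -700, 0))], (-60000, 0, 34423, 0), 3),
    ((530, -50, 110, 50), [(0, (530, -150, 110, 50)), (7, (0, 100, 0, 0))], (-838, 0, -59050, 0), 3),
    ((630, 0, 160, 50), [(0, (530, -100, 160, 50)), (7, (100, 100, 0, 0))], (-813, 0, -59994, 0), 3),
    ((720, 100, 220, 0), [(0, (720, -50, 870, 0)), (6, (0, 150, -650, 0))], (-59901, 0, 34264, 0), 3),
    ((770, 100, 220, 50), [(0, (770, -50, 870, 50)), (6, (0, 150, -650, 0))], (-377, 0, -95, 0), 3),
    ((630, -50, 110, 50), [(0, (530, -150, 110, 50)), (7, (100, 100, 0, 0))], (-832, 0, -60000, 0), 3),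
    ((630, 0, 160, 50), [(0, (530, -100, 160, 50)), (7, (100, 100, 0, 0))], (-825, 0, -60000, 0), 3),
    ((720, 100, 220, 0), [(0, (720, -50, 870, 0)), (6, (0, 150, -650, 0))], (-59915, 0, 34249, 0), 3),
    ((670, 50, 170, -50), [(0, (670, -50, 870, -50)), (6, (0, 100, -700, 0))], (672, 0, -599, 0), 3),
    ((859, 0, 137, 0), [(0, (859, 0, 137, 0))], (-60000, 0, -60000, 0), 3),
    ((580, -50, 110, 0), [(0, (530, -150, 110, 50)), (7, (50, 100, 0, -50))], (50708, 0, -29283, 0), 3),
    ((680, -50, 110, 0), [(0, (530, -150, 110, 50)), (7, (150, 100, 0, -50))], (50702, 0, -30254, 0), 3),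
    ((670, 100, 220, -50), [(0, (670, -50, 870, -50)), (6, (0, 150, -650, 0))], (803, 0, -813, 0), 3),
    ((670, 100, 220, -50), [(0, (670, -50, 870, -50)), (6, (0, 150, -650, 0))], (810, 0, -850, 0), 3)]]
  js := []
  ce := [⟨3, 9, 1, -1, [],
    [((0, 1), (0, 1), 1, 0), ((3, 2), (1, 1), 1, 2), ((6, 1), (6, 1), 1, 0),
    ((14, 2), (10, 1), 1, 2), ((20, 1), (20, 1), 1, 0), ((27, 2), (29, 1), 1, 2),
    ((38, 1), (38, 1), 1, 0), ((50, 2), (49, 1), 1, 2), ((60, 1), (60, 1), 1, 0),
    ((83, 2), (71, 1), 1, 2), ((92, 1), (92, 1), 1, 0), ((90, 2), (98, 1), 1, 2),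
    ((97, 1), (97, 1), 1, 0), ((109, 2), (105, 1), 1, 2), ((116, 1), (116, 1), 1, 0),
    ((120, 2), (122, 1), 1, 2)],
    0x7f7f80807f807f80807f7f808080807f80808080807f8080808080807f808080807f808080807f8080807f80808080807f807f80807f7f8080808080807f7f7f7f7f7f80808080⟩,
    ⟨1, 14, 6, -7, [],
    List.flatten [[((42, 1), (42, 1), 6, 0), ((54, 0), (53, 1), 6, 2), ((62, 1), (62, 1), 6, 0),
    ((73, 0), (74, 1), 6, 2), ((80, 1), (80, 1), 6, 0), ((86, 0), (86, 1), 2, 1),
    ((86, 0), (86, 2), 2, 1), ((79, 0), (79, 1), 2, 1), ((79, 0), (79, 2), 2, 1),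
    ((66, 1), (66, 1), 6, 0), ((55, 2), (57, 1), 6, 2), ((44, 1), (44, 1), 6, 0),
    ((43, 0), (43, 1), 1, 1), ((43, 2), (43, 1), 1, 1), ((46, 0), (46, 1), 1, 1),
    ((46, 2), (46, 1), 1, 1), ((46, 0), (43, 1), 3, 2), ((36, 1), (36, 1), 3, 0),
    ((25, 0), (25, 1), 1, 1), ((25, 2), (25, 1), 1, 1), ((18, 0), (18, 1), 1, 1),
    ((18, 2), (18, 1), 1, 1), ((26, 0), (26, 1), 1, 1), ((26, 2), (26, 1), 1, 1),
    ((37, 1), (37, 1), 3, 0), ((47, 2), (47, 1), 3, 1), ((58, 1), (58, 1), 6, 0),
    ((68, 0), (81, 1), 6, 2), ((88, 2), (89, 1), 6, 2), ((96, 1), (96, 1), 6, 0)],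
    [((95, 2), (103, 1), 6, 2), ((102, 0), (112, 1), 6, 2), ((111, 2), (118, 1), 6, 2)]],
    0x7a7a7a807a7a7a7a7a7a7a7a807a807a7a8080807a7a7a7a7a80807a7a7a807a7a7a7a7a7a7a7a7a7a7a7a7a7d7a7a7a7a7a7a7a7a7a7a807a7a7a7a7a7a7a7a7a7a7a7a7a8080⟩]

theorem ok16 : allOk 16 d16 = true := by decide +kernel

/-- Tile 17. -/
def d17 : TDa where
  l := List.flatten [[(14, 15, 16, true, false, true), (16, 15, 17, false, true, true),
    (12, 14, 16, false, true, false), (17, 15, 1, true, false, false),
    (16, 17, 18, true, true, false), (13, 14, 12, false, false, false),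
    (16, 18, 12, false, false, false), (0, 1, 15, false, false, false),
    (1, 19, 17, false, true, false), (18, 17, 20, true, false, true),
    (18, 20, 12, true, false, false), (1, 21, 19, false, true, false),
    (20, 17, 19, false, true, true), (11, 12, 20, false, false, false),
    (1, 2, 21, false, false, false), (22, 19, 21, false, true, true),
    (20, 19, 23, true, true, false), (20, 23, 11, false, false, false),
    (24, 21, 2, true, false, false), (23, 19, 22, true, false, true),
    (22, 21, 25, true, true, false), (23, 22, 11, true, false, false),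
    (26, 21, 24, false, true, true), (2, 27, 24, false, false, false),
    (25, 21, 26, true, false, true), (11, 22, 25, false, false, false),
    (26, 24, 28, true, true, false), (2, 3, 27, false, false, false),
    (24, 27, 29, false, false, false), (25, 26, 11, true, false, false)],
    [(28, 24, 30, true, false, true), (26, 28, 11, false, false, false),
    (3, 31, 27, true, true, false), (29, 27, 32, false, true, false),
    (24, 29, 33, false, false, true), (30, 24, 33, false, true, true),
    (28, 30, 10, true, false, false), (10, 11, 28, false, false, false),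
    (31, 3, 4, true, false, true), (34, 27, 31, false, true, true),
    (32, 27, 34, true, false, true), (32, 35, 29, true, true, false),
    (36, 33, 29, true, false, true), (30, 33, 37, true, true, false),
    (30, 37, 10, false, false, false), (38, 31, 4, true, true, false),
    (34, 31, 38, true, true, false), (39, 32, 34, true, true, false),
    (35, 32, 40, true, false, true), (41, 29, 35, false, true, true),
    (42, 33, 36, false, true, true), (43, 36, 29, false, true, true),
    (37, 33, 42, true, false, true), (37, 42, 10, true, false, false),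
    (4, 5, 38, false, false, false), (34, 38, 44, false, true, true),
    (40, 32, 39, false, true, true), (39, 34, 44, false, true, true),
    (45, 35, 40, true, true, false), (46, 29, 41, true, false, true)],
    [(41, 35, 45, true, true, false), (42, 36, 47, true, true, false),
    (47, 36, 43, true, false, true), (43, 29, 46, true, true, false),
    (10, 42, 47, false, false, false), (5, 6, 38, false, false, false),
    (45, 44, 38, false, true, false), (40, 39, 44, true, true, true),
    (40, 44, 45, true, false, false), (46, 41, 7, true, false, false),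
    (41, 45, 7, false, false, false), (47, 43, 7, true, false, false),
    (43, 46, 7, false, false, false), (9, 10, 47, false, false, false),
    (6, 45, 38, false, false, false), (6, 7, 45, false, false, false),
    (7, 9, 47, false, false, false), (8, 9, 7, false, false, false)]]
  q := List.flatten [[(5601679, 19274458), (8676342, 14779116), (9332053, 21593173), (14074127, 15487945),
    (13050191, 22319119), (18749421, 13364084), (17750184, 20410866), (16218626, 22054482),
    (27377509, 15685644), (19708747, 21147817), (22335382, 20816319), (32627963, 7951056),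
    (25841233, 23884049), (37256833, 15918243), (29493273, 22918283), (36845121, 4542606),
    (38293112, 11178989), (32715964, 20633120), (38623165, 8331910), (40688414, 13355265),
    (36719112, 20884947), (31531660, 24388600), (42974479, 6430064), (39746148, 10152850),
    (40816148, 11364608), (42975079, 15914446), (33917401, 24003000), (41085093, 19762041),
    (41252168, 9735894), (44100898, 12400040)],
    [(42829251, 17898683), (38620267, 24108331)]]
  par := List.flatten [[0, 0, 0, 1, 1, 2, 2, 3, 3, 4, 6, 8, 8, 10, 11, 11, 12, 13, 14, 15, 15, 17, 18, 18, 20, 20, 22,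
    23, 23, 24],
    [26, 26, 27, 28, 28, 30, 30, 31, 32, 32, 33, 33, 34, 35, 36, 38, 39, 40, 41, 41, 42, 42, 43, 44,
    45, 46, 47, 47, 48, 49],
    [49, 50, 51, 51, 53, 54, 55, 56, 58, 59, 60, 62, 63, 64, 65, 70, 71, 76]]
  iv := List.flatten [[((170, 0, 340, 50), [(0, (170, -50, 290, 50)), (6, (0, 50, 50, 0))], (16, 0, -4, 0), 1),
    ((270, -50, 290, 50), [(0, (270, -50, 290, 50))], (-11, 0, -59910, 0), 1),
    ((270, 0, 340, 50), [(0, (270, -50, 290, 50)), (6, (0, 50, 50, 0))], (27, 0, -60000, 0), 1),
    ((370, -50, 290, 50), [(0, (370, -50, 290, 50))], (-23, 0, -59827, 0), 1),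
    ((270, 0, 340, 50), [(0, (270, -50, 290, 50)), (6, (0, 50, 50, 0))], (53, 0, -59998, 0), 1),
    ((470, -50, 290, 50), [(0, (470, -50, 290, 50))], (-34, 0, -59743, 0), 1),
    ((370, 0, 340, 50), [(0, (370, -50, 290, 50)), (6, (0, 50, 50, 0))], (90, 0, -59998, 0), 1),
    ((370, 0, 340, 50), [(0, (370, -50, 290, 50)), (6, (0, 50, 50, 0))], (64, 0, -60000, 0), 1),
    ((570, -50, 290, 50), [(0, (570, -50, 290, 50))], (-46, 0, -59659, 0), 1),
    ((470, 0, 340, 50), [(0, (470, -50, 290, 50)), (6, (0, 50, 50, 0))], (101, 0, -60000, 0), 1),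
    ((470, 0, 340, 50), [(0, (470, -50, 290, 50)), (6, (0, 50, 50, 0))], (127, 0, -59998, 0), 1),
    ((670, 50, 190, -50), [(0, (670, -50, 290, -50)), (6, (0, 100, -100, 0))], (1029, 0, -59252, 0), 1),
    ((570, 0, 340, 50), [(0, (570, -50, 290, 50)), (6, (0, 50, 50, 0))], (138, 0, -60000, 0), 1),
    ((770, 0, 240, 50), [(0, (770, -50, 290, 50)), (6, (0, 50, -50, 0))], (-56, 0, -59447, 0), 1),
    ((570, 0, 340, 50), [(0, (570, -50, 290, 50)), (6, (0, 50, 50, 0))], (164, 0, -59998, 0), 1),
    ((770, 50, 190, -50), [(0, (770, -50, 290, -50)), (6, (0, 100, -100, 0))], (1018, 0, -11, 0), 1),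
    ((720, 50, 190, 0), [(0, (720, -50, 290, 0)), (6, (0, 100, -100, 0))], (-60000, 0, -24030, 0), 1),
    ((670, -50, 290, 50), [(0, (670, -50, 290, 50))], (-57, 0, -59575, 0), 1),
    ((670, 100, 240, -50), [(0, (670, -50, 290, -50)), (6, (0, 150, -50, 0))], (1474, 0, -60000, 0), 1),
    ((770, 50, 190, 50), [(0, (770, -50, 290, 50)), (6, (0, 100, -100, 0))], (278, 0, -58845, 0), 1),
    ((770, -50, 290, 50), [(0, (770, -50, 290, 50))], (-69, 0, -59491, 0), 1),
    ((670, 0, 340, 50), [(0, (670, -50, 290, 50)), (6, (0, 50, 50, 0))], (175, 0, -60000, 0), 1),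
    ((770, 100, 240, -50), [(0, (770, -50, 290, -50)), (6, (0, 150, -50, 0))], (1486, 0, -845, 0), 1),
    ((720, 100, 240, 0), [(0, (720, -50, 290, 0)), (6, (0, 150, -50, 0))], (-59622, 0, -24713, 0), 1),
    ((720, 100, 240, 0), [(0, (720, -50, 290, 0)), (6, (0, 150, -50, 0))], (-59606, 0, -24690, 0), 1),
    ((770, 50, 290, 50), [(0, (770, -50, 290, 50)), (6, (0, 100, 0, 0))], (275, 0, -59998, 0), 1),
    ((670, 0, 340, 50), [(0, (670, -50, 290, 50)), (6, (0, 50, 50, 0))], (201, 0, -59998, 0), 1),
    ((770, 0, 340, 50), [(0, (770, -50, 290, 50)), (6, (0, 50, 50, 0))], (238, 0, -59998, 0), 1),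
    ((907, 0, 189, 0), [(0, (907, 0, 189, 0))], (-60000, 0, -60000, 0), 1),
    ((770, 100, 240, 50), [(0, (770, -50, 290, 50)), (6, (0, 150, -50, 0))], (610, 0, -59442, 0), 1)],
    [((770, 50, 290, 50), [(0, (770, -50, 290, 50)), (6, (0, 100, 0, 0))], (250, 0, -60000, 0), 1),
    ((770, 0, 340, 50), [(0, (770, -50, 290, 50)), (6, (0, 50, 50, 0))], (212, 0, -60000, 0), 1)]]
  js := []
  ce := [⟨3, 14, 1, -1, [],
    [((0, 1), (0, 1), 1, 0), ((1, 0), (4, 1), 1, 2), ((9, 1), (9, 1), 1, 0),
    ((12, 0), (16, 1), 1, 2), ((19, 1), (19, 1), 1, 0), ((15, 0), (20, 1), 1, 2),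
    ((24, 1), (24, 1), 1, 0), ((22, 0), (26, 1), 1, 2), ((30, 1), (30, 1), 1, 0),
    ((35, 0), (43, 1), 1, 2), ((52, 1), (52, 1), 1, 0), ((50, 0), (61, 1), 1, 2),
    ((62, 1), (62, 1), 1, 0), ((51, 0), (63, 1), 1, 2), ((59, 1), (59, 1), 1, 0),
    ((49, 0), (60, 1), 1, 2), ((48, 2), (58, 1), 1, 2), ((56, 1), (56, 1), 1, 0),
    ((40, 2), (47, 1), 1, 2), ((39, 0), (46, 1), 1, 2), ((38, 2), (45, 1), 1, 2)],
    0x7f7f7f7f7f7f7f7f7f7f7f80807f8080807f807f807f7f807f7f807f807f807f807f7f7f7f7f7f7f7f7f7f7f80808080⟩]

theorem ok17 : allOk 17 d17 = true := by decide +kernel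

end Pool.Agent.MP_a4408f_lc
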