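import Mathlib
import Pool.Agent.MP_a6d740_lc.Defs
import Pool.Agent.Mg.F2e8011.G85ba0e

section

set_option autoImplicit false

namespace Pool.Agent.MP_a6d740_lc

open Finset

/-- one step of the enhanced dynamics on row and column counts -/
def enhStep (Z : YoungDiagram) (m n : ℕ) (r c : ℕ → ℕ) (s : (ℕ → ℕ) × (ℕ → ℕ)) :
    (ℕ → ℕ) × (ℕ → ℕ) :=
  (fun y => r y + ((range n).filter fun x => (s.1 y, s.2 x) ∉ Z).card,
   fun x => c x + ((range m).filter fun y => (s.1 y, s.2 x) ∉ Z).card)

/-- enhanced dynamics -/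
def enh (Z : YoungDiagram) (m n : ℕ) (r c : ℕ → ℕ) (t : ℕ) : (ℕ → ℕ) × (ℕ → ℕ) :=
  (enhStep Z m n r c)^[t] (r, c)

theorem enh_zero (Z : YoungDiagram) (m n : ℕ) (r c : ℕ → ℕ) : enh Z m n r c 0 = (r, c) := rfl

theorem enh_succ (Z : YoungDiagram) (m n : ℕ) (r c : ℕ → ℕ) (t : ℕ) :
    enh Z m n r c (t + 1) = enhStep Z m n r c (enh Z m n r c t) :=
  Function.iterate_succ_apply' _ _ _

/-- cells not covered -/
def unc (Z : YoungDiagram) (m n : ℕ) (s : (ℕ → ℕ) × (ℕ → ℕ)) : ℕ :=
  ((range n ×ˢ range m).filter fun p => (s.1 p.2, s.2 p.1) ∈ Z).card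

/-- cost of an enhancement for latency `t + 1` -/
def cost (Z : YoungDiagram) (m n : ℕ) (r c : ℕ → ℕ) (t : ℕ) : ℕ :=
  ∑ y ∈ range m, r y + ∑ x ∈ range n, c x + unc Z m n (enh Z m n r c t)

theorem notMem_mono {Z : YoungDiagram} {p q p' q' : ℕ} (h : (p, q) ∉ Z) (h1 : p ≤ p')
    (h2 : q ≤ q') : (p', q') ∉ Z := fun h' => h (Z.up_left_mem h1 h2 h')

/-- domination along permutations -/
theorem enh_dom (Z : YoungDiagram) (m n : ℕ) (r c r' c' : ℕ → ℕ) (σ τ : Equiv.Perm ℕ)
    (hσ : ∀ y, σ y < m ↔ y < m) (hτ : ∀ x, τ x < n ↔ x < n)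
    (hr : ∀ y < m, r (σ y) ≤ r' y) (hc : ∀ x < n, c (τ x) ≤ c' x) (t : ℕ) :
    (∀ y < m, (enh Z m n r c t).1 (σ y) ≤ (enh Z m n r' c' t).1 y) ∧
    (∀ x < n, (enh Z m n r c t).2 (τ x) ≤ (enh Z m n r' c' t).2 x) := by
  induction t with
  | zero => exact ⟨hr, hc⟩
  | succ t ih =>
    rw [enh_succ, enh_succ]
    refine ⟨fun y hy => ?_, fun x hx => ?_⟩
    · refine add_le_add (hr y hy) ?_
      refine card_le_card_of_injOn (fun x => τ.symm x) ?_ (τ.symm.injective.injOn)
      intro x hx
      simp only [coe_filter, mem_range, Set.mem_ofPred_eq] at hx ⊢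
      have h1 : τ.symm x < n := by rw [← hτ]; simpa using hx.1
      refine ⟨h1, notMem_mono hx.2 (ih.1 y hy) ?_⟩
      simpa using ih.2 _ h1
    · refine add_le_add (hc x hx) ?_
      refine card_le_card_of_injOn (fun y => σ.symm y) ?_ (σ.symm.injective.injOn)
      intro y hy
      simp only [coe_filter, mem_range, Set.mem_ofPred_eq] at hy ⊢
      have h1 : σ.symm y < m := by rw [← hσ]; simpa using hy.1
      refine ⟨h1, notMem_mono hy.2 ?_ (ih.2 x hx)⟩
      simpa using ih.1 _ h1

theorem unc_dom (Z : YoungDiagram) (m n : ℕ) (r c r' c' : ℕ → ℕ) (σ τ : Equiv.Perm ℕ)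
    (hσ : ∀ y, σ y < m ↔ y < m) (hτ : ∀ x, τ x < n ↔ x < n)
    (hr : ∀ y < m, r (σ y) ≤ r' y) (hc : ∀ x < n, c (τ x) ≤ c' x) (t : ℕ) :
    unc Z m n (enh Z m n r' c' t) ≤ unc Z m n (enh Z m n r c t) := by
  have h := enh_dom Z m n r c r' c' σ τ hσ hτ hr hc t
  refine card_le_card_of_injOn (fun p => (τ p.1, σ p.2)) ?_ ?_
  · intro p hp
    simp only [coe_filter, mem_product, mem_range, Set.mem_ofPred_eq] at hp ⊢
    exact ⟨⟨(hτ _).2 hp.1.1, (hσ _).2 hp.1.2⟩,
      Z.up_left_mem (h.1 _ hp.1.2) (h.2 _ hp.1.1) hp.2⟩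
  · intro p _ q _ hpq
    simp only [Prod.mk.injEq, EmbeddingLike.apply_eq_iff_eq] at hpq
    exact Prod.ext hpq.1 hpq.2

theorem enh_le_succ (Z : YoungDiagram) (m n : ℕ) (r c : ℕ → ℕ) (t : ℕ) :
    (∀ y, (enh Z m n r c t).1 y ≤ (enh Z m n r c (t + 1)).1 y) ∧
    (∀ x, (enh Z m n r c t).2 x ≤ (enh Z m n r c (t + 1)).2 x) := by
  induction t with
  | zero => exact ⟨fun y => Nat.le_add_right _ _, fun x => Nat.le_add_right _ _⟩
  | succ t ih =>
    have key : ∀ s s' : (ℕ → ℕ) × (ℕ → ℕ), (∀ y, s.1 y ≤ s'.1 y) → (∀ x, s.2 x ≤ s'.2 x) →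
        (∀ y, (enhStep Z m n r c s).1 y ≤ (enhStep Z m n r c s').1 y) ∧
        (∀ x, (enhStep Z m n r c s).2 x ≤ (enhStep Z m n r c s').2 x) := by
      intro s s' h1 h2
      refine ⟨fun y => ?_, fun x => ?_⟩
      · refine add_le_add le_rfl (card_le_card ?_)
        intro x hx
        simp only [mem_filter] at hx ⊢
        exact ⟨hx.1, notMem_mono hx.2 (h1 y) (h2 x)⟩
      · refine add_le_add le_rfl (card_le_card ?_)
        intro y hy
        simp only [mem_filter] at hy ⊢
        exact ⟨hy.1, notMem_mono hy.2 (h1 y) (h2 x)⟩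
    have := key _ _ ih.1 ih.2
    rwa [← enh_succ, ← enh_succ] at this

theorem enh_antitone (Z : YoungDiagram) (m n : ℕ) (r c : ℕ → ℕ) (hr : Antitone r)
    (hc : Antitone c) (t : ℕ) :
    Antitone (enh Z m n r c t).1 ∧ Antitone (enh Z m n r c t).2 := by
  induction t with
  | zero => exact ⟨hr, hc⟩
  | succ t ih =>
    rw [enh_succ]
    refine ⟨fun y y' h => ?_, fun x x' h => ?_⟩
    · refine add_le_add (hr h) (card_le_card ?_)
      intro x hx
      simp only [mem_filter] at hx ⊢
      exact ⟨hx.1, notMem_mono hx.2 (ih.1 h) le_rfl⟩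
    · refine add_le_add (hc h) (card_le_card ?_)
      intro y hy
      simp only [mem_filter] at hy ⊢
      exact ⟨hy.1, notMem_mono hy.2 le_rfl (ih.2 h)⟩

theorem mem_step {Z : YoungDiagram} {m n : ℕ} {A : Finset (Fin n × Fin m)} {v : Fin n × Fin m} :
    v ∈ step Z m n A ↔ v ∈ A ∨
      ((A.filter fun u => u ≠ v ∧ u.2 = v.2).card,
        (A.filter fun u => u ≠ v ∧ u.1 = v.1).card) ∉ Z := by
  simp only [step, mem_union, mem_filter, mem_univ, true_and]
  tauto

theorem subset_step (Z : YoungDiagram) (m n : ℕ) (A : Finset (Fin n × Fin m)) :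
    A ⊆ step Z m n A := subset_union_left

theorem subset_iterate_step (Z : YoungDiagram) (m n : ℕ) (A : Finset (Fin n × Fin m)) (t : ℕ) :
    A ⊆ (step Z m n)^[t] A := by
  induction t with
  | zero => exact Subset.refl _
  | succ t ih => rw [Function.iterate_succ_apply']; exact ih.trans (subset_step _ _ _ _)

theorem gamma_le {Z : YoungDiagram} {m n L : ℕ} (A : Finset (Fin n × Fin m))
    (h : (step Z m n)^[L] A = univ) : gamma L Z m n ≤ A.card :=
  Nat.sInf_le ⟨A, rfl, h⟩

theorem gamma_spec (L : ℕ) (Z : YoungDiagram) (m n : ℕ) :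
    ∃ A : Finset (Fin n × Fin m), A.card = gamma L Z m n ∧ (step Z m n)^[L] A = univ := by
  have : {k | ∃ A : Finset (Fin n × Fin m), A.card = k ∧ (step Z m n)^[L] A = univ}.Nonempty :=
    ⟨_, univ, rfl, eq_univ_of_forall fun v => subset_iterate_step Z m n univ L (mem_univ v)⟩
  exact Nat.sInf_mem this

theorem gamma_le_mul (L : ℕ) (Z : YoungDiagram) (m n : ℕ) : gamma L Z m n ≤ m * n := by
  have := gamma_le (Z := Z) (L := L) (univ : Finset (Fin n × Fin m))
    (eq_univ_of_forall fun v => subset_iterate_step Z m n univ L (mem_univ v))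
  simpa [mul_comm] using this

theorem gamma_zero (Z : YoungDiagram) (m n : ℕ) : gamma 0 Z m n = m * n := by
  obtain ⟨A, h1, h2⟩ := gamma_spec 0 Z m n
  rw [← h1]
  simp only [Function.iterate_zero, id_eq] at h2
  simp [h2, mul_comm]

/-- row counts of a set -/
def rowCnt {m n : ℕ} (A : Finset (Fin n × Fin m)) (y : ℕ) : ℕ :=
  (A.filter fun u => (u.2 : ℕ) = y).card

/-- column counts of a set -/
def colCnt {m n : ℕ} (A : Finset (Fin n × Fin m)) (x : ℕ) : ℕ :=
  (A.filter fun u => (u.1 : ℕ) = x).card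

theorem sum_rowCnt {m n : ℕ} (A : Finset (Fin n × Fin m)) :
    ∑ y ∈ range m, rowCnt A y = A.card := by
  unfold rowCnt
  rw [← card_eq_sum_card_fiberwise (f := fun u : Fin n × Fin m => (u.2 : ℕ))]
  intro u _
  simp

theorem sum_colCnt {m n : ℕ} (A : Finset (Fin n × Fin m)) :
    ∑ x ∈ range n, colCnt A x = A.card := by
  unfold colCnt
  rw [← card_eq_sum_card_fiberwise (f := fun u : Fin n × Fin m => (u.1 : ℕ))]
  intro u _
  simp

theorem lb_aux (Z : YoungDiagram) (m n : ℕ) (A : Finset (Fin n × Fin m)) (t : ℕ) :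
    (∀ y, rowCnt ((step Z m n)^[t] A) y ≤ (enh Z m n (rowCnt A) (colCnt A) t).1 y) ∧
    (∀ x, colCnt ((step Z m n)^[t] A) x ≤ (enh Z m n (rowCnt A) (colCnt A) t).2 x) ∧
    ∀ v ∈ (step Z m n)^[t + 1] A, v ∈ A ∨
      ((enh Z m n (rowCnt A) (colCnt A) t).1 v.2, (enh Z m n (rowCnt A) (colCnt A) t).2 v.1) ∉ Z := by
  have key : ∀ (S : Finset (Fin n × Fin m)) (s : (ℕ → ℕ) × (ℕ → ℕ)),
      (∀ y, rowCnt S y ≤ s.1 y) → (∀ x, colCnt S x ≤ s.2 x) →
      ∀ v ∈ step Z m n S, v ∈ S ∨ (s.1 v.2, s.2 v.1) ∉ Z := by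
    intro S s h1 h2 v hv
    rcases mem_step.mp hv with h | h
    · exact Or.inl h
    · right
      refine notMem_mono h (le_trans (card_le_card ?_) (h1 _)) (le_trans (card_le_card ?_) (h2 _))
      · intro u hu
        simp only [mem_filter] at hu ⊢
        exact ⟨hu.1, by rw [hu.2.2]⟩
      · intro u hu
        simp only [mem_filter] at hu ⊢
        exact ⟨hu.1, by rw [hu.2.2]⟩
  induction t with
  | zero =>
    refine ⟨fun _ => le_rfl, fun _ => le_rfl, ?_⟩
    exact key A _ (fun _ => le_rfl) (fun _ => le_rfl)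
  | succ t ih =>
    have h1 : ∀ y, rowCnt ((step Z m n)^[t + 1] A) y ≤
        (enh Z m n (rowCnt A) (colCnt A) (t + 1)).1 y := by
      intro y
      rw [enh_succ]
      set s := enh Z m n (rowCnt A) (colCnt A) t
      have : ((step Z m n)^[t + 1] A).filter (fun u => (u.2 : ℕ) = y) ⊆
          A.filter (fun u => (u.2 : ℕ) = y) ∪
            univ.filter (fun u => (u.2 : ℕ) = y ∧ (s.1 y, s.2 u.1) ∉ Z) := by
        intro u hu
        simp only [mem_filter, mem_union, mem_univ, true_and] at hu ⊢
        rcases ih.2.2 u hu.1 with h | h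
        · exact Or.inl ⟨h, hu.2⟩
        · exact Or.inr ⟨hu.2, hu.2 ▸ h⟩
      refine (card_le_card this).trans ((card_union_le _ _).trans (add_le_add le_rfl ?_))
      refine card_le_card_of_injOn (fun u => (u.1 : ℕ)) ?_ ?_
      · intro u hu
        simp only [coe_filter, mem_univ, true_and, Set.mem_ofPred_eq, mem_range] at hu ⊢
        exact ⟨u.1.2, hu.2⟩
      · intro u hu v hv huv
        simp only [coe_filter, mem_univ, true_and, Set.mem_ofPred_eq] at hu hv
        exact Prod.ext (Fin.ext huv) (Fin.ext (hu.1.trans hv.1.symm))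
    have h2 : ∀ x, colCnt ((step Z m n)^[t + 1] A) x ≤
        (enh Z m n (rowCnt A) (colCnt A) (t + 1)).2 x := by
      intro x
      rw [enh_succ]
      set s := enh Z m n (rowCnt A) (colCnt A) t
      have : ((step Z m n)^[t + 1] A).filter (fun u => (u.1 : ℕ) = x) ⊆
          A.filter (fun u => (u.1 : ℕ) = x) ∪
            univ.filter (fun u => (u.1 : ℕ) = x ∧ (s.1 u.2, s.2 x) ∉ Z) := by
        intro u hu
        simp only [mem_filter, mem_union, mem_univ, true_and] at hu ⊢
        rcases ih.2.2 u hu.1 with h | h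
        · exact Or.inl ⟨h, hu.2⟩
        · exact Or.inr ⟨hu.2, hu.2 ▸ h⟩
      refine (card_le_card this).trans ((card_union_le _ _).trans (add_le_add le_rfl ?_))
      refine card_le_card_of_injOn (fun u => (u.2 : ℕ)) ?_ ?_
      · intro u hu
        simp only [coe_filter, mem_univ, true_and, Set.mem_ofPred_eq, mem_range] at hu ⊢
        exact ⟨u.2.2, hu.2⟩
      · intro u hu v hv huv
        simp only [coe_filter, mem_univ, true_and, Set.mem_ofPred_eq] at hu hv
        exact Prod.ext (Fin.ext (hu.1.trans hv.1.symm)) (Fin.ext huv)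
    refine ⟨h1, h2, fun v hv => ?_⟩
    rw [Function.iterate_succ_apply'] at hv
    rcases key _ _ h1 h2 v hv with h | h
    · rcases ih.2.2 v h with h | h
      · exact Or.inl h
      · exact Or.inr (notMem_mono h ((enh_le_succ _ _ _ _ _ t).1 _) ((enh_le_succ _ _ _ _ _ t).2 _))
    · exact Or.inr h

/-- the uncovered cells of the enhanced dynamics of a spanning set lie in the set -/
theorem unc_le_card (Z : YoungDiagram) (m n : ℕ) (A : Finset (Fin n × Fin m)) (t : ℕ)
    (h : (step Z m n)^[t + 1] A = univ) :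
    unc Z m n (enh Z m n (rowCnt A) (colCnt A) t) ≤ A.card := by
  have h3 := (lb_aux Z m n A t).2.2
  rw [h] at h3
  rw [← card_map ⟨fun u : Fin n × Fin m => ((u.1 : ℕ), (u.2 : ℕ)), fun u v huv => by
    simp only [Prod.mk.injEq] at huv
    exact Prod.ext (Fin.ext huv.1) (Fin.ext huv.2)⟩]
  apply card_le_card
  intro p hp
  simp only [mem_filter, mem_product, mem_range] at hp
  simp only [mem_map, Function.Embedding.coeFn_mk]
  refine ⟨(⟨p.1, hp.1.1⟩, ⟨p.2, hp.1.2⟩), ?_, rfl⟩
  rcases h3 (⟨p.1, hp.1.1⟩, ⟨p.2, hp.1.2⟩) (mem_univ _) with h | h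
  · exact h
  · exact (h hp.2).elim

end Pool.Agent.MP_a6d740_lc

end

section

set_option autoImplicit false

namespace Pool.Agent.MP_a6d740_lc

open Finset

theorem row_count_ge {m n : ℕ} (S : Finset (Fin n × Fin m)) (v : Fin n × Fin m) (k : ℕ)
    (P : Finset ℕ) (hk : v.1 + k < n) (hP : ∀ x ∈ P, x < v.1)
    (hPS : ∀ x : Fin n, (x : ℕ) ∈ P → (x, v.2) ∈ S)
    (hQS : ∀ x : Fin n, n ≤ x + k → (x, v.2) ∈ S) :
    k + P.card ≤ (S.filter fun u => u ≠ v ∧ u.2 = v.2).card := by
  have hdisj : Disjoint (Ico (n - k) n) P := by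
    rw [disjoint_left]
    intro x hx hxP
    have := hP x hxP
    simp only [mem_Ico] at hx
    omega
  have hcard : (Ico (n - k) n).card = k := by simp; omega
  have : k + P.card = (Ico (n - k) n ∪ P).card := by rw [card_union_of_disjoint hdisj, hcard]
  rw [this]
  refine le_trans (card_le_card ?_) (card_image_le (f := fun u : Fin n × Fin m => (u.1 : ℕ)))
  intro x hx
  simp only [mem_union, mem_Ico] at hx
  simp only [mem_image, mem_filter]
  have hv := v.1.2
  rcases hx with hx | hx
  · refine ⟨(⟨x, hx.2⟩, v.2), ⟨hQS _ (by simp; omega), ?_, rfl⟩, rfl⟩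
    intro h
    have := congrArg (fun u : Fin n × Fin m => (u.1 : ℕ)) h
    simp at this
    omega
  · have hx' := hP x hx
    refine ⟨(⟨x, by omega⟩, v.2), ⟨hPS _ hx, ?_, rfl⟩, rfl⟩
    intro h
    have := congrArg (fun u : Fin n × Fin m => (u.1 : ℕ)) h
    simp at this
    omega

theorem col_count_ge {m n : ℕ} (S : Finset (Fin n × Fin m)) (v : Fin n × Fin m) (k : ℕ)
    (P : Finset ℕ) (hk : v.2 + k < m) (hP : ∀ y ∈ P, y < v.2)
    (hPS : ∀ y : Fin m, (y : ℕ) ∈ P → (v.1, y) ∈ S)
    (hQS : ∀ y : Fin m, m ≤ y + k → (v.1, y) ∈ S) :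
    k + P.card ≤ (S.filter fun u => u ≠ v ∧ u.1 = v.1).card := by
  have hdisj : Disjoint (Ico (m - k) m) P := by
    rw [disjoint_left]
    intro x hx hxP
    have := hP x hxP
    simp only [mem_Ico] at hx
    omega
  have hcard : (Ico (m - k) m).card = k := by simp; omega
  have : k + P.card = (Ico (m - k) m ∪ P).card := by rw [card_union_of_disjoint hdisj, hcard]
  rw [this]
  refine le_trans (card_le_card ?_) (card_image_le (f := fun u : Fin n × Fin m => (u.2 : ℕ)))
  intro x hx
  simp only [mem_union, mem_Ico] at hx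
  simp only [mem_image, mem_filter]
  have hv := v.2.2
  rcases hx with hx | hx
  · refine ⟨(v.1, ⟨x, hx.2⟩), ⟨hQS _ (by simp; omega), ?_, rfl⟩, rfl⟩
    intro h
    have := congrArg (fun u : Fin n × Fin m => (u.2 : ℕ)) h
    simp at this
    omega
  · have hx' := hP x hx
    refine ⟨(v.1, ⟨x, by omega⟩), ⟨hPS _ hx, ?_, rfl⟩, rfl⟩
    intro h
    have := congrArg (fun u : Fin n × Fin m => (u.2 : ℕ)) h
    simp at this
    omega

theorem ub_aux (Z : YoungDiagram) (m n : ℕ) (r c : ℕ → ℕ) (hr : Antitone r) (hc : Antitone c)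
    (A : Finset (Fin n × Fin m)) (h1 : ∀ v : Fin n × Fin m, n ≤ v.1 + r v.2 → v ∈ A)
    (h2 : ∀ v : Fin n × Fin m, m ≤ v.2 + c v.1 → v ∈ A) (s : ℕ) :
    ∀ v : Fin n × Fin m, ((enh Z m n r c s).1 v.2, (enh Z m n r c s).2 v.1) ∉ Z →
      v ∈ (step Z m n)^[s + 1] A := by
  induction s with
  | zero =>
    intro v hv
    refine mem_step.mpr ?_
    by_cases hvA : v ∈ A
    · exact Or.inl hvA
    right
    have a1 : v.1 + r v.2 < n := by by_contra h; exact hvA (h1 v (not_lt.mp h))
    have a2 : v.2 + c v.1 < m := by by_contra h; exact hvA (h2 v (not_lt.mp h))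
    refine notMem_mono hv ?_ ?_
    · simpa [enh_zero] using row_count_ge A v (r v.2) ∅ a1 (by simp) (by simp) (fun x hx => h1 (x, v.2) hx)
    · simpa [enh_zero] using col_count_ge A v (c v.1) ∅ a2 (by simp) (by simp) (fun y hy => h2 (v.1, y) hy)
  | succ s ih =>
    intro v hv
    rw [Function.iterate_succ_apply']
    refine mem_step.mpr ?_
    by_cases hvA : v ∈ (step Z m n)^[s + 1] A
    · exact Or.inl hvA
    right
    have hsub := subset_iterate_step Z m n A (s + 1)
    have a1 : v.1 + r v.2 < n := by by_contra h; exact hvA (hsub (h1 v (not_lt.mp h)))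
    have a2 : v.2 + c v.1 < m := by by_contra h; exact hvA (hsub (h2 v (not_lt.mp h)))
    have hanti := enh_antitone Z m n r c hr hc s
    rw [enh_succ] at hv
    refine notMem_mono hv ?_ ?_
    · refine row_count_ge _ v (r v.2) _ a1 ?_ ?_ (fun x hx => hsub (h1 (x, v.2) hx))
      · intro x hx
        simp only [mem_filter] at hx
        by_contra hlt
        exact hvA (ih v (notMem_mono hx.2 le_rfl (hanti.2 (not_lt.mp hlt))))
      · intro x hx
        simp only [mem_filter] at hx
        exact ih (x, v.2) hx.2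
    · refine col_count_ge _ v (c v.1) _ a2 ?_ ?_ (fun y hy => hsub (h2 (v.1, y) hy))
      · intro y hy
        simp only [mem_filter] at hy
        by_contra hlt
        exact hvA (ih v (notMem_mono hy.2 (hanti.1 (not_lt.mp hlt)) le_rfl))
      · intro y hy
        simp only [mem_filter] at hy
        exact ih (v.1, y) hy.2

/-- a sorted enhancement can be realised by an initial set -/
theorem gamma_le_cost (Z : YoungDiagram) (m n : ℕ) (r c : ℕ → ℕ) (hr : Antitone r)
    (hc : Antitone c) (t : ℕ) : gamma (t + 1) Z m n ≤ cost Z m n r c t := by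
  let A1 : Finset (Fin n × Fin m) := univ.filter fun v => n ≤ v.1 + r v.2
  let A2 : Finset (Fin n × Fin m) := univ.filter fun v => m ≤ v.2 + c v.1
  let A3 : Finset (Fin n × Fin m) := univ.filter fun v =>
    ((enh Z m n r c t).1 v.2, (enh Z m n r c t).2 v.1) ∈ Z
  have hspan : (step Z m n)^[t + 1] (A1 ∪ A2 ∪ A3) = univ := by
    apply eq_univ_of_forall
    intro v
    by_cases hv : ((enh Z m n r c t).1 v.2, (enh Z m n r c t).2 v.1) ∈ Z
    · apply subset_iterate_step
      simp [A3, hv]
    · refine ub_aux Z m n r c hr hc _ ?_ ?_ t v hv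
      · intro v hv; simp [A1, hv]
      · intro v hv; simp [A2, hv]
  refine (gamma_le _ hspan).trans ?_
  refine (card_union_le _ _).trans (add_le_add ((card_union_le _ _).trans (add_le_add ?_ ?_)) ?_)
  · rw [← sum_rowCnt]
    refine sum_le_sum fun y _ => ?_
    have : (Ico (n - r y) n).card ≤ r y := by simp; omega
    refine le_trans ?_ this
    refine card_le_card_of_injOn (fun u => (u.1 : ℕ)) ?_ ?_
    · intro u hu
      simp only [A1, coe_filter, mem_filter, mem_univ, true_and, Set.mem_ofPred_eq, coe_Ico,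
        Set.mem_Ico] at hu ⊢
      have := u.1.2
      rw [hu.2] at hu
      omega
    · intro u hu v hv huv
      simp only [coe_filter, Set.mem_ofPred_eq] at hu hv
      exact Prod.ext (Fin.ext huv) (Fin.ext (hu.2.trans hv.2.symm))
  · rw [← sum_colCnt]
    refine sum_le_sum fun x _ => ?_
    have : (Ico (m - c x) m).card ≤ c x := by simp; omega
    refine le_trans ?_ this
    refine card_le_card_of_injOn (fun u => (u.2 : ℕ)) ?_ ?_
    · intro u hu
      simp only [A2, coe_filter, mem_filter, mem_univ, true_and, Set.mem_ofPred_eq, coe_Ico,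
        Set.mem_Ico] at hu ⊢
      have := u.2.2
      rw [hu.2] at hu
      omega
    · intro u hu v hv huv
      simp only [coe_filter, Set.mem_ofPred_eq] at hu hv
      exact Prod.ext (Fin.ext (hu.2.trans hv.2.symm)) (Fin.ext huv)
  · refine card_le_card_of_injOn (fun u => ((u.1 : ℕ), (u.2 : ℕ))) ?_ ?_
    · intro u hu
      simp only [A3, coe_filter, mem_univ, true_and, Set.mem_ofPred_eq, mem_product,
        mem_range] at hu ⊢
      exact ⟨⟨u.1.2, u.2.2⟩, hu⟩
    · intro u _ v _ huv
      simp only [Prod.mk.injEq] at huv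
      exact Prod.ext (Fin.ext huv.1) (Fin.ext huv.2)

/-- sorting a function on an initial segment -/
theorem exists_sort (m : ℕ) (r : ℕ → ℕ) :
    ∃ σ : Equiv.Perm ℕ, (∀ y, σ y < m ↔ y < m) ∧
      ∀ y y', y ≤ y' → y' < m → r (σ y') ≤ r (σ y) := by
  let f : Fin m → ℕᵒᵈ := fun i => OrderDual.toDual (r i)
  let π : Equiv.Perm (Fin m) := Tuple.sort f
  have hπ : Monotone (f ∘ π) := Tuple.monotone_sort f
  let e : Fin m ≃ {y : ℕ // y < m} := Fin.equivSubtype
  refine ⟨π.extendDomain e, ?_, ?_⟩
  · intro y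
    by_cases h : y < m
    · rw [Equiv.Perm.extendDomain_apply_subtype π e h]
      exact ⟨fun _ => h, fun _ => (e _).2⟩
    · rw [Equiv.Perm.extendDomain_apply_not_subtype π e h]
  · intro y y' hyy hy'
    have hy : y < m := lt_of_le_of_lt hyy hy'
    rw [Equiv.Perm.extendDomain_apply_subtype π e hy,
      Equiv.Perm.extendDomain_apply_subtype π e hy']
    exact hπ (show (⟨y, hy⟩ : Fin m) ≤ ⟨y', hy'⟩ from hyy)

theorem sum_perm (m : ℕ) (r : ℕ → ℕ) (σ : Equiv.Perm ℕ) (hσ : ∀ y, σ y < m ↔ y < m) :
    ∑ y ∈ range m, r (σ y) = ∑ y ∈ range m, r y := by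
  refine sum_equiv σ ?_ (fun _ _ => rfl)
  intro y
  simp [hσ]

/-- every spanning set yields sorted enhancements of no larger size -/
theorem exists_sorted (Z : YoungDiagram) (m n t : ℕ) :
    ∃ r c : ℕ → ℕ, Antitone r ∧ Antitone c ∧ (∀ y, m ≤ y → r y = 0) ∧ (∀ x, n ≤ x → c x = 0) ∧
      ∑ y ∈ range m, r y = gamma (t + 1) Z m n ∧ ∑ x ∈ range n, c x = gamma (t + 1) Z m n ∧
      unc Z m n (enh Z m n r c t) ≤ gamma (t + 1) Z m n := by
  obtain ⟨A, hA, hspan⟩ := gamma_spec (t + 1) Z m n
  obtain ⟨σ, hσ, hσ'⟩ := exists_sort m (rowCnt A)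
  obtain ⟨τ, hτ, hτ'⟩ := exists_sort n (colCnt A)
  refine ⟨fun y => if y < m then rowCnt A (σ y) else 0,
    fun x => if x < n then colCnt A (τ x) else 0, ?_, ?_, ?_, ?_, ?_, ?_, ?_⟩
  · intro y y' h
    dsimp only
    split_ifs with h1 h2
    · exact hσ' y y' h h1
    · omega
    all_goals exact Nat.zero_le _
  · intro y y' h
    dsimp only
    split_ifs with h1 h2
    · exact hτ' y y' h h1
    · omega
    all_goals exact Nat.zero_le _
  · intro y hy; simp [not_lt.mpr hy]
  · intro y hy; simp [not_lt.mpr hy]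
  · rw [← hA, ← sum_rowCnt, ← sum_perm m (rowCnt A) σ hσ]
    exact sum_congr rfl fun y hy => if_pos (mem_range.mp hy)
  · rw [← hA, ← sum_colCnt, ← sum_perm n (colCnt A) τ hτ]
    exact sum_congr rfl fun y hy => if_pos (mem_range.mp hy)
  · rw [← hA]
    refine le_trans (unc_dom Z m n (rowCnt A) (colCnt A) _ _ σ τ hσ hτ ?_ ?_ t)
      (unc_le_card Z m n A t hspan)
    · intro y hy; simp [hy]
    · intro y hy; simp [hy]

end Pool.Agent.MP_a6d740_lc

end

section

set_option autoImplicit false

namespace Pool.Agent.MP_a6d740_lc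

open Finset

/-- the dyadic staircase coded by a lattice path -/
def decF : List Bool → ℕ → ℕ → ℕ → ℕ
  | [], _, _, _ => 0
  | false :: w, v, l, y => decF w (v / 2) l y
  | true :: w, v, l, y => if y < l then v else decF w v (2 * l) (y - l)

theorem decF_le (w : List Bool) : ∀ v l y, decF w v l y ≤ v := by
  induction w with
  | nil => intro v l y; exact Nat.zero_le _
  | cons b w ih =>
    intro v l y
    cases b with
    | false => exact (ih _ _ _).trans (Nat.div_le_self _ _)
    | true =>
      simp only [decF]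
      split_ifs
      · exact le_rfl
      · exact ih _ _ _

theorem decF_antitone (w : List Bool) : ∀ v l, Antitone (decF w v l) := by
  induction w with
  | nil => intro v l y y' _; exact le_rfl
  | cons b w ih =>
    intro v l y y' h
    cases b with
    | false => exact ih _ _ h
    | true =>
      simp only [decF]
      split_ifs with h1 h2 h2
      · exact le_rfl
      · omega
      · exact decF_le _ _ _ _
      · exact ih _ _ (by omega)

theorem round_aux (k : ℕ) : ∀ (i j v l : ℕ) (r : ℕ → ℕ), Antitone r → r 0 ≤ v → v < 2 ^ i →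
    (∀ y, l * (2 ^ j - 1) ≤ y → r y = 0) → i + j ≤ k →
    ∃ w : List Bool, w.length = k ∧ (∀ y, r y ≤ decF w v l y) ∧
      ∀ M, ∑ y ∈ range (M + 1), decF w v l y ≤ 2 * l * r 0 + 4 * ∑ y ∈ range M, r (y + 1) := by
  induction k with
  | zero =>
    intro i j v l r hr h0 hv _ hk
    have hi : i = 0 := by omega
    subst hi
    refine ⟨[], rfl, fun y => ?_, fun M => by simp [decF]⟩
    have := hr (Nat.zero_le y)
    simp only [decF]
    omega
  | succ k ih =>
    intro i j v l r hr h0 hv hS hk
    by_cases hcase : r 0 ≤ v / 2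
    · have : ∃ w : List Bool, w.length = k ∧ (∀ y, r y ≤ decF w (v / 2) l y) ∧
          ∀ M, ∑ y ∈ range (M + 1), decF w (v / 2) l y ≤
            2 * l * r 0 + 4 * ∑ y ∈ range M, r (y + 1) := by
        rcases i with _ | i
        · refine ih 0 0 (v / 2) l r hr hcase (by omega) (fun y _ => ?_) (by omega)
          have := hr (Nat.zero_le y)
          omega
        · exact ih i j (v / 2) l r hr hcase (by rw [pow_succ] at hv; omega) hS (by omega)
      obtain ⟨w, h1, h2, h3⟩ := this
      exact ⟨false :: w, by simp [h1], h2, h3⟩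
    · have hj : j ≠ 0 := by
        rintro rfl
        have := hS 0 (by simp)
        omega
      obtain ⟨j, rfl⟩ := Nat.exists_eq_succ_of_ne_zero hj
      obtain ⟨w, h1, h2, h3⟩ := ih i j v (2 * l) (fun y => r (y + l))
        (fun y y' h => hr (by omega)) ((hr (Nat.zero_le _)).trans h0) hv
        (fun y hy => hS _ (by
          have h2 : 1 ≤ 2 ^ j := Nat.one_le_two_pow
          obtain ⟨q, hq⟩ := Nat.exists_eq_add_of_le h2
          have e1 : 2 ^ j - 1 = q := by omega
          have e2 : 2 ^ (j + 1) - 1 = 2 * q + 1 := by rw [pow_succ]; omega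
          rw [e1] at hy
          rw [Nat.succ_eq_add_one, e2]
          nlinarith)) (by omega)
      refine ⟨true :: w, by simp [h1], fun y => ?_, fun M => ?_⟩
      · simp only [decF]
        split_ifs with h
        · exact (hr (Nat.zero_le _)).trans h0
        · have := h2 (y - l)
          rwa [Nat.sub_add_cancel (not_lt.mp h)] at this
      · have hv2 : v ≤ 2 * r 0 := by omega
        by_cases hM : M + 1 ≤ l
        · have : ∑ y ∈ range (M + 1), decF (true :: w) v l y ≤ ∑ y ∈ range (M + 1), v :=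
            sum_le_sum fun y _ => decF_le _ _ _ _
          simp only [sum_const, card_range, smul_eq_mul] at this
          have h5 : (M + 1) * v ≤ l * (2 * r 0) := Nat.mul_le_mul hM hv2
          have h6 : l * (2 * r 0) = 2 * l * r 0 := by ring
          omega
        · obtain ⟨M', rfl⟩ : ∃ M', M = l + M' := ⟨M - l, by omega⟩
          rw [show l + M' + 1 = l + (M' + 1) by ring, sum_range_add _ l (M' + 1),
            sum_range_add _ l M']
          have e1 : ∑ y ∈ range l, decF (true :: w) v l y = l * v := by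
            rw [sum_congr rfl (g := fun _ => v)]
            · simp
            · intro y hy
              simp [decF, mem_range.mp hy]
          have e2 : ∑ y ∈ range (M' + 1), decF (true :: w) v l (l + y) =
              ∑ y ∈ range (M' + 1), decF w v (2 * l) y :=
            sum_congr rfl fun y _ => by simp [decF]
          have e3 : l * r l ≤ ∑ y ∈ range l, r (y + 1) := by
            have : ∑ _y ∈ range l, r l ≤ ∑ y ∈ range l, r (y + 1) :=
              sum_le_sum fun y hy => hr (mem_range.mp hy)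
            simpa using this
          have e4 : ∑ y ∈ range M', r (y + 1 + l) = ∑ y ∈ range M', r (l + y + 1) :=
            sum_congr rfl fun y _ => by congr 1; ring
          have h4 := h3 M'
          simp only [zero_add] at h4
          rw [e1, e2, ← e4]
          have h5 : l * v ≤ l * (2 * r 0) := Nat.mul_le_mul le_rfl hv2
          have h6 : l * (2 * r 0) = 2 * l * r 0 := by ring
          have h7 : 2 * (2 * l) * r l = 4 * (l * r l) := by ring
          omega

/-- the candidate enhancements -/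
def cand (N : ℕ) (w : List Bool) (y : ℕ) : ℕ := if y < N then decF w N 1 y else 0

theorem cand_antitone (N : ℕ) (w : List Bool) : Antitone (cand N w) := by
  intro y y' h
  simp only [cand]
  split_ifs with h1 h2
  · exact decF_antitone w N 1 h
  · omega
  all_goals exact Nat.zero_le _

theorem cand_zero (N : ℕ) (w : List Bool) (y : ℕ) (h : N ≤ y) : cand N w y = 0 :=
  if_neg (not_lt.mpr h)

theorem exists_cand (N K m : ℕ) (hK : N < 2 ^ K) (r : ℕ → ℕ) (hr : Antitone r)
    (hm : ∀ y, m ≤ y → r y = 0) (hN : ∑ y ∈ range m, r y ≤ N) :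
    ∃ w : List Bool, w.length = 2 * K ∧ (∀ y, r y ≤ cand N w y) ∧
      ∑ y ∈ range m, cand N w y ≤ 4 * ∑ y ∈ range m, r y := by
  have hz : ∀ y, N ≤ y → r y = 0 := by
    intro y hy
    by_contra hne
    have hym : y < m := by by_contra h; exact hne (hm y (not_lt.mp h))
    have h1 : ∑ _z ∈ range (y + 1), 1 ≤ ∑ z ∈ range (y + 1), r z :=
      sum_le_sum fun z hz => by
        have := hr (show z ≤ y from Nat.lt_succ_iff.mp (mem_range.mp hz))
        omega
    have h2 : ∑ z ∈ range (y + 1), r z ≤ ∑ z ∈ range m, r z :=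
      sum_le_sum_of_subset (range_subset_range.mpr hym)
    simp only [sum_const, card_range, smul_eq_mul, mul_one] at h1
    omega
  have h0 : r 0 ≤ N := by
    rcases m with _ | m
    · rw [hm 0 le_rfl]; exact Nat.zero_le _
    · rw [sum_range_succ'] at hN; omega
  obtain ⟨w, h1, h2, h3⟩ := round_aux (2 * K) K K N 1 r hr h0 hK
    (fun y hy => hz y (by omega)) (by omega)
  refine ⟨w, h1, fun y => ?_, ?_⟩
  · simp only [cand]
    split_ifs with h
    · exact h2 y
    · rw [hz y (not_lt.mp h)]
  · rcases m with _ | m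
    · simp
    · have h4 : ∑ y ∈ range (m + 1), cand N w y ≤ ∑ y ∈ range (m + 1), decF w N 1 y :=
        sum_le_sum fun y _ => by
          simp only [cand]
          split_ifs
          · exact le_rfl
          · exact Nat.zero_le _
      have := h3 m
      rw [sum_range_succ' r]
      omega

end Pool.Agent.MP_a6d740_lc

end

section

set_option autoImplicit false

namespace Pool.Agent.MP_a6d740_lc

open Finset

theorem enh_const (Z : YoungDiagram) (m n P : ℕ) (r c : ℕ → ℕ) (hr : ∀ y, P ≤ y → r y = 0)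
    (hc : ∀ x, P ≤ x → c x = 0) (t : ℕ) :
    (∀ y, P ≤ y → (enh Z m n r c t).1 y = (enh Z m n r c t).1 P) ∧
    (∀ x, P ≤ x → (enh Z m n r c t).2 x = (enh Z m n r c t).2 P) := by
  induction t with
  | zero =>
    exact ⟨fun y hy => (hr y hy).trans (hr P le_rfl).symm,
      fun x hx => (hc x hx).trans (hc P le_rfl).symm⟩
  | succ t ih =>
    rw [enh_succ]
    refine ⟨fun y hy => ?_, fun x hx => ?_⟩
    · simp only [enhStep, hr y hy, hr P le_rfl, ih.1 y hy]
    · simp only [enhStep, hc x hx, hc P le_rfl, ih.2 x hx]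

theorem mem_iff_of_min {Z : YoungDiagram} {a b : ℕ} (hZ : ∀ p ∈ Z, p.1 < a ∧ p.2 < b)
    {p q p' q' : ℕ} (h1 : min p a = min p' a) (h2 : min q b = min q' b) :
    (p, q) ∈ Z ↔ (p', q') ∈ Z := by
  constructor
  · intro h
    have := hZ _ h
    simp only at this
    have e1 : p' = p := by omega
    have e2 : q' = q := by omega
    rwa [e1, e2]
  · intro h
    have := hZ _ h
    simp only at this
    have e1 : p = p' := by omega
    have e2 : q = q' := by omega
    rwa [e1, e2]

theorem card_filter_trunc (n n' P a : ℕ) (Q : ℕ → Prop) [DecidablePred Q] (hn : n' ≤ n)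
    (hn' : n' = n ∨ P + a ≤ n') (hQ : ∀ x, P ≤ x → (Q x ↔ Q P)) (k : ℕ) :
    min (k + ((range n).filter Q).card) a = min (k + ((range n').filter Q).card) a := by
  rcases hn' with rfl | hn'
  · rfl
  by_cases hP : Q P
  · have h1 : a ≤ ((range n').filter Q).card := by
      have : Ico P (P + a) ⊆ (range n').filter Q := by
        intro x hx
        simp only [mem_Ico, mem_filter, mem_range] at hx ⊢
        exact ⟨by omega, (hQ x hx.1).2 hP⟩
      simpa using card_le_card this
    have h2 : ((range n').filter Q).card ≤ ((range n).filter Q).card :=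
      card_le_card (filter_subset_filter _ (range_subset_range.mpr hn))
    omega
  · have : (range n).filter Q = (range n').filter Q := by
      ext x
      simp only [mem_filter, mem_range]
      refine ⟨fun h => ⟨?_, h.2⟩, fun h => ⟨by omega, h.2⟩⟩
      by_contra hx
      exact hP ((hQ x (by omega)).1 h.2)
    rw [this]

theorem enh_trunc (Z : YoungDiagram) (a b m n m' n' P : ℕ) (hZ : ∀ p ∈ Z, p.1 < a ∧ p.2 < b)
    (r c : ℕ → ℕ) (hr : ∀ y, P ≤ y → r y = 0) (hc : ∀ x, P ≤ x → c x = 0)
    (hm : m' ≤ m) (hm' : m' = m ∨ P + b ≤ m') (hn : n' ≤ n) (hn' : n' = n ∨ P + a ≤ n') (t : ℕ) :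
    (∀ y, min ((enh Z m n r c t).1 y) a = min ((enh Z m' n' r c t).1 y) a) ∧
    (∀ x, min ((enh Z m n r c t).2 x) b = min ((enh Z m' n' r c t).2 x) b) := by
  induction t with
  | zero => exact ⟨fun _ => rfl, fun _ => rfl⟩
  | succ t ih =>
    have hcst := enh_const Z m n P r c hr hc t
    rw [enh_succ, enh_succ]
    refine ⟨fun y => ?_, fun x => ?_⟩
    · simp only [enhStep]
      rw [card_filter_trunc n n' P a _ hn hn' (fun x hx => by rw [hcst.2 x hx])]
      congr 3
      exact filter_congr fun x _ => not_congr (mem_iff_of_min hZ (ih.1 y) (ih.2 x))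
    · simp only [enhStep]
      rw [card_filter_trunc m m' P b _ hm hm' (fun y hy => by rw [hcst.1 y hy])]
      congr 3
      exact filter_congr fun y _ => not_congr (mem_iff_of_min hZ (ih.1 y) (ih.2 x))

theorem sum_trunc (m m' P : ℕ) (r : ℕ → ℕ) (hr : ∀ y, P ≤ y → r y = 0) (hm : m' ≤ m)
    (hm' : m' = m ∨ P ≤ m') : ∑ y ∈ range m', r y = ∑ y ∈ range m, r y := by
  rcases hm' with rfl | hm'
  · rfl
  refine sum_subset (range_subset_range.mpr hm) fun y _ hy => hr y ?_
  simp only [mem_range] at hy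
  omega

theorem cost_trunc (Z : YoungDiagram) (a b m n m' n' P T : ℕ) (hZ : ∀ p ∈ Z, p.1 < a ∧ p.2 < b)
    (r c : ℕ → ℕ) (hr : ∀ y, P ≤ y → r y = 0) (hc : ∀ x, P ≤ x → c x = 0)
    (hm : m' ≤ m) (hm' : m' = m ∨ (P + b ≤ m' ∧ P + T ≤ m'))
    (hn : n' ≤ n) (hn' : n' = n ∨ (P + a ≤ n' ∧ P + T ≤ n')) (t : ℕ) :
    cost Z m' n' r c t ≤ cost Z m n r c t ∧
      (cost Z m' n' r c t < T → cost Z m n r c t = cost Z m' n' r c t) := by
  have h := enh_trunc Z a b m n m' n' P hZ r c hr hc hm (by tauto) hn (by tauto) t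
  have hcst := enh_const Z m n P r c hr hc t
  have hiff : ∀ x y, ((enh Z m' n' r c t).1 y, (enh Z m' n' r c t).2 x) ∈ Z ↔
      ((enh Z m n r c t).1 y, (enh Z m n r c t).2 x) ∈ Z :=
    fun x y => (mem_iff_of_min hZ (h.1 y) (h.2 x)).symm
  have e1 := sum_trunc m m' P r hr hm (by omega)
  have e2 := sum_trunc n n' P c hc hn (by omega)
  unfold cost unc
  rw [e1, e2]
  simp only [hiff]
  set s := enh Z m n r c t
  refine ⟨add_le_add le_rfl (card_le_card (filter_subset_filter _ (product_subset_product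
    (range_subset_range.mpr hn) (range_subset_range.mpr hm)))), fun hT => ?_⟩
  congr 2
  ext p
  simp only [mem_filter, mem_product, mem_range]
  refine ⟨fun hp => ⟨?_, hp.2⟩, fun hp => ⟨⟨by omega, by omega⟩, hp.2⟩⟩
  have hT' : ((range n' ×ˢ range m').filter fun p => (s.1 p.2, s.2 p.1) ∈ Z).card < T := by omega
  by_contra hcon
  -- a representative of `p` in the truncated rectangle
  have hx : ∃ x < n', s.2 x = s.2 p.1 := by
    by_cases h1 : p.1 < n'
    · exact ⟨p.1, h1, rfl⟩
    · exact ⟨P, by omega, (hcst.2 p.1 (by omega)).symm⟩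
  have hy : ∃ y < m', s.1 y = s.1 p.2 := by
    by_cases h1 : p.2 < m'
    · exact ⟨p.2, h1, rfl⟩
    · exact ⟨P, by omega, (hcst.1 p.2 (by omega)).symm⟩
  obtain ⟨x, hx1, hx2⟩ := hx
  obtain ⟨y, hy1, hy2⟩ := hy
  by_cases h1 : p.1 < n'
  · have h2 : ¬ p.2 < m' := fun h2 => hcon ⟨h1, h2⟩
    have : ({x} ×ˢ Ico P (P + T)) ⊆
        (range n' ×ˢ range m').filter fun p => (s.1 p.2, s.2 p.1) ∈ Z := by
      intro q hq
      simp only [mem_product, mem_singleton, mem_Ico, mem_filter, mem_range] at hq ⊢
      refine ⟨⟨by omega, by omega⟩, ?_⟩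
      rw [hq.1, hx2, hcst.1 q.2 hq.2.1, ← hcst.1 p.2 (by omega)]
      exact hp.2
    have := card_le_card this
    simp at this
    omega
  · have : (Ico P (P + T) ×ˢ {y}) ⊆
        (range n' ×ˢ range m').filter fun p => (s.1 p.2, s.2 p.1) ∈ Z := by
      intro q hq
      simp only [mem_product, mem_singleton, mem_Ico, mem_filter, mem_range] at hq ⊢
      refine ⟨⟨by omega, by omega⟩, ?_⟩
      rw [hq.2, hy2, hcst.2 q.1 hq.1.1, ← hcst.2 p.1 (by omega)]
      exact hp.2
    have := card_le_card this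
    simp at this
    omega

theorem unc_antitone (Z : YoungDiagram) (m n : ℕ) (r c : ℕ → ℕ) :
    Antitone fun t => unc Z m n (enh Z m n r c t) := by
  refine antitone_nat_of_succ_le fun t => card_le_card ?_
  intro p hp
  simp only [mem_filter] at hp ⊢
  exact ⟨hp.1, Z.up_left_mem ((enh_le_succ Z m n r c t).1 _) ((enh_le_succ Z m n r c t).2 _) hp.2⟩

theorem unc_stab (Z : YoungDiagram) (m n : ℕ) (r c : ℕ → ℕ) (t : ℕ) :
    unc Z m n (enh Z m n r c t) = unc Z m n (enh Z m n r c (min t (m * n))) := by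
  obtain ⟨l, hl, hl'⟩ := Nat.stabilises_of_antitone (unc_antitone Z m n r c) (fun t ht => by
    have hsub : ((range n ×ˢ range m).filter fun p =>
          ((enh Z m n r c (t + 1)).1 p.2, (enh Z m n r c (t + 1)).2 p.1) ∈ Z) ⊆
        (range n ×ˢ range m).filter fun p =>
          ((enh Z m n r c t).1 p.2, (enh Z m n r c t).2 p.1) ∈ Z := by
      intro p hp
      simp only [mem_filter] at hp ⊢
      exact ⟨hp.1, Z.up_left_mem ((enh_le_succ Z m n r c t).1 _)
        ((enh_le_succ Z m n r c t).2 _) hp.2⟩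
    have heq := eq_of_subset_of_card_le hsub (le_of_eq ht)
    have hiff : ∀ x < n, ∀ y < m, ((enh Z m n r c (t + 1)).1 y, (enh Z m n r c (t + 1)).2 x) ∈ Z ↔
        ((enh Z m n r c t).1 y, (enh Z m n r c t).2 x) ∈ Z := by
      intro x hx y hy
      have := Finset.ext_iff.mp heq (x, y)
      simpa [hx, hy] using this
    have h1 : ∀ y < m, (enh Z m n r c (t + 2)).1 y = (enh Z m n r c (t + 1)).1 y := by
      intro y hy
      rw [enh_succ Z m n r c (t + 1)]
      conv_rhs => rw [enh_succ]
      simp only [enhStep]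
      congr 2
      exact filter_congr fun x hx => not_congr (hiff x (mem_range.mp hx) y hy)
    have h2 : ∀ x < n, (enh Z m n r c (t + 2)).2 x = (enh Z m n r c (t + 1)).2 x := by
      intro x hx
      rw [enh_succ Z m n r c (t + 1)]
      conv_rhs => rw [enh_succ]
      simp only [enhStep]
      congr 2
      exact filter_congr fun y hy => not_congr (hiff x hx y (mem_range.mp hy))
    unfold unc
    congr 1
    refine filter_congr fun p hp => ?_
    simp only [mem_product, mem_range] at hp
    rw [h1 _ hp.2, h2 _ hp.1])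
  have hl0 : l ≤ m * n := by
    refine hl.trans ((card_filter_le _ _).trans ?_)
    simp [mul_comm]
  by_cases h : t ≤ m * n
  · rw [min_eq_left h]
  · rw [min_eq_right (by omega)]
    exact (hl' t (by omega)).trans (hl' _ hl0).symm

theorem cost_stab (Z : YoungDiagram) (m n : ℕ) (r c : ℕ → ℕ) (t : ℕ) :
    cost Z m n r c t = cost Z m n r c (min t (m * n)) := by
  unfold cost
  rw [unc_stab]

theorem gamma_le_ab (Z : YoungDiagram) (a b m n t : ℕ) (hZ : ∀ p ∈ Z, p.1 < a ∧ p.2 < b)
    (hb : b ≤ m) : gamma (t + 2) Z m n ≤ a * b := by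
  refine (gamma_le_cost Z m n (fun y => if y < b then a else 0) (fun _ => 0) ?_ antitone_const
    (t + 1)).trans ?_
  · intro y y' h
    dsimp only
    split_ifs <;> omega
  · unfold cost
    have e1 : ∑ y ∈ range m, (if y < b then a else 0) = a * b := by
      rw [← sum_filter]
      have : (range m).filter (fun y => y < b) = range b := by
        ext y; simp only [mem_filter, mem_range]; omega
      rw [this]; simp [mul_comm]
    have e2 : unc Z m n (enh Z m n (fun y => if y < b then a else 0) (fun _ => 0) (t + 1)) = 0 := by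
      refine Nat.eq_zero_of_le_zero ((unc_antitone Z m n _ _ (show 1 ≤ t + 1 by omega)).trans ?_)
      simp only [nonpos_iff_eq_zero]
      unfold unc
      rw [card_eq_zero, filter_eq_empty_iff]
      intro p _ hp
      have h1 := (hZ _ hp).2
      have : range b ⊆ (range m).filter fun y => ((if y < b then a else 0), 0) ∉ Z := by
        intro y hy
        simp only [mem_range, mem_filter] at hy ⊢
        refine ⟨by omega, fun h => ?_⟩
        have := (hZ _ h).1
        simp [hy] at this
      have h2 := card_le_card this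
      rw [enh_succ, enh_zero] at h1
      simp only [enhStep, zero_add] at h1
      simp only [card_range] at h2
      omega
    rw [e1, e2]
    simp

/-- the main estimate for latency at least two -/
theorem approx_two (Z : YoungDiagram) (a b m n t K out : ℕ) (hZ : ∀ p ∈ Z, p.1 < a ∧ p.2 < b)
    (hb : b ≤ m) (N M : ℕ) (hN : a * b ≤ N) (hK : N < 2 ^ K) (hM : 10 * N + a + b + 1 ≤ M)
    (h1 : ∀ w w' : List Bool, w.length = 2 * K → w'.length = 2 * K →
      out ≤ cost Z (min m M) (min n M) (cand N w) (cand N w') (t + 1))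
    (h2 : ∃ w w' : List Bool, out = cost Z (min m M) (min n M) (cand N w) (cand N w') (t + 1)) :
    gamma (t + 2) Z m n ≤ out ∧ out ≤ 9 * gamma (t + 2) Z m n := by
  have hg := gamma_le_ab Z a b m n t hZ hb
  have htr := fun w w' => cost_trunc Z a b m n (min m M) (min n M) N (9 * N + 1) hZ
    (cand N w) (cand N w') (cand_zero N w) (cand_zero N w') (min_le_left _ _) (by omega)
    (min_le_left _ _) (by omega) (t + 1)
  have hup : out ≤ 9 * gamma (t + 2) Z m n := by
    obtain ⟨r, c, hr, hc, hr0, hc0, e1, e2, e3⟩ := exists_sorted Z m n (t + 1)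
    obtain ⟨w, a1, a2, a3⟩ := exists_cand N K m hK r hr hr0 (by rw [e1]; exact hg.trans hN)
    obtain ⟨w', b1, b2, b3⟩ := exists_cand N K n hK c hc hc0 (by rw [e2]; exact hg.trans hN)
    refine (h1 w w' a1 b1).trans ((htr w w').1.trans ?_)
    have := unc_dom Z m n r c (cand N w) (cand N w') 1 1 (fun _ => Iff.rfl) (fun _ => Iff.rfl)
      (fun y _ => a2 y) (fun x _ => b2 x) (t + 1)
    unfold cost
    rw [e1] at a3
    rw [e2] at b3
    rw [show t + 1 + 1 = t + 2 from rfl] at *
    omega
  refine ⟨?_, hup⟩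
  obtain ⟨w, w', h⟩ := h2
  rw [h, ← (htr w w').2 (by omega)]
  exact gamma_le_cost Z m n _ _ (cand_antitone N w) (cand_antitone N w') (t + 1)

/-- the estimate for latency one -/
theorem approx_one (Z : YoungDiagram) (a b m n out : ℕ) (hZ : ∀ p ∈ Z, p.1 < a ∧ p.2 < b)
    (h0 : out ≤ m * n) (h1 : ∀ p ≤ a, ∀ q ≤ b, (p, q) ∉ Z → out ≤ m * p + n * q)
    (h2 : out = m * n ∨ ∃ p q, (p, q) ∉ Z ∧ out = m * p + n * q) :
    gamma 1 Z m n ≤ out ∧ out ≤ 4 * gamma 1 Z m n := by
  constructor
  · rcases h2 with h | ⟨p, q, hpq, h⟩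
    · rw [h]; exact gamma_le_mul _ _ _ _
    · refine (gamma_le_cost Z m n (fun _ => p) (fun _ => q) antitone_const antitone_const 0).trans ?_
      unfold cost unc
      simp [enh_zero, hpq, h]
  · obtain ⟨r, c, hr, hc, -, -, e1, e2, e3⟩ := exists_sorted Z m n 0
    rw [zero_add] at e1 e2 e3
    rcases Nat.eq_zero_or_pos m with hm | hm
    · subst hm; omega
    rcases Nat.eq_zero_or_pos n with hn | hn
    · subst hn; omega
    have key : ∀ (m : ℕ) (r : ℕ → ℕ), Antitone r → 0 < m →
        m * r (m / 2) ≤ 2 * ∑ y ∈ range m, r y := by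
      intro m r hr hm
      have h1 : ∑ _z ∈ range (m / 2 + 1), r (m / 2) ≤ ∑ z ∈ range (m / 2 + 1), r z :=
        sum_le_sum fun z hz => hr (Nat.lt_succ_iff.mp (mem_range.mp hz))
      have h2 : ∑ z ∈ range (m / 2 + 1), r z ≤ ∑ z ∈ range m, r z :=
        sum_le_sum_of_subset (range_subset_range.mpr (by omega))
      simp only [sum_const, card_range, smul_eq_mul] at h1
      have h3 : m * r (m / 2) ≤ (2 * (m / 2 + 1)) * r (m / 2) :=
        Nat.mul_le_mul_right _ (by omega)
      nlinarith
    by_cases hin : (r (m / 2), c (n / 2)) ∈ Z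
    · have : (Ico (n / 2) n ×ˢ Ico (m / 2) m) ⊆
          (range n ×ˢ range m).filter fun p => (r p.2, c p.1) ∈ Z := by
        intro p hp
        simp only [mem_product, mem_Ico, mem_filter, mem_range] at hp ⊢
        exact ⟨⟨hp.1.2, hp.2.2⟩, Z.up_left_mem (hr hp.2.1) (hc hp.1.1) hin⟩
      have h3 := card_le_card this
      simp only [card_product, Nat.card_Ico] at h3
      have h4 : m * n ≤ (2 * (m - m / 2)) * (2 * (n - n / 2)) :=
        Nat.mul_le_mul (by omega) (by omega)
      have h5 : ((range n ×ˢ range m).filter fun p => (r p.2, c p.1) ∈ Z).card ≤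
        gamma 1 Z m n := e3
      nlinarith
    · have h3 := h1 (min (r (m / 2)) a) (min_le_right _ _) (min (c (n / 2)) b) (min_le_right _ _)
        (fun h => hin ((mem_iff_of_min hZ (by simp) (by simp)).mp h))
      have h4 := key m r hr hm
      have h5 := key n c hc hn
      have h6 : m * min (r (m / 2)) a ≤ m * r (m / 2) := Nat.mul_le_mul_left _ (min_le_left _ _)
      have h7 : n * min (c (n / 2)) b ≤ n * c (n / 2) := Nat.mul_le_mul_left _ (min_le_left _ _)
      omega

end Pool.Agent.MP_a6d740_lc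

end

section

set_option autoImplicit false

namespace Pool.Agent.MP_a6d740_lc

open Pool.Agent.MP_2e8011_lc

variable {α β γ : Type} [Enc α] [Enc β] [Enc γ]

/-- table lookup -/
def tb (T : List (List Bool)) (p q : ℕ) : Bool := (T.getD q []).getD p false

@[fun_prop] theorem pt_tb {T : α → List (List Bool)} {p q : α → ℕ} (hT : PT T) (hp : PT p)
    (hq : PT q) : PT (fun a => tb (T a) (p a) (q a)) := by
  unfold tb
  fun_prop

/-- all bit strings of a given length -/
def allBits (k : ℕ) : List (List Bool) :=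
  (fun L : List (List Bool) => L.map (fun w => true :: w) ++ L.map (fun w => false :: w))^[k] [[]]

theorem allBits_succ (k : ℕ) : allBits (k + 1) =
    (allBits k).map (fun w => true :: w) ++ (allBits k).map (fun w => false :: w) :=
  Function.iterate_succ_apply' _ _ _

theorem mem_allBits (k : ℕ) (w : List Bool) : w ∈ allBits k ↔ w.length = k := by
  induction k generalizing w with
  | zero => simp [allBits]
  | succ k ih =>
    rw [allBits_succ]
    cases w with
    | nil => simp
    | cons b w => cases b <;> simp [ih]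

theorem length_allBits (k : ℕ) : (allBits k).length = 2 ^ k := by
  induction k with
  | zero => rfl
  | succ k ih => rw [allBits_succ]; simp [ih]; omega

theorem two_pow_size_le (N : ℕ) : 2 ^ N.size ≤ 2 * N + 1 := by
  rcases Nat.eq_zero_or_pos N with rfl | h
  · simp
  · have h1 : 0 < N.size := Nat.size_pos.mpr h
    have h2 : 2 ^ (N.size - 1) ≤ N := Nat.lt_size.mp (by omega)
    have : 2 ^ N.size = 2 * 2 ^ (N.size - 1) := by
      rw [← pow_succ']; congr 1; omega
    omega

/-- the codes of all candidate staircases -/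
def codes (N : ℕ) : List (List Bool) := allBits (2 * N.bits.length)

@[fun_prop] theorem pt_codes {N : α → ℕ} (hN : PT N) : PT (fun a => codes (N a)) := by
  have h1 : PT (fun a => 2 * (N a).bits.length) :=
    (PT.const 2).mul (pt_binBits (pt_ofUnary hN)).length
  refine PT.iter (g := fun L : List (List Bool) =>
    L.map (fun w => true :: w) ++ L.map (fun w => false :: w)) (by fun_prop) h1 (PT.const [[]])
    (B := fun a => (2 * N a + 1) ^ 2 * (2 * (2 * (N a).bits.length * 3) + 1))
    (PT.pb (by fun_prop)) (fun a i hi => ?_)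
  have h2 := sz_le_of_forall (l := allBits i) (B := 2 * (N a).bits.length * 3) (fun w hw => by
    have h3 := sz_le_of_forall (l := w) (B := 1) (fun _ _ => le_rfl)
    rw [(mem_allBits i w).mp hw] at h3
    omega)
  refine h2.trans (Nat.mul_le_mul_right _ ?_)
  rw [length_allBits]
  refine (Nat.pow_le_pow_right (by omega) hi).trans ?_
  rw [mul_comm, pow_mul, Nat.size_eq_bits_len]
  exact Nat.pow_le_pow_left (two_pow_size_le _) 2

/-- one step of the evaluation of a staircase -/
def decStep (s : ℕ × ℕ × ℕ × Bool) (b : Bool) : ℕ × ℕ × ℕ × Bool :=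
  bif s.2.2.2 then s else
    bif b then (if s.2.2.1 < s.2.1 then (s.1, s.2.1, s.2.2.1, true)
      else (s.1, 2 * s.2.1, s.2.2.1 - s.2.1, false))
    else (s.1 / 2, s.2.1, s.2.2.1, false)

theorem foldl_decStep_done (w : List Bool) (v l y : ℕ) :
    w.foldl decStep (v, l, y, true) = (v, l, y, true) := by
  induction w with
  | nil => rfl
  | cons b w ih => simpa [decStep] using ih

theorem foldl_decStep (w : List Bool) : ∀ v l y : ℕ,
    (bif (w.foldl decStep (v, l, y, false)).2.2.2 then (w.foldl decStep (v, l, y, false)).1 else 0)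
      = decF w v l y := by
  induction w with
  | nil => intro v l y; rfl
  | cons b w ih =>
    intro v l y
    cases b with
    | false => simpa [decStep, decF] using ih _ _ _
    | true =>
      by_cases h : y < l
      · simp [decStep, decF, h, foldl_decStep_done]
      · simpa [decStep, decF, h] using ih _ _ _

theorem foldl_decStep_bound (w : List Bool) (V Y : ℕ) : ∀ s : ℕ × ℕ × ℕ × Bool,
    s.1 ≤ V → s.2.1 ≤ 2 * Y + 1 → s.2.2.1 ≤ Y →
    (w.foldl decStep s).1 ≤ V ∧ (w.foldl decStep s).2.1 ≤ 2 * Y + 1 ∧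
      (w.foldl decStep s).2.2.1 ≤ Y := by
  induction w with
  | nil => intro s h1 h2 h3; exact ⟨h1, h2, h3⟩
  | cons b w ih =>
    rintro ⟨v, l, y, d⟩ h1 h2 h3
    rw [List.foldl_cons]
    simp only at h1 h2 h3
    apply ih
    all_goals
      cases d <;> cases b <;> simp only [decStep, cond_true, cond_false] <;>
        (try split_ifs) <;> (try dsimp only) <;> omega

@[fun_prop] theorem pt_decF {w : α → List Bool} {v y : α → ℕ} (hw : PT w) (hv : PT v)
    (hy : PT y) : PT (fun a => decF (w a) (v a) 1 (y a)) := by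
  have := PT.foldl (f := fun _ => decStep) (by unfold decStep; fun_prop) hw
    (s := fun a => (v a, 1, y a, false)) (by fun_prop)
    (B := fun a => 2 * v a + 6 * y a + 6) (PT.pb (by fun_prop)) (fun a k => by
      have := foldl_decStep_bound ((w a).take k) (v a) (y a) (v a, 1, y a, false) le_rfl
        (by simp) le_rfl
      generalize List.foldl decStep (v a, 1, y a, false) ((w a).take k) = s at this
      obtain ⟨x1, x2, x3, x4⟩ := s
      simp only [sz_prod, sz_nat, sz_bool] at this ⊢
      omega)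
  exact (PT.cond this.snd.snd.snd this.fst (PT.const 0)).congr (fun a => foldl_decStep _ _ _ _)

@[fun_prop] theorem pt_cand {w : α → List Bool} {N y : α → ℕ} (hN : PT N) (hw : PT w)
    (hy : PT y) : PT (fun a => cand (N a) (w a) (y a)) := by
  unfold cand
  fun_prop

@[fun_prop] theorem pt_sum {l : α → List ℕ} (hl : PT l) : PT (fun a => (l a).sum) := by
  have h1 : ∀ m : List ℕ, m.sum ≤ sz m := by
    intro m
    induction m with
    | nil => simp
    | cons x m ih => simp; omega
  refine (pt_foldr (f := fun _ (x u : ℕ) => x + u) (by fun_prop) hl (PT.const 0) hl.pb_sz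
    (fun a k => ?_)).congr (fun a => List.sum_eq_foldr.symm)
  rw [← List.sum_eq_foldr, sz_nat]
  exact (h1 _).trans (sz_drop_le _ _)

/-- one step of the enhanced dynamics on lists -/
def stepL (p : List (List Bool) × List ℕ × List ℕ) (s : List ℕ × List ℕ) : List ℕ × List ℕ :=
  ((List.range p.2.1.length).map fun y =>
      p.2.1.getD y 0 + (s.2.filter fun cx => !tb p.1 (s.1.getD y 0) cx).length,
   (List.range p.2.2.length).map fun x =>
      p.2.2.getD x 0 + (s.1.filter fun ry => !tb p.1 ry (s.2.getD x 0)).length)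

theorem getD_le_sz (l : List ℕ) (i : ℕ) : l.getD i 0 ≤ sz l := by
  by_cases h : i < l.length
  · have : l.getD i 0 ∈ l := by
      rw [List.getD_eq_getElem _ _ h]; exact List.getElem_mem h
    simpa using sz_le_of_mem this
  · rw [List.getD_eq_default _ _ (not_lt.mp h)]; exact Nat.zero_le _

theorem stepL_bound (p : List (List Bool) × List ℕ × List ℕ) (i : ℕ) :
    ((stepL p)^[i] p.2).1.length = p.2.1.length ∧ ((stepL p)^[i] p.2).2.length = p.2.2.length ∧
    (∀ x ∈ ((stepL p)^[i] p.2).1, x ≤ sz p.2.1 + sz p.2.2) ∧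
    (∀ x ∈ ((stepL p)^[i] p.2).2, x ≤ sz p.2.1 + sz p.2.2) := by
  induction i with
  | zero =>
    refine ⟨rfl, rfl, fun x hx => ?_, fun x hx => ?_⟩
    · have := sz_le_of_mem (l := p.2.1) hx
      simp at this; omega
    · have := sz_le_of_mem (l := p.2.2) hx
      simp at this; omega
  | succ i ih =>
    rw [Function.iterate_succ_apply']
    set s := (stepL p)^[i] p.2
    refine ⟨by simp [stepL], by simp [stepL], fun x hx => ?_, fun x hx => ?_⟩
    · simp only [stepL, List.mem_map] at hx
      obtain ⟨y, -, rfl⟩ := hx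
      have h1 := getD_le_sz p.2.1 y
      have h2 := List.length_filter_le (fun cx => !tb p.1 (s.1.getD y 0) cx) s.2
      have h3 := length_le_sz p.2.2
      omega
    · simp only [stepL, List.mem_map] at hx
      obtain ⟨y, -, rfl⟩ := hx
      have h1 := getD_le_sz p.2.2 y
      have h2 := List.length_filter_le (fun ry => !tb p.1 ry (s.2.getD y 0)) s.1
      have h3 := length_le_sz p.2.1
      omega

/-- the cost of an enhancement given by lists -/
def costL (p : List (List Bool) × List ℕ × List ℕ) (t : ℕ) : ℕ :=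
  p.2.1.sum + p.2.2.sum +
    (((stepL p)^[t] p.2).2.flatMap fun cx =>
      ((stepL p)^[t] p.2).1.filter fun ry => tb p.1 ry cx).length

@[fun_prop] theorem pt_iter_stepL {p : α → List (List Bool) × List ℕ × List ℕ} {t : α → ℕ}
    (hp : PT p) (ht : PT t) : PT (fun a => (stepL (p a))^[t a] (p a).2) := by
  refine PT.iterP (g := fun a => stepL (p a)) (by unfold stepL; fun_prop) ht (by fun_prop)
    (B := fun a => 3 * ((sz (p a).2.1 + sz (p a).2.2) *
      (2 * (sz (p a).2.1 + sz (p a).2.2) + 1)) + 1) (PT.pb (by fun_prop)) (fun a i _ => ?_)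
  obtain ⟨h1, h2, h3, h4⟩ := stepL_bound (p a) i
  generalize (stepL (p a))^[i] (p a).2 = s at h1 h2 h3 h4
  obtain ⟨R, C⟩ := s
  simp only at h1 h2 h3 h4
  have h5 := sz_le_of_forall (l := R) (B := sz (p a).2.1 + sz (p a).2.2)
    (fun x hx => by simpa using h3 x hx)
  have h6 := sz_le_of_forall (l := C) (B := sz (p a).2.1 + sz (p a).2.2)
    (fun x hx => by simpa using h4 x hx)
  have h7 := length_le_sz (p a).2.1
  have h8 := length_le_sz (p a).2.2
  have h9 : R.length * (2 * (sz (p a).2.1 + sz (p a).2.2) + 1) ≤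
      (sz (p a).2.1 + sz (p a).2.2) * (2 * (sz (p a).2.1 + sz (p a).2.2) + 1) :=
    Nat.mul_le_mul_right _ (by omega)
  have h10 : C.length * (2 * (sz (p a).2.1 + sz (p a).2.2) + 1) ≤
      (sz (p a).2.1 + sz (p a).2.2) * (2 * (sz (p a).2.1 + sz (p a).2.2) + 1) :=
    Nat.mul_le_mul_right _ (by omega)
  rw [sz_prod]
  omega

@[fun_prop] theorem pt_costL {p : α → List (List Bool) × List ℕ × List ℕ} {t : α → ℕ}
    (hp : PT p) (ht : PT t) : PT (fun a => costL (p a) (t a)) := by
  have h1 := pt_iter_stepL hp ht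
  have h2 : PT (fun q : List (List Bool) × List ℕ × List ℕ =>
      (q.2.2.flatMap fun cx => q.2.1.filter fun ry => tb q.1 ry cx).length) := by fun_prop
  have h3 := h2.comp (f := fun a => ((p a).1, (stepL (p a))^[t a] (p a).2))
    (PT.prodMk hp.fst h1)
  exact ((pt_sum hp.snd.fst).add (pt_sum hp.snd.snd)).add h3

theorem foldr_min_le (l : List ℕ) (s : ℕ) :
    l.foldr min s ≤ s ∧ (∀ x ∈ l, l.foldr min s ≤ x) ∧ (l.foldr min s = s ∨ l.foldr min s ∈ l) := by
  induction l with
  | nil => simp
  | cons y l ih =>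
    rw [List.foldr_cons]
    refine ⟨by omega, fun x hx => ?_, ?_⟩
    · rcases List.mem_cons.mp hx with rfl | hx
      · omega
      · have := ih.2.1 x hx; omega
    · rcases le_total y (l.foldr min s) with h | h
      · rw [min_eq_left h]; simp
      · rw [min_eq_right h]
        rcases ih.2.2 with h | h
        · exact Or.inl h
        · exact Or.inr (List.mem_cons_of_mem _ h)

/-- minimum of a list -/
def minL (l : List ℕ) : ℕ := l.foldr min (l.headD 0)

@[fun_prop] theorem pt_minL {l : α → List ℕ} (hl : PT l) : PT (fun a => minL (l a)) :=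
  pt_foldr (f := fun _ (x u : ℕ) => min x u) (by fun_prop) hl (by fun_prop)
    (B := fun a => (l a).headD 0) (PT.pb (by fun_prop)) (fun a k => by
      rw [sz_nat]; exact (foldr_min_le _ _).1)

theorem foldr_binMin (l : List Bin) (s : Bin) :
    (l.foldr Bin.min s).val = (l.map Bin.val).foldr min s.val := by
  induction l with
  | nil => rfl
  | cons y l ih => simp [Bin.min, ih]

@[fun_prop] theorem pt_foldr_binMin {l : α → List Bin} {s : α → Bin} (hl : PT l) (hs : PT s) :
    PT (fun a => (l a).foldr Bin.min (s a)) :=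
  pt_foldr (f := fun _ => Bin.min) (by fun_prop) hl hs hs.pb_sz (fun a k => by
    rw [sz_bin, sz_bin, foldr_binMin]
    exact Nat.size_le_size (foldr_min_le _ _).1)

/-- the output for latency at least two, from truncated dimensions -/
def outTwo (T : List (List Bool)) (N m n t : ℕ) : ℕ :=
  minL ((codes N).flatMap fun w => (codes N).map fun w' =>
    costL (T, (List.range m).map (cand N w), (List.range n).map (cand N w')) t)

@[fun_prop] theorem pt_outTwo {T : α → List (List Bool)} {N m n t : α → ℕ} (hT : PT T)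
    (hN : PT N) (hm : PT m) (hn : PT n) (ht : PT t) :
    PT (fun a => outTwo (T a) (N a) (m a) (n a) (t a)) := by
  unfold outTwo
  fun_prop

/-- the output for latency one -/
def outOne (T : List (List Bool)) (m n : Bin) : Bin :=
  ((List.range ((T.headD []).length + 1)).flatMap fun p =>
    ((List.range (T.length + 1)).filter fun q => !tb T p q).map fun q =>
      Bin.add (Bin.mul m ⟨p⟩) (Bin.mul n ⟨q⟩)).foldr Bin.min (Bin.mul m n)

@[fun_prop] theorem pt_outOne {T : α → List (List Bool)} {m n : α → Bin} (hT : PT T)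
    (hm : PT m) (hn : PT n) : PT (fun a => outOne (T a) (m a) (n a)) := by
  unfold outOne
  fun_prop

/-- the truncation level -/
def lev (T : List (List Bool)) : ℕ :=
  10 * ((T.headD []).length * T.length) + (T.headD []).length + T.length + 1

/-- the algorithm -/
def algo (x : Bin × Bin × Bin × List (List Bool)) : Bin :=
  if Bin.cap x.1 2 = 0 then Bin.mul x.2.1 x.2.2.1
  else if Bin.cap x.1 2 = 1 then outOne x.2.2.2 x.2.1 x.2.2.1
  else ⟨outTwo x.2.2.2 ((x.2.2.2.headD []).length * x.2.2.2.length)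
    (Bin.cap x.2.1 (lev x.2.2.2)) (Bin.cap x.2.2.1 (lev x.2.2.2))
    (Bin.cap x.1 (Bin.cap x.2.1 (lev x.2.2.2) * Bin.cap x.2.2.1 (lev x.2.2.2) + 1) - 1)⟩

theorem pt_algo : PT algo := by
  unfold algo lev
  fun_prop

end Pool.Agent.MP_a6d740_lc

end

section

set_option autoImplicit false

namespace Pool.Agent.MP_a6d740_lc

open Pool.Agent.MP_2e8011_lc

theorem tb_table {Z : YoungDiagram} {a b : ℕ} (hZ : ∀ p ∈ Z, p.1 < a ∧ p.2 < b) (p q : ℕ) :
    tb (table Z a b) p q = decide ((p, q) ∈ Z) := by
  unfold tb table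
  by_cases hq : q < b
  · by_cases hp : p < a
    · simp [List.getD_eq_getElem?_getD, hq, hp]
    · have : (p, q) ∉ Z := fun h => hp (hZ _ h).1
      simp [List.getD_eq_getElem?_getD, hq, hp, this]
  · have : (p, q) ∉ Z := fun h => hq (hZ _ h).2
    simp [List.getD_eq_getElem?_getD, hq, this]

theorem length_table (Z : YoungDiagram) (a b : ℕ) : (table Z a b).length = b := by
  simp [table]

theorem head_table (Z : YoungDiagram) (a b : ℕ) :
    ((table Z a b).headD []).length = if b = 0 then 0 else a := by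
  cases b with
  | zero => simp [table]
  | succ b => simp [table, List.range_succ_eq_map]

theorem length_filter_map_range (n : ℕ) (f : ℕ → ℕ) (P : ℕ → Bool) (Q : ℕ → Prop)
    [DecidablePred Q] (h : ∀ x, P (f x) = true ↔ Q x) :
    (((List.range n).map f).filter P).length = ((Finset.range n).filter Q).card := by
  induction n with
  | zero => rfl
  | succ n ih =>
    rw [List.range_succ, List.map_append, List.filter_append, List.length_append, ih,
      Finset.range_add_one, Finset.filter_insert]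
    by_cases hq : Q n
    · rw [if_pos hq, Finset.card_insert_of_notMem (by simp)]
      simp [(h n).mpr hq]
    · rw [if_neg hq]
      have : P (f n) = false := by
        rw [← Bool.not_eq_true]; exact fun h' => hq ((h n).mp h')
      simp [this]

theorem getD_map_range (n : ℕ) (f : ℕ → ℕ) {i : ℕ} (h : i < n) :
    ((List.range n).map f).getD i 0 = f i := by
  simp [List.getD_eq_getElem?_getD, h]

theorem iterate_stepL {Z : YoungDiagram} {T : List (List Bool)}
    (hT : ∀ p q, tb T p q = decide ((p, q) ∈ Z)) (m n : ℕ) (r c : ℕ → ℕ) (t : ℕ) :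
    (stepL (T, (List.range m).map r, (List.range n).map c))^[t]
      ((List.range m).map r, (List.range n).map c) =
      ((List.range m).map (enh Z m n r c t).1, (List.range n).map (enh Z m n r c t).2) := by
  induction t with
  | zero => rfl
  | succ t ih =>
    rw [Function.iterate_succ_apply', ih, enh_succ]
    simp only [stepL, List.length_map, List.length_range, enhStep, Prod.mk.injEq]
    constructor
    · refine List.map_congr_left fun y hy => ?_
      rw [List.mem_range] at hy
      rw [getD_map_range _ _ hy, getD_map_range _ _ hy]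
      congr 1
      exact length_filter_map_range _ _ _ _ (fun x => by simp [hT])
    · refine List.map_congr_left fun y hy => ?_
      rw [List.mem_range] at hy
      rw [getD_map_range _ _ hy, getD_map_range _ _ hy]
      congr 1
      exact length_filter_map_range _ _ _ _ (fun x => by simp [hT])

theorem sum_map_range (n : ℕ) (f : ℕ → ℕ) :
    ((List.range n).map f).sum = ∑ i ∈ Finset.range n, f i := by
  induction n with
  | zero => rfl
  | succ n ih => rw [List.range_succ, List.map_append, List.sum_append, ih, Finset.sum_range_succ]; simp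

theorem costL_eq {Z : YoungDiagram} {T : List (List Bool)}
    (hT : ∀ p q, tb T p q = decide ((p, q) ∈ Z)) (m n : ℕ) (r c : ℕ → ℕ) (t : ℕ) :
    costL (T, (List.range m).map r, (List.range n).map c) t = cost Z m n r c t := by
  unfold costL cost
  simp only
  rw [iterate_stepL hT, sum_map_range, sum_map_range]
  congr 1
  simp only
  rw [List.length_flatMap, List.map_map, sum_map_range, unc, Finset.card_filter,
    Finset.sum_product]
  refine Finset.sum_congr rfl fun x _ => ?_
  rw [← Finset.card_filter]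
  exact length_filter_map_range _ _ _ _ (fun y => by simp [hT])

theorem minL_spec {l : List ℕ} (h : l ≠ []) : (∀ x ∈ l, minL l ≤ x) ∧ minL l ∈ l := by
  refine ⟨(foldr_min_le l _).2.1, ?_⟩
  rcases (foldr_min_le l (l.headD 0)).2.2 with h1 | h1
  · unfold minL
    rw [h1]
    cases l with
    | nil => exact (h rfl).elim
    | cons x l => simp
  · exact h1

theorem algo_correct (L m n a b : ℕ) (Z : YoungDiagram) (hZ : ∀ p ∈ Z, p.1 < a ∧ p.2 < b)
    (hb : b ≤ m) :
    gamma L Z m n ≤ (algo (⟨L⟩, ⟨m⟩, ⟨n⟩, table Z a b)).val ∧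
      (algo (⟨L⟩, ⟨m⟩, ⟨n⟩, table Z a b)).val ≤ 9 * gamma L Z m n := by
  have hT := tb_table hZ
  have hlen := length_table Z a b
  generalize ha' : ((table Z a b).headD []).length = a'
  have hZ' : ∀ p ∈ Z, p.1 < a' ∧ p.2 < b := by
    intro p hp
    have := hZ p hp
    rw [← ha', head_table, if_neg (by omega)]
    exact this
  generalize table Z a b = T at hT hlen ha'
  unfold algo
  simp only [Bin.cap]
  rcases L with _ | _ | t
  · simp [gamma_zero, Bin.mul]
    omega
  · rw [if_neg (by simp), if_pos (by simp)]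
    have h := foldr_min_le (((List.range (a' + 1)).flatMap fun p =>
      ((List.range (b + 1)).filter fun q => !tb T p q).map fun q =>
        Bin.add (Bin.mul ⟨m⟩ ⟨p⟩) (Bin.mul ⟨n⟩ ⟨q⟩)).map Bin.val) (m * n)
    have e : (outOne T ⟨m⟩ ⟨n⟩).val = ((((List.range (a' + 1)).flatMap fun p =>
      ((List.range (b + 1)).filter fun q => !tb T p q).map fun q =>
        Bin.add (Bin.mul ⟨m⟩ ⟨p⟩) (Bin.mul ⟨n⟩ ⟨q⟩)).map Bin.val).foldr min (m * n)) := by
      rw [outOne, foldr_binMin, ha', hlen]; rfl
    rw [← e] at h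
    have := approx_one Z a' b m n _ hZ' h.1 (fun p hp q hq hpq => h.2.1 _ (by
      simp only [List.mem_map, List.mem_flatMap, List.mem_range, List.mem_filter]
      exact ⟨_, ⟨p, by omega, q, ⟨by omega, by simp [hT, hpq]⟩, rfl⟩, rfl⟩)) (by
      rcases h.2.2 with h1 | h1
      · exact Or.inl h1
      · right
        simp only [List.mem_map, List.mem_flatMap, List.mem_range, List.mem_filter] at h1
        obtain ⟨_, ⟨p, -, q, ⟨-, hq⟩, rfl⟩, h2⟩ := h1
        exact ⟨p, q, by simpa [hT] using hq, h2.symm⟩)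
    simp only [zero_add]
    omega
  · rw [if_neg (by omega), if_neg (by omega)]
    have hlev : lev T = 10 * (a' * b) + a' + b + 1 := by rw [lev, ha', hlen]
    rw [ha', hlen]
    simp only
    set M := lev T
    have e : min (t + 1 + 1) (min m M * min n M + 1) - 1 = min (t + 1) (min m M * min n M) := by
      omega
    rw [e]
    have hne : ((codes (a' * b)).flatMap fun w => (codes (a' * b)).map fun w' =>
        costL (T, (List.range (min m M)).map (cand (a' * b) w),
          (List.range (min n M)).map (cand (a' * b) w')) (min (t + 1) (min m M * min n M))) ≠ [] := by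
      have h1 : List.replicate (2 * (a' * b).bits.length) true ∈ codes (a' * b) :=
        (mem_allBits _ _).mpr (by simp)
      intro h
      rw [List.flatMap_eq_nil_iff] at h
      have := h _ h1
      rw [List.map_eq_nil_iff] at this
      rw [this] at h1
      simp at h1
    obtain ⟨h1, h2⟩ := minL_spec hne
    refine approx_two Z a' b m n t (a' * b).bits.length _ hZ' hb (a' * b) M le_rfl ?_ (by omega)
      ?_ ?_
    · rw [Nat.size_eq_bits_len]; exact Nat.lt_size_self _
    · intro w w' hw hw'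
      refine h1 _ ?_
      simp only [List.mem_map, List.mem_flatMap]
      refine ⟨w, (mem_allBits _ _).mpr hw, w', (mem_allBits _ _).mpr hw', ?_⟩
      rw [costL_eq hT, ← cost_stab]
    · simp only [List.mem_map, List.mem_flatMap] at h2
      obtain ⟨w, -, w', -, h3⟩ := h2
      refine ⟨w, w', ?_⟩
      rw [cost_stab, ← costL_eq hT, h3]
      rfl

theorem isPolyTime_algo : N68a2faeb.IsPolyTime
    (fun x : ℕ × ℕ × ℕ × List (List Bool) => (algo (⟨x.1⟩, ⟨x.2.1⟩, ⟨x.2.2.1⟩, x.2.2.2)).val) :=
  isPolyTime_of_PT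
    (fun x : ℕ × ℕ × ℕ × List (List Bool) => (Bin.mk x.1, Bin.mk x.2.1, Bin.mk x.2.2.1, x.2.2.2))
    Bin.mk
    (bitEncode_prod bitEncode_bin (bitEncode_prod bitEncode_bin (bitEncode_prod (κ := id)
      bitEncode_bin (agree_list (agree_list agree_bool)))))
    bitEncode_bin pt_algo (fun _ => rfl)

end Pool.Agent.MP_a6d740_lc

end

section

set_option autoImplicit false

namespace Pool.Agent.MP_a6d740_lc

open Pool.Agent.MP_2e8011_lc

theorem poly_bound (p : Polynomial ℕ) :
    ∃ k c : ℕ, ∀ x : ℕ, 1 ≤ x → p.eval (10 * x) ≤ c * x ^ k := by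
  induction p using Polynomial.induction_on' with
  | add p q hp hq =>
    obtain ⟨k, c, h1⟩ := hp
    obtain ⟨k', c', h2⟩ := hq
    refine ⟨max k k', c + c', fun x hx => ?_⟩
    have a1 : c * x ^ k ≤ c * x ^ max k k' :=
      Nat.mul_le_mul_left _ (Nat.pow_le_pow_right hx (le_max_left _ _))
    have a2 : c' * x ^ k' ≤ c' * x ^ max k k' :=
      Nat.mul_le_mul_left _ (Nat.pow_le_pow_right hx (le_max_right _ _))
    have := h1 x hx
    have := h2 x hx
    rw [Polynomial.eval_add, add_mul]
    omega
  | monomial k a =>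
    refine ⟨k, a * 10 ^ k, fun x _ => ?_⟩
    rw [Polynomial.eval_monomial, mul_pow, mul_assoc]

theorem length_input (L m n a b : ℕ) (Z : YoungDiagram) (ha : 1 ≤ a) (hb : 1 ≤ b) :
    (N487b59b3.bitEncode (L, m, n, table Z a b)).length ≤
      10 * (a * b + L.size + m.size + n.size) := by
  have e := bitEncode_prod bitEncode_bin (bitEncode_prod bitEncode_bin (bitEncode_prod (κ := id)
      bitEncode_bin (agree_list (agree_list agree_bool)))) (L, m, n, table Z a b)
  rw [e]
  change sz (Bin.mk L, Bin.mk m, Bin.mk n, table Z a b) ≤ _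
  simp only [sz_prod, sz_bin]
  have h1 := sz_le_of_forall (l := table Z a b) (B := a * 3) (fun w hw => by
    have h3 := sz_le_of_forall (l := w) (B := 1) (fun _ _ => le_rfl)
    simp only [table, List.mem_map] at hw
    obtain ⟨y, -, rfl⟩ := hw
    simpa using h3)
  rw [length_table] at h1
  have h2 : b ≤ a * b := Nat.le_mul_of_pos_left _ ha
  have h3 : b * (2 * (a * 3) + 1) = 6 * (a * b) + b := by ring
  omega

theorem exists_machine :
    ∃ (k c : ℕ) (M : Turing.TM2ComputableAux Bool Bool) (f : ℕ × ℕ × ℕ × List (List Bool) → ℕ),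
      (∀ (L m n a b : ℕ) (Z : YoungDiagram), 1 ≤ a → 1 ≤ b →
        Nonempty (Turing.TM2OutputsInTime M.tm
          ((N487b59b3.bitEncode (L, m, n, table Z a b)).map M.inputAlphabet.symm)
          (some ((Computability.encodeNat (f (L, m, n, table Z a b))).map M.outputAlphabet.symm))
          (c * (a * b + L.size + m.size + n.size) ^ k))) ∧
      ∀ x, f x = (algo (⟨x.1⟩, ⟨x.2.1⟩, ⟨x.2.2.1⟩, x.2.2.2)).val := by
  obtain ⟨P⟩ := isPolyTime_algo
  obtain ⟨k, c, hp⟩ := poly_bound P.time
  refine ⟨k, c, P.toTM2ComputableAux, _, fun L m n a b Z ha hb => ?_, fun _ => rfl⟩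
  have h := P.outputsFun (L, m, n, table Z a b)
  refine ⟨⟨h.toEvalsTo, h.steps_le_m.trans ?_⟩⟩
  refine (eval_mono _ (length_input L m n a b Z ha hb)).trans (hp _ ?_)
  have : 1 ≤ a * b := Nat.mul_pos ha hb
  omega

end Pool.Agent.MP_a6d740_lc

end
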