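import Mathlib
import Pool.Agent.Mg.F2e8011.G4b36e2

section

set_option autoImplicit false

namespace Pool.Agent.MP_b0ee3d_lc

def fam1 : Fam where
  n0 := 19
  c0 := 5
  A := 60
  A' := 6
  g0 := 8
  g1 := 11
  g2 := 17
  d0 := 0
  d1 := 0
  d2 := 0
  js := 2
  E := [
    (((36,1),(3,1),true),((52,1),(5,1),true),((53,1),(11,1),false),false),
    (((52,1),(5,1),true),((53,1),(11,1),false),((12,0),(10,1),true),true),
    (((53,1),(11,1),false),((12,0),(10,1),true),((124,1),(13,1),false),false),
    (((12,0),(10,1),true),((124,1),(13,1),false),((140,1),(14,1),true),true),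
    (((124,1),(13,1),false),((140,1),(14,1),true),((149,1),(17,1),false),false),
    (((140,1),(14,1),true),((149,1),(17,1),false),((3,0),(16,1),true),true),
    (((149,1),(17,1),false),((3,0),(16,1),true),((28,0),(2,0),false),false),
    (((3,0),(16,1),true),((28,0),(2,0),false),((44,0),(4,0),false),true),
    (((28,1),(2,1),false),((44,1),(4,1),false),((52,1),(5,1),true),false),
    (((44,1),(4,1),false),((52,1),(5,1),true),((68,1),(6,1),true),true),
    (((52,1),(5,1),true),((68,1),(6,1),true),((69,1),(12,1),false),false),
    (((68,1),(6,1),true),((69,1),(12,1),false),((108,1),(8,1),false),true),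
    (((69,1),(12,1),false),((108,1),(8,1),false),((100,1),(1,0),false),false),
    (((108,1),(8,1),false),((100,1),(1,0),false),((85,1),(18,1),true),true),
    (((100,1),(1,0),false),((85,1),(18,1),true),((140,1),(14,1),true),false),
    (((85,1),(18,1),true),((140,1),(14,1),true),((5,0),(15,1),false),true),
    (((140,1),(14,1),true),((5,0),(15,1),false),((3,0),(16,1),true),false),
    (((5,0),(15,1),false),((3,0),(16,1),true),((36,0),(3,0),true),true),
    (((3,0),(16,1),true),((36,0),(3,0),true),((44,0),(4,0),false),false),
    (((36,1),(3,1),true),((44,1),(4,1),false),((53,1),(11,1),false),true),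
    (((44,1),(4,1),false),((53,1),(11,1),false),((68,1),(6,1),true),false),
    (((53,1),(11,1),false),((68,1),(6,1),true),((84,1),(7,1),true),true),
    (((68,1),(6,1),true),((84,1),(7,1),true),((108,1),(8,1),false),false),
    (((84,1),(7,1),true),((108,1),(8,1),false),((116,1),(9,1),true),true),
    (((108,1),(8,1),false),((116,1),(9,1),true),((85,1),(18,1),true),false),
    (((116,1),(9,1),true),((85,1),(18,1),true),((149,1),(17,1),false),true),
    (((85,1),(18,1),true),((149,1),(17,1),false),((5,0),(15,1),false),false),
    (((149,1),(17,1),false),((5,0),(15,1),false),((124,1),(13,1),false),true),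
    (((5,0),(15,1),false),((124,1),(13,1),false),((116,1),(9,1),true),false),
    (((124,1),(13,1),false),((116,1),(9,1),true),((100,1),(1,0),false),true),
    (((116,1),(9,1),true),((100,1),(1,0),false),((84,1),(7,1),true),false),
    (((100,1),(1,0),false),((84,1),(7,1),true),((69,1),(12,1),false),true),
    (((84,1),(7,1),true),((69,1),(12,1),false),((12,0),(10,1),true),false),
    (((69,1),(12,1),false),((12,0),(10,1),true),((28,0),(2,0),false),true),
    (((12,0),(10,1),true),((28,0),(2,0),false),((36,0),(3,0),true),false),
    (((28,0),(2,0),false),((36,0),(3,0),true),((52,0),(5,0),true),true)]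
  B := [
    (((28,2),(2,2),false),((44,2),(4,2),false),((52,2),(5,2),true),false),
    (((44,2),(4,2),false),((52,2),(5,2),true),((68,2),(7,2),true),true),
    (((52,2),(5,2),true),((68,2),(7,2),true),((76,2),(8,2),false),false),
    (((68,2),(7,2),true),((76,2),(8,2),false),((92,2),(10,2),false),true),
    (((36,2),(3,2),true),((44,2),(4,2),false),((60,2),(6,2),false),true),
    (((44,2),(4,2),false),((60,2),(6,2),false),((68,2),(7,2),true),false),
    (((60,2),(6,2),false),((68,2),(7,2),true),((84,2),(9,2),true),true),
    (((68,2),(7,2),true),((84,2),(9,2),true),((92,2),(10,2),false),false),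
    (((36,2),(3,2),true),((52,2),(5,2),true),((60,2),(6,2),false),false),
    (((52,2),(5,2),true),((60,2),(6,2),false),((76,2),(8,2),false),true),
    (((60,2),(6,2),false),((76,2),(8,2),false),((84,2),(9,2),true),false),
    (((76,2),(8,2),false),((84,2),(9,2),true),((100,2),(11,2),true),true)]
  CE := [
    [((149,1),(17,1),false),((5,0),(15,1),false),((3,0),(16,1),true)],
    [((5,0),(15,1),false),((124,1),(13,1),false),((12,0),(10,1),true),((28,0),(2,0),false),((3,0),(16,1),true)],
    [], [((3,0),(16,1),true),((28,0),(2,0),false),((36,0),(3,0),true)],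
    [((28,0),(2,0),false),((44,0),(4,0),false),((36,0),(3,0),true)],
    [((44,1),(4,1),false),((52,1),(5,1),true),((36,1),(3,1),true)],
    [((44,1),(4,1),false),((53,1),(11,1),false),((52,1),(5,1),true)],
    [((52,1),(5,1),true),((53,1),(11,1),false),((68,1),(6,1),true)],
    [((53,1),(11,1),false),((12,0),(10,1),true),((69,1),(12,1),false),((68,1),(6,1),true)],
    [((68,1),(6,1),true),((69,1),(12,1),false),((84,1),(7,1),true)],
    [((69,1),(12,1),false),((108,1),(8,1),false),((84,1),(7,1),true)],
    [((84,1),(7,1),true),((108,1),(8,1),false),((100,1),(1,0),false)],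
    [((100,1),(1,0),false),((116,1),(9,1),true),((85,1),(18,1),true)],
    [((108,1),(8,1),false),((116,1),(9,1),true),((100,1),(1,0),false)],
    [((69,1),(12,1),false),((12,0),(10,1),true),((124,1),(13,1),false),((116,1),(9,1),true),((108,1),(8,1),false)],
    [((116,1),(9,1),true),((124,1),(13,1),false),((140,1),(14,1),true),((85,1),(18,1),true)],
    [((140,1),(14,1),true),((124,1),(13,1),false),((5,0),(15,1),false)],
    [((140,1),(14,1),true),((5,0),(15,1),false),((149,1),(17,1),false)],
    [((85,1),(18,1),true),((140,1),(14,1),true),((149,1),(17,1),false)]]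
  CB := [
    [((36,2),(3,2),true),((44,2),(4,2),false),((52,2),(5,2),true)],
    [((44,2),(4,2),false),((60,2),(6,2),false),((52,2),(5,2),true)],
    [((52,2),(5,2),true),((60,2),(6,2),false),((68,2),(7,2),true)],
    [((60,2),(6,2),false),((76,2),(8,2),false),((68,2),(7,2),true)],
    [((68,2),(7,2),true),((76,2),(8,2),false),((84,2),(9,2),true)],
    [((92,2),(10,2),false),((84,2),(9,2),true),((76,2),(8,2),false)]]

theorem fam1_k0 : fam1.k0 = true := by decide +kernel

theorem fam1_k1 : fam1.k1 = true := by decide +kernel

theorem fam1_kEE : fam1.kEE = true := by decide +kernel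

theorem fam1_kE : fam1.kE = true := by decide +kernel

theorem fam1_kSS : fam1.kSS = true := by decide +kernel

theorem fam1_kES00 : fam1.kES 0 0 = true := by decide +kernel

theorem fam1_kES01 : fam1.kES 0 1 = true := by decide +kernel

theorem fam1_kES10 : fam1.kES 1 0 = true := by decide +kernel

theorem fam1_kES11 : fam1.kES 1 1 = true := by decide +kernel

theorem fam1_kD00 : fam1.kD 0 0 = true := by decide +kernel

theorem fam1_kD01 : fam1.kD 0 1 = true := by decide +kernel

theorem fam1_kD10 : fam1.kD 1 0 = true := by decide +kernel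

theorem fam1_kD11 : fam1.kD 1 1 = true := by decide +kernel

theorem fam1_valid {t : ℕ} (ht : 1 ≤ t) : Valid (fam1.n0 + 6 * t) (fam1.G + 12 * t)
    (fun p => fam1.tri t (fam1.desc t p)) :=
  fam1.valid fam1_k0 fam1_k1 fam1_kEE fam1_kE
    (fun i hi k hk => by
      interval_cases i <;> interval_cases k
      exacts [fam1_kES00, fam1_kES01, fam1_kES10, fam1_kES11])
    (fun i hi k hk => by
      interval_cases i <;> interval_cases k
      exacts [fam1_kD00, fam1_kD01, fam1_kD10, fam1_kD11]) fam1_kSS ht

end Pool.Agent.MP_b0ee3d_lc

end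

section

set_option autoImplicit false

namespace Pool.Agent.MP_b0ee3d_lc

def fam2 : Fam where
  n0 := 20
  c0 := 6
  A := 68
  A' := 8
  g0 := 17
  g1 := 11
  g2 := 10
  d0 := 1
  d1 := 1
  d2 := 0
  js := 3
  E := [
    (((44,1),(5,1),false),((60,1),(7,1),false),((68,1),(1,0),true),false),
    (((60,1),(7,1),false),((68,1),(1,0),true),((21,0),(8,1),true),true),
    (((68,1),(1,0),true),((21,0),(8,1),true),((85,1),(3,0),true),false),
    (((21,0),(8,1),true),((85,1),(3,0),true),((100,1),(9,1),false),true),
    (((85,1),(3,0),true),((100,1),(9,1),false),((116,1),(12,1),true),false),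
    (((100,1),(9,1),false),((116,1),(12,1),true),((133,1),(15,1),false),true),
    (((116,1),(12,1),true),((133,1),(15,1),false),((5,0),(16,1),true),false),
    (((133,1),(15,1),false),((5,0),(16,1),true),((157,1),(18,1),true),true),
    (((5,0),(16,1),true),((157,1),(18,1),true),((101,1),(19,1),false),false),
    (((157,1),(18,1),true),((101,1),(19,1),false),((116,1),(12,1),true),true),
    (((101,1),(19,1),false),((116,1),(12,1),true),((125,1),(14,1),true),false),
    (((116,1),(12,1),true),((125,1),(14,1),true),((11,0),(11,1),false),true),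
    (((125,1),(14,1),true),((11,0),(11,1),false),((21,0),(8,1),true),false),
    (((11,0),(11,1),false),((21,0),(8,1),true),((84,1),(2,0),false),true),
    (((21,0),(8,1),true),((84,1),(2,0),false),((60,1),(7,1),false),false),
    (((84,1),(2,0),false),((60,1),(7,1),false),((52,1),(6,1),true),true),
    (((60,1),(7,1),false),((52,1),(6,1),true),((36,1),(4,1),true),false),
    (((52,0),(6,0),true),((36,0),(4,0),true),((3,0),(17,1),false),true),
    (((36,0),(4,0),true),((3,0),(17,1),false),((157,1),(18,1),true),false),
    (((3,0),(17,1),false),((157,1),(18,1),true),((148,1),(13,1),false),true),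
    (((157,1),(18,1),true),((148,1),(13,1),false),((133,1),(15,1),false),false),
    (((148,1),(13,1),false),((133,1),(15,1),false),((125,1),(14,1),true),true),
    (((133,1),(15,1),false),((125,1),(14,1),true),((13,0),(10,1),true),false),
    (((125,1),(14,1),true),((13,0),(10,1),true),((85,1),(3,0),true),true),
    (((13,0),(10,1),true),((85,1),(3,0),true),((84,1),(2,0),false),false),
    (((85,1),(3,0),true),((84,1),(2,0),false),((68,1),(1,0),true),true),
    (((84,1),(2,0),false),((68,1),(1,0),true),((52,1),(6,1),true),false),
    (((68,1),(1,0),true),((52,1),(6,1),true),((44,1),(5,1),false),true),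
    (((52,0),(6,0),true),((44,0),(5,0),false),((3,0),(17,1),false),false),
    (((44,0),(5,0),false),((3,0),(17,1),false),((5,0),(16,1),true),true),
    (((3,0),(17,1),false),((5,0),(16,1),true),((148,1),(13,1),false),false),
    (((5,0),(16,1),true),((148,1),(13,1),false),((101,1),(19,1),false),true),
    (((148,1),(13,1),false),((101,1),(19,1),false),((100,1),(9,1),false),false),
    (((101,1),(19,1),false),((100,1),(9,1),false),((13,0),(10,1),true),true),
    (((100,1),(9,1),false),((13,0),(10,1),true),((11,0),(11,1),false),false),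
    (((13,0),(10,1),true),((11,0),(11,1),false),((36,0),(4,0),true),true),
    (((11,0),(11,1),false),((36,0),(4,0),true),((44,0),(5,0),false),false),
    (((36,0),(4,0),true),((44,0),(5,0),false),((60,0),(7,0),false),true)]
  B := [
    (((100,2),(12,2),true),((84,2),(10,2),true),((76,2),(9,2),false),true),
    (((84,2),(10,2),true),((76,2),(9,2),false),((60,2),(7,2),false),false),
    (((76,2),(9,2),false),((60,2),(7,2),false),((52,2),(6,2),true),true),
    (((60,2),(7,2),false),((52,2),(6,2),true),((36,2),(4,2),true),false),
    (((100,2),(12,2),true),((92,2),(11,2),false),((76,2),(9,2),false),false),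
    (((92,2),(11,2),false),((76,2),(9,2),false),((68,2),(8,2),true),true),
    (((76,2),(9,2),false),((68,2),(8,2),true),((52,2),(6,2),true),false),
    (((68,2),(8,2),true),((52,2),(6,2),true),((44,2),(5,2),false),true),
    (((44,2),(5,2),false),((60,2),(7,2),false),((68,2),(8,2),true),false),
    (((60,2),(7,2),false),((68,2),(8,2),true),((84,2),(10,2),true),true),
    (((68,2),(8,2),true),((84,2),(10,2),true),((92,2),(11,2),false),false),
    (((84,2),(10,2),true),((92,2),(11,2),false),((108,2),(13,2),false),true)]
  CE := [
    [((157,1),(18,1),true),((5,0),(16,1),true),((3,0),(17,1),false)],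
    [((13,0),(10,1),true),((11,0),(11,1),false),((125,1),(14,1),true)],
    [((21,0),(8,1),true),((11,0),(11,1),false),((13,0),(10,1),true),((85,1),(3,0),true)], [],
    [((3,0),(17,1),false),((36,0),(4,0),true),((44,0),(5,0),false)],
    [((36,0),(4,0),true),((52,0),(6,0),true),((44,0),(5,0),false)],
    [((52,1),(6,1),true),((60,1),(7,1),false),((44,1),(5,1),false)],
    [((52,1),(6,1),true),((68,1),(1,0),true),((60,1),(7,1),false)],
    [((60,1),(7,1),false),((68,1),(1,0),true),((84,1),(2,0),false)],
    [((68,1),(1,0),true),((21,0),(8,1),true),((84,1),(2,0),false)],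
    [((84,1),(2,0),false),((21,0),(8,1),true),((85,1),(3,0),true)],
    [((85,1),(3,0),true),((13,0),(10,1),true),((100,1),(9,1),false)],
    [((13,0),(10,1),true),((125,1),(14,1),true),((116,1),(12,1),true),((100,1),(9,1),false)],
    [((100,1),(9,1),false),((116,1),(12,1),true),((101,1),(19,1),false)],
    [((116,1),(12,1),true),((133,1),(15,1),false),((148,1),(13,1),false),((101,1),(19,1),false)],
    [((116,1),(12,1),true),((125,1),(14,1),true),((133,1),(15,1),false)],
    [((5,0),(16,1),true),((133,1),(15,1),false),((125,1),(14,1),true),((11,0),(11,1),false),((36,0),(4,0),true),((3,0),(17,1),false)],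
    [((148,1),(13,1),false),((133,1),(15,1),false),((5,0),(16,1),true)],
    [((148,1),(13,1),false),((5,0),(16,1),true),((157,1),(18,1),true)],
    [((101,1),(19,1),false),((148,1),(13,1),false),((157,1),(18,1),true)]]
  CB := [
    [((44,2),(5,2),false),((52,2),(6,2),true),((60,2),(7,2),false)],
    [((52,2),(6,2),true),((68,2),(8,2),true),((60,2),(7,2),false)],
    [((60,2),(7,2),false),((68,2),(8,2),true),((76,2),(9,2),false)],
    [((68,2),(8,2),true),((84,2),(10,2),true),((76,2),(9,2),false)],
    [((76,2),(9,2),false),((84,2),(10,2),true),((92,2),(11,2),false)],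
    [((100,2),(12,2),true),((92,2),(11,2),false),((84,2),(10,2),true)]]

theorem fam2_k0 : fam2.k0 = true := by decide +kernel

theorem fam2_k1 : fam2.k1 = true := by decide +kernel

theorem fam2_kEE : fam2.kEE = true := by decide +kernel

theorem fam2_kE : fam2.kE = true := by decide +kernel

theorem fam2_kSS : fam2.kSS = true := by decide +kernel

theorem fam2_kES00 : fam2.kES 0 0 = true := by decide +kernel

theorem fam2_kES01 : fam2.kES 0 1 = true := by decide +kernel

theorem fam2_kES10 : fam2.kES 1 0 = true := by decide +kernel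

theorem fam2_kES11 : fam2.kES 1 1 = true := by decide +kernel

theorem fam2_kD00 : fam2.kD 0 0 = true := by decide +kernel

theorem fam2_kD01 : fam2.kD 0 1 = true := by decide +kernel

theorem fam2_kD10 : fam2.kD 1 0 = true := by decide +kernel

theorem fam2_kD11 : fam2.kD 1 1 = true := by decide +kernel

theorem fam2_valid {t : ℕ} (ht : 1 ≤ t) : Valid (fam2.n0 + 6 * t) (fam2.G + 12 * t)
    (fun p => fam2.tri t (fam2.desc t p)) :=
  fam2.valid fam2_k0 fam2_k1 fam2_kEE fam2_kE
    (fun i hi k hk => by
      interval_cases i <;> interval_cases k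
      exacts [fam2_kES00, fam2_kES01, fam2_kES10, fam2_kES11])
    (fun i hi k hk => by
      interval_cases i <;> interval_cases k
      exacts [fam2_kD00, fam2_kD01, fam2_kD10, fam2_kD11]) fam2_kSS ht

end Pool.Agent.MP_b0ee3d_lc

end

section

set_option autoImplicit false

namespace Pool.Agent.MP_b0ee3d_lc

def fam3 : Fam where
  n0 := 15
  c0 := 7
  A := 76
  A' := 7
  g0 := 9
  g1 := 9
  g2 := 10
  d0 := 0
  d1 := 0
  d2 := 0
  js := 2
  E := [
    (((52,1),(4,1),true),((68,1),(6,1),true),((109,1),(12,1),false),false),
    (((68,1),(6,1),true),((109,1),(12,1),false),((92,1),(1,0),true),true),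
    (((109,1),(12,1),false),((92,1),(1,0),true),((101,1),(7,1),true),false),
    (((92,1),(1,0),true),((101,1),(7,1),true),((108,1),(10,1),true),true),
    (((101,1),(7,1),true),((108,1),(10,1),true),((3,0),(13,1),true),false),
    (((108,1),(10,1),true),((3,0),(13,1),true),((29,0),(14,1),false),true),
    (((3,0),(13,1),true),((29,0),(14,1),false),((28,0),(8,1),true),false),
    (((29,0),(14,1),false),((28,0),(8,1),true),((52,0),(4,0),true),true),
    (((28,0),(8,1),true),((52,0),(4,0),true),((60,0),(5,0),false),false),
    (((52,1),(4,1),true),((60,1),(5,1),false),((109,1),(12,1),false),true),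
    (((60,1),(5,1),false),((109,1),(12,1),false),((77,1),(2,0),false),false),
    (((109,1),(12,1),false),((77,1),(2,0),false),((101,1),(7,1),true),true),
    (((77,1),(2,0),false),((101,1),(7,1),true),((117,1),(11,1),false),false),
    (((101,1),(7,1),true),((117,1),(11,1),false),((3,0),(13,1),true),true),
    (((117,1),(11,1),false),((3,0),(13,1),true),((12,0),(9,1),false),false),
    (((3,0),(13,1),true),((12,0),(9,1),false),((28,0),(8,1),true),true),
    (((12,0),(9,1),false),((28,0),(8,1),true),((44,0),(3,0),false),false),
    (((28,0),(8,1),true),((44,0),(3,0),false),((60,0),(5,0),false),true),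
    (((44,1),(3,1),false),((60,1),(5,1),false),((68,1),(6,1),true),false),
    (((60,1),(5,1),false),((68,1),(6,1),true),((77,1),(2,0),false),true),
    (((68,1),(6,1),true),((77,1),(2,0),false),((92,1),(1,0),true),false),
    (((77,1),(2,0),false),((92,1),(1,0),true),((117,1),(11,1),false),true),
    (((92,1),(1,0),true),((117,1),(11,1),false),((108,1),(10,1),true),false),
    (((117,1),(11,1),false),((108,1),(10,1),true),((12,0),(9,1),false),true),
    (((108,1),(10,1),true),((12,0),(9,1),false),((29,0),(14,1),false),false),
    (((12,0),(9,1),false),((29,0),(14,1),false),((44,0),(3,0),false),true),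
    (((29,0),(14,1),false),((44,0),(3,0),false),((52,0),(4,0),true),false),
    (((44,0),(3,0),false),((52,0),(4,0),true),((68,0),(6,0),true),true)]
  B := [
    (((52,2),(4,2),true),((60,2),(5,2),false),((76,2),(7,2),false),true),
    (((60,2),(5,2),false),((76,2),(7,2),false),((84,2),(8,2),true),false),
    (((76,2),(7,2),false),((84,2),(8,2),true),((100,2),(10,2),true),true),
    (((84,2),(8,2),true),((100,2),(10,2),true),((108,2),(11,2),false),false),
    (((44,2),(3,2),false),((60,2),(5,2),false),((68,2),(6,2),true),false),
    (((60,2),(5,2),false),((68,2),(6,2),true),((84,2),(8,2),true),true),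
    (((68,2),(6,2),true),((84,2),(8,2),true),((92,2),(9,2),false),false),
    (((84,2),(8,2),true),((92,2),(9,2),false),((108,2),(11,2),false),true),
    (((52,2),(4,2),true),((68,2),(6,2),true),((76,2),(7,2),false),false),
    (((68,2),(6,2),true),((76,2),(7,2),false),((92,2),(9,2),false),true),
    (((76,2),(7,2),false),((92,2),(9,2),false),((100,2),(10,2),true),false),
    (((92,2),(9,2),false),((100,2),(10,2),true),((116,2),(12,2),true),true)]
  CE := [
    [((3,0),(13,1),true),((29,0),(14,1),false),((12,0),(9,1),false)],
    [((108,1),(10,1),true),((3,0),(13,1),true),((12,0),(9,1),false)], [],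
    [((12,0),(9,1),false),((29,0),(14,1),false),((28,0),(8,1),true)],
    [((29,0),(14,1),false),((44,0),(3,0),false),((28,0),(8,1),true)],
    [((28,0),(8,1),true),((44,0),(3,0),false),((52,0),(4,0),true)],
    [((44,0),(3,0),false),((60,0),(5,0),false),((52,0),(4,0),true)],
    [((60,1),(5,1),false),((68,1),(6,1),true),((52,1),(4,1),true)],
    [((60,1),(5,1),false),((109,1),(12,1),false),((68,1),(6,1),true)],
    [((68,1),(6,1),true),((109,1),(12,1),false),((77,1),(2,0),false)],
    [((77,1),(2,0),false),((92,1),(1,0),true),((101,1),(7,1),true)],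
    [((109,1),(12,1),false),((92,1),(1,0),true),((77,1),(2,0),false)],
    [((92,1),(1,0),true),((117,1),(11,1),false),((101,1),(7,1),true)],
    [((101,1),(7,1),true),((117,1),(11,1),false),((108,1),(10,1),true)],
    [((117,1),(11,1),false),((3,0),(13,1),true),((108,1),(10,1),true)]]
  CB := [
    [((52,2),(4,2),true),((60,2),(5,2),false),((68,2),(6,2),true)],
    [((60,2),(5,2),false),((76,2),(7,2),false),((68,2),(6,2),true)],
    [((68,2),(6,2),true),((76,2),(7,2),false),((84,2),(8,2),true)],
    [((76,2),(7,2),false),((92,2),(9,2),false),((84,2),(8,2),true)],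
    [((84,2),(8,2),true),((92,2),(9,2),false),((100,2),(10,2),true)],
    [((108,2),(11,2),false),((100,2),(10,2),true),((92,2),(9,2),false)]]

theorem fam3_k0 : fam3.k0 = true := by decide +kernel

theorem fam3_k1 : fam3.k1 = true := by decide +kernel

theorem fam3_kEE : fam3.kEE = true := by decide +kernel

theorem fam3_kE : fam3.kE = true := by decide +kernel

theorem fam3_kSS : fam3.kSS = true := by decide +kernel

theorem fam3_kES00 : fam3.kES 0 0 = true := by decide +kernel

theorem fam3_kES01 : fam3.kES 0 1 = true := by decide +kernel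

theorem fam3_kES10 : fam3.kES 1 0 = true := by decide +kernel

theorem fam3_kES11 : fam3.kES 1 1 = true := by decide +kernel

theorem fam3_kD00 : fam3.kD 0 0 = true := by decide +kernel

theorem fam3_kD01 : fam3.kD 0 1 = true := by decide +kernel

theorem fam3_kD10 : fam3.kD 1 0 = true := by decide +kernel

theorem fam3_kD11 : fam3.kD 1 1 = true := by decide +kernel

theorem fam3_valid {t : ℕ} (ht : 1 ≤ t) : Valid (fam3.n0 + 6 * t) (fam3.G + 12 * t)
    (fun p => fam3.tri t (fam3.desc t p)) :=
  fam3.valid fam3_k0 fam3_k1 fam3_kEE fam3_kE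
    (fun i hi k hk => by
      interval_cases i <;> interval_cases k
      exacts [fam3_kES00, fam3_kES01, fam3_kES10, fam3_kES11])
    (fun i hi k hk => by
      interval_cases i <;> interval_cases k
      exacts [fam3_kD00, fam3_kD01, fam3_kD10, fam3_kD11]) fam3_kSS ht

end Pool.Agent.MP_b0ee3d_lc

end

section

set_option autoImplicit false

namespace Pool.Agent.MP_b0ee3d_lc

def fam4 : Fam where
  n0 := 16
  c0 := 10
  A := 100
  A' := 10
  g0 := 9
  g1 := 14
  g2 := 7
  d0 := 0
  d1 := 1
  d2 := 0
  js := 2
  E := [
    (((76,1),(7,1),true),((92,1),(9,1),true),((101,1),(11,1),false),false),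
    (((92,1),(9,1),true),((101,1),(11,1),false),((116,1),(10,1),true),true),
    (((101,1),(11,1),false),((116,1),(10,1),true),((117,1),(15,1),false),false),
    (((116,1),(10,1),true),((117,1),(15,1),false),((3,0),(13,1),true),true),
    (((117,1),(15,1),false),((3,0),(13,1),true),((29,0),(2,0),false),false),
    (((3,0),(13,1),true),((29,0),(2,0),false),((45,0),(5,0),false),true),
    (((29,0),(2,0),false),((45,0),(5,0),false),((60,0),(4,0),true),false),
    (((45,0),(5,0),false),((60,0),(4,0),true),((76,0),(7,0),true),true),
    (((60,0),(4,0),true),((76,0),(7,0),true),((84,0),(8,0),false),false),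
    (((76,1),(7,1),true),((84,1),(8,1),false),((101,1),(11,1),false),true),
    (((84,1),(8,1),false),((101,1),(11,1),false),((125,1),(14,1),true),false),
    (((101,1),(11,1),false),((125,1),(14,1),true),((117,1),(15,1),false),true),
    (((125,1),(14,1),true),((117,1),(15,1),false),((5,0),(12,1),false),false),
    (((117,1),(15,1),false),((5,0),(12,1),false),((20,0),(3,0),true),true),
    (((5,0),(12,1),false),((20,0),(3,0),true),((45,0),(5,0),false),false),
    (((20,0),(3,0),true),((45,0),(5,0),false),((44,0),(1,0),true),true),
    (((45,0),(5,0),false),((44,0),(1,0),true),((3,0),(13,1),true),false),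
    (((44,0),(1,0),true),((3,0),(13,1),true),((5,0),(12,1),false),true),
    (((3,0),(13,1),true),((5,0),(12,1),false),((116,1),(10,1),true),false),
    (((5,0),(12,1),false),((116,1),(10,1),true),((125,1),(14,1),true),true),
    (((116,1),(10,1),true),((125,1),(14,1),true),((92,1),(9,1),true),false),
    (((125,1),(14,1),true),((92,1),(9,1),true),((84,1),(8,1),false),true),
    (((92,1),(9,1),true),((84,1),(8,1),false),((68,1),(6,1),false),false),
    (((84,0),(8,0),false),((68,0),(6,0),false),((60,0),(4,0),true),true),
    (((68,0),(6,0),false),((60,0),(4,0),true),((44,0),(1,0),true),false),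
    (((60,0),(4,0),true),((44,0),(1,0),true),((29,0),(2,0),false),true),
    (((44,0),(1,0),true),((29,0),(2,0),false),((20,0),(3,0),true),false),
    (((29,0),(2,0),false),((20,0),(3,0),true),((68,0),(6,0),false),true),
    (((20,0),(3,0),true),((68,0),(6,0),false),((76,0),(7,0),true),false),
    (((68,0),(6,0),false),((76,0),(7,0),true),((92,0),(9,0),true),true)]
  B := [
    (((76,2),(7,2),true),((84,2),(8,2),false),((100,2),(10,2),false),true),
    (((84,2),(8,2),false),((100,2),(10,2),false),((108,2),(11,2),true),false),
    (((100,2),(10,2),false),((108,2),(11,2),true),((124,2),(13,2),true),true),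
    (((108,2),(11,2),true),((124,2),(13,2),true),((132,2),(14,2),false),false),
    (((132,2),(14,2),false),((116,2),(12,2),false),((108,2),(11,2),true),true),
    (((116,2),(12,2),false),((108,2),(11,2),true),((92,2),(9,2),true),false),
    (((108,2),(11,2),true),((92,2),(9,2),true),((84,2),(8,2),false),true),
    (((92,2),(9,2),true),((84,2),(8,2),false),((68,2),(6,2),false),false),
    (((76,2),(7,2),true),((92,2),(9,2),true),((100,2),(10,2),false),false),
    (((92,2),(9,2),true),((100,2),(10,2),false),((116,2),(12,2),false),true),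
    (((100,2),(10,2),false),((116,2),(12,2),false),((124,2),(13,2),true),false),
    (((116,2),(12,2),false),((124,2),(13,2),true),((140,2),(15,2),true),true)]
  CE := [
    [((117,1),(15,1),false),((5,0),(12,1),false),((3,0),(13,1),true)],
    [((5,0),(12,1),false),((20,0),(3,0),true),((29,0),(2,0),false),((3,0),(13,1),true)], [],
    [((29,0),(2,0),false),((20,0),(3,0),true),((45,0),(5,0),false)],
    [((3,0),(13,1),true),((29,0),(2,0),false),((44,0),(1,0),true)],
    [((29,0),(2,0),false),((45,0),(5,0),false),((44,0),(1,0),true)],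
    [((44,0),(1,0),true),((45,0),(5,0),false),((60,0),(4,0),true)],
    [((45,0),(5,0),false),((20,0),(3,0),true),((68,0),(6,0),false),((60,0),(4,0),true)],
    [((60,0),(4,0),true),((68,0),(6,0),false),((76,0),(7,0),true)],
    [((68,0),(6,0),false),((84,0),(8,0),false),((76,0),(7,0),true)],
    [((84,1),(8,1),false),((92,1),(9,1),true),((76,1),(7,1),true)],
    [((84,1),(8,1),false),((101,1),(11,1),false),((92,1),(9,1),true)],
    [((92,1),(9,1),true),((101,1),(11,1),false),((125,1),(14,1),true)],
    [((101,1),(11,1),false),((116,1),(10,1),true),((125,1),(14,1),true)],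
    [((116,1),(10,1),true),((5,0),(12,1),false),((117,1),(15,1),false)],
    [((125,1),(14,1),true),((116,1),(10,1),true),((117,1),(15,1),false)]]
  CB := [
    [((76,2),(7,2),true),((84,2),(8,2),false),((92,2),(9,2),true)],
    [((84,2),(8,2),false),((100,2),(10,2),false),((92,2),(9,2),true)],
    [((92,2),(9,2),true),((100,2),(10,2),false),((108,2),(11,2),true)],
    [((100,2),(10,2),false),((116,2),(12,2),false),((108,2),(11,2),true)],
    [((108,2),(11,2),true),((116,2),(12,2),false),((124,2),(13,2),true)],
    [((132,2),(14,2),false),((124,2),(13,2),true),((116,2),(12,2),false)]]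

theorem fam4_k0 : fam4.k0 = true := by decide +kernel

theorem fam4_k1 : fam4.k1 = true := by decide +kernel

theorem fam4_kEE : fam4.kEE = true := by decide +kernel

theorem fam4_kE : fam4.kE = true := by decide +kernel

theorem fam4_kSS : fam4.kSS = true := by decide +kernel

theorem fam4_kES00 : fam4.kES 0 0 = true := by decide +kernel

theorem fam4_kES01 : fam4.kES 0 1 = true := by decide +kernel

theorem fam4_kES10 : fam4.kES 1 0 = true := by decide +kernel

theorem fam4_kES11 : fam4.kES 1 1 = true := by decide +kernel

theorem fam4_kD00 : fam4.kD 0 0 = true := by decide +kernel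

theorem fam4_kD01 : fam4.kD 0 1 = true := by decide +kernel

theorem fam4_kD10 : fam4.kD 1 0 = true := by decide +kernel

theorem fam4_kD11 : fam4.kD 1 1 = true := by decide +kernel

theorem fam4_valid {t : ℕ} (ht : 1 ≤ t) : Valid (fam4.n0 + 6 * t) (fam4.G + 12 * t)
    (fun p => fam4.tri t (fam4.desc t p)) :=
  fam4.valid fam4_k0 fam4_k1 fam4_kEE fam4_kE
    (fun i hi k hk => by
      interval_cases i <;> interval_cases k
      exacts [fam4_kES00, fam4_kES01, fam4_kES10, fam4_kES11])
    (fun i hi k hk => by
      interval_cases i <;> interval_cases k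
      exacts [fam4_kD00, fam4_kD01, fam4_kD10, fam4_kD11]) fam4_kSS ht

end Pool.Agent.MP_b0ee3d_lc

end

section

set_option autoImplicit false

namespace Pool.Agent.MP_b0ee3d_lc

def fam5 : Fam where
  n0 := 11
  c0 := 7
  A := 76
  A' := 5
  g0 := 6
  g1 := 7
  g2 := 7
  d0 := 0
  d1 := 0
  d2 := 0
  js := 2
  E := [
    (((52,1),(2,1),false),((68,1),(4,1),false),((85,1),(8,1),true),false),
    (((68,1),(4,1),false),((85,1),(8,1),true),((3,0),(9,1),false),true),
    (((85,1),(8,1),true),((3,0),(9,1),false),((12,0),(6,1),true),false),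
    (((3,0),(9,1),false),((12,0),(6,1),true),((28,0),(5,1),false),true),
    (((12,0),(6,1),true),((28,0),(5,1),false),((44,0),(1,0),true),false),
    (((28,0),(5,1),false),((44,0),(1,0),true),((60,0),(3,0),true),true),
    (((44,1),(1,1),true),((60,1),(3,1),true),((68,1),(4,1),false),false),
    (((60,1),(3,1),true),((68,1),(4,1),false),((77,1),(7,1),false),true),
    (((68,1),(4,1),false),((77,1),(7,1),false),((3,0),(9,1),false),false),
    (((77,1),(7,1),false),((3,0),(9,1),false),((29,0),(10,1),true),true),
    (((3,0),(9,1),false),((29,0),(10,1),true),((28,0),(5,1),false),false),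
    (((29,0),(10,1),true),((28,0),(5,1),false),((52,0),(2,0),false),true),
    (((28,0),(5,1),false),((52,0),(2,0),false),((60,0),(3,0),true),false),
    (((52,1),(2,1),false),((60,1),(3,1),true),((85,1),(8,1),true),true),
    (((60,1),(3,1),true),((85,1),(8,1),true),((77,1),(7,1),false),false),
    (((85,1),(8,1),true),((77,1),(7,1),false),((12,0),(6,1),true),true),
    (((77,1),(7,1),false),((12,0),(6,1),true),((29,0),(10,1),true),false),
    (((12,0),(6,1),true),((29,0),(10,1),true),((44,0),(1,0),true),true),
    (((29,0),(10,1),true),((44,0),(1,0),true),((52,0),(2,0),false),false),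
    (((44,0),(1,0),true),((52,0),(2,0),false),((68,0),(4,0),false),true)]
  B := [
    (((44,2),(1,2),true),((60,2),(3,2),true),((68,2),(4,2),false),false),
    (((60,2),(3,2),true),((68,2),(4,2),false),((84,2),(6,2),false),true),
    (((68,2),(4,2),false),((84,2),(6,2),false),((92,2),(7,2),true),false),
    (((84,2),(6,2),false),((92,2),(7,2),true),((108,2),(9,2),true),true),
    (((52,2),(2,2),false),((60,2),(3,2),true),((76,2),(5,2),true),true),
    (((60,2),(3,2),true),((76,2),(5,2),true),((84,2),(6,2),false),false),
    (((76,2),(5,2),true),((84,2),(6,2),false),((100,2),(8,2),false),true),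
    (((84,2),(6,2),false),((100,2),(8,2),false),((108,2),(9,2),true),false),
    (((52,2),(2,2),false),((68,2),(4,2),false),((76,2),(5,2),true),false),
    (((68,2),(4,2),false),((76,2),(5,2),true),((92,2),(7,2),true),true),
    (((76,2),(5,2),true),((92,2),(7,2),true),((100,2),(8,2),false),false),
    (((92,2),(7,2),true),((100,2),(8,2),false),((116,2),(10,2),false),true)]
  CE := [
    [((3,0),(9,1),false),((29,0),(10,1),true),((12,0),(6,1),true)],
    [((77,1),(7,1),false),((3,0),(9,1),false),((12,0),(6,1),true)], [],
    [((12,0),(6,1),true),((29,0),(10,1),true),((28,0),(5,1),false)],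
    [((29,0),(10,1),true),((44,0),(1,0),true),((28,0),(5,1),false)],
    [((28,0),(5,1),false),((44,0),(1,0),true),((52,0),(2,0),false)],
    [((44,0),(1,0),true),((60,0),(3,0),true),((52,0),(2,0),false)],
    [((60,1),(3,1),true),((68,1),(4,1),false),((52,1),(2,1),false)],
    [((60,1),(3,1),true),((85,1),(8,1),true),((68,1),(4,1),false)],
    [((68,1),(4,1),false),((85,1),(8,1),true),((77,1),(7,1),false)],
    [((85,1),(8,1),true),((3,0),(9,1),false),((77,1),(7,1),false)]]
  CB := [
    [((52,2),(2,2),false),((60,2),(3,2),true),((68,2),(4,2),false)],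
    [((60,2),(3,2),true),((76,2),(5,2),true),((68,2),(4,2),false)],
    [((68,2),(4,2),false),((76,2),(5,2),true),((84,2),(6,2),false)],
    [((76,2),(5,2),true),((92,2),(7,2),true),((84,2),(6,2),false)],
    [((84,2),(6,2),false),((92,2),(7,2),true),((100,2),(8,2),false)],
    [((108,2),(9,2),true),((100,2),(8,2),false),((92,2),(7,2),true)]]

theorem fam5_k0 : fam5.k0 = true := by decide +kernel

theorem fam5_k1 : fam5.k1 = true := by decide +kernel

theorem fam5_kEE : fam5.kEE = true := by decide +kernel

theorem fam5_kE : fam5.kE = true := by decide +kernel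

theorem fam5_kSS : fam5.kSS = true := by decide +kernel

theorem fam5_kES00 : fam5.kES 0 0 = true := by decide +kernel

theorem fam5_kES01 : fam5.kES 0 1 = true := by decide +kernel

theorem fam5_kES10 : fam5.kES 1 0 = true := by decide +kernel

theorem fam5_kES11 : fam5.kES 1 1 = true := by decide +kernel

theorem fam5_kD00 : fam5.kD 0 0 = true := by decide +kernel

theorem fam5_kD01 : fam5.kD 0 1 = true := by decide +kernel

theorem fam5_kD10 : fam5.kD 1 0 = true := by decide +kernel

theorem fam5_kD11 : fam5.kD 1 1 = true := by decide +kernel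

theorem fam5_valid {t : ℕ} (ht : 1 ≤ t) : Valid (fam5.n0 + 6 * t) (fam5.G + 12 * t)
    (fun p => fam5.tri t (fam5.desc t p)) :=
  fam5.valid fam5_k0 fam5_k1 fam5_kEE fam5_kE
    (fun i hi k hk => by
      interval_cases i <;> interval_cases k
      exacts [fam5_kES00, fam5_kES01, fam5_kES10, fam5_kES11])
    (fun i hi k hk => by
      interval_cases i <;> interval_cases k
      exacts [fam5_kD00, fam5_kD01, fam5_kD10, fam5_kD11]) fam5_kSS ht

end Pool.Agent.MP_b0ee3d_lc

end
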