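import Mathlib
import Pool.Agent.Mg.F2e8011.G5dc239
import Pool.Agent.Mg.F2e8011.G0f7af8
import Pool.Agent.Mg.F2e8011.G4b36e2
import Pool.Agent.Mg.F2e8011.Gb43497

set_option autoImplicit false

/-! The algorithm. -/

namespace Pool.Agent.MP_b0ee3d_lc

open Pool.Agent.MP_2e8011_lc Pool.Agent.MP_a6d740_lc

def tabs : List (List Q) := [[], tab1, tab2, tab3, tab4, tab5, tab6, tab7, tab8, tab9, tab10, tab11,
  tab12, tab13, tab14, tab15, tab16, [], tab18, tab19, tab20]

def Fam.at (F : Fam) (n p : ℕ) : Q := F.tri ((n - F.n0) / 6) (F.desc ((n - F.n0) / 6) p)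

/-- the layout for `n` dots -/
def lay (n p : ℕ) : Q :=
  if n ≤ 20 ∧ n ≠ 17 then (tabs.getD n []).getD p dQ
  else if n % 6 = 0 then fam0.at n p else if n % 6 = 1 then fam1.at n p
  else if n % 6 = 2 then fam2.at n p else if n % 6 = 3 then fam3.at n p
  else if n % 6 = 4 then fam4.at n p else fam5.at n p

theorem lay_valid {n : ℕ} (hn : 1 ≤ n) : Valid n (best n) (lay n) := by
  by_cases h : n ≤ 20 ∧ n ≠ 17
  · have e : lay n = fun p => (tabs.getD n []).getD p dQ := funext fun p => if_pos h
    rw [e]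
    obtain ⟨h1, h2⟩ := h
    interval_cases n
    exacts [valid_of_tab ok1, valid_of_tab ok2, valid_of_tab ok3, valid_of_tab ok4,
      valid_of_tab ok5, valid_of_tab ok6, valid_of_tab ok7, valid_of_tab ok8, valid_of_tab ok9,
      valid_of_tab ok10, valid_of_tab ok11, valid_of_tab ok12, valid_of_tab ok13,
      valid_of_tab ok14, valid_of_tab ok15, valid_of_tab ok16, absurd rfl h2, valid_of_tab ok18,
      valid_of_tab ok19, valid_of_tab ok20]
  have key : ∀ F : Fam, (∀ t, 1 ≤ t → Valid (F.n0 + 6 * t) (F.G + 12 * t)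
      (fun p => F.tri t (F.desc t p))) → F.G + 2 = 2 * F.n0 → F.n0 + 6 ≤ n → (n - F.n0) % 6 = 0 →
      Valid n (best n) (F.at n) := by
    intro F hF h1 h2 h3
    have := hF ((n - F.n0) / 6) (by omega)
    rwa [show F.n0 + 6 * ((n - F.n0) / 6) = n by omega,
      show F.G + 12 * ((n - F.n0) / 6) = best n by rw [best, if_neg (by omega)]; omega] at this
  have e : lay n = if n % 6 = 0 then fam0.at n else if n % 6 = 1 then fam1.at n
      else if n % 6 = 2 then fam2.at n else if n % 6 = 3 then fam3.at n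
      else if n % 6 = 4 then fam4.at n else fam5.at n := by
    funext p
    rw [lay, if_neg h]
    split_ifs <;> rfl
  rw [e]
  split_ifs
  · exact key _ (fun _ => fam0_valid) rfl (by change 18 + 6 ≤ n; omega)
      (by change (n - 18) % 6 = 0; omega)
  · exact key _ (fun _ => fam1_valid) rfl (by change 19 + 6 ≤ n; omega)
      (by change (n - 19) % 6 = 0; omega)
  · exact key _ (fun _ => fam2_valid) rfl (by change 20 + 6 ≤ n; omega)
      (by change (n - 20) % 6 = 0; omega)
  · exact key _ (fun _ => fam3_valid) rfl (by change 15 + 6 ≤ n; omega)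
      (by change (n - 15) % 6 = 0; omega)
  · exact key _ (fun _ => fam4_valid) rfl (by change 16 + 6 ≤ n; omega)
      (by change (n - 16) % 6 = 0; omega)
  · exact key _ (fun _ => fam5_valid) rfl (by change 11 + 6 ≤ n; omega)
      (by change (n - 11) % 6 = 0; omega)

/-- lexicographic order -/
def lexB (a b : ℚ × ℚ) : Bool := decide (a.1 < b.1) || (decide (a.1 = b.1) && decide (a.2 < b.2))

theorem lexB_iff (a b : ℚ × ℚ) : lexB a b = true ↔ toLex a < toLex b := by
  simp [lexB, Prod.Lex.toLex_lt_toLex]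

def rank (P : List (ℚ × ℚ)) (a : ℚ × ℚ) : ℕ := (P.filter fun b => lexB b a).length

def srt (P : List (ℚ × ℚ)) (j : ℕ) : ℚ × ℚ := (P.filter fun a => decide (rank P a = j)).headD (0, 0)

/-- the drawing -/
def draw (P : List (ℚ × ℚ)) : List (ℚ × ℚ) :=
  (List.range (best P.length)).map fun p => place (sz P) (srt P) (lay P.length p).2.1

section
variable {P : List (ℚ × ℚ)} (hP : P.Nodup)
include hP

theorem rank_eq (a : ℚ × ℚ) :
    rank P a = (P.toFinset.filter fun b => toLex b < toLex a).card := by
  rw [rank, ← List.toFinset_card_of_nodup (hP.filter _)]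
  congr 1
  ext b
  simp [lexB_iff]

theorem rank_lt {a b : ℚ × ℚ} (ha : a ∈ P) (h : toLex a < toLex b) : rank P a < rank P b := by
  rw [rank_eq hP, rank_eq hP]
  refine Finset.card_lt_card ⟨fun c hc => ?_, fun hc => ?_⟩
  · rw [Finset.mem_filter] at hc ⊢
    exact ⟨hc.1, hc.2.trans h⟩
  · have := hc (Finset.mem_filter.mpr ⟨List.mem_toFinset.mpr ha, h⟩)
    simp at this

theorem rank_inj {a b : ℚ × ℚ} (ha : a ∈ P) (hb : b ∈ P) (h : rank P a = rank P b) : a = b := by
  rcases lt_trichotomy (toLex a) (toLex b) with h' | h' | h'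
  · exact absurd h (rank_lt hP ha h').ne
  · exact toLex.injective h'
  · exact absurd h (rank_lt hP hb h').ne'

theorem rank_lt_length {a : ℚ × ℚ} (ha : a ∈ P) : rank P a < P.length := by
  rw [rank_eq hP, ← List.toFinset_card_of_nodup hP]
  refine Finset.card_lt_card ⟨Finset.filter_subset _ _, fun hc => ?_⟩
  have := hc (List.mem_toFinset.mpr ha)
  simp at this

theorem srt_spec {j : ℕ} (hj : j < P.length) : srt P j ∈ P ∧ rank P (srt P j) = j := by
  obtain ⟨a, ha, h⟩ := Finset.surjOn_of_injOn_of_card_le (s := P.toFinset)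
    (t := Finset.range P.length) (rank P)
    (fun a ha => by simpa using rank_lt_length hP (by simpa using ha))
    (fun a ha b hb => rank_inj hP (by simpa using ha) (by simpa using hb))
    (by rw [List.toFinset_card_of_nodup hP, Finset.card_range]) (show j ∈ _ by simpa using hj)
  have h1 : a ∈ P.filter fun a => decide (rank P a = j) := by simpa using ⟨by simpa using ha, h⟩
  have h2 : srt P j ∈ P.filter fun a => decide (rank P a = j) := by
    unfold srt
    generalize (P.filter fun a => decide (rank P a = j)) = l at h1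
    cases l with
    | nil => simp at h1
    | cons b l => simp
  simpa using h2

theorem draw_sona (hne : P ≠ []) : IsSona (toC P) (toC (draw P)) := by
  have hn : 1 ≤ P.length := List.length_pos_iff.mpr hne
  have M := model_place (n := P.length) (β := sz P) (d := srt P) (fun j hj => by
      have h1 := sz_le_of_mem (srt_spec hP hj).1
      rw [← Prod.mk.eta (p := srt P j), sz_prod] at h1
      have a := rat_sz (srt P j).1 (k := sz P) (by omega)
      have b := rat_sz (srt P j).2 (k := sz P) (by omega)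
      exact ⟨a.1, a.2, b.1, b.2⟩) (fun j' hj' j hj => by
      rw [← Prod.Lex.toLex_lt_toLex]
      have a := srt_spec hP hj'
      have b := srt_spec hP (hj.trans hj')
      by_contra hc
      rcases (not_lt.mp hc).eq_or_lt with h | h
      · have := b.2
        rw [← toLex.injective h, a.2] at this
        omega
      · have := rank_lt hP a.1 h
        omega)
  have := (lay_valid hn).isSona M
  have e : ∀ z, z ∈ toC P ↔ z ∈ (List.range P.length).map fun j =>
      (⟨(place (sz P) (srt P) (dot j)).1, (place (sz P) (srt P) (dot j)).2⟩ : ℂ) := by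
    intro z
    simp only [toC, List.mem_map, List.mem_range, place_dot]
    constructor
    · rintro ⟨a, ha, rfl⟩
      have h1 := rank_lt_length hP ha
      have h2 := srt_spec hP h1
      exact ⟨_, h1, by rw [rank_inj hP h2.1 ha h2.2]⟩
    · rintro ⟨j, hj, rfl⟩
      exact ⟨_, (srt_spec hP hj).1, rfl⟩
  simpa only [IsSona, toC, draw, List.map_map, Function.comp_def, ← e] using this

theorem toC_nodup : (toC P).Nodup :=
  hP.map fun a b h => by
    simp only [Complex.mk.injEq, Rat.cast_inj] at h
    exact Prod.ext h.1 h.2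

end

variable {α : Type} [Enc α]

@[fun_prop] theorem pt_val {z t i : α → ℕ} (hz : PT z) (ht : PT t) (hi : PT i) :
    PT (fun a => val (z a) (t a) (i a)) := by
  simp only [val_eq]; fun_prop

@[fun_prop] theorem pt_ev {t i : α → ℕ} {s : α → SR} (ht : PT t) (hi : PT i) (hs : PT s) :
    PT (fun a => ev (t a) (i a) (s a)) := by
  simp only [ev_eq]; fun_prop

@[fun_prop] theorem pt_blk {d t m : α → ℕ} (hd : PT d) (ht : PT t) (hm : PT m) :
    PT (fun a => blk (d a) (t a) (m a)) := by
  unfold blk; fun_prop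

theorem pt_desc (F : Fam) {t p : α → ℕ} (ht : PT t) (hp : PT p) :
    PT (fun a => F.desc (t a) (p a)) := by
  unfold Fam.desc; fun_prop

theorem pt_evQ {t i : α → ℕ} {s : α → SQ} (ht : PT t) (hi : PT i) (hs : PT s) :
    PT (fun a => evQ (t a) (i a) (s a)) :=
  (pt_ev ht hi hs.fst).prodMk ((pt_ev ht hi hs.snd.fst).prodMk
    ((pt_ev ht hi hs.snd.snd.fst).prodMk hs.snd.snd.snd))

theorem pt_tri (F : Fam) {t : α → ℕ} {d : α → ℕ × ℕ × ℕ} (ht : PT t) (hd : PT d) :
    PT (fun a => F.tri (t a) (d a)) :=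
  pt_evQ ht hd.snd.snd (by fun_prop)

theorem pt_at (F : Fam) {n p : α → ℕ} (hn : PT n) (hp : PT p) : PT (fun a => F.at (n a) (p a)) := by
  have h3 : PT (fun a => (n a - F.n0) / 6) := by fun_prop
  exact pt_tri F h3 (pt_desc F h3 hp)

theorem pt_lay {n p : α → ℕ} (hn : PT n) (hp : PT p) : PT (fun a => lay (n a) (p a)) := by
  have h : ∀ k : ℕ, PT (fun a => decide (n a % 6 = k)) := fun k => by fun_prop
  exact PT.ite (by fun_prop) (((PT.const tabs).getD hn (PT.const [])).getD hp (PT.const dQ))
    (PT.ite (h 0) (pt_at fam0 hn hp) (PT.ite (h 1) (pt_at fam1 hn hp)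
    (PT.ite (h 2) (pt_at fam2 hn hp) (PT.ite (h 3) (pt_at fam3 hn hp)
    (PT.ite (h 4) (pt_at fam4 hn hp) (pt_at fam5 hn hp))))))

theorem pt_srt {P : α → List (ℚ × ℚ)} {j : α → ℕ} (hP : PT P) (hj : PT j) :
    PT (fun a => srt (P a) (j a)) := by
  unfold srt rank lexB; fun_prop

theorem pt_draw : PT draw := by
  have h0 : PT (fun P : List (ℚ × ℚ) => best P.length) := by unfold best; fun_prop
  have h1 : PT (fun x : List (ℚ × ℚ) × R => place (sz x.1) (srt x.1) x.2) := by
    have a : PT (fun x : List (ℚ × ℚ) × R => srt x.1 (x.2.1 / 8)) :=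
      pt_srt (by fun_prop) (by fun_prop)
    have b : PT (fun x : List (ℚ × ℚ) × R => hgt (sz x.1) x.2) := by unfold hgt; fun_prop
    have c : PT (fun x : List (ℚ × ℚ) × R => ofs x.2) := by unfold ofs; fun_prop
    exact (pt_addInt a.fst (by fun_prop)).prodMk (pt_addInt a.snd (by fun_prop))
  have h2 : PT (fun x : List (ℚ × ℚ) × ℕ => lay x.1.length x.2) := pt_lay (by fun_prop) (by fun_prop)
  exact PT.map (f := fun (P : List (ℚ × ℚ)) (p : ℕ) => place (sz P) (srt P) (lay P.length p).2.1)
    (h1.comp (f := fun x : List (ℚ × ℚ) × ℕ => (x.1, (lay x.1.length x.2).2.1)) (by fun_prop))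
    h0.range

theorem pt_best : PT (fun P : List (ℚ × ℚ) => Bin.mk (best P.length)) :=
  pt_ofUnary (by unfold best; fun_prop)

theorem draw_poly : N68a2faeb.IsPolyTime fun P : List (ℚ × ℚ) => (best P.length, draw P) :=
  isPolyTime_of_PT id (fun x : ℕ × List (ℚ × ℚ) => (Bin.mk x.1, x.2))
    (agree_list (agree_prod agree_rat agree_rat))
    (bitEncode_prod (κ := id) bitEncode_bin (agree_list (agree_prod agree_rat agree_rat)))
    (pt_best.prodMk pt_draw) (fun _ => rfl)

theorem dec_poly :
    N68a2faeb.IsPolyTime fun x : List (ℚ × ℚ) × ℕ => decide (best x.1.length ≤ x.2) :=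
  isPolyTime_of_PT (fun x : List (ℚ × ℚ) × ℕ => (x.1, Bin.mk x.2)) id
    (bitEncode_prod (ι := id) (agree_list (agree_prod agree_rat agree_rat)) bitEncode_bin)
    agree_bool (pt_binLt (i := fun _ => inferInstance) (f := fun x : List (ℚ × ℚ) × Bin => x.2)
      PT.id.snd (pt_best.comp PT.id.fst)).not (fun x => by
        rw [Bool.eq_iff_iff, Bool.not_eq_true', decide_eq_false_iff_not, not_lt, id, decide_eq_true_eq])

theorem length_draw (P : List (ℚ × ℚ)) : (draw P).length = best P.length := by simp [draw]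

end Pool.Agent.MP_b0ee3d_lc
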