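import Pool.Agent.MP_8c4891_lc.Defs

section

/-! The gadget graph: a control token and bit-cell tokens simulate an alternating machine. -/

namespace Pool.Agent.MP_8c4891_lc

theorem xor_le_add (a b : ℕ) : a ^^^ b ≤ a + b := by
  induction h : a + b using Nat.strong_induction_on generalizing a b with
  | _ n ih =>
    rcases Nat.eq_zero_or_pos n with rfl | hn
    · have ha : a = 0 := by omega
      have hb : b = 0 := by omega
      simp [ha, hb]
    · have h1 := ih (a / 2 + b / 2) (by omega) (a / 2) (b / 2) rfl
      have h2 : (a ^^^ b) / 2 = a / 2 ^^^ b / 2 := Nat.xor_div_two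
      have h3 : (a ^^^ b) % 2 = (a + b) % 2 := Nat.xor_mod_two_eq
      omega

/-- Alternating programs on bit registers. -/
structure AP (ν : Type) where
  m : ℕ
  own : ν → Bool
  pl : ν → List ν
  fl : ν → List (ℕ × Bool × ν)

variable {ν : Type}

/-- One transition. -/
def AP.Tr (A : AP ν) (a : ν) (mem : ℕ → Bool) (a' : ν) (mem' : ℕ → Bool) : Prop :=
  (a' ∈ A.pl a ∧ mem' = mem) ∨
    ∃ c, (c, mem c, a') ∈ A.fl a ∧ mem' = Function.update mem c (!mem c)

/-- `Res A r a mem`: the player `r` wins from node `a` with memory `mem`. -/
inductive Res (A : AP ν) : Bool → ν → (ℕ → Bool) → Prop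
  | pick {r : Bool} {a : ν} {mem : ℕ → Bool} {a' : ν} {mem' : ℕ → Bool} :
      A.own a = r → A.Tr a mem a' mem' → Res A r a' mem' → Res A r a mem
  | all {r : Bool} {a : ν} {mem : ℕ → Bool} :
      A.own a = !r → (∀ a' mem', A.Tr a mem a' mem' → Res A r a' mem') → Res A r a mem

/-- Vertices of a bit cell. -/
inductive Cq : Type
  | R (b : Bool)
  | T (b : Bool)
  | H (j : ℕ)
  deriving DecidableEq

/-- Vertices of the graph. -/
inductive Vx (ν : Type) : Type
  | N (a : ν) (p : Bool)
  | W1 (c : ℕ) (b : Bool) (a : ν) (p : Bool)
  | W2 (c : ℕ) (b : Bool) (a : ν) (p : Bool)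
  | K (j : ℕ)
  | X (c : ℕ) (q : Cq)
  deriving DecidableEq

open Cq Vx

/-- Moves inside the cell `c`. -/
def outc (c : ℕ) : Cq → List Cq
  | R b => [T (!b)]
  | T b => R b :: (List.range (c + 1)).map H
  | H j => (List.range j).map H

/-- Edges to the heap of the control token, the values `0` and `e` being excluded. -/
def ks (m e : ℕ) : List (Vx ν) :=
  ((List.range (2 * m + 1)).filter (fun j => decide (j ≠ 0 ∧ j ≠ e))).map K

theorem mem_ks {m e : ℕ} {v : Vx ν} :
    v ∈ ks m e ↔ ∃ j, j ≤ 2 * m ∧ j ≠ 0 ∧ j ≠ e ∧ v = K j := by
  simp only [ks, List.mem_map, List.mem_filter, List.mem_range, decide_eq_true_eq]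
  constructor
  · rintro ⟨j, ⟨h1, h2, h3⟩, rfl⟩
    exact ⟨j, by omega, h2, h3, rfl⟩
  · rintro ⟨j, h1, h2, h3, rfl⟩
    exact ⟨j, ⟨by omega, h2, h3⟩, rfl⟩

/-- Edges for the control token. -/
def out0 (A : AP ν) : Vx ν → List (Vx ν)
  | N a p => (if A.own a = p then (A.pl a).map (fun a' => N a' (!p)) ++
        (A.fl a).map (fun f => W1 f.1 f.2.1 f.2.2 (!p)) else [N a (!p)]) ++ ks A.m 0
  | W1 c b a p => [W2 c b a p, X c (R (!b)), X c (H 0)] ++ ks A.m (c + 1)
  | W2 c b a p => [N a p, X c (R b), X c (H 0), X c (T b)] ++ ks A.m (c + 1)
  | K j => (List.range j).map K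
  | X _ _ => (List.range (2 * A.m + 1)).map K

/-- Edges for the cell tokens. -/
def out1 : Vx ν → List (Vx ν)
  | X c q => (outc c q).map (X c)
  | _ => []

/-- The edge relation; the type `false` is the control token. -/
def Edge (A : AP ν) (i : Bool) (u v : Vx ν) : Prop :=
  v ∈ (if i then out1 u else out0 A u)

variable [DecidableEq ν]

/-- The placement with control token at `k` and the token of cell `c` at `pos c`. -/
def place (k : Option (Vx ν)) (pos : ℕ → Option Cq) (v : Vx ν) : Option Bool :=
  if k = some v then some false else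
    match v with
    | X c q => if pos c = some q then some true else none
    | _ => none

/-- Value of a state. -/
def Fo (A : AP ν) (b : Bool) (k : Option (Vx ν)) (pos : ℕ → Option Cq) : Prop :=
  Forces (Move (Edge A)) b (place k pos)

/-- The vertex `v` is not occupied by a cell token. -/
def Free (pos : ℕ → Option Cq) (v : Vx ν) : Prop := ∀ c q, v = X c q → pos c ≠ some q

theorem place_ctrl_move {pos : ℕ → Option Cq} {u v : Vx ν} (hu : Free pos u) :
    Function.update (Function.update (place (some u) pos) u none) v (some false)
      = place (some v) pos := by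
  funext w
  by_cases hv : w = v
  · subst hv; simp [place]
  · rw [Function.update_of_ne hv]
    by_cases hw : w = u
    · subst hw
      rw [Function.update_self]
      simp only [place, Option.some.injEq, Ne.symm hv, if_false]
      cases w with
      | X c q => simp [hu c q rfl]
      | _ => rfl
    · rw [Function.update_of_ne hw]
      simp only [place, Option.some.injEq, Ne.symm hv, Ne.symm hw, if_false]

theorem place_attack {pos : ℕ → Option Cq} {u : Vx ν} (hu : Free pos u) {c : ℕ} {q : Cq}
    (hq : pos c = some q) :
    Function.update (Function.update (place (some u) pos) u none) (X c q) none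
      = place none (Function.update pos c none) := by
  funext w
  by_cases hv : w = X c q
  · subst hv; simp [place]
  · rw [Function.update_of_ne hv]
    by_cases hw : w = u
    · subst hw
      rw [Function.update_self]
      cases w with
      | X c' q' =>
        have := hu c' q' rfl
        by_cases hc : c' = c
        · subst hc; simp [place]
        · simp [place, hc, this]
      | _ => simp [place]
    · rw [Function.update_of_ne hw]
      cases w with
      | X c' q' =>
        by_cases hc : c' = c
        · subst hc
          have : q ≠ q' := fun h => hv (by rw [h])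
          simp [place, Ne.symm hw, hq, this]
        · simp [place, Ne.symm hw, hc]
      | _ => simp [place, Ne.symm hw]

theorem place_cell_move {k : Option (Vx ν)} {pos : ℕ → Option Cq} {c : ℕ} {q q' : Cq}
    (hq : pos c = some q) (hk : k ≠ some (X c q)) (hk' : k ≠ some (X c q')) :
    Function.update (Function.update (place k pos) (X c q) none) (X c q') (some true)
      = place k (Function.update pos c (some q')) := by
  funext w
  by_cases hv : w = X c q'
  · subst hv; simp [place, hk']
  · rw [Function.update_of_ne hv]
    by_cases hw : w = X c q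
    · subst hw
      have : q' ≠ q := fun h => hv (by rw [h])
      simp [place, hk, this]
    · rw [Function.update_of_ne hw]
      cases w with
      | X c' q'' =>
        by_cases hc : c' = c
        · subst hc
          have h1 : q ≠ q'' := fun h => hw (by rw [h])
          have h2 : q' ≠ q'' := fun h => hv (by rw [h])
          simp [place, hq, h1, h2]
        · simp [place, hc]
      | _ => simp [place]

theorem outc_ne {c : ℕ} {q q' : Cq} (h : q' ∈ outc c q) : q' ≠ q := by
  cases q with
  | R b => simp only [outc, List.mem_singleton] at h; subst h; simp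
  | T b =>
    simp only [outc, List.mem_cons, List.mem_map] at h
    rcases h with rfl | ⟨j, -, rfl⟩ <;> simp
  | H j =>
    simp only [outc, List.mem_map, List.mem_range] at h
    obtain ⟨j', h, rfl⟩ := h
    simp; omega

variable {A : AP ν}

theorem W_ctrl {pos : ℕ → Option Cq} {u v : Vx ν} (hu : Free pos u) (huv : u ≠ v)
    (he : v ∈ out0 A u) (hv : Free pos v) (h : Fo A false (some v) pos) :
    Fo A true (some u) pos := by
  refine Forces.win ⟨false, u, v, by simp [place], by simpa [Edge] using he, ?_⟩ h
  have : (place (some u) pos v).isSome = false := by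
    cases v with
    | X c q => simp [place, huv, hv c q rfl]
    | _ => simp [place, huv]
  rw [this]
  exact (place_ctrl_move hu).symm

theorem W_att {pos : ℕ → Option Cq} {u : Vx ν} (hu : Free pos u) {c : ℕ} {q : Cq}
    (he : X c q ∈ out0 A u) (hq : pos c = some q)
    (h : Fo A false none (Function.update pos c none)) : Fo A true (some u) pos := by
  refine Forces.win ⟨false, u, X c q, by simp [place], by simpa [Edge] using he, ?_⟩ h
  have : (place (some u) pos (X c q)).isSome = true := by
    simp only [place, hq, if_true]
    split_ifs <;> rfl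
  rw [this]
  exact (place_attack hu hq).symm

/-- The control token is not on a cell vertex. -/
def Off (k : Option (Vx ν)) : Prop := ∀ c q, k ≠ some (X c q)

theorem W_cell {k : Option (Vx ν)} (hk : Off k) {pos : ℕ → Option Cq} {c : ℕ} {q q' : Cq}
    (hq : pos c = some q) (he : q' ∈ outc c q)
    (h : Fo A false k (Function.update pos c (some q'))) : Fo A true k pos := by
  refine Forces.win ⟨true, X c q, X c q', by simp [place, hk c q, hq], ?_, ?_⟩ h
  · simp only [Edge, if_true, out1]
    exact List.mem_map_of_mem he
  · have : (place k pos (X c q')).isSome = false := by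
      simp [place, hk c q', hq, (outc_ne he).symm]
    rw [this]
    exact (place_cell_move hq (hk c q) (hk c q')).symm

theorem L_intro {k : Option (Vx ν)} (hk : Off k) {pos : ℕ → Option Cq}
    (h1 : ∀ u v, k = some u → v ∈ out0 A u → Free pos v → Fo A true (some v) pos)
    (h2 : ∀ u c q, k = some u → X c q ∈ out0 A u → pos c = some q →
      Fo A true none (Function.update pos c none))
    (h3 : ∀ c q q', pos c = some q → q' ∈ outc c q →
      Fo A true k (Function.update pos c (some q'))) : Fo A false k pos := by
  refine Forces.lose ?_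
  rintro _ ⟨i, u, v, hp, he, rfl⟩
  by_cases hku : k = some u
  · subst hku
    have hi : i = false := by simpa [place] using hp.symm
    subst hi
    have he' : v ∈ out0 A u := by simpa [Edge] using he
    have hu : Free pos u := fun c q h => absurd (by rw [h]) (hk c q)
    by_cases hv : Free pos v
    · by_cases huv : u = v
      · exfalso
        subst huv
        cases u with
        | N a p =>
          simp only [out0, List.mem_append, mem_ks] at he'
          split_ifs at he' <;> simp at he'
        | W1 c b a p => simp [out0, mem_ks] at he'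
        | W2 c b a p => simp [out0, mem_ks] at he'
        | K j => simp [out0] at he'
        | X c q => exact hk c q rfl
      have : (place (some u) pos v).isSome = false := by
        cases v with
        | X c q => simp [place, huv, hv c q rfl]
        | _ => simp [place, huv]
      rw [this]
      have := h1 u v rfl he' hv
      rw [Fo, ← place_ctrl_move hu] at this
      exact this
    · simp only [Free, not_forall, not_not] at hv
      obtain ⟨c, q, rfl, hq⟩ := hv
      have : (place (some u) pos (X c q)).isSome = true := by
        simp only [place, hq, if_true]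
        split_ifs <;> rfl
      rw [this]
      have := h2 u c q rfl he' hq
      rw [Fo, ← place_attack hu hq] at this
      exact this
  · cases u with
    | X c q =>
      have hq : pos c = some q := by
        by_contra h
        simp [place, hku, h] at hp
      have hi : i = true := by simpa [place, hku, hq] using hp.symm
      subst hi
      simp only [Edge, if_true, out1, List.mem_map] at he
      obtain ⟨q', he, rfl⟩ := he
      have : (place k pos (X c q')).isSome = false := by
        simp [place, hk c q', hq, (outc_ne he).symm]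
      rw [this]
      have := h3 c q q' hq he
      rw [Fo, ← place_cell_move hq (hk c q) (hk c q')] at this
      exact this
    | _ => simp [place, hku] at hp

end Pool.Agent.MP_8c4891_lc

end

section

/-! Positions in which the control token is on its heap or gone are sums of nim-like games. -/

namespace Pool.Agent.MP_8c4891_lc

open Cq Vx

/-- Nim value of the token of cell `c`. -/
def val (c : ℕ) : Option Cq → ℕ
  | some (T _) => c + 1
  | some (H j) => j
  | _ => 0

/-- Rank of the token of cell `c`. -/
def rk (c : ℕ) : Option Cq → ℕ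
  | some (T _) => c + 2
  | some (H j) => j
  | some (R _) => 1
  | none => 0

/-- Nim sum of the first `m` cells. -/
def xs (pos : ℕ → Option Cq) : ℕ → ℕ
  | 0 => 0
  | m + 1 => val m (pos m) ^^^ xs pos m

/-- Total rank of the first `m` cells. -/
def rs (pos : ℕ → Option Cq) : ℕ → ℕ
  | 0 => 0
  | m + 1 => rk m (pos m) + rs pos m

theorem xs_update_ge (pos : ℕ → Option Cq) {c m : ℕ} (h : m ≤ c) (q : Option Cq) :
    xs (Function.update pos c q) m = xs pos m := by
  induction m with
  | zero => rfl
  | succ m ih => rw [xs, xs, ih (by omega), Function.update_of_ne (by omega)]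

theorem xs_update (pos : ℕ → Option Cq) {c m : ℕ} (h : c < m) (q : Option Cq) :
    xs (Function.update pos c q) m = xs pos m ^^^ val c (pos c) ^^^ val c q := by
  induction m with
  | zero => omega
  | succ m ih =>
    rcases Nat.lt_succ_iff_lt_or_eq.mp h with h | rfl
    · rw [xs, xs, ih h, Function.update_of_ne (by omega)]
      simp only [Nat.xor_assoc]
    · rw [xs, xs, xs_update_ge pos le_rfl, Function.update_self]
      rw [Nat.xor_comm (val c (pos c)), Nat.xor_xor_cancel_right, Nat.xor_comm]

theorem rs_update_ge (pos : ℕ → Option Cq) {c m : ℕ} (h : m ≤ c) (q : Option Cq) :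
    rs (Function.update pos c q) m = rs pos m := by
  induction m with
  | zero => rfl
  | succ m ih => rw [rs, rs, ih (by omega), Function.update_of_ne (by omega)]

theorem rs_update (pos : ℕ → Option Cq) {c m : ℕ} (h : c < m) (q : Option Cq) :
    rs (Function.update pos c q) m + rk c (pos c) = rs pos m + rk c q := by
  induction m with
  | zero => omega
  | succ m ih =>
    rcases Nat.lt_succ_iff_lt_or_eq.mp h with h | rfl
    · have := ih h
      rw [rs, rs, Function.update_of_ne (by omega)]
      omega
    · rw [rs, rs, rs_update_ge pos le_rfl, Function.update_self]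
      omega

theorem exists_lt_of_lt_xs (pos : ℕ → Option Cq) (m : ℕ) : ∀ a, a < xs pos m →
    ∃ c < m, a ^^^ xs pos m ^^^ val c (pos c) < val c (pos c) := by
  induction m with
  | zero => intro a h; simp [xs] at h
  | succ m ih =>
    intro a h
    rw [xs] at h
    rcases Nat.lt_xor_cases h with h | h
    · refine ⟨m, by omega, ?_⟩
      rw [xs, Nat.xor_comm (val m (pos m)), ← Nat.xor_assoc, Nat.xor_xor_cancel_right]
      exact h
    · obtain ⟨c, hc, h⟩ := ih _ h
      refine ⟨c, by omega, ?_⟩
      rw [xs, ← Nat.xor_assoc]
      exact h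

/-- Only the first `m` cells carry tokens. -/
def Supp (m : ℕ) (pos : ℕ → Option Cq) : Prop := ∀ c, m ≤ c → pos c = none

theorem Supp.lt {m : ℕ} {pos : ℕ → Option Cq} (h : Supp m pos) {c : ℕ} {q : Cq}
    (hq : pos c = some q) : c < m := by
  by_contra hc
  rw [h c (by omega)] at hq
  cases hq

theorem Supp.update {m : ℕ} {pos : ℕ → Option Cq} (h : Supp m pos) {c : ℕ} (hc : c < m)
    (q : Option Cq) : Supp m (Function.update pos c q) := by
  intro c' hc'
  rw [Function.update_of_ne (by omega)]
  exact h c' hc'

variable {ν : Type} [DecidableEq ν] {A : AP ν}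

omit [DecidableEq ν] in
theorem off_map (k : Option ℕ) : Off (k.map (K : ℕ → Vx ν)) := by
  intro c q
  cases k <;> simp

omit [DecidableEq ν] in
theorem free_K (pos : ℕ → Option Cq) (j : ℕ) : Free pos (K j : Vx ν) := by
  intro c q h; cases h

theorem reply {k : Option ℕ} {pos : ℕ → Option Cq} (hs : Supp A.m pos)
    (h : k.getD 0 ^^^ xs pos A.m ≠ 0) :
    ∃ (k' : Option ℕ) (pos' : ℕ → Option Cq), Supp A.m pos' ∧ k'.getD 0 ^^^ xs pos' A.m = 0 ∧
      k'.getD 0 + rs pos' A.m < k.getD 0 + rs pos A.m ∧
      (Fo A false (k'.map K) pos' → Fo A true (k.map K) pos) := by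
  rcases lt_trichotomy (k.getD 0) (xs pos A.m) with hlt | heq | hgt
  · obtain ⟨c, hc, hlt'⟩ := exists_lt_of_lt_xs pos A.m _ hlt
    set w := k.getD 0 ^^^ xs pos A.m ^^^ val c (pos c) with hw
    have key : ∃ q, pos c = some q ∧ H w ∈ outc c q ∧ w < rk c (some q) := by
      rcases hq : pos c with _ | q
      · rw [hq] at hlt'; simp [val] at hlt'
      · rw [hq] at hlt'
        cases q with
        | R b => simp [val] at hlt'
        | T b =>
          simp only [val] at hlt'
          exact ⟨_, rfl, by simp [outc]; omega, by simp [rk]; omega⟩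
        | H j =>
          simp only [val] at hlt'
          exact ⟨_, rfl, by simp [outc]; omega, by simpa [rk] using hlt'⟩
    obtain ⟨q, hq, he, hr⟩ := key
    refine ⟨k, Function.update pos c (some (H w)), hs.update hc _, ?_, ?_,
      fun h => W_cell (off_map k) hq he h⟩
    · rw [xs_update pos hc]
      have : val c (some (H w)) = w := rfl
      rw [this, ← Nat.xor_assoc, ← Nat.xor_assoc (k.getD 0) (xs pos A.m), ← hw, Nat.xor_self]
    · have h1 := rs_update pos hc (some (H w))
      rw [hq] at h1
      have : rk c (some (H w)) = w := rfl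
      omega
  · rw [heq] at h; simp at h
  · cases k with
    | none => simp at hgt
    | some j =>
      simp only [Option.getD_some] at hgt
      refine ⟨some (xs pos A.m), pos, hs, by simp, by simpa using hgt, fun h => ?_⟩
      refine W_ctrl (free_K _ _) (v := K (xs pos A.m)) (by simp; omega) ?_ (free_K _ _) h
      simp [out0, hgt]

theorem pure_zero (n : ℕ) : ∀ (k : Option ℕ) (pos : ℕ → Option Cq), Supp A.m pos →
    k.getD 0 ^^^ xs pos A.m = 0 → k.getD 0 + rs pos A.m < n → Fo A false (k.map K) pos := by
  induction n with
  | zero => intro k pos _ _ h; omega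
  | succ n ih =>
    intro k pos hs h0 hn
    have step : ∀ (k' : Option ℕ) (pos' : ℕ → Option Cq), Supp A.m pos' →
        k'.getD 0 ^^^ xs pos' A.m ≠ 0 → k'.getD 0 + rs pos' A.m ≤ n → Fo A true (k'.map K) pos' := by
      intro k' pos' hs' h' hn'
      obtain ⟨k'', pos'', h1, h2, h3, h4⟩ := reply hs' h'
      exact h4 (ih k'' pos'' h1 h2 (by omega))
    refine L_intro (off_map k) ?_ ?_ ?_
    · intro u v hu hv _
      cases k with
      | none => simp at hu
      | some j =>
        simp only [Option.map_some, Option.some.injEq] at hu
        subst hu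
        simp only [out0, List.mem_map, List.mem_range] at hv
        obtain ⟨j', hj', rfl⟩ := hv
        simp only [Option.getD_some, Nat.xor_eq_zero_iff] at h0 hn
        refine step (some j') pos hs ?_ ?_
        · simp; omega
        · simp; omega
    · intro u c q hu hv _
      cases k with
      | none => simp at hu
      | some j =>
        simp only [Option.map_some, Option.some.injEq] at hu
        subst hu
        simp [out0] at hv
    · intro c q q' hq he
      have hc := hs.lt hq
      have h1 := xs_update pos hc (some q')
      have h2 := rs_update pos hc (some q')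
      rw [hq] at h1 h2
      have h3 : val c (some q) ≠ val c (some q') →
          k.getD 0 ^^^ xs (Function.update pos c (some q')) A.m ≠ 0 := by
        intro hne
        rw [h1, ← Nat.xor_assoc, ← Nat.xor_assoc, h0, Nat.zero_xor]
        simpa using hne
      cases q with
      | R b =>
        simp only [outc, List.mem_singleton] at he
        subst he
        refine W_cell (off_map k) (c := c) (q := T (!b)) (q' := H 0) (by simp) (by simp [outc]) ?_
        rw [Function.update_idem]
        refine ih k _ (hs.update hc _) ?_ ?_
        · rw [xs_update pos hc, hq]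
          simpa [val] using h0
        · have h4 := rs_update pos hc (some (H 0))
          rw [hq] at h4
          simp only [rk] at h4
          omega
      | T b =>
        simp only [outc, List.mem_cons, List.mem_map, List.mem_range] at he
        rcases he with rfl | ⟨j, hj, rfl⟩
        · exact step k _ (hs.update hc _) (h3 (by simp [val])) (by simp only [rk] at h2; omega)
        · exact step k _ (hs.update hc _) (h3 (by simp [val]; omega))
            (by simp only [rk] at h2; omega)
      | H j =>
        simp only [outc, List.mem_map, List.mem_range] at he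
        obtain ⟨j', hj, rfl⟩ := he
        exact step k _ (hs.update hc _) (h3 (by simp [val]; omega))
          (by simp only [rk] at h2; omega)

theorem pure_K {pos : ℕ → Option Cq} (hs : Supp A.m pos) :
    Fo A false (some (K (xs pos A.m))) pos :=
  pure_zero _ (some (xs pos A.m)) pos hs (by simp) (Nat.lt_succ_self _)

theorem pure_none {pos : ℕ → Option Cq} (hs : Supp A.m pos) (h : xs pos A.m = 0) :
    Fo A false none pos :=
  pure_zero _ none pos hs (by simpa using h) (Nat.lt_succ_self _)

theorem pure_ne {pos : ℕ → Option Cq} (hs : Supp A.m pos) {j : ℕ} (h : j ≠ xs pos A.m) :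
    Fo A true (some (K j)) pos := by
  obtain ⟨k', pos', h1, h2, _, h4⟩ := reply (A := A) (k := some j) hs (by simpa using h)
  exact h4 (pure_zero _ k' pos' h1 h2 (Nat.lt_succ_self _))

end Pool.Agent.MP_8c4891_lc

end

section

/-! The gadget graph simulates alternating programs. -/

namespace Pool.Agent.MP_8c4891_lc

open Cq Vx

/-- All the cells at rest, storing `mem`. -/
def rest (m : ℕ) (mem : ℕ → Bool) : ℕ → Option Cq :=
  fun c => if c < m then some (R (mem c)) else none

theorem supp_rest (m : ℕ) (mem : ℕ → Bool) : Supp m (rest m mem) := by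
  intro c hc
  simp [rest]; omega

theorem xs_rest (m : ℕ) (mem : ℕ → Bool) (k : ℕ) : xs (rest m mem) k = 0 := by
  induction k with
  | zero => rfl
  | succ k ih =>
    rw [xs, ih]
    simp only [rest]
    split_ifs <;> simp [val]

theorem rest_lt {m c : ℕ} (h : c < m) (mem : ℕ → Bool) : rest m mem c = some (R (mem c)) := by
  simp [rest, h]

theorem rest_update {m c : ℕ} (h : c < m) (mem : ℕ → Bool) (b : Bool) :
    Function.update (rest m mem) c (some (R b)) = rest m (Function.update mem c b) := by
  funext c'
  by_cases hc : c' = c
  · subst hc; simp [rest, h]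
  · simp [rest, hc]

theorem rest_some {m c : ℕ} {mem : ℕ → Bool} {q : Cq} (h : rest m mem c = some q) :
    q = R (mem c) := by
  simp only [rest] at h
  split_ifs at h
  exact (Option.some.inj h).symm

theorem xs_update_rest {m c : ℕ} (h : c < m) (mem : ℕ → Bool) (q : Option Cq) :
    xs (Function.update (rest m mem) c q) m = val c q := by
  rw [xs_update _ h, xs_rest, rest_lt h]
  simp [val]

variable {ν : Type} [DecidableEq ν] {A : AP ν}

/-- Reply on the heap of the control token. -/
theorem W_heap {u : Vx ν} {l : List (Vx ν)} {e : ℕ} (hu : ∀ c q, u ≠ X c q) (hu' : ∀ j, u ≠ K j)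
    (ho : out0 A u = l ++ ks A.m e) {pos : ℕ → Option Cq} (hs : Supp A.m pos)
    (h0 : xs pos A.m ≠ 0) (he : xs pos A.m ≠ e) (hle : xs pos A.m ≤ 2 * A.m) :
    Fo A true (some u) pos := by
  refine W_ctrl (fun c q h => absurd h (hu c q)) (hu' _) ?_ (free_K _ _) (pure_K hs)
  rw [ho, List.mem_append, mem_ks]
  exact Or.inr ⟨_, hle, h0, he, rfl⟩

theorem L_ctrl {u : Vx ν} {l : List (Vx ν)} {e : ℕ} (hu : ∀ c q, u ≠ X c q) (hu' : ∀ j, u ≠ K j)
    (ho : out0 A u = l ++ ks A.m e) (hem : e ≤ A.m) {pos : ℕ → Option Cq} (hs : Supp A.m pos)
    (hx : xs pos A.m = 0 ∨ xs pos A.m = e)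
    (hl : ∀ v ∈ l, (∃ c q, v = X c q ∧ pos c ≠ some q) ∨
      ((∀ c q, v ≠ X c q) ∧ Fo A true (some v) pos))
    (hc : ∀ c q, pos c = some q → (∃ b, q = R b ∧ c + 1 ≠ e) ∨
      ∀ q' ∈ outc c q, Fo A true (some u) (Function.update pos c (some q'))) :
    Fo A false (some u) pos := by
  refine L_intro (fun c q h => hu c q (Option.some.inj h)) ?_ ?_ ?_
  · intro u' v hu'' hv hf
    obtain rfl := Option.some.inj hu''
    rw [ho, List.mem_append, mem_ks] at hv
    rcases hv with hv | ⟨j, -, h0, he, rfl⟩
    · rcases hl v hv with ⟨c, q, rfl, -⟩ | ⟨-, h⟩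
      · refine W_ctrl hf (v := K (xs pos A.m)) (by simp) ?_ (free_K _ _) (pure_K hs)
        simp only [out0, List.mem_map, List.mem_range]
        exact ⟨_, by omega, rfl⟩
      · exact h
    · exact pure_ne hs (by omega)
  · intro u' c q hu'' hv hq
    obtain rfl := Option.some.inj hu''
    rw [ho, List.mem_append, mem_ks] at hv
    rcases hv with hv | ⟨j, -, -, -, h⟩
    · rcases hl _ hv with ⟨c', q', h, h'⟩ | ⟨h, -⟩
      · cases h
        exact absurd hq h'
      · exact absurd rfl (h c q)
    · cases h
  · intro c q q' hq he
    rcases hc c q hq with ⟨b, rfl, hne⟩ | h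
    · simp only [outc, List.mem_singleton] at he
      subst he
      have hcm := hs.lt hq
      have h1 : xs (Function.update pos c (some (T (!b)))) A.m = xs pos A.m ^^^ (c + 1) := by
        rw [xs_update pos hcm, hq]
        simp [val]
      have h2 := xor_le_add (xs pos A.m) (c + 1)
      refine W_heap hu hu' ho (hs.update hcm _) ?_ ?_ ?_ <;> rw [h1]
      · rcases hx with hx | hx <;> rw [hx] <;> simp
        omega
      · rcases hx with hx | hx <;> rw [hx]
        · simpa using hne
        · intro h
          have := congrArg (fun z => e ^^^ z) h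
          simp at this
      · omega
    · exact h q' he

/-- Moves of the active cell in transit to its heap are punished. -/
theorem W_drop {u : Vx ν} {l : List (Vx ν)} {c : ℕ} (hu : ∀ c q, u ≠ X c q) (hu' : ∀ j, u ≠ K j)
    (ho : out0 A u = l ++ ks A.m (c + 1)) (hc : c < A.m) (h0 : X c (H 0) ∈ l) (mem : ℕ → Bool)
    {j : ℕ} (hj : j < c + 1) :
    Fo A true (some u) (Function.update (rest A.m mem) c (some (H j))) := by
  rcases Nat.eq_zero_or_pos j with rfl | hpos
  · refine W_att (fun c q h => absurd h (hu c q)) (c := c) (q := H 0) ?_ (by simp) ?_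
    · rw [ho]; exact List.mem_append_left _ h0
    · rw [Function.update_idem]
      exact pure_none ((supp_rest _ _).update hc _) (by rw [xs_update_rest hc]; rfl)
  · refine W_heap hu hu' ho ((supp_rest _ _).update hc _) ?_ ?_ ?_ <;>
      rw [xs_update_rest hc] <;> simp only [val] <;> omega

theorem W_att_rest {u : Vx ν} (hu : ∀ c q, u ≠ X c q) {c : ℕ} (hc : c < A.m) {q : Cq}
    (he : X c q ∈ out0 A u) (mem : ℕ → Bool) :
    Fo A true (some u) (Function.update (rest A.m mem) c (some q)) := by
  refine W_att (fun c q h => absurd h (hu c q)) he (by simp) ?_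
  rw [Function.update_idem]
  exact pure_none ((supp_rest _ _).update hc _) (by rw [xs_update_rest hc]; rfl)

theorem other_rest {m c : ℕ} {mem : ℕ → Bool} {q : Option Cq} {c' : ℕ} {q' : Cq} (h : c' ≠ c)
    (hq : Function.update (rest m mem) c q c' = some q') : ∃ b, q' = R b ∧ c' + 1 ≠ c + 1 := by
  rw [Function.update_of_ne h] at hq
  exact ⟨_, rest_some hq, by omega⟩

theorem step4 {c : ℕ} (hc : c < A.m) (b : Bool) (a : ν) (p r : Bool) (mem : ℕ → Bool)
    (h : Fo A r (some (N a p)) (Function.update (rest A.m mem) c (some (R (!b))))) :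
    Fo A (!r) (some (W2 c b a p)) (Function.update (rest A.m mem) c (some (R (!b)))) := by
  cases r with
  | false =>
    exact W_ctrl (by intro _ _ h; cases h) (by simp) (by simp [out0]) (by intro _ _ h; cases h) h
  | true =>
    refine L_ctrl (by simp) (by simp) rfl hc ((supp_rest _ _).update hc _)
      (Or.inl (by rw [xs_update_rest hc]; rfl)) ?_ ?_
    · intro v hv
      simp only [List.mem_cons, List.not_mem_nil, or_false] at hv
      rcases hv with rfl | rfl | rfl | rfl
      · exact Or.inr ⟨by simp, h⟩
      · exact Or.inl ⟨_, _, rfl, by simp⟩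
      · exact Or.inl ⟨_, _, rfl, by simp⟩
      · exact Or.inl ⟨_, _, rfl, by simp⟩
    · intro c' q hq
      by_cases hcc : c' = c
      · subst hcc
        right
        intro q' hq'
        simp only [Function.update_self, Option.some.injEq] at hq
        subst hq
        simp only [outc, Bool.not_not, List.mem_singleton] at hq'
        subst hq'
        rw [Function.update_idem]
        exact W_att_rest (by simp) hc (by simp [out0]) mem
      · exact Or.inl (other_rest hcc hq)

theorem step3 {c : ℕ} (hc : c < A.m) (b : Bool) (a : ν) (p r : Bool) (mem : ℕ → Bool)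
    (h : Fo A r (some (W2 c b a p)) (Function.update (rest A.m mem) c (some (R (!b))))) :
    Fo A (!r) (some (W2 c b a p)) (Function.update (rest A.m mem) c (some (T (!b)))) := by
  cases r with
  | false =>
    refine W_cell (by intro _ _ h; cases h) (c := c) (q := T (!b)) (q' := R (!b)) (by simp)
      (by simp [outc]) ?_
    rwa [Function.update_idem]
  | true =>
    refine L_ctrl (by simp) (by simp) rfl hc ((supp_rest _ _).update hc _)
      (Or.inr (by rw [xs_update_rest hc]; rfl)) ?_ ?_
    · intro v hv
      simp only [List.mem_cons, List.not_mem_nil, or_false] at hv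
      rcases hv with rfl | rfl | rfl | rfl
      · refine Or.inr ⟨by simp, W_heap (by simp) (by simp) rfl ((supp_rest _ _).update hc _)
          ?_ ?_ ?_⟩ <;> rw [xs_update_rest hc] <;> simp only [val] <;> omega
      · exact Or.inl ⟨_, _, rfl, by simp⟩
      · exact Or.inl ⟨_, _, rfl, by simp⟩
      · exact Or.inl ⟨_, _, rfl, by simp⟩
    · intro c' q hq
      by_cases hcc : c' = c
      · subst hcc
        right
        intro q' hq'
        simp only [Function.update_self, Option.some.injEq] at hq
        subst hq
        rw [Function.update_idem]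
        simp only [outc, List.mem_cons, List.mem_map, List.mem_range] at hq'
        rcases hq' with rfl | ⟨j, hj, rfl⟩
        · exact h
        · exact W_drop (by simp) (by simp) rfl hc (by simp) mem hj
      · exact Or.inl (other_rest hcc hq)

theorem step2 {c : ℕ} (hc : c < A.m) (b : Bool) (a : ν) (p r : Bool) (mem : ℕ → Bool)
    (h : Fo A r (some (W2 c b a p)) (Function.update (rest A.m mem) c (some (T (!b))))) :
    Fo A (!r) (some (W1 c b a p)) (Function.update (rest A.m mem) c (some (T (!b)))) := by
  cases r with
  | false =>
    exact W_ctrl (by intro _ _ h; cases h) (by simp) (by simp [out0]) (by intro _ _ h; cases h) h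
  | true =>
    refine L_ctrl (by simp) (by simp) rfl hc ((supp_rest _ _).update hc _)
      (Or.inr (by rw [xs_update_rest hc]; rfl)) ?_ ?_
    · intro v hv
      simp only [List.mem_cons, List.not_mem_nil, or_false] at hv
      rcases hv with rfl | rfl | rfl
      · exact Or.inr ⟨by simp, h⟩
      · exact Or.inl ⟨_, _, rfl, by simp⟩
      · exact Or.inl ⟨_, _, rfl, by simp⟩
    · intro c' q hq
      by_cases hcc : c' = c
      · subst hcc
        right
        intro q' hq'
        simp only [Function.update_self, Option.some.injEq] at hq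
        subst hq
        rw [Function.update_idem]
        simp only [outc, List.mem_cons, List.mem_map, List.mem_range] at hq'
        rcases hq' with rfl | ⟨j, hj, rfl⟩
        · exact W_att_rest (by simp) hc (by simp [out0]) mem
        · exact W_drop (by simp) (by simp) rfl hc (by simp) mem hj
      · exact Or.inl (other_rest hcc hq)

theorem step1 {c : ℕ} (hc : c < A.m) (b : Bool) (a : ν) (p r : Bool) (mem : ℕ → Bool)
    (h : Fo A r (some (W1 c b a p)) (Function.update (rest A.m mem) c (some (T (!b))))) :
    Fo A (!r) (some (W1 c b a p)) (Function.update (rest A.m mem) c (some (R b))) := by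
  cases r with
  | false =>
    refine W_cell (by intro _ _ h; cases h) (c := c) (q := R b) (q' := T (!b)) (by simp)
      (by simp [outc]) ?_
    rwa [Function.update_idem]
  | true =>
    refine L_ctrl (by simp) (by simp) rfl hc ((supp_rest _ _).update hc _)
      (Or.inl (by rw [xs_update_rest hc]; rfl)) ?_ ?_
    · intro v hv
      simp only [List.mem_cons, List.not_mem_nil, or_false] at hv
      rcases hv with rfl | rfl | rfl
      · exact Or.inr ⟨by simp, W_att_rest (by simp) hc (by simp [out0]) mem⟩
      · exact Or.inl ⟨_, _, rfl, by simp⟩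
      · exact Or.inl ⟨_, _, rfl, by simp⟩
    · intro c' q hq
      by_cases hcc : c' = c
      · subst hcc
        right
        intro q' hq'
        simp only [Function.update_self, Option.some.injEq] at hq
        subst hq
        rw [Function.update_idem]
        simp only [outc, List.mem_singleton] at hq'
        subst hq'
        exact h
      · exact Or.inl (other_rest hcc hq)

theorem flip_ok {c : ℕ} (hc : c < A.m) (a : ν) (p r : Bool) (mem : ℕ → Bool)
    (h : Fo A r (some (N a p)) (rest A.m (Function.update mem c (!mem c)))) :
    Fo A r (some (W1 c (mem c) a p)) (rest A.m mem) := by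
  rw [← rest_update hc] at h
  have := step1 hc _ a p _ mem (step2 hc _ a p _ mem (step3 hc _ a p _ mem
    (step4 hc _ a p _ mem h)))
  rw [rest_update hc, Function.update_eq_self] at this
  simpa using this

theorem flip_bad {c : ℕ} (hc : c < A.m) (a : ν) (p : Bool) (mem : ℕ → Bool) :
    Fo A true (some (W1 c (!mem c) a p)) (rest A.m mem) := by
  have := W_att_rest (A := A) (u := W1 c (!mem c) a p) (by simp) hc (q := R (mem c))
    (by simp [out0]) mem
  rwa [rest_update hc, Function.update_eq_self] at this

theorem pass {a : ν} {p r : Bool} (ho : A.own a = !p) {mem : ℕ → Bool}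
    (h : Fo A r (some (N a (!p))) (rest A.m mem)) : Fo A (!r) (some (N a p)) (rest A.m mem) := by
  have hne : A.own a ≠ p := by rw [ho]; simp
  cases r with
  | false =>
    exact W_ctrl (by intro _ _ h; cases h) (by simp) (by simp [out0, hne])
      (by intro _ _ h; cases h) h
  | true =>
    refine L_ctrl (l := [N a (!p)]) (e := 0) (by simp) (by simp) (by simp [out0, hne])
      (Nat.zero_le _) (supp_rest _ _) (Or.inl (xs_rest _ _ _)) ?_ ?_
    · intro v hv
      simp only [List.mem_singleton] at hv
      subst hv
      exact Or.inr ⟨by simp, h⟩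
    · intro c q hq
      exact Or.inl ⟨_, rest_some hq, by omega⟩

theorem simulate (hA : ∀ a, ∀ f ∈ A.fl a, f.1 < A.m) {r : Bool} {a : ν} {mem : ℕ → Bool}
    (h : Res A r a mem) :
    Fo A true (some (N a r)) (rest A.m mem) ∧ Fo A false (some (N a (!r))) (rest A.m mem) := by
  induction h with
  | @pick a mem a' mem' ho ht _ ih =>
    have h1 : Fo A true (some (N a r)) (rest A.m mem) := by
      rcases ht with ⟨ht, rfl⟩ | ⟨c, ht, rfl⟩
      · refine W_ctrl (by intro _ _ h; cases h) (v := N a' (!r)) (by simp) ?_
          (by intro _ _ h; cases h) ih.2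
        simp only [out0, ho, if_true, List.mem_append, List.mem_map]
        exact Or.inl (Or.inl ⟨a', ht, rfl⟩)
      · refine W_ctrl (by intro _ _ h; cases h) (v := W1 c (mem c) a' (!r)) (by simp) ?_
          (by intro _ _ h; cases h) (flip_ok (hA a _ ht) a' _ _ mem ih.2)
        simp only [out0, ho, if_true, List.mem_append, List.mem_map]
        exact Or.inl (Or.inr ⟨_, ht, rfl⟩)
    refine ⟨h1, ?_⟩
    have := pass (A := A) (a := a) (p := !r) (r := true) (by simpa using ho) (by simpa using h1)
    simpa using this
  | @all a mem ho _ ih =>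
    have h1 : Fo A false (some (N a (!r))) (rest A.m mem) := by
      refine L_ctrl (e := 0) (by simp) (by simp) rfl (Nat.zero_le _) (supp_rest _ _)
        (Or.inl (xs_rest _ _ _)) ?_ ?_
      · intro v hv
        simp only [ho, if_true, List.mem_append, List.mem_map, Bool.not_not] at hv
        rcases hv with ⟨a', ht, rfl⟩ | ⟨⟨c, b, a'⟩, ht, rfl⟩
        · exact Or.inr ⟨by simp, (ih a' mem (Or.inl ⟨ht, rfl⟩)).1⟩
        · refine Or.inr ⟨by simp, ?_⟩
          have hc : c < A.m := hA a _ ht
          by_cases hb : b = mem c
          · subst hb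
            exact flip_ok hc a' _ _ mem (ih a' _ (Or.inr ⟨c, ht, rfl⟩)).1
          · have : b = !mem c := by cases b <;> simp_all
            subst this
            exact flip_bad hc a' _ mem
      · intro c q hq
        exact Or.inl ⟨_, rest_some hq, by omega⟩
    refine ⟨?_, h1⟩
    have := pass (A := A) (a := a) (p := r) (r := false) ho h1
    simpa using this

/-- The player `true` moving first from the node `a` wins exactly as in the program. -/
theorem simulate' (hA : ∀ a, ∀ f ∈ A.fl a, f.1 < A.m) {r : Bool} {a : ν} {mem : ℕ → Bool}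
    (h : Res A r a mem) : Fo A r (some (N a true)) (rest A.m mem) := by
  cases r with
  | true => exact (simulate hA h).1
  | false => exact (simulate hA h).2

end Pool.Agent.MP_8c4891_lc

end

section

/-! Cutting a finite closed part out of the gadget graph and numbering its vertices. -/

namespace Pool.Agent.MP_8c4891_lc

theorem Forces.map {S S' : Type} {Mv : S → S → Prop} {Mv' : S' → S' → Prop} (f : S → S')
    (Inv : S → Prop) (h1 : ∀ p q, Inv p → Mv p q → Inv q ∧ Mv' (f p) (f q))
    (h2 : ∀ p q', Inv p → Mv' (f p) q' → ∃ q, Mv p q ∧ q' = f q) {b : Bool} {p : S}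
    (h : Forces Mv b p) : Inv p → Forces Mv' b (f p) := by
  induction h with
  | win hm _ ih => intro hp; exact Forces.win (h1 _ _ hp hm).2 (ih (h1 _ _ hp hm).1)
  | lose _ ih =>
    intro hp
    refine Forces.lose fun q' hq' => ?_
    obtain ⟨q, hq, rfl⟩ := h2 _ _ hp hq'
    exact ih q hq (h1 _ _ hp hq).1

/-- The two token types. -/
def ty (b : Bool) : Fin 2 := if b then 1 else 0

theorem ty_injective : Function.Injective ty := by decide

theorem ty_surjective : Function.Surjective ty := by decide

section transfer

variable {V : Type} (φ : V → ℕ) (U : V → Prop) (n : ℕ)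

open Classical in
/-- Transport of a placement along the numbering. -/
noncomputable def push (p : V → Option Bool) (u : Fin n) : Option (Fin 2) :=
  if h : ∃ a, U a ∧ φ a = u then (p h.choose).map ty else none

variable {φ U n}

theorem push_apply (hφ : Function.Injective φ) (p : V → Option Bool) {a : V} (ha : U a)
    {u : Fin n} (hu : φ a = u) : push φ U n p u = (p a).map ty := by
  have h : ∃ a, U a ∧ φ a = u := ⟨a, ha, hu⟩
  rw [push, dif_pos h, hφ (h.choose_spec.2.trans hu.symm)]

theorem push_eq_some (hφ : Function.Injective φ) (p : V → Option Bool) (u : Fin n) (i : Bool) :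
    push φ U n p u = some (ty i) ↔ ∃ a, U a ∧ φ a = u ∧ p a = some i := by
  constructor
  · intro h
    by_cases h1 : ∃ a, U a ∧ φ a = u
    · obtain ⟨a, ha, hu⟩ := h1
      rw [push_apply hφ p ha hu, Option.map_eq_some_iff] at h
      obtain ⟨j, hj, hj'⟩ := h
      exact ⟨a, ha, hu, by rw [hj, ty_injective hj']⟩
    · rw [push, dif_neg h1] at h
      cases h
  · rintro ⟨a, ha, hu, h⟩
    rw [push_apply hφ p ha hu, h]
    rfl

theorem push_update [DecidableEq V] (hφ : Function.Injective φ) (p : V → Option Bool) {a : V}
    (ha : U a) {u : Fin n} (hu : φ a = u) (o : Option Bool) :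
    push φ U n (Function.update p a o) = Function.update (push φ U n p) u (o.map ty) := by
  funext w
  by_cases hw : w = u
  · subst hw
    rw [push_apply hφ _ ha hu, Function.update_self, Function.update_self]
  · rw [Function.update_of_ne hw]
    by_cases h1 : ∃ a, U a ∧ φ a = w
    · obtain ⟨b, hb, hw'⟩ := h1
      rw [push_apply hφ _ hb hw', push_apply hφ _ hb hw', Function.update_of_ne]
      rintro rfl
      exact hw (Fin.ext (hw'.symm.trans hu))
    · rw [push, push, dif_neg h1, dif_neg h1]

theorem transfer [DecidableEq V] (hφ : Function.Injective φ) {E : Bool → V → V → Prop}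
    (hU : ∀ i a b, U a → E i a b → U b) (hn : ∀ a, U a → φ a < n)
    {E' : Fin 2 → Fin n → Fin n → Prop}
    (hE : ∀ i u v, E' (ty i) u v ↔ ∃ a b, U a ∧ E i a b ∧ φ a = u ∧ φ b = v)
    {r : Bool} {p : V → Option Bool} (h : Forces (Move E) r p) (hp : ∀ a i, p a = some i → U a) :
    Forces (Move E') r (push φ U n p) := by
  have key : ∀ (p : V → Option Bool) (i : Bool) (a b : V) (u v : Fin n), U a → U b → φ a = u →
      φ b = v → push φ U n (Function.update (Function.update p a none) b
        (if (p b).isSome then none else some i)) =
      Function.update (Function.update (push φ U n p) u none) v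
        (if (push φ U n p v).isSome then none else some (ty i)) := by
    intro p i a b u v ha hb hu hv
    rw [push_update hφ _ hb hv, push_update hφ _ ha hu, push_apply hφ p hb hv]
    cases p b <;> rfl
  refine Forces.map (push φ U n) (fun p => ∀ a i, p a = some i → U a) ?_ ?_ h hp
  · rintro p q hp ⟨i, a, b, h1, h2, rfl⟩
    have ha := hp a i h1
    have hb := hU i a b ha h2
    constructor
    · intro c j hc
      by_cases hcb : c = b
      · rwa [hcb]
      · rw [Function.update_of_ne hcb] at hc
        by_cases hca : c = a
        · rwa [hca]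
        · rw [Function.update_of_ne hca] at hc
          exact hp c j hc
    · exact ⟨ty i, ⟨φ a, hn a ha⟩, ⟨φ b, hn b hb⟩, (push_eq_some hφ p _ i).2 ⟨a, ha, rfl, h1⟩,
        (hE i _ _).2 ⟨a, b, ha, h2, rfl, rfl⟩, key p i a b _ _ ha hb rfl rfl⟩
  · rintro p q' hp ⟨i', u, v, h1, h2, rfl⟩
    obtain ⟨i, rfl⟩ := ty_surjective i'
    obtain ⟨a, b, ha, he, hu, hv⟩ := (hE i u v).1 h2
    obtain ⟨a', -, hu', h3⟩ := (push_eq_some hφ p u i).1 h1
    obtain rfl : a = a' := hφ (hu.trans hu'.symm)
    exact ⟨_, ⟨i, a, b, h3, he, rfl⟩, (key p i a b u v ha (hU i a b ha he) hu hv).symm⟩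

end transfer

open Cq Vx

variable {ν : Type}

/-- The vertices that matter. -/
def verts (A : AP ν) (nodes : List ν) : List (Vx ν) :=
  nodes.flatMap (fun a => [N a false, N a true] ++ (A.fl a).flatMap (fun f =>
    [W1 f.1 f.2.1 f.2.2 false, W1 f.1 f.2.1 f.2.2 true,
      W2 f.1 f.2.1 f.2.2 false, W2 f.1 f.2.1 f.2.2 true])) ++
  (List.range (2 * A.m + 1)).map K ++
  (List.range A.m).flatMap (fun c => [X c (R false), X c (R true), X c (T false), X c (T true)] ++
    (List.range (c + 1)).map (fun j => X c (H j)))

variable {A : AP ν} {nodes : List ν}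

theorem N_mem {a : ν} {p : Bool} : N a p ∈ verts A nodes ↔ a ∈ nodes := by
  cases p <;> simp [verts]

theorem W1_mem {c : ℕ} {b : Bool} {a' : ν} {p : Bool} :
    W1 c b a' p ∈ verts A nodes ↔ ∃ a ∈ nodes, (c, b, a') ∈ A.fl a := by
  cases p <;> simp [verts]

theorem W2_mem {c : ℕ} {b : Bool} {a' : ν} {p : Bool} :
    W2 c b a' p ∈ verts A nodes ↔ ∃ a ∈ nodes, (c, b, a') ∈ A.fl a := by
  cases p <;> simp [verts]

theorem K_mem {j : ℕ} : K j ∈ verts A nodes ↔ j ≤ 2 * A.m := by
  simp [verts]

theorem R_mem {c : ℕ} {b : Bool} : X c (R b) ∈ verts A nodes ↔ c < A.m := by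
  cases b <;> simp [verts]

theorem T_mem {c : ℕ} {b : Bool} : X c (T b) ∈ verts A nodes ↔ c < A.m := by
  cases b <;> simp [verts]

theorem H_mem {c j : ℕ} : X c (H j) ∈ verts A nodes ↔ c < A.m ∧ j ≤ c := by
  simp [verts]

theorem verts_closed (h1 : ∀ a, ∀ f ∈ A.fl a, f.1 < A.m)
    (h2 : ∀ a ∈ nodes, ∀ a' ∈ A.pl a, a' ∈ nodes) (h3 : ∀ a ∈ nodes, ∀ f ∈ A.fl a, f.2.2 ∈ nodes)
    (i : Bool) (u v : Vx ν) (hu : u ∈ verts A nodes) (he : Edge A i u v) : v ∈ verts A nodes := by
  cases i with
  | false =>
    simp only [Edge, Bool.false_eq_true, if_false] at he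
    cases u with
    | N a p =>
      rw [N_mem] at hu
      simp only [out0, List.mem_append, mem_ks] at he
      rcases he with he | ⟨j, hj, -, -, rfl⟩
      · split_ifs at he
        · simp only [List.mem_append, List.mem_map] at he
          rcases he with ⟨a', ha', rfl⟩ | ⟨f, hf, rfl⟩
          · exact N_mem.2 (h2 a hu a' ha')
          · exact W1_mem.2 ⟨a, hu, hf⟩
        · simp only [List.mem_singleton] at he
          subst he
          exact N_mem.2 hu
      · exact K_mem.2 hj
    | W1 c b a' p =>
      obtain ⟨a, ha, hf⟩ := W1_mem.1 hu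
      have hc : c < A.m := h1 a _ hf
      simp only [out0, List.mem_append, mem_ks, List.mem_cons, List.not_mem_nil, or_false] at he
      rcases he with (rfl | rfl | rfl) | ⟨j, hj, -, -, rfl⟩
      · exact W2_mem.2 ⟨a, ha, hf⟩
      · exact R_mem.2 hc
      · exact H_mem.2 ⟨hc, Nat.zero_le _⟩
      · exact K_mem.2 hj
    | W2 c b a' p =>
      obtain ⟨a, ha, hf⟩ := W2_mem.1 hu
      have hc : c < A.m := h1 a _ hf
      simp only [out0, List.mem_append, mem_ks, List.mem_cons, List.not_mem_nil, or_false] at he
      rcases he with (rfl | rfl | rfl | rfl) | ⟨j, hj, -, -, rfl⟩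
      · exact N_mem.2 (h3 a ha _ hf)
      · exact R_mem.2 hc
      · exact H_mem.2 ⟨hc, Nat.zero_le _⟩
      · exact T_mem.2 hc
      · exact K_mem.2 hj
    | K j =>
      rw [K_mem] at hu
      simp only [out0, List.mem_map, List.mem_range] at he
      obtain ⟨j', hj, rfl⟩ := he
      exact K_mem.2 (by omega)
    | X c q =>
      simp only [out0, List.mem_map, List.mem_range] at he
      obtain ⟨j', hj, rfl⟩ := he
      exact K_mem.2 (by omega)
  | true =>
    simp only [Edge, if_true] at he
    cases u with
    | X c q =>
      simp only [out1, List.mem_map] at he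
      obtain ⟨q', hq, rfl⟩ := he
      cases q with
      | R b =>
        simp only [outc, List.mem_singleton] at hq
        subst hq
        exact T_mem.2 (R_mem.1 hu)
      | T b =>
        simp only [outc, List.mem_cons, List.mem_map, List.mem_range] at hq
        rcases hq with rfl | ⟨j, hj, rfl⟩
        · exact R_mem.2 (T_mem.1 hu)
        · exact H_mem.2 ⟨T_mem.1 hu, by omega⟩
      | H j =>
        simp only [outc, List.mem_map, List.mem_range] at hq
        obtain ⟨j', hj, rfl⟩ := hq
        rw [H_mem] at hu ⊢
        omega
    | _ => simp [out1] at he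

theorem edge_irrefl (i : Bool) (u : Vx ν) : ¬ Edge A i u u := by
  intro he
  cases i with
  | false =>
    simp only [Edge, Bool.false_eq_true, if_false] at he
    cases u with
    | N a p =>
      simp only [out0, List.mem_append, mem_ks] at he
      split_ifs at he <;> simp at he
    | W1 c b a p => simp [out0, mem_ks] at he
    | W2 c b a p => simp [out0, mem_ks] at he
    | K j => simp [out0] at he
    | X c q => simp [out0] at he
  | true =>
    simp only [Edge, if_true] at he
    cases u with
    | X c q =>
      simp only [out1, List.mem_map, X.injEq, true_and, exists_eq_right] at he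
      exact outc_ne he rfl
    | _ => simp [out1] at he

end Pool.Agent.MP_8c4891_lc

end
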