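import Pool.Agent.MP_9e68e9_lc.Defs

section

/-! The fractional domatic number through random dominating sets. -/

namespace Pool.Agent.MP_9e68e9_lc

open Finset

/-- Indicator of a Boolean. -/
def ind (b : Bool) : ℝ := if b then 1 else 0

@[simp] theorem ind_true : ind true = 1 := rfl
@[simp] theorem ind_false : ind false = 0 := rfl
theorem ind_nonneg (b : Bool) : 0 ≤ ind b := by cases b <;> simp
theorem ind_le_one (b : Bool) : ind b ≤ 1 := by cases b <;> simp

/-- The set of vertices marked `true` is dominating. -/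
def Dominates {V : Type} (G : SimpleGraph V) (x : V → Bool) : Prop :=
  ∀ v, x v = true ∨ ∃ u, G.Adj v u ∧ x u = true

/-- There is a random dominating set containing each vertex with probability at most `p`. -/
def Feas {V : Type} [Fintype V] [DecidableEq V] (G : SimpleGraph V) (p : ℝ) : Prop :=
  ∃ μ : (V → Bool) → ℝ, (∀ x, 0 ≤ μ x) ∧ ∑ x, μ x = 1 ∧ (∀ x, μ x ≠ 0 → Dominates G x) ∧
    ∀ v, ∑ x, μ x * ind (x v) ≤ p

variable {V : Type} [Fintype V] [DecidableEq V] {G : SimpleGraph V}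

theorem Feas.mono {p q : ℝ} (h : Feas G p) (hpq : p ≤ q) : Feas G q := by
  obtain ⟨μ, h1, h2, h3, h4⟩ := h
  exact ⟨μ, h1, h2, h3, fun v => (h4 v).trans hpq⟩

theorem feas_of_forall_gt {p : ℝ} (h : ∀ q, p < q → Feas G q) : Feas G p := by
  let S : ℕ → Set ((V → Bool) → ℝ) := fun n =>
    {μ | (∀ x, 0 ≤ μ x) ∧ ∑ x, μ x = 1 ∧ (∀ x, ¬ Dominates G x → μ x = 0) ∧
      ∀ v, ∑ x, μ x * ind (x v) ≤ p + 1 / ((n : ℝ) + 1)}
  have hcl : ∀ n, IsClosed (S n) := by
    intro n
    simp only [S, Set.ofPred_and, Set.ofPred_forall]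
    refine IsClosed.inter (isClosed_iInter fun x => isClosed_le (by fun_prop) (by fun_prop))
      (IsClosed.inter (isClosed_eq (by fun_prop) (by fun_prop)) (IsClosed.inter
        (isClosed_iInter fun x => isClosed_iInter fun _ => isClosed_eq (by fun_prop) (by fun_prop))
        (isClosed_iInter fun x => isClosed_le (by fun_prop) (by fun_prop))))
  have hne : ∀ n, (S n).Nonempty := by
    intro n
    obtain ⟨μ, h1, h2, h3, h4⟩ := h (p + 1 / ((n : ℝ) + 1)) (by
      have : (0 : ℝ) < 1 / ((n : ℝ) + 1) := by positivity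
      linarith)
    exact ⟨μ, h1, h2, fun x hx => by_contra fun e => hx (h3 x e), h4⟩
  have hdec : ∀ n, S (n + 1) ⊆ S n := by
    rintro n μ ⟨h1, h2, h3, h4⟩
    refine ⟨h1, h2, h3, fun v => (h4 v).trans ?_⟩
    have : 1 / (((n + 1 : ℕ) : ℝ) + 1) ≤ 1 / ((n : ℝ) + 1) :=
      one_div_le_one_div_of_le (by positivity) (by push_cast; linarith)
    linarith
  have hco : IsCompact (S 0) :=
    (isCompact_stdSimplex ℝ (V → Bool)).of_isClosed_subset (hcl 0) fun μ hμ => ⟨hμ.1, hμ.2.1⟩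
  obtain ⟨μ, hμ⟩ := IsCompact.nonempty_iInter_of_sequence_nonempty_isCompact_isClosed S hdec hne
    hco hcl
  rw [Set.mem_iInter] at hμ
  refine ⟨μ, (hμ 0).1, (hμ 0).2.1, fun x hx => by_contra fun e => hx ((hμ 0).2.2.1 x e),
    fun v => le_of_forall_pos_le_add fun ε hε => ?_⟩
  obtain ⟨n, hn⟩ := exists_nat_one_div_lt hε
  exact ((hμ n).2.2.2 v).trans (by linarith)

theorem feas_of_colouring {a b : ℕ} (hb : 1 ≤ b) (hab : b ≤ a) {φ : V → Finset (Fin a)}
    (h : IsDomColouring G a b φ) : Feas G ((b : ℝ) / a) := by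
  classical
  have ha : (0 : ℝ) < a := by exact_mod_cast (by omega : 0 < a)
  let X : Fin a → V → Bool := fun c v => decide (c ∈ φ v)
  have key : ∀ f : (V → Bool) → ℝ,
      ∑ x, (∑ c, if X c = x then (1 : ℝ) / a else 0) * f x = ∑ c, 1 / a * f (X c) := by
    intro f
    simp only [Finset.sum_mul, ite_mul, zero_mul]
    rw [Finset.sum_comm]
    simp
  refine ⟨fun x => ∑ c, if X c = x then (1 : ℝ) / a else 0, fun x => ?_, ?_, fun x hx => ?_,
    fun v => ?_⟩
  · exact Finset.sum_nonneg fun c _ => by split_ifs <;> positivity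
  · have := key fun _ => 1
    simp only [mul_one] at this
    rw [this]
    simp
    field_simp
  · obtain ⟨c, -, hc⟩ := Finset.exists_ne_zero_of_sum_ne_zero hx
    have e : X c = x := by
      by_contra e
      simp [e] at hc
    subst e
    intro v
    rcases h.2 c v with h1 | ⟨u, h1, h2⟩
    · exact Or.inl (by simpa [X] using h1)
    · exact Or.inr ⟨u, h1, by simpa [X] using h2⟩
  · rw [key fun x => ind (x v), ← Finset.mul_sum]
    have : ∑ c, ind (X c v) = b := by
      simp only [X, ind, decide_eq_true_eq, Finset.sum_boole, Finset.filter_mem_eq_inter,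
        Finset.univ_inter, h.1 v]
    rw [this]
    exact le_of_eq (by ring)

theorem exists_colouring {p : ℝ} (hp : 0 < p) (hp1 : p < 1) (h : Feas G p) {s : ℝ}
    (hs : s < 1 / p) : ∃ (a b : ℕ) (φ : V → Finset (Fin a)),
      1 ≤ b ∧ b ≤ a ∧ IsDomColouring G a b φ ∧ s < (a : ℝ) / b := by
  classical
  obtain ⟨μ, h1, h2, h3, h4⟩ := h
  obtain ⟨C, hC⟩ : ∃ C : ℝ, C = (Fintype.card (V → Bool) : ℝ) := ⟨_, rfl⟩
  have hsp : s * p < 1 := by rwa [lt_div_iff₀ hp] at hs
  obtain ⟨N, hN⟩ := exists_nat_gt (max (1 / p) (max (C / (1 - p)) (C / (1 - s * p))))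
  simp only [max_lt_iff] at hN
  obtain ⟨hN1, hN2, hN3⟩ := hN
  rw [div_lt_iff₀ hp] at hN1
  rw [div_lt_iff₀ (by linarith)] at hN2 hN3
  have hN0 : (0 : ℝ) < N := by
    by_contra hh
    nlinarith
  let m : (V → Bool) → ℕ := fun x => ⌊N * μ x⌋₊
  let I := Σ x : V → Bool, Fin (m x)
  let a := Fintype.card I
  let e : I ≃ Fin a := Fintype.equivFin I
  let b := ⌊N * p⌋₊
  have ha : (a : ℝ) = ∑ x, (m x : ℝ) := by simp [a, I]
  have ha1 : N - C ≤ a := by
    rw [ha]
    have : ∑ x : V → Bool, (N * μ x - 1) ≤ ∑ x, (m x : ℝ) :=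
      Finset.sum_le_sum fun x _ => (Nat.sub_one_lt_floor _).le
    rw [Finset.sum_sub_distrib, ← Finset.mul_sum, h2] at this
    simpa [hC] using this
  have hb1 : 1 ≤ b := Nat.le_floor (by push_cast; linarith)
  have hb2 : (b : ℝ) ≤ N * p := Nat.floor_le (by positivity)
  have hab : b ≤ a := by
    have : (b : ℝ) ≤ a := by nlinarith
    exact_mod_cast this
  let ψ : V → Finset (Fin a) := fun v => univ.filter fun c => (e.symm c).1 v = true
  have hψ : ∀ v, (ψ v).card ≤ b := by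
    intro v
    refine Nat.le_floor ?_
    have e1 : ((ψ v).card : ℝ) = ∑ i : I, ind (i.1 v) := by
      rw [← e.symm.sum_comp]
      simp [ψ, ind]
    have e2 : ∑ i : I, ind (i.1 v) = ∑ x, (m x : ℝ) * ind (x v) := by
      simp [I, Fintype.sum_sigma]
    rw [e1, e2]
    calc ∑ x, (m x : ℝ) * ind (x v) ≤ ∑ x, N * (μ x * ind (x v)) :=
          Finset.sum_le_sum fun x _ => by
            rw [← mul_assoc]
            exact mul_le_mul_of_nonneg_right (Nat.floor_le (mul_nonneg hN0.le (h1 x)))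
              (ind_nonneg _)
      _ ≤ N * p := by
          rw [← Finset.mul_sum]
          exact mul_le_mul_of_nonneg_left (h4 v) hN0.le
  have hex : ∀ v, ∃ s : Finset (Fin a), ψ v ⊆ s ∧ s.card = b := fun v =>
    Finset.exists_superset_card_eq (hψ v) (by simpa using hab)
  choose φ hφ1 hφ2 using hex
  refine ⟨a, b, φ, hb1, hab, ⟨hφ2, fun c v => ?_⟩, ?_⟩
  · have hm : μ (e.symm c).1 ≠ 0 := by
      intro h0
      have := (e.symm c).2.2
      simp [m, h0] at this
    rcases h3 _ hm v with h5 | ⟨u, h5, h6⟩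
    · exact Or.inl (hφ1 v (by simpa [ψ] using h5))
    · exact Or.inr ⟨u, h5, hφ1 u (by simpa [ψ] using h6)⟩
  · have hb0 : (0 : ℝ) < b := by exact_mod_cast hb1
    rw [lt_div_iff₀ hb0]
    by_cases hs0 : 0 ≤ s
    · nlinarith [mul_le_mul_of_nonneg_left hb2 hs0]
    · have : (0 : ℝ) ≤ a := Nat.cast_nonneg _
      nlinarith

theorem feas_one : Feas G 1 := by
  refine ⟨fun x => if x = fun _ => true then 1 else 0, fun x => by dsimp only; split_ifs <;> simp, by simp,
    fun x hx v => ?_, fun v => by simp⟩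
  have : x = fun _ => true := by
    by_contra e
    simp [e] at hx
  simp [this]

omit [Fintype V] [DecidableEq V] in
theorem one_le_fdom : ((1 : ℝ) : EReal) ≤ fdom G :=
  le_sSup ⟨1, 1, fun _ => univ, le_rfl, le_rfl, ⟨fun _ => by simp, fun _ _ => Or.inl (mem_univ _)⟩,
    by simp⟩

/-- The fractional domatic number is at least `t` iff some random dominating set contains every
vertex with probability at most `1 / t`. -/
theorem le_fdom_iff {t : ℝ} (ht : 0 < t) : (t : EReal) ≤ fdom G ↔ Feas G (1 / t) := by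
  constructor
  · intro h
    refine feas_of_forall_gt fun q hq => ?_
    have hq0 : 0 < q := lt_trans (by positivity) hq
    have h1 : ((1 / q : ℝ) : EReal) < fdom G := by
      refine lt_of_lt_of_le ?_ h
      rw [EReal.coe_lt_coe_iff]
      rwa [one_div_lt hq0 ht]
    obtain ⟨x, ⟨a, b, φ, hb, hab, hφ, rfl⟩, hx⟩ := lt_sSup_iff.1 h1
    rw [EReal.coe_lt_coe_iff] at hx
    refine (feas_of_colouring hb hab hφ).mono ?_
    have hb0 : (0 : ℝ) < b := by exact_mod_cast hb
    have ha0 : (0 : ℝ) < a := by exact_mod_cast (by omega : 0 < a)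
    rw [div_lt_div_iff₀ hq0 hb0] at hx
    rw [div_le_iff₀ ha0]
    linarith
  · intro h
    by_cases h1 : t ≤ 1
    · exact le_trans (EReal.coe_le_coe_iff.2 h1) one_le_fdom
    · refine le_of_forall_lt fun x hx => ?_
      obtain ⟨s, hs1, hs2⟩ := EReal.lt_iff_exists_real_btwn.1 hx
      rw [EReal.coe_lt_coe_iff] at hs2
      obtain ⟨a, b, φ, hb, hab, hφ, hs⟩ := exists_colouring (by positivity)
        (by rw [div_lt_one ht]; linarith) h (s := s) (by simpa using hs2)
      exact hs1.trans (lt_of_lt_of_le (EReal.coe_lt_coe_iff.2 hs) (le_sSup ⟨a, b, φ, hb, hab, hφ, rfl⟩))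

end Pool.Agent.MP_9e68e9_lc

end

section

/-! Finite probability vectors, expectations and laws. -/

namespace Pool.Agent.MP_9e68e9_lc

open Finset

variable {Ω α β : Type} [Fintype Ω] [Fintype α] [Fintype β]

/-- Probability vectors. -/
def IsProb (μ : Ω → ℝ) : Prop := (∀ x, 0 ≤ μ x) ∧ ∑ x, μ x = 1

/-- Expectation. -/
def Ex (μ f : Ω → ℝ) : ℝ := ∑ x, μ x * f x

open Classical in
/-- The law of a random variable. -/
noncomputable def law (μ : Ω → ℝ) (X : Ω → α) : α → ℝ :=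
  fun a => ∑ ω, if X ω = a then μ ω else 0

theorem Ex_law (μ : Ω → ℝ) (X : Ω → α) (f : α → ℝ) :
    Ex (law μ X) f = Ex μ (fun ω => f (X ω)) := by
  classical
  simp only [Ex, law, Finset.sum_mul, ite_mul, zero_mul]
  rw [Finset.sum_comm]
  simp

theorem Ex_one (μ : Ω → ℝ) : Ex μ (fun _ => 1) = ∑ x, μ x := by simp [Ex]

theorem IsProb.Ex_const {μ : Ω → ℝ} (h : IsProb μ) (c : ℝ) : Ex μ (fun _ => c) = c := by
  simp [Ex, ← Finset.sum_mul, h.2]

theorem Ex_add (μ f g : Ω → ℝ) : Ex μ (fun x => f x + g x) = Ex μ f + Ex μ g := by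
  simp [Ex, mul_add, Finset.sum_add_distrib]

theorem Ex_sub (μ f g : Ω → ℝ) : Ex μ (fun x => f x - g x) = Ex μ f - Ex μ g := by
  simp [Ex, mul_sub, Finset.sum_sub_distrib]

theorem Ex_const_mul (μ : Ω → ℝ) (c : ℝ) (f : Ω → ℝ) :
    Ex μ (fun x => c * f x) = c * Ex μ f := by
  simp only [Ex, Finset.mul_sum]
  exact Finset.sum_congr rfl fun x _ => by ring

theorem Ex_mul_const (μ : Ω → ℝ) (c : ℝ) (f : Ω → ℝ) :
    Ex μ (fun x => f x * c) = Ex μ f * c := by
  simp only [Ex, Finset.sum_mul]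
  exact Finset.sum_congr rfl fun x _ => by ring

theorem Ex_sum {J : Type} (μ : Ω → ℝ) (s : Finset J) (f : J → Ω → ℝ) :
    Ex μ (fun x => ∑ j ∈ s, f j x) = ∑ j ∈ s, Ex μ (f j) := by
  simp only [Ex, Finset.mul_sum]
  exact Finset.sum_comm

theorem Ex_comm (μ : Ω → ℝ) (ν : α → ℝ) (f : Ω → α → ℝ) :
    Ex μ (fun x => Ex ν (fun y => f x y)) = Ex ν (fun y => Ex μ (fun x => f x y)) := by
  simp only [Ex, Finset.mul_sum]
  rw [Finset.sum_comm]
  exact Finset.sum_congr rfl fun x _ => Finset.sum_congr rfl fun y _ => by ring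

theorem Ex_mono' {μ f g : Ω → ℝ} (hμ : ∀ x, 0 ≤ μ x) (h : ∀ x, μ x ≠ 0 → f x ≤ g x) :
    Ex μ f ≤ Ex μ g :=
  Finset.sum_le_sum fun x _ => by
    by_cases e : μ x = 0
    · simp [e]
    · exact mul_le_mul_of_nonneg_left (h x e) (hμ x)

theorem Ex_mono {μ f g : Ω → ℝ} (hμ : ∀ x, 0 ≤ μ x) (h : ∀ x, f x ≤ g x) : Ex μ f ≤ Ex μ g :=
  Ex_mono' hμ fun x _ => h x

theorem Ex_nonneg {μ f : Ω → ℝ} (hμ : ∀ x, 0 ≤ μ x) (h : ∀ x, 0 ≤ f x) : 0 ≤ Ex μ f :=
  Finset.sum_nonneg fun x _ => mul_nonneg (hμ x) (h x)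

theorem Ex_congr {μ f g : Ω → ℝ} (h : ∀ x, f x = g x) : Ex μ f = Ex μ g := by
  rw [funext h]

theorem Ex_mix (a b : ℝ) (μ ν f : Ω → ℝ) :
    Ex (fun x => a * μ x + b * ν x) f = a * Ex μ f + b * Ex ν f := by
  simp only [Ex, Finset.mul_sum, ← Finset.sum_add_distrib]
  exact Finset.sum_congr rfl fun x _ => by ring

theorem eq_of_Ex {μ ν : Ω → ℝ} (h : ∀ f, Ex μ f = Ex ν f) : μ = ν := by
  classical
  funext x
  simpa [Ex] using h fun y => if y = x then 1 else 0

omit [Fintype α] in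
theorem law_nonneg {μ : Ω → ℝ} (hμ : ∀ x, 0 ≤ μ x) (X : Ω → α) (a : α) : 0 ≤ law μ X a :=
  Finset.sum_nonneg fun x _ => by
    split_ifs
    · exact hμ x
    · exact le_rfl

theorem IsProb.law {μ : Ω → ℝ} (h : IsProb μ) (X : Ω → α) : IsProb (law μ X) :=
  ⟨law_nonneg h.1 X, by rw [← Ex_one, Ex_law, Ex_one, h.2]⟩

omit [Fintype α] in
theorem exists_of_law_ne_zero {μ : Ω → ℝ} {X : Ω → α} {a : α} (h : law μ X a ≠ 0) :
    ∃ ω, μ ω ≠ 0 ∧ X ω = a := by
  obtain ⟨ω, -, hω⟩ := Finset.exists_ne_zero_of_sum_ne_zero h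
  by_cases e : X ω = a
  · exact ⟨ω, by simpa [e] using hω, e⟩
  · simp [e] at hω

omit [Fintype α] in
theorem le_law {μ : Ω → ℝ} (hμ : ∀ x, 0 ≤ μ x) (X : Ω → α) (ω : Ω) : μ ω ≤ law μ X (X ω) := by
  classical
  refine le_trans (by simp) (Finset.single_le_sum (f := fun ω' => if X ω' = X ω then μ ω' else 0)
    (fun x _ => ?_) (mem_univ ω))
  split_ifs
  · exact hμ x
  · exact le_rfl

omit [Fintype α] in
theorem law_ne_zero {μ : Ω → ℝ} (hμ : ∀ x, 0 ≤ μ x) (X : Ω → α) {ω : Ω} (h : μ ω ≠ 0) :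
    law μ X (X ω) ≠ 0 :=
  ne_of_gt (lt_of_lt_of_le (lt_of_le_of_ne (hμ ω) h.symm) (le_law hμ X ω))

theorem law_law (μ : Ω → ℝ) (X : Ω → α) (Y : α → β) :
    law (law μ X) Y = law μ (fun ω => Y (X ω)) :=
  eq_of_Ex fun f => by simp only [Ex_law]

theorem law_id (μ : Ω → ℝ) : law μ (fun ω => ω) = μ := eq_of_Ex fun f => by simp only [Ex_law]

theorem Ex_prod (ν : α × β → ℝ) (f : α × β → ℝ) :
    Ex ν f = ∑ a, ∑ b, ν (a, b) * f (a, b) := by
  simp [Ex, Fintype.sum_prod_type]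

/-- Expectation under a measure composed with a kernel. -/
theorem Ex_kernel (μ : α → ℝ) (κ : α → β → ℝ) (f : α × β → ℝ) :
    Ex (fun z : α × β => μ z.1 * κ z.1 z.2) f = Ex μ (fun a => Ex (κ a) (fun b => f (a, b))) := by
  simp only [Ex, Fintype.sum_prod_type, Finset.mul_sum, mul_assoc]

/-- Disintegration. -/
theorem exists_kernel [Nonempty β] {ν : α × β → ℝ} (hν : ∀ z, 0 ≤ ν z) :
    ∃ κ : α → β → ℝ, (∀ a, IsProb (κ a)) ∧ ∀ a b, ν (a, b) = law ν Prod.fst a * κ a b := by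
  classical
  have e : ∀ a, law ν Prod.fst a = ∑ b, ν (a, b) := by
    intro a
    simp only [law, Fintype.sum_prod_type]
    rw [Finset.sum_comm]
    simp
  let b0 : β := Classical.arbitrary β
  refine ⟨fun a b => if law ν Prod.fst a = 0 then (if b = b0 then 1 else 0) else
    ν (a, b) / law ν Prod.fst a, fun a => ⟨fun b => ?_, ?_⟩, fun a b => ?_⟩
  · dsimp only
    split_ifs
    · exact zero_le_one
    · exact le_rfl
    · exact div_nonneg (hν _) (law_nonneg hν _ _)
  · by_cases h : law ν Prod.fst a = 0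
    · simp [h]
    · simp only [h, if_false]
      rw [← Finset.sum_div, ← e, div_self h]
  · by_cases h : law ν Prod.fst a = 0
    · have := le_law hν Prod.fst (a, b)
      rw [h] at this ⊢
      simpa using le_antisymm this (hν _)
    · simp only [h, if_false]
      field_simp

theorem isProb_pi {J : Type} [Fintype J] [DecidableEq J] {A : J → Type} [∀ j, Fintype (A j)]
    {κ : ∀ j, A j → ℝ} (h : ∀ j, IsProb (κ j)) : IsProb (fun y : ∀ j, A j => ∏ j, κ j (y j)) := by
  refine ⟨fun y => Finset.prod_nonneg fun j _ => (h j).1 _, ?_⟩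
  rw [← Fintype.piFinset_univ, ← Finset.prod_univ_sum]
  simp [fun j => (h j).2]

theorem Ex_pi {J : Type} [Fintype J] [DecidableEq J] {A : J → Type} [∀ j, Fintype (A j)]
    {κ : ∀ j, A j → ℝ} (h : ∀ j, IsProb (κ j)) (i : J) (f : A i → ℝ) :
    Ex (fun y : ∀ j, A j => ∏ j, κ j (y j)) (fun y => f (y i)) = Ex (κ i) f := by
  let F : ∀ j, A j → ℝ := Function.update κ i (fun a => κ i a * f a)
  have e : ∀ y : ∀ j, A j, (∏ j, κ j (y j)) * f (y i) = ∏ j, F j (y j) := by
    intro y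
    rw [← Finset.mul_prod_erase univ _ (mem_univ i), ← Finset.mul_prod_erase univ _ (mem_univ i)]
    have : ∏ j ∈ univ.erase i, F j (y j) = ∏ j ∈ univ.erase i, κ j (y j) :=
      Finset.prod_congr rfl fun j hj => by
        simp only [F, Function.update_of_ne (Finset.ne_of_mem_erase hj)]
    rw [this]
    simp only [F, Function.update_self]
    ring
  simp only [Ex, e]
  rw [← Fintype.piFinset_univ, ← Finset.prod_univ_sum,
    ← Finset.mul_prod_erase univ _ (mem_univ i)]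
  have : ∏ j ∈ univ.erase i, ∑ a, F j a = 1 :=
    Finset.prod_eq_one fun j hj => by
      simp only [F, Function.update_of_ne (Finset.ne_of_mem_erase hj)]
      exact (h j).2
  rw [this]
  simp [F]

end Pool.Agent.MP_9e68e9_lc

end

section

/-! Gadgets: graphs with terminals, and the laws on the terminals that extend to them. -/

namespace Pool.Agent.MP_9e68e9_lc

open Finset

/-- A gadget: an inner graph, attachments to terminals, and the inner vertices that have to be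
dominated. -/
structure Gad (τ : Type) : Type 1 where
  W : Type
  [fin : Fintype W]
  [dec : DecidableEq W]
  H : SimpleGraph W
  att : W → τ → Prop
  need : W → Prop

instance {τ : Type} (Γ : Gad τ) : Fintype Γ.W := Γ.fin
instance {τ : Type} (Γ : Gad τ) : DecidableEq Γ.W := Γ.dec

variable {τ T U : Type} [Fintype τ] [DecidableEq τ] [Fintype T] [DecidableEq T]
  [Fintype U] [DecidableEq U]

namespace Gad

/-- All inner vertices that need it are dominated. -/
def Dom (Γ : Gad τ) (x : τ → Bool) (y : Γ.W → Bool) : Prop :=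
  ∀ w, Γ.need w → y w = true ∨ (∃ u, Γ.H.Adj w u ∧ y u = true) ∨ ∃ s, Γ.att w s ∧ x s = true

/-- The law `μ` on the terminals extends to the gadget with budget `p`. -/
def Ext (Γ : Gad τ) (p : ℝ) (μ : (τ → Bool) → ℝ) : Prop :=
  ∃ κ : (τ → Bool) → (Γ.W → Bool) → ℝ, (∀ x, IsProb (κ x)) ∧
    (∀ x y, μ x ≠ 0 → κ x y ≠ 0 → Γ.Dom x y) ∧
    ∀ w, Ex μ (fun x => Ex (κ x) (fun y => ind (y w))) ≤ p

theorem ext_of_model (Γ : Gad τ) {p : ℝ} {Ω : Type} [Fintype Ω] {P : Ω → ℝ} (hP : ∀ ω, 0 ≤ P ω)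
    (X : Ω → τ → Bool) (Y : Ω → Γ.W → Bool) (hd : ∀ ω, P ω ≠ 0 → Γ.Dom (X ω) (Y ω))
    (hm : ∀ w, Ex P (fun ω => ind (Y ω w)) ≤ p) : Γ.Ext p (law P X) := by
  obtain ⟨κ, h1, h2⟩ := exists_kernel (law_nonneg hP fun ω => (X ω, Y ω))
  rw [law_law] at h2
  refine ⟨κ, h1, fun x y hx hy => ?_, fun w => ?_⟩
  · obtain ⟨ω, h3, h4⟩ := exists_of_law_ne_zero (μ := P) (X := fun ω => (X ω, Y ω)) (a := (x, y))
      (by rw [h2]; exact mul_ne_zero hx hy)
    obtain ⟨rfl, rfl⟩ := Prod.ext_iff.1 h4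
    exact hd ω h3
  · rw [← Ex_kernel (law P X) κ (fun z => ind (z.2 w))]
    have : (fun z : (τ → Bool) × (Γ.W → Bool) => law P X z.1 * κ z.1 z.2) =
        law P fun ω => (X ω, Y ω) := funext fun z => (h2 z.1 z.2).symm
    rw [this, Ex_law]
    exact hm w

theorem Ext.model {Γ : Gad τ} {p : ℝ} {μ : (τ → Bool) → ℝ} (hμ : ∀ x, 0 ≤ μ x) (h : Γ.Ext p μ) :
    ∃ ν : (τ → Bool) × (Γ.W → Bool) → ℝ, (∀ z, 0 ≤ ν z) ∧ law ν Prod.fst = μ ∧
      (∀ z, ν z ≠ 0 → Γ.Dom z.1 z.2) ∧ ∀ w, Ex ν (fun z => ind (z.2 w)) ≤ p := by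
  obtain ⟨κ, h1, h2, h3⟩ := h
  refine ⟨fun z => μ z.1 * κ z.1 z.2, fun z => mul_nonneg (hμ _) ((h1 _).1 _), ?_,
    fun z hz => h2 _ _ (left_ne_zero_of_mul hz) (right_ne_zero_of_mul hz), fun w => ?_⟩
  · refine eq_of_Ex fun f => ?_
    rw [Ex_law, Ex_kernel]
    exact Ex_congr fun x => (h1 x).Ex_const (f x)
  · rw [Ex_kernel]
    exact h3 w

theorem Ext.mix {Γ : Gad τ} {p q a b : ℝ} {μ ν : (τ → Bool) → ℝ} (hμ : ∀ x, 0 ≤ μ x)
    (hν : ∀ x, 0 ≤ ν x) (h : Γ.Ext p μ) (h' : Γ.Ext q ν) (ha : 0 ≤ a) (hb : 0 ≤ b) :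
    Γ.Ext (a * p + b * q) (fun x => a * μ x + b * ν x) := by
  obtain ⟨μ', h1, h2, h3, h4⟩ := h.model hμ
  obtain ⟨ν', k1, k2, k3, k4⟩ := h'.model hν
  have := Γ.ext_of_model (p := a * p + b * q) (P := fun z => a * μ' z + b * ν' z)
    (fun z => add_nonneg (mul_nonneg ha (h1 z)) (mul_nonneg hb (k1 z))) Prod.fst Prod.snd
    (fun z hz => by
      by_cases e : μ' z = 0
      · exact k3 z fun e' => hz (by simp [e, e'])
      · exact h3 z e)
    (fun w => by
      rw [Ex_mix]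
      exact add_le_add (mul_le_mul_of_nonneg_left (h4 w) ha) (mul_le_mul_of_nonneg_left (k4 w) hb))
  convert this using 1
  refine eq_of_Ex fun f => ?_
  rw [Ex_law, Ex_mix, Ex_mix, ← h2, ← k2, Ex_law, Ex_law]

theorem Ext.up {Γ : Gad τ} {p : ℝ} {μ : (τ → Bool) → ℝ} (hμ : ∀ x, 0 ≤ μ x) (h : Γ.Ext p μ)
    (F : (τ → Bool) → τ → Bool) (hF : ∀ x s, x s = true → F x s = true) :
    Γ.Ext p (law μ F) := by
  obtain ⟨ν, h1, h2, h3, h4⟩ := h.model hμ
  rw [← h2, law_law]
  refine Γ.ext_of_model h1 _ Prod.snd (fun z hz w hw => ?_) h4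
  rcases h3 z hz w hw with h | h | ⟨s, h, h'⟩
  · exact Or.inl h
  · exact Or.inr (Or.inl h)
  · exact Or.inr (Or.inr ⟨s, h, hF _ _ h'⟩)

theorem isClosed_ext (Γ : Gad τ) (p : ℝ) : IsClosed {μ | IsProb μ ∧ Γ.Ext p μ} := by
  let S : Set ((τ → Bool) × (Γ.W → Bool) → ℝ) :=
    {ν | (∀ x, 0 ≤ ν x) ∧ ∑ x, ν x = 1 ∧ (∀ z, ¬ Γ.Dom z.1 z.2 → ν z = 0) ∧
      ∀ w, ∑ z, ν z * ind (z.2 w) ≤ p}
  have hcl : IsClosed S := by
    simp only [S, Set.ofPred_and, Set.ofPred_forall]
    refine IsClosed.inter (isClosed_iInter fun x => isClosed_le (by fun_prop) (by fun_prop))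
      (IsClosed.inter (isClosed_eq (by fun_prop) (by fun_prop)) (IsClosed.inter
        (isClosed_iInter fun x => isClosed_iInter fun _ => isClosed_eq (by fun_prop) (by fun_prop))
        (isClosed_iInter fun x => isClosed_le (by fun_prop) (by fun_prop))))
  have hco : IsCompact S :=
    (isCompact_stdSimplex ℝ _).of_isClosed_subset hcl fun μ hμ => ⟨hμ.1, hμ.2.1⟩
  have hc : Continuous fun ν : (τ → Bool) × (Γ.W → Bool) → ℝ => law ν Prod.fst := by
    refine continuous_pi fun a => ?_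
    unfold law
    refine continuous_finsetSum _ fun z _ => ?_
    split_ifs
    · fun_prop
    · fun_prop
  convert (hco.image hc).isClosed using 1
  ext μ
  constructor
  · rintro ⟨h, h'⟩
    obtain ⟨ν, h1, h2, h3, h4⟩ := h'.model h.1
    refine ⟨ν, ⟨h1, ?_, fun z hz => by_contra fun e => hz (h3 z e), h4⟩, h2⟩
    have := h.2
    rwa [← h2, ← Ex_one, Ex_law, Ex_one] at this
  · rintro ⟨ν, ⟨h1, h2, h3, h4⟩, rfl⟩
    exact ⟨IsProb.law ⟨h1, h2⟩ _,
      Γ.ext_of_model h1 _ Prod.snd (fun z hz => by_contra fun e => hz (h3 z e)) h4⟩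

/-- Renaming (and identifying) terminals. -/
def push (Γ : Gad τ) (π : τ → T) : Gad T where
  W := Γ.W
  H := Γ.H
  att := fun w t => ∃ s, π s = t ∧ Γ.att w s
  need := Γ.need

omit [Fintype τ] [DecidableEq τ] [Fintype T] [DecidableEq T] in
theorem dom_push (Γ : Gad τ) (π : τ → T) (x : T → Bool) (y : Γ.W → Bool) :
    (Γ.push π).Dom x y ↔ Γ.Dom (fun s => x (π s)) y := by
  refine forall_congr' fun w => imp_congr Iff.rfl (or_congr Iff.rfl (or_congr Iff.rfl ?_))
  constructor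
  · rintro ⟨t, ⟨s, rfl, h⟩, h'⟩
    exact ⟨s, h, h'⟩
  · rintro ⟨s, h, h'⟩
    exact ⟨_, ⟨s, rfl, h⟩, h'⟩

theorem ext_push (Γ : Gad τ) (π : τ → T) {p : ℝ} {μ : (T → Bool) → ℝ} (hμ : ∀ x, 0 ≤ μ x) :
    (Γ.push π).Ext p μ ↔ Γ.Ext p (law μ fun x s => x (π s)) := by
  constructor
  · intro h
    obtain ⟨ν, h1, h2, h3, h4⟩ := h.model hμ
    rw [← h2, law_law]
    exact Γ.ext_of_model h1 _ Prod.snd (fun z hz => (dom_push _ _ _ _).1 (h3 z hz)) h4
  · rintro ⟨κ, h1, h2, h3⟩
    refine ⟨fun x => κ fun s => x (π s), fun x => h1 _, fun x y hx hy =>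
      (dom_push _ _ _ _).2 (h2 _ _ (law_ne_zero hμ (fun x s => x (π s)) hx) hy), fun w => ?_⟩
    have := h3 w
    rwa [Ex_law] at this

/-- Disjoint union of gadgets on the same terminals. -/
def glue {J : Type} [Fintype J] [DecidableEq J] (Γ : J → Gad T) : Gad T where
  W := Σ j, (Γ j).W
  H := { Adj := fun a b => ∃ (j : J) (u v : (Γ j).W), a = ⟨j, u⟩ ∧ b = ⟨j, v⟩ ∧ (Γ j).H.Adj u v
         symm := ⟨fun _ _ ⟨j, u, v, h1, h2, h3⟩ => ⟨j, v, u, h2, h1, h3.symm⟩⟩
         loopless := ⟨fun _ ⟨j, u, v, h1, h2, h3⟩ => by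
           rw [h1] at h2
           obtain rfl := eq_of_heq (Sigma.mk.inj h2).2
           exact h3.ne rfl⟩ }
  att := fun a t => (Γ a.1).att a.2 t
  need := fun a => (Γ a.1).need a.2

omit [Fintype T] [DecidableEq T] in
theorem dom_glue {J : Type} [Fintype J] [DecidableEq J] (Γ : J → Gad T) (x : T → Bool)
    (y : (glue Γ).W → Bool) : (glue Γ).Dom x y ↔ ∀ j, (Γ j).Dom x fun w => y ⟨j, w⟩ := by
  have key : ∀ j (w : (Γ j).W), (∃ u, (glue Γ).H.Adj ⟨j, w⟩ u ∧ y u = true) ↔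
      ∃ u, (Γ j).H.Adj w u ∧ y ⟨j, u⟩ = true := by
    intro j w
    constructor
    · rintro ⟨_, ⟨i, u, v, h1, rfl, h3⟩, h4⟩
      obtain ⟨rfl, h5⟩ := Sigma.mk.inj h1
      obtain rfl := eq_of_heq h5
      exact ⟨v, h3, h4⟩
    · rintro ⟨u, h1, h2⟩
      exact ⟨_, ⟨j, w, u, rfl, rfl, h1⟩, h2⟩
  constructor
  · intro h j w hw
    have := h ⟨j, w⟩ hw
    rwa [key] at this
  · rintro h ⟨j, w⟩ hw
    rw [key]
    exact h j w hw

theorem ext_glue {J : Type} [Fintype J] [DecidableEq J] (Γ : J → Gad T) {p : ℝ}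
    {μ : (T → Bool) → ℝ} (hμ : ∀ x, 0 ≤ μ x) : (glue Γ).Ext p μ ↔ ∀ j, (Γ j).Ext p μ := by
  constructor
  · intro h j
    obtain ⟨ν, h1, h2, h3, h4⟩ := h.model hμ
    rw [← h2]
    exact (Γ j).ext_of_model h1 _ (fun z w => z.2 ⟨j, w⟩)
      (fun z hz => (dom_glue _ _ _).1 (h3 z hz) j) fun w => h4 ⟨j, w⟩
  · intro h
    choose κ h1 h2 h3 using h
    have := (glue Γ).ext_of_model (p := p)
      (P := fun z : (T → Bool) × (∀ j, (Γ j).W → Bool) => μ z.1 * ∏ j, κ j z.1 (z.2 j))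
      (fun z => mul_nonneg (hμ _) ((isProb_pi fun j => h1 j z.1).1 _)) Prod.fst
      (fun z a => z.2 a.1 a.2)
      (fun z hz => (dom_glue _ _ _).2 fun j => h2 j _ _ (left_ne_zero_of_mul hz)
        (Finset.prod_ne_zero_iff.1 (right_ne_zero_of_mul hz) j (mem_univ _)))
      (fun a => by
        rw [Ex_kernel μ (fun x (y : ∀ j, (Γ j).W → Bool) => ∏ j, κ j x (y j))]
        refine le_of_eq_of_le (Ex_congr fun x => ?_) (h3 a.1 a.2)
        exact Ex_pi (fun j => h1 j x) a.1 fun y => ind (y a.2))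
    convert this using 1
    refine eq_of_Ex fun f => ?_
    rw [Ex_law, Ex_kernel μ (fun x (y : ∀ j, (Γ j).W → Bool) => ∏ j, κ j x (y j))]
    exact Ex_congr fun x => ((isProb_pi fun j => h1 j x).Ex_const (f x)).symm

/-- Adjacency after turning some terminals into free inner vertices. -/
def hideAdj (Γ : Gad (T ⊕ U)) : Γ.W ⊕ U → Γ.W ⊕ U → Prop
  | .inl a, .inl b => Γ.H.Adj a b
  | .inl a, .inr u => Γ.att a (.inr u)
  | .inr u, .inl a => Γ.att a (.inr u)
  | .inr _, .inr _ => False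

/-- Turning some terminals into free inner vertices. -/
def hide (Γ : Gad (T ⊕ U)) : Gad T where
  W := Γ.W ⊕ U
  H := { Adj := Γ.hideAdj
         symm := ⟨by rintro (a | a) (b | b) h <;> first | exact h.symm | exact h⟩
         loopless := ⟨by rintro (a | a) h <;> first | exact h.ne rfl | exact h⟩ }
  att := fun a t => Sum.elim (fun w => Γ.att w (.inl t)) (fun _ => False) a
  need := Sum.elim Γ.need fun _ => False

omit [Fintype T] [DecidableEq T] in
theorem dom_hide (Γ : Gad (T ⊕ U)) (x : T → Bool) (y : Γ.W ⊕ U → Bool) :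
    Γ.hide.Dom x y ↔ Γ.Dom (Sum.elim x fun u => y (.inr u)) fun w => y (.inl w) := by
  constructor
  · intro h w hw
    rcases h (.inl w) hw with h | ⟨u | u, h, h'⟩ | ⟨s, h, h'⟩
    · exact Or.inl h
    · exact Or.inr (Or.inl ⟨u, h, h'⟩)
    · exact Or.inr (Or.inr ⟨.inr u, h, h'⟩)
    · exact Or.inr (Or.inr ⟨.inl s, h, h'⟩)
  · rintro h (w | w) hw
    · rcases h w hw with h | ⟨u, h, h'⟩ | ⟨s | s, h, h'⟩
      · exact Or.inl h
      · exact Or.inr (Or.inl ⟨.inl u, h, h'⟩)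
      · exact Or.inr (Or.inr ⟨s, h, h'⟩)
      · exact Or.inr (Or.inl ⟨.inr s, h, h'⟩)
    · exact hw.elim

theorem ext_hide (Γ : Gad (T ⊕ U)) {p : ℝ} {μ : (T → Bool) → ℝ} (hμ : ∀ x, 0 ≤ μ x) :
    Γ.hide.Ext p μ ↔ ∃ μ' : (T ⊕ U → Bool) → ℝ, (∀ x, 0 ≤ μ' x) ∧
      law μ' (fun x t => x (.inl t)) = μ ∧ (∀ u, Ex μ' (fun x => ind (x (.inr u))) ≤ p) ∧
      Γ.Ext p μ' := by
  constructor
  · intro h
    obtain ⟨ν, h1, h2, h3, h4⟩ := h.model hμ
    refine ⟨law ν fun z => Sum.elim z.1 fun u => z.2 (.inr u), law_nonneg h1 _, ?_, fun u => ?_,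
      Γ.ext_of_model h1 _ (fun z w => z.2 (.inl w)) (fun z hz => (dom_hide _ _ _).1 (h3 z hz))
        fun w => h4 (.inl w)⟩
    · rw [law_law, ← h2]
      rfl
    · rw [Ex_law]
      exact h4 (.inr u)
  · rintro ⟨μ', hμ', rfl, k, h⟩
    obtain ⟨ν, h1, h2, h3, h4⟩ := h.model hμ'
    rw [← h2, law_law]
    refine Γ.hide.ext_of_model h1 _ (fun z => Sum.elim z.2 fun u => z.1 (.inr u))
      (fun z hz => (dom_hide _ _ _).2 ?_) ?_
    · convert h3 z hz using 1
      · funext s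
        cases s <;> rfl
      · rfl
    · rintro (w | u)
      · exact h4 w
      · have := k u
        rwa [← h2, Ex_law] at this

end Gad

end Pool.Agent.MP_9e68e9_lc

end

section

/-! Relations between events of probability `p` that are realised by gadgets. -/

namespace Pool.Agent.MP_9e68e9_lc

open Finset

variable {τ T U : Type} [Fintype τ] [DecidableEq τ] [Fintype T] [DecidableEq T]
  [Fintype U] [DecidableEq U] {p : ℝ}

/-- Laws all of whose marginals equal `p`. -/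
def Bal (p : ℝ) (μ : (τ → Bool) → ℝ) : Prop := IsProb μ ∧ ∀ s, Ex μ (fun x => ind (x s)) = p

theorem Bal.pull {μ : (T → Bool) → ℝ} (h : Bal p μ) (π : τ → T) :
    Bal p (law μ fun x s => x (π s)) :=
  ⟨h.1.law _, fun s => by rw [Ex_law]; exact h.2 _⟩

theorem bal_law {Ω : Type} [Fintype Ω] {P : Ω → ℝ} (hP : IsProb P) (X : Ω → τ → Bool)
    (h : ∀ s, Ex P (fun ω => ind (X ω s)) = p) : Bal p (law P X) :=
  ⟨hP.law _, fun s => by rw [Ex_law]; exact h s⟩

theorem Gad.raise (Γ : Gad τ) (hp : p ≤ 1) {μ : (τ → Bool) → ℝ} (hμ : IsProb μ) (h : Γ.Ext p μ)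
    (s : τ) (hs : Ex μ (fun x => ind (x s)) ≤ p) :
    ∃ μ', IsProb μ' ∧ Γ.Ext p μ' ∧ Ex μ' (fun x => ind (x s)) = p ∧
      ∀ f : (τ → Bool) → ℝ, (∀ x, f (Function.update x s true) = f x) → Ex μ' f = Ex μ f := by
  set m := Ex μ (fun x => ind (x s)) with hm
  let q := (p - m) / (1 - m)
  have hq0 : 0 ≤ q := div_nonneg (by linarith) (by linarith)
  have hq1 : q ≤ 1 := div_le_one_of_le₀ (by linarith) (by linarith)
  have hq : q * (1 - m) = p - m := by
    by_cases e : 1 - m = 0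
    · rw [e]; linarith
    · simp only [q]; field_simp
  have hl := hμ.law fun x => Function.update x s true
  refine ⟨fun x => (1 - q) * μ x + q * law μ (fun x => Function.update x s true) x,
    ⟨fun x => add_nonneg (mul_nonneg (by linarith) (hμ.1 x)) (mul_nonneg hq0 (hl.1 x)), ?_⟩,
    ?_, ?_, fun f hf => ?_⟩
  · rw [← Ex_one, Ex_mix, hμ.Ex_const, hl.Ex_const]; ring
  · have := h.mix hμ.1 hl.1 (h.up hμ.1 (fun x => Function.update x s true) fun x t ht => by
      by_cases e : t = s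
      · subst e; simp
      · rwa [Function.update_of_ne e]) (by linarith : 0 ≤ 1 - q) hq0
    convert this using 1
    ring
  · rw [Ex_mix, Ex_law]
    simp only [Function.update_self, ind_true]
    rw [hμ.Ex_const]
    linarith
  · rw [Ex_mix, Ex_law]
    simp only [hf]
    ring

theorem Gad.ext_hide_bal (Γ : Gad (T ⊕ U)) (hp : p ≤ 1) {μ : (T → Bool) → ℝ} (hμ : Bal p μ) :
    Γ.hide.Ext p μ ↔ ∃ μ' : (T ⊕ U → Bool) → ℝ, Bal p μ' ∧
      law μ' (fun x t => x (.inl t)) = μ ∧ Γ.Ext p μ' := by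
  rw [Gad.ext_hide _ hμ.1.1]
  constructor
  · rintro ⟨μ0, h0, h1, h2, h3⟩
    have hp0 : IsProb μ0 := ⟨h0, by
      have := hμ.1.2
      rwa [← h1, ← Ex_one, Ex_law, Ex_one] at this⟩
    have key : ∀ S : Finset U, ∃ μ' : (T ⊕ U → Bool) → ℝ, IsProb μ' ∧
        law μ' (fun x t => x (.inl t)) = μ ∧ Γ.Ext p μ' ∧
        (∀ u, Ex μ' (fun x => ind (x (.inr u))) ≤ p) ∧
        ∀ u ∈ S, Ex μ' (fun x => ind (x (.inr u))) = p := by
      intro S
      induction S using Finset.induction_on with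
      | empty => exact ⟨μ0, hp0, h1, h3, h2, by simp⟩
      | insert a S ha ih =>
        obtain ⟨μ', k1, k2, k3, k4, k5⟩ := ih
        obtain ⟨ν, l1, l2, l3, l4⟩ := Γ.raise hp k1 k3 (.inr a) (k4 a)
        have e : ∀ u, u ≠ a → Ex ν (fun x => ind (x (.inr u))) =
            Ex μ' (fun x => ind (x (.inr u))) := fun u hu =>
          l4 _ fun x => by rw [Function.update_of_ne (by simpa using hu)]
        refine ⟨ν, l1, ?_, l2, fun u => ?_, fun u hu => ?_⟩
        · rw [← k2]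
          refine eq_of_Ex fun f => ?_
          rw [Ex_law, Ex_law]
          refine l4 _ fun x => ?_
          congr 1
        · by_cases hu : u = a
          · rw [hu, l3]
          · rw [e u hu]; exact k4 u
        · by_cases hu' : u = a
          · rw [hu', l3]
          · rw [e u hu']; exact k5 u ((mem_insert.1 hu).resolve_left hu')
    obtain ⟨μ', k1, k2, k3, -, k5⟩ := key univ
    refine ⟨μ', ⟨k1, ?_⟩, k2, k3⟩
    rintro (t | u)
    · have := hμ.2 t
      rwa [← k2, Ex_law] at this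
    · exact k5 u (mem_univ _)
  · rintro ⟨μ', h1, h2, h3⟩
    exact ⟨μ', h1.1.1, h2, fun u => (h1.2 _).le, h3⟩

/-- The relation `R` between events of probability `p` is realised by a gadget. -/
def Real (p : ℝ) (τ : Type) [Fintype τ] [DecidableEq τ] (R : ((τ → Bool) → ℝ) → Prop) : Prop :=
  ∃ Γ : Gad τ, ∀ μ, Bal p μ → (Γ.Ext p μ ↔ R μ)

theorem Real.congr {R R' : ((τ → Bool) → ℝ) → Prop} (h : Real p τ R)
    (e : ∀ μ, Bal p μ → (R μ ↔ R' μ)) : Real p τ R' := by
  obtain ⟨Γ, hΓ⟩ := h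
  exact ⟨Γ, fun μ hμ => (hΓ μ hμ).trans (e μ hμ)⟩

theorem Real.pull {R : ((τ → Bool) → ℝ) → Prop} (h : Real p τ R) (π : τ → T) :
    Real p T (fun μ => R (law μ fun x s => x (π s))) := by
  obtain ⟨Γ, hΓ⟩ := h
  exact ⟨Γ.push π, fun μ hμ => (Γ.ext_push π hμ.1.1).trans (hΓ _ (hμ.pull π))⟩

theorem Real.all {J : Type} [Fintype J] [DecidableEq J] {R : J → ((τ → Bool) → ℝ) → Prop}
    (h : ∀ j, Real p τ (R j)) : Real p τ (fun μ => ∀ j, R j μ) := by
  choose Γ hΓ using h
  exact ⟨Gad.glue Γ, fun μ hμ => (Gad.ext_glue Γ hμ.1.1).trans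
    (forall_congr' fun j => hΓ j μ hμ)⟩

theorem Real.and {R R' : ((τ → Bool) → ℝ) → Prop} (h : Real p τ R) (h' : Real p τ R') :
    Real p τ (fun μ => R μ ∧ R' μ) :=
  (Real.all (J := Bool) (R := fun b => cond b R' R) (by rintro (_ | _); exacts [h, h'])).congr
    fun μ _ => by simp

theorem Real.imp {R : ((τ → Bool) → ℝ) → Prop} (h : Real p τ R) (Q : Prop) :
    Real p τ (fun μ => Q → R μ) := by
  by_cases hQ : Q
  · exact h.congr fun μ _ => by simp [hQ]
  · exact (Real.all (J := Empty) (R := fun _ _ => True) (fun j => j.elim)).congr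
      fun μ _ => by simp [hQ]

theorem Real.ex (hp : p ≤ 1) {R : ((T ⊕ U → Bool) → ℝ) → Prop} (h : Real p (T ⊕ U) R) :
    Real p T (fun μ => ∃ μ' : (T ⊕ U → Bool) → ℝ, Bal p μ' ∧
      law μ' (fun x t => x (.inl t)) = μ ∧ R μ') := by
  obtain ⟨Γ, hΓ⟩ := h
  refine ⟨Γ.hide, fun μ hμ => (Γ.ext_hide_bal hp hμ).trans (exists_congr fun μ' => ?_)⟩
  exact and_congr_right fun h1 => and_congr_right fun _ => hΓ μ' h1

/-- Adding one more event, decided by a coin. -/
theorem exists_coin {μ : (τ → Bool) → ℝ} (hμ : Bal p μ) (q : (τ → Bool) → ℝ) (h0 : ∀ x, 0 ≤ q x)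
    (h1 : ∀ x, q x ≤ 1) (hq : Ex μ q = p) :
    ∃ μ' : (τ ⊕ Unit → Bool) → ℝ, Bal p μ' ∧ law μ' (fun x t => x (.inl t)) = μ ∧
      ∀ f, Ex μ' f = Ex μ (fun x => q x * f (Sum.elim x fun _ => true) +
        (1 - q x) * f (Sum.elim x fun _ => false)) := by
  let κ : (τ → Bool) → Bool → ℝ := fun x b => cond b (q x) (1 - q x)
  have key : ∀ f, Ex (law (fun z : (τ → Bool) × Bool => μ z.1 * κ z.1 z.2)
      fun z => Sum.elim z.1 fun _ : Unit => z.2) f = Ex μ (fun x => q x * f (Sum.elim x fun _ => true) +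
        (1 - q x) * f (Sum.elim x fun _ => false)) := by
    intro f
    rw [Ex_law, Ex_kernel]
    exact Ex_congr fun x => by simp [Ex, κ]
  refine ⟨_, ⟨⟨law_nonneg (fun z => mul_nonneg (hμ.1.1 _) ?_) _, ?_⟩, ?_⟩, ?_, key⟩
  · rcases z with ⟨x, _ | _⟩
    · simpa [κ] using h1 x
    · exact h0 x
  · rw [← Ex_one, key, ← hμ.1.Ex_const 1]
    exact Ex_congr fun x => by rw [hμ.1.Ex_const]; ring
  · rintro (s | s)
    · rw [key, ← hμ.2 s]
      exact Ex_congr fun x => by simp only [Sum.elim_inl]; ring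
    · rw [key, ← hq]
      exact Ex_congr fun x => by simp
  · refine eq_of_Ex fun f => ?_
    rw [Ex_law, key]
    refine Ex_congr fun x => ?_
    simp only [Sum.elim_inl]
    ring

/-- Probability of both events. -/
def KK (μ : (τ → Bool) → ℝ) (a b : τ) : ℝ := Ex μ (fun x => ind (x a) * ind (x b))

/-- Probability of the union of all events. -/
def UU (μ : (τ → Bool) → ℝ) : ℝ := Ex μ (fun x => ind (decide (∃ s, x s = true)))

theorem Bal.KK_nonneg {μ : (τ → Bool) → ℝ} (h : Bal p μ) (a b : τ) : 0 ≤ KK μ a b :=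
  Ex_nonneg h.1.1 fun _ => mul_nonneg (ind_nonneg _) (ind_nonneg _)

theorem Bal.KK_le {μ : (τ → Bool) → ℝ} (h : Bal p μ) (a b : τ) : KK μ a b ≤ p := by
  rw [← h.2 a]
  exact Ex_mono h.1.1 fun x => by cases x a <;> cases x b <;> simp

/-- Closeness at distance `s` is realised. -/
def SG (p s : ℝ) : Prop := Real p Bool (fun μ => p - s ≤ KK μ false true)

/-- Distance at least `L` is realised. -/
def DG (p L : ℝ) : Prop := Real p Bool (fun μ => KK μ false true ≤ p - L)

/-- A union of probability at least `c` is realised. -/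
def OG (p c : ℝ) : Prop := ∀ (τ : Type) [Fintype τ] [DecidableEq τ] (_ : τ),
  Real p τ (fun μ => c ≤ UU μ)

theorem SG.pull {s : ℝ} (h : SG p s) (a b : T) : Real p T (fun μ => p - s ≤ KK μ a b) :=
  (Real.pull h fun c => cond c b a).congr fun μ _ => by simp only [KK, Ex_law]; rfl

theorem DG.pull {L : ℝ} (h : DG p L) (a b : T) : Real p T (fun μ => KK μ a b ≤ p - L) :=
  (Real.pull h fun c => cond c b a).congr fun μ _ => by simp only [KK, Ex_law]; rfl

theorem SG.add (hp : p ≤ 1) {s t : ℝ} (h : SG p s) (h' : SG p t) (hs : 0 < s) (ht : 0 < t) :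
    SG p (s + t) := by
  refine (Real.ex hp ((h.pull (T := Bool ⊕ Unit) (.inl false) (.inr ())).and
    (h'.pull (.inr ()) (.inl true)))).congr fun μ hμ => ⟨?_, fun hK => ?_⟩
  · rintro ⟨μ', h1, rfl, h2, h3⟩
    simp only [KK, Ex_law] at h2 h3 ⊢
    have := Ex_mono (f := fun x => ind (x (.inl false)) * ind (x (.inr ())) +
      ind (x (.inr ())) * ind (x (.inl true)) - ind (x (.inr ())))
      (g := fun x => ind (x (.inl false)) * ind (x (.inl true))) h1.1.1 fun x => by
        cases x (.inl false) <;> cases x (.inl true) <;> cases x (.inr ()) <;> simp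
    rw [Ex_sub, Ex_add, h1.2] at this
    linarith
  · have hst : 0 < s + t := by linarith
    let l := s / (s + t)
    have hl0 : 0 ≤ l := by positivity
    have hl1 : l ≤ 1 := div_le_one_of_le₀ (by linarith) hst.le
    have hl : l * (s + t) = s := div_mul_cancel₀ _ hst.ne'
    obtain ⟨μ', h1, h2, h3⟩ := exists_coin hμ (fun x => (1 - l) * ind (x false) + l * ind (x true))
      (fun x => by cases x false <;> cases x true <;> simp [hl0, hl1])
      (fun x => by cases x false <;> cases x true <;> simp [hl0, hl1])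
      (by rw [Ex_add, Ex_const_mul, Ex_const_mul, hμ.2, hμ.2]; ring)
    have hK' := hμ.KK_le false true
    refine ⟨μ', h1, h2, ?_, ?_⟩
    · have : KK μ' (.inl false) (.inr ()) = (1 - l) * p + l * KK μ false true := by
        rw [KK, h3, KK, ← hμ.2 false, ← Ex_const_mul, ← Ex_const_mul, ← Ex_add]
        exact Ex_congr fun x => by
          simp only [Sum.elim_inl, Sum.elim_inr]
          cases x false <;> cases x true <;> simp
      rw [this]
      nlinarith
    · have : KK μ' (.inr ()) (.inl true) = (1 - l) * KK μ false true + l * p := by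
        rw [KK, h3, KK, ← hμ.2 true, ← Ex_const_mul, ← Ex_const_mul, ← Ex_add]
        exact Ex_congr fun x => by
          simp only [Sum.elim_inl, Sum.elim_inr]
          cases x false <;> cases x true <;> simp
      rw [this]
      nlinarith

theorem SG.nsmul (hp : p ≤ 1) {s : ℝ} (h : SG p s) (hs : 0 < s) (m : ℕ) :
    SG p ((m + 1) * s) := by
  induction m with
  | zero => simpa using h
  | succ m ih =>
    have := ih.add hp h (by positivity) hs
    convert this using 1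
    push_cast
    ring

theorem og_base (p : ℝ) : OG p (1 - p) := by
  intro τ _ _ _
  refine ⟨{ W := Unit, H := ⊥, att := fun _ _ => True, need := fun _ => True }, fun μ hμ => ?_⟩
  constructor
  · intro h
    obtain ⟨ν, h1, h2, h3, h4⟩ := h.model hμ.1.1
    have hν : IsProb ν := ⟨h1, by
      have := hμ.1.2
      rwa [← h2, ← Ex_one, Ex_law, Ex_one] at this⟩
    have := Ex_mono' (f := fun _ => 1)
      (g := fun z => ind (decide (∃ s, z.1 s = true)) + ind (z.2 ())) h1 fun z hz => by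
        rcases h3 z hz () trivial with h | ⟨u, h, -⟩ | ⟨s, -, h⟩
        · rw [h]; simpa using ind_nonneg _
        · exact h.elim
        · rw [decide_eq_true ⟨s, h⟩]; simpa using ind_nonneg _
    rw [hν.Ex_const, Ex_add] at this
    have e : UU μ = Ex ν fun z => ind (decide (∃ s, z.1 s = true)) := by rw [UU, ← h2, Ex_law]
    have := h4 ()
    linarith
  · intro h
    rw [← law_id μ]
    refine Gad.ext_of_model _ hμ.1.1 _ (fun x _ => !decide (∃ s, x s = true)) (fun x _ w _ => ?_)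
      fun w => ?_
    · by_cases e : ∃ s, x s = true
      · obtain ⟨s, hs⟩ := e
        exact Or.inr (Or.inr ⟨s, trivial, hs⟩)
      · exact Or.inl (by simpa using e)
    · have : Ex μ (fun x => ind (!decide (∃ s, x s = true))) = 1 - UU μ := by
        rw [UU, ← hμ.1.Ex_const 1, ← Ex_sub]
        exact Ex_congr fun x => by
          cases decide (∃ s, x s = true) <;> simp
      rw [this]
      linarith

theorem OG.step (hp0 : 0 < p) (hp : p ≤ 1) {c s : ℝ} (h : OG p c) (h' : SG p s) (hc : c ≤ 1)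
    (hs : 0 ≤ s) (hsp : s ≤ p) : OG p (c - s) := by
  intro τ _ _ a
  refine (Real.ex hp ((h'.pull (T := τ ⊕ Unit) (.inl a) (.inr ())).and
    (h _ (.inr ())))).congr fun μ hμ => ⟨?_, fun hK => ?_⟩
  · rintro ⟨μ', h1, rfl, h2, h3⟩
    simp only [KK, UU, Ex_law] at h2 h3 ⊢
    have := Ex_mono (f := fun x : τ ⊕ Unit → Bool => ind (decide (∃ s, x s = true)))
      (g := fun x => ind (decide (∃ s, x (.inl s) = true)) + (ind (x (.inr ())) -
        ind (x (.inl a)) * ind (x (.inr ())))) h1.1.1 fun x => by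
        by_cases e : ∃ s, x (.inl s) = true
        · rw [decide_eq_true e]
          generalize decide (∃ s, x s = true) = d
          cases d <;> cases x (.inl a) <;> cases x (.inr ()) <;> norm_num
        · have e1 : x (.inl a) = false := by
            by_contra e'
            exact e ⟨a, by simpa using e'⟩
          rw [e1, decide_eq_false e]
          cases e2 : x (.inr ())
          · rw [decide_eq_false]
            · simp
            · rintro ⟨s | s, hs⟩
              · exact e ⟨s, hs⟩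
              · rw [e2] at hs; exact absurd hs (by simp)
          · simpa using ind_le_one _
    rw [Ex_add, Ex_sub, h1.2] at this
    linarith
  · set u := UU μ with hu
    have hu1 : u ≤ 1 := by
      rw [hu, UU, ← hμ.1.Ex_const 1]
      exact Ex_mono hμ.1.1 fun x => ind_le_one _
    let m := max 0 (c - u)
    have hm0 : 0 ≤ m := le_max_left _ _
    have hm1 : c - u ≤ m := le_max_right _ _
    have hm2 : m ≤ s := max_le hs (by linarith)
    have hm3 : m ≤ 1 - u := max_le (by linarith) (by linarith)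
    let α := m / p
    let γ := m / (1 - u)
    have hα0 : 0 ≤ α := by positivity
    have hα1 : α ≤ 1 := div_le_one_of_le₀ (by linarith) hp0.le
    have hα : α * p = m := div_mul_cancel₀ _ hp0.ne'
    have hγ0 : 0 ≤ γ := div_nonneg hm0 (by linarith)
    have hγ1 : γ ≤ 1 := div_le_one_of_le₀ hm3 (by linarith)
    have hγ : γ * (1 - u) = m := by
      by_cases e : 1 - u = 0
      · rw [e]; linarith
      · exact div_mul_cancel₀ _ e
    have hcase : ∀ x : τ → Bool, (x a = true ∧ decide (∃ s, x s = true) = true) ∨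
        (x a = false ∧ decide (∃ s, x s = true) = true) ∨
        (x a = false ∧ decide (∃ s, x s = true) = false) := by
      intro x
      cases e : x a
      · cases decide (∃ s, x s = true) <;> simp
      · exact Or.inl ⟨rfl, decide_eq_true ⟨a, e⟩⟩
    have hN : Ex μ (fun x => 1 - ind (decide (∃ s, x s = true))) = 1 - u := by
      rw [Ex_sub, hμ.1.Ex_const]; rfl
    obtain ⟨μ', h1, h2, h3⟩ := exists_coin hμ
      (fun x => (1 - α) * ind (x a) + γ * (1 - ind (decide (∃ s, x s = true))))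
      (fun x => by rcases hcase x with ⟨e, e'⟩ | ⟨e, e'⟩ | ⟨e, e'⟩ <;> simp [e, e', hα1, hγ0])
      (fun x => by rcases hcase x with ⟨e, e'⟩ | ⟨e, e'⟩ | ⟨e, e'⟩ <;> simp [e, e', hα0, hγ1])
      (by rw [Ex_add, Ex_const_mul, Ex_const_mul, hμ.2, hN]; linarith)
    refine ⟨μ', h1, h2, ?_, ?_⟩
    · have : KK μ' (.inl a) (.inr ()) = (1 - α) * p := by
        rw [KK, h3, ← hμ.2 a, ← Ex_const_mul]
        exact Ex_congr fun x => by
          simp only [Sum.elim_inl, Sum.elim_inr]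
          rcases hcase x with ⟨e, e'⟩ | ⟨e, e'⟩ | ⟨e, e'⟩ <;> simp [e, e']
      rw [this]
      linarith
    · have : UU μ' = u + γ * (1 - u) := by
        rw [UU, h3, ← hN, ← Ex_const_mul, hu, UU, ← Ex_add]
        refine Ex_congr fun x => ?_
        have e1 : decide (∃ s, Sum.elim x (fun _ : Unit => true) s = true) = true :=
          decide_eq_true ⟨.inr (), rfl⟩
        have e2 : decide (∃ s, Sum.elim x (fun _ : Unit => false) s = true) =
            decide (∃ s, x s = true) := by simp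
        rw [e1, e2]
        rcases hcase x with ⟨e, e'⟩ | ⟨e, e'⟩ | ⟨e, e'⟩ <;> simp [e, e']
      rw [this]
      linarith

theorem og_iter (hp0 : 0 < p) (hp : p ≤ 1) {s : ℝ} (h' : SG p s) (hs : 0 ≤ s) (hsp : s ≤ p)
    (i : ℕ) : OG p (1 - p - i * s) := by
  induction i with
  | zero => simpa using og_base p
  | succ i ih =>
    have := ih.step hp0 hp h' (by have : 0 ≤ (i : ℝ) * s := by positivity
                                  linarith) hs hsp
    convert this using 1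
    push_cast
    ring

theorem OG.dg {c : ℝ} (h : OG p c) : DG p (c - p) := by
  refine (h Bool true).congr fun μ hμ => ?_
  have : UU μ = 2 * p - KK μ false true := by
    rw [two_mul]
    nth_rewrite 1 [← hμ.2 false]
    rw [← hμ.2 true, KK, ← Ex_add, ← Ex_sub]
    exact Ex_congr fun x => by
      cases e : x false <;> cases e' : x true <;> simp [e, e']
  rw [this]
  constructor <;> intro h <;> linarith

end Pool.Agent.MP_9e68e9_lc

end

section

/-! Two-terminal gadgets and their thresholds. -/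

namespace Pool.Agent.MP_9e68e9_lc

open Finset

/-- A pair of bits. -/
def mk2 (a b : Bool) : Bool → Bool := fun c => cond c b a

theorem sum2 (F : (Bool → Bool) → ℝ) : ∑ x, F x =
    F (mk2 false false) + F (mk2 false true) + F (mk2 true false) + F (mk2 true true) := by
  have e : ∀ a b, (Equiv.boolArrowEquivProd Bool).symm (a, b) = mk2 a b := by
    intro a b
    funext c
    cases c <;> rfl
  rw [← (Equiv.boolArrowEquivProd Bool).symm.sum_comp, Fintype.sum_prod_type]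
  simp only [Fintype.sum_bool, e]
  ring

theorem eq_mk2 (x : Bool → Bool) : x = mk2 (x false) (x true) := by
  funext c
  cases c <;> rfl

/-- The law of two events of probability `p` whose intersection has probability `K`. -/
def law2 (p K : ℝ) : (Bool → Bool) → ℝ := fun x =>
  cond (x false) (cond (x true) K (p - K)) (cond (x true) (p - K) (1 - 2 * p + K))

variable {p : ℝ}

theorem Bal.eq_law2 {μ : (Bool → Bool) → ℝ} (h : Bal p μ) : μ = law2 p (KK μ false true) := by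
  have h1 := h.1.2
  have h2 := h.2 false
  have h3 := h.2 true
  simp only [Ex, sum2, mk2, cond_true, cond_false, ind_true, ind_false] at h1 h2 h3
  funext x
  rw [eq_mk2 x]
  cases x false <;> cases x true <;>
    simp only [law2, KK, Ex, sum2, mk2, cond_true, cond_false, ind_true, ind_false] <;> linarith

theorem bal_law2 {K : ℝ} (hp : 2 * p ≤ 1) (h0 : 0 ≤ K) (h1 : K ≤ p) : Bal p (law2 p K) := by
  refine ⟨⟨fun x => ?_, ?_⟩, ?_⟩
  · unfold law2
    cases x false <;> cases x true <;> simp only [cond_true, cond_false] <;> linarith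
  · simp only [sum2, law2, mk2, cond_true, cond_false]
    ring
  · rintro (_ | _) <;> simp only [Ex, sum2, law2, mk2, cond_true, cond_false, ind_true, ind_false] <;>
      ring

theorem KK_law2 (K : ℝ) : KK (law2 p K) false true = K := by
  simp only [KK, Ex, sum2, law2, mk2, cond_true, cond_false, ind_true, ind_false]
  ring

theorem Gad.mix2 (Γ : Gad Bool) {p q K M a b : ℝ} (hp : 2 * p ≤ 1) (hq : 2 * q ≤ 1) (hK : 0 ≤ K)
    (hK' : K ≤ p) (hM : 0 ≤ M) (hM' : M ≤ q) (h : Γ.Ext p (law2 p K)) (h' : Γ.Ext q (law2 q M))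
    (ha : 0 ≤ a) (hb : 0 ≤ b) (hab : a + b = 1) {r N : ℝ} (hr : r = a * p + b * q)
    (hN : N = a * K + b * M) : Γ.Ext r (law2 r N) := by
  have := h.mix (bal_law2 hp hK hK').1.1 (bal_law2 hq hM hM').1.1 h' ha hb
  subst hr hN
  convert this using 1
  funext x
  obtain rfl : b = 1 - a := by linarith
  unfold law2
  cases x false <;> cases x true <;> simp only [cond_true, cond_false] <;> ring

theorem Gad.between (Γ : Gad Bool) {K M N : ℝ} (hp : 2 * p ≤ 1) (hK : 0 ≤ K) (hM : M ≤ p)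
    (h : Γ.Ext p (law2 p K)) (h' : Γ.Ext p (law2 p M)) (h1 : K ≤ N) (h2 : N ≤ M) :
    Γ.Ext p (law2 p N) := by
  by_cases e : K = M
  · obtain rfl : N = M := by linarith
    exact h'
  · have hKM : 0 < M - K := by
      rcases lt_or_eq_of_le (h1.trans h2) with h | h
      · linarith
      · exact absurd h e
    refine Γ.mix2 hp hp hK (by linarith) (by linarith) hM h h' (a := (M - N) / (M - K))
      (b := (N - K) / (M - K)) (div_nonneg (by linarith) hKM.le) (div_nonneg (by linarith) hKM.le)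
      ?_ ?_ ?_ <;> field_simp <;> ring

theorem sg_of (Γ : Gad Bool) (hp : 2 * p ≤ 1) {K s' : ℝ} (hK : 0 ≤ K) (hK' : K ≤ p)
    (h1 : Γ.Ext p (law2 p p)) (h2 : Γ.Ext p (law2 p K))
    (h3 : ∀ μ, Bal p μ → Γ.Ext p μ → p - s' ≤ KK μ false true) :
    ∃ s, p - K ≤ s ∧ s ≤ s' ∧ SG p s := by
  let I : Set ℝ := Set.Icc 0 p ∩ (law2 p) ⁻¹' {μ | IsProb μ ∧ Γ.Ext p μ}
  have hc : Continuous (law2 p) := by
    refine continuous_pi fun x => ?_
    unfold law2
    cases x false <;> cases x true <;> simp only [cond_true, cond_false] <;> fun_prop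
  have hI : IsClosed I := isClosed_Icc.inter ((Γ.isClosed_ext p).preimage hc)
  have hKI : K ∈ I := ⟨⟨hK, hK'⟩, (bal_law2 hp hK hK').1, h2⟩
  have hb : BddBelow I := ⟨0, fun x hx => hx.1.1⟩
  have hm := hI.csInf_mem ⟨K, hKI⟩ hb
  refine ⟨p - sInf I, by linarith [csInf_le hb hKI], ?_, Γ, fun μ hμ => ⟨fun h => ?_, fun h => ?_⟩⟩
  · have := h3 _ (bal_law2 hp hm.1.1 hm.1.2) hm.2.2
    rw [KK_law2] at this
    linarith
  · have : KK μ false true ∈ I := ⟨⟨hμ.KK_nonneg _ _, hμ.KK_le _ _⟩, by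
      change IsProb _ ∧ _
      rw [← hμ.eq_law2]
      exact ⟨hμ.1, h⟩⟩
    linarith [csInf_le hb this]
  · rw [hμ.eq_law2]
    exact Γ.between hp hm.1.1 le_rfl hm.2.2 h1 (by linarith) (hμ.KK_le _ _)

theorem sg_exact (Γ : Gad Bool) (hp : 2 * p ≤ 1) {s : ℝ} (hs : s ≤ p)
    (h1 : Γ.Ext p (law2 p p)) (h2 : Γ.Ext p (law2 p (p - s)))
    (h3 : ∀ μ, Bal p μ → Γ.Ext p μ → p - s ≤ KK μ false true) : SG p s :=
  ⟨Γ, fun μ hμ => ⟨h3 μ hμ, fun h => by
    rw [hμ.eq_law2]
    exact Γ.between hp (by linarith) le_rfl h2 h1 h (hμ.KK_le _ _)⟩⟩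

theorem dg_exact (Γ : Gad Bool) (hp : 2 * p ≤ 1) {L : ℝ} (hL : 0 ≤ L)
    (h1 : Γ.Ext p (law2 p 0)) (h2 : Γ.Ext p (law2 p (p - L)))
    (h3 : ∀ μ, Bal p μ → Γ.Ext p μ → KK μ false true ≤ p - L) : DG p L :=
  ⟨Γ, fun μ hμ => ⟨h3 μ hμ, fun h => by
    rw [hμ.eq_law2]
    exact Γ.between hp le_rfl (by linarith) h1 h2 (hμ.KK_nonneg _ _) h⟩⟩

end Pool.Agent.MP_9e68e9_lc

end

section

/-! Product measures on the cube: a spectral bound for the noise operator and a second moment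
bound. -/

namespace Pool.Agent.MP_9e68e9_lc

open Finset

/-- Product weights. -/
def pw {α : Type} (ω : α → ℝ) (k : ℕ) (z : Fin k → α) : ℝ := ∏ i, ω (z i)

theorem Ex_pw_zero {α : Type} [Fintype α] (ω : α → ℝ) (F : (Fin 0 → α) → ℝ) :
    Ex (pw ω 0) F = F default := by
  simp [Ex, pw]

theorem Ex_pw_succ {α : Type} [Fintype α] (ω : α → ℝ) (k : ℕ) (F : (Fin (k + 1) → α) → ℝ) :
    Ex (pw ω (k + 1)) F = Ex (pw ω k) (fun z => ∑ a, ω a * F (Fin.cons a z)) := by
  simp only [Ex, pw]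
  rw [← (Fin.consEquiv fun _ : Fin (k + 1) => α).sum_comp, Fintype.sum_prod_type, Finset.sum_comm]
  refine Finset.sum_congr rfl fun z _ => ?_
  rw [Finset.mul_sum]
  refine Finset.sum_congr rfl fun a _ => ?_
  simp only [Fin.consEquiv_apply, Fin.prod_univ_succ, Fin.cons_zero, Fin.cons_succ]
  have : (Fin.consEquiv fun _ : Fin (k + 1) => α) (a, z) = Fin.cons a z := rfl
  rw [this]
  ring

theorem isProb_pw {α : Type} [Fintype α] {ω : α → ℝ} (h : IsProb ω) (k : ℕ) : IsProb (pw ω k) :=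
  isProb_pi (κ := fun _ : Fin k => ω) fun _ => h

theorem second_moment {α : Type} [Fintype α] {ω : α → ℝ} (h : IsProb ω) {g : α → ℝ}
    (h0 : ∑ a, ω a * g a = 0) (h1 : ∀ a, g a ^ 2 ≤ 1) (k : ℕ) :
    Ex (pw ω k) (fun z => ∑ i, g (z i)) = 0 ∧ Ex (pw ω k) (fun z => (∑ i, g (z i)) ^ 2) ≤ k := by
  induction k with
  | zero => simp [Ex_pw_zero]
  | succ k ih =>
    have hk := isProb_pw h k
    constructor
    · rw [Ex_pw_succ, ← ih.1]
      refine Ex_congr fun z => ?_
      simp only [Fin.sum_univ_succ, Fin.cons_zero, Fin.cons_succ, mul_add, Finset.sum_add_distrib,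
        h0, ← Finset.sum_mul, h.2]
      ring
    · rw [Ex_pw_succ]
      have h2 : ∑ a, ω a * g a ^ 2 ≤ 1 := by
        rw [← h.2]
        exact Finset.sum_le_sum fun a _ => by nlinarith [h.1 a, h1 a]
      have : Ex (pw ω k) (fun z => ∑ a, ω a * (∑ i, g ((Fin.cons a z : Fin (k + 1) → α) i)) ^ 2) ≤
          Ex (pw ω k) (fun z => 1 + (∑ i, g (z i)) ^ 2) := by
        refine Ex_mono hk.1 fun z => ?_
        simp only [Fin.sum_univ_succ, Fin.cons_zero, Fin.cons_succ]
        generalize ∑ i, g (z i) = S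
        have : ∑ a, ω a * (g a + S) ^ 2 =
            ∑ a, ω a * g a ^ 2 + 2 * S * ∑ a, ω a * g a + S ^ 2 * ∑ a, ω a := by
          simp only [Finset.mul_sum, ← Finset.sum_add_distrib]
          exact Finset.sum_congr rfl fun a _ => by ring
        rw [this, h0, h.2]
        linarith
      rw [Ex_add, hk.Ex_const] at this
      push_cast
      linarith [ih.2]

/-- The biased bit. -/
def wt (β : ℝ) (a : Bool) : ℝ := cond a (1 - β) β

/-- A pair of correlated biased bits. -/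
def tw (β θ : ℝ) (z : Bool × Bool) : ℝ :=
  θ * (if z.1 = z.2 then wt β z.1 else 0) + (1 - θ) * wt β z.1 * wt β z.2

theorem isProb_wt {β : ℝ} (h0 : 0 ≤ β) (h1 : β ≤ 1) : IsProb (wt β) :=
  ⟨by rintro (_ | _) <;> simp [wt, h0, h1], by simp [wt]⟩

theorem isProb_tw {β θ : ℝ} (h0 : 0 ≤ β) (h1 : β ≤ 1) (h2 : θ ≤ 1) (h3 : 0 ≤ θ + (1 - θ) * β)
    (h4 : 0 ≤ θ + (1 - θ) * (1 - β)) : IsProb (tw β θ) := by
  have : 0 ≤ (1 - θ) * β * (1 - β) := mul_nonneg (mul_nonneg (by linarith) h0) (by linarith)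
  refine ⟨?_, ?_⟩
  · rintro ⟨_ | _, _ | _⟩ <;> simp [tw, wt]
    · nlinarith
    · nlinarith
    · nlinarith
    · nlinarith
  · simp [Fintype.sum_prod_type, tw, wt]
    ring

/-- First components. -/
def fs {k : ℕ} (z : Fin k → Bool × Bool) : Fin k → Bool := fun i => (z i).1

/-- Second components. -/
def sn {k : ℕ} (z : Fin k → Bool × Bool) : Fin k → Bool := fun i => (z i).2

theorem fs_cons {k : ℕ} (a : Bool × Bool) (z : Fin k → Bool × Bool) :
    fs (Fin.cons a z : Fin (k + 1) → Bool × Bool) = Fin.cons a.1 (fs z) := by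
  funext i
  refine Fin.cases ?_ (fun i => ?_) i <;> simp [fs]

theorem sn_cons {k : ℕ} (a : Bool × Bool) (z : Fin k → Bool × Bool) :
    sn (Fin.cons a z : Fin (k + 1) → Bool × Bool) = Fin.cons a.2 (sn z) := by
  funext i
  refine Fin.cases ?_ (fun i => ?_) i <;> simp [sn]

/-- The quadratic form of the noise operator. -/
def QQ (β θ : ℝ) {k : ℕ} (f : (Fin k → Bool) → ℝ) : ℝ :=
  Ex (pw (tw β θ) k) (fun z => f (fs z) * f (sn z))

/-- Variance under the biased product measure. -/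
def Var (β : ℝ) {k : ℕ} (f : (Fin k → Bool) → ℝ) : ℝ :=
  Ex (pw (wt β) k) (fun y => f y ^ 2) - Ex (pw (wt β) k) f ^ 2

theorem Var_eq {β : ℝ} (h0 : 0 ≤ β) (h1 : β ≤ 1) {k : ℕ} (f : (Fin k → Bool) → ℝ) :
    Var β f = Ex (pw (wt β) k) (fun y => (f y - Ex (pw (wt β) k) f) ^ 2) := by
  have hk := isProb_pw (isProb_wt h0 h1) k
  unfold Var
  generalize hm : Ex (pw (wt β) k) f = m
  have : Ex (pw (wt β) k) (fun y => (f y - m) ^ 2) =
      Ex (pw (wt β) k) (fun y => f y ^ 2 - (2 * m * f y - m ^ 2)) := Ex_congr fun y => by ring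
  rw [this, Ex_sub, Ex_sub, Ex_const_mul, hk.Ex_const, hm]
  ring

theorem Var_nonneg {β : ℝ} (h0 : 0 ≤ β) (h1 : β ≤ 1) {k : ℕ} (f : (Fin k → Bool) → ℝ) :
    0 ≤ Var β f := by
  rw [Var_eq h0 h1]
  exact Ex_nonneg (isProb_pw (isProb_wt h0 h1) k).1 fun _ => sq_nonneg _

theorem spectral {β θ : ℝ} (h0 : 0 ≤ β) (h1 : β ≤ 1) (hθ : |θ| ≤ 1) (k : ℕ)
    (f : (Fin k → Bool) → ℝ) : |QQ β θ f - Ex (pw (wt β) k) f ^ 2| ≤ |θ| * Var β f := by
  induction k with
  | zero =>
    obtain ⟨c, rfl⟩ : ∃ c, f = fun _ => c :=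
      ⟨f default, funext fun x => congrArg f (Subsingleton.elim _ _)⟩
    simp [QQ, Var, Ex_pw_zero, sq]
  | succ k ih =>
    let g : (Fin k → Bool) → ℝ := fun y => (1 - β) * f (Fin.cons true y) + β * f (Fin.cons false y)
    let d : (Fin k → Bool) → ℝ := fun y => f (Fin.cons true y) - f (Fin.cons false y)
    have eQ : QQ β θ f = QQ β θ g + θ * (β * (1 - β)) * QQ β θ d := by
      simp only [QQ]
      rw [Ex_pw_succ, ← Ex_const_mul, ← Ex_add]
      refine Ex_congr fun z => ?_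
      simp [Fintype.sum_prod_type, fs_cons, sn_cons, tw, wt, g, d]
      ring
    have eM : Ex (pw (wt β) (k + 1)) f = Ex (pw (wt β) k) g := by
      rw [Ex_pw_succ]
      exact Ex_congr fun z => by simp [wt, g]
    have eN : Ex (pw (wt β) (k + 1)) (fun y => f y ^ 2) = Ex (pw (wt β) k) (fun y => g y ^ 2) +
        β * (1 - β) * Ex (pw (wt β) k) (fun y => d y ^ 2) := by
      rw [Ex_pw_succ, ← Ex_const_mul, ← Ex_add]
      refine Ex_congr fun z => ?_
      simp [wt, g, d]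
      ring
    have hd : |QQ β θ d| ≤ Ex (pw (wt β) k) (fun y => d y ^ 2) := by
      have a1 := ih d
      have a2 := Var_nonneg h0 h1 d
      have a3 : |θ| * Var β d ≤ Var β d := by nlinarith
      have a4 := sq_nonneg (Ex (pw (wt β) k) d)
      rw [abs_le] at a1 ⊢
      unfold Var at a1 a2 a3
      constructor <;> linarith [a1.1, a1.2]
    have hb : 0 ≤ β * (1 - β) := mul_nonneg h0 (by linarith)
    have h2 : |θ * (β * (1 - β)) * QQ β θ d| ≤
        |θ| * (β * (1 - β) * Ex (pw (wt β) k) (fun y => d y ^ 2)) := by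
      rw [abs_mul, abs_mul, abs_of_nonneg hb, mul_assoc]
      exact mul_le_mul_of_nonneg_left (mul_le_mul_of_nonneg_left hd hb) (abs_nonneg _)
    have h3 := ih g
    unfold Var at h3 ⊢
    rw [eQ, eM, eN]
    calc _ = |(QQ β θ g - Ex (pw (wt β) k) g ^ 2) + θ * (β * (1 - β)) * QQ β θ d| := by ring_nf
      _ ≤ _ := abs_add_le _ _
      _ ≤ _ := by linarith

theorem Var_comb {β : ℝ} (h0 : 0 ≤ β) (h1 : β ≤ 1) {k : ℕ} (f g : (Fin k → Bool) → ℝ) :
    Var β (fun y => (1 - β) * f y - β * g y) ≤ (1 - β) * Var β f + β * Var β g := by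
  rw [Var_eq h0 h1, Var_eq h0 h1, Var_eq h0 h1, Ex_sub, Ex_const_mul, Ex_const_mul]
  generalize Ex (pw (wt β) k) f = m
  generalize Ex (pw (wt β) k) g = n
  rw [← Ex_const_mul, ← Ex_const_mul, ← Ex_add]
  refine Ex_mono (isProb_pw (isProb_wt h0 h1) k).1 fun y => ?_
  have : 0 ≤ β * (1 - β) * ((f y - m) + (g y - n)) ^ 2 :=
    mul_nonneg (mul_nonneg h0 (by linarith)) (sq_nonneg _)
  nlinarith

end Pool.Agent.MP_9e68e9_lc

end
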