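import Mathlib
import Pool.Agent.Mg.F2e8011.Gdf71e3

section

/-! Finite probability spaces: splitting, products, couplings. -/

namespace Pool.Agent.MP_9e68e9_lc.Low

open Finset

/-- A finite probability space. -/
structure PS where
  /-- sample points -/
  ι : Type
  /-- finiteness -/
  fin : Fintype ι
  /-- weights -/
  w : ι → ℝ
  /-- nonnegativity -/
  nonneg : ∀ i, 0 ≤ w i
  /-- total mass -/
  sum_one : ∑ i, w i = 1

instance (S : PS) : Fintype S.ι := S.fin

open Classical in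
/-- Probability of an event. -/
noncomputable def PS.P (S : PS) (X : S.ι → Prop) : ℝ := ∑ i, if X i then S.w i else 0

namespace PS
variable (S : PS) {X Y Z : S.ι → Prop}

theorem P_nonneg (X : S.ι → Prop) : 0 ≤ S.P X :=
  sum_nonneg fun i _ => by split_ifs; exacts [S.nonneg i, le_rfl]

theorem cover (h : ∀ i, X i → Y i ∨ Z i) : S.P X ≤ S.P Y + S.P Z := by
  unfold P
  rw [← sum_add_distrib]
  refine sum_le_sum fun i _ => ?_
  have := S.nonneg i
  have := h i
  split_ifs <;> first | linarith | tauto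

theorem disj (h1 : ∀ i, Y i → X i) (h2 : ∀ i, Z i → X i) (h : ∀ i, Y i → ¬ Z i) :
    S.P Y + S.P Z ≤ S.P X := by
  unfold P
  rw [← sum_add_distrib]
  refine sum_le_sum fun i _ => ?_
  have := S.nonneg i
  have := h i
  have := h1 i
  have := h2 i
  split_ifs <;> first | linarith | tauto

theorem mono (h : ∀ i, X i → Y i) : S.P X ≤ S.P Y := by
  refine sum_le_sum fun i _ => ?_
  have := S.nonneg i
  have := h i
  split_ifs <;> first | linarith | tauto

theorem congr (h : ∀ i, X i ↔ Y i) : S.P X = S.P Y :=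
  le_antisymm (S.mono fun i => (h i).1) (S.mono fun i => (h i).2)

theorem P_all (h : ∀ i, X i) : S.P X = 1 := by
  simp only [P, h, if_true]; exact S.sum_one

theorem P_none (h : ∀ i, ¬ X i) : S.P X = 0 := by
  simp [P, h]

theorem add_eq (h : ∀ i, X i ↔ Y i ∨ Z i) (h' : ∀ i, Y i → ¬ Z i) : S.P X = S.P Y + S.P Z :=
  le_antisymm (S.cover fun i => (h i).1)
    (S.disj (fun i e => (h i).2 (Or.inl e)) (fun i e => (h i).2 (Or.inr e)) h')

theorem P_not (X : S.ι → Prop) : S.P (fun i => ¬ X i) = 1 - S.P X := by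
  have := S.add_eq (X := fun _ => True) (Y := X) (Z := fun i => ¬ X i) (fun i => by tauto)
    (fun i => by tauto)
  rw [S.P_all fun _ => trivial] at this
  linarith

/-- Product of two spaces. -/
def prod (S T : PS) : PS where
  ι := S.ι × T.ι
  fin := inferInstance
  w p := S.w p.1 * T.w p.2
  nonneg p := mul_nonneg (S.nonneg _) (T.nonneg _)
  sum_one := by
    rw [Fintype.sum_prod_type]
    simp only [← mul_sum]
    have := T.sum_one
    have := S.sum_one
    simp_all

theorem prod_and (S T : PS) (X : S.ι → Prop) (Y : T.ι → Prop) :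
    (S.prod T).P (fun p => X p.1 ∧ Y p.2) = S.P X * T.P Y := by
  unfold P
  rw [sum_mul_sum]
  refine (Fintype.sum_prod_type _).trans (sum_congr rfl fun i _ => sum_congr rfl fun j _ => ?_)
  by_cases h1 : X i <;> by_cases h2 : Y j <;> simp [h1, h2, prod]

theorem prod_fst (S T : PS) (X : S.ι → Prop) : (S.prod T).P (fun p => X p.1) = S.P X := by
  have := prod_and S T X fun _ => True
  rw [T.P_all fun _ => trivial, mul_one] at this
  simpa using this

theorem prod_snd (S T : PS) (Y : T.ι → Prop) : (S.prod T).P (fun p => Y p.2) = T.P Y := by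
  have := prod_and S T (fun _ => True) Y
  rw [S.P_all fun _ => trivial, one_mul] at this
  simpa using this

/-- A biased coin. -/
def coin (l : ℝ) (h0 : 0 ≤ l) (h1 : l ≤ 1) : PS where
  ι := Bool
  fin := inferInstance
  w b := if b then l else 1 - l
  nonneg b := by cases b <;> simp <;> linarith
  sum_one := by simp

theorem coin_true (l : ℝ) (h0 : 0 ≤ l) (h1 : l ≤ 1) :
    (coin l h0 h1).P (fun b : Bool => b = true) = l := by
  unfold P
  refine (Fintype.sum_bool _).trans ?_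
  simp [coin]

theorem coin_false (l : ℝ) (h0 : 0 ≤ l) (h1 : l ≤ 1) :
    (coin l h0 h1).P (fun b : Bool => b = false) = 1 - l := by
  unfold P
  refine (Fintype.sum_bool _).trans ?_
  simp [coin]

theorem exists_lam {a b c : ℝ} (h1 : a ≤ c) (h2 : c ≤ b) :
    ∃ l, 0 ≤ l ∧ l ≤ 1 ∧ c = a * (1 - l) + b * l := by
  rcases eq_or_lt_of_le (h1.trans h2) with e | e
  · exact ⟨0, le_rfl, zero_le_one, by linarith⟩
  · have : 0 < b - a := by linarith
    refine ⟨(c - a) / (b - a), div_nonneg (by linarith) this.le, (div_le_one this).2 (by linarith),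
      ?_⟩
    field_simp
    ring

theorem coin_mix (l : ℝ) (h0 : 0 ≤ l) (h1 : l ≤ 1) (X Y : S.ι → Prop) :
    (S.prod (coin l h0 h1)).P (fun i => (X i.1 ∧ i.2 = false) ∨ (Y i.1 ∧ i.2 = true)) =
      S.P X * (1 - l) + S.P Y * l := by
  have e1 := prod_and S (coin l h0 h1) X (fun b : Bool => b = false)
  have e2 := prod_and S (coin l h0 h1) Y (fun b : Bool => b = true)
  rw [coin_false] at e1
  rw [coin_true] at e2
  rw [← e1, ← e2]
  refine add_eq _ (fun i => Iff.rfl) fun i => ?_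
  rintro ⟨-, h⟩ ⟨-, h'⟩
  rw [h] at h'
  cases h'

/-- `π` is a measure preserving map. -/
def Pres (T S : PS) (π : T.ι → S.ι) : Prop := ∀ E : S.ι → Prop, T.P (fun i => E (π i)) = S.P E

theorem Pres.comp {U T S : PS} {π : T.ι → S.ι} {ρ : U.ι → T.ι} (h : Pres T S π)
    (h' : Pres U T ρ) : Pres U S (fun i => π (ρ i)) := fun E => (h' fun i => E (π i)).trans (h E)

theorem mix (S T : PS) (l : ℝ) (h0 : 0 ≤ l) (h1 : l ≤ 1) :
    ∃ (U : PS) (π : U.ι → S.ι) (ρ : U.ι → T.ι) (b : U.ι → Prop), ∀ X Y,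
      U.P (fun i => (¬ b i ∧ X (π i)) ∨ (b i ∧ Y (ρ i))) = S.P X * (1 - l) + T.P Y * l := by
  refine ⟨(S.prod T).prod (coin l h0 h1), fun i => i.1.1, fun i => i.1.2, fun i => i.2 = true,
    fun X Y => ?_⟩
  rw [← prod_fst S T, ← prod_snd S T, ← coin_mix _ l h0 h1]
  exact congr _ fun i => or_congr (and_comm.trans (and_congr_right fun _ => Bool.not_eq_true _ ▸
    Iff.rfl)) and_comm

theorem split (X Y : S.ι → Prop) (h : ∀ i, X i → Y i) (c : ℝ) (h1 : S.P X ≤ c) (h2 : c ≤ S.P Y) :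
    ∃ (T : PS) (π : T.ι → S.ι) (Z : T.ι → Prop), Pres T S π ∧ (∀ i, X (π i) → Z i) ∧
      (∀ i, Z i → Y (π i)) ∧ T.P Z = c := by
  obtain ⟨l, h3, h4, rfl⟩ := exists_lam h1 h2
  refine ⟨S.prod (coin l h3 h4), fun i => i.1,
    fun i => (X i.1 ∧ i.2 = false) ∨ (Y i.1 ∧ i.2 = true), prod_fst S _, fun i e => ?_,
    fun i e => ?_, ?_⟩
  · rcases i with ⟨i, _ | _⟩
    · exact Or.inl ⟨e, rfl⟩
    · exact Or.inr ⟨h _ e, rfl⟩
  · rcases e with e | e
    exacts [h _ e.1, e.1]
  · exact coin_mix _ l h3 h4 X Y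

theorem sub (Y : S.ι → Prop) (c : ℝ) (h1 : 0 ≤ c) (h2 : c ≤ S.P Y) :
    ∃ (T : PS) (π : T.ι → S.ι) (Z : T.ι → Prop), Pres T S π ∧ (∀ i, Z i → Y (π i)) ∧ T.P Z = c := by
  obtain ⟨T, π, Z, h3, -, h4, h5⟩ := S.split (fun _ => False) Y (fun _ => False.elim) c
    (by rwa [S.P_none fun _ => not_false]) h2
  exact ⟨T, π, Z, h3, h4, h5⟩

theorem couple (S T : PS) (A : S.ι → Prop) (B : T.ι → Prop) (hA : S.P A = 2 / 5)
    (hB : T.P B = 2 / 5) : ∃ (U : PS) (π : U.ι → S.ι) (ρ : U.ι → T.ι), Pres U S π ∧ Pres U T ρ ∧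
      U.P (fun i => ¬ (A (π i) ↔ B (ρ i))) = 0 := by
  classical
  have hA' := S.P_not A
  have hB' := T.P_not B
  rw [hA] at hA'
  rw [hB] at hB'
  replace hA' : ∑ i, (if A i then 0 else S.w i) = 3 / 5 := by
    rw [show (3 : ℝ) / 5 = 1 - 2 / 5 by norm_num, ← hA']
    exact sum_congr rfl fun i _ => by by_cases h : A i <;> simp [h]
  replace hB' : ∑ i, (if B i then 0 else T.w i) = 3 / 5 := by
    rw [show (3 : ℝ) / 5 = 1 - 2 / 5 by norm_num, ← hB']
    exact sum_congr rfl fun i _ => by by_cases h : B i <;> simp [h]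
  unfold P at hA hB
  let k : S.ι → T.ι → ℝ := fun i j =>
    if A i then (if B j then 5 / 2 else 0) else (if B j then 0 else 5 / 3)
  have k1 : ∀ i, ∑ j, T.w j * k i j = 1 := fun i => by
    by_cases h : A i
    · have : ∀ j, T.w j * k i j = 5 / 2 * if B j then T.w j else 0 := fun j => by
        simp only [k, if_pos h]; split_ifs <;> ring
      simp only [this, ← mul_sum]
      rw [hB]; norm_num
    · have : ∀ j, T.w j * k i j = 5 / 3 * if B j then 0 else T.w j := fun j => by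
        simp only [k, if_neg h]; by_cases h' : B j <;> simp [h', mul_comm]
      simp only [this, ← mul_sum]
      rw [hB']; norm_num
  have k2 : ∀ j, ∑ i, S.w i * k i j = 1 := fun j => by
    by_cases h : B j
    · have : ∀ i, S.w i * k i j = 5 / 2 * if A i then S.w i else 0 := fun i => by
        simp only [k, if_pos h]; split_ifs <;> ring
      simp only [this, ← mul_sum]
      rw [hA]; norm_num
    · have : ∀ i, S.w i * k i j = 5 / 3 * if A i then 0 else S.w i := fun i => by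
        simp only [k, if_neg h]; by_cases h' : A i <;> simp [h', mul_comm]
      simp only [this, ← mul_sum]
      rw [hA']; norm_num
  refine ⟨⟨S.ι × T.ι, inferInstance, fun p => S.w p.1 * (T.w p.2 * k p.1 p.2), fun p => ?_, ?_⟩,
    fun p => p.1, fun p => p.2, fun E => ?_, fun E => ?_, ?_⟩
  · refine mul_nonneg (S.nonneg _) (mul_nonneg (T.nonneg _) ?_)
    simp only [k]
    split_ifs <;> norm_num
  · rw [Fintype.sum_prod_type]
    simp only [← mul_sum, k1, mul_one]
    exact S.sum_one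
  · unfold P
    refine (Fintype.sum_prod_type _).trans (sum_congr rfl fun i _ => ?_)
    by_cases h : E i
    · simp only [h, if_true, ← mul_sum, k1, mul_one]
    · simp [h]
  · unfold P
    refine (Fintype.sum_prod_type_right _).trans (sum_congr rfl fun j _ => ?_)
    by_cases h : E j
    · simp only [h, if_true, mul_left_comm _ (T.w j), ← mul_sum, k2, mul_one]
    · simp [h]
  · refine sum_eq_zero fun p _ => ?_
    by_cases h1 : A p.1 <;> by_cases h2 : B p.2 <;> simp [h1, h2, k]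

/-- Independent coins of bias `2/5`. -/
noncomputable def cube (V : Type) [Fintype V] [DecidableEq V] : PS where
  ι := V → Bool
  fin := inferInstance
  w s := ∏ v, if s v then 2 / 5 else 3 / 5
  nonneg s := prod_nonneg fun v _ => by split_ifs <;> norm_num
  sum_one := by
    have := Finset.prod_univ_sum (fun _ : V => (univ : Finset Bool))
      (fun _ b => if b then (2 / 5 : ℝ) else 3 / 5)
    rw [Fintype.piFinset_univ] at this
    rw [← this]
    simp only [Fintype.sum_bool]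
    norm_num

theorem cube_pat {V : Type} [Fintype V] [DecidableEq V] (T : Finset V) (g : V → Bool) :
    (cube V).P (fun s : V → Bool => ∀ v ∈ T, s v = g v) =
      ∏ v ∈ T, if g v then (2 / 5 : ℝ) else 3 / 5 := by
  have := Finset.prod_univ_sum (fun _ : V => (univ : Finset Bool))
    (fun v b => if v ∈ T → b = g v then (if b then (2 / 5 : ℝ) else 3 / 5) else 0)
  rw [Fintype.piFinset_univ] at this
  unfold P
  refine Eq.trans (sum_congr rfl fun s _ => ?_) (this.symm.trans ?_)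
  · rw [Finset.prod_ite_zero]
    simp [cube]
  · rw [← Finset.prod_ite_mem_eq T]
    refine prod_congr rfl fun v _ => ?_
    rw [Fintype.sum_bool]
    by_cases h : v ∈ T
    · cases g v <;> simp [h]
    · simp only [h, false_imp_iff, if_true, if_false]
      norm_num

end PS

end Pool.Agent.MP_9e68e9_lc.Low

end

section

/-! Random dominating sets: local extension lemmas. -/

namespace Pool.Agent.MP_9e68e9_lc.Low

open Finset

variable {V : Type} {G G' : SimpleGraph V} {F F' : Set V} {p : ℝ}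

/-- `D` dominates every vertex outside `F`. -/
def Dom (G : SimpleGraph V) (F : Set V) (D : V → Prop) : Prop :=
  ∀ v, v ∉ F → D v ∨ ∃ t, G.Adj v t ∧ D t

/-- There is a random set with marginals at most `p` dominating every vertex outside `F`. -/
def Good (p : ℝ) (G : SimpleGraph V) (F : Set V) : Prop :=
  ∃ (S : PS) (D : S.ι → V → Prop), (∀ i, Dom G F (D i)) ∧ ∀ v, S.P (fun i => D i v) ≤ p

/-- Changing the membership of one vertex. -/
def upd (D : V → Prop) (x : V) (X : Prop) : V → Prop := fun t => (t = x ∧ X) ∨ (t ≠ x ∧ D t)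

theorem upd_le {S : PS} {D : S.ι → V → Prop} {X : S.ι → Prop} (x : V)
    (h : ∀ v, S.P (fun i => D i v) ≤ p) (hX : S.P X ≤ p) (v : V) :
    S.P (fun i => upd (D i) x (X i) v) ≤ p := by
  by_cases e : v = x
  · exact (S.mono fun i => by simp [upd, e]).trans hX
  · exact (S.mono fun i => by simp [upd, e]).trans (h v)

theorem Good.mono (h : Good p G' F') (hG : G' ≤ G) (hF : F' ⊆ F) : Good p G F := by
  obtain ⟨S, D, h1, h2⟩ := h
  refine ⟨S, D, fun i v hv => ?_, h2⟩
  rcases h1 i v (fun e => hv (hF e)) with h | ⟨t, h, h'⟩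
  exacts [Or.inl h, Or.inr ⟨t, hG h, h'⟩]

theorem Good.exact [Finite V] (h : Good p G F) (hp : p ≤ 1) :
    ∃ (S : PS) (D : S.ι → V → Prop), (∀ i, Dom G F (D i)) ∧ ∀ v, S.P (fun i => D i v) = p := by
  classical
  have key : ∀ T : Finset V, ∃ (S : PS) (D : S.ι → V → Prop), (∀ i, Dom G F (D i)) ∧
      (∀ v, S.P (fun i => D i v) ≤ p) ∧ ∀ v ∈ T, S.P (fun i => D i v) = p := by
    intro T
    induction T using Finset.induction_on with
    | empty => obtain ⟨S, D, h1, h2⟩ := h; exact ⟨S, D, h1, h2, by simp⟩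
    | insert x T _ ih =>
      obtain ⟨S, D, h1, h2, h3⟩ := ih
      obtain ⟨U, π, Z, k1, k2, -, k4⟩ := S.split (fun i => D i x) (fun _ => True)
        (fun _ _ => trivial) p (h2 x) (by rwa [S.P_all fun _ => trivial])
      refine ⟨U, fun i => upd (D (π i)) x (Z i), fun i v hv => ?_,
        upd_le x (fun v => (k1 fun i => D i v).trans_le (h2 v)) k4.le, fun v hv => ?_⟩
      · have := h1 (π i) v hv
        have := k2 i
        unfold upd
        grind
      · by_cases e : v = x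
        · exact (U.congr fun i => by simp [upd, e]).trans k4
        · exact (U.congr fun i => by simp [upd, e]).trans ((k1 fun i => D i v).trans
            (h3 v (by simpa [e] using hv)))
  haveI := Fintype.ofFinite V
  obtain ⟨S, D, h1, -, h3⟩ := key univ
  exact ⟨S, D, h1, fun v => h3 v (mem_univ v)⟩

theorem ear3 (S : PS) (A B : S.ι → Prop) (hA : S.P A = 2 / 5) (hB : S.P B = 2 / 5) :
    ∃ (T : PS) (π : T.ι → S.ι) (X Y Z : T.ι → Prop), PS.Pres T S π ∧ T.P X ≤ 2 / 5 ∧
      T.P Y ≤ 2 / 5 ∧ T.P Z ≤ 2 / 5 ∧ ∀ i, (B (π i) → ¬ A (π i) → X i) ∧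
        (A (π i) → ¬ B (π i) → Z i) ∧ (¬ A (π i) → ¬ B (π i) → Y i ∨ (X i ∧ Z i)) ∧
        (X i ∨ Y i ∨ Z i) := by
  have e1 := S.add_eq (X := A) (Y := fun i => A i ∧ B i) (Z := fun i => A i ∧ ¬ B i)
    (fun i => by tauto) (fun i => by tauto)
  have e2 := S.add_eq (X := B) (Y := fun i => A i ∧ B i) (Z := fun i => ¬ A i ∧ B i)
    (fun i => by tauto) (fun i => by tauto)
  have e3 := S.add_eq (X := fun i => ¬ A i) (Y := fun i => ¬ A i ∧ B i)
    (Z := fun i => ¬ A i ∧ ¬ B i) (fun i => by tauto) (fun i => by tauto)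
  rw [S.P_not] at e3
  have e4 := S.P_nonneg fun i => A i ∧ ¬ B i
  rcases le_total (S.P fun i => A i ∧ B i) (1 / 5) with h | h
  · exact ⟨S, id, B, fun i => ¬ A i ∧ ¬ B i, A, fun _ => rfl, hB.le, by linarith, hA.le,
      fun i => by simp only [id]; tauto⟩
  · obtain ⟨T, π, Y, k1, k2, k3⟩ := S.sub (fun i => ¬ A i ∧ ¬ B i) (2 / 5) (by norm_num)
      (by linarith)
    have f1 := k1 fun i => A i ∧ B i
    obtain ⟨U, ρ, W, l1, l2, l3⟩ := T.sub (fun i => A (π i) ∧ B (π i)) (1 / 5) (by norm_num)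
      (by linarith)
    have m := k1.comp l1
    have g1 := m fun i => A i ∧ B i
    have g2 := m fun i => A i ∧ ¬ B i
    have g3 := m fun i => ¬ A i ∧ B i
    have g4 := m fun i => ¬ A i ∧ ¬ B i
    have g5 := l1 Y
    have g6 := U.add_eq (X := fun i => ¬ A (π (ρ i)) ∧ ¬ B (π (ρ i))) (Y := fun i => Y (ρ i))
      (Z := fun i => ¬ A (π (ρ i)) ∧ ¬ B (π (ρ i)) ∧ ¬ Y (ρ i))
      (fun i => by have := k2 (ρ i); tauto) (fun i => by tauto)
    have g7 := U.add_eq (X := fun i => A (π (ρ i)) ∧ B (π (ρ i))) (Y := W)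
      (Z := fun i => A (π (ρ i)) ∧ B (π (ρ i)) ∧ ¬ W i)
      (fun i => by have := l2 i; tauto) (fun i => by tauto)
    refine ⟨U, fun i => π (ρ i), fun i => ((¬ A (π (ρ i)) ∧ B (π (ρ i))) ∨
      (¬ A (π (ρ i)) ∧ ¬ B (π (ρ i)) ∧ ¬ Y (ρ i))) ∨ W i, fun i => Y (ρ i),
      fun i => ((A (π (ρ i)) ∧ ¬ B (π (ρ i))) ∨ (¬ A (π (ρ i)) ∧ ¬ B (π (ρ i)) ∧ ¬ Y (ρ i))) ∨
      (A (π (ρ i)) ∧ B (π (ρ i)) ∧ ¬ W i), m, ?_, by linarith, ?_, fun i => by tauto⟩
    · refine (U.cover fun i => id).trans ((add_le_add (U.cover fun i => id) le_rfl).trans ?_)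
      linarith
    · refine (U.cover fun i => id).trans ((add_le_add (U.cover fun i => id) le_rfl).trans ?_)
      linarith

variable [Finite V] {u w x y z : V}

theorem ext3 (h : Good (2 / 5) G' F') (a1 : G.Adj u x) (a2 : G.Adj x y) (a3 : G.Adj y z)
    (a4 : G.Adj z w) (xz : x ≠ z) (uy : u ≠ y) (uz : u ≠ z) (wx : w ≠ x) (wy : w ≠ y)
    (hG : ∀ a b, G'.Adj a b → (G.Adj a b ∧ b ≠ x ∧ b ≠ y ∧ b ≠ z) ∨ (a = u ∧ b = w) ∨
      (a = w ∧ b = u)) (hF : ∀ v ∈ F', v ∈ F ∨ v = x ∨ v = y ∨ v = z) : Good (2 / 5) G F := by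
  obtain ⟨S, D, h1, h2⟩ := h.exact (by norm_num)
  obtain ⟨T, π, X, Y, Z, k, k1, k2, k3, k4⟩ := ear3 S _ _ (h2 u) (h2 w)
  refine ⟨T, fun i => upd (upd (upd (D (π i)) x (X i)) y (Y i)) z (Z i), fun i v hv => ?_,
    upd_le z (upd_le y (upd_le x (fun v => (k fun i => D i v).trans_le (h2 v).le) k1) k2) k3⟩
  have c1 := (em (v ∈ F')).imp (hF v) (h1 (π i) v)
  have c2 := k4 i
  clear * - c1 c2 a1 a2 a3 a4 xz uy uz wx wy hG hv
  have := a1.symm
  have := a2.symm
  have := a3.symm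
  have := a4.symm
  have := a1.ne
  have := a2.ne
  have := a3.ne
  have := a4.ne
  unfold upd
  grind (splits := 40)

theorem extTri (h : Good (2 / 5) G' F') (a1 : G.Adj u x) (a2 : G.Adj x y) (a3 : G.Adj y u)
    (hG : ∀ a b, G'.Adj a b → G.Adj a b ∧ b ≠ x ∧ b ≠ y)
    (hF : ∀ v ∈ F', v ∈ F ∨ v = x ∨ v = y ∨ v = u) : Good (2 / 5) G F := by
  obtain ⟨S, D, h1, h2⟩ := h.exact (by norm_num)
  have e := S.P_not fun i => D i u
  obtain ⟨T, π, Z, k, k1, k2⟩ := S.sub (fun i => ¬ D i u) (2 / 5) (by norm_num)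
    (by rw [e, h2]; norm_num)
  have e2 := T.add_eq (X := fun i => ¬ D (π i) u) (Y := Z) (Z := fun i => ¬ D (π i) u ∧ ¬ Z i)
    (fun i => by have := k1 i; tauto) (fun i => by tauto)
  rw [k fun i => ¬ D i u, e, h2] at e2
  refine ⟨T, fun i => upd (upd (D (π i)) x (Z i)) y (¬ D (π i) u ∧ ¬ Z i), fun i v hv => ?_,
    upd_le y (upd_le x (fun v => (k fun i => D i v).trans_le (h2 v).le) k2.le) (by linarith)⟩
  have c1 := (em (v ∈ F')).imp (hF v) (h1 (π i) v)
  clear * - c1 a1 a2 a3 hG hv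
  have := a1.symm
  have := a2.symm
  have := a3.symm
  have := a1.ne
  have := a2.ne
  have := a3.ne
  unfold upd
  grind (splits := 40)

theorem extLoop5 {r : V} (h : Good (2 / 5) G' F') (a0 : G.Adj r u) (a1 : G.Adj u x)
    (a2 : G.Adj x y) (a3 : G.Adj y z) (a4 : G.Adj z r) (rx : r ≠ x) (ry : r ≠ y) (uy : u ≠ y)
    (uz : u ≠ z) (xz : x ≠ z) (hG : ∀ a b, G'.Adj a b → G.Adj a b ∧ b ≠ u ∧ b ≠ x ∧ b ≠ y ∧ b ≠ z)
    (hF : ∀ v ∈ F', v ∈ F ∨ v = u ∨ v = x ∨ v = y ∨ v = z ∨ v = r) : Good (2 / 5) G F := by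
  obtain ⟨S, D, h1, h2⟩ := h.exact (by norm_num)
  have e := S.P_not fun i => D i r
  rw [h2] at e
  obtain ⟨T, π, A, k, k1, k2⟩ := S.sub (fun i => D i r) (1 / 5) (by norm_num)
    (by rw [h2]; norm_num)
  obtain ⟨U, ρ, B, l, l1, l2⟩ := T.sub (fun i => ¬ D (π i) r) (2 / 5) (by norm_num)
    (by rw [k fun i => ¬ D i r, e]; norm_num)
  obtain ⟨W, τ, C, m, m1, m2⟩ := U.sub B (1 / 5) (by norm_num) (by rw [l2]; norm_num)
  have n := (k.comp l).comp m
  have f1 := n fun i => D i r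
  have f2 := n fun i => ¬ D i r
  have f3 := (l.comp m) A
  have f4 := m B
  have g1 := W.add_eq (X := fun i => D (π (ρ (τ i))) r) (Y := fun i => A (ρ (τ i)))
    (Z := fun i => D (π (ρ (τ i))) r ∧ ¬ A (ρ (τ i)))
    (fun i => by have := k1 (ρ (τ i)); tauto) (fun i => by tauto)
  have g2 := W.add_eq (X := fun i => ¬ D (π (ρ (τ i))) r) (Y := fun i => B (τ i))
    (Z := fun i => ¬ D (π (ρ (τ i))) r ∧ ¬ B (τ i))
    (fun i => by have := l1 (τ i); tauto) (fun i => by tauto)
  have g3 := W.add_eq (X := fun i => B (τ i)) (Y := C) (Z := fun i => B (τ i) ∧ ¬ C i)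
    (fun i => by have := m1 i; tauto) (fun i => by tauto)
  have := h2 r
  refine ⟨W, fun i => upd (upd (upd (upd (D (π (ρ (τ i)))) u (B (τ i))) x
    ((¬ D (π (ρ (τ i))) r ∧ ¬ B (τ i)) ∨ A (ρ (τ i)))) y
    ((D (π (ρ (τ i))) r ∧ ¬ A (ρ (τ i))) ∨ C i)) z
    ((B (τ i) ∧ ¬ C i) ∨ (¬ D (π (ρ (τ i))) r ∧ ¬ B (τ i))), fun i v hv => ?_,
    upd_le z (upd_le y (upd_le x (upd_le u (fun v => (n fun i => D i v).trans_le (h2 v).le)
      (by linarith)) ((W.cover fun i => id).trans (by linarith)))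
      ((W.cover fun i => id).trans (by linarith))) ((W.cover fun i => id).trans (by linarith))⟩
  have c1 := (em (v ∈ F')).imp (hF v) (h1 (π (ρ (τ i))) v)
  clear * - c1 a0 a1 a2 a3 a4 rx ry uy uz xz hG hv
  have := a0.symm
  have := a1.symm
  have := a2.symm
  have := a3.symm
  have := a4.symm
  have := a0.ne
  have := a1.ne
  have := a2.ne
  have := a3.ne
  have := a4.ne
  unfold upd
  grind (splits := 40)

theorem extLolli {t : V} (h : Good (2 / 5) G' F') (a0 : G.Adj w t) (a1 : G.Adj w x)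
    (a2 : G.Adj x y) (a3 : G.Adj y z) (a4 : G.Adj z w) (xz : x ≠ z) (wy : w ≠ y) (tx : t ≠ x)
    (ty : t ≠ y) (tz : t ≠ z)
    (hG : ∀ a b, G'.Adj a b → G.Adj a b ∧ b ≠ x ∧ b ≠ y ∧ b ≠ z ∧ (b = w → a = t))
    (hF : ∀ v ∈ F', v ∈ F ∨ v = x ∨ v = y ∨ v = z ∨ v = w) : Good (2 / 5) G F := by
  obtain ⟨S, D, h1, h2⟩ := h.exact (by norm_num)
  have e := S.P_not fun i => D i t
  rw [h2] at e
  obtain ⟨T, π, B, k, k1, k2, k3⟩ := S.split (fun i => D i w ∧ ¬ D i t) (fun i => ¬ D i t)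
    (fun i => And.right) (2 / 5) ((S.mono fun i => And.left).trans (h2 w).le)
    (by rw [e]; norm_num)
  obtain ⟨U, ρ, C, l, l1, l2⟩ := T.sub B (1 / 5) (by norm_num) (by rw [k3]; norm_num)
  have n := k.comp l
  have f2 := n fun i => ¬ D i t
  have f4 := l B
  have g2 := U.add_eq (X := fun i => ¬ D (π (ρ i)) t) (Y := fun i => B (ρ i))
    (Z := fun i => ¬ D (π (ρ i)) t ∧ ¬ B (ρ i))
    (fun i => by have := k2 (ρ i); tauto) (fun i => by tauto)
  have g3 := U.add_eq (X := fun i => B (ρ i)) (Y := C) (Z := fun i => B (ρ i) ∧ ¬ C i)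
    (fun i => by have := l1 i; tauto) (fun i => by tauto)
  refine ⟨U, fun i => upd (upd (upd (upd (D (π (ρ i))) w (B (ρ i))) x
    ((¬ D (π (ρ i)) t ∧ ¬ B (ρ i)) ∨ C i)) y (D (π (ρ i)) t)) z
    ((¬ D (π (ρ i)) t ∧ ¬ B (ρ i)) ∨ (B (ρ i) ∧ ¬ C i)), fun i v hv => ?_,
    upd_le z (upd_le y (upd_le x (upd_le w (fun v => (n fun i => D i v).trans_le (h2 v).le)
      (by linarith)) ((U.cover fun i => id).trans (by linarith)))
      ((n fun i => D i t).trans_le (h2 t).le)) ((U.cover fun i => id).trans (by linarith))⟩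
  have c1 := (em (v ∈ F')).imp (hF v) (h1 (π (ρ i)) v)
  have c2 := k1 (ρ i)
  clear * - c1 c2 a0 a1 a2 a3 a4 xz wy tx ty tz hG hv
  have := a0.symm
  have := a1.symm
  have := a2.symm
  have := a3.symm
  have := a4.symm
  have := a0.ne
  have := a1.ne
  have := a2.ne
  have := a3.ne
  have := a4.ne
  unfold upd
  grind (splits := 40)

omit [Finite V] in
theorem extLeaf {n n' : V} (h : Good (2 / 5) G' F') (a0 : G.Adj w u) (a1 : G.Adj w n)
    (nu : n ≠ u) (hu : u ∈ F) (hn : n ∉ F') (hn' : ∀ t, G'.Adj n t → t = w ∨ t = n')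
    (hG : ∀ a b, G'.Adj a b → G.Adj a b ∧ b ≠ u) (hF : ∀ v ∈ F', v ∈ F ∨ v = w) :
    Good (2 / 5) G F := by
  obtain ⟨S, D, h1, h2⟩ := h
  refine ⟨S, fun i => upd (D i) u (¬ D i w ∧ ¬ D i n), fun i v hv => ?_,
    upd_le u h2 ((S.mono fun i e => ?_).trans (h2 n'))⟩
  · have := (em (v ∈ F')).imp (hF v) (h1 i v)
    have := a0.ne
    unfold upd
    grind
  · have := h1 i n hn
    grind

omit [Finite V] in
theorem extTwin (h : Good (2 / 5) G' F') (a0 : G.Adj y u) (a1 : G.Adj y w) (hx : x ∉ F')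
    (hx' : ∀ t, G'.Adj x t → t = u ∨ t = w)
    (hG : ∀ a b, G'.Adj a b → G.Adj a b ∧ b ≠ y) (hF : ∀ v ∈ F', v ∈ F ∨ v = y) :
    Good (2 / 5) G F := by
  obtain ⟨S, D, h1, h2⟩ := h
  refine ⟨S, fun i => upd (D i) y (D i x), fun i v hv => ?_, upd_le y h2 (h2 x)⟩
  have := (em (v ∈ F')).imp (hF v) (h1 i v)
  have := h1 i x hx
  have := a0.ne
  have := a1.ne
  unfold upd
  grind (splits := 40)

theorem extGlue {G'' : SimpleGraph V} {F'' R : Set V} (h : Good (2 / 5) G' F')
    (h' : Good (2 / 5) G'' F'') (hG : ∀ a b, G'.Adj a b → G.Adj a b ∧ b ∉ R)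
    (hF : ∀ v ∈ F', v ∈ F ∨ v ∈ R) (hu : u ∉ R)
    (hG' : ∀ a b, a ∈ R → G''.Adj a b → G.Adj a b ∧ (b ∈ R ∨ b = u))
    (hF' : ∀ v ∈ F'', v ∉ R) : Good (2 / 5) G F := by
  obtain ⟨S, D, h1, h2⟩ := h.exact (by norm_num)
  obtain ⟨T, E, k1, k2⟩ := h'.exact (by norm_num)
  obtain ⟨U, π, ρ, l1, l2, l3⟩ := PS.couple S T _ _ (h2 u) (k2 u)
  refine ⟨U, fun i v => ¬ (D (π i) u ↔ E (ρ i) u) ∨ (v ∉ R ∧ D (π i) v) ∨ (v ∈ R ∧ E (ρ i) v),
    fun i v hv => ?_, fun v => (U.cover fun i => id).trans ?_⟩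
  · have c1 := (em (v ∈ F')).imp (hF v) (h1 (π i) v)
    have c2 := (em (v ∈ F'')).imp (hF' v) (k1 (ρ i) v)
    clear * - c1 c2 hG hG' hu hv
    grind
  · rw [l3, zero_add]
    by_cases e : v ∈ R
    · exact (U.mono fun i => by simp [e]).trans ((l2 fun i => E i v).trans_le (k2 v).le)
    · exact (U.mono fun i => by simp [e]).trans ((l1 fun i => D i v).trans_le (h2 v).le)

theorem extC5 {G'' : SimpleGraph V} {F'' : Set V} (h : Good (2 / 5) G' F')
    (h' : Good (2 / 5) G'' F'') (a1 : G.Adj u x) (a2 : G.Adj x y) (a3 : G.Adj y w)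
    (a4 : G.Adj w z) (a5 : G.Adj z u) (uy : u ≠ y) (wx : w ≠ x) (xz : x ≠ z) (yz : y ≠ z)
    (hN : ∀ a b, G.Adj a b → b = x ∨ b = y ∨ b = z → a = x ∨ a = y ∨ a = u ∨ a = w)
    (hG : G' ≤ G) (hF : ∀ v ∈ F', v ∈ F ∨ v = x ∨ v = y)
    (hG' : G'' ≤ G) (hF' : ∀ v ∈ F'', v ∈ F ∨ v = z)
    (hz : z ∉ F') (hz' : ∀ t, G'.Adj z t → t = u ∨ t = w)
    (hx : x ∉ F'') (hx' : ∀ t, G''.Adj x t → t = u ∨ t = y)
    (hy : y ∉ F'') (hy' : ∀ t, G''.Adj y t → t = x ∨ t = w) : Good (2 / 5) G F := by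
  obtain ⟨S, D, h1, h2⟩ := h.exact (by norm_num)
  obtain ⟨T, E, k1, k2⟩ := h'.exact (by norm_num)
  have q1 : S.P (fun i => ¬ D i u ∧ ¬ D i w) ≤ 2 / 5 :=
    (S.mono fun i e => by have := h1 i z hz; grind).trans (h2 z).le
  have q2 : 2 / 5 ≤ T.P (fun i => ¬ E i u ∧ ¬ E i w) := by
    have e1 := T.cover (X := fun i => ¬ (E i u ∧ E i w)) (Y := fun i => E i x)
      (Z := fun i => E i y) fun i e => by
        have := k1 i x hx
        have := k1 i y hy
        grind
    have e2 := T.P_not fun i => E i u ∧ E i w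
    have e3 := T.add_eq (X := fun i => E i w) (Y := fun i => E i u ∧ E i w)
      (Z := fun i => ¬ E i u ∧ E i w) (fun i => by tauto) (fun i => by tauto)
    have e4 := T.cover (X := fun i => ¬ E i u) (Y := fun i => ¬ E i u ∧ E i w)
      (Z := fun i => ¬ E i u ∧ ¬ E i w) fun i => by tauto
    have e5 := T.P_not fun i => E i u
    simp only [k2] at e1 e3 e5
    linarith
  obtain ⟨l, l0, l1, e⟩ := PS.exists_lam q1 q2
  obtain ⟨U, π, ρ, b, hU⟩ := PS.mix S T l l0 l1
  obtain ⟨H, hH⟩ : ∃ H : U.ι → V → Prop,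
    ∀ i v, H i v ↔ (¬ b i ∧ D (π i) v) ∨ (b i ∧ E (ρ i) v) := ⟨_, fun _ _ => Iff.rfl⟩
  have m1 : ∀ v, U.P (fun i => H i v) = 2 / 5 := fun v => by
    rw [U.congr fun i => hH i v, hU (fun i => D i v) fun i => E i v, h2, k2]
    ring
  have m2 : U.P (fun i => ¬ H i u ∧ ¬ H i w) = 2 / 5 := by
    rw [e, ← hU]
    exact U.congr fun i => by simp only [hH]; tauto
  obtain ⟨W, τ, Z, n, n1, n2⟩ := U.sub (fun i => ¬ H i u ∧ ¬ H i w) (1 / 5) (by norm_num)
    (by rw [m2]; norm_num)
  have f1 := n fun i => ¬ H i u ∧ ¬ H i w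
  have f2 := n fun i => ¬ H i u
  have f3 := n fun i => ¬ H i w
  rw [U.P_not, m1] at f2 f3
  have g1 := W.add_eq (X := fun i => ¬ H (τ i) u) (Y := fun i => ¬ H (τ i) u ∧ H (τ i) w)
    (Z := fun i => ¬ H (τ i) u ∧ ¬ H (τ i) w) (fun i => by tauto) (fun i => by tauto)
  have g2 := W.add_eq (X := fun i => ¬ H (τ i) w) (Y := fun i => H (τ i) u ∧ ¬ H (τ i) w)
    (Z := fun i => ¬ H (τ i) u ∧ ¬ H (τ i) w) (fun i => by tauto) (fun i => by tauto)
  have g3 := W.add_eq (X := fun i => ¬ H (τ i) u ∧ ¬ H (τ i) w) (Y := Z)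
    (Z := fun i => ¬ H (τ i) u ∧ ¬ H (τ i) w ∧ ¬ Z i) (fun i => by have := n1 i; tauto)
    (fun i => by tauto)
  refine ⟨W, fun i => upd (upd (upd (H (τ i)) x ((¬ H (τ i) u ∧ H (τ i) w) ∨ Z i)) y
    ((H (τ i) u ∧ ¬ H (τ i) w) ∨ (¬ H (τ i) u ∧ ¬ H (τ i) w ∧ ¬ Z i))) z
    (¬ H (τ i) u ∧ ¬ H (τ i) w), fun i v hv => ?_,
    upd_le z (upd_le y (upd_le x (fun v => (n fun i => H i v).trans_le (m1 v).le)
      ((W.cover fun i => id).trans (by linarith))) ((W.cover fun i => id).trans (by linarith)))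
      (by linarith)⟩
  have key : v ≠ x → v ≠ y → v ≠ z → H (τ i) v ∨ ∃ t, G.Adj v t ∧ H (τ i) t := by
    intro h3 h4 h5
    by_cases hb : b (τ i)
    · rcases k1 (ρ (τ i)) v (by grind) with h | ⟨t, h, h'⟩
      exacts [Or.inl ((hH _ _).2 (Or.inr ⟨hb, h⟩)), Or.inr ⟨t, hG' h, (hH _ _).2 (Or.inr ⟨hb, h'⟩)⟩]
    · rcases h1 (π (τ i)) v (by grind) with h | ⟨t, h, h'⟩
      exacts [Or.inl ((hH _ _).2 (Or.inl ⟨hb, h⟩)), Or.inr ⟨t, hG h, (hH _ _).2 (Or.inl ⟨hb, h'⟩)⟩]
  clear * - key a1 a2 a3 a4 a5 uy wx xz yz hN hv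
  have := a1.symm
  have := a2.symm
  have := a3.symm
  have := a4.symm
  have := a5.symm
  have := a1.ne
  have := a2.ne
  have := a3.ne
  have := a4.ne
  have := a5.ne
  unfold upd
  by_cases hvx : v = x <;> by_cases hvy : v = y <;> by_cases hvz : v = z <;> grind (splits := 40)

theorem extCon (h : Good (2 / 5) G' F') (a1 : G.Adj u x) (a2 : G.Adj x y) (a3 : G.Adj y w)
    (uw : u ≠ w) (uy : u ≠ y) (wx : w ≠ x)
    (hG : ∀ a b, G'.Adj a b → b ≠ x ∧ b ≠ y ∧ b ≠ w ∧
      (G.Adj a b ∨ (a = u ∧ G.Adj w b) ∨ (b = u ∧ G.Adj a w)))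
    (hF : ∀ v ∈ F', v ∈ F ∨ v = x ∨ v = y ∨ v = w ∨ (v = u ∧ w ∈ F))
    (hn : ∀ r, r = u ∨ r = w → r ∉ F → ∃ n n', G.Adj r n ∧ n ≠ x ∧ n ≠ y ∧ n ≠ w ∧ n ∉ F' ∧
      ∀ t, G'.Adj n t → t = u ∨ t = n') : Good (2 / 5) G F := by
  obtain ⟨S, D, h1, h2⟩ := h.exact (by norm_num)
  obtain ⟨N, hN⟩ : ∃ N : V → S.ι → Prop, ∀ r i, N r i ↔ r ∉ F ∧ ¬ D i u ∧
    ∀ t, G.Adj r t → t ≠ x → t ≠ y → t ≠ w → ¬ D i t := ⟨_, fun _ _ => Iff.rfl⟩
  have q : ∀ r, r = u ∨ r = w → S.P (N r) ≤ 2 / 5 := fun r hr => by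
    by_cases e : r ∈ F
    · rw [S.P_none fun i => by simp [hN, e]]
      norm_num
    · obtain ⟨n, n', e1, e2, e3, e4, e5, e6⟩ := hn r hr e
      refine (S.mono fun i e => ?_).trans (h2 n').le
      have := h1 i n e5
      grind
  have hd : ∀ i, N u i → ¬ D i u ∧ ¬ N w i := fun i => by
    have c1 := (em (u ∈ F')).imp (hF u) (h1 i u)
    have c2 := hN u i
    have c3 := hN w i
    have c4 := a1.ne
    clear * - c1 c2 c3 c4 uw uy hG
    grind
  have e1 := S.P_not fun i => D i u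
  have e2 := S.add_eq (X := fun i => ¬ D i u) (Y := N w) (Z := fun i => ¬ D i u ∧ ¬ N w i)
    (fun i => by have := hN w i; tauto) (fun i => by tauto)
  rw [h2] at e1
  have q1 := q u (Or.inl rfl)
  have q2 := q w (Or.inr rfl)
  obtain ⟨T, π, Z, k, k1, k2, k3⟩ := S.split (N u) (fun i => ¬ D i u ∧ ¬ N w i) hd
    (max (S.P (N u)) (1 / 5)) (le_max_left _ _) (max_le (S.mono hd) (by linarith))
  have e3 := T.add_eq (X := fun i => ¬ D (π i) u) (Y := Z) (Z := fun i => ¬ D (π i) u ∧ ¬ Z i)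
    (fun i => by have := k2 i; tauto) (fun i => by tauto)
  rw [k fun i => ¬ D i u] at e3
  have e4 := le_max_right (S.P (N u)) (1 / 5)
  refine ⟨T, fun i => upd (upd (upd (D (π i)) x (Z i)) y (¬ D (π i) u ∧ ¬ Z i)) w (D (π i) u),
    fun i v hv => ?_, upd_le w (upd_le y (upd_le x
      (fun v => (k fun i => D i v).trans_le (h2 v).le) (k3.trans_le (max_le q1 (by norm_num))))
      (by linarith)) ((k fun i => D i u).trans_le (h2 u).le)⟩
  have c1 := (em (v ∈ F')).imp (hF v) (h1 (π i) v)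
  have c2 := k1 i
  have c3 := k2 i
  have c4 := hN u (π i)
  have c5 := hN w (π i)
  clear * - c1 c2 c3 c4 c5 a1 a2 a3 uw uy wx hG hv
  have := a1.symm
  have := a2.symm
  have := a3.symm
  have := a1.ne
  have := a2.ne
  have := a3.ne
  unfold upd
  grind (splits := 40)

end Pool.Agent.MP_9e68e9_lc.Low

end

section

/-! Graphs of minimum degree two with a free vertex in each component have random dominating sets
with marginals `2/5`. -/

namespace Pool.Agent.MP_9e68e9_lc.Low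

open Finset

variable {V : Type} {G G' : SimpleGraph V} {F F' : Set V} {u w x y z : V}

/-- `S` is closed under adjacency. -/
def Closed (G : SimpleGraph V) (S : Set V) : Prop := ∀ v ∈ S, ∀ t, G.Adj v t → t ∈ S

/-- Vertices outside `F` have two neighbours. -/
def Deg (G : SimpleGraph V) (F : Set V) : Prop :=
  ∀ v, v ∉ F → ∃ a b, a ≠ b ∧ G.Adj v a ∧ G.Adj v b

/-- Every component meets `F`. -/
def Conn (G : SimpleGraph V) (F : Set V) : Prop :=
  ∀ S : Set V, (∀ v ∈ S, v ∉ F) → Closed G S → ∀ v, v ∉ S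

/-- Free or of degree at least three. -/
def Big (G : SimpleGraph V) (F : Set V) (v : V) : Prop :=
  v ∈ F ∨ ∃ a b c, a ≠ b ∧ a ≠ c ∧ b ≠ c ∧ G.Adj v a ∧ G.Adj v b ∧ G.Adj v c

/-- The neighbours of `x` are `a` and `b`. -/
def Nb (G : SimpleGraph V) (x a b : V) : Prop :=
  G.Adj x a ∧ G.Adj x b ∧ G.Adj a x ∧ G.Adj b x ∧ a ≠ x ∧ b ≠ x ∧
    (∀ t, G.Adj x t → t = a ∨ t = b) ∧ ∀ t, G.Adj t x → t = a ∨ t = b

/-- Induction hypothesis. -/
def IH (G : SimpleGraph V) : Prop := ∀ (G' : SimpleGraph V) (F' : Set V), Deg G' F' → Conn G' F' →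
  ((G' ≤ G ∧ ∃ a b, G.Adj a b ∧ ¬ G'.Adj a b) ∨
    ((∀ a b, G'.Adj a b → ∃ c, G.Adj a c) ∧ ∃ a b, G.Adj a b ∧ ∀ c, ¬ G'.Adj a c)) →
  Good (2 / 5) G' F'

/-- Deleting the edges at a set of vertices. -/
def del (G : SimpleGraph V) (T : Set V) : SimpleGraph V where
  Adj a b := G.Adj a b ∧ a ∉ T ∧ b ∉ T
  symm := ⟨fun _ _ h => ⟨h.1.symm, h.2.2, h.2.1⟩⟩
  loopless := ⟨fun _ h => h.1.ne rfl⟩

/-- Deleting one edge. -/
def delE (G : SimpleGraph V) (u w : V) : SimpleGraph V where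
  Adj a b := G.Adj a b ∧ ¬ (a = u ∧ b = w) ∧ ¬ (a = w ∧ b = u)
  symm := ⟨fun _ _ h => ⟨h.1.symm, fun e => h.2.2 ⟨e.2, e.1⟩, fun e => h.2.1 ⟨e.2, e.1⟩⟩⟩
  loopless := ⟨fun _ h => h.1.ne rfl⟩

/-- The edges meeting a set of vertices. -/
def keep (G : SimpleGraph V) (T : Set V) : SimpleGraph V where
  Adj a b := G.Adj a b ∧ (a ∈ T ∨ b ∈ T)
  symm := ⟨fun _ _ h => ⟨h.1.symm, h.2.symm⟩⟩
  loopless := ⟨fun _ h => h.1.ne rfl⟩

/-- Replacing a path by an edge. -/
def short (G : SimpleGraph V) (T : Set V) (u w : V) : SimpleGraph V where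
  Adj a b := (G.Adj a b ∧ a ∉ T ∧ b ∉ T) ∨ (u ≠ w ∧ ((a = u ∧ b = w) ∨ (a = w ∧ b = u)))
  symm := ⟨fun _ _ h => h.imp (fun h => ⟨h.1.symm, h.2.2, h.2.1⟩) fun h =>
    ⟨h.1, h.2.symm.imp And.symm And.symm⟩⟩
  loopless := ⟨fun _ h => h.elim (fun h => h.1.ne rfl) fun h =>
    h.2.elim (fun e => h.1 (e.1.symm.trans e.2)) fun e => h.1 (e.2.symm.trans e.1)⟩

/-- Identifying `w` with `u`. -/
def merge (G : SimpleGraph V) (T : Set V) (u w : V) : SimpleGraph V where
  Adj a b := a ≠ b ∧ a ∉ T ∧ b ∉ T ∧ (G.Adj a b ∨ (a = u ∧ G.Adj w b) ∨ (b = u ∧ G.Adj w a))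
  symm := ⟨fun _ _ h => ⟨h.1.symm, h.2.2.1, h.2.1, h.2.2.2.imp (fun e => e.symm) Or.symm⟩⟩
  loopless := ⟨fun _ h => h.1 rfl⟩

theorem small_nb (hd : Deg G F) (hx : ¬ Big G F x) (h : G.Adj x u) :
    x ∉ F ∧ ∃ w, w ≠ u ∧ Nb G x u w := by
  have h0 : x ∉ F := fun e => hx (Or.inl e)
  obtain ⟨a, b, h1, h2, h3⟩ := hd x h0
  obtain ⟨w, h4, h5⟩ : ∃ w, w ≠ u ∧ G.Adj x w := by grind
  have h6 : ∀ t, G.Adj x t → t = u ∨ t = w := fun t ht => by
    by_contra e
    exact hx (Or.inr ⟨u, w, t, by grind⟩)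
  exact ⟨h0, w, h4, h, h5, h.symm, h5.symm, h.ne', h5.ne', h6, fun t ht => h6 t ht.symm⟩

theorem big_two (h : Big G F u) (x : V) :
    u ∈ F ∨ ∃ a b, a ≠ b ∧ G.Adj u a ∧ G.Adj u b ∧ a ≠ x ∧ b ≠ x := by
  rcases h with h | ⟨a, b, c, h⟩
  · exact Or.inl h
  · right
    by_cases e : a = x
    · exact ⟨b, c, by grind⟩
    · by_cases e' : b = x
      · exact ⟨a, c, by grind⟩
      · exact ⟨a, b, by grind⟩

theorem valid_free (hd : Deg G F) (hc : Conn G F) (T : Set V) (r : V)
    (hN : ∀ a b, G.Adj a b → b ∈ T → a ∈ T ∨ a = r) :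
    Deg (del G T) {v | v ∈ F ∨ v ∈ T ∨ v = r} ∧ Conn (del G T) {v | v ∈ F ∨ v ∈ T ∨ v = r} := by
  refine ⟨fun v hv => ?_, fun S h1 h2 => hc S (fun v hv e => h1 v hv (Or.inl e)) fun v hv t ht => ?_⟩
  · obtain ⟨a, b, h1, h2, h3⟩ := hd v fun e => hv (Or.inl e)
    simp only [Set.mem_setOf_eq] at hv
    exact ⟨a, b, h1, ⟨h2, by grind⟩, h3, by grind⟩
  · have := h1 v hv
    simp only [Set.mem_setOf_eq] at this
    exact h2 v hv t ⟨ht, by grind⟩

theorem valid_ear (hd : Deg G F) (hc : Conn G F) (T : Set V) (hT : ∀ v ∈ T, v ∉ F)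
    (hN : ∀ a b, G.Adj a b → b ∈ T → a ∈ T ∨ a = u ∨ a = w)
    (hG : ∀ a b, G.Adj a b → a ∉ T → b ∉ T → G'.Adj a b)
    (hS : ∀ S, Closed G' S → (u ∈ S ↔ w ∈ S))
    (hu : u ∈ F ∨ ∃ a b, a ≠ b ∧ G'.Adj u a ∧ G'.Adj u b)
    (hw : w ∈ F ∨ ∃ a b, a ≠ b ∧ G'.Adj w a ∧ G'.Adj w b) :
    Deg G' {v | v ∈ F ∨ v ∈ T} ∧ Conn G' {v | v ∈ F ∨ v ∈ T} := by
  refine ⟨fun v hv => ?_, fun S h1 h2 v hv => ?_⟩
  · obtain ⟨a, b, h1, h2, h3⟩ := hd v fun e => hv (Or.inl e)
    simp only [Set.mem_setOf_eq] at hv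
    by_cases e : v = u ∨ v = w
    · grind
    · exact ⟨a, b, h1, hG _ _ h2 (by grind) (by grind), hG _ _ h3 (by grind) (by grind)⟩
  · have h3 := hS S h2
    simp only [Set.mem_setOf_eq] at h1
    refine hc {t | t ∈ S ∨ (u ∈ S ∧ t ∈ T)} (fun t ht => ?_) (fun a ha b hb => ?_) v (Or.inl hv)
    · simp only [Set.mem_setOf_eq] at ht
      grind
    · simp only [Set.mem_setOf_eq] at ha ⊢
      have := hN a b hb
      have := hN b a hb.symm
      have := hG a b hb
      have := h2 a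
      have := h1 a
      by_cases e : b ∈ T <;> by_cases e' : a ∈ T <;> grind

/-- `S` is a free-less set whose only leaving edge is `w u`. -/
def Cut (G : SimpleGraph V) (F S : Set V) (u w : V) : Prop :=
  (∀ v ∈ S, v ∉ F) ∧ w ∈ S ∧ u ∉ S ∧ ∀ v ∈ S, ∀ t, G.Adj v t → t ∈ S ∨ (v = w ∧ t = u)

variable [Finite V]

omit [Finite V] in
theorem side (hd : Deg G F) (hc : Conn G F) (ih : IH G) (h : G.Adj u w) (hu : Big G F u)
    (hw : Big G F w) : Good (2 / 5) G F ∨ ∃ S, Cut G F S u w ∨ Cut G F S w u := by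
  by_cases e : Conn (delE G u w) F
  · refine Or.inl ((ih _ F (fun v hv => ?_) e (Or.inl ⟨fun a b e => e.1, u, w, h, fun e =>
      e.2.1 ⟨rfl, rfl⟩⟩)).mono (fun a b e => e.1) subset_rfl)
    have h1 := big_two hu w
    have h2 := big_two hw u
    have h3 := hd v hv
    have h4 := h.ne
    simp only [delE]
    by_cases e : v = u
    · grind
    · by_cases e' : v = w <;> grind
  · simp only [Conn, not_forall, not_not] at e
    obtain ⟨S, h1, h2, v, h3⟩ := e
    have h4 : ¬ Closed G S := fun e => hc S h1 e v h3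
    simp only [Closed, not_forall, delE] at h4 h2
    obtain ⟨a, h5, b, h6, h7⟩ := h4
    refine Or.inr ⟨S, ?_⟩
    have := h2 a h5 b
    unfold Cut
    by_cases e : a = u ∧ b = w
    · exact Or.inr ⟨h1, by grind, by grind, fun v hv t ht => by have := h2 v hv t; grind⟩
    · exact Or.inl ⟨h1, by grind, by grind, fun v hv t ht => by have := h2 v hv t; grind⟩

theorem glue {S : Set V} (hd : Deg G F) (hc : Conn G F) (ih : IH G) (h : G.Adj u w)
    (hu : Big G F u) (hS : Cut G F S u w) (h' : G.Adj u x) (hx : x ≠ w) : Good (2 / 5) G F := by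
  obtain ⟨h1, h2, h3, h4⟩ := hS
  have h5 : ∀ a b, G.Adj a b → b ∈ S → a ∈ S ∨ (b = w ∧ a = u) := fun a b e hb => h4 b hb a e.symm
  refine extGlue (G' := del G S) (F' := {v | v ∈ F ∨ v ∈ S}) (G'' := keep G S) (F'' := Sᶜ) (R := S)
    (u := u) (ih _ _ (fun v hv => ?_) (fun T k1 k2 v hv => ?_)
      (Or.inl ⟨fun a b e => e.1, u, w, h, fun e => e.2.2 h2⟩))
    (ih _ _ (fun v hv => ?_) (fun T k1 k2 => hc T (fun v hv => h1 v (not_not.1 (k1 v hv)))
      fun v hv t ht => k2 v hv t ⟨ht, Or.inl (not_not.1 (k1 v hv))⟩)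
      (Or.inl ⟨fun a b e => e.1, u, x, h', fun e => by have := e.2; grind⟩))
    (fun a b e => ⟨e.1, e.2.2⟩) (fun v hv => hv) h3 (fun a b ha e => ⟨e.1, by have := e.1; grind⟩)
    fun v hv => hv
  · simp only [Set.mem_setOf_eq] at hv
    have k1 := big_two hu w
    have k2 := hd v (by grind)
    simp only [del]
    by_cases e : v = u <;> grind
  · simp only [Set.mem_setOf_eq] at k1
    refine hc {t | t ∈ T ∨ (u ∈ T ∧ t ∈ S)} (fun t ht => ?_) (fun a ha b hb => ?_) v (Or.inl hv)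
    · simp only [Set.mem_setOf_eq] at ht
      grind
    · simp only [Set.mem_setOf_eq] at ha ⊢
      have := k2 a
      simp only [del] at this
      have := k1 a
      by_cases e : b ∈ S <;> by_cases e' : a ∈ S <;> grind
  · have hv' := not_not.1 hv
    obtain ⟨a, b, k1, k2, k3⟩ := hd v (h1 v hv')
    exact ⟨a, b, k1, ⟨k2, Or.inl hv'⟩, k3, Or.inl hv'⟩

theorem cut_case {S : Set V} (hd : Deg G F) (hc : Conn G F) (ih : IH G) (h : G.Adj u w)
    (hu : Big G F u) (hw : Big G F w) (hS : Cut G F S u w) : Good (2 / 5) G F := by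
  by_cases e : ∃ x, G.Adj u x ∧ x ≠ w
  · obtain ⟨x, h1, h2⟩ := e
    exact glue hd hc ih h hu hS h1 h2
  have h1 : ∀ x, G.Adj u x → x = w := fun x hx => by_contra fun e' => e ⟨x, hx, e'⟩
  have h2 : u ∈ F := by_contra fun e' => by have := hd u e'; grind
  obtain ⟨n, h3, h4⟩ : ∃ n, G.Adj w n ∧ n ≠ u := by
    have := hd w (hS.1 w hS.2.1)
    grind
  by_cases hn : Big G F n
  · rcases side hd hc ih h3 hw hn with h5 | ⟨S', h5 | h5⟩
    · exact h5
    · exact glue hd hc ih h3 hw h5 h.symm h4.symm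
    · have := h5.2.2.2 w h5.2.1 u h.symm
      have := h5.1 u
      grind
  · obtain ⟨h5, n', h6, h7⟩ := small_nb hd hn h3.symm
    have h8 : ∀ x, G.Adj x u → x = w := fun x hx => h1 x hx.symm
    refine extLeaf (G' := delE G u w) (F' := {v | v ∈ F ∨ v = w}) (n' := n')
      (ih _ _ (fun v hv => ?_) (fun T k1 k2 => hc T (fun v hv e => k1 v hv (Or.inl e))
        fun v hv t ht => k2 v hv t ⟨ht, ?_⟩)
        (Or.inl ⟨fun a b e => e.1, u, w, h, fun e => e.2.1 ⟨rfl, rfl⟩⟩)) h.symm h3 h4 h2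
      (fun e => e.elim h5 h3.ne') (fun t ht => h7.2.2.2.2.2.2.1 t ht.1)
      (fun a b e => ⟨e.1, by have := e.1; have := e.2; grind⟩) fun v hv => hv
    · simp only [Set.mem_setOf_eq] at hv
      have k2 := hd v (by grind)
      simp only [delE]
      grind
    · have := k1 v hv
      simp only [Set.mem_setOf_eq] at this
      grind

theorem big_big (hd : Deg G F) (hc : Conn G F) (ih : IH G) (h : G.Adj u w)
    (hu : Big G F u) (hw : Big G F w) : Good (2 / 5) G F := by
  rcases side hd hc ih h hu hw with h5 | ⟨S', h5 | h5⟩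
  exacts [h5, cut_case hd hc ih h hu hw h5, cut_case hd hc ih h.symm hw hu h5]

theorem loop5 {r : V} (hd : Deg G F) (hc : Conn G F) (ih : IH G) (n1 : Nb G u r x)
    (n2 : Nb G x u y) (n3 : Nb G y x z) (n4 : Nb G z y r) (rx : r ≠ x) (ry : r ≠ y) (uy : u ≠ y)
    (uz : u ≠ z) (xz : x ≠ z) : Good (2 / 5) G F := by
  obtain ⟨h1, h2⟩ := valid_free hd hc {t | t = u ∨ t = x ∨ t = y ∨ t = z} r fun a b e hb => by
    simp only [Set.mem_setOf_eq] at hb ⊢
    unfold Nb at *
    grind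
  exact extLoop5 (ih _ _ h1 h2 (Or.inl ⟨fun a b e => e.1, u, x, n1.2.1, fun e =>
    e.2.1 (Or.inl rfl)⟩)) n1.2.2.1 n1.2.1 n2.2.1 n3.2.1 n4.2.1 rx ry uy uz xz
    (fun a b e => ⟨e.1, by have := e.2.2; simp only [Set.mem_setOf_eq] at this; grind⟩)
    fun v hv => by simp only [Set.mem_setOf_eq] at hv; grind

theorem three_small (hd : Deg G F) (hc : Conn G F) (ih : IH G) (hx : ¬ Big G F x)
    (hy : ¬ Big G F y) (hz : ¬ Big G F z) (a1 : G.Adj x y) (a2 : G.Adj y z) (xz : x ≠ z) :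
    Good (2 / 5) G F := by
  obtain ⟨x0, u, uy, n1⟩ := small_nb hd hx a1
  obtain ⟨y0, z', h1, n2⟩ := small_nb hd hy a1.symm
  obtain rfl : z = z' := (n2.2.2.2.2.2.2.1 z a2).resolve_left xz.symm
  obtain ⟨z0, w, wy, n3⟩ := small_nb hd hz a2.symm
  have hT : ∀ v ∈ {t | t = x ∨ t = y ∨ t = z}, v ∉ F := fun v hv => by
    simp only [Set.mem_setOf_eq] at hv
    grind
  have uz : u ≠ z ∧ w ≠ x := by
    by_contra e
    refine hc _ hT (fun a ha b hb => ?_) x (Or.inl rfl)
    simp only [Set.mem_setOf_eq] at ha ⊢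
    unfold Nb at *
    grind
  have n1' : Nb G x u y := by unfold Nb at *; grind
  have hN : ∀ a b, G.Adj a b → b ∈ {t | t = x ∨ t = y ∨ t = z} →
      a ∈ {t | t = x ∨ t = y ∨ t = z} ∨ a = u ∨ a = w := fun a b e hb => by
    simp only [Set.mem_setOf_eq] at hb ⊢
    unfold Nb at *
    grind
  have main : (u ∈ F ∨ ∃ a b, a ≠ b ∧ (short G {t | t = x ∨ t = y ∨ t = z} u w).Adj u a ∧
      (short G {t | t = x ∨ t = y ∨ t = z} u w).Adj u b) →
      (w ∈ F ∨ ∃ a b, a ≠ b ∧ (short G {t | t = x ∨ t = y ∨ t = z} u w).Adj w a ∧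
      (short G {t | t = x ∨ t = y ∨ t = z} u w).Adj w b) → Good (2 / 5) G F := fun hu hw => by
    obtain ⟨h1, h2⟩ := valid_ear hd hc _ hT hN (fun a b e ha hb => Or.inl ⟨e, ha, hb⟩)
      (fun S hS => by
        by_cases e : u = w
        · rw [e]
        · exact ⟨fun h => hS u h w (Or.inr ⟨e, Or.inl ⟨rfl, rfl⟩⟩),
            fun h => hS w h u (Or.inr ⟨e, Or.inr ⟨rfl, rfl⟩⟩)⟩) hu hw
    refine ext3 (ih _ _ h1 h2 (Or.inr ⟨fun a b e => ?_, x, y, a1, fun c e => ?_⟩))
      n1.2.2.2.1 a1 a2 n3.2.1 xz uy uz.1 uz.2 wy (fun a b e => ?_) fun v hv => hv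
    all_goals
      simp only [short, Set.mem_setOf_eq] at e
      unfold Nb at *
      grind
  by_cases e : u = w
  · subst e
    by_cases e : u ∈ F ∨ ∃ a b, a ≠ b ∧ G.Adj u a ∧ G.Adj u b ∧ a ≠ x ∧ a ≠ z ∧ b ≠ x ∧ b ≠ z
    · have : u ∈ F ∨ ∃ a b, a ≠ b ∧ (short G {t | t = x ∨ t = y ∨ t = z} u u).Adj u a ∧
          (short G {t | t = x ∨ t = y ∨ t = z} u u).Adj u b := by
        refine e.imp_right fun ⟨a, b, h⟩ => ⟨a, b, ?_⟩
        simp only [short, Set.mem_setOf_eq]
        unfold Nb at *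
        grind
      exact main this this
    · obtain ⟨t, h3, h4, h5⟩ : ∃ t, G.Adj u t ∧ t ≠ x ∧ t ≠ z := by
        by_contra e'
        refine hc {t | t = x ∨ t = y ∨ t = z ∨ t = u} (fun v hv => ?_) (fun a ha b hb => ?_) x
          (Or.inl rfl)
        · simp only [Set.mem_setOf_eq] at hv
          grind
        · simp only [Set.mem_setOf_eq] at ha ⊢
          unfold Nb at *
          grind
      obtain ⟨h1, h2⟩ := valid_free hd hc _ u fun a b e hb => by
        simpa only [or_self] using hN a b e hb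
      refine extLolli (ih _ _ h1 h2 (Or.inl ⟨fun a b e => e.1, x, y, a1, fun e =>
        e.2.1 (Or.inl rfl)⟩)) h3 n1.2.2.2.1 a1 a2 n3.2.1 xz uy h4 (by unfold Nb at *; grind) h5
        (fun a b e' => ?_) fun v hv => by simp only [Set.mem_setOf_eq] at hv; grind
      have := e'.1.symm
      simp only [del, Set.mem_setOf_eq] at e'
      refine ⟨e'.1, by grind, by grind, by grind, fun e'' => by_contra fun h6 => ?_⟩
      exact e (Or.inr ⟨a, t, by grind⟩)
  · by_cases hu : u ∈ F ∨ ∃ t, G.Adj u t ∧ t ≠ x ∧ t ≠ w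
    · by_cases hw : w ∈ F ∨ ∃ t, G.Adj w t ∧ t ≠ z ∧ t ≠ u
      · refine main (hu.imp_right fun ⟨t, h⟩ => ⟨t, w, ?_⟩) (hw.imp_right fun ⟨t, h⟩ => ⟨t, u, ?_⟩)
        all_goals
          simp only [short, Set.mem_setOf_eq]
          unfold Nb at *
          grind
      · have h3 : ∀ t, G.Adj w t → t = z ∨ t = u := by grind
        have h4 : G.Adj w u := by have := hd w (by grind); grind
        exact loop5 hd hc ih n1' n2 n3 ⟨n3.2.2.2.1, h4, n3.2.1, h4.symm, n3.2.1.ne, h4.ne', h3,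
          fun t ht => h3 t ht.symm⟩ uy uz.1 xz uz.2.symm wy.symm
    · have h3 : ∀ t, G.Adj u t → t = w ∨ t = x := by grind
      have h4 : G.Adj u w := by have := hd u (by grind); grind
      exact loop5 hd hc ih ⟨h4, n1.2.2.2.1, h4.symm, n1.2.1, h4.ne', n1.2.1.ne, h3,
          fun t ht => h3 t ht.symm⟩ n1' n2 n3 uz.2 wy uy uz.1 xz

theorem two_small (hd : Deg G F) (hc : Conn G F) (ih : IH G)
    (hB : ∀ a b, G.Adj a b → Big G F a → ¬ Big G F b) (hx : ¬ Big G F x)
    (hy : ¬ Big G F y) (a1 : G.Adj x y) : Good (2 / 5) G F := by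
  obtain ⟨x0, u, uy, n1⟩ := small_nb hd hx a1
  obtain ⟨y0, w, wx, n2⟩ := small_nb hd hy a1.symm
  by_cases hu : Big G F u
  swap
  · exact three_small hd hc ih hu hx hy n1.2.2.2.1 a1 uy
  by_cases hw : Big G F w
  swap
  · exact three_small hd hc ih hx hy hw a1 n2.2.1 wx.symm
  have hN : ∀ a b, G.Adj a b → b ∈ {t | t = x ∨ t = y} →
      a ∈ {t | t = x ∨ t = y} ∨ a = u ∨ a = w := fun a b e hb => by
    simp only [Set.mem_setOf_eq] at hb ⊢
    unfold Nb at *
    grind
  by_cases e : u = w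
  · subst e
    obtain ⟨h1, h2⟩ := valid_free hd hc _ u fun a b e hb => by
      simpa only [or_self] using hN a b e hb
    exact extTri (ih _ _ h1 h2 (Or.inl ⟨fun a b e => e.1, x, y, a1, fun e =>
      e.2.1 (Or.inl rfl)⟩)) n1.2.2.2.1 a1 n2.2.1
      (fun a b e => ⟨e.1, by have := e.2.2; simp only [Set.mem_setOf_eq] at this; grind⟩)
      fun v hv => by simp only [Set.mem_setOf_eq] at hv; grind
  have uw : ¬ G.Adj u w := fun e => hB u w e hu hw
  have wu : ¬ G.Adj w u := fun e => uw e.symm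
  by_cases hz : ∃ z, G.Adj u z ∧ G.Adj w z
  · obtain ⟨z, a2, a3⟩ := hz
    obtain ⟨z0, w', h1, n3⟩ := small_nb hd (hB u z a2 hu) a2.symm
    obtain rfl : w = w' := (n3.2.2.2.2.2.2.2 w a3).resolve_left (Ne.symm e)
    have xz : x ≠ z ∧ y ≠ z := by unfold Nb at *; grind
    obtain ⟨k1, k2⟩ := valid_ear (G' := del G {t | t = x ∨ t = y}) hd hc _
      (fun v hv => by simp only [Set.mem_setOf_eq] at hv; grind) hN (fun a b e ha hb => ⟨e, ha, hb⟩)
      (fun S hS => by
        have := hS u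
        have := hS w
        have := hS z
        simp only [del, Set.mem_setOf_eq] at *
        unfold Nb at *
        grind)
      ((big_two hu x).imp_right fun ⟨a, b, h⟩ => ⟨a, b, by
        simp only [del, Set.mem_setOf_eq]
        unfold Nb at *
        grind⟩)
      ((big_two hw y).imp_right fun ⟨a, b, h⟩ => ⟨a, b, by
        simp only [del, Set.mem_setOf_eq]
        unfold Nb at *
        grind⟩)
    obtain ⟨k3, k4⟩ := valid_ear (G' := del G {t | t = z}) (u := u) (w := w) hd hc {t | t = z}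
      (fun v hv => by simp only [Set.mem_setOf_eq] at hv; grind)
      (fun a b e hb => by
        simp only [Set.mem_setOf_eq] at hb ⊢
        unfold Nb at *
        grind) (fun a b e ha hb => ⟨e, ha, hb⟩)
      (fun S hS => by
        have := hS u
        have := hS w
        have := hS x
        have := hS y
        simp only [del, Set.mem_setOf_eq] at *
        unfold Nb at *
        grind)
      ((big_two hu z).imp_right fun ⟨a, b, h⟩ => ⟨a, b, by
        simp only [del, Set.mem_setOf_eq]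
        unfold Nb at *
        grind⟩)
      ((big_two hw z).imp_right fun ⟨a, b, h⟩ => ⟨a, b, by
        simp only [del, Set.mem_setOf_eq]
        unfold Nb at *
        grind⟩)
    refine extC5 (ih _ _ k1 k2 (Or.inl ⟨fun a b e => e.1, x, y, a1, fun e =>
      e.2.1 (Or.inl rfl)⟩)) (ih _ _ k3 k4 (Or.inl ⟨fun a b e => e.1, u, z, a2, fun e =>
      e.2.2 rfl⟩)) n1.2.2.2.1 a1 n2.2.1 a3 a2.symm uy wx xz.1 xz.2 ?_ (fun a b e => e.1)
      (fun v hv => hv) (fun a b e => e.1) (fun v hv => hv) ?_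
      (fun t e => n3.2.2.2.2.2.2.1 t e.1) ?_ (fun t e => (n1.2.2.2.2.2.2.1 t e.1).symm) ?_
      fun t e => n2.2.2.2.2.2.2.1 t e.1
    · unfold Nb at *
      grind
    all_goals
      simp only [Set.mem_setOf_eq]
      grind
  · have hz' : ∀ z, G.Adj u z → ¬ G.Adj w z := fun z h1 h2 => hz ⟨z, h1, h2⟩
    have sy : ∀ a b, G.Adj a b → G.Adj b a := fun a b e => e.symm
    have ir : ∀ a b, G.Adj a b → a ≠ b := fun a b e => e.ne
    refine extCon (G' := merge G {t | t = x ∨ t = y ∨ t = w} u w)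
      (F' := {v | v ∈ F ∨ v = x ∨ v = y ∨ v = w ∨ (v = u ∧ w ∈ F)})
      (ih _ _ (fun v hv => ?_) (fun S k1 k2 v hv => ?_) (Or.inr ⟨fun a b e => ?_, x, y, a1,
        fun c e => e.2.1 (Or.inl rfl)⟩)) n1.2.2.2.1 a1 n2.2.1 e uy wx (fun a b e => ?_)
      (fun v hv => hv) fun r hr r0 => ?_
    · simp only [Set.mem_setOf_eq] at hv
      simp only [merge, Set.mem_setOf_eq]
      by_cases e' : v = u
      · obtain ⟨a, b, h⟩ := (big_two hu x).resolve_left (by grind)
        refine ⟨a, b, ?_⟩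
        unfold Nb at *
        grind
      · obtain ⟨a, b, h⟩ := hd v (by grind)
        unfold Nb at *
        by_cases e1 : a = w
        · exact ⟨u, b, by grind⟩
        · by_cases e2 : b = w
          · exact ⟨a, u, by grind⟩
          · exact ⟨a, b, by grind⟩
    · simp only [Set.mem_setOf_eq] at k1
      refine hc {t | t ∈ S ∨ (u ∈ S ∧ (t = x ∨ t = y ∨ t = w))} (fun t ht => ?_)
        (fun a ha b hb => ?_) v (Or.inl hv)
      · simp only [Set.mem_setOf_eq] at ht
        have := k1 u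
        have := k1 t
        grind
      · simp only [Set.mem_setOf_eq] at ha ⊢
        have c1 := fun h => k2 a h b
        have c2 := fun h => k2 a h u
        have c3 := fun h => k2 u h b
        have c4 := k1 a
        simp only [merge, Set.mem_setOf_eq] at c1 c2 c3
        unfold Nb at *
        grind (splits := 40)
    · simp only [merge, Set.mem_setOf_eq] at e
      unfold Nb at *
      grind
    · simp only [merge, Set.mem_setOf_eq] at e
      grind
    · obtain ⟨n, h1, h2, h3, h4⟩ : ∃ n, G.Adj r n ∧ n ≠ x ∧ n ≠ y ∧ Big G F r := by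
        rcases hr with rfl | rfl
        · obtain ⟨a, b, h⟩ := (big_two hu x).resolve_left r0
          refine ⟨a, ?_⟩
          unfold Nb at *
          grind
        · obtain ⟨a, b, h⟩ := (big_two hw y).resolve_left r0
          refine ⟨a, ?_⟩
          unfold Nb at *
          grind
      obtain ⟨h5, n', h6, n3⟩ := small_nb hd (hB r n h1 h4) h1.symm
      refine ⟨n, n', h1, h2, h3, by grind, ?_, fun t e => ?_⟩
      · simp only [Set.mem_setOf_eq]
        grind
      · simp only [merge, Set.mem_setOf_eq] at e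
        unfold Nb at *
        grind

end Pool.Agent.MP_9e68e9_lc.Low

end

section

/-! The final construction, the induction, and the reduction to small components. -/

namespace Pool.Agent.MP_9e68e9_lc.Low

open Finset

variable {V : Type} {G : SimpleGraph V} {F : Set V} {u w x y : V} {p : ℝ}

theorem twin (hd : Deg G F) (hc : Conn G F) (ih : IH G) (hu : Big G F u) (hw : Big G F w)
    (hx : x ∉ F) (hy : y ∉ F) (xy : x ≠ y) (n1 : Nb G x u w) (n2 : Nb G y u w)
    (h : ¬ G.Adj x y) : Good (2 / 5) G F := by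
  obtain ⟨k3, k4⟩ := valid_ear (G' := del G {t | t = y}) (u := u) (w := w) hd hc {t | t = y}
    (fun v hv => by simp only [Set.mem_setOf_eq] at hv; grind)
    (fun a b e hb => by
      simp only [Set.mem_setOf_eq] at hb ⊢
      unfold Nb at *
      grind) (fun a b e ha hb => ⟨e, ha, hb⟩)
    (fun S hS => by
      have := hS u
      have := hS w
      have := hS x
      simp only [del, Set.mem_setOf_eq] at *
      unfold Nb at *
      grind)
    ((big_two hu y).imp_right fun ⟨a, b, h⟩ => ⟨a, b, by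
      simp only [del, Set.mem_setOf_eq]
      unfold Nb at *
      grind⟩)
    ((big_two hw y).imp_right fun ⟨a, b, h⟩ => ⟨a, b, by
      simp only [del, Set.mem_setOf_eq]
      unfold Nb at *
      grind⟩)
  exact extTwin (ih _ _ k3 k4 (Or.inl ⟨fun a b e => e.1, y, u, n2.1, fun e => e.2.1 rfl⟩))
    n2.1 n2.2.1 (fun e => e.elim hx xy) (fun t e => n1.2.2.2.2.2.2.1 t e.1)
    (fun a b e => ⟨e.1, e.2.2⟩) fun v hv => hv

theorem final [Finite V] (hd : Deg G F) (hB : ∀ a b, G.Adj a b → Big G F a → ¬ Big G F b)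
    (hS : ∀ a b, G.Adj a b → ¬ Big G F a → Big G F b)
    (hT : ∀ x y u w, x ≠ y → u ≠ w → Nb G x u w → Nb G y u w → Big G F x) :
    Good (2 / 5) G F := by
  classical
  haveI := Fintype.ofFinite V
  have ch : ∀ r, ∃ x1 x2 x3 a1 a2 a3 : V, r ∉ F → Big G F r → x1 ≠ x2 ∧ Nb G x1 r a1 ∧
      Nb G x2 r a2 ∧ Nb G x3 r a3 ∧ ¬ Big G F x1 ∧ ¬ Big G F x2 ∧ ¬ Big G F x3 ∧ r ≠ a1 ∧
      r ≠ a2 ∧ r ≠ a3 ∧ a1 ≠ a2 ∧ a1 ≠ a3 ∧ a2 ≠ a3 := fun r => by
    by_cases e : r ∉ F ∧ Big G F r
    · obtain ⟨x1, x2, x3, h1, h2, h3, h4, h5, h6⟩ := e.2.resolve_left e.1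
      have b1 := hB _ _ h4 e.2
      have b2 := hB _ _ h5 e.2
      have b3 := hB _ _ h6 e.2
      obtain ⟨-, a1, k1, n1⟩ := small_nb hd b1 h4.symm
      obtain ⟨-, a2, k2, n2⟩ := small_nb hd b2 h5.symm
      obtain ⟨-, a3, k3, n3⟩ := small_nb hd b3 h6.symm
      refine ⟨x1, x2, x3, a1, a2, a3, fun _ _ => ⟨h1, n1, n2, n3, b1, b2, b3, k1.symm, k2.symm,
        k3.symm, ?_, ?_, ?_⟩⟩ <;> rintro rfl
      exacts [b1 (hT _ _ _ _ h1 k1.symm n1 n2), b1 (hT _ _ _ _ h2 k1.symm n1 n3),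
        b2 (hT _ _ _ _ h3 k2.symm n2 n3)]
    · exact ⟨r, r, r, r, r, r, fun h1 h2 => absurd ⟨h1, h2⟩ e⟩
  choose x1 x2 x3 a1 a2 a3 ch using ch
  let C := PS.coin (1 / 2) (by norm_num) (by norm_num)
  let R : V → V → (V → Bool) → Bool → Prop := fun r t s c => r ∉ F ∧ Big G F r ∧ s r = false ∧
    s (a1 r) = true ∧ s (a2 r) = true ∧ s (a3 r) = true ∧ t = if c then x1 r else x2 r
  have hR : ∀ r t, ((PS.cube V).prod C).P (fun i => R r t i.1 i.2) ≤ 12 / 625 := fun r t => by
    by_cases e : r ∉ F ∧ Big G F r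
    · obtain ⟨h1, -, -, -, -, -, -, h2, h3, h4, h5, h6, h7⟩ := ch r e.1 e.2
      have e1 := PS.cube_pat {r, a1 r, a2 r, a3 r} (fun v => decide (v ≠ r))
      rw [prod_insert (by simp [*]), prod_insert (by simp [*]), prod_insert (by simp [*]),
        prod_singleton] at e1
      simp only [ne_eq, not_true_eq_false, decide_false, h2.symm, h3.symm, h4.symm,
        not_false_eq_true, decide_true, if_true, Bool.false_eq_true, if_false] at e1
      have e2 : C.P (fun c : Bool => c = decide (t = x1 r)) = 1 / 2 := by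
        by_cases e : t = x1 r
        · simp only [e, decide_true]
          exact PS.coin_true _ _ _
        · simp only [e, decide_false]
          exact (PS.coin_false _ _ _).trans (by norm_num)
      have e3 := PS.prod_and (PS.cube V) C (fun s : V → Bool => ∀ v ∈ ({r, a1 r, a2 r, a3 r} :
        Finset V), s v = decide ¬ v = r) (fun c : Bool => c = decide (t = x1 r))
      rw [e1, e2] at e3
      refine (PS.mono _ fun i hi => ?_).trans (e3.trans_le (by norm_num))
      obtain ⟨s, c⟩ := i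
      obtain ⟨-, -, k1, k2, k3, k4, k5⟩ := hi
      refine ⟨?_, ?_⟩
      · simp only [mem_insert, mem_singleton, forall_eq_or_imp, forall_eq]
        simp only at k1 k2 k3 k4
        simp [k1, k2, k3, k4, h2.symm, h3.symm, h4.symm]
      · cases c
        · simp only [Bool.false_eq_true, if_false] at k5
          simp [k5, h1.symm]
        · simp only [if_true] at k5
          simp [k5]
    · rw [PS.P_none _ fun i hi => e ⟨hi.1, hi.2.1⟩]
      norm_num
  refine ⟨(PS.cube V).prod C, fun i t => (Big G F t ∧ i.1 t = true) ∨ (¬ Big G F t ∧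
    ((∀ a, G.Adj t a → i.1 a = false) ∨ ∃ r, G.Adj t r ∧ R r t i.1 i.2)), fun i v hv => ?_,
    fun t => ?_⟩
  · obtain ⟨s, c⟩ := i
    simp only
    by_cases e : Big G F v
    · obtain ⟨-, n1, n2, n3, b1, b2, b3, -⟩ := ch v hv e
      have key : ∀ x a, Nb G x v a → ¬ Big G F x → s v = false → s a = false →
          ∃ t, G.Adj v t ∧ ((Big G F t ∧ s t = true) ∨ (¬ Big G F t ∧
          ((∀ a, G.Adj t a → s a = false) ∨ ∃ r, G.Adj t r ∧ R r t s c))) :=
        fun x a n b h1 h2 => ⟨x, n.2.2.1, Or.inr ⟨b, Or.inl fun t ht => by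
          rcases n.2.2.2.2.2.2.1 t ht with rfl | rfl <;> assumption⟩⟩
      cases h0 : s v
      · right
        cases h1 : s (a1 v)
        · exact key _ _ n1 b1 h0 h1
        cases h2 : s (a2 v)
        · exact key _ _ n2 b2 h0 h2
        cases h3 : s (a3 v)
        · exact key _ _ n3 b3 h0 h3
        cases c
        · exact ⟨x2 v, n2.2.2.1, Or.inr ⟨b2, Or.inr ⟨v, n2.1, hv, e, h0, h1, h2, h3, rfl⟩⟩⟩
        · exact ⟨x1 v, n1.2.2.1, Or.inr ⟨b1, Or.inr ⟨v, n1.1, hv, e, h0, h1, h2, h3, rfl⟩⟩⟩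
      · exact Or.inl (Or.inl ⟨e, rfl⟩)
    · by_cases e' : ∀ a, G.Adj v a → s a = false
      · exact Or.inl (Or.inr ⟨e, Or.inl e'⟩)
      · simp only [not_forall, Bool.not_eq_false] at e'
        obtain ⟨a, h1, h2⟩ := e'
        exact Or.inr ⟨a, h1, Or.inl ⟨hS _ _ h1 e, h2⟩⟩
  · by_cases e : Big G F t
    · have e1 := PS.cube_pat {t} (fun _ => true)
      rw [← PS.prod_fst _ C, prod_singleton] at e1
      exact (PS.mono _ fun i hi => by simpa [e] using hi).trans (e1.trans_le (by norm_num))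
    · obtain ⟨u, -, -, h, -⟩ := hd t fun h => e (Or.inl h)
      obtain ⟨-, w, h1, n⟩ := small_nb hd e h
      have e1 := PS.cube_pat {u, w} (fun _ => false)
      rw [← PS.prod_fst _ C, prod_pair h1.symm] at e1
      have e2 := hR u t
      have e3 := hR w t
      refine (PS.cover ((PS.cube V).prod C) (Y := fun i => ∀ v ∈ ({u, w} : Finset V), i.1 v = false)
        (Z := fun i => R u t i.1 i.2 ∨ R w t i.1 i.2) fun i hi => ?_).trans
        ((add_le_add e1.le (PS.cover _ fun i => id)).trans ?_)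
      · rcases hi with hi | ⟨-, hi | ⟨r, h2, h3⟩⟩
        · exact absurd hi.1 e
        · exact Or.inl (by simpa using ⟨hi u n.1, hi w n.2.1⟩)
        · rcases n.2.2.2.2.2.2.1 r h2 with rfl | rfl
          exacts [Or.inr (Or.inl h3), Or.inr (Or.inr h3)]
      · simp only [Bool.false_eq_true, if_false]
        linarith

theorem step [Finite V] (hd : Deg G F) (hc : Conn G F) (ih : IH G) : Good (2 / 5) G F := by
  by_contra hn
  have hB : ∀ a b, G.Adj a b → Big G F a → ¬ Big G F b := fun a b h h1 h2 =>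
    hn (big_big hd hc ih h h1 h2)
  have hS : ∀ a b, G.Adj a b → ¬ Big G F a → Big G F b := fun a b h h1 =>
    by_contra fun h2 => hn (two_small hd hc ih hB h1 h2 h)
  refine hn (final hd hB hS fun x y u w h1 h2 n1 n2 => by_contra fun h3 => ?_)
  have hu := hS _ _ n1.1 h3
  have h4 := hB _ _ n2.2.2.1 hu
  exact hn (twin hd hc ih hu (hS _ _ n1.2.1 h3) (fun e => h3 (Or.inl e)) (fun e => h4 (Or.inl e))
    h1 n1 n2 fun e => h4 (hS _ _ e h3))

theorem good_free [Finite V] (G : SimpleGraph V) (F : Set V) (hd : Deg G F) (hc : Conn G F) :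
    Good (2 / 5) G F := by
  obtain ⟨n, hn⟩ : ∃ n, {a | ∃ c, G.Adj a c}.ncard * (Nat.card (V × V) + 1) +
    {q : V × V | G.Adj q.1 q.2}.ncard = n := ⟨_, rfl⟩
  induction n using Nat.strong_induction_on generalizing G F with
  | _ n ih =>
    refine step hd hc fun G' F' h1 h2 h3 => ih _ ?_ G' F' h1 h2 rfl
    rw [← hn]
    rcases h3 with ⟨h3, a, b, h4, h5⟩ | ⟨h3, a, b, h4, h5⟩
    · have e1 : {a | ∃ c, G'.Adj a c}.ncard ≤ {a | ∃ c, G.Adj a c}.ncard :=
        Set.ncard_le_ncard fun a ⟨c, h⟩ => ⟨c, h3 h⟩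
      have e2 : {q : V × V | G'.Adj q.1 q.2}.ncard < {q : V × V | G.Adj q.1 q.2}.ncard :=
        Set.ncard_lt_ncard ⟨fun q h => h3 h, fun e => h5 (e (a := (a, b)) h4)⟩
      have := Nat.mul_le_mul_right (Nat.card (V × V) + 1) e1
      omega
    · have e1 : {a | ∃ c, G'.Adj a c}.ncard < {a | ∃ c, G.Adj a c}.ncard :=
        Set.ncard_lt_ncard ⟨fun a ⟨c, h⟩ => h3 a c h, fun e => by
          obtain ⟨c, h⟩ := e (a := a) ⟨b, h4⟩
          exact h5 c h⟩
      have e2 := Set.ncard_le_card {q : V × V | G'.Adj q.1 q.2}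
      have := Nat.mul_le_mul_right (Nat.card (V × V) + 1) (Nat.succ_le_of_lt e1)
      rw [Nat.succ_mul] at this
      omega

theorem good_avg (C : Finset V) (hC : C.Nonempty) (h : ∀ v ∈ C, Good p G {t | t ∈ F ∨ t = v}) :
    Good (p + 1 / C.card) G F := by
  classical
  choose S D h1 h2 using h
  have h0 : (0 : ℝ) < C.card := by exact_mod_cast hC.card_pos
  refine ⟨⟨Σ v : C, (S v v.2).ι, inferInstance, fun q => (S q.1 q.1.2).w q.2 / C.card,
    fun q => div_nonneg ((S _ _).nonneg _) h0.le, ?_⟩, fun q t => D q.1 q.1.2 q.2 t ∨ t = q.1,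
    fun q v hv => ?_, fun t => ?_⟩
  · rw [Fintype.sum_sigma]
    have : ∀ v : C, ∑ i, (S v v.2).w i = 1 := fun v => (S v v.2).sum_one
    simp only [← sum_div, this]
    simp [h0.ne']
  · by_cases e : v = q.1
    · exact Or.inl (Or.inr e)
    · rcases h1 _ _ q.2 v (fun h => h.elim hv e) with h | ⟨t, h, h'⟩
      exacts [Or.inl (Or.inl h), Or.inr ⟨t, h, Or.inl h'⟩]
  · unfold PS.P
    refine (Fintype.sum_sigma _).trans_le ?_
    have : ∀ v : C, (S v v.2).P (fun i => D v v.2 i t ∨ t = v) ≤ p + if t = v then 1 else 0 :=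
      fun v => by
        refine (PS.cover _ fun i => id).trans (add_le_add (h2 _ _ _) ?_)
        split_ifs with e
        · exact (PS.P_all _ fun _ => e).le
        · exact (PS.P_none _ fun _ => e).le
    calc _ = ∑ v : C, (S v v.2).P (fun i => D v v.2 i t ∨ t = v) / C.card := by
          refine sum_congr rfl fun v _ => ?_
          refine Eq.trans (sum_congr rfl fun i _ => ?_) (sum_div _ _ _).symm
          split_ifs <;> simp
      _ ≤ ∑ v : C, (p + if t = v then 1 else 0) / C.card := by gcongr with v; exact this v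
      _ ≤ _ := by
          rw [← sum_div, sum_add_distrib, div_le_iff₀ h0, add_mul, one_div_mul_cancel h0.ne']
          refine add_le_add (by simp [mul_comm]) ?_
          rw [sum_coe_sort C fun v => if t = v then (1 : ℝ) else 0, sum_ite_eq]
          split_ifs <;> norm_num

theorem good_union {C : Set V} (hC : Closed G C) (h1 : Good p G {t | t ∈ F ∨ t ∉ C})
    (h2 : Good p G {t | t ∈ F ∨ t ∈ C}) : Good p G F := by
  obtain ⟨S, D, h1, h3⟩ := h1
  obtain ⟨T, E, h2, h4⟩ := h2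
  refine ⟨S.prod T, fun q t => (t ∈ C ∧ D q.1 t) ∨ (t ∉ C ∧ E q.2 t), fun q v hv => ?_,
    fun t => ?_⟩
  · by_cases e : v ∈ C
    · rcases h1 q.1 v (fun h => h.elim hv fun h => h e) with h | ⟨t, h, h'⟩
      exacts [Or.inl (Or.inl ⟨e, h⟩), Or.inr ⟨t, h, Or.inl ⟨hC v e t h, h'⟩⟩]
    · rcases h2 q.2 v (fun h => h.elim hv e) with h | ⟨t, h, h'⟩
      exacts [Or.inl (Or.inr ⟨e, h⟩), Or.inr ⟨t, h, Or.inr ⟨fun e' => e (hC t e' v h.symm), h'⟩⟩]
  · by_cases e : t ∈ C
    · exact (PS.mono _ fun i => by simp [e]).trans ((PS.prod_fst S T fun i => D i t).trans_le (h3 t))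
    · exact (PS.mono _ fun i => by simp [e]).trans ((PS.prod_snd S T fun i => E i t).trans_le (h4 t))

theorem Good.le {q : ℝ} (h : Good p G F) (hq : p ≤ q) : Good q G F := by
  obtain ⟨S, D, h1, h2⟩ := h
  exact ⟨S, D, h1, fun v => (h2 v).trans hq⟩

theorem good_univ (hp : 0 ≤ p) (hF : ∀ v, v ∈ F) : Good p G F :=
  ⟨PS.coin 0 le_rfl zero_le_one, fun _ _ => False, fun _ v hv => absurd (hF v) hv,
    fun _ => (PS.P_none _ fun _ => not_false).trans_le hp⟩

/-- Only the small components matter. -/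
theorem good_of_small [Finite V] (N : ℕ) (hp : 2 / 5 + 1 / (N + 1 : ℝ) ≤ p) (hd : Deg G ∅)
    (h : ∀ C : Set V, Closed G C → C.Nonempty → C.ncard ≤ N → Good p G Cᶜ) : Good p G ∅ := by
  classical
  have key : ∀ n, ∀ S : Set V, S.ncard = n → Closed G S → Good p G Sᶜ := by
    intro n
    induction n using Nat.strong_induction_on with
    | _ n ih =>
      intro S hS hc
      rcases S.eq_empty_or_nonempty with rfl | hne
      · exact good_univ (le_trans (by positivity) hp) (by simp)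
      obtain ⟨C, ⟨c1, c2, c3⟩, c4⟩ := exists_minimal_of_wellFoundedLT
        (fun C : Set V => C ⊆ S ∧ Closed G C ∧ C.Nonempty) ⟨S, subset_rfl, hc, hne⟩
      refine good_union c2 ?_ ((ih _ ?_ (S \ C) rfl fun v hv t ht => ⟨hc v hv.1 t ht, fun e =>
        hv.2 (c2 t e v ht.symm)⟩).mono le_rfl fun t ht => by simpa [or_iff_not_imp_left] using ht)
      · refine Good.mono (F' := Cᶜ) ?_ le_rfl fun t ht => Or.inr ht
        rcases le_or_gt C.ncard N with e | e
        · exact h C c2 c3 e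
        · have hf := C.toFinite
          refine (good_avg hf.toFinset (by simpa using c3) fun v hv => good_free G _
            (fun t _ => hd t (Set.notMem_empty t)) fun T k1 k2 t ht => ?_).le (le_trans ?_ hp)
          · have k3 : T ⊆ C := fun s hs => by_contra fun e => k1 s hs (Or.inl e)
            exact k1 v (c4 ⟨k3.trans c1, k2, t, ht⟩ k3 (by simpa using hv)) (Or.inr rfl)
          · rw [← Set.ncard_eq_toFinset_card C hf]
            have : (N + 1 : ℝ) ≤ C.ncard := by exact_mod_cast e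
            gcongr
      · rw [← hS]
        obtain ⟨v, hv⟩ := c3
        exact Set.ncard_lt_ncard ⟨Set.diff_subset, fun e => (e (c1 hv)).2 hv⟩
  simpa using key _ Set.univ rfl fun _ _ _ _ => trivial

end Pool.Agent.MP_9e68e9_lc.Low

end

section

/-! Small explicit gadgets, checked by certificates. -/

namespace Pool.Agent.MP_9e68e9_lc

open Finset

/-- A small gadget: number of inner vertices, edges, attachments, free vertices. -/
structure Flat where
  n : ℕ
  E : List (ℕ × ℕ)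
  A : List (ℕ × Bool)
  F : List ℕ

/-- Check a property of all bit lists of a given length. -/
def allB : ℕ → (List Bool → Bool) → Bool
  | 0, f => f []
  | n + 1, f => allB n (fun l => f (true :: l)) && allB n (fun l => f (false :: l))

theorem allB_spec {n : ℕ} {f : List Bool → Bool} (h : allB n f = true) :
    ∀ l : List Bool, l.length = n → f l = true := by
  induction n generalizing f with
  | zero =>
    intro l hl
    rw [List.length_eq_zero_iff.1 hl]
    exact h
  | succ n ih =>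
    simp only [allB, Bool.and_eq_true] at h
    rintro (_ | ⟨_ | _, l⟩) hl
    · simp at hl
    · exact ih h.2 l (by simpa using hl)
    · exact ih h.1 l (by simpa using hl)

namespace Flat

variable (g : Flat)

/-- The gadget described by the data. -/
def gad : Gad Bool where
  W := Fin g.n
  H := SimpleGraph.fromRel fun a b => (a.val, b.val) ∈ g.E
  att := fun w s => (w.val, s) ∈ g.A
  need := fun w => w.val ∉ g.F

/-- Domination test. -/
def domB (a b : Bool) (y : ℕ → Bool) : Bool :=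
  (List.range g.n).all fun w => decide (w ∈ g.F) || y w ||
    g.E.any (fun e => (e.1 == w && y e.2) || (e.2 == w && y e.1)) ||
    g.A.any fun e => e.1 == w && cond e.2 b a

theorem domB_iff (x : Bool → Bool) (y : ℕ → Bool) (hy : ∀ i, y i = true → i < g.n) :
    g.domB (x false) (x true) y = true ↔ g.gad.Dom x fun w : Fin g.n => y w.val := by
  have e : ∀ s, cond s (x true) (x false) = x s := by rintro (_ | _) <;> rfl
  simp only [domB, List.all_eq_true, List.mem_range, Bool.or_eq_true, decide_eq_true_eq,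
    List.any_eq_true, Bool.and_eq_true, beq_iff_eq, e]
  constructor
  · intro h w hw
    rcases h w.val w.2 with ((h | h) | ⟨⟨u, v⟩, h, ⟨rfl, h'⟩ | ⟨rfl, h'⟩⟩) | ⟨⟨u, s⟩, h, rfl, h'⟩
    · exact absurd h hw
    · exact Or.inl h
    · by_cases hv : w.val = v
      · exact Or.inl (by subst hv; exact h')
      · exact Or.inr (Or.inl ⟨⟨v, hy v h'⟩, ⟨fun e => hv (congrArg Fin.val e), Or.inl h⟩, h'⟩)
    · by_cases hv : w.val = u
      · exact Or.inl (by subst hv; exact h')
      · exact Or.inr (Or.inl ⟨⟨u, hy u h'⟩, ⟨fun e => hv (congrArg Fin.val e), Or.inr h⟩, h'⟩)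
    · exact Or.inr (Or.inr ⟨s, h, h'⟩)
  · intro h w hw
    by_cases hF : w ∈ g.F
    · exact Or.inl (Or.inl (Or.inl hF))
    · rcases h ⟨w, hw⟩ hF with h | ⟨u, ⟨-, h | h⟩, h'⟩ | ⟨s, h, h'⟩
      · exact Or.inl (Or.inl (Or.inr h))
      · exact Or.inl (Or.inr ⟨_, h, Or.inl ⟨rfl, h'⟩⟩)
      · exact Or.inl (Or.inr ⟨_, h, Or.inr ⟨rfl, h'⟩⟩)
      · exact Or.inr ⟨_, h, rfl, h'⟩

/-- Dual certificate. -/
def soundB (w : List ℕ) (la lb mu c : ℤ) : Bool :=
  allB g.n fun l => [false, true].all fun a => [false, true].all fun b =>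
    !(g.domB a b fun i => l.getD i false) ||
      decide (c ≤ (∑ i ∈ range g.n, if l.getD i false then (w.getD i 0 : ℤ) else 0) +
        (if a then la else 0) + (if b then lb else 0) + if a && b then mu else 0)

theorem sound {w : List ℕ} {la lb mu c : ℤ} (h : g.soundB w la lb mu c = true) {p : ℝ}
    {μ : (Bool → Bool) → ℝ} (hμ : Bal p μ) (hE : g.gad.Ext p μ) :
    (c : ℝ) ≤ ((∑ i ∈ range g.n, w.getD i 0 : ℕ) + la + lb) * p + mu * KK μ false true := by
  obtain ⟨ν, h1, h2, h3, h4⟩ := hE.model hμ.1.1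
  have hν : IsProb ν := ⟨h1, by
    have := hμ.1.2
    rwa [← h2, ← Ex_one, Ex_law, Ex_one] at this⟩
  have key := Ex_mono' (f := fun _ => (c : ℝ))
    (g := fun z => ∑ i : Fin g.n, (w.getD i 0 : ℝ) * ind (z.2 i) + la * ind (z.1 false) +
      lb * ind (z.1 true) + mu * (ind (z.1 false) * ind (z.1 true))) h1 fun z hz => by
      let y : Fin g.n → Bool := z.2
      have e : ∀ i : Fin g.n, (List.ofFn y).getD i false = y i := fun i => by simp
      have hd : g.domB (z.1 false) (z.1 true) (fun i => (List.ofFn y).getD i false) = true := by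
        rw [domB_iff]
        · simp only [e]
          exact h3 z hz
        · intro i hi
          by_contra hh
          rw [List.getD_eq_default _ _ (by simpa using hh)] at hi
          exact absurd hi (by simp)
      have k := allB_spec h (List.ofFn y) (by simp)
      simp only [List.all_eq_true] at k
      have k2 := k (z.1 false) (by cases z.1 false <;> simp) (z.1 true) (by cases z.1 true <;> simp)
      rw [hd, Bool.not_true, Bool.false_or, decide_eq_true_eq, Finset.sum_range] at k2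
      have k3 : (c : ℝ) ≤ ((∑ i : Fin g.n, (if (List.ofFn y).getD i false then (w.getD i 0 : ℤ)
          else 0) + (if z.1 false then la else 0) + (if z.1 true then lb else 0) +
          if z.1 false && z.1 true then mu else 0 : ℤ) : ℝ) := by exact_mod_cast k2
      refine k3.trans (le_of_eq ?_)
      push_cast
      congr 1
      · congr 1
        · congr 1
          · refine Finset.sum_congr rfl fun i _ => ?_
            rw [e]
            change _ = _ * ind (y i)
            cases y i <;> simp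
          · cases z.1 false <;> simp
        · cases z.1 true <;> simp
      · cases z.1 false <;> cases z.1 true <;> simp
  have e1 : ∀ s, Ex ν (fun z => ind (z.1 s)) = p := fun s => by
    rw [← hμ.2 s, ← h2, Ex_law]
  have e2 : Ex ν (fun z => ind (z.1 false) * ind (z.1 true)) = KK μ false true := by
    rw [KK, ← h2, Ex_law]
  rw [hν.Ex_const, Ex_add, Ex_add, Ex_add, Ex_sum, Ex_const_mul, Ex_const_mul, Ex_const_mul,
    e1, e1, e2] at key
  have e3 : ∑ i : Fin g.n, Ex ν (fun z => (w.getD i 0 : ℝ) * ind (z.2 i)) ≤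
      (∑ i ∈ range g.n, w.getD i 0 : ℕ) * p := by
    rw [Finset.sum_range]
    push_cast
    rw [Finset.sum_mul]
    refine Finset.sum_le_sum fun i _ => ?_
    rw [Ex_const_mul]
    exact mul_le_mul_of_nonneg_left (h4 i) (Nat.cast_nonneg _)
  linarith

/-- Weighted count of rows of a certificate. -/
def cnt (L : List (ℕ × Bool × Bool × List ℕ)) (h : ℕ × Bool × Bool × List ℕ → Bool) : ℕ :=
  (L.map fun r => if h r then r.1 else 0).sum

/-- Primal certificate. -/
def compB (N P K : ℕ) (L : List (ℕ × Bool × Bool × List ℕ)) : Bool :=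
  L.all (fun r => r.2.2.2.all (fun i => decide (i < g.n)) &&
    g.domB r.2.1 r.2.2.1 fun i => decide (i ∈ r.2.2.2)) &&
  decide (0 < N) && cnt L (fun _ => true) == N &&
  (List.range g.n).all (fun w => decide (cnt L (fun r => decide (w ∈ r.2.2.2)) ≤ P)) &&
  cnt L (fun r => r.2.1) == P && cnt L (fun r => r.2.2.1) == P &&
  cnt L (fun r => r.2.1 && r.2.2.1) == K

theorem comp {N P K : ℕ} {L : List (ℕ × Bool × Bool × List ℕ)} (h : g.compB N P K L = true)
    {p k : ℝ} (hp : p = (P : ℝ) / N) (hk : k = (K : ℝ) / N) : g.gad.Ext p (law2 p k) := by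
  simp only [compB, Bool.and_eq_true, List.all_eq_true, decide_eq_true_eq, beq_iff_eq,
    List.mem_range] at h
  obtain ⟨⟨⟨⟨⟨⟨h1, h2⟩, h3⟩, h4⟩, h5⟩, h6⟩, h7⟩ := h
  have hN : (0 : ℝ) < N := by exact_mod_cast h2
  let Q : Fin L.length → ℝ := fun i => (L[i.val].1 : ℝ) / N
  have key : ∀ h, Ex Q (fun i => ind (h L[i.val])) = (cnt L h : ℝ) / N := by
    intro h
    rw [cnt, ← Fin.sum_univ_fun_getElem]
    push_cast
    rw [Finset.sum_div]
    exact Finset.sum_congr rfl fun i _ => by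
      dsimp only [Q]
      cases h L[i.val] <;> simp
  have hQ : IsProb Q := ⟨fun i => by positivity, by
    have := key fun _ => true
    rw [h3, div_self hN.ne'] at this
    simpa [Ex] using this⟩
  let X : Fin L.length → Bool → Bool := fun i => mk2 L[i.val].2.1 L[i.val].2.2.1
  have hb : Bal p (law Q X) := bal_law hQ X (by
    rintro (_ | _)
    · exact (key fun r => r.2.1).trans (by rw [h5, hp])
    · exact (key fun r => r.2.2.1).trans (by rw [h6, hp]))
  have hK : KK (law Q X) false true = k := by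
    rw [KK, Ex_law, hk, ← h7, ← key]
    refine Ex_congr fun i => ?_
    change ind L[i.val].2.1 * ind L[i.val].2.2.1 = _
    cases L[i.val].2.1 <;> cases L[i.val].2.2.1 <;> simp
  rw [← hK, ← hb.eq_law2]
  refine g.gad.ext_of_model hQ.1 X (fun i (w : Fin g.n) => decide (w.val ∈ L[i.val].2.2.2))
    (fun i _ => ?_) fun w => ?_
  · have := h1 _ (List.getElem_mem i.2)
    exact (g.domB_iff (X i) _ fun j hj => this.1 j (by simpa using hj)).1 this.2
  · refine (key fun r => decide (w.val ∈ r.2.2.2)).trans_le ?_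
    rw [hp]
    exact div_le_div_of_nonneg_right (by exact_mod_cast h4 _ w.2) hN.le

end Flat

/-- A path with two inner vertices. -/
def gT : Flat := ⟨2, [(0, 1)], [(0, false), (1, true)], []⟩

/-- A five-cycle. -/
def gC : Flat := ⟨6, [(0, 1), (1, 2), (2, 3), (3, 4), (0, 4), (4, 5)],
  [(0, false), (1, true), (2, false), (3, true)], [5]⟩

/-- An eight vertex gadget. -/
def gE : Flat := ⟨8, [(0, 1), (0, 4), (0, 7), (1, 2), (2, 5), (3, 4), (3, 6), (5, 7), (6, 7)],
  [(1, false), (2, true), (3, false), (4, true), (5, false), (6, true)], []⟩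

/-- A claw. -/
def gD : Flat := ⟨4, [(0, 1), (0, 2), (0, 3)],
  [(1, false), (1, true), (2, false), (2, true), (3, false), (3, true)], []⟩

/-- A nine vertex gadget. -/
def gN : Flat := ⟨9, [(0, 3), (1, 5), (1, 6), (1, 7), (2, 7), (2, 8), (3, 5), (4, 6)],
  [(0, false), (2, true), (3, true), (4, false), (5, false), (6, true), (7, false), (8, false)], []⟩

/-- A seven vertex gadget. -/
def gS : Flat := ⟨7, [(0, 1), (0, 2), (0, 4), (1, 5), (2, 6), (3, 4), (3, 5), (3, 6)],
  [(0, false), (1, true), (2, true), (3, false), (4, true), (5, true)], [6]⟩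

theorem sg_T {p : ℝ} (h1 : 1 / 3 ≤ p) (h2 : p ≤ 2 / 5) : SG p (3 * p - 1) := by
  have a := gT.comp (N := 3) (P := 1) (K := 1) (L := [(1, false, false, [0]),
    (1, false, false, [1]), (1, true, true, [])]) (by decide +kernel) (p := 1 / 3) (k := 1 / 3)
    (by norm_num) (by norm_num)
  have b := gT.comp (N := 5) (P := 2) (K := 1) (L := [(2, false, false, [1]),
    (1, false, true, [0]), (1, true, false, [0]), (1, true, true, [])]) (by decide +kernel)
    (p := 2 / 5) (k := 1 / 5) (by norm_num) (by norm_num)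
  have c := gT.comp (N := 5) (P := 2) (K := 2) (L := [(2, false, false, [0]),
    (1, false, false, [1]), (2, true, true, [])]) (by decide +kernel) (p := 2 / 5) (k := 2 / 5)
    (by norm_num) (by norm_num)
  refine sg_exact gT.gad (by linarith) (by linarith)
    (gT.gad.mix2 (by norm_num) (by norm_num) (by norm_num) (by norm_num) (by norm_num) (by norm_num)
      a c (a := 6 - 15 * p) (b := 15 * p - 5) (by linarith) (by linarith) (by ring) (by ring)
      (by ring))
    (gT.gad.mix2 (by norm_num) (by norm_num) (by norm_num) (by norm_num) (by norm_num) (by norm_num)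
      a b (a := 6 - 15 * p) (b := 15 * p - 5) (by linarith) (by linarith) (by ring) (by ring)
      (by ring)) fun μ hμ h => ?_
  have := gT.sound (w := [1, 1]) (la := 0) (lb := 0) (mu := 1) (c := 1) (by decide +kernel) hμ h
  rw [show ∑ i ∈ range gT.n, [1, 1].getD i 0 = 2 by decide +kernel] at this
  norm_num at this
  linarith

theorem sg_C {p : ℝ} (h1 : 2 / 7 ≤ p) (h2 : p ≤ 3 / 10) : SG p (7 * p - 2) := by
  have a := gC.comp (N := 7) (P := 2) (K := 2) (L := [(1, false, false, [0, 2]),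
    (1, false, false, [0, 3]), (1, false, false, [1, 3]), (1, false, false, [1, 4]),
    (1, false, false, [2, 4]), (2, true, true, [5])]) (by decide +kernel) (p := 2 / 7) (k := 2 / 7)
    (by norm_num) (by norm_num)
  have b := gC.comp (N := 10) (P := 3) (K := 2) (L := [(2, false, false, [0, 3]),
    (1, false, false, [1, 3]), (1, false, false, [1, 4]), (2, false, false, [2, 4]),
    (1, false, true, [1, 5]), (1, true, false, [2, 5]), (1, true, true, [0]),
    (1, true, true, [5])]) (by decide +kernel) (p := 3 / 10) (k := 1 / 5)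
    (by norm_num) (by norm_num)
  have c := gC.comp (N := 10) (P := 3) (K := 3) (L := [(1, false, false, [0, 2]),
    (1, false, false, [0, 3]), (2, false, false, [1, 3]), (1, false, false, [1, 4]),
    (2, false, false, [2, 4]), (1, true, true, [0]), (2, true, true, [5])]) (by decide +kernel)
    (p := 3 / 10) (k := 3 / 10) (by norm_num) (by norm_num)
  refine sg_exact gC.gad (by linarith) (by linarith)
    (gC.gad.mix2 (by norm_num) (by norm_num) (by norm_num) (by norm_num) (by norm_num) (by norm_num)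
      a c (a := 21 - 70 * p) (b := 70 * p - 20) (by linarith) (by linarith) (by ring) (by ring)
      (by ring))
    (gC.gad.mix2 (by norm_num) (by norm_num) (by norm_num) (by norm_num) (by norm_num) (by norm_num)
      a b (a := 21 - 70 * p) (b := 70 * p - 20) (by linarith) (by linarith) (by ring) (by ring)
      (by ring)) fun μ hμ h => ?_
  have := gC.sound (w := [1, 1, 1, 1, 1, 1]) (la := 0) (lb := 0) (mu := 1) (c := 2)
    (by decide +kernel) hμ h
  rw [show ∑ i ∈ range gC.n, [1, 1, 1, 1, 1, 1].getD i 0 = 6 by decide +kernel] at this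
  norm_num at this
  linarith

theorem sg_E {p : ℝ} (h1 : 3 / 10 ≤ p) (h2 : p ≤ 1 / 3) : SG p (5 * p - 3 / 2) := by
  have a := gE.comp (N := 10) (P := 3) (K := 3) (L := [(2, false, false, [1, 3, 5]),
    (2, false, false, [2, 4, 6]), (1, false, false, [0, 5, 6]), (1, false, false, [2, 3, 7]),
    (1, false, false, [1, 4, 7]), (2, true, true, [0]), (1, true, true, [7])]) (by decide +kernel)
    (p := 3 / 10) (k := 3 / 10) (by norm_num) (by norm_num)
  have b := gE.comp (N := 6) (P := 2) (K := 1) (L := [(1, false, false, [1, 3, 5]),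
    (2, false, false, [0, 2, 6]), (1, false, true, [1, 4, 7]), (1, true, false, [3, 4, 5]),
    (1, true, true, [7])]) (by decide +kernel) (p := 1 / 3) (k := 1 / 6)
    (by norm_num) (by norm_num)
  have c := gE.comp (N := 3) (P := 1) (K := 1) (L := [(1, false, false, [1, 3, 5]),
    (1, false, false, [2, 4, 6]), (1, true, true, [0])]) (by decide +kernel)
    (p := 1 / 3) (k := 1 / 3) (by norm_num) (by norm_num)
  refine sg_exact gE.gad (by linarith) (by linarith)
    (gE.gad.mix2 (by norm_num) (by norm_num) (by norm_num) (by norm_num) (by norm_num) (by norm_num)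
      a c (a := 10 - 30 * p) (b := 30 * p - 9) (by linarith) (by linarith) (by ring) (by ring)
      (by ring))
    (gE.gad.mix2 (by norm_num) (by norm_num) (by norm_num) (by norm_num) (by norm_num) (by norm_num)
      a b (a := 10 - 30 * p) (b := 30 * p - 9) (by linarith) (by linarith) (by ring) (by ring)
      (by ring)) fun μ hμ h => ?_
  have := gE.sound (w := [1, 1, 1, 1, 1, 1, 1, 1]) (la := 0) (lb := 0) (mu := 2) (c := 3)
    (by decide +kernel) hμ h
  rw [show ∑ i ∈ range gE.n, [1, 1, 1, 1, 1, 1, 1, 1].getD i 0 = 8 by decide +kernel] at this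
  norm_num at this
  linarith

theorem dg_D {p : ℝ} (h1 : 3 / 10 ≤ p) (h2 : p ≤ 1 / 3) : DG p (3 / 2 - 4 * p) := by
  have a := gD.comp (N := 10) (P := 3) (K := 0) (L := [(3, false, false, [0]),
    (1, false, false, [1, 2, 3]), (1, false, true, [1]), (2, false, true, [2]),
    (1, true, false, [1]), (2, true, false, [3])]) (by decide +kernel)
    (p := 3 / 10) (k := 0) (by norm_num) (by norm_num)
  have b := gD.comp (N := 6) (P := 2) (K := 1) (L := [(2, false, false, [0]),
    (1, false, false, [1, 2, 3]), (1, false, true, [2]), (1, true, false, [3]),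
    (1, true, true, [1])]) (by decide +kernel) (p := 1 / 3) (k := 1 / 6)
    (by norm_num) (by norm_num)
  have c := gD.comp (N := 6) (P := 2) (K := 0) (L := [(1, false, false, [0]),
    (1, false, false, [1, 2, 3]), (1, false, true, [2]), (1, false, true, [3]),
    (1, true, false, [0]), (1, true, false, [1])]) (by decide +kernel)
    (p := 1 / 3) (k := 0) (by norm_num) (by norm_num)
  refine dg_exact gD.gad (by linarith) (by linarith)
    (gD.gad.mix2 (by norm_num) (by norm_num) (by norm_num) (by norm_num) (by norm_num) (by norm_num)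
      a c (a := 10 - 30 * p) (b := 30 * p - 9) (by linarith) (by linarith) (by ring) (by ring)
      (by ring))
    (gD.gad.mix2 (by norm_num) (by norm_num) (by norm_num) (by norm_num) (by norm_num) (by norm_num)
      a b (a := 10 - 30 * p) (b := 30 * p - 9) (by linarith) (by linarith) (by ring) (by ring)
      (by ring)) fun μ hμ h => ?_
  have := gD.sound (w := [3, 1, 1, 1]) (la := 2) (lb := 2) (mu := -2) (c := 3)
    (by decide +kernel) hμ h
  rw [show ∑ i ∈ range gD.n, [3, 1, 1, 1].getD i 0 = 6 by decide +kernel] at this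
  norm_num at this
  linarith

theorem sg_N : SG (1 / 3) (1 / 9) := by
  refine sg_exact gN.gad (by norm_num) (by norm_num)
    (gN.comp (N := 3) (P := 1) (K := 1) (L := [(1, false, false, [0, 2, 4, 5]),
      (1, false, false, [3, 6, 7, 8]), (1, true, true, [1])]) (by decide +kernel)
      (by norm_num) (by norm_num))
    (gN.comp (N := 9) (P := 3) (K := 2) (L := [(1, false, false, [0, 2, 4, 5]),
      (2, false, false, [2, 3, 6]), (2, false, false, [0, 1, 4, 8]), (1, false, true, [3, 6, 7, 8]),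
      (1, true, false, [1, 5, 7]), (1, true, true, [5]), (1, true, true, [7])]) (by decide +kernel)
      (by norm_num) (by norm_num)) fun μ hμ h => ?_
  have := gN.sound (w := [1, 2, 2, 2, 2, 1, 2, 1, 1]) (la := 2) (lb := 0) (mu := 3) (c := 6)
    (by decide +kernel) hμ h
  rw [show ∑ i ∈ range gN.n, [1, 2, 2, 2, 2, 1, 2, 1, 1].getD i 0 = 14 by decide +kernel] at this
  norm_num at this
  linarith

theorem sg_S : SG (2 / 7) (1 / 14) := by
  refine sg_exact gS.gad (by norm_num) (by norm_num)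
    (gS.comp (N := 7) (P := 2) (K := 2) (L := [(1, false, false, [0, 3]),
      (1, false, false, [1, 2, 4]), (1, false, false, [0, 5]), (1, false, false, [2, 4, 5]),
      (1, false, false, [1, 3, 6]), (2, true, true, [])]) (by decide +kernel)
      (by norm_num) (by norm_num))
    (gS.comp (N := 14) (P := 4) (K := 3) (L := [(2, false, false, [0, 3]),
      (1, false, false, [0, 5]), (3, false, false, [2, 4, 5]), (2, false, false, [1, 3, 6]),
      (1, false, false, [1, 4, 6]), (1, false, true, [2, 6]), (1, true, false, [0, 1]),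
      (3, true, true, [])]) (by decide +kernel) (by norm_num) (by norm_num)) fun μ hμ h => ?_
  have := gS.sound (w := [3, 2, 1, 2, 2, 2, 1]) (la := 0) (lb := 3) (mu := 2) (c := 5)
    (by decide +kernel) hμ h
  rw [show ∑ i ∈ range gS.n, [3, 2, 1, 2, 2, 2, 1].getD i 0 = 13 by decide +kernel] at this
  norm_num at this
  linarith

end Pool.Agent.MP_9e68e9_lc

end
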