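import Mathlib
import Pool.Agent.Mg.F2e8011.G2c7daa
import Pool.Agent.MP_a4672b_lc.Defs
import Pool.Agent.Mg.F2e8011.G85ba0e

section

namespace Pool.Agent.MP_a4672b_lc

open Classical in
/-- indicator -/
noncomputable def ind (p : Prop) : ℕ := if p then 1 else 0

lemma ind_le (p : Prop) : ind p ≤ 1 := by unfold ind; split_ifs <;> omega
lemma ind_pos {p : Prop} (h : p) : ind p = 1 := by simp [ind, h]
lemma ind_neg {p : Prop} (h : ¬ p) : ind p = 0 := by simp [ind, h]
lemma ind_mono {p q : Prop} (h : p → q) : ind p ≤ ind q := by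
  by_cases hp : p
  · rw [ind_pos hp, ind_pos (h hp)]
  · rw [ind_neg hp]; omega
lemma ind_congr {p q : Prop} (h : p ↔ q) : ind p = ind q := by rw [propext h]

variable {α β : Type*}

/-- consecutive pairs -/
def edges (l : List α) : List (α × α) := l.zip l.tail

@[simp] lemma edges_nil : edges ([] : List α) = [] := rfl
@[simp] lemma edges_single (x : α) : edges [x] = [] := rfl
@[simp] lemma edges_cons_cons (x y : α) (l : List α) :
    edges (x :: y :: l) = (x, y) :: edges (y :: l) := rfl

open Classical in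
/-- number of consecutive pairs in relation `R` -/
noncomputable def cnt (R : α → α → Prop) (l : List α) : ℕ :=
  (edges l).countP fun e => decide (R e.1 e.2)

@[simp] lemma cnt_nil (R : α → α → Prop) : cnt R [] = 0 := rfl
@[simp] lemma cnt_single (R : α → α → Prop) (x : α) : cnt R [x] = 0 := rfl
lemma cnt_cons_cons (R : α → α → Prop) (x y : α) (l : List α) :
    cnt R (x :: y :: l) = ind (R x y) + cnt R (y :: l) := by
  unfold cnt ind
  rw [edges_cons_cons, List.countP_cons]
  by_cases h : R x y <;> simp [h, add_comm]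

lemma mem_of_mem_edges {l : List α} {e : α × α} (he : e ∈ edges l) : e.1 ∈ l ∧ e.2 ∈ l :=
  ⟨(List.of_mem_zip he).1, List.mem_of_mem_tail (List.of_mem_zip he).2⟩

lemma cnt_le_length (R : α → α → Prop) (l : List α) : cnt R l ≤ l.length := by
  unfold cnt edges
  refine List.countP_le_length.trans ?_
  simp

lemma cnt_mono {R R' : α → α → Prop} {l : List α}
    (h : ∀ e ∈ edges l, R e.1 e.2 → R' e.1 e.2) : cnt R l ≤ cnt R' l := by
  unfold cnt
  apply List.countP_mono_left
  intro e he
  simpa using h e he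

lemma cnt_congr {R R' : α → α → Prop} {l : List α}
    (h : ∀ x ∈ l, ∀ y ∈ l, R x y ↔ R' x y) : cnt R l = cnt R' l :=
  le_antisymm (cnt_mono fun e he => (h _ (mem_of_mem_edges he).1 _ (mem_of_mem_edges he).2).1)
    (cnt_mono fun e he => (h _ (mem_of_mem_edges he).1 _ (mem_of_mem_edges he).2).2)

lemma cnt_eq_zero {R : α → α → Prop} {l : List α} (h : ∀ x ∈ l, ∀ y ∈ l, ¬ R x y) :
    cnt R l = 0 := by
  unfold cnt
  rw [List.countP_eq_zero]
  intro e he
  simpa using h _ (mem_of_mem_edges he).1 _ (mem_of_mem_edges he).2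

lemma cnt_or_le (R R' : α → α → Prop) (l : List α) :
    cnt (fun x y => R x y ∨ R' x y) l ≤ cnt R l + cnt R' l := by
  induction l with
  | nil => simp
  | cons x l ih =>
    cases l with
    | nil => simp
    | cons y l =>
      simp only [cnt_cons_cons]
      have : ind (R x y ∨ R' x y) ≤ ind (R x y) + ind (R' x y) := by
        by_cases h : R x y
        · rw [ind_pos h]; have := ind_le (R x y ∨ R' x y); omega
        · rw [ind_neg h, ind_congr (show (R x y ∨ R' x y) ↔ R' x y by tauto)]; omega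
      omega

lemma cnt_or_of_disj (R R' : α → α → Prop) (l : List α) (h : ∀ x y, R x y → ¬ R' x y) :
    cnt (fun x y => R x y ∨ R' x y) l = cnt R l + cnt R' l := by
  induction l with
  | nil => simp
  | cons x l ih =>
    cases l with
    | nil => simp
    | cons y l =>
      simp only [cnt_cons_cons]
      have : ind (R x y ∨ R' x y) = ind (R x y) + ind (R' x y) := by
        by_cases h1 : R x y
        · rw [ind_pos h1, ind_pos (Or.inl h1), ind_neg (h x y h1)]
        · rw [ind_neg h1, ind_congr (show (R x y ∨ R' x y) ↔ R' x y by tauto)]; omega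
      omega

lemma cnt_map (R : β → β → Prop) (f : α → β) (l : List α) :
    cnt R (l.map f) = cnt (fun x y => R (f x) (f y)) l := by
  induction l with
  | nil => simp
  | cons x l ih =>
    cases l with
    | nil => simp
    | cons y l =>
      simp only [List.map_cons, cnt_cons_cons] at ih ⊢
      rw [ih]

lemma cnt_append_cons (R : α → α → Prop) (l : List α) (x : α) (m : List α) :
    cnt R (l ++ x :: m) = cnt R (l ++ [x]) + cnt R (x :: m) := by
  induction l with
  | nil => simp
  | cons y l ih =>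
    cases l with
    | nil => simp [cnt_cons_cons]
    | cons z l =>
      simp only [List.cons_append, cnt_cons_cons] at ih ⊢
      omega

lemma cnt_cons_le (R : α → α → Prop) (x : α) (l : List α) : cnt R (x :: l) ≤ 1 + cnt R l := by
  cases l with
  | nil => simp
  | cons y l => rw [cnt_cons_cons]; have := ind_le (R x y); omega

lemma cnt_le_cons (R : α → α → Prop) (x : α) (l : List α) : cnt R l ≤ cnt R (x :: l) := by
  cases l with
  | nil => simp
  | cons y l => rw [cnt_cons_cons]; omega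

lemma cnt_append_le (R : α → α → Prop) (l m : List α) :
    cnt R (l ++ m) ≤ cnt R l + 1 + cnt R m := by
  induction l with
  | nil => simp
  | cons y l ih =>
    cases l with
    | nil => simpa using cnt_cons_le R y m
    | cons z l =>
      simp only [List.cons_append, cnt_cons_cons] at ih ⊢
      omega

lemma cnt_le_append_right (R : α → α → Prop) (l m : List α) : cnt R m ≤ cnt R (l ++ m) := by
  induction l with
  | nil => simp
  | cons y l ih => exact ih.trans (cnt_le_cons R y _)

lemma cnt_le_append_left (R : α → α → Prop) (l m : List α) : cnt R l ≤ cnt R (l ++ m) := by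
  induction l with
  | nil => simp
  | cons y l ih =>
    cases l with
    | nil => simp
    | cons z l =>
      simp only [List.cons_append, cnt_cons_cons] at ih ⊢
      omega

lemma cnt_reverse (R : α → α → Prop) (l : List α) :
    cnt R l.reverse = cnt (fun x y => R y x) l := by
  induction l with
  | nil => simp
  | cons x l ih =>
    cases l with
    | nil => simp
    | cons y l =>
      rw [List.reverse_cons, List.reverse_cons, List.append_assoc, List.singleton_append,
        cnt_append_cons, ← List.reverse_cons, ih, cnt_cons_cons, cnt_cons_cons]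
      simp [add_comm]

lemma cnt_flatMap_le {ι : Type*} (R : α → α → Prop) (L : List ι) (g : ι → List α) (c : ℕ)
    (h : ∀ i ∈ L, cnt R (g i) ≤ c) : cnt R (L.flatMap g) ≤ L.length * (c + 1) := by
  induction L with
  | nil => simp
  | cons i L ih =>
    rw [List.flatMap_cons]
    have h1 := cnt_append_le R (g i) (L.flatMap g)
    have h2 := ih fun j hj => h j (List.mem_cons_of_mem _ hj)
    have h3 := h i List.mem_cons_self
    simp only [List.length_cons]
    nlinarith

/-- a path meeting both sides of a cut has an edge across it -/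
lemma exists_edge_of_mem {l : List α} {A : α → Prop} {x y : α} (hx : x ∈ l) (hy : y ∈ l)
    (hA : A x) (hA' : ¬ A y) : ∃ e ∈ edges l, (A e.1 ∧ ¬ A e.2) ∨ (¬ A e.1 ∧ A e.2) := by
  induction l generalizing x y with
  | nil => simp at hx
  | cons z l ih =>
    cases l with
    | nil =>
      simp only [List.mem_singleton] at hx hy
      exact absurd (hy ▸ hx ▸ hA) hA'
    | cons w l =>
      by_cases hz : A z <;> by_cases hw : A w
      · have hy' : y ∈ w :: l := by
          rcases List.mem_cons.1 hy with rfl | h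
          · exact absurd hz hA'
          · exact h
        obtain ⟨e, he, h⟩ := ih List.mem_cons_self hy' hw hA'
        exact ⟨e, List.mem_cons_of_mem _ he, h⟩
      · exact ⟨(z, w), List.mem_cons_self, Or.inl ⟨hz, hw⟩⟩
      · exact ⟨(z, w), List.mem_cons_self, Or.inr ⟨hz, hw⟩⟩
      · have hx' : x ∈ w :: l := by
          rcases List.mem_cons.1 hx with rfl | h
          · exact absurd hA hz
          · exact h
        obtain ⟨e, he, h⟩ := ih hx' List.mem_cons_self hA hw
        exact ⟨e, List.mem_cons_of_mem _ he, h⟩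

lemma one_le_cnt {R : α → α → Prop} {l : List α} {e : α × α} (he : e ∈ edges l) (h : R e.1 e.2) :
    1 ≤ cnt R l := by
  unfold cnt
  rw [Nat.one_le_iff_ne_zero, Ne, List.countP_eq_zero]
  push Not
  exact ⟨e, he, by simpa using h⟩

/-- counting by an injective family of edges -/
lemma card_le_cnt {ι : Type*} {R : α → α → Prop} {l : List α} (s : Finset ι) (g : ι → α × α)
    (hg : ∀ i ∈ s, g i ∈ edges l ∧ R (g i).1 (g i).2) (hinj : Set.InjOn g s) :
    s.card ≤ cnt R l := by
  classical
  unfold cnt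
  rw [List.countP_eq_length_filter]
  refine le_trans ?_ (List.toFinset_card_le _)
  apply Finset.card_le_card_of_injOn g _ hinj
  intro i hi
  simp only [List.coe_toFinset, List.mem_filter, Set.mem_ofPred_eq, decide_eq_true_eq]
  exact hg i hi

/-- the cut relation of a predicate -/
def Cut (A : α → Prop) (x y : α) : Prop := (A x ∧ ¬ A y) ∨ (¬ A x ∧ A y)

lemma Cut.symm {A : α → Prop} {x y : α} (h : Cut A x y) : Cut A y x := by
  unfold Cut at *; tauto

lemma split_of_cut_le_one {A : α → Prop} {l : List α} (h : cnt (Cut A) l ≤ 1) :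
    ∃ l₁ l₂, l = l₁ ++ l₂ ∧ (((∀ x ∈ l₁, A x) ∧ ∀ x ∈ l₂, ¬ A x) ∨
      ((∀ x ∈ l₁, ¬ A x) ∧ ∀ x ∈ l₂, A x)) := by
  induction l with
  | nil => exact ⟨[], [], rfl, Or.inl ⟨by simp, by simp⟩⟩
  | cons x l ih =>
    cases l with
    | nil =>
      by_cases hx : A x
      · exact ⟨[x], [], rfl, Or.inl ⟨by simpa, by simp⟩⟩
      · exact ⟨[x], [], rfl, Or.inr ⟨by simpa, by simp⟩⟩
    | cons y l =>
      rw [cnt_cons_cons] at h
      by_cases hc : Cut A x y
      · rw [ind_pos hc] at h
        have h0 : cnt (Cut A) (y :: l) = 0 := by omega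
        have h1 : ∀ z ∈ y :: l, (A z ↔ A y) := by
          intro z hz
          constructor
          · intro hAz
            by_contra hy
            obtain ⟨e, he, h2⟩ := exists_edge_of_mem hz List.mem_cons_self hAz hy
            have := one_le_cnt (R := Cut A) he h2
            omega
          · intro hy
            by_contra hAz
            obtain ⟨e, he, h2⟩ := exists_edge_of_mem List.mem_cons_self hz hy hAz
            have := one_le_cnt (R := Cut A) he h2
            omega
        refine ⟨[x], y :: l, rfl, ?_⟩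
        rcases hc with hc | hc
        · exact Or.inl ⟨by simpa using hc.1, fun z hz h => hc.2 ((h1 z hz).1 h)⟩
        · exact Or.inr ⟨by simpa using hc.1, fun z hz => (h1 z hz).2 hc.2⟩
      · rw [ind_neg hc] at h
        obtain ⟨l₁, l₂, he, h'⟩ := ih (by omega)
        have hxy : A x ↔ A y := by unfold Cut at hc; tauto
        cases l₁ with
        | nil =>
          simp only [List.nil_append] at he
          subst he
          refine ⟨[], x :: y :: l, rfl, ?_⟩
          rcases h' with h' | h'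
          · refine Or.inl ⟨by simp, fun z hz => ?_⟩
            rcases List.mem_cons.1 hz with rfl | hz
            · exact fun h => h'.2 y List.mem_cons_self (hxy.1 h)
            · exact h'.2 z hz
          · refine Or.inr ⟨by simp, fun z hz => ?_⟩
            rcases List.mem_cons.1 hz with rfl | hz
            · exact hxy.2 (h'.2 y List.mem_cons_self)
            · exact h'.2 z hz
        | cons w l₁ =>
          simp only [List.cons_append, List.cons.injEq] at he
          obtain ⟨rfl, rfl⟩ := he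
          refine ⟨x :: y :: l₁, l₂, rfl, ?_⟩
          rcases h' with h' | h'
          · refine Or.inl ⟨fun z hz => ?_, h'.2⟩
            rcases List.mem_cons.1 hz with rfl | hz
            · exact hxy.2 (h'.1 y List.mem_cons_self)
            · exact h'.1 z hz
          · refine Or.inr ⟨fun z hz => ?_, h'.2⟩
            rcases List.mem_cons.1 hz with rfl | hz
            · exact fun h => h'.1 y List.mem_cons_self (hxy.1 h)
            · exact h'.1 z hz

/-- if every threshold is crossed at most once and the path ends at the maximum, it is sorted -/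
lemma sorted_of_cut_le_one (key : α → ℕ) (l : List α) (z : α) (hz : ∀ x ∈ l, key x < key z)
    (h : ∀ i, (∃ x ∈ l, key x = i) → cnt (Cut fun x => key x ≤ i) (l ++ [z]) ≤ 1) :
    l.Pairwise fun x y => key x ≤ key y := by
  induction l with
  | nil => exact List.Pairwise.nil
  | cons x l ih =>
    rw [List.pairwise_cons]
    refine ⟨fun y hy => ?_, ih (fun y hy => hz y (List.mem_cons_of_mem _ hy)) fun i hi => ?_⟩
    · by_contra hc
      push Not at hc
      have h1 := h (key y) ⟨y, List.mem_cons_of_mem _ hy, rfl⟩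
      obtain ⟨s, t, rfl⟩ := List.append_of_mem hy
      have h2 : (x :: (s ++ y :: t)) ++ [z] = (x :: s) ++ y :: (t ++ [z]) := by simp
      rw [h2, cnt_append_cons] at h1
      obtain ⟨e, he, h3⟩ := exists_edge_of_mem (l := (x :: s) ++ [y]) (A := fun w => key w ≤ key y)
        (x := y) (y := x) (by simp) (by simp) le_rfl (by omega)
      obtain ⟨e', he', h4⟩ := exists_edge_of_mem (l := y :: (t ++ [z]))
        (A := fun w => key w ≤ key y) (x := y) (y := z) (by simp) (by simp) le_rfl
        (by have := hz y (by simp); omega)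
      have := one_le_cnt (R := Cut fun w => key w ≤ key y) he h3
      have := one_le_cnt (R := Cut fun w => key w ≤ key y) he' h4
      omega
    · obtain ⟨y, hy, rfl⟩ := hi
      exact (cnt_le_cons _ x _).trans (h _ ⟨y, List.mem_cons_of_mem _ hy, rfl⟩)

lemma cnt_cut_le_one_of_sorted (key : α → ℕ) (i : ℕ) (l : List α)
    (h : l.Pairwise fun x y => key x ≤ key y) : cnt (Cut fun x => key x ≤ i) l ≤ 1 := by
  induction l with
  | nil => simp
  | cons x l ih =>
    rw [List.pairwise_cons] at h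
    cases l with
    | nil => simp
    | cons y l =>
      rw [cnt_cons_cons]
      by_cases hc : Cut (fun x => key x ≤ i) x y
      · have h1 := h.1 y List.mem_cons_self
        have hy : ¬ key y ≤ i := by unfold Cut at hc; omega
        have h2 := (List.pairwise_cons.1 h.2).1
        rw [cnt_eq_zero (l := y :: l)]
        · exact ind_le _
        · intro u hu v hv
          have h3 : ∀ w ∈ y :: l, ¬ key w ≤ i := by
            intro w hw
            rcases List.mem_cons.1 hw with rfl | hw
            · exact hy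
            · have := h2 w hw; omega
          have := h3 u hu
          have := h3 v hv
          unfold Cut; tauto
      · rw [ind_neg hc, zero_add]; exact ih h.2

section real
variable (f : α → ℝ)

/-- number of stabbed edges -/
noncomputable def cross (l : List α) : ℕ := cnt (fun x y => f x * f y < 0) l

/-- crossing number, with a charge if the first value is positive -/
noncomputable def cL : List α → ℕ
  | [] => 0
  | y :: l => ind (0 < f y) + cross f (y :: l)

/-- crossing number, with a charge if the first value is negative -/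
noncomputable def cR : List α → ℕ
  | [] => 0
  | y :: l => ind (f y < 0) + cross f (y :: l)

lemma cL_cons (y : α) (l : List α) : cL f (y :: l) = ind (0 < f y) + cross f (y :: l) := rfl
lemma cR_cons (y : α) (l : List α) : cR f (y :: l) = ind (f y < 0) + cross f (y :: l) := rfl

lemma cross_neg (l : List α) : cross (fun x => - f x) l = cross f l := by
  unfold cross; simp

lemma cross_le_cL (l : List α) : cross f l ≤ cL f l := by
  cases l with
  | nil => simp [cross]
  | cons y l => simp [cL]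

lemma cross_le_cR (l : List α) : cross f l ≤ cR f l := by
  cases l with
  | nil => simp [cross]
  | cons y l => simp [cR]

lemma cL_le (l : List α) : cL f l ≤ 1 + cross f l := by
  cases l with
  | nil => simp [cL]
  | cons y l => have := ind_le (0 < f y); simp only [cL]; omega

lemma cR_le (l : List α) : cR f l ≤ 1 + cross f l := by
  cases l with
  | nil => simp [cR]
  | cons y l => have := ind_le (f y < 0); simp only [cR]; omega

lemma cross_cons_le_cL (x : α) (l : List α) : cross f (x :: l) ≤ ind (0 < f x) + cL f l := by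
  cases l with
  | nil => simp [cross]
  | cons y l =>
    simp only [cross, cL, cnt_cons_cons]
    have : ind (f x * f y < 0) ≤ ind (0 < f x) + ind (0 < f y) := by
      by_cases h : f x * f y < 0
      · rcases mul_neg_iff.1 h with h1 | h1
        · rw [ind_pos h, ind_pos h1.1]; omega
        · rw [ind_pos h, ind_pos h1.2]; omega
      · rw [ind_neg h]; omega
    omega

lemma cross_cons_le_cR (x : α) (l : List α) : cross f (x :: l) ≤ ind (f x < 0) + cR f l := by
  cases l with
  | nil => simp [cross]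
  | cons y l =>
    simp only [cross, cR, cnt_cons_cons]
    have : ind (f x * f y < 0) ≤ ind (f x < 0) + ind (f y < 0) := by
      by_cases h : f x * f y < 0
      · rcases mul_neg_iff.1 h with h1 | h1
        · rw [ind_pos h, ind_pos h1.2]; omega
        · rw [ind_pos h, ind_pos h1.1]; omega
      · rw [ind_neg h]; omega
    omega

lemma cL_append_nonpos (A l : List α) (h : ∀ x ∈ A, f x ≤ 0) : cL f (A ++ l) ≤ cL f l := by
  induction A with
  | nil => simp
  | cons x A ih =>
    have h1 : ind (0 < f x) = 0 := ind_neg (not_lt.2 (h x List.mem_cons_self))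
    have h2 := cross_cons_le_cL f x (A ++ l)
    have h3 := ih fun y hy => h y (List.mem_cons_of_mem _ hy)
    rw [List.cons_append, cL_cons]
    omega

lemma cR_append_nonneg (A l : List α) (h : ∀ x ∈ A, 0 ≤ f x) : cR f (A ++ l) ≤ cR f l := by
  induction A with
  | nil => simp
  | cons x A ih =>
    have h1 : ind (f x < 0) = 0 := ind_neg (not_lt.2 (h x List.mem_cons_self))
    have h2 := cross_cons_le_cR f x (A ++ l)
    have h3 := ih fun y hy => h y (List.mem_cons_of_mem _ hy)
    rw [List.cons_append, cR_cons]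
    omega

lemma cR_append_anti (A l : List α) (h : A.Pairwise fun x y => f y ≤ f x) :
    cR f (A ++ l) ≤ 1 + cL f l := by
  induction A with
  | nil =>
    have := cR_le f l
    have := cross_le_cL f l
    simp only [List.nil_append]; omega
  | cons x A ih =>
    rw [List.pairwise_cons] at h
    by_cases hx : f x < 0
    · have h1 := cR_le f (x :: A ++ l)
      have h2 := cross_le_cL f (x :: A ++ l)
      have h3 := cL_append_nonpos f (x :: A) l (by
        intro y hy
        rcases List.mem_cons.1 hy with rfl | hy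
        · exact hx.le
        · exact (h.1 y hy).trans hx.le)
      omega
    · have h1 : ind (f x < 0) = 0 := ind_neg hx
      have h2 := cross_cons_le_cR f x (A ++ l)
      have h3 := ih h.2
      rw [List.cons_append, cR_cons]
      omega

lemma cL_append_mono (A l : List α) (h : A.Pairwise fun x y => f x ≤ f y) :
    cL f (A ++ l) ≤ 1 + cR f l := by
  induction A with
  | nil =>
    have := cL_le f l
    have := cross_le_cR f l
    simp only [List.nil_append]; omega
  | cons x A ih =>
    rw [List.pairwise_cons] at h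
    by_cases hx : 0 < f x
    · have h1 := cL_le f (x :: A ++ l)
      have h2 := cross_le_cR f (x :: A ++ l)
      have h3 := cR_append_nonneg f (x :: A) l (by
        intro y hy
        rcases List.mem_cons.1 hy with rfl | hy
        · exact hx.le
        · exact hx.le.trans (h.1 y hy))
      omega
    · have h1 : ind (0 < f x) = 0 := ind_neg hx
      have h2 := cross_cons_le_cL f x (A ++ l)
      have h3 := ih h.2
      rw [List.cons_append, cL_cons]
      omega

lemma cross_eq_zero_of_nonneg (l : List α) (h : ∀ x ∈ l, 0 ≤ f x) : cross f l = 0 :=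
  cnt_eq_zero fun x hx y hy => not_lt.2 (mul_nonneg (h x hx) (h y hy))

lemma cross_eq_zero_of_nonpos (l : List α) (h : ∀ x ∈ l, f x ≤ 0) : cross f l = 0 :=
  cnt_eq_zero fun x hx y hy => not_lt.2 (mul_nonneg_of_nonpos_of_nonpos (h x hx) (h y hy))

lemma cross_le_one_of_mono (l : List α) (h : l.Pairwise fun x y => f x ≤ f y) : cross f l ≤ 1 := by
  have h1 := cL_append_mono f l [] h
  have h2 := cross_le_cL f (l ++ [])
  simp only [List.append_nil, cR] at h1 h2
  omega

lemma cross_le_one_of_anti (l : List α) (h : l.Pairwise fun x y => f y ≤ f x) : cross f l ≤ 1 := by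
  have h1 := cR_append_anti f l [] h
  have h2 := cross_le_cR f (l ++ [])
  simp only [List.append_nil, cL] at h1 h2
  omega

end real

end Pool.Agent.MP_a4672b_lc

end

section

namespace Pool.Agent.MP_a4672b_lc

/-- parameters of the barrier construction -/
structure Par where
  nV : ℕ
  B : ℕ
  K : ℕ
  N : ℕ
  k : ℕ
  rho : ℕ → ℕ

namespace Par

variable (P : Par)

def S : ℕ := P.N * (P.B + P.K + 1)

def pt (b r j : ℕ) : ℕ × ℕ :=
  (P.S * (2 * b + 1) + (if b < P.nV then 0 else 2 * P.S * r) + j, 2 * P.S * (P.B + r))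

def rowLR (b r : ℕ) : List (ℕ × ℕ) := (List.range P.N).map (P.pt b r)

def row (b r : ℕ) : List (ℕ × ℕ) := if r % 2 = 0 then (P.rowLR b r).reverse else P.rowLR b r

def snake (b : ℕ) : List (ℕ × ℕ) := (List.range (P.rho b)).flatMap (P.row b)

def emb (z : ℕ × ℕ) : ℕ × ℕ := (2 * P.S * z.1, 2 * P.S * (z.1 + z.2))

def tailPts : List (ℕ × ℕ) :=
  (List.range P.B).reverse.flatMap P.snake ++ (List.range P.nV).flatMap fun b => P.rowLR b P.K

/-- transversal coordinate for barrier `b` -/
def gz (b : ℕ) (z : ℕ × ℕ) : ℤ :=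
  (z.1 : ℤ) - P.S * (2 * b + 1) - (if b < P.nV then 0 else 1) * ((z.2 : ℤ) - 2 * P.S * P.B)

def Valid (b r : ℕ) : Prop := r < P.rho b ∨ (r = P.K ∧ b < P.nV)

def InRow (b r : ℕ) (x : ℕ × ℕ) : Prop := ∃ j < P.N, x = P.pt b r j

def Bar (b : ℕ) (x : ℕ × ℕ) : Prop := ∃ r, P.Valid b r ∧ P.InRow b r x

def Left (b : ℕ) (z : ℕ × ℕ) : Prop := if b < P.nV then z.1 ≤ b else ¬ z.2 ≤ P.B - 1 - b

structure Good : Prop where
  nV_pos : 0 < P.nV
  nV_lt : P.nV < P.B
  N_pos : 0 < P.N
  rho_le : ∀ b, P.rho b ≤ P.K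
  rho_odd : ∀ b < P.B, P.rho b % 2 = 1
  N_big : (P.K + 1) * (4 * P.k) + 1 < P.N

variable {P}

lemma N_le_S : P.N ≤ P.S := Nat.le_mul_of_pos_right _ (by omega)

lemma gz_self (b r j : ℕ) : P.gz b (P.pt b r j) = j := by
  unfold gz pt
  split_ifs <;> push_cast <;> ring

lemma gz_gt {b b' : ℕ} (h : b < b') (r j : ℕ) : (P.S : ℤ) ≤ P.gz b (P.pt b' r j) := by
  have h1 : (P.S : ℤ) * (b + 1) ≤ P.S * b' := by
    apply mul_le_mul_of_nonneg_left _ (by positivity)
    exact_mod_cast h
  have h2 : (0 : ℤ) ≤ P.S * r := by positivity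
  have h3 : (0 : ℤ) ≤ P.S := by positivity
  unfold gz pt
  split_ifs <;> push_cast <;> first | omega | nlinarith

lemma gz_lt {b b' : ℕ} (h : b' < b) (r : ℕ) {j : ℕ} (hj : j < P.N) :
    P.gz b (P.pt b' r j) ≤ -(P.S : ℤ) := by
  have h1 : (P.S : ℤ) * (b' + 1) ≤ P.S * b := by
    apply mul_le_mul_of_nonneg_left _ (by positivity)
    exact_mod_cast h
  have h2 : (0 : ℤ) ≤ P.S * r := by positivity
  have h3 : (j : ℤ) ≤ P.S := by exact_mod_cast hj.le.trans N_le_S
  unfold gz pt
  split_ifs <;> push_cast <;> first | omega | nlinarith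

lemma gz_emb_left {b : ℕ} (hb : b < P.B) {z : ℕ × ℕ} (h : P.Left b z) :
    P.gz b (P.emb z) ≤ -(P.S : ℤ) := by
  have h3 : (0 : ℤ) ≤ P.S := by positivity
  unfold Left at h
  unfold gz emb
  split_ifs at h ⊢
  · have : (P.S : ℤ) * z.1 ≤ P.S * b := mul_le_mul_of_nonneg_left (by exact_mod_cast h) h3
    push_cast; nlinarith
  · have : (P.S : ℤ) * P.B ≤ P.S * (z.2 + b) :=
      mul_le_mul_of_nonneg_left (by exact_mod_cast (show P.B ≤ z.2 + b by omega)) h3
    push_cast; nlinarith

lemma gz_emb_right {b : ℕ} (hb : b < P.B) {z : ℕ × ℕ} (h : ¬ P.Left b z) :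
    (P.S : ℤ) ≤ P.gz b (P.emb z) := by
  have h3 : (0 : ℤ) ≤ P.S := by positivity
  unfold Left at h
  unfold gz emb
  split_ifs at h ⊢
  · have : (P.S : ℤ) * (b + 1) ≤ P.S * z.1 :=
      mul_le_mul_of_nonneg_left (by exact_mod_cast (show b + 1 ≤ z.1 by omega)) h3
    push_cast; nlinarith
  · have : (P.S : ℤ) * (z.2 + b + 1) ≤ P.S * P.B :=
      mul_le_mul_of_nonneg_left (by exact_mod_cast (show z.2 + b + 1 ≤ P.B by omega)) h3
    push_cast; nlinarith

lemma mem_rowLR {b r : ℕ} {x : ℕ × ℕ} : x ∈ P.rowLR b r ↔ P.InRow b r x := by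
  simp [rowLR, InRow, eq_comm]

lemma mem_row {b r : ℕ} {x : ℕ × ℕ} : x ∈ P.row b r ↔ P.InRow b r x := by
  unfold row
  split_ifs
  · rw [List.mem_reverse, mem_rowLR]
  · exact mem_rowLR

lemma mem_snake {b : ℕ} {x : ℕ × ℕ} : x ∈ P.snake b ↔ ∃ r < P.rho b, P.InRow b r x := by
  simp [snake, mem_row]

lemma mem_tailPts (hP : P.Good) {x : ℕ × ℕ} : x ∈ P.tailPts ↔ ∃ b < P.B, P.Bar b x := by
  simp only [tailPts, List.mem_append, List.mem_flatMap, List.mem_reverse, List.mem_range,
    mem_snake, mem_rowLR, Bar, Valid]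
  constructor
  · rintro (⟨b, hb, r, hr, h⟩ | ⟨b, hb, h⟩)
    · exact ⟨b, hb, r, Or.inl hr, h⟩
    · exact ⟨b, hb.trans hP.nV_lt, P.K, Or.inr ⟨rfl, hb⟩, h⟩
  · rintro ⟨b, hb, r, hr | ⟨rfl, hr⟩, h⟩
    · exact Or.inl ⟨b, hb, r, hr, h⟩
    · exact Or.inr ⟨b, hr, h⟩

lemma S_pos (hP : P.Good) : 0 < P.S := lt_of_lt_of_le hP.N_pos N_le_S

lemma pt_inj (hP : P.Good) {b r j b' r' j' : ℕ} (hj : j < P.N) (hj' : j' < P.N)
    (h : P.pt b r j = P.pt b' r' j') : b = b' ∧ r = r' ∧ j = j' := by
  have hS := S_pos hP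
  have h1 : b = b' := by
    rcases lt_trichotomy b b' with h1 | h1 | h1
    · have h2 := gz_gt (P := P) h1 r' j'
      rw [← h, gz_self] at h2
      have := N_le_S (P := P)
      omega
    · exact h1
    · have h2 := gz_gt (P := P) h1 r j
      rw [h, gz_self] at h2
      have := N_le_S (P := P)
      omega
  subst h1
  have h2 := congrArg (P.gz b) h
  rw [gz_self, gz_self] at h2
  have h3 := congrArg Prod.snd h
  simp only [pt] at h3
  have h4 := Nat.eq_of_mul_eq_mul_left (by omega) h3
  omega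

lemma InRow.unique (hP : P.Good) {b r b' r' : ℕ} {x : ℕ × ℕ} (h : P.InRow b r x)
    (h' : P.InRow b' r' x) : b = b' ∧ r = r' := by
  obtain ⟨j, hj, rfl⟩ := h
  obtain ⟨j', hj', h⟩ := h'
  exact ⟨(pt_inj hP hj hj' h).1, (pt_inj hP hj hj' h).2.1⟩

lemma nodup_rowLR (hP : P.Good) (b r : ℕ) : (P.rowLR b r).Nodup := by
  refine List.Nodup.map_on ?_ List.nodup_range
  intro j hj j' hj' h
  exact (pt_inj hP (List.mem_range.1 hj) (List.mem_range.1 hj') h).2.2

lemma nodup_row (hP : P.Good) (b r : ℕ) : (P.row b r).Nodup := by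
  unfold row
  split_ifs
  · exact List.nodup_reverse.2 (nodup_rowLR hP b r)
  · exact nodup_rowLR hP b r

lemma nodup_snake (hP : P.Good) (b : ℕ) : (P.snake b).Nodup := by
  unfold snake
  rw [List.nodup_flatMap]
  refine ⟨fun r _ => nodup_row hP b r, List.nodup_range.imp ?_⟩
  intro r r' hrr x hx hx'
  exact hrr ((mem_row.1 hx).unique hP (mem_row.1 hx')).2

lemma nodup_tailPts (hP : P.Good) : P.tailPts.Nodup := by
  unfold tailPts
  rw [List.nodup_append]
  refine ⟨?_, ?_, ?_⟩
  · rw [List.nodup_flatMap]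
    refine ⟨fun b _ => nodup_snake hP b, (List.nodup_reverse.2 List.nodup_range).imp ?_⟩
    intro b b' hbb x hx hx'
    obtain ⟨r, -, h⟩ := mem_snake.1 hx
    obtain ⟨r', -, h'⟩ := mem_snake.1 hx'
    exact hbb (h.unique hP h').1
  · rw [List.nodup_flatMap]
    refine ⟨fun b _ => nodup_rowLR hP b _, List.nodup_range.imp ?_⟩
    intro b b' hbb x hx hx'
    exact hbb ((mem_rowLR.1 hx).unique hP (mem_rowLR.1 hx')).1
  · rintro x hx _ hx' rfl
    obtain ⟨b, -, hx⟩ := List.mem_flatMap.1 hx
    obtain ⟨b', -, hx'⟩ := List.mem_flatMap.1 hx'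
    obtain ⟨r, hr, h⟩ := mem_snake.1 hx
    have := (h.unique hP (mem_rowLR.1 hx')).2
    have := hP.rho_le b
    omega

lemma emb_inj (hP : P.Good) : Function.Injective P.emb := by
  intro z w h
  have hS := S_pos hP
  simp only [emb, Prod.mk.injEq] at h
  have h1 := Nat.eq_of_mul_eq_mul_left (by omega) h.1
  have h2 := Nat.eq_of_mul_eq_mul_left (by omega) h.2
  exact Prod.ext h1 (by omega)

lemma emb_height (hP : P.Good) {z : ℕ × ℕ} (hz : z.1 + z.2 < P.B) :
    (P.emb z).2 < 2 * P.S * P.B := by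
  have hS := S_pos hP
  exact Nat.mul_lt_mul_of_pos_left hz (by omega)

lemma InRow.height {b r : ℕ} {x : ℕ × ℕ} (h : P.InRow b r x) : x.2 = 2 * P.S * (P.B + r) := by
  obtain ⟨j, -, rfl⟩ := h; rfl

lemma Valid.le (hP : P.Good) {b r : ℕ} (h : P.Valid b r) : r ≤ P.K := by
  rcases h with h | h
  · exact h.le.trans (hP.rho_le b)
  · exact h.1.le

lemma Bar.height (hP : P.Good) {b : ℕ} {x : ℕ × ℕ} (h : P.Bar b x) :
    2 * P.S * P.B ≤ x.2 ∧ x.2 ≤ 2 * P.S * (P.B + P.K) := by
  obtain ⟨r, hr, h⟩ := h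
  rw [h.height]
  exact ⟨Nat.mul_le_mul_left _ (by omega), Nat.mul_le_mul_left _ (by have := hr.le hP; omega)⟩

lemma nodup_all (hP : P.Good) {Q : List (ℕ × ℕ)} (hQ : Q.Nodup) (hQ' : ∀ z ∈ Q, z.1 + z.2 < P.B) :
    (Q.map P.emb ++ P.tailPts).Nodup := by
  rw [List.nodup_append]
  refine ⟨hQ.map (emb_inj hP), nodup_tailPts hP, ?_⟩
  rintro x hx _ hx' rfl
  obtain ⟨z, hz, rfl⟩ := List.mem_map.1 hx
  obtain ⟨b, -, hb⟩ := (mem_tailPts hP).1 hx'
  have := emb_height hP (hQ' z hz)
  have := (hb.height hP).1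
  omega

/-- the affine function of a line -/
def lineF (a b c : ℝ) (z : ℕ × ℕ) : ℝ := a * z.1 + b * z.2 + c

lemma lineF_sub (a b c : ℝ) (i : ℕ) (z w : ℕ × ℕ) :
    lineF a b c z - lineF a b c w = a * ((P.gz i z : ℝ) - P.gz i w) +
      (a * (if i < P.nV then 0 else 1) + b) * ((z.2 : ℝ) - w.2) := by
  unfold lineF gz
  split_ifs <;> push_cast <;> ring

lemma rowLR_mono {a : ℝ} (ha : 0 ≤ a) (b c : ℝ) (i r : ℕ) :
    (P.rowLR i r).Pairwise fun x y => lineF a b c x ≤ lineF a b c y := by
  unfold rowLR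
  rw [List.pairwise_map]
  refine List.pairwise_lt_range.imp ?_
  intro j j' h
  have h1 := lineF_sub (P := P) a b c i (P.pt i r j') (P.pt i r j)
  rw [gz_self, gz_self] at h1
  have h2 : ((P.pt i r j').2 : ℝ) - (P.pt i r j).2 = 0 := by simp [pt]
  rw [h2] at h1
  have h3 : (j : ℝ) ≤ j' := by exact_mod_cast h.le
  push_cast at h1
  nlinarith

lemma cross_row {a : ℝ} (ha : 0 ≤ a) (b c : ℝ) (i r : ℕ) : cross (lineF a b c) (P.row i r) ≤ 1 := by
  unfold row
  split_ifs
  · exact cross_le_one_of_anti _ _ (List.pairwise_reverse.2 (rowLR_mono ha b c i r))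
  · exact cross_le_one_of_mono _ _ (rowLR_mono ha b c i r)

lemma cR_snake {a : ℝ} (ha : 0 ≤ a) (b c : ℝ) (i n : ℕ) (X : List (ℕ × ℕ)) :
    cR (lineF a b c) ((List.range n).flatMap (P.row i) ++ X) ≤
      n + if n % 2 = 0 then cR (lineF a b c) X else cL (lineF a b c) X := by
  induction n generalizing X with
  | zero => simp
  | succ n ih =>
    rw [List.range_succ, List.flatMap_append, List.flatMap_singleton, List.append_assoc]
    refine (ih _).trans ?_
    unfold row
    by_cases h : n % 2 = 0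
    · rw [if_pos h, if_pos h, if_neg (by omega)]
      have := cR_append_anti (lineF a b c) (P.rowLR i n).reverse X
        (List.pairwise_reverse.2 (rowLR_mono ha b c i n))
      omega
    · rw [if_neg h, if_neg h, if_pos (by omega)]
      have := cL_append_mono (lineF a b c) (P.rowLR i n) X (rowLR_mono ha b c i n)
      omega

end Par

lemma cL_flatMap_le {α ι : Type*} (f : α → ℝ) (L : List ι) (g : ι → List α)
    (h1 : ∀ i ∈ L, cross f (g i) ≤ 1)
    (h2 : L.Pairwise fun i j => ∀ x ∈ g i, ∀ y ∈ g j, f x ≤ f y) : cL f (L.flatMap g) ≤ 3 := by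
  induction L with
  | nil => simp [cL]
  | cons i L ih =>
    rw [List.pairwise_cons] at h2
    rw [List.flatMap_cons]
    by_cases h : ∀ x ∈ g i, f x ≤ 0
    · exact (cL_append_nonpos f _ _ h).trans (ih (fun j hj => h1 j (List.mem_cons_of_mem _ hj)) h2.2)
    · push Not at h
      obtain ⟨x, hx, h⟩ := h
      have h3 : cross f (L.flatMap g) = 0 := by
        apply cross_eq_zero_of_nonneg
        intro y hy
        obtain ⟨j, hj, hy⟩ := List.mem_flatMap.1 hy
        exact h.le.trans (h2.1 j hj x hx y hy)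
      have h4 := cL_le f (g i ++ L.flatMap g)
      have h5 : cross f (g i ++ L.flatMap g) ≤ cross f (g i) + 1 + cross f (L.flatMap g) :=
        cnt_append_le _ _ _
      have h6 := h1 i List.mem_cons_self
      omega

lemma cross_map_append_le {α β : Type*} (f : β → ℝ) (e : α → β) (A : α → Prop) (L : List α)
    (zR : α) (hR : ¬ A zR) (h : ∀ z ∈ L, (A z → f (e z) < 0) ∧ (¬ A z → 0 < f (e z)))
    (rest : List β) : cross f (L.map e ++ rest) ≤ cnt (Cut A) (L ++ [zR]) + cR f rest := by
  induction L with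
  | nil => simpa using cross_le_cR f rest
  | cons z L ih =>
    have hz := h z List.mem_cons_self
    cases L with
    | nil =>
      have h1 := cross_cons_le_cR f (e z) rest
      have h2 : ind (f (e z) < 0) ≤ ind (Cut A z zR) := ind_mono fun h3 => by
        refine Or.inl ⟨?_, hR⟩
        by_contra h4
        have := hz.2 h4
        linarith
      simp only [List.map_cons, List.map_nil, List.cons_append, List.nil_append, cnt_cons_cons,
        cnt_single]
      omega
    | cons w L =>
      have hw := h w (List.mem_cons_of_mem _ List.mem_cons_self)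
      have h1 := ih fun y hy => h y (List.mem_cons_of_mem _ hy)
      have h2 : ind (f (e z) * f (e w) < 0) ≤ ind (Cut A z w) := ind_mono fun h3 => by
        by_cases h4 : A z <;> by_cases h5 : A w
        · have := mul_pos_of_neg_of_neg (hz.1 h4) (hw.1 h5); linarith
        · exact Or.inl ⟨h4, h5⟩
        · exact Or.inr ⟨h4, h5⟩
        · have := mul_pos (hz.2 h4) (hw.2 h5); linarith
      simp only [cross, List.map_cons, List.cons_append, cnt_cons_cons] at h1 ⊢
      omega

namespace Par

variable {P : Par}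

lemma cross_snake_of_steep (hP : P.Good) {a : ℝ} (ha : 0 ≤ a) (b c : ℝ) (i : ℕ)
    (h : a * P.N ≤ |a * (if i < P.nV then 0 else 1) + b| * (2 * P.S)) :
    cross (lineF a b c) (P.snake i) ≤ 3 := by
  set β := a * (if i < P.nV then 0 else 1) + b with hβ
  have key : ∀ r r', r < r' → ∀ x ∈ P.row i r, ∀ y ∈ P.row i r',
      ∃ s t : ℝ, |s| ≤ P.N ∧ 2 * P.S ≤ t ∧ lineF a b c y - lineF a b c x = a * s + β * t := by
    intro r r' hrr x hx y hy
    obtain ⟨j, hj, rfl⟩ := mem_row.1 hx
    obtain ⟨j', hj', rfl⟩ := mem_row.1 hy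
    refine ⟨_, _, ?_, ?_, lineF_sub (P := P) a b c i _ _⟩
    · rw [gz_self, gz_self]
      have h1 : (j : ℝ) ≤ P.N := by exact_mod_cast hj.le
      have h2 : (j' : ℝ) ≤ P.N := by exact_mod_cast hj'.le
      have h3 : (0 : ℝ) ≤ j := by positivity
      have h4 : (0 : ℝ) ≤ j' := by positivity
      push_cast
      rw [abs_le]; constructor <;> linarith
    · have h1 : (r : ℝ) + 1 ≤ r' := by exact_mod_cast hrr
      have h2 : (0 : ℝ) ≤ P.S := by positivity
      simp only [pt]
      push_cast
      nlinarith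
  rcases le_total 0 β with h0 | h0
  · rw [abs_of_nonneg h0] at h
    refine (cross_le_cL _ _).trans (cL_flatMap_le _ _ _ (fun r _ => cross_row ha b c i r)
      (List.pairwise_lt_range.imp fun {r r'} hrr x hx y hy => ?_))
    obtain ⟨s, t, h1, h2, h3⟩ := key r r' hrr x hx y hy
    have := (abs_le.1 h1).1
    nlinarith
  · rw [abs_of_nonpos h0] at h
    rw [← cross_neg]
    refine (cross_le_cL _ _).trans (cL_flatMap_le _ _ _
      (fun r _ => by rw [cross_neg]; exact cross_row ha b c i r)
      (List.pairwise_lt_range.imp fun {r r'} hrr x hx y hy => ?_))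
    obtain ⟨s, t, h1, h2, h3⟩ := key r r' hrr x hx y hy
    have := (abs_le.1 h1).2
    nlinarith

lemma sign_of_aligned (hP : P.Good) {a : ℝ} (ha : 0 ≤ a) (b c : ℝ) (i : ℕ)
    (h : |a * (if i < P.nV then 0 else 1) + b| * (2 * P.S) < a * P.N) {p q : ℕ × ℕ}
    (hp : p ∈ P.snake i) (hq : q ∈ P.snake i) (hp' : 0 < lineF a b c p) (hq' : lineF a b c q < 0)
    {z : ℕ × ℕ} (hz : z.2 ≤ 2 * P.S * (P.B + P.K)) :
    ((P.S : ℤ) ≤ P.gz i z → 0 < lineF a b c z) ∧ (P.gz i z ≤ -(P.S : ℤ) → lineF a b c z < 0) := by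
  set β := a * (if i < P.nV then 0 else 1) + b with hβ
  have key : ∀ w ∈ P.snake i, ∃ j : ℝ, 0 ≤ j ∧ j ≤ P.N ∧
      |lineF a b c z - lineF a b c w - a * (P.gz i z - j)| ≤ a * P.N * (P.B + P.K) := by
    intro w hw
    obtain ⟨r, hr, hw⟩ := mem_snake.1 hw
    have h1 := (Bar.height hP ⟨r, Or.inl hr, hw⟩).2
    obtain ⟨j, hj, rfl⟩ := hw
    refine ⟨j, by positivity, by exact_mod_cast hj.le, ?_⟩
    rw [lineF_sub (P := P) a b c i, gz_self, ← hβ]
    push_cast
    rw [add_sub_cancel_left, abs_mul]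
    have h2 : |(z.2 : ℝ) - (P.pt i r j).2| ≤ 2 * P.S * (P.B + P.K) := by
      have h3 : (z.2 : ℝ) ≤ 2 * P.S * (P.B + P.K) := by exact_mod_cast hz
      have h4 : ((P.pt i r j).2 : ℝ) ≤ 2 * P.S * (P.B + P.K) := by exact_mod_cast h1
      have h5 : (0 : ℝ) ≤ z.2 := by positivity
      have h6 : (0 : ℝ) ≤ (P.pt i r j).2 := by positivity
      rw [abs_le]; constructor <;> linarith
    calc |β| * |(z.2 : ℝ) - (P.pt i r j).2| ≤ |β| * (2 * P.S * (P.B + P.K)) :=
          mul_le_mul_of_nonneg_left h2 (abs_nonneg _)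
      _ = |β| * (2 * P.S) * (P.B + P.K) := by ring
      _ ≤ a * P.N * (P.B + P.K) := mul_le_mul_of_nonneg_right h.le (by positivity)
  have hS : (P.S : ℝ) = P.N * (P.B + P.K + 1) := by simp [S]
  constructor
  · intro hg
    obtain ⟨j, h1, h2, h3⟩ := key p hp
    have h4 : (P.S : ℝ) ≤ P.gz i z := by exact_mod_cast hg
    have h5 := (abs_le.1 h3).1
    have h6 : a * (P.N * (P.B + P.K)) ≤ a * (P.gz i z - j) :=
      mul_le_mul_of_nonneg_left (by linarith) ha
    linarith
  · intro hg
    obtain ⟨j, h1, h2, h3⟩ := key q hq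
    have h4 : (P.gz i z : ℝ) ≤ -P.S := by exact_mod_cast hg
    have h5 := (abs_le.1 h3).2
    have h7 : (0 : ℝ) ≤ P.N := by positivity
    have h6 : a * (P.gz i z - j) ≤ a * (-(P.N * (P.B + P.K))) :=
      mul_le_mul_of_nonneg_left (by linarith) ha
    linarith

lemma cR_tailPts (hP : P.Good) {a : ℝ} (ha : 0 ≤ a) (b c : ℝ) {i : ℕ} (hi : i < P.B)
    (hs : ∀ z : ℕ × ℕ, z.2 ≤ 2 * P.S * (P.B + P.K) →
      ((P.S : ℤ) ≤ P.gz i z → 0 < lineF a b c z) ∧ (P.gz i z ≤ -(P.S : ℤ) → lineF a b c z < 0)) :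
    cR (lineF a b c) P.tailPts ≤ P.rho i + ind (i < P.nV) := by
  have hpos : ∀ i' x, i < i' → P.Bar i' x → 0 ≤ lineF a b c x := by
    intro i' x h hx
    have h1 := (hx.height hP).2
    obtain ⟨r, -, j, -, rfl⟩ := hx
    exact ((hs _ h1).1 (gz_gt h r j)).le
  have hneg : ∀ i' x, i' < i → P.Bar i' x → lineF a b c x ≤ 0 := by
    intro i' x h hx
    have h1 := (hx.height hP).2
    obtain ⟨r, -, j, hj, rfl⟩ := hx
    exact ((hs _ h1).2 (gz_lt h r hj)).le
  have hsn : ∀ i' x, x ∈ P.snake i' → P.Bar i' x := fun i' x hx => by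
    obtain ⟨r, hr, h⟩ := mem_snake.1 hx
    exact ⟨r, Or.inl hr, h⟩
  have hex : ∀ i' x, i' < P.nV → x ∈ P.rowLR i' P.K → P.Bar i' x := fun i' x h hx =>
    ⟨P.K, Or.inr ⟨rfl, h⟩, mem_rowLR.1 hx⟩
  have h2 : cL (lineF a b c) ((List.range P.nV).flatMap fun b => P.rowLR b P.K) ≤ ind (i < P.nV) := by
    by_cases h : i < P.nV
    · obtain ⟨M₁, M₂, hM⟩ := List.append_of_mem (List.mem_range.2 h)
      have h3 := List.pairwise_lt_range (n := P.nV)
      have h4 : ∀ y ∈ M₁ ++ i :: M₂, y < P.nV := fun y hy => List.mem_range.1 (hM ▸ hy)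
      rw [hM] at h3 ⊢
      rw [List.pairwise_append, List.pairwise_cons] at h3
      rw [List.flatMap_append, List.flatMap_cons, ind_pos h]
      refine (cL_append_nonpos _ _ _ ?_).trans ((cL_append_mono _ _ _ (rowLR_mono ha b c _ _)).trans ?_)
      · intro x hx
        obtain ⟨y, hy, hx⟩ := List.mem_flatMap.1 hx
        exact hneg y x (h3.2.2 y hy i List.mem_cons_self) (hex y x (h4 y (by simp [hy])) hx)
      · have h5 := cR_append_nonneg (lineF a b c) (M₂.flatMap fun b => P.rowLR b P.K) [] (by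
          intro x hx
          obtain ⟨y, hy, hx⟩ := List.mem_flatMap.1 hx
          exact hpos y x (h3.2.1.1 y hy) (hex y x (h4 y (by simp [hy])) hx))
        rw [List.append_nil] at h5
        have h6 : cR (lineF a b c) [] = 0 := rfl
        omega
    · have h5 := cL_append_nonpos (lineF a b c) ((List.range P.nV).flatMap fun b => P.rowLR b P.K)
        [] (by
          intro x hx
          obtain ⟨y, hy, hx⟩ := List.mem_flatMap.1 hx
          rw [List.mem_range] at hy
          exact hneg y x (by omega) (hex y x hy hx))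
      rw [List.append_nil] at h5
      have h6 : cL (lineF a b c) [] = 0 := rfl
      omega
  obtain ⟨L₁, L₂, hL⟩ := List.append_of_mem (List.mem_reverse.2 (List.mem_range.2 hi))
  have h3 : (List.range P.B).reverse.Pairwise (fun x y => y < x) :=
    List.pairwise_reverse.2 List.pairwise_lt_range
  unfold tailPts
  rw [hL] at h3 ⊢
  rw [List.pairwise_append, List.pairwise_cons] at h3
  rw [List.flatMap_append, List.flatMap_cons, List.append_assoc, List.append_assoc]
  refine (cR_append_nonneg _ _ _ ?_).trans ((cR_snake ha b c i _ _).trans ?_)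
  · intro x hx
    obtain ⟨y, hy, hx⟩ := List.mem_flatMap.1 hx
    exact hpos y x (h3.2.2 y hy i List.mem_cons_self) (hsn y x hx)
  · rw [if_neg (by have := hP.rho_odd i hi; omega)]
    refine Nat.add_le_add_left ((cL_append_nonpos _ _ _ ?_).trans h2) _
    intro x hx
    obtain ⟨y, hy, hx⟩ := List.mem_flatMap.1 hx
    exact hneg y x (h3.2.1.1 y hy) (hsn y x hx)

theorem complete (hP : P.Good) (Q : List (ℕ × ℕ)) (hQ : ∀ z ∈ Q, z.1 + z.2 < P.B)
    (hcap : ∀ i < P.B, cnt (Cut (P.Left i)) (Q ++ [(P.nV, 0)]) + P.rho i + ind (i < P.nV) ≤ P.k)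
    (hk : Q.length + 6 * P.B + 2 ≤ P.k) (a b c : ℝ) :
    cross (lineF a b c) (Q.map P.emb ++ P.tailPts) ≤ P.k := by
  wlog ha : 0 ≤ a generalizing a b c
  · have h1 := this (-a) (-b) (-c) (by linarith)
    rw [← cross_neg] at h1
    convert h1 using 2
    ext z
    simp only [lineF]; ring
  by_cases hal : ∃ i < P.B, |a * (if i < P.nV then 0 else 1) + b| * (2 * P.S) < a * P.N ∧
      (∃ p ∈ P.snake i, 0 < lineF a b c p) ∧ ∃ q ∈ P.snake i, lineF a b c q < 0
  · obtain ⟨i, hi, h, ⟨p, hp, hp'⟩, q, hq, hq'⟩ := hal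
    have hs := fun z hz => sign_of_aligned hP ha b c i h hp hq hp' hq' (z := z) hz
    have h1 := cross_map_append_le (lineF a b c) P.emb (P.Left i) Q (P.nV, 0)
      (by unfold Left; split_ifs <;> simp <;> omega) (by
        intro z hz
        have h2 : (P.emb z).2 ≤ 2 * P.S * (P.B + P.K) :=
          (emb_height hP (hQ z hz)).le.trans (Nat.mul_le_mul_left _ (by omega))
        exact ⟨fun h => (hs _ h2).2 (gz_emb_left hi h), fun h => (hs _ h2).1 (gz_emb_right hi h)⟩)
      P.tailPts
    have h2 := cR_tailPts hP ha b c hi hs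
    have h3 := hcap i hi
    omega
  · push Not at hal
    have h1 : ∀ i ∈ (List.range P.B).reverse, cross (lineF a b c) (P.snake i) ≤ 3 := by
      intro i hi
      rw [List.mem_reverse, List.mem_range] at hi
      by_cases h : |a * (if i < P.nV then 0 else 1) + b| * (2 * P.S) < a * P.N
      · by_cases h' : ∃ p ∈ P.snake i, 0 < lineF a b c p
        · rw [cross_eq_zero_of_nonneg _ _ (hal i hi h h')]; omega
        · push Not at h'
          rw [cross_eq_zero_of_nonpos _ _ h']; omega
      · exact cross_snake_of_steep hP ha b c i (not_lt.1 h)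
    have h2 := cnt_flatMap_le _ _ _ 3 h1
    have h3 := cnt_flatMap_le _ (List.range P.nV) (fun i => P.rowLR i P.K) 1
      (fun i _ => cross_le_one_of_mono _ _ (rowLR_mono ha b c i _))
    have h4 := cnt_append_le (fun x y => lineF a b c x * lineF a b c y < 0) (Q.map P.emb) P.tailPts
    have h5 := cnt_le_length (fun x y => lineF a b c x * lineF a b c y < 0) (Q.map P.emb)
    have h6 := cnt_append_le (fun x y => lineF a b c x * lineF a b c y < 0)
      ((List.range P.B).reverse.flatMap P.snake) ((List.range P.nV).flatMap fun i => P.rowLR i P.K)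
    have h7 := hP.nV_lt
    simp only [List.length_reverse, List.length_range, List.length_map] at h2 h3 h5
    unfold cross
    unfold tailPts at h4 ⊢
    omega

end Par

end Pool.Agent.MP_a4672b_lc

end

section

namespace Pool.Agent.MP_a4672b_lc

namespace Par

variable {P : Par}

lemma cnt_cut_int_le {W : List (ℕ × ℕ)} (g : ℕ × ℕ → ℤ) (j : ℤ) (f : ℕ × ℕ → ℝ)
    (hf : ∀ z, f z = g z - j - 1 / 2) : cnt (Cut fun z => g z ≤ j) W ≤ cross f W := by
  refine cnt_mono fun e _ h => ?_
  rw [hf, hf]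
  rcases h with ⟨h1, h2⟩ | ⟨h1, h2⟩
  · have h3 : (g e.1 : ℝ) ≤ j := by exact_mod_cast h1
    have h4 : (j : ℝ) + 1 ≤ g e.2 := by exact_mod_cast (show j + 1 ≤ g e.2 by omega)
    exact mul_neg_of_neg_of_pos (by linarith) (by linarith)
  · have h3 : (g e.2 : ℝ) ≤ j := by exact_mod_cast h2
    have h4 : (j : ℝ) + 1 ≤ g e.1 := by exact_mod_cast (show j + 1 ≤ g e.1 by omega)
    exact mul_neg_of_pos_of_neg (by linarith) (by linarith)

/-- every line stabs at most `k` edges -/
def Low (k : ℕ) (W : List (ℕ × ℕ)) : Prop :=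
  ∀ a b c : ℝ, (a ≠ 0 ∨ b ≠ 0) → cross (lineF a b c) W ≤ k

lemma Low.reverse {k : ℕ} {W : List (ℕ × ℕ)} (h : Low k W) : Low k W.reverse := by
  intro a b c hab
  have := h a b c hab
  unfold cross at this ⊢
  rw [cnt_reverse]
  simpa only [mul_comm] using this

lemma Low.gz_le {k : ℕ} {W : List (ℕ × ℕ)} (h : Low k W) (b : ℕ) (j : ℤ) :
    cnt (Cut fun z => P.gz b z ≤ j) W ≤ k := by
  refine (cnt_cut_int_le _ j (lineF 1 (-(if b < P.nV then 0 else 1))
    (-(P.S * (2 * b + 1)) + (if b < P.nV then 0 else 1) * (2 * P.S * P.B) - j - 1 / 2)) ?_).trans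
    (h _ _ _ (Or.inl one_ne_zero))
  intro z
  unfold lineF gz
  split_ifs <;> push_cast <;> ring

lemma Low.height_le {k : ℕ} {W : List (ℕ × ℕ)} (h : Low k W) (y : ℤ) :
    cnt (Cut fun z => (z.2 : ℤ) ≤ y) W ≤ k := by
  refine (cnt_cut_int_le _ y (lineF 0 1 (- y - 1 / 2)) ?_).trans (h _ _ _ (Or.inr one_ne_zero))
  intro z
  unfold lineF
  push_cast; ring

lemma inRow_iff {b r : ℕ} {x : ℕ × ℕ} : P.InRow b r x ↔
    (x.2 : ℤ) = 2 * P.S * (P.B + r) ∧ 0 ≤ P.gz b x ∧ P.gz b x < P.N := by
  constructor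
  · rintro ⟨j, hj, rfl⟩
    rw [gz_self]
    refine ⟨by simp [pt], by omega, by omega⟩
  · rintro ⟨h1, h2, h3⟩
    refine ⟨(P.gz b x).toNat, by omega, ?_⟩
    have h4 := gz_self (P := P) b r (P.gz b x).toNat
    have h5 : ((P.pt b r (P.gz b x).toNat).2 : ℤ) = x.2 := by rw [h1]; simp [pt]
    rw [Int.toNat_of_nonneg h2] at h4
    refine Prod.ext ?_ (by omega)
    generalize P.pt b r (P.gz b x).toNat = y at h4 h5 ⊢
    unfold gz at h4
    rw [h5] at h4
    omega

lemma Low.row_le {k : ℕ} {W : List (ℕ × ℕ)} (h : Low k W) (b r : ℕ) :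
    cnt (Cut (P.InRow b r)) W ≤ 4 * k := by
  have h1 := h.height_le (2 * P.S * (P.B + r))
  have h2 := h.height_le (2 * P.S * (P.B + r) - 1)
  have h3 := h.gz_le (P := P) b (-1)
  have h4 := h.gz_le (P := P) b (P.N - 1)
  have h5 := cnt_or_le (Cut fun z : ℕ × ℕ => (z.2 : ℤ) ≤ 2 * P.S * (P.B + r))
    (Cut fun z : ℕ × ℕ => (z.2 : ℤ) ≤ 2 * P.S * (P.B + r) - 1) W
  have h6 := cnt_or_le (Cut fun z : ℕ × ℕ => P.gz b z ≤ -1) (Cut fun z => P.gz b z ≤ P.N - 1) W
  refine (cnt_mono (R' := fun x y => (_ ∨ _) ∨ (_ ∨ _)) ?_).trans ((cnt_or_le _ _ W).trans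
    ((Nat.add_le_add h5 h6).trans (by omega)))
  intro e _ he
  simp only [Cut, inRow_iff] at he ⊢
  omega

/-- gap `j` of row `(b, r)` is bridged by an edge inside the row -/
def Cov (P : Par) (W : List (ℕ × ℕ)) (b r j : ℕ) : Prop :=
  ∃ e ∈ edges W, P.InRow b r e.1 ∧ P.InRow b r e.2 ∧ Cut (fun z => P.gz b z ≤ j) e.1 e.2

open Classical in
lemma card_uncov {W : List (ℕ × ℕ)} {b r : ℕ} (hW : ∀ j < P.N, P.pt b r j ∈ W) :
    ((Finset.range (P.N - 1)).filter fun j => ¬ P.Cov W b r j).card ≤
      cnt (Cut (P.InRow b r)) W := by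
  set U := (Finset.range (P.N - 1)).filter fun j => ¬ P.Cov W b r j with hU
  let Blk : ℕ → ℕ × ℕ → Prop := fun j x =>
    P.InRow b r x ∧ P.gz b x ≤ j ∧ ∀ j' ∈ U, j' < j → (j' : ℤ) < P.gz b x
  have key : ∀ j, ∃ e : (ℕ × ℕ) × ℕ × ℕ, j ∈ U → e ∈ edges W ∧
      ((Blk j e.1 ∧ ¬ P.InRow b r e.2) ∨ (¬ P.InRow b r e.1 ∧ Blk j e.2)) := by
    intro j
    by_cases hj : j ∈ U
    swap
    · exact ⟨default, fun h => absurd h hj⟩
    have hj' := hj
    rw [hU, Finset.mem_filter, Finset.mem_range] at hj'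
    obtain ⟨e, he, h⟩ := exists_edge_of_mem (A := Blk j) (hW j (by omega)) (hW (j + 1) (by omega))
      ⟨⟨j, by omega, rfl⟩, by rw [gz_self], fun j' _ h => by rw [gz_self]; omega⟩
      (fun h => by have := h.2.1; rw [gz_self] at this; omega)
    refine ⟨e, fun _ => ⟨he, ?_⟩⟩
    rcases h with ⟨h1, h2⟩ | ⟨h1, h2⟩
    · refine Or.inl ⟨h1, fun h3 => h2 ⟨h3, ?_, fun j' hj'U hlt => ?_⟩⟩
      · by_contra h4
        exact hj'.2 ⟨e, he, h1.1, h3, Or.inl ⟨h1.2.1, h4⟩⟩
      · by_contra h4
        have h5 := h1.2.2 j' hj'U hlt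
        rw [hU, Finset.mem_filter] at hj'U
        exact hj'U.2 ⟨e, he, h1.1, h3, Or.inr ⟨by simpa using h5, by simpa using h4⟩⟩
    · refine Or.inr ⟨fun h3 => h1 ⟨h3, ?_, fun j' hj'U hlt => ?_⟩, h2⟩
      · by_contra h4
        exact hj'.2 ⟨e, he, h3, h2.1, Or.inr ⟨h4, h2.2.1⟩⟩
      · by_contra h4
        have h5 := h2.2.2 j' hj'U hlt
        rw [hU, Finset.mem_filter] at hj'U
        exact hj'U.2 ⟨e, he, h3, h2.1, Or.inl ⟨by simpa using h4, by simpa using h5⟩⟩
  choose g hg using key
  refine card_le_cnt U g (fun j hj => ⟨(hg j hj).1, ?_⟩) ?_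
  · rcases (hg j hj).2 with h | h
    · exact Or.inl ⟨h.1.1, h.2⟩
    · exact Or.inr ⟨h.1, h.2.1⟩
  · have hd : ∀ j ∈ U, ∀ j' ∈ U, ∀ x, Blk j x → Blk j' x → j = j' := by
      intro j hj j' hj' x h h'
      rcases lt_trichotomy j j' with h1 | h1 | h1
      · have := h'.2.2 j hj h1
        have := h.2.1
        omega
      · exact h1
      · have := h.2.2 j' hj' h1
        have := h'.2.1
        omega
    intro j hj j' hj' h
    have h1 := (hg j hj).2
    have h2 := (hg j' hj').2
    rw [← h] at h2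
    rcases h1 with h1 | h1 <;> rcases h2 with h2 | h2
    · exact hd j hj j' hj' _ h1.1 h2.1
    · exact absurd h1.1.1 h2.1
    · exact absurd h2.1.1 h1.1
    · exact hd j hj j' hj' _ h1.2 h2.2

/-- edges crossing barrier `b` with both ends off the barrier -/
def Out (P : Par) (b : ℕ) (x y : ℕ × ℕ) : Prop :=
  ¬ P.Bar b x ∧ ¬ P.Bar b y ∧ Cut (fun z => P.gz b z < 0) x y

lemma out_le (hP : P.Good) {W : List (ℕ × ℕ)} (h : Low P.k W) {b : ℕ}
    (hW : ∀ x, P.Bar b x → x ∈ W)
    (hW' : ∀ x ∈ W, ¬ P.Bar b x → P.gz b x ≤ -(P.S : ℤ) ∨ (P.S : ℤ) ≤ P.gz b x) :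
    cnt (P.Out b) W + P.rho b + ind (b < P.nV) ≤ P.k := by
  classical
  set V := (Finset.range (P.K + 1)).filter (P.Valid b) with hV
  have hVc : P.rho b + ind (b < P.nV) ≤ V.card := by
    have := hP.rho_le b
    by_cases hb : b < P.nV
    · rw [ind_pos hb, ← Finset.card_range (P.rho b),
        ← Finset.card_insert_of_notMem (a := P.K) (by simp; omega)]
      apply Finset.card_le_card
      intro r hr
      simp only [Finset.mem_insert, Finset.mem_range, hV, Finset.mem_filter, Valid] at hr ⊢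
      omega
    · rw [ind_neg hb, add_zero, ← Finset.card_range (P.rho b)]
      apply Finset.card_le_card
      intro r hr
      simp only [Finset.mem_range, hV, Finset.mem_filter, Valid] at hr ⊢
      omega
  obtain ⟨j, hj, hcov⟩ : ∃ j < P.N - 1, ∀ r ∈ V, P.Cov W b r j := by
    by_contra hno
    push Not at hno
    have h1 : Finset.range (P.N - 1) ⊆ V.biUnion fun r =>
        (Finset.range (P.N - 1)).filter fun j => ¬ P.Cov W b r j := by
      intro j hj
      obtain ⟨r, hr, h2⟩ := hno j (Finset.mem_range.1 hj)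
      exact Finset.mem_biUnion.2 ⟨r, hr, Finset.mem_filter.2 ⟨hj, h2⟩⟩
    have h2 := (Finset.card_le_card h1).trans (Finset.card_biUnion_le_card_mul V _ (4 * P.k) (by
      intro r hr
      refine (card_uncov fun j hj => hW _ ⟨r, (Finset.mem_filter.1 hr).2, j, hj, rfl⟩).trans
        (h.row_le b r)))
    have h3 : V.card ≤ P.K + 1 := (Finset.card_filter_le _ _).trans (by simp)
    have h4 := Nat.mul_le_mul_right (4 * P.k) h3
    have h5 := hP.N_big
    rw [Finset.card_range] at h2
    omega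
  have key : ∀ r, ∃ e : (ℕ × ℕ) × ℕ × ℕ, r ∈ V → e ∈ edges W ∧ P.InRow b r e.1 ∧
      P.InRow b r e.2 ∧ Cut (fun z => P.gz b z ≤ j) e.1 e.2 := by
    intro r
    by_cases hr : r ∈ V
    · obtain ⟨e, he⟩ := hcov r hr
      exact ⟨e, fun _ => he⟩
    · exact ⟨default, fun h => absurd h hr⟩
  choose g hg using key
  have h1 : V.card ≤ cnt (fun x y => P.Bar b x ∧ Cut (fun z => P.gz b z ≤ j) x y) W :=
    card_le_cnt V g (fun r hr => ⟨(hg r hr).1, ⟨r, (Finset.mem_filter.1 hr).2, (hg r hr).2.1⟩,
      (hg r hr).2.2.2⟩) (by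
        intro r hr r' hr' h
        have h1 := (hg r hr).2.1
        have h2 := (hg r' hr').2.1
        rw [← h] at h2
        exact (h1.unique hP h2).2)
  have h2 := cnt_or_of_disj (P.Out b) (fun x y => P.Bar b x ∧ Cut (fun z => P.gz b z ≤ j) x y) W
    fun x y h h' => h.1 h'.1
  have h3 : cnt (fun x y => P.Out b x y ∨ P.Bar b x ∧ Cut (fun z => P.gz b z ≤ j) x y) W ≤
      cnt (Cut fun z => P.gz b z ≤ j) W := by
    refine cnt_mono fun e he h => ?_
    rcases h with ⟨h1, h2, h3⟩ | h
    · have h4 := hW' _ (mem_of_mem_edges he).1 h1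
      have h5 := hW' _ (mem_of_mem_edges he).2 h2
      have := N_le_S (P := P)
      simp only [Cut] at h3 ⊢
      omega
    · exact h.2
  have h4 := h.gz_le (P := P) b j
  omega

lemma Bar.gz_of_lt {b b' : ℕ} {x : ℕ × ℕ} (h : P.Bar b' x) (hb : b < b') : (P.S : ℤ) ≤ P.gz b x := by
  obtain ⟨r, -, j, -, rfl⟩ := h
  exact gz_gt hb r j

lemma Bar.gz_of_gt {b b' : ℕ} {x : ℕ × ℕ} (h : P.Bar b' x) (hb : b' < b) :
    P.gz b x ≤ -(P.S : ℤ) := by
  obtain ⟨r, -, j, hj, rfl⟩ := h
  exact gz_lt hb r hj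

lemma Bar.unique (hP : P.Good) {b b' : ℕ} {x : ℕ × ℕ} (h : P.Bar b x) (h' : P.Bar b' x) : b = b' := by
  obtain ⟨r, -, h⟩ := h
  obtain ⟨r', -, h'⟩ := h'
  exact (h.unique hP h').1

lemma not_bar_emb (hP : P.Good) {z : ℕ × ℕ} (hz : z.1 + z.2 < P.B) (b : ℕ) : ¬ P.Bar b (P.emb z) := by
  intro h
  have := emb_height hP hz
  have := (h.height hP).1
  omega

lemma out_le_of_perm (hP : P.Good) {Q W : List (ℕ × ℕ)} (hQ : ∀ z ∈ Q, z.1 + z.2 < P.B)
    (hW : W.Perm (Q.map P.emb ++ P.tailPts)) (h : Low P.k W) {b : ℕ} (hb : b < P.B) :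
    cnt (P.Out b) W + P.rho b + ind (b < P.nV) ≤ P.k := by
  refine out_le hP h (fun x hx => hW.mem_iff.2
    (List.mem_append_right _ ((mem_tailPts hP).2 ⟨b, hb, hx⟩))) fun x hx hx' => ?_
  rcases List.mem_append.1 (hW.mem_iff.1 hx) with hx | hx
  · obtain ⟨z, hz, rfl⟩ := List.mem_map.1 hx
    by_cases hl : P.Left b z
    · exact Or.inl (gz_emb_left hb hl)
    · exact Or.inr (gz_emb_right hb hl)
  · obtain ⟨b', -, hb'⟩ := (mem_tailPts hP).1 hx
    rcases lt_trichotomy b b' with h1 | h1 | h1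
    · exact Or.inr (hb'.gz_of_lt h1)
    · exact absurd (h1 ▸ hb') hx'
    · exact Or.inl (hb'.gz_of_gt h1)

lemma out_emb (hP : P.Good) {b : ℕ} (hb : b < P.B) {z w : ℕ × ℕ} (hz : z.1 + z.2 < P.B)
    (hw : w.1 + w.2 < P.B) (h : Cut (P.Left b) z w) : P.Out b (P.emb z) (P.emb w) := by
  have hS := S_pos hP
  refine ⟨not_bar_emb hP hz b, not_bar_emb hP hw b, ?_⟩
  rcases h with ⟨h1, h2⟩ | ⟨h1, h2⟩
  · have := gz_emb_left hb h1
    have := gz_emb_right hb h2
    simp only [Cut]; omega
  · have := gz_emb_left hb h2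
    have := gz_emb_right hb h1
    simp only [Cut]; omega

/-- an edge from a logic point to a barrier point -/
lemma out_exit (hP : P.Good) {z x : ℕ × ℕ} (hz : z.1 + z.2 < P.B ∧ z.1 < P.nV ∧ z.2 ≤ P.B - 1 - P.nV)
    {b : ℕ} (hx : P.Bar b x) :
    (b < P.nV → P.Out P.nV (P.emb z) x) ∧ (P.nV ≤ b → P.Out (P.nV - 1) (P.emb z) x) := by
  have hS := S_pos hP
  have h0 := hP.nV_pos
  have h1 := hP.nV_lt
  constructor
  · intro hb
    refine ⟨not_bar_emb hP hz.1 _, fun h => by have := hx.unique hP h; omega, ?_⟩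
    have h2 := gz_emb_right (P := P) h1 (z := z) (by unfold Left; rw [if_neg (by omega)]; omega)
    have h3 := hx.gz_of_gt hb
    simp only [Cut]; omega
  · intro hb
    refine ⟨not_bar_emb hP hz.1 _, fun h => by have := hx.unique hP h; omega, ?_⟩
    have h2 := gz_emb_left (P := P) (b := P.nV - 1) (by omega) (z := z)
      (by unfold Left; rw [if_pos (by omega)]; omega)
    have h3 := hx.gz_of_lt (b := P.nV - 1) (by omega)
    simp only [Cut]; omega

lemma Out.symm {b : ℕ} {x y : ℕ × ℕ} (h : P.Out b x y) : P.Out b y x := ⟨h.2.1, h.1, h.2.2.symm⟩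

lemma mem_edges_concat {α : Type*} (l : List α) (x y : α) (m : List α) :
    (x, y) ∈ edges (l ++ x :: y :: m) := by
  induction l with
  | nil => exact List.mem_cons_self
  | cons z l ih =>
    cases l with
    | nil => exact List.mem_cons_of_mem _ ih
    | cons w l => exact List.mem_cons_of_mem _ ih

lemma sound_aux (hP : P.Good) {Q : List (ℕ × ℕ)}
    (hQ : ∀ z ∈ Q, z.1 + z.2 < P.B ∧ z.1 < P.nV ∧ z.2 ≤ P.B - 1 - P.nV)
    (h0 : P.k ≤ P.rho P.nV) {l₁ l₂ : List (ℕ × ℕ)}
    (hW : (l₁ ++ l₂).Perm (Q.map P.emb ++ P.tailPts)) (h : Low P.k (l₁ ++ l₂))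
    (h₁ : ∀ x ∈ l₁, x.2 < 2 * P.S * P.B) (h₂ : ∀ x ∈ l₂, ¬ x.2 < 2 * P.S * P.B) :
    ∃ L : List (ℕ × ℕ), L.Perm Q ∧
      (∀ i < P.nV, cnt (Cut (P.Left i)) (L ++ [(P.nV, 0)]) + P.rho i + 1 ≤ P.k) ∧
      ∀ i < P.B, cnt (Cut (P.Left i)) L + P.rho i ≤ P.k := by
  have hQ' : ∀ z ∈ Q, z.1 + z.2 < P.B := fun z hz => (hQ z hz).1
  have hp := hW.filter (fun x => x.2 < 2 * P.S * P.B)
  have hp' := hW.filter (fun x => ¬ x.2 < 2 * P.S * P.B)
  have e1 : ∀ x ∈ Q.map P.emb, x.2 < 2 * P.S * P.B := by
    intro x hx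
    obtain ⟨z, hz, rfl⟩ := List.mem_map.1 hx
    exact emb_height hP (hQ' z hz)
  have e2 : ∀ x ∈ P.tailPts, ¬ x.2 < 2 * P.S * P.B := by
    intro x hx
    obtain ⟨b, -, hb⟩ := (mem_tailPts hP).1 hx
    have := (hb.height hP).1
    omega
  rw [List.filter_append, List.filter_append,
    (List.filter_eq_self (l := l₁)).2 (fun y hy => by simpa using h₁ y hy),
    (List.filter_eq_nil_iff (l := l₂)).2 (fun y hy => by simpa using h₂ y hy),
    (List.filter_eq_self (l := Q.map P.emb)).2 (fun y hy => by simpa using e1 y hy),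
    (List.filter_eq_nil_iff (l := P.tailPts)).2 (fun y hy => by simpa using e2 y hy),
    List.append_nil, List.append_nil] at hp
  rw [List.filter_append, List.filter_append,
    (List.filter_eq_nil_iff (l := l₁)).2 (fun y hy => by simpa using h₁ y hy),
    (List.filter_eq_self (l := l₂)).2 (fun y hy => by simpa using h₂ y hy),
    (List.filter_eq_nil_iff (l := Q.map P.emb)).2 (fun y hy => by simpa using e1 y hy),
    (List.filter_eq_self (l := P.tailPts)).2 (fun y hy => by simpa using e2 y hy),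
    List.nil_append, List.nil_append] at hp'
  obtain ⟨L, hL, rfl⟩ : ∃ L : List (ℕ × ℕ), L.Perm Q ∧ L.map P.emb = l₁ := by
    have := List.perm_comp_forall₂ (r := fun (x : ℕ × ℕ) (z : ℕ × ℕ) => x = P.emb z) hp
      (by rw [List.forall₂_map_left_iff]; exact List.forall₂_same.2 fun _ _ => rfl)
    obtain ⟨L, h1, h2⟩ := this
    refine ⟨L, h2, ?_⟩
    clear hp h₁ h hW h2
    induction h1 with
    | nil => rfl
    | cons h _ ih => rw [List.map_cons, ih, h]
  have hL' : ∀ z ∈ L, z.1 + z.2 < P.B ∧ z.1 < P.nV ∧ z.2 ≤ P.B - 1 - P.nV :=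
    fun z hz => hQ z (hL.mem_iff.1 hz)
  have hin : ∀ i < P.B, cnt (Cut (P.Left i)) L ≤ cnt (P.Out i) (L.map P.emb) := by
    intro i hi
    rw [cnt_map]
    exact cnt_mono fun e he h => out_emb hP hi (hL' _ (mem_of_mem_edges he).1).1
      (hL' _ (mem_of_mem_edges he).2).1 h
  refine ⟨L, hL, fun i hi => ?_, fun i hi => ?_⟩
  · have hiB := hi.trans hP.nV_lt
    have h3 := out_le_of_perm hP hQ' hW h hiB
    rw [ind_pos hi] at h3
    refine le_trans ?_ h3
    rw [Nat.add_le_add_iff_right, Nat.add_le_add_iff_right]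
    rcases L.eq_nil_or_concat' with rfl | ⟨L', z, rfl⟩
    · simp
    obtain ⟨w, l₃, rfl⟩ : ∃ w l₃, l₂ = w :: l₃ := by
      cases l₂ with
      | nil =>
        have h4 : P.pt 0 P.K 0 ∈ P.tailPts := (mem_tailPts hP).2
          ⟨0, by omega, P.K, Or.inr ⟨rfl, hP.nV_pos⟩, 0, hP.N_pos, rfl⟩
        exact absurd (hp'.mem_iff.2 h4) (by simp)
      | cons w l₃ => exact ⟨w, l₃, rfl⟩
    obtain ⟨b', -, hb'⟩ := (mem_tailPts hP).1 (hp'.mem_iff.1 List.mem_cons_self)
    have hz := hL' z (by simp)
    have hb : P.nV ≤ b' := by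
      by_contra hc
      have h4 := (out_exit hP hz hb').1 (by omega)
      have h5 := out_le_of_perm hP hQ' hW h hP.nV_lt
      have h6 : (P.emb z, w) ∈ edges ((L' ++ [z]).map P.emb ++ w :: l₃) := by
        simpa using mem_edges_concat (L'.map P.emb) (P.emb z) w l₃
      have := one_le_cnt (R := P.Out P.nV) h6 h4
      omega
    have h4 := hin i hiB
    have h5 : (L' ++ [z]).map P.emb ++ w :: l₃ = L'.map P.emb ++ P.emb z :: w :: l₃ := by simp
    have h6 : L' ++ [z] ++ [(P.nV, 0)] = L' ++ z :: [(P.nV, 0)] := by simp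
    rw [h5, h6, cnt_append_cons, cnt_append_cons (P.Out i), cnt_cons_cons, cnt_cons_cons, cnt_single]
    rw [List.map_append, List.map_singleton] at h4
    have h7 : ind (Cut (P.Left i) z (P.nV, 0)) ≤ ind (P.Out i (P.emb z) w) := ind_mono fun h7 => by
      have h8 : ¬ P.Left i (P.nV, 0) := by unfold Left; rw [if_pos hi]; simp; omega
      have h9 : P.Left i z := by unfold Cut at h7; tauto
      refine ⟨not_bar_emb hP hz.1 _, fun h => by have := hb'.unique hP h; omega, ?_⟩
      have h10 := gz_emb_left hiB h9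
      have h11 := hb'.gz_of_lt (b := i) (by omega)
      have hS := S_pos hP
      simp only [Cut]; omega
    omega
  · have h3 := out_le_of_perm hP hQ' hW h hi
    have h4 := hin i hi
    have h5 := cnt_le_append_left (P.Out i) (L.map P.emb) l₂
    omega

theorem sound (hP : P.Good) {Q : List (ℕ × ℕ)}
    (hQ : ∀ z ∈ Q, z.1 + z.2 < P.B ∧ z.1 < P.nV ∧ z.2 ≤ P.B - 1 - P.nV)
    (h0 : P.k ≤ P.rho P.nV) (h1 : P.k ≤ P.rho (P.nV - 1) + 2) {W : List (ℕ × ℕ)}
    (hW : W.Perm (Q.map P.emb ++ P.tailPts)) (h : Low P.k W) :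
    ∃ L : List (ℕ × ℕ), L.Perm Q ∧
      (∀ i < P.nV, cnt (Cut (P.Left i)) (L ++ [(P.nV, 0)]) + P.rho i + 1 ≤ P.k) ∧
      ∀ i < P.B, cnt (Cut (P.Left i)) L + P.rho i ≤ P.k := by
  have hQ' : ∀ z ∈ Q, z.1 + z.2 < P.B := fun z hz => (hQ z hz).1
  have hn := hP.nV_pos
  have hB := hP.nV_lt
  have h2 := out_le_of_perm hP hQ' hW h hP.nV_lt
  have h3 := out_le_of_perm hP hQ' hW h (b := P.nV - 1) (by omega)
  rw [ind_pos (by omega)] at h3
  have h4 := cnt_or_le (P.Out P.nV) (P.Out (P.nV - 1)) W
  have key : ∀ x ∈ W, ∀ y ∈ W, x.2 < 2 * P.S * P.B → ¬ y.2 < 2 * P.S * P.B →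
      P.Out P.nV x y ∨ P.Out (P.nV - 1) x y := by
    intro x hx y hy hx' hy'
    rcases List.mem_append.1 (hW.mem_iff.1 hx) with hx | hx
    swap
    · obtain ⟨b, -, hb⟩ := (mem_tailPts hP).1 hx
      have := (hb.height hP).1
      omega
    obtain ⟨z, hz, rfl⟩ := List.mem_map.1 hx
    rcases List.mem_append.1 (hW.mem_iff.1 hy) with hy | hy
    · obtain ⟨w, hw, rfl⟩ := List.mem_map.1 hy
      exact absurd (emb_height hP (hQ' w hw)) hy'
    obtain ⟨b, -, hb⟩ := (mem_tailPts hP).1 hy
    by_cases hb' : b < P.nV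
    · exact Or.inl ((out_exit hP (hQ z hz) hb).1 hb')
    · exact Or.inr ((out_exit hP (hQ z hz) hb).2 (by omega))
  have h5 : cnt (Cut fun x : ℕ × ℕ => x.2 < 2 * P.S * P.B) W ≤
      cnt (fun x y => P.Out P.nV x y ∨ P.Out (P.nV - 1) x y) W := by
    refine cnt_mono fun e he h => ?_
    have h6 := mem_of_mem_edges he
    rcases h with h | h
    · exact key _ h6.1 _ h6.2 h.1 h.2
    · exact (key _ h6.2 _ h6.1 h.2 h.1).imp Out.symm Out.symm
  obtain ⟨l₁, l₂, rfl, h6 | h6⟩ := split_of_cut_le_one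
    (show cnt (Cut fun x : ℕ × ℕ => x.2 < 2 * P.S * P.B) W ≤ 1 by omega)
  · exact sound_aux hP hQ h0 hW h h6.1 h6.2
  · have h7 := h.reverse
    have h8 := (List.reverse_perm _).trans hW
    rw [List.reverse_append] at h7 h8
    exact sound_aux hP hQ h0 h8 h7 (fun x hx => h6.2 x (List.mem_reverse.1 hx))
      (fun x hx => h6.1 x (List.mem_reverse.1 hx))

end Par

end Pool.Agent.MP_a4672b_lc

end

section

namespace Pool.Agent.MP_a4672b_lc

open Pool.Agent.MP_2e8011_lc

/-- a gadget `(d, p, q, u)` with the two intervals `[d, p)` and `[q, u)` -/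
abbrev Gad := ℕ × ℕ × ℕ × ℕ

def WF (H : ℕ) (g : Gad) : Prop :=
  g.1 ≤ g.2.1 ∧ g.2.1 ≤ g.2.2.1 ∧ g.2.2.1 ≤ g.2.2.2 ∧ g.2.2.2 ≤ H ∧ g.1 < g.2.2.2

def charged (h : ℕ) (x : Gad × Bool) : Bool :=
  if x.2 then decide (x.1.2.2.1 ≤ h ∧ h < x.1.2.2.2) else decide (x.1.1 ≤ h ∧ h < x.1.2.1)

/-- the interval choice problem -/
def Solvable (G : List Gad) (lens : List ℕ) : Prop :=
  ∃ GB : List (Gad × Bool), GB.map Prod.fst = G ∧
    ∀ h < lens.length, GB.countP (charged h) < lens.getD h 1

def base (h : ℕ) (g : Gad) : ℕ :=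
  if h < g.1 then 2 else if h < g.2.2.1 then 4 else if h < g.2.2.2 then 2 else 0

def gpath (c : ℕ) (g : Gad) (oA oB : Bool) : List (ℕ × ℕ) :=
  [(c, 0), (c + 1, g.2.1)] ++
    (if oA then [(c + 2, g.2.2.2), (c + 2, g.1)] else [(c + 2, g.1), (c + 2, g.2.2.2)]) ++
    (if oB then [(c + 3, g.2.2.2), (c + 3, g.1)] else [(c + 3, g.1), (c + 3, g.2.2.2)]) ++
    [(c + 4, g.2.2.1)]

def lpath : ℕ → List (Gad × Bool × Bool) → List (ℕ × ℕ)
  | c, [] => [(c, 0)]
  | c, x :: G => gpath c x.1 x.2.1 x.2.2 ++ lpath (c + 5) G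

lemma lpath_eq_cons (c : ℕ) (G : List (Gad × Bool × Bool)) : ∃ t, lpath c G = (c, 0) :: t := by
  cases G with
  | nil => exact ⟨[], rfl⟩
  | cons x G => exact ⟨_, rfl⟩

lemma lpath_eq_concat (c : ℕ) (G : List (Gad × Bool × Bool)) :
    ∃ t, lpath c G = t ++ [(c + 5 * G.length, 0)] := by
  induction G generalizing c with
  | nil => exact ⟨[], rfl⟩
  | cons x G ih =>
    obtain ⟨t, ht⟩ := ih (c + 5)
    refine ⟨gpath c x.1 x.2.1 x.2.2 ++ t, ?_⟩
    rw [lpath, ht, List.append_assoc, List.length_cons]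
    congr 4
    ring

lemma length_lpath (c : ℕ) (G : List (Gad × Bool × Bool)) :
    (lpath c G).length = 7 * G.length + 1 := by
  induction G generalizing c with
  | nil => rfl
  | cons x G ih =>
    obtain ⟨g, a, b⟩ := x
    rw [lpath, List.length_append, ih]
    cases a <;> cases b <;> simp [gpath] <;> omega

lemma mem_gpath {c : ℕ} {g : Gad} {oA oB : Bool} {H : ℕ} (hg : WF H g) {z : ℕ × ℕ}
    (hz : z ∈ gpath c g oA oB) : c ≤ z.1 ∧ z.1 < c + 5 ∧ z.2 ≤ H := by
  obtain ⟨h1, h2, h3, h4, h5⟩ := hg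
  cases oA <;> cases oB <;> simp [gpath] at hz <;>
    rcases hz with rfl | rfl | rfl | rfl | rfl | rfl | rfl <;> simp <;> omega

lemma mem_lpath {c : ℕ} {G : List (Gad × Bool × Bool)} {H : ℕ} (hG : ∀ x ∈ G, WF H x.1)
    {z : ℕ × ℕ} (hz : z ∈ lpath c G) : c ≤ z.1 ∧ z.1 ≤ c + 5 * G.length ∧ z.2 ≤ H := by
  induction G generalizing c with
  | nil => simp only [lpath, List.mem_singleton] at hz; subst hz; simp
  | cons x G ih =>
    rw [lpath, List.mem_append] at hz
    rw [List.length_cons]
    rcases hz with hz | hz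
    · have := mem_gpath (hG x List.mem_cons_self) hz
      omega
    · have := ih (fun y hy => hG y (List.mem_cons_of_mem _ hy)) hz
      omega

lemma nodup_lpath {c : ℕ} {G : List (Gad × Bool × Bool)} {H : ℕ} (hG : ∀ x ∈ G, WF H x.1) :
    (lpath c G).Nodup := by
  induction G generalizing c with
  | nil => simp [lpath]
  | cons x G ih =>
    have h1 := fun y hy => hG y (List.mem_cons_of_mem _ hy)
    rw [lpath, List.nodup_append]
    refine ⟨?_, ih h1, ?_⟩
    · obtain ⟨g, a, b⟩ := x
      have := (hG _ List.mem_cons_self).2.2.2.2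
      simp only at this
      cases a <;> cases b <;> simp [gpath] <;> omega
    · intro a ha b hb hab
      have h2 := mem_gpath (hG x List.mem_cons_self) ha
      have h3 := mem_lpath h1 hb
      subst hab
      omega

lemma sorted_lpath {c : ℕ} {G : List (Gad × Bool × Bool)} {H : ℕ} (hG : ∀ x ∈ G, WF H x.1) :
    (lpath c G).Pairwise fun x y => x.1 ≤ y.1 := by
  induction G generalizing c with
  | nil => simp [lpath]
  | cons x G ih =>
    have h1 := fun y hy => hG y (List.mem_cons_of_mem _ hy)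
    rw [lpath, List.pairwise_append]
    refine ⟨?_, ih h1, ?_⟩
    · obtain ⟨g, a, b⟩ := x
      cases a <;> cases b <;> simp [gpath]
    · intro a ha b hb
      have h2 := mem_gpath (hG x List.mem_cons_self) ha
      have h3 := mem_lpath h1 hb
      omega

lemma lpath_perm (c : ℕ) (G : List (Gad × Bool × Bool)) :
    (lpath c G).Perm (lpath c ((G.map Prod.fst).map fun g => (g, true, true))) := by
  induction G generalizing c with
  | nil => rfl
  | cons x G ih =>
    simp only [List.map_cons, lpath]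
    refine List.Perm.append ?_ (ih _)
    obtain ⟨g, a, b⟩ := x
    unfold gpath
    refine List.Perm.append (List.Perm.append (List.Perm.append (List.Perm.refl _) ?_) ?_)
      (List.Perm.refl _)
    · cases a
      · exact List.Perm.swap _ _ _
      · rfl
    · cases b
      · exact List.Perm.swap _ _ _
      · rfl

lemma split_sorted {α : Type*} (key : α → ℕ) {l l₁ l₂ : List α} (i : ℕ)
    (hs : l.Pairwise fun x y => key x ≤ key y) (hp : l.Perm (l₁ ++ l₂))
    (h₁ : ∀ x ∈ l₁, key x ≤ i) (h₂ : ∀ x ∈ l₂, i < key x) :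
    ∃ a b, l = a ++ b ∧ a.Perm l₁ ∧ b.Perm l₂ ∧ b.Pairwise fun x y => key x ≤ key y := by
  have h1 : l = l.filter (fun x => key x ≤ i) ++ l.filter (fun x => i < key x) := by
    clear hp
    induction l with
    | nil => rfl
    | cons x l ih =>
      rw [List.pairwise_cons] at hs
      by_cases hx : key x ≤ i
      · rw [List.filter_cons_of_pos (by simpa), List.filter_cons_of_neg (by simpa),
          List.cons_append, ← ih hs.2]
      · have h3 : ∀ y ∈ x :: l, i < key y := by
          intro y hy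
          rcases List.mem_cons.1 hy with rfl | hy
          · omega
          · have := hs.1 y hy; omega
        rw [List.filter_eq_nil_iff.2 (fun y hy => by have := h3 y hy; simpa),
          List.filter_eq_self.2 (fun y hy => by have := h3 y hy; simpa), List.nil_append]
  refine ⟨_, _, h1, ?_, ?_, hs.filter _⟩
  · have := hp.filter (fun x => key x ≤ i)
    rwa [List.filter_append, (List.filter_eq_self (l := l₁)).2 (fun y hy => by have := h₁ y hy; simpa),
      (List.filter_eq_nil_iff (l := l₂)).2 (fun y hy => by have := h₂ y hy; simpa),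
      List.append_nil] at this
  · have := hp.filter (fun x => i < key x)
    rwa [List.filter_append,
      (List.filter_eq_nil_iff (l := l₁)).2 (fun y hy => by have := h₁ y hy; simpa),
      (List.filter_eq_self (l := l₂)).2 (fun y hy => by have := h₂ y hy; simpa),
      List.nil_append] at this

lemma wf_map {H : ℕ} {G : List Gad} (hG : ∀ g ∈ G, WF H g) :
    ∀ x ∈ G.map (fun g => (g, true, true)), WF H x.1 := by
  intro x hx
  obtain ⟨g, hg, rfl⟩ := List.mem_map.1 hx
  exact hG g hg

lemma exists_lpath_of_sorted {H : ℕ} (G : List Gad) (hG : ∀ g ∈ G, WF H g) (c : ℕ)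
    (l : List (ℕ × ℕ)) (hs : l.Pairwise fun x y => x.1 ≤ y.1)
    (hp : l.Perm (lpath c (G.map fun g => (g, true, true)))) :
    ∃ G' : List (Gad × Bool × Bool), G'.map Prod.fst = G ∧ l = lpath c G' := by
  induction G generalizing c l with
  | nil => exact ⟨[], rfl, List.perm_singleton.1 hp⟩
  | cons g G ih =>
    have h1 := fun y hy => hG y (List.mem_cons_of_mem _ hy)
    have hrest : ∀ z ∈ lpath (c + 5) (G.map fun g => (g, true, true)), c + 5 ≤ z.1 := fun z hz =>
      (mem_lpath (H := H) (wf_map h1) hz).1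
    set R := lpath (c + 5) (G.map fun g => (g, true, true)) with hR
    have hp0 : l.Perm ([(c, 0)] ++ ([(c + 1, g.2.1)] ++ ([(c + 2, g.2.2.2), (c + 2, g.1)] ++
        ([(c + 3, g.2.2.2), (c + 3, g.1)] ++ ([(c + 4, g.2.2.1)] ++ R))))) := hp
    obtain ⟨a₀, l₁, rfl, ha₀, hp1, hs1⟩ := split_sorted Prod.fst c hs hp0 (by simp) (by
      intro x hx
      simp only [List.cons_append, List.nil_append, List.mem_cons] at hx
      rcases hx with rfl | rfl | rfl | rfl | rfl | rfl | hx
      all_goals first | (have := hrest x hx; omega) | simp)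
    obtain ⟨a₁, l₂, rfl, ha₁, hp2, hs2⟩ := split_sorted Prod.fst (c + 1) hs1 hp1 (by simp) (by
      intro x hx
      simp only [List.cons_append, List.nil_append, List.mem_cons] at hx
      rcases hx with rfl | rfl | rfl | rfl | rfl | hx
      all_goals first | (have := hrest x hx; omega) | simp)
    obtain ⟨a₂, l₃, rfl, ha₂, hp3, hs3⟩ := split_sorted Prod.fst (c + 2) hs2 hp2 (by simp) (by
      intro x hx
      simp only [List.cons_append, List.nil_append, List.mem_cons] at hx
      rcases hx with rfl | rfl | rfl | hx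
      all_goals first | (have := hrest x hx; omega) | simp)
    obtain ⟨a₃, l₄, rfl, ha₃, hp4, hs4⟩ := split_sorted Prod.fst (c + 3) hs3 hp3 (by simp) (by
      intro x hx
      simp only [List.cons_append, List.nil_append, List.mem_cons] at hx
      rcases hx with rfl | hx
      all_goals first | (have := hrest x hx; omega) | simp)
    obtain ⟨a₄, l₅, rfl, ha₄, hp5, hs5⟩ := split_sorted Prod.fst (c + 4) hs4 hp4 (by simp) (by
      intro x hx
      have := hrest x hx; omega)
    obtain ⟨G', hG', rfl⟩ := ih h1 (c + 5) l₅ hs5 hp5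
    rw [List.perm_singleton] at ha₀ ha₁ ha₄
    rw [List.perm_pair] at ha₂ ha₃
    subst ha₀ ha₁ ha₄
    rcases ha₂ with rfl | rfl <;> rcases ha₃ with rfl | rfl
    · exact ⟨(g, true, true) :: G', by simp [hG'], rfl⟩
    · exact ⟨(g, true, false) :: G', by simp [hG'], rfl⟩
    · exact ⟨(g, false, true) :: G', by simp [hG'], rfl⟩
    · exact ⟨(g, false, false) :: G', by simp [hG'], rfl⟩

/-- the crossing number of a level inside one gadget -/
noncomputable def gcnt (h : ℕ) (x : Gad × Bool × Bool) : ℕ :=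
  cnt (Cut fun z : ℕ × ℕ => z.2 ≤ h) (gpath 0 x.1 x.2.1 x.2.2 ++ [(0, 0)])

lemma cnt_gpath (h c c' : ℕ) (x : Gad × Bool × Bool) :
    cnt (Cut fun z : ℕ × ℕ => z.2 ≤ h) (gpath c x.1 x.2.1 x.2.2 ++ [(c', 0)]) = gcnt h x := by
  obtain ⟨g, a, b⟩ := x
  unfold gcnt
  cases a <;> cases b <;> simp [gpath, cnt_cons_cons, Cut]

lemma cnt_lpath (h c : ℕ) (G : List (Gad × Bool × Bool)) :
    cnt (Cut fun z : ℕ × ℕ => z.2 ≤ h) (lpath c G) = (G.map (gcnt h)).sum := by
  induction G generalizing c with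
  | nil => simp [lpath]
  | cons x G ih =>
    obtain ⟨t, ht⟩ := lpath_eq_cons (c + 5) G
    rw [lpath, ht, cnt_append_cons, ← ht, ih, cnt_gpath]
    simp

lemma gcnt_ge {H h : ℕ} {x : Gad × Bool × Bool} (hx : WF H x.1) :
    base h x.1 + 2 * (if charged h (x.1, x.2.1 && !x.2.2) then 1 else 0) ≤ gcnt h x := by
  obtain ⟨⟨d, p, q, u⟩, a, b⟩ := x
  obtain ⟨h1, h2, h3, h4, h5⟩ := hx
  simp only at h1 h2 h3 h4 h5
  unfold gcnt base charged
  have e1 : d ≤ h ∨ h < d := by omega
  have e2 : p ≤ h ∨ h < p := by omega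
  have e3 : q ≤ h ∨ h < q := by omega
  have e4 : u ≤ h ∨ h < u := by omega
  cases a <;> cases b <;> rcases e1 with e1 | e1 <;> rcases e2 with e2 | e2 <;>
    rcases e3 with e3 | e3 <;> rcases e4 with e4 | e4 <;>
    first
      | omega
      | simp [gpath, cnt_cons_cons, Cut, ind, e1, e2, e3, e4, not_le.2 e1, not_le.2 e2,
          not_le.2 e3, not_le.2 e4]
      | simp [gpath, cnt_cons_cons, Cut, ind, e1, e2, e3, e4, not_lt.2 e1, not_le.2 e2,
          not_le.2 e3, not_le.2 e4]
      | simp [gpath, cnt_cons_cons, Cut, ind, e1, e2, e3, e4, not_lt.2 e1, not_lt.2 e2,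
          not_le.2 e3, not_le.2 e4]
      | simp [gpath, cnt_cons_cons, Cut, ind, e1, e2, e3, e4, not_lt.2 e1, not_lt.2 e2,
          not_lt.2 e3, not_le.2 e4]
      | simp [gpath, cnt_cons_cons, Cut, ind, e1, e2, e3, e4, not_lt.2 e1, not_lt.2 e2,
          not_lt.2 e3, not_lt.2 e4]

lemma gcnt_eq {H h : ℕ} {g : Gad} (b : Bool) (hx : WF H g) :
    gcnt h (g, b, !b) = base h g + 2 * (if charged h (g, b) then 1 else 0) := by
  obtain ⟨d, p, q, u⟩ := g
  obtain ⟨h1, h2, h3, h4, h5⟩ := hx
  simp only at h1 h2 h3 h4 h5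
  unfold gcnt base charged
  have e1 : d ≤ h ∨ h < d := by omega
  have e2 : p ≤ h ∨ h < p := by omega
  have e3 : q ≤ h ∨ h < q := by omega
  have e4 : u ≤ h ∨ h < u := by omega
  cases b <;> rcases e1 with e1 | e1 <;> rcases e2 with e2 | e2 <;>
    rcases e3 with e3 | e3 <;> rcases e4 with e4 | e4 <;>
    first
      | omega
      | simp [gpath, cnt_cons_cons, Cut, ind, e1, e2, e3, e4, not_le.2 e1, not_le.2 e2,
          not_le.2 e3, not_le.2 e4]
      | simp [gpath, cnt_cons_cons, Cut, ind, e1, e2, e3, e4, not_lt.2 e1, not_le.2 e2,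
          not_le.2 e3, not_le.2 e4]
      | simp [gpath, cnt_cons_cons, Cut, ind, e1, e2, e3, e4, not_lt.2 e1, not_lt.2 e2,
          not_le.2 e3, not_le.2 e4]
      | simp [gpath, cnt_cons_cons, Cut, ind, e1, e2, e3, e4, not_lt.2 e1, not_lt.2 e2,
          not_lt.2 e3, not_le.2 e4]
      | simp [gpath, cnt_cons_cons, Cut, ind, e1, e2, e3, e4, not_lt.2 e1, not_lt.2 e2,
          not_lt.2 e3, not_lt.2 e4]

lemma sum_gcnt_ge {H h : ℕ} (G : List (Gad × Bool × Bool)) (hG : ∀ x ∈ G, WF H x.1) :
    ((G.map Prod.fst).map (base h)).sum +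
      2 * (G.map fun x => (x.1, x.2.1 && !x.2.2)).countP (charged h) ≤ (G.map (gcnt h)).sum := by
  induction G with
  | nil => simp
  | cons x G ih =>
    have h1 := ih fun y hy => hG y (List.mem_cons_of_mem _ hy)
    have h2 := gcnt_ge (h := h) (hG x List.mem_cons_self)
    simp only [List.map_cons, List.sum_cons, List.countP_cons] at h1 ⊢
    omega

lemma sum_gcnt_eq {H h : ℕ} (GB : List (Gad × Bool)) (hG : ∀ x ∈ GB, WF H x.1) :
    ((GB.map fun x => (x.1, x.2, !x.2)).map (gcnt h)).sum =
      ((GB.map Prod.fst).map (base h)).sum + 2 * GB.countP (charged h) := by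
  induction GB with
  | nil => simp
  | cons x G ih =>
    have h1 := ih fun y hy => hG y (List.mem_cons_of_mem _ hy)
    have h2 := gcnt_eq (h := h) x.2 (hG x List.mem_cons_self)
    simp only [List.map_cons, List.sum_cons, List.countP_cons] at h1 ⊢
    rw [h1, h2]
    ring

lemma base_even (h : ℕ) (G : List Gad) : Even (G.map (base h)).sum := by
  induction G with
  | nil => simp
  | cons g G ih =>
    rw [List.map_cons, List.sum_cons]
    refine Even.add ?_ ih
    unfold base
    split_ifs <;> decide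

lemma base_le (h : ℕ) (G : List Gad) : (G.map (base h)).sum ≤ 4 * G.length := by
  induction G with
  | nil => simp
  | cons g G ih =>
    rw [List.map_cons, List.sum_cons, List.length_cons]
    have : base h g ≤ 4 := by unfold base; split_ifs <;> omega
    omega

lemma base_top {H : ℕ} (G : List Gad) (hG : ∀ g ∈ G, WF H g) : (G.map (base H)).sum = 0 := by
  induction G with
  | nil => simp
  | cons g G ih =>
    rw [List.map_cons, List.sum_cons, ih fun y hy => hG y (List.mem_cons_of_mem _ hy)]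
    obtain ⟨h1, h2, h3, h4, h5⟩ := hG g List.mem_cons_self
    unfold base
    rw [if_neg (by omega), if_neg (by omega), if_neg (by omega)]

lemma countP_charged_top {H : ℕ} (GB : List (Gad × Bool)) (hG : ∀ x ∈ GB, WF H x.1) :
    GB.countP (charged H) = 0 := by
  rw [List.countP_eq_zero]
  intro x hx
  obtain ⟨h1, h2, h3, h4, h5⟩ := hG x hx
  unfold charged
  split_ifs <;> simp <;> omega

end Pool.Agent.MP_a4672b_lc

end

section

namespace Pool.Agent.MP_a4672b_lc

open Pool.Agent.MP_2e8011_lc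

def nn (φ : CNF) : ℕ := sz φ + 1

def lit (φ : CNF) (o : ℕ) : ℕ × Bool := (φ.getD (o / nn φ) []).getD (o % nn φ) (0, false)

def lvl (φ : CNF) (o : ℕ) : ℕ :=
  nn φ + (2 * (lit φ o).1 + bif (lit φ o).2 then 1 else 0) * (nn φ * nn φ) + o

def occGad (φ : CNF) (o : ℕ) : Gad := (o / nn φ, o / nn φ + 1, lvl φ o, lvl φ o + 1)

def varGad (φ : CNF) (v : ℕ) : Gad :=
  (nn φ + 2 * v * (nn φ * nn φ), nn φ + (2 * v + 1) * (nn φ * nn φ),
    nn φ + (2 * v + 1) * (nn φ * nn φ), nn φ + (2 * v + 2) * (nn φ * nn φ))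

def occs (φ : CNF) : List ℕ :=
  (List.range (nn φ * nn φ)).filter fun o => decide (o % nn φ < (φ.getD (o / nn φ) []).length)

def gads (φ : CNF) : List Gad := (occs φ).map (occGad φ) ++ (List.range (nn φ)).map (varGad φ)

def lensOf (φ : CNF) : List ℕ :=
  (List.range (nn φ + 2 * nn φ * (nn φ * nn φ))).map fun h =>
    if h < φ.length then (φ.getD h []).length else 2

lemma pt_nn : PT nn := by unfold nn; fun_prop

lemma pt_gads : PT gads := by
  have := pt_nn
  unfold gads occs occGad varGad lvl lit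
  fun_prop

lemma pt_lensOf : PT lensOf := by
  have := pt_nn
  unfold lensOf
  fun_prop

variable {φ : CNF}

lemma nn_pos : 0 < nn φ := Nat.succ_pos _

lemma length_lt_nn : φ.length < nn φ := Nat.lt_succ_of_le (length_le_sz φ)

lemma clause_length_lt {c : List (ℕ × Bool)} (hc : c ∈ φ) : c.length < nn φ :=
  Nat.lt_succ_of_le ((length_le_sz c).trans (sz_le_of_mem hc))

lemma var_lt {c : List (ℕ × Bool)} (hc : c ∈ φ) {l : ℕ × Bool} (hl : l ∈ c) : l.1 < nn φ := by
  have h1 := sz_le_of_mem hc
  have h2 := sz_le_of_mem hl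
  obtain ⟨v, s⟩ := l
  simp only [sz_prod, sz_nat, sz_bool] at h2
  unfold nn
  omega

lemma mem_occs {o : ℕ} : o ∈ occs φ ↔ o < nn φ * nn φ ∧ o % nn φ < (φ.getD (o / nn φ) []).length := by
  simp [occs]

lemma occ_clause {o : ℕ} (ho : o ∈ occs φ) : o / nn φ < φ.length := by
  by_contra h
  have := (mem_occs.1 ho).2
  rw [List.getD_eq_default _ _ (not_lt.1 h)] at this
  simp at this

lemma getD_mem {α : Type*} {l : List α} {i : ℕ} (hi : i < l.length) (d : α) : l.getD i d ∈ l := by
  rw [List.getD_eq_getElem _ _ hi]; exact List.getElem_mem _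

lemma lit_mem {o : ℕ} (ho : o ∈ occs φ) : lit φ o ∈ φ.getD (o / nn φ) [] :=
  getD_mem (mem_occs.1 ho).2 _

lemma lit_lt {o : ℕ} (ho : o ∈ occs φ) : (lit φ o).1 < nn φ :=
  var_lt (getD_mem (occ_clause ho) _) (lit_mem ho)

lemma length_lensOf : (lensOf φ).length = nn φ + 2 * nn φ * (nn φ * nn φ) := by simp [lensOf]

lemma lensOf_getD {h : ℕ} (hh : h < (lensOf φ).length) :
    (lensOf φ).getD h 1 = if h < φ.length then (φ.getD h []).length else 2 := by
  rw [List.getD_eq_getElem _ _ hh]
  simp [lensOf]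

/-- block index of the literal of an occurrence -/
def blk (φ : CNF) (o : ℕ) : ℕ := 2 * (lit φ o).1 + bif (lit φ o).2 then 1 else 0

lemma lvl_eq (o : ℕ) : lvl φ o = nn φ + blk φ o * (nn φ * nn φ) + o := rfl

lemma blk_lt {o : ℕ} (ho : o ∈ occs φ) : blk φ o + 1 ≤ 2 * nn φ := by
  have := lit_lt ho
  unfold blk
  cases (lit φ o).2 <;> simp <;> omega

lemma wf_gads : ∀ g ∈ gads φ, WF (lensOf φ).length g := by
  intro g hg
  rw [length_lensOf]
  have hW : 0 < nn φ * nn φ := Nat.mul_pos nn_pos nn_pos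
  rcases List.mem_append.1 hg with hg | hg
  · obtain ⟨o, ho, rfl⟩ := List.mem_map.1 hg
    have h1 := occ_clause ho
    have h2 := length_lt_nn (φ := φ)
    have h3 := Nat.mul_le_mul_right (nn φ * nn φ) (blk_lt ho)
    have h4 := (mem_occs.1 ho).1
    rw [add_mul] at h3
    simp only [WF, occGad, lvl_eq]
    omega
  · obtain ⟨v, hv, rfl⟩ := List.mem_map.1 hg
    rw [List.mem_range] at hv
    have h3 := Nat.mul_le_mul_right (nn φ * nn φ) (show 2 * v + 2 ≤ 2 * nn φ by omega)
    simp only [WF, varGad, add_mul] at h3 ⊢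
    omega

lemma card_le_countP {α ι : Type*} {p : α → Bool} {l : List α} (s : Finset ι) (g : ι → α)
    (hg : ∀ i ∈ s, g i ∈ l ∧ p (g i)) (hinj : Set.InjOn g s) : s.card ≤ l.countP p := by
  classical
  rw [List.countP_eq_length_filter]
  refine le_trans ?_ (List.toFinset_card_le _)
  apply Finset.card_le_card_of_injOn g _ hinj
  intro i hi
  simp only [List.coe_toFinset, List.mem_filter, Set.mem_ofPred_eq]
  exact hg i hi

lemma countP_le_card {α ι : Type*} {p : α → Bool} {l : List α} (hl : l.Nodup) (s : Finset ι)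
    (g : α → ι) (hg : ∀ x ∈ l, p x → g x ∈ s)
    (hinj : ∀ x ∈ l, ∀ y ∈ l, p x → p y → g x = g y → x = y) : l.countP p ≤ s.card := by
  classical
  rw [List.countP_eq_length_filter, ← List.toFinset_card_of_nodup (hl.filter _)]
  apply Finset.card_le_card_of_injOn g
  · intro x hx
    simp only [List.coe_toFinset, List.mem_filter, Set.mem_ofPred_eq] at hx
    exact hg x hx.1 hx.2
  · intro x hx y hy
    simp only [List.coe_toFinset, List.mem_filter, Set.mem_ofPred_eq] at hx hy
    exact hinj x hx.1 y hy.1 hx.2 hy.2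

lemma block_unique {W a b x y : ℕ} (hx : x < W) (hy : y < W) (h : a * W + x = b * W + y) :
    a = b ∧ x = y := by
  have h1 : (a * W + x) / W = a := by
    rw [add_comm, Nat.add_mul_div_right _ _ (by omega), Nat.div_eq_of_lt hx, zero_add]
  have h2 : (b * W + y) / W = b := by
    rw [add_comm, Nat.add_mul_div_right _ _ (by omega), Nat.div_eq_of_lt hy, zero_add]
  have h3 : a = b := by rw [← h1, h, h2]
  subst h3
  omega

lemma charged_var {v h : ℕ} {b : Bool} : charged h (varGad φ v, b) = true ↔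
    ∃ x < nn φ * nn φ, h = nn φ + (2 * v + bif b then 1 else 0) * (nn φ * nn φ) + x := by
  cases b
  · simp only [charged, varGad, Bool.false_eq_true, if_false, decide_eq_true_eq, cond_false,
      add_zero, add_mul, one_mul]
    constructor
    · intro h1
      exact ⟨h - (nn φ + 2 * v * (nn φ * nn φ)), by omega, by omega⟩
    · rintro ⟨x, hx, rfl⟩
      omega
  · simp only [charged, varGad, if_true, decide_eq_true_eq, cond_true, add_mul, one_mul]
    constructor
    · intro h1
      exact ⟨h - (nn φ + (2 * v * (nn φ * nn φ) + nn φ * nn φ)), by omega, by omega⟩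
    · rintro ⟨x, hx, rfl⟩
      omega

lemma charged_occ {o h : ℕ} {b : Bool} : charged h (occGad φ o, b) = true ↔
    h = if b then lvl φ o else o / nn φ := by
  cases b <;> simp only [charged, occGad, Bool.false_eq_true, if_false, if_true,
    decide_eq_true_eq] <;> omega

theorem solvable_of_sat (h : Sat φ) : Solvable (gads φ) (lensOf φ) := by
  classical
  obtain ⟨a, ha⟩ := h
  refine ⟨(occs φ).map (fun o => (occGad φ o, decide (a (lit φ o).1 = (lit φ o).2))) ++
    (List.range (nn φ)).map (fun v => (varGad φ v, !a v)), by simp [gads, Function.comp_def], ?_⟩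
  intro h hh
  rw [lensOf_getD hh, List.countP_append, List.countP_map, List.countP_map]
  have hnd : (occs φ).Nodup := List.nodup_range.filter _
  have hn := length_lt_nn (φ := φ)
  by_cases h1 : h < nn φ
  · have h2 : (List.range (nn φ)).countP (charged h ∘ fun v => (varGad φ v, !a v)) = 0 := by
      rw [List.countP_eq_zero]
      intro v _ hv
      obtain ⟨x, -, hx⟩ := charged_var.1 hv
      omega
    have h3 : ∀ o ∈ occs φ, (charged h ∘ fun o =>
        (occGad φ o, decide (a (lit φ o).1 = (lit φ o).2))) o = true →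
        h = o / nn φ ∧ a (lit φ o).1 ≠ (lit φ o).2 := by
      intro o _ ho
      have h4 := charged_occ.1 ho
      split_ifs at h4 with h5
      · rw [lvl_eq] at h4; omega
      · exact ⟨h4, by simpa using h5⟩
    rw [h2, add_zero]
    split_ifs with h4
    · obtain ⟨l, hl, hal⟩ := ha _ (getD_mem h4 [])
      obtain ⟨i, hi, rfl⟩ := List.getElem_of_mem hl
      have h5 := countP_le_card hnd ((Finset.range (φ.getD h []).length).erase i) (· % nn φ)
        (p := charged h ∘ fun o => (occGad φ o, decide (a (lit φ o).1 = (lit φ o).2))) (by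
          intro o ho hc
          obtain ⟨rfl, h6⟩ := h3 o ho hc
          rw [Finset.mem_erase, Finset.mem_range]
          refine ⟨fun h7 => h6 ?_, (mem_occs.1 ho).2⟩
          have : lit φ o = (φ.getD (o / nn φ) [])[i] := by
            unfold lit
            rw [h7, List.getD_eq_getElem _ _ hi]
          rw [this]; exact hal) (by
          intro x hx y hy hcx hcy hxy
          have h6 := (h3 x hx hcx).1
          have h7 := (h3 y hy hcy).1
          rw [← Nat.div_add_mod x (nn φ), ← Nat.div_add_mod y (nn φ), ← h6, ← h7]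
          rw [hxy])
      rw [Finset.card_erase_of_mem (Finset.mem_range.2 hi), Finset.card_range] at h5
      omega
    · rw [List.countP_eq_zero.2]
      · omega
      · intro o ho hc
        have := (h3 o ho hc).1
        have := occ_clause ho
        omega
  · rw [if_neg (by omega)]
    have h3 : ∀ o ∈ occs φ, (charged h ∘ fun o =>
        (occGad φ o, decide (a (lit φ o).1 = (lit φ o).2))) o = true →
        h = lvl φ o ∧ a (lit φ o).1 = (lit φ o).2 := by
      intro o ho hc
      have h4 := charged_occ.1 hc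
      split_ifs at h4 with h5
      · exact ⟨h4, by simpa using h5⟩
      · have := occ_clause ho
        omega
    have h4 := countP_le_card hnd {0} (fun _ => 0)
      (p := charged h ∘ fun o => (occGad φ o, decide (a (lit φ o).1 = (lit φ o).2))) (by simp) (by
        intro x hx y hy hcx hcy _
        have h6 := (h3 x hx hcx).1
        have h7 := (h3 y hy hcy).1
        rw [lvl_eq] at h6 h7
        exact (block_unique (mem_occs.1 hx).1 (mem_occs.1 hy).1
          (a := blk φ x) (b := blk φ y) (by omega)).2)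
    have h5 := countP_le_card (List.nodup_range (n := nn φ)) {0} (fun _ => 0)
      (p := charged h ∘ fun v => (varGad φ v, !a v)) (by simp) (by
        intro x _ y _ hcx hcy _
        obtain ⟨s, hs, h6⟩ := charged_var.1 hcx
        obtain ⟨t, ht, h7⟩ := charged_var.1 hcy
        have := (block_unique hs ht (a := 2 * x + bif !a x then 1 else 0)
          (b := 2 * y + bif !a y then 1 else 0) (by omega)).1
        revert this
        cases a x <;> cases a y <;> simp <;> omega)
    rw [Finset.card_singleton] at h4 h5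
    by_contra hc
    obtain ⟨o, ho, hco⟩ := List.countP_pos_iff.1 (show 0 < (occs φ).countP (charged h ∘ fun o =>
      (occGad φ o, decide (a (lit φ o).1 = (lit φ o).2))) by omega)
    obtain ⟨v, -, hcv⟩ := List.countP_pos_iff.1 (show 0 < (List.range (nn φ)).countP
      (charged h ∘ fun v => (varGad φ v, !a v)) by omega)
    obtain ⟨h6, h7⟩ := h3 o ho hco
    obtain ⟨s, hs, h8⟩ := charged_var.1 hcv
    rw [lvl_eq] at h6
    have h9 := (block_unique hs (mem_occs.1 ho).1 (a := 2 * v + bif !a v then 1 else 0)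
      (b := blk φ o) (by omega)).1
    unfold blk at h9
    rw [← h7] at h9
    have h10 : v = (lit φ o).1 := by
      revert h9
      cases a v <;> cases a (lit φ o).1 <;> simp <;> omega
    rw [← h10] at h9
    revert h9
    cases a v <;> simp

theorem sat_of_solvable (h : Solvable (gads φ) (lensOf φ)) : Sat φ := by
  classical
  obtain ⟨GB, hGB, hc⟩ := h
  have h1 : ∀ g, ∃ b, g ∈ gads φ → (g, b) ∈ GB := by
    intro g
    by_cases hg : g ∈ gads φ
    · rw [← hGB] at hg
      obtain ⟨x, hx, rfl⟩ := List.mem_map.1 hg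
      exact ⟨x.2, fun _ => hx⟩
    · exact ⟨true, fun h => absurd h hg⟩
  choose ch hch using h1
  have hocc : ∀ o ∈ occs φ, occGad φ o ∈ gads φ := fun o ho =>
    List.mem_append_left _ (List.mem_map_of_mem ho)
  have hvar : ∀ v < nn φ, varGad φ v ∈ gads φ := fun v hv =>
    List.mem_append_right _ (List.mem_map_of_mem (List.mem_range.2 hv))
  have hn := length_lt_nn (φ := φ)
  have hn0 := nn_pos (φ := φ)
  refine ⟨fun v => !ch (varGad φ v), fun c hcφ => ?_⟩
  obtain ⟨j, hj, rfl⟩ := List.getElem_of_mem hcφ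
  have hlen := clause_length_lt hcφ
  have hj' : j < (lensOf φ).length := by rw [length_lensOf]; omega
  have hdiv : ∀ i < φ[j].length, (j * nn φ + i) / nn φ = j ∧ (j * nn φ + i) % nn φ = i := by
    intro i hi
    constructor
    · rw [add_comm, Nat.add_mul_div_right _ _ hn0, Nat.div_eq_of_lt (by omega), zero_add]
    · rw [add_comm, Nat.add_mul_mod_self_right, Nat.mod_eq_of_lt (by omega)]
  have hmem : ∀ i < φ[j].length, j * nn φ + i ∈ occs φ := by
    intro i hi
    rw [mem_occs, (hdiv i hi).1, (hdiv i hi).2, List.getD_eq_getElem _ _ hj]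
    refine ⟨?_, hi⟩
    have := Nat.mul_le_mul_right (nn φ) (show j + 1 ≤ nn φ by omega)
    rw [add_mul] at this
    omega
  obtain ⟨i, hi, hchosen⟩ : ∃ i < φ[j].length, ch (occGad φ (j * nn φ + i)) = true := by
    by_contra hno
    push Not at hno
    have h2 := hc j hj'
    rw [lensOf_getD hj', if_pos hj, List.getD_eq_getElem _ _ hj] at h2
    have h3 := card_le_countP (p := charged j) (l := GB) (Finset.range φ[j].length)
      (fun i => (occGad φ (j * nn φ + i), false)) (by
        intro i hi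
        rw [Finset.mem_range] at hi
        have h4 := hch _ (hocc _ (hmem i hi))
        rw [Bool.eq_false_iff.2 (hno i hi)] at h4
        refine ⟨h4, charged_occ.2 ?_⟩
        simp [(hdiv i hi).1]) (by
        intro x hx y hy hxy
        simp only [Finset.coe_range, Set.mem_Iio] at hx hy
        simp only [occGad, Prod.mk.injEq, lvl_eq] at hxy
        have := (block_unique (mem_occs.1 (hmem x hx)).1 (mem_occs.1 (hmem y hy)).1
          (a := blk φ (j * nn φ + x)) (b := blk φ (j * nn φ + y)) (by omega)).2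
        omega)
    rw [Finset.card_range] at h3
    omega
  set o := j * nn φ + i with ho
  have hoc : o ∈ occs φ := hmem i hi
  have hlit : lit φ o = φ[j][i] := by
    unfold lit
    rw [(hdiv i hi).1, (hdiv i hi).2, List.getD_eq_getElem _ _ hj, List.getD_eq_getElem _ _ hi]
  refine ⟨lit φ o, by rw [hlit]; exact List.getElem_mem _, ?_⟩
  by_contra hne
  have h2 : ch (varGad φ (lit φ o).1) = (lit φ o).2 := by
    revert hne
    beta_reduce
    cases ch (varGad φ (lit φ o).1) <;> cases (lit φ o).2 <;> simp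
  have hwf := wf_gads _ (hocc o hoc)
  have hl : lvl φ o < (lensOf φ).length := hwf.2.2.2.1
  have h3 := hc _ hl
  rw [lensOf_getD hl, if_neg (by rw [lvl_eq]; omega)] at h3
  have h4 := card_le_countP (p := charged (lvl φ o)) (l := GB) (Finset.univ : Finset Bool)
    (fun b => bif b then (occGad φ o, true) else (varGad φ (lit φ o).1, (lit φ o).2)) (by
      intro b _
      cases b
      · refine ⟨?_, charged_var.2 ⟨o, (mem_occs.1 hoc).1, rfl⟩⟩
        have := hch _ (hvar _ (lit_lt hoc))
        rwa [h2] at this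
      · refine ⟨?_, charged_occ.2 (by simp)⟩
        have := hch _ (hocc _ hoc)
        rwa [hchosen] at this) (by
      have h5 : occGad φ o ≠ varGad φ (lit φ o).1 := by
        intro h
        have := congrArg Prod.fst h
        simp only [occGad, varGad] at this
        have := occ_clause hoc
        omega
      intro x _ y _ hxy
      cases x <;> cases y <;> simp_all)
  simp at h4
  omega

end Pool.Agent.MP_a4672b_lc

end

section

namespace Pool.Agent.MP_a4672b_lc

open Pool.Agent.MP_2e8011_lc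

def kOf (G : List Gad) (lens : List ℕ) : ℕ :=
  2 * (7 * G.length + 7 * (5 * G.length + 1 + lens.length + 1) + lens.sum + 1) + 1

def rhoOf (G : List Gad) (lens : List ℕ) (b : ℕ) : ℕ :=
  if b < 5 * G.length + 1 then kOf G lens - 2 else
    kOf G lens + 2 - ((G.map (base (5 * G.length + 1 + lens.length + 1 - 1 - b))).sum +
      2 * lens.getD (5 * G.length + 1 + lens.length + 1 - 1 - b) 1)

def mkPar (G : List Gad) (lens : List ℕ) : Par where
  nV := 5 * G.length + 1
  B := 5 * G.length + 1 + lens.length + 1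
  K := kOf G lens + 2
  N := (kOf G lens + 2 + 1) * (4 * kOf G lens) + 2
  k := kOf G lens
  rho := rhoOf G lens

def logicPts (G : List Gad) : List (ℕ × ℕ) := lpath 0 (G.map fun g => (g, true, true))

def ptsOf (G : List Gad) (lens : List ℕ) : List (ℕ × ℕ) :=
  (logicPts G).map (mkPar G lens).emb ++ (mkPar G lens).tailPts

variable {G : List Gad} {lens : List ℕ}

lemma getD_le_sum (l : List ℕ) (h : ℕ) : l.getD h 1 ≤ l.sum + 1 := by
  by_cases hh : h < l.length
  · exact (List.single_le_sum (by simp) _ (getD_mem hh 1)).trans (by omega)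
  · rw [List.getD_eq_default _ _ (by omega)]; omega

lemma cap_le (h : ℕ) : (G.map (base h)).sum + 2 * lens.getD h 1 ≤ kOf G lens := by
  have := base_le h G
  have := getD_le_sum lens h
  unfold kOf
  omega

lemma good_mkPar : (mkPar G lens).Good where
  nV_pos := Nat.succ_pos _
  nV_lt := by simp only [mkPar]; omega
  N_pos := Nat.succ_pos _
  rho_le b := by simp only [mkPar, rhoOf]; split_ifs <;> omega
  rho_odd b _ := by
    simp only [mkPar, rhoOf]
    split_ifs
    · unfold kOf; omega
    · have h1 := cap_le (G := G) (lens := lens) (5 * G.length + 1 + lens.length + 1 - 1 - b)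
      obtain ⟨m, hm⟩ := base_even (5 * G.length + 1 + lens.length + 1 - 1 - b) G
      have : kOf G lens % 2 = 1 := by unfold kOf; omega
      omega
  N_big := by simp only [mkPar]; omega

lemma cut_not {α : Type*} (A : α → Prop) : Cut (fun x => ¬ A x) = Cut A := by
  ext x y; unfold Cut; tauto

lemma left_of_lt {i : ℕ} (hi : i < 5 * G.length + 1) :
    (mkPar G lens).Left i = fun z => z.1 ≤ i := by
  ext z; exact Iff.of_eq (if_pos hi)

lemma left_of_ge {i : ℕ} (hi : ¬ i < 5 * G.length + 1) :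
    (mkPar G lens).Left i = fun z => ¬ z.2 ≤ 5 * G.length + 1 + lens.length + 1 - 1 - i := by
  ext z; exact Iff.of_eq (if_neg hi)

lemma mem_logicPts (hG : ∀ g ∈ G, WF lens.length g) {z : ℕ × ℕ} (hz : z ∈ logicPts G) :
    z.1 + z.2 < (mkPar G lens).B ∧ z.1 < (mkPar G lens).nV ∧
      z.2 ≤ (mkPar G lens).B - 1 - (mkPar G lens).nV := by
  have := mem_lpath (wf_map hG) hz
  rw [List.length_map] at this
  simp only [mkPar]
  omega

lemma nodup_ptsOf (hG : ∀ g ∈ G, WF lens.length g) : (ptsOf G lens).Nodup :=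
  Par.nodup_all good_mkPar (nodup_lpath (wf_map hG)) fun _ hz => (mem_logicPts hG hz).1

lemma two_le_length_ptsOf : 2 ≤ (ptsOf G lens).length := by
  have h1 : (mkPar G lens).pt 0 (mkPar G lens).K 0 ∈ (mkPar G lens).tailPts :=
    (Par.mem_tailPts good_mkPar).2 ⟨0, by simp only [mkPar]; omega, _,
      Or.inr ⟨rfl, good_mkPar.nV_pos⟩, 0, good_mkPar.N_pos, rfl⟩
  have h2 := List.length_pos_of_mem h1
  unfold ptsOf logicPts
  rw [List.length_append, List.length_map, length_lpath]
  omega

theorem low_of_solvable (hG : ∀ g ∈ G, WF lens.length g) (h : Solvable G lens) :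
    ∃ W : List (ℕ × ℕ), W.Perm (ptsOf G lens) ∧ Par.Low (kOf G lens) W := by
  obtain ⟨GB, hGB, hc⟩ := h
  set G' := GB.map fun x => (x.1, x.2, !x.2) with hG'
  have h1 : G'.map Prod.fst = G := by rw [← hGB, hG', List.map_map]; rfl
  have h2 : (lpath 0 G').Perm (logicPts G) := by
    have := lpath_perm 0 G'
    rwa [h1] at this
  have hGB' : ∀ x ∈ GB, WF lens.length x.1 := fun x hx => hG _ (hGB ▸ List.mem_map_of_mem hx)
  have h3 : ∀ x ∈ G', WF lens.length x.1 := fun x hx => hG _ (h1 ▸ List.mem_map_of_mem hx)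
  have h4 : G'.length = G.length := by simpa using congrArg List.length h1
  refine ⟨(lpath 0 G').map (mkPar G lens).emb ++ (mkPar G lens).tailPts,
    (h2.map _).append_right _, fun a b c _ => ?_⟩
  refine Par.complete good_mkPar _ (fun z hz => (mem_logicPts hG (h2.mem_iff.1 hz)).1) ?_ ?_ a b c
  · intro i hi
    by_cases hi' : i < 5 * G.length + 1
    · rw [left_of_lt hi']
      have h5 := cnt_cut_le_one_of_sorted Prod.fst i (lpath 0 G' ++ [((mkPar G lens).nV, 0)]) (by
        rw [List.pairwise_append]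
        refine ⟨sorted_lpath h3, by simp, fun x hx y hy => ?_⟩
        rw [List.mem_singleton] at hy
        subst hy
        exact (mem_logicPts hG (h2.mem_iff.1 hx)).2.1.le)
      have h6 := ind_le (i < (mkPar G lens).nV)
      have h7 : (mkPar G lens).rho i = kOf G lens - 2 := if_pos hi'
      have h8 : (mkPar G lens).k = kOf G lens := rfl
      have h9 : 2 ≤ kOf G lens := by unfold kOf; omega
      omega
    · rw [left_of_ge hi', cut_not, ind_neg (p := i < (mkPar G lens).nV) hi']
      have h7 : (mkPar G lens).rho i = _ := if_neg hi'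
      have h8 : (mkPar G lens).k = kOf G lens := rfl
      rw [h7, h8]
      set h := 5 * G.length + 1 + lens.length + 1 - 1 - i with hh
      have h9 : GB.countP (charged h) < lens.getD h 1 := by
        by_cases h10 : h < lens.length
        · exact hc h h10
        · have : h = lens.length := by omega
          rw [this, countP_charged_top GB hGB', List.getD_eq_default _ _ le_rfl]
          omega
      have h10 := cnt_lpath h 0 G'
      rw [hG', sum_gcnt_eq GB hGB', hGB, ← hG'] at h10
      obtain ⟨t, ht⟩ := lpath_eq_concat 0 G'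
      rw [ht] at h10 ⊢
      rw [List.append_assoc, List.singleton_append, cnt_append_cons, h10, cnt_cons_cons,
        ind_neg (by simp [Cut]), cnt_single]
      have := cap_le (G := G) (lens := lens) h
      omega
  · rw [length_lpath, h4]
    simp only [mkPar, kOf]
    omega

theorem solvable_of_low (hG : ∀ g ∈ G, WF lens.length g) {W : List (ℕ × ℕ)}
    (hW : W.Perm (ptsOf G lens)) (h : Par.Low (kOf G lens) W) : Solvable G lens := by
  have h9 : 2 ≤ kOf G lens := by unfold kOf; omega
  obtain ⟨L, hL, h1, h2⟩ := Par.sound (P := mkPar G lens) good_mkPar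
    (fun z hz => mem_logicPts hG hz) (by
      simp only [mkPar, rhoOf]
      rw [if_neg (by omega), show 5 * G.length + 1 + lens.length + 1 - 1 - (5 * G.length + 1) =
        lens.length by omega, base_top G hG, List.getD_eq_default _ _ le_rfl]
      omega) (by
      simp only [mkPar, rhoOf]
      rw [if_pos (by omega)]
      omega) hW h
  have h3 := sorted_of_cut_le_one Prod.fst L ((mkPar G lens).nV, 0)
    (fun z hz => (mem_logicPts hG (hL.mem_iff.1 hz)).2.1) (by
      rintro _ ⟨z, hz, rfl⟩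
      have h4 := (mem_logicPts hG (hL.mem_iff.1 hz)).2.1
      have h5 := h1 _ h4
      rw [left_of_lt h4] at h5
      have h7 : (mkPar G lens).rho z.1 = kOf G lens - 2 := if_pos h4
      have h8 : (mkPar G lens).k = kOf G lens := rfl
      omega)
  obtain ⟨G', hG', rfl⟩ := exists_lpath_of_sorted G hG 0 L h3 hL
  refine ⟨G'.map fun x => (x.1, x.2.1 && !x.2.2), by rw [← hG', List.map_map]; rfl, fun h hh => ?_⟩
  have h4 := h2 (5 * G.length + 1 + lens.length - h) (by simp only [mkPar]; omega)
  have h5 : ¬ 5 * G.length + 1 + lens.length - h < 5 * G.length + 1 := by omega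
  have h7 : (mkPar G lens).rho (5 * G.length + 1 + lens.length - h) = _ := if_neg h5
  have h8 : (mkPar G lens).k = kOf G lens := rfl
  rw [left_of_ge h5, cut_not, h7, h8, show 5 * G.length + 1 + lens.length + 1 - 1 -
    (5 * G.length + 1 + lens.length - h) = h by omega, cnt_lpath] at h4
  have h6 := sum_gcnt_ge (h := h) G' (fun x hx => hG _ (hG' ▸ List.mem_map_of_mem hx))
  rw [hG'] at h6
  have := cap_le (G := G) (lens := lens) h
  omega

section PT

variable {α : Type} [Enc α]

@[fun_prop] lemma pt_sum {l : α → List ℕ} (hl : PT l) : PT fun a => (l a).sum := by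
  have : PT fun a => ((l a).flatMap fun n => List.range n).length := by fun_prop
  exact this.congr fun a => by simp [List.length_flatMap]

lemma lpath_eq_flatMap (c : ℕ) (G : List Gad) : lpath c (G.map fun g => (g, true, true)) =
    ((List.range G.length).flatMap fun t => gpath (c + 5 * t) (G.getD t default) true true) ++
      [(c + 5 * G.length, 0)] := by
  induction G generalizing c with
  | nil => rfl
  | cons g G ih =>
    rw [List.map_cons, lpath, ih, List.length_cons, List.range_succ_eq_map, List.flatMap_cons,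
      List.flatMap_map, List.append_assoc]
    simp only [List.getD_cons_succ, List.getD_cons_zero, Nat.succ_eq_add_one, mul_add, add_assoc,
      add_comm 5, mul_zero, add_zero, mul_one]

lemma pt_kOf {G : α → List Gad} {lens : α → List ℕ} (hG : PT G) (hl : PT lens) :
    PT fun a => kOf (G a) (lens a) := by
  unfold kOf; fun_prop

lemma pt_base {h : α → ℕ} {g : α → Gad} (hh : PT h) (hg : PT g) : PT fun a => base (h a) (g a) := by
  unfold base
  fun_prop

lemma pt_rhoOf {G : α → List Gad} {lens : α → List ℕ} {b : α → ℕ} (hG : PT G) (hl : PT lens)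
    (hb : PT b) : PT fun a => rhoOf (G a) (lens a) (b a) := by
  have hk := pt_kOf hG hl
  have hh : PT fun a => 5 * (G a).length + 1 + (lens a).length + 1 - 1 - b a := by fun_prop
  unfold rhoOf
  refine PT.ite (by fun_prop) (hk.sub (PT.const _)) ((hk.add (PT.const _)).sub (PT.add
    (pt_sum (PT.map (pt_base (hh.comp PT.id.fst) PT.id.snd) hG))
    ((PT.const _).mul (PT.getD hl hh (PT.const _)))))

lemma pt_pts {P : α → Par} {Q : α → List (ℕ × ℕ)} (hQ : PT Q) (hN : PT fun a => (P a).N)
    (hB : PT fun a => (P a).B) (hK : PT fun a => (P a).K) (hV : PT fun a => (P a).nV)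
    (hrho : PT fun p : α × ℕ => (P p.1).rho p.2) :
    PT fun a => (Q a).map (P a).emb ++ (P a).tailPts := by
  have hS : PT fun a => (P a).S := hN.mul ((hB.add hK).add (PT.const 1))
  have h3 : PT fun p : α × ℕ × ℕ => (P p.1).rowLR p.2.1 p.2.2 := by
    have e1 : PT fun p : (α × ℕ × ℕ) × ℕ => (P p.1.1).S := hS.comp PT.id.fst.fst
    have e2 : PT fun p : (α × ℕ × ℕ) × ℕ => (P p.1.1).nV := hV.comp PT.id.fst.fst
    have e3 : PT fun p : (α × ℕ × ℕ) × ℕ => (P p.1.1).B := hB.comp PT.id.fst.fst
    have e4 : PT fun p : (α × ℕ × ℕ) × ℕ => p.1.2.1 := PT.id.fst.snd.fst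
    have e5 : PT fun p : (α × ℕ × ℕ) × ℕ => p.1.2.2 := PT.id.fst.snd.snd
    exact PT.map (PT.prodMk (((e1.mul (((PT.const 2).mul e4).add (PT.const 1))).add
      (PT.ite (e4.lt e2) (PT.const 0) (((PT.const 2).mul e1).mul e5))).add PT.id.snd)
      (((PT.const 2).mul e1).mul (e3.add e5))) (PT.range (hN.comp PT.id.fst))
  have h4 : PT fun p : α × ℕ => (P p.1).snake p.2 := by
    have e1 : PT fun q : (α × ℕ) × ℕ => (P q.1.1).rowLR q.1.2 q.2 :=
      h3.comp (f := fun q : (α × ℕ) × ℕ => (q.1.1, q.1.2, q.2)) (by fun_prop)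
    exact PT.flatMap (PT.ite (by fun_prop) e1.reverse e1) hrho.range
  refine PT.append (PT.map ?_ hQ) (PT.append (PT.flatMap h4 hB.range.reverse)
    (PT.flatMap ?_ hV.range))
  · have e1 : PT fun p : α × ℕ × ℕ => (P p.1).S := hS.comp PT.id.fst
    exact PT.prodMk (((PT.const 2).mul e1).mul PT.id.snd.fst)
      (((PT.const 2).mul e1).mul (PT.id.snd.fst.add PT.id.snd.snd))
  · exact h3.comp (f := fun q : α × ℕ => (q.1, q.2, (P q.1).K))
      (PT.id.fst.prodMk (PT.id.snd.prodMk (hK.comp PT.id.fst)))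

lemma pt_ptsOf {G : α → List Gad} {lens : α → List ℕ} (hG : PT G) (hl : PT lens) :
    PT fun a => ptsOf (G a) (lens a) := by
  have hk := pt_kOf hG hl
  have h1 : PT fun a => logicPts (G a) := by
    unfold logicPts
    simp only [lpath_eq_flatMap, gpath, if_true]
    fun_prop
  have hV : PT fun a => 5 * (G a).length + 1 := by fun_prop
  exact pt_pts (P := fun a => mkPar (G a) (lens a)) h1
    ((((hk.add (PT.const 2)).add (PT.const 1)).mul ((PT.const 4).mul hk)).add (PT.const 2))
    ((hV.add hl.length).add (PT.const 1)) (hk.add (PT.const 2)) hV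
    (pt_rhoOf (hG.comp PT.id.fst) (hl.comp PT.id.fst) PT.id.snd)

end PT

end Pool.Agent.MP_a4672b_lc

end

section

namespace Pool.Agent.MP_a4672b_lc

open Pool.Agent.MP_2e8011_lc Pool.Agent.MP_a6d740_lc

def toQ (z : ℕ × ℕ) : ℚ × ℚ := (z.1, z.2)

lemma toQ_inj : Function.Injective toQ := by
  intro z w h
  simp only [toQ, Prod.mk.injEq, Nat.cast_inj] at h
  exact Prod.ext h.1 h.2

lemma stabCount_eq_cnt (a b c : ℝ) (P : List (ℚ × ℚ)) : stabCount a b c P =
    cnt (fun x y : ℚ × ℚ => (a * x.1 + b * x.2 + c) * (a * y.1 + b * y.2 + c) < 0) P := by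
  unfold stabCount cnt edges
  congr

lemma stabCount_map (a b c : ℝ) (W : List (ℕ × ℕ)) :
    stabCount a b c (W.map toQ) = cross (Par.lineF a b c) W := by
  rw [stabCount_eq_cnt, cnt_map]
  simp [cross, Par.lineF, toQ]

lemma maxStab_le_iff (P : List (ℚ × ℚ)) (k : ℕ) :
    maxStab P ≤ k ↔ ∀ a b c : ℝ, (a ≠ 0 ∨ b ≠ 0) → stabCount a b c P ≤ k := by
  unfold maxStab
  rw [csSup_le_iff' ⟨P.length, by
    rintro _ ⟨a, b, c, -, rfl⟩
    rw [stabCount_eq_cnt]
    exact cnt_le_length _ _⟩]
  constructor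
  · intro h a b c hab
    exact h _ ⟨a, b, c, hab, rfl⟩
  · rintro h _ ⟨a, b, c, hab, rfl⟩
    exact h a b c hab

lemma pathStab_le_iff {l : List (ℚ × ℚ)} (hl : l.Nodup) (k : ℕ) :
    pathStab l.toFinset ≤ k ↔ ∃ P : List (ℚ × ℚ), P.Perm l ∧ maxStab P ≤ k := by
  unfold pathStab
  constructor
  · intro h
    obtain ⟨P, h1, h2, h3⟩ := Nat.sInf_mem (s := {m | ∃ P : List (ℚ × ℚ), P.Nodup ∧
      P.toFinset = l.toFinset ∧ maxStab P = m}) ⟨_, l, hl, rfl, rfl⟩
    exact ⟨P, List.perm_of_nodup_nodup_toFinset_eq h1 hl h2, h3 ▸ h⟩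
  · rintro ⟨P, h1, h2⟩
    exact le_trans (Nat.sInf_le ⟨P, h1.nodup_iff.2 hl, List.toFinset_eq_of_perm _ _ h1, rfl⟩) h2

lemma exists_of_perm_map {α β : Type*} {f : α → β} {l : List β} {Q : List α}
    (hp : l.Perm (Q.map f)) : ∃ L : List α, L.Perm Q ∧ L.map f = l := by
  obtain ⟨L, h1, h2⟩ := List.perm_comp_forall₂ (r := fun (x : β) (z : α) => x = f z) hp
    (by rw [List.forall₂_map_left_iff]; exact List.forall₂_same.2 fun _ _ => rfl)
  refine ⟨L, h2, ?_⟩
  clear hp h2
  induction h1 with
  | nil => rfl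
  | cons h _ ih => rw [List.map_cons, ih, h]

lemma pathStab_map_le_iff {l : List (ℕ × ℕ)} (hl : l.Nodup) (k : ℕ) :
    pathStab (l.map toQ).toFinset ≤ k ↔ ∃ W : List (ℕ × ℕ), W.Perm l ∧ Par.Low k W := by
  rw [pathStab_le_iff (hl.map toQ_inj)]
  constructor
  · rintro ⟨P, h1, h2⟩
    obtain ⟨W, h3, rfl⟩ := exists_of_perm_map h1
    refine ⟨W, h3, fun a b c hab => ?_⟩
    rw [← stabCount_map]
    exact (maxStab_le_iff _ _).1 h2 a b c hab
  · rintro ⟨W, h1, h2⟩
    refine ⟨W.map toQ, h1.map _, (maxStab_le_iff _ _).2 fun a b c hab => ?_⟩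
    rw [stabCount_map]
    exact h2 a b c hab

def intB (n : ℤ) : Bin × Bin := (⟨n.toNat⟩, ⟨(-n).toNat⟩)

def ratB (q : ℚ) : (Bin × Bin) × Bin := (intB q.num, ⟨q.den⟩)

lemma bitEncode_int (n : ℤ) : N487b59b3.bitEncode n = enc (intB n) :=
  bitEncode_prod bitEncode_bin bitEncode_bin (n.toNat, (-n).toNat)

lemma bitEncode_rat (q : ℚ) : N487b59b3.bitEncode q = enc (ratB q) :=
  bitEncode_prod bitEncode_int bitEncode_bin (q.num, q.den)

lemma bitEncode_inst (l : List (ℚ × ℚ)) (k : ℤ) : N487b59b3.bitEncode (l, k) =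
    enc (l.map fun p => (ratB p.1, ratB p.2), intB k) :=
  bitEncode_prod (bitEncode_list (bitEncode_prod bitEncode_rat bitEncode_rat)) bitEncode_int (l, k)

/-- the instance attached to a formula -/
def inst (φ : CNF) : List Bool :=
  enc ((ptsOf (gads φ) (lensOf φ)).map fun z =>
    ((((Bin.mk z.1, Bin.mk 0), Bin.mk 1), ((Bin.mk z.2, Bin.mk 0), Bin.mk 1))),
    (Bin.mk (kOf (gads φ) (lensOf φ)), Bin.mk 0))

lemma pt_inst : PT inst := by
  have h1 := pt_ptsOf pt_gads pt_lensOf
  have h2 := pt_kOf pt_gads pt_lensOf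
  refine PT.enc (PT.prodMk (PT.map (f := fun _ (z : ℕ × ℕ) =>
    ((((Bin.mk z.1, Bin.mk 0), Bin.mk 1), ((Bin.mk z.2, Bin.mk 0), Bin.mk 1)))) ?_ h1)
    ((pt_ofUnary h2).prodMk (PT.const _)))
  exact (((pt_ofUnary PT.id.snd.fst).prodMk (PT.const _)).prodMk (PT.const _)).prodMk
    (((pt_ofUnary PT.id.snd.snd).prodMk (PT.const _)).prodMk (PT.const _))

lemma inst_eq (φ : CNF) : inst φ = N487b59b3.bitEncode ((ptsOf (gads φ) (lensOf φ)).map toQ,
    (kOf (gads φ) (lensOf φ) : ℤ)) := by
  rw [bitEncode_inst, List.map_map]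
  unfold inst
  congr 2
  apply List.map_congr_left
  intro z _
  simp [ratB, intB, toQ]

lemma inst_iff (φ : CNF) : PathStabProblem (inst φ) = true ↔ Sat φ := by
  have hnd := nodup_ptsOf (wf_gads (φ := φ))
  unfold PathStabProblem
  simp only [decide_eq_true_eq]
  rw [inst_eq]
  constructor
  · rintro ⟨l, k, h1, -, -, h2⟩
    obtain ⟨rfl, rfl⟩ := Prod.mk.inj (N487b59b3.bitEncode_injective h1)
    obtain ⟨W, h3, h4⟩ := (pathStab_map_le_iff hnd _).1 (by exact_mod_cast h2)
    exact sat_of_solvable (solvable_of_low wf_gads h3 h4)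
  · intro h
    refine ⟨_, _, rfl, hnd.map toQ_inj, by rw [List.length_map]; exact two_le_length_ptsOf, ?_⟩
    exact_mod_cast (pathStab_map_le_iff hnd _).2 (low_of_solvable wf_gads (solvable_of_sat h))

end Pool.Agent.MP_a4672b_lc

end
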