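import Pool.Agent.Mg.F2e8011.Gcff420
import Pool.Agent.Mg.F2e8011.G083ebe
import Pool.Agent.Mg.F2e8011.Gdf71e3
import Pool.Agent.Mg.F2e8011.G2c7daa
import Pool.Prelude.Def_F_458e953d
import Pool.Agent.Mg.F2e8011.G5eb695

section

/-! A local criterion for `Good`, and its decision in polynomial time. -/

namespace Pool.Agent.MP_9e68e9_lc.Low

open Finset Pool.Agent.MP_2e8011_lc Pool.Agent.MP_9e68e9_lc.PCP

section
variable {V W : Type} {G : SimpleGraph V} {p : ℝ}

theorem good_comap (l : W → V) (hc : Closed G (Set.range l)) (h : Good p G ∅) :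
    Good p (G.comap l) ∅ := by
  obtain ⟨S, D, h1, h2⟩ := h
  refine ⟨S, fun i a => D i (l a), fun i a _ => ?_, fun a => h2 _⟩
  rcases h1 i (l a) (Set.notMem_empty _) with h | ⟨t, h, h'⟩
  · exact Or.inl h
  · obtain ⟨b, rfl⟩ := hc _ ⟨a, rfl⟩ t h
    exact Or.inr ⟨b, h, h'⟩

theorem good_of_comap (hp : 0 ≤ p) (l : W → V) (hl : Function.Injective l)
    (h : Good p (G.comap l) ∅) : Good p G (Set.range l)ᶜ := by
  obtain ⟨S, D, h1, h2⟩ := h
  refine ⟨S, fun i t => ∃ a, l a = t ∧ D i a, fun i v hv => ?_, fun t => ?_⟩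
  · obtain ⟨a, rfl⟩ := not_not.1 hv
    rcases h1 i a (Set.notMem_empty _) with h | ⟨b, h, h'⟩
    exacts [Or.inl ⟨a, rfl, h⟩, Or.inr ⟨l b, h, b, rfl, h'⟩]
  · by_cases e : ∃ a, l a = t
    · obtain ⟨a, rfl⟩ := e
      exact (S.mono fun i ⟨b, h, h'⟩ => hl h ▸ h').trans (h2 a)
    · exact (S.P_none fun i ⟨b, h, _⟩ => e ⟨b, h⟩).trans_le hp

theorem good_half [Finite V] (h : ∀ v, ∃ t, G.Adj v t) : Good (1 / 2) G ∅ := by
  obtain ⟨D, h1, h2⟩ := exists_minimal_of_wellFoundedLT
    (fun D : Set V => Dom G ∅ fun v => v ∈ D) ⟨Set.univ, fun v _ => Or.inl trivial⟩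
  have h3 : Dom G ∅ fun v => v ∉ D := fun v _ => by
    by_contra e
    simp only [not_or, not_not, not_exists, not_and] at e
    refine (h2 (y := D \ {v}) (fun t _ => ?_) Set.diff_subset e.1).2 rfl
    by_cases e' : t = v
    · obtain ⟨s, hs⟩ := h v
      exact Or.inr ⟨s, e' ▸ hs, e.2 s hs, hs.ne'⟩
    · rcases h1 t (Set.notMem_empty _) with k | ⟨s, k, k'⟩
      · exact Or.inl ⟨k, e'⟩
      · by_cases e'' : s = v
        · exact Or.inl ⟨e.2 t (e'' ▸ k.symm), e'⟩
        · exact Or.inr ⟨s, k, k', e''⟩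
  refine ⟨PS.coin (1 / 2) (by norm_num) (by norm_num), fun (b : Bool) v => v ∈ D ↔ b = true,
    fun b => ?_, fun v => ?_⟩
  · cases b
    · simpa using h3
    · simpa using h1
  · by_cases e : v ∈ D
    · exact (PS.mono _ fun b => by simp [e]).trans (PS.coin_true _ _ _).le
    · exact (PS.mono _ fun (b : Bool) => by simp [e]).trans ((PS.coin_false _ _ _).trans_le
        (by norm_num))

theorem deg_of_good (hp : p < 1 / 2) (h : Good p G ∅) : Deg G ∅ := fun v _ => by
  obtain ⟨S, D, h1, h2⟩ := h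
  by_contra e
  obtain ⟨a, ha⟩ : ∃ a, ∀ t, G.Adj v t → t = a := by
    by_cases e' : ∃ a, G.Adj v a
    · obtain ⟨a, ha⟩ := e'
      exact ⟨a, fun t ht => by_contra fun k => e ⟨t, a, k, ht, ha⟩⟩
    · exact ⟨v, fun t ht => absurd ⟨t, ht⟩ e'⟩
  have := S.cover (X := fun _ => True) (Y := fun i => D i v) (Z := fun i => D i a) fun i _ =>
    (h1 i v (Set.notMem_empty _)).imp_right fun ⟨t, k, k'⟩ => ha t k ▸ k'
  rw [S.P_all fun _ => trivial] at this
  linarith [h2 v, h2 a]

end

/-- The local condition. -/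
def Loc (b : Bool) (N : ℕ) (Q : (k : ℕ) → SimpleGraph (Fin k) → Prop) {n : ℕ}
    (G : SimpleGraph (Fin n)) : Prop :=
  (b = true → Deg G ∅) ∧ ∀ k < N, ∀ l : Fin k → Fin n, Function.Injective l →
    Closed G (Set.range l) → Q k (G.comap l)

theorem good_iff {p : ℝ} (hp : 2 / 5 < p) : ∃ (b : Bool) (N : ℕ), ∀ (n : ℕ)
    (G : SimpleGraph (Fin n)), Good p G ∅ ↔ Loc b N (fun _ H => Good p H ∅) G := by
  rcases lt_or_ge p (1 / 2) with h | h
  · obtain ⟨N, hN⟩ := exists_nat_one_div_lt (sub_pos.2 hp)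
    refine ⟨true, N + 1, fun n G => ⟨fun e => ⟨fun _ => deg_of_good h e, fun k _ l _ hc =>
      good_comap l hc e⟩, fun e => good_of_small N (by linarith) (e.1 rfl) fun C h1 _ h2 => ?_⟩⟩
    haveI := Fintype.ofFinite C
    have e1 : Set.range (fun i => ((Fintype.equivFin C).symm i : Fin n)) = C := by
      ext v
      exact ⟨fun ⟨i, hi⟩ => hi ▸ Subtype.prop _, fun hv => ⟨Fintype.equivFin C ⟨v, hv⟩, by simp⟩⟩
    have e2 : Function.Injective fun i => ((Fintype.equivFin C).symm i : Fin n) :=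
      Subtype.val_injective.comp (Equiv.injective _)
    have := good_of_comap (by linarith) _ e2 (e.2 _ (by
      rw [← Nat.card_eq_fintype_card, Nat.card_coe_set_eq]; omega) _ e2 (e1.symm ▸ h1))
    rwa [e1] at this
  · refine ⟨false, 2, fun n G => ⟨fun e => ⟨by simp, fun k _ l _ hc => good_comap l hc e⟩,
      fun e => ?_⟩⟩
    rcases le_or_gt 1 p with h' | h'
    · exact ⟨PS.coin 0 le_rfl zero_le_one, fun _ _ => True, fun _ v _ => Or.inl trivial,
        fun _ => (PS.P_all _ fun _ => trivial).trans_le h'⟩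
    · refine (good_half fun v => by_contra fun k => ?_).le h
      obtain ⟨S, D, h1, h2⟩ := e.2 1 (by norm_num) (fun _ => v) (fun a b _ => Subsingleton.elim a b)
        (by rintro _ ⟨_, rfl⟩ t ht; exact absurd ⟨t, ht⟩ k)
      have := h2 0
      rw [S.P_all fun i => (h1 i 0 (Set.notMem_empty _)).resolve_right
        fun ⟨t, ht, _⟩ => k ⟨v, ht⟩] at this
      linarith

/-- A matrix written row by row. -/
def mat (k n : ℕ) (f : ℕ → ℕ → Bool) : List Bool :=
  (List.range k).flatMap fun a => (List.range n).map (f a)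

theorem length_mat (k n : ℕ) (f : ℕ → ℕ → Bool) : (mat k n f).length = k * n := by
  induction k with
  | zero => simp [mat]
  | succ k ih =>
    simp only [mat] at ih
    simp [mat, List.range_succ, List.flatMap_append, ih, Nat.succ_mul]

theorem getD_mat (k n : ℕ) (f : ℕ → ℕ → Bool) {a b : ℕ} (ha : a < k) (hb : b < n) :
    (mat k n f).getD (a * n + b) false = f a b := by
  induction k with
  | zero => omega
  | succ k ih =>
    have e : mat (k + 1) n f = mat k n f ++ (List.range n).map (f k) := by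
      simp [mat, List.range_succ, List.flatMap_append]
    rw [e]
    by_cases h : a < k
    · rw [List.getD_append _ _ _ _ (by rw [length_mat]; nlinarith), ih h]
    · obtain rfl : a = k := by omega
      rw [List.getD_append_right _ _ _ _ (by rw [length_mat]; omega), length_mat]
      simp [hb]

theorem eq_mat {x : List Bool} {n : ℕ} (h : n * n = x.length) :
    x = mat n n (fun a b => x.getD (a * n + b) false) := by
  refine List.ext_getElem (by rw [length_mat, h]) (fun i hi hi' => ?_)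
  have hn : 0 < n := by
    rcases Nat.eq_zero_or_pos n with rfl | hn
    · omega
    · exact hn
  have e : i / n * n + i % n = i := Nat.div_add_mod' i n
  have := getD_mat n n (fun a b => x.getD (a * n + b) false)
    (a := i / n) (b := i % n) (Nat.div_lt_of_lt_mul (by omega)) (Nat.mod_lt _ hn)
  rw [e, List.getD_eq_getElem _ _ hi', List.getD_eq_getElem _ _ hi] at this
  exact this.symm

/-- All lists of length `k` of numbers below `n`. -/
def tuples : ℕ → ℕ → List (List ℕ)
  | 0, _ => [[]]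
  | k + 1, n => (tuples k n).flatMap fun l => (List.range n).map fun a => a :: l

theorem mem_tuples {k n : ℕ} {l : List ℕ} : l ∈ tuples k n ↔ l.length = k ∧ ∀ a ∈ l, a < n := by
  induction k generalizing l with
  | zero => simp only [tuples, List.mem_singleton, List.length_eq_zero_iff]; grind
  | succ k ih =>
    simp only [tuples, List.mem_flatMap, List.mem_map, List.mem_range, ih]
    constructor
    · rintro ⟨m, ⟨h1, h2⟩, a, ha, rfl⟩
      exact ⟨by simp [h1], by simpa using ⟨ha, h2⟩⟩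
    · rintro ⟨h1, h2⟩
      cases l with
      | nil => simp at h1
      | cons a m =>
        simp only [List.mem_cons, forall_eq_or_imp] at h2
        exact ⟨m, ⟨by simpa using h1, h2.2⟩, a, h2.1, rfl⟩

theorem pt_tuples {α : Type} [Enc α] (k : ℕ) {n : α → ℕ} (hn : PT n) :
    PT (fun a => tuples k (n a)) := by
  induction k with
  | zero => exact PT.const _
  | succ k ih => unfold tuples; fun_prop

open Classical in
/-- The adjacency matrix, row by row. -/
noncomputable def bits {n : ℕ} (G : SimpleGraph (Fin n)) : List Bool :=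
  (List.finRange n).flatMap fun a => (List.finRange n).map fun b => decide (G.Adj a b)

theorem bits_mat {n : ℕ} (G : SimpleGraph (Fin n)) (f : ℕ → ℕ → Bool)
    (h : ∀ a b, G.Adj a b ↔ f a.val b.val = true) : bits G = mat n n f := by
  unfold bits mat
  rw [← List.map_coe_finRange_eq_range, List.flatMap_map]
  simp only [List.map_map, h]
  congr 1
  funext a
  congr 1
  funext b
  simp

/-- The test for one tuple. -/
def tup (Q : (k : ℕ) → SimpleGraph (Fin k) → Prop) (k : ℕ) (x : List Bool) (n : ℕ)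
    (l : List ℕ) : Prop :=
  (∀ s < k, ∀ t < k, l.getD s 0 = l.getD t 0 → s = t) →
    (∀ s < k, ∀ a < n, x.getD (l.getD s 0 * n + a) false = true → ∃ t < k, l.getD t 0 = a) →
    Q k (SimpleGraph.fromRel fun s t => x.getD (l.getD s 0 * n + l.getD t 0) false = true)

/-- The test made by the algorithm. -/
def check (b : Bool) (N : ℕ) (Q : (k : ℕ) → SimpleGraph (Fin k) → Prop) (x : List Bool)
    (n : ℕ) : Prop :=
  n * n = x.length ∧ (∀ a < n, ∀ c < n, x.getD (a * n + c) false = x.getD (c * n + a) false) ∧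
  (∀ a < n, x.getD (a * n + a) false = false) ∧
  (b = true → ∀ v < n, ∃ a < n, ∃ c < n, a ≠ c ∧ x.getD (v * n + a) false = true ∧
    x.getD (v * n + c) false = true) ∧ ∀ k < N, ∀ l ∈ tuples k n, tup Q k x n l

open Classical in
theorem pt_check (b : Bool) (N : ℕ) (Q : (k : ℕ) → SimpleGraph (Fin k) → Prop) :
    PT (fun x : List Bool => decide (∃ n < x.length + 1, check b N Q x n)) := by
  refine PT.exists_lt (by fun_prop) ?_
  unfold check
  refine PT.decide_and (by fun_prop) (PT.decide_and ?_ (PT.decide_and ?_ (PT.decide_and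
    (PT.decide_imp (PT.const _) ?_) ?_)))
  · exact PT.forall_lt (by fun_prop) (PT.forall_lt (by fun_prop) (by fun_prop))
  · exact PT.forall_lt (by fun_prop) (by fun_prop)
  · exact PT.forall_lt (by fun_prop) (PT.exists_lt (by fun_prop) (PT.exists_lt (by fun_prop)
      (by fun_prop)))
  · refine (PT.all_const (List.range N) (g := fun (q : List Bool × ℕ) k =>
      (tuples k q.2).all fun l => decide (tup Q k q.1 q.2 l)) fun k =>
        PT.all (pt_tuples k PT.id.snd) ?_).congr fun q => by rw [Bool.eq_iff_iff]; simp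
    unfold tup
    refine PT.decide_imp ?_ (PT.decide_imp ?_ ?_)
    · exact PT.forall_lt (by fun_prop) (PT.forall_lt (by fun_prop)
        (PT.decide_imp (by fun_prop) (by fun_prop)))
    · exact PT.forall_lt (by fun_prop) (PT.forall_lt (by fun_prop)
        (PT.decide_imp (by fun_prop) (PT.exists_lt (by fun_prop) (by fun_prop))))
    · have h : FPT (fun (q : (List Bool × ℕ) × List ℕ) (s t : Fin k) =>
          q.1.1.getD (q.2.getD s 0 * q.1.2 + q.2.getD t 0) false) :=
        FPT.pi fun s => FPT.pi fun t => FPT.of_bool (by fun_prop)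
      exact h.cases (fun u _ => decide (Q k (SimpleGraph.fromRel fun s t => u s t = true)))
        fun _ => PT.const _

theorem loc_iff (b : Bool) (N : ℕ) (Q : (k : ℕ) → SimpleGraph (Fin k) → Prop) {n : ℕ}
    (G : SimpleGraph (Fin n)) (x : List Bool)
    (h : ∀ a c, G.Adj a c ↔ x.getD (a.val * n + c.val) false = true) : Loc b N Q G ↔
    (b = true → ∀ v < n, ∃ a < n, ∃ c < n, a ≠ c ∧ x.getD (v * n + a) false = true ∧
      x.getD (v * n + c) false = true) ∧ ∀ k < N, ∀ l ∈ tuples k n, tup Q k x n l := by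
  refine and_congr (imp_congr_right fun _ => ⟨fun H v hv => ?_, fun H v _ => ?_⟩)
    (forall₂_congr fun k _ => ?_)
  · obtain ⟨a, c, h1, h2, h3⟩ := H ⟨v, hv⟩ (Set.notMem_empty _)
    exact ⟨a, a.2, c, c.2, fun e => h1 (Fin.ext e), (h _ _).1 h2, (h _ _).1 h3⟩
  · obtain ⟨a, ha, c, hc, h1, h2, h3⟩ := H v v.2
    exact ⟨⟨a, ha⟩, ⟨c, hc⟩, fun e => h1 (congrArg Fin.val e), (h _ _).2 h2, (h _ _).2 h3⟩
  have key : ∀ (f : Fin k → Fin n) (l : List ℕ), (∀ s : Fin k, l.getD s 0 = f s) →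
      ((Function.Injective f → Closed G (Set.range f) → Q k (G.comap f)) ↔ tup Q k x n l) := by
    intro f l e
    have e1 : (SimpleGraph.fromRel fun s t : Fin k =>
        x.getD (l.getD s 0 * n + l.getD t 0) false = true) = G.comap f := by
      ext s t
      simp only [e, ← h, SimpleGraph.fromRel_adj, SimpleGraph.comap_adj]
      exact ⟨fun k => k.2.elim id fun k => k.symm, fun k => ⟨fun e => k.ne (e ▸ rfl), Or.inl k⟩⟩
    unfold tup
    rw [e1]
    refine imp_congr ⟨fun H s hs t ht k => ?_, fun H s t k => ?_⟩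
      (imp_congr_left ⟨fun H s hs a ha k => ?_, ?_⟩)
    · rw [e ⟨s, hs⟩, e ⟨t, ht⟩] at k
      exact congrArg Fin.val (H (Fin.ext k))
    · exact Fin.ext (H s s.2 t t.2 (by rw [e, e, k]))
    · rw [e ⟨s, hs⟩] at k
      obtain ⟨t, ht⟩ := H _ ⟨⟨s, hs⟩, rfl⟩ ⟨a, ha⟩ ((h _ _).2 k)
      exact ⟨t, t.2, by rw [e, ht]⟩
    · rintro H _ ⟨s, rfl⟩ a k
      obtain ⟨t, ht, k'⟩ := H s s.2 a a.2 (by rw [e]; exact (h _ _).1 k)
      exact ⟨⟨t, ht⟩, Fin.ext (by rw [← e]; exact k')⟩
  refine ⟨fun H l hl => ?_, fun H f => ?_⟩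
  · obtain ⟨hlen, hlt⟩ := mem_tuples.1 hl
    have hb : ∀ s : Fin k, l.getD s 0 < n := fun s => by
      rw [List.getD_eq_getElem _ _ (by rw [hlen]; exact s.2)]
      exact hlt _ (List.getElem_mem _)
    exact (key (fun s => ⟨l.getD s 0, hb s⟩) l fun _ => rfl).1 (H _)
  · refine (key f (List.ofFn fun i => (f i).val) fun s => ?_).2 (H _ (mem_tuples.2 ⟨by simp, ?_⟩))
    · rw [List.getD_eq_getElem _ _ (by rw [List.length_ofFn]; exact s.2), List.getElem_ofFn]
    · intro a ha
      obtain ⟨i, rfl⟩ := List.mem_ofFn.1 ha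
      exact (f i).2

open Classical in
theorem pt_loc (b : Bool) (N : ℕ) (Q : (k : ℕ) → SimpleGraph (Fin k) → Prop) :
    PT (fun x : List Bool =>
      decide (∃ (n : ℕ) (G : SimpleGraph (Fin n)), x = bits G ∧ Loc b N Q G)) := by
  refine (pt_check b N Q).congr fun x => decide_eq_decide.2 ⟨?_, ?_⟩
  · rintro ⟨n, -, hlen, hsym, hirr, H⟩
    let G : SimpleGraph (Fin n) :=
      { Adj := fun a c => x.getD (a.val * n + c.val) false = true
        symm := ⟨fun a c h => by rw [← hsym _ a.2 _ c.2]; exact h⟩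
        loopless := ⟨fun a h => by rw [hirr _ a.2] at h; cases h⟩ }
    refine ⟨n, G, ?_, (loc_iff b N Q G x fun _ _ => Iff.rfl).2 H⟩
    rw [bits_mat G (fun a c => x.getD (a * n + c) false) (fun a c => Iff.rfl)]
    exact eq_mat hlen
  · rintro ⟨n, G, rfl, H⟩
    let P : ℕ → ℕ → Prop := fun a c => ∃ (ha : a < n) (hc : c < n), G.Adj ⟨a, ha⟩ ⟨c, hc⟩
    have hP : ∀ a c, G.Adj a c ↔ P a.val c.val := fun a c => by simp [P]
    have hx : bits G = mat n n (fun a c => decide (P a c)) :=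
      bits_mat G _ (fun a c => by rw [decide_eq_true_eq, hP])
    have hg : ∀ a < n, ∀ c < n, (bits G).getD (a * n + c) false = decide (P a c) :=
      fun a ha c hc => by rw [hx, getD_mat n n _ ha hc]
    have hlen : (bits G).length = n * n := by rw [hx, length_mat]
    refine ⟨n, by rw [hlen]; nlinarith, hlen.symm, fun a ha c hc => ?_, fun a ha => ?_,
      (loc_iff b N Q G _ fun a c => ?_).1 H⟩
    · rw [hg a ha c hc, hg c hc a ha]
      simp [P, ha, hc, G.adj_comm]
    · rw [hg a ha a ha]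
      simp [P]
    · rw [hg _ a.2 _ c.2, decide_eq_true_eq, hP]

open Classical in
/-- For `p > 2/5` the existence of a random dominating set with marginals at most `p` is decidable
in polynomial time. -/
theorem pt_good {p : ℝ} (hp : 2 / 5 < p) : PT (fun x : List Bool =>
    decide (∃ (n : ℕ) (G : SimpleGraph (Fin n)), x = bits G ∧ Good p G ∅)) := by
  obtain ⟨b, N, h⟩ := good_iff hp
  exact (pt_loc b N fun _ H => Good p H ∅).congr fun x => decide_eq_decide.2
    (exists₂_congr fun n G => and_congr_right fun _ => (h n G).symm)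

theorem good_iff_weights {V : Type} [Fintype V] [DecidableEq V] (G : SimpleGraph V) (p : ℝ) :
    Good p G ∅ ↔ ∃ μ : (V → Bool) → ℝ, (∀ x, 0 ≤ μ x) ∧ ∑ x, μ x = 1 ∧
      (∀ x, μ x ≠ 0 → ∀ v, x v = true ∨ ∃ u, G.Adj v u ∧ x u = true) ∧
      ∀ v, ∑ x, μ x * (if x v = true then 1 else 0) ≤ p := by
  classical
  constructor
  · rintro ⟨S, D, h1, h2⟩
    have key : ∀ E : (V → Bool) → Prop, ∑ x, S.P (fun i => (fun v => decide (D i v)) = x) *
        (if E x then 1 else 0) = S.P fun i => E fun v => decide (D i v) := fun E => by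
      unfold PS.P
      simp only [sum_mul]
      rw [sum_comm]
      refine sum_congr rfl fun i _ => ?_
      rw [sum_eq_single (fun v => decide (D i v)) (fun x _ hx => by simp [hx.symm]) (by simp)]
      simp
    refine ⟨fun x => S.P fun i => (fun v => decide (D i v)) = x, fun x => S.P_nonneg _, ?_,
      fun x hx v => ?_, fun v => ?_⟩
    · simpa [S.P_all fun _ => trivial] using key fun _ => True
    · obtain ⟨i, rfl⟩ : ∃ i, (fun v => decide (D i v)) = x :=
        by_contra fun e => hx (S.P_none fun i h => e ⟨i, h⟩)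
      simpa using h1 i v (Set.notMem_empty _)
    · have := key fun x => x v = true
      simp only [decide_eq_true_eq] at this
      convert this.trans_le (h2 v)
  · rintro ⟨μ, h1, h2, h3, h4⟩
    refine ⟨⟨V → Bool, inferInstance, μ, h1, h2⟩, fun x v => μ x = 0 ∨ x v = true,
      fun x v _ => ?_, fun v => le_trans (le_of_eq (sum_congr rfl fun x _ => ?_)) (h4 v)⟩
    · by_cases e : μ x = 0
      · exact Or.inl (Or.inl e)
      · exact (h3 x e v).imp Or.inr fun ⟨u, k, k'⟩ => ⟨u, k, Or.inr k'⟩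
    · by_cases e : μ x = 0 <;> simp [e]

end Pool.Agent.MP_9e68e9_lc.Low

end

section

/-! Graphs with free vertices, private cliques, universal vertices, and the numeric form of the
reductions. -/

namespace Pool.Agent.MP_9e68e9_lc

open Finset Pool.Agent.MP_2e8011_lc

section abstract

variable {V V' : Type} [Fintype V] [DecidableEq V] [Fintype V'] [DecidableEq V'] {p : ℝ}

/-- Feasibility when only the vertices in `need` have to be dominated. -/
def FeasF (H : SimpleGraph V) (need : V → Prop) (p : ℝ) : Prop :=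
  ∃ μ : (V → Bool) → ℝ, IsProb μ ∧
    (∀ y, μ y ≠ 0 → ∀ v, need v → y v = true ∨ ∃ u, H.Adj v u ∧ y u = true) ∧
    ∀ v, Ex μ (fun y => ind (y v)) ≤ p

theorem feasF_of_model {H : SimpleGraph V} {need : V → Prop} {Ω : Type} [Fintype Ω] {P : Ω → ℝ}
    (hP : IsProb P) (Y : Ω → V → Bool)
    (h1 : ∀ ω, P ω ≠ 0 → ∀ v, need v → Y ω v = true ∨ ∃ u, H.Adj v u ∧ Y ω u = true)
    (h2 : ∀ v, Ex P (fun ω => ind (Y ω v)) ≤ p) : FeasF H need p :=
  ⟨law P Y, hP.law _, fun y hy => by
    obtain ⟨ω, h3, rfl⟩ := exists_of_law_ne_zero hy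
    exact h1 ω h3, fun v => by rw [Ex_law]; exact h2 v⟩

theorem feas_iff_feasF {H : SimpleGraph V} : Feas H p ↔ FeasF H (fun _ => True) p :=
  ⟨fun ⟨μ, h1, h2, h3, h4⟩ => ⟨μ, ⟨h1, h2⟩, fun y hy v _ => h3 y hy v, h4⟩,
    fun ⟨μ, h1, h3, h4⟩ => ⟨μ, h1.1, h1.2, fun y hy v => h3 y hy v trivial, h4⟩⟩

theorem FeasF.of_map {H : SimpleGraph V} {need : V → Prop} {H' : SimpleGraph V'}
    {need' : V' → Prop} (h : FeasF H need p) (f : V' → V) (h1 : ∀ v, need' v → need (f v))
    (h2 : ∀ v u, need' v → H.Adj (f v) u → ∃ u', H'.Adj v u' ∧ f u' = u) : FeasF H' need' p := by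
  obtain ⟨μ, k1, k2, k3⟩ := h
  refine feasF_of_model k1 (fun y v => y (f v)) (fun y hy v hv => ?_) fun v => k3 _
  rcases k2 y hy _ (h1 v hv) with h | ⟨u, h, h'⟩
  · exact Or.inl h
  · obtain ⟨u', h3, rfl⟩ := h2 v u hv h
    exact Or.inr ⟨u', h3, h'⟩

theorem feasF_congr {H : SimpleGraph V} {need : V → Prop} {H' : SimpleGraph V'}
    {need' : V' → Prop} (e : V ≃ V') (h1 : ∀ v, need v ↔ need' (e v))
    (h2 : ∀ u v, H.Adj u v ↔ H'.Adj (e u) (e v)) : FeasF H need p ↔ FeasF H' need' p :=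
  ⟨fun h => h.of_map e.symm (fun v hv => (h1 _).2 (by simpa using hv))
      fun v u _ h => ⟨e u, by simpa using (h2 _ _).1 h, by simp⟩,
    fun h => h.of_map e (fun v hv => (h1 _).1 hv)
      fun v u _ h => ⟨e.symm u, (h2 _ _).2 (by simpa using h), by simp⟩⟩

theorem ext_empty (Γ : Gad Empty) : Γ.Ext p (fun _ => 1) ↔ FeasF Γ.H Γ.need p := by
  constructor
  · rintro ⟨κ, h1, h2, h3⟩
    refine ⟨κ default, h1 _, fun y hy v hv => ?_, fun v => ?_⟩
    · rcases h2 default y one_ne_zero hy v hv with h | h | ⟨s, -⟩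
      · exact Or.inl h
      · exact Or.inr h
      · exact s.elim
    · have := h3 v
      rw [Ex, Fintype.sum_unique, one_mul] at this
      exact le_of_eq_of_le (congrArg (fun x => Ex (κ x) fun y => ind (y v))
        (Subsingleton.elim _ _)) this
  · rintro ⟨μ, h1, h2, h3⟩
    refine ⟨fun _ => μ, fun _ => h1, fun x y _ hy v hv => ?_, fun v => ?_⟩
    · rcases h2 y hy v hv with h | h
      · exact Or.inl h
      · exact Or.inr (Or.inl h)
    · rw [Ex, Fintype.sum_unique, one_mul]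
      exact h3 v

theorem bal_empty : Bal p (fun _ : Empty → Bool => (1 : ℝ)) :=
  ⟨⟨fun _ => zero_le_one, by simp⟩, fun s => s.elim⟩

theorem eq_one_of_isProb {μ : (Empty → Bool) → ℝ} (h : IsProb μ) : μ = fun _ => 1 := by
  funext x
  rw [← h.2, Fintype.sum_unique]
  exact congrArg μ (Subsingleton.elim _ _)

theorem feasF_clique {M : ℕ} (hM : 0 < M) (hp : 1 / (M : ℝ) ≤ p) {H : SimpleGraph V}
    {need : V → Prop} {H' : SimpleGraph (V × Fin (M + 1))}
    (h : ∀ x y, H'.Adj x y ↔ (x.2 = 0 ∧ y.2 = 0 ∧ H.Adj x.1 y.1) ∨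
      (x.1 = y.1 ∧ x.2 ≠ y.2 ∧ ((x.2 ≠ 0 ∧ y.2 ≠ 0) ∨ ¬ need x.1))) :
    FeasF H' (fun _ => True) p ↔ FeasF H need p := by
  constructor
  · intro k
    refine k.of_map (fun v => (v, 0)) (fun _ _ => trivial) ?_
    rintro v ⟨u, a⟩ hv hu
    rcases (h _ _).1 hu with ⟨-, h1, h2⟩ | ⟨-, -, h1 | h1⟩
    · exact ⟨u, h2, Prod.ext rfl h1.symm⟩
    · exact absurd rfl h1.1
    · exact absurd hv h1
  · rintro ⟨μ, k1, k2, k3⟩
    have hM' : (0 : ℝ) < M := by exact_mod_cast hM
    have hu : IsProb fun _ : Fin M => 1 / (M : ℝ) := ⟨fun _ => by positivity, by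
      simp only [sum_const, card_univ, Fintype.card_fin, nsmul_eq_mul]
      field_simp⟩
    have hP : IsProb fun z : (V → Bool) × Fin M => μ z.1 * (1 / (M : ℝ)) :=
      ⟨fun z => mul_nonneg (k1.1 _) (by positivity), by
        rw [← Ex_one, Ex_kernel μ fun _ _ => 1 / (M : ℝ)]
        simp only [hu.Ex_const, k1.Ex_const]⟩
    refine feasF_of_model hP (fun z x => if x.2 = 0 then z.1 x.1 else decide (x.2 = z.2.succ))
      ?_ ?_
    · rintro ⟨y, r⟩ hz ⟨v, a⟩ -
      have hr := Fin.succ_ne_zero r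
      by_cases ha : a = 0
      · subst ha
        by_cases hv : need v
        · rcases k2 y (left_ne_zero_of_mul hz) v hv with h1 | ⟨u, h1, h2⟩
          · exact Or.inl (by simpa using h1)
          · exact Or.inr ⟨(u, 0), (h _ _).2 (Or.inl ⟨rfl, rfl, h1⟩), by simpa using h2⟩
        · exact Or.inr ⟨(v, r.succ), (h _ _).2 (Or.inr ⟨rfl, hr.symm, Or.inr hv⟩), by simp⟩
      · by_cases har : a = r.succ
        · exact Or.inl (by simp [har])
        · exact Or.inr ⟨(v, r.succ), (h _ _).2 (Or.inr ⟨rfl, har, Or.inl ⟨ha, hr⟩⟩), by simp⟩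
    · rintro ⟨v, a⟩
      rw [Ex_kernel μ fun _ _ => 1 / (M : ℝ)]
      by_cases ha : a = 0
      · simp only [ha, if_true, hu.Ex_const]
        exact k3 v
      · obtain ⟨r, rfl⟩ := Fin.exists_succ_eq.2 ha
        refine le_of_eq_of_le ((Ex_congr fun y => ?_).trans (k1.Ex_const _)) hp
        simp [Ex, ind]

theorem feasF_cone {n : ℕ} (hn : 0 < n) (hp : 0 < p) {H : SimpleGraph (Fin n)}
    {H' : SimpleGraph (Fin (n + 1))}
    (h0 : ∀ v : Fin n, H'.Adj v.succ 0) (h : ∀ u v : Fin n, H'.Adj u.succ v.succ ↔ H.Adj u v) :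
    FeasF H' (fun _ => True) (p / (1 + p)) ↔ FeasF H (fun _ => True) p := by
  have hq : p / (1 + p) * (1 + p) = p := div_mul_cancel₀ _ (by linarith)
  have hq0 : 0 < p / (1 + p) := by positivity
  have hq1 : p / (1 + p) < 1 := by rw [div_lt_one (by linarith)]; linarith
  set q := p / (1 + p)
  constructor
  · rintro ⟨μ, k1, k2, k3⟩
    set r := Ex μ (fun y => 1 - ind (y 0)) with hr
    have hr1 : 1 - q ≤ r := by
      rw [hr, Ex_sub, k1.Ex_const]
      linarith [k3 0]
    have hr0 : 0 < r := by linarith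
    have key : ∀ f, Ex (fun y => μ y * (1 - ind (y 0)) / r) f =
        Ex μ (fun y => (1 - ind (y 0)) * f y) / r := by
      intro f
      simp only [Ex, Finset.sum_div]
      exact Finset.sum_congr rfl fun y _ => by ring
    refine feasF_of_model (P := fun y => μ y * (1 - ind (y 0)) / r)
      ⟨fun y => div_nonneg (mul_nonneg (k1.1 y) (by linarith [ind_le_one (y 0)])) hr0.le, ?_⟩
      (fun y v => y v.succ) (fun y hy v _ => ?_) fun v => ?_
    · rw [← Ex_one, key]
      simp only [mul_one]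
      exact div_self hr0.ne'
    · have h1 : μ y ≠ 0 := fun e => hy (by simp [e])
      have h2 : y 0 = false := by
        by_contra e
        rw [Bool.not_eq_false] at e
        exact hy (by simp [e])
      rcases k2 y h1 v.succ trivial with h3 | ⟨u, h3, h4⟩
      · exact Or.inl h3
      · obtain ⟨u, rfl⟩ := Fin.exists_succ_eq.2 (show u ≠ 0 from fun e => by simp [e, h2] at h4)
        exact Or.inr ⟨u, (h _ _).1 h3, h4⟩
    · rw [key, div_le_iff₀ hr0]
      have := Ex_mono (f := fun y => (1 - ind (y 0)) * ind (y v.succ))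
        (g := fun y => ind (y v.succ)) k1.1 fun y => by cases y 0 <;> cases y v.succ <;> simp
      nlinarith [k3 v.succ]
  · rintro ⟨μ, k1, k2, k3⟩
    have hκ : IsProb fun b : Bool => cond b q (1 - q) :=
      ⟨by rintro (_ | _) <;> simp [hq0.le, hq1.le], by simp⟩
    have hP : IsProb fun z : (Fin n → Bool) × Bool => μ z.1 * cond z.2 q (1 - q) :=
      ⟨fun z => mul_nonneg (k1.1 _) (hκ.1 _), by
        rw [← Ex_one, Ex_kernel μ fun _ b => cond b q (1 - q)]
        simp only [hκ.Ex_const, k1.Ex_const]⟩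
    refine feasF_of_model hP (fun z => Fin.cons z.2 fun v => !z.2 && z.1 v) ?_ fun v => ?_
    · rintro ⟨y, b⟩ hz v -
      have hy := k2 y (left_ne_zero_of_mul hz)
      cases b
      · refine Fin.cases ?_ (fun v => ?_) v
        · rcases hy ⟨0, hn⟩ trivial with h1 | ⟨u, -, h1⟩
          · exact Or.inr ⟨_, (h0 ⟨0, hn⟩).symm, by rw [Fin.cons_succ]; simpa using h1⟩
          · exact Or.inr ⟨_, (h0 u).symm, by simpa using h1⟩
        · rcases hy v trivial with h1 | ⟨u, h1, h2⟩
          · exact Or.inl (by simpa using h1)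
          · exact Or.inr ⟨u.succ, (h _ _).2 h1, by simpa using h2⟩
      · refine Fin.cases (Or.inl rfl) (fun v => Or.inr ⟨0, h0 v, rfl⟩) v
    · rw [Ex_kernel μ fun _ b => cond b q (1 - q)]
      refine Fin.cases ?_ (fun v => ?_) v
      · simp only [Fin.cons_zero, k1.Ex_const]
        simp [Ex]
      · have : Ex μ (fun y => Ex (fun b => cond b q (1 - q)) fun b => ind (!b && y v)) =
            (1 - q) * Ex μ (fun y => ind (y v)) := by
          rw [← Ex_const_mul]
          exact Ex_congr fun y => by simp [Ex]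
        simp only [Fin.cons_succ]
        rw [this]
        nlinarith [k3 v]

end abstract

variable {p : ℝ}

/-- Satisfiability reduces to feasibility with free vertices. -/
def HardF (p : ℝ) : Prop :=
  ∃ (n : CNF → ℕ) (P : CNF × ℕ × ℕ → Bool) (N : CNF × ℕ → Bool), PT n ∧ PT P ∧ PT N ∧
    ∀ φ, 0 < n φ ∧ ∃ G : SimpleGraph (Fin (n φ)), (∀ a b, G.Adj a b ↔ P (φ, a, b) = true) ∧
      (Sat φ ↔ FeasF G (fun a => N (φ, a) = true) p)

/-- Satisfiability reduces to feasibility. -/
def Hard (p : ℝ) : Prop :=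
  ∃ (n : CNF → ℕ) (P : CNF × ℕ × ℕ → Bool), PT n ∧ PT P ∧
    ∀ φ, 0 < n φ ∧ ∃ G : SimpleGraph (Fin (n φ)), (∀ a b, G.Adj a b ↔ P (φ, a, b) = true) ∧
      (Sat φ ↔ FeasF G (fun _ => True) p)

theorem HardF.hard (hp : 0 < p) (h : HardF p) : Hard p := by
  obtain ⟨n, P, N, hn, hP, hN, h⟩ := h
  obtain ⟨M, hM⟩ := exists_nat_gt (1 / p)
  have hM0 : (0 : ℝ) < M := lt_trans (by positivity) hM
  have hMp : 1 / (M : ℝ) ≤ p := by
    rw [div_lt_iff₀ hp] at hM
    rw [div_le_iff₀ hM0]
    linarith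
  refine ⟨fun φ => n φ * (M + 1), fun z => decide ((z.2.1 % (M + 1) = 0 ∧ z.2.2 % (M + 1) = 0 ∧
      P (z.1, z.2.1 / (M + 1), z.2.2 / (M + 1)) = true) ∨ (z.2.1 / (M + 1) = z.2.2 / (M + 1) ∧
      z.2.1 % (M + 1) ≠ z.2.2 % (M + 1) ∧ ((z.2.1 % (M + 1) ≠ 0 ∧ z.2.2 % (M + 1) ≠ 0) ∨
      ¬ N (z.1, z.2.1 / (M + 1)) = true))), by fun_prop, by fun_prop, fun φ => ?_⟩
  obtain ⟨h0, G, h1, h2⟩ := h φ
  let H' : SimpleGraph (Fin (n φ) × Fin (M + 1)) :=
    { Adj := fun x y => (x.2 = 0 ∧ y.2 = 0 ∧ G.Adj x.1 y.1) ∨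
        (x.1 = y.1 ∧ x.2 ≠ y.2 ∧ ((x.2 ≠ 0 ∧ y.2 ≠ 0) ∨ ¬ N (φ, x.1) = true))
      symm := ⟨by
        rintro x y (⟨a, b, c⟩ | ⟨a, b, c⟩)
        · exact Or.inl ⟨b, a, c.symm⟩
        · exact Or.inr ⟨a.symm, b.symm, c.imp And.symm fun c => a ▸ c⟩⟩
      loopless := ⟨by
        rintro x (⟨-, -, c⟩ | ⟨-, b, -⟩)
        · exact c.ne rfl
        · exact b rfl⟩ }
  refine ⟨by positivity, H'.comap finProdFinEquiv.symm, fun a b => ?_, h2.trans ?_⟩
  · simp only [H', SimpleGraph.comap_adj, h1, decide_eq_true_eq, Fin.ext_iff, ne_eq]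
    rfl
  · rw [← feasF_clique (by exact_mod_cast hM0) hMp (H' := H') fun _ _ => Iff.rfl]
    exact feasF_congr finProdFinEquiv (fun _ => Iff.rfl) fun u v => by simp

theorem Hard.shift (hp : 0 < p) (h : Hard p) : Hard (p / (1 + p)) := by
  obtain ⟨n, P, hn, hP, h⟩ := h
  refine ⟨fun φ => n φ + 1, fun z => decide (z.2.1 ≠ z.2.2 ∧
    ((z.2.1 = 0 ∨ P (z.1, z.2.1 - 1, z.2.2 - 1) = true) ∨
      (z.2.2 = 0 ∨ P (z.1, z.2.2 - 1, z.2.1 - 1) = true))), by fun_prop, by fun_prop, fun φ => ?_⟩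
  obtain ⟨h0, G, h1, h2⟩ := h φ
  refine ⟨Nat.succ_pos _, SimpleGraph.fromRel fun a b => a.val = 0 ∨ P (φ, a - 1, b - 1) = true,
    fun a b => by simp only [SimpleGraph.fromRel_adj, decide_eq_true_eq, Fin.ext_iff, ne_eq],
    h2.trans (feasF_cone h0 hp (fun v => ?_) fun u v => ?_).symm⟩
  · simp [SimpleGraph.fromRel_adj]
  · simp only [SimpleGraph.fromRel_adj, Fin.val_succ, Nat.add_sub_cancel, ← h1, ne_eq,
      Fin.succ_inj, Nat.add_eq_zero_iff, one_ne_zero, and_false, false_or]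
    exact ⟨fun h => h.2.elim id fun h => h.symm, fun h => ⟨h.ne, Or.inl h⟩⟩

theorem adjBits_eq {n : ℕ} (G : SimpleGraph (Fin n)) (f : ℕ → ℕ → Bool)
    (h : ∀ a b, G.Adj a b ↔ f a.val b.val = true) : adjBits G = Low.mat n n f :=
  Low.bits_mat G f h

theorem adjBits_inj {n m : ℕ} {G : SimpleGraph (Fin n)} {G' : SimpleGraph (Fin m)}
    (h : adjBits G = adjBits G') : fdom G = fdom G' := by
  classical
  have key : ∀ {n : ℕ} (G : SimpleGraph (Fin n)), adjBits G = Low.mat n n fun a b =>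
      decide (∃ (ha : a < n) (hb : b < n), G.Adj ⟨a, ha⟩ ⟨b, hb⟩) :=
    fun G => adjBits_eq G _ fun a b => by simp
  rw [key, key] at h
  have e := congrArg List.length h
  rw [Low.length_mat, Low.length_mat] at e
  obtain rfl : n = m := Nat.mul_self_inj.1 e
  congr 1
  ext a b
  have := congrArg (fun l => l.getD (a.val * n + b.val) false) h
  simp only [Low.getD_mat _ _ _ a.2 b.2] at this
  simpa using this

theorem Hard.npHard {t : ℝ} (ht : 0 < t) (h : Hard (1 / t)) {L : List Bool → Bool}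
    (hL : L ∈ N68a2faeb.NP) : N793a5b8e.ManyOneReducible L (FD t) := by
  obtain ⟨n, P, hn, hP, h⟩ := h
  obtain ⟨f, hf, k⟩ := cookLevin hL
  refine ⟨fun x => Low.mat (n (f x)) (n (f x)) fun a b => P (f x, a, b), ?_, fun x => ?_⟩
  · refine PT.isPolyTime_bits ?_
    unfold Low.mat
    fun_prop
  · obtain ⟨-, G, h1, h2⟩ := h (f x)
    beta_reduce
    rw [← adjBits_eq G (fun a b => P (f x, a, b)) h1, Bool.eq_iff_iff, k, h2, ← feas_iff_feasF, ← le_fdom_iff ht]
    simp only [FD, decide_eq_true_eq]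
    exact ⟨fun h => ⟨_, G, rfl, h⟩, fun ⟨_, G', e, h⟩ => adjBits_inj e ▸ h⟩

theorem hardF_of_family (hp : p ≤ 1) {k : ℕ} (Γ : Gad (Fin k)) (m T : CNF → ℕ)
    (π : CNF × ℕ × ℕ → ℕ) (hm : PT m) (hT : PT T) (hπ : PT π) (hT0 : ∀ φ, 0 < T φ)
    (hlt : ∀ φ j s, π (φ, j, s) < T φ)
    (h : ∀ φ, Sat φ ↔ ∃ μ : (Fin (T φ) → Bool) → ℝ, Bal p μ ∧
      ∀ j < m φ, Γ.Ext p (law μ fun x s => x ⟨π (φ, j, s), hlt _ _ _⟩)) : HardF p := by
  classical
  let w := Fintype.card Γ.W
  let e : Γ.W ≃ Fin w := Fintype.equivFin _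
  let LA : List (ℕ × ℕ) := ((univ.filter fun z : Γ.W × Γ.W => Γ.H.Adj z.1 z.2).image
    fun z => ((e z.1).val, (e z.2).val)).toList
  let LB : List (ℕ × ℕ) := ((univ.filter fun z : Γ.W × Fin k => Γ.att z.1 z.2).image
    fun z => ((e z.1).val, z.2.val)).toList
  let LN : List ℕ := ((univ.filter Γ.need).image fun z => (e z).val).toList
  have hA : ∀ u v, ((e u).val, (e v).val) ∈ LA ↔ Γ.H.Adj u v := by
    intro u v
    simp [LA, ← Fin.ext_iff]
  have hB : ∀ u (s : Fin k), ((e u).val, s.val) ∈ LB ↔ Γ.att u s := by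
    intro u v
    simp [LB, ← Fin.ext_iff]
  have hN : ∀ u, (e u).val ∈ LN ↔ Γ.need u := by
    intro u
    simp [LN, ← Fin.ext_iff]
  refine ⟨fun φ => m φ * w + T φ, fun z => decide (
    (z.2.1 < m z.1 * w ∧ z.2.2 < m z.1 * w ∧ z.2.1 / w = z.2.2 / w ∧ (z.2.1 % w, z.2.2 % w) ∈ LA) ∨
    (z.2.1 < m z.1 * w ∧ ∃ s < k, z.2.2 = m z.1 * w + π (z.1, z.2.1 / w, s) ∧ (z.2.1 % w, s) ∈ LB) ∨
    (z.2.2 < m z.1 * w ∧ ∃ s < k, z.2.1 = m z.1 * w + π (z.1, z.2.2 / w, s) ∧ (z.2.2 % w, s) ∈ LB)),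
    fun z => decide (z.2 < m z.1 * w ∧ z.2 % w ∈ LN), by fun_prop, by fun_prop, by fun_prop,
    fun φ => ?_⟩
  let π' : Fin (m φ) → Fin k → Empty ⊕ Fin (T φ) := fun j s => .inr ⟨π (φ, j, s), hlt _ _ _⟩
  let Δ : Gad (Empty ⊕ Fin (T φ)) := Gad.glue fun j => Γ.push (π' j)
  let E : Δ.hide.W ≃ Fin (m φ * w + T φ) :=
    (Equiv.sumCongr ((Equiv.sigmaEquivProd _ _).trans ((Equiv.prodCongr (Equiv.refl _) e).trans
      finProdFinEquiv)) (Equiv.refl _)).trans finSumFinEquiv
  have E1 : ∀ j u, (E (.inl ⟨j, u⟩)).val = e u + w * j := fun j u => rfl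
  have E2 : ∀ t, (E (.inr t)).val = m φ * w + t := fun t => rfl
  have E3 : ∀ j u, (E (.inl ⟨j, u⟩)).val < m φ * w ∧ (E (.inl ⟨j, u⟩)).val / w = j ∧
      (E (.inl ⟨j, u⟩)).val % w = e u := by
    intro j u
    have h1 := (e u).2
    refine ⟨(finProdFinEquiv (j, e u)).2, ?_, ?_⟩
    · rw [E1, Nat.add_mul_div_left _ _ (by omega), Nat.div_eq_of_lt h1, zero_add]
    · rw [E1, Nat.add_mul_mod_self_left, Nat.mod_eq_of_lt h1]
  have hatt : ∀ j u t, Δ.att ⟨j, u⟩ (.inr t) ↔
      ∃ s < k, m φ * w + t = m φ * w + π (φ, j, s) ∧ ((e u).val, s) ∈ LB := by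
    intro j u t
    constructor
    · rintro ⟨s, h1, h2⟩
      exact ⟨s, s.2, by rw [← Sum.inr.inj h1], (hB _ _).2 h2⟩
    · rintro ⟨s, hs, h1, h2⟩
      exact ⟨⟨s, hs⟩, congrArg Sum.inr (Fin.ext (by simp only; omega)), (hB _ ⟨s, hs⟩).1 h2⟩
  refine ⟨Nat.add_pos_right _ (hT0 φ), Δ.hide.H.comap E.symm, fun a b => ?_, (h φ).trans ?_⟩
  · obtain ⟨a, rfl⟩ := E.surjective a
    obtain ⟨b, rfl⟩ := E.surjective b
    simp only [SimpleGraph.comap_adj, Equiv.symm_apply_apply, decide_eq_true_eq]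
    rcases a with ⟨j, u⟩ | t <;> rcases b with ⟨j', u'⟩ | t'
    · obtain ⟨a1, a2, a3⟩ := E3 j u
      obtain ⟨b1, b2, b3⟩ := E3 j' u'
      rw [a2, a3, b2, b3, hA]
      constructor
      · rintro ⟨i, v, v', h1, h2, h3⟩
        obtain ⟨rfl, h4⟩ := Sigma.mk.inj h1
        obtain ⟨rfl, h5⟩ := Sigma.mk.inj h2
        obtain rfl := eq_of_heq h4
        obtain rfl := eq_of_heq h5
        exact Or.inl ⟨a1, b1, rfl, h3⟩
      · rintro (⟨-, -, h1, h2⟩ | ⟨-, s, -, h1, -⟩ | ⟨-, s, -, h1, -⟩)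
        · obtain rfl := Fin.ext h1
          exact ⟨j, u, u', rfl, rfl, h2⟩
        · omega
        · omega
    · obtain ⟨a1, a2, a3⟩ := E3 j u
      rw [a2, a3, E2]
      refine (hatt j u t').trans ⟨fun h => Or.inr (Or.inl ⟨a1, h⟩), ?_⟩
      rintro (⟨-, h1, -⟩ | ⟨-, h1⟩ | ⟨h1, -⟩)
      · omega
      · exact h1
      · omega
    · obtain ⟨a1, a2, a3⟩ := E3 j' u'
      rw [a2, a3, E2]
      refine (hatt j' u' t).trans ⟨fun h => Or.inr (Or.inr ⟨a1, h⟩), ?_⟩
      rintro (⟨h1, -⟩ | ⟨h1, -⟩ | ⟨-, h1⟩)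
      · omega
      · omega
      · exact h1
    · rw [E2, E2]
      refine ⟨fun h => h.elim, ?_⟩
      rintro (⟨h1, -⟩ | ⟨h1, -⟩ | ⟨h1, -⟩) <;> omega
  · rw [← feasF_congr (H := Δ.hide.H) (need := Δ.hide.need) E ?_ (fun u v => by simp), ← ext_empty,
      Gad.ext_hide_bal _ hp bal_empty]
    · constructor
      · rintro ⟨μ, h1, h2⟩
        have hb : Bal p (law μ fun x (s : Empty ⊕ Fin (T φ)) => x (Sum.elim Empty.elim id s)) :=
          h1.pull _
        refine ⟨_, hb, eq_one_of_isProb (hb.1.law _), (Gad.ext_glue _ hb.1.1).2 fun j =>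
          (Gad.ext_push _ _ hb.1.1).2 ?_⟩
        rw [law_law]
        exact h2 j j.2
      · rintro ⟨μ, h1, -, h2⟩
        refine ⟨_, h1.pull Sum.inr, fun j hj => ?_⟩
        rw [law_law]
        exact (Gad.ext_push _ _ h1.1.1).1 ((Gad.ext_glue _ h1.1.1).1 h2 ⟨j, hj⟩)
    · rintro (⟨j, u⟩ | t)
      · obtain ⟨a1, -, a3⟩ := E3 j u
        simp only [decide_eq_true_eq, a1, a3, hN, true_and]
        rfl
      · simp only [decide_eq_true_eq, E2]
        exact ⟨fun h => h.elim, fun h => by omega⟩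

end Pool.Agent.MP_9e68e9_lc

end

section

/-! Amplification: a gap between closeness and distance gives arbitrarily fine closeness. -/

namespace Pool.Agent.MP_9e68e9_lc

open Finset

variable {k : ℕ}

/-- Hamming distance as a real number. -/
def hd (y y' : Fin k → Bool) : ℝ := ∑ i, ind (y i != y' i)

/-- The antipode. -/
def ng (y : Fin k → Bool) : Fin k → Bool := fun i => !y i

theorem ind_sq (b : Bool) : ind b ^ 2 = ind b := by cases b <;> simp

theorem hd_ng_ng (y y' : Fin k → Bool) : hd (ng y) (ng y') = hd y y' :=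
  Finset.sum_congr rfl fun i _ => by unfold ng; cases y i <;> cases y' i <;> rfl

theorem hd_ng_right (y y' : Fin k → Bool) : hd y (ng y') = k - hd y y' := by
  have : ∑ _i : Fin k, (1 : ℝ) = k := by simp
  rw [← this, hd, hd, ← Finset.sum_sub_distrib]
  exact Finset.sum_congr rfl fun i _ => by unfold ng; cases y i <;> cases y' i <;> simp

theorem hd_ng_left (y y' : Fin k → Bool) : hd (ng y) y' = k - hd y y' := by
  have : ∑ _i : Fin k, (1 : ℝ) = k := by simp
  rw [← this, hd, hd, ← Finset.sum_sub_distrib]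
  exact Finset.sum_congr rfl fun i _ => by unfold ng; cases y i <;> cases y' i <;> simp

theorem hd_self (y : Fin k → Bool) : hd y y = 0 := by simp [hd]

theorem hd_comm (y y' : Fin k → Bool) : hd y y' = hd y' y :=
  Finset.sum_congr rfl fun i _ => by cases y i <;> cases y' i <;> rfl

theorem hd_triangle (x y z : Fin k → Bool) : hd x z ≤ hd x y + hd y z := by
  rw [hd, hd, hd, ← Finset.sum_add_distrib]
  exact Finset.sum_le_sum fun i _ => by cases x i <;> cases y i <;> cases z i <;> simp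

theorem hd_update (y : Fin k → Bool) (i : Fin k) : hd y (Function.update y i (!y i)) = 1 := by
  rw [hd, Finset.sum_eq_single i]
  · simp only [Function.update_self]
    cases y i <;> rfl
  · intro j _ hj
    simp [Function.update_of_ne hj]
  · simp

theorem cube_model {p c : ℝ} (hk : 0 < k) (h0 : 0 ≤ c) (h1 : c ≤ p) (h2 : p + c ≤ 1) {V : Type}
    [Fintype V] [DecidableEq V] (pos : V → Fin k → Bool) :
    ∃ μ : (V → Bool) → ℝ, Bal p μ ∧ ∀ u v, KK μ u v = p - c / k * hd (pos u) (pos v) := by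
  have hk' : (0 : ℝ) < k := by exact_mod_cast hk
  let P : (Fin k × Bool) ⊕ Bool → ℝ := Sum.elim (fun _ => c / k) fun b => cond b (p - c) (1 - p - c)
  let X : (Fin k × Bool) ⊕ Bool → V → Bool := fun ω v =>
    Sum.elim (fun q : Fin k × Bool => pos v q.1 == q.2) id ω
  have hP : IsProb P := by
    refine ⟨?_, ?_⟩
    · rintro (_ | _ | _)
      · exact div_nonneg h0 hk'.le
      · change 0 ≤ 1 - p - c; linarith
      · change 0 ≤ p - c; linarith
    · simp [P, Fintype.sum_sum_type]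
      field_simp
      ring
  have key : ∀ u v, Ex P (fun ω => ind (X ω u) * ind (X ω v)) =
      p - c / k * hd (pos u) (pos v) := by
    intro u v
    have e : ∀ i, ∑ σ : Bool, c / k * (ind (pos u i == σ) * ind (pos v i == σ)) =
        c / k - c / k * ind (pos u i != pos v i) := by
      intro i
      cases pos u i <;> cases pos v i <;> simp
    simp only [Ex, P, X, Fintype.sum_sum_type, Fintype.sum_prod_type, Sum.elim_inl, Sum.elim_inr, e]
    simp only [Finset.sum_sub_distrib, ← Finset.mul_sum, hd]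
    simp
    field_simp
    ring
  refine ⟨law P X, bal_law hP X fun s => ?_, fun u v => by rw [KK, Ex_law, key]⟩
  have := key s s
  rw [hd_self] at this
  rw [← sub_zero p, ← mul_zero (c / k), ← this]
  exact Ex_congr fun ω => by cases X ω s <;> simp

theorem le_of_dev {x b δ D : ℝ} (hδ : 0 < δ) (h1 : b - 1 ≤ x) (h : D ^ 2 ≤ δ ^ 2 → b ≤ x) :
    b - D ^ 2 / δ ^ 2 ≤ x := by
  by_cases e : D ^ 2 ≤ δ ^ 2
  · have : 0 ≤ D ^ 2 / δ ^ 2 := by positivity
    linarith [h e]
  · have : 1 ≤ D ^ 2 / δ ^ 2 := by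
      rw [le_div_iff₀ (by positivity)]
      linarith
    linarith

theorem Ex_ge_of_dev {α : Type} [Fintype α] {ω : α → ℝ} (hω : IsProb ω) {g : α → Bool} {m : ℝ}
    (hm : ∑ a, ω a * ind (g a) = m) {δ b B : ℝ} (hδ : 0 < δ) (hB : k / δ ^ 2 ≤ B)
    {F : (Fin k → α) → ℝ} (h1 : ∀ z, b - 1 ≤ F z)
    (h : ∀ z, |∑ i, ind (g (z i)) - k * m| ≤ δ → b ≤ F z) : b - B ≤ Ex (pw ω k) F := by
  have hm0 : 0 ≤ m := hm ▸ Finset.sum_nonneg fun a _ => mul_nonneg (hω.1 a) (ind_nonneg _)
  have hm1 : m ≤ 1 := by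
    rw [← hm, ← hω.2]
    exact Finset.sum_le_sum fun a _ => by nlinarith [hω.1 a, ind_le_one (g a)]
  have h2 := (second_moment hω (g := fun a => ind (g a) - m) (by
    simp only [mul_sub, Finset.sum_sub_distrib, hm, ← Finset.sum_mul, hω.2]; ring)
    (fun a => by cases g a <;> simp only [ind_true, ind_false] <;> nlinarith) k).2
  have hk := isProb_pw hω k
  have h3 := Ex_mono (f := fun z => b - (1 / δ ^ 2) * (∑ i, (ind (g (z i)) - m)) ^ 2) (g := F)
    hk.1 fun z => by
      have e : ∑ i, (ind (g (z i)) - m) = ∑ i, ind (g (z i)) - k * m := by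
        simp [Finset.sum_sub_distrib]
      rw [e, one_div_mul_eq_div]
      exact le_of_dev hδ (h1 z) fun hz => h z (abs_le_of_sq_le_sq' hz hδ.le |> abs_le.2)
  rw [Ex_sub, hk.Ex_const, Ex_const_mul] at h3
  have : 1 / δ ^ 2 * Ex (pw ω k) (fun z => (∑ i, (ind (g (z i)) - m)) ^ 2) ≤ k / δ ^ 2 := by
    rw [one_div_mul_eq_div]
    exact div_le_div_of_nonneg_right h2 (by positivity)
  linarith

theorem Ex_le_of_dev {α : Type} [Fintype α] {ω : α → ℝ} (hω : IsProb ω) {g : α → Bool} {m : ℝ}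
    (hm : ∑ a, ω a * ind (g a) = m) {δ b B : ℝ} (hδ : 0 < δ) (hB : k / δ ^ 2 ≤ B)
    {F : (Fin k → α) → ℝ} (h1 : ∀ z, F z ≤ b + 1)
    (h : ∀ z, |∑ i, ind (g (z i)) - k * m| ≤ δ → F z ≤ b) : Ex (pw ω k) F ≤ b + B := by
  have := Ex_ge_of_dev hω hm hδ hB (b := -b) (F := fun z => (-1) * F z)
    (fun z => by linarith [h1 z]) fun z hz => by linarith [h z hz]
  rw [Ex_const_mul] at this
  linarith

/-- The constraints of the cube gadget. -/
def CubeRel (p c s L : ℝ) (k : ℕ) (μ : (Bool ⊕ (Fin k → Bool) → Bool) → ℝ) : Prop :=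
  (∀ q : (Fin k → Bool) × (Fin k → Bool),
    (c * hd q.1 q.2 ≤ s * k → p - s ≤ KK μ (.inr q.1) (.inr q.2)) ∧
    (L * k ≤ c * hd q.1 q.2 → KK μ (.inr q.1) (.inr q.2) ≤ p - L)) ∧
  ∀ q : Bool × (Fin k → Bool),
    (c * (hd (fun _ => true) q.2 + 1) ≤ s * k → p - s ≤ KK μ (.inl q.1) (.inr q.2)) ∧
    (L * k ≤ c * (hd (fun _ => true) q.2 - 1) → KK μ (.inl q.1) (.inr q.2) ≤ p - L)

theorem real_cube {p s L : ℝ} (hs : SG p s) (hL : DG p L) (c : ℝ) (k : ℕ) :
    Real p _ (CubeRel p c s L k) :=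
  (Real.all fun _ => ((hs.pull _ _).imp _).and ((hL.pull _ _).imp _)).and
    (Real.all fun _ => ((hs.pull _ _).imp _).and ((hL.pull _ _).imp _))

theorem cube_complete {p c s L : ℝ} (hk : 0 < k) (h0 : 0 ≤ c) (h1 : c ≤ p) (h2 : p + c ≤ 1)
    (x : Fin k → Bool) (hx : hd (fun _ => true) x ≤ 1) :
    ∃ μ, Bal p μ ∧ law μ (fun x t => x (.inl t)) = law2 p (p - c / k * hd (fun _ => true) x) ∧
      CubeRel p c s L k μ := by
  have hk' : (0 : ℝ) < k := by exact_mod_cast hk
  obtain ⟨μ, hμ, hK⟩ := cube_model hk h0 h1 h2 (V := Bool ⊕ (Fin k → Bool))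
    (Sum.elim (fun a => cond a x fun _ => true) id)
  have e1 : ∀ {a : ℝ}, c * a ≤ s * k → c / k * a ≤ s := fun h => by
    rwa [div_mul_eq_mul_div, div_le_iff₀ hk']
  have e2 : ∀ {a : ℝ}, L * k ≤ c * a → L ≤ c / k * a := fun h => by
    rwa [div_mul_eq_mul_div, le_div_iff₀ hk']
  refine ⟨μ, hμ, ?_, fun q => ⟨fun h => ?_, fun h => ?_⟩, fun q => ?_⟩
  · rw [(hμ.pull Sum.inl).eq_law2]
    congr 1
    rw [KK, Ex_law]
    exact hK (.inl false) (.inl true)
  · rw [hK]
    simp only [Sum.elim_inr, id]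
    linarith [e1 h]
  · rw [hK]
    simp only [Sum.elim_inr, id]
    linarith [e2 h]
  · have t1 : hd (cond q.1 x fun _ => true) q.2 ≤ hd (fun _ => true) q.2 + 1 := by
      cases q.1
      · simp
      · have := hd_triangle x (fun _ => true) q.2
        rw [hd_comm x fun _ => true] at this
        simp only [cond_true]
        linarith
    have t2 : hd (fun _ => true) q.2 - 1 ≤ hd (cond q.1 x fun _ => true) q.2 := by
      cases q.1
      · simp
      · have := hd_triangle (fun _ => true) x q.2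
        simp only [cond_true]
        linarith
    rw [hK]
    simp only [Sum.elim_inl, Sum.elim_inr, id]
    constructor
    · intro h
      linarith [e1 ((mul_le_mul_of_nonneg_left t1 h0).trans h)]
    · intro h
      linarith [e2 (h.trans (mul_le_mul_of_nonneg_left t2 h0))]

theorem cube_sound {p c s L β η : ℝ} (hp : p ≤ 1) (hc0 : 0 ≤ c) (hc1 : c ≤ 1) (hβ : 1 / 3 ≤ β)
    (hβ' : β < 1 / 2) (hη : 0 < η) (hη1 : η ≤ 1) (hs : s = β * c + η) (hL : L = (1 - β) * c - η)
    (hk : 4 / η ^ 3 ≤ k) {μ : (Bool ⊕ (Fin k → Bool) → Bool) → ℝ} (hμ : Bal p μ)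
    (h : CubeRel p c s L k μ) :
    (1 - 2 * β) ^ 2 * (p - KK μ (.inl false) (.inl true)) ≤ 20 * η := by
  have hβ0 : 0 ≤ β := by linarith
  have hβ1 : β ≤ 1 := by linarith
  have hk0 : (0 : ℝ) < k := lt_of_lt_of_le (by positivity) hk
  have hk1 : 4 ≤ η ^ 3 * k := by rwa [div_le_iff₀ (by positivity), mul_comm] at hk
  have hk2 : 2 ≤ η * k := by
    have : η ^ 3 * k ≤ η * k := by
      refine mul_le_mul_of_nonneg_right ?_ hk0.le
      have := pow_le_one₀ hη.le hη1 (n := 2)
      nlinarith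
    linarith
  have hδ : 0 < η * k / 2 := by positivity
  have hB : k / (η * k / 2) ^ 2 ≤ η := by
    rw [div_le_iff₀ (by positivity)]
    nlinarith
  have hs0 : 0 ≤ s := by rw [hs]; positivity
  have hL1 : L ≤ 1 := by
    have := mul_le_one₀ (by linarith : 1 - β ≤ 1) hc0 hc1
    linarith
  have hsk : s * k = c * β * k + η * k := by rw [hs]; ring
  have hLk : L * k = c * (1 - β) * k - η * k := by rw [hL]; ring
  have lo : ∀ a b, p - s - 1 ≤ KK μ a b := fun a b => by linarith [hμ.KK_nonneg a b]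
  have hi : ∀ a b, KK μ a b ≤ p - L + 1 := fun a b => by linarith [hμ.KK_le a b]
  have dev : ∀ {H m : ℝ}, |H - k * m| ≤ η * k / 2 →
      c * H ≤ c * m * k + η * k / 2 ∧ c * m * k - η * k / 2 ≤ c * H := by
    intro H m hh
    rw [abs_le] at hh
    have t1 := mul_le_mul_of_nonneg_left hh.1 hc0
    have t2 := mul_le_mul_of_nonneg_left hh.2 hc0
    have t3 := mul_le_mul_of_nonneg_right hc1 hδ.le
    constructor <;> linarith
  have hν := isProb_pw (isProb_wt hβ0 hβ1) k
  set ν := pw (wt β) k with hνdef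
  -- the variance bound
  let θ := (1 - 2 * β) / (2 * (1 - β))
  have hθ : (1 - θ) * (2 * (1 - β)) = 1 := by
    have : 1 - β ≠ 0 := by linarith
    simp only [θ]
    field_simp
    ring
  have hθ0 : 0 ≤ θ := div_nonneg (by linarith) (by linarith)
  have hθ1 : θ ≤ 1 := div_le_one_of_le₀ (by linarith) (by linarith)
  have hτ : IsProb (tw β θ) := isProb_tw hβ0 hβ1 hθ1
    (add_nonneg hθ0 (mul_nonneg (by linarith) hβ0)) (by linarith)
  have varb : ∀ r : (Fin k → Bool) → Fin k → Bool, (∀ y y', hd (r y) (r y') = hd y y') →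
      Ex μ (fun x => Var β fun y => ind (x (.inr (r y)))) ≤ 2 * (1 - β) * (s + η) := by
    intro r hr
    have a1 : p - s - η ≤ Ex (pw (tw β θ) k) fun z => KK μ (.inr (r (fs z))) (.inr (r (sn z))) := by
      refine Ex_ge_of_dev hτ (g := fun a => a.1 != a.2) (m := β) ?_ hδ hB (fun z => lo _ _)
        fun z hz => (h.1 (r (fs z), r (sn z))).1 ?_
      · simp [Fintype.sum_prod_type, tw, wt]
        linear_combination β * hθ
      · have := (dev (H := hd (fs z) (sn z)) hz).1
        simp only [hr]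
        linarith
    have a2 : Ex (pw (tw β θ) k) (fun z => KK μ (.inr (r (fs z))) (.inr (r (sn z)))) =
        Ex μ fun x => QQ β θ fun y => ind (x (.inr (r y))) := by
      simp only [KK, QQ]
      rw [Ex_comm]
    have a3 : Ex μ (fun x => Ex ν fun y => ind (x (.inr (r y)))) = p := by
      rw [Ex_comm]
      simp only [hμ.2]
      exact hν.Ex_const p
    have a4 := Ex_mono (μ := μ) (f := fun x => (1 - θ) * Var β fun y => ind (x (.inr (r y))))
      (g := fun x => (Ex ν fun y => ind (x (.inr (r y)))) - QQ β θ fun y => ind (x (.inr (r y))))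
      hμ.1.1 fun x => by
        have b1 := spectral hβ0 hβ1 (θ := θ) (by rwa [abs_of_nonneg hθ0]) k
          fun y => ind (x (.inr (r y)))
        rw [abs_of_nonneg hθ0, abs_le] at b1
        have b2 : (Var β fun y => ind (x (.inr (r y)))) = (Ex ν fun y => ind (x (.inr (r y)))) -
            (Ex ν fun y => ind (x (.inr (r y)))) ^ 2 := by
          unfold Var
          congr 1
          exact Ex_congr fun y => ind_sq _
        linarith [b1.2]
    rw [Ex_const_mul, Ex_sub, a3, ← a2] at a4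
    generalize Ex μ (fun x => Var β fun y => ind (x (.inr (r y)))) = V at a4
    have : V = 2 * (1 - β) * ((1 - θ) * V) := by linear_combination (-V) * hθ
    rw [this]
    exact mul_le_mul_of_nonneg_left (by linarith) (by linarith)
  -- the second moment of the extrapolated mean
  let ϑ := -((1 - 2 * β) / (2 * β))
  have hϑ : (1 - ϑ) * (2 * β) = 1 := by
    have : β ≠ 0 := by linarith
    simp only [ϑ]
    field_simp
    ring
  have hϑ0 : ϑ ≤ 0 := neg_nonpos.2 (div_nonneg (by linarith) (by linarith))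
  have hϑ1 : -ϑ ≤ 1 := by
    simp only [ϑ, neg_neg]
    exact div_le_one_of_le₀ (by linarith) (by linarith)
  have hϑ2 : (1 - ϑ) * β = 1 / 2 := by linarith
  have hϑ3 : -1 / 2 ≤ ϑ := by
    have := mul_le_mul_of_nonneg_left hβ (by linarith : 0 ≤ 1 - ϑ)
    linarith
  have hσ : IsProb (tw β ϑ) := isProb_tw hβ0 hβ1 (by linarith) (by linarith) (by linarith)
  let F : (Bool ⊕ (Fin k → Bool) → Bool) → (Fin k → Bool) → ℝ := fun x y =>
    (1 - β) * ind (x (.inr y)) - β * ind (x (.inr (ng y)))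
  have hmean : ∑ a : Bool × Bool, tw β ϑ a * ind (a.1 != a.2) = 1 - β := by
    simp [Fintype.sum_prod_type, tw, wt]
    linear_combination (1 - β) * hϑ
  have c1 : Ex (pw (tw β ϑ) k) (fun z => KK μ (.inr (fs z)) (.inr (sn z))) ≤ p - L + η :=
    Ex_le_of_dev hσ hmean hδ hB (fun z => hi _ _) fun z hz => (h.1 (fs z, sn z)).2 (by
      have := (dev (H := hd (fs z) (sn z)) hz).2
      dsimp only
      linarith)
  have c2 : Ex (pw (tw β ϑ) k) (fun z => KK μ (.inr (ng (fs z))) (.inr (ng (sn z)))) ≤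
      p - L + η :=
    Ex_le_of_dev hσ hmean hδ hB (fun z => hi _ _) fun z hz => (h.1 (ng (fs z), ng (sn z))).2 (by
      have := (dev (H := hd (fs z) (sn z)) hz).2
      simp only [hd_ng_ng]
      linarith)
  have c3 : p - s - η ≤ Ex (pw (tw β ϑ) k) (fun z => KK μ (.inr (fs z)) (.inr (ng (sn z)))) :=
    Ex_ge_of_dev hσ hmean hδ hB (fun z => lo _ _) fun z hz => (h.1 (fs z, ng (sn z))).1 (by
      have := (dev (H := hd (fs z) (sn z)) hz).2
      simp only [hd_ng_right]
      linarith)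
  have c4 : p - s - η ≤ Ex (pw (tw β ϑ) k) (fun z => KK μ (.inr (ng (fs z))) (.inr (sn z))) :=
    Ex_ge_of_dev hσ hmean hδ hB (fun z => lo _ _) fun z hz => (h.1 (ng (fs z), sn z)).1 (by
      have := (dev (H := hd (fs z) (sn z)) hz).2
      simp only [hd_ng_left]
      linarith)
  have c5 : Ex μ (fun x => QQ β ϑ (F x)) =
      (1 - β) ^ 2 * Ex (pw (tw β ϑ) k) (fun z => KK μ (.inr (fs z)) (.inr (sn z))) +
      β ^ 2 * Ex (pw (tw β ϑ) k) (fun z => KK μ (.inr (ng (fs z))) (.inr (ng (sn z)))) -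
      β * (1 - β) * Ex (pw (tw β ϑ) k) (fun z => KK μ (.inr (fs z)) (.inr (ng (sn z)))) -
      β * (1 - β) * Ex (pw (tw β ϑ) k) (fun z => KK μ (.inr (ng (fs z))) (.inr (sn z))) := by
    simp only [QQ]
    rw [Ex_comm]
    simp only [KK, ← Ex_const_mul, ← Ex_add, ← Ex_sub]
    exact Ex_congr fun z => Ex_congr fun x => by simp only [F]; ring
  have c6 := Ex_mono (μ := μ) (f := fun x => Ex ν (F x) ^ 2)
    (g := fun x => QQ β ϑ (F x) + (-ϑ) * ((1 - β) * Var β (fun y => ind (x (.inr (id y)))) +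
      β * Var β fun y => ind (x (.inr (ng y))))) hμ.1.1 fun x => by
      have b1 := spectral hβ0 hβ1 (θ := ϑ) (by rwa [abs_of_nonpos hϑ0]) k (F x)
      rw [abs_of_nonpos hϑ0, abs_le] at b1
      have b2 := mul_le_mul_of_nonneg_left (Var_comb hβ0 hβ1 (fun y => ind (x (.inr y)))
        fun y => ind (x (.inr (ng y)))) (neg_nonneg.2 hϑ0)
      simp only [id]
      linarith [b1.1]
  rw [Ex_add, Ex_const_mul, Ex_add, Ex_const_mul, Ex_const_mul, c5] at c6
  have v1 := varb id fun _ _ => rfl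
  have v2 := varb ng hd_ng_ng
  have c7 : Ex μ (fun x => Ex ν (F x) ^ 2) ≤ (1 - 2 * β) ^ 2 * p + 2 * η * (1 + 2 * (1 - 2 * β)) := by
    have w1 : (1 - β) * Ex μ (fun x => Var β fun y => ind (x (.inr (id y)))) +
        β * Ex μ (fun x => Var β fun y => ind (x (.inr (ng y)))) ≤ 2 * (1 - β) * (s + η) := by
      linarith [mul_le_mul_of_nonneg_left v1 (by linarith : 0 ≤ 1 - β),
        mul_le_mul_of_nonneg_left v2 hβ0]
    have w2 := mul_le_mul_of_nonneg_left w1 (neg_nonneg.2 hϑ0)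
    have w3 : -ϑ * (2 * (1 - β) * (s + η)) =
        (1 - 2 * β) * (1 - β) * c + (-ϑ) * (2 * (1 - β)) * (2 * η) := by
      rw [hs]
      linear_combination ((1 - β) * c) * hϑ
    have w4 : (-ϑ) * (2 * (1 - β)) ≤ 2 * (1 - 2 * β) := by
      have := mul_le_mul_of_nonneg_left hβ (neg_nonneg.2 hϑ0)
      linarith
    have w5 := mul_le_mul_of_nonneg_right w4 (by linarith : 0 ≤ 2 * η)
    have u1 := mul_le_mul_of_nonneg_left c1 (sq_nonneg (1 - β))
    have u2 := mul_le_mul_of_nonneg_left c2 (sq_nonneg β)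
    have hb : 0 ≤ β * (1 - β) := mul_nonneg hβ0 (by linarith)
    have u3 := mul_le_mul_of_nonneg_left c3 hb
    have u4 := mul_le_mul_of_nonneg_left c4 hb
    have w6 : (1 - β) ^ 2 * (p - L + η) + β ^ 2 * (p - L + η) - β * (1 - β) * (p - s - η) -
        β * (1 - β) * (p - s - η) = (1 - 2 * β) ^ 2 * p - (1 - 2 * β) * (1 - β) * c + 2 * η := by
      rw [hs, hL]
      ring
    linarith
  -- the correlation with the terminals
  have hm0 : ∑ a : Bool, wt β a * ind (true != a) = β := by simp [wt]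
  have d1 : ∀ a, (1 - 2 * β) * p - 2 * η ≤ Ex μ (fun x => ind (x (.inl a)) * Ex ν (F x)) := by
    intro a
    have e1 : p - s - η ≤ Ex ν fun y => KK μ (.inl a) (.inr y) :=
      Ex_ge_of_dev (isProb_wt hβ0 hβ1) hm0 hδ hB (fun z => lo _ _) fun z hz => (h.2 (a, z)).1 (by
        have := (dev (H := hd (fun _ => true) z) hz).1
        dsimp only
        linarith)
    have e2 : Ex ν (fun y => KK μ (.inl a) (.inr (ng y))) ≤ p - L + η :=
      Ex_le_of_dev (isProb_wt hβ0 hβ1) hm0 hδ hB (fun z => hi _ _) fun z hz =>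
        (h.2 (a, ng z)).2 (by
          have := (dev (H := hd (fun _ => true) z) hz).1
          simp only [hd_ng_right]
          linarith)
    have e3 : Ex μ (fun x => ind (x (.inl a)) * Ex ν (F x)) =
        (1 - β) * Ex ν (fun y => KK μ (.inl a) (.inr y)) -
          β * Ex ν (fun y => KK μ (.inl a) (.inr (ng y))) := by
      simp only [← Ex_const_mul]
      rw [Ex_comm]
      simp only [KK, ← Ex_const_mul, ← Ex_sub]
      exact Ex_congr fun z => Ex_congr fun x => by simp only [F]; ring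
    have u1 := mul_le_mul_of_nonneg_left e1 (by linarith : 0 ≤ 1 - β)
    have u2 := mul_le_mul_of_nonneg_left e2 hβ0
    have w : (1 - β) * (p - s - η) - β * (p - L + η) = (1 - 2 * β) * p - 2 * η := by
      rw [hs, hL]
      ring
    linarith
  have fin := Ex_mono (μ := μ)
    (f := fun x => 2 * (1 - 2 * β) * (ind (x (.inl false)) * Ex ν (F x)) +
      2 * (1 - 2 * β) * (ind (x (.inl true)) * Ex ν (F x)) - 2 * Ex ν (F x) ^ 2 -
      (1 - 2 * β) ^ 2 / 2 * ind (x (.inl false)) - (1 - 2 * β) ^ 2 / 2 * ind (x (.inl true)))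
    (g := fun x => (1 - 2 * β) ^ 2 * (ind (x (.inl false)) * ind (x (.inl true)))) hμ.1.1
    fun x => by
      generalize Ex ν (F x) = n
      generalize 1 - 2 * β = D
      cases x (.inl false) <;> cases x (.inl true) <;> simp only [ind_true, ind_false]
      · linarith [sq_nonneg n]
      · linarith [sq_nonneg (D - 2 * n)]
      · linarith [sq_nonneg (D - 2 * n)]
      · linarith [sq_nonneg (D - n)]
  simp only [Ex_sub, Ex_add, Ex_const_mul, hμ.2] at fin
  have f1 := mul_le_mul_of_nonneg_left (d1 false) (by linarith : 0 ≤ 2 * (1 - 2 * β))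
  have f2 := mul_le_mul_of_nonneg_left (d1 true) (by linarith : 0 ≤ 2 * (1 - 2 * β))
  have f3 := mul_le_mul_of_nonneg_right (by linarith : 1 - 2 * β ≤ 1) hη.le
  unfold KK
  linarith

theorem amplify {p s L : ℝ} (hp : 2 * p ≤ 1) (hs : SG p s) (hL : DG p L) (h0 : 0 < s) (h1 : s < L)
    (h2 : L < 2 * s) (h3 : s + L ≤ p) {ε : ℝ} (hε : 0 < ε) : ∃ r, 0 < r ∧ r ≤ ε ∧ SG p r := by
  set c := s + L with hc
  have hc0 : 0 < c := by linarith
  let D := (L - s) / c
  have hD : 0 < D := div_pos (by linarith) hc0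
  let η := min (min 1 ((2 * s - L) / 3)) (ε * D ^ 2 / 20)
  have hη : 0 < η := lt_min (lt_min one_pos (by linarith)) (by positivity)
  have hη1 : η ≤ 1 := (min_le_left _ _).trans (min_le_left _ _)
  have hη2 : η ≤ (2 * s - L) / 3 := (min_le_left _ _).trans (min_le_right _ _)
  have hη3 : η ≤ ε * D ^ 2 / 20 := min_le_right _ _
  let β := (s - η) / c
  have hβc : β * c = s - η := div_mul_cancel₀ _ hc0.ne'
  have hDc : D * c = L - s := div_mul_cancel₀ _ hc0.ne'
  have hβ : 1 / 3 ≤ β := by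
    rw [le_div_iff₀ hc0]
    linarith
  have hβ' : β < 1 / 2 := by
    rw [div_lt_iff₀ hc0]
    linarith
  have hDβ : D ≤ 1 - 2 * β := by
    refine le_of_mul_le_mul_right ?_ hc0
    nlinarith
  obtain ⟨k, hk⟩ := exists_nat_ge (4 / η ^ 3)
  have hk0 : (0 : ℝ) < k := lt_of_lt_of_le (by positivity) hk
  have hk1 : 0 < k := by exact_mod_cast hk0
  have hk2 : (1 : ℝ) ≤ k := by exact_mod_cast hk1
  obtain ⟨Γ, hΓ⟩ := (real_cube hs hL c k).ex (by linarith)
  have hck : c / k ≤ p := by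
    rw [div_le_iff₀ hk0]
    nlinarith
  have hck0 : 0 < c / k := by positivity
  obtain ⟨r, r1, r2, r3⟩ := sg_of Γ hp (K := p - c / k) (s' := ε) (by linarith) (by linarith)
    ((hΓ _ (bal_law2 hp (by linarith) le_rfl)).2 (by
      have := cube_complete (s := s) (L := L) hk1 hc0.le h3 (by linarith) (fun _ => true)
        (by rw [hd_self]; exact zero_le_one)
      rwa [hd_self, mul_zero, sub_zero] at this))
    ((hΓ _ (bal_law2 hp (by linarith) (by linarith))).2 (by
      have e := hd_update (fun _ : Fin k => true) ⟨0, hk1⟩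
      have := cube_complete (s := s) (L := L) hk1 hc0.le h3 (by linarith) _ e.le
      rwa [e, mul_one] at this))
    (fun μ hμ h => by
      obtain ⟨μ', k1, rfl, k3⟩ := (hΓ μ hμ).1 h
      have := cube_sound (by linarith) hc0.le (by linarith) hβ hβ' hη hη1 (by linarith)
        (by linarith) hk k1 k3
      have e : KK (law μ' fun x t => x (.inl t)) false true = KK μ' (.inl false) (.inl true) := by
        rw [KK, Ex_law]; rfl
      rw [e]
      have a1 := k1.KK_le (.inl false) (.inl true)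
      have a2 : D ^ 2 ≤ (1 - 2 * β) ^ 2 := by nlinarith
      have a3 : D ^ 2 * (p - KK μ' (.inl false) (.inl true)) ≤ D ^ 2 * ε := by nlinarith
      have := le_of_mul_le_mul_left a3 (by positivity)
      linarith)
  exact ⟨r, by linarith, r2, r3⟩

end Pool.Agent.MP_9e68e9_lc

end

section

/-! The reduction from gap satisfiability, and hardness above `5/2`. -/

namespace Pool.Agent.MP_9e68e9_lc

open Finset Pool.Agent.MP_2e8011_lc

variable {p σ L : ℝ}

/-- The relation imposed by a clause: `0, 1` are the two reference events, `2` is the event of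
a false literal, `3, 4, 5` are the literals and `6, 7, 8` their negations. -/
def ClauseRel (p σ L : ℝ) (ν : (Fin 9 → Bool) → ℝ) : Prop :=
  (∀ s : Fin 9, 2 ≤ s.val → p - σ ≤ KK ν s 0 ∧ p - σ ≤ KK ν s 1) ∧
    (KK ν 0 1 ≤ p - L ∧ KK ν 3 6 ≤ p - L ∧ KK ν 4 7 ≤ p - L ∧ KK ν 5 8 ≤ p - L) ∧
    p + L ≤ Ex ν (fun y => ind (y 2 || y 3 || y 4 || y 5))

theorem clause_real (hσ : SG p σ) (hO : OG p (p + L)) : Real p (Fin 9) (ClauseRel p σ L) := by
  have hD : DG p L := by simpa using hO.dg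
  refine ((Real.all fun s : Fin 9 => ((hσ.pull s 0).and (hσ.pull s 1)).imp (2 ≤ s.val)).and
    (((hD.pull 0 1).and ((hD.pull 3 6).and ((hD.pull 4 7).and (hD.pull 5 8)))).and
    ((hO (Fin 4) 0).pull ![2, 3, 4, 5]))).congr fun μ _ => ?_
  refine and_congr Iff.rfl (and_congr Iff.rfl ?_)
  rw [UU, Ex_law]
  refine iff_of_eq (congrArg _ (Ex_congr fun x => congrArg ind ?_))
  simp [Fin.exists_fin_succ, Bool.or_assoc]

/-- Integer indicator. -/
def zi (b : Bool) : ℤ := if b then 1 else 0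

theorem ind_zi (b : Bool) : ind b = (zi b : ℝ) := by cases b <;> simp [zi]

theorem clause_sound {ν : (Fin 9 → Bool) → ℝ} (hν : Bal p ν) (h : ClauseRel p σ L ν) :
    2 * L - 2 * σ ≤ Ex ν (fun y => ind ((y 0 != y 1) && !y 2)) ∧
    Ex ν (fun y => ind (((y 0 != y 1) && !y 2) &&
      ((!y 3 || y 6) && (!y 4 || y 7) && (!y 5 || y 8)))) ≤ 10 * (2 * σ - L) := by
  obtain ⟨h1, ⟨k0, k1, k2, k3⟩, h3⟩ := h
  have a2 := h1 2 (by decide)
  have a3 := h1 3 (by decide)
  have a4 := h1 4 (by decide)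
  have a5 := h1 5 (by decide)
  have a6 := h1 6 (by decide)
  have a7 := h1 7 (by decide)
  have a8 := h1 8 (by decide)
  simp only [KK] at *
  constructor
  · have := Ex_mono (μ := ν) (g := fun y => ind ((y 0 != y 1) && !y 2))
      (f := fun y => ind (y 0) + ind (y 1) - 2 * (ind (y 0) * ind (y 1)) - 2 * ind (y 2) +
        ind (y 2) * ind (y 0) + ind (y 2) * ind (y 1)) hν.1.1 fun y => by
        cases y 0 <;> cases y 1 <;> cases y 2 <;> norm_num
    simp only [Ex_add, Ex_sub, Ex_const_mul, hν.2] at this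
    linarith
  · have key : ∀ y0 y1 y2 y3 y4 y5 y6 y7 y8 : Bool, zi (((y0 != y1) && !y2) &&
        ((!y3 || y6) && (!y4 || y7) && (!y5 || y8))) ≤ zi y0 + zi y1 + 6 * (zi y0 * zi y1) -
        zi (y2 || y3 || y4 || y5) + (zi y2 - zi y2 * zi y0 - zi y2 * zi y1) +
        2 * (zi y3 - zi y3 * zi y0 - zi y3 * zi y1) + 2 * (zi y4 - zi y4 * zi y0 - zi y4 * zi y1) +
        2 * (zi y5 - zi y5 * zi y0 - zi y5 * zi y1) + (zi y6 - zi y6 * zi y0 - zi y6 * zi y1) +
        (zi y7 - zi y7 * zi y0 - zi y7 * zi y1) + (zi y8 - zi y8 * zi y0 - zi y8 * zi y1) +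
        zi y3 * zi y6 + zi y4 * zi y7 + zi y5 * zi y8 := by decide +kernel
    have := Ex_mono (μ := ν) (f := fun y => ind (((y 0 != y 1) && !y 2) &&
        ((!y 3 || y 6) && (!y 4 || y 7) && (!y 5 || y 8))))
      (g := fun y => ind (y 0) + ind (y 1) + 6 * (ind (y 0) * ind (y 1)) -
        ind (y 2 || y 3 || y 4 || y 5) +
        (ind (y 2) - ind (y 2) * ind (y 0) - ind (y 2) * ind (y 1)) +
        2 * (ind (y 3) - ind (y 3) * ind (y 0) - ind (y 3) * ind (y 1)) +
        2 * (ind (y 4) - ind (y 4) * ind (y 0) - ind (y 4) * ind (y 1)) +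
        2 * (ind (y 5) - ind (y 5) * ind (y 0) - ind (y 5) * ind (y 1)) +
        (ind (y 6) - ind (y 6) * ind (y 0) - ind (y 6) * ind (y 1)) +
        (ind (y 7) - ind (y 7) * ind (y 0) - ind (y 7) * ind (y 1)) +
        (ind (y 8) - ind (y 8) * ind (y 0) - ind (y 8) * ind (y 1)) +
        ind (y 3) * ind (y 6) + ind (y 4) * ind (y 7) + ind (y 5) * ind (y 8)) hν.1.1 fun y => by
        simp only [ind_zi]
        exact_mod_cast key _ _ _ _ _ _ _ _ _
    simp only [Ex_add, Ex_sub, Ex_const_mul, hν.2] at this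
    linarith

/-- Weights of the six atoms in the satisfiable case. -/
def aw (p σ : ℝ) : Fin 6 → ℝ := ![p - 2 * σ, σ, σ, σ, σ, 1 - p - 2 * σ]

/-- The event of a true (or false) literal. -/
def ev (b : Bool) : Fin 6 → Bool := ![true, b, b, !b, !b, false]

/-- The two reference events. -/
def rf (b : Bool) : Fin 6 → Bool := ![true, b, !b, b, !b, false]

theorem clause_complete (hL : L ≤ 2 * σ) (Y : Fin 6 → Fin 9 → Bool)
    (b0 b1 b2 : Bool) (hb : b0 = true ∨ b1 = true ∨ b2 = true)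
    (hY : ∀ ω, Y ω = ![rf true ω, rf false ω, ev false ω, ev b0 ω, ev b1 ω, ev b2 ω,
      ev (!b0) ω, ev (!b1) ω, ev (!b2) ω]) : ClauseRel p σ L (law (aw p σ) Y) := by
  have k1 : ∀ b c, Ex (aw p σ) (fun ω => ind (ev b ω) * ind (rf c ω)) = p - σ := by
    intro b c
    cases b <;> cases c <;> simp [Ex, Fin.sum_univ_six, aw, ev, rf] <;> ring
  have k2 : ∀ b, Ex (aw p σ) (fun ω => ind (ev b ω) * ind (ev (!b) ω)) = p - 2 * σ := by
    intro b
    cases b <;> simp [Ex, Fin.sum_univ_six, aw, ev]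
  have k3 : Ex (aw p σ) (fun ω => ind (rf true ω) * ind (rf false ω)) = p - 2 * σ := by
    simp [Ex, Fin.sum_univ_six, aw, rf]
  have k4 : Ex (aw p σ) (fun ω => ind (ev false ω || ev b0 ω || ev b1 ω || ev b2 ω)) =
      p + 2 * σ := by
    cases b0 <;> cases b1 <;> cases b2 <;> simp [Ex, Fin.sum_univ_six, aw, ev] at hb ⊢ <;> ring
  simp only [ClauseRel, KK, Ex_law, hY]
  refine ⟨fun s hs => ?_, ⟨k3.le.trans (by linarith), (k2 b0).le.trans (by linarith),
    (k2 b1).le.trans (by linarith), (k2 b2).le.trans (by linarith)⟩,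
    le_of_le_of_eq (by linarith) k4.symm⟩
  fin_cases s
  · simp at hs
  · simp at hs
  all_goals exact ⟨(k1 _ _).ge, (k1 _ _).ge⟩

/-- The number of the terminal of a literal. -/
def tm (v : ℕ) (b : Bool) : ℕ := 3 + 2 * v + cond b 1 0

/-- The terminals of a clause. -/
def ct (c : List (ℕ × Bool)) (s : ℕ) : ℕ :=
  if s < 3 then s else
    tm (c.getD (s % 3) (0, false)).1 (decide ((c.getD (s % 3) (0, false)).2 = decide (s < 6)))

theorem ct_lt (ψ : CNF) (j s : ℕ) : ct (ψ.getD j []) s < 3 + 2 * (sz ψ + 1) := by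
  have : ((ψ.getD j []).getD (s % 3) (0, false)).1 ≤ sz ψ := by
    by_cases hj : j < ψ.length
    · rw [List.getD_eq_getElem _ _ hj]
      by_cases hs : s % 3 < ψ[j].length
      · rw [List.getD_eq_getElem _ _ hs]
        have h1 := sz_le_of_mem (List.getElem_mem hj)
        have h2 := sz_le_of_mem (List.getElem_mem hs)
        generalize ψ[j][s % 3] = l at h2 ⊢
        obtain ⟨v, b⟩ := l
        simp only [sz_prod, sz_nat] at h2
        simp only
        omega
      · rw [List.getD_eq_default _ _ (not_lt.1 hs)]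
        exact Nat.zero_le _
    · rw [List.getD_eq_default _ _ (not_lt.1 hj)]
      exact Nat.zero_le _
  unfold ct tm
  split_ifs
  · omega
  · generalize decide (_ = decide (s < 6)) = b
    cases b <;> simp only [cond_true, cond_false] <;> omega

theorem countP_eq_sum {α : Type} (q : α → Bool) (d : α) (l : List α) :
    (l.countP q : ℝ) = ∑ j ∈ range l.length, ind (q (l.getD j d)) := by
  induction l with
  | nil => simp
  | cons a l ih =>
    rw [List.length_cons, sum_range_succ', List.countP_cons]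
    push_cast
    rw [ih]
    cases h : q a <;> simp [h]

theorem hard_main : ∃ K : ℕ, ∀ p σ L : ℝ, SG p σ → OG p (p + L) → L ≤ 2 * σ → 2 * σ ≤ p →
    p + 2 * σ ≤ 1 → (10 * K + 2) * (2 * σ - L) < 2 * σ → Hard p := by
  obtain ⟨K, f, -, hf, h3, hc, hs⟩ := PCP.gap3sat
  refine ⟨K, fun p σ L hσ hO h1 h2 h4 h5 => ?_⟩
  have hK : (0 : ℝ) ≤ K := Nat.cast_nonneg K
  have h0 : 0 < σ := by nlinarith
  obtain ⟨Γ, hΓ⟩ := clause_real hσ hO
  refine HardF.hard (by linarith) (hardF_of_family (by linarith) Γ (fun φ => (f φ).length)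
    (fun φ => 3 + 2 * (sz (f φ) + 1)) (fun z => ct ((f z.1).getD z.2.1 []) z.2.2) (by fun_prop)
    (by fun_prop) (by unfold ct tm; fun_prop) (fun φ => by omega) (fun φ j s => ct_lt _ _ _)
    fun φ => ⟨fun h => ?_, ?_⟩)
  · obtain ⟨a, ha⟩ := hc φ h
    let X : Fin 6 → ℕ → Bool := fun ω t => if t = 0 then rf true ω else if t = 1 then rf false ω
      else if t = 2 then ev false ω else ev (a ((t - 3) / 2) == decide ((t - 3) % 2 = 1)) ω
    have hX : ∀ ω v b, X ω (tm v b) = ev (a v == b) ω := by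
      intro ω v b
      have e1 : (tm v b - 3) / 2 = v := by cases b <;> simp only [tm, cond] <;> omega
      have e2 : decide ((tm v b - 3) % 2 = 1) = b := by
        cases b <;> simp only [tm, cond, decide_eq_true_eq, decide_eq_false_iff_not] <;> omega
      have e3 : 3 ≤ tm v b := by unfold tm; omega
      simp only [X]
      rw [if_neg (by omega), if_neg (by omega), if_neg (by omega), e1, e2]
    have hP : IsProb (aw p σ) := ⟨fun ω => by fin_cases ω <;> simp [aw] <;> linarith, by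
      simp [Fin.sum_univ_six, aw]; ring⟩
    have hb : Bal p (law (aw p σ) fun ω (t : Fin (3 + 2 * (sz (f φ) + 1))) => X ω t) := by
      refine bal_law hP _ fun t => ?_
      have e1 : ∀ b, Ex (aw p σ) (fun ω => ind (ev b ω)) = p := by
        intro b
        cases b <;> simp [Ex, Fin.sum_univ_six, aw, ev] <;> ring
      have e2 : ∀ b, Ex (aw p σ) (fun ω => ind (rf b ω)) = p := by
        intro b
        cases b <;> simp [Ex, Fin.sum_univ_six, aw, rf] <;> ring
      simp only [X]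
      split_ifs
      exacts [e2 _, e2 _, e1 _, e1 _]
    refine ⟨_, hb, fun j hj => (hΓ _ (hb.pull _)).2 ?_⟩
    rw [law_law]
    have hm := List.getElem_mem hj
    simp only [List.getD_eq_getElem _ _ hj]
    obtain ⟨l0, l1, l2, e⟩ := List.length_eq_three.1 (h3 φ _ hm)
    have := ha _ hm
    rw [e] at this ⊢
    refine clause_complete h1 _ (a l0.1 == l0.2) (a l1.1 == l1.2) (a l2.1 == l2.2)
      (by simpa using this) fun ω => ?_
    funext s
    have hn : ∀ u v : Bool, (u == !v) = !(u == v) := by decide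
    fin_cases s <;> simp [ct, hX, hn] <;> rfl
  · rintro ⟨μ, hμ, h⟩
    by_contra hn
    obtain ⟨hne, hbad⟩ := hs φ hn
    have hm : 0 < (f φ).length := List.length_pos_iff.2 hne
    have hcl := fun j hj => clause_sound (hμ.pull _) ((hΓ _ (hμ.pull _)).1 (h j hj))
    simp only [Ex_law] at hcl
    let ex : (Fin (3 + 2 * (sz (f φ) + 1)) → Bool) → ℕ → Bool := fun x t =>
      if h : t < 3 + 2 * (sz (f φ) + 1) then x ⟨t, h⟩ else false
    have hex : ∀ x t ht, x ⟨t, ht⟩ = ex x t := fun x t ht => by simp only [ex, dif_pos ht]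
    simp only [hex] at hcl
    let V : (Fin (3 + 2 * (sz (f φ) + 1)) → Bool) → Bool := fun x => (ex x 0 != ex x 1) && !ex x 2
    let B : ℕ → (Fin (3 + 2 * (sz (f φ) + 1)) → Bool) → Bool := fun j x =>
      (!ex x (ct ((f φ).getD j []) 3) || ex x (ct ((f φ).getD j []) 6)) &&
      (!ex x (ct ((f φ).getD j []) 4) || ex x (ct ((f φ).getD j []) 7)) &&
      (!ex x (ct ((f φ).getD j []) 5) || ex x (ct ((f φ).getD j []) 8))
    have hV : 2 * L - 2 * σ ≤ Ex μ (fun x => ind (V x)) := (hcl 0 hm).1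
    have hB : ∀ j ∈ range (f φ).length, Ex μ (fun x => ind (V x && B j x)) ≤ 10 * (2 * σ - L) :=
      fun j hj => (hcl j (mem_range.1 hj)).2
    have hpt : ∀ x, ((f φ).length : ℝ) * ind (V x) ≤
        K * ∑ j ∈ range (f φ).length, ind (V x && B j x) := by
      intro x
      cases V x
      · simp
      · have := hbad fun v => ex x (tm v true)
        have k : ((f φ).length : ℝ) ≤ K * ((f φ).countP fun c => c.all fun l =>
          ex x (tm l.1 true) != l.2 : ℕ) := by exact_mod_cast this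
        rw [countP_eq_sum _ []] at k
        simp only [ind_true, mul_one, Bool.true_and]
        refine k.trans (mul_le_mul_of_nonneg_left (sum_le_sum fun j hj => ?_) hK)
        have hj := mem_range.1 hj
        simp only [B, List.getD_eq_getElem _ _ hj]
        obtain ⟨⟨v0, b0⟩, ⟨v1, b1⟩, ⟨v2, b2⟩, e⟩ :=
          List.length_eq_three.1 (h3 φ _ (List.getElem_mem hj))
        rw [e]
        cases b0 <;> cases b1 <;> cases b2 <;> simp [ct] <;>
          cases ex x (tm v0 true) <;> cases ex x (tm v1 true) <;> cases ex x (tm v2 true) <;>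
          simp [ind_nonneg]
    have := Ex_mono hμ.1.1 hpt
    rw [Ex_const_mul, Ex_const_mul, Ex_sum] at this
    have k := sum_le_card_nsmul _ _ _ hB
    rw [card_range, nsmul_eq_mul] at k
    have hm' : (0 : ℝ) < (f φ).length := by exact_mod_cast hm
    have : ((f φ).length : ℝ) * (2 * L - 2 * σ) ≤ (f φ).length * (K * (10 * (2 * σ - L))) := by
      nlinarith [mul_le_mul_of_nonneg_left k hK, mul_le_mul_of_nonneg_left hV hm'.le]
    have := le_of_mul_le_mul_left this hm'
    nlinarith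

theorem hard_of_small (hp0 : 0 < p) (hp : 2 * p < 1)
    (h : ∀ ε : ℝ, 0 < ε → ∃ r, 0 < r ∧ r ≤ ε ∧ SG p r) : Hard p := by
  obtain ⟨K, hK⟩ := hard_main
  have hK0 : (0 : ℝ) ≤ K := Nat.cast_nonneg K
  obtain ⟨r, h0, h1, h2⟩ := h (min p (1 - 2 * p) / (10 * K + 2))
    (div_pos (lt_min hp0 (by linarith)) (by linarith))
  rw [le_div_iff₀ (by linarith), le_min_iff] at h1
  have hs := h2.nsmul (by linarith) h0 (5 * K)
  push_cast at hs
  let i := ⌈(1 - 2 * p - r * (10 * K + 2)) / r⌉₊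
  have i1 : (1 - 2 * p - r * (10 * K + 2)) / r ≤ i := Nat.le_ceil _
  have i2 : (i : ℝ) < (1 - 2 * p - r * (10 * K + 2)) / r + 1 :=
    Nat.ceil_lt_add_one (div_nonneg (by linarith) h0.le)
  rw [div_le_iff₀ h0] at i1
  rw [← sub_lt_iff_lt_add, lt_div_iff₀ h0] at i2
  have hO := og_iter hp0 (by linarith) h2 h0.le (by nlinarith) i
  refine hK p _ (1 - 2 * p - i * r) hs (by convert hO using 1; ring) (by linarith) (by linarith)
    (by linarith) ?_
  have : (10 * (K : ℝ) + 2) * (2 * ((5 * K + 1) * r) - (1 - 2 * p - i * r)) < (10 * K + 2) * r :=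
    mul_lt_mul_of_pos_left (by linarith) (by linarith)
  linarith

theorem hard_of_window {s : ℝ} (hp : 2 * p < 1) (hs : SG p s) (hL : DG p L) (h0 : 0 < s)
    (h1 : s < L) (h2 : L < 2 * s) (h3 : s + L ≤ p) : Hard p :=
  hard_of_small (by linarith) hp fun _ hε => amplify hp.le hs hL h0 h1 h2 h3 hε

theorem hard_of_third {s : ℝ} (hp : p ≤ 2 / 5) (hs : SG p s) (h0 : 0 < s) (h1 : 3 * s ≤ p) :
    Hard p := by
  let i := ⌈(1 - 2 * p - 2 * s) / s⌉₊
  have i1 : (1 - 2 * p - 2 * s) / s ≤ i := Nat.le_ceil _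
  have i2 : (i : ℝ) < (1 - 2 * p - 2 * s) / s + 1 :=
    Nat.ceil_lt_add_one_of_gt_neg_one (by rw [lt_div_iff₀ h0]; linarith)
  rw [div_le_iff₀ h0] at i1
  rw [← sub_lt_iff_lt_add, lt_div_iff₀ h0] at i2
  have hO := og_iter (by linarith) (by linarith) hs h0.le (by linarith) i
  rcases i1.eq_or_lt with e | e
  · obtain ⟨K, hK⟩ := hard_main
    exact hK p s (2 * s) hs (by convert hO using 1; linarith) le_rfl (by linarith) (by linarith)
      (by linarith)
  · exact hard_of_window (by linarith) hs hO.dg h0 (by linarith) (by linarith) (by linarith)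

theorem hard_base (h1 : 2 / 7 ≤ p) (h2 : p < 2 / 5) : Hard p := by
  rcases h1.eq_or_lt with rfl | h1
  · exact hard_of_third (by norm_num) sg_S (by norm_num) (by norm_num)
  rcases le_or_gt p (3 / 10) with h | h
  · exact hard_of_third h2.le (sg_C h1.le h) (by linarith) (by linarith)
  rcases le_or_gt p (9 / 28) with k | k
  · exact hard_of_third h2.le (sg_E h.le (by linarith)) (by linarith) (by linarith)
  rcases lt_trichotomy p (1 / 3) with l | rfl | l
  · exact hard_of_window (by linarith) (sg_E h.le l.le) (dg_D h.le l.le) (by linarith)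
      (by linarith) (by linarith) (by linarith)
  · exact hard_of_third (by norm_num) sg_N (by norm_num) (by norm_num)
  rcases le_or_gt p (3 / 8) with m | m
  · exact hard_of_third h2.le (sg_T l.le h2.le) (by linarith) (by linarith)
  · exact hard_of_window (by linarith) (sg_T l.le h2.le) (og_base p).dg (by linarith)
      (by linarith) (by linarith) (by linarith)

theorem hard_all {t : ℝ} (ht : 5 / 2 < t) : Hard (1 / t) := by
  obtain ⟨n, hn⟩ := exists_nat_ge t
  have key : ∀ (n : ℕ) (t : ℝ), 5 / 2 < t → t ≤ 7 / 2 + n → Hard (1 / t) := by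
    intro n
    induction n with
    | zero =>
      intro t h1 h2
      refine hard_base ?_ ?_
      · rw [le_div_iff₀ (by linarith)]; simp at h2; linarith
      · rw [div_lt_iff₀ (by linarith)]; linarith
    | succ n ih =>
      intro t h1 h2
      have hn : (0 : ℝ) ≤ n := Nat.cast_nonneg n
      push_cast at h2
      rcases le_or_gt t (7 / 2) with h | h
      · exact ih t h1 (by linarith)
      · have := (ih (t - 1) (by linarith) (by linarith)).shift (one_div_pos.2 (by linarith))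
        have h1 : t - 1 ≠ 0 := by linarith
        have e : 1 + 1 / (t - 1) = t / (t - 1) := by field_simp; ring
        rwa [e, div_div_div_cancel_right₀ h1] at this
  exact key n t ht (by linarith)

theorem high {t : ℝ} (ht : 5 / 2 < t) {A : List Bool → Bool} (hA : A ∈ N68a2faeb.NP) :
    N793a5b8e.ManyOneReducible A (FD t) :=
  (hard_all ht).npHard (by linarith) hA

end Pool.Agent.MP_9e68e9_lc

end

section

/-! Below `5/2` the threshold problem for the fractional domatic number is polynomial. -/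

namespace Pool.Agent.MP_9e68e9_lc

open Pool.Agent.MP_2e8011_lc

theorem low (t : ℝ) (ht : t < 5 / 2) : FD t ∈ N68a2faeb.P := by
  have h0 : 0 < max t 1 := lt_max_of_lt_right one_pos
  have h1 : 2 / 5 < 1 / max t 1 := by
    rw [lt_div_iff₀ h0]
    rcases le_total t 1 with h | h
    · rw [max_eq_right h]; norm_num
    · rw [max_eq_left h]; linarith
  refine PT.mem_P ((Low.pt_good h1).congr fun x => ?_)
  unfold FD
  refine decide_eq_decide.2 (exists₂_congr fun n G => and_congr Iff.rfl ?_)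
  refine ((Low.good_iff_weights G _).trans (le_fdom_iff h0).symm).trans ⟨fun h => ?_, fun h => ?_⟩
  · exact le_trans (EReal.coe_le_coe_iff.2 (le_max_left _ _)) h
  · rcases le_total t 1 with e | e
    · rw [max_eq_right e]; exact one_le_fdom
    · rwa [max_eq_left e]

end Pool.Agent.MP_9e68e9_lc

end
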